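import Pool.Agent.Lib_MP_b306af.CDefs2

/-!
# MP_b306af, PART I: the value function, scaling and tangents
-/

namespace B306C

/-- the value function for `m = 1` -/
noncomputable def T1 (R : ℝ) : ℝ :=
  if R ≤ 10.48576 then R / 2 + 1.31072 else R ^ ((4 : ℝ) / 5)

/-- Subadditivity. -/
theorem pw_add {x y : ℝ} (hx : 0 ≤ x) (hy : 0 ≤ y) :
    (x + y) ^ ((4 : ℝ) / 5) ≤ x ^ ((4 : ℝ) / 5) + y ^ ((4 : ℝ) / 5) := by
  exact Real.rpow_add_le_add_rpow hx hy (by norm_num) (by norm_num)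

/-- Tangent line of the concave function `x ^ (4/5)` at `s`.  (Divide by `s^(4/5)`, Bernoulli
`Real.rpow_one_add_le_one_add_mul_self`.) -/
theorem pw_tan {x s : ℝ} (hx : 0 ≤ x) (hs : 0 < s) :
    x ^ ((4 : ℝ) / 5) ≤ s ^ ((4 : ℝ) / 5) + 4 / 5 * s ^ (-(1 : ℝ) / 5) * (x - s) := by
  have h1 : (-1 : ℝ) ≤ x / s - 1 := by
    have : 0 ≤ x / s := div_nonneg hx hs.le
    linarith
  have h2 := rpow_one_add_le_one_add_mul_self h1 (p := (4 : ℝ) / 5) (by norm_num)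
    (by norm_num)
  have h3 : 1 + (x / s - 1) = x / s := by ring
  rw [h3] at h2
  have h4 : x ^ ((4 : ℝ) / 5) = s ^ ((4 : ℝ) / 5) * (x / s) ^ ((4 : ℝ) / 5) := by
    rw [← Real.mul_rpow hs.le (div_nonneg hx hs.le), mul_div_cancel₀ _ hs.ne']
  have h5 : s ^ (-(1 : ℝ) / 5) = s ^ ((4 : ℝ) / 5) / s := by
    rw [← Real.rpow_sub_one hs.ne']
    norm_num
  rw [h4, h5]
  have h6 := mul_le_mul_of_nonneg_left h2 (Real.rpow_nonneg hs.le ((4 : ℝ) / 5))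
  refine h6.trans (le_of_eq ?_)
  field_simp

/-- For `x ≥ 10.48576 = 1.6 ^ 5` the slope `4/5 x^(-1/5)` is at most `1/2`. -/
theorem pw_slope {x : ℝ} (hx : 10.48576 ≤ x) : 4 / 5 * x ^ (-(1 : ℝ) / 5) ≤ 1 / 2 := by
  have h1 : (10.48576 : ℝ) = (8 / 5 : ℝ) ^ (5 : ℝ) := by
    have : (8 / 5 : ℝ) ^ (5 : ℝ) = (8 / 5 : ℝ) ^ (5 : ℕ) := by
      rw [← Real.rpow_natCast]
      norm_num
    rw [this]
    norm_num
  have h2 : x ^ (-(1 : ℝ) / 5) ≤ (10.48576 : ℝ) ^ (-(1 : ℝ) / 5) :=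
    Real.rpow_le_rpow_of_nonpos (by norm_num) hx (by norm_num)
  have h3 : (10.48576 : ℝ) ^ (-(1 : ℝ) / 5) = 5 / 8 := by
    rw [h1, ← Real.rpow_mul (by norm_num)]
    have : (5 : ℝ) * (-(1 : ℝ) / 5) = -1 := by norm_num
    rw [this, Real.rpow_neg_one]
    norm_num
  rw [h3] at h2
  linarith

theorem Tf_zero {R : ℝ} (hR : 0 ≤ R) : Tf 0 R = R ^ ((4 : ℝ) / 5) := by
  unfold Tf
  split_ifs with h
  · have h0 : R = 0 := le_antisymm (by simpa using h) hR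
    rw [h0, Real.zero_rpow (by norm_num), Real.zero_rpow (by norm_num)]
    norm_num
  · rfl

theorem Tf_scale {m R : ℝ} (hm : 0 < m) (hR : 0 ≤ R) :
    Tf m R = m ^ ((4 : ℝ) / 5) * T1 (R / m) := by
  have hiff : R / m ≤ 10.48576 ↔ R ≤ 10.48576 * m := div_le_iff₀ hm
  unfold Tf T1
  by_cases h : R ≤ 10.48576 * m
  · rw [if_pos h, if_pos (hiff.2 h)]
    have h5 : m ^ (-(1 : ℝ) / 5) = m ^ ((4 : ℝ) / 5) / m := by
      rw [← Real.rpow_sub_one hm.ne']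
      norm_num
    rw [h5]
    field_simp
  · rw [if_neg h, if_neg (fun h' => h (hiff.1 h')),
      ← Real.mul_rpow hm.le (div_nonneg hR hm.le), mul_div_cancel₀ _ hm.ne']

end B306C
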