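import Pool.Agent.Lib_MP_b306af.CA1

/-!
# MP_b306af, PART I: the value function, bounds
-/

namespace B306C

private theorem rp45 : (10.48576 : ℝ) ^ ((4 : ℝ) / 5) = 6.5536 := by
  have h : (10.48576 : ℝ) = (1.6 : ℝ) ^ (5 : ℝ) := by
    rw [show (5 : ℝ) = ((5 : ℕ) : ℝ) by norm_num, Real.rpow_natCast]
    norm_num
  rw [h, ← Real.rpow_mul (by norm_num), show (5 : ℝ) * (4 / 5) = ((4 : ℕ) : ℝ) by norm_num,
    Real.rpow_natCast]
  norm_num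

private theorem rp15 : (10.48576 : ℝ) ^ (-(1 : ℝ) / 5) = 0.625 := by
  have h : (10.48576 : ℝ) = (1.6 : ℝ) ^ (5 : ℝ) := by
    rw [show (5 : ℝ) = ((5 : ℕ) : ℝ) by norm_num, Real.rpow_natCast]
    norm_num
  rw [h, ← Real.rpow_mul (by norm_num), show (5 : ℝ) * (-1 / 5) = -1 by norm_num,
    Real.rpow_neg_one]
  norm_num

private theorem tan1 {x : ℝ} (hx : 0 ≤ x) : x ^ ((4 : ℝ) / 5) ≤ x / 2 + 1.31072 := by
  have h := pw_tan (s := 10.48576) hx (by norm_num)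
  rw [rp45, rp15] at h
  linarith

/-- `x ^ (4/5) ≤ T1 x ≤ x / 2 + 1.31072`: both from the tangent at `1.6 ^ 5`
(`(1.6^5)^(4/5) = 6.5536`, slope `1/2`). -/
theorem T1_bounds {x : ℝ} (hx : 0 ≤ x) :
    x ^ ((4 : ℝ) / 5) ≤ T1 x ∧ T1 x ≤ x / 2 + 1.31072 := by
  unfold T1
  split_ifs with h
  · exact ⟨tan1 hx, le_rfl⟩
  · exact ⟨le_rfl, tan1 hx⟩

theorem Tf_ge {m R : ℝ} (hm : 0 ≤ m) (hR : 0 ≤ R) : R ^ ((4 : ℝ) / 5) ≤ Tf m R := by
  rcases hm.eq_or_lt with rfl | hm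
  · rw [Tf_zero hR]
  · rw [Tf_scale hm hR]
    have h1 := (T1_bounds (div_nonneg hR hm.le)).1
    have h2 : R ^ ((4 : ℝ) / 5) = m ^ ((4 : ℝ) / 5) * (R / m) ^ ((4 : ℝ) / 5) := by
      rw [← Real.mul_rpow hm.le (div_nonneg hR hm.le), mul_div_cancel₀ _ hm.ne']
    rw [h2]
    exact mul_le_mul_of_nonneg_left h1 (Real.rpow_nonneg hm.le _)

private theorem Tf_low {m R : ℝ} (hm : 0 < m) (h : R ≤ 10.48576 * m) :
    Tf m R = (10.48576 * m) ^ ((4 : ℝ) / 5) +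
      4 / 5 * (10.48576 * m) ^ (-(1 : ℝ) / 5) * (R - 10.48576 * m) := by
  unfold Tf
  rw [if_pos h, Real.mul_rpow (by norm_num) hm.le, Real.mul_rpow (by norm_num) hm.le, rp45, rp15]
  have h1 : m ^ (-(1 : ℝ) / 5) * m = m ^ ((4 : ℝ) / 5) := by
    rw [← Real.rpow_add_one hm.ne']
    norm_num
  rw [← h1]
  ring

/-- `Tf` is monotone in `m`.  If `R ≤ 10.48576 m`: with `s = 10.48576 m ≤ s' = 10.48576 m'`,
`Tf m R = s^(4/5) + 4/5 s^(-1/5) (R - s)`, and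
`s'^(4/5) + 4/5 s'^(-1/5) (R - s') - that ≥ 0`: by `pw_tan` (`x = s`, tangent at `s'`)
`s^(4/5) ≤ s'^(4/5) + 4/5 s'^(-1/5) (s - s')`, and `(4/5 s^(-1/5) - 4/5 s'^(-1/5)) (R - s) ≤ 0`.
Otherwise `Tf m R = R^(4/5)` and `Tf_ge`. -/
theorem Tf_mono {m m' R : ℝ} (hm : 0 ≤ m) (hmm : m ≤ m') (hR : 0 ≤ R) : Tf m R ≤ Tf m' R := by
  rcases hm.eq_or_lt with rfl | hm
  · rw [Tf_zero hR]
    exact Tf_ge hmm hR
  by_cases h : R ≤ 10.48576 * m
  · have hm' : 0 < m' := hm.trans_le hmm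
    have h' : R ≤ 10.48576 * m' := by linarith
    rw [Tf_low hm h, Tf_low hm' h']
    set s := 10.48576 * m with hs
    set s' := 10.48576 * m' with hs'
    have hs0 : 0 < s := by positivity
    have hs0' : 0 < s' := by positivity
    have hss : s ≤ s' := by linarith
    have h1 := pw_tan hs0.le hs0'
    have h2 : s' ^ (-(1 : ℝ) / 5) ≤ s ^ (-(1 : ℝ) / 5) :=
      Real.rpow_le_rpow_of_nonpos hs0 hss (by norm_num)
    have h3 := mul_nonneg (sub_nonneg.2 h2) (sub_nonneg.2 h)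
    nlinarith [h1, h3]
  · have e : Tf m R = R ^ ((4 : ℝ) / 5) := by
      unfold Tf
      rw [if_neg h]
    rw [e]
    exact Tf_ge (hm.le.trans hmm) hR

end B306C
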