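import Pool.Agent.Lib_MP_b306af.CA2

/-!
# MP_b306af, PART I: the value function, increments
-/

namespace B306C

private theorem ca3_r45 : (10.48576 : ℝ) ^ ((4 : ℝ) / 5) = 6.5536 := by
  have h : (10.48576 : ℝ) = (1.6 : ℝ) ^ (5 : ℝ) := by
    rw [show (5 : ℝ) = ((5 : ℕ) : ℝ) by norm_num, Real.rpow_natCast]
    norm_num
  rw [h, ← Real.rpow_mul (by norm_num), show (5 : ℝ) * (4 / 5) = ((4 : ℕ) : ℝ) by norm_num,
    Real.rpow_natCast]
  norm_num

private theorem ca3_key {x y : ℝ} (hy : 10.48576 ≤ y) (hxy : y ≤ x) :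
    x ^ ((4 : ℝ) / 5) ≤ y ^ ((4 : ℝ) / 5) + (x - y) / 2 := by
  have hy0 : 0 < y := lt_of_lt_of_le (by norm_num) hy
  have h1 := pw_tan (hy0.le.trans hxy) hy0
  have h2 := mul_le_mul_of_nonneg_right (pw_slope hy) (sub_nonneg.2 hxy)
  linarith

private theorem ca3_conc {r u d : ℝ} (hr : 0 ≤ r) (hu : r ≤ u) (hd : 0 ≤ d) :
    (u + d) ^ ((4 : ℝ) / 5) + r ^ ((4 : ℝ) / 5) ≤
      u ^ ((4 : ℝ) / 5) + (r + d) ^ ((4 : ℝ) / 5) := by
  rcases hd.eq_or_lt with rfl | hd'
  · simp
  have hc := Real.concaveOn_rpow (p := (4 : ℝ) / 5) (by norm_num) (by norm_num)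
  have hs : 0 < u - r + d := by linarith
  have hr' : r ∈ Set.Ici (0 : ℝ) := hr
  have hud : u + d ∈ Set.Ici (0 : ℝ) := by
    simp only [Set.mem_Ici]; linarith
  have hA : 0 ≤ (u - r) / (u - r + d) := div_nonneg (sub_nonneg.2 hu) hs.le
  have hB : 0 ≤ d / (u - r + d) := div_nonneg hd hs.le
  have hAB : (u - r) / (u - r + d) + d / (u - r + d) = 1 := by field_simp
  have h1 := hc.2 hr' hud hB hA (by rw [add_comm]; exact hAB)
  have h2 := hc.2 hr' hud hA hB hAB
  simp only [smul_eq_mul] at h1 h2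
  have e1 : d / (u - r + d) * r + (u - r) / (u - r + d) * (u + d) = u := by
    field_simp; ring
  have e2 : (u - r) / (u - r + d) * r + d / (u - r + d) * (u + d) = r + d := by
    field_simp; ring
  rw [e1] at h1
  rw [e2] at h2
  have e3 : (u - r) / (u - r + d) + d / (u - r + d) = 1 := by
    field_simp
  have e4 : d / (u - r + d) = 1 - (u - r) / (u - r + d) := by linarith
  rw [e4] at h1 h2
  nlinarith [h1, h2]

/-- `T1` is concave on `[0, ∞)` (linear with slope `1/2` up to `1.6^5`, then `x^(4/5)`, which is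
concave with slope at most `1/2`), so its increments decrease.
Direct proof by cases, `r = 10.48576`:
* `u + d ≤ r`: all linear.
* `u ≤ r < u + d`, `3 + d ≤ r`: `(u + d)^(4/5) ≤ (u + d) / 2 + 1.31072` (`T1_bounds`).
* `u ≤ r < u + d`, `r < 3 + d`: tangent at `3 + d`, slope at most `1/2` (`pw_slope`).
* `r < u`, `3 + d ≤ r`: tangent at `u`, slope at most `1/2`.
* `r < u`, `r < 3 + d`: `(u + d)^(4/5) - u^(4/5) ≤ (r + d)^(4/5) - r^(4/5)` (concavity) and
  `(r + d)^(4/5) - (3 + d)^(4/5) ≤ (r - 3) / 2` (tangent at `3 + d`). -/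
theorem T1_incr {u d : ℝ} (hu : 3 ≤ u) (hd : 0 ≤ d) : T1 (u + d) + T1 3 ≤ T1 u + T1 (3 + d) := by
  have h3 : T1 3 = 3 / 2 + 1.31072 := by
    unfold T1
    rw [if_pos (by norm_num)]
  have hb := (T1_bounds (x := u + d) (by linarith)).2
  rw [h3]
  by_cases h1 : u ≤ 10.48576
  · have e1 : T1 u = u / 2 + 1.31072 := by
      unfold T1
      rw [if_pos h1]
    rw [e1]
    by_cases h2 : 3 + d ≤ 10.48576
    · have e2 : T1 (3 + d) = (3 + d) / 2 + 1.31072 := by
        unfold T1
        rw [if_pos h2]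
      rw [e2]
      linarith
    · push Not at h2
      have e2 : T1 (3 + d) = (3 + d) ^ ((4 : ℝ) / 5) := by
        unfold T1
        rw [if_neg (not_le.2 h2)]
      have e4 : T1 (u + d) = (u + d) ^ ((4 : ℝ) / 5) := by
        unfold T1
        rw [if_neg (not_le.2 (by linarith))]
      rw [e2, e4]
      have := ca3_key (x := u + d) h2.le (by linarith)
      linarith
  · push Not at h1
    have e1 : T1 u = u ^ ((4 : ℝ) / 5) := by
      unfold T1
      rw [if_neg (not_le.2 h1)]
    have e4 : T1 (u + d) = (u + d) ^ ((4 : ℝ) / 5) := by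
      unfold T1
      rw [if_neg (not_le.2 (by linarith))]
    rw [e1, e4]
    by_cases h2 : 3 + d ≤ 10.48576
    · have e2 : T1 (3 + d) = (3 + d) / 2 + 1.31072 := by
        unfold T1
        rw [if_pos h2]
      rw [e2]
      have := ca3_key (x := u + d) h1.le (by linarith)
      linarith
    · push Not at h2
      have e2 : T1 (3 + d) = (3 + d) ^ ((4 : ℝ) / 5) := by
        unfold T1
        rw [if_neg (not_le.2 h2)]
      rw [e2]
      have k1 := ca3_conc (r := 10.48576) (by norm_num) h1.le hd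
      have k2 := ca3_key (x := 10.48576 + d) h2.le (by linarith)
      rw [ca3_r45] at k1
      linarith

/-- `T1` has slope at most `1/2`. -/
theorem T1_lip {u d : ℝ} (hu : 0 ≤ u) (hd : 0 ≤ d) : T1 (u + d) ≤ T1 u + d / 2 := by
  by_cases h1 : u ≤ 10.48576
  · have e1 : T1 u = u / 2 + 1.31072 := by
      unfold T1
      rw [if_pos h1]
    have hb := (T1_bounds (x := u + d) (by linarith)).2
    rw [e1]
    linarith
  · push Not at h1
    have e1 : T1 u = u ^ ((4 : ℝ) / 5) := by
      unfold T1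
      rw [if_neg (not_le.2 h1)]
    have e4 : T1 (u + d) = (u + d) ^ ((4 : ℝ) / 5) := by
      unfold T1
      rw [if_neg (not_le.2 (by linarith))]
    rw [e1, e4]
    have := ca3_key (x := u + d) h1.le (by linarith)
    linarith

theorem T1_monotone {u v : ℝ} (hu : 0 ≤ u) (hv : u ≤ v) : T1 u ≤ T1 v := by
  by_cases h1 : v ≤ 10.48576
  · unfold T1
    rw [if_pos h1, if_pos (hv.trans h1)]
    linarith
  · push Not at h1
    have e1 : T1 v = v ^ ((4 : ℝ) / 5) := by
      unfold T1
      rw [if_neg (not_le.2 h1)]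
    rw [e1]
    by_cases h2 : u ≤ 10.48576
    · have e2 : T1 u = u / 2 + 1.31072 := by
        unfold T1
        rw [if_pos h2]
      have h3 : (10.48576 : ℝ) ^ ((4 : ℝ) / 5) ≤ v ^ ((4 : ℝ) / 5) :=
        Real.rpow_le_rpow (by norm_num) h1.le (by norm_num)
      rw [ca3_r45] at h3
      rw [e2]
      linarith
    · have e2 : T1 u = u ^ ((4 : ℝ) / 5) := by
        unfold T1
        rw [if_neg h2]
      rw [e2]
      exact Real.rpow_le_rpow hu hv (by norm_num)

end B306C
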