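import Pool.Agent.Lib_MP_b306af.CA3

/-!
# MP_b306af, PART I: the value function, inequality A3
-/

namespace B306C

theorem ca4_le_pw {a x : ℝ} (ha : 0 ≤ a) (hx : 0 ≤ x) (h : a ^ 5 ≤ x ^ 4) :
    a ≤ x ^ ((4 : ℝ) / 5) := by
  have e1 : x ^ ((4 : ℝ) / 5) = (x ^ 4) ^ ((1 : ℝ) / 5) := by
    rw [← Real.rpow_natCast x 4, ← Real.rpow_mul hx]; norm_num
  have e2 : a = (a ^ 5) ^ ((1 : ℝ) / 5) := by
    rw [← Real.rpow_natCast a 5, ← Real.rpow_mul ha]; norm_num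
  rw [e1, e2]
  exact Real.rpow_le_rpow (by positivity) h (by norm_num)

/-- For `m = 1`.  `T1_incr` (`u = R - q`, `d = q`): enough `T1 (3 + q) ≤ q^(4/5) + T1 3`,
`T1 3 = 2.81072`.  If `3 + q ≤ 10.48576`: `q / 2 ≤ q^(4/5)` for `0 ≤ q ≤ 32` (for `q ≤ 1`:
`q ≤ q^(4/5)`; for `q ≥ 1`: `q^(1/5) ≤ 2`).  If `3 + q > 10.48576`: tangent at `q`,
`(q + 3)^(4/5) ≤ q^(4/5) + 2.4 q^(-1/5)` and `q^(-1/5) ≤ 1`. -/
theorem T1_A3 {R q : ℝ} (hq : 0 ≤ q) (h : 3 ≤ R - q) :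
    T1 R ≤ q ^ ((4 : ℝ) / 5) + T1 (R - q) := by
  have h1 := T1_incr h hq
  rw [sub_add_cancel] at h1
  have h3 : T1 3 = 2.81072 := by unfold T1; norm_num
  suffices h2 : T1 (3 + q) ≤ q ^ ((4 : ℝ) / 5) + T1 3 by linarith
  rw [h3]
  unfold T1
  split_ifs with hc
  · have : q / 2 ≤ q ^ ((4 : ℝ) / 5) := by
      apply ca4_le_pw (by positivity) hq
      have h4 : 0 ≤ q ^ 4 := by positivity
      have e : (q / 2) ^ 5 = q ^ 4 * (q / 32) := by ring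
      rw [e]
      calc q ^ 4 * (q / 32) ≤ q ^ 4 * 1 := mul_le_mul_of_nonneg_left (by linarith) h4
        _ = q ^ 4 := mul_one _
    linarith
  · push Not at hc
    have hq0 : 0 < q := by linarith
    have h5 := pw_tan (x := 3 + q) (s := q) (by linarith) hq0
    have h6 : q ^ (-(1 : ℝ) / 5) ≤ 1 :=
      Real.rpow_le_one_of_one_le_of_nonpos (by linarith) (by norm_num)
    have h7 : 4 / 5 * q ^ (-(1 : ℝ) / 5) * (3 + q - q) ≤ 4 / 5 * 1 * 3 := by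
      rw [add_sub_cancel_right]
      gcongr
    linarith

/-- `m > 0`: `T1_A3` and `Tf_scale`; `m = 0`: `Tf_zero` and `pw_add`. -/
theorem Tf_A3 {m R q : ℝ} (hm : 0 ≤ m) (hq : 0 ≤ q) (h : 3 * m ≤ R - q) :
    Tf m R ≤ q ^ ((4 : ℝ) / 5) + Tf m (R - q) := by
  have hR' : 0 ≤ R - q := le_trans (by positivity) h
  have hR : 0 ≤ R := by linarith
  rcases hm.eq_or_lt with rfl | hm0
  · rw [Tf_zero hR, Tf_zero hR']
    have := pw_add hq hR'
    rwa [add_sub_cancel] at this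
  · rw [Tf_scale hm0 hR, Tf_scale hm0 hR']
    have h1 : 3 ≤ R / m - q / m := by
      rw [← sub_div, le_div_iff₀ hm0]; exact h
    have h2 := T1_A3 (R := R / m) (q := q / m) (by positivity) h1
    have e1 : q ^ ((4 : ℝ) / 5) = m ^ ((4 : ℝ) / 5) * (q / m) ^ ((4 : ℝ) / 5) := by
      rw [← Real.mul_rpow hm (by positivity)]
      congr 1
      field_simp
    have e2 : (R - q) / m = R / m - q / m := sub_div _ _ _
    rw [e1, e2, ← mul_add]
    exact mul_le_mul_of_nonneg_left h2 (Real.rpow_nonneg hm _)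

end B306C
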