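import Pool.Agent.Lib_MP_b306af.CA3

/-!
# MP_b306af, PART I: the value function, inequality A4
-/

namespace B306C

theorem ca5_le_pw {a x : ℝ} (ha : 0 ≤ a) (hx : 0 ≤ x) (h : a ^ 5 ≤ x ^ 4) :
    a ≤ x ^ ((4 : ℝ) / 5) := by
  have e1 : x ^ ((4 : ℝ) / 5) = (x ^ 4) ^ ((1 : ℝ) / 5) := by
    rw [← Real.rpow_natCast x 4, ← Real.rpow_mul hx]; norm_num
  have e2 : a = (a ^ 5) ^ ((1 : ℝ) / 5) := by
    rw [← Real.rpow_natCast a 5, ← Real.rpow_mul ha]; norm_num
  rw [e1, e2]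
  exact Real.rpow_le_rpow (by positivity) h (by norm_num)

/-- Concavity of `x ^ (4/5)` in the form of a chord. -/
theorem ca5_chord {x0 x1 x : ℝ} (h0 : 0 ≤ x0) (h01 : x0 < x1) (hx0 : x0 ≤ x) (hx1 : x ≤ x1) :
    (x1 - x) / (x1 - x0) * x0 ^ ((4 : ℝ) / 5) + (x - x0) / (x1 - x0) * x1 ^ ((4 : ℝ) / 5) ≤
      x ^ ((4 : ℝ) / 5) := by
  have hc := Real.concaveOn_rpow (p := (4 : ℝ) / 5) (by norm_num) (by norm_num)
  have hd : 0 < x1 - x0 := by linarith
  have ha : 0 ≤ (x1 - x) / (x1 - x0) := div_nonneg (by linarith) hd.le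
  have hb : 0 ≤ (x - x0) / (x1 - x0) := div_nonneg (by linarith) hd.le
  have hab : (x1 - x) / (x1 - x0) + (x - x0) / (x1 - x0) = 1 := by
    rw [← add_div, div_eq_one_iff_eq hd.ne']; ring
  have h := hc.2 (Set.mem_Ici.2 h0) (Set.mem_Ici.2 (h0.trans h01.le)) ha hb hab
  simp only [smul_eq_mul] at h
  have e : (x1 - x) / (x1 - x0) * x0 + (x - x0) / (x1 - x0) * x1 = x := by
    field_simp; ring
  rwa [e] at h

/-- For `m = 1`.  If `R ≤ 3.37856` then `T1 R = R / 2 + 1.31072 ≤ 3`.  Otherwise, by concavity of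
`x^(4/5)` on `[1, R - 1]`, `z^(4/5) + (R - z)^(4/5) ≥ 1 + (R - 1)^(4/5)`.  If `R > 10.48576`,
`R^(4/5) ≤ 1 + (R - 1)^(4/5)` (`pw_add`).  If `3.37856 ≤ R ≤ 10.48576`, with `x = R - 1` the
inequality `x^(4/5) ≥ x / 2 + 0.81072` holds at both ends `x = 2.37856` (`2.37856^4 ≥ 32`, so
`x^(4/5) ≥ 2 = x / 2 + 0.81072`) and `x = 9.48576` (`9.48576^4 ≥ 5.56^5`), so on the whole
interval by concavity. -/
theorem T1_A4 {R : ℝ} (hR : 3 ≤ R) :
    T1 R ≤ 3 ∨ ∀ z, 1 ≤ z → 1 ≤ R - z → T1 R ≤ z ^ ((4 : ℝ) / 5) + (R - z) ^ ((4 : ℝ) / 5) := by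
  by_cases hR1 : R ≤ 3.37856
  · left
    unfold T1
    rw [if_pos (by linarith)]
    linarith
  · right
    push Not at hR1
    intro z hz1 hz2
    have hone : (1 : ℝ) ^ ((4 : ℝ) / 5) = 1 := Real.one_rpow _
    have h1 : 1 + (R - 1) ^ ((4 : ℝ) / 5) ≤ z ^ ((4 : ℝ) / 5) + (R - z) ^ ((4 : ℝ) / 5) := by
      have a := ca5_chord (x0 := 1) (x1 := R - 1) (x := z) (by norm_num) (by linarith) hz1
        (by linarith)
      have b := ca5_chord (x0 := 1) (x1 := R - 1) (x := R - z) (by norm_num) (by linarith) hz2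
        (by linarith)
      rw [hone] at a b
      have hd : 0 < R - 1 - 1 := by linarith
      have e1 : (R - 1 - z) / (R - 1 - 1) + (R - 1 - (R - z)) / (R - 1 - 1) = 1 := by
        rw [← add_div, div_eq_one_iff_eq hd.ne']; ring
      have e2 : (z - 1) / (R - 1 - 1) + (R - z - 1) / (R - 1 - 1) = 1 := by
        rw [← add_div, div_eq_one_iff_eq hd.ne']; ring
      calc 1 + (R - 1) ^ ((4 : ℝ) / 5)
          = ((R - 1 - z) / (R - 1 - 1) + (R - 1 - (R - z)) / (R - 1 - 1)) * 1 +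
            ((z - 1) / (R - 1 - 1) + (R - z - 1) / (R - 1 - 1)) * (R - 1) ^ ((4 : ℝ) / 5) := by
            rw [e1, e2]; ring
        _ ≤ _ := by linarith
    refine le_trans ?_ h1
    unfold T1
    split_ifs with hc
    · have f0 : (2 : ℝ) ≤ 2.37856 ^ ((4 : ℝ) / 5) :=
        ca5_le_pw (by norm_num) (by norm_num) (by norm_num)
      have f1 : (5.5536 : ℝ) ≤ 9.48576 ^ ((4 : ℝ) / 5) :=
        ca5_le_pw (by norm_num) (by norm_num) (by norm_num)
      have a := ca5_chord (x0 := 2.37856) (x1 := 9.48576) (x := R - 1) (by norm_num) (by norm_num)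
        (by linarith) (by linarith)
      have g0 : 0 ≤ (9.48576 - (R - 1)) / (9.48576 - 2.37856) :=
        div_nonneg (by linarith) (by norm_num)
      have g1 : 0 ≤ (R - 1 - 2.37856) / (9.48576 - 2.37856) :=
        div_nonneg (by linarith) (by norm_num)
      have b0 := mul_le_mul_of_nonneg_left f0 g0
      have b1 := mul_le_mul_of_nonneg_left f1 g1
      have e : (9.48576 - (R - 1)) / (9.48576 - 2.37856) * 2 +
          (R - 1 - 2.37856) / (9.48576 - 2.37856) * 5.5536 = (R - 1) / 2 + 0.81072 := by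
        norm_num
        ring
      linarith
    · push Not at hc
      have h2 := pw_add (x := 1) (y := R - 1) (by norm_num) (by linarith)
      rw [hone, add_sub_cancel] at h2
      exact h2

/-- `m > 0`: `T1_A4` and `Tf_scale`; `m = 0`: `Tf_zero` and `pw_add`. -/
theorem Tf_A4 {m R : ℝ} (hm : 0 ≤ m) (hR : 3 * m ≤ R) :
    Tf m R ≤ 3 * m ^ ((4 : ℝ) / 5) ∨
      ∀ z, m ≤ z → m ≤ R - z → Tf m R ≤ z ^ ((4 : ℝ) / 5) + (R - z) ^ ((4 : ℝ) / 5) := by
  rcases hm.eq_or_lt with rfl | hm0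
  · right
    intro z hz1 hz2
    rw [Tf_zero (by linarith)]
    have := pw_add hz1 hz2
    rwa [add_sub_cancel] at this
  · have hR0 : 0 ≤ R := le_trans (by positivity) hR
    have hp : 0 ≤ m ^ ((4 : ℝ) / 5) := Real.rpow_nonneg hm _
    rw [Tf_scale hm0 hR0]
    rcases T1_A4 (R := R / m) (by rw [le_div_iff₀ hm0]; exact hR) with h | h
    · left
      calc m ^ ((4 : ℝ) / 5) * T1 (R / m) ≤ m ^ ((4 : ℝ) / 5) * 3 :=
            mul_le_mul_of_nonneg_left h hp
        _ = 3 * m ^ ((4 : ℝ) / 5) := mul_comm _ _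
    · right
      intro z hz1 hz2
      have h1 := h (z / m) (by rw [le_div_iff₀ hm0]; linarith) (by
        rw [← sub_div, le_div_iff₀ hm0]; linarith)
      have e1 : z ^ ((4 : ℝ) / 5) = m ^ ((4 : ℝ) / 5) * (z / m) ^ ((4 : ℝ) / 5) := by
        rw [← Real.mul_rpow hm (div_nonneg (by linarith) hm)]
        congr 1
        field_simp
      have e2 : (R - z) ^ ((4 : ℝ) / 5) =
          m ^ ((4 : ℝ) / 5) * (R / m - z / m) ^ ((4 : ℝ) / 5) := by
        rw [← Real.mul_rpow hm (by rw [← sub_div]; exact div_nonneg (by linarith) hm)]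
        congr 1
        field_simp
      rw [e1, e2, ← mul_add]
      exact mul_le_mul_of_nonneg_left h1 hp

end B306C
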