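import Pool.Agent.Lib_MP_b306af.CA3

/-!
# MP_b306af, PART I: the value function, inequality A5
-/

namespace B306C

private theorem ca6_pow {s : ℝ} (hs : 0 ≤ s) : (s ^ ((4 : ℝ) / 5)) ^ 5 = s ^ 4 := by
  rw [← Real.rpow_natCast, ← Real.rpow_mul hs, ← Real.rpow_natCast]
  norm_num

private theorem ca6_lin {s : ℝ} (h1 : 1 ≤ s) (h2 : s ≤ 26) :
    s / 2 + 1 / 2 ≤ s ^ ((4 : ℝ) / 5) := by
  by_contra hcon
  push Not at hcon
  have hy : 0 ≤ s ^ ((4 : ℝ) / 5) := Real.rpow_nonneg (by linarith) _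
  have h3 : (s ^ ((4 : ℝ) / 5)) ^ 5 < (s / 2 + 1 / 2) ^ 5 :=
    pow_lt_pow_left₀ hcon hy (by norm_num)
  rw [ca6_pow (by linarith)] at h3
  have h4 : 0 ≤ (s - 1) * (s ^ 3 * (26 - s) + 16 * s ^ 2 + 6 * s + 1) := by
    have h5 : 0 ≤ s ^ 3 * (26 - s) := mul_nonneg (by positivity) (by linarith)
    have h6 : 0 ≤ s ^ 3 * (26 - s) + 16 * s ^ 2 + 6 * s + 1 := by positivity
    exact mul_nonneg (by linarith) h6
  nlinarith

private theorem ca6_inv {s : ℝ} (h1 : 3 ≤ s) : s ^ (-(1 : ℝ) / 5) ≤ 5 / 6 := by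
  by_contra hcon
  push Not at hcon
  have h3 : (5 / 6 : ℝ) ^ 5 < (s ^ (-(1 : ℝ) / 5)) ^ 5 :=
    pow_lt_pow_left₀ hcon (by norm_num) (by norm_num)
  have h4 : (s ^ (-(1 : ℝ) / 5)) ^ 5 = s⁻¹ := by
    rw [← Real.rpow_natCast, ← Real.rpow_mul (by linarith), ← Real.rpow_neg_one]
    norm_num
  rw [h4] at h3
  have h5 : s⁻¹ ≤ 3⁻¹ := inv_anti₀ (by norm_num) h1
  norm_num at h3 h5
  linarith

/-- For `m = 1`, `u = R - s - l ≥ 3`.  If `s ≤ 1`: `T1_lip` gives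
`T1 R ≤ T1 u + (s + l) / 2 ≤ T1 u + s ≤ T1 u + s^(4/5)`.  If `s ≥ 1`: `T1_incr` with `d = s + l` and
monotonicity: `T1 R ≤ T1 u + T1 (4 + s) - T1 3`, `T1 3 = 2.81072`; enough
`T1 (4 + s) ≤ s^(4/5) + 2.81072`.  If `4 + s ≤ 10.48576` this is `s / 2 + 1/2 ≤ s^(4/5)`, true for
`s = 1` and `s = 6.48576` (`6.48576^4 ≥ 3.75^5`), so on the interval by concavity.  If
`4 + s > 10.48576`: tangent at `s`: `(s + 4)^(4/5) ≤ s^(4/5) + 3.2 s^(-1/5)`, and `s^(1/5) ≥ 1.2`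
because `1.2^5 = 2.48832 ≤ s`, so `3.2 s^(-1/5) ≤ 2.67`. -/
theorem T1_A5 {R s l : ℝ} (hl : 0 ≤ l) (hl1 : l ≤ 1) (hls : l ≤ s) (h : 3 ≤ R - s - l) :
    T1 R ≤ s ^ ((4 : ℝ) / 5) + T1 (R - s - l) := by
  have hs0 : 0 ≤ s := hl.trans hls
  have hR : R = (R - s - l) + (s + l) := by ring
  rcases le_total s 1 with hs | hs
  · have h1 := T1_lip (u := R - s - l) (d := s + l) (by linarith) (by linarith)
    rw [← hR] at h1
    have h2 : s ≤ s ^ ((4 : ℝ) / 5) := by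
      rcases hs0.eq_or_lt with h0 | h0
      · rw [← h0, Real.zero_rpow (by norm_num)]
      · have h3 := Real.rpow_le_rpow_of_exponent_ge h0 hs (show (4 : ℝ) / 5 ≤ 1 by norm_num)
        rwa [Real.rpow_one] at h3
    linarith
  · have h1 := T1_incr (u := R - s - l) (d := s + l) h (by linarith)
    rw [← hR] at h1
    have h2 : T1 (3 + (s + l)) ≤ T1 (4 + s) := T1_monotone (by linarith) (by linarith)
    have h3 : T1 3 = 2.81072 := by
      unfold T1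
      rw [if_pos (by norm_num)]
      norm_num
    have h4 : T1 (4 + s) ≤ s ^ ((4 : ℝ) / 5) + 2.81072 := by
      unfold T1
      split_ifs with h5
      · have h6 := ca6_lin hs (by linarith)
        norm_num at h6 ⊢
        linarith
      · push Not at h5
        have h6 := pw_tan (x := 4 + s) (s := s) (by linarith) (by linarith)
        have h7 := ca6_inv (s := s) (by linarith)
        norm_num at h6 h7 ⊢
        linarith
    linarith

/-- `m > 0`: `T1_A5` and `Tf_scale`; `m = 0` (then `l = 0`): `Tf_zero` and `pw_add`. -/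
theorem Tf_A5 {m R s l : ℝ} (hl : 0 ≤ l) (hlm : l ≤ m) (hls : l ≤ s) (h : 3 * m ≤ R - s - l) :
    Tf m R ≤ s ^ ((4 : ℝ) / 5) + Tf m (R - s - l) := by
  have hs0 : 0 ≤ s := hl.trans hls
  have hm0 : 0 ≤ m := hl.trans hlm
  rcases hm0.eq_or_lt with hm | hm
  · subst hm
    have hl0 : l = 0 := le_antisymm hlm hl
    subst hl0
    have h1 : 0 ≤ R - s := by linarith
    rw [sub_zero, Tf_zero (by linarith), Tf_zero h1]
    have h2 := pw_add hs0 h1
    rwa [show s + (R - s) = R by ring] at h2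
  · have hR : 0 ≤ R := by linarith
    rw [Tf_scale hm hR, Tf_scale hm (by linarith)]
    have h1 : T1 (R / m) ≤ (s / m) ^ ((4 : ℝ) / 5) + T1 (R / m - s / m - l / m) := by
      apply T1_A5 (by positivity) ((div_le_one hm).2 hlm)
        (div_le_div_of_nonneg_right hls hm.le)
      rw [← sub_div, ← sub_div, le_div_iff₀ hm]
      exact h
    rw [← sub_div, ← sub_div, Real.div_rpow hs0 hm.le] at h1
    have h2 : 0 < m ^ ((4 : ℝ) / 5) := Real.rpow_pos_of_pos hm _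
    calc m ^ ((4 : ℝ) / 5) * T1 (R / m)
        ≤ m ^ ((4 : ℝ) / 5) * (s ^ ((4 : ℝ) / 5) / m ^ ((4 : ℝ) / 5) + T1 ((R - s - l) / m)) :=
          mul_le_mul_of_nonneg_left h1 h2.le
      _ = s ^ ((4 : ℝ) / 5) + m ^ ((4 : ℝ) / 5) * T1 ((R - s - l) / m) := by
          rw [mul_add, mul_div_cancel₀ _ h2.ne']

end B306C
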