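import Pool.Agent.Lib_MP_b306af.CDefs

/-!
# MP_b306af, PART I: boundaries
-/

namespace B306C

open Classical

namespace Cub

variable {V : Type}

/-- `K.e` is a bijection of `bd X` onto `bd Xᶜ` -/
theorem bd_compl (K : Cub V) (X : Set V) : (K.bd Xᶜ).ncard = (K.bd X).ncard := by
  have h : K.bd Xᶜ = K.e '' K.bd X := by
    ext d
    constructor
    · rintro ⟨h1, h2⟩
      refine ⟨K.e d, ⟨?_, ?_⟩, K.inv d⟩
      · by_contra h3
        exact h2 h3
      · rw [K.inv]
        exact h1
    · rintro ⟨d', ⟨h1, h2⟩, rfl⟩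
      refine ⟨h2, ?_⟩
      rw [K.inv]
      exact fun h3 => h3 h1
  rw [h, Set.ncard_image_of_injective _ (fun a b hab => K.e_inj hab)]

/-- The boundary of one vertex has three ports (no loops). -/
theorem bd_singleton (K : Cub V) (u : V) : (K.bd {u}).ncard = 3 := by
  have h : K.bd {u} = (fun i : Fin 3 => (u, i)) '' Set.univ := by
    ext ⟨v, i⟩
    constructor
    · rintro ⟨h1, h2⟩
      have h1' : v = u := h1
      exact ⟨i, trivial, by rw [h1']⟩
    · rintro ⟨j, -, hj⟩
      have h1 : u = v := congrArg Prod.fst hj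
      refine ⟨h1.symm, ?_⟩
      intro h2
      have h2' : (K.e (v, i)).1 = u := h2
      exact K.ne (v, i) (h2'.trans h1)
  rw [h, Set.ncard_image_of_injective _ (fun a b hab => congrArg Prod.snd hab), Set.ncard_univ,
    Nat.card_eq_fintype_card, Fintype.card_fin]

/-- THE counting tool.  `u ∉ X`: the ports of `u` leading into `X` and their partners disappear,
the other ports of `u` are new boundary ports. -/
theorem bd_insert [Finite V] (K : Cub V) {X : Set V} {u : V} (hu : u ∉ X) :
    (K.bd (insert u X)).ncard + 2 * {i : Fin 3 | (K.e (u, i)).1 ∈ X}.ncard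
      = (K.bd X).ncard + 3 := by
  have hf : Function.Injective (fun i : Fin 3 => (u, i)) := fun a b hab => congrArg Prod.snd hab
  have he : Function.Injective K.e := fun a b hab => K.e_inj hab
  set P : Set (Fin 3) := {i : Fin 3 | (K.e (u, i)).1 ∈ X} with hP
  have hQ : K.e '' ((fun i : Fin 3 => (u, i)) '' P) ⊆ K.bd X := by
    rintro _ ⟨_, ⟨i, hi, rfl⟩, rfl⟩
    refine ⟨hi, ?_⟩
    rw [K.inv]
    exact hu
  have hB : K.bd (insert u X) = (K.bd X \ (K.e '' ((fun i : Fin 3 => (u, i)) '' P))) ∪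
      (fun i : Fin 3 => (u, i)) '' Pᶜ := by
    ext ⟨v, i⟩
    constructor
    · rintro ⟨h1, h2⟩
      rcases h1 with h1 | h1
      · have h1' : v = u := h1
        right
        refine ⟨i, ?_, by rw [h1']⟩
        intro h3
        have h3' : (K.e (u, i)).1 ∈ X := h3
        apply h2
        rw [h1']
        exact Or.inr h3'
      · left
        refine ⟨⟨h1, fun h3 => h2 (Or.inr h3)⟩, ?_⟩
        rintro ⟨_, ⟨j, hj, rfl⟩, hj2⟩
        apply h2
        have h4 : K.e (v, i) = (u, j) := by rw [← hj2, K.inv]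
        rw [h4]
        exact Or.inl rfl
    · rintro (⟨⟨h1, h2⟩, h3⟩ | ⟨j, hj, hj2⟩)
      · refine ⟨Or.inr h1, ?_⟩
        rintro (h4 | h4)
        · apply h3
          refine ⟨K.e (v, i), ⟨(K.e (v, i)).2, ?_, ?_⟩, K.inv _⟩
          · have e1 : (u, (K.e (v, i)).2) = K.e (v, i) := Prod.ext h4.symm rfl
            show (K.e (u, (K.e (v, i)).2)).1 ∈ X
            rw [e1, K.inv]
            exact h1
          · exact Prod.ext h4.symm rfl
        · exact h2 h4
      · have h1 : u = v := congrArg Prod.fst hj2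
        have h2 : j = i := congrArg Prod.snd hj2
        subst h1
        subst h2
        refine ⟨Or.inl rfl, ?_⟩
        rintro (h4 | h4)
        · exact K.ne (u, j) h4
        · exact hj h4
  have hd : Disjoint (K.bd X \ (K.e '' ((fun i : Fin 3 => (u, i)) '' P)))
      ((fun i : Fin 3 => (u, i)) '' Pᶜ) := by
    rw [Set.disjoint_left]
    rintro _ ⟨⟨h1, -⟩, -⟩ ⟨j, -, rfl⟩
    exact hu h1
  have h1 : (K.e '' ((fun i : Fin 3 => (u, i)) '' P)).ncard = P.ncard := by
    rw [Set.ncard_image_of_injective _ he, Set.ncard_image_of_injective _ hf]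
  have h2 : ((fun i : Fin 3 => (u, i)) '' Pᶜ).ncard = Pᶜ.ncard := by
    rw [Set.ncard_image_of_injective _ hf]
  have h3 := Set.ncard_add_ncard_compl P
  rw [Nat.card_eq_fintype_card, Fintype.card_fin] at h3
  have h4 : (K.e '' ((fun i : Fin 3 => (u, i)) '' P)).ncard ≤ (K.bd X).ncard :=
    Set.ncard_le_ncard hQ (Set.toFinite _)
  rw [hB, Set.ncard_union_eq hd (Set.toFinite _) (Set.toFinite _), Set.ncard_diff hQ (Set.toFinite _),
    h1, h2]
  omega

end Cub

end B306C
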