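import Pool.Agent.Lib_MP_b306af.CDefs

/-!
# MP_b306af, PART I: enumerations, parity
-/

namespace B306C

open Classical

namespace Cub

variable {V : Type}

/-- An enumeration of the boundary ports of a set with exactly three of them. -/
theorem exists_enum [Finite V] (K : Cub V) {X : Set V} (h : (K.bd X).ncard = 3) :
    ∃ b, K.Enum X b := by
  obtain ⟨x, y, z, hxy, hxz, hyz, hs⟩ := Set.ncard_eq_three.1 h
  refine ⟨![x, y, z], ⟨?_, ?_⟩⟩
  · intro i j hij
    fin_cases i <;> fin_cases j <;> simp_all
  · intro d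
    rw [hs]
    constructor
    · rintro ⟨k, rfl⟩
      fin_cases k <;> simp
    · rintro (rfl | rfl | rfl)
      · exact ⟨0, rfl⟩
      · exact ⟨1, rfl⟩
      · exact ⟨2, rfl⟩

/-- The partners of the boundary ports of `X` are the boundary ports of `Xᶜ`. -/
theorem Enum.compl {K : Cub V} {X : Set V} {b : Fin 3 → V × Fin 3} (hb : K.Enum X b) :
    K.Enum Xᶜ (fun k => K.e (b k)) := by
  refine ⟨?_, ?_⟩
  · intro i j hij
    exact hb.inj (K.e_inj hij)
  · intro d
    constructor
    · rintro ⟨k, rfl⟩
      have h1 := (hb.rng (b k)).1 ⟨k, rfl⟩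
      refine ⟨h1.2, ?_⟩
      rw [K.inv]
      exact fun h => h h1.1
    · intro hd
      have h1 : K.e d ∈ K.bd X := by
        refine ⟨?_, ?_⟩
        · by_contra h
          exact hd.2 h
        · rw [K.inv]
          exact hd.1
      obtain ⟨k, hk⟩ := (hb.rng _).2 h1
      refine ⟨k, ?_⟩
      show K.e (b k) = d
      rw [hk, K.inv]

/-- A set of ports meeting every vertex in an even number of ports and closed under `e` meets the
boundary of every `X` in an even number of ports: the ports of `D` in `X` are an even number, those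
whose partner is also in `X` are paired by `e`. -/
theorem Even.even_bd [Finite V] {K : Cub V} {D : Set (V × Fin 3)} (hD : K.Even D) (X : Set V) :
    _root_.Even (D ∩ K.bd X).ncard := by
  have : Fintype V := Fintype.ofFinite V
  have hP : ∑ d : V × Fin 3, (if d ∈ D ∧ d.1 ∈ X then (1 : ZMod 2) else 0) = 0 := by
    rw [Fintype.sum_prod_type]
    apply Finset.sum_eq_zero
    intro v _
    by_cases hv : v ∈ X
    · rcases hD.deg v with h | ⟨i, hi⟩
      · apply Finset.sum_eq_zero
        intro j _
        rw [if_neg]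
        exact fun h' => h j h'.1
      · simp only [hv, and_true, hi]
        fin_cases i <;> decide
    · apply Finset.sum_eq_zero
      intro j _
      rw [if_neg]
      exact fun h' => hv h'.2
  have hQ : ∑ d ∈ Finset.univ.filter (fun d : V × Fin 3 => d ∈ D ∧ d.1 ∈ X ∧ (K.e d).1 ∈ X),
      (1 : ZMod 2) = 0 := by
    refine Finset.sum_involution (fun d _ => K.e d) ?_ ?_ ?_ ?_
    · intro d _
      decide
    · intro d _ _ h
      exact K.ne d (congrArg Prod.fst h)
    · intro d hd
      simp only [Finset.mem_filter, Finset.mem_univ, true_and] at hd ⊢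
      refine ⟨hD.mem d hd.1, hd.2.2, ?_⟩
      rw [K.inv]
      exact hd.2.1
    · intro d _
      exact K.inv d
  have hsum : ∑ d : V × Fin 3, (if d ∈ D ∧ d.1 ∈ X then (1 : ZMod 2) else 0) =
      ∑ d ∈ Finset.univ.filter (fun d : V × Fin 3 => d ∈ D ∩ K.bd X), (1 : ZMod 2) +
      ∑ d ∈ Finset.univ.filter (fun d : V × Fin 3 => d ∈ D ∧ d.1 ∈ X ∧ (K.e d).1 ∈ X),
      (1 : ZMod 2) := by
    rw [Finset.sum_filter, Finset.sum_filter, ← Finset.sum_add_distrib]
    refine Finset.sum_congr rfl fun d _ => ?_
    by_cases h1 : d ∈ D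
    · by_cases h2 : d.1 ∈ X
      · by_cases h3 : (K.e d).1 ∈ X
        · simp [bd, h1, h2, h3]
        · simp [bd, h1, h2, h3]
      · simp [bd, h1, h2]
    · simp [h1]
  rw [hP, hQ, add_zero] at hsum
  rw [← ZMod.natCast_eq_zero_iff_even]
  have hc : (D ∩ K.bd X).ncard =
      (Finset.univ.filter (fun d : V × Fin 3 => d ∈ D ∩ K.bd X)).card := by
    rw [← Set.ncard_coe_finset]
    congr 1
    ext d
    simp
  rw [hc, Finset.cast_card]
  exact hsum.symm

end Cub

end B306C
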