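import Pool.Agent.Lib_MP_b306af.CB1

/-!
# MP_b306af, PART I: neighbours
-/

namespace B306C

open Classical

namespace Cub

variable {V : Type}

/-- A parallel edge between `u` and `v` gives a boundary of at most two ports for `{u, v}`
(`bd_singleton`, `bd_insert`), and `{u, v}ᶜ` is nonempty. -/
theorem sim_of_conn3 [Finite V] (K : Cub V) (hK : K.Conn3) (hc : 2 < Nat.card V) : K.Sim := by
  intro v i j hij
  by_contra hne
  have hvu : v ∉ ({(K.e (v, i)).1} : Set V) := fun hh => K.ne (v, i) hh.symm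
  have h1 := K.bd_insert hvu
  rw [K.bd_singleton] at h1
  have h2 : ({i, j} : Set (Fin 3)).ncard ≤
      {k : Fin 3 | (K.e (v, k)).1 ∈ ({(K.e (v, i)).1} : Set V)}.ncard := by
    refine Set.ncard_le_ncard ?_ (Set.toFinite _)
    rintro k (rfl | rfl)
    · exact rfl
    · exact hij.symm
  rw [Set.ncard_pair hne] at h2
  have h3 : (insert v ({(K.e (v, i)).1} : Set V))ᶜ.Nonempty := by
    rw [Set.nonempty_compl]
    intro h4
    have h5 : (insert v ({(K.e (v, i)).1} : Set V)).ncard ≤ 2 := by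
      have := Set.ncard_insert_le v ({(K.e (v, i)).1} : Set V)
      rw [Set.ncard_singleton] at this
      exact this
    rw [h4, Set.ncard_univ] at h5
    omega
  have h6 := hK _ (Set.insert_nonempty v _) h3
  omega

/-- The neighbours of `v` in a simple graph, the last one being the neighbour at port `i`. -/
theorem exists_nb (K : Cub V) (hs : K.Sim) (v : V) (i : Fin 3) :
    ∃ p q, K.Nb v p q (K.e (v, i)).1 := by
  obtain ⟨j, k, h1, h2, h3⟩ : ∃ j k : Fin 3, j ≠ k ∧ j ≠ i ∧ k ≠ i := by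
    revert i
    decide
  exact ⟨(K.e (v, j)).1, (K.e (v, k)).1, fun h => h1 (hs v j k h), fun h => h2 (hs v j i h),
    fun h => h3 (hs v k i h), ⟨j, rfl⟩, ⟨k, rfl⟩, ⟨i, rfl⟩⟩

/-- The two other neighbours of `v`, if the neighbour `r` is given. -/
theorem exists_nb' (K : Cub V) (hs : K.Sim) {v r : V} (h : K.Adj v r) :
    ∃ p q, K.Nb v r p q := by
  obtain ⟨i, rfl⟩ := h
  obtain ⟨p, q, h⟩ := K.exists_nb hs v i
  exact ⟨p, q, h.pr.symm, h.qr.symm, h.pq, h.ar, h.ap, h.aq⟩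

/-- The ports of `v` belonging to its three different neighbours. -/
theorem Nb.ports {K : Cub V} {v p q r : V} (h : K.Nb v p q r) :
    ∃ i j k : Fin 3, i ≠ j ∧ i ≠ k ∧ j ≠ k ∧ (∀ l, l = i ∨ l = j ∨ l = k) ∧
      (K.e (v, i)).1 = p ∧ (K.e (v, j)).1 = q ∧ (K.e (v, k)).1 = r := by
  obtain ⟨i, hi⟩ := h.ap
  obtain ⟨j, hj⟩ := h.aq
  obtain ⟨k, hk⟩ := h.ar
  have hij : i ≠ j := by
    rintro rfl
    exact h.pq (hi.symm.trans hj)
  have hik : i ≠ k := by
    rintro rfl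
    exact h.pr (hi.symm.trans hk)
  have hjk : j ≠ k := by
    rintro rfl
    exact h.qr (hj.symm.trans hk)
  refine ⟨i, j, k, hij, hik, hjk, ?_, hi, hj, hk⟩
  clear hi hj hk
  revert i j k
  decide

/-- There are no other neighbours. -/
theorem Nb.all {K : Cub V} {v p q r x : V} (h : K.Nb v p q r) (hx : K.Adj v x) :
    x = p ∨ x = q ∨ x = r := by
  obtain ⟨l, rfl⟩ := hx
  obtain ⟨i, j, k, _, _, _, hl, hi, hj, hk⟩ := h.ports
  rcases hl l with rfl | rfl | rfl
  · exact Or.inl hi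
  · exact Or.inr (Or.inl hj)
  · exact Or.inr (Or.inr hk)

theorem Nb.swap12 {K : Cub V} {v p q r : V} (h : K.Nb v p q r) : K.Nb v q p r :=
  ⟨h.pq.symm, h.qr, h.pr, h.aq, h.ap, h.ar⟩

theorem Nb.swap23 {K : Cub V} {v p q r : V} (h : K.Nb v p q r) : K.Nb v p r q :=
  ⟨h.pr, h.pq, h.qr.symm, h.ap, h.ar, h.aq⟩

theorem Nb.ne {K : Cub V} {v p q r : V} (h : K.Nb v p q r) : v ≠ p ∧ v ≠ q ∧ v ≠ r := by
  refine ⟨?_, ?_, ?_⟩
  · obtain ⟨i, hi⟩ := h.ap
    exact fun hh => K.ne (v, i) (hi.trans hh.symm)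
  · obtain ⟨i, hi⟩ := h.aq
    exact fun hh => K.ne (v, i) (hi.trans hh.symm)
  · obtain ⟨i, hi⟩ := h.ar
    exact fun hh => K.ne (v, i) (hi.trans hh.symm)

theorem adj_ne (K : Cub V) {u v : V} (h : K.Adj u v) : u ≠ v := by
  obtain ⟨i, hi⟩ := h
  exact fun hh => K.ne (u, i) (hi.trans hh.symm)

end Cub

end B306C
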