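import Pool.Agent.Lib_MP_b306af.CB1

/-!
# MP_b306af, PART I: nontrivial cuts
-/

namespace B306C

open Classical

namespace Cub

variable {V : Type}

theorem Cut.compl {K : Cub V} {X : Set V} (h : K.Cut X) : K.Cut Xᶜ := by
  refine ⟨h.2.1, ?_, ?_⟩
  · rw [compl_compl]; exact h.1
  · rw [bd_compl]; exact h.2.2

/-- In a 3-edge-connected graph a vertex `u` of a nontrivial 3-cut `X` has at most one port
leaving `X`: otherwise `bd (X \ {u})` has at most two ports (`bd_insert` for `X \ {u}` and `u`: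
`3 + 2 * s = (bd (X \ {u})).ncard + 3` with `s ≤ 1`). -/
theorem mv1 [Finite V] (K : Cub V) (hK : K.Conn3) {X : Set V} (hX : K.Cut X) {u : V} (hu : u ∈ X)
    {i j : Fin 3} (hi : (K.e (u, i)).1 ∉ X) (hj : (K.e (u, j)).1 ∉ X) : i = j := by
  by_contra hij
  have hu' : u ∉ X \ {u} := fun h => h.2 rfl
  have h1 := bd_insert K hu'
  have h2 : insert u (X \ {u}) = X := by
    rw [Set.insert_sdiff_singleton, Set.insert_eq_of_mem hu]
  rw [h2, hX.2.2] at h1
  have hs : {k : Fin 3 | (K.e (u, k)).1 ∈ X \ {u}}.ncard ≤ 1 := by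
    rw [Set.ncard_le_one_iff]
    intro a b ha hb
    have hai : a ≠ i := by
      rintro rfl
      exact hi ha.1
    have haj : a ≠ j := by
      rintro rfl
      exact hj ha.1
    have hbi : b ≠ i := by
      rintro rfl
      exact hi hb.1
    have hbj : b ≠ j := by
      rintro rfl
      exact hj hb.1
    omega
  have hne : (X \ {u}).Nonempty := by
    apply Set.nonempty_of_ncard_ne_zero
    have h3 := Set.ncard_sdiff_singleton_add_one hu (Set.toFinite X)
    have h4 := hX.1
    omega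
  have h5 := hK (X \ {u}) hne ⟨u, hu'⟩
  omega

/-- The same for the complement. -/
theorem mv2 [Finite V] (K : Cub V) (hK : K.Conn3) {X : Set V} (hX : K.Cut X) {u : V} (hu : u ∉ X)
    {i j : Fin 3} (hi : (K.e (u, i)).1 ∈ X) (hj : (K.e (u, j)).1 ∈ X) : i = j :=
  mv1 K hK hX.compl (u := u) hu (fun h => h hi) (fun h => h hj)

/-- `mv1` for neighbours. -/
theorem mv1' [Finite V] (K : Cub V) (hK : K.Conn3) {X : Set V} (hX : K.Cut X) {u p q : V}
    (hu : u ∈ X) (hp : K.Adj u p) (hq : K.Adj u q) (hpX : p ∉ X) (hqX : q ∉ X) : p = q := by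
  obtain ⟨i, rfl⟩ := hp
  obtain ⟨j, rfl⟩ := hq
  rw [mv1 K hK hX hu hpX hqX]

/-- `mv2` for neighbours. -/
theorem mv2' [Finite V] (K : Cub V) (hK : K.Conn3) {X : Set V} (hX : K.Cut X) {u p q : V}
    (hu : u ∉ X) (hp : K.Adj u p) (hq : K.Adj u q) (hpX : p ∈ X) (hqX : q ∈ X) : p = q := by
  obtain ⟨i, rfl⟩ := hp
  obtain ⟨j, rfl⟩ := hq
  rw [mv2 K hK hX hu hpX hqX]

/-- 3-edge-connected, no nontrivial 3-cut, at least five vertices: no triangle (its boundary has
at most three ports by `bd_insert`, so exactly three). -/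
theorem no_tri [Finite V] (K : Cub V) (hK : K.Conn3) (h4 : K.C4) (hc : 5 ≤ Nat.card V)
    {u v w : V} (huv : K.Adj u v) (hvw : K.Adj v w) (huw : K.Adj u w) : False := by
  have nuv : u ≠ v := by
    obtain ⟨i, hi⟩ := huv
    intro h
    exact K.ne (u, i) (hi.trans h.symm)
  have nvw : v ≠ w := by
    obtain ⟨i, hi⟩ := hvw
    intro h
    exact K.ne (v, i) (hi.trans h.symm)
  have nuw : u ≠ w := by
    obtain ⟨i, hi⟩ := huw
    intro h
    exact K.ne (u, i) (hi.trans h.symm)
  have b1 : (K.bd (insert v {u})).ncard + 2 * {i : Fin 3 | (K.e (v, i)).1 ∈ ({u} : Set V)}.ncard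
      = (K.bd {u}).ncard + 3 := bd_insert K (by simpa using nuv.symm)
  rw [bd_singleton] at b1
  have s1 : 1 ≤ {i : Fin 3 | (K.e (v, i)).1 ∈ ({u} : Set V)}.ncard := by
    obtain ⟨i, hi⟩ := K.adj_symm huv
    exact (Set.ncard_pos (Set.toFinite _)).2 ⟨i, hi⟩
  have hw : w ∉ (insert v {u} : Set V) := by
    rintro (h | h)
    · exact nvw h.symm
    · exact nuw (Set.mem_singleton_iff.1 h).symm
  have b2 := bd_insert K hw
  have s2 : 2 ≤ {i : Fin 3 | (K.e (w, i)).1 ∈ (insert v {u} : Set V)}.ncard := by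
    obtain ⟨i, hi⟩ := K.adj_symm huw
    obtain ⟨j, hj⟩ := K.adj_symm hvw
    have hij : i ≠ j := by
      rintro rfl
      exact nuv (hi.symm.trans hj)
    have h3 : ({i, j} : Set (Fin 3)) ⊆ {i : Fin 3 | (K.e (w, i)).1 ∈ (insert v {u} : Set V)} := by
      rintro k (rfl | hk)
      · exact Or.inr hi
      · rw [Set.mem_singleton_iff] at hk
        subst hk
        exact Or.inl hj
    have h4 := Set.ncard_le_ncard h3 (Set.toFinite _)
    rwa [Set.ncard_pair hij] at h4
  have hX3 : (insert w (insert v {u}) : Set V).ncard = 3 := by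
    rw [Set.ncard_insert_of_notMem hw, Set.ncard_pair nuv.symm]
  have hXc := Set.ncard_add_ncard_compl (insert w (insert v {u}) : Set V)
  rw [hX3] at hXc
  have h5 := hK (insert w (insert v {u})) ⟨w, Set.mem_insert _ _⟩
    (Set.nonempty_of_ncard_ne_zero (by omega))
  exact h4 (insert w (insert v {u})) ⟨by omega, by omega, by omega⟩

/-- Without nontrivial 3-cuts, a boundary with two vertices on both sides has at least four
ports. -/
theorem C4.four {K : Cub V} (hK : K.Conn3) (h4 : K.C4) {X : Set V} (h1 : 2 ≤ X.ncard)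
    (h2 : 2 ≤ Xᶜ.ncard) : 4 ≤ (K.bd X).ncard := by
  have h3 : 3 ≤ (K.bd X).ncard := by
    apply hK
    · apply Set.nonempty_of_ncard_ne_zero; omega
    · apply Set.nonempty_of_ncard_ne_zero; omega
  rcases Nat.lt_or_ge (K.bd X).ncard 4 with h | h
  · exact absurd ⟨h1, h2, by omega⟩ (h4 X)
  · exact h

end Cub

end B306C
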