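import Pool.Agent.Lib_MP_b306af.CC1

/-!
# MP_b306af, PART I: contraction, boundaries
-/

namespace B306C

open Classical

namespace Cub

variable {V : Type}

/-- the port of `K` which belongs to a port of `K / X` -/
private def CC2_phi (X : Set V) (b : Fin 3 → V × Fin 3) :
    Option {v // v ∉ X} × Fin 3 → V × Fin 3
  | (some v, i) => (v.1, i)
  | (none, k) => b k

private theorem CC2_phi_inj {K : Cub V} {X : Set V} {b : Fin 3 → V × Fin 3} (hb : K.Enum X b) :
    Function.Injective (CC2_phi X b) := by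
  have hbX : ∀ k, (b k).1 ∈ X := fun k => ((hb.rng (b k)).1 ⟨k, rfl⟩).1
  rintro ⟨_ | v, i⟩ ⟨_ | w, j⟩ h
  · have h1 : b i = b j := h
    rw [hb.inj h1]
  · have h1 : b i = (w.1, j) := h
    have h2 : w.1 ∈ X := by
      have h3 := hbX i
      rw [h1] at h3
      exact h3
    exact absurd h2 w.2
  · have h1 : (v.1, i) = b j := h
    have h2 : v.1 ∈ X := by
      have h3 := hbX j
      rw [← h1] at h3
      exact h3
    exact absurd h2 v.2
  · have h1 : (v.1, i) = (w.1, j) := h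
    have h2 : v = w := Subtype.ext (congrArg Prod.fst h1)
    have h3 : i = j := congrArg Prod.snd h1
    rw [h2, h3]

private theorem CC2_surj {X : Set V} (hX : X.Nonempty) : Function.Surjective (pj X) := by
  rintro (_ | v)
  · obtain ⟨x, hx⟩ := hX
    exact ⟨x, pj_mem hx⟩
  · exact ⟨v.1, pj_not_mem v.2⟩

private theorem CC2_image {K : Cub V} {X : Set V} {b : Fin 3 → V × Fin 3} (hb : K.Enum X b)
    (Y : Set (Option {v // v ∉ X})) :
    CC2_phi X b '' ((K.contr X b hb).bd Y) = K.bd (pj X ⁻¹' Y) := by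
  have hbX : ∀ k, (b k).1 ∈ X := fun k => ((hb.rng (b k)).1 ⟨k, rfl⟩).1
  ext d
  constructor
  · rintro ⟨⟨_ | v, i⟩, ⟨h1, h2⟩, rfl⟩
    · refine ⟨?_, ?_⟩
      · show pj X (b i).1 ∈ Y
        rw [pj_mem (hbX i)]
        exact h1
      · show pj X (K.e (b i)).1 ∉ Y
        rw [← contr_fst_none hb i]
        exact h2
    · refine ⟨?_, ?_⟩
      · show pj X v.1 ∈ Y
        rw [pj_not_mem v.2]
        exact h1
      · show pj X (K.e (v.1, i)).1 ∉ Y
        rw [← contr_fst hb v i]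
        exact h2
  · rintro ⟨h1, h2⟩
    have h1' : pj X d.1 ∈ Y := h1
    have h2' : pj X (K.e d).1 ∉ Y := h2
    by_cases hd : d.1 ∈ X
    · have h3 : (K.e d).1 ∉ X := fun h => by
        rw [pj_mem h] at h2'
        rw [pj_mem hd] at h1'
        exact h2' h1'
      obtain ⟨k, rfl⟩ := (hb.rng d).2 ⟨hd, h3⟩
      refine ⟨(none, k), ⟨?_, ?_⟩, rfl⟩
      · show none ∈ Y
        rw [pj_mem hd] at h1'
        exact h1'
      · show ((K.contr X b hb).e (none, k)).1 ∉ Y
        rw [contr_fst_none hb k]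
        exact h2'
    · refine ⟨(some ⟨d.1, hd⟩, d.2), ⟨?_, ?_⟩, rfl⟩
      · show some ⟨d.1, hd⟩ ∈ Y
        rw [pj_not_mem hd] at h1'
        exact h1'
      · show ((K.contr X b hb).e (some ⟨d.1, hd⟩, d.2)).1 ∉ Y
        rw [contr_fst hb ⟨d.1, hd⟩ d.2]
        exact h2'

/-- the ports of `bd Y` in `K / X` correspond to the ports of `bd (pj X ⁻¹' Y)` in `K`:
`(some v, i) ↦ (v, i)`, `(none, k) ↦ b k` -/
theorem contr_bd [Finite V] {K : Cub V} {X : Set V} {b : Fin 3 → V × Fin 3} (hb : K.Enum X b)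
    (Y : Set (Option {v // v ∉ X})) :
    ((K.contr X b hb).bd Y).ncard = (K.bd (pj X ⁻¹' Y)).ncard := by
  rw [← CC2_image hb Y, Set.ncard_image_of_injective _ (CC2_phi_inj hb)]

/-- `K / X` has fewer vertices than `K` if `X` has at least two elements. -/
theorem contr_card [Finite V] {X : Set V} (h : 2 ≤ X.ncard) :
    Nat.card (Option {v // v ∉ X}) < Nat.card V := by
  have h1 : Nat.card (Option {v // v ∉ X}) = Nat.card {v // v ∉ X} + 1 := Finite.card_option
  have h2 : Nat.card {v // v ∉ X} = (Xᶜ).ncard := rfl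
  have h3 := Set.ncard_add_ncard_compl X
  rw [h1, h2]
  omega

/-- 3-edge-connectivity is inherited by `K / X` (`contr_bd`; `pj X` is surjective since `X` is
nonempty, so preimages of nonempty sets are nonempty). -/
theorem contr_conn3 [Finite V] {K : Cub V} (hK : K.Conn3) {X : Set V} {b : Fin 3 → V × Fin 3}
    (hb : K.Enum X b) (hX : X.Nonempty) : (K.contr X b hb).Conn3 := by
  intro Y hY hYc
  rw [contr_bd hb Y]
  have hs := CC2_surj hX
  refine hK (pj X ⁻¹' Y) ?_ ?_
  · obtain ⟨y, hy⟩ := hY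
    obtain ⟨x, rfl⟩ := hs y
    exact ⟨x, hy⟩
  · obtain ⟨y, hy⟩ := hYc
    obtain ⟨x, rfl⟩ := hs y
    exact ⟨x, hy⟩

/-- Nontrivial 3-cuts of `K / X` are nontrivial 3-cuts of `K` (the cardinalities of the sets only
grow because `pj X` is surjective). -/
theorem contr_cut [Finite V] {K : Cub V} {X : Set V} {b : Fin 3 → V × Fin 3}
    (hb : K.Enum X b) (hX : X.Nonempty) {Y : Set (Option {v // v ∉ X})}
    (hY : (K.contr X b hb).Cut Y) : K.Cut (pj X ⁻¹' Y) := by
  have hs := CC2_surj hX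
  have hle : ∀ Z : Set (Option {v // v ∉ X}), Z.ncard ≤ (pj X ⁻¹' Z).ncard := by
    intro Z
    have h1 : pj X '' (pj X ⁻¹' Z) = Z := Set.image_preimage_eq Z hs
    calc Z.ncard = (pj X '' (pj X ⁻¹' Z)).ncard := by rw [h1]
      _ ≤ (pj X ⁻¹' Z).ncard := Set.ncard_image_le (Set.toFinite _)
  obtain ⟨h1, h2, h3⟩ := hY
  refine ⟨h1.trans (hle Y), ?_, ?_⟩
  · rw [← Set.preimage_compl]
    exact h2.trans (hle Yᶜ)
  · rw [← contr_bd hb Y]
    exact h3

end Cub

end B306C
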