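import Pool.Agent.Lib_MP_b306af.CC6

/-!
# MP_b306af, PART I: contraction, Reach and values
-/

namespace B306C

open Classical

namespace Cub

variable {V : Type}

theorem CC7_mono {K : Cub V} {v0 : V} {i0 : Fin 3} {S T : Set V} (h : K.Reach v0 i0 T)
    (hST : ∀ v ∈ S, v ∈ T) : K.Reach v0 i0 S := by
  obtain ⟨C, hC, hr, hs⟩ := h
  exact ⟨C, hC, hr, fun v hv => hs v (hST v hv)⟩

theorem CC7_sum [Fintype V] {X : Set V} [DecidableEq (Option {v // v ∉ X})] (f : V → ℝ)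
    (g : Option {v // v ∉ X} → ℝ)
    (hg : ∀ v, g (some v) = f v.1) (S : Finset (Option {v // v ∉ X}))
    [DecidablePred (fun v => ∃ h : v ∉ X, some (⟨v, h⟩ : {v // v ∉ X}) ∈ S)] :
    ∑ v ∈ Finset.univ.filter (fun v => ∃ h : v ∉ X, some ⟨v, h⟩ ∈ S), f v
      = ∑ x ∈ S.erase none, g x := by
  refine Finset.sum_bij (fun v hv => some ⟨v, ((Finset.mem_filter.1 hv).2).choose⟩) ?_ ?_ ?_ ?_
  · intro v hv
    exact Finset.mem_erase.2 ⟨by simp, ((Finset.mem_filter.1 hv).2).choose_spec⟩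
  · intro v hv w hw h
    exact congrArg Subtype.val (Option.some.inj h)
  · rintro (_ | v) hx
    · exact absurd rfl (Finset.mem_erase.1 hx).1
    · exact ⟨v.1, Finset.mem_filter.2 ⟨Finset.mem_univ _, v.2, (Finset.mem_erase.1 hx).2⟩, rfl⟩
  · intro v hv
    exact (hg ⟨v, ((Finset.mem_filter.1 hv).2).choose⟩).symm

/-- Reaching a set `A` through a 3-cut. -/
theorem reach_contr [Finite V] {K : Cub V} {X : Set V} {b : Fin 3 → V × Fin 3}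
    (hb : K.Enum X b) {v0 : V} (hv0 : v0 ∉ X) (i0 : Fin 3) (A : Set V)
    {S1 : Set (Option {v // v ∉ X})} (h1 : (K.contr X b hb).Reach (some ⟨v0, hv0⟩) i0 S1)
    (hA1 : ∀ v (h : v ∉ X), v ∈ A → some ⟨v, h⟩ ∈ S1) (hA2 : ∀ v ∈ X, v ∈ A → none ∈ S1)
    (h2 : ∀ k, (K.contr Xᶜ (fun k => K.e (b k)) hb.compl).Reach none k
      {x | ∃ v, x = some v ∧ v.1 ∈ A}) : K.Reach v0 i0 A := by
  rcases reach_glue hb hv0 i0 h1 with ⟨hn, -, hR⟩ | ⟨k, hk⟩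
  · refine CC7_mono hR fun v hv => ?_
    have hX : v ∉ X := fun h => hn (hA2 v h hv)
    exact ⟨hX, hA1 v hX hv⟩
  · refine CC7_mono (hk _ (h2 k)) fun v hv => ?_
    by_cases hX : v ∈ X
    · exact Or.inr ⟨fun h => h hX, _, rfl, hv⟩
    · exact Or.inl ⟨hX, hA1 v hX hv⟩

theorem CC7_zero : (0 : ℝ) ^ ((4 : ℝ) / 5) = 0 := Real.zero_rpow (by norm_num)

theorem CC7_erase {T : Type} [DecidableEq (Option T)] (S : Finset (Option T)) (g : Option T → ℝ)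
    (h : g none = 0) :
    ∑ x ∈ S.erase none, g x = ∑ x ∈ S, g x := by
  exact Finset.sum_erase _ h

/-- the union of the two parts -/
theorem CC7_union [Fintype V] {X : Set V} (w : V → ℝ)
    (w1 : Option {v // v ∉ X} → ℝ) (w2 : Option {v // v ∉ Xᶜ} → ℝ)
    (hw1 : ∀ v, w1 (some v) = w v.1) (hw2 : ∀ v, w2 (some v) = w v.1)
    (S1 : Finset (Option {v // v ∉ X})) (S2 : Finset (Option {v // v ∉ Xᶜ})) :
    ∑ v ∈ Finset.univ.filter (fun v => ∃ h : v ∉ X, some ⟨v, h⟩ ∈ S1) ∪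
        Finset.univ.filter (fun v => ∃ h : v ∉ Xᶜ, some ⟨v, h⟩ ∈ S2), (w v) ^ ((4 : ℝ) / 5)
      = ∑ x ∈ S1.erase none, (w1 x) ^ ((4 : ℝ) / 5) + ∑ x ∈ S2.erase none, (w2 x) ^ ((4 : ℝ) / 5)
      := by
  rw [Finset.sum_union]
  · rw [CC7_sum (fun v => (w v) ^ ((4 : ℝ) / 5)) (fun x => (w1 x) ^ ((4 : ℝ) / 5))
      (fun v => by simp only [hw1]) S1,
      CC7_sum (fun v => (w v) ^ ((4 : ℝ) / 5)) (fun x => (w2 x) ^ ((4 : ℝ) / 5))
      (fun v => by simp only [hw2]) S2]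
  · rw [Finset.disjoint_left]
    intro v h1 h2
    obtain ⟨a, -⟩ := (Finset.mem_filter.1 h1).2
    obtain ⟨c, -⟩ := (Finset.mem_filter.1 h2).2
    exact c a

/-- Values through a 3-cut: the new vertex `none` of `K / X` stands for `X`; if the cycle visits
`none`, the value `(w1 none)^(4/5)` is replaced by at least `t2`. -/
theorem gd_contr [Fintype V] {K : Cub V} {X : Set V} {b : Fin 3 → V × Fin 3}
    (hb : K.Enum X b) {v0 : V} (hv0 : v0 ∉ X) (i0 : Fin 3) (w : V → ℝ)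
    (w1 : Option {v // v ∉ X} → ℝ) (w2 : Option {v // v ∉ Xᶜ} → ℝ)
    (hw1 : ∀ v, w1 (some v) = w v.1) (hw2 : ∀ v, w2 (some v) = w v.1) (hw20 : w2 none = 0)
    (t t2 : ℝ) (ht2 : (w1 none) ^ ((4 : ℝ) / 5) ≤ t2)
    (h1 : (K.contr X b hb).Gd (some ⟨v0, hv0⟩) i0 w1 t)
    (h2 : ∀ k, (K.contr Xᶜ (fun k => K.e (b k)) hb.compl).Gd none k w2 t2) :
    K.Gd v0 i0 w t := by
  obtain ⟨S1, hR1, hs1⟩ := h1
  have key : (none ∉ S1 ∧ K.Reach v0 i0 {v | ∃ h : v ∉ X, some ⟨v, h⟩ ∈ S1}) ∨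
      (none ∈ S1 ∧ ∃ S2 : Finset (Option {v // v ∉ Xᶜ}),
        t2 ≤ ∑ x ∈ S2, (w2 x) ^ ((4 : ℝ) / 5) ∧
        K.Reach v0 i0 ({v | ∃ h : v ∉ X, some ⟨v, h⟩ ∈ S1} ∪
        {v | ∃ h : v ∉ Xᶜ, some ⟨v, h⟩ ∈ S2})) := by
    rcases reach_glue hb hv0 i0 hR1 with ⟨hn, -, hR⟩ | ⟨k, hk⟩
    · exact Or.inl ⟨hn, hR⟩
    · obtain ⟨S2, hR2, hs2⟩ := h2 k
      have h3 := hk _ hR2
      by_cases hn : none ∈ S1
      · exact Or.inr ⟨hn, S2, hs2, h3⟩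
      · exact Or.inl ⟨hn, CC7_mono h3 fun v hv => Or.inl hv⟩
  rcases key with ⟨hn, hR⟩ | ⟨hn, S2, hs2, hR⟩
  · refine ⟨Finset.univ.filter (fun v => ∃ h : v ∉ X, some ⟨v, h⟩ ∈ S1), ?_, ?_⟩
    · refine CC7_mono hR fun v hv => ?_
      exact (Finset.mem_filter.1 (Finset.mem_coe.1 hv)).2
    · rw [CC7_sum (fun v => (w v) ^ ((4 : ℝ) / 5)) (fun x => (w1 x) ^ ((4 : ℝ) / 5))
        (fun v => by simp only [hw1]) S1, Finset.erase_eq_of_notMem hn]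
      exact hs1
  · refine ⟨Finset.univ.filter (fun v => ∃ h : v ∉ X, some ⟨v, h⟩ ∈ S1) ∪
        Finset.univ.filter (fun v => ∃ h : v ∉ Xᶜ, some ⟨v, h⟩ ∈ S2), ?_, ?_⟩
    · refine CC7_mono hR fun v hv => ?_
      rcases Finset.mem_union.1 (Finset.mem_coe.1 hv) with h | h
      · exact Or.inl (Finset.mem_filter.1 h).2
      · exact Or.inr (Finset.mem_filter.1 h).2
    · rw [CC7_union w w1 w2 hw1 hw2 S1 S2,
        CC7_erase S2 (fun x => (w2 x) ^ ((4 : ℝ) / 5)) (by simp only [hw20, CC7_zero])]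
      have h4 : (w1 none) ^ ((4 : ℝ) / 5) + ∑ x ∈ S1.erase none, (w1 x) ^ ((4 : ℝ) / 5)
          = ∑ x ∈ S1, (w1 x) ^ ((4 : ℝ) / 5) := 
          Finset.add_sum_erase S1 (fun x => (w1 x) ^ ((4 : ℝ) / 5)) hn
      linarith

/-- Values through a 3-cut containing one of the two neighbours of `v0` in the cycle: `none` is
surely visited. -/
theorem gd_contr' [Fintype V] {K : Cub V} {X : Set V} {b : Fin 3 → V × Fin 3}
    (hb : K.Enum X b) {v0 : V} (hv0 : v0 ∉ X) (i0 : Fin 3) (w : V → ℝ)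
    (w1 : Option {v // v ∉ X} → ℝ) (w2 : Option {v // v ∉ Xᶜ} → ℝ)
    (hw1 : ∀ v, w1 (some v) = w v.1) (hw2 : ∀ v, w2 (some v) = w v.1) (hw20 : w2 none = 0)
    (t t2 : ℝ) (hw10 : w1 none = 0) (hj : ∃ j, j ≠ i0 ∧ (K.e (v0, j)).1 ∈ X)
    (h1 : (K.contr X b hb).Gd (some ⟨v0, hv0⟩) i0 w1 t)
    (h2 : ∀ k, (K.contr Xᶜ (fun k => K.e (b k)) hb.compl).Gd none k w2 t2) :
    K.Gd v0 i0 w (t + t2) := by
  obtain ⟨S1, hR1, hs1⟩ := h1
  rcases reach_glue hb hv0 i0 hR1 with ⟨-, hn, -⟩ | ⟨k, hk⟩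
  · obtain ⟨j, hj1, hj2⟩ := hj
    exact absurd hj2 (hn j hj1)
  · obtain ⟨S2, hR2, hs2⟩ := h2 k
    have hR := hk _ hR2
    refine ⟨Finset.univ.filter (fun v => ∃ h : v ∉ X, some ⟨v, h⟩ ∈ S1) ∪
        Finset.univ.filter (fun v => ∃ h : v ∉ Xᶜ, some ⟨v, h⟩ ∈ S2), ?_, ?_⟩
    · refine CC7_mono hR fun v hv => ?_
      rcases Finset.mem_union.1 (Finset.mem_coe.1 hv) with h | h
      · exact Or.inl (Finset.mem_filter.1 h).2
      · exact Or.inr (Finset.mem_filter.1 h).2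
    · rw [CC7_union w w1 w2 hw1 hw2 S1 S2,
        CC7_erase S2 (fun x => (w2 x) ^ ((4 : ℝ) / 5)) (by simp only [hw20, CC7_zero]),
        CC7_erase S1 (fun x => (w1 x) ^ ((4 : ℝ) / 5)) (by simp only [hw10, CC7_zero])]
      linarith

end Cub

end B306C
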