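import Pool.Agent.Lib_MP_b306af.CDefs2

/-!
# MP_b306af, PART I: the three inductive statements
-/

namespace B306C

open Classical

open Cub

/-- three vertices can be reached -/
def PS3 (n : ℕ) : Prop :=
  ∀ (V : Type) [Fintype V] (K : Cub V), K.Conn3 → Fintype.card V ≤ n →
    ∀ (v0 : V) (i0 : Fin 3) (A : Set V), A.ncard ≤ 3 → K.Reach v0 i0 A

/-- the theorem -/
def PTI (n : ℕ) : Prop :=
  ∀ (V : Type) [Fintype V] (K : Cub V), K.Conn3 → Fintype.card V ≤ n →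
    ∀ (v0 : V) (i0 : Fin 3) (w : V → ℝ), (∀ v, 0 ≤ w v) → w v0 = 0 →
      K.Gd v0 i0 w ((∑ v, w v) ^ ((4 : ℝ) / 5))

/-- the two-step theorem -/
def PTT (n : ℕ) : Prop :=
  ∀ (V : Type) [Fintype V] (K : Cub V), K.Conn3 → Fintype.card V ≤ n →
    ∀ (v0 : V) (i0 : Fin 3) (a b c x y p z : V), K.TTH v0 i0 a b c x y p z →
      ∀ (w : V → ℝ) (m : ℝ), (∀ v, 0 ≤ w v) → w v0 = 0 → w a = 0 → w b = 0 → 0 ≤ m →
        m ≤ w c → m ≤ w x → m ≤ w y → K.Gd v0 i0 w (Tf m (∑ v, w v))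

end B306C
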