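import Pool.Agent.Lib_MP_b306af.CB2
import Pool.Agent.Lib_MP_b306af.CB3
import Pool.Agent.Lib_MP_b306af.CB4
import Pool.Agent.Lib_MP_b306af.CM0
import Pool.Agent.Lib_MP_b306af.CC2
import Pool.Agent.Lib_MP_b306af.CC7

/-!
# MP_b306af, PART I: the theorem, through a 3-cut
-/

namespace B306C

open Classical

open Cub

/-- the case `v0 ∉ X` of `ti_cut` -/
private theorem ti_cut_aux {n : ℕ} (ih : PTI n) {V : Type} [Fintype V] (K : Cub V) (hK : K.Conn3)
    (hn : Fintype.card V ≤ n + 1) {X : Set V} (hX : K.Cut X) (v0 : V) (hv0 : v0 ∉ X) (i0 : Fin 3)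
    (w : V → ℝ) (hw : ∀ v, 0 ≤ w v) (hw0 : w v0 = 0) :
    K.Gd v0 i0 w ((∑ v, w v) ^ ((4 : ℝ) / 5)) := by
  obtain ⟨b, hb⟩ := exists_enum K hX.2.2
  have hXne : X.Nonempty := by
    apply Set.nonempty_of_ncard_ne_zero; have := hX.1; omega
  have hXcne : Xᶜ.Nonempty := by
    apply Set.nonempty_of_ncard_ne_zero; have := hX.2.1; omega
  have hsplit : (∑ v ∈ Finset.univ.filter (· ∈ X), w v)
      + (∑ v ∈ Finset.univ.filter (fun v => ¬ v ∈ X), w v) = ∑ v, w v :=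
    Finset.sum_filter_add_sum_filter_not _ _ _
  have hsub1 : (∑ v ∈ Finset.univ.filter (fun v => ¬ v ∈ X), w v) = ∑ a : {v // v ∉ X}, w a.1 :=
    Finset.sum_subtype _ (by simp) _
  have hsub2 : (∑ v ∈ Finset.univ.filter (· ∈ X), w v) = ∑ a : {v // v ∉ Xᶜ}, w a.1 :=
    Finset.sum_subtype _ (by simp) _
  have hc1 : Fintype.card (Option {v // v ∉ X}) ≤ n := by
    have h := contr_card (V := V) hX.1
    rw [Nat.card_eq_fintype_card, Nat.card_eq_fintype_card] at h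
    omega
  have hc2 : Fintype.card (Option {v // v ∉ Xᶜ}) ≤ n := by
    have h := contr_card (V := V) hX.2.1
    rw [Nat.card_eq_fintype_card, Nat.card_eq_fintype_card] at h
    omega
  have hnn : 0 ≤ ∑ v ∈ Finset.univ.filter (· ∈ X), w v := Finset.sum_nonneg fun v _ => hw v
  refine gd_contr hb hv0 i0 w
    (fun o => o.elim (∑ v ∈ Finset.univ.filter (· ∈ X), w v) (fun v => w v.1))
    (fun o => o.elim 0 (fun v => w v.1)) (fun _ => rfl) (fun _ => rfl) rfl
    ((∑ v, w v) ^ ((4 : ℝ) / 5)) ((∑ v ∈ Finset.univ.filter (· ∈ X), w v) ^ ((4 : ℝ) / 5))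
    le_rfl ?_ ?_
  · have h := ih (Option {v // v ∉ X}) (K.contr X b hb) (contr_conn3 hK hb hXne) hc1
      (some ⟨v0, hv0⟩) i0
      (fun o => o.elim (∑ v ∈ Finset.univ.filter (· ∈ X), w v) (fun v => w v.1))
      (by rintro (_ | v); exacts [hnn, hw v.1]) hw0
    rw [Fintype.sum_option] at h
    have e : (∑ v ∈ Finset.univ.filter (· ∈ X), w v) + ∑ a : {v // v ∉ X}, w a.1 = ∑ v, w v := by
      rw [← hsub1, hsplit]
    simp only [Option.elim] at h
    rw [e] at h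
    exact h
  · intro k
    have h := ih (Option {v // v ∉ Xᶜ}) (K.contr Xᶜ (fun k => K.e (b k)) hb.compl)
      (contr_conn3 hK hb.compl hXcne) hc2 none k
      (fun o => o.elim 0 (fun v => w v.1))
      (by rintro (_ | v); exacts [le_rfl, hw v.1]) rfl
    rw [Fintype.sum_option] at h
    simp only [Option.elim] at h
    rw [zero_add, ← hsub2] at h
    exact h

/-- `Cut X`, by `Cut.compl` we may assume `v0 ∉ X`.  `gd_contr` with `w1 none = ∑ v ∈ X, w v` (so the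
total weight of `w1` is `∑ v, w v`, `Fintype.sum_option`), `w2 none = 0` and
`t2 = (∑ v ∈ X, w v) ^ (4/5)`. -/
theorem ti_cut {n : ℕ} (ih : PTI n) {V : Type} [Fintype V] (K : Cub V) (hK : K.Conn3)
    (hn : Fintype.card V ≤ n + 1) {X : Set V} (hX : K.Cut X) (v0 : V) (i0 : Fin 3) (w : V → ℝ)
    (hw : ∀ v, 0 ≤ w v) (hw0 : w v0 = 0) : K.Gd v0 i0 w ((∑ v, w v) ^ ((4 : ℝ) / 5)) := by
  by_cases hv0 : v0 ∈ X
  · exact ti_cut_aux ih K hK hn hX.compl v0 (fun h => h hv0) i0 w hw hw0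
  · exact ti_cut_aux ih K hK hn hX v0 hv0 i0 w hw hw0

end B306C
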