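import Pool.Agent.Lib_MP_b306af.CR1

/-!
# MP_b306af, PART I: existence of the four ports at an edge
-/

namespace B306C

open Classical

namespace Cub

variable {V : Type}

/-- Existence of the four ports for the deletion of the edge `uv`. -/
theorem exists_dq {K : Cub V} {u v p q r s : V} (hu : K.Nb u v p q) (hv : K.Nb v u r s) :
    ∃ s1 s2 s3 s4, K.DQ u v s1 s2 s3 s4 ∧ (K.e s1).1 = p ∧ (K.e s2).1 = q ∧ (K.e s3).1 = r ∧
      (K.e s4).1 = s := by
  obtain ⟨i, j, k, hij, hik, hjk, hall, ei, ej, ek⟩ := hu.ports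
  obtain ⟨i', j', k', hij', hik', hjk', hall', ei', ej', ek'⟩ := hv.ports
  have huv : u ≠ v := hu.ne.1
  have hup : u ≠ p := hu.ne.2.1
  have huq : u ≠ q := hu.ne.2.2
  have hvr : v ≠ r := hv.ne.2.1
  have hvs : v ≠ s := hv.ne.2.2
  have hvp : v ≠ p := hu.pq
  have hvq : v ≠ q := hu.pr
  have hur : u ≠ r := hv.pq
  have hus : u ≠ s := hv.pr
  refine ⟨(u, j), (u, k), (v, j'), (v, k'), ⟨⟨?_, ?_, ?_, ?_, ?_, ?_, ?_, ?_, ?_⟩, hu.ap, rfl, rfl, rfl, rfl⟩, ej, ek,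
    ej', ek'⟩
  · rintro ⟨d, l⟩
    simp only [bd, Set.mem_setOf_eq, Set.mem_insert_iff, Set.mem_singleton_iff, Prod.mk.injEq, not_or]
    constructor
    · rintro ⟨rfl | rfl, h1, h2⟩
      · rcases hall l with rfl | rfl | rfl
        · exact absurd ei h2
        · exact Or.inl ⟨rfl, rfl⟩
        · exact Or.inr (Or.inl ⟨rfl, rfl⟩)
      · rcases hall' l with rfl | rfl | rfl
        · exact absurd ei' h1
        · exact Or.inr (Or.inr (Or.inl ⟨rfl, rfl⟩))
        · exact Or.inr (Or.inr (Or.inr ⟨rfl, rfl⟩))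
    · rintro (⟨rfl, rfl⟩ | ⟨rfl, rfl⟩ | ⟨rfl, rfl⟩ | ⟨rfl, rfl⟩)
      · rw [ej]; exact ⟨Or.inl rfl, hup.symm, hvp.symm⟩
      · rw [ek]; exact ⟨Or.inl rfl, huq.symm, hvq.symm⟩
      · rw [ej']; exact ⟨Or.inr rfl, hur.symm, hvr.symm⟩
      · rw [ek']; exact ⟨Or.inr rfl, hus.symm, hvs.symm⟩
  · exact fun h => hjk (congrArg Prod.snd h)
  · exact fun h => huv (congrArg Prod.fst h)
  · exact fun h => huv (congrArg Prod.fst h)
  · exact fun h => huv (congrArg Prod.fst h)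
  · exact fun h => huv (congrArg Prod.fst h)
  · exact fun h => hjk' (congrArg Prod.snd h)
  · rw [ej, ek]; exact hu.qr
  · rw [ej', ek']; exact hv.qr

end Cub

end B306C
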