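import Pool.Agent.Lib_MP_b306af.CR4

/-!
# MP_b306af, PART I: deletion of an edge, connectivity
-/

namespace B306C

open Classical

namespace Cub

variable {V : Type}

theorem cr5_ncard_image [Finite V] {Z : Set V} (Y : Set {x // x ∉ Z}) (X : Set V)
    (hX : ∀ x (hx : x ∉ Z), x ∈ X ↔ ⟨x, hx⟩ ∈ Y) :
    Y.ncard ≤ X.ncard ∧ Yᶜ.ncard ≤ Xᶜ.ncard := by
  constructor
  · rw [← Set.ncard_image_of_injective Y Subtype.val_injective]
    apply Set.ncard_le_ncard _ (Set.toFinite X)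
    rintro _ ⟨⟨x, hx⟩, hy, rfl⟩
    exact (hX x hx).2 hy
  · rw [← Set.ncard_image_of_injective Yᶜ Subtype.val_injective]
    apply Set.ncard_le_ncard _ (Set.toFinite Xᶜ)
    rintro _ ⟨⟨x, hx⟩, hy, rfl⟩
    exact fun h => hy ((hX x hx).1 h)

/-- Deletion of an edge of a graph without nontrivial 3-cuts is 3-edge-connected.
`Y` and `Yᶜ` nonempty; if one of them has one element use `bd_singleton`, `bd_compl` for the
graph `K.rem`; otherwise `dq_cut` gives `X` with `2 ≤ X.ncard`, `2 ≤ Xᶜ.ncard`, so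
`4 ≤ (K.bd X).ncard` (`C4.four`). -/
theorem dq_conn3 [Finite V] {K : Cub V} {u v : V} {s1 s2 s3 s4 : V × Fin 3}
    (hd : K.DQ u v s1 s2 s3 s4) (hK : K.Conn3) (h4 : K.C4) :
    (K.rem {u, v} s1 s2 s3 s4 hd.quad).Conn3 := by
  intro Y h1 h2
  have hfY : Y.Finite := Set.toFinite Y
  have hfYc : Yᶜ.Finite := Set.toFinite Yᶜ
  have p1 : 0 < Y.ncard := (Set.ncard_pos hfY).2 h1
  have p2 : 0 < Yᶜ.ncard := (Set.ncard_pos hfYc).2 h2
  by_cases c1 : Y.ncard = 1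
  · obtain ⟨y, rfl⟩ := Set.ncard_eq_one.1 c1
    exact (bd_singleton _ y).ge
  by_cases c2 : Yᶜ.ncard = 1
  · rw [← bd_compl]
    obtain ⟨y, hy⟩ := Set.ncard_eq_one.1 c2
    rw [hy]
    exact (bd_singleton _ y).ge
  obtain ⟨X, hX, h⟩ := dq_cut hd Y
  obtain ⟨a1, a2⟩ := cr5_ncard_image Y X hX
  have h4' := C4.four hK h4 (X := X) (by omega) (by omega)
  rcases h with h | h
  · omega
  · have := h.1
    omega

/-- A nontrivial 3-cut of the graph with `uv` deleted has the two ends of one new edge on one side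
and the two ends of the other new edge on the other side. -/
theorem dq_q [Finite V] {K : Cub V} {u v : V} {s1 s2 s3 s4 : V × Fin 3}
    (hd : K.DQ u v s1 s2 s3 s4) (hK : K.Conn3) (h4 : K.C4)
    {Y : Set {x // x ∉ ({u, v} : Set V)}} (hY : (K.rem {u, v} s1 s2 s3 s4 hd.quad).Cut Y) :
    ((K.e s1).1 ∈ Subtype.val '' Y ∧ (K.e s2).1 ∈ Subtype.val '' Y ∧
      (K.e s3).1 ∉ Subtype.val '' Y ∧ (K.e s4).1 ∉ Subtype.val '' Y) ∨
    ((K.e s1).1 ∉ Subtype.val '' Y ∧ (K.e s2).1 ∉ Subtype.val '' Y ∧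
      (K.e s3).1 ∈ Subtype.val '' Y ∧ (K.e s4).1 ∈ Subtype.val '' Y) := by
  obtain ⟨X, hX, h⟩ := dq_cut hd Y
  obtain ⟨a1, a2⟩ := cr5_ncard_image Y X hX
  obtain ⟨b1, b2, b3⟩ := hY
  have h4' := C4.four hK h4 (X := X) (by omega) (by omega)
  have key : ∀ s : V × Fin 3, s ∈ K.bd ({u, v} : Set V) →
      ((K.e s).1 ∈ X ↔ (K.e s).1 ∈ Subtype.val '' Y) := by
    intro s hs
    rw [hX _ hs.2]
    constructor
    · intro hh
      exact ⟨_, hh, rfl⟩
    · rintro ⟨⟨x, hx⟩, hy, hxe⟩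
      have hxe' : x = (K.e s).1 := hxe
      subst hxe'
      exact hy
  have m1 := key s1 ((hd.quad.bd s1).2 (Or.inl rfl))
  have m2 := key s2 ((hd.quad.bd s2).2 (Or.inr (Or.inl rfl)))
  have m3 := key s3 ((hd.quad.bd s3).2 (Or.inr (Or.inr (Or.inl rfl))))
  have m4 := key s4 ((hd.quad.bd s4).2 (Or.inr (Or.inr (Or.inr rfl))))
  rcases h with h | ⟨-, h⟩
  · omega
  · rw [m1, m2, m3, m4] at h
    exact h

end Cub

end B306C
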