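import Pool.Agent.Lib_MP_b306af.CR1

/-!
# MP_b306af, PART I: deletion of an edge, lifting of cycles
-/

namespace B306C

open Classical

namespace Cub

variable {V : Type}

private theorem cr6_third (a b : Fin 3) (h : a ≠ b) :
    ∃ c : Fin 3, c ≠ a ∧ c ≠ b ∧ ∀ j, (j = a ∨ j = b) ↔ j ≠ c := by
  revert a b; decide

/-- one end of the deleted edge: the two boundary ports are both in or both out -/
private theorem cr6_deg {P : V × Fin 3 → Prop} {w : V} {a b : V × Fin 3}
    (ha : a.1 = w) (hb : b.1 = w) (hab : a ≠ b)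
    (hP : ∀ d : V × Fin 3, d.1 = w → P d → d = a ∨ d = b) (hiff : P a ↔ P b) :
    (∀ i, ¬ P (w, i)) ∨ ∃ i, ∀ j, P (w, j) ↔ j ≠ i := by
  obtain ⟨a1, a2⟩ := a
  obtain ⟨b1, b2⟩ := b
  simp only at ha hb
  subst ha
  subst hb
  have h2 : a2 ≠ b2 := by
    intro h; apply hab; rw [h]
  obtain ⟨c, hca, hcb, hc⟩ := cr6_third a2 b2 h2
  by_cases hPa : P (b1, a2)
  · right
    refine ⟨c, fun j => ?_⟩
    rw [← hc j]
    constructor
    · intro hj
      rcases hP (b1, j) rfl hj with h | h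
      · left; exact congrArg Prod.snd h
      · right; exact congrArg Prod.snd h
    · rintro (rfl | rfl)
      · exact hPa
      · exact hiff.1 hPa
  · left
    intro i hi
    rcases hP (b1, i) rfl hi with h | h
    · rw [h] at hi; exact hPa hi
    · rw [h] at hi; exact hPa (hiff.2 hi)

/-- in an even set, a boundary port at `w` forces the other one if the third is out -/
private theorem cr6_other {K : Cub V} {D : Set (V × Fin 3)} (hD : K.Even D) {w : V}
    {a b : V × Fin 3} (ha : a.1 = w) (hb : b.1 = w) (hab : a ≠ b)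
    (hP : ∀ d : V × Fin 3, d.1 = w → d ∈ D → d = a ∨ d = b) (haD : a ∈ D) : b ∈ D := by
  obtain ⟨a1, a2⟩ := a
  obtain ⟨b1, b2⟩ := b
  simp only at ha hb
  subst ha
  subst hb
  have h2 : a2 ≠ b2 := by
    intro h; apply hab; rw [h]
  obtain ⟨c, hca, hcb, hc⟩ := cr6_third a2 b2 h2
  rcases hD.deg b1 with h | ⟨i, hi⟩
  · exact absurd haD (h a2)
  · have hcD : (b1, c) ∉ D := by
      intro h
      rcases hP (b1, c) rfl h with h' | h'
      · exact hca (congrArg Prod.snd h')
      · exact hcb (congrArg Prod.snd h')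
    have hci : c = i := by
      by_contra hne
      exact hcD ((hi c).2 hne)
    rw [hi b2, ← hci]
    exact hcb.symm

/-- Lifting of cycles through the deletion of the edge `uv`: a cycle `C` of `K.rem` gives the cycle
of `K` containing the same ports outside `{u, v}` and those boundary ports `s` of `{u, v}` with
`K.e s` in `C`.  (Degree at `u`: the two boundary ports `s1`, `s2` are both in or both out, because
`K.e s1`, `K.e s2` are partners in `K.rem`, and the third port of `u` is out.)  Minimality: an even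
nonempty `D` inside it: its ports outside `{u, v}` form an even set of `K.rem` contained in `C`,
nonempty (every port in `D` at `u` is a boundary port, its partner is in `D` outside `{u, v}`), so it
is `C`, and then `D` contains also the ports at `u`, `v`. -/
theorem dq_lift {K : Cub V} {u v : V} {s1 s2 s3 s4 : V × Fin 3}
    (hd : K.DQ u v s1 s2 s3 s4) {C : Set ({x // x ∉ ({u, v} : Set V)} × Fin 3)}
    (hC : (K.rem {u, v} s1 s2 s3 s4 hd.quad).IsCycle C) :
    K.IsCycle {d | (∃ h : d.1 ∉ ({u, v} : Set V), (⟨d.1, h⟩, d.2) ∈ C) ∨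
      (d ∈ K.bd {u, v} ∧ ∃ h : (K.e d).1 ∉ ({u, v} : Set V), (⟨(K.e d).1, h⟩, (K.e d).2) ∈ C)} := by
  have hq := hd.quad
  have huv : u ≠ v := by
    obtain ⟨i, hi⟩ := hd.adj
    intro h
    exact K.ne (u, i) (by rw [hi]; exact h.symm)
  -- the predicate
  set C' : Set (V × Fin 3) := {d | (∃ h : d.1 ∉ ({u, v} : Set V), (⟨d.1, h⟩, d.2) ∈ C) ∨
      (d ∈ K.bd {u, v} ∧ ∃ h : (K.e d).1 ∉ ({u, v} : Set V), (⟨(K.e d).1, h⟩, (K.e d).2) ∈ C)}
    with hC'
  -- outside ports
  have hout : ∀ (x : V) (hx : x ∉ ({u, v} : Set V)) (k : Fin 3),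
      (x, k) ∈ C' ↔ (⟨x, hx⟩, k) ∈ C := by
    intro x hx k
    constructor
    · rintro (⟨_, h⟩ | ⟨h, _⟩)
      · exact h
      · exact absurd h.1 hx
    · intro h
      exact Or.inl ⟨hx, h⟩
  -- boundary ports
  have hbdp : ∀ (d : V × Fin 3) (h : d ∈ K.bd {u, v}),
      d ∈ C' ↔ (⟨(K.e d).1, h.2⟩, (K.e d).2) ∈ C := by
    intro d h
    constructor
    · rintro (⟨h', _⟩ | ⟨_, _, h'⟩)
      · exact absurd h.1 h'
      · exact h'
    · intro h'
      exact Or.inr ⟨h, h.2, h'⟩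
  have b1 : s1 ∈ K.bd {u, v} := (hq.bd s1).2 (Or.inl rfl)
  have b2 : s2 ∈ K.bd {u, v} := (hq.bd s2).2 (Or.inr (Or.inl rfl))
  have b3 : s3 ∈ K.bd {u, v} := (hq.bd s3).2 (Or.inr (Or.inr (Or.inl rfl)))
  have b4 : s4 ∈ K.bd {u, v} := (hq.bd s4).2 (Or.inr (Or.inr (Or.inr rfl)))
  -- partners in K.rem
  have partner : ∀ (s s' : V × Fin 3) (hs : s ∈ K.bd {u, v}) (hs' : s' ∈ K.bd {u, v}),
      ((s = s1 ∧ s' = s2) ∨ (s = s2 ∧ s' = s1) ∨ (s = s3 ∧ s' = s4) ∨ (s = s4 ∧ s' = s3)) →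
      (K.rem {u, v} s1 s2 s3 s4 hq).e (⟨(K.e s).1, hs.2⟩, (K.e s).2)
        = (⟨(K.e s').1, hs'.2⟩, (K.e s').2) := by
    intro s s' hs hs' hss
    obtain ⟨h', e'⟩ := rem_e_in hq ⟨(K.e s).1, hs.2⟩ (K.e s).2 (s := s) (s' := s')
      (by exact K.inv s) hss
    exact e'
  have hiff : ∀ (s s' : V × Fin 3) (hs : s ∈ K.bd {u, v}) (hs' : s' ∈ K.bd {u, v}),
      ((s = s1 ∧ s' = s2) ∨ (s = s2 ∧ s' = s1) ∨ (s = s3 ∧ s' = s4) ∨ (s = s4 ∧ s' = s3)) →
      s ∈ C' → s' ∈ C' := by
    intro s s' hs hs' hss h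
    rw [hbdp s hs] at h
    rw [hbdp s' hs', ← partner s s' hs hs' hss]
    exact hC.even.mem _ h
  have h12 : s1 ∈ C' ↔ s2 ∈ C' :=
    ⟨hiff s1 s2 b1 b2 (by tauto), hiff s2 s1 b2 b1 (by tauto)⟩
  have h34 : s3 ∈ C' ↔ s4 ∈ C' :=
    ⟨hiff s3 s4 b3 b4 (by tauto), hiff s4 s3 b4 b3 (by tauto)⟩
  -- the ports at u and v in C'
  have atu : ∀ d : V × Fin 3, d.1 = u → d ∈ C' → d = s1 ∨ d = s2 := by
    intro d hdu hdC
    rcases hdC with ⟨h, _⟩ | ⟨h, _⟩
    · exact absurd (by rw [hdu]; simp) h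
    · rcases (hq.bd d).1 h with h | h | h | h
      · exact Or.inl h
      · exact Or.inr h
      · exact absurd (by rw [← hdu, h, hd.v3]) huv
      · exact absurd (by rw [← hdu, h, hd.v4]) huv
  have atv : ∀ d : V × Fin 3, d.1 = v → d ∈ C' → d = s3 ∨ d = s4 := by
    intro d hdv hdC
    rcases hdC with ⟨h, _⟩ | ⟨h, _⟩
    · exact absurd (by rw [hdv]; simp) h
    · rcases (hq.bd d).1 h with h | h | h | h
      · exact absurd (by rw [← hdv, h, hd.u1]) huv
      · exact absurd (by rw [← hdv, h, hd.u2]) huv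
      · exact Or.inl h
      · exact Or.inr h
  refine ⟨⟨?_, ?_⟩, ?_, ?_⟩
  · -- closed under e
    rintro ⟨x, k⟩ hxk
    by_cases hx : x ∈ ({u, v} : Set V)
    · rcases hxk with ⟨h, _⟩ | ⟨h, h', h''⟩
      · exact absurd hx h
      · exact (hout _ h' _).2 h''
    · rw [hout x hx k] at hxk
      by_cases he : (K.e (x, k)).1 ∈ ({u, v} : Set V)
      · right
        have e2 : K.e (K.e (x, k)) = (x, k) := K.inv _
        refine ⟨⟨he, by rw [e2]; exact hx⟩, ?_⟩
        rw [e2]
        exact ⟨hx, hxk⟩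
      · have := hC.even.mem _ hxk
        rw [rem_e_out hq ⟨x, hx⟩ k he] at this
        exact (hout _ he _).2 this
  · intro w
    by_cases hw : w ∈ ({u, v} : Set V)
    · rcases hw with rfl | hw
      · exact cr6_deg (P := fun d => d ∈ C') hd.u1 hd.u2 hq.h12 atu h12
      · have hw' : w = v := hw
        subst hw'
        exact cr6_deg (P := fun d => d ∈ C') hd.v3 hd.v4 hq.h34 atv h34
    · rcases hC.even.deg ⟨w, hw⟩ with h | ⟨i, hi⟩
      · left
        intro i hi
        exact h i ((hout w hw i).1 hi)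
      · right
        exact ⟨i, fun j => by rw [hout w hw j]; exact hi j⟩
  · obtain ⟨⟨⟨x, hx⟩, k⟩, hxk⟩ := hC.nonempty
    exact ⟨(x, k), (hout x hx k).2 hxk⟩
  · intro D hDC hD hDne
    have key : {p : {x // x ∉ ({u, v} : Set V)} × Fin 3 | (p.1.1, p.2) ∈ D} = C := by
      apply hC.min
      · rintro ⟨⟨x, hx⟩, k⟩ hp
        exact (hout x hx k).1 (hDC hp)
      · refine ⟨?_, ?_⟩
        · rintro ⟨⟨x, hx⟩, k⟩ hp
          have hpD : (x, k) ∈ D := hp
          have hee := hD.mem _ hpD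
          by_cases he : (K.e (x, k)).1 ∈ ({u, v} : Set V)
          · have e2 : K.e (K.e (x, k)) = (x, k) := K.inv _
            have hb : K.e (x, k) ∈ K.bd {u, v} := ⟨he, by rw [e2]; exact hx⟩
            obtain ⟨s', hs', hss, hsD⟩ : ∃ s' : V × Fin 3, s' ∈ K.bd {u, v} ∧
                ((K.e (x, k) = s1 ∧ s' = s2) ∨ (K.e (x, k) = s2 ∧ s' = s1) ∨
                (K.e (x, k) = s3 ∧ s' = s4) ∨ (K.e (x, k) = s4 ∧ s' = s3)) ∧ s' ∈ D := by
              rcases (hq.bd _).1 hb with h | h | h | h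
              · refine ⟨s2, b2, by tauto, ?_⟩
                rw [h] at hee
                exact cr6_other hD hd.u1 hd.u2 hq.h12 (fun d h1 h2 => atu d h1 (hDC h2)) hee
              · refine ⟨s1, b1, by tauto, ?_⟩
                rw [h] at hee
                exact cr6_other hD hd.u2 hd.u1 hq.h12.symm
                  (fun d h1 h2 => (atu d h1 (hDC h2)).symm) hee
              · refine ⟨s4, b4, by tauto, ?_⟩
                rw [h] at hee
                exact cr6_other hD hd.v3 hd.v4 hq.h34 (fun d h1 h2 => atv d h1 (hDC h2)) hee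
              · refine ⟨s3, b3, by tauto, ?_⟩
                rw [h] at hee
                exact cr6_other hD hd.v4 hd.v3 hq.h34.symm
                  (fun d h1 h2 => (atv d h1 (hDC h2)).symm) hee
            obtain ⟨h', e'⟩ := rem_e_in hq ⟨x, hx⟩ k (s := K.e (x, k)) (s' := s') rfl hss
            rw [e']
            exact hD.mem _ hsD
          · rw [rem_e_out hq ⟨x, hx⟩ k he]
            exact hee
        · rintro ⟨x, hx⟩
          exact hD.deg x
      · obtain ⟨⟨x, k⟩, hxk⟩ := hDne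
        rcases hDC hxk with ⟨h, _⟩ | ⟨_, h, _⟩
        · exact ⟨(⟨x, h⟩, k), hxk⟩
        · exact ⟨(⟨(K.e (x, k)).1, h⟩, (K.e (x, k)).2), hD.mem _ hxk⟩
    apply Set.Subset.antisymm hDC
    rintro ⟨x, k⟩ hxk
    rcases hxk with ⟨h, h'⟩ | ⟨_, h, h'⟩
    · rw [← key] at h'
      exact h'
    · rw [← key] at h'
      have h2 : K.e (x, k) ∈ D := h'
      have := hD.mem _ h2
      rwa [K.inv] at this

end Cub

end B306C
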