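import Pool.Agent.Lib_MP_b306af.CDefs2
import Pool.Agent.Lib_MP_b306af.CR3
import Pool.Agent.Lib_MP_b306af.CR5
import Pool.Agent.Lib_MP_b306af.CR6

/-!
# MP_b306af, PART I: the second reduction
-/

namespace B306C

open Classical

namespace Cub

variable {V : Type}

/-- REDUCTION M3: delete the edge `v0 c`, lose `c`, gain `a1`, new root `a`, whose held port is the
one leading to `a2`.
`K' = K.rem {v0, c} s1 s2 s3 s4` with `exists_dq` for `n0` (neighbours `c, a, b` of `v0`) and the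
neighbours `v0, c1, c2` of `c`: `(K.e s1).1 = a`, `(K.e s2).1 = b`, `(K.e s3).1 = c1`,
`(K.e s4).1 = c2`.  `a, b, a1, a2` are not in `{v0, c}` (`no_tri`).
Lifting: `dq_lift`; the cycle of `K'` passes through the root `a` missing the port to `a2`, so it
uses the port joined with that of `b` (`K.e s1`, `K.e s2`) and the port to `a1`; in `K` it passes
through `v0` using `s1`, `s2`, not the port `i0`.  Visited: `v0, a, b, a1`.
`TTH`: root `a`, neighbours `a1, b, a2` (held), neighbours of `b`: `a, x, y`.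
Cuts: `dq_q`: a cut avoiding `a` avoids `b` and contains `c1`. -/
theorem op_M3 [Fintype V] {K : Cub V} (hK : K.Conn3) (h4 : K.C4) (hc : 5 ≤ Fintype.card V)
    {v0 a b c a1 a2 : V} {i0 : Fin 3} (hi : (K.e (v0, i0)).1 = c) (n0 : K.Nb v0 a b c)
    (na : K.Nb a v0 a1 a2) :
    ∃ (V' : Type) (_ : Fintype V') (K' : Cub V') (f : V' → V) (r : V') (i : Fin 3),
      K'.Conn3 ∧ Fintype.card V' < Fintype.card V ∧ Red K v0 i0 K' r i f {v0, a, b, a1} {c} ∧
      f r = a ∧
      ∀ x y, K.Nb b v0 x y → x ≠ a1 → x ≠ a2 → y ≠ a1 → y ≠ a2 →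
        ∃ a' b' c' x' y' p z, f a' = a1 ∧ f b' = b ∧ f c' = a2 ∧ f x' = x ∧ f y' = y ∧
          K'.TTH r i a' b' c' x' y' p z := by
  have hcN : 5 ≤ Nat.card V := by rwa [Nat.card_eq_fintype_card]
  have hs : K.Sim := sim_of_conn3 K hK (by omega)
  have tri : ∀ {u v w : V}, K.Adj u v → K.Adj v w → K.Adj u w → False := fun h1 h2 h3 =>
    no_tri K hK h4 hcN h1 h2 h3
  obtain ⟨c1, c2, nc⟩ := exists_nb' K hs (K.adj_symm n0.ar)
  obtain ⟨s1, s2, s3, s4, hd, e1, e2, e3, e4⟩ :=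
    exists_dq (n0.swap23.swap12) nc
  -- the vertices outside
  have ha : a ∉ ({v0, c} : Set V) := by
    rintro (h | h)
    · exact n0.ne.1 h.symm
    · exact n0.pr h
  have hb : b ∉ ({v0, c} : Set V) := by
    rintro (h | h)
    · exact n0.ne.2.1 h.symm
    · exact n0.qr h
  have ha1 : a1 ∉ ({v0, c} : Set V) := by
    rintro (h | h)
    · exact na.pq h.symm
    · have h' : a1 = c := h
      exact tri n0.ap (h' ▸ na.aq) n0.ar
  have ha2 : a2 ∉ ({v0, c} : Set V) := by
    rintro (h | h)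
    · exact na.pr h.symm
    · have h' : a2 = c := h
      exact tri n0.ap (h' ▸ na.ar) n0.ar
  have hc1 : c1 ∉ ({v0, c} : Set V) := by
    rintro (h | h)
    · exact nc.pq h.symm
    · exact nc.ne.2.1 h.symm
  obtain ⟨i, hia⟩ := na.ar
  -- the port of a leading to v0
  have q1 : K.e s1 = (a, (K.e s1).2) := by rw [← e1]
  have q2 : K.e s2 = (b, (K.e s2).2) := by rw [← e2]
  have q1' : K.e (a, (K.e s1).2) = s1 := by rw [← q1, K.inv]
  have hk1 : (K.e s1).2 ≠ i := by
    intro h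
    have h1 : (K.e (a, i)).1 = v0 := by rw [← h, q1', hd.u1]
    exact na.pr (h1.symm.trans hia)
  have hrem := hd.quad
  refine ⟨{x // x ∉ ({v0, c} : Set V)}, inferInstance, K.rem {v0, c} s1 s2 s3 s4 hd.quad,
    Subtype.val, ⟨a, ha⟩, i, dq_conn3 hd hK h4, ?_, ?_, rfl, ?_⟩
  · refine Fintype.card_subtype_lt (x := v0) ?_
    intro h
    exact h (Or.inl rfl)
  · refine ⟨Subtype.val_injective, ?_, ?_, ?_, ?_⟩
    · rintro S' ⟨C, hC, hCr, hCS⟩
      have hr1 : ((⟨a, ha⟩ : {x // x ∉ ({v0, c} : Set V)}), (K.e s1).2) ∈ C := (hCr _).2 hk1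
      obtain ⟨hb', hr2⟩ := rem_e_in hd.quad ⟨a, ha⟩ (K.e s1).2 (s' := s2) q1' (Or.inl ⟨rfl, rfl⟩)
      have hr3 : ((⟨(K.e s2).1, hb'⟩ : {x // x ∉ ({v0, c} : Set V)}), (K.e s2).2) ∈ C := by
        rw [← hr2]
        exact hC.even.mem _ hr1
      have hr3' : ((⟨b, hb⟩ : {x // x ∉ ({v0, c} : Set V)}), (K.e s2).2) ∈ C := by
        have : (⟨(K.e s2).1, hb'⟩ : {x // x ∉ ({v0, c} : Set V)}) = ⟨b, hb⟩ := Subtype.ext e2
        rwa [this] at hr3
      have hb1 : s1 ∈ K.bd {v0, c} := (hd.quad.bd s1).2 (Or.inl rfl)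
      have hb2 : s2 ∈ K.bd {v0, c} := (hd.quad.bd s2).2 (Or.inr (Or.inl rfl))
      have key : ∀ j, j ≠ i0 → ((v0, j) : V × Fin 3) ∈ {d | (∃ h : d.1 ∉ ({v0, c} : Set V),
          ((⟨d.1, h⟩, d.2) : {x // x ∉ ({v0, c} : Set V)} × Fin 3) ∈ C) ∨
          (d ∈ K.bd {v0, c} ∧ ∃ h : (K.e d).1 ∉ ({v0, c} : Set V),
            ((⟨(K.e d).1, h⟩, (K.e d).2) : {x // x ∉ ({v0, c} : Set V)} × Fin 3) ∈ C)} := by
        intro j hj
        have h1 : (K.e (v0, j)).1 = a ∨ (K.e (v0, j)).1 = b ∨ (K.e (v0, j)).1 = c :=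
          n0.all ⟨j, rfl⟩
        have h2 : (K.e (v0, j)).1 ≠ c := fun h => hj (hs v0 j i0 (h.trans hi.symm))
        have h3 : (K.e (v0, j)).1 ∉ ({v0, c} : Set V) := by
          rcases h1 with h | h | h
          · rwa [h]
          · rwa [h]
          · exact absurd h h2
        have h4' : ((v0, j) : V × Fin 3) ∈ K.bd {v0, c} := ⟨Or.inl rfl, h3⟩
        rcases (hd.quad.bd _).1 h4' with h | h | h | h
        · rw [h]
          refine Or.inr ⟨hb1, hb1.2, ?_⟩
          have : (⟨(K.e s1).1, hb1.2⟩ : {x // x ∉ ({v0, c} : Set V)}) = ⟨a, ha⟩ := Subtype.ext e1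
          rw [this]
          exact hr1
        · rw [h]
          exact Or.inr ⟨hb2, hb2.2, hr3⟩
        · exact absurd (hd.v3.symm.trans (congrArg Prod.fst h.symm)) n0.ne.2.2.symm
        · exact absurd (hd.v4.symm.trans (congrArg Prod.fst h.symm)) n0.ne.2.2.symm
      refine ⟨_, dq_lift hd hC, ?_, ?_⟩
      · intro j
        refine ⟨?_, key j⟩
        rintro (⟨h, -⟩ | ⟨h, -⟩) rfl
        · exact h (Or.inl rfl)
        · exact h.2 (Or.inr hi)
      · rintro v (⟨s', hs', rfl⟩ | hv)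
        · obtain ⟨k, hk⟩ := hCS s' hs'
          exact ⟨k, Or.inl ⟨s'.2, hk⟩⟩
        · have hv' : v = v0 ∨ v = a ∨ v = b ∨ v = a1 := by
            simpa using hv
          rcases hv' with rfl | rfl | rfl | rfl
          · obtain ⟨j, hj⟩ : ∃ j : Fin 3, j ≠ i0 := exists_ne i0
            exact ⟨j, key j hj⟩
          · exact ⟨(K.e s1).2, Or.inl ⟨ha, hr1⟩⟩
          · exact ⟨(K.e s2).2, Or.inl ⟨hb, hr3'⟩⟩
          · obtain ⟨k, hk⟩ := na.aq
            have hki : k ≠ i := by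
              rintro rfl
              exact na.qr (hk.symm.trans hia)
            have h1 : ((⟨a, ha⟩ : {x // x ∉ ({v0, c} : Set V)}), k) ∈ C := (hCr _).2 hki
            have h2 := hC.even.mem _ h1
            rw [rem_e_out hd.quad ⟨a, ha⟩ k (by rw [hk]; exact ha1)] at h2
            refine ⟨(K.e (a, k)).2, Or.inl ⟨ha1, ?_⟩⟩
            have : (⟨(K.e (a, k)).1, by rw [hk]; exact ha1⟩ : {x // x ∉ ({v0, c} : Set V)}) =
              ⟨v, ha1⟩ := Subtype.ext hk
            rw [this] at h2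
            exact h2
    · intro x
      by_cases hx : x ∈ ({v0, c} : Set V)
      · rcases hx with rfl | hx
        · exact Or.inr (Or.inl (by simp))
        · exact Or.inr (Or.inr (by simpa using hx))
      · exact Or.inl ⟨⟨x, hx⟩, rfl⟩
    · intro x hx
      have hx' : x = c := by simpa using hx
      subst hx'
      rintro ⟨y, hy⟩
      exact y.2 (Or.inr hy)
    · intro x hx
      have hx' : x = c := by simpa using hx
      subst hx'
      simp only [Finset.mem_insert, Finset.mem_singleton, not_or]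
      exact ⟨n0.ne.2.2.symm, n0.pr.symm, n0.qr.symm, fun h => ha1 (Or.inr h.symm)⟩
  · intro x y nb hx1 hx2 hy1 hy2
    have hx : x ∉ ({v0, c} : Set V) := by
      rintro (h | h)
      · exact nb.pq h.symm
      · have h' : x = c := h
        exact tri n0.aq (h' ▸ nb.aq) n0.ar
    have hy : y ∉ ({v0, c} : Set V) := by
      rintro (h | h)
      · exact nb.pr h.symm
      · have h' : y = c := h
        exact tri n0.aq (h' ▸ nb.ar) n0.ar
    have hab : (K.rem {v0, c} s1 s2 s3 s4 hd.quad).Adj ⟨a, ha⟩ ⟨b, hb⟩ :=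
      rem_adj12 hd.quad ha hb e1 e2
    refine ⟨⟨a1, ha1⟩, ⟨b, hb⟩, ⟨a2, ha2⟩, ⟨x, hx⟩, ⟨y, hy⟩, ⟨c1, hc1⟩, ⟨b, hb⟩, rfl, rfl, rfl, rfl,
      rfl, ?_⟩
    refine ⟨?_, ?_, ?_, ?_, ?_, ?_, ?_, Or.inr rfl, ?_⟩
    · rw [rem_e_out hd.quad ⟨a, ha⟩ i (by rw [hia]; exact ha2)]
      exact Subtype.ext hia
    · refine ⟨?_, ?_, ?_, rem_adj hd.quad ha ha1 na.aq, hab, rem_adj hd.quad ha ha2 na.ar⟩
      · intro h
        have h' : a1 = b := congrArg Subtype.val h
        exact tri n0.ap (h' ▸ na.aq) n0.aq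
      · intro h
        exact na.qr (congrArg Subtype.val h)
      · intro h
        have h' : b = a2 := congrArg Subtype.val h
        exact tri n0.ap (h' ▸ na.ar) n0.aq
    · refine ⟨?_, ?_, ?_, adj_symm _ hab, rem_adj hd.quad hb hx nb.aq, rem_adj hd.quad hb hy nb.ar⟩
      · intro h
        have h' : a = x := congrArg Subtype.val h
        exact tri n0.aq (h' ▸ nb.aq) n0.ap
      · intro h
        have h' : a = y := congrArg Subtype.val h
        exact tri n0.aq (h' ▸ nb.ar) n0.ap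
      · intro h
        exact nb.qr (congrArg Subtype.val h)
    · exact fun h => hx1 (congrArg Subtype.val h)
    · exact fun h => hx2 (congrArg Subtype.val h)
    · exact fun h => hy1 (congrArg Subtype.val h)
    · exact fun h => hy2 (congrArg Subtype.val h)
    · intro X hX hr
      rcases dq_q hd hK h4 hX with ⟨h1, -, -, -⟩ | ⟨-, h2, h3, -⟩
      · obtain ⟨w, hw, hw'⟩ := h1
        have : w = ⟨a, ha⟩ := Subtype.ext (hw'.trans e1)
        rw [this] at hw
        exact absurd hw hr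
      · refine ⟨fun h => h2 ⟨_, h, e2.symm⟩, ?_⟩
        obtain ⟨w, hw, hw'⟩ := h3
        have : w = ⟨c1, hc1⟩ := Subtype.ext (hw'.trans e3)
        rwa [this] at hw

end Cub

end B306C
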