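import Pool.Agent.Lib_MP_b306af.CDefs2

/-!
# MP_b306af, PART I: values and sums through a reduction
-/

namespace B306C

open Classical

namespace Cub

variable {V V' : Type}

/-- Values through a reduction: the finite set is the image of that for `K'` together with `E`; the
weight of the vertices of `E` is set to `0` in `K'` (`0 ^ (4/5) = 0`). -/
theorem gd_red {K : Cub V} {v0 : V} {i0 : Fin 3} {K' : Cub V'} {r : V'} {i : Fin 3} {f : V' → V}
    {E L : Finset V} (h : Red K v0 i0 K' r i f E L) (w : V → ℝ) (hw : ∀ v, 0 ≤ w v) {t : ℝ}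
    (h' : K'.Gd r i (fun x => if f x ∈ E then 0 else w (f x)) t) :
    K.Gd v0 i0 w (t + ∑ x ∈ E, (w x) ^ ((4 : ℝ) / 5)) := by
  obtain ⟨S, hS, ht⟩ := h'
  refine ⟨S.image f ∪ E, ?_, ?_⟩
  · have := h.reach _ hS
    rw [Finset.coe_union, Finset.coe_image]
    exact this
  · have h1 : ∑ v ∈ S.image f ∪ E, (w v) ^ ((4 : ℝ) / 5) =
        ∑ v ∈ S.image f \ E, (w v) ^ ((4 : ℝ) / 5) + ∑ v ∈ E, (w v) ^ ((4 : ℝ) / 5) := by
      rw [← Finset.sdiff_union_self_eq_union, Finset.sum_union Finset.sdiff_disjoint]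
    have h2 : ∑ v ∈ S, ((fun x => if f x ∈ E then 0 else w (f x)) v) ^ ((4 : ℝ) / 5) =
        ∑ v ∈ S.image f \ E, (w v) ^ ((4 : ℝ) / 5) := by
      have h3 : ∑ v ∈ S, ((fun x => if f x ∈ E then 0 else w (f x)) v) ^ ((4 : ℝ) / 5) =
          ∑ v ∈ S, (if f v ∈ E then 0 else (w (f v)) ^ ((4 : ℝ) / 5)) := by
        refine Finset.sum_congr rfl fun v _ => ?_
        by_cases hv : f v ∈ E
        · simp only [hv, if_true]
          exact Real.zero_rpow (by norm_num)
        · simp only [hv, if_false]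
      have h4 : ∑ v ∈ S, (if f v ∈ E then 0 else (w (f v)) ^ ((4 : ℝ) / 5)) =
          ∑ v ∈ S.image f, (if v ∈ E then 0 else (w v) ^ ((4 : ℝ) / 5)) := by
        rw [Finset.sum_image (h.inj.injOn)]
      rw [h3, h4, Finset.sdiff_eq_filter, Finset.sum_filter]
      refine Finset.sum_congr rfl fun v _ => ?_
      by_cases hv : v ∈ E <;> simp [hv]
    rw [h1, ← h2]
    linarith

/-- The total weight of `K'`: the total weight of `K` minus that of `E` and `L`. -/
theorem sum_red [Fintype V] [Fintype V'] {K : Cub V} {v0 : V} {i0 : Fin 3} {K' : Cub V'} {r : V'}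
    {i : Fin 3} {f : V' → V} {E L : Finset V} (h : Red K v0 i0 K' r i f E L) (w : V → ℝ) :
    ∑ x, (if f x ∈ E then 0 else w (f x)) = ∑ x, w x - ∑ x ∈ E, w x - ∑ x ∈ L, w x := by
  have h1 : ∑ x, (if f x ∈ E then 0 else w (f x)) =
      ∑ x ∈ Finset.univ.image f, (if x ∈ E then 0 else w x) := by
    rw [Finset.sum_image (h.inj.injOn)]
  have h2 : ∑ x ∈ Finset.univ.image f, (if x ∈ E then 0 else w x) =
      ∑ x ∈ Finset.univ.image f \ E, w x := by
    rw [Finset.sdiff_eq_filter, Finset.sum_filter]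
    refine Finset.sum_congr rfl fun v _ => ?_
    by_cases hv : v ∈ E <;> simp [hv]
  have hdis : Disjoint E L := by
    rw [Finset.disjoint_left]
    exact fun x hx hx' => h.le x hx' hx
  have h3 : Finset.univ.image f \ E = Finset.univ \ (E ∪ L) := by
    ext x
    simp only [Finset.mem_sdiff, Finset.mem_image, Finset.mem_univ, true_and, Finset.mem_union, not_or]
    constructor
    · rintro ⟨⟨y, rfl⟩, hx⟩
      exact ⟨hx, fun hL => h.lr _ hL ⟨y, rfl⟩⟩
    · rintro ⟨hE, hL⟩
      refine ⟨?_, hE⟩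
      rcases h.rng x with h' | h' | h'
      · exact h'
      · exact absurd h' hE
      · exact absurd h' hL
  have h4 : ∑ x ∈ Finset.univ \ (E ∪ L), w x + ∑ x ∈ E ∪ L, w x = ∑ x, w x :=
    Finset.sum_sdiff (Finset.subset_univ _)
  rw [Finset.sum_union hdis] at h4
  rw [h1, h2, h3]
  linarith

end Cub

end B306C
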