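import Pool.Agent.Lib_MP_b306af.CX1

/-!
# MP_b306af, PART I: cross-removal, connectivity
-/

namespace B306C

open Classical

namespace Cub

variable {V : Type}

/-- the pair `v0, q3` is inside, the pair `a, b2` outside -/
private theorem cx2_key [Finite V] {K : Cub V} (hK : K.Conn3) (h4 : K.C4)
    {v0 a b c q a2 b2 q3 : V} {s1 s2 s3 s4 : V × Fin 3}
    (hx : K.XQ v0 a b c q a2 b2 q3 s1 s2 s3 s4) (hne : q3 ≠ c)
    (Y : Set {x // x ∉ ({b, q} : Set V)}) (m1 : v0 ∈ Subtype.val '' Y) (m2 : q3 ∈ Subtype.val '' Y)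
    (m3 : b2 ∉ Subtype.val '' Y) (m4 : a ∉ Subtype.val '' Y) :
    3 ≤ ((K.rem {b, q} s1 s2 s3 s4 hx.quad).bd Y).ncard := by
  have hrb := rem_bd hx.quad Y
  rw [hx.e1, hx.e2, hx.e3, hx.e4, if_pos ⟨m1, m2⟩, if_neg (fun h => m3 h.1)] at hrb
  set X0 : Set V := Subtype.val '' Y with hX0
  have hbX0 : b ∉ X0 := by
    rintro ⟨y, -, hyb⟩
    exact y.2 (by rw [hyb]; exact Set.mem_insert _ _)
  have hv : v0 ≠ q3 := by
    have h := hx.quad.n12
    rwa [hx.e1, hx.e2] at h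
  set X1 : Set V := X0 \ {v0} with hX1
  have hv1 : v0 ∉ X1 := fun h => h.2 rfl
  have hins : insert v0 X1 = X0 := by
    rw [hX1, Set.insert_sdiff_singleton, Set.insert_eq_of_mem m1]
  have hbi := bd_insert K hv1
  rw [hins] at hbi
  obtain ⟨i, j, k, -, -, -, hall, ei, ej, ek⟩ := hx.n0.ports
  have ha1 : a ∉ X1 := fun h => m4 h.1
  have hb1 : b ∉ X1 := fun h => hbX0 h.1
  have hq1 : q3 ∈ X1 := ⟨m2, fun h => hv (h : q3 = v0).symm⟩
  by_cases hcX : c ∈ X0
  · have hvc : v0 ≠ c := hx.n0.ne.2.2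
    have hc1 : c ∈ X1 := ⟨hcX, fun h => hvc (h : c = v0).symm⟩
    have n1 : 2 ≤ X1.ncard := by
      have h : ({q3, c} : Set V).ncard ≤ X1.ncard :=
        Set.ncard_le_ncard (by
          intro x hx'
          rcases hx' with rfl | hx'
          · exact hq1
          · rw [Set.mem_singleton_iff] at hx'
            rw [hx']
            exact hc1) (Set.toFinite _)
      rwa [Set.ncard_pair hne] at h
    have n2 : 2 ≤ X1ᶜ.ncard := by
      have h : ({a, b} : Set V).ncard ≤ X1ᶜ.ncard :=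
        Set.ncard_le_ncard (by
          intro x hx'
          rcases hx' with rfl | hx'
          · exact ha1
          · rw [Set.mem_singleton_iff] at hx'
            rw [hx']
            exact hb1) (Set.toFinite _)
      rwa [Set.ncard_pair hx.n0.pq] at h
    have h5 := C4.four hK h4 n1 n2
    have h6 : {l : Fin 3 | (K.e (v0, l)).1 ∈ X1}.ncard ≤ 1 := by
      have h : {l : Fin 3 | (K.e (v0, l)).1 ∈ X1} ⊆ {k} := by
        intro l hl
        rcases hall l with rfl | rfl | rfl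
        · exact absurd (by rw [← ei]; exact hl) ha1
        · exact absurd (by rw [← ej]; exact hl) hb1
        · rfl
      exact (Set.ncard_le_ncard h (Set.toFinite _)).trans (Set.ncard_singleton k).le
    omega
  · have h6 : {l : Fin 3 | (K.e (v0, l)).1 ∈ X1}.ncard = 0 := by
      have h : {l : Fin 3 | (K.e (v0, l)).1 ∈ X1} = ∅ := by
        ext l
        simp only [Set.mem_ofPred_eq, Set.mem_empty_iff_false, iff_false]
        intro hl
        rcases hall l with rfl | rfl | rfl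
        · exact ha1 (by rw [← ei]; exact hl)
        · exact hb1 (by rw [← ej]; exact hl)
        · exact hcX (by rw [← ek]; exact hl.1)
      rw [h, Set.ncard_empty]
    have h7 := hK X1 ⟨q3, hq1⟩ ⟨a, ha1⟩
    omega

/-- Auxiliary form: the pair `a, b2` is inside, the pair `v0, q3` outside -/
private theorem cx2_sub [Finite V] {K : Cub V}
    {v0 a b c q a2 b2 q3 : V} {s1 s2 s3 s4 : V × Fin 3}
    (hx : K.XQ v0 a b c q a2 b2 q3 s1 s2 s3 s4) :
    v0 ∉ ({b, q} : Set V) ∧ q3 ∉ ({b, q} : Set V) ∧ b2 ∉ ({b, q} : Set V) ∧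
      a ∉ ({b, q} : Set V) := by
  have h1 := ((hx.quad.bd s1).2 (Or.inl rfl)).2
  have h2 := ((hx.quad.bd s2).2 (Or.inr (Or.inl rfl))).2
  have h3 := ((hx.quad.bd s3).2 (Or.inr (Or.inr (Or.inl rfl)))).2
  have h4 := ((hx.quad.bd s4).2 (Or.inr (Or.inr (Or.inr rfl)))).2
  rw [hx.e1] at h1
  rw [hx.e2] at h2
  rw [hx.e3] at h3
  rw [hx.e4] at h4
  exact ⟨h1, h2, h3, h4⟩

/-- neither pair inside -/
private theorem cx2_none [Finite V] {K : Cub V} (hK : K.Conn3) (h4 : K.C4)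
    {v0 a b c q a2 b2 q3 : V} {s1 s2 s3 s4 : V × Fin 3}
    (hx : K.XQ v0 a b c q a2 b2 q3 s1 s2 s3 s4)
    (Y : Set {x // x ∉ ({b, q} : Set V)}) (hY1 : 2 ≤ Y.ncard) (hY2 : 2 ≤ Yᶜ.ncard)
    (m1 : ¬ (v0 ∈ Subtype.val '' Y ∧ q3 ∈ Subtype.val '' Y))
    (m2 : ¬ (b2 ∈ Subtype.val '' Y ∧ a ∈ Subtype.val '' Y)) :
    3 ≤ ((K.rem {b, q} s1 s2 s3 s4 hx.quad).bd Y).ncard := by
  have hrb := rem_bd hx.quad Y
  rw [hx.e1, hx.e2, hx.e3, hx.e4, if_neg m1, if_neg m2] at hrb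
  have n1 : 2 ≤ (Subtype.val '' Y).ncard := by
    rwa [Set.ncard_image_of_injective _ Subtype.val_injective]
  have n2 : 2 ≤ (Subtype.val '' Y)ᶜ.ncard := by
    have h : (Subtype.val '' Yᶜ).ncard ≤ (Subtype.val '' Y)ᶜ.ncard := by
      refine Set.ncard_le_ncard ?_ (Set.toFinite _)
      rintro x ⟨y, hy, rfl⟩ ⟨z, hz, hzy⟩
      exact hy (Subtype.val_injective hzy ▸ hz)
    rw [Set.ncard_image_of_injective _ Subtype.val_injective] at h
    omega
  have h5 := C4.four hK h4 n1 n2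
  omega

/-- The cross-removal is 3-edge-connected if `q3 ≠ c`.
Let `Y`, `Yᶜ` be nonempty, `K' = K.rem ..`, `X0 = Subtype.val '' Y`.  If `Y` or `Yᶜ` has only one
element use `bd_singleton` (and `bd_compl`) for `K'`.  By `rem_bd`,
`(K.bd X0).ncard = (K'.bd Y).ncard + 2 [v0, q3 ∈ X0] + 2 [b2, a ∈ X0]`.
(1) If neither pair is contained in `X0`: `(K'.bd Y).ncard = (K.bd X0).ncard ≥ 4` (`C4.four`).
(2) If neither pair is contained in `Subtype.val '' Yᶜ`: the same for `Yᶜ`, and `bd_compl`.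
(3) Otherwise exactly one pair is contained in `X0`, the other in `Subtype.val '' Yᶜ`; by `bd_compl`
let `v0, q3 ∈ X0`, `a, b2 ∉ X0`. So `(K.bd X0).ncard = (K'.bd Y).ncard + 2`.  Let
`X1 = X0 \ {v0}`, nonempty.  If `c ∉ X0`, `bd_insert` gives
`(K.bd X0).ncard = (K.bd X1).ncard + 3 ≥ 6`.  If `c ∈ X0` then `q3, c ∈ X1`, so `X1` has at least two
elements (`q3 ≠ c`) and `(K.bd X1).ncard ≥ 4`, `bd_insert` gives
`(K.bd X0).ncard + 2 = (K.bd X1).ncard + 3 ≥ 7`. -/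
theorem xq_conn3 [Finite V] {K : Cub V} (hK : K.Conn3) (h4 : K.C4) (hc : 5 ≤ Nat.card V)
    {v0 a b c q a2 b2 q3 : V} {s1 s2 s3 s4 : V × Fin 3}
    (hx : K.XQ v0 a b c q a2 b2 q3 s1 s2 s3 s4) (hne : q3 ≠ c) :
    (K.rem {b, q} s1 s2 s3 s4 hx.quad).Conn3 := by
  obtain ⟨z1, z2, z3, z4⟩ := cx2_sub hx
  have hmem : ∀ (Y : Set {x // x ∉ ({b, q} : Set V)}) (x : V), x ∉ ({b, q} : Set V) →
      (x ∈ Subtype.val '' Yᶜ ↔ x ∉ Subtype.val '' Y) := by
    intro Y x hxZ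
    constructor
    · rintro ⟨y, hy, rfl⟩ ⟨z, hz, hzy⟩
      exact hy (Subtype.val_injective hzy ▸ hz)
    · intro h
      exact ⟨⟨x, hxZ⟩, fun hY => h ⟨⟨x, hxZ⟩, hY, rfl⟩, rfl⟩
  intro Y hY hYc
  have e1 : 1 ≤ Y.ncard := (Set.ncard_pos (Set.toFinite _)).2 hY
  have e2 : 1 ≤ Yᶜ.ncard := (Set.ncard_pos (Set.toFinite _)).2 hYc
  rcases Nat.lt_or_ge Y.ncard 2 with hl | hY1
  · obtain ⟨y, rfl⟩ := Set.ncard_eq_one.1 (show Y.ncard = 1 by omega)
    exact (bd_singleton _ y).ge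
  rcases Nat.lt_or_ge Yᶜ.ncard 2 with hl | hY2
  · obtain ⟨y, hy⟩ := Set.ncard_eq_one.1 (show Yᶜ.ncard = 1 by omega)
    rw [← bd_compl, hy]
    exact (bd_singleton _ y).ge
  by_cases c1 : v0 ∈ Subtype.val '' Y ∧ q3 ∈ Subtype.val '' Y
  · by_cases c2 : b2 ∈ Subtype.val '' Y ∨ a ∈ Subtype.val '' Y
    · -- the complement contains no pair
      rw [← bd_compl]
      apply cx2_none hK h4 hx Yᶜ hY2 (by rwa [compl_compl])
      · rintro ⟨h, -⟩
        exact (hmem Y v0 z1).1 h c1.1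
      · rintro ⟨h, h'⟩
        rcases c2 with c2 | c2
        · exact (hmem Y b2 z3).1 h c2
        · exact (hmem Y a z4).1 h' c2
    · rw [not_or] at c2
      exact cx2_key hK h4 hx hne Y c1.1 c1.2 c2.1 c2.2
  · by_cases c2 : b2 ∈ Subtype.val '' Y ∧ a ∈ Subtype.val '' Y
    · by_cases c3 : v0 ∈ Subtype.val '' Y ∨ q3 ∈ Subtype.val '' Y
      · rw [← bd_compl]
        apply cx2_none hK h4 hx Yᶜ hY2 (by rwa [compl_compl])
        · rintro ⟨h, h'⟩
          rcases c3 with c3 | c3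
          · exact (hmem Y v0 z1).1 h c3
          · exact (hmem Y q3 z2).1 h' c3
        · rintro ⟨h, -⟩
          exact (hmem Y b2 z3).1 h c2.1
      · rw [not_or] at c3
        rw [← bd_compl]
        apply cx2_key hK h4 hx hne Yᶜ
        · exact (hmem Y v0 z1).2 c3.1
        · exact (hmem Y q3 z2).2 c3.2
        · exact fun h => (hmem Y b2 z3).1 h c2.1
        · exact fun h => (hmem Y a z4).1 h c2.2
    · exact cx2_none hK h4 hx Y hY1 hY2 c1 c2

end Cub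

end B306C
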