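import Pool.Agent.Lib_MP_b306af.CX1

/-!
# MP_b306af, PART I: cross-removal, lifting of cycles
-/

namespace B306C

open Classical

namespace Cub

variable {V : Type}

private def CX3_lift {Z : Set V} (C' : Set ({x // x ∉ Z} × Fin 3)) : Set (V × Fin 3) :=
  {d | ∃ h : d.1 ∉ Z, ((⟨d.1, h⟩ : {x // x ∉ Z}), d.2) ∈ C'}

private theorem CX3_in {K : Cub V} {Z : Set V} {s1 s2 s3 s4 : V × Fin 3} (hq : K.Quad Z s1 s2 s3 s4)
    {C' : Set ({x // x ∉ Z} × Fin 3)} (hE : (K.rem Z s1 s2 s3 s4 hq).Even C') {d : V × Fin 3}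
    (hd : d ∈ CX3_lift C') (h : (K.e d).1 ∈ Z) : K.e (mt s1 s2 s3 s4 (K.e d)) ∈ CX3_lift C' := by
  obtain ⟨h1, h2⟩ := hd
  have h3 := hE.mem _ h2
  have h4 : (K.rem Z s1 s2 s3 s4 hq).e ((⟨d.1, h1⟩ : {x // x ∉ Z}), d.2) =
      (⟨(K.e (mt s1 s2 s3 s4 (K.e d))).1,
        (hq.mt_bd (d := K.e d) ⟨h, by rw [K.inv]; exact h1⟩).2⟩,
        (K.e (mt s1 s2 s3 s4 (K.e d))).2) := dif_pos h
  rw [h4] at h3
  exact ⟨_, h3⟩

private theorem CX3_out {K : Cub V} {Z : Set V} {s1 s2 s3 s4 : V × Fin 3} (hq : K.Quad Z s1 s2 s3 s4)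
    {C' : Set ({x // x ∉ Z} × Fin 3)} (hE : (K.rem Z s1 s2 s3 s4 hq).Even C') {d : V × Fin 3}
    (hd : d ∈ CX3_lift C') (h : (K.e d).1 ∉ Z) : K.e d ∈ CX3_lift C' := by
  obtain ⟨h1, h2⟩ := hd
  have h3 := hE.mem _ h2
  have h4 : (K.rem Z s1 s2 s3 s4 hq).e ((⟨d.1, h1⟩ : {x // x ∉ Z}), d.2) =
      (⟨(K.e d).1, h⟩, (K.e d).2) := dif_neg h
  rw [h4] at h3
  exact ⟨_, h3⟩

private theorem CX3_cycle {K : Cub V} {Z : Set V} {s1 s2 s3 s4 : V × Fin 3}
    (hq : K.Quad Z s1 s2 s3 s4) {C' : Set ({x // x ∉ Z} × Fin 3)}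
    (hC : (K.rem Z s1 s2 s3 s4 hq).IsCycle C') {E : Set (V × Fin 3)} (hE : ∀ d ∈ E, d.1 ∈ Z)
    (hev : K.Even (CX3_lift C' ∪ E))
    (h : ∀ D ⊆ CX3_lift C' ∪ E, K.Even D → D.Nonempty →
      (∀ d ∈ D, d.1 ∉ Z → (K.e d).1 ∈ Z → K.e (mt s1 s2 s3 s4 (K.e d)) ∈ D) ∧
      (∃ d ∈ D, d.1 ∉ Z) ∧ (CX3_lift C' ⊆ D → E ⊆ D)) : K.IsCycle (CX3_lift C' ∪ E) := by
  refine ⟨hev, ?_, fun D hD hDe hDn => ?_⟩
  · obtain ⟨d, hd⟩ := hC.nonempty
    exact ⟨(d.1.1, d.2), Or.inl ⟨d.1.2, hd⟩⟩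
  · obtain ⟨g1, ⟨d0, hd0, hd0Z⟩, g3⟩ := h D hD hDe hDn
    have key : {d : {x // x ∉ Z} × Fin 3 | (d.1.1, d.2) ∈ D} = C' := by
      refine hC.min _ ?_ ⟨?_, ?_⟩ ?_
      · rintro ⟨⟨x, hx⟩, k⟩ hd
        rcases hD hd with h1 | h1
        · exact h1.2
        · exact absurd (hE _ h1) hx
      · rintro ⟨⟨x, hx⟩, k⟩ hd
        have hd' : (x, k) ∈ D := hd
        by_cases hz : (K.e (x, k)).1 ∈ Z
        · have h4 : (K.rem Z s1 s2 s3 s4 hq).e ((⟨x, hx⟩ : {x // x ∉ Z}), k) =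
              (⟨(K.e (mt s1 s2 s3 s4 (K.e (x, k)))).1,
                (hq.mt_bd (d := K.e (x, k)) ⟨hz, by rw [K.inv]; exact hx⟩).2⟩,
                (K.e (mt s1 s2 s3 s4 (K.e (x, k)))).2) := dif_pos hz
          rw [h4]
          exact g1 _ hd' hx hz
        · have h4 : (K.rem Z s1 s2 s3 s4 hq).e ((⟨x, hx⟩ : {x // x ∉ Z}), k) =
              (⟨(K.e (x, k)).1, hz⟩, (K.e (x, k)).2) := dif_neg hz
          rw [h4]
          exact hDe.mem _ hd'
      · rintro ⟨x, hx⟩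
        exact hDe.deg x
      · exact ⟨(⟨d0.1, hd0Z⟩, d0.2), hd0⟩
    have h5 : CX3_lift C' ⊆ D := by
      rintro d ⟨h6, h7⟩
      rw [← key] at h7
      exact h7
    exact Set.Subset.antisymm hD (Set.union_subset h5 (g3 h5))

private theorem CX3_third (i j : Fin 3) (h : i ≠ j) :
    ∃ k, k ≠ i ∧ k ≠ j ∧ ∀ l, l = i ∨ l = j ∨ l = k := by
  revert h
  revert i j
  decide

/-- two of the three ports at a vertex: if the third one is not in an even set then both or none -/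
private theorem CX3_pair {K : Cub V} {D : Set (V × Fin 3)} (hD : K.Even D) {v : V} {i j k : Fin 3}
    (hij : i ≠ j) (hki : k ≠ i) (hkj : k ≠ j) (hk : (v, k) ∉ D) :
    (v, i) ∈ D → (v, j) ∈ D := by
  intro h
  rcases hD.deg v with h1 | ⟨l, h1⟩
  · exact absurd h (h1 i)
  · have h2 : k = l := by
      by_contra h3
      exact hk ((h1 k).2 h3)
    subst h2
    exact (h1 j).2 hkj.symm

/-- Lifting of cycles through a cross-removal.  Let `C'` be the cycle of `K' = K.rem {b, q} ..`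
and `C1` the set of its ports (in `V × Fin 3`).  `K.e s1` is the port of `v0` to `b`, it is in `C1`,
so `K.e s2` is in `C1`.
Case A: `K.e s3 ∉ C1`, so `K.e s4 ∉ C1`.  `C = C1 ∪ {s1, s2} ∪` the two ports of the edge `bq`.
Minimality: `D ⊆ C` even and nonempty: `K.e s1 ∈ D ↔ s1 ∈ D ↔` (the only other port of `b` in `C`)
the edge `bq` is in `D` `↔ s2 ∈ D ↔ K.e s2 ∈ D`, so the part of `D` outside `{b, q}` is an even
nonempty subset of `C'`, thus everything.
Case B: `K.e s3, K.e s4 ∈ C1`.  `C = C1 ∪ {s1, s2, s3, s4}`.  In `C`, `v0` has only the ports to `a`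
and `b`, `a` has only the ports to `v0` and `q`.  Minimality: `D ⊆ C` even and nonempty:
`K.e s1 ∈ D ↔` (at `v0`) the edge `v0 a` is in `D ↔` (at `a`) `K.e s4 ∈ D`; `s1 ∈ D ↔ s3 ∈ D`
(at `b`), `s2 ∈ D ↔ s4 ∈ D` (at `q`), `s ∈ D ↔ K.e s ∈ D`.  So the four ports `K.e s1, .., K.e s4`
are all in `D` or all outside, and the part of `D` outside `{b, q}` is even in `K'`. -/
theorem xq_reach {K : Cub V} (hs : K.Sim)
    {v0 a b c q a2 b2 q3 : V} {s1 s2 s3 s4 : V × Fin 3}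
    (hx : K.XQ v0 a b c q a2 b2 q3 s1 s2 s3 s4) (hv : v0 ∉ ({b, q} : Set V)) {i0 : Fin 3}
    (hi : (K.e (v0, i0)).1 = c) {S' : Set {x // x ∉ ({b, q} : Set V)}}
    (hR : (K.rem {b, q} s1 s2 s3 s4 hx.quad).Reach ⟨v0, hv⟩ i0 S') :
    K.Reach v0 i0 (Subtype.val '' S' ∪ {v0, a, b, q}) := by
  obtain ⟨C', hC, hr, hS⟩ := hR
  have hq := hx.quad
  have hCe := hC.even
  obtain ⟨b', i1⟩ := s1
  obtain ⟨q', i2⟩ := s2
  obtain ⟨b'', i3⟩ := s3
  obtain ⟨q'', i4⟩ := s4
  have u1 : b' = b := hx.u1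
  have u2 : q' = q := hx.u2
  have u3 : b'' = b := hx.u3
  have u4 : q'' = q := hx.u4
  subst b' q' b'' q''
  have hbq : b ≠ q := by
    obtain ⟨i, hi'⟩ := hx.nb.aq
    rw [← hi']
    exact (K.ne (b, i)).symm
  have hbZ : b ∈ ({b, q} : Set V) := Or.inl rfl
  have hqZ : q ∈ ({b, q} : Set V) := Or.inr rfl
  have h13 : i1 ≠ i3 := fun h => hq.h13 (by rw [h])
  have h24 : i2 ≠ i4 := fun h => hq.h24 (by rw [h])
  obtain ⟨kb, kb1, kb3, kball⟩ := CX3_third i1 i3 h13
  have hkb : (K.e (b, kb)).1 = q := by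
    have h1 : (b, kb) ∉ K.bd {b, q} := by
      intro h
      rcases (hq.bd _).1 h with h | h | h | h
      · exact kb1 (congrArg Prod.snd h)
      · exact hbq (congrArg Prod.fst h)
      · exact kb3 (congrArg Prod.snd h)
      · exact hbq (congrArg Prod.fst h)
    have h2 : (K.e (b, kb)).1 ∈ ({b, q} : Set V) := by
      by_contra h
      exact h1 ⟨hbZ, h⟩
    rcases h2 with h2 | h2
    · exact absurd h2 (K.ne (b, kb))
    · exact h2
  obtain ⟨kq, hkq⟩ : ∃ kq, K.e (b, kb) = (q, kq) := ⟨(K.e (b, kb)).2, Prod.ext hkb rfl⟩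
  have hkq' : K.e (q, kq) = (b, kb) := by rw [← hkq, K.inv]
  have kq2 : kq ≠ i2 := by
    rintro rfl
    have h1 : (q, kq) ∈ K.bd {b, q} := (hq.bd _).2 (Or.inr (Or.inl rfl))
    exact h1.2 (by rw [hkq']; exact hbZ)
  have kq4 : kq ≠ i4 := by
    rintro rfl
    have h1 : (q, kq) ∈ K.bd {b, q} := (hq.bd _).2 (Or.inr (Or.inr (Or.inr rfl)))
    exact h1.2 (by rw [hkq']; exact hbZ)
  have kqall : ∀ l, l = i2 ∨ l = i4 ∨ l = kq := by
    intro l
    have : ∀ i2 i4 kq l : Fin 3, i2 ≠ i4 → kq ≠ i2 → kq ≠ i4 → (l = i2 ∨ l = i4 ∨ l = kq) := by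
      decide
    exact this i2 i4 kq l h24 kq2 kq4
  -- the ports of the boundary
  have bd1 : (b, i1) ∈ K.bd {b, q} := (hq.bd _).2 (Or.inl rfl)
  have bd2 : (q, i2) ∈ K.bd {b, q} := (hq.bd _).2 (Or.inr (Or.inl rfl))
  have bd3 : (b, i3) ∈ K.bd {b, q} := (hq.bd _).2 (Or.inr (Or.inr (Or.inl rfl)))
  have bd4 : (q, i4) ∈ K.bd {b, q} := (hq.bd _).2 (Or.inr (Or.inr (Or.inr rfl)))
  have mt1 : mt (b, i1) (q, i2) (b, i3) (q, i4) (b, i1) = (q, i2) := by
    simp [mt]
  have mt2 : mt (b, i1) (q, i2) (b, i3) (q, i4) (q, i2) = (b, i1) := by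
    have := hq.h12
    simp [mt, this.symm]
  have mt3 : mt (b, i1) (q, i2) (b, i3) (q, i4) (b, i3) = (q, i4) := by
    have h1 := hq.h13
    have h2 := hq.h23
    simp only [mt, if_neg h1.symm, if_neg h2.symm, if_true]
  have mt4 : mt (b, i1) (q, i2) (b, i3) (q, i4) (q, i4) = (b, i3) := by
    have h1 := hq.h14
    have h2 := hq.h24
    have h3 := hq.h34
    simp only [mt, if_neg h1.symm, if_neg h2.symm, if_neg h3.symm, if_true]
  -- membership of the root ports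
  have hroot : ∀ j, (v0, j) ∈ CX3_lift C' ↔ j ≠ i0 := by
    intro j
    rw [← hr j]
    exact ⟨fun h => h.2, fun h => ⟨hv, h⟩⟩
  have hC1 : K.e (b, i1) ∈ CX3_lift C' := by
    have h1 : K.e (b, i1) = (v0, (K.e (b, i1)).2) := Prod.ext hx.e1 rfl
    rw [h1, hroot]
    intro h2
    rw [h2] at h1
    have h3 : (K.e (v0, i0)).1 = b := by rw [← h1, K.inv]
    exact hx.n0.qr (h3.symm.trans hi)
  have hC2 : K.e (q, i2) ∈ CX3_lift C' := by
    have h1 := CX3_in hq hCe hC1 (by rw [K.inv]; exact hbZ)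
    rwa [K.inv, mt1] at h1
  have hC34 : K.e (b, i3) ∈ CX3_lift C' → K.e (q, i4) ∈ CX3_lift C' := by
    intro h
    have h1 := CX3_in hq hCe h (by rw [K.inv]; exact hbZ)
    rwa [K.inv, mt3] at h1
  have hC43 : K.e (q, i4) ∈ CX3_lift C' → K.e (b, i3) ∈ CX3_lift C' := by
    intro h
    have h1 := CX3_in hq hCe h (by rw [K.inv]; exact hqZ)
    rwa [K.inv, mt4] at h1
  -- ports outside Z whose edge goes to Z
  have hcase : ∀ d : V × Fin 3, d.1 ∉ ({b, q} : Set V) → (K.e d).1 ∈ ({b, q} : Set V) →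
      d = K.e (b, i1) ∨ d = K.e (q, i2) ∨ d = K.e (b, i3) ∨ d = K.e (q, i4) := by
    intro d h1 h2
    have h3 : K.e d ∈ K.bd {b, q} := ⟨h2, by rw [K.inv]; exact h1⟩
    rcases (hq.bd _).1 h3 with h | h | h | h
    · left; rw [← h, K.inv]
    · right; left; rw [← h, K.inv]
    · right; right; left; rw [← h, K.inv]
    · right; right; right; rw [← h, K.inv]
  have hnZ : ∀ d ∈ CX3_lift C', d.1 ∉ ({b, q} : Set V) := fun d hd => hd.1
  have hb_not : ∀ j, (b, j) ∉ CX3_lift C' := fun j hj => hj.1 hbZ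
  have hq_not : ∀ j, (q, j) ∉ CX3_lift C' := fun j hj => hj.1 hqZ
  -- the edge from v0 to a
  obtain ⟨ja, hja⟩ : ∃ ja, (K.e (v0, ja)).1 = a := hx.n0.ap
  have haZ : a ∉ ({b, q} : Set V) := by
    have h1 := bd4.2
    rw [hx.e4] at h1
    exact h1
  have hja0 : ja ≠ i0 := by
    rintro rfl
    exact hx.n0.pr (hja.symm.trans hi)
  have hva : (v0, ja) ∈ CX3_lift C' := (hroot ja).2 hja0
  have hav : K.e (v0, ja) ∈ CX3_lift C' := CX3_out hq hCe hva (by rw [hja]; exact haZ)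
  -- it remains to construct the cycle
  suffices hmain : ∃ E : Set (V × Fin 3), (∀ d ∈ E, d.1 ∈ ({b, q} : Set V)) ∧
      K.IsCycle (CX3_lift C' ∪ E) ∧ (b, i1) ∈ E ∧ (q, i2) ∈ E by
    obtain ⟨E, hE, hcyc, hb1, hq2⟩ := hmain
    refine ⟨_, hcyc, fun j => ?_, ?_⟩
    · rw [← hroot j]
      constructor
      · rintro (h | h)
        · exact h
        · exact absurd (hE _ h) hv
      · exact fun h => Or.inl h
    · rintro v (⟨x, hxS, rfl⟩ | hvv)
      · obtain ⟨i, hi'⟩ := hS x hxS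
        exact ⟨i, Or.inl ⟨x.2, hi'⟩⟩
      · rcases hvv with rfl | rfl | rfl | rfl
        · exact ⟨ja, Or.inl hva⟩
        · refine ⟨(K.e (v0, ja)).2, Or.inl ?_⟩
          have h1 : (v, (K.e (v0, ja)).2) = K.e (v0, ja) := Prod.ext hja.symm rfl
          rw [h1]
          exact hav
        · exact ⟨i1, Or.inr hb1⟩
        · exact ⟨i2, Or.inr hq2⟩
  by_cases h3 : K.e (b, i3) ∈ CX3_lift C'
  · -- case B
    have h4 := hC34 h3
    refine ⟨{(b, i1), (q, i2), (b, i3), (q, i4)}, ?_, ?_, by simp, by simp⟩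
    · rintro d (rfl | rfl | rfl | rfl)
      exacts [hbZ, hqZ, hbZ, hqZ]
    have hE : ∀ d ∈ ({(b, i1), (q, i2), (b, i3), (q, i4)} : Set (V × Fin 3)),
        d.1 ∈ ({b, q} : Set V) := by
      rintro d (rfl | rfl | rfl | rfl)
      exacts [hbZ, hqZ, hbZ, hqZ]
    have hbk : (b, kb) ∉ CX3_lift C' ∪ {(b, i1), (q, i2), (b, i3), (q, i4)} := by
      rintro (h | h | h | h | h)
      · exact hb_not _ h
      · exact kb1 (congrArg Prod.snd h)
      · exact hbq (congrArg Prod.fst h)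
      · exact kb3 (congrArg Prod.snd h)
      · exact hbq (congrArg Prod.fst h)
    have hqk : (q, kq) ∉ CX3_lift C' ∪ {(b, i1), (q, i2), (b, i3), (q, i4)} := by
      rintro (h | h | h | h | h)
      · exact hq_not _ h
      · exact hbq (congrArg Prod.fst h).symm
      · exact kq2 (congrArg Prod.snd h)
      · exact hbq (congrArg Prod.fst h).symm
      · exact kq4 (congrArg Prod.snd h)
    have hev : K.Even (CX3_lift C' ∪ {(b, i1), (q, i2), (b, i3), (q, i4)}) := by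
      refine ⟨?_, ?_⟩
      · rintro d (hd | rfl | rfl | rfl | rfl)
        · by_cases hz : (K.e d).1 ∈ ({b, q} : Set V)
          · right
            rcases hcase d (hnZ d hd) hz with h | h | h | h
            · rw [h, K.inv]; simp
            · rw [h, K.inv]; simp
            · rw [h, K.inv]; simp
            · rw [h, K.inv]; simp
          · exact Or.inl (CX3_out hq hCe hd hz)
        · exact Or.inl hC1
        · exact Or.inl hC2
        · exact Or.inl h3
        · exact Or.inl h4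
      · intro v
        by_cases hvZ : v ∈ ({b, q} : Set V)
        · right
          rcases hvZ with rfl | hvq
          · refine ⟨kb, fun j => ⟨fun h h' => hbk (h' ▸ h), fun h => Or.inr ?_⟩⟩
            rcases kball j with rfl | rfl | rfl
            · simp
            · simp
            · exact absurd rfl h
          · have hvq' : v = q := hvq
            subst hvq'
            refine ⟨kq, fun j => ⟨fun h h' => hqk (h' ▸ h), fun h => Or.inr ?_⟩⟩
            rcases kqall j with rfl | rfl | rfl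
            · simp
            · simp
            · exact absurd rfl h
        · have h5 : ∀ j, (v, j) ∈ CX3_lift C' ∪ {(b, i1), (q, i2), (b, i3), (q, i4)} ↔
              ((⟨v, hvZ⟩ : {x // x ∉ ({b, q} : Set V)}), j) ∈ C' := by
            intro j
            constructor
            · rintro (h | h)
              · exact h.2
              · exact absurd (hE _ h) hvZ
            · exact fun h => Or.inl ⟨hvZ, h⟩
          rcases hCe.deg ⟨v, hvZ⟩ with h6 | ⟨i, h6⟩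
          · left
            intro i hi'
            exact h6 i ((h5 i).1 hi')
          · right
            exact ⟨i, fun j => (h5 j).trans (h6 j)⟩
    refine CX3_cycle hq hC hE hev fun D hD hDe hDn => ?_
    -- equivalences
    have hs : ∀ d, d ∈ D ↔ K.e d ∈ D := fun d =>
      ⟨fun h => hDe.mem _ h, fun h => by have := hDe.mem _ h; rwa [K.inv] at this⟩
    have t13 : (b, i1) ∈ D → (b, i3) ∈ D :=
      CX3_pair hDe h13 kb1 kb3 (fun h => hbk (hD h))
    have t31 : (b, i3) ∈ D → (b, i1) ∈ D :=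
      CX3_pair hDe h13.symm kb3 kb1 (fun h => hbk (hD h))
    have t24 : (q, i2) ∈ D → (q, i4) ∈ D :=
      CX3_pair hDe h24 kq2 kq4 (fun h => hqk (hD h))
    have t42 : (q, i4) ∈ D → (q, i2) ∈ D :=
      CX3_pair hDe h24.symm kq4 kq2 (fun h => hqk (hD h))
    -- at v0
    obtain ⟨jb, hjb⟩ : ∃ jb, K.e (b, i1) = (v0, jb) := ⟨(K.e (b, i1)).2, Prod.ext hx.e1 rfl⟩
    have hjb0 : jb ≠ i0 := by
      rw [hjb] at hC1
      exact (hroot jb).1 hC1
    have hjab : ja ≠ jb := by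
      rintro rfl
      have h6 : (K.e (v0, ja)).1 = b := by rw [← hjb, K.inv]
      exact hx.n0.pq (hja.symm.trans h6)
    have h0D : (v0, i0) ∉ D := by
      intro h
      rcases hD h with h | h
      · exact (hroot i0).1 h rfl
      · exact hv (hE _ h)
    have tv1 : (v0, jb) ∈ D → (v0, ja) ∈ D :=
      CX3_pair hDe hjab.symm hjb0.symm hja0.symm h0D
    have tv2 : (v0, ja) ∈ D → (v0, jb) ∈ D :=
      CX3_pair hDe hjab hja0.symm hjb0.symm h0D
    -- at a
    obtain ⟨x1, hx1⟩ : ∃ x1, K.e (v0, ja) = (a, x1) := ⟨(K.e (v0, ja)).2, Prod.ext hja rfl⟩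
    obtain ⟨x2, hx2⟩ : ∃ x2, K.e (q, i4) = (a, x2) := ⟨(K.e (q, i4)).2, Prod.ext hx.e4 rfl⟩
    have hx12 : x1 ≠ x2 := by
      rintro rfl
      have h6 : (v0, ja) = (q, i4) := by
        rw [← K.inv (v0, ja), ← K.inv (q, i4), hx1, hx2]
      exact hv (Or.inr (congrArg Prod.fst h6))
    obtain ⟨x3, x31, x32, _⟩ := CX3_third x1 x2 hx12
    have h3D : (a, x3) ∉ D := by
      intro h
      have h6 : (a, x3) ∈ CX3_lift C' := by
        rcases hD h with h | h
        · exact h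
        · exact absurd (hE _ h) haZ
      rw [hx1] at hav
      rw [hx2] at h4
      rcases hCe.deg ⟨a, haZ⟩ with h7 | ⟨i, h7⟩
      · exact h7 x3 h6.2
      · have g1 := (h7 x1).1 hav.2
        have g2 := (h7 x2).1 h4.2
        have g3 := (h7 x3).1 h6.2
        have : ∀ x1 x2 x3 i : Fin 3, x1 ≠ x2 → x3 ≠ x1 → x3 ≠ x2 → (x1 = i ∨ x2 = i ∨ x3 = i) := by
          decide
        rcases this x1 x2 x3 i hx12 x31 x32 with h8 | h8 | h8
        exacts [g1 h8, g2 h8, g3 h8]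
    have ta1 : (a, x1) ∈ D → (a, x2) ∈ D := CX3_pair hDe hx12 x31 x32 h3D
    have ta2 : (a, x2) ∈ D → (a, x1) ∈ D := CX3_pair hDe hx12.symm x32 x31 h3D
    have r1 : (b, i1) ∈ D ↔ (v0, jb) ∈ D := by rw [hs (b, i1), hjb]
    have r2 : (v0, ja) ∈ D ↔ (a, x1) ∈ D := by rw [hs (v0, ja), hx1]
    have r3 : (q, i4) ∈ D ↔ (a, x2) ∈ D := by rw [hs (q, i4), hx2]
    have e13 : (b, i1) ∈ D ↔ (b, i3) ∈ D := ⟨t13, t31⟩
    have e24 : (q, i2) ∈ D ↔ (q, i4) ∈ D := ⟨t24, t42⟩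
    have eab : (v0, jb) ∈ D ↔ (v0, ja) ∈ D := ⟨tv1, tv2⟩
    have exx : (a, x1) ∈ D ↔ (a, x2) ∈ D := ⟨ta1, ta2⟩
    have e14 : (b, i1) ∈ D ↔ (q, i4) ∈ D := (((r1.trans eab).trans r2).trans exx).trans r3.symm
    have all1 : (b, i1) ∈ D → (b, i1) ∈ D ∧ (q, i2) ∈ D ∧ (b, i3) ∈ D ∧ (q, i4) ∈ D :=
      fun h => ⟨h, e24.2 (e14.1 h), e13.1 h, e14.1 h⟩
    have all : ∀ s, (s = (b, i1) ∨ s = (q, i2) ∨ s = (b, i3) ∨ s = (q, i4)) → s ∈ D →
        (b, i1) ∈ D ∧ (q, i2) ∈ D ∧ (b, i3) ∈ D ∧ (q, i4) ∈ D := by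
      rintro s (h | h | h | h) hsD
      · exact all1 (h ▸ hsD)
      · exact all1 (e14.2 (e24.1 (h ▸ hsD)))
      · exact all1 (e13.2 (h ▸ hsD))
      · exact all1 (e14.2 (h ▸ hsD))
    refine ⟨?_, ?_, ?_⟩
    · intro d hd hdZ hz
      rcases hcase d hdZ hz with rfl | rfl | rfl | rfl
      · rw [K.inv, mt1, ← hs]
        exact (all _ (Or.inl rfl) ((hs _).2 hd)).2.1
      · rw [K.inv, mt2, ← hs]
        exact (all _ (Or.inr (Or.inl rfl)) ((hs _).2 hd)).1
      · rw [K.inv, mt3, ← hs]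
        exact (all _ (Or.inr (Or.inr (Or.inl rfl))) ((hs _).2 hd)).2.2.2
      · rw [K.inv, mt4, ← hs]
        exact (all _ (Or.inr (Or.inr (Or.inr rfl))) ((hs _).2 hd)).2.2.1
    · obtain ⟨d, hd⟩ := hDn
      rcases hD hd with h | h
      · exact ⟨d, hd, h.1⟩
      · exact ⟨K.e (b, i1), (hs _).1 (all d h hd).1, bd1.2⟩
    · intro hle
      have h6 : (b, i1) ∈ D := (hs _).2 (hle hC1)
      obtain ⟨g1, g2, g3, g4⟩ := all _ (Or.inl rfl) h6
      rintro d (rfl | rfl | rfl | rfl)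
      exacts [g1, g2, g3, g4]
  · -- case A
    have h4 : K.e (q, i4) ∉ CX3_lift C' := fun h => h3 (hC43 h)
    have hE : ∀ d ∈ ({(b, i1), (q, i2), (b, kb), (q, kq)} : Set (V × Fin 3)),
        d.1 ∈ ({b, q} : Set V) := by
      rintro d (rfl | rfl | rfl | rfl)
      exacts [hbZ, hqZ, hbZ, hqZ]
    refine ⟨{(b, i1), (q, i2), (b, kb), (q, kq)}, hE, ?_, by simp, by simp⟩
    have hbk : (b, i3) ∉ CX3_lift C' ∪ {(b, i1), (q, i2), (b, kb), (q, kq)} := by
      rintro (h | h | h | h | h)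
      · exact hb_not _ h
      · exact h13 (congrArg Prod.snd h).symm
      · exact hbq (congrArg Prod.fst h)
      · exact kb3 (congrArg Prod.snd h).symm
      · exact hbq (congrArg Prod.fst h)
    have hqk : (q, i4) ∉ CX3_lift C' ∪ {(b, i1), (q, i2), (b, kb), (q, kq)} := by
      rintro (h | h | h | h | h)
      · exact hq_not _ h
      · exact hbq (congrArg Prod.fst h).symm
      · exact h24 (congrArg Prod.snd h).symm
      · exact hbq (congrArg Prod.fst h).symm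
      · exact kq4 (congrArg Prod.snd h).symm
    have hev : K.Even (CX3_lift C' ∪ {(b, i1), (q, i2), (b, kb), (q, kq)}) := by
      refine ⟨?_, ?_⟩
      · rintro d (hd | rfl | rfl | rfl | rfl)
        · by_cases hz : (K.e d).1 ∈ ({b, q} : Set V)
          · rcases hcase d (hnZ d hd) hz with h | h | h | h
            · right; rw [h, K.inv]; simp
            · right; rw [h, K.inv]; simp
            · exact absurd (h ▸ hd) h3
            · exact absurd (h ▸ hd) h4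
          · exact Or.inl (CX3_out hq hCe hd hz)
        · exact Or.inl hC1
        · exact Or.inl hC2
        · right; rw [hkq]; simp
        · right; rw [hkq']; simp
      · intro v
        by_cases hvZ : v ∈ ({b, q} : Set V)
        · right
          rcases hvZ with rfl | hvq
          · refine ⟨i3, fun j => ⟨fun h h' => hbk (h' ▸ h), fun h => Or.inr ?_⟩⟩
            rcases kball j with rfl | rfl | rfl
            · simp
            · exact absurd rfl h
            · simp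
          · have hvq' : v = q := hvq
            subst hvq'
            refine ⟨i4, fun j => ⟨fun h h' => hqk (h' ▸ h), fun h => Or.inr ?_⟩⟩
            rcases kqall j with rfl | rfl | rfl
            · simp
            · exact absurd rfl h
            · simp
        · have h5 : ∀ j, (v, j) ∈ CX3_lift C' ∪ {(b, i1), (q, i2), (b, kb), (q, kq)} ↔
              ((⟨v, hvZ⟩ : {x // x ∉ ({b, q} : Set V)}), j) ∈ C' := by
            intro j
            constructor
            · rintro (h | h)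
              · exact h.2
              · exact absurd (hE _ h) hvZ
            · exact fun h => Or.inl ⟨hvZ, h⟩
          rcases hCe.deg ⟨v, hvZ⟩ with h6 | ⟨i, h6⟩
          · left
            intro i hi'
            exact h6 i ((h5 i).1 hi')
          · right
            exact ⟨i, fun j => (h5 j).trans (h6 j)⟩
    refine CX3_cycle hq hC hE hev fun D hD hDe hDn => ?_
    have hs : ∀ d, d ∈ D ↔ K.e d ∈ D := fun d =>
      ⟨fun h => hDe.mem _ h, fun h => by have := hDe.mem _ h; rwa [K.inv] at this⟩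
    have t1 : (b, i1) ∈ D → (b, kb) ∈ D :=
      CX3_pair hDe kb1.symm h13.symm kb3.symm (fun h => hbk (hD h))
    have t1' : (b, kb) ∈ D → (b, i1) ∈ D :=
      CX3_pair hDe kb1 kb3.symm h13.symm (fun h => hbk (hD h))
    have t2 : (q, i2) ∈ D → (q, kq) ∈ D :=
      CX3_pair hDe kq2.symm h24.symm kq4.symm (fun h => hqk (hD h))
    have t2' : (q, kq) ∈ D → (q, i2) ∈ D :=
      CX3_pair hDe kq2 kq4.symm h24.symm (fun h => hqk (hD h))
    have r1 : (b, kb) ∈ D ↔ (q, kq) ∈ D := by rw [hs (b, kb), hkq]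
    have all1 : (b, i1) ∈ D → (b, i1) ∈ D ∧ (q, i2) ∈ D ∧ (b, kb) ∈ D ∧ (q, kq) ∈ D :=
      fun h => ⟨h, t2' (r1.1 (t1 h)), t1 h, r1.1 (t1 h)⟩
    have all : ∀ s, (s = (b, i1) ∨ s = (q, i2) ∨ s = (b, kb) ∨ s = (q, kq)) → s ∈ D →
        (b, i1) ∈ D ∧ (q, i2) ∈ D ∧ (b, kb) ∈ D ∧ (q, kq) ∈ D := by
      rintro s (h | h | h | h) hsD
      · exact all1 (h ▸ hsD)
      · exact all1 (t1' (r1.2 (t2 (h ▸ hsD))))
      · exact all1 (t1' (h ▸ hsD))
      · exact all1 (t1' (r1.2 (h ▸ hsD)))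
    refine ⟨?_, ?_, ?_⟩
    · intro d hd hdZ hz
      have hdl : d ∈ CX3_lift C' := by
        rcases hD hd with h | h
        · exact h
        · exact absurd (hE _ h) hdZ
      rcases hcase d hdZ hz with rfl | rfl | rfl | rfl
      · rw [K.inv, mt1, ← hs]
        exact (all _ (Or.inl rfl) ((hs _).2 hd)).2.1
      · rw [K.inv, mt2, ← hs]
        exact (all _ (Or.inr (Or.inl rfl)) ((hs _).2 hd)).1
      · exact absurd hdl h3
      · exact absurd hdl h4
    · obtain ⟨d, hd⟩ := hDn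
      rcases hD hd with h | h
      · exact ⟨d, hd, h.1⟩
      · exact ⟨K.e (b, i1), (hs _).1 (all d h hd).1, bd1.2⟩
    · intro hle
      have h6 : (b, i1) ∈ D := (hs _).2 (hle hC1)
      obtain ⟨g1, g2, g3, g4⟩ := all _ (Or.inl rfl) h6
      rintro d (rfl | rfl | rfl | rfl)
      exacts [g1, g2, g3, g4]

end Cub

end B306C
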