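import Pool.Agent.Lib_MP_b306af.CDefs2
import Pool.Agent.Lib_MP_b306af.CX2
import Pool.Agent.Lib_MP_b306af.CX3

/-!
# MP_b306af, PART I: the third reduction
-/

namespace B306C

open Classical

namespace Cub

variable {V : Type}

/-- REDUCTION X: `q` is a common neighbour of `a` and `b`, its third neighbour `q3` is not `c`:
cross-removal of `b` and `q` (`exists_xq`, `xq_conn3`, `xq_reach`), nothing is lost.
`v0 ∉ {b, q}` since `q3 ≠ v0`, `q ≠ v0` (`no_tri`). -/
theorem op_X [Fintype V] {K : Cub V} (hK : K.Conn3) (h4 : K.C4) (hc : 5 ≤ Fintype.card V)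
    {v0 a b c q a2 b2 q3 : V} {i0 : Fin 3} (hi : (K.e (v0, i0)).1 = c) (n0 : K.Nb v0 a b c)
    (na : K.Nb a v0 q a2) (nb : K.Nb b v0 q b2) (nq : K.Nb q a b q3) (hne : q3 ≠ c) :
    ∃ (V' : Type) (_ : Fintype V') (K' : Cub V') (f : V' → V) (r : V') (i : Fin 3),
      K'.Conn3 ∧ Fintype.card V' < Fintype.card V ∧ Red K v0 i0 K' r i f {v0, a, b, q} ∅ ∧
      f r = v0 := by
  have hc' : 5 ≤ Nat.card V := by rwa [Nat.card_eq_fintype_card]
  obtain ⟨s1, s2, s3, s4, hx⟩ := exists_xq hK h4 hc' n0 na nb nq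
  have hs : K.Sim := sim_of_conn3 K hK (by omega)
  have hv : v0 ∉ ({b, q} : Set V) := by
    rintro (h | h)
    · exact n0.ne.2.1 h
    · exact nb.pq h
  refine ⟨{x // x ∉ ({b, q} : Set V)}, inferInstance, K.rem {b, q} s1 s2 s3 s4 hx.quad,
    Subtype.val, ⟨v0, hv⟩, i0, xq_conn3 hK h4 hc' hx hne, ?_, ?_, rfl⟩
  · exact Fintype.card_subtype_lt (x := b) (fun h => h (Or.inl rfl))
  · refine ⟨Subtype.val_injective, ?_, ?_, ?_, ?_⟩
    · intro S' hR
      have h := xq_reach hs hx hv hi hR
      refine h.mono ?_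
      intro x hxx
      rcases hxx with hxx | hxx
      · exact Or.inl hxx
      · right
        simpa using hxx
    · intro x
      by_cases h : x ∈ ({b, q} : Set V)
      · right; left
        rcases h with h | h
        · simp [h]
        · have : x = q := h
          simp [this]
      · exact Or.inl ⟨⟨x, h⟩, rfl⟩
    · intro x hx0
      simp at hx0
    · intro x hx0
      simp at hx0

end Cub

end B306C
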