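import Pool.Agent.Lib_MP_b306af.CS1

/-!
# MP_b306af, PART I: small graphs
-/

namespace B306C

open Classical

namespace Cub

variable {V : Type}

/-- The third neighbour of a common neighbour of `v` and `q`. -/
theorem k33_third {K : Cub V} (hs : K.Sim) {v q a : V} (hq : q ≠ v) (ha : K.Adj a v)
    (hb : K.Adj a q) : ∃ r, K.Nb a v q r := by
  obtain ⟨x, y, h⟩ := exists_nb' K hs ha
  rcases h.all hb with h1 | h1 | h1
  · exact absurd h1 hq
  · subst h1; exact ⟨y, h⟩
  · subst h1; exact ⟨x, h.swap23⟩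

/-- The exceptional case `K_{3,3}` of the cross-removal.  `v0` and `q` both have the neighbours
`a, b, c`.  Let `X = {v0, q, a, b, c}`.  Its boundary has exactly three ports, the third ports
of `a`, `b`, `c` (`bd_insert` repeatedly, or directly: at most three; no triangles), so `Xᶜ` has at
most one element (`C4`), and it contains the third neighbours of `a`, `b`, `c` (not in `X`: `no_tri`
and `Sim`, e.g. `a` adjacent to `b` gives the triangle `v0, a, b`), thus `Xᶜ = {r}`, `r` adjacent
to `a, b, c`.  Cycle `v0, a, q, c, r, b` (`cycle_of_seq`, `n = 6`). -/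
theorem k33_reach [Finite V] {K : Cub V} (hK : K.Conn3) (h4 : K.C4) (hc5 : 5 ≤ Nat.card V)
    {v0 a b c q : V} {i0 : Fin 3} (hi : (K.e (v0, i0)).1 = c) (n0 : K.Nb v0 a b c)
    (nq : K.Nb q a b c) (hq : q ≠ v0) : K.Reach v0 i0 Set.univ := by
  have hs : K.Sim := sim_of_conn3 K hK (by omega)
  obtain ⟨ra, na⟩ := k33_third hs hq (adj_symm K n0.ap) (adj_symm K nq.ap)
  obtain ⟨rb, nb⟩ := k33_third hs hq (adj_symm K n0.aq) (adj_symm K nq.aq)
  obtain ⟨rc, nc⟩ := k33_third hs hq (adj_symm K n0.ar) (adj_symm K nq.ar)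
  have nab : ¬ K.Adj a b := fun h => no_tri K hK h4 hc5 n0.ap h n0.aq
  have nbc : ¬ K.Adj b c := fun h => no_tri K hK h4 hc5 n0.aq h n0.ar
  have nac : ¬ K.Adj a c := fun h => no_tri K hK h4 hc5 n0.ap h n0.ar
  have h0 := n0.ne
  have hqn := nq.ne
  have han := na.ne
  have hbn := nb.ne
  have hcn := nc.ne
  set X : Set V := {v0, q, a, b, c} with hX
  have hra : ra ∉ X := by
    simp only [hX, Set.mem_insert_iff, Set.mem_singleton_iff, not_or]
    refine ⟨na.pr.symm, na.qr.symm, han.2.2.symm, ?_, ?_⟩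
    · rintro rfl; exact nab na.ar
    · rintro rfl; exact nac na.ar
  have hrb : rb ∉ X := by
    simp only [hX, Set.mem_insert_iff, Set.mem_singleton_iff, not_or]
    refine ⟨nb.pr.symm, nb.qr.symm, ?_, hbn.2.2.symm, ?_⟩
    · rintro rfl; exact nab (adj_symm K nb.ar)
    · rintro rfl; exact nbc nb.ar
  have hrc : rc ∉ X := by
    simp only [hX, Set.mem_insert_iff, Set.mem_singleton_iff, not_or]
    refine ⟨nc.pr.symm, nc.qr.symm, ?_, ?_, hcn.2.2.symm⟩
    · rintro rfl; exact nac (adj_symm K nc.ar)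
    · rintro rfl; exact nbc (adj_symm K nc.ar)
  obtain ⟨ia, hia⟩ := na.ar
  obtain ⟨ib, hib⟩ := nb.ar
  obtain ⟨ic, hic⟩ := nc.ar
  have hmemX : ∀ x, x ∈ X ↔ x = v0 ∨ x = q ∨ x = a ∨ x = b ∨ x = c := by
    intro x; simp [hX]
  have hbd : K.bd X ⊆ {(a, ia), (b, ib), (c, ic)} := by
    rintro ⟨x, i⟩ ⟨hx, hy⟩
    have hadj : K.Adj x (K.e (x, i)).1 := ⟨i, rfl⟩
    simp only [hmemX] at hx hy
    push Not at hy
    rcases hx with rfl | rfl | rfl | rfl | rfl
    · rcases n0.all hadj with h | h | h
      · exact absurd h hy.2.2.1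
      · exact absurd h hy.2.2.2.1
      · exact absurd h hy.2.2.2.2
    · rcases nq.all hadj with h | h | h
      · exact absurd h hy.2.2.1
      · exact absurd h hy.2.2.2.1
      · exact absurd h hy.2.2.2.2
    · rcases na.all hadj with h | h | h
      · exact absurd h hy.1
      · exact absurd h hy.2.1
      · have : i = ia := hs _ _ _ (h.trans hia.symm)
        subst this; simp
    · rcases nb.all hadj with h | h | h
      · exact absurd h hy.1
      · exact absurd h hy.2.1
      · have : i = ib := hs _ _ _ (h.trans hib.symm)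
        subst this; simp
    · rcases nc.all hadj with h | h | h
      · exact absurd h hy.1
      · exact absurd h hy.2.1
      · have : i = ic := hs _ _ _ (h.trans hic.symm)
        subst this; simp
  have hle : (K.bd X).ncard ≤ 3 := by
    refine (Set.ncard_le_ncard hbd (Set.toFinite _)).trans ?_
    refine (Set.ncard_insert_le _ _).trans ?_
    have := Set.ncard_insert_le (b, ib) {(c, ic)}
    rw [Set.ncard_singleton] at this
    omega
  have hge : 3 ≤ (K.bd X).ncard := hK X ⟨v0, by simp [hX]⟩ ⟨ra, hra⟩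
  have hX2 : 2 ≤ X.ncard := by
    have h2 : ({v0, q} : Set V) ⊆ X := by
      intro x hx
      rw [hmemX]
      rcases hx with rfl | hx
      · exact Or.inl rfl
      · exact Or.inr (Or.inl hx)
    have h3 := Set.ncard_le_ncard h2 (Set.toFinite _)
    rw [Set.ncard_pair hq.symm] at h3
    exact h3
  have hXc : (Xᶜ).ncard ≤ 1 := by
    by_contra hcon
    exact h4 X ⟨hX2, by omega, by omega⟩
  have huniq : ∀ x, x ∉ X → x = ra := by
    intro x hx
    exact (Set.ncard_le_one (Set.toFinite _)).1 hXc x hx ra hra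
  have hrb' : rb = ra := huniq rb hrb
  have hrc' : rc = ra := huniq rc hrc
  subst hrb'
  rw [hrc'] at nc
  simp only [hmemX] at hra
  push Not at hra
  obtain ⟨r1, r2, r3, r4, r5⟩ := hra
  let u : ZMod 6 → V := (![v0, a, q, c, rb, b] : Fin 6 → V)
  have u0 : u 0 = v0 := rfl
  have u1 : u 1 = a := rfl
  have u2 : u 2 = q := rfl
  have u3 : u 3 = c := rfl
  have u4 : u 4 = rb := rfl
  have u5 : u 5 = b := rfl
  have hcases : ∀ k : ZMod 6, k = 0 ∨ k = 1 ∨ k = 2 ∨ k = 3 ∨ k = 4 ∨ k = 5 := by decide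
  have hu : Function.Injective u := by
    have e01 := h0.1
    have e02 := hq.symm
    have e03 := h0.2.2
    have e05 := h0.2.1
    have e12 := hqn.1.symm
    have e13 := n0.pr
    have e15 := n0.pq
    have e23 := hqn.2.2
    have e25 := hqn.2.1
    have e35 := n0.qr.symm
    intro k l hkl
    rcases hcases k with rfl | rfl | rfl | rfl | rfl | rfl <;>
      rcases hcases l with rfl | rfl | rfl | rfl | rfl | rfl <;>
      simp only [u0, u1, u2, u3, u4, u5] at hkl <;>
      first
        | rfl
        | exact absurd hkl (by assumption)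
        | exact absurd hkl.symm (by assumption)
  have ha : ∀ k, K.Adj (u k) (u (k + 1)) := by
    intro k
    rcases hcases k with rfl | rfl | rfl | rfl | rfl | rfl
    · exact n0.ap
    · exact na.aq
    · exact nq.ar
    · exact nc.ar
    · exact adj_symm K nb.ar
    · exact nb.ap
  have hcyc := cycle_of_seq hs 6 (by norm_num) u hu ha
  refine ⟨_, hcyc, ?_, ?_⟩
  · intro j
    constructor
    · rintro ⟨k, hk, hk'⟩ rfl
      have hk0 : k = 0 := hu (hk.symm.trans u0.symm)
      subst hk0
      rw [hi] at hk'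
      rcases hk' with h | h
      · exact n0.pr (h.trans u1).symm
      · exact n0.qr (h.trans u5).symm
    · intro hj
      refine ⟨0, rfl, ?_⟩
      rcases n0.all (⟨j, rfl⟩ : K.Adj v0 (K.e (v0, j)).1) with h | h | h
      · exact Or.inl h
      · exact Or.inr h
      · exact absurd (hs _ _ _ (h.trans hi.symm)) hj
  · intro v _
    have hv : ∃ k, v = u k := by
      by_cases hvX : v ∈ X
      · rw [hmemX] at hvX
        rcases hvX with h | h | h | h | h
        · exact ⟨0, h⟩
        · exact ⟨2, h⟩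
        · exact ⟨1, h⟩
        · exact ⟨5, h⟩
        · exact ⟨3, h⟩
      · exact ⟨4, huniq v hvX⟩
    obtain ⟨k, rfl⟩ := hv
    obtain ⟨i, hi'⟩ := ha k
    exact ⟨i, k, rfl, Or.inl hi'⟩

end Cub

end B306C
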