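import Pool.Agent.Lib_MP_b306af.CM0
import Pool.Agent.Lib_MP_b306af.CO3
import Pool.Agent.Lib_MP_b306af.CRed
import Pool.Agent.Lib_MP_b306af.CS4
import Pool.Agent.Lib_MP_b306af.CA1

/-!
# MP_b306af, PART I: one step X
-/

namespace B306C

open Classical

open Cub

/-- The cross-removal: `q` is a common neighbour of `a` and `b`.  Its third neighbour `q3` (by
`exists_nb'`, `Nb.all`, `no_tri`).  If `q3 = c`: `k33_reach`, the value is the sum of all
`(w v) ^ (4/5)`, at least `w a ^ (4/5) + w b ^ (4/5) + w q ^ (4/5) +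
(∑ w - w a - w b - w q) ^ (4/5)` by subadditivity (`pw_add`, over a finite sum; `w v0 = 0`).
Otherwise `op_X` and `PTI n` for `K'` with the weight
`w' x = if f x ∈ {v0, a, b, q} then 0 else w (f x)`: `sum_red`, `gd_red`. -/
theorem step_X {n : ℕ} (ih : PTI n) {V : Type} [Fintype V] (K : Cub V) (hK : K.Conn3)
    (hn : Fintype.card V ≤ n + 1) (h4 : K.C4) (hc : 5 ≤ Fintype.card V) {v0 a b c q a2 b2 : V}
    {i0 : Fin 3} (hi : (K.e (v0, i0)).1 = c) (n0 : K.Nb v0 a b c) (na : K.Nb a v0 q a2)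
    (nb : K.Nb b v0 q b2) (w : V → ℝ) (hw : ∀ v, 0 ≤ w v) (hw0 : w v0 = 0) :
    K.Gd v0 i0 w (w a ^ ((4 : ℝ) / 5) + w b ^ ((4 : ℝ) / 5) + w q ^ ((4 : ℝ) / 5) +
      (∑ v, w v - w a - w b - w q) ^ ((4 : ℝ) / 5)) := by
  have hc' : 5 ≤ Nat.card V := by rwa [Nat.card_eq_fintype_card]
  have hs : K.Sim := sim_of_conn3 K hK (by omega)
  have hab : a ≠ b := n0.pq
  have hv0a : v0 ≠ a := n0.ne.1
  have hv0b : v0 ≠ b := n0.ne.2.1
  have hv0q : v0 ≠ q := na.pq
  obtain ⟨q3, nq⟩ : ∃ q3, K.Nb q a b q3 := by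
    obtain ⟨p1, p2, hp⟩ := exists_nb' K hs (K.adj_symm na.aq)
    rcases hp.all (K.adj_symm nb.aq) with h | h | h
    · exact absurd h.symm hab
    · subst h
      exact ⟨p2, hp⟩
    · subst h
      exact ⟨p1, hp.swap23⟩
  have hqa : a ≠ q := nq.ne.1.symm
  have hqb : b ≠ q := nq.ne.2.1.symm
  by_cases hq3 : q3 = c
  · subst hq3
    have hr := k33_reach hK h4 hc' hi n0 nq hv0q.symm
    have hr' : K.Reach v0 i0 ((Finset.univ : Finset V) : Set V) := by
      rw [Finset.coe_univ]; exact hr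
    refine Gd.mono (Reach.gd w Finset.univ hr') ?_
    have hsum : ∀ s : Finset V, (∑ v ∈ s, w v) ^ ((4 : ℝ) / 5) ≤
        ∑ v ∈ s, (w v) ^ ((4 : ℝ) / 5) := by
      intro s
      induction s using Finset.induction_on with
      | empty =>
        rw [Finset.sum_empty, Finset.sum_empty, Real.zero_rpow (by norm_num)]
      | insert x s hx hi' =>
        rw [Finset.sum_insert hx, Finset.sum_insert hx]
        refine (pw_add (hw x) (Finset.sum_nonneg fun v _ => hw v)).trans ?_
        linarith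
    have hsub : ({a, b, q} : Finset V) ⊆ Finset.univ := Finset.subset_univ _
    have e1 := Finset.sum_sdiff (f := w) hsub
    have e2 := Finset.sum_sdiff (f := fun v => (w v) ^ ((4 : ℝ) / 5)) hsub
    have t1 : ∑ x ∈ ({a, b, q} : Finset V), w x = w a + (w b + w q) := by
      rw [Finset.sum_insert (by simp [hab, hqa]), Finset.sum_pair hqb]
    have t2 : ∑ x ∈ ({a, b, q} : Finset V), (w x) ^ ((4 : ℝ) / 5) =
        w a ^ ((4 : ℝ) / 5) + (w b ^ ((4 : ℝ) / 5) + w q ^ ((4 : ℝ) / 5)) := by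
      rw [Finset.sum_insert (by simp [hab, hqa]), Finset.sum_pair hqb]
    have h1 := hsum (Finset.univ \ {a, b, q})
    have e3 : ∑ v, w v - w a - w b - w q = ∑ x ∈ Finset.univ \ ({a, b, q} : Finset V), w x := by
      rw [← e1, t1]; ring
    rw [e3, ← e2]
    simp only [t2]
    linarith
  · obtain ⟨V', _, K', f, r, i, k', hcard, hred, hfr⟩ := op_X hK h4 hc hi n0 na nb nq hq3
    have g := ih V' K' k' (by omega) r i
      (fun x => if f x ∈ ({v0, a, b, q} : Finset V) then 0 else w (f x))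
      (by
        intro x
        split_ifs
        · exact le_rfl
        · exact hw _)
      (by
        rw [if_pos]
        rw [hfr]
        exact Finset.mem_insert_self _ _)
    refine Gd.mono (gd_red hred w hw g) ?_
    rw [sum_red hred w]
    have t0 : v0 ∉ ({a, b, q} : Finset V) := by simp [hv0a, hv0b, hv0q]
    have ta : a ∉ ({b, q} : Finset V) := by simp [hab, hqa]
    rw [Finset.sum_empty, Finset.sum_insert t0, Finset.sum_insert ta, Finset.sum_pair hqb,
      Finset.sum_insert t0, Finset.sum_insert ta, Finset.sum_pair hqb, hw0,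
      Real.zero_rpow (by norm_num)]
    have e3 : ∑ x, w x - (0 + (w a + (w b + w q))) - 0 = ∑ v, w v - w a - w b - w q := by ring
    rw [e3]
    linarith

end B306C
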