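import Pool.Agent.Lib_MP_b306af.CM5
import Pool.Agent.Lib_MP_b306af.CM6
import Pool.Agent.Lib_MP_b306af.CM7

/-!
# MP_b306af, PART I: the theorem, no 3-cut
-/

namespace B306C

open Classical

open Cub

private theorem cm8_X {n : ℕ} (ih : PTI n) {V : Type} [Fintype V] {K : Cub V} (hK : K.Conn3)
    (hn : Fintype.card V ≤ n + 1) (h4 : K.C4) (hc : 5 ≤ Fintype.card V) {v0 a b c q a2 b2 : V}
    {i0 : Fin 3} (hi : (K.e (v0, i0)).1 = c) (n0 : K.Nb v0 a b c) (na : K.Nb a v0 q a2)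
    (nb : K.Nb b v0 q b2) (w : V → ℝ) (hw : ∀ v, 0 ≤ w v) (hw0 : w v0 = 0) :
    K.Gd v0 i0 w ((∑ v, w v) ^ ((4 : ℝ) / 5)) := by
  refine (step_X ih K hK hn h4 hc hi n0 na nb w hw hw0).mono ?_
  have hqb : q ≠ b := nb.ne.2.1.symm
  have hqa : q ≠ a := na.ne.2.1.symm
  have hsum : w a + w b + w q ≤ ∑ v, w v := by
    have h1 : ∑ v ∈ ({a, b, q} : Finset V), w v ≤ ∑ v, w v :=
      Finset.sum_le_sum_of_subset_of_nonneg (Finset.subset_univ _) (fun x _ _ => hw x)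
    have h2 : ∑ v ∈ ({a, b, q} : Finset V), w v = w a + (w b + w q) := by
      rw [Finset.sum_insert, Finset.sum_pair hqb.symm]
      simp only [Finset.mem_insert, Finset.mem_singleton, not_or]
      exact ⟨n0.pq, hqa.symm⟩
    linarith
  have e1 := pw_add (hw a) (y := ∑ v, w v - w a) (by linarith [hw b, hw q])
  have e2 := pw_add (hw b) (y := ∑ v, w v - w a - w b) (by linarith [hw q])
  have e3 := pw_add (hw q) (y := ∑ v, w v - w a - w b - w q) (by linarith)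
  have r1 : w a + (∑ v, w v - w a) = ∑ v, w v := by ring
  have r2 : w b + (∑ v, w v - w a - w b) = ∑ v, w v - w a := by ring
  have r3 : w q + (∑ v, w v - w a - w b - w q) = ∑ v, w v - w a - w b := by ring
  rw [r1] at e1
  rw [r2] at e2
  rw [r3] at e3
  linarith

private theorem cm8_fin {V : Type} [Fintype V] (w : V → ℝ) (hw : ∀ v, 0 ≤ w v) {a b : V}
    (hab : a ≠ b) {m : ℝ} (hm : 0 ≤ m) :
    (∑ v, w v) ^ ((4 : ℝ) / 5) ≤
      w a ^ ((4 : ℝ) / 5) + w b ^ ((4 : ℝ) / 5) + Tf m (∑ v, w v - w a - w b) := by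
  have hsum : w a + w b ≤ ∑ v, w v := by
    have h1 : ∑ v ∈ ({a, b} : Finset V), w v ≤ ∑ v, w v :=
      Finset.sum_le_sum_of_subset_of_nonneg (Finset.subset_univ _) (fun x _ _ => hw x)
    rw [Finset.sum_pair hab] at h1
    exact h1
  have e1 := pw_add (hw a) (y := ∑ v, w v - w a) (by linarith [hw b])
  have e2 := pw_add (hw b) (y := ∑ v, w v - w a - w b) (by linarith)
  have r1 : w a + (∑ v, w v - w a) = ∑ v, w v := by ring
  have r2 : w b + (∑ v, w v - w a - w b) = ∑ v, w v - w a := by ring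
  rw [r1] at e1
  rw [r2] at e2
  have e3 := Tf_ge (m := m) (R := ∑ v, w v - w a - w b) hm (by linarith)
  linarith

/-- `exists_nb`, `exists_nb'`: neighbours `a, b, c` of `v0` with `(K.e (v0, i0)).1 = c`, neighbours
`v0, a1, a2` of `a`, `v0, b1, b2` of `b`.
(1) One of `b1, b2` is one of `a1, a2`: by symmetry `a1 = b1 = q`: `step_X` and subadditivity.
(2) Otherwise let `m` be the smallest of `w c, w a1, w a2, w b1, w b2`.  If `m = w a2` (or, by
symmetry, `w a1`): `step_M1` with this `m`.  If `m = w b2` (or `w b1`): `step_M1` with `a` and `b`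
exchanged.  If `m = w c`: `step_M3`.  The value is
`w a ^ (4/5) + w b ^ (4/5) + Tf m (∑ w - w a - w b) ≥ (∑ w) ^ (4/5)` by `Tf_ge` and
subadditivity. -/
theorem ti_c4 {n : ℕ} (ih : PTI n) (ih' : PTT n) {V : Type} [Fintype V] (K : Cub V)
    (hK : K.Conn3) (hn : Fintype.card V ≤ n + 1) (h4 : K.C4) (hc : 5 ≤ Fintype.card V) (v0 : V)
    (i0 : Fin 3) (w : V → ℝ) (hw : ∀ v, 0 ≤ w v) (hw0 : w v0 = 0) :
    K.Gd v0 i0 w ((∑ v, w v) ^ ((4 : ℝ) / 5)) := by
  have hNc : Nat.card V = Fintype.card V := Nat.card_eq_fintype_card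
  have hs : K.Sim := sim_of_conn3 K hK (by omega)
  obtain ⟨a, b, n0⟩ := exists_nb K hs v0 i0
  obtain ⟨c, hi⟩ : ∃ c, (K.e (v0, i0)).1 = c := ⟨_, rfl⟩
  rw [hi] at n0
  obtain ⟨a1, a2, na⟩ := exists_nb' K hs (K.adj_symm n0.ap)
  obtain ⟨b1, b2, nb⟩ := exists_nb' K hs (K.adj_symm n0.aq)
  by_cases h11 : b1 = a1
  · subst h11
    exact cm8_X ih hK hn h4 hc hi n0 na nb w hw hw0
  by_cases h12 : b1 = a2
  · subst h12
    exact cm8_X ih hK hn h4 hc hi n0 na.swap23 nb w hw hw0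
  by_cases h21 : b2 = a1
  · subst h21
    exact cm8_X ih hK hn h4 hc hi n0 na nb.swap23 w hw hw0
  by_cases h22 : b2 = a2
  · subst h22
    exact cm8_X ih hK hn h4 hc hi n0 na.swap23 nb.swap23 w hw hw0
  obtain ⟨k, hk⟩ := Finite.exists_min (![w c, w a1, w a2, w b1, w b2] : Fin 5 → ℝ)
  have k0 := hk 0
  have k1 := hk 1
  have k2 := hk 2
  have k3 := hk 3
  have k4 := hk 4
  fin_cases k
  · simp at k0 k1 k2 k3 k4
    refine (step_M3 ih' K hK hn h4 hc hi n0 na nb h11 h12 h21 h22 w (w c) hw hw0 (hw c) le_rfl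
      k1 k2 k3 k4).mono (cm8_fin w hw n0.pq (hw c))
  · simp at k0 k1 k2 k3 k4
    refine (step_M1 ih' K hK hn h4 hc hi n0 na.swap23 nb h12 h11 h22 h21 w (w a1) hw hw0 (hw a1)
      le_rfl k2 k0 k3 k4).mono (cm8_fin w hw n0.pq (hw a1))
  · simp at k0 k1 k2 k3 k4
    refine (step_M1 ih' K hK hn h4 hc hi n0 na nb h11 h12 h21 h22 w (w a2) hw hw0 (hw a2)
      le_rfl k1 k0 k3 k4).mono (cm8_fin w hw n0.pq (hw a2))
  · simp at k0 k1 k2 k3 k4
    refine (step_M1 ih' K hK hn h4 hc hi n0.swap12 nb.swap23 na (Ne.symm h21) (Ne.symm h11)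
      (Ne.symm h22) (Ne.symm h12) w (w b1) hw hw0 (hw b1) le_rfl k4 k0 k1 k2).mono ?_
    have := cm8_fin w hw n0.pq.symm (hw b1)
    exact this
  · simp at k0 k1 k2 k3 k4
    refine (step_M1 ih' K hK hn h4 hc hi n0.swap12 nb na (Ne.symm h11) (Ne.symm h21)
      (Ne.symm h12) (Ne.symm h22) w (w b2) hw hw0 (hw b2) le_rfl k3 k0 k1 k2).mono ?_
    have := cm8_fin w hw n0.pq.symm (hw b2)
    exact this

end B306C
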