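import Pool.Agent.Lib_MP_b306af.CM5
import Pool.Agent.Lib_MP_b306af.CM6
import Pool.Agent.Lib_MP_b306af.CM7
import Pool.Agent.Lib_MP_b306af.CA5

/-!
# MP_b306af, PART I: the two-step theorem, no 3-cut
-/

namespace B306C

open Classical

open Cub

private theorem cm9_sum {V : Type} [Fintype V] (w : V → ℝ) (hw : ∀ v, 0 ≤ w v) {c x y : V}
    (hxy : x ≠ y) (hxc : x ≠ c) (hyc : y ≠ c) : w c + w x + w y ≤ ∑ v, w v := by
  have h1 : ∑ v ∈ ({c, x, y} : Finset V), w v ≤ ∑ v, w v :=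
    Finset.sum_le_sum_of_subset_of_nonneg (Finset.subset_univ _) (fun x _ _ => hw x)
  have h2 : ∑ v ∈ ({c, x, y} : Finset V), w v = w c + (w x + w y) := by
    rw [Finset.sum_insert, Finset.sum_pair hxy]
    simp only [Finset.mem_insert, Finset.mem_singleton, not_or]
    exact ⟨hxc.symm, hyc.symm⟩
  linarith

private theorem cm9_zero : (0 : ℝ) ^ ((4 : ℝ) / 5) = 0 :=
  Real.zero_rpow (by norm_num)

/-- the case of a common neighbour `x` of `a` and `b` -/
private theorem cm9_X {n : ℕ} (ih : PTI n) (ih3 : ∀ n, PS3 n) {V : Type} [Fintype V]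
    {K : Cub V} (hK : K.Conn3) (hn : Fintype.card V ≤ n + 1) (h4 : K.C4)
    (hc : 5 ≤ Fintype.card V) {v0 a b c x y a2 : V} {i0 : Fin 3} (hi : (K.e (v0, i0)).1 = c)
    (n0 : K.Nb v0 a b c) (na : K.Nb a v0 x a2) (nb : K.Nb b v0 x y) (hxc : x ≠ c) (hyc : y ≠ c)
    (w : V → ℝ) (m : ℝ) (hw : ∀ v, 0 ≤ w v) (hw0 : w v0 = 0) (hwa : w a = 0) (hwb : w b = 0)
    (hm : 0 ≤ m) (hmc : m ≤ w c) (hmx : m ≤ w x) (hmy : m ≤ w y) :
    K.Gd v0 i0 w (Tf m (∑ v, w v)) := by
  have hS := cm9_sum w hw nb.qr hxc hyc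
  rcases Tf_A4 hm (R := ∑ v, w v) (by linarith) with h1 | h1
  · have hA : ({c, x, y} : Set V).ncard ≤ 3 := by
      refine (Set.ncard_insert_le _ _).trans ?_
      have := Set.ncard_insert_le x ({y} : Set V)
      rw [Set.ncard_singleton] at this
      omega
    have hr := ih3 (n + 1) V K hK hn v0 i0 {c, x, y} hA
    have hco : ((({c, x, y} : Finset V)) : Set V) = {c, x, y} := by
      simp
    have hr' : K.Reach v0 i0 ((({c, x, y} : Finset V)) : Set V) := by
      rw [hco]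
      exact hr
    refine (Reach.gd w _ hr').mono (h1.trans ?_)
    have h2 : ∑ v ∈ ({c, x, y} : Finset V), (w v) ^ ((4 : ℝ) / 5) =
        (w c) ^ ((4 : ℝ) / 5) + ((w x) ^ ((4 : ℝ) / 5) + (w y) ^ ((4 : ℝ) / 5)) := by
      rw [Finset.sum_insert, Finset.sum_pair nb.qr]
      simp only [Finset.mem_insert, Finset.mem_singleton, not_or]
      exact ⟨hxc.symm, hyc.symm⟩
    rw [h2]
    have e1 := Real.rpow_le_rpow hm hmc (z := (4 : ℝ) / 5) (by norm_num)
    have e2 := Real.rpow_le_rpow hm hmx (z := (4 : ℝ) / 5) (by norm_num)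
    have e3 := Real.rpow_le_rpow hm hmy (z := (4 : ℝ) / 5) (by norm_num)
    linarith
  · refine (step_X ih K hK hn h4 hc hi n0 na nb w hw hw0).mono ?_
    have h2 := h1 (w x) hmx (by linarith [hw y])
    rw [hwa, hwb, cm9_zero]
    simpa using h2

/-- Neighbours `v0, a1, a2` of `a` (`exists_nb'`); the neighbours of `b` are `v0, x, y`; `h.n0`.
Let `R = ∑ w`; `w v0 = w a = w b = 0`, so `R ≥ w c + w x + w y ≥ 3 m`.
(1) `x` or `y` is one of `a1, a2`; by symmetry (exchange `x, y`, exchange `a1, a2`) `x = a1 = q`.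
`Tf_A4`: either `Tf m R ≤ 3 m ^ (4/5)`: then `PS3` for `A = {c, x, y}`, value
`w c ^ (4/5) + w x ^ (4/5) + w y ^ (4/5)`.  Or `Tf m R ≤ (w q) ^ (4/5) + (R - w q) ^ (4/5)`
(`z = w q`, `m ≤ w x = w q`, `m ≤ w c ≤ R - w q`): `step_X`.
(2) Otherwise let `m'` be the smallest of `w c, w x, w y`, so `m ≤ m'`, and by `Tf_mono` it is
enough to get `Tf m' R`.
 * If the smaller one of `w a1, w a2` (say `w a2`, by symmetry) is `≤ m'`: `step_M1`
   with `m'`, lost `a2`.
 * Otherwise `m' < w a1, w a2`.  If `m' = w y`: `step_M1` with `a` and `b` exchanged (lost `y`,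
   gained `x`, `m' ≤ w c, w a1, w a2`); if `m' = w x`: the same with `x`, `y` exchanged.
   If `m' = w c`: `step_M3` (lost `c`, gained `a1`, `m' ≤ w a2, w x, w y`). -/
theorem tt_c4 {n : ℕ} (ih : PTI n) (ih' : PTT n) (ih3 : ∀ n, PS3 n) {V : Type} [Fintype V]
    (K : Cub V) (hK : K.Conn3) (hn : Fintype.card V ≤ n + 1) (h4 : K.C4)
    (v0 : V) (i0 : Fin 3) (a b c x y p z : V) (h : K.TTH v0 i0 a b c x y p z)
    (w : V → ℝ) (m : ℝ) (hw : ∀ v, 0 ≤ w v) (hw0 : w v0 = 0) (hwa : w a = 0) (hwb : w b = 0)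
    (hm : 0 ≤ m) (hmc : m ≤ w c) (hmx : m ≤ w x) (hmy : m ≤ w y) :
    K.Gd v0 i0 w (Tf m (∑ v, w v)) := by
  have hNc : Nat.card V = Fintype.card V := Nat.card_eq_fintype_card
  have n0 := h.n0
  have nb := h.nb
  have hc : 5 ≤ Fintype.card V := by
    have h1 : ({v0, a, b, c, x} : Finset V).card = 5 := by
      rw [Finset.card_insert_of_notMem, Finset.card_insert_of_notMem,
        Finset.card_insert_of_notMem, Finset.card_pair h.xc.symm]
      · simp only [Finset.mem_insert, Finset.mem_singleton, not_or]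
        exact ⟨n0.qr, nb.ne.2.1⟩
      · simp only [Finset.mem_insert, Finset.mem_singleton, not_or]
        exact ⟨n0.pq, n0.pr, h.xa.symm⟩
      · simp only [Finset.mem_insert, Finset.mem_singleton, not_or]
        exact ⟨n0.ne.1, n0.ne.2.1, n0.ne.2.2, nb.pq⟩
    rw [← h1]
    exact Finset.card_le_univ _
  have hs : K.Sim := sim_of_conn3 K hK (by omega)
  have hi := h.hi
  obtain ⟨a1, a2, na⟩ := exists_nb' K hs (K.adj_symm n0.ap)
  have hS := cm9_sum w hw nb.qr h.xc h.yc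
  by_cases h11 : x = a1
  · subst h11
    exact cm9_X ih ih3 hK hn h4 hc hi n0 na nb h.xc h.yc w m hw hw0 hwa hwb hm hmc hmx hmy
  by_cases h12 : x = a2
  · subst h12
    exact cm9_X ih ih3 hK hn h4 hc hi n0 na.swap23 nb h.xc h.yc w m hw hw0 hwa hwb hm hmc hmx
      hmy
  by_cases h21 : y = a1
  · subst h21
    exact cm9_X ih ih3 hK hn h4 hc hi n0 na nb.swap23 h.yc h.xc w m hw hw0 hwa hwb hm hmc hmy
      hmx
  by_cases h22 : y = a2
  · subst h22
    exact cm9_X ih ih3 hK hn h4 hc hi n0 na.swap23 nb.swap23 h.yc h.xc w m hw hw0 hwa hwb hm hmc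
      hmy hmx
  -- the value
  have key : ∀ m', m ≤ m' →
      K.Gd v0 i0 w (w a ^ ((4 : ℝ) / 5) + w b ^ ((4 : ℝ) / 5) + Tf m' (∑ v, w v - w a - w b)) →
      K.Gd v0 i0 w (Tf m (∑ v, w v)) := by
    intro m' hm' hG
    refine hG.mono ?_
    rw [hwa, hwb, cm9_zero, sub_zero, sub_zero, zero_add, zero_add]
    exact Tf_mono hm hm' (Finset.sum_nonneg (fun v _ => hw v))
  have key' : ∀ m', m ≤ m' →
      K.Gd v0 i0 w (w b ^ ((4 : ℝ) / 5) + w a ^ ((4 : ℝ) / 5) + Tf m' (∑ v, w v - w b - w a)) →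
      K.Gd v0 i0 w (Tf m (∑ v, w v)) := by
    intro m' hm' hG
    refine hG.mono ?_
    rw [hwa, hwb, cm9_zero, sub_zero, sub_zero, zero_add, zero_add]
    exact Tf_mono hm hm' (Finset.sum_nonneg (fun v _ => hw v))
  -- the smallest of `w c, w x, w y`
  obtain ⟨m', hm', hm'c, hm'x, hm'y, hor⟩ : ∃ m', m ≤ m' ∧ m' ≤ w c ∧ m' ≤ w x ∧ m' ≤ w y ∧
      (m' = w c ∨ m' = w x ∨ m' = w y) := by
    rcases le_total (w c) (w x) with q1 | q1 <;> rcases le_total (w x) (w y) with q2 | q2 <;>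
      rcases le_total (w c) (w y) with q3 | q3
    all_goals
      first
      | exact ⟨w c, hmc, le_rfl, by linarith, by linarith, Or.inl rfl⟩
      | exact ⟨w x, hmx, by linarith, le_rfl, by linarith, Or.inr (Or.inl rfl)⟩
      | exact ⟨w y, hmy, by linarith, by linarith, le_rfl, Or.inr (Or.inr rfl)⟩
  have hm'0 : 0 ≤ m' := hm.trans hm'
  rcases le_total (w a2) (w a1) with q | q
  · by_cases q2 : w a2 ≤ m'
    · exact key m' hm' (step_M1 ih' K hK hn h4 hc hi n0 na nb h11 h12 h21 h22 w m' hw hw0 hm'0 q2 q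
        hm'c hm'x hm'y)
    · push Not at q2
      rcases hor with rfl | rfl | rfl
      · exact key _ hm' (step_M3 ih' K hK hn h4 hc hi n0 na nb h11 h12 h21 h22 w _ hw hw0 hm'0
          le_rfl (by linarith) (by linarith) hm'x hm'y)
      · exact key' _ hm' (step_M1 ih' K hK hn h4 hc hi n0.swap12 nb.swap23 na (Ne.symm h21)
          (Ne.symm h11) (Ne.symm h22) (Ne.symm h12) w _ hw hw0 hm'0 le_rfl hm'y hm'c
          (by linarith) (by linarith))
      · exact key' _ hm' (step_M1 ih' K hK hn h4 hc hi n0.swap12 nb na (Ne.symm h11)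
          (Ne.symm h21) (Ne.symm h12) (Ne.symm h22) w _ hw hw0 hm'0 le_rfl hm'x hm'c
          (by linarith) (by linarith))
  · by_cases q2 : w a1 ≤ m'
    · exact key m' hm' (step_M1 ih' K hK hn h4 hc hi n0 na.swap23 nb h12 h11 h22 h21 w m' hw hw0
        hm'0 q2 q hm'c hm'x hm'y)
    · push Not at q2
      rcases hor with rfl | rfl | rfl
      · exact key _ hm' (step_M3 ih' K hK hn h4 hc hi n0 na nb h11 h12 h21 h22 w _ hw hw0 hm'0
          le_rfl (by linarith) (by linarith) hm'x hm'y)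
      · exact key' _ hm' (step_M1 ih' K hK hn h4 hc hi n0.swap12 nb.swap23 na (Ne.symm h21)
          (Ne.symm h11) (Ne.symm h22) (Ne.symm h12) w _ hw hw0 hm'0 le_rfl hm'y hm'c
          (by linarith) (by linarith))
      · exact key' _ hm' (step_M1 ih' K hK hn h4 hc hi n0.swap12 nb na (Ne.symm h11)
          (Ne.symm h21) (Ne.symm h12) (Ne.symm h22) w _ hw hw0 hm'0 le_rfl hm'x hm'c
          (by linarith) (by linarith))

end B306C
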