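import Pool.Agent.Lib_MP_b306af.CC2

/-!
# MP_b306af, PART I: contraction of a maximal cut
-/

namespace B306C

open Classical

namespace Cub

variable {V : Type}

/-- Let `X` be a nontrivial 3-cut of maximal size avoiding `v0`, and let all nontrivial 3-cuts
avoiding `v0` contain `p`.  Then `K / X` has no nontrivial 3-cut.
Proof: let `Y` be one; passing to the complement (`Cut.compl`), `pj X v0 ∉ Y`. `Z := pj X ⁻¹' Y` is
a nontrivial 3-cut (`contr_cut`) with `v0 ∉ Z`.  If `none ∈ Y` then `X ⊆ Z`, and `Z` contains a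
vertex outside `X` because `Y` has at least two elements: contradiction to maximality.  If
`none ∉ Y` then `Z` is disjoint from `X`, but both contain `p`. -/
theorem contr_c4 [Finite V] {K : Cub V} {X : Set V} {b : Fin 3 → V × Fin 3}
    (hb : K.Enum X b) (hX : K.Cut X) {v0 p : V} (hv : v0 ∉ X)
    (hmax : ∀ Z : Set V, K.Cut Z → v0 ∉ Z → Z.ncard ≤ X.ncard)
    (hp : ∀ Z : Set V, K.Cut Z → v0 ∉ Z → p ∈ Z) : (K.contr X b hb).C4 := by
  intro Y0 hY0
  obtain ⟨Y, hY, hvY⟩ : ∃ Y, (K.contr X b hb).Cut Y ∧ pj X v0 ∉ Y := by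
    by_cases h : pj X v0 ∈ Y0
    · exact ⟨Y0ᶜ, hY0.compl, fun h' => h' h⟩
    · exact ⟨Y0, hY0, h⟩
  have hXne : X.Nonempty := Set.nonempty_of_ncard_ne_zero (by have := hX.1; omega)
  have hZ := contr_cut hb hXne hY
  have hvZ : v0 ∉ pj X ⁻¹' Y := hvY
  by_cases hn : none ∈ Y
  · have hsub : X ⊆ pj X ⁻¹' Y := fun x hx => by
      show pj X x ∈ Y
      rw [pj_mem hx]; exact hn
    obtain ⟨y, hy, hyn⟩ := Set.exists_ne_of_one_lt_ncard
      (show 1 < Y.ncard by have := hY.1; omega) none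
    obtain ⟨v, rfl⟩ := Option.ne_none_iff_exists'.1 hyn
    have hss : X ⊂ pj X ⁻¹' Y := by
      refine ⟨hsub, fun h => ?_⟩
      have : v.1 ∈ X := h (show pj X v.1 ∈ Y by rw [pj_not_mem v.2]; exact hy)
      exact v.2 this
    have h1 := Set.ncard_lt_ncard hss (Set.toFinite _)
    have h2 := hmax _ hZ hvZ
    omega
  · have h1 := hp _ hX hv
    have h2 := hp _ hZ hvZ
    apply hn
    have h3 : pj X p ∈ Y := h2
    rwa [pj_mem h1] at h3

end Cub

end B306C
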