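import Pool.Agent.Lib_MP_b306af.CM0
import Pool.Agent.Lib_MP_b306af.CC3
import Pool.Agent.Lib_MP_b306af.CC7
import Pool.Agent.Lib_MP_b306af.CA5

/-!
# MP_b306af, PART I: the two-step theorem, cut containing b
-/

namespace B306C

open Classical

open Cub

/-- `X` is a nontrivial 3-cut avoiding `v0` and containing `b`.  By `mv2'` (`v0 ∉ X`) `a, c ∉ X`, by
`mv1'` (`b ∈ X`) `x, y ∈ X`.  Let `Rin = ∑ v ∈ X, w v ≥ w x + w y`, `R = ∑ w`,
`R - Rin ≥ w c ≥ m`.
`Tf_A4` (`3 m ≤ R`): either `Tf m R ≤ 3 m ^ (4/5)`: then `PS3` with `A = {c, x, y}`.  Or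
`Tf m R ≤ Rin ^ (4/5) + (R - Rin) ^ (4/5)`: `gd_contr'` with `w1 none = 0`, `t = (R - Rin) ^ (4/5)`
from `PTI n` for `K / X`, `t2 = Rin ^ (4/5)` from `PTI n` for `K / Xᶜ`. -/
theorem tt_cut_b {n : ℕ} (ih : PTI n) (ih3 : ∀ n, PS3 n) {V : Type} [Fintype V]
    (K : Cub V) (hK : K.Conn3) (hn : Fintype.card V ≤ n + 1)
    (v0 : V) (i0 : Fin 3) (a b c x y p z : V) (h : K.TTH v0 i0 a b c x y p z)
    (w : V → ℝ) (m : ℝ) (hw : ∀ v, 0 ≤ w v) (hw0 : w v0 = 0) (hwa : w a = 0) (hwb : w b = 0)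
    (hm : 0 ≤ m) (hmc : m ≤ w c) (hmx : m ≤ w x) (hmy : m ≤ w y)
    {X : Set V} (hX : K.Cut X) (hv : v0 ∉ X) (hb : b ∈ X) :
    K.Gd v0 i0 w (Tf m (∑ v, w v)) := by
  obtain ⟨β, hβ⟩ := exists_enum K hX.2.2
  have hXne : X.Nonempty := ⟨b, hb⟩
  have hXcne : Xᶜ.Nonempty := ⟨v0, hv⟩
  have hc : c ∉ X := fun hcX => h.n0.qr (mv2' K hK hX hv h.n0.aq h.n0.ar hb hcX)
  have hx : x ∈ X := by
    by_contra hxX
    exact h.nb.pq (mv1' K hK hX hb h.nb.ap h.nb.aq hv hxX)
  have hy : y ∈ X := by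
    by_contra hyX
    exact h.nb.pr (mv1' K hK hX hb h.nb.ap h.nb.ar hv hyX)
  have hxy : x ≠ y := h.nb.qr
  have hsplit : (∑ v ∈ Finset.univ.filter (· ∈ X), w v)
      + (∑ v ∈ Finset.univ.filter (fun v => ¬ v ∈ X), w v) = ∑ v, w v :=
    Finset.sum_filter_add_sum_filter_not _ _ _
  have hsub1 : (∑ v ∈ Finset.univ.filter (fun v => ¬ v ∈ X), w v) = ∑ a : {v // v ∉ X}, w a.1 :=
    Finset.sum_subtype _ (by simp) _
  have hsub2 : (∑ v ∈ Finset.univ.filter (· ∈ X), w v) = ∑ a : {v // v ∉ Xᶜ}, w a.1 :=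
    Finset.sum_subtype _ (by simp) _
  have hRin : w x + w y ≤ ∑ v ∈ Finset.univ.filter (· ∈ X), w v := by
    rw [← Finset.sum_pair hxy]
    refine Finset.sum_le_sum_of_subset_of_nonneg ?_ fun v _ _ => hw v
    intro v hv'
    rcases Finset.mem_insert.1 hv' with rfl | h'
    · simpa using hx
    · rw [Finset.mem_singleton.1 h']; simpa using hy
  have hRout : w c ≤ ∑ v ∈ Finset.univ.filter (fun v => ¬ v ∈ X), w v :=
    Finset.single_le_sum (f := w) (fun v _ => hw v) (by simpa using hc)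
  have h3m : 3 * m ≤ ∑ v, w v := by rw [← hsplit]; linarith
  rcases Tf_A4 hm h3m with hA | hA
  · have hcx : c ≠ x := fun e => hc (e ▸ hx)
    have hcy : c ≠ y := fun e => hc (e ▸ hy)
    have hcoe : ((({c, x, y} : Finset V)) : Set V) = {c, x, y} := by simp
    have hr : K.Reach v0 i0 ((({c, x, y} : Finset V)) : Set V) := by
      rw [hcoe]
      refine ih3 (Fintype.card V) V K hK le_rfl v0 i0 {c, x, y} ?_
      rw [← hcoe, Set.ncard_coe_finset]
      exact Finset.card_le_three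
    have hg := hr.gd w
    refine hg.mono (hA.trans ?_)
    rw [Finset.sum_insert (by simp [hcx, hcy]), Finset.sum_pair hxy]
    have h1 : m ^ ((4 : ℝ) / 5) ≤ w c ^ ((4 : ℝ) / 5) := Real.rpow_le_rpow hm hmc (by norm_num)
    have h2 : m ^ ((4 : ℝ) / 5) ≤ w x ^ ((4 : ℝ) / 5) := Real.rpow_le_rpow hm hmx (by norm_num)
    have h3 : m ^ ((4 : ℝ) / 5) ≤ w y ^ ((4 : ℝ) / 5) := Real.rpow_le_rpow hm hmy (by norm_num)
    linarith
  · have hT := hA (∑ v ∈ Finset.univ.filter (· ∈ X), w v) (by linarith)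
      (by rw [← hsplit]; linarith)
    have hdiff : (∑ v, w v) - (∑ v ∈ Finset.univ.filter (· ∈ X), w v)
        = ∑ v ∈ Finset.univ.filter (fun v => ¬ v ∈ X), w v := by rw [← hsplit]; ring
    rw [hdiff] at hT
    have hc1 : Fintype.card (Option {v // v ∉ X}) ≤ n := by
      have h := contr_card (V := V) hX.1
      rw [Nat.card_eq_fintype_card, Nat.card_eq_fintype_card] at h
      omega
    have hc2 : Fintype.card (Option {v // v ∉ Xᶜ}) ≤ n := by
      have h := contr_card (V := V) hX.2.1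
      rw [Nat.card_eq_fintype_card, Nat.card_eq_fintype_card] at h
      omega
    have hj : ∃ j, j ≠ i0 ∧ (K.e (v0, j)).1 ∈ X := by
      obtain ⟨j, hj⟩ := h.n0.aq
      refine ⟨j, ?_, by rw [hj]; exact hb⟩
      rintro rfl
      exact h.n0.qr (hj.symm.trans h.hi)
    have key := gd_contr' hβ hv i0 w (fun o => o.elim 0 (fun v => w v.1))
      (fun o => o.elim 0 (fun v => w v.1)) (fun _ => rfl) (fun _ => rfl) rfl
      ((∑ v ∈ Finset.univ.filter (fun v => ¬ v ∈ X), w v) ^ ((4 : ℝ) / 5))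
      ((∑ v ∈ Finset.univ.filter (· ∈ X), w v) ^ ((4 : ℝ) / 5)) rfl hj ?_ ?_
    · refine key.mono ?_
      linarith
    · have h' := ih (Option {v // v ∉ X}) (K.contr X β hβ) (contr_conn3 hK hβ hXne) hc1
        (some ⟨v0, hv⟩) i0 (fun o => o.elim 0 (fun v => w v.1))
        (by rintro (_ | v); exacts [le_rfl, hw v.1]) hw0
      rw [Fintype.sum_option] at h'
      simp only [Option.elim] at h'
      rw [zero_add, ← hsub1] at h'
      exact h'
    · intro k
      have h' := ih (Option {v // v ∉ Xᶜ}) (K.contr Xᶜ (fun k => K.e (β k)) hβ.compl)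
        (contr_conn3 hK hβ.compl hXcne) hc2 none k
        (fun o => o.elim 0 (fun v => w v.1))
        (by rintro (_ | v); exacts [le_rfl, hw v.1]) rfl
      rw [Fintype.sum_option] at h'
      simp only [Option.elim] at h'
      rw [zero_add, ← hsub2] at h'
      exact h'

end B306C
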