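import Pool.Agent.Lib_MP_b306af.CN2
import Pool.Agent.Lib_MP_b306af.CM0
import Pool.Agent.Lib_MP_b306af.CC3
import Pool.Agent.Lib_MP_b306af.CC7
import Pool.Agent.Lib_MP_b306af.CA4

/-!
# MP_b306af, PART I: the two-step theorem, cut containing a
-/

namespace B306C

open Classical

open Cub

/-- `X` is a nontrivial 3-cut of maximal size avoiding `v0`, and `a ∈ X`.  By `h.hQ`, `z ∉ X` so
`z = b`, and `p ∈ X`.  `b, c ∉ X` by `mv2'`.  `x ∉ X`: otherwise `derived_cut` (`z = b`, `u = a`,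
`o = c`, `t = x`, `t' = y`, `c ≠ y`) gives a nontrivial 3-cut avoiding `v0` and disjoint from `X`,
but it contains `p` by `h.hQ`.  In the same way `y ∉ X`.
`K / X` has no nontrivial 3-cut (`contr_c4`), so `TTH` holds for `K / X` with
`pj X a = none, pj X b, pj X c, pj X x, pj X y` (`contr_nb`, `contr_fst`, `pj_ne`; `hQ` is void).
`PTT n` for `K / X` with `w1 none = 0`, `w1 (some v) = w v`: value `Tf m (R - Rin)`, where
`Rin = ∑ v ∈ X, w v`.  `PTI n` for `K / Xᶜ`: `Rin ^ (4/5)`.  `gd_contr'` and `Tf_A3` with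
`q = Rin`, `3 m ≤ w c + w x + w y ≤ R - Rin`. -/
theorem tt_cut_a {n : ℕ} (ih : PTI n) (ih' : PTT n) {V : Type} [Fintype V]
    (K : Cub V) (hK : K.Conn3) (hn : Fintype.card V ≤ n + 1)
    (v0 : V) (i0 : Fin 3) (a b c x y p z : V) (h : K.TTH v0 i0 a b c x y p z)
    (w : V → ℝ) (m : ℝ) (hw : ∀ v, 0 ≤ w v) (hw0 : w v0 = 0) (hwa : w a = 0) (hwb : w b = 0)
    (hm : 0 ≤ m) (hmc : m ≤ w c) (hmx : m ≤ w x) (hmy : m ≤ w y)
    {X : Set V} (hX : K.Cut X) (hv : v0 ∉ X)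
    (hmax : ∀ Z : Set V, K.Cut Z → v0 ∉ Z → Z.ncard ≤ X.ncard) (ha : a ∈ X) :
    K.Gd v0 i0 w (Tf m (∑ v, w v)) := by
  have hz : z = b := by
    rcases h.hz with h1 | h1
    · exact absurd (h1 ▸ ha) (h.hQ X hX hv).1
    · exact h1
  have hb : b ∉ X := hz ▸ (h.hQ X hX hv).1
  have hc : c ∉ X := fun hcX => h.n0.pr (mv2' K hK hX hv h.n0.ap h.n0.ar ha hcX)
  have key : ∀ t t' : V, K.Nb b v0 t t' → c ≠ t' → t ∉ X := by
    intro t t' nz hct ht
    have hcut := derived_cut hK hX h.n0.swap12 nz hv hb ha ht hct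
    have h1 : v0 ∉ (X ∪ {v0, b})ᶜ := by simp
    exact (h.hQ _ hcut h1).2 (Or.inl (h.hQ X hX hv).2)
  have hx : x ∉ X := key x y h.nb (fun hh => h.yc hh.symm)
  have hy : y ∉ X := key y x h.nb.swap23 (fun hh => h.xc hh.symm)
  obtain ⟨e, he⟩ := exists_enum K hX.2.2
  have hXne : X.Nonempty := ⟨a, ha⟩
  have hXcne : Xᶜ.Nonempty := ⟨v0, hv⟩
  have hC3 := contr_conn3 hK he hXne
  have hC4 := contr_c4 he hX hv hmax (fun Z h1 h2 => (h.hQ Z h1 h2).2)
  have e0 : pj X v0 = some ⟨v0, hv⟩ := pj_not_mem hv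
  have hT : (K.contr X e he).TTH (some ⟨v0, hv⟩) i0 (pj X a) (pj X b) (pj X c) (pj X x) (pj X y)
      (pj X a) (pj X a) := by
    refine ⟨?_, ?_, ?_, ?_, ?_, ?_, ?_, Or.inl rfl, fun Z hZ => absurd hZ (hC4 Z)⟩
    · rw [contr_fst, h.hi]
    · have := contr_nb he hv h.n0 (pj_ne h.n0.pq (Or.inr hb)) (pj_ne h.n0.pr (Or.inr hc))
        (pj_ne h.n0.qr (Or.inl hb))
      rwa [e0] at this
    · have := contr_nb he hb h.nb (pj_ne h.nb.pq (Or.inl hv)) (pj_ne h.nb.pr (Or.inl hv))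
        (pj_ne h.nb.qr (Or.inl hx))
      rwa [e0] at this
    · exact pj_ne h.xa (Or.inl hx)
    · exact pj_ne h.xc (Or.inl hx)
    · exact pj_ne h.ya (Or.inl hy)
    · exact pj_ne h.yc (Or.inl hy)
  -- the weights
  let q : ℝ := ∑ v ∈ Finset.univ.filter (fun v => v ∈ X), w v
  let w1 : Option {v // v ∉ X} → ℝ := fun o => o.elim 0 (fun v => w v.1)
  let w2 : Option {v // v ∉ Xᶜ} → ℝ := fun o => o.elim 0 (fun v => w v.1)
  have hq0 : 0 ≤ q := Finset.sum_nonneg fun v _ => hw v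
  have hsplit : q + ∑ v ∈ Finset.univ.filter (fun v => v ∉ X), w v = ∑ v, w v :=
    Finset.sum_filter_add_sum_filter_not Finset.univ (fun v => v ∈ X) w
  have hw1s : ∑ o, w1 o = ∑ v ∈ Finset.univ.filter (fun v => v ∉ X), w v := by
    rw [Fintype.sum_option]
    have h1 : ∑ v : {v // v ∉ X}, w1 (some v) = ∑ v ∈ Finset.univ.filter (fun v => v ∉ X), w v := by
      rw [Finset.sum_subtype (p := fun v => v ∉ X) (Finset.univ.filter (fun v => v ∉ X))
        (by simp) w]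
      rfl
    rw [h1]
    show 0 + _ = _
    ring
  have hw1s' : ∑ o, w1 o = (∑ v, w v) - q := by rw [hw1s]; linarith
  have hw2s : ∑ o, w2 o = q := by
    rw [Fintype.sum_option]
    have h1 : ∑ v : {v // v ∉ Xᶜ}, w2 (some v) = ∑ v ∈ Finset.univ.filter (fun v => v ∉ Xᶜ), w v := by
      rw [Finset.sum_subtype (p := fun v => v ∉ Xᶜ) (Finset.univ.filter (fun v => v ∉ Xᶜ))
        (by simp) w]
      rfl
    rw [h1]
    have h2 : (Finset.univ.filter (fun v => v ∉ Xᶜ)) = Finset.univ.filter (fun v => v ∈ X) := by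
      ext v; simp
    rw [h2]
    show 0 + q = q
    ring
  have hw1n : ∀ o, 0 ≤ w1 o := by
    rintro (_ | v)
    · exact le_rfl
    · exact hw v.1
  have hw2n : ∀ o, 0 ≤ w2 o := by
    rintro (_ | v)
    · exact le_rfl
    · exact hw v.1
  have hval : ∀ v, v ∉ X → w1 (pj X v) = w v := by
    intro v hvX
    rw [pj_not_mem hvX]
    rfl
  have hcard1 : Fintype.card (Option {v // v ∉ X}) ≤ n := by
    have h1 := contr_card (X := X) hX.1
    rw [Nat.card_eq_fintype_card, Nat.card_eq_fintype_card] at h1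
    omega
  have hcard2 : Fintype.card (Option {v // v ∉ Xᶜ}) ≤ n := by
    have h1 := contr_card (X := Xᶜ) hX.2.1
    rw [Nat.card_eq_fintype_card, Nat.card_eq_fintype_card] at h1
    omega
  have h1 : (K.contr X e he).Gd (some ⟨v0, hv⟩) i0 w1 (Tf m (∑ o, w1 o)) := by
    refine ih' _ _ hC3 hcard1 _ _ _ _ _ _ _ _ _ hT w1 m hw1n hw0 ?_ ?_ hm
      (hmc.trans (hval c hc).ge) (hmx.trans (hval x hx).ge) (hmy.trans (hval y hy).ge)
    · rw [pj_mem ha]; rfl
    · rw [hval b hb]; exact hwb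
  have h2 : ∀ k, (K.contr Xᶜ (fun k => K.e (e k)) he.compl).Gd none k w2 (q ^ ((4 : ℝ) / 5)) := by
    intro k
    have := ih _ _ (contr_conn3 hK he.compl hXcne) hcard2 none k w2 hw2n rfl
    rwa [hw2s] at this
  have hj : ∃ j, j ≠ i0 ∧ (K.e (v0, j)).1 ∈ X := by
    obtain ⟨j, hj⟩ := h.n0.ap
    refine ⟨j, ?_, by rw [hj]; exact ha⟩
    rintro rfl
    exact h.n0.pr (hj.symm.trans h.hi)
  have key2 := gd_contr' he hv i0 w w1 w2 (fun _ => rfl) (fun _ => rfl) rfl _ _ rfl hj h1 h2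
  rw [hw1s'] at key2
  refine key2.mono ?_
  have h3 : 3 * m ≤ (∑ v, w v) - q := by
    rw [← hw1s', hw1s]
    have hcx : c ≠ x := fun hh => h.xc hh.symm
    have hcy : c ≠ y := fun hh => h.yc hh.symm
    have hs : w c + (w x + w y) = ∑ v ∈ ({c, x, y} : Finset V), w v := by
      rw [Finset.sum_insert (by simp [hcx, hcy]), Finset.sum_pair h.nb.qr]
    have hle : ∑ v ∈ ({c, x, y} : Finset V), w v
        ≤ ∑ v ∈ Finset.univ.filter (fun v => v ∉ X), w v := by
      refine Finset.sum_le_sum_of_subset_of_nonneg ?_ fun v _ _ => hw v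
      intro v hv'
      simp only [Finset.mem_insert, Finset.mem_singleton] at hv'
      simp only [Finset.mem_filter, Finset.mem_univ, true_and]
      rcases hv' with rfl | rfl | rfl
      exacts [hc, hx, hy]
    linarith
  have h4 := Tf_A3 hm hq0 h3
  linarith

end B306C
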