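import Pool.Agent.Lib_MP_b306af.CN2
import Pool.Agent.Lib_MP_b306af.CM0
import Pool.Agent.Lib_MP_b306af.CC3
import Pool.Agent.Lib_MP_b306af.CC7

/-!
# MP_b306af, PART I: the two-step theorem, cut avoiding a and b
-/

namespace B306C

open Classical

open Cub

/-- `X` is a nontrivial 3-cut of maximal size avoiding `v0`, `a`, `b`.
Not both of `x, y` are in `X` (`mv2'` at `b`).  `c` and `x` are not both in `X`: otherwise
`derived_cut` (with `z = b`, `u = c`, `o = a`, `t = x`, `t' = y`, `a ≠ y`) gives a nontrivial 3-cut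
avoiding `v0` and disjoint from `X`, but both contain `p` by `h.hQ`.  In the same way `c` and `y`
are not both in `X`.
`K / X` has no nontrivial 3-cut (`contr_c4`), so `TTH` holds for `K / X` with
`pj X a, pj X b, pj X c, pj X x, pj X y` (`contr_nb`, `contr_fst`; different because at most
one of `c, x, y` is in `X`; `hQ` is void).
`PTT n` for `K / X` with `w1 none = ∑ v ∈ X, w v`, `w1 (some v) = w v`; the total weight is `∑ w`;
if one of `c, x, y` is in `X` its weight is at most `w1 none`.  `PTI n` for `K / Xᶜ`.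
`gd_contr`. -/
theorem tt_cut_ab {n : ℕ} (ih : PTI n) (ih' : PTT n) {V : Type} [Fintype V]
    (K : Cub V) (hK : K.Conn3) (hn : Fintype.card V ≤ n + 1)
    (v0 : V) (i0 : Fin 3) (a b c x y p z : V) (h : K.TTH v0 i0 a b c x y p z)
    (w : V → ℝ) (m : ℝ) (hw : ∀ v, 0 ≤ w v) (hw0 : w v0 = 0) (hwa : w a = 0) (hwb : w b = 0)
    (hm : 0 ≤ m) (hmc : m ≤ w c) (hmx : m ≤ w x) (hmy : m ≤ w y)
    {X : Set V} (hX : K.Cut X) (hv : v0 ∉ X)
    (hmax : ∀ Z : Set V, K.Cut Z → v0 ∉ Z → Z.ncard ≤ X.ncard) (ha : a ∉ X) (hb : b ∉ X) :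
    K.Gd v0 i0 w (Tf m (∑ v, w v)) := by
  have hxy : ¬ (x ∈ X ∧ y ∈ X) := fun ⟨h1, h2⟩ =>
    h.nb.qr (mv2' K hK hX hb h.nb.aq h.nb.ar h1 h2)
  have key : ∀ t t' : V, K.Nb b v0 t t' → a ≠ t' → c ∈ X → t ∈ X → False := by
    intro t t' nz hat hc ht
    have n0' : K.Nb v0 b c a := h.n0.swap12.swap23
    have hcut := derived_cut hK hX n0' nz hv hb hc ht hat
    have h1 : v0 ∉ (X ∪ {v0, b})ᶜ := by simp
    have h2 := (h.hQ _ hcut h1).2
    have h3 := (h.hQ X hX hv).2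
    exact h2 (Or.inl h3)
  have hcx : ¬ (c ∈ X ∧ x ∈ X) := fun ⟨h1, h2⟩ => key x y h.nb (fun hh => h.ya hh.symm) h1 h2
  have hcy : ¬ (c ∈ X ∧ y ∈ X) := fun ⟨h1, h2⟩ =>
    key y x h.nb.swap23 (fun hh => h.xa hh.symm) h1 h2
  obtain ⟨e, he⟩ := exists_enum K hX.2.2
  have hXne : X.Nonempty := by
    apply Set.nonempty_of_ncard_ne_zero
    have := hX.1
    omega
  have hXcne : Xᶜ.Nonempty := ⟨v0, hv⟩
  have hC3 := contr_conn3 hK he hXne
  have hC4 := contr_c4 he hX hv hmax (fun Z h1 h2 => (h.hQ Z h1 h2).2)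
  have hv0n : v0 ≠ a ∧ v0 ≠ b ∧ v0 ≠ c := h.n0.ne
  have hbn : b ≠ v0 ∧ b ≠ x ∧ b ≠ y := h.nb.ne
  -- neighbours of `v0` in `K`
  have hv0x : v0 ≠ x := h.nb.pq
  have hv0y : v0 ≠ y := h.nb.pr
  have e0 : pj X v0 = some ⟨v0, hv⟩ := pj_not_mem hv
  have hT : (K.contr X e he).TTH (some ⟨v0, hv⟩) i0 (pj X a) (pj X b) (pj X c) (pj X x) (pj X y)
      (pj X a) (pj X a) := by
    refine ⟨?_, ?_, ?_, ?_, ?_, ?_, ?_, Or.inl rfl, fun Z hZ => absurd hZ (hC4 Z)⟩
    · rw [contr_fst, h.hi]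
    · have := contr_nb he hv h.n0 (pj_ne h.n0.pq (Or.inl ha)) (pj_ne h.n0.pr (Or.inl ha))
        (pj_ne h.n0.qr (Or.inl hb))
      rwa [e0] at this
    · have := contr_nb he hb h.nb (pj_ne h.nb.pq (Or.inl hv)) (pj_ne h.nb.pr (Or.inl hv))
        (pj_ne h.nb.qr (by tauto))
      rwa [e0] at this
    · exact pj_ne h.xa (Or.inr ha)
    · exact pj_ne h.xc (by tauto)
    · exact pj_ne h.ya (Or.inr ha)
    · exact pj_ne h.yc (by tauto)
  -- the weights
  let q : ℝ := ∑ v ∈ Finset.univ.filter (fun v => v ∈ X), w v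
  let w1 : Option {v // v ∉ X} → ℝ := fun o => o.elim q (fun v => w v.1)
  let w2 : Option {v // v ∉ Xᶜ} → ℝ := fun o => o.elim 0 (fun v => w v.1)
  have hq0 : 0 ≤ q := Finset.sum_nonneg fun v _ => hw v
  have hw1s : ∑ o, w1 o = ∑ v, w v := by
    rw [Fintype.sum_option]
    have h1 : ∑ v : {v // v ∉ X}, w1 (some v) = ∑ v ∈ Finset.univ.filter (fun v => v ∉ X), w v := by
      rw [Finset.sum_subtype (p := fun v => v ∉ X) (Finset.univ.filter (fun v => v ∉ X))
        (by simp) w]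
      rfl
    rw [h1]
    exact Finset.sum_filter_add_sum_filter_not Finset.univ (fun v => v ∈ X) w
  have hw2s : ∑ o, w2 o = q := by
    rw [Fintype.sum_option]
    have h1 : ∑ v : {v // v ∉ Xᶜ}, w2 (some v) = ∑ v ∈ Finset.univ.filter (fun v => v ∉ Xᶜ), w v := by
      rw [Finset.sum_subtype (p := fun v => v ∉ Xᶜ) (Finset.univ.filter (fun v => v ∉ Xᶜ))
        (by simp) w]
      rfl
    rw [h1]
    have h2 : (Finset.univ.filter (fun v => v ∉ Xᶜ)) = Finset.univ.filter (fun v => v ∈ X) := by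
      ext v; simp
    rw [h2]
    show 0 + q = q
    ring
  have hw1n : ∀ o, 0 ≤ w1 o := by
    rintro (_ | v)
    · exact hq0
    · exact hw v.1
  have hw2n : ∀ o, 0 ≤ w2 o := by
    rintro (_ | v)
    · exact le_rfl
    · exact hw v.1
  have hle : ∀ v, w v ≤ w1 (pj X v) := by
    intro v
    by_cases hvX : v ∈ X
    · rw [pj_mem hvX]
      exact Finset.single_le_sum (f := w) (fun u _ => hw u) (by simpa using hvX)
    · rw [pj_not_mem hvX]
      exact le_rfl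
  have hcard1 : Fintype.card (Option {v // v ∉ X}) ≤ n := by
    have h1 := contr_card (X := X) hX.1
    rw [Nat.card_eq_fintype_card, Nat.card_eq_fintype_card] at h1
    omega
  have hcard2 : Fintype.card (Option {v // v ∉ Xᶜ}) ≤ n := by
    have h1 := contr_card (X := Xᶜ) hX.2.1
    rw [Nat.card_eq_fintype_card, Nat.card_eq_fintype_card] at h1
    omega
  have h1 : (K.contr X e he).Gd (some ⟨v0, hv⟩) i0 w1 (Tf m (∑ o, w1 o)) := by
    refine ih' _ _ hC3 hcard1 _ _ _ _ _ _ _ _ _ hT w1 m hw1n hw0 ?_ ?_ hm (hmc.trans (hle c))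
      (hmx.trans (hle x)) (hmy.trans (hle y))
    · rw [pj_not_mem ha]; exact hwa
    · rw [pj_not_mem hb]; exact hwb
  have h2 : ∀ k, (K.contr Xᶜ (fun k => K.e (e k)) he.compl).Gd none k w2 (q ^ ((4 : ℝ) / 5)) := by
    intro k
    have := ih _ _ (contr_conn3 hK he.compl hXcne) hcard2 none k w2 hw2n rfl
    rwa [hw2s] at this
  have := gd_contr he hv i0 w w1 w2 (fun _ => rfl) (fun _ => rfl) rfl _ _ le_rfl h1 h2
  rwa [hw1s] at this

end B306C
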