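import Pool.Agent.Lib_MP_b306af.CM3
import Pool.Agent.Lib_MP_b306af.CM4
import Pool.Agent.Lib_MP_b306af.CM8
import Pool.Agent.Lib_MP_b306af.CM9
import Pool.Agent.Lib_MP_b306af.CN1
import Pool.Agent.Lib_MP_b306af.CN3
import Pool.Agent.Lib_MP_b306af.CN4

/-!
# MP_b306af, PART I: Theorem I
-/

namespace B306C

open Classical

open Cub

/-- subadditivity over a finite sum -/
theorem fin_pw_sum {V : Type} (s : Finset V) (w : V → ℝ) (hw : ∀ v, 0 ≤ w v) :
    (∑ v ∈ s, w v) ^ ((4 : ℝ) / 5) ≤ ∑ v ∈ s, (w v) ^ ((4 : ℝ) / 5) := by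
  induction s using Finset.induction_on with
  | empty =>
      simp only [Finset.sum_empty]
      rw [Real.zero_rpow (by norm_num)]
  | insert a s ha ih =>
      rw [Finset.sum_insert ha, Finset.sum_insert ha]
      refine (pw_add (hw a) (Finset.sum_nonneg fun v _ => hw v)).trans ?_
      linarith

/-- Induction on `n`: `PTI n ∧ PTT n`.
`PTI (n+1)`: `Fintype.card V ≤ 4`: `theta_reach` or `k4_reach` with all vertices, and subadditivity
over the finite sum; otherwise `ti_c4` or `ti_cut`.
`PTT (n+1)`: `TTH` needs six different vertices `v0, a, b, c, x, y`, so `5 ≤ Fintype.card V`.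
If `C4`: `tt_c4`.  Otherwise there is a nontrivial 3-cut avoiding `v0` (`Cut.compl`); take one of
maximal size: `tt_cut_b`, `tt_cut_a` or `tt_cut_ab`. -/
theorem main_ind (n : ℕ) : PTI n ∧ PTT n := by
  induction n with
  | zero =>
      constructor
      · intro V _ K hK hn v0
        exact absurd hn (by have := Fintype.card_pos_iff.2 ⟨v0⟩; omega)
      · intro V _ K hK hn v0
        exact absurd hn (by have := Fintype.card_pos_iff.2 ⟨v0⟩; omega)
  | succ n ih =>
      obtain ⟨ih1, ih2⟩ := ih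
      constructor
      · intro V _ K hK hn v0 i0 w hw hw0
        have small : K.Reach v0 i0 Set.univ → K.Gd v0 i0 w ((∑ v, w v) ^ ((4 : ℝ) / 5)) := by
          intro h
          refine ⟨Finset.univ, by simpa using h, ?_⟩
          exact fin_pw_sum Finset.univ w hw
        rcases Nat.lt_or_ge 4 (Fintype.card V) with h5 | h5
        · by_cases h4 : K.C4
          · exact ti_c4 ih1 ih2 K hK hn h4 h5 v0 i0 w hw hw0
          · unfold C4 at h4
            push Not at h4
            obtain ⟨X, hX⟩ := h4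
            exact ti_cut ih1 K hK hn hX v0 i0 w hw hw0
        · rcases Nat.lt_or_ge 2 (Fintype.card V) with h3 | h3
          · apply small
            exact k4_reach (sim_of_conn3 K hK (by rw [Nat.card_eq_fintype_card]; exact h3))
              (by rw [Nat.card_eq_fintype_card]; exact h5) v0 i0
          · apply small
            exact theta_reach (by rw [Nat.card_eq_fintype_card]; exact h3) v0 i0
      · intro V _ K hK hn v0 i0 a b c x y p z h w m hw hw0 hwa hwb hm hmc hmx hmy
        by_cases h4 : K.C4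
        · exact tt_c4 ih1 ih2 s3_all K hK hn h4 v0 i0 a b c x y p z h w m hw hw0 hwa hwb hm
            hmc hmx hmy
        · unfold C4 at h4
          push Not at h4
          obtain ⟨X0, hX0⟩ := h4
          have hex : ∃ X, K.Cut X ∧ v0 ∉ X := by
            by_cases hv : v0 ∈ X0
            · exact ⟨X0ᶜ, hX0.compl, fun hc => hc hv⟩
            · exact ⟨X0, hX0, hv⟩
          have hfin : {X : Set V | K.Cut X ∧ v0 ∉ X}.Finite := Set.toFinite _
          obtain ⟨X, hX, hXmax⟩ := Set.exists_max_image {X : Set V | K.Cut X ∧ v0 ∉ X}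
            (fun X => X.ncard) hfin hex
          obtain ⟨hX1, hv⟩ := hX
          have hmax : ∀ Z : Set V, K.Cut Z → v0 ∉ Z → Z.ncard ≤ X.ncard :=
            fun Z hZ hvZ => hXmax Z ⟨hZ, hvZ⟩
          by_cases hb : b ∈ X
          · exact tt_cut_b ih1 s3_all K hK hn v0 i0 a b c x y p z h w m hw hw0 hwa hwb hm
              hmc hmx hmy hX1 hv hb
          · by_cases ha : a ∈ X
            · exact tt_cut_a ih1 ih2 K hK hn v0 i0 a b c x y p z h w m hw hw0 hwa hwb hm
                hmc hmx hmy hX1 hv hmax ha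
            · exact tt_cut_ab ih1 ih2 K hK hn v0 i0 a b c x y p z h w m hw hw0 hwa hwb hm
                hmc hmx hmy hX1 hv hmax ha hb

/-- **Theorem I.**  In a 3-edge-connected cubic multigraph with nonnegative vertex weights, some
cycle through the root vertex `v0` missing its port `i0` visits other vertices `v` with
`∑ (w v) ^ (4/5) ≥ (∑ w v) ^ (4/5)`.  `main_ind` with the weight of `v0` set to `0`. -/
theorem theorem_I {V : Type} [Fintype V] (K : Cub V) (hK : K.Conn3) (v0 : V) (i0 : Fin 3)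
    (w : V → ℝ) (hw : ∀ v, 0 ≤ w v) :
    ∃ C, K.IsCycle C ∧ (∀ j, (v0, j) ∈ C ↔ j ≠ i0) ∧
      (∑ v ∈ Finset.univ.filter (fun v => v ≠ v0), w v) ^ ((4 : ℝ) / 5) ≤
        ∑ v ∈ Finset.univ.filter (fun v => v ≠ v0 ∧ ∃ i, (v, i) ∈ C), (w v) ^ ((4 : ℝ) / 5) := by
  obtain ⟨S, ⟨C, hC1, hC2, hC3⟩, hS⟩ := (main_ind (Fintype.card V)).1 V K hK le_rfl v0 i0
    (fun v => if v = v0 then 0 else w v)
    (by intro v; split_ifs; exacts [le_rfl, hw v]) (by simp)
  refine ⟨C, hC1, hC2, ?_⟩
  have e1 : ∑ v ∈ Finset.univ.filter (fun v => v ≠ v0), w v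
      = ∑ v, (if v = v0 then 0 else w v) := by
    rw [Finset.sum_filter]
    apply Finset.sum_congr rfl
    intro v _
    by_cases h : v = v0 <;> simp [h]
  rw [e1]
  refine hS.trans ?_
  rw [Finset.sum_filter]
  have e2 : ∑ v ∈ S, (if v = v0 then 0 else w v) ^ ((4 : ℝ) / 5)
      ≤ ∑ v ∈ S, (if v ≠ v0 ∧ ∃ i, (v, i) ∈ C then (w v) ^ ((4 : ℝ) / 5) else 0) := by
    apply Finset.sum_le_sum
    intro v hv
    by_cases h : v = v0
    · rw [if_pos h, if_neg (by simp [h]), Real.zero_rpow (by norm_num)]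
    · rw [if_neg h, if_pos ⟨h, hC3 v hv⟩]
  refine e2.trans ?_
  apply Finset.sum_le_sum_of_subset_of_nonneg (Finset.subset_univ S)
  intro v _ _
  split_ifs
  · exact Real.rpow_nonneg (hw v) _
  · exact le_rfl

end B306C
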