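import Pool.Agent.Lib_MP_b306af.CubDefs
import Pool.Agent.Lib_MP_b306af.CFin

/-!
# MP_b306af, PART I: Theorem I in the form used in Part III
-/

namespace B306C

open Classical

/-- translation of the structure -/
def ofP1 {V : Type} (K : P1.Cub V) : Cub V := ⟨K.e, K.inv, K.ne⟩

theorem deg_iff (S : Set (Fin 3)) :
    (S.ncard = 0 ∨ S.ncard = 2) ↔ ((∀ i, i ∉ S) ∨ ∃ i, ∀ j, j ∈ S ↔ j ≠ i) := by
  constructor
  · rintro (h | h)
    · left
      intro i hi
      rw [Set.ncard_eq_zero (Set.toFinite S)] at h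
      rw [h] at hi
      exact hi
    · right
      have h1 : (Sᶜ).ncard = 1 := by
        have := Set.ncard_add_ncard_compl S
        rw [Nat.card_eq_fintype_card, Fintype.card_fin] at this
        omega
      obtain ⟨i, hi⟩ := Set.ncard_eq_one.1 h1
      refine ⟨i, fun j => ?_⟩
      have : j ∈ Sᶜ ↔ j = i := by rw [hi]; simp
      simp only [Set.mem_compl_iff] at this
      tauto
  · rintro (h | ⟨i, h⟩)
    · left
      rw [Set.ncard_eq_zero (Set.toFinite S)]
      exact Set.eq_empty_iff_forall_notMem.2 h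
    · right
      have h1 : Sᶜ = {i} := by
        ext j
        simp only [Set.mem_compl_iff, Set.mem_singleton_iff, h j]
        tauto
      have := Set.ncard_add_ncard_compl S
      rw [Nat.card_eq_fintype_card, Fintype.card_fin, h1, Set.ncard_singleton] at this
      omega

theorem even_iff {V : Type} (K : P1.Cub V) (C : Set (V × Fin 3)) :
    K.Even C ↔ (ofP1 K).Even C := by
  constructor
  · intro h
    exact ⟨h.closed, fun v => (deg_iff {i | (v, i) ∈ C}).1 (h.deg v)⟩
  · intro h
    exact ⟨h.mem, fun v => (deg_iff {i | (v, i) ∈ C}).2 (h.deg v)⟩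

theorem thmI : P1.ThmI := by
  intro V _ K hK v0 i0 w hw
  obtain ⟨C, h1, h2, h3⟩ := theorem_I (ofP1 K) hK v0 i0 w hw
  refine ⟨C, ⟨(even_iff K C).2 h1.even, h1.nonempty, fun C' hs hn he =>
    h1.min C' hs ((even_iff K C').1 he) hn⟩, ?_, ?_, ?_⟩
  · intro h
    exact (h2 i0).1 h rfl
  · intro j hj
    exact (h2 j).2 hj
  · have e1 : Finset.univ.erase v0 = Finset.univ.filter (fun v => v ≠ v0) := by
      ext v; simp
    have e2 : (Finset.univ.filter (fun v => v ≠ v0)).filter (fun v => ∃ i, (v, i) ∈ C)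
        = Finset.univ.filter (fun v => v ≠ v0 ∧ ∃ i, (v, i) ∈ C) := by
      ext v; simp
    rw [e1, e2]
    exact h3

end B306C
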