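import Pool.Agent.Lib_MP_b306af.CBase

/-!
# MP_b306af, PART I: contraction, adjacency
-/

namespace B306C

open Classical

namespace Cub

variable {V : Type}

/-- the projection `V → V / X` -/
noncomputable def pj (X : Set V) (v : V) : Option {v // v ∉ X} :=
  if h : v ∈ X then none else some ⟨v, h⟩

theorem pj_mem {X : Set V} {v : V} (h : v ∈ X) : pj X v = none := dif_pos h

theorem pj_not_mem {X : Set V} {v : V} (h : v ∉ X) : pj X v = some ⟨v, h⟩ := dif_neg h

theorem pj_ne {X : Set V} {u v : V} (h : u ≠ v) (h' : u ∉ X ∨ v ∉ X) : pj X u ≠ pj X v := by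
  by_cases hu : u ∈ X
  · have hv : v ∉ X := by tauto
    rw [pj_mem hu, pj_not_mem hv]; simp
  · by_cases hv : v ∈ X
    · rw [pj_mem hv, pj_not_mem hu]; simp
    · rw [pj_not_mem hu, pj_not_mem hv]
      simpa using h

/-- `K / X` in terms of the projection: ports outside `X` -/
theorem contr_fst {K : Cub V} {X : Set V} {b : Fin 3 → V × Fin 3} (hb : K.Enum X b)
    (v : {v // v ∉ X}) (i : Fin 3) :
    ((K.contr X b hb).e (some v, i)).1 = pj X (K.e (v.1, i)).1 := by
  by_cases h : (K.e (v.1, i)).1 ∈ X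
  · rw [pj_mem h]
    simp only [contr, dif_pos h]
  · rw [pj_not_mem h]
    simp only [contr, dif_neg h]

/-- `K / X` in terms of the projection: ports of the new vertex -/
theorem contr_fst_none {K : Cub V} {X : Set V} {b : Fin 3 → V × Fin 3} (hb : K.Enum X b)
    (k : Fin 3) : ((K.contr X b hb).e (none, k)).1 = pj X (K.e (b k)).1 := by
  rw [pj_not_mem ((hb.rng (b k)).1 ⟨k, rfl⟩).2]
  rfl

theorem contr_adj {K : Cub V} {X : Set V} {b : Fin 3 → V × Fin 3} (hb : K.Enum X b)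
    {v u : V} (hv : v ∉ X) (h : K.Adj v u) : (K.contr X b hb).Adj (pj X v) (pj X u) := by
  obtain ⟨i, rfl⟩ := h
  rw [pj_not_mem hv]
  exact ⟨i, contr_fst hb ⟨v, hv⟩ i⟩

theorem contr_nb {K : Cub V} {X : Set V} {b : Fin 3 → V × Fin 3} (hb : K.Enum X b)
    {v p q r : V} (hv : v ∉ X) (h : K.Nb v p q r) (h1 : pj X p ≠ pj X q) (h2 : pj X p ≠ pj X r)
    (h3 : pj X q ≠ pj X r) : (K.contr X b hb).Nb (pj X v) (pj X p) (pj X q) (pj X r) :=
  ⟨h1, h2, h3, contr_adj hb hv h.ap, contr_adj hb hv h.aq, contr_adj hb hv h.ar⟩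

end Cub

end B306C
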