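import Pool.Agent.Lib_MP_b306af.CC1

/-!
# MP_b306af, PART I: contraction, restriction of even sets
-/

namespace B306C

open Classical

namespace Cub

variable {V : Type}

private theorem cc4_fin (s : Finset (Fin 3)) (hs : _root_.Even s.card) :
    (∀ i, i ∉ s) ∨ ∃ i, ∀ j, j ∈ s ↔ j ≠ i := by
  revert s
  decide

private theorem cc4_e_in {K : Cub V} {X : Set V} {b : Fin 3 → V × Fin 3}
    (hb : K.Enum X b) (v : {v // v ∉ X}) (i : Fin 3) (h : (K.e (v.1, i)).1 ∈ X) :
    (K.contr X b hb).e (some v, i) = (none, idx b (K.e (v.1, i))) := dif_pos h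

private theorem cc4_e_out {K : Cub V} {X : Set V} {b : Fin 3 → V × Fin 3}
    (hb : K.Enum X b) (v : {v // v ∉ X}) (i : Fin 3) (h : (K.e (v.1, i)).1 ∉ X) :
    (K.contr X b hb).e (some v, i) = (some ⟨(K.e (v.1, i)).1, h⟩, (K.e (v.1, i)).2) := dif_neg h

/-- Restriction of an even set of `K` to `K / X`.  The degree at `none` is the number of boundary
ports of `X` in `D`, which is even (`Even.even_bd`) and at most `3`, so `0` or `2`. -/
theorem contr_restr [Finite V] {K : Cub V} {X : Set V} {b : Fin 3 → V × Fin 3}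
    (hb : K.Enum X b) {D : Set (V × Fin 3)} (hD : K.Even D) :
    (K.contr X b hb).Even
      {d | (∃ v, d.1 = some v ∧ (v.1, d.2) ∈ D) ∨ (d.1 = none ∧ b d.2 ∈ D)} := by
  constructor
  · rintro ⟨_ | v, i⟩ hd
    · rcases hd with ⟨v, hv, -⟩ | ⟨-, hk⟩
      · exact absurd hv (by simp)
      · left
        exact ⟨_, rfl, hD.mem _ hk⟩
    · have hvi : (v.1, i) ∈ D := by
        rcases hd with ⟨w, hw, hwD⟩ | ⟨h, -⟩
        · have h1 : v = w := Option.some.inj hw
          rw [h1]
          exact hwD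
        · exact absurd h (by simp)
      by_cases h : (K.e (v.1, i)).1 ∈ X
      · rw [cc4_e_in hb v i h]
        right
        refine ⟨rfl, ?_⟩
        have h2 : K.e (v.1, i) ∈ K.bd X := ⟨h, by rw [K.inv]; exact v.2⟩
        show b (idx b (K.e (v.1, i))) ∈ D
        rw [idx_spec ((hb.rng _).2 h2)]
        exact hD.mem _ hvi
      · rw [cc4_e_out hb v i h]
        left
        exact ⟨_, rfl, hD.mem _ hvi⟩
  · rintro (_ | v)
    · have hmem : ∀ k, ((none, k) : Option {v // v ∉ X} × Fin 3) ∈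
          {d : Option {v // v ∉ X} × Fin 3 |
            (∃ v, d.1 = some v ∧ (v.1, d.2) ∈ D) ∨ (d.1 = none ∧ b d.2 ∈ D)} ↔ b k ∈ D := by
        intro k
        constructor
        · rintro (⟨v, hv, -⟩ | ⟨-, hk⟩)
          · exact absurd hv (by simp)
          · exact hk
        · intro hk
          exact Or.inr ⟨rfl, hk⟩
      simp only [hmem]
      have h1 : D ∩ K.bd X = b '' {k | b k ∈ D} := by
        ext d
        constructor
        · rintro ⟨h1, h2⟩
          obtain ⟨k, rfl⟩ := (hb.rng d).2 h2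
          exact ⟨k, h1, rfl⟩
        · rintro ⟨k, hk, rfl⟩
          exact ⟨hk, (hb.rng _).1 ⟨k, rfl⟩⟩
      have h2 := hD.even_bd X
      rw [h1, Set.ncard_image_of_injective _ hb.inj] at h2
      have h3 : {k | b k ∈ D} = ((Finset.univ.filter fun k => b k ∈ D : Finset (Fin 3)) :
          Set (Fin 3)) := by
        ext k
        simp
      rw [h3, Set.ncard_coe_finset] at h2
      rcases cc4_fin _ h2 with h4 | ⟨i, hi⟩
      · left
        intro k hk
        exact h4 k (by simp [hk])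
      · right
        refine ⟨i, fun j => ?_⟩
        rw [← hi j]
        simp
    · have hmem : ∀ i, ((some v, i) : Option {v // v ∉ X} × Fin 3) ∈
          {d : Option {v // v ∉ X} × Fin 3 |
            (∃ v, d.1 = some v ∧ (v.1, d.2) ∈ D) ∨ (d.1 = none ∧ b d.2 ∈ D)} ↔ (v.1, i) ∈ D := by
        intro i
        constructor
        · rintro (⟨w, hw, hwD⟩ | ⟨h, -⟩)
          · have h1 : v = w := Option.some.inj hw
            rw [h1]
            exact hwD
          · exact absurd h (by simp)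
        · intro h
          exact Or.inl ⟨v, rfl, h⟩
      simp only [hmem]
      exact hD.deg v.1

/-- A cycle of `K / X` not visiting `none` is a cycle of `K`.  Minimality: `contr_restr`. -/
theorem contr_lift [Finite V] {K : Cub V} {X : Set V} {b : Fin 3 → V × Fin 3}
    (hb : K.Enum X b) {C : Set (Option {v // v ∉ X} × Fin 3)} (hC : (K.contr X b hb).IsCycle C)
    (hn : ∀ k, (none, k) ∉ C) :
    K.IsCycle {d | ∃ h : d.1 ∉ X, (some ⟨d.1, h⟩, d.2) ∈ C} := by
  refine ⟨⟨?_, ?_⟩, ?_, ?_⟩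
  · rintro d ⟨h, hd⟩
    have h1 := hC.even.mem _ hd
    by_cases h2 : (K.e d).1 ∈ X
    · rw [cc4_e_in hb ⟨d.1, h⟩ d.2 h2] at h1
      exact absurd h1 (hn _)
    · rw [cc4_e_out hb ⟨d.1, h⟩ d.2 h2] at h1
      exact ⟨h2, h1⟩
  · intro v
    by_cases hv : v ∈ X
    · left
      rintro i ⟨h, -⟩
      exact h hv
    · have hmem : ∀ i, (v, i) ∈ {d : V × Fin 3 | ∃ h : d.1 ∉ X, (some ⟨d.1, h⟩, d.2) ∈ C} ↔
          ((some ⟨v, hv⟩, i) : Option {v // v ∉ X} × Fin 3) ∈ C := by
        intro i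
        constructor
        · rintro ⟨h, hd⟩
          exact hd
        · intro hd
          exact ⟨hv, hd⟩
      simp only [hmem]
      exact hC.even.deg _
  · obtain ⟨⟨o, i⟩, hd⟩ := hC.nonempty
    cases o with
    | none => exact absurd hd (hn i)
    | some v => exact ⟨(v.1, i), v.2, hd⟩
  · intro C' hC' hE hne
    have hD := contr_restr hb hE
    have hsub : {d : Option {v // v ∉ X} × Fin 3 |
        (∃ v, d.1 = some v ∧ (v.1, d.2) ∈ C') ∨ (d.1 = none ∧ b d.2 ∈ C')} ⊆ C := by
      rintro ⟨o, i⟩ hd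
      rcases hd with ⟨v, hv, hvC⟩ | ⟨-, hk⟩
      · obtain ⟨h, hd⟩ := hC' hvC
        have hv' : o = some v := hv
        rw [hv']
        exact hd
      · obtain ⟨h, -⟩ := hC' hk
        exact absurd ((hb.rng _).1 ⟨i, rfl⟩).1 h
    have hne' : {d : Option {v // v ∉ X} × Fin 3 |
        (∃ v, d.1 = some v ∧ (v.1, d.2) ∈ C') ∨ (d.1 = none ∧ b d.2 ∈ C')}.Nonempty := by
      obtain ⟨d, hd⟩ := hne
      obtain ⟨h, -⟩ := hC' hd
      exact ⟨(some ⟨d.1, h⟩, d.2), Or.inl ⟨_, rfl, hd⟩⟩
    have heq := hC.min _ hsub hD hne'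
    refine Set.Subset.antisymm hC' ?_
    rintro d ⟨h, hd⟩
    rw [← heq] at hd
    rcases hd with ⟨v, hv, hvC⟩ | ⟨h1, -⟩
    · have h1 : (⟨d.1, h⟩ : {v // v ∉ X}) = v := Option.some.inj hv
      rw [← h1] at hvC
      exact hvC
    · exact absurd h1 (by simp)

end Cub

end B306C
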