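import Pool.Agent.Lib_MP_b306af.CC4

/-!
# MP_b306af, PART I: contraction, gluing of cycles
-/

namespace B306C

open Classical

namespace Cub

variable {V : Type}

private theorem cc5_e_some_in {K : Cub V} {X : Set V} {b : Fin 3 → V × Fin 3}
    (hb : K.Enum X b) (d : V × Fin 3) (hd : d.1 ∉ X) (h : (K.e d).1 ∈ X) :
    ∃ l, b l = K.e d ∧ (K.contr X b hb).e (some ⟨d.1, hd⟩, d.2) = (none, l) := by
  have h2 : K.e d ∈ K.bd X := ⟨h, by rw [K.inv]; exact hd⟩
  refine ⟨idx b (K.e d), idx_spec ((hb.rng _).2 h2), ?_⟩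
  show (if h : (K.e (d.1, d.2)).1 ∈ X then ((none : Option {v // v ∉ X}), idx b (K.e (d.1, d.2)))
        else (some ⟨(K.e (d.1, d.2)).1, h⟩, (K.e (d.1, d.2)).2)) = _
  rw [dif_pos h]

private theorem cc5_e_some_out {K : Cub V} {X : Set V} {b : Fin 3 → V × Fin 3}
    (hb : K.Enum X b) (d : V × Fin 3) (hd : d.1 ∉ X) (h : (K.e d).1 ∉ X) :
    (K.contr X b hb).e (some ⟨d.1, hd⟩, d.2) = (some ⟨(K.e d).1, h⟩, (K.e d).2) := by
  show (if h : (K.e (d.1, d.2)).1 ∈ X then ((none : Option {v // v ∉ X}), idx b (K.e (d.1, d.2)))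
        else (some ⟨(K.e (d.1, d.2)).1, h⟩, (K.e (d.1, d.2)).2)) = _
  rw [dif_neg h]

private theorem cc5_e_none {K : Cub V} {X : Set V} {b : Fin 3 → V × Fin 3}
    (hb : K.Enum X b) (l : Fin 3) (d : V × Fin 3) (hd : K.e (b l) = d) (h : d.1 ∉ X) :
    (K.contr X b hb).e (none, l) = (some ⟨d.1, h⟩, d.2) := by
  subst hd
  rfl

/-- Gluing: `C1` a cycle of `K / X`, `C2` a cycle of `K / Xᶜ`, both passing through the new vertex
and missing the same port `k` there.  The union of their ports is a cycle of `K`.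
Closed under `e`: if `v ∉ X`, `K.e (v, i) = b l` then `(none, l) ∈ C1` so `l ≠ k` and
`(none, l) ∈ C2`, so `b l` belongs to the union; similarly for the ports of `X`.
Minimality: `D` an even nonempty subset.  Its restrictions `D1`, `D2` (`contr_restr`) are even
subsets of `C1`, `C2`, so each is empty or everything; `(none, l) ∈ D1 ↔ b l ∈ D ↔ (none, l) ∈ D2`
(`K.e (b l) ∈ D ↔ b l ∈ D`), so both are everything or both are empty. -/
theorem contr_glue [Finite V] {K : Cub V} {X : Set V} {b : Fin 3 → V × Fin 3}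
    (hb : K.Enum X b) {C1 : Set (Option {v // v ∉ X} × Fin 3)}
    {C2 : Set (Option {v // v ∉ Xᶜ} × Fin 3)} (hC1 : (K.contr X b hb).IsCycle C1)
    (hC2 : (K.contr Xᶜ (fun k => K.e (b k)) hb.compl).IsCycle C2) (k : Fin 3)
    (h1 : ∀ l, (none, l) ∈ C1 ↔ l ≠ k) (h2 : ∀ l, (none, l) ∈ C2 ↔ l ≠ k) :
    K.IsCycle {d | (∃ h : d.1 ∉ X, (some ⟨d.1, h⟩, d.2) ∈ C1) ∨
      (∃ h : d.1 ∉ Xᶜ, (some ⟨d.1, h⟩, d.2) ∈ C2)} := by
  have h12 : ∀ l, (none, l) ∈ C1 ↔ (none, l) ∈ C2 := fun l => (h1 l).trans (h2 l).symm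
  obtain ⟨l0, hl0⟩ := exists_ne k
  -- the port `b l` lies in `X`, its partner outside
  have hbX : ∀ l, (b l).1 ∉ Xᶜ := fun l h => h ((hb.rng (b l)).1 ⟨l, rfl⟩).1
  have hbY : ∀ l, (K.e (b l)).1 ∉ X := fun l => ((hb.rng (b l)).1 ⟨l, rfl⟩).2
  have n1 : ∀ l, (none, l) ∈ C1 ↔ (some ⟨(K.e (b l)).1, hbY l⟩, (K.e (b l)).2) ∈ C1 := by
    intro l
    have e1 := cc5_e_none hb l (K.e (b l)) rfl (hbY l)
    constructor
    · intro h
      have := hC1.even.mem _ h
      rwa [e1] at this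
    · intro h
      have := hC1.even.mem _ h
      rwa [← e1, (K.contr X b hb).inv] at this
  have n2 : ∀ l, (none, l) ∈ C2 ↔ (some ⟨(b l).1, hbX l⟩, (b l).2) ∈ C2 := by
    intro l
    have e1 := cc5_e_none hb.compl l (b l) (K.inv _) (hbX l)
    constructor
    · intro h
      have := hC2.even.mem _ h
      rwa [e1] at this
    · intro h
      have := hC2.even.mem _ h
      rwa [← e1, (K.contr Xᶜ (fun k => K.e (b k)) hb.compl).inv] at this
  refine ⟨⟨?_, ?_⟩, ?_, ?_⟩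
  · -- closed under `e`
    rintro d (⟨hd, hdC⟩ | ⟨hd, hdC⟩)
    · by_cases h : (K.e d).1 ∈ X
      · obtain ⟨l, hl, he⟩ := cc5_e_some_in hb d hd h
        have h3 := hC1.even.mem _ hdC
        rw [he] at h3
        have h4 := (n2 l).1 ((h12 l).1 h3)
        refine Or.inr ⟨fun h5 => h5 h, ?_⟩
        simp only [hl] at h4
        exact h4
      · have h3 := hC1.even.mem _ hdC
        rw [cc5_e_some_out hb d hd h] at h3
        exact Or.inl ⟨h, h3⟩
    · by_cases h : (K.e d).1 ∈ Xᶜ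
      · obtain ⟨l, hl, he⟩ := cc5_e_some_in hb.compl d hd h
        have h3 := hC2.even.mem _ hdC
        rw [he] at h3
        have h4 := (n1 l).1 ((h12 l).2 h3)
        refine Or.inl ⟨h, ?_⟩
        have hl' : K.e (b l) = K.e d := hl
        simp only [hl'] at h4
        exact h4
      · have h3 := hC2.even.mem _ hdC
        rw [cc5_e_some_out hb.compl d hd h] at h3
        exact Or.inr ⟨h, h3⟩
  · -- degrees
    intro v
    by_cases hv : v ∈ X
    · have hv' : v ∉ Xᶜ := fun h => h hv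
      have key : ∀ i, (v, i) ∈ {d : V × Fin 3 | (∃ h : d.1 ∉ X, (some ⟨d.1, h⟩, d.2) ∈ C1) ∨
          (∃ h : d.1 ∉ Xᶜ, (some ⟨d.1, h⟩, d.2) ∈ C2)} ↔
          ((some ⟨v, hv'⟩, i) : Option {v // v ∉ Xᶜ} × Fin 3) ∈ C2 := by
        intro i
        constructor
        · rintro (⟨h, -⟩ | ⟨h, h'⟩)
          · exact absurd hv h
          · exact h'
        · intro h
          exact Or.inr ⟨hv', h⟩
      rcases hC2.even.deg (some ⟨v, hv'⟩) with h | ⟨i, h⟩
      · exact Or.inl fun i hi => h i ((key i).1 hi)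
      · exact Or.inr ⟨i, fun j => (key j).trans (h j)⟩
    · have key : ∀ i, (v, i) ∈ {d : V × Fin 3 | (∃ h : d.1 ∉ X, (some ⟨d.1, h⟩, d.2) ∈ C1) ∨
          (∃ h : d.1 ∉ Xᶜ, (some ⟨d.1, h⟩, d.2) ∈ C2)} ↔
          ((some ⟨v, hv⟩, i) : Option {v // v ∉ X} × Fin 3) ∈ C1 := by
        intro i
        constructor
        · rintro (⟨h, h'⟩ | ⟨h, -⟩)
          · exact h'
          · exact absurd hv h
        · intro h
          exact Or.inl ⟨hv, h⟩
      rcases hC1.even.deg (some ⟨v, hv⟩) with h | ⟨i, h⟩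
      · exact Or.inl fun i hi => h i ((key i).1 hi)
      · exact Or.inr ⟨i, fun j => (key j).trans (h j)⟩
  · -- nonempty
    exact ⟨K.e (b l0), Or.inl ⟨hbY l0, (n1 l0).1 ((h1 l0).2 hl0)⟩⟩
  · -- minimality
    intro D hDU hD hDne
    have hDe : ∀ d, K.e d ∈ D ↔ d ∈ D := by
      intro d
      constructor
      · intro h
        have := hD.mem _ h
        rwa [K.inv] at this
      · exact hD.mem d
    have hR1 := contr_restr hb hD
    have hR2 := contr_restr hb.compl hD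
    set D1 : Set (Option {v // v ∉ X} × Fin 3) :=
      {d | (∃ v, d.1 = some v ∧ (v.1, d.2) ∈ D) ∨ (d.1 = none ∧ b d.2 ∈ D)} with hD1
    set D2 : Set (Option {v // v ∉ Xᶜ} × Fin 3) :=
      {d | (∃ v, d.1 = some v ∧ (v.1, d.2) ∈ D) ∨ (d.1 = none ∧ (fun k => K.e (b k)) d.2 ∈ D)}
      with hD2
    have s1 : ∀ (v : {v // v ∉ X}) (i : Fin 3), (some v, i) ∈ D1 ↔ (v.1, i) ∈ D := by
      intro v i
      constructor
      · rintro (⟨w, hw, hw'⟩ | ⟨hw, -⟩)
        · have : v = w := Option.some.inj hw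
          subst this
          exact hw'
        · exact absurd hw (by simp)
      · intro h
        exact Or.inl ⟨v, rfl, h⟩
    have s2 : ∀ (v : {v // v ∉ Xᶜ}) (i : Fin 3), (some v, i) ∈ D2 ↔ (v.1, i) ∈ D := by
      intro v i
      constructor
      · rintro (⟨w, hw, hw'⟩ | ⟨hw, -⟩)
        · have : v = w := Option.some.inj hw
          subst this
          exact hw'
        · exact absurd hw (by simp)
      · intro h
        exact Or.inl ⟨v, rfl, h⟩
    have t1 : ∀ l, (none, l) ∈ D1 ↔ b l ∈ D := by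
      intro l
      constructor
      · rintro (⟨w, hw, -⟩ | ⟨-, hw⟩)
        · exact absurd hw (by simp)
        · exact hw
      · intro h
        exact Or.inr ⟨rfl, h⟩
    have t2 : ∀ l, (none, l) ∈ D2 ↔ b l ∈ D := by
      intro l
      constructor
      · rintro (⟨w, hw, -⟩ | ⟨-, hw⟩)
        · exact absurd hw (by simp)
        · exact (hDe _).1 hw
      · intro h
        exact Or.inr ⟨rfl, (hDe _).2 h⟩
    -- members of the union
    have u1 : ∀ (v : {v // v ∉ X}) (i : Fin 3), (v.1, i) ∈ D → (some v, i) ∈ C1 := by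
      intro v i h
      rcases hDU h with ⟨h3, h4⟩ | ⟨h3, -⟩
      · exact h4
      · exact absurd v.2 h3
    have u2 : ∀ (v : {v // v ∉ Xᶜ}) (i : Fin 3), (v.1, i) ∈ D → (some v, i) ∈ C2 := by
      intro v i h
      rcases hDU h with ⟨h3, -⟩ | ⟨h3, h4⟩
      · exact absurd h3 v.2
      · exact h4
    have u3 : ∀ l, b l ∈ D → (none, l) ∈ C2 := by
      intro l h
      exact (n2 l).2 (u2 ⟨(b l).1, hbX l⟩ (b l).2 h)
    have c1 : D1 ⊆ C1 := by
      rintro ⟨_ | v, i⟩ h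
      · exact (h12 i).2 (u3 i ((t1 i).1 h))
      · exact u1 v i ((s1 v i).1 h)
    have c2 : D2 ⊆ C2 := by
      rintro ⟨_ | v, i⟩ h
      · exact u3 i ((t2 i).1 h)
      · exact u2 v i ((s2 v i).1 h)
    have m1 : D1.Nonempty → D1 = C1 := fun h => hC1.min D1 c1 hR1 h
    have m2 : D2.Nonempty → D2 = C2 := fun h => hC2.min D2 c2 hR2 h
    have f12 : D1 = C1 → D2.Nonempty := by
      intro h
      refine ⟨(none, l0), ?_⟩
      rw [t2, ← t1, h]
      exact (h1 l0).2 hl0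
    have f21 : D2 = C2 → D1.Nonempty := by
      intro h
      refine ⟨(none, l0), ?_⟩
      rw [t1, ← t2, h]
      exact (h2 l0).2 hl0
    have both : D1 = C1 ∧ D2 = C2 := by
      obtain ⟨⟨v, i⟩, hd⟩ := hDne
      by_cases hv : v ∈ X
      · have hv' : v ∉ Xᶜ := fun h => h hv
        have e2 := m2 ⟨(some ⟨v, hv'⟩, i), (s2 ⟨v, hv'⟩ i).2 hd⟩
        exact ⟨m1 (f21 e2), e2⟩
      · have e1 := m1 ⟨(some ⟨v, hv⟩, i), (s1 ⟨v, hv⟩ i).2 hd⟩
        exact ⟨e1, m2 (f12 e1)⟩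
    apply Set.Subset.antisymm hDU
    rintro ⟨v, i⟩ (⟨h, h'⟩ | ⟨h, h'⟩)
    · rw [← both.1] at h'
      exact (s1 ⟨v, h⟩ i).1 h'
    · rw [← both.2] at h'
      exact (s2 ⟨v, h⟩ i).1 h'

end Cub

end B306C
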