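import Pool.Agent.Lib_MP_b306af.CC5

/-!
# MP_b306af, PART I: contraction, Reach
-/

namespace B306C

open Classical

namespace Cub

variable {V : Type}

/-- `contr_lift` and `contr_glue` in terms of `Reach`. -/
theorem reach_glue [Finite V] {K : Cub V} {X : Set V} {b : Fin 3 → V × Fin 3}
    (hb : K.Enum X b) {v0 : V} (hv0 : v0 ∉ X) (i0 : Fin 3) {S1 : Set (Option {v // v ∉ X})}
    (h1 : (K.contr X b hb).Reach (some ⟨v0, hv0⟩) i0 S1) :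
    (none ∉ S1 ∧ (∀ j, j ≠ i0 → (K.e (v0, j)).1 ∉ X) ∧
      K.Reach v0 i0 {v | ∃ h : v ∉ X, some ⟨v, h⟩ ∈ S1}) ∨
    ∃ k, ∀ S2 : Set (Option {v // v ∉ Xᶜ}),
      (K.contr Xᶜ (fun k => K.e (b k)) hb.compl).Reach none k S2 →
      K.Reach v0 i0 ({v | ∃ h : v ∉ X, some ⟨v, h⟩ ∈ S1} ∪
        {v | ∃ h : v ∉ Xᶜ, some ⟨v, h⟩ ∈ S2}) := by
  obtain ⟨C1, hC1, hr1, hs1⟩ := h1
  rcases hC1.even.deg none with hn | ⟨k, hk⟩
  · left
    refine ⟨?_, ?_, ?_⟩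
    · intro hS
      obtain ⟨i, hi⟩ := hs1 _ hS
      exact hn i hi
    · intro j hj hX
      have hm := hC1.even.mem _ ((hr1 j).2 hj)
      have he : (K.contr X b hb).e (some ⟨v0, hv0⟩, j) = (none, idx b (K.e (v0, j))) :=
        dif_pos hX
      rw [he] at hm
      exact hn _ hm
    · refine ⟨{d | ∃ h : d.1 ∉ X, (some ⟨d.1, h⟩, d.2) ∈ C1}, contr_lift hb hC1 hn, ?_, ?_⟩
      · intro j
        constructor
        · rintro ⟨h, hm⟩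
          exact (hr1 j).1 hm
        · intro hj
          exact ⟨hv0, (hr1 j).2 hj⟩
      · rintro v ⟨h, hv⟩
        obtain ⟨i, hi⟩ := hs1 _ hv
        exact ⟨i, h, hi⟩
  · right
    refine ⟨k, ?_⟩
    rintro S2 ⟨C2, hC2, hr2, hs2⟩
    refine ⟨{d | (∃ h : d.1 ∉ X, (some ⟨d.1, h⟩, d.2) ∈ C1) ∨
      (∃ h : d.1 ∉ Xᶜ, (some ⟨d.1, h⟩, d.2) ∈ C2)}, contr_glue hb hC1 hC2 k hk hr2, ?_, ?_⟩
    · intro j
      constructor
      · rintro (⟨h, hm⟩ | ⟨h, hm⟩)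
        · exact (hr1 j).1 hm
        · exact absurd hv0 h
      · intro hj
        exact Or.inl ⟨hv0, (hr1 j).2 hj⟩
    · rintro v (⟨h, hv⟩ | ⟨h, hv⟩)
      · obtain ⟨i, hi⟩ := hs1 _ hv
        exact ⟨i, Or.inl ⟨h, hi⟩⟩
      · obtain ⟨i, hi⟩ := hs2 _ hv
        exact ⟨i, Or.inr ⟨h, hi⟩⟩

end Cub

end B306C
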