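import Mathlib

/-!
# MP_b306af, PART I: cubic multigraphs, definitions

A cubic multigraph without loops on the vertex type `V` is a fixed point free involution `e` of the
set of *ports* `V × Fin 3`, without loops.  An edge is a pair `{d, e d}` of ports.
-/

namespace B306C

open Classical

/-- cubic multigraph without loops (parallel edges are allowed); a port is a pair `(v, i)` -/
structure Cub (V : Type) where
  e : V × Fin 3 → V × Fin 3
  inv : ∀ d, e (e d) = d
  ne : ∀ d, (e d).1 ≠ d.1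

variable {V : Type}

namespace Cub

/-- adjacency -/
def Adj (K : Cub V) (u v : V) : Prop := ∃ i, (K.e (u, i)).1 = v

/-- `p, q, r` are the three different neighbours of `v` -/
structure Nb (K : Cub V) (v p q r : V) : Prop where
  pq : p ≠ q
  pr : p ≠ r
  qr : q ≠ r
  ap : K.Adj v p
  aq : K.Adj v q
  ar : K.Adj v r

/-- no parallel edges -/
def Sim (K : Cub V) : Prop := ∀ v i j, (K.e (v, i)).1 = (K.e (v, j)).1 → i = j

/-- the ports of `X` whose edge leaves `X` -/
def bd (K : Cub V) (X : Set V) : Set (V × Fin 3) := {d | d.1 ∈ X ∧ (K.e d).1 ∉ X}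

/-- 3-edge-connected -/
def Conn3 (K : Cub V) : Prop :=
  ∀ X : Set V, X.Nonempty → Xᶜ.Nonempty → 3 ≤ (K.bd X).ncard

/-- nontrivial 3-edge cut -/
def Cut (K : Cub V) (X : Set V) : Prop := 2 ≤ X.ncard ∧ 2 ≤ Xᶜ.ncard ∧ (K.bd X).ncard = 3

/-- no nontrivial 3-edge cut -/
def C4 (K : Cub V) : Prop := ∀ X : Set V, ¬ K.Cut X

/-- set of edges (given by their ports) meeting every vertex in `0` or `2` ports -/
structure Even (K : Cub V) (C : Set (V × Fin 3)) : Prop where
  mem : ∀ d ∈ C, K.e d ∈ C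
  deg : ∀ v, (∀ i, (v, i) ∉ C) ∨ ∃ i, ∀ j, (v, j) ∈ C ↔ j ≠ i

/-- a cycle: a minimal nonempty even set -/
structure IsCycle (K : Cub V) (C : Set (V × Fin 3)) : Prop where
  even : K.Even C
  nonempty : C.Nonempty
  min : ∀ C' : Set (V × Fin 3), C' ⊆ C → K.Even C' → C'.Nonempty → C' = C

/-- some cycle passes through the root `v0`, does not use the root port `(v0, i0)` (so it uses the
two other ports of `v0`), and visits all vertices of `S` -/
def Reach (K : Cub V) (v0 : V) (i0 : Fin 3) (S : Set V) : Prop :=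
  ∃ C, K.IsCycle C ∧ (∀ j, (v0, j) ∈ C ↔ j ≠ i0) ∧ ∀ v ∈ S, ∃ i, (v, i) ∈ C

/-- value at least `t`: some reachable set `S` has `∑_{v ∈ S} w(v)^(4/5) ≥ t` -/
def Gd (K : Cub V) (v0 : V) (i0 : Fin 3) (w : V → ℝ) (t : ℝ) : Prop :=
  ∃ S : Finset V, K.Reach v0 i0 (S : Set V) ∧ t ≤ ∑ v ∈ S, (w v) ^ ((4 : ℝ) / 5)

theorem adj_symm (K : Cub V) {u v : V} (h : K.Adj u v) : K.Adj v u := by
  obtain ⟨i, rfl⟩ := h
  refine ⟨(K.e (u, i)).2, ?_⟩
  have : ((K.e (u, i)).1, (K.e (u, i)).2) = K.e (u, i) := rfl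
  rw [this, K.inv]

theorem e_inj (K : Cub V) {d d' : V × Fin 3} (h : K.e d = K.e d') : d = d' := by
  rw [← K.inv d, h, K.inv]

/-! ## Contraction of a set with exactly three boundary ports -/

/-- the index of a port in an enumeration -/
noncomputable def idx (b : Fin 3 → V × Fin 3) (p : V × Fin 3) : Fin 3 :=
  if h : ∃ k, b k = p then h.choose else 0

theorem idx_spec {b : Fin 3 → V × Fin 3} {p : V × Fin 3} (h : ∃ k, b k = p) :
    b (idx b p) = p := by
  unfold idx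
  rw [dif_pos h]
  exact h.choose_spec

/-- `b` enumerates the boundary ports of `X` -/
structure Enum (K : Cub V) (X : Set V) (b : Fin 3 → V × Fin 3) : Prop where
  inj : Function.Injective b
  rng : ∀ d, (∃ k, b k = d) ↔ d ∈ K.bd X

/-- `K / X`: contract `X` to one vertex `none`, port `k` of `none` is the boundary port `b k` -/
noncomputable def contr (K : Cub V) (X : Set V) (b : Fin 3 → V × Fin 3) (hb : K.Enum X b) :
    Cub (Option {v // v ∉ X}) where
  e d := match d with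
    | (some v, i) =>
        if h : (K.e (v.1, i)).1 ∈ X then (none, idx b (K.e (v.1, i)))
        else (some ⟨(K.e (v.1, i)).1, h⟩, (K.e (v.1, i)).2)
    | (none, k) =>
        (some ⟨(K.e (b k)).1, ((hb.rng (b k)).1 ⟨k, rfl⟩).2⟩, (K.e (b k)).2)
  inv := by
    rintro ⟨_ | v, i⟩
    · have h1 := (hb.rng (b i)).1 ⟨i, rfl⟩
      have e1 : ((K.e (b i)).1, (K.e (b i)).2) = K.e (b i) := rfl
      have e2 : K.e ((K.e (b i)).1, (K.e (b i)).2) = b i := by rw [e1, K.inv]
      simp only [e2]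
      rw [dif_pos h1.1]
      congr 1
      exact hb.inj (idx_spec ⟨i, rfl⟩)
    · by_cases h : (K.e (v.1, i)).1 ∈ X
      · simp only [dif_pos h]
        have h2 : K.e (v.1, i) ∈ K.bd X := ⟨h, by rw [K.inv]; exact v.2⟩
        have h3 : b (idx b (K.e (v.1, i))) = K.e (v.1, i) := idx_spec ((hb.rng _).2 h2)
        simp only [h3, K.inv]
      · simp only [dif_neg h]
        have e1 : K.e ((K.e (v.1, i)).1, (K.e (v.1, i)).2) = (v.1, i) := K.inv _
        simp only [e1]
        rw [dif_neg v.2]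
  ne := by
    rintro ⟨_ | v, i⟩
    · simp
    · by_cases h : (K.e (v.1, i)).1 ∈ X
      · simp [dif_pos h]
      · simp only [dif_neg h]
        intro h'
        exact K.ne (v.1, i) (congrArg Subtype.val (Option.some.inj h'))

/-! ## Removal of a set with exactly four boundary ports -/

/-- `s1, s2, s3, s4` are the boundary ports of `Z`; the edges of `s1, s2` lead to different
vertices, those of `s3, s4` too -/
structure Quad (K : Cub V) (Z : Set V) (s1 s2 s3 s4 : V × Fin 3) : Prop where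
  bd : ∀ d, d ∈ K.bd Z ↔ d = s1 ∨ d = s2 ∨ d = s3 ∨ d = s4
  h12 : s1 ≠ s2
  h13 : s1 ≠ s3
  h14 : s1 ≠ s4
  h23 : s2 ≠ s3
  h24 : s2 ≠ s4
  h34 : s3 ≠ s4
  n12 : (K.e s1).1 ≠ (K.e s2).1
  n34 : (K.e s3).1 ≠ (K.e s4).1

/-- the matching `s1 - s2`, `s3 - s4` -/
noncomputable def mt (s1 s2 s3 s4 : V × Fin 3) (d : V × Fin 3) : V × Fin 3 :=
  if d = s1 then s2 else if d = s2 then s1 else if d = s3 then s4 else if d = s4 then s3 else d

theorem Quad.mt_bd {K : Cub V} {Z : Set V} {s1 s2 s3 s4 : V × Fin 3}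
    (h : K.Quad Z s1 s2 s3 s4) {d : V × Fin 3} (hd : d ∈ K.bd Z) :
    mt s1 s2 s3 s4 d ∈ K.bd Z := by
  have b1 : s1 ∈ K.bd Z := (h.bd s1).2 (Or.inl rfl)
  have b2 : s2 ∈ K.bd Z := (h.bd s2).2 (Or.inr (Or.inl rfl))
  have b3 : s3 ∈ K.bd Z := (h.bd s3).2 (Or.inr (Or.inr (Or.inl rfl)))
  have b4 : s4 ∈ K.bd Z := (h.bd s4).2 (Or.inr (Or.inr (Or.inr rfl)))
  unfold mt
  split_ifs
  exacts [b2, b1, b4, b3, hd]

theorem Quad.mt_mt {K : Cub V} {Z : Set V} {s1 s2 s3 s4 : V × Fin 3}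
    (h : K.Quad Z s1 s2 s3 s4) {d : V × Fin 3} (hd : d ∈ K.bd Z) :
    mt s1 s2 s3 s4 (mt s1 s2 s3 s4 d) = d := by
  have h12 := h.h12
  have h13 := h.h13
  have h14 := h.h14
  have h23 := h.h23
  have h24 := h.h24
  have h34 := h.h34
  rcases (h.bd d).1 hd with rfl | rfl | rfl | rfl
  · simp [mt, h12.symm]
  · simp [mt, h12.symm]
  · simp [mt, h13.symm, h23.symm, h14.symm, h24.symm, h34.symm]
  · simp [mt, h13.symm, h23.symm, h14.symm, h24.symm, h34.symm]

theorem Quad.mt_ne {K : Cub V} {Z : Set V} {s1 s2 s3 s4 : V × Fin 3}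
    (h : K.Quad Z s1 s2 s3 s4) {d : V × Fin 3} (hd : d ∈ K.bd Z) :
    (K.e (mt s1 s2 s3 s4 d)).1 ≠ (K.e d).1 := by
  have h12 := h.h12
  have h13 := h.h13
  have h14 := h.h14
  have h23 := h.h23
  have h24 := h.h24
  have h34 := h.h34
  rcases (h.bd d).1 hd with rfl | rfl | rfl | rfl
  · simpa [mt] using h.n12.symm
  · simpa [mt, h12.symm] using h.n12
  · simpa [mt, h13.symm, h23.symm] using h.n34.symm
  · simpa [mt, h14.symm, h24.symm, h34.symm] using h.n34

/-- remove `Z` and join the four ports outside `Z` whose edges led to `Z`: the port at `s1` is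
joined with that at `s2`, the port at `s3` with that at `s4` -/
noncomputable def rem (K : Cub V) (Z : Set V) (s1 s2 s3 s4 : V × Fin 3)
    (hq : K.Quad Z s1 s2 s3 s4) : Cub {x // x ∉ Z} where
  e d :=
    if h : (K.e (d.1.1, d.2)).1 ∈ Z then
      (⟨(K.e (mt s1 s2 s3 s4 (K.e (d.1.1, d.2)))).1,
        (hq.mt_bd (d := K.e (d.1.1, d.2)) ⟨h, by rw [K.inv]; exact d.1.2⟩).2⟩,
        (K.e (mt s1 s2 s3 s4 (K.e (d.1.1, d.2)))).2)
    else (⟨(K.e (d.1.1, d.2)).1, h⟩, (K.e (d.1.1, d.2)).2)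
  inv := by
    rintro ⟨⟨x, hx⟩, k⟩
    by_cases h : (K.e (x, k)).1 ∈ Z
    · have hb : K.e (x, k) ∈ K.bd Z := ⟨h, by rw [K.inv]; exact hx⟩
      have e1 : K.e ((K.e (mt s1 s2 s3 s4 (K.e (x, k)))).1,
          (K.e (mt s1 s2 s3 s4 (K.e (x, k)))).2) = mt s1 s2 s3 s4 (K.e (x, k)) := K.inv _
      simp only [dif_pos h, e1, dif_pos (hq.mt_bd hb).1]
      have e2 : K.e (mt s1 s2 s3 s4 (mt s1 s2 s3 s4 (K.e (x, k)))) = (x, k) := by
        rw [hq.mt_mt hb, K.inv]
      simp only [e2]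
    · have e1 : K.e ((K.e (x, k)).1, (K.e (x, k)).2) = (x, k) := K.inv _
      simp only [dif_neg h, e1, dif_neg hx]
  ne := by
    rintro ⟨⟨x, hx⟩, k⟩
    by_cases h : (K.e (x, k)).1 ∈ Z
    · have hb : K.e (x, k) ∈ K.bd Z := ⟨h, by rw [K.inv]; exact hx⟩
      simp only [dif_pos h]
      intro hh
      have h1 : (K.e (mt s1 s2 s3 s4 (K.e (x, k)))).1 = x := congrArg Subtype.val hh
      apply hq.mt_ne hb
      rw [h1, K.inv]
    · simp only [dif_neg h]
      intro hh
      exact K.ne (x, k) (congrArg Subtype.val hh)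

end Cub

end B306C
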