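import Pool.Agent.Lib_MP_b306af.CBase

/-!
# MP_b306af, PART I: reductions (abstract form), the hypotheses of the two-step theorem TT, and the
value function `Tf`
-/

namespace B306C

open Classical

namespace Cub

variable {V V' : Type}

/-- A reduction from `K` (root `v0`, port `i0`) to `K'` (root `r`, port `i`): whatever is reached in
`K'` is reached in `K`, together with the set `E`; `L` is the set of lost vertices. -/
structure Red (K : Cub V) (v0 : V) (i0 : Fin 3) (K' : Cub V') (r : V') (i : Fin 3) (f : V' → V)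
    (E L : Finset V) : Prop where
  inj : Function.Injective f
  reach : ∀ S' : Set V', K'.Reach r i S' → K.Reach v0 i0 (f '' S' ∪ E)
  rng : ∀ x, x ∈ Set.range f ∨ x ∈ E ∨ x ∈ L
  lr : ∀ x ∈ L, x ∉ Set.range f
  le : ∀ x ∈ L, x ∉ E

/-- The situation of the two-step theorem: root `v0` with held neighbour `c`, the cycle passes
through the neighbours `a`, `b`; the other neighbours `x`, `y` of `b` are new vertices; all
nontrivial 3-cuts avoiding `v0` contain `p` and avoid `z`, one of `a`, `b`. -/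
structure TTH (K : Cub V) (v0 : V) (i0 : Fin 3) (a b c x y p z : V) : Prop where
  hi : (K.e (v0, i0)).1 = c
  n0 : K.Nb v0 a b c
  nb : K.Nb b v0 x y
  xa : x ≠ a
  xc : x ≠ c
  ya : y ≠ a
  yc : y ≠ c
  hz : z = a ∨ z = b
  hQ : ∀ X, K.Cut X → v0 ∉ X → z ∉ X ∧ p ∈ X

theorem Reach.mono {K : Cub V} {v0 : V} {i0 : Fin 3} {S T : Set V} (h : K.Reach v0 i0 T)
    (hST : S ⊆ T) : K.Reach v0 i0 S := by
  obtain ⟨C, h1, h2, h3⟩ := h
  exact ⟨C, h1, h2, fun v hv => h3 v (hST hv)⟩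

theorem Gd.mono {K : Cub V} {v0 : V} {i0 : Fin 3} {w : V → ℝ} {t t' : ℝ} (h : K.Gd v0 i0 w t)
    (ht : t' ≤ t) : K.Gd v0 i0 w t' := by
  obtain ⟨S, h1, h2⟩ := h
  exact ⟨S, h1, ht.trans h2⟩

/-- A finite reached set gives its value. -/
theorem Reach.gd {K : Cub V} {v0 : V} {i0 : Fin 3} (w : V → ℝ) (S : Finset V)
    (h : K.Reach v0 i0 (S : Set V)) : K.Gd v0 i0 w (∑ v ∈ S, (w v) ^ ((4 : ℝ) / 5)) :=
  ⟨S, h, le_rfl⟩

end Cub

/-- the value function: the tangent line of `R ^ (4/5)` at `R = 1.6^5 m = 10.48576 m`, and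
`R ^ (4/5)` to the right of that point -/
noncomputable def Tf (m R : ℝ) : ℝ :=
  if R ≤ 10.48576 * m then R / 2 * m ^ (-(1 : ℝ) / 5) + 1.31072 * m ^ ((4 : ℝ) / 5)
  else R ^ ((4 : ℝ) / 5)

end B306C
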