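import Pool.Agent.Lib_MP_b306af.CM0
import Pool.Agent.Lib_MP_b306af.CC2
import Pool.Agent.Lib_MP_b306af.CC7

/-!
# MP_b306af, PART I: three vertices, through a 3-cut
-/

namespace B306C

open Classical

open Cub

/-- `Cut X`; by `Cut.compl` we may assume `v0 ∉ X`.  `exists_enum`, `reach_contr` with
`S1 = {none} ∪ {some v | v.1 ∈ A}` if `A ∩ X` is nonempty and `S1 = {some v | v.1 ∈ A}` otherwise
(`ncard ≤ 3`); both `K / X` and `K / Xᶜ` are 3-edge-connected (`contr_conn3`) and smaller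
(`contr_card`, `2 ≤ X.ncard`, `2 ≤ Xᶜ.ncard`). -/
theorem s3_cut {n : ℕ} (ih : PS3 n) {V : Type} [Fintype V] (K : Cub V) (hK : K.Conn3)
    (hn : Fintype.card V ≤ n + 1) {X : Set V} (hX : K.Cut X) (v0 : V) (i0 : Fin 3) (A : Set V)
    (hA : A.ncard ≤ 3) : K.Reach v0 i0 A := by
  have key : ∀ Y : Set V, K.Cut Y → v0 ∉ Y → K.Reach v0 i0 A := by
    intro Y hY hv0
    obtain ⟨b, hb⟩ := exists_enum K hY.2.2
    have hYne : Y.Nonempty := Set.nonempty_of_ncard_ne_zero (by have := hY.1; omega)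
    have hYcne : Yᶜ.Nonempty := Set.nonempty_of_ncard_ne_zero (by have := hY.2.1; omega)
    have c1 := contr_card (X := Y) hY.1
    have c2 := contr_card (X := Yᶜ) hY.2.1
    have k1 := contr_conn3 hK hb hYne
    have k2 := contr_conn3 hK hb.compl hYcne
    have hcV : Nat.card V ≤ n + 1 := by rw [Nat.card_eq_fintype_card]; exact hn
    let f1 : Fintype (Option {v // v ∉ Y}) := Fintype.ofFinite _
    let f2 : Fintype (Option {v // v ∉ Yᶜ}) := Fintype.ofFinite _
    have d1 : Fintype.card (Option {v // v ∉ Y}) ≤ n := by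
      rw [← Nat.card_eq_fintype_card]; omega
    have d2 : Fintype.card (Option {v // v ∉ Yᶜ}) ≤ n := by
      rw [← Nat.card_eq_fintype_card]; omega
    have h1 : (K.contr Y b hb).Reach (some ⟨v0, hv0⟩) i0
        {x | (x = none ∧ (A ∩ Y).Nonempty) ∨ ∃ v, x = some v ∧ v.1 ∈ A} := by
      refine ih _ _ k1 d1 _ _ _ ?_
      refine le_trans (Set.ncard_le_ncard (t := pj Y '' A) ?_ (Set.toFinite _))
        (le_trans (Set.ncard_image_le (Set.toFinite _)) hA)
      rintro x (⟨rfl, v, hvA, hvY⟩ | ⟨v, rfl, hvA⟩)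
      · exact ⟨v, hvA, pj_mem hvY⟩
      · exact ⟨v.1, hvA, pj_not_mem v.2⟩
    have h2 : ∀ k, (K.contr Yᶜ (fun k => K.e (b k)) hb.compl).Reach none k
        {x | ∃ v, x = some v ∧ v.1 ∈ A} := by
      intro k
      refine ih _ _ k2 d2 _ _ _ ?_
      refine le_trans (Set.ncard_le_ncard (t := pj Yᶜ '' A) ?_ (Set.toFinite _))
        (le_trans (Set.ncard_image_le (Set.toFinite _)) hA)
      rintro x ⟨v, rfl, hvA⟩
      exact ⟨v.1, hvA, pj_not_mem v.2⟩
    exact reach_contr hb hv0 i0 A h1 (fun v h hv => Or.inr ⟨⟨v, h⟩, rfl, hv⟩)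
      (fun v hv hvA => Or.inl ⟨rfl, ⟨v, hvA, hv⟩⟩) h2
  by_cases h : v0 ∈ X
  · exact key Xᶜ hX.compl (by simpa using h)
  · exact key X hX h

end B306C
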