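import Pool.Agent.Lib_MP_b306af.CDefs2
import Pool.Agent.Lib_MP_b306af.CR3
import Pool.Agent.Lib_MP_b306af.CR5
import Pool.Agent.Lib_MP_b306af.CR6

/-!
# MP_b306af, PART I: the first reduction
-/

namespace B306C

open Classical

namespace Cub

variable {V : Type}

/-- REDUCTION M1: delete the edge `a a2`, lose `a2`, gain `a1`, same root.
`K' = K.rem {a, a2} s1 s2 s3 s4` with `exists_dq` for `ha` and the neighbours `a, p1, p2` of `a2`
(`exists_nb'`): `(K.e s1).1 = v0`, `(K.e s2).1 = a1`, `(K.e s3).1 = p1`, `(K.e s4).1 = p2`; `f` is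
`Subtype.val`, root `v0`, port `i0`.  `c, b, a1` are not in `{a, a2}` (`no_tri`).
Lifting: `dq_lift`; the cycle of `K'` uses at `v0` the port whose edge leads in `K` to `a`
(`K.e s1`), joined with `K.e s2` at `a1`; so `a` and `a1` are visited, and `b` too.
`TTH`: neighbours of `v0` in `K'` are `a1, b, c` (`rem_adj12`, `rem_adj`), those of `b` are
`v0, x, y` (`rem_adj`).  Cuts: `dq_q`: a cut avoiding `v0 = (K.e s1).1` avoids `a1` and contains
`p1`. -/
theorem op_M1 [Fintype V] {K : Cub V} (hK : K.Conn3) (h4 : K.C4) (hc : 5 ≤ Fintype.card V)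
    {v0 a b c a1 a2 : V} {i0 : Fin 3} (hi : (K.e (v0, i0)).1 = c) (n0 : K.Nb v0 a b c)
    (na : K.Nb a v0 a1 a2) :
    ∃ (V' : Type) (_ : Fintype V') (K' : Cub V') (f : V' → V) (r : V') (i : Fin 3),
      K'.Conn3 ∧ Fintype.card V' < Fintype.card V ∧ Red K v0 i0 K' r i f {v0, a, b, a1} {a2} ∧
      f r = v0 ∧
      ∀ x y, K.Nb b v0 x y → x ≠ a1 → x ≠ a2 → y ≠ a1 → y ≠ a2 →
        ∃ a' b' c' x' y' p z, f a' = a1 ∧ f b' = b ∧ f c' = c ∧ f x' = x ∧ f y' = y ∧
          K'.TTH r i a' b' c' x' y' p z := by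
  have hcN : 5 ≤ Nat.card V := by rw [Nat.card_eq_fintype_card]; exact hc
  have hs : K.Sim := sim_of_conn3 K hK (by omega)
  have tri : ∀ {u v w : V}, K.Adj u v → K.Adj v w → K.Adj u w → False := fun h1 h2 h3 =>
    no_tri K hK h4 hcN h1 h2 h3
  obtain ⟨p1, p2, n2⟩ := exists_nb' K hs (K.adj_symm na.ar)
  obtain ⟨s1, s2, s3, s4, hd, e1, e2, e3, e4⟩ := exists_dq na.swap23.swap12 n2
  have hv0Z : v0 ∉ ({a, a2} : Set V) := by
    simp only [Set.mem_insert_iff, Set.mem_singleton_iff, not_or]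
    exact ⟨n0.ne.1, na.pr⟩
  have ha1Z : a1 ∉ ({a, a2} : Set V) := by
    simp only [Set.mem_insert_iff, Set.mem_singleton_iff, not_or]
    exact ⟨na.ne.2.1.symm, na.qr⟩
  have hba2 : b ≠ a2 := by
    rintro rfl
    exact tri n0.ap na.ar n0.aq
  have hca2 : c ≠ a2 := by
    rintro rfl
    exact tri n0.ap na.ar n0.ar
  have hba1 : b ≠ a1 := by
    rintro rfl
    exact tri n0.ap na.aq n0.aq
  have hca1 : c ≠ a1 := by
    rintro rfl
    exact tri n0.ap na.aq n0.ar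
  have hbZ : b ∉ ({a, a2} : Set V) := by
    simp only [Set.mem_insert_iff, Set.mem_singleton_iff, not_or]
    exact ⟨n0.pq.symm, hba2⟩
  have hcZ : c ∉ ({a, a2} : Set V) := by
    simp only [Set.mem_insert_iff, Set.mem_singleton_iff, not_or]
    exact ⟨n0.pr.symm, hca2⟩
  have hp1Z : p1 ∉ ({a, a2} : Set V) := by
    simp only [Set.mem_insert_iff, Set.mem_singleton_iff, not_or]
    exact ⟨n2.pq.symm, n2.ne.2.1.symm⟩
  refine ⟨{x // x ∉ ({a, a2} : Set V)}, inferInstance, K.rem {a, a2} s1 s2 s3 s4 hd.quad, Subtype.val,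
    ⟨v0, hv0Z⟩, i0, dq_conn3 hd hK h4, ?_, ⟨Subtype.val_injective, ?_, ?_, ?_, ?_⟩, rfl, ?_⟩
  · exact Fintype.card_subtype_lt (x := a) (by simp)
  · rintro S' ⟨C, hC, hr, hS⟩
    -- the port of `v0` leading to `a`
    have hs1b : s1 ∈ K.bd {a, a2} := (hd.quad.bd s1).2 (Or.inl rfl)
    have hj1 : K.e (v0, (K.e s1).2) = s1 := by
      have : (v0, (K.e s1).2) = K.e s1 := by rw [← e1]
      rw [this, K.inv]
    have hj1i : (K.e s1).2 ≠ i0 := by
      intro h
      have h1 : (K.e (v0, i0)).1 = a := by rw [← h, hj1, hd.u1]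
      exact n0.pr (h1.symm.trans hi)
    have hC1 : ((⟨v0, hv0Z⟩ : {x // x ∉ ({a, a2} : Set V)}), (K.e s1).2) ∈ C := (hr _).2 hj1i
    obtain ⟨h2Z, hE2⟩ := rem_e_in hd.quad ⟨v0, hv0Z⟩ (K.e s1).2 (s := s1) (s' := s2) hj1 (Or.inl ⟨rfl, rfl⟩)
    have hC2 : ((⟨(K.e s2).1, h2Z⟩ : {x // x ∉ ({a, a2} : Set V)}), (K.e s2).2) ∈ C := by
      rw [← hE2]
      exact hC.even.mem _ hC1
    obtain ⟨jb, hjb⟩ := n0.aq
    have hjbi : jb ≠ i0 := by
      intro h
      rw [h, hi] at hjb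
      exact n0.qr hjb.symm
    have hCb : ((⟨v0, hv0Z⟩ : {x // x ∉ ({a, a2} : Set V)}), jb) ∈ C := (hr _).2 hjbi
    have hbZ' : (K.e (v0, jb)).1 ∉ ({a, a2} : Set V) := by rw [hjb]; exact hbZ
    have hCb2 : ((⟨(K.e (v0, jb)).1, hbZ'⟩ : {x // x ∉ ({a, a2} : Set V)}), (K.e (v0, jb)).2) ∈ C := by
      rw [← rem_e_out hd.quad ⟨v0, hv0Z⟩ jb hbZ']
      exact hC.even.mem _ hCb
    refine ⟨_, dq_lift hd hC, ?_, ?_⟩
    · intro j
      constructor
      · rintro (⟨h, hm⟩ | ⟨h, -⟩)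
        · exact (hr j).1 hm
        · exact absurd h.1 hv0Z
      · intro hj
        exact Or.inl ⟨hv0Z, (hr j).2 hj⟩
    · rintro v (⟨x, hx, rfl⟩ | hv)
      · obtain ⟨i, hi'⟩ := hS x hx
        exact ⟨i, Or.inl ⟨x.2, hi'⟩⟩
      · simp only [Finset.coe_insert, Finset.coe_singleton, Set.mem_insert_iff, Set.mem_singleton_iff] at hv
        rcases hv with rfl | rfl | rfl | rfl
        · exact ⟨_, Or.inl ⟨hv0Z, hC1⟩⟩
        · refine ⟨s1.2, Or.inr ⟨?_, ?_⟩⟩
          · have : (v, s1.2) = s1 := by rw [← hd.u1]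
            rw [this]; exact hs1b
          · have : (v, s1.2) = s1 := by rw [← hd.u1]
            rw [this]
            refine ⟨by rw [e1]; exact hv0Z, ?_⟩
            have h5 : ∀ (y : V) (hy : y ∉ ({v, a2} : Set V)), y = v0 →
                ((⟨y, hy⟩ : {x // x ∉ ({v, a2} : Set V)}), (K.e s1).2) ∈ C := by
              rintro y hy rfl
              exact hC1
            exact h5 _ _ e1
        · have h5 : ∀ (y : V) (hy : y ∉ ({a, a2} : Set V)) (k : Fin 3),
              ((⟨y, hy⟩ : {x // x ∉ ({a, a2} : Set V)}), k) ∈ C → y = v →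
              ∃ k, ((⟨v, hbZ⟩ : {x // x ∉ ({a, a2} : Set V)}), k) ∈ C := by
            rintro y hy k hk rfl
            exact ⟨k, hk⟩
          obtain ⟨k, hk⟩ := h5 _ _ _ hCb2 hjb
          exact ⟨k, Or.inl ⟨hbZ, hk⟩⟩
        · have h5 : ∀ (y : V) (hy : y ∉ ({a, a2} : Set V)) (k : Fin 3),
              ((⟨y, hy⟩ : {x // x ∉ ({a, a2} : Set V)}), k) ∈ C → y = v →
              ∃ k, ((⟨v, ha1Z⟩ : {x // x ∉ ({a, a2} : Set V)}), k) ∈ C := by
            rintro y hy k hk rfl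
            exact ⟨k, hk⟩
          obtain ⟨k, hk⟩ := h5 _ _ _ hC2 e2
          exact ⟨k, Or.inl ⟨ha1Z, hk⟩⟩
  · intro x
    by_cases hx : x ∈ ({a, a2} : Set V)
    · rcases hx with rfl | hx
      · right; left; simp
      · right; right
        rw [Set.mem_singleton_iff] at hx
        simp [hx]
    · exact Or.inl ⟨⟨x, hx⟩, rfl⟩
  · intro x hx
    rw [Finset.mem_singleton] at hx
    rw [hx]
    rintro ⟨y, hy⟩
    exact y.2 (by rw [hy]; simp)
  · intro x hx
    rw [Finset.mem_singleton] at hx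
    rw [hx]
    simp only [Finset.mem_insert, Finset.mem_singleton, not_or]
    exact ⟨na.pr.symm, na.ne.2.2.symm, hba2.symm, na.qr.symm⟩
  · intro x y nb hxa1 hxa2 hya1 hya2
    have hxZ : x ∉ ({a, a2} : Set V) := by
      simp only [Set.mem_insert_iff, Set.mem_singleton_iff, not_or]
      refine ⟨?_, hxa2⟩
      rintro rfl
      exact tri n0.aq nb.aq n0.ap
    have hyZ : y ∉ ({a, a2} : Set V) := by
      simp only [Set.mem_insert_iff, Set.mem_singleton_iff, not_or]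
      refine ⟨?_, hya2⟩
      rintro rfl
      exact tri n0.aq nb.ar n0.ap
    refine ⟨⟨a1, ha1Z⟩, ⟨b, hbZ⟩, ⟨c, hcZ⟩, ⟨x, hxZ⟩, ⟨y, hyZ⟩, ⟨p1, hp1Z⟩, ⟨a1, ha1Z⟩, rfl, rfl, rfl, rfl, rfl,
      ?_, ?_, ?_, ?_, ?_, ?_, ?_, Or.inl rfl, ?_⟩
    · have h1 : (K.e (v0, i0)).1 ∉ ({a, a2} : Set V) := by rw [hi]; exact hcZ
      rw [rem_e_out hd.quad ⟨v0, hv0Z⟩ i0 h1]
      exact Subtype.ext hi
    · refine ⟨?_, ?_, ?_, ?_, ?_, ?_⟩
      · exact fun h => hba1 (congrArg Subtype.val h).symm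
      · exact fun h => hca1 (congrArg Subtype.val h).symm
      · exact fun h => n0.qr (congrArg Subtype.val h)
      · exact rem_adj12 hd.quad _ _ e1 e2
      · exact rem_adj hd.quad _ _ n0.aq
      · exact rem_adj hd.quad _ _ n0.ar
    · refine ⟨?_, ?_, ?_, ?_, ?_, ?_⟩
      · exact fun h => nb.pq (congrArg Subtype.val h)
      · exact fun h => nb.pr (congrArg Subtype.val h)
      · exact fun h => nb.qr (congrArg Subtype.val h)
      · exact rem_adj hd.quad _ _ nb.ap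
      · exact rem_adj hd.quad _ _ nb.aq
      · exact rem_adj hd.quad _ _ nb.ar
    · exact fun h => hxa1 (congrArg Subtype.val h)
    · intro h
      have h1 : x = c := congrArg Subtype.val h
      rw [h1] at nb
      exact tri n0.aq nb.aq n0.ar
    · exact fun h => hya1 (congrArg Subtype.val h)
    · intro h
      have h1 : y = c := congrArg Subtype.val h
      rw [h1] at nb
      exact tri n0.aq nb.ar n0.ar
    · intro X hX hr
      rcases dq_q hd hK h4 hX with ⟨h1, -, -, -⟩ | ⟨-, h2, h3, -⟩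
      · rw [e1] at h1
        obtain ⟨y', hy', hyv⟩ := h1
        exact absurd ((Subtype.ext hyv : y' = ⟨v0, hv0Z⟩) ▸ hy') hr
      · rw [e2] at h2
        rw [e3] at h3
        refine ⟨fun h => h2 ⟨_, h, rfl⟩, ?_⟩
        obtain ⟨y', hy', hyv⟩ := h3
        exact (Subtype.ext hyv : y' = ⟨p1, hp1Z⟩) ▸ hy'

end Cub

end B306C
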