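import Pool.Agent.Lib_MP_b306af.CM0
import Pool.Agent.Lib_MP_b306af.CO1
import Pool.Agent.Lib_MP_b306af.CO2
import Pool.Agent.Lib_MP_b306af.CO3
import Pool.Agent.Lib_MP_b306af.CS4

/-!
# MP_b306af, PART I: three vertices, no 3-cut
-/

namespace B306C

open Classical

open Cub

private theorem cm2_red {n : ℕ} (ih : PS3 n) {V V' : Type} [Fintype V] [Fintype V'] {K : Cub V}
    {K' : Cub V'} {v0 : V} {i0 : Fin 3} {r : V'} {i : Fin 3} {f : V' → V} {E L : Finset V}
    (hred : Red K v0 i0 K' r i f E L) (hK' : K'.Conn3) (hcard : Fintype.card V' ≤ n) (A : Set V)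
    (hA : A.ncard ≤ 3) (hL : ∀ x ∈ L, x ∉ A) : K.Reach v0 i0 A := by
  have h1 : (f ⁻¹' A).ncard ≤ 3 := by
    refine le_trans ?_ hA
    exact Set.ncard_le_ncard_of_injOn f (fun x hx => hx) (hred.inj.injOn) (Set.toFinite _)
  have h2 := hred.reach (f ⁻¹' A) (ih V' K' hK' hcard r i (f ⁻¹' A) h1)
  refine h2.mono ?_
  intro x hx
  rcases hred.rng x with ⟨y, rfl⟩ | h3 | h3
  · exact Or.inl ⟨y, hx, rfl⟩
  · exact Or.inr h3
  · exact absurd hx (hL x h3)

private theorem cm2_X {n : ℕ} (ih : PS3 n) {V : Type} [Fintype V] {K : Cub V} (hK : K.Conn3)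
    (hn : Fintype.card V ≤ n + 1) (h4 : K.C4) (hc : 5 ≤ Fintype.card V) {v0 a b c q a2 b2 : V}
    {i0 : Fin 3} (hi : (K.e (v0, i0)).1 = c) (n0 : K.Nb v0 a b c) (na : K.Nb a v0 q a2)
    (nb : K.Nb b v0 q b2) (A : Set V) (hA : A.ncard ≤ 3) : K.Reach v0 i0 A := by
  have hNc : Nat.card V = Fintype.card V := Nat.card_eq_fintype_card
  have hs : K.Sim := sim_of_conn3 K hK (by omega)
  have haq : K.Adj q a := K.adj_symm na.aq
  have hbq : K.Adj q b := K.adj_symm nb.aq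
  have hqv : q ≠ v0 := na.pq.symm
  obtain ⟨q3, nq⟩ : ∃ q3, K.Nb q a b q3 := by
    obtain ⟨p, r, np⟩ := exists_nb' K hs haq
    rcases np.all hbq with h | h | h
    · exact absurd h.symm n0.pq
    · subst h
      exact ⟨r, np⟩
    · subst h
      exact ⟨p, np.swap23⟩
  by_cases h3 : q3 = c
  · subst h3
    exact (k33_reach hK h4 (by omega) hi n0 nq hqv).mono (Set.subset_univ _)
  · obtain ⟨V', _, K', f, r, i, hK', hcard, hred, -⟩ := op_X hK h4 hc hi n0 na nb nq h3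
    exact cm2_red ih hred hK' (by omega) A hA (fun x hx => absurd hx (Finset.notMem_empty x))

private theorem cm2_M1 {n : ℕ} (ih : PS3 n) {V : Type} [Fintype V] {K : Cub V} (hK : K.Conn3)
    (hn : Fintype.card V ≤ n + 1) (h4 : K.C4) (hc : 5 ≤ Fintype.card V) {v0 a b c a1 a2 : V}
    {i0 : Fin 3} (hi : (K.e (v0, i0)).1 = c) (n0 : K.Nb v0 a b c) (na : K.Nb a v0 a1 a2)
    (A : Set V) (hA : A.ncard ≤ 3) (h2 : a2 ∉ A) : K.Reach v0 i0 A := by
  obtain ⟨V', _, K', f, r, i, hK', hcard, hred, -, -⟩ := op_M1 hK h4 hc hi n0 na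
  refine cm2_red ih hred hK' (by omega) A hA ?_
  intro x hx
  rw [Finset.mem_singleton.1 hx]
  exact h2

private theorem cm2_M3 {n : ℕ} (ih : PS3 n) {V : Type} [Fintype V] {K : Cub V} (hK : K.Conn3)
    (hn : Fintype.card V ≤ n + 1) (h4 : K.C4) (hc : 5 ≤ Fintype.card V) {v0 a b c a1 a2 : V}
    {i0 : Fin 3} (hi : (K.e (v0, i0)).1 = c) (n0 : K.Nb v0 a b c) (na : K.Nb a v0 a1 a2)
    (A : Set V) (hA : A.ncard ≤ 3) (h2 : c ∉ A) : K.Reach v0 i0 A := by
  obtain ⟨V', _, K', f, r, i, hK', hcard, hred, -, -⟩ := op_M3 hK h4 hc hi n0 na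
  refine cm2_red ih hred hK' (by omega) A hA ?_
  intro x hx
  rw [Finset.mem_singleton.1 hx]
  exact h2

/-- `exists_nb` with `(K.e (v0, i0)).1 = c`: `v0` has the neighbours `a, b, c`, `a` the neighbours
`v0, a1, a2`, `b` the neighbours `v0, b1, b2` (`exists_nb'`).
(1) A common neighbour: if one of `b1, b2` is one of `a1, a2`, we may assume `q = a1 = b1`; `q` has the
neighbours `a, b, q3` (by `Nb.all` and `no_tri`).  If `q3 = c`: `k33_reach`.  Otherwise `op_X`: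
`PS3` for `K'` and the set `f ⁻¹' A` gives
`A ⊆ f '' (f ⁻¹' A) ∪ E` (every vertex is in the range of `f` or in `E`, as `L = ∅`).
(2) No common neighbour: `a1, a2, b1, b2` are four different vertices.  If `c ∉ A`: `op_M3`
(the lost vertex is `c`).  If `c ∈ A`: at most two of `a1, a2, b1, b2` are in `A` (all different from
`c` by `no_tri`), so one of them is not in `A`; by symmetry (`a1`, `a2` exchanged; `a`, `b`
exchanged) `a2 ∉ A`: `op_M1`. -/
theorem s3_c4 {n : ℕ} (ih : PS3 n) {V : Type} [Fintype V] (K : Cub V) (hK : K.Conn3)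
    (hn : Fintype.card V ≤ n + 1) (h4 : K.C4) (hc : 5 ≤ Fintype.card V) (v0 : V) (i0 : Fin 3)
    (A : Set V) (hA : A.ncard ≤ 3) : K.Reach v0 i0 A := by
  have hNc : Nat.card V = Fintype.card V := Nat.card_eq_fintype_card
  have hs : K.Sim := sim_of_conn3 K hK (by omega)
  obtain ⟨a, b, n0⟩ := exists_nb K hs v0 i0
  obtain ⟨c, hi⟩ : ∃ c, (K.e (v0, i0)).1 = c := ⟨_, rfl⟩
  rw [hi] at n0
  obtain ⟨a1, a2, na⟩ := exists_nb' K hs (K.adj_symm n0.ap)
  obtain ⟨b1, b2, nb⟩ := exists_nb' K hs (K.adj_symm n0.aq)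
  by_cases hx1 : b1 = a1
  · subst hx1
    exact cm2_X ih hK hn h4 hc hi n0 na nb A hA
  by_cases hx2 : b1 = a2
  · subst hx2
    exact cm2_X ih hK hn h4 hc hi n0 na.swap23 nb A hA
  by_cases hcA : c ∉ A
  · exact cm2_M3 ih hK hn h4 hc hi n0 na A hA hcA
  by_cases h2 : a2 ∉ A
  · exact cm2_M1 ih hK hn h4 hc hi n0 na A hA h2
  by_cases h1 : a1 ∉ A
  · exact cm2_M1 ih hK hn h4 hc hi n0 na.swap23 A hA h1
  by_cases h3 : b1 ∉ A
  · exact cm2_M1 ih hK hn h4 hc hi n0.swap12 nb.swap23 A hA h3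
  exfalso
  push Not at hcA h2 h1 h3
  have e1 : c ≠ a1 := by
    rintro rfl
    exact no_tri K hK h4 (by omega) n0.ap na.aq n0.ar
  have e2 : c ≠ a2 := by
    rintro rfl
    exact no_tri K hK h4 (by omega) n0.ap na.ar n0.ar
  have e3 : c ≠ b1 := by
    rintro rfl
    exact no_tri K hK h4 (by omega) n0.aq nb.aq n0.ar
  have hsub : ({c, a1, a2, b1} : Set V) ⊆ A := by
    rintro x (rfl | rfl | rfl | rfl)
    exacts [hcA, h1, h2, h3]
  have hcard : ({c, a1, a2, b1} : Set V).ncard = 4 := by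
    rw [Set.ncard_insert_of_notMem, Set.ncard_insert_of_notMem, Set.ncard_pair (Ne.symm hx2)]
    · rintro (h | h)
      · exact na.qr h
      · exact hx1 h.symm
    · rintro (h | h | h)
      · exact e1 h
      · exact e2 h
      · exact e3 h
  have := Set.ncard_le_ncard hsub (Set.toFinite _)
  omega

end B306C
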