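import Pool.Agent.Lib_MP_b306af.CS1

/-!
# MP_b306af, PART I: small graphs
-/

namespace B306C

open Classical

namespace Cub

variable {V : Type}

/-- Two vertices: all ports of `v0` lead to the other vertex `u`.  The cycle consists of the ports
`(v0, j)`, `K.e (v0, j)`, `j ≠ i0`. -/
theorem theta_reach [Finite V] {K : Cub V} (hc : Nat.card V ≤ 2) (v0 : V) (i0 : Fin 3) :
    K.Reach v0 i0 Set.univ := by
  classical
  have := Fintype.ofFinite V
  -- any vertex different from `v0` is the same vertex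
  have huniq : ∀ x y : V, x ≠ v0 → y ≠ v0 → x = y := by
    intro x y hx hy
    by_contra hxy
    have h3 : ({v0, x, y} : Finset V).card = 3 := by
      rw [Finset.card_eq_three]
      exact ⟨v0, x, y, hx.symm, hy.symm, hxy, rfl⟩
    have h4 : ({v0, x, y} : Finset V).card ≤ Fintype.card V := Finset.card_le_univ _
    rw [Nat.card_eq_fintype_card] at hc
    omega
  have hev0 : ∀ i, (K.e (v0, i)).1 ≠ v0 := fun i => K.ne (v0, i)
  have heu : ∀ x : V, x ≠ v0 → ∀ i, (K.e (x, i)).1 = v0 := by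
    intro x hx i
    by_contra h
    exact K.ne (x, i) (huniq _ _ h hx)
  set C : Set (V × Fin 3) := {d | (∃ j, j ≠ i0 ∧ d = (v0, j)) ∨ ∃ j, j ≠ i0 ∧ d = K.e (v0, j)}
    with hC
  have hv0C : ∀ j, (v0, j) ∈ C ↔ j ≠ i0 := by
    intro j
    constructor
    · rintro (⟨j', hj', h⟩ | ⟨j', hj', h⟩)
      · have : j = j' := congrArg Prod.snd h
        rw [this]; exact hj'
      · exact absurd (congrArg Prod.fst h).symm (hev0 j')
    · intro hj
      exact Or.inl ⟨j, hj, rfl⟩
  have huC : ∀ x : V, x ≠ v0 → ∀ j, (x, j) ∈ C ↔ (K.e (x, j)).2 ≠ i0 := by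
    intro x hx j
    have h1 : (K.e (x, j)).1 = v0 := heu x hx j
    have h2 : K.e (x, j) = (v0, (K.e (x, j)).2) := by
      rw [← h1]
    constructor
    · rintro (⟨j', hj', h⟩ | ⟨j', hj', h⟩)
      · exact absurd (congrArg Prod.fst h) hx
      · rw [h, K.inv]
        exact hj'
    · intro hj
      refine Or.inr ⟨(K.e (x, j)).2, hj, ?_⟩
      rw [← h2, K.inv]
  have heven : K.Even C := by
    refine ⟨?_, ?_⟩
    · rintro d (⟨j, hj, rfl⟩ | ⟨j, hj, rfl⟩)
      · exact Or.inr ⟨j, hj, rfl⟩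
      · rw [K.inv]
        exact Or.inl ⟨j, hj, rfl⟩
    · intro v
      by_cases hv : v = v0
      · subst hv
        exact Or.inr ⟨i0, hv0C⟩
      · refine Or.inr ⟨(K.e (v0, i0)).2, ?_⟩
        intro j
        rw [huC v hv j]
        have h1 : (K.e (v0, i0)).1 = v := huniq _ _ (hev0 i0) hv
        have h2 : K.e (v0, i0) = (v, (K.e (v0, i0)).2) := by
          rw [← h1]
        have h3 : (K.e (v, j)).1 = v0 := heu v hv j
        rw [not_iff_not]
        constructor
        · intro h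
          have h4 : K.e (v, j) = (v0, i0) := by
            rw [← h, ← h3]
          rw [← h4, K.inv]
        · intro h
          rw [h, ← h2, K.inv]
  refine ⟨C, ⟨heven, ?_, ?_⟩, hv0C, ?_⟩
  · -- nonempty
    obtain ⟨j, hj⟩ : ∃ j : Fin 3, j ≠ i0 := ⟨i0 + 1, by fin_cases i0 <;> simp⟩
    exact ⟨(v0, j), (hv0C j).2 hj⟩
  · intro C' hsub hev hne
    have key : ∃ j, (v0, j) ∈ C' := by
      obtain ⟨d, hd⟩ := hne
      rcases hsub hd with ⟨j, hj, rfl⟩ | ⟨j, hj, rfl⟩
      · exact ⟨j, hd⟩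
      · refine ⟨j, ?_⟩
        have := hev.mem _ hd
        rwa [K.inv] at this
    obtain ⟨j1, hj1⟩ := key
    have h5 : ∀ j, j ≠ i0 → (v0, j) ∈ C' := by
      rcases hev.deg v0 with h | ⟨i, h⟩
      · exact absurd hj1 (h j1)
      · have h6 : (v0, i0) ∉ C' := fun h' => (hv0C i0).1 (hsub h') rfl
        have h7 : i0 = i := by
          by_contra hne'
          exact h6 ((h i0).2 hne')
        intro j hj
        exact (h j).2 (h7 ▸ hj)
    apply Set.Subset.antisymm hsub
    rintro d (⟨j, hj, rfl⟩ | ⟨j, hj, rfl⟩)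
    · exact h5 j hj
    · exact hev.mem _ (h5 j hj)
  · intro v _
    rcases heven.deg v with h | ⟨i, h⟩
    · exfalso
      by_cases hv : v = v0
      · subst hv
        obtain ⟨j, hj⟩ : ∃ j : Fin 3, j ≠ i0 := ⟨i0 + 1, by fin_cases i0 <;> simp⟩
        exact h j ((hv0C j).2 hj)
      · obtain ⟨j, hj⟩ : ∃ j : Fin 3, j ≠ i0 := ⟨i0 + 1, by fin_cases i0 <;> simp⟩
        have h1 : (K.e (v0, j)).1 = v := huniq _ _ (hev0 j) hv
        apply h (K.e (v0, j)).2
        have h2 : (v, (K.e (v0, j)).2) = K.e (v0, j) := by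
          rw [← h1]
        rw [h2]
        exact Or.inr ⟨j, hj, rfl⟩
    · obtain ⟨j, hj⟩ : ∃ j : Fin 3, j ≠ i := ⟨i + 1, by fin_cases i <;> simp⟩
      exact ⟨j, (h j).2 hj⟩

end Cub

end B306C
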