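import Pool.Agent.Lib_MP_b306af.CS1

/-!
# MP_b306af, PART I: small graphs
-/

namespace B306C

open Classical

namespace Cub

variable {V : Type}

private theorem cs3_all [Finite V] {K : Cub V} (hs : K.Sim) (hc : Nat.card V ≤ 4) (v w : V)
    (h : w ≠ v) : K.Adj v w := by
  have hinj : Function.Injective (fun i : Fin 3 => (K.e (v, i)).1) := fun i j hij => hs v i j hij
  by_contra hcon
  have hrange : ∀ i, (K.e (v, i)).1 ≠ w := fun i hi => hcon ⟨i, hi⟩
  let f : Option (Option (Fin 3)) → V := fun o =>
    match o with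
    | none => v
    | some none => w
    | some (some i) => (K.e (v, i)).1
  have hf : Function.Injective f := by
    rintro (_ | _ | i) (_ | _ | j) hij
    · rfl
    · exact absurd hij.symm h
    · exact absurd hij.symm (K.ne (v, j))
    · exact absurd hij h
    · rfl
    · exact absurd hij.symm (hrange j)
    · exact absurd hij (K.ne (v, i))
    · exact absurd hij (hrange i)
    · rw [hinj hij]
  have h1 := Nat.card_le_card_of_injective f hf
  have h2 : Nat.card (Option (Option (Fin 3))) = 5 := by
    simp [Nat.card_eq_fintype_card]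
  omega

/-- At most four vertices, no parallel edges: `v0` has three different neighbours `a, b, c`
(`exists_nb` with `(K.e (v0, i0)).1 = c`), these are all vertices, and so they are pairwise
adjacent (each has three different neighbours).  Cycle `v0, a, c, b` (`cycle_of_seq`, `n = 4`). -/
theorem k4_reach [Finite V] {K : Cub V} (hs : K.Sim) (hc : Nat.card V ≤ 4) (v0 : V)
    (i0 : Fin 3) : K.Reach v0 i0 Set.univ := by
  have hadj := fun v w => cs3_all hs hc v w
  have hz4 : ∀ k : ZMod 4, k = 0 ∨ k = 1 ∨ k = 2 ∨ k = 3 := by decide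
  have hf3 : ∀ i j : Fin 3, j ≠ i → j = i + 1 ∨ j = i + 2 := by decide
  set a := (K.e (v0, i0 + 1)).1 with ha
  set b := (K.e (v0, i0 + 2)).1 with hb
  set c := (K.e (v0, i0)).1 with hcc
  have e1 : i0 + 1 ≠ i0 := (by decide : ∀ i : Fin 3, i + 1 ≠ i) i0
  have e2 : i0 + 2 ≠ i0 := (by decide : ∀ i : Fin 3, i + 2 ≠ i) i0
  have e3 : i0 + 1 ≠ i0 + 2 := (by decide : ∀ i : Fin 3, i + 1 ≠ i + 2) i0
  have hva : v0 ≠ a := (K.ne (v0, i0 + 1)).symm
  have hvb : v0 ≠ b := (K.ne (v0, i0 + 2)).symm
  have hvc : v0 ≠ c := (K.ne (v0, i0)).symm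
  have hab : a ≠ b := fun h => e3 (hs _ _ _ h)
  have hac : a ≠ c := fun h => e1 (hs _ _ _ h)
  have hbc : b ≠ c := fun h => e2 (hs _ _ _ h)
  let u : ZMod 4 → V := fun k => (![v0, a, c, b] : Fin 4 → V) k
  have hu0 : u 0 = v0 := rfl
  have hu1 : u 1 = a := rfl
  have hu2 : u 2 = c := rfl
  have hu3 : u 3 = b := rfl
  have hu : Function.Injective u := by
    intro k l hkl
    have hk := hz4 k
    have hl := hz4 l
    rcases hk with rfl | rfl | rfl | rfl <;> rcases hl with rfl | rfl | rfl | rfl <;>
      first
      | rfl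
      | exact absurd hkl hva
      | exact absurd hkl hva.symm
      | exact absurd hkl hvb
      | exact absurd hkl hvb.symm
      | exact absurd hkl hvc
      | exact absurd hkl hvc.symm
      | exact absurd hkl hab
      | exact absurd hkl hab.symm
      | exact absurd hkl hac
      | exact absurd hkl hac.symm
      | exact absurd hkl hbc
      | exact absurd hkl hbc.symm
  have hsucc : ∀ k : ZMod 4, k + 1 ≠ k := by decide
  have huadj : ∀ k, K.Adj (u k) (u (k + 1)) := fun k =>
    hadj _ _ (fun h => hsucc k (hu h))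
  have hcyc := cycle_of_seq hs 4 (by norm_num) u hu huadj
  refine ⟨_, hcyc, ?_, ?_⟩
  · intro j
    constructor
    · rintro ⟨k, hk, hk'⟩ rfl
      have hk0 : k = 0 := (hu (hu0.trans hk)).symm
      subst hk0
      have h1 : (0 : ZMod 4) + 1 = 1 := rfl
      have h2 : (0 : ZMod 4) - 1 = 3 := rfl
      rw [h1, h2, hu1, hu3] at hk'
      rcases hk' with h | h
      · exact hac h.symm
      · exact hbc h.symm
    · intro hj
      have h3 := hf3 i0 j hj
      refine ⟨0, rfl, ?_⟩
      have h1 : (0 : ZMod 4) + 1 = 1 := rfl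
      have h2 : (0 : ZMod 4) - 1 = 3 := rfl
      rw [h1, h2, hu1, hu3]
      rcases h3 with h | h
      · left
        rw [h]
      · right
        rw [h]
  · intro v _
    have hv : ∃ k, v = u k := by
      by_contra hcon
      push Not at hcon
      let f : Option (ZMod 4) → V := fun o => o.elim v u
      have hf : Function.Injective f := by
        rintro (_ | k) (_ | l) hkl
        · rfl
        · exact absurd hkl (hcon l)
        · exact absurd hkl.symm (hcon k)
        · exact congrArg some (hu hkl)
      have h1 := Nat.card_le_card_of_injective f hf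
      have h2 : Nat.card (Option (ZMod 4)) = 5 := by
        simp [Nat.card_eq_fintype_card, ZMod.card]
      omega
    obtain ⟨k, rfl⟩ := hv
    obtain ⟨i, hi⟩ := huadj k
    exact ⟨i, k, rfl, Or.inl hi⟩

end Cub

end B306C
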