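import Pool.Agent.Lib_MP_b306af.CM1
import Pool.Agent.Lib_MP_b306af.CM2
import Pool.Agent.Lib_MP_b306af.CS2
import Pool.Agent.Lib_MP_b306af.CS3

/-!
# MP_b306af, PART I: three vertices
-/

namespace B306C

open Classical

open Cub

/-- Induction on `n`.  `Fintype.card V ≤ 2`: `theta_reach`.  `3 ≤ Fintype.card V ≤ 4`:
`sim_of_conn3`, `k4_reach`.  `5 ≤ Fintype.card V`: `s3_c4` or `s3_cut`. -/
theorem s3_all (n : ℕ) : PS3 n := by
  induction n with
  | zero =>
    intro V _ K _ hn v0 _ A _
    exact absurd (Fintype.card_pos_iff.2 ⟨v0⟩) (by omega)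
  | succ n ih =>
    intro V _ K hK hn v0 i0 A hA
    rcases Nat.lt_or_ge 2 (Fintype.card V) with h2 | h2
    · rcases Nat.lt_or_ge (Fintype.card V) 5 with h5 | h5
      · have hs : K.Sim := sim_of_conn3 K hK (by rw [Nat.card_eq_fintype_card]; exact h2)
        exact (k4_reach hs (by rw [Nat.card_eq_fintype_card]; omega) v0 i0).mono
          (Set.subset_univ A)
      · by_cases h4 : K.C4
        · exact s3_c4 ih K hK hn h4 h5 v0 i0 A hA
        · have hX : ∃ X : Set V, K.Cut X := by
            by_contra hc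
            exact h4 (fun X hX => hc ⟨X, hX⟩)
          obtain ⟨X, hX⟩ := hX
          exact s3_cut ih K hK hn hX v0 i0 A hA
    · exact (theta_reach (by rw [Nat.card_eq_fintype_card]; exact h2) v0 i0).mono
        (Set.subset_univ A)

end B306C
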