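import Pool.Agent.Lib_MP_b306af.CM0
import Pool.Agent.Lib_MP_b306af.CO1
import Pool.Agent.Lib_MP_b306af.CRed
import Pool.Agent.Lib_MP_b306af.CA6

/-!
# MP_b306af, PART I: one step M1
-/

namespace B306C

open Classical

open Cub

/-- One application of the first reduction.  `λ = w a2 ≤ m`, `w a2 ≤ w a1`, `m ≤ w c, w x, w y`.
`op_M1`, `PTT n` for `K'` with the weight `w' x = if f x ∈ {v0, a, b, a1} then 0 else w (f x)`, total
`R' = ∑ w - w v0 - w a - w b - w a1 - w a2` (`sum_red`), value `Tf m R'` (`c, x, y` are not in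
`{v0, a, b, a1}`: for `c` by `no_tri`; for `x` because `x ≠ a1` etc.).  `gd_red` adds
`w v0 ^ (4/5) + w a ^ (4/5) + w b ^ (4/5) + w a1 ^ (4/5)`.  With `R = ∑ w - w a - w b`, `w v0 = 0`:
`R' = R - w a1 - w a2 ≥ w c + w x + w y ≥ 3 m` (five different vertices `a1, a2, c, x, y`), and
`Tf_A5` with `s = w a1`, `l = w a2`. -/
theorem step_M1 {n : ℕ} (ih : PTT n) {V : Type} [Fintype V] (K : Cub V) (hK : K.Conn3)
    (hn : Fintype.card V ≤ n + 1) (h4 : K.C4) (hc : 5 ≤ Fintype.card V) {v0 a b c a1 a2 x y : V}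
    {i0 : Fin 3} (hi : (K.e (v0, i0)).1 = c) (n0 : K.Nb v0 a b c) (na : K.Nb a v0 a1 a2)
    (nb : K.Nb b v0 x y) (h1 : x ≠ a1) (h2 : x ≠ a2) (h3 : y ≠ a1) (h4' : y ≠ a2)
    (w : V → ℝ) (m : ℝ) (hw : ∀ v, 0 ≤ w v) (hw0 : w v0 = 0) (hm : 0 ≤ m) (hl : w a2 ≤ m)
    (hs : w a2 ≤ w a1) (hmc : m ≤ w c) (hmx : m ≤ w x) (hmy : m ≤ w y) :
    K.Gd v0 i0 w (w a ^ ((4 : ℝ) / 5) + w b ^ ((4 : ℝ) / 5) + Tf m (∑ v, w v - w a - w b)) := by
  have hcn : 5 ≤ Nat.card V := by rw [Nat.card_eq_fintype_card]; exact hc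
  have tri : ∀ {u v t : V}, K.Adj u v → K.Adj v t → K.Adj u t → False :=
    fun h1 h2 h3 => no_tri K hK h4 hcn h1 h2 h3
  -- adjacencies
  have a0a := n0.ap
  have a0b := n0.aq
  have a0c := n0.ar
  have aa1 := na.aq
  have aa2 := na.ar
  have abx := nb.aq
  have aby := nb.ar
  -- different vertices
  have v0a := K.adj_ne a0a
  have v0b := K.adj_ne a0b
  have v0c := K.adj_ne a0c
  have v0a1 : v0 ≠ a1 := na.pq
  have v0a2 : v0 ≠ a2 := na.pr
  have v0x : v0 ≠ x := nb.pq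
  have v0y : v0 ≠ y := nb.pr
  have ab : a ≠ b := n0.pq
  have ac : a ≠ c := n0.pr
  have bc : b ≠ c := n0.qr
  have a_a1 := K.adj_ne aa1
  have a_a2 := K.adj_ne aa2
  have b_x := K.adj_ne abx
  have b_y := K.adj_ne aby
  have a1a2 : a1 ≠ a2 := na.qr
  have xy : x ≠ y := nb.qr
  have b_a1 : b ≠ a1 := fun h => tri a0a (h ▸ aa1) a0b
  have b_a2 : b ≠ a2 := fun h => tri a0a (h ▸ aa2) a0b
  have c_a1 : c ≠ a1 := fun h => tri a0a (h ▸ aa1) a0c
  have c_a2 : c ≠ a2 := fun h => tri a0a (h ▸ aa2) a0c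
  have a_x : a ≠ x := fun h => tri a0b (h ▸ abx) a0a
  have a_y : a ≠ y := fun h => tri a0b (h ▸ aby) a0a
  have c_x : c ≠ x := fun h => tri a0b (h ▸ abx) a0c
  have c_y : c ≠ y := fun h => tri a0b (h ▸ aby) a0c
  obtain ⟨V', iV', K', f, r, i, hK', hcard, hred, hfr, htth⟩ := op_M1 hK h4 hc hi n0 na
  obtain ⟨a', b', c', x', y', p, z, ha, hb, hc', hx, hy, hT⟩ := htth x y nb h1 h2 h3 h4'
  have sE : ∀ g : V → ℝ, ∑ v ∈ ({v0, a, b, a1} : Finset V), g v = g v0 + (g a + (g b + g a1)) := by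
    intro g
    rw [Finset.sum_insert, Finset.sum_insert, Finset.sum_pair b_a1]
    · simp only [Finset.mem_insert, Finset.mem_singleton, not_or]
      exact ⟨ab, a_a1⟩
    · simp only [Finset.mem_insert, Finset.mem_singleton, not_or]
      exact ⟨v0a, v0b, v0a1⟩
  have inE : ∀ v, v ∈ ({v0, a, b, a1} : Finset V) ↔ v = v0 ∨ v = a ∨ v = b ∨ v = a1 := by
    intro v
    simp only [Finset.mem_insert, Finset.mem_singleton]
  have hsum := sum_red hred w
  rw [sE, Finset.sum_singleton, hw0] at hsum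
  have hgd := ih V' K' hK' (by omega) r i a' b' c' x' y' p z hT
    (fun x => if f x ∈ ({v0, a, b, a1} : Finset V) then 0 else w (f x)) m
    (fun v => by split_ifs; exacts [le_rfl, hw _])
    (by rw [if_pos]; rw [inE, hfr]; exact Or.inl rfl)
    (by rw [if_pos]; rw [inE, ha]; exact Or.inr (Or.inr (Or.inr rfl)))
    (by rw [if_pos]; rw [inE, hb]; exact Or.inr (Or.inr (Or.inl rfl)))
    hm
    (by
      rw [if_neg, hc']
      · exact hmc
      · rw [inE, hc', not_or, not_or, not_or]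
        exact ⟨v0c.symm, ac.symm, bc.symm, c_a1⟩)
    (by
      rw [if_neg, hx]
      · exact hmx
      · rw [inE, hx, not_or, not_or, not_or]
        exact ⟨v0x.symm, a_x.symm, b_x.symm, h1⟩)
    (by
      rw [if_neg, hy]
      · exact hmy
      · rw [inE, hy, not_or, not_or, not_or]
        exact ⟨v0y.symm, a_y.symm, b_y.symm, h3⟩)
  rw [hsum] at hgd
  have hg := gd_red hred w hw hgd
  rw [sE, hw0] at hg
  -- the seven vertices
  have hbig : w a + (w b + (w a1 + (w c + (w a2 + (w x + w y))))) ≤ ∑ v, w v := by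
    have e7 : ∑ v ∈ ({a, b, a1, c, a2, x, y} : Finset V), w v
        = w a + (w b + (w a1 + (w c + (w a2 + (w x + w y))))) := by
      rw [Finset.sum_insert, Finset.sum_insert, Finset.sum_insert, Finset.sum_insert,
        Finset.sum_insert, Finset.sum_pair xy]
      · simp only [Finset.mem_insert, Finset.mem_singleton, not_or]
        exact ⟨h2.symm, h4'.symm⟩
      · simp only [Finset.mem_insert, Finset.mem_singleton, not_or]
        exact ⟨c_a2, c_x, c_y⟩
      · simp only [Finset.mem_insert, Finset.mem_singleton, not_or]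
        exact ⟨c_a1.symm, a1a2, h1.symm, h3.symm⟩
      · simp only [Finset.mem_insert, Finset.mem_singleton, not_or]
        exact ⟨b_a1, bc, b_a2, b_x, b_y⟩
      · simp only [Finset.mem_insert, Finset.mem_singleton, not_or]
        exact ⟨ab, a_a1, ac, a_a2, a_x, a_y⟩
    rw [← e7]
    exact Finset.sum_le_sum_of_subset_of_nonneg (Finset.subset_univ _) (fun v _ _ => hw v)
  have hR : 3 * m ≤ (∑ v, w v - w a - w b) - w a1 - w a2 := by linarith
  have hA5 := Tf_A5 (hw a2) hl hs hR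
  refine hg.mono ?_
  have e1 : ∑ v, w v - (0 + (w a + (w b + w a1))) - w a2
      = (∑ v, w v - w a - w b) - w a1 - w a2 := by ring
  rw [e1]
  have e0 : (0 : ℝ) ≤ (0 : ℝ) ^ ((4 : ℝ) / 5) := Real.rpow_nonneg le_rfl _
  linarith

end B306C
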