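import Pool.Agent.Lib_MP_b306af.CBase
import Pool.Agent.Lib_MP_b306af.CDefs2

/-!
# MP_b306af, PART I: the two-step theorem, a derived cut
-/

namespace B306C

open Classical

open Cub

/-- Let `X` be a nontrivial 3-cut avoiding `v0` and `z` (a neighbour of `v0`), and let `u ≠ v0` be a
neighbour of `v0` in `X` and `t ∈ X` a neighbour of `z`, where `v0` has the neighbours `z, u, o`
and `z` the neighbours `v0, t, t'`, with `o ≠ t'`.  Then the complement of `X ∪ {v0, z}` is a
nontrivial 3-cut avoiding `v0` and disjoint from `X`.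
Proof: `o ∉ X` (`mv2'` at `v0`), `t' ∉ X` (`mv2'` at `z`).  `bd_insert` for `v0`: exactly one port of
`v0` leads to `X`, so `(K.bd (insert v0 X)).ncard = 3 + 3 - 2 = 4`; `bd_insert` for `z`: exactly two
ports of `z` lead to `insert v0 X` (those to `v0` and `t`), so
`(K.bd (insert z (insert v0 X))).ncard = 4 + 3 - 4 = 3`; its complement contains the different
vertices `o`, `t'` (`o ≠ z`, `t' ≠ v0`). -/
theorem derived_cut {V : Type} [Finite V] {K : Cub V} (hK : K.Conn3) {X : Set V}
    (hX : K.Cut X) {v0 z u o t t' : V} (n0 : K.Nb v0 z u o) (nz : K.Nb z v0 t t') (hv : v0 ∉ X)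
    (hz : z ∉ X) (hu : u ∈ X) (ht : t ∈ X) (hot : o ≠ t') :
    K.Cut (X ∪ {v0, z})ᶜ := by
  have ho : o ∉ X := fun h => n0.qr (mv2' K hK hX hv n0.aq n0.ar hu h)
  have ht' : t' ∉ X := fun h => nz.qr (mv2' K hK hX hz nz.aq nz.ar ht h)
  have hn0 := n0.ne
  have hnz := nz.ne
  have c1 : {i : Fin 3 | (K.e (v0, i)).1 ∈ X}.ncard = 1 := by
    obtain ⟨i, j, k, -, -, -, hall, hi, hj, hk⟩ := n0.ports
    have hs : {i : Fin 3 | (K.e (v0, i)).1 ∈ X} = {j} := by
      ext l
      simp only [Set.mem_setOf_eq, Set.mem_singleton_iff]
      constructor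
      · intro hl
        rcases hall l with rfl | rfl | rfl
        · rw [hi] at hl
          exact absurd hl hz
        · rfl
        · rw [hk] at hl
          exact absurd hl ho
      · rintro rfl
        rw [hj]
        exact hu
    rw [hs, Set.ncard_singleton]
  have c2 : {i : Fin 3 | (K.e (z, i)).1 ∈ insert v0 X}.ncard = 2 := by
    obtain ⟨i, j, k, hij, -, -, hall, hi, hj, hk⟩ := nz.ports
    have hs : {i : Fin 3 | (K.e (z, i)).1 ∈ insert v0 X} = {i, j} := by
      ext l
      simp only [Set.mem_setOf_eq, Set.mem_singleton_iff, Set.mem_insert_iff]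
      constructor
      · intro hl
        rcases hall l with rfl | rfl | rfl
        · exact Or.inl rfl
        · exact Or.inr rfl
        · rw [hk] at hl
          rcases hl with hl | hl
          · exact absurd hl.symm nz.pr
          · exact absurd hl ht'
      · rintro (rfl | rfl)
        · exact Or.inl hi
        · right
          rw [hj]
          exact ht
    rw [hs, Set.ncard_pair hij]
  have hz' : z ∉ insert v0 X := by
    rw [Set.mem_insert_iff]
    rintro (h | h)
    · exact hn0.1 h.symm
    · exact hz h
  have b1 := K.bd_insert hv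
  have b2 := K.bd_insert hz'
  rw [c1, hX.2.2] at b1
  rw [c2] at b2
  have hY : X ∪ {v0, z} = insert z (insert v0 X) := by
    ext l
    simp only [Set.mem_union, Set.mem_insert_iff, Set.mem_singleton_iff]
    tauto
  have hcut : K.Cut (X ∪ {v0, z}) := by
    refine ⟨?_, ?_, ?_⟩
    · rw [← Set.ncard_pair hn0.1]
      exact Set.ncard_le_ncard Set.subset_union_right (Set.toFinite _)
    · rw [← Set.ncard_pair hot]
      refine Set.ncard_le_ncard ?_ (Set.toFinite _)
      intro l hl
      simp only [Set.mem_insert_iff, Set.mem_singleton_iff] at hl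
      simp only [Set.mem_compl_iff, Set.mem_union, Set.mem_insert_iff, Set.mem_singleton_iff]
      rcases hl with rfl | rfl
      · rintro (h | h | h)
        · exact ho h
        · exact hn0.2.2 h.symm
        · exact n0.pr h.symm
      · rintro (h | h | h)
        · exact ht' h
        · exact nz.pr h.symm
        · exact hnz.2.2 h.symm
    · rw [hY]
      omega
  exact Cut.compl hcut

end B306C
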