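import Pool.Agent.Lib_MP_b306af.CBase

/-!
# MP_b306af, PART I: removal of a set with four boundary ports
-/

namespace B306C

open Classical

namespace Cub

variable {V : Type}

/-- the four boundary ports of an edge `{u, v}`: two at `u`, two at `v`, and `u`, `v` adjacent -/
structure DQ (K : Cub V) (u v : V) (s1 s2 s3 s4 : V × Fin 3) : Prop where
  quad : K.Quad {u, v} s1 s2 s3 s4
  adj : K.Adj u v
  u1 : s1.1 = u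
  u2 : s2.1 = u
  v3 : s3.1 = v
  v4 : s4.1 = v

/-- `K.rem` on ports: a port whose edge stays outside `Z` -/
theorem rem_e_out {K : Cub V} {Z : Set V} {s1 s2 s3 s4 : V × Fin 3} (hq : K.Quad Z s1 s2 s3 s4)
    (x : {x // x ∉ Z}) (k : Fin 3) (h : (K.e (x.1, k)).1 ∉ Z) :
    (K.rem Z s1 s2 s3 s4 hq).e (x, k) = (⟨(K.e (x.1, k)).1, h⟩, (K.e (x.1, k)).2) := by
  unfold rem
  exact dif_neg h

private theorem CR1_mt {K : Cub V} {Z : Set V} {s1 s2 s3 s4 : V × Fin 3}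
    (hq : K.Quad Z s1 s2 s3 s4) {s s' : V × Fin 3}
    (hs : (s = s1 ∧ s' = s2) ∨ (s = s2 ∧ s' = s1) ∨ (s = s3 ∧ s' = s4) ∨ (s = s4 ∧ s' = s3)) :
    s ∈ K.bd Z ∧ mt s1 s2 s3 s4 s = s' := by
  have h12 := hq.h12
  have h13 := hq.h13
  have h14 := hq.h14
  have h23 := hq.h23
  have h24 := hq.h24
  have h34 := hq.h34
  rcases hs with ⟨rfl, rfl⟩ | ⟨rfl, rfl⟩ | ⟨rfl, rfl⟩ | ⟨rfl, rfl⟩
  · exact ⟨(hq.bd _).2 (Or.inl rfl), by simp [mt]⟩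
  · exact ⟨(hq.bd _).2 (Or.inr (Or.inl rfl)), by simp [mt, h12.symm]⟩
  · exact ⟨(hq.bd _).2 (Or.inr (Or.inr (Or.inl rfl))), by simp [mt, h13.symm, h23.symm]⟩
  · exact ⟨(hq.bd _).2 (Or.inr (Or.inr (Or.inr rfl))),
      by simp [mt, h14.symm, h24.symm, h34.symm]⟩

/-- `K.rem` on ports: the four ports whose edges lead to `Z` are matched -/
theorem rem_e_in {K : Cub V} {Z : Set V} {s1 s2 s3 s4 : V × Fin 3} (hq : K.Quad Z s1 s2 s3 s4)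
    (x : {x // x ∉ Z}) (k : Fin 3) {s s' : V × Fin 3} (h : K.e (x.1, k) = s)
    (hs : (s = s1 ∧ s' = s2) ∨ (s = s2 ∧ s' = s1) ∨ (s = s3 ∧ s' = s4) ∨ (s = s4 ∧ s' = s3)) :
    ∃ h' : (K.e s').1 ∉ Z,
      (K.rem Z s1 s2 s3 s4 hq).e (x, k) = (⟨(K.e s').1, h'⟩, (K.e s').2) := by
  obtain ⟨hb, hm⟩ := CR1_mt hq hs
  subst h
  subst hm
  refine ⟨(hq.mt_bd hb).2, ?_⟩
  unfold rem
  exact dif_pos hb.1

/-- Adjacency in `K.rem`: old edges -/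
theorem rem_adj {K : Cub V} {Z : Set V} {s1 s2 s3 s4 : V × Fin 3} (hq : K.Quad Z s1 s2 s3 s4)
    {x y : V} (hx : x ∉ Z) (hy : y ∉ Z) (h : K.Adj x y) :
    (K.rem Z s1 s2 s3 s4 hq).Adj ⟨x, hx⟩ ⟨y, hy⟩ := by
  obtain ⟨i, rfl⟩ := h
  refine ⟨i, ?_⟩
  rw [rem_e_out hq ⟨x, hx⟩ i hy]

private theorem CR1_adj {K : Cub V} {Z : Set V} {s1 s2 s3 s4 : V × Fin 3}
    (hq : K.Quad Z s1 s2 s3 s4) {x y : V} (hx : x ∉ Z) (hy : y ∉ Z) {s s' : V × Fin 3}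
    (hs : (s = s1 ∧ s' = s2) ∨ (s = s2 ∧ s' = s1) ∨ (s = s3 ∧ s' = s4) ∨ (s = s4 ∧ s' = s3))
    (h1 : (K.e s).1 = x) (h2 : (K.e s').1 = y) :
    (K.rem Z s1 s2 s3 s4 hq).Adj ⟨x, hx⟩ ⟨y, hy⟩ := by
  subst h1
  subst h2
  have e1 : K.e ((K.e s).1, (K.e s).2) = s := K.inv s
  obtain ⟨h', he⟩ := rem_e_in hq ⟨(K.e s).1, hx⟩ (K.e s).2 e1 hs
  exact ⟨(K.e s).2, by rw [he]⟩

/-- Adjacency in `K.rem`: new edges -/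
theorem rem_adj12 {K : Cub V} {Z : Set V} {s1 s2 s3 s4 : V × Fin 3} (hq : K.Quad Z s1 s2 s3 s4)
    {x y : V} (hx : x ∉ Z) (hy : y ∉ Z) (h1 : (K.e s1).1 = x) (h2 : (K.e s2).1 = y) :
    (K.rem Z s1 s2 s3 s4 hq).Adj ⟨x, hx⟩ ⟨y, hy⟩ :=
  CR1_adj hq hx hy (Or.inl ⟨rfl, rfl⟩) h1 h2

/-- Adjacency in `K.rem`: new edges -/
theorem rem_adj34 {K : Cub V} {Z : Set V} {s1 s2 s3 s4 : V × Fin 3} (hq : K.Quad Z s1 s2 s3 s4)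
    {x y : V} (hx : x ∉ Z) (hy : y ∉ Z) (h1 : (K.e s3).1 = x) (h2 : (K.e s4).1 = y) :
    (K.rem Z s1 s2 s3 s4 hq).Adj ⟨x, hx⟩ ⟨y, hy⟩ :=
  CR1_adj hq hx hy (Or.inr (Or.inr (Or.inl ⟨rfl, rfl⟩))) h1 h2

end Cub

end B306C
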