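import Pool.Agent.Lib_MP_b306af.CR1

/-!
# MP_b306af, PART I: removal, boundaries
-/

namespace B306C

open Classical

namespace Cub

variable {V : Type}

/-- Boundaries in `K.rem` and in `K`.  `X0 = Subtype.val '' Y`.  The ports of `X0` whose edge leads
neither to `X0` nor to `Z` are boundary ports in both.  The port `K.e s1` (if it is in `X0`) is a
boundary port of `X0` in `K`, and in `K.rem` iff `K.e s2` is not in `X0`, etc. -/
theorem rem_bd [Finite V] {K : Cub V} {Z : Set V} {s1 s2 s3 s4 : V × Fin 3}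
    (hq : K.Quad Z s1 s2 s3 s4) (Y : Set {x // x ∉ Z}) :
    (K.bd (Subtype.val '' Y)).ncard = ((K.rem Z s1 s2 s3 s4 hq).bd Y).ncard
      + (if (K.e s1).1 ∈ Subtype.val '' Y ∧ (K.e s2).1 ∈ Subtype.val '' Y then 2 else 0)
      + (if (K.e s3).1 ∈ Subtype.val '' Y ∧ (K.e s4).1 ∈ Subtype.val '' Y then 2 else 0) := by
  obtain ⟨X0, hX0⟩ : ∃ X0 : Set V, X0 = Subtype.val '' Y := ⟨_, rfl⟩
  obtain ⟨K', hK'⟩ : ∃ K', K' = K.rem Z s1 s2 s3 s4 hq := ⟨_, rfl⟩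
  have hmem : ∀ x : {x // x ∉ Z}, x.1 ∈ X0 ↔ x ∈ Y := fun x => by
    rw [hX0]
    exact ⟨fun ⟨y, hy, hyx⟩ => (Subtype.ext hyx : y = x) ▸ hy, fun h => ⟨x, h, rfl⟩⟩
  have hZ : ∀ v ∈ X0, v ∉ Z := by rw [hX0]; rintro _ ⟨y, _, rfl⟩; exact y.2
  have hout : ∀ (x : {x // x ∉ Z}) (k : Fin 3), (K.e (x.1, k)).1 ∉ Z →
      ((x, k) ∈ K'.bd Y ↔ (x.1, k) ∈ K.bd X0) := by
    intro x k h
    simp only [bd, Set.mem_setOf_eq]
    rw [hK', rem_e_out hq x k h, hmem, ← hmem ⟨_, h⟩]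
  have hin : ∀ (x : {x // x ∉ Z}) (k : Fin 3) (s s' : V × Fin 3), K.e (x.1, k) = s →
      ((s = s1 ∧ s' = s2) ∨ (s = s2 ∧ s' = s1) ∨ (s = s3 ∧ s' = s4) ∨ (s = s4 ∧ s' = s3)) →
      ((x, k) ∈ K'.bd Y ↔ x.1 ∈ X0 ∧ (K.e s').1 ∉ X0) := by
    intro x k s s' h hs
    obtain ⟨h', e⟩ := rem_e_in hq x k h hs
    simp only [bd, Set.mem_setOf_eq]
    rw [hK', e, hmem, ← hmem ⟨_, h'⟩]
  have hbd : ∀ s, (s = s1 ∨ s = s2 ∨ s = s3 ∨ s = s4) → s ∈ K.bd Z := fun s hs => (hq.bd s).2 hs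
  have hbd' : ∀ d : V × Fin 3, d.1 ∈ X0 → (K.e d).1 ∈ Z → K.e d ∈ K.bd Z := fun d h1 h2 =>
    ⟨h2, by rw [K.inv]; exact hZ _ h1⟩
  let ι : {x // x ∉ Z} × Fin 3 → V × Fin 3 := fun d => (d.1.1, d.2)
  have hι : Function.Injective ι := by
    rintro ⟨x, k⟩ ⟨y, l⟩ h
    have h1 : x.1 = y.1 := congrArg Prod.fst h
    have h2 : k = l := congrArg Prod.snd h
    rw [Subtype.ext h1, h2]
  obtain ⟨T12, hT12⟩ : ∃ T : Set (V × Fin 3), T = if (K.e s1).1 ∈ X0 ∧ (K.e s2).1 ∈ X0 then {K.e s1, K.e s2} else ∅ :=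
    ⟨_, rfl⟩
  obtain ⟨T34, hT34⟩ : ∃ T : Set (V × Fin 3), T = if (K.e s3).1 ∈ X0 ∧ (K.e s4).1 ∈ X0 then {K.e s3, K.e s4} else ∅ :=
    ⟨_, rfl⟩
  have m12 : ∀ d, d ∈ T12 ↔ ((K.e s1).1 ∈ X0 ∧ (K.e s2).1 ∈ X0) ∧ (d = K.e s1 ∨ d = K.e s2) := by
    intro d
    rw [hT12]
    split_ifs with h
    · simp [h]
    · simp only [Set.mem_empty_iff_false, false_iff]
      exact fun hh => h hh.1
  have m34 : ∀ d, d ∈ T34 ↔ ((K.e s3).1 ∈ X0 ∧ (K.e s4).1 ∈ X0) ∧ (d = K.e s3 ∨ d = K.e s4) := by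
    intro d
    rw [hT34]
    split_ifs with h
    · simp [h]
    · simp only [Set.mem_empty_iff_false, false_iff]
      exact fun hh => h hh.1
  -- the ports of `X0` leading to `Z`
  have hport : ∀ s ∈ K.bd Z, (K.e s).1 ∈ X0 → K.e s ∈ K.bd X0 := by
    intro s hs h
    refine ⟨h, ?_⟩
    rw [K.inv]
    exact fun h' => hZ _ h' hs.1
  have key : K.bd X0 = ι '' (K'.bd Y) ∪ (T12 ∪ T34) := by
    ext d
    constructor
    · intro hd
      have hdX : d.1 ∈ X0 := hd.1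
      by_cases h : (K.e d).1 ∈ Z
      · have hb := hbd' d hdX h
        have hcase : ∀ s s', K.e d = s →
            ((s = s1 ∧ s' = s2) ∨ (s = s2 ∧ s' = s1) ∨ (s = s3 ∧ s' = s4) ∨ (s = s4 ∧ s' = s3)) →
            (K.e s').1 ∉ X0 → d ∈ ι '' (K'.bd Y) := by
          intro s s' hs hs' hn
          exact ⟨(⟨d.1, hZ _ hdX⟩, d.2), (hin ⟨d.1, hZ _ hdX⟩ d.2 s s' hs hs').2 ⟨hdX, hn⟩, rfl⟩
        have hde : ∀ s, K.e d = s → d = K.e s := fun s hs => by rw [← hs, K.inv]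
        rcases (hq.bd _).1 hb with h1 | h1 | h1 | h1
        · by_cases h2 : (K.e s2).1 ∈ X0
          · right; left
            rw [m12]
            exact ⟨⟨by rw [← hde _ h1]; exact hdX, h2⟩, Or.inl (hde _ h1)⟩
          · left; exact hcase _ _ h1 (Or.inl ⟨rfl, rfl⟩) h2
        · by_cases h2 : (K.e s1).1 ∈ X0
          · right; left
            rw [m12]
            exact ⟨⟨h2, by rw [← hde _ h1]; exact hdX⟩, Or.inr (hde _ h1)⟩
          · left; exact hcase _ _ h1 (Or.inr (Or.inl ⟨rfl, rfl⟩)) h2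
        · by_cases h2 : (K.e s4).1 ∈ X0
          · right; right
            rw [m34]
            exact ⟨⟨by rw [← hde _ h1]; exact hdX, h2⟩, Or.inl (hde _ h1)⟩
          · left; exact hcase _ _ h1 (Or.inr (Or.inr (Or.inl ⟨rfl, rfl⟩))) h2
        · by_cases h2 : (K.e s3).1 ∈ X0
          · right; right
            rw [m34]
            exact ⟨⟨h2, by rw [← hde _ h1]; exact hdX⟩, Or.inr (hde _ h1)⟩
          · left; exact hcase _ _ h1 (Or.inr (Or.inr (Or.inr ⟨rfl, rfl⟩))) h2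
      · left
        exact ⟨(⟨d.1, hZ _ hdX⟩, d.2), (hout ⟨d.1, hZ _ hdX⟩ d.2 h).2 hd, rfl⟩
    · rintro (⟨⟨x, k⟩, hx, rfl⟩ | hd | hd)
      · by_cases h : (K.e (x.1, k)).1 ∈ Z
        · have hxX : x.1 ∈ X0 := (hmem x).2 hx.1
          exact ⟨hxX, fun h' => hZ _ h' h⟩
        · exact (hout x k h).1 hx
      · rw [m12] at hd
        obtain ⟨⟨h1, h2⟩, rfl | rfl⟩ := hd
        · exact hport _ (hbd _ (Or.inl rfl)) h1
        · exact hport _ (hbd _ (Or.inr (Or.inl rfl))) h2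
      · rw [m34] at hd
        obtain ⟨⟨h1, h2⟩, rfl | rfl⟩ := hd
        · exact hport _ (hbd _ (Or.inr (Or.inr (Or.inl rfl)))) h1
        · exact hport _ (hbd _ (Or.inr (Or.inr (Or.inr rfl)))) h2
  have hdis : Disjoint (ι '' (K'.bd Y)) (T12 ∪ T34) := by
    rw [Set.disjoint_left]
    rintro _ ⟨⟨x, k⟩, hx, rfl⟩ hd
    have hcase : ∀ s s', ι (x, k) = K.e s →
        ((s = s1 ∧ s' = s2) ∨ (s = s2 ∧ s' = s1) ∨ (s = s3 ∧ s' = s4) ∨ (s = s4 ∧ s' = s3)) →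
        (K.e s').1 ∈ X0 → False := by
      intro s s' hs hs' hn
      have h1 : K.e (x.1, k) = s := by
        have : (x.1, k) = K.e s := hs
        rw [this, K.inv]
      exact ((hin x k s s' h1 hs').1 hx).2 hn
    rcases hd with hd | hd
    · rw [m12] at hd
      obtain ⟨⟨h1, h2⟩, h3 | h3⟩ := hd
      · exact hcase _ _ h3 (Or.inl ⟨rfl, rfl⟩) h2
      · exact hcase _ _ h3 (Or.inr (Or.inl ⟨rfl, rfl⟩)) h1
    · rw [m34] at hd
      obtain ⟨⟨h1, h2⟩, h3 | h3⟩ := hd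
      · exact hcase _ _ h3 (Or.inr (Or.inr (Or.inl ⟨rfl, rfl⟩))) h2
      · exact hcase _ _ h3 (Or.inr (Or.inr (Or.inr ⟨rfl, rfl⟩))) h1
  have hdis2 : Disjoint T12 T34 := by
    rw [Set.disjoint_left]
    intro d h1 h2
    rw [m12] at h1
    rw [m34] at h2
    rcases h1.2 with rfl | rfl <;> rcases h2.2 with h | h
    · exact hq.h13 (K.e_inj h)
    · exact hq.h14 (K.e_inj h)
    · exact hq.h23 (K.e_inj h)
    · exact hq.h24 (K.e_inj h)
  have c12 : T12.ncard = if (K.e s1).1 ∈ X0 ∧ (K.e s2).1 ∈ X0 then 2 else 0 := by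
    rw [hT12]
    split_ifs with h
    · exact Set.ncard_pair fun h' => hq.h12 (K.e_inj h')
    · simp
  have c34 : T34.ncard = if (K.e s3).1 ∈ X0 ∧ (K.e s4).1 ∈ X0 then 2 else 0 := by
    rw [hT34]
    split_ifs with h
    · exact Set.ncard_pair fun h' => hq.h34 (K.e_inj h')
    · simp
  rw [← hX0, ← hK', key, Set.ncard_union_eq hdis (Set.toFinite _) (Set.toFinite _),
    Set.ncard_union_eq hdis2 (Set.toFinite _) (Set.toFinite _), c12, c34,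
    Set.ncard_image_of_injective _ hι, add_assoc]

end Cub

end B306C
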