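import Pool.Agent.Lib_MP_b306af.CR2

/-!
# MP_b306af, PART I: deletion of an edge, cuts
-/

namespace B306C

open Classical

namespace Cub

variable {V : Type}

private theorem two_le_of {S : Set (Fin 3)} {i j : Fin 3} (hij : i ≠ j) (hi : i ∈ S) (hj : j ∈ S) :
    2 ≤ S.ncard := by
  have h : ({i, j} : Set (Fin 3)).ncard ≤ S.ncard := by
    apply Set.ncard_le_ncard
    · intro x hx
      rcases hx with rfl | rfl
      · exact hi
      · exact hj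
    · exact Set.toFinite _
  rwa [Set.ncard_pair hij] at h

private theorem three_le_of {S : Set (Fin 3)} {i j k : Fin 3} (hij : i ≠ j) (hik : i ≠ k) (hjk : j ≠ k)
    (hi : i ∈ S) (hj : j ∈ S) (hk : k ∈ S) : 3 ≤ S.ncard := by
  have hall : S = Set.univ := by
    ext x
    simp only [Set.mem_univ, iff_true]
    have h : x = i ∨ x = j ∨ x = k := by
      rw [Ne, Fin.ext_iff] at hij hik hjk
      rw [Fin.ext_iff, Fin.ext_iff, Fin.ext_iff]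
      omega
    rcases h with rfl | rfl | rfl
    · exact hi
    · exact hj
    · exact hk
  rw [hall, Set.ncard_univ, Nat.card_eq_fintype_card, Fintype.card_fin]

private theorem cr4_aux [Finite V] (K : Cub V) {u v : V} (X0 : Set V) (huv : u ≠ v) (hu : u ∉ X0)
    (hv : v ∉ X0) {s1 s2 s3 s4 : V × Fin 3} (u1 : s1.1 = u) (u2 : s2.1 = u) (v3 : s3.1 = v)
    (v4 : s4.1 = v) (h12 : s1 ≠ s2) (h34 : s3 ≠ s4) (ha : K.Adj u v)
    (n3u : (K.e s3).1 ≠ u) (n4u : (K.e s4).1 ≠ u)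
    (hA : (K.e s1).1 ∈ X0 ∧ (K.e s2).1 ∈ X0) :
    ∃ X : Set V, (∀ x, x ≠ u → x ≠ v → (x ∈ X ↔ x ∈ X0)) ∧
      ((K.bd X).ncard + (if (K.e s3).1 ∈ X0 ∧ (K.e s4).1 ∈ X0 then 4 else 2) ≤ (K.bd X0).ncard ∨
        ((K.bd X).ncard + 1 ≤ (K.bd X0).ncard ∧ ¬ ((K.e s3).1 ∈ X0 ∧ (K.e s4).1 ∈ X0) ∧
          (K.e s1).1 ∈ X ∧ (K.e s2).1 ∈ X ∧ (K.e s3).1 ∉ X ∧ (K.e s4).1 ∉ X)) := by
  obtain ⟨a1, i1⟩ := s1
  obtain ⟨a2, i2⟩ := s2
  obtain ⟨a3, i3⟩ := s3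
  obtain ⟨a4, i4⟩ := s4
  simp only at u1 u2 v3 v4
  subst u1 v3
  obtain rfl := u2
  obtain rfl := v4
  have hi12 : i1 ≠ i2 := fun h => h12 (by rw [h])
  have hi34 : i3 ≠ i4 := fun h => h34 (by rw [h])
  obtain ⟨j, hj⟩ := K.adj_symm ha
  have hj3 : j ≠ i3 := fun h => n3u (by rw [← h, hj])
  have hj4 : j ≠ i4 := fun h => n4u (by rw [← h, hj])
  have hU := K.bd_insert hu
  have hU2 : 2 ≤ {i : Fin 3 | (K.e (a2, i)).1 ∈ X0}.ncard := two_le_of hi12 hA.1 hA.2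
  have hvU : a4 ∉ insert a2 X0 := by
    rintro (h | h)
    · exact huv h.symm
    · exact hv h
  have hV := K.bd_insert hvU
  by_cases h3 : (K.e (a4, i3)).1 ∈ X0
  · refine ⟨insert a4 (insert a2 X0), fun x hx1 hx2 => ?_, Or.inl ?_⟩
    · simp [hx1, hx2]
    · by_cases h4 : (K.e (a4, i4)).1 ∈ X0
      · rw [if_pos ⟨h3, h4⟩]
        have h5 : 3 ≤ {i : Fin 3 | (K.e (a4, i)).1 ∈ insert a2 X0}.ncard :=
          three_le_of hj3 hj4 hi34 (Or.inl hj) (Or.inr h3) (Or.inr h4)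
        omega
      · rw [if_neg (fun h => h4 h.2)]
        have h5 : 2 ≤ {i : Fin 3 | (K.e (a4, i)).1 ∈ insert a2 X0}.ncard :=
          two_le_of hj3 (Or.inl hj) (Or.inr h3)
        omega
  · by_cases h4 : (K.e (a4, i4)).1 ∈ X0
    · refine ⟨insert a4 (insert a2 X0), fun x hx1 hx2 => ?_, Or.inl ?_⟩
      · simp [hx1, hx2]
      · rw [if_neg (fun h => h3 h.1)]
        have h5 : 2 ≤ {i : Fin 3 | (K.e (a4, i)).1 ∈ insert a2 X0}.ncard :=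
          two_le_of hj4 (Or.inl hj) (Or.inr h4)
        omega
    · refine ⟨insert a2 X0, fun x hx1 hx2 => ?_, Or.inr ⟨by omega, fun h => h3 h.1, Or.inr hA.1,
        Or.inr hA.2, ?_, ?_⟩⟩
      · simp [hx1]
      · rintro (h | h)
        · exact n3u h
        · exact h3 h
      · rintro (h | h)
        · exact n4u h
        · exact h4 h

/-- Counting for the deletion of the edge `uv`.  Let `Y` be a set of vertices of `K.rem`,
`X0 = Subtype.val '' Y`, `su` the number of `s1, s2` with `(K.e s).1 ∈ X0`, `sv` the number of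
`s3, s4` with `(K.e s).1 ∈ X0`.  By `rem_bd`,
`(K.bd X0).ncard = ((K.rem ..).bd Y).ncard + 2 [su = 2] + 2 [sv = 2]`.  Take
* `su ≤ 1`, `sv ≤ 1`: `X = X0`, equality;
* `su = 2`, `sv = 2`: `X = X0 ∪ {u, v}`: `bd_insert` twice (`+ 3 - 4`, `+ 3 - 6`): equality;
* `su = 2`, `sv = 1`: `X = X0 ∪ {u, v}` (`+ 3 - 4`, `+ 3 - 4`): equality;  symmetric case;
* `su = 2`, `sv = 0`: `X = X0 ∪ {u}` (`+ 3 - 4`): one more; symmetric case. -/
theorem dq_cut [Finite V] {K : Cub V} {u v : V} {s1 s2 s3 s4 : V × Fin 3}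
    (hd : K.DQ u v s1 s2 s3 s4) (Y : Set {x // x ∉ ({u, v} : Set V)}) :
    ∃ X : Set V, (∀ x (hx : x ∉ ({u, v} : Set V)), x ∈ X ↔ ⟨x, hx⟩ ∈ Y) ∧
      ((K.bd X).ncard ≤ ((K.rem {u, v} s1 s2 s3 s4 hd.quad).bd Y).ncard ∨
        ((K.bd X).ncard ≤ ((K.rem {u, v} s1 s2 s3 s4 hd.quad).bd Y).ncard + 1 ∧
          (((K.e s1).1 ∈ X ∧ (K.e s2).1 ∈ X ∧ (K.e s3).1 ∉ X ∧ (K.e s4).1 ∉ X) ∨
            ((K.e s1).1 ∉ X ∧ (K.e s2).1 ∉ X ∧ (K.e s3).1 ∈ X ∧ (K.e s4).1 ∈ X)))) := by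
  set X0 : Set V := Subtype.val '' Y with hX0
  have hmem : ∀ x (hx : x ∉ ({u, v} : Set V)), x ∈ X0 ↔ (⟨x, hx⟩ : {x // x ∉ ({u, v} : Set V)}) ∈ Y := by
    intro x hx
    constructor
    · rintro ⟨y, hy, rfl⟩
      exact hy
    · intro h
      exact ⟨_, h, rfl⟩
  have hu : u ∉ X0 := by
    rintro ⟨y, -, hy⟩
    exact y.2 (Or.inl hy)
  have hv : v ∉ X0 := by
    rintro ⟨y, -, hy⟩
    exact y.2 (Or.inr hy)
  have huv : u ≠ v := by
    obtain ⟨i, hi⟩ := hd.adj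
    exact fun h => K.ne (u, i) (hi.trans h.symm)
  have b1 := ((hd.quad.bd s1).2 (Or.inl rfl)).2
  have b2 := ((hd.quad.bd s2).2 (Or.inr (Or.inl rfl))).2
  have b3 := ((hd.quad.bd s3).2 (Or.inr (Or.inr (Or.inl rfl)))).2
  have b4 := ((hd.quad.bd s4).2 (Or.inr (Or.inr (Or.inr rfl)))).2
  have hbd := rem_bd hd.quad Y
  rw [← hX0] at hbd
  by_cases hA : (K.e s1).1 ∈ X0 ∧ (K.e s2).1 ∈ X0
  · rw [if_pos hA] at hbd
    obtain ⟨X, hX1, hX2⟩ := cr4_aux K X0 huv hu hv hd.u1 hd.u2 hd.v3 hd.v4 hd.quad.h12 hd.quad.h34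
      hd.adj (fun h => b3 (Or.inl h)) (fun h => b4 (Or.inl h)) hA
    refine ⟨X, fun x hx => ?_, ?_⟩
    · rw [hX1 x (fun h => hx (Or.inl h)) (fun h => hx (Or.inr h)), hmem x hx]
    · rcases hX2 with h | ⟨h, hB, h1, h2, h3, h4⟩
      · left
        split_ifs at h hbd <;> omega
      · right
        rw [if_neg hB] at hbd
        exact ⟨by omega, Or.inl ⟨h1, h2, h3, h4⟩⟩
  · rw [if_neg hA] at hbd
    by_cases hB : (K.e s3).1 ∈ X0 ∧ (K.e s4).1 ∈ X0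
    · rw [if_pos hB] at hbd
      obtain ⟨X, hX1, hX2⟩ := cr4_aux K X0 huv.symm hv hu hd.v3 hd.v4 hd.u1 hd.u2 hd.quad.h34
        hd.quad.h12 (K.adj_symm hd.adj) (fun h => b1 (Or.inr h)) (fun h => b2 (Or.inr h)) hB
      refine ⟨X, fun x hx => ?_, ?_⟩
      · rw [hX1 x (fun h => hx (Or.inr h)) (fun h => hx (Or.inl h)), hmem x hx]
      · rcases hX2 with h | ⟨h, -, h1, h2, h3, h4⟩
        · left
          rw [if_neg hA] at h
          omega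
        · right
          exact ⟨by omega, Or.inr ⟨h3, h4, h1, h2⟩⟩
    · rw [if_neg hB] at hbd
      exact ⟨X0, hmem, Or.inl (by omega)⟩

end Cub

end B306C
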