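import Pool.Agent.Lib_MP_b306af.CDefs2

/-!
# MP_b306af, PART I: explicit cycles
-/

namespace B306C

open Classical

namespace Cub

variable {V : Type}

private theorem cs1_third : ∀ i1 i2 : Fin 3, i1 ≠ i2 → ∃ i : Fin 3, ∀ j : Fin 3,
    (j = i1 ∨ j = i2) ↔ j ≠ i := by
  decide

/-- A closed sequence of `n ≥ 3` different vertices `u 0, u 1, .., u (n-1)` (indices in `ZMod n`),
consecutive ones adjacent, in a graph without parallel edges: the ports of `u k` leading to
`u (k+1)` and `u (k-1)` form a cycle.  Minimality: an even nonempty subset containing a port of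
`u k` contains the ports of `u k` to `u (k+1)` and `u (k-1)`, then those of `u (k+1)`, etc. -/
theorem cycle_of_seq {K : Cub V} (hs : K.Sim) (n : ℕ) (hn : 3 ≤ n) (u : ZMod n → V)
    (hu : Function.Injective u) (ha : ∀ k, K.Adj (u k) (u (k + 1))) :
    K.IsCycle {d | ∃ k, d.1 = u k ∧ ((K.e d).1 = u (k + 1) ∨ (K.e d).1 = u (k - 1))} := by
  haveI : NeZero n := ⟨by omega⟩
  have h2 : ∀ k : ZMod n, u (k + 1) ≠ u (k - 1) := by
    intro k h
    have h1 := hu h
    have h3 : (2 : ZMod n) = 0 := by linear_combination h1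
    have h4 : ((2 : ℕ) : ZMod n) = 0 := by exact_mod_cast h3
    rw [ZMod.natCast_eq_zero_iff] at h4
    exact absurd (Nat.le_of_dvd (by norm_num) h4) (by omega)
  set C : Set (V × Fin 3) :=
    {d | ∃ k, d.1 = u k ∧ ((K.e d).1 = u (k + 1) ∨ (K.e d).1 = u (k - 1))} with hC
  have hmem : ∀ d ∈ C, K.e d ∈ C := by
    rintro d ⟨k, hk1, hk2 | hk2⟩
    · refine ⟨k + 1, hk2, Or.inr ?_⟩
      rw [K.inv, hk1]
      congr 1
      ring
    · refine ⟨k - 1, hk2, Or.inl ?_⟩
      rw [K.inv, hk1]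
      congr 1
      ring
  have hpn : ∀ k, ∃ j, (u k, j) ∈ C ∧ (K.e (u k, j)).1 = u (k + 1) := by
    intro k
    obtain ⟨j, hj⟩ := ha k
    exact ⟨j, ⟨k, rfl, Or.inl hj⟩, hj⟩
  have hdeg : ∀ k, ∃ i, ∀ j, (u k, j) ∈ C ↔ j ≠ i := by
    intro k
    obtain ⟨i1, h1, h1'⟩ := hpn k
    have hadj : K.Adj (u k) (u (k - 1)) := by
      have := K.adj_symm (ha (k - 1))
      rwa [sub_add_cancel] at this
    obtain ⟨i2, h3⟩ := hadj
    have hne : i1 ≠ i2 := by
      rintro rfl
      exact h2 k (h1'.symm.trans h3)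
    obtain ⟨i, hi⟩ := cs1_third i1 i2 hne
    refine ⟨i, fun j => ?_⟩
    rw [← hi j]
    constructor
    · rintro ⟨k', hk1, hk2⟩
      have hkk : k = k' := hu hk1
      subst hkk
      rcases hk2 with hk2 | hk2
      · left
        exact hs _ _ _ (hk2.trans h1'.symm)
      · right
        exact hs _ _ _ (hk2.trans h3.symm)
    · rintro (rfl | rfl)
      · exact h1
      · exact ⟨k, rfl, Or.inr h3⟩
  refine ⟨⟨hmem, ?_⟩, ?_, ?_⟩
  · intro v
    by_cases hv : ∃ k, v = u k
    · obtain ⟨k, rfl⟩ := hv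
      exact Or.inr (hdeg k)
    · left
      rintro i ⟨k, hk, -⟩
      exact hv ⟨k, hk⟩
  · obtain ⟨j, hj, -⟩ := hpn 0
    exact ⟨_, hj⟩
  · intro C' hsub hev hne
    -- all ports of `C` at a vertex which has a port in `C'` are in `C'`
    have hstep : ∀ k, (∃ j, (u k, j) ∈ C') → ∀ j, (u k, j) ∈ C → (u k, j) ∈ C' := by
      rintro k ⟨j0, hj0⟩ j hj
      obtain ⟨i, hi⟩ := hdeg k
      rcases hev.deg (u k) with h | ⟨i', hi'⟩
      · exact absurd hj0 (h j0)
      · have hii : i = i' := by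
          by_contra hcon
          exact ((hi i).1 (hsub ((hi' i).2 hcon))) rfl
        rw [hi', ← hii]
        exact (hi j).1 hj
    obtain ⟨d0, hd0⟩ := hne
    obtain ⟨k0, hk0, -⟩ := hsub hd0
    have hall : ∀ m : ℕ, ∃ j, (u (k0 + m), j) ∈ C' := by
      intro m
      induction m with
      | zero =>
        refine ⟨d0.2, ?_⟩
        rw [Nat.cast_zero, add_zero, ← hk0]
        exact hd0
      | succ m ih =>
        obtain ⟨j, hj, hj'⟩ := hpn (k0 + m)
        have h3 := hev.mem _ (hstep _ ih j hj)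
        refine ⟨(K.e (u (k0 + m), j)).2, ?_⟩
        have h4 : k0 + ((m + 1 : ℕ) : ZMod n) = k0 + m + 1 := by push_cast; ring
        rw [h4, ← hj']
        exact h3
    have hall' : ∀ k, ∃ j, (u k, j) ∈ C' := by
      intro k
      have := hall (k - k0).val
      rwa [ZMod.natCast_zmod_val, add_sub_cancel] at this
    apply Set.Subset.antisymm hsub
    rintro ⟨v, j⟩ hd
    have hd' := hd
    obtain ⟨k, hk, -⟩ := hd'
    change v = u k at hk
    subst hk
    exact hstep k (hall' k) j hd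

end Cub

end B306C
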