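import Pool.Agent.Lib_MP_b306af.CR2

/-!
# MP_b306af, PART I: cross-removal of two adjacent vertices `b`, `q`

`v0` has the neighbours `a, b, c`, `q` is a common neighbour of `a` and `b`, `q3` the third
neighbour of `q`, `b2` the third neighbour of `b`.  In `K.rem {b, q}` the port of `v0` to `b` is
joined with the port of `q3` to `q`, the port of `b2` to `b` with the port of `a` to `q`.
-/

namespace B306C

open Classical

namespace Cub

variable {V : Type}

/-- the data of a cross-removal -/
structure XQ (K : Cub V) (v0 a b c q a2 b2 q3 : V) (s1 s2 s3 s4 : V × Fin 3) : Prop where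
  n0 : K.Nb v0 a b c
  na : K.Nb a v0 q a2
  nb : K.Nb b v0 q b2
  nq : K.Nb q a b q3
  quad : K.Quad {b, q} s1 s2 s3 s4
  u1 : s1.1 = b
  u2 : s2.1 = q
  u3 : s3.1 = b
  u4 : s4.1 = q
  e1 : (K.e s1).1 = v0
  e2 : (K.e s2).1 = q3
  e3 : (K.e s3).1 = b2
  e4 : (K.e s4).1 = a

/-- Existence of the four ports (`Nb.ports` for `b` and `q`).  The loop conditions of `Quad`:
`v0 ≠ q3` (otherwise `v0, a, q` is a triangle, `no_tri`), `b2 ≠ a` (otherwise `a, b, v0` is one). -/
theorem exists_xq [Finite V] {K : Cub V} (hK : K.Conn3) (h4 : K.C4) (hc : 5 ≤ Nat.card V)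
    {v0 a b c q a2 b2 q3 : V} (n0 : K.Nb v0 a b c) (na : K.Nb a v0 q a2) (nb : K.Nb b v0 q b2)
    (nq : K.Nb q a b q3) : ∃ s1 s2 s3 s4, K.XQ v0 a b c q a2 b2 q3 s1 s2 s3 s4 := by
  obtain ⟨i, j, k, hij, hik, hjk, hall, hi, hj, hk⟩ := nb.ports
  obtain ⟨i', j', k', hij', hik', hjk', hall', hi', hj', hk'⟩ := nq.ports
  have hbq : b ≠ q := nb.ne.2.1
  have hv3 : v0 ≠ q3 := by
    intro h
    have h1 : K.Adj v0 q := K.adj_symm (h ▸ nq.ar)
    exact no_tri K hK h4 hc n0.ap na.aq h1
  have hb2 : b2 ≠ a := by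
    intro h
    have h1 : K.Adj b a := h ▸ nb.ar
    exact no_tri K hK h4 hc n0.ap (K.adj_symm h1) n0.aq
  refine ⟨(b, i), (q, k'), (b, k), (q, i'), ?_⟩
  refine ⟨n0, na, nb, nq, ?_, rfl, rfl, rfl, rfl, hi, hk', hk, hi'⟩
  refine ⟨?_, ?_, ?_, ?_, ?_, ?_, ?_, ?_, ?_⟩
  · rintro ⟨x, l⟩
    constructor
    · rintro ⟨h1, h2⟩
      rcases h1 with h1 | h1
      · have h1' : x = b := h1
        subst h1'
        rcases hall l with rfl | rfl | rfl
        · exact Or.inl rfl
        · exfalso
          apply h2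
          rw [hj]
          exact Or.inr rfl
        · exact Or.inr (Or.inr (Or.inl rfl))
      · have h1' : x = q := h1
        subst h1'
        rcases hall' l with rfl | rfl | rfl
        · exact Or.inr (Or.inr (Or.inr rfl))
        · exfalso
          apply h2
          rw [hj']
          exact Or.inl rfl
        · exact Or.inr (Or.inl rfl)
    · rintro (h | h | h | h)
      · rw [h]
        refine ⟨Or.inl rfl, ?_⟩
        rw [hi]
        rintro (h5 | h5)
        · exact nb.ne.1 h5.symm
        · exact nb.pq h5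
      · rw [h]
        refine ⟨Or.inr rfl, ?_⟩
        rw [hk']
        rintro (h5 | h5)
        · exact nq.qr h5.symm
        · exact nq.ne.2.2 h5.symm
      · rw [h]
        refine ⟨Or.inl rfl, ?_⟩
        rw [hk]
        rintro (h5 | h5)
        · exact nb.ne.2.2 h5.symm
        · exact nb.qr h5.symm
      · rw [h]
        refine ⟨Or.inr rfl, ?_⟩
        rw [hi']
        rintro (h5 | h5)
        · exact nq.pq h5
        · exact nq.ne.1 h5.symm
  · exact fun h => hbq (congrArg Prod.fst h)
  · exact fun h => hik (congrArg Prod.snd h)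
  · exact fun h => hbq (congrArg Prod.fst h)
  · exact fun h => hbq (congrArg Prod.fst h).symm
  · exact fun h => hik' (congrArg Prod.snd h).symm
  · exact fun h => hbq (congrArg Prod.fst h)
  · rw [hi, hk']
    exact hv3
  · rw [hk, hi']
    exact hb2

end Cub

end B306C
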