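import Mathlib

/-!
# Abstract cubic graphs (MP_b306af, interface of Part I)
-/

namespace P1

/-- a cubic graph without loops, given by the pairing of the ports -/
structure Cub (V : Type) where
  e : V × Fin 3 → V × Fin 3
  inv : ∀ d, e (e d) = d
  ne : ∀ d, (e d).1 ≠ d.1

namespace Cub

variable {V : Type}

/-- every edge cut has at least three edges -/
def Conn3 (K : Cub V) : Prop :=
  ∀ X : Set V, X.Nonempty → Xᶜ.Nonempty →
    3 ≤ {d : V × Fin 3 | d.1 ∈ X ∧ (K.e d).1 ∉ X}.ncard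

/-- edge sets (closed sets of ports) with 0 or 2 ports at every vertex -/
structure Even (K : Cub V) (C : Set (V × Fin 3)) : Prop where
  closed : ∀ d ∈ C, K.e d ∈ C
  deg : ∀ v, {i | (v, i) ∈ C}.ncard = 0 ∨ {i | (v, i) ∈ C}.ncard = 2

/-- cycles: minimal nonempty even sets -/
structure Cycle (K : Cub V) (C : Set (V × Fin 3)) : Prop where
  even : K.Even C
  nonempty : C.Nonempty
  minimal : ∀ C' : Set (V × Fin 3), C' ⊆ C → C'.Nonempty → K.Even C' → C' = C

end Cub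

open Classical in
/-- the 0.8 theorem of Part I -/
def ThmI : Prop :=
  ∀ (V : Type) [Fintype V] (K : Cub V), K.Conn3 →
    ∀ (v0 : V) (i0 : Fin 3) (w : V → ℝ), (∀ v, 0 ≤ w v) →
      ∃ C : Set (V × Fin 3), K.Cycle C ∧ (v0, i0) ∉ C ∧ (∀ j, j ≠ i0 → (v0, j) ∈ C) ∧
        (∑ v ∈ Finset.univ.erase v0, w v) ^ (4 / 5 : ℝ) ≤
          ∑ v ∈ {v ∈ Finset.univ.erase v0 | ∃ i, (v, i) ∈ C}, w v ^ (4 / 5 : ℝ)

end P1
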