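import Mathlib

/-!
# Combinatorial triangulations of the sphere (MP_b306af, Part IV, definitions)

`Tri V` : an oriented triangulation of the sphere, given by the relation
`F a b c` : `a, b, c` is a face, in counterclockwise order.  The type `V` may
contain points which are not vertices (`Supp` = vertices which occur in faces).
The two global axioms are `trans` (the dual graph is connected) and `exact`
(first cohomology is zero); both are stable under contraction, splitting along
triangles and flips.  The outer face is simply one of the faces.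
-/

namespace P4

/-- an oriented triangulation of the sphere -/
structure Tri (V : Type) where
  F : V → V → V → Prop
  cyc : ∀ a b c, F a b c → F b c a
  uniq : ∀ a b c d, F a b c → F a b d → c = d
  opp : ∀ a b c, F a b c → ∃ d, F b a d
  ne : ∀ a b c, F a b c → a ≠ b
  trans : ∀ P : V → V → Prop,
    (∀ a b c, F a b c → P a b → P b c) → (∀ a b c, F a b c → P a b → P b a) →
    ∀ a b c x y z, F a b c → F x y z → P a b → P x y
  exact : ∀ κ : V → V → ℝ, (∀ a b, κ a b = - κ b a) →
    (∀ a b c, F a b c → κ a b + κ b c + κ c a = 0) →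
    ∃ h : V → ℝ, ∀ a b c, F a b c → κ a b = h b - h a

/-- `(a, b, c)` is a cyclic rotation of `(o1, o2, o3)` -/
def Cyc3 {V : Type} (o1 o2 o3 a b c : V) : Prop :=
  (a = o1 ∧ b = o2 ∧ c = o3) ∨ (a = o2 ∧ b = o3 ∧ c = o1) ∨ (a = o3 ∧ b = o1 ∧ c = o2)

/-- twice the signed area of the triangle `P Q R` -/
def det3 (P Q R : ℝ × ℝ) : ℝ := (Q.1 - P.1) * (R.2 - P.2) - (R.1 - P.1) * (Q.2 - P.2)

/-- abscissa of the point where the line `P Q` meets the axis `y = 0` -/
noncomputable def crossAt (P Q : ℝ × ℝ) : ℝ := (P.1 * Q.2 - Q.1 * P.2) / (Q.2 - P.2)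

variable {V : Type}

namespace Tri

/-- `a b` is an edge -/
def Adj (T : Tri V) (a b : V) : Prop := ∃ c, T.F a b c

/-- `a` is a vertex of the triangulation -/
def Supp (T : Tri V) (a : V) : Prop := ∃ b c, T.F a b c

open Classical in
/-- third vertex of the face on the left of the dart `a b` -/
noncomputable def nx (T : Tri V) (a b : V) : V := if h : ∃ c, T.F a b c then h.choose else a

theorem cyc2 (T : Tri V) {a b c : V} (h : T.F a b c) : T.F c a b := T.cyc _ _ _ (T.cyc _ _ _ h)

theorem Adj.symm {T : Tri V} {a b : V} (h : T.Adj a b) : T.Adj b a := by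
  obtain ⟨c, hc⟩ := h
  exact T.opp _ _ _ hc

theorem Adj.ne {T : Tri V} {a b : V} (h : T.Adj a b) : a ≠ b := by
  obtain ⟨c, hc⟩ := h
  exact T.ne _ _ _ hc

theorem Adj.supp {T : Tri V} {a b : V} (h : T.Adj a b) : T.Supp a := by
  obtain ⟨c, hc⟩ := h
  exact ⟨b, c, hc⟩

theorem F_nx (T : Tri V) {a b : V} (h : T.Adj a b) : T.F a b (T.nx a b) := by
  unfold nx
  have h' : ∃ c, T.F a b c := h
  rw [dif_pos h']
  exact h'.choose_spec

theorem nx_eq (T : Tri V) {a b c : V} (h : T.F a b c) : T.nx a b = c :=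
  T.uniq _ _ _ _ (T.F_nx ⟨c, h⟩) h

/-- the mirror image -/
def mirror (T : Tri V) : Tri V where
  F a b c := T.F b a c
  cyc a b c h := T.cyc2 h
  uniq a b c d h h' := T.uniq _ _ _ _ h h'
  opp a b c h := T.opp _ _ _ h
  ne a b c h := (T.ne _ _ _ h).symm
  trans P h1 h2 a b c x y z hf hg hP := by
    refine T.trans (fun s t => P t s) ?_ ?_ b a c y x z hf hg hP
    · intro s t r hF hQ
      exact h1 s r t (T.cyc2 hF) (h1 t s r hF hQ)
    · intro s t r hF hQ
      exact h2 t s r hF hQ
  exact κ hκ hz := by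
    obtain ⟨h, hh⟩ := T.exact κ hκ (by
      intro a b c hF
      have := hz b a c hF
      have e1 := hκ b a
      have e2 := hκ a c
      have e3 := hκ c b
      linarith)
    refine ⟨h, fun a b c hF => ?_⟩
    have := hh b a c hF
    have e1 := hκ a b
    linarith

@[simp] theorem mirror_F (T : Tri V) (a b c : V) : T.mirror.F a b c ↔ T.F b a c := Iff.rfl

theorem mirror_Adj (T : Tri V) (a b : V) : T.mirror.Adj a b ↔ T.Adj a b :=
  ⟨fun h => Adj.symm h, fun h => Adj.symm h⟩

theorem mirror_Supp (T : Tri V) (a : V) : T.mirror.Supp a ↔ T.Supp a := by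
  constructor
  · rintro ⟨b, c, h⟩
    exact ⟨c, b, T.cyc _ _ _ h⟩
  · rintro ⟨b, c, h⟩
    exact ⟨c, b, T.cyc2 h⟩

end Tri

/-- number of oriented faces (three for each face) -/
noncomputable def numF (T : Tri V) : ℕ := Set.ncard {t : V × V × V | T.F t.1 t.2.1 t.2.2}

/-- A triangulation with an outer face `(o1, o2, o3)`, a partition of the vertices
(`side = 1` : above the axis, `side = -1` : below, `side = 0` : on the axis), labels
`A u w` for the edges `u w` with `side u = 1`, `side w = -1` (wanted abscissa of the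
crossing of the edge with the axis) and `X s` for the vertices on the axis. -/
structure Setup (V : Type) where
  T : Tri V
  side : V → SignType
  o1 : V
  o2 : V
  o3 : V
  A : V → V → ℝ
  X : V → ℝ

namespace Setup

def Outer (S : Setup V) (v : V) : Prop := v = S.o1 ∨ v = S.o2 ∨ v = S.o3

/-- the face `(a, b, c)` is the outer face -/
def IsO (S : Setup V) (a b c : V) : Prop := Cyc3 S.o1 S.o2 S.o3 a b c

/-- The conditions on the data. -/
structure Good (S : Setup V) : Prop where
  h0 : S.T.F S.o1 S.o2 S.o3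
  plus0 : ∃ v, S.Outer v ∧ S.side v = 1
  minus0 : ∃ v, S.Outer v ∧ S.side v = -1
  /-- (C1) the vertices on the axis are independent -/
  indep : ∀ a b c, S.T.F a b c → S.side a = 0 → S.side b ≠ 0
  /-- (C2) both sides are connected -/
  conn : ∀ σ : SignType, σ ≠ 0 → ∀ P : V → Prop,
    (∀ a b c, S.T.F a b c → S.side a = σ → S.side b = σ → P a → P b) →
    ∀ a b, S.T.Supp a → S.T.Supp b → S.side a = σ → S.side b = σ → P a → P b
  /-- (C3) a vertex on the axis has neighbours on both sides -/
  nbr : ∀ σ : SignType, σ ≠ 0 → ∀ s, S.T.Supp s → S.side s = 0 →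
    ∃ x, S.T.Adj s x ∧ S.side x = σ
  /-- the labels increase along the axis, in every face but the outer one -/
  lab1 : ∀ u w w', S.T.F u w w' → ¬ S.IsO u w w' → S.side u = 1 → S.side w = -1 →
    S.side w' = -1 → S.A u w < S.A u w'
  lab2 : ∀ w u' u, S.T.F w u' u → ¬ S.IsO w u' u → S.side w = -1 → S.side u' = 1 →
    S.side u = 1 → S.A u w < S.A u' w
  lab3 : ∀ u w s, S.T.F u w s → ¬ S.IsO u w s → S.side u = 1 → S.side w = -1 →
    S.side s = 0 → S.A u w < S.X s
  lab4 : ∀ w u s, S.T.F w u s → ¬ S.IsO w u s → S.side w = -1 → S.side u = 1 →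
    S.side s = 0 → S.X s < S.A u w

/-- admissible positions of the outer vertices -/
structure OuterOK (S : Setup V) (Q : V → ℝ × ℝ) : Prop where
  sgn : ∀ v, S.Outer v → SignType.sign (Q v).2 = S.side v
  abs0 : ∀ v, S.Outer v → S.side v = 0 → (Q v).1 = S.X v
  cross : ∀ u w, S.Outer u → S.Outer w → S.side u = 1 → S.side w = -1 →
    crossAt (Q u) (Q w) = S.A u w

/-- `P` is a drawing of `S` with labels up to `ε` -/
structure Drawn (S : Setup V) (ε : ℝ) (P : V → ℝ × ℝ) : Prop where
  pos : ∀ a b c, S.T.F a b c → ¬ S.IsO a b c → 0 < det3 (P a) (P b) (P c)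
  sgn : ∀ v, S.T.Supp v → SignType.sign (P v).2 = S.side v
  abs0 : ∀ v, S.T.Supp v → S.side v = 0 → (P v).1 = S.X v
  near : ∀ u w, S.T.Adj u w → S.side u = 1 → S.side w = -1 →
    |crossAt (P u) (P w) - S.A u w| < ε

/-- the main statement of Part IV for one setup -/
def IV (S : Setup V) : Prop :=
  ∀ Q : V → ℝ × ℝ, S.OuterOK Q → ∀ ε : ℝ, 0 < ε →
    ∃ P : V → ℝ × ℝ, (∀ v, S.Outer v → P v = Q v) ∧ S.Drawn ε P

/-- reflection in the axis -/
def mirror (S : Setup V) : Setup V where
  T := S.T.mirror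
  side v := - S.side v
  o1 := S.o2
  o2 := S.o1
  o3 := S.o3
  A u w := S.A w u
  X := S.X

end Setup

end P4
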