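import Pool.Agent.Lib_MP_b306af.PosPlanar
import Pool.Agent.Lib_MP_b306af.P4Defs

/-! # MP_b306af: from positively oriented inner faces to drawings of `G` -/

namespace B306

open Filter Topology

variable {V W : Type}

/-- a closed oriented surface: if all faces but one are positively oriented, then the last one is
negatively oriented -/
theorem neg_of_pos [Finite W] {F : W → W → W → Prop} (hF : Pre F) {o1 o2 o3 : W}
    (ho : F o1 o2 o3) {P : W → Pl}
    (hpos : ∀ a b c, F a b c → ¬ Rot3 o1 o2 o3 a b c → 0 < D (P a) (P b) (P c)) :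
    D (P o1) (P o2) (P o3) < 0 := by
  classical
  have := Fintype.ofFinite W
  by_contra hcon
  have hcon' : 0 ≤ D (P o1) (P o2) (P o3) := not_lt.1 hcon
  -- all darts
  let g : W → W → ℝ := fun a b => cr (P a) (P b)
  have hg : ∀ a b, g a b = - g b a := fun a b => cr_swap _ _
  let Ds : Finset (W × W) := Finset.univ.filter (fun d => ∃ c, F d.1 d.2 c)
  let Fs : Finset (W × W × W) := Finset.univ.filter (fun t => F t.1 t.2.1 t.2.2)
  have h0 : ∑ d ∈ Ds, g d.1 d.2 = 0 := by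
    have h1 : ∑ d ∈ Ds, g d.1 d.2 = ∑ d ∈ Ds, g d.2 d.1 := by
      refine Finset.sum_equiv (Equiv.prodComm W W) ?_ ?_
      · rintro ⟨a, b⟩
        simp only [Ds, Finset.mem_filter, Finset.mem_univ, true_and, Equiv.prodComm_apply,
          Prod.swap_prod_mk]
        exact ⟨fun ⟨c, hc⟩ => hF.opp _ _ _ hc, fun ⟨c, hc⟩ => hF.opp _ _ _ hc⟩
      · rintro ⟨a, b⟩ _
        rfl
    have h2 : ∑ d ∈ Ds, g d.2 d.1 = - ∑ d ∈ Ds, g d.1 d.2 := by
      rw [← Finset.sum_neg_distrib]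
      exact Finset.sum_congr rfl (fun d _ => hg _ _)
    linarith
  have s1 : ∑ t ∈ Fs, g t.1 t.2.1 = ∑ d ∈ Ds, g d.1 d.2 := by
    refine Finset.sum_bij (fun t _ => (t.1, t.2.1)) ?_ ?_ ?_ ?_
    · rintro ⟨a, b, c⟩ h
      simp only [Fs, Ds, Finset.mem_filter, Finset.mem_univ, true_and] at h ⊢
      exact ⟨c, h⟩
    · rintro ⟨a, b, c⟩ h ⟨a', b', c'⟩ h' e
      simp only [Fs, Finset.mem_filter, Finset.mem_univ, true_and] at h h'
      simp only [Prod.mk.injEq] at e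
      obtain ⟨rfl, rfl⟩ := e
      rw [hF.uniq _ _ _ _ h h']
    · rintro ⟨a, b⟩ h
      simp only [Ds, Finset.mem_filter, Finset.mem_univ, true_and] at h
      obtain ⟨c, hc⟩ := h
      exact ⟨(a, b, c), by simpa [Fs] using hc, rfl⟩
    · intro t _
      rfl
  -- rotation
  let rot : W × W × W ≃ W × W × W :=
    { toFun := fun t => (t.2.1, t.2.2, t.1)
      invFun := fun t => (t.2.2, t.1, t.2.1)
      left_inv := fun t => rfl
      right_inv := fun t => rfl }
  have hrot : ∀ t, t ∈ Fs ↔ rot t ∈ Fs := by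
    rintro ⟨a, b, c⟩
    simp only [Fs, Finset.mem_filter, Finset.mem_univ, true_and, rot, Equiv.coe_fn_mk]
    exact ⟨fun h => hF.cyc _ _ _ h, fun h => hF.cyc _ _ _ (hF.cyc _ _ _ h)⟩
  have s2 : ∑ t ∈ Fs, g t.2.1 t.2.2 = ∑ t ∈ Fs, g t.1 t.2.1 :=
    Finset.sum_equiv rot hrot (fun t _ => rfl)
  have s3 : ∑ t ∈ Fs, g t.2.2 t.1 = ∑ t ∈ Fs, g t.2.1 t.2.2 :=
    Finset.sum_equiv rot hrot (fun t _ => rfl)
  have hsum : ∑ t ∈ Fs, D (P t.1) (P t.2.1) (P t.2.2) = 0 := by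
    have h1 : ∀ t ∈ Fs, D (P t.1) (P t.2.1) (P t.2.2) =
        g t.1 t.2.1 + g t.2.1 t.2.2 + g t.2.2 t.1 := by
      intro t _
      simp only [g, D, cr]
      ring
    rw [Finset.sum_congr rfl h1, Finset.sum_add_distrib, Finset.sum_add_distrib, s3, s2, s1, h0]
    ring
  have hnn : ∀ t ∈ Fs, 0 ≤ D (P t.1) (P t.2.1) (P t.2.2) := by
    rintro ⟨a, b, c⟩ ht
    simp only [Fs, Finset.mem_filter, Finset.mem_univ, true_and] at ht
    by_cases hr : Rot3 o1 o2 o3 a b c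
    · rcases hr with ⟨rfl, rfl, rfl⟩ | ⟨rfl, rfl, rfl⟩ | ⟨rfl, rfl, rfl⟩
      · exact hcon'
      · show 0 ≤ D _ _ _
        rw [← D_cyc]
        exact hcon'
      · show 0 ≤ D _ _ _
        rw [D_cyc]
        exact hcon'
    · exact (hpos _ _ _ ht hr).le
  obtain ⟨d, hd⟩ := hF.opp _ _ _ ho
  have hd' : ¬ Rot3 o1 o2 o3 o2 o1 d := by
    have n1 := hF.ne _ _ _ ho
    have n2 := hF.ne _ _ _ (hF.cyc _ _ _ ho)
    have n3 := hF.ne _ _ _ (hF.cyc _ _ _ (hF.cyc _ _ _ ho))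
    rintro (⟨h1, h2, h3⟩ | ⟨h1, h2, h3⟩ | ⟨h1, h2, h3⟩)
    · exact n1 h2
    · exact n3 h2.symm
    · exact n2 h1
  have hlt := Finset.sum_pos' hnn ⟨(o2, o1, d), by simpa [Fs] using hd, hpos _ _ _ hd hd'⟩
  linarith

theorem D_eq_det3 (p q r : Pl) : P4.det3 p q r = D p q r := by
  unfold P4.det3 D; ring

/-- positively oriented inner faces give a crossing-free drawing of every subgraph -/
theorem drawing_of_pos [Finite W] (T : P4.Tri W) {o1 o2 o3 : W} (ho : T.F o1 o2 o3) (P : W → Pl)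
    (hpos : ∀ a b c, T.F a b c → ¬ P4.Cyc3 o1 o2 o3 a b c → 0 < P4.det3 (P a) (P b) (P c))
    (G : SimpleGraph V) (i : V → W) (hi : Function.Injective i) (hs : ∀ v, T.Supp (i v))
    (hadj : ∀ u v, G.Adj u v → T.Adj (i u) (i v)) : IsDrawing G (fun v => P (i v)) := by
  have hF : Pre T.F := ⟨T.cyc, T.ne, T.uniq, T.opp⟩
  have hpos' : ∀ a b c, T.F a b c → ¬ Rot3 o1 o2 o3 a b c → 0 < D (P a) (P b) (P c) := by
    intro a b c h1 h2
    rw [← D_eq_det3]
    exact hpos a b c h1 h2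
  have hP : PosD T.F o1 o2 o3 P := ⟨hF, ho, neg_of_pos hF ho hpos', hpos'⟩
  refine ⟨?_, ?_, ?_⟩
  · intro u v huv
    exact hi (pp_inj hP (hs u) (hs v) huv)
  · intro u v w huv hwu hwv
    exact pp_vert hP (hadj u v huv) (hs w) (fun h => hwu (hi h)) (fun h => hwv (hi h))
  · intro u v x y huv hxy hne p hp1 hp2
    have hne' : s(i u, i v) ≠ s(i x, i y) := by
      intro h
      apply hne
      rw [Sym2.eq_iff] at h ⊢
      rcases h with ⟨h1, h2⟩ | ⟨h1, h2⟩
      · exact Or.inl ⟨hi h1, hi h2⟩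
      · exact Or.inr ⟨hi h1, hi h2⟩
    obtain ⟨w, h1, h2, h3⟩ := pp_edge hP (hadj u v huv) (hadj x y hxy) hne' hp1 hp2
    rcases h1 with rfl | rfl
    · refine ⟨u, Or.inl rfl, ?_, h3⟩
      rcases h2 with h2 | h2
      · exact Or.inl (hi h2)
      · exact Or.inr (hi h2)
    · refine ⟨v, Or.inr rfl, ?_, h3⟩
      rcases h2 with h2 | h2
      · exact Or.inl (hi h2)
      · exact Or.inr (hi h2)

/-- vertices drawn on the axis may be moved to arbitrary ordinates (perturb and scale) -/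
theorem lift_y [Finite W] (T : P4.Tri W) {o1 o2 o3 : W} (ho : T.F o1 o2 o3) (P : W → Pl)
    (hpos : ∀ a b c, T.F a b c → ¬ P4.Cyc3 o1 o2 o3 a b c → 0 < P4.det3 (P a) (P b) (P c))
    (G : SimpleGraph V) (i : V → W) (hi : Function.Injective i) (hs : ∀ v, T.Supp (i v))
    (hadj : ∀ u v, G.Adj u v → T.Adj (i u) (i v)) (S : Set V) (hS : ∀ v ∈ S, (P (i v)).2 = 0)
    (y : V → ℝ) : ∃ f : V → Pl, IsDrawing G f ∧ ∀ v ∈ S, f v = ((P (i v)).1, y v) := by
  classical
  let η : W → ℝ := fun w => if h : ∃ v, i v = w ∧ v ∈ S then y h.choose else 0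
  have hη : ∀ v ∈ S, η (i v) = y v := by
    intro v hv
    have h : ∃ v', i v' = i v ∧ v' ∈ S := ⟨v, rfl, hv⟩
    show (if h : ∃ v', i v' = i v ∧ v' ∈ S then y h.choose else 0) = y v
    rw [dif_pos h, hi h.choose_spec.1]
  -- for small `ε` all inner faces remain positive
  have hε : ∀ᶠ ε in 𝓝[>] (0 : ℝ), ∀ a b c, T.F a b c → ¬ P4.Cyc3 o1 o2 o3 a b c →
      0 < P4.det3 ((P a).1, (P a).2 + ε * η a) ((P b).1, (P b).2 + ε * η b)
        ((P c).1, (P c).2 + ε * η c) := by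
    rw [eventually_all]; intro a
    rw [eventually_all]; intro b
    rw [eventually_all]; intro c
    by_cases h1 : T.F a b c
    · by_cases h2 : P4.Cyc3 o1 o2 o3 a b c
      · exact Eventually.of_forall (fun _ _ h => absurd h2 h)
      · have h3 := hpos a b c h1 h2
        have hc : Continuous (fun ε : ℝ => P4.det3 ((P a).1, (P a).2 + ε * η a)
            ((P b).1, (P b).2 + ε * η b) ((P c).1, (P c).2 + ε * η c)) := by
          unfold P4.det3
          fun_prop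
        have h4 : ∀ᶠ ε in 𝓝 (0 : ℝ), 0 < P4.det3 ((P a).1, (P a).2 + ε * η a)
            ((P b).1, (P b).2 + ε * η b) ((P c).1, (P c).2 + ε * η c) := by
          apply hc.continuousAt.eventually (lt_mem_nhds _)
          simpa using h3
        exact (h4.filter_mono nhdsWithin_le_nhds).mono (fun _ h _ _ => h)
    · exact Eventually.of_forall (fun _ h => absurd h h1)
  obtain ⟨ε, hε1, hε0⟩ := (hε.and self_mem_nhdsWithin).exists
  have hε0' : (0 : ℝ) < ε := hε0
  let Q : W → Pl := fun w => ((P w).1, ((P w).2 + ε * η w) / ε)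
  refine ⟨fun v => Q (i v), drawing_of_pos T ho Q ?_ G i hi hs hadj, ?_⟩
  · intro a b c h1 h2
    have h3 := hε1 a b c h1 h2
    have h4 : P4.det3 (Q a) (Q b) (Q c) = P4.det3 ((P a).1, (P a).2 + ε * η a)
        ((P b).1, (P b).2 + ε * η b) ((P c).1, (P c).2 + ε * η c) / ε := by
      simp only [P4.det3, Q]
      field_simp
    rw [h4]
    exact div_pos h3 hε0'
  · intro v hv
    show ((P (i v)).1, ((P (i v)).2 + ε * η (i v)) / ε) = _
    rw [hη v hv, hS v hv, zero_add, mul_div_cancel_left₀ _ hε0'.ne']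

end B306
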