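import Pool.Agent.Lib_MP_b306af.PartIIFinal
import Pool.Agent.Lib_MP_b306af.PosGlue

/-!
# MP_b306af: the final assembly

`final`: Parts III, ORDER (section 7 of PartIII.md) and IV imply Q1.
-/

namespace B306

/-- `S` is a free set of `G`: its elements can be listed as `v 0, v 1, ...` such that for all
`x 0 < x 1 < ...` and all `y 0, y 1, ...` there is a straight-line crossing-free drawing of `G`
with `v k` at `(x k, y k)`. -/
def IsFree {V : Type} (G : SimpleGraph V) (S : Set V) : Prop :=
  ∃ v : Fin S.ncard → V, Function.Injective v ∧ Set.range v = S ∧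
    ∀ x y : Fin S.ncard → ℝ, StrictMono x →
      ∃ f : V → ℝ × ℝ, IsDrawing G f ∧ ∀ k, f (v k) = (x k, y k)

/-- Q1 -/
def Q1 : Prop := ∀ Δ : ℕ, ∃ c : ℝ, 0 < c ∧ ∀ (V : Type) [Finite V] (G : SimpleGraph V),
  (∀ v, (G.neighborSet v).ncard ≤ Δ) → (∃ f : V → ℝ × ℝ, IsDrawing G f) →
    ∀ X : Set V, ∃ S ⊆ X, IsFree G S ∧ c * (X.ncard : ℝ) ^ (0.8 : ℝ) ≤ (S.ncard : ℝ)

/-- Part III -/
def H3 : Prop := ∀ (W : Type) [Finite W] (T : P4.Tri W) (M : Finset W) (r s t : W),
  P3.Dat T M r s t → M.Nonempty → P3.Val T M r s t (P3.Fz ((M.card : ℝ) + 4))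

/-- ORDER (section 7 of PartIII.md) -/
def H7 : Prop := ∀ (W : Type) [Finite W] (T : P4.Tri W) (M : Finset W) (r s t : W)
  (side : W → SignType), P3.Dat T M r s t → P3.Str T M side → side r = 1 → side s = -1 →
    side t = -1 → ∃ (k : ℕ) (v : Fin k → W), Function.Injective v ∧
      (∀ w, w ∈ Set.range v ↔ T.Supp w ∧ side w = 0) ∧
      ∀ x : Fin k → ℝ, StrictMono x → ∃ (A : W → W → ℝ) (X : W → ℝ), (∀ j, X (v j) = x j) ∧
        P4.Setup.Good ⟨T, side, r, s, t, A, X⟩

/-- Part IV -/
def H4 : Prop := ∀ (W : Type) [Finite W] (S : P4.Setup W), S.Good → S.IV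

/-- admissible positions of the outer vertices exist -/
theorem exists_outer {W : Type} (T : P4.Tri W) {side : W → SignType} {r s t : W}
    (hr : side r = 1) (hs : side s = -1) (ht : side t = -1) (hst : s ≠ t) (A : W → W → ℝ)
    (X : W → ℝ) : ∃ Q : W → ℝ × ℝ, P4.Setup.OuterOK ⟨T, side, r, s, t, A, X⟩ Q := by
  classical
  have n1 : s ≠ r := fun h => by rw [h, hr] at hs; exact absurd hs (by decide)
  have n2 : t ≠ r := fun h => by rw [h, hr] at ht; exact absurd ht (by decide)
  let Q : W → ℝ × ℝ := fun w => if w = r then (0, 1) else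
    if w = s then (2 * A r s, -1) else (2 * A r t, -1)
  have q1 : Q r = (0, 1) := if_pos rfl
  have q2 : Q s = (2 * A r s, -1) := by simp only [Q, if_neg n1, if_true]
  have q3 : Q t = (2 * A r t, -1) := by simp only [Q, if_neg n2, if_neg hst.symm]
  refine ⟨Q, ?_, ?_, ?_⟩
  · rintro v (h | h | h)
    · have h' : v = r := h
      subst h'
      show SignType.sign (Q v).2 = side v
      rw [q1, hr]
      exact sign_pos one_pos
    · have h' : v = s := h
      subst h'
      show SignType.sign (Q v).2 = side v
      rw [q2, hs]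
      exact sign_neg (by norm_num)
    · have h' : v = t := h
      subst h'
      show SignType.sign (Q v).2 = side v
      rw [q3, ht]
      exact sign_neg (by norm_num)
  · rintro v (h | h | h) h0
    · have h' : v = r := h
      have h0' : side v = 0 := h0
      rw [h', hr] at h0'
      exact absurd h0' (by decide)
    · have h' : v = s := h
      have h0' : side v = 0 := h0
      rw [h', hs] at h0'
      exact absurd h0' (by decide)
    · have h' : v = t := h
      have h0' : side v = 0 := h0
      rw [h', ht] at h0'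
      exact absurd h0' (by decide)
  · intro u w hu hw hsu hsw
    have hu' : u = r := by
      have hsu' : side u = 1 := hsu
      rcases hu with h | h | h
      · exact h
      · have h' : u = s := h
        rw [h', hs] at hsu'
        exact absurd hsu' (by decide)
      · have h' : u = t := h
        rw [h', ht] at hsu'
        exact absurd hsu' (by decide)
    have hsw' : side w = -1 := hsw
    subst hu'
    rcases hw with h | h | h
    · have h' : w = u := h
      rw [h', hr] at hsw'
      exact absurd hsw' (by decide)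
    · have h' : w = s := h
      subst h'
      show P4.crossAt (Q u) (Q w) = A u w
      rw [q1, q2]
      unfold P4.crossAt
      norm_num
    · have h' : w = t := h
      subst h'
      show P4.crossAt (Q u) (Q w) = A u w
      rw [q1, q3]
      unfold P4.crossAt
      norm_num

/-- the empty set is free -/
theorem isFree_empty {V : Type} {G : SimpleGraph V} {f : V → Pl} (hf : IsDrawing G f) :
    IsFree G (∅ : Set V) := by
  have h0 : (∅ : Set V).ncard = 0 := Set.ncard_empty V
  have hE : IsEmpty (Fin (∅ : Set V).ncard) := by rw [h0]; infer_instance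
  refine ⟨fun k => (hE.false k).elim, fun k => (hE.false k).elim, ?_, fun x y _ => ⟨f, hf, fun k =>
    (hE.false k).elim⟩⟩
  rw [Set.range_eq_empty]

theorem isFree_of {V : Type} {G : SimpleGraph V} {S : Set V} {k : ℕ} (v : Fin k → V)
    (hv : Function.Injective v) (hr : Set.range v = S)
    (h : ∀ x y : Fin k → ℝ, StrictMono x →
      ∃ f : V → ℝ × ℝ, IsDrawing G f ∧ ∀ j, f (v j) = (x j, y j)) : IsFree G S := by
  have hk : S.ncard = k := by
    rw [← hr, ← Set.image_univ, Set.ncard_image_of_injective _ hv, Set.ncard_univ, Nat.card_fin]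
  subst hk
  exact ⟨v, hv, hr, h⟩

theorem final (h3 : H3) (h7 : H7) (h4 : H4) : Q1 := by
  classical
  intro Δ
  set K : ℝ := ((12 * Δ + 19 : ℕ) : ℝ) ^ 3 with hK
  have hK0 : 0 < K := by
    rw [hK]
    have : (0 : ℝ) < ((12 * Δ + 19 : ℕ) : ℝ) := by
      have : 0 < 12 * Δ + 19 := by omega
      exact_mod_cast this
    positivity
  refine ⟨(1 / (7 * K)) ^ ((4 : ℝ) / 5), Real.rpow_pos_of_pos (by positivity) _, ?_⟩
  rintro V hV G hΔ ⟨f, hf⟩ X
  have h08 : (0.8 : ℝ) = (4 : ℝ) / 5 := by norm_num
  rcases isEmpty_or_nonempty V with hE | hE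
  · have hX : X = ∅ := Set.eq_empty_of_isEmpty X
    refine ⟨∅, Set.empty_subset _, isFree_empty hf, ?_⟩
    rw [hX, Set.ncard_empty, h08]
    simp
  · obtain ⟨W, hW, T, i, r, s, t, hi, -, hsuppi, hadj, hsel⟩ := partII_final G hΔ hf
    obtain ⟨M, hMX, hcard, hD⟩ := hsel X
    rcases M.eq_empty_or_nonempty with hM | hM
    · refine ⟨∅, Set.empty_subset _, isFree_empty hf, ?_⟩
      rw [hM, Finset.card_empty, mul_zero] at hcard
      have : X.ncard = 0 := by omega
      rw [this, h08]
      simp
    · obtain ⟨side, hstr, hr, hst, hval⟩ := h3 W T M r s t hD hM r (Or.inl rfl) 1 (by decide)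
      have hrs : r ≠ s := T.ne _ _ _ hD.root
      have hst' : s ≠ t := T.ne _ _ _ (T.cyc _ _ _ hD.root)
      have htr : t ≠ r := T.ne _ _ _ (T.cyc2 hD.root)
      have hs : side s = -1 := hst s (Or.inr (Or.inl rfl)) hrs.symm
      have ht : side t = -1 := hst t (Or.inr (Or.inr rfl)) htr
      obtain ⟨k, v, hv, hrange, hlab⟩ := h7 W T M r s t side hD hstr hr hs ht
      -- the vertices of `G`
      have hvi : ∀ j, ∃ u ∈ X, i u = v j := by
        intro j
        have h1 := (hrange (v j)).1 ⟨j, rfl⟩
        exact hMX (hstr.zero _ h1.1 h1.2)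
      choose u huX hu using hvi
      have huinj : Function.Injective u := by
        intro a b hab
        apply hv
        rw [← hu a, ← hu b, hab]
      refine ⟨Set.range u, ?_, isFree_of u huinj rfl ?_, ?_⟩
      · rintro _ ⟨j, rfl⟩
        exact huX j
      · intro x y hx
        obtain ⟨A, Xv, hXv, hgood⟩ := hlab x hx
        obtain ⟨Q, hQ⟩ := exists_outer T hr hs ht hst' A Xv
        obtain ⟨P, -, hP⟩ := h4 W _ hgood Q hQ 1 one_pos
        have hzero : ∀ j, side (v j) = 0 := fun j => ((hrange (v j)).1 ⟨j, rfl⟩).2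
        have hsupp : ∀ j, T.Supp (v j) := fun j => ((hrange (v j)).1 ⟨j, rfl⟩).1
        have hP0 : ∀ w ∈ Set.range u, (P (i w)).2 = 0 := by
          rintro _ ⟨j, rfl⟩
          rw [hu j]
          have h1 : SignType.sign (P (v j)).2 = side (v j) := hP.sgn (v j) (hsupp j)
          rw [hzero j] at h1
          exact sign_eq_zero_iff.1 h1
        obtain ⟨g, hg, hgS⟩ := lift_y T hD.root P hP.pos G i hi hsuppi
          (fun a b h => (hadj a b).2 h) (Set.range u) hP0 (Function.extend u y 0)
        refine ⟨g, hg, fun j => ?_⟩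
        rw [hgS (u j) ⟨j, rfl⟩, huinj.extend_apply, hu j]
        have h2 : (P (v j)).1 = Xv (v j) := hP.abs0 (v j) (hsupp j) (hzero j)
        rw [h2, hXv j]
      · have hk : (Set.range u).ncard = k := by
          rw [← Set.image_univ, Set.ncard_image_of_injective _ huinj, Set.ncard_univ, Nat.card_fin]
        have hkv : (Set.range v).ncard = k := by
          rw [← Set.image_univ, Set.ncard_image_of_injective _ hv, Set.ncard_univ, Nat.card_fin]
        have hvalk : P3.val M side ≤ k := by
          unfold P3.val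
          rw [← Set.ncard_coe_finset, ← hkv]
          refine Set.ncard_le_ncard ?_ (Set.toFinite _)
          intro w hw
          rw [Finset.mem_coe, Finset.mem_filter] at hw
          exact (hrange w).2 ⟨hD.supp w hw.1, hw.2⟩
        rw [hk, h08, ← Real.mul_rpow (by positivity) (by positivity)]
        have hXM : (X.ncard : ℝ) ≤ K * M.card := by
          rw [hK]
          exact_mod_cast hcard
        have hle : 1 / (7 * K) * (X.ncard : ℝ) ≤ ((M.card : ℝ) + 4) / 7 := by
          rw [one_div, inv_mul_le_iff₀ (by positivity)]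
          have : 7 * K * (((M.card : ℝ) + 4) / 7) = K * M.card + 4 * K := by ring
          rw [this]
          linarith
        have h5 : (1 / (7 * K) * (X.ncard : ℝ)) ^ ((4 : ℝ) / 5) ≤ P3.Fz ((M.card : ℝ) + 4) := by
          unfold P3.Fz
          exact Real.rpow_le_rpow (by positivity) hle (by norm_num)
        calc _ ≤ P3.Fz ((M.card : ℝ) + 4) := h5
          _ ≤ (P3.val M side : ℝ) := hval
          _ ≤ (k : ℝ) := by exact_mod_cast hvalk

end B306
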