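import Pool.Agent.Lib_MP_b306af.P4Nosep

/-! # MP_b306af Part IV: P4Labex -/

namespace P4

variable {V : Type}

namespace Setup

/- Piece LABEX (uses `exists_bondSeq0`, `nosep`).  Labels exist.
Let `E` be a `BondSeq` (for `S`; labels play no role).  For a bond edge `(u, c)` let `idx (u, c) < m` be the
index with `e (idx) = (u, c)` (`E.surj`, `E.inj`).  `A u w := idx (u, w)` (as a real number; `0` if not a
bond edge).  For `s` on the axis in the support there is a spoke `(u, s)` (`hS.nbr 1`); let
`X s := ` the least index `r < m` with `(e r).2 = s`.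
`X` is injective: `(e (X s)).2 = s`.
`lab1` for `T.F u w w'` not outer: `r = idx (u, w)`, `nx u w = w'`, `side w' ≠ 1`, so `succ (u, w) = (u, w')`
and `r + 1 < m` (if `r = m - 1` the face is the outer one, `E.outer`), so `A u w' = r + 1`.
`lab2` for `T.F w u' u`: `(u, w) = e r`, `nx u w = u'` (rotate), `side u' = 1`, `e (r + 1) = (u', w)`.
`lab3` for `T.F u w s`: `(u, w) = e r`, `e (r + 1) = (u, s)`, and `r + 1` is the least index with second
component `s`: otherwise there is `i ≤ r` with `(e i).2 = s`, `i ≠ r` (`side w = -1`), so `i < r < r + 1` and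
`e r` is a crossing edge between two spokes of `s`: contradiction to `nosep`.  So
`A u w = r < r + 1 = X s`.
`lab4` for `T.F w u s` (so `T.F u s w`): `(u, s) = e r`, `e (r + 1) = (u, w)`, `X s ≤ r < r + 1 = A u w`. -/
theorem exists_labels [Finite V] (S : Setup V) (hS : S.Pre0) :
    ∃ (A : V → V → ℝ) (X : V → ℝ), ({ S with A := A, X := X } : Setup V).Good ∧
      ∀ s s', S.T.Supp s → S.T.Supp s' → S.side s = 0 → S.side s' = 0 → X s = X s' →
        s = s' := by
  classical
  obtain ⟨E⟩ := S.exists_bondSeq0 hS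
  -- the index of a bond edge
  let idx : V × V → ℕ := fun p => if h : ∃ r, r < E.m ∧ E.e r = p then h.choose else 0
  have hidx : ∀ p, S.IsBond p → idx p < E.m ∧ E.e (idx p) = p := by
    intro p hp
    obtain ⟨r, hr, he⟩ := E.surj p hp
    have h : ∃ r, r < E.m ∧ E.e r = p := ⟨r, hr, he⟩
    have e1 : idx p = h.choose := dif_pos h
    rw [e1]
    exact h.choose_spec
  have hidx' : ∀ r, r < E.m → idx (E.e r) = r := by
    intro r hr
    have h := hidx (E.e r) (E.bond r)
    exact E.inj _ h.1 _ hr h.2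
  -- the first index of an axis vertex
  let X : V → ℕ := fun s => if h : ∃ r, r < E.m ∧ (E.e r).2 = s then Nat.find h else 0
  have hX1 : ∀ s r, r < E.m → (E.e r).2 = s → X s ≤ r ∧ X s < E.m ∧ (E.e (X s)).2 = s := by
    intro s r hr he
    have h : ∃ r, r < E.m ∧ (E.e r).2 = s := ⟨r, hr, he⟩
    have e1 : X s = Nat.find h := dif_pos h
    rw [e1]
    exact ⟨Nat.find_min' h ⟨hr, he⟩, (Nat.find_spec h).1, (Nat.find_spec h).2⟩
  have key : ∀ u w w', S.T.F u w w' → ¬ S.IsO u w w' → S.side u = 1 → S.side w ≠ 1 →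
      idx (u, w) + 1 < E.m ∧ idx (S.succ (u, w)) = idx (u, w) + 1 ∧
        E.e (idx (u, w)) = (u, w) ∧ E.e (idx (u, w) + 1) = S.succ (u, w) := by
    intro u w w' hF hO hu hw
    have hb : S.IsBond (u, w) := ⟨⟨w', hF⟩, hu, hw⟩
    obtain ⟨h1, h2⟩ := hidx (u, w) hb
    have h3 : idx (u, w) + 1 < E.m := by
      by_contra hcon
      have h4 : E.m - 1 = idx (u, w) := by omega
      have h5 := E.outer
      rw [h4, h2] at h5
      have h6 : S.T.nx u w = w' := S.T.nx_eq hF
      apply hO
      have h7 : S.IsO u w (S.T.nx u w) := h5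
      rwa [h6] at h7
    have h4 : E.e (idx (u, w) + 1) = S.succ (u, w) := by rw [E.step, h2]
    refine ⟨h3, ?_, h2, h4⟩
    rw [← h4]
    exact hidx' _ h3
  have hs1 : ∀ u w w', S.T.F u w w' → S.side w' = 1 → S.succ (u, w) = (w', w) := by
    intro u w w' hF h1
    have h6 : S.T.nx u w = w' := S.T.nx_eq hF
    unfold succ
    simp only [h6, h1, if_true]
  have hs2 : ∀ u w w', S.T.F u w w' → S.side w' ≠ 1 → S.succ (u, w) = (u, w') := by
    intro u w w' hF h1
    have h6 : S.T.nx u w = w' := S.T.nx_eq hF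
    unfold succ
    simp only [h6, if_neg h1]
  have hm1 : (-1 : SignType) ≠ 1 := by decide
  have h01 : (0 : SignType) ≠ 1 := by decide
  have hrot : ∀ a b c, S.IsO a b c → S.IsO b c a := by
    intro a b c h
    rcases h with ⟨h1, h2, h3⟩ | ⟨h1, h2, h3⟩ | ⟨h1, h2, h3⟩
    · exact Or.inr (Or.inl ⟨h2, h3, h1⟩)
    · exact Or.inr (Or.inr ⟨h2, h3, h1⟩)
    · exact Or.inl ⟨h2, h3, h1⟩
  refine ⟨fun u w => (idx (u, w) : ℝ), fun s => (X s : ℝ), ?_, ?_⟩
  · refine ⟨hS.h0, hS.plus0, hS.minus0, hS.indep, hS.conn, hS.nbr, ?_, ?_, ?_, ?_⟩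
    · intro u w w' hF hO hu hw hw'
      have h := key u w w' hF hO hu (by rw [show S.side w = -1 from hw]; exact hm1)
      have h1 := hs2 u w w' hF (by rw [show S.side w' = -1 from hw']; exact hm1)
      rw [h1] at h
      show (idx (u, w) : ℝ) < (idx (u, w') : ℝ)
      rw [h.2.1]
      push_cast
      linarith
    · intro w u' u hF hO hw hu' hu
      have hF' : S.T.F u w u' := S.T.cyc2 hF
      have hO' : ¬ S.IsO u w u' := fun h => hO (hrot _ _ _ h)
      have h := key u w u' hF' hO' hu (by rw [show S.side w = -1 from hw]; exact hm1)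
      have h1 := hs1 u w u' hF' hu'
      rw [h1] at h
      show (idx (u, w) : ℝ) < (idx (u', w) : ℝ)
      rw [h.2.1]
      push_cast
      linarith
    · intro u w s hF hO hu hw hs
      have hw' : S.side w = -1 := hw
      have hs' : S.side s = 0 := hs
      have h := key u w s hF hO hu (by rw [hw']; exact hm1)
      have h1 := hs2 u w s hF (by rw [hs']; exact h01)
      rw [h1] at h
      obtain ⟨ha, hb, hc, hd⟩ := h
      have h2 : (E.e (idx (u, w) + 1)).2 = s := by rw [hd]
      obtain ⟨h3, h4, h5⟩ := hX1 s (idx (u, w) + 1) ha h2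
      show (idx (u, w) : ℝ) < (X s : ℝ)
      have h6 : idx (u, w) < X s := by
        by_contra hcon
        have h7 : X s ≠ idx (u, w) := by
          intro hh
          rw [hh, hc] at h5
          have h8 : w = s := h5
          rw [h8, hs'] at hw'
          exact absurd hw' (by decide)
        have h8 := E.nosep hS (X s) (idx (u, w) + 1) (idx (u, w)) (by omega) ha
          (by rw [h5, h2]) (by rw [h5]; exact hs') (by omega) (by omega)
        rw [hc] at h8
        exact h8 hw'
      exact_mod_cast h6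
    · intro w u s hF hO hw hu hs
      have hw' : S.side w = -1 := hw
      have hs' : S.side s = 0 := hs
      have hF' : S.T.F u s w := S.T.cyc _ _ _ hF
      have hO' : ¬ S.IsO u s w := fun h => hO (hrot _ _ _ (hrot _ _ _ h))
      have h := key u s w hF' hO' hu (by rw [hs']; exact h01)
      have h1 := hs2 u s w hF' (by rw [hw']; exact hm1)
      rw [h1] at h
      obtain ⟨ha, hb, hc, hd⟩ := h
      have h2 : (E.e (idx (u, s))).2 = s := by rw [hc]
      obtain ⟨h3, h4, h5⟩ := hX1 s (idx (u, s)) (by omega) h2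
      show (X s : ℝ) < (idx (u, w) : ℝ)
      have h6 : X s < idx (u, w) := by omega
      exact_mod_cast h6
  · intro s s' hs hs' h0 h0' hXX
    have hf : ∀ t, S.T.Supp t → S.side t = 0 → (E.e (X t)).2 = t := by
      intro t ht ht0
      obtain ⟨x, hx, hx1⟩ := hS.nbr 1 (by decide) t ht ht0
      have hb : S.IsBond (x, t) := ⟨hx.symm, hx1, by show S.side t ≠ 1; rw [ht0]; exact h01⟩
      obtain ⟨r, hr, he⟩ := E.surj _ hb
      exact (hX1 t r hr (by rw [he])).2.2
    have h1 : X s = X s' := Nat.cast_injective (R := ℝ) hXX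
    rw [← hf s hs h0, ← hf s' hs' h0', h1]

end Setup

end P4
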