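import Pool.Agent.Lib_MP_b306af.P4ZFree2
import Pool.Agent.Lib_MP_b306af.P4Labex

/-! # MP_b306af Part IV: final form, without labels -/

namespace P4

variable {V : Type}

namespace Setup

/-- **Part IV, final form**: the vertices on the axis of a label free setup can be listed such
that they can be placed at arbitrary points with increasing abscissas, with all faces but the
outer one positively oriented and the outer one negatively oriented. -/
theorem free_axis [Finite V] (S : Setup V) (hS : S.Pre0) (n : ℕ)
    (hn : n = Set.ncard {v | S.T.Supp v ∧ S.side v = 0}) :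
    ∃ s : Fin n → V, Function.Injective s ∧
      (∀ v, (S.T.Supp v ∧ S.side v = 0) ↔ ∃ i, s i = v) ∧
      ∀ x y : Fin n → ℝ, StrictMono x →
        ∃ P : V → ℝ × ℝ, (∀ i, P (s i) = (x i, y i)) ∧
          det3 (P S.o1) (P S.o2) (P S.o3) < 0 ∧
          ∀ a b c, S.T.F a b c → ¬ Cyc3 S.o1 S.o2 S.o3 a b c →
            0 < det3 (P a) (P b) (P c) := by
  classical
  obtain ⟨A, X, hG, hinj⟩ := exists_labels S hS
  have hfin : {v | S.T.Supp v ∧ S.side v = 0}.Finite := Set.toFinite _
  set F : Finset V := hfin.toFinset with hF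
  have hmem : ∀ v, v ∈ F ↔ (S.T.Supp v ∧ S.side v = 0) := by
    intro v
    rw [hF, Set.Finite.mem_toFinset]
    rfl
  have hXinj : Set.InjOn X (F : Set V) := by
    intro v hv w hw h
    have hv' := (hmem v).1 hv
    have hw' := (hmem w).1 hw
    exact hinj v w hv'.1 hw'.1 hv'.2 hw'.2 h
  have hcard : (F.image X).card = n := by
    rw [Finset.card_image_of_injOn hXinj, hn, hF, Set.ncard_eq_toFinset_card _ hfin]
  let t : Fin n ↪o ℝ := (F.image X).orderEmbOfFin hcard
  have ht : ∀ i, ∃ v, v ∈ F ∧ X v = t i := by
    intro i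
    have := Finset.orderEmbOfFin_mem (F.image X) hcard i
    obtain ⟨v, hv, h⟩ := Finset.mem_image.1 this
    exact ⟨v, hv, h⟩
  choose s hsF hsX using ht
  have hmono : StrictMono fun i => X (s i) := by
    intro i j hij
    show X (s i) < X (s j)
    rw [hsX, hsX]
    exact t.strictMono hij
  refine ⟨s, ?_, ?_, ?_⟩
  · intro i j hij
    exact hmono.injective (congrArg X hij)
  · intro v
    constructor
    · intro hv
      have hv' := (hmem v).2 hv
      have h1 : X v ∈ (F.image X : Set ℝ) := by
        exact_mod_cast Finset.mem_image_of_mem X hv'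
      rw [← Finset.range_orderEmbOfFin (F.image X) hcard] at h1
      obtain ⟨i, hi⟩ := h1
      refine ⟨i, hXinj (hsF i) hv' ?_⟩
      rw [hsX]
      exact hi
    · rintro ⟨i, rfl⟩
      exact (hmem _).1 (hsF i)
  · intro x y hx
    exact partIV ({ S with A := A, X := X } : Setup V) hG n s
      (fun i => ((hmem _).1 (hsF i)).1) (fun i => ((hmem _).1 (hsF i)).2) hmono x y hx

end Setup

end P4
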