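import Pool.Agent.Lib_MP_b306af.Final
import Pool.Agent.Lib_MP_b306af.P4ZFinal

/-!
# MP_b306af: the final assembly, second form

`final2`: Part III (`H3`) implies Q1, with Part IV in the form `P4.Setup.free_axis`.
-/

namespace B306

theorem pre0_of {W : Type} {T : P4.Tri W} {M : Finset W} {r s t : W} {side : W → SignType}
    (hD : P3.Dat T M r s t) (h : P3.Str T M side) (hr : side r = 1) (hs : side s = -1) :
    P4.Setup.Pre0 ⟨T, side, r, s, t, fun _ _ => 0, fun _ => 0⟩ where
  h0 := hD.root
  plus0 := ⟨r, Or.inl rfl, hr⟩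
  minus0 := ⟨s, Or.inr (Or.inl rfl), hs⟩
  indep := by
    intro a b c hF ha hb
    have ha' : side a = 0 := ha
    have hb' : side b = 0 := hb
    have hab : T.Adj a b := ⟨c, hF⟩
    have h1 := h.zero a hab.supp ha'
    have h2 := h.zero b hab.symm.supp hb'
    exact (hD.far a h1 b h2 hab.ne a b (Or.inl rfl) (Or.inl rfl)).2 hab
  conn := by
    intro σ hσ P hP a b ha hb hsa hsb hPa
    refine h.conn σ hσ {v | P v} ?_ a ⟨ha, hsa⟩ b ⟨hb, hsb⟩ hPa
    rintro x ⟨-, hx⟩ y ⟨-, hy⟩ ⟨c, hc⟩ hPx
    exact hP x y c hc hx hy hPx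
  nbr := fun σ hσ v hv h0 => h.nbr σ hσ v hv h0

theorem final2 (h3 : H3) : Q1 := by
  classical
  intro Δ
  set K : ℝ := ((12 * Δ + 19 : ℕ) : ℝ) ^ 3 with hK
  have hK0 : 0 < K := by
    rw [hK]
    have : (0 : ℝ) < ((12 * Δ + 19 : ℕ) : ℝ) := by
      have : 0 < 12 * Δ + 19 := by omega
      exact_mod_cast this
    positivity
  refine ⟨(1 / (7 * K)) ^ ((4 : ℝ) / 5), Real.rpow_pos_of_pos (by positivity) _, ?_⟩
  rintro V hV G hΔ ⟨f, hf⟩ X
  have h08 : (0.8 : ℝ) = (4 : ℝ) / 5 := by norm_num
  rcases isEmpty_or_nonempty V with hE | hE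
  · have hX : X = ∅ := Set.eq_empty_of_isEmpty X
    refine ⟨∅, Set.empty_subset _, isFree_empty hf, ?_⟩
    rw [hX, Set.ncard_empty, h08]
    simp
  · obtain ⟨W, hW, T, i, r, s, t, hi, -, hsuppi, hadj, hsel⟩ := partII_final G hΔ hf
    obtain ⟨M, hMX, hcard, hD⟩ := hsel X
    rcases M.eq_empty_or_nonempty with hM | hM
    · refine ⟨∅, Set.empty_subset _, isFree_empty hf, ?_⟩
      rw [hM, Finset.card_empty, mul_zero] at hcard
      have : X.ncard = 0 := by omega
      rw [this, h08]
      simp
    · obtain ⟨side, hstr, hr, hst, hval⟩ := h3 W T M r s t hD hM r (Or.inl rfl) 1 (by decide)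
      have hrs : r ≠ s := T.ne _ _ _ hD.root
      have hs : side s = -1 := hst s (Or.inr (Or.inl rfl)) hrs.symm
      set k : ℕ := Set.ncard {v | T.Supp v ∧ side v = 0} with hkdef
      obtain ⟨v, hv, hrange, hlab⟩ := P4.Setup.free_axis
        ⟨T, side, r, s, t, fun _ _ => 0, fun _ => 0⟩ (pre0_of hD hstr hr hs) k rfl
      -- the vertices of `G`
      have hvi : ∀ j, ∃ u ∈ X, i u = v j := by
        intro j
        have h1 := (hrange (v j)).2 ⟨j, rfl⟩
        exact hMX (hstr.zero _ h1.1 h1.2)
      choose u huX hu using hvi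
      have huinj : Function.Injective u := by
        intro a b hab
        apply hv
        rw [← hu a, ← hu b, hab]
      refine ⟨Set.range u, ?_, isFree_of u huinj rfl ?_, ?_⟩
      · rintro _ ⟨j, rfl⟩
        exact huX j
      · intro x y hx
        obtain ⟨P, hPx, -, hpos⟩ := hlab x y hx
        refine ⟨fun w => P (i w), drawing_of_pos T hD.root P hpos G i hi hsuppi
          (fun a b h => (hadj a b).2 h), fun j => ?_⟩
        show P (i (u j)) = (x j, y j)
        rw [hu j, hPx j]
      · have hk : (Set.range u).ncard = k := by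
          rw [← Set.image_univ, Set.ncard_image_of_injective _ huinj, Set.ncard_univ, Nat.card_fin]
        have hvalk : P3.val M side ≤ k := by
          unfold P3.val
          rw [← Set.ncard_coe_finset, hkdef]
          refine Set.ncard_le_ncard ?_ (Set.toFinite _)
          intro w hw
          rw [Finset.mem_coe, Finset.mem_filter] at hw
          exact ⟨hD.supp w hw.1, hw.2⟩
        rw [hk, h08, ← Real.mul_rpow (by positivity) (by positivity)]
        have hXM : (X.ncard : ℝ) ≤ K * M.card := by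
          rw [hK]
          exact_mod_cast hcard
        have hle : 1 / (7 * K) * (X.ncard : ℝ) ≤ ((M.card : ℝ) + 4) / 7 := by
          rw [one_div, inv_mul_le_iff₀ (by positivity)]
          have : 7 * K * (((M.card : ℝ) + 4) / 7) = K * M.card + 4 * K := by ring
          rw [this]
          linarith
        have h5 : (1 / (7 * K) * (X.ncard : ℝ)) ^ ((4 : ℝ) / 5) ≤ P3.Fz ((M.card : ℝ) + 4) := by
          unfold P3.Fz
          exact Real.rpow_le_rpow (by positivity) hle (by norm_num)
        calc _ ≤ P3.Fz ((M.card : ℝ) + 4) := h5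
          _ ≤ (P3.val M side : ℝ) := hval
          _ ≤ (k : ℝ) := by exact_mod_cast hvalk

end B306
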