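import Pool.Agent.Lib_MP_b306af.GDefs

/-! # MP_b306af, Part II: algebra of signed areas -/

namespace B306

theorem D_cyc (p q r : Pl) : D p q r = D q r p := by unfold D; ring

theorem D_cyc' (p q r : Pl) : D p q r = D r p q := by unfold D; ring

theorem D_swap (p q r : Pl) : D p q r = - D q p r := by unfold D; ring

theorem D_swap' (p q r : Pl) : D p q r = - D p r q := by unfold D; ring

theorem D_swap'' (p q r : Pl) : D p q r = - D r q p := by unfold D; ring

theorem D_self (p q : Pl) : D p p q = 0 := by unfold D; ring

theorem D_self' (p q : Pl) : D p q q = 0 := by unfold D; ring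

theorem D_self'' (p q : Pl) : D p q p = 0 := by unfold D; ring

theorem D_split (a b c w : Pl) : D a b c = D a b w + D b c w + D c a w := by unfold D; ring

theorem D_eq_cr (p q r : Pl) : D p q r = cr (q - p) (r - p) := by
  unfold D cr; simp only [Prod.fst_sub, Prod.snd_sub]

theorem cr_swap (p q : Pl) : cr p q = - cr q p := by unfold cr; ring

theorem cr_self (p : Pl) : cr p p = 0 := by unfold cr; ring

/-- Plücker relation at the point `v` -/
theorem D_plu (v a b c d : Pl) :
    D v a b * D v c d - D v a c * D v b d + D v a d * D v b c = 0 := by unfold D; ring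

theorem cr_plu (a b c d : Pl) : cr a b * cr c d - cr a c * cr b d + cr a d * cr b c = 0 := by
  unfold cr; ring

theorem Cr.symm {p q r s : Pl} (h : Cr p q r s) : Cr r s p q := ⟨h.2, h.1⟩

theorem Cr.swap1 {p q r s : Pl} (h : Cr p q r s) : Cr q p r s := by
  refine ⟨?_, ?_⟩
  · rw [D_swap q p r, D_swap q p s, neg_mul_neg]; exact h.1
  · rw [mul_comm]; exact h.2

theorem Cr.swap2 {p q r s : Pl} (h : Cr p q r s) : Cr p q s r := (h.symm.swap1).symm

/-- crossing segments have a common point -/
theorem Cr.exists_mem {p q r s : Pl} (h : Cr p q r s) :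
    ∃ z ∈ segment ℝ p q, z ∈ segment ℝ r s := by
  obtain ⟨h1, h2⟩ := h
  set x := D r s p with hx
  set y := D r s q with hy
  set a := D p q r with ha
  set b := D p q s with hb
  have hxy : x - y ≠ 0 := by
    intro h0
    have : x = y := by linarith
    rw [this] at h2
    nlinarith [mul_self_nonneg y]
  have hab : a - b ≠ 0 := by
    intro h0
    have : a = b := by linarith
    rw [this] at h1
    nlinarith [mul_self_nonneg b]
  -- parameters
  have key : ∀ u v : ℝ, u * v < 0 → 0 ≤ u / (u - v) ∧ u / (u - v) ≤ 1 := by
    intro u v huv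
    rcases lt_trichotomy u 0 with hu | hu | hu
    · have hv : 0 < v := by
        by_contra hv
        have := mul_nonneg_of_nonpos_of_nonpos hu.le (not_lt.1 hv)
        linarith
      constructor
      · exact div_nonneg_of_nonpos hu.le (by linarith)
      · rw [div_le_one_of_neg (by linarith)]; linarith
    · rw [hu] at huv; simp at huv
    · have hv : v < 0 := by
        by_contra hv
        have := mul_nonneg hu.le (not_lt.1 hv)
        linarith
      constructor
      · exact div_nonneg hu.le (by linarith)
      · rw [div_le_one (by linarith)]; linarith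
  obtain ⟨t0, t1⟩ := key x y h2
  obtain ⟨s0, s1⟩ := key a b h1
  refine ⟨p + (x / (x - y)) • (q - p), ?_, ?_⟩
  · rw [segment_eq_image']
    exact ⟨x / (x - y), ⟨t0, t1⟩, rfl⟩
  · rw [segment_eq_image']
    refine ⟨a / (a - b), ⟨s0, s1⟩, ?_⟩
    have e1 : (x - y) ≠ 0 := hxy
    have e2 : (a - b) ≠ 0 := hab
    ext
    · simp only [Prod.fst_add, Prod.smul_fst, Prod.fst_sub, smul_eq_mul]
      field_simp
      simp only [hx, hy, ha, hb, D]
      ring
    · simp only [Prod.snd_add, Prod.smul_snd, Prod.snd_sub, smul_eq_mul]
      field_simp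
      simp only [hx, hy, ha, hb, D]
      ring

end B306
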