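import Pool.Agent.Lib_MP_b306af.GClV

/-! # MP_b306af, Part II: closing all stars -/

namespace B306

variable {P : Type}

/- Piece CLOSEALL.  Induction on a finite set `U` of original vertices (at the end all of them):
statement `Inv U`: there are `P', C', H', i'` as in the conclusion, `i'` composed from `i`, with
`Cl` for `v ∈ U`; `dg ≤ 6 Δ + 6` for `v ∈ U` and, for `v ∉ U`,
`dg H' (i' v) ≤ (G.neighborSet v).ncard + 2 * ((G.neighborSet v) ∩ U).ncard` (so `≤ 3 Δ`).
Step: `closeV` at `v = i' u`, `u ∉ U`: the new degree is at most `2 (3 Δ + 3)`.  For `w ∈ U`: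
`i' w` keeps its degree: if `i' w` is not adjacent to `i' u` clear; otherwise `Cl` at `i' w` gives
`ET (i' w) (i' u) b` and `ET (i' w) a (i' u)`, rotate them (`ET.rot`): `ET (i' u) b (i' w)` and
`ET (i' u) (i' w) a`, so `om = 0`; and `Cl` at `i' w` stays true: the neighbours of `i' w` are
the old ones: the degree did not increase and the images of the old neighbours are neighbours
(`Set.eq_of_subset_of_ncard_le`), old empty triangles stay.
For `w ∉ U`, `w ≠ u`: the degree increases by at most `om ≤ 2`, and only if `G.Adj u w`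
(`adj`), in which case `((G.neighborSet w) ∩ insert u U).ncard` increases by one.
New vertices `p`: `{v | H'.Adj p (i' v)}.ncard ≤ 3`: for old `p` by `Ext.adj`, for new ones from
`closeV` (injectivity of `i'`).  Start: `U = ∅`, `i' = i`: for `p ∉ range i` the set is empty by
`hnb`; `dg H (i v) = (G.neighborSet v).ncard` by `hadj`, `hnb`. -/

/-- the statement proved by induction -/
private def CAInv {V : Type} (G : SimpleGraph V) (Δ : ℕ) (C : Conf P) (i : V → P)
    (U : Set V) : Prop :=
  ∃ (P' : Type) (_ : Finite P') (C' : Conf P') (H' : SimpleGraph P') (i' : V → P'),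
      Function.Injective i' ∧ (∀ v, C'.Inner (i' v)) ∧ (∀ v, C'.f (i' v) = C.f (i v)) ∧
      PS C' H' ∧ (∀ u v, H'.Adj (i' u) (i' v) ↔ G.Adj u v) ∧ (∀ v ∈ U, Cl C' H' (i' v)) ∧
      (∀ v ∈ U, dg H' (i' v) ≤ 6 * Δ + 6) ∧
      (∀ v ∉ U, dg H' (i' v) ≤ (G.neighborSet v).ncard + 2 * (G.neighborSet v ∩ U).ncard) ∧
      ∀ p ∉ Set.range i', {v | H'.Adj p (i' v)}.ncard ≤ 3

/-- `Cl` at a vertex whose degree does not increase -/
private theorem CA_cl {P' P'' : Type} [Finite P''] {C' : Conf P'} {H' : SimpleGraph P'}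
    {C'' : Conf P''} {H'' : SimpleGraph P''} {j : P' → P''} (hE : Ext C' H' C'' H'' j) {x : P'}
    (hx : Cl C' H' x) (hd : dg H'' (j x) ≤ dg H' x) : Cl C'' H'' (j x) := by
  have hsub : j '' (H'.neighborSet x) ⊆ H''.neighborSet (j x) := by
    rintro _ ⟨a, ha, rfl⟩
    exact (hE.adj x a).2 ha
  have hcard : (H''.neighborSet (j x)).ncard ≤ (j '' (H'.neighborSet x)).ncard := by
    rw [Set.ncard_image_of_injective _ hE.inj]
    exact hd
  have heq := Set.eq_of_subset_of_ncard_le hsub hcard (Set.toFinite _)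
  have hnb : ∀ a, H''.Adj (j x) a → ∃ b, H'.Adj x b ∧ j b = a := by
    intro a ha
    have h1 : a ∈ H''.neighborSet (j x) := ha
    rw [← heq] at h1
    obtain ⟨b, hb, rfl⟩ := h1
    exact ⟨b, hb, rfl⟩
  refine ⟨?_, ?_, ?_⟩
  · obtain ⟨a, ha⟩ := hx.ne
    exact ⟨j a, (hE.adj x a).2 ha⟩
  · intro a ha
    obtain ⟨b, hb, rfl⟩ := hnb a ha
    obtain ⟨c, hc⟩ := hx.fst b hb
    exact ⟨j c, hE.et _ _ _ hc⟩
  · intro a ha
    obtain ⟨b, hb, rfl⟩ := hnb a ha
    obtain ⟨c, hc⟩ := hx.snd b hb
    exact ⟨j c, hE.et _ _ _ hc⟩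

private theorem CA_om_le (C : Conf P) (H : SimpleGraph P) (v x : P) : om C H v x ≤ 2 := by
  unfold om
  split_ifs <;> omega

private theorem CA_om_zero {C : Conf P} {H : SimpleGraph P} {v x : P} (hx : Cl C H x)
    (h : H.Adj v x) : om C H v x = 0 := by
  obtain ⟨b, hb⟩ := hx.fst v h.symm
  obtain ⟨a, ha⟩ := hx.snd v h.symm
  unfold om
  rw [if_pos ⟨a, ha.rot.rot⟩, if_pos ⟨b, hb.rot⟩]

private theorem CA_step {V : Type} [Finite V] (G : SimpleGraph V) {Δ : ℕ}
    (hΔ : ∀ v, (G.neighborSet v).ncard ≤ Δ) (C : Conf P) (i : V → P) {U : Set V} {u : V}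
    (hu : u ∉ U) (h : CAInv G Δ C i U) : CAInv G Δ C i (insert u U) := by
  obtain ⟨P', hP', C', H', i', hi', hin', hf', hH', hadj', hcl, hdU, hdn, hnew⟩ := h
  obtain ⟨P'', hP'', C'', H'', j, hE, hclu, hdu, hdadj, hdnadj, hnew''⟩ := closeV C' hH' (hin' u)
  -- degrees at the vertices of `U` do not increase
  have hkeep : ∀ w ∈ U, dg H'' (j (i' w)) ≤ dg H' (i' w) := by
    intro w hw
    by_cases ha : H'.Adj (i' u) (i' w)
    · have h1 := hdadj (i' w) ha
      rwa [CA_om_zero (hcl w hw) ha, add_zero] at h1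
    · refine (hdnadj (i' w) ?_ ha).le
      intro he
      exact hu (hi' he ▸ hw)
  refine ⟨P'', hP'', C'', H'', j ∘ i', hE.inj.comp hi', ?_, ?_, hE.ps, ?_, ?_, ?_, ?_, ?_⟩
  · intro v
    refine ⟨?_, ?_, ?_⟩
    · rw [hE.o1]; exact fun h => (hin' v).1 (hE.inj h)
    · rw [hE.o2]; exact fun h => (hin' v).2.1 (hE.inj h)
    · rw [hE.o3]; exact fun h => (hin' v).2.2 (hE.inj h)
  · intro v
    rw [Function.comp_apply, hE.pos, hf']
  · intro a b
    rw [Function.comp_apply, Function.comp_apply, hE.adj, hadj']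
  · rintro v (rfl | hv)
    · exact hclu
    · exact CA_cl hE (hcl v hv) (hkeep v hv)
  · rintro v (rfl | hv)
    · rw [Function.comp_apply]
      have h1 := hdn v hu
      have h2 := hΔ v
      have h3 : (G.neighborSet v ∩ U).ncard ≤ (G.neighborSet v).ncard :=
        Set.ncard_le_ncard Set.inter_subset_left (Set.toFinite _)
      omega
    · exact (hkeep v hv).trans (hdU v hv)
  · intro w hw
    rw [Set.mem_insert_iff, not_or] at hw
    rw [Function.comp_apply]
    have h1 := hdn w hw.2
    by_cases ha : H'.Adj (i' u) (i' w)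
    · have h2 := hdadj (i' w) ha
      have h3 := CA_om_le C' H' (i' u) (i' w)
      have h4 : G.neighborSet w ∩ insert u U = insert u (G.neighborSet w ∩ U) := by
        have hg : u ∈ G.neighborSet w := ((hadj' u w).1 ha).symm
        rw [Set.inter_insert_of_mem hg]
      rw [h4, Set.ncard_insert_of_notMem (fun h => hu h.2) (Set.toFinite _)]
      omega
    · have h2 := hdnadj (i' w) (fun he => hw.1 (hi' he)) ha
      have h3 : (G.neighborSet w ∩ U).ncard ≤ (G.neighborSet w ∩ insert u U).ncard :=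
        Set.ncard_le_ncard (Set.inter_subset_inter_right _ (Set.subset_insert _ _))
          (Set.toFinite _)
      omega
  · intro p hp
    by_cases hpj : p ∈ Set.range j
    · obtain ⟨q, rfl⟩ := hpj
      have hq : q ∉ Set.range i' := by
        rintro ⟨v, rfl⟩
        exact hp ⟨v, rfl⟩
      have h1 : {v | H''.Adj (j q) ((j ∘ i') v)} = {v | H'.Adj q (i' v)} := by
        ext v
        exact hE.adj q (i' v)
      rw [h1]
      exact hnew q hq
    · refine le_trans ?_ (hnew'' p hpj)
      rw [← Set.ncard_image_of_injective _ hi']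
      refine Set.ncard_le_ncard ?_ (Set.toFinite _)
      rintro _ ⟨v, hv, rfl⟩
      exact hv

theorem closeAll {V : Type} [Finite V] (G : SimpleGraph V) {Δ : ℕ}
    (hΔ : ∀ v, (G.neighborSet v).ncard ≤ Δ) [Finite P] (C : Conf P) {H : SimpleGraph P}
    (hH : PS C H) (i : V → P) (hi : Function.Injective i) (hin : ∀ v, C.Inner (i v))
    (hadj : ∀ u v, H.Adj (i u) (i v) ↔ G.Adj u v)
    (hnb : ∀ v p, H.Adj (i v) p → p ∈ Set.range i) :
    ∃ (P' : Type) (_ : Finite P') (C' : Conf P') (H' : SimpleGraph P') (i' : V → P'),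
      Function.Injective i' ∧ (∀ v, C'.Inner (i' v)) ∧ (∀ v, C'.f (i' v) = C.f (i v)) ∧
      PS C' H' ∧ (∀ u v, H'.Adj (i' u) (i' v) ↔ G.Adj u v) ∧ (∀ v, Cl C' H' (i' v)) ∧
      (∀ v, dg H' (i' v) ≤ 6 * Δ + 6) ∧
      ∀ p ∉ Set.range i', {v | H'.Adj p (i' v)}.ncard ≤ 3 := by
  classical
  have key : ∀ U : Finset V, CAInv G Δ C i (U : Set V) := by
    intro U
    induction U using Finset.induction_on with
    | empty =>
      refine ⟨P, inferInstance, C, H, i, hi, hin, fun _ => rfl, hH, hadj, ?_, ?_, ?_, ?_⟩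
      · intro v hv
        simp at hv
      · intro v hv
        simp at hv
      · intro v _
        have h1 : H.neighborSet (i v) = i '' (G.neighborSet v) := by
          ext p
          constructor
          · intro hp
            obtain ⟨w, rfl⟩ := hnb v p hp
            exact ⟨w, (hadj v w).1 hp, rfl⟩
          · rintro ⟨w, hw, rfl⟩
            exact (hadj v w).2 hw
        unfold dg
        rw [h1, Set.ncard_image_of_injective _ hi]
        omega
      · intro p hp
        have h1 : {v | H.Adj p (i v)} = ∅ := by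
          ext v
          rw [Set.mem_empty_iff_false, iff_false]
          intro h
          have h2 : H.Adj p (i v) := h
          exact hp (hnb v p h2.symm)
        rw [h1, Set.ncard_empty]
        omega
    | insert u U hu ih =>
      rw [Finset.coe_insert]
      exact CA_step G hΔ C i (by simpa using hu) ih
  have := Fintype.ofFinite V
  obtain ⟨P', hP', C', H', i', hi', hin', hf', hH', hadj', hcl, hdU, -, hnew⟩ := key Finset.univ
  exact ⟨P', hP', C', H', i', hi', hin', hf', hH', hadj', fun v => hcl v (by simp),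
    fun v => hdU v (by simp), hnew⟩

end B306
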