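import Pool.Agent.Lib_MP_b306af.GNext

/-! # MP_b306af, Part II: stage B -/

namespace B306

variable {P : Type}

/- Piece STAGEB.  Induction on the number `n` of neighbours `a` of `v` without `b` such that
`ET C H v a b`.  If `n = 0`: `fst` holds; `snd`: the map `a ↦ b` on the finite set of neighbours is
injective (`et_no`, `nx_unique'`), hence surjective.  If `n > 0`: take such an `a`, by `hg` and
`exists_nx` there is `b` with `Nx C H v a b`, not `ET`; apply `stepB`: the new graph is
`H1 = addV H {v,a,b}`, the neighbours of `v` are the old ones and `none`; `some a` and `none` are now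
first corners of empty triangles, the others keep their triangles (`Ext.et`), so `n` decreases.
`hg` for `H1`: for an old neighbour it holds as before, for `none` take `some b`.  Apply the
induction hypothesis and compose (`Ext.trans`).
Degrees: `dg H1 v = dg H v + 1`, so `dg H' v ≤ dg H v + n`.  For `x ≠ v`, `x ∉ {a,b}`: `dg` does not
change and `om` does not increase; for `x ∈ {a,b}`, `a ≠ b`: `dg` increases by one and `om`
decreases by (at least) one (`a` was not a first corner: now it is; `b` was not a second corner of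
an empty triangle `v a' b`, since then `a' = a` by `nx_unique'`: now it is).  If `x` is not adjacent
to `v` then `x ∉ {a, b}`.  New vertices: at most three old neighbours, for `none`:
`{v, a, b}`; `{x : P | H'.Adj p (k (some x))}` for later ones is part of the set for `Option P`. -/

private theorem stb_inner {P' : Type} {C : Conf P} {H : SimpleGraph P} {C' : Conf P'}
    {H' : SimpleGraph P'} {j : P → P'} (h : Ext C H C' H' j) {v : P} (hv : C.Inner v) :
    C'.Inner (j v) := by
  refine ⟨?_, ?_, ?_⟩
  · rw [h.o1]; exact fun e => hv.1 (h.inj e)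
  · rw [h.o2]; exact fun e => hv.2.1 (h.inj e)
  · rw [h.o3]; exact fun e => hv.2.2 (h.inj e)

private theorem stb_dg_in [Finite P] (H : SimpleGraph P) {S : Set P} {x : P} (hx : x ∈ S) :
    dg (addV H S) (some x) = dg H x + 1 := by
  have h1 : (addV H S).neighborSet (some x) = insert none (some '' H.neighborSet x) := by
    ext o
    cases o with
    | none => exact ⟨fun _ => Or.inl rfl, fun _ => hx⟩
    | some y =>
      constructor
      · intro h
        exact Or.inr ⟨y, h, rfl⟩
      · rintro (h | ⟨z, hz, hzy⟩)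
        · exact absurd h (Option.some_ne_none y)
        · rw [← Option.some_injective P hzy]
          exact hz
  unfold dg
  rw [h1, Set.ncard_insert_of_notMem ?_ (Set.toFinite _),
    Set.ncard_image_of_injective _ (Option.some_injective P)]
  rintro ⟨z, -, hz⟩
  exact Option.some_ne_none z hz

private theorem stb_dg_out [Finite P] (H : SimpleGraph P) {S : Set P} {x : P} (hx : x ∉ S) :
    dg (addV H S) (some x) = dg H x := by
  have h1 : (addV H S).neighborSet (some x) = some '' H.neighborSet x := by
    ext o
    cases o with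
    | none =>
      constructor
      · intro h
        exact absurd h hx
      · rintro ⟨z, -, hz⟩
        exact absurd hz (Option.some_ne_none z)
    | some y =>
      constructor
      · intro h
        exact ⟨y, h, rfl⟩
      · rintro ⟨z, hz, hzy⟩
        rw [← Option.some_injective P hzy]
        exact hz
  unfold dg
  rw [h1, Set.ncard_image_of_injective _ (Option.some_injective P)]

/-- the two parts of `om` do not increase -/
private theorem stb_om {P' : Type} {C : Conf P} {H : SimpleGraph P} {C' : Conf P'}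
    {H' : SimpleGraph P'} {j : P → P'} (h : Ext C H C' H' j) (v x : P) (c1 c2 : ℕ)
    (h1 : c1 = 1 → (¬ ∃ b, ET C H v x b) ∧ ∃ b, ET C' H' (j v) (j x) b)
    (h2 : c2 = 1 → (¬ ∃ a, ET C H v a x) ∧ ∃ a, ET C' H' (j v) a (j x))
    (h3 : c1 ≤ 1) (h4 : c2 ≤ 1) :
    c1 + c2 + om C' H' (j v) (j x) ≤ om C H v x := by
  classical
  unfold om
  have e1 : (∃ b, ET C H v x b) → ∃ b, ET C' H' (j v) (j x) b := fun ⟨b, hb⟩ => ⟨j b, h.et _ _ _ hb⟩
  have e2 : (∃ a, ET C H v a x) → ∃ a, ET C' H' (j v) a (j x) := fun ⟨b, hb⟩ => ⟨j b, h.et _ _ _ hb⟩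
  have f1 : c1 + (if ∃ b, ET C' H' (j v) (j x) b then 0 else 1) ≤
      (if ∃ b, ET C H v x b then 0 else 1) := by
    by_cases hc : c1 = 1
    · obtain ⟨q1, q2⟩ := h1 hc
      rw [if_neg q1, if_pos q2, hc]
    · have hc0 : c1 = 0 := by omega
      rw [hc0]
      by_cases q : ∃ b, ET C H v x b
      · rw [if_pos (e1 q)]
        exact Nat.zero_le _
      · rw [if_neg q]
        split_ifs <;> omega
  have f2 : c2 + (if ∃ a, ET C' H' (j v) a (j x) then 0 else 1) ≤
      (if ∃ a, ET C H v a x then 0 else 1) := by
    by_cases hc : c2 = 1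
    · obtain ⟨q1, q2⟩ := h2 hc
      rw [if_neg q1, if_pos q2, hc]
    · have hc0 : c2 = 0 := by omega
      rw [hc0]
      by_cases q : ∃ a, ET C H v a x
      · rw [if_pos (e2 q)]
        exact Nat.zero_le _
      · rw [if_neg q]
        split_ifs <;> omega
  omega

/-- the neighbours of `v` that are not the first corner of an empty triangle at `v` -/
private def SB (C : Conf P) (H : SimpleGraph P) (v : P) : Set P :=
  {a | H.Adj v a ∧ ¬ ∃ b, ET C H v a b}

private theorem stb_base [Finite P] (C : Conf P) {H : SimpleGraph P} (hH : PS C H) {v : P}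
    (hne : ∃ a, H.Adj v a) (h0 : SB C H v = ∅) : Cl C H v := by
  have hfst : ∀ a, H.Adj v a → ∃ b, ET C H v a b := by
    intro a ha
    by_contra hb
    have h1 : a ∈ SB C H v := ⟨ha, hb⟩
    rw [h0] at h1
    exact h1
  refine ⟨hne, hfst, ?_⟩
  choose g hg using hfst
  let F : {a // H.Adj v a} → {a // H.Adj v a} := fun a => ⟨g a.1 a.2, (hg a.1 a.2).ca.symm⟩
  have hinj : Function.Injective F := by
    rintro ⟨a, ha⟩ ⟨a', ha'⟩ hF
    have h1 : g a ha = g a' ha' := congrArg Subtype.val hF
    have h2 := et_no C hH.cf (hg a ha)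
    have h3 := et_no C hH.cf (hg a' ha')
    rw [← h1] at h3
    exact Subtype.ext (nx_unique' C H h2 h3)
  have hsurj := Finite.surjective_of_injective hinj
  intro b hb
  obtain ⟨⟨a, ha⟩, hF⟩ := hsurj ⟨b, hb⟩
  have h1 : g a ha = b := congrArg Subtype.val hF
  exact ⟨a, h1 ▸ hg a ha⟩

private theorem stb_ind : ∀ (n : ℕ) (P : Type) [Finite P] (C : Conf P) (H : SimpleGraph P)
    (_ : PS C H) (v : P) (_ : C.Inner v) (_ : ∃ a, H.Adj v a)
    (_ : ∀ a, H.Adj v a → ∃ b, H.Adj v b ∧ 0 < D (C.f v) (C.f a) (C.f b))
    (_ : (SB C H v).ncard ≤ n),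
    ∃ (P' : Type) (_ : Finite P') (C' : Conf P') (H' : SimpleGraph P') (j : P → P'),
      Ext C H C' H' j ∧ Cl C' H' (j v) ∧ dg H' (j v) ≤ dg H v + n ∧
      (∀ x, H.Adj v x → dg H' (j x) ≤ dg H x + om C H v x) ∧
      (∀ x ≠ v, ¬ H.Adj v x → dg H' (j x) = dg H x) ∧
      ∀ p ∉ Set.range j, {x : P | H'.Adj p (j x)}.ncard ≤ 3 := by
  intro n
  induction n with
  | zero =>
    intro P _ C H hH v hv hne hg hn
    have h0 : SB C H v = ∅ := (Set.ncard_eq_zero (Set.toFinite _)).1 (Nat.le_zero.1 hn)
    refine ⟨P, inferInstance, C, H, id, Ext.refl hH, stb_base C hH hne h0, le_rfl,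
      fun x _ => Nat.le_add_right _ _, fun x _ _ => rfl, fun p hp => absurd ⟨p, rfl⟩ hp⟩
  | succ n ih =>
    intro P _ C H hH v hv hne hg hn
    by_cases h0 : SB C H v = ∅
    · refine ⟨P, inferInstance, C, H, id, Ext.refl hH, stb_base C hH hne h0, Nat.le_add_right _ _,
        fun x _ => Nat.le_add_right _ _, fun x _ _ => rfl, fun p hp => absurd ⟨p, rfl⟩ hp⟩
    obtain ⟨a, haB⟩ := Set.nonempty_iff_ne_empty.2 h0
    obtain ⟨ha, hab0⟩ := haB
    obtain ⟨b, hab⟩ := exists_nx C H ha (hg a ha)
    have hnet : ¬ ET C H v a b := fun h => hab0 ⟨b, h⟩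
    obtain ⟨C1, hext, het1, het2⟩ := stepB C hH hv hab hnet
    have hvb := hab.vb
    have hneab : a ≠ b := by
      rintro rfl
      have := hab.pos
      rw [D_self'] at this
      exact lt_irrefl _ this
    -- the set of open first corners decreases
    have hBsub : SB C1 (addV H {v, a, b}) (some v) ⊆ some '' (SB C H v \ {a}) := by
      rintro o ⟨ho1, ho2⟩
      cases o with
      | none => exact absurd ⟨_, het2⟩ ho2
      | some x =>
        refine ⟨x, ⟨⟨ho1, fun ⟨y, hy⟩ => ho2 ⟨some y, hext.et _ _ _ hy⟩⟩, ?_⟩, rfl⟩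
        intro hxa
        have hxa' : x = a := hxa
        rw [hxa'] at ho2
        exact ho2 ⟨_, het1⟩
    have hB1 : (SB C1 (addV H {v, a, b}) (some v)).ncard ≤ n := by
      have h1 := Set.ncard_le_ncard hBsub (Set.toFinite _)
      rw [Set.ncard_image_of_injective _ (Option.some_injective P)] at h1
      have h2 := Set.ncard_sdiff_singleton_lt_of_mem (s := SB C H v) (a := a) ⟨ha, hab0⟩
        (Set.toFinite _)
      omega
    have hg1 : ∀ o, (addV H {v, a, b}).Adj (some v) o →
        ∃ b', (addV H {v, a, b}).Adj (some v) b' ∧ 0 < D (C1.f (some v)) (C1.f o) (C1.f b') := by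
      intro o ho
      cases o with
      | none => exact ⟨some b, hvb, het2.pos⟩
      | some x =>
        obtain ⟨y, hy1, hy2⟩ := hg x ho
        refine ⟨some y, hy1, ?_⟩
        rw [hext.pos, hext.pos, hext.pos]
        exact hy2
    obtain ⟨P', hP', C', H', k, e2, cl, hdv, hadj, hnadj, hnew⟩ := ih (Option P) C1
      (addV H {v, a, b}) hext.ps (some v) (stb_inner hext hv) ⟨some a, ha⟩ hg1 hB1
    refine ⟨P', hP', C', H', k ∘ some, hext.trans e2, cl, ?_, ?_, ?_, ?_⟩
    · have h1 : dg (addV H {v, a, b}) (some v) = dg H v + 1 := stb_dg_in H (Or.inl rfl)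
      show dg H' (k (some v)) ≤ _
      omega
    · intro x hx
      have h1 := hadj (some x) hx
      show dg H' (k (some x)) ≤ _
      have hxv : x ≠ v := hx.ne'
      by_cases hxa : x = a
      · have h2 : dg (addV H {v, a, b}) (some x) = dg H x + 1 :=
          stb_dg_in H (Or.inr (Or.inl hxa))
        have h3 := stb_om hext v x 1 0 (fun _ => ⟨by rw [hxa]; exact hab0, none, by
          rw [hxa]; exact het1⟩) (fun h => absurd h (by norm_num)) le_rfl (Nat.zero_le _)
        omega
      by_cases hxb : x = b
      · have h2 : dg (addV H {v, a, b}) (some x) = dg H x + 1 :=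
          stb_dg_in H (Or.inr (Or.inr hxb))
        have h3 := stb_om hext v x 0 1 (fun h => absurd h (by norm_num)) (fun _ => ⟨?_, none, by
          rw [hxb]; exact het2⟩) (Nat.zero_le _) le_rfl
        · omega
        · rintro ⟨a', ha'⟩
          rw [hxb] at ha'
          have h4 := nx_unique' C H (et_no C hH.cf ha') hab
          rw [h4] at ha'
          exact hnet ha'
      · have h2 : dg (addV H {v, a, b}) (some x) = dg H x := by
          apply stb_dg_out
          rintro (h | h | h)
          · exact hxv h
          · exact hxa h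
          · exact hxb h
        have h3 := stb_om hext v x 0 0 (fun h => absurd h (by norm_num))
          (fun h => absurd h (by norm_num)) (Nat.zero_le _) (Nat.zero_le _)
        omega
    · intro x hxv hx
      have h1 := hnadj (some x) (fun h => hxv (Option.some_injective P h)) hx
      have h2 : dg (addV H {v, a, b}) (some x) = dg H x := by
        apply stb_dg_out
        rintro (h | h | h)
        · exact hxv h
        · exact hx (h ▸ ha)
        · have h' : x = b := h
          exact hx (h' ▸ hvb)
      exact h1.trans h2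
    · intro p hp
      by_cases hpk : p ∈ Set.range k
      · obtain ⟨o, rfl⟩ := hpk
        cases o with
        | some y => exact absurd ⟨y, rfl⟩ hp
        | none =>
          have hsub : {x : P | H'.Adj (k none) ((k ∘ some) x)} ⊆ {v, a, b} := by
            intro x hx
            exact (e2.adj none (some x)).1 hx
          refine (Set.ncard_le_ncard hsub (Set.toFinite _)).trans ?_
          refine (Set.ncard_insert_le _ _).trans ?_
          have := Set.ncard_insert_le a ({b} : Set P)
          rw [Set.ncard_singleton] at this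
          omega
      · refine le_trans ?_ (hnew p hpk)
        exact Set.ncard_le_ncard_of_injOn some (fun x hx => hx)
          ((Option.some_injective P).injOn) (Set.toFinite _)

theorem stageB [Finite P] (C : Conf P) {H : SimpleGraph P} (hH : PS C H) {v : P}
    (hv : C.Inner v) (hne : ∃ a, H.Adj v a)
    (hg : ∀ a, H.Adj v a → ∃ b, H.Adj v b ∧ 0 < D (C.f v) (C.f a) (C.f b)) :
    ∃ (P' : Type) (_ : Finite P') (C' : Conf P') (H' : SimpleGraph P') (j : P → P'),
      Ext C H C' H' j ∧ Cl C' H' (j v) ∧ dg H' (j v) ≤ 2 * dg H v ∧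
      (∀ x, H.Adj v x → dg H' (j x) ≤ dg H x + om C H v x) ∧
      (∀ x ≠ v, ¬ H.Adj v x → dg H' (j x) = dg H x) ∧
      ∀ p ∉ Set.range j, {x : P | H'.Adj p (j x)}.ncard ≤ 3 := by
  have hn : (SB C H v).ncard ≤ dg H v := by
    unfold dg
    exact Set.ncard_le_ncard (fun x hx => hx.1) (Set.toFinite _)
  obtain ⟨P', hP', C', H', j, e, cl, h1, h2, h3, h4⟩ :=
    stb_ind (dg H v) P C H hH v hv hne hg hn
  exact ⟨P', hP', C', H', j, e, cl, by omega, h2, h3, h4⟩

end B306
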