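import Pool.Agent.Lib_MP_b306af.GStA
import Pool.Agent.Lib_MP_b306af.GStB

/-! # MP_b306af, Part II: closing one star -/

namespace B306

variable {P : Type}

theorem CLV_inner {P' : Type} {C : Conf P} {H : SimpleGraph P} {C' : Conf P'}
    {H' : SimpleGraph P'} {j : P → P'} (h : Ext C H C' H' j) {v : P} (hv : C.Inner v) :
    C'.Inner (j v) := by
  refine ⟨?_, ?_, ?_⟩
  · rw [h.o1]; exact fun e => hv.1 (h.inj e)
  · rw [h.o2]; exact fun e => hv.2.1 (h.inj e)
  · rw [h.o3]; exact fun e => hv.2.2 (h.inj e)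

theorem CLV_om {P' : Type} {C : Conf P} {H : SimpleGraph P} {C' : Conf P'}
    {H' : SimpleGraph P'} {j : P → P'} (h : Ext C H C' H' j) (v x : P) :
    om C' H' (j v) (j x) ≤ om C H v x := by
  unfold om
  refine Nat.add_le_add ?_ ?_
  · by_cases h1 : ∃ b, ET C H v x b
    · obtain ⟨b, hb⟩ := h1
      rw [if_pos ⟨j b, h.et _ _ _ hb⟩]
      exact Nat.zero_le _
    · rw [if_neg h1]
      split_ifs <;> omega
  · by_cases h1 : ∃ a, ET C H v a x
    · obtain ⟨a, ha⟩ := h1
      rw [if_pos ⟨j a, h.et _ _ _ ha⟩]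
      exact Nat.zero_le _
    · rw [if_neg h1]
      split_ifs <;> omega

/- Piece CLOSEV: `stageA` followed by `stageB`.  `om` for the graph after `stageA` is at most `om`
before (`Ext.et`). New vertices: for those of stage A one old neighbour (`v`), which stays
(`Ext.adj`); for those of stage B use the injectivity of the first map. -/

theorem closeV [Finite P] (C : Conf P) {H : SimpleGraph P} (hH : PS C H) {v : P}
    (hv : C.Inner v) :
    ∃ (P' : Type) (_ : Finite P') (C' : Conf P') (H' : SimpleGraph P') (j : P → P'),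
      Ext C H C' H' j ∧ Cl C' H' (j v) ∧ dg H' (j v) ≤ 2 * (dg H v + 3) ∧
      (∀ x, H.Adj v x → dg H' (j x) ≤ dg H x + om C H v x) ∧
      (∀ x ≠ v, ¬ H.Adj v x → dg H' (j x) = dg H x) ∧
      ∀ p ∉ Set.range j, {x : P | H'.Adj p (j x)}.ncard ≤ 3 := by
  obtain ⟨P1, hP1, C1, H1, j1, e1, hne1, hg1, hnew1, hdv1, hdx1⟩ := stageA C hH hv
  obtain ⟨P2, hP2, C2, H2, j2, e2, cl2, hdv2, hadj2, hnadj2, hnew2⟩ :=
    stageB C1 e1.ps (CLV_inner e1 hv) hne1 hg1
  refine ⟨P2, hP2, C2, H2, j2 ∘ j1, e1.trans e2, cl2, ?_, ?_, ?_, ?_⟩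
  · exact hdv2.trans (Nat.mul_le_mul_left 2 hdv1)
  · intro x hx
    have h1 := hadj2 (j1 x) ((e1.adj v x).2 hx)
    have h2 := CLV_om e1 v x
    rw [hdx1 x hx.ne'] at h1
    exact h1.trans (Nat.add_le_add_left h2 _)
  · intro x hxv hx
    have h1 := hnadj2 (j1 x) (fun h => hxv (e1.inj h)) (fun h => hx ((e1.adj v x).1 h))
    rw [hdx1 x hxv] at h1
    exact h1
  · intro p hp
    by_cases hp2 : p ∈ Set.range j2
    · obtain ⟨q, rfl⟩ := hp2
      have hq : q ∉ Set.range j1 := by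
        rintro ⟨y, rfl⟩
        exact hp ⟨y, rfl⟩
      have hsub : {x : P | H2.Adj (j2 q) ((j2 ∘ j1) x)} ⊆ {v} := by
        intro x hx
        have h1 : H1.Adj q (j1 x) := (e2.adj q (j1 x)).1 hx
        exact e1.inj (hnew1 q hq _ h1)
      have h2 := Set.ncard_le_ncard hsub (Set.finite_singleton v)
      rw [Set.ncard_singleton] at h2
      omega
    · refine le_trans ?_ (hnew2 p hp2)
      exact Set.ncard_le_ncard_of_injOn j1 (fun x hx => hx) (e1.inj.injOn) (Set.toFinite _)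

end B306
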