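import Pool.Agent.Lib_MP_b306af.GPert

/-! # MP_b306af, Part II: the starting configuration -/

namespace B306

open Filter Topology

/- Piece CONF.  Let `R > 0` bound all coordinates of the points `f v`.  Put
`F (inl v) = f v`, `F (inr 0) = (-10 R, -10 R)`, `F (inr 1) = (10 R, -10 R)`, `F (inr 2) = (0, 10 R)`.
All `f v` are strictly inside (`D o1 o2 v = 20 R (y + 10 R)`,
`D o2 o3 v = 100 R^2 - 10 R y - 20 R x`, `D o3 o1 v = 100 R^2 - 10 R y + 20 R x`).  Perturb by
`ε (t, t^2)` with an injective `t : V ⊕ Fin 3 → ℝ` (`pert_gp`), the inequalities remain (`pert_D`).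
`H = G ⊕g ⊤`.  `CF`: two edges of `G`: `pert_cf`; if `a b` is an outer edge, all other points are on
the same side of it, so the product `D a b c * D a b d` is not negative; use `Cr.symm` if `c d` is
the outer edge. -/

private theorem GConf_side {P : Type} (F : P → Pl) {x y : Pl}
    (h : (∀ p, 0 ≤ D x y (F p)) ∨ ∀ p, D x y (F p) ≤ 0) (c d : P) : ¬ Cr x y (F c) (F d) := by
  intro hc
  have h1 := hc.1
  rcases h with h | h
  · have := mul_nonneg (h c) (h d)
    linarith
  · have := mul_nonneg_of_nonpos_of_nonpos (h c) (h d)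
    linarith

theorem exists_conf {V : Type} [Finite V] (G : SimpleGraph V) {f : V → Pl}
    (hf : IsDrawing G f) :
    ∃ (C : Conf (V ⊕ Fin 3)) (H : SimpleGraph (V ⊕ Fin 3)), PS C H ∧
      (∀ v, C.Inner (Sum.inl v)) ∧ (∀ u v, H.Adj (Sum.inl u) (Sum.inl v) ↔ G.Adj u v) ∧
      ∀ v p, H.Adj (Sum.inl v) p → p ∈ Set.range (Sum.inl : V → V ⊕ Fin 3) := by
  obtain ⟨M, hM⟩ := (Set.finite_range (fun v => |(f v).1| + |(f v).2|)).bddAbove
  set R : ℝ := max M 0 + 1 with hR
  have hR0 : 0 < R := by
    have := le_max_right M 0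
    linarith
  have hfR : ∀ v, |(f v).1| < R ∧ |(f v).2| < R := by
    intro v
    have h1 : |(f v).1| + |(f v).2| ≤ M := hM ⟨v, rfl⟩
    have h2 := le_max_left M 0
    have h3 := abs_nonneg (f v).1
    have h4 := abs_nonneg (f v).2
    constructor <;> linarith
  let q1 : Pl := (-10 * R, -10 * R)
  let q2 : Pl := (10 * R, -10 * R)
  let q3 : Pl := (0, 10 * R)
  let F : V ⊕ Fin 3 → Pl := Sum.elim f ![q1, q2, q3]
  have hFl : ∀ v, F (Sum.inl v) = f v := fun v => rfl
  have hF0 : F (Sum.inr 0) = q1 := rfl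
  have hF1 : F (Sum.inr 1) = q2 := rfl
  have hF2 : F (Sum.inr 2) = q3 := rfl
  obtain ⟨t, ht⟩ : ∃ t : V ⊕ Fin 3 → ℝ, Function.Injective t := by
    let e := Finite.equivFin (V ⊕ Fin 3)
    refine ⟨fun p => ((e p : ℕ) : ℝ), ?_⟩
    intro p q h
    have h1 : ((e p : ℕ) : ℝ) = ((e q : ℕ) : ℝ) := h
    have h2 : (e p : ℕ) = (e q : ℕ) := Nat.cast_injective h1
    exact e.injective (Fin.ext h2)
  let g : V ⊕ Fin 3 → Pl := fun p => (t p, t p ^ 2)
  have E1 := pert_gp F ht
  have E2 : ∀ᶠ ε in 𝓝[>] (0 : ℝ), 0 < D (F (Sum.inr 0) + ε • g (Sum.inr 0))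
      (F (Sum.inr 1) + ε • g (Sum.inr 1)) (F (Sum.inr 2) + ε • g (Sum.inr 2)) := by
    apply pert_D F g
    rw [hF0, hF1, hF2]
    simp only [D, q1, q2, q3]
    nlinarith [mul_pos hR0 hR0]
  have E3 : ∀ᶠ ε in 𝓝[>] (0 : ℝ), ∀ v : V,
      InT (F (Sum.inr 0) + ε • g (Sum.inr 0)) (F (Sum.inr 1) + ε • g (Sum.inr 1))
        (F (Sum.inr 2) + ε • g (Sum.inr 2)) (F (Sum.inl v) + ε • g (Sum.inl v)) := by
    rw [eventually_all]
    intro v
    obtain ⟨h1, h2⟩ := hfR v
    obtain ⟨h1a, h1b⟩ := abs_lt.1 h1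
    obtain ⟨h2a, h2b⟩ := abs_lt.1 h2
    have a1 : 0 < D (F (Sum.inr 0)) (F (Sum.inr 1)) (F (Sum.inl v)) := by
      rw [hF0, hF1, hFl]
      simp only [D, q1, q2]
      nlinarith [mul_pos hR0 (show 0 < (f v).2 + 10 * R by linarith)]
    have a2 : 0 < D (F (Sum.inr 1)) (F (Sum.inr 2)) (F (Sum.inl v)) := by
      rw [hF1, hF2, hFl]
      simp only [D, q2, q3]
      nlinarith [mul_pos hR0 (show 0 < 100 * R - 10 * (f v).2 - 20 * (f v).1 by linarith)]
    have a3 : 0 < D (F (Sum.inr 2)) (F (Sum.inr 0)) (F (Sum.inl v)) := by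
      rw [hF2, hF0, hFl]
      simp only [D, q1, q3]
      nlinarith [mul_pos hR0 (show 0 < 100 * R - 10 * (f v).2 + 20 * (f v).1 by linarith)]
    filter_upwards [pert_D F g a1, pert_D F g a2, pert_D F g a3] with ε b1 b2 b3
    exact ⟨b1, b2, b3⟩
  have E4 := pert_cf G hf (fun v => g (Sum.inl v))
  obtain ⟨ε, ⟨⟨e1, e2⟩, e3⟩, e4⟩ := (((E1.and E2).and E3).and E4).exists
  let F' : V ⊕ Fin 3 → Pl := fun p => F p + ε • g p
  have s01 : ∀ p, 0 ≤ D (F' (Sum.inr 0)) (F' (Sum.inr 1)) (F' p) := by
    intro p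
    rcases p with v | i
    · exact (e3 v).1.le
    · fin_cases i
      · exact (D_self'' _ _).ge
      · exact (D_self' _ _).ge
      · exact e2.le
  have s12 : ∀ p, 0 ≤ D (F' (Sum.inr 1)) (F' (Sum.inr 2)) (F' p) := by
    intro p
    rcases p with v | i
    · exact (e3 v).2.1.le
    · fin_cases i
      · have := e2.le
        rw [D_cyc] at this
        exact this
      · exact (D_self'' _ _).ge
      · exact (D_self' _ _).ge
  have s20 : ∀ p, 0 ≤ D (F' (Sum.inr 2)) (F' (Sum.inr 0)) (F' p) := by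
    intro p
    rcases p with v | i
    · exact (e3 v).2.2.le
    · fin_cases i
      · exact (D_self' _ _).ge
      · have := e2.le
        rw [D_cyc'] at this
        exact this
      · exact (D_self'' _ _).ge
  have rev : ∀ x y : Pl, (∀ p, 0 ≤ D x y (F' p)) → ∀ p, D y x (F' p) ≤ 0 := by
    intro x y h p
    have := h p
    rw [D_swap] at this
    linarith
  have outer : ∀ i j : Fin 3, i ≠ j → ∀ c d, ¬ Cr (F' (Sum.inr i)) (F' (Sum.inr j)) (F' c) (F' d) := by
    intro i j hij
    apply GConf_side F'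
    fin_cases i <;> fin_cases j
    · exact absurd rfl hij
    · exact Or.inl s01
    · exact Or.inr (rev _ _ s20)
    · exact Or.inr (rev _ _ s01)
    · exact absurd rfl hij
    · exact Or.inl s12
    · exact Or.inl s20
    · exact Or.inr (rev _ _ s12)
    · exact absurd rfl hij
  let H : SimpleGraph (V ⊕ Fin 3) :=
    { Adj := fun p q => match p, q with
        | Sum.inl u, Sum.inl v => G.Adj u v
        | Sum.inr i, Sum.inr j => i ≠ j
        | _, _ => False
      symm := by
        refine ⟨fun p q h => ?_⟩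
        rcases p with u | i <;> rcases q with v | j
        · exact SimpleGraph.Adj.symm h
        · exact h
        · exact h
        · exact Ne.symm h
      loopless := by
        refine ⟨fun p h => ?_⟩
        rcases p with u | i
        · exact G.loopless.irrefl u h
        · exact h rfl }
  let C : Conf (V ⊕ Fin 3) :=
    { f := F'
      gp := e1
      o1 := Sum.inr 0
      o2 := Sum.inr 1
      o3 := Sum.inr 2
      pos := e2
      ins := by
        intro p h0 h1 h2
        rcases p with v | i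
        · exact e3 v
        · fin_cases i
          · exact absurd rfl h0
          · exact absurd rfl h1
          · exact absurd rfl h2 }
  refine ⟨C, H, ⟨?_, ?_, ?_, ?_⟩, ?_, ?_, ?_⟩
  · intro a b c d hab hcd
    rcases a with a | i
    · rcases b with b | j
      · rcases c with c | k
        · rcases d with d | l
          · exact e4 a b c d hab hcd
          · exact absurd hcd id
        · rcases d with d | l
          · exact absurd hcd id
          · intro hc
            exact outer k l hcd _ _ hc.symm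
      · exact absurd hab id
    · rcases b with b | j
      · exact absurd hab id
      · exact outer i j hab c d
  · show (0 : Fin 3) ≠ 1
    decide
  · show (1 : Fin 3) ≠ 2
    decide
  · show (2 : Fin 3) ≠ 0
    decide
  · intro v
    refine ⟨?_, ?_, ?_⟩ <;> exact Sum.inl_ne_inr
  · intro u v
    exact Iff.rfl
  · intro v p h
    rcases p with u | i
    · exact ⟨u, rfl⟩
    · exact absurd h id

end B306
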