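import Pool.Agent.Lib_MP_b306af.GBasic

/-! # MP_b306af, Part II: adding one vertex very close to `v` -/

namespace B306

open Filter Topology

variable {P : Type} [Finite P]

/-- generic direction at `v` -/
structure Gen (C : Conf P) (v : P) (u : Pl) : Prop where
  x : u.1 ≠ 0
  w : ∀ w, w ≠ v → cr u (C.f w - C.f v) ≠ 0

/- Piece CORE1 (all theorems of this file up to `core_emp`).

Everything is continuity of the polynomial `ε ↦ D (v + ε u) a b` at `ε = 0` and the identities
`D v (v + ε u) w = ε cr u (w - v)`.  For finitely many conditions use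
`Filter.eventually_all` (finite index types) and, for one strict inequality, continuity
(`ContinuousAt.eventually_lt` or `Continuous.tendsto`, `eventually_gt_nhds`) together with
`nhdsWithin_le_nhds`; for the factors `ε > 0` use `eventually_mem_nhdsWithin`
(`self_mem_nhdsWithin`).

`core_D`: ring.
`core_gp`: `D p a b` for `a, b ≠ v` tends to `D v a b ≠ 0`; for `a = v` it is `± ε cr u (b - v)`.
`core_ins`: `D (o1) (o2) p → D o1 o2 v > 0` etc.
`core_cf`: the new edge `p w`, `w ∈ S ∪ {v}`, against an old edge `c d`.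
(a) `w = v`: if `v ∈ {c,d}` some `D` vanishes; otherwise `D c d p * D c d v → (D c d v)^2 > 0`, so
eventually the second condition of `Cr p v c d` fails.
(b) `w ∈ S`, `w ∈ {c,d}`: a factor vanishes.
(c) `w ∈ S`, `v ∈ {c,d}`, say the edge is `v x`, `x ≠ w`: `D v x p * D v x w =
ε cr X u * cr X W` and `D p w v * D p w x = ε cr u W * D p w x` with `D p w x → D v w x = cr W X ≠ 0`
(`X = x - v`, `W = w - v`); both negative for small `ε` means that `X` is strictly between `u` and
`W`, excluded by `hS`.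
(d) `w ∈ S`, `v, w ∉ {c,d}`: `¬ Cr v w c d` (as `H` is crossing-free) and general position give
`0 < D v w c * D v w d` or `0 < D c d v * D c d w`, both conditions are open.
`core_et`: if `v ∉ {x,y,z}`: one of the three `D` is negative at `v` (not zero by general
position), open condition.  If `v = x`: `0 < D v y p` and `0 < D z v p` give `0 < cr Y u` and
`0 < cr u Z` (excluded by `hE`); `v = y`, `v = z` in the same way by rotating `ET`.
`core_emp`: `D v w q > 0` and `D w p q > 0` with `D w p q → D w v q = - D v w q`: impossible for small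
`ε` if `D v w q ≠ 0`, and if it is `0` then `D v w q > 0` fails; the other orientation is similar. -/

theorem core_D (v w u : Pl) (ε : ℝ) : D v (v + ε • u) w = ε * cr u (w - v) := by
  unfold D cr
  simp only [Prod.fst_add, Prod.snd_add, Prod.smul_fst, Prod.smul_snd, Prod.fst_sub,
    Prod.snd_sub, smul_eq_mul]
  ring

theorem core1_pos {g : ℝ → ℝ} (hg : Continuous g) (h : 0 < g 0) :
    ∀ᶠ ε in 𝓝[>] (0 : ℝ), 0 < g ε :=
  ((hg.tendsto 0).eventually (isOpen_Ioi.mem_nhds h)).filter_mono nhdsWithin_le_nhds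

theorem core1_neg {g : ℝ → ℝ} (hg : Continuous g) (h : g 0 < 0) :
    ∀ᶠ ε in 𝓝[>] (0 : ℝ), g ε < 0 :=
  ((hg.tendsto 0).eventually (isOpen_Iio.mem_nhds h)).filter_mono nhdsWithin_le_nhds

theorem core1_ne {g : ℝ → ℝ} (hg : Continuous g) (h : g 0 ≠ 0) :
    ∀ᶠ ε in 𝓝[>] (0 : ℝ), g ε ≠ 0 :=
  ((hg.tendsto 0).eventually (isOpen_ne.mem_nhds h)).filter_mono nhdsWithin_le_nhds

theorem core1_mul {g h : ℝ → ℝ} (hg : Continuous g) (hh : Continuous h) (h0 : 0 < g 0 * h 0) :
    ∀ᶠ ε in 𝓝[>] (0 : ℝ), 0 < g ε * h ε :=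
  core1_pos (g := fun ε => g ε * h ε) (hg.mul hh) h0

theorem core1_ev : ∀ᶠ ε in 𝓝[>] (0 : ℝ), 0 < ε := self_mem_nhdsWithin

theorem core1_D1 (v u a b : Pl) (ε : ℝ) :
    D (v + ε • u) a b = D v a b + ε * (u.2 * (b.1 - a.1) - u.1 * (b.2 - a.2)) := by
  unfold D
  simp only [Prod.fst_add, Prod.snd_add, Prod.smul_fst, Prod.smul_snd, smul_eq_mul]
  ring

theorem core1_c1 (v u a b : Pl) : Continuous fun ε : ℝ => D (v + ε • u) a b := by
  simp only [core1_D1]
  fun_prop

theorem core1_c2 (v u a b : Pl) : Continuous fun ε : ℝ => D a (v + ε • u) b := by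
  simp only [D_cyc a, core1_D1]
  fun_prop

theorem core1_c3 (v u a b : Pl) : Continuous fun ε : ℝ => D a b (v + ε • u) := by
  simp only [D_cyc' a, core1_D1]
  fun_prop

theorem core1_0 (v u : Pl) : v + (0 : ℝ) • u = v := by rw [zero_smul, add_zero]

/-- `D v x (v + ε u)` -/
theorem core1_D3 (v x u : Pl) (ε : ℝ) : D v x (v + ε • u) = ε * cr (x - v) u := by
  rw [D_swap', core_D, cr_swap (x - v) u]
  ring

theorem core_gp (C : Conf P) {v : P} {u : Pl} (hu : Gen C v u) :
    ∀ᶠ ε in 𝓝[>] (0 : ℝ), GP (addP C.f (C.f v + ε • u)) := by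
  have h1 : ∀ᶠ ε in 𝓝[>] (0 : ℝ), ∀ b c, b ≠ v → c ≠ v → b ≠ c →
      D (C.f v + ε • u) (C.f b) (C.f c) ≠ 0 := by
    rw [eventually_all]; intro b
    rw [eventually_all]; intro c
    by_cases hb : b ≠ v
    · by_cases hc : c ≠ v
      · by_cases hbc : b ≠ c
        · have := core1_ne (core1_c1 (C.f v) u (C.f b) (C.f c)) (by
            rw [core1_0]; exact C.gp.ne3 v b c hb.symm hbc hc.symm)
          filter_upwards [this] with ε he
          exact fun _ _ _ => he
        · exact Eventually.of_forall fun ε _ _ h => absurd h hbc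
      · exact Eventually.of_forall fun ε _ h => absurd h hc
    · exact Eventually.of_forall fun ε h => absurd h hb
  have h2 : ∀ᶠ ε in 𝓝[>] (0 : ℝ), ∀ b, b ≠ v → (C.f v + ε • u).1 - (C.f b).1 ≠ 0 := by
    rw [eventually_all]; intro b
    by_cases hb : b ≠ v
    · have hc : Continuous fun ε : ℝ => (C.f v + ε • u).1 - (C.f b).1 := by
        simp only [Prod.fst_add, Prod.smul_fst, smul_eq_mul]
        fun_prop
      have := core1_ne hc (by
        rw [core1_0]; exact sub_ne_zero.2 (C.gp.ne1 v b hb.symm))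
      filter_upwards [this] with ε he
      exact fun _ => he
    · exact Eventually.of_forall fun ε h => absurd h hb
  filter_upwards [h1, h2, core1_ev] with ε h1 h2 h3
  have hD : ∀ b c, b ≠ c → D (C.f v + ε • u) (C.f b) (C.f c) ≠ 0 := by
    intro b c hbc
    by_cases hb : b = v
    · subst hb
      rw [D_swap, core_D]
      exact neg_ne_zero.2 (mul_ne_zero h3.ne' (hu.w c hbc.symm))
    · by_cases hc : c = v
      · subst hc
        rw [D_cyc', core_D]
        exact mul_ne_zero h3.ne' (hu.w b hb)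
      · exact h1 b c hb hc hbc
  have hx : ∀ b, (C.f v + ε • u).1 ≠ (C.f b).1 := by
    intro b
    by_cases hb : b = v
    · subst hb
      simp only [Prod.fst_add, Prod.smul_fst, smul_eq_mul]
      have := mul_ne_zero h3.ne' hu.x
      intro h
      apply this
      linarith
    · exact sub_ne_zero.1 (h2 b hb)
  refine ⟨?_, ?_⟩
  · intro a b c hab hbc hac
    rcases a with _ | a <;> rcases b with _ | b <;> rcases c with _ | c
    · exact absurd rfl hab
    · exact absurd rfl hab
    · exact absurd rfl hac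
    · exact hD b c fun h => hbc (by rw [h])
    · exact absurd rfl hbc
    · show D (C.f a) (C.f v + ε • u) (C.f c) ≠ 0
      rw [D_cyc]
      exact hD c a fun h => hac (by rw [h])
    · show D (C.f a) (C.f b) (C.f v + ε • u) ≠ 0
      rw [D_cyc']
      exact hD a b fun h => hab (by rw [h])
    · exact C.gp.ne3 a b c (fun h => hab (by rw [h])) (fun h => hbc (by rw [h]))
        (fun h => hac (by rw [h]))
  · intro a b hab
    rcases a with _ | a <;> rcases b with _ | b
    · exact absurd rfl hab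
    · exact hx b
    · exact (hx a).symm
    · exact C.gp.ne1 a b fun h => hab (by rw [h])

theorem core_ins (C : Conf P) {v : P} (hv : C.Inner v) (u : Pl) :
    ∀ᶠ ε in 𝓝[>] (0 : ℝ), InT (C.f C.o1) (C.f C.o2) (C.f C.o3) (C.f v + ε • u) := by
  obtain ⟨h1, h2, h3⟩ := C.ins v hv.1 hv.2.1 hv.2.2
  have e1 := core1_pos (core1_c3 (C.f v) u (C.f C.o1) (C.f C.o2)) (by rw [core1_0]; exact h1)
  have e2 := core1_pos (core1_c3 (C.f v) u (C.f C.o2) (C.f C.o3)) (by rw [core1_0]; exact h2)
  have e3 := core1_pos (core1_c3 (C.f v) u (C.f C.o3) (C.f C.o1)) (by rw [core1_0]; exact h3)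
  filter_upwards [e1, e2, e3] with ε h1 h2 h3
  exact ⟨h1, h2, h3⟩

/-- `X` is strictly between `u` and `W` (angle less than `π`) -/
def Btw (u X W : Pl) : Prop :=
  (0 < cr u W ∧ 0 < cr u X ∧ 0 < cr X W) ∨ (cr u W < 0 ∧ cr u X < 0 ∧ cr X W < 0)

/-- new edge `p w` with `w ∈ S`, against an old edge `v x` -/
theorem core1_cf_c (C : Conf P) {H : SimpleGraph P} {v : P} {u : Pl}
    {S : Set P} (hSv : ∀ w ∈ S, H.Adj v w)
    (hS : ∀ w ∈ S, ∀ x, H.Adj v x → ¬ Btw u (C.f x - C.f v) (C.f w - C.f v))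
    {w x : P} (hw : w ∈ S) (hx : H.Adj v x) (hwx : w ≠ x) :
    ∀ᶠ ε in 𝓝[>] (0 : ℝ), ¬ Cr (C.f v + ε • u) (C.f w) (C.f v) (C.f x) := by
  have hne : D (C.f v) (C.f w) (C.f x) ≠ 0 :=
    C.gp.ne3 v w x (hSv w hw).ne hwx hx.ne
  have hpos := core1_mul (core1_c1 (C.f v) u (C.f w) (C.f x))
    (continuous_const (y := D (C.f v) (C.f w) (C.f x))) (by
      rw [core1_0]; exact mul_self_pos.2 hne)
  filter_upwards [hpos, core1_ev] with ε h1 h2
  rintro ⟨h3, h4⟩
  rw [core1_D3, D_eq_cr (C.f v) (C.f x) (C.f w)] at h4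
  rw [D_cyc' _ (C.f w) (C.f v), core_D] at h3
  rw [D_eq_cr (C.f v) (C.f w) (C.f x), cr_swap] at h1
  have hB := hS w hw x hx
  unfold Btw at hB
  rw [cr_swap (C.f x - C.f v) u] at h4
  set A := cr u (C.f w - C.f v)
  set B := cr u (C.f x - C.f v)
  set E := cr (C.f x - C.f v) (C.f w - C.f v)
  set G := D (C.f v + ε • u) (C.f w) (C.f x)
  -- `h1 : 0 < G * -E`, `h3 : ε A G < 0`, `h4 : ε * -B * E < 0`
  have h3' : A * G < 0 := by
    by_contra h
    have := mul_nonneg h2.le (not_lt.1 h)
    linarith [mul_assoc ε A G]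
  have h4' : 0 < B * E := by
    by_contra h
    have := mul_nonneg h2.le (neg_nonneg.2 (not_lt.1 h))
    have e : ε * -B * E = ε * -(B * E) := by ring
    linarith
  apply hB
  rcases lt_trichotomy E 0 with hE | hE | hE
  · right
    have hG : 0 < G := by
      by_contra h
      have := mul_nonneg (neg_nonneg.2 (not_lt.1 h)) (neg_nonneg.2 hE.le)
      have e : -G * -E = -(G * -E) := by ring
      linarith
    refine ⟨?_, ?_, hE⟩
    · by_contra h
      have := mul_nonneg (not_lt.1 h) hG.le
      linarith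
    · by_contra h
      have := mul_nonneg (not_lt.1 h) (neg_nonneg.2 hE.le)
      have e : B * -E = -(B * E) := by ring
      linarith
  · rw [hE] at h4'
    simp at h4'
  · left
    have hG : G < 0 := by
      by_contra h
      have := mul_nonneg (not_lt.1 h) hE.le
      have e : G * -E = -(G * E) := by ring
      linarith
    refine ⟨?_, ?_, hE⟩
    · by_contra h
      have := mul_nonneg (neg_nonneg.2 (not_lt.1 h)) (neg_nonneg.2 hG.le)
      have e : -A * -G = A * G := by ring
      linarith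
    · by_contra h
      have := mul_nonneg (neg_nonneg.2 (not_lt.1 h)) hE.le
      have e : -B * E = -(B * E) := by ring
      linarith

/-- new edge against old edge -/
theorem core1_cf (C : Conf P) {H : SimpleGraph P} (hH : CF H C.f) {v : P} {u : Pl}
    {S : Set P} (hSv : ∀ w ∈ S, H.Adj v w)
    (hS : ∀ w ∈ S, ∀ x, H.Adj v x → ¬ Btw u (C.f x - C.f v) (C.f w - C.f v))
    {w c d : P} (hw : w ∈ insert v S) (hcd : H.Adj c d) :
    ∀ᶠ ε in 𝓝[>] (0 : ℝ), ¬ Cr (C.f v + ε • u) (C.f w) (C.f c) (C.f d) := by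
  by_cases hwc : w = c
  · refine Eventually.of_forall fun ε h => ?_
    have := h.1
    rw [hwc, D_self', zero_mul] at this
    exact lt_irrefl _ this
  by_cases hwd : w = d
  · refine Eventually.of_forall fun ε h => ?_
    have := h.1
    rw [hwd, D_self', mul_zero] at this
    exact lt_irrefl _ this
  by_cases hwv : w = v
  · subst hwv
    have hpos := core1_mul (core1_c3 (C.f w) u (C.f c) (C.f d))
      (continuous_const (y := D (C.f c) (C.f d) (C.f w))) (by
        rw [core1_0]
        exact mul_self_pos.2 (C.gp.ne3 c d w hcd.ne (Ne.symm hwd) (Ne.symm hwc)))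
    filter_upwards [hpos] with ε h1 h2
    exact absurd h1 (not_lt.2 h2.2.le)
  · have hwS : w ∈ S := hw.resolve_left hwv
    by_cases hvc : v = c
    · subst hvc
      exact core1_cf_c C hSv hS hwS hcd hwd
    · by_cases hvd : v = d
      · subst hvd
        filter_upwards [core1_cf_c C hSv hS hwS hcd.symm hwc] with ε h1 h2
        exact h1 h2.swap2
      · have hn := hH v w c d (hSv w hwS) hcd
        have n1 := C.gp.ne3 v w c (hSv w hwS).ne hwc hvc
        have n2 := C.gp.ne3 v w d (hSv w hwS).ne hwd hvd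
        have n3 := C.gp.ne3 c d v hcd.ne (Ne.symm hvd) (Ne.symm hvc)
        have n4 := C.gp.ne3 c d w hcd.ne (Ne.symm hwd) (Ne.symm hwc)
        have hor : 0 < D (C.f v) (C.f w) (C.f c) * D (C.f v) (C.f w) (C.f d) ∨
            0 < D (C.f c) (C.f d) (C.f v) * D (C.f c) (C.f d) (C.f w) := by
          by_contra h
          push Not at h
          exact hn ⟨lt_of_le_of_ne h.1 (mul_ne_zero n1 n2),
            lt_of_le_of_ne h.2 (mul_ne_zero n3 n4)⟩
        rcases hor with h | h
        · have hpos := core1_mul (core1_c1 (C.f v) u (C.f w) (C.f c))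
            (core1_c1 (C.f v) u (C.f w) (C.f d)) (by rw [core1_0]; exact h)
          filter_upwards [hpos] with ε h1 h2
          exact absurd h1 (not_lt.2 h2.1.le)
        · have hpos := core1_mul (core1_c3 (C.f v) u (C.f c) (C.f d))
            (continuous_const (y := D (C.f c) (C.f d) (C.f w))) (by rw [core1_0]; exact h)
          filter_upwards [hpos] with ε h1 h2
          exact absurd h1 (not_lt.2 h2.2.le)

theorem core_cf (C : Conf P) {H : SimpleGraph P} (hH : CF H C.f) {v : P} {u : Pl}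
    (hu : Gen C v u) {S : Set P} (hSv : ∀ w ∈ S, H.Adj v w)
    (hS : ∀ w ∈ S, ∀ x, H.Adj v x → ¬ Btw u (C.f x - C.f v) (C.f w - C.f v)) :
    ∀ᶠ ε in 𝓝[>] (0 : ℝ), CF (addV H (insert v S)) (addP C.f (C.f v + ε • u)) := by
  have h1 : ∀ᶠ ε in 𝓝[>] (0 : ℝ), ∀ w c d, w ∈ insert v S → H.Adj c d →
      ¬ Cr (C.f v + ε • u) (C.f w) (C.f c) (C.f d) := by
    rw [eventually_all]; intro w
    rw [eventually_all]; intro c
    rw [eventually_all]; intro d
    by_cases hw : w ∈ insert v S
    · by_cases hcd : H.Adj c d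
      · filter_upwards [core1_cf C hH hSv hS hw hcd] with ε he
        exact fun _ _ => he
      · exact Eventually.of_forall fun ε _ h => absurd h hcd
    · exact Eventually.of_forall fun ε h => absurd h hw
  filter_upwards [h1] with ε h1
  intro a b c d hab hcd hcr
  rcases a with _ | a <;> rcases b with _ | b <;> rcases c with _ | c <;> rcases d with _ | d
  · exact hab
  · exact hab
  · exact hab
  · exact hab
  · exact hcd
  · have := hcr.1
    simp only [addP, Option.elim] at this
    rw [D_self'', zero_mul] at this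
    exact lt_irrefl _ this
  · have := hcr.1
    simp only [addP, Option.elim] at this
    rw [D_self'', mul_zero] at this
    exact lt_irrefl _ this
  · exact h1 b c d hab hcd hcr
  · exact hcd
  · have := hcr.1
    simp only [addP, Option.elim] at this
    rw [D_self', zero_mul] at this
    exact lt_irrefl _ this
  · have := hcr.1
    simp only [addP, Option.elim] at this
    rw [D_self', mul_zero] at this
    exact lt_irrefl _ this
  · exact h1 a c d hab hcd hcr.swap1
  · exact hcd
  · exact h1 d a b hcd hab hcr.symm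
  · exact h1 c a b hcd hab hcr.symm.swap1
  · exact hH a b c d hab hcd hcr

theorem core1_et (C : Conf P) {v : P} {u : Pl} {y z : P} {ε : ℝ} (h0 : 0 < ε)
    (hE : ¬ (0 < cr (C.f y - C.f v) u ∧ 0 < cr u (C.f z - C.f v))) :
    ¬ InT (C.f v) (C.f y) (C.f z) (C.f v + ε • u) := by
  rintro ⟨h1, -, h3⟩
  rw [core1_D3] at h1
  rw [D_cyc, core_D] at h3
  exact hE ⟨(mul_pos_iff_of_pos_left h0).1 h1, (mul_pos_iff_of_pos_left h0).1 h3⟩

theorem core1_rot {C : Conf P} {H : SimpleGraph P} {x y z : P} (h : ET C H x y z) :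
    ET C H y z x :=
  ⟨by rw [← D_cyc]; exact h.pos, h.bc, h.ca, h.ab, fun w hw => h.emp w ⟨hw.2.2, hw.1, hw.2.1⟩⟩

theorem core_et (C : Conf P) {H : SimpleGraph P} {v : P} {u : Pl} (hu : Gen C v u)
    (hE : ∀ x y, ET C H v x y → ¬ (0 < cr (C.f x - C.f v) u ∧ 0 < cr u (C.f y - C.f v))) :
    ∀ᶠ ε in 𝓝[>] (0 : ℝ), ∀ x y z, ET C H x y z →
      ¬ InT (C.f x) (C.f y) (C.f z) (C.f v + ε • u) := by
  rw [eventually_all]; intro x
  rw [eventually_all]; intro y
  rw [eventually_all]; intro z
  by_cases hxyz : ET C H x y z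
  swap
  · exact Eventually.of_forall fun ε h => absurd h hxyz
  by_cases hx : x = v
  · subst hx
    filter_upwards [core1_ev] with ε h0 _
    exact core1_et C h0 (hE y z hxyz)
  by_cases hy : y = v
  · subst hy
    filter_upwards [core1_ev] with ε h0 _ h
    exact core1_et C h0 (hE z x (core1_rot hxyz)) ⟨h.2.1, h.2.2, h.1⟩
  by_cases hz : z = v
  · subst hz
    filter_upwards [core1_ev] with ε h0 _ h
    exact core1_et C h0 (hE x y (core1_rot (core1_rot hxyz))) ⟨h.2.2, h.1, h.2.1⟩
  have n1 := C.gp.ne3 x y v hxyz.ab.ne hy hx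
  have n2 := C.gp.ne3 y z v hxyz.bc.ne hz hy
  have n3 := C.gp.ne3 z x v hxyz.ca.ne hx hz
  have hor : D (C.f x) (C.f y) (C.f v) < 0 ∨ D (C.f y) (C.f z) (C.f v) < 0 ∨
      D (C.f z) (C.f x) (C.f v) < 0 := by
    by_contra h
    push Not at h
    exact hxyz.emp v ⟨lt_of_le_of_ne h.1 n1.symm, lt_of_le_of_ne h.2.1 n2.symm,
      lt_of_le_of_ne h.2.2 n3.symm⟩
  rcases hor with h | h | h
  · filter_upwards [core1_neg (core1_c3 (C.f v) u (C.f x) (C.f y)) (by rw [core1_0]; exact h)]
      with ε h1 _ h2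
    exact absurd h1 (not_lt.2 h2.1.le)
  · filter_upwards [core1_neg (core1_c3 (C.f v) u (C.f y) (C.f z)) (by rw [core1_0]; exact h)]
      with ε h1 _ h2
    exact absurd h1 (not_lt.2 h2.2.1.le)
  · filter_upwards [core1_neg (core1_c3 (C.f v) u (C.f z) (C.f x)) (by rw [core1_0]; exact h)]
      with ε h1 _ h2
    exact absurd h1 (not_lt.2 h2.2.2.le)

theorem core_emp (C : Conf P) {v : P} (u : Pl) :
    ∀ᶠ ε in 𝓝[>] (0 : ℝ), ∀ w q, ¬ InT (C.f v) (C.f w) (C.f v + ε • u) (C.f q) ∧
      ¬ InT (C.f v) (C.f v + ε • u) (C.f w) (C.f q) := by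
  rw [eventually_all]; intro w
  rw [eventually_all]; intro q
  rw [eventually_and]
  constructor
  · by_cases h : 0 < D (C.f v) (C.f w) (C.f q)
    · filter_upwards [core1_neg (core1_c2 (C.f v) u (C.f w) (C.f q)) (by
        rw [core1_0, D_swap]; exact neg_neg_of_pos h)] with ε h1 h2
      exact absurd h1 (not_lt.2 h2.2.1.le)
    · exact Eventually.of_forall fun ε h2 => h h2.1
  · by_cases h : 0 < D (C.f w) (C.f v) (C.f q)
    · filter_upwards [core1_neg (core1_c1 (C.f v) u (C.f w) (C.f q)) (by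
        rw [core1_0, D_swap]; exact neg_neg_of_pos h)] with ε h1 h2
      exact absurd h1 (not_lt.2 h2.2.1.le)
    · exact Eventually.of_forall fun ε h2 => h h2.2.2

end B306
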