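import Pool.Agent.Lib_MP_b306af.GCore1

/-! # MP_b306af, Part II: adding one vertex very close to `v`, summary -/

namespace B306

open Filter Topology

variable {P : Type} [Finite P]

/- Piece CORE2: take one `ε` for which all the eventual statements hold.  The new configuration is
`f := addP C.f (v + ε u)`, `o_i := some o_i`; `ins` for the new point is `core_ins`.  `Ext`: the
empty triangles stay empty by `core_et`; `PS` by `core_cf`. -/

theorem core (C : Conf P) {H : SimpleGraph P} (hH : PS C H) {v : P} (hv : C.Inner v) {u : Pl}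
    (hu : Gen C v u) {S : Set P} (hSv : ∀ w ∈ S, H.Adj v w)
    (hS : ∀ w ∈ S, ∀ x, H.Adj v x → ¬ Btw u (C.f x - C.f v) (C.f w - C.f v))
    (hE : ∀ x y, ET C H v x y → ¬ (0 < cr (C.f x - C.f v) u ∧ 0 < cr u (C.f y - C.f v))) :
    ∃ (C' : Conf (Option P)) (ε : ℝ), 0 < ε ∧ C'.f = addP C.f (C.f v + ε • u) ∧
      Ext C H C' (addV H (insert v S)) some ∧
      (∀ w q, ¬ InT (C'.f (some v)) (C'.f (some w)) (C'.f none) (C'.f q) ∧
        ¬ InT (C'.f (some v)) (C'.f none) (C'.f (some w)) (C'.f q)) := by
  have hpos : ∀ᶠ ε in 𝓝[>] (0 : ℝ), 0 < ε := self_mem_nhdsWithin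
  obtain ⟨ε, hε, hgp, hins, hcf, het, hemp⟩ :=
    (hpos.and ((core_gp C hu).and ((core_ins C hv u).and ((core_cf C hH.cf hu hSv hS).and
      ((core_et C hu hE).and (core_emp C (v := v) u)))))).exists
  let C' : Conf (Option P) :=
    { f := addP C.f (C.f v + ε • u)
      gp := hgp
      o1 := some C.o1
      o2 := some C.o2
      o3 := some C.o3
      pos := C.pos
      ins := by
        intro o h1 h2 h3
        cases o with
        | none => exact hins
        | some w =>
          exact C.ins w (fun h => h1 (by rw [h])) (fun h => h2 (by rw [h]))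
            (fun h => h3 (by rw [h])) }
  refine ⟨C', ε, hε, rfl, ?_, ?_⟩
  · refine ⟨Option.some_injective P, fun _ => rfl, rfl, rfl, rfl, fun _ _ => Iff.rfl, ?_, ?_⟩
    · intro x y z h
      refine ⟨h.pos, h.ab, h.bc, h.ca, ?_⟩
      intro w
      cases w with
      | none => exact het x y z h
      | some w => exact h.emp w
    · exact ⟨hcf, hH.e12, hH.e23, hH.e31⟩
  · intro w q
    cases q with
    | none =>
      refine ⟨fun h => ?_, fun h => ?_⟩
      · have h2 : 0 < D (C.f w) (C.f v + ε • u) (C.f v + ε • u) := h.2.1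
        rw [D_self'] at h2
        exact lt_irrefl _ h2
      · have h2 : 0 < D (C.f v) (C.f v + ε • u) (C.f v + ε • u) := h.1
        rw [D_self'] at h2
        exact lt_irrefl _ h2
    | some q => exact hemp w q

end B306
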