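import Mathlib

/-!
# MP_b306af, Part II (geometry to triangulations): definitions

`Pl` is the plane.  `D p q r` is twice the signed area of the triangle `p q r` (positive =
counterclockwise).  Everything is done for finite point sets in general position.
-/

namespace B306

/-- the plane -/
abbrev Pl := ℝ × ℝ

/-- cross product of vectors -/
def cr (p q : Pl) : ℝ := p.1 * q.2 - p.2 * q.1

/-- twice the signed area of the triangle `p q r` -/
def D (p q r : Pl) : ℝ := (q.1 - p.1) * (r.2 - p.2) - (q.2 - p.2) * (r.1 - p.1)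

/-- a straight-line crossing-free drawing of `G` -/
structure IsDrawing {V : Type} (G : SimpleGraph V) (f : V → Pl) : Prop where
  inj : Function.Injective f
  vert : ∀ u v w, G.Adj u v → w ≠ u → w ≠ v → f w ∉ segment ℝ (f u) (f v)
  edge : ∀ u v x y, G.Adj u v → G.Adj x y → s(u, v) ≠ s(x, y) →
    ∀ p ∈ segment ℝ (f u) (f v), p ∈ segment ℝ (f x) (f y) →
      ∃ w, (w = u ∨ w = v) ∧ (w = x ∨ w = y) ∧ p = f w

/-- general position: no three collinear points, distinct abscissas -/
structure GP {P : Type} (f : P → Pl) : Prop where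
  ne3 : ∀ a b c, a ≠ b → b ≠ c → a ≠ c → D (f a) (f b) (f c) ≠ 0
  ne1 : ∀ a b, a ≠ b → (f a).1 ≠ (f b).1

/-- the open segments `p q` and `r s` cross properly -/
def Cr (p q r s : Pl) : Prop := D p q r * D p q s < 0 ∧ D r s p * D r s q < 0

/-- no two edges cross properly -/
def CF {P : Type} (H : SimpleGraph P) (f : P → Pl) : Prop :=
  ∀ a b c d, H.Adj a b → H.Adj c d → ¬ Cr (f a) (f b) (f c) (f d)

/-- the point `w` is strictly inside the (counterclockwise) triangle `a b c` -/
def InT (a b c w : Pl) : Prop := 0 < D a b w ∧ 0 < D b c w ∧ 0 < D c a w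

/-- A finite point set in general position inside a triangle whose corners `o1 o2 o3` belong to
the set. -/
structure Conf (P : Type) where
  f : P → Pl
  gp : GP f
  o1 : P
  o2 : P
  o3 : P
  pos : 0 < D (f o1) (f o2) (f o3)
  ins : ∀ v, v ≠ o1 → v ≠ o2 → v ≠ o3 → InT (f o1) (f o2) (f o3) (f v)

variable {P : Type}

/-- the vertex `v` is not one of the three outer vertices -/
def Conf.Inner (C : Conf P) (v : P) : Prop := v ≠ C.o1 ∧ v ≠ C.o2 ∧ v ≠ C.o3

/-- plane straight-line graph containing the outer triangle -/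
structure PS (C : Conf P) (H : SimpleGraph P) : Prop where
  cf : CF H C.f
  e12 : H.Adj C.o1 C.o2
  e23 : H.Adj C.o2 C.o3
  e31 : H.Adj C.o3 C.o1

/-- maximal plane straight-line graph -/
structure Mx (C : Conf P) (H : SimpleGraph P) : Prop extends PS C H where
  mx : ∀ a b, a ≠ b → ¬ H.Adj a b → ∃ c d, H.Adj c d ∧ Cr (C.f a) (C.f b) (C.f c) (C.f d)

/-- an empty triangle of edges, counterclockwise -/
structure ET (C : Conf P) (H : SimpleGraph P) (a b c : P) : Prop where
  pos : 0 < D (C.f a) (C.f b) (C.f c)
  ab : H.Adj a b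
  bc : H.Adj b c
  ca : H.Adj c a
  emp : ∀ w, ¬ InT (C.f a) (C.f b) (C.f c) (C.f w)

/-- `a`, `b` are neighbours of `v`, the angle from `a` to `b` (counterclockwise) is less than `π`,
and contains no further neighbour of `v` -/
structure Nx (C : Conf P) (H : SimpleGraph P) (v a b : P) : Prop where
  va : H.Adj v a
  vb : H.Adj v b
  pos : 0 < D (C.f v) (C.f a) (C.f b)
  no : ∀ w, H.Adj v w → ¬ (0 < D (C.f v) (C.f a) (C.f w) ∧ 0 < D (C.f v) (C.f w) (C.f b))

/-- the star of `v` is closed: every neighbour of `v` is the first and the second corner of an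
empty triangle at `v` -/
structure Cl (C : Conf P) (H : SimpleGraph P) (v : P) : Prop where
  ne : ∃ a, H.Adj v a
  fst : ∀ a, H.Adj v a → ∃ b, ET C H v a b
  snd : ∀ b, H.Adj v b → ∃ a, ET C H v a b

/-- add one vertex, with neighbours `S` -/
def addV (H : SimpleGraph P) (S : Set P) : SimpleGraph (Option P) where
  Adj
    | some a, some b => H.Adj a b
    | some a, none => a ∈ S
    | none, some b => b ∈ S
    | none, none => False
  symm := by
    refine ⟨fun x y h => ?_⟩
    cases x <;> cases y <;> first | exact SimpleGraph.Adj.symm h | exact h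
  loopless := ⟨fun x => by cases x <;> simp⟩

/-- positions after adding one vertex at `p` -/
def addP (f : P → Pl) (p : Pl) : Option P → Pl := fun o => o.elim p f

/-- `(C', H')` extends `(C, H)` by new vertices and by edges at new vertices; empty triangles
remain empty -/
structure Ext {P' : Type} (C : Conf P) (H : SimpleGraph P) (C' : Conf P') (H' : SimpleGraph P')
    (j : P → P') : Prop where
  inj : Function.Injective j
  pos : ∀ x, C'.f (j x) = C.f x
  o1 : C'.o1 = j C.o1
  o2 : C'.o2 = j C.o2
  o3 : C'.o3 = j C.o3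
  adj : ∀ x y, H'.Adj (j x) (j y) ↔ H.Adj x y
  et : ∀ x y z, ET C H x y z → ET C' H' (j x) (j y) (j z)
  ps : PS C' H'

end B306
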