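import Pool.Agent.Lib_MP_b306af.GNext

/-! # MP_b306af, Part II: maximal graphs, closed stars -/

namespace B306

variable {P : Type}

/- Piece MAX1.
`exists_mx`: the set of graphs `T ≥ H` with `PS C T` is finite and non-empty, take a maximal one
(`Set.Finite.exists_le_maximal`); if `a ≠ b` are not adjacent and no edge crosses `a b`, then
`T ⊔ SimpleGraph.edge a b` is larger and crossing-free (`Cr.symm`, `Cr.swap1`, `Cr.swap2`; `Cr` of a
segment with itself is false), contradiction.
`cl_adj`: suppose `T.Adj v w` and not `H.Adj v w`.  (1) Some neighbour `a` (in `H`) of `v` has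
`0 < D v a w`: otherwise all have `D v w a > 0` (general position); take the last one in the
counterclockwise order (`0 < D v x a` for all other neighbours `x`; a maximal element of the finite
strict order of `exists_nx`; or use induction as there); `ET v a b` gives a neighbour `b` with
`0 < D v a b`, contradiction.  (2) Among the neighbours `a` with `0 < D v a w` take the last one, and
`b` with `ET v a b`.  Then `D v b w > 0` is impossible (`b` would be later than `a`), so
`0 < D v w b` (`b ≠ w`).  As `w` is not inside the empty triangle, `D a b w < 0` (not `0`), and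
`v w` crosses `a b`, contradiction with `hT`. -/

private theorem mx1_last {N : Set P} (hfin : N.Finite) (hne : N.Nonempty) (R : P → P → Prop)
    (hirr : ∀ x ∈ N, ¬ R x x)
    (htr : ∀ x ∈ N, ∀ y ∈ N, ∀ z ∈ N, R x y → R y z → R x z) : ∃ x ∈ N, ∀ y ∈ N, ¬ R x y := by
  classical
  obtain ⟨x, hx, hmin⟩ := Finset.exists_min_image hfin.toFinset
    (fun x => (hfin.toFinset.filter (R x)).card) (by
      obtain ⟨a, ha⟩ := hne
      exact ⟨a, hfin.mem_toFinset.2 ha⟩)
  have hxN := hfin.mem_toFinset.1 hx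
  refine ⟨x, hxN, fun y hy hxy => ?_⟩
  have h1 := hmin y (hfin.mem_toFinset.2 hy)
  have h2 : hfin.toFinset.filter (R y) ⊂ hfin.toFinset.filter (R x) := by
    rw [Finset.ssubset_iff_of_subset]
    · refine ⟨y, Finset.mem_filter.2 ⟨hfin.mem_toFinset.2 hy, hxy⟩, fun h => ?_⟩
      exact hirr y hy (Finset.mem_filter.1 h).2
    · intro z hz
      rw [Finset.mem_filter] at hz ⊢
      exact ⟨hz.1, htr x hxN y hy z (hfin.mem_toFinset.1 hz.1) hxy hz.2⟩
  have h3 := Finset.card_lt_card h2
  omega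

theorem exists_mx [Finite P] (C : Conf P) {H : SimpleGraph P} (hH : PS C H) :
    ∃ T, H ≤ T ∧ Mx C T := by
  classical
  have hfin : {T : SimpleGraph P | H ≤ T ∧ PS C T}.Finite := Set.toFinite _
  obtain ⟨T, hHT, hmax⟩ := hfin.exists_le_maximal (a := H) ⟨le_rfl, hH⟩
  have hT : PS C T := hmax.prop.2
  refine ⟨T, hHT, { toPS := hT, mx := fun a b hab hnab => ?_ }⟩
  by_contra hno
  push Not at hno
  set T' : SimpleGraph P := T ⊔ SimpleGraph.edge a b with hT'
  have hle : T ≤ T' := le_sup_left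
  have hadj : ∀ x y, T'.Adj x y → T.Adj x y ∨ (x = a ∧ y = b) ∨ (x = b ∧ y = a) := by
    intro x y h
    rw [hT', SimpleGraph.sup_adj, SimpleGraph.edge_adj] at h
    rcases h with h | h
    · exact Or.inl h
    · exact Or.inr h.1
  have hself : ¬ Cr (C.f a) (C.f b) (C.f a) (C.f b) := by
    intro h
    have h1 := h.1
    rw [D_self'', zero_mul] at h1
    exact lt_irrefl _ h1
  have hab' : ∀ c d, T.Adj c d → ¬ Cr (C.f a) (C.f b) (C.f c) (C.f d) := fun c d h => hno c d h
  have hps : PS C T' := by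
    refine ⟨?_, hle hT.e12, hle hT.e23, hle hT.e31⟩
    intro x y z w h1 h2 hcr
    rcases hadj x y h1 with g1 | ⟨rfl, rfl⟩ | ⟨rfl, rfl⟩
    · rcases hadj z w h2 with g2 | ⟨rfl, rfl⟩ | ⟨rfl, rfl⟩
      · exact hT.cf x y z w g1 g2 hcr
      · exact hab' x y g1 hcr.symm
      · exact hab' x y g1 hcr.symm.swap1
    · rcases hadj z w h2 with h2 | ⟨rfl, rfl⟩ | ⟨rfl, rfl⟩
      · exact hab' z w h2 hcr
      · exact hself hcr
      · exact hself hcr.swap2
    · rcases hadj z w h2 with h2 | ⟨rfl, rfl⟩ | ⟨rfl, rfl⟩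
      · exact hab' z w h2 hcr.swap1
      · exact hself hcr.swap1
      · exact hself hcr.swap1.swap2
  have h3 : T' ≤ T := hmax.le_of_ge ⟨hHT.trans hle, hps⟩ hle
  apply hnab
  apply h3
  rw [hT', SimpleGraph.sup_adj, SimpleGraph.edge_adj]
  exact Or.inr ⟨Or.inl ⟨rfl, rfl⟩, hab⟩

theorem cl_adj [Finite P] (C : Conf P) {H T : SimpleGraph P} (hHT : H ≤ T) (hT : CF T C.f) {v : P}
    (hv : Cl C H v) {w : P} (h : T.Adj v w) : H.Adj v w := by
  by_contra hn
  have hvw : v ≠ w := h.ne
  have hne : ∀ a, H.Adj v a → D (C.f v) (C.f a) (C.f w) ≠ 0 := by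
    intro a ha
    apply C.gp.ne3 v a w ha.ne _ hvw
    rintro rfl
    exact hn ha
  have hsw : ∀ a, D (C.f v) (C.f w) (C.f a) = - D (C.f v) (C.f a) (C.f w) := fun a => D_swap' _ _ _
  have hirr : ∀ x, ¬ 0 < D (C.f v) (C.f x) (C.f x) := by
    intro x hx
    rw [D_self'] at hx
    exact lt_irrefl _ hx
  -- a neighbour to the right of `v w`
  have h1 : ∃ a, H.Adj v a ∧ 0 < D (C.f v) (C.f a) (C.f w) := by
    by_contra hc
    push Not at hc
    have hlt : ∀ a, H.Adj v a → 0 < D (C.f v) (C.f w) (C.f a) := by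
      intro a ha
      rw [hsw]
      have := lt_of_le_of_ne (hc a ha) (hne a ha)
      linarith
    obtain ⟨a, ha, hlast⟩ := mx1_last (N := {a | H.Adj v a}) (Set.toFinite _) hv.ne
      (fun x y => 0 < D (C.f v) (C.f x) (C.f y)) (fun x _ => hirr x) (by
        intro x hx y hy z hz h2 h3
        have hx' := hlt x hx
        have hy' := hlt y hy
        have hz' := hlt z hz
        have hp := D_plu (C.f v) (C.f w) (C.f x) (C.f y) (C.f z)
        have h4 := mul_pos hx' h3
        have h5 := mul_pos hz' h2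
        by_contra h6
        push Not at h6
        have h7 := mul_nonpos_of_nonneg_of_nonpos hy'.le h6
        linarith)
    obtain ⟨b, hb⟩ := hv.fst a ha
    exact hlast b hb.ca.symm hb.pos
  obtain ⟨a, ⟨ha, haw⟩, hlast⟩ := mx1_last
    (N := {a | H.Adj v a ∧ 0 < D (C.f v) (C.f a) (C.f w)}) (Set.toFinite _) h1
    (fun x y => 0 < D (C.f v) (C.f x) (C.f y)) (fun x _ => hirr x) (by
      intro x hx y hy z hz h2 h3
      have hx' := hx.2
      have hy' := hy.2
      have hz' := hz.2
      have hp := D_plu (C.f v) (C.f w) (C.f x) (C.f y) (C.f z)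
      rw [hsw x, hsw y, hsw z] at hp
      have h4 := mul_pos hx' h3
      have h5 := mul_pos hz' h2
      by_contra h6
      push Not at h6
      have h7 := mul_nonpos_of_nonneg_of_nonpos hy'.le h6
      linarith)
  obtain ⟨b, hb⟩ := hv.fst a ha
  have hvb : H.Adj v b := hb.ca.symm
  have h2 : ¬ 0 < D (C.f v) (C.f b) (C.f w) := fun h3 => hlast b ⟨hvb, h3⟩ hb.pos
  have h3 : D (C.f v) (C.f b) (C.f w) < 0 := lt_of_le_of_ne (not_lt.1 h2) (hne b hvb)
  have h4 : 0 < D (C.f v) (C.f w) (C.f b) := by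
    rw [hsw]
    linarith
  have haw' : a ≠ w := by
    rintro rfl
    exact hn ha
  have hbw' : b ≠ w := by
    rintro rfl
    exact hn hvb
  have h5 : D (C.f a) (C.f b) (C.f w) ≠ 0 := C.gp.ne3 a b w hb.bc.ne hbw' haw'
  have h6 : ¬ 0 < D (C.f a) (C.f b) (C.f w) := by
    intro h7
    refine hb.emp w ⟨haw, h7, ?_⟩
    rw [D_cyc]
    exact h4
  have h7 : D (C.f a) (C.f b) (C.f w) < 0 := lt_of_le_of_ne (not_lt.1 h6) h5
  refine hT v w a b h (hHT hb.bc) ⟨?_, ?_⟩
  · rw [hsw a]
    exact mul_neg_of_neg_of_pos (by linarith) h4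
  · refine mul_neg_of_pos_of_neg ?_ h7
    rw [D_cyc']
    exact hb.pos

end B306
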