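import Pool.Agent.Lib_MP_b306af.GNext

/-! # MP_b306af, Part II: consecutive neighbours in a maximal graph -/

namespace B306

variable {P : Type}

/- Piece MAX2 (`mx_et`).  Let `Δ = D v a b > 0`.  For a point `q` put `α q = D v q b / Δ`,
`β q = D v a q / Δ`, so `q - v = α (a - v) + β (b - v)` (Cramer), affine functions of `q`, and
`h = α + β`, `h a = h b = 1`.  Strictly inside the angle: `α > 0`, `β > 0`; strictly inside the
triangle: moreover `h < 1` (`D a b q = Δ (1 - h q)`).
CLAIM 1: no point `q` of the set has `α q > 0`, `β q > 0`, `h q < 1`.  Otherwise take one with `h`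
minimal (`q ≠ v, a, b`).  By `Nx.no` it is not a neighbour of `v`, so by maximality some edge `c d`
crosses `v q`: `D v q c * D v q d < 0` and `D c d v * D c d q < 0`; the crossing point is
`z = v + t (q - v) = (1 - s) c + s d`, `0 < t, s < 1` (see `Cr.exists_mem`, strict version), with
`h z = t h q < h q`, `α z, β z > 0`.  One endpoint, say `c`, has `h c ≤ h z < h q` (as `h z` is an
average), in particular `c ≠ a, b`, and `c ≠ v` (`D v q c ≠ 0`); by minimality of `q`, `α c ≤ 0` or
`β c ≤ 0`; by general position `α c ≠ 0`, `β c ≠ 0`.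
Say `α c < 0` (the other case is symmetric).  On the segment from `c` to `z` let `y` be the point
with `α y = 0`; `h y ≤ max (h c) (h z) < 1`, so `β y = h y < 1`.  If `β y > 0`: the edge `c d` crosses
the segment `v b` properly: contradiction with crossing-freeness.  If `β y ≤ 0`: as `β z > 0` there is a
point `y'` between `y` and `z` with `β y' = 0`, `α y' > 0` (α increases from `0`), `α y' = h y' < 1`: the edge
`c d` crosses `v a` (`α y' > 0` as `y' ≠ y` unless `y = v`, which is impossible because `c, d, v`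
are not collinear).  To get `Cr` from such a point: `D` is affine in each variable; a cleaner way
is the purely algebraic lemma `cross_of_param` below.
CLAIM 2: `a b` is an edge: otherwise some edge `c d` crosses `a b` at `z` with `α z, β z > 0`,
`h z = 1`; one endpoint `c` has `h c < 1`; by claim 1 `α c < 0` or `β c < 0` (`c ≠ v`: otherwise
`d` is a neighbour of `v` strictly inside the angle, `Nx.no`), and the same argument as above
shows that `c d` crosses `v a` or `v b`. -/

/-- If the points `y = (1-s) c + s d` and `v + t (b - v)` coincide, `0 < s < 1`, `0 < t < 1`, and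
`c, d, v, b` are in general position, then `c d` and `v b` cross. -/
theorem cross_of_param {c d v b : Pl} {s t : ℝ} (hs0 : 0 < s) (hs1 : s < 1) (ht0 : 0 < t)
    (ht1 : t < 1) (h : (1 - s) • c + s • d = v + t • (b - v)) (h1 : D c d v ≠ 0)
    (h2 : D v b c ≠ 0) : Cr c d v b := by
  have e1 : (1 - s) * c.1 + s * d.1 = v.1 + t * (b.1 - v.1) := by
    have := congrArg Prod.fst h
    simpa using this
  have e2 : (1 - s) * c.2 + s * d.2 = v.2 + t * (b.2 - v.2) := by
    have := congrArg Prod.snd h
    simpa using this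
  -- t * D c d b = - (1 - t) * D c d v
  have k1 : t * D c d b = - ((1 - t) * D c d v) := by
    unfold D
    linear_combination (d.1 - c.1) * (- e2) - (d.2 - c.2) * (- e1)
  have k2 : s * D v b d = - ((1 - s) * D v b c) := by
    unfold D
    linear_combination (b.1 - v.1) * e2 - (b.2 - v.2) * e1
  constructor
  · have hp : 0 < D c d v * D c d v := mul_self_pos.2 h1
    have h3 : t * (D c d v * D c d b) = - ((1 - t) * (D c d v * D c d v)) := by
      linear_combination D c d v * k1
    by_contra hcon
    have h4 : 0 ≤ t * (D c d v * D c d b) := mul_nonneg ht0.le (not_lt.1 hcon)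
    have h5 : 0 < (1 - t) * (D c d v * D c d v) := mul_pos (by linarith) hp
    linarith
  · have hp : 0 < D v b c * D v b c := mul_self_pos.2 h2
    have h3 : s * (D v b c * D v b d) = - ((1 - s) * (D v b c * D v b c)) := by
      linear_combination D v b c * k2
    by_contra hcon
    have h4 : 0 ≤ s * (D v b c * D v b d) := mul_nonneg hs0.le (not_lt.1 hcon)
    have h5 : 0 < (1 - s) * (D v b c * D v b c) := mul_pos (by linarith) hp
    linarith

/-- strict parameters of a proper crossing -/
theorem mx2_param {p q r s : Pl} (h : Cr p q r s) :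
    ∃ t σ : ℝ, 0 < t ∧ t < 1 ∧ 0 < σ ∧ σ < 1 ∧ p + t • (q - p) = (1 - σ) • r + σ • s := by
  obtain ⟨h1, h2⟩ := h
  have key : ∀ u v : ℝ, u * v < 0 → 0 < u / (u - v) ∧ u / (u - v) < 1 := by
    intro u v huv
    rcases lt_trichotomy u 0 with hu | hu | hu
    · have hv : 0 < v := by
        by_contra hv
        have := mul_nonneg_of_nonpos_of_nonpos hu.le (not_lt.1 hv)
        linarith
      constructor
      · exact div_pos_of_neg_of_neg hu (by linarith)
      · rw [div_lt_one_of_neg (by linarith)]; linarith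
    · rw [hu] at huv; simp at huv
    · have hv : v < 0 := by
        by_contra hv
        have := mul_nonneg hu.le (not_lt.1 hv)
        linarith
      constructor
      · exact div_pos hu (by linarith)
      · rw [div_lt_one (by linarith)]; linarith
  obtain ⟨t0, t1⟩ := key _ _ h2
  obtain ⟨s0, s1⟩ := key _ _ h1
  refine ⟨_, _, t0, t1, s0, s1, ?_⟩
  have e1 : D r s p - D r s q ≠ 0 := by
    intro h0
    have : D r s p = D r s q := by linarith
    rw [this] at h2
    nlinarith [mul_self_nonneg (D r s q)]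
  have e2 : D p q r - D p q s ≠ 0 := by
    intro h0
    have : D p q r = D p q s := by linarith
    rw [this] at h1
    nlinarith [mul_self_nonneg (D p q s)]
  ext
  · simp only [Prod.fst_add, Prod.smul_fst, Prod.fst_sub, smul_eq_mul]
    field_simp
    simp only [D]
    ring
  · simp only [Prod.snd_add, Prod.smul_snd, Prod.snd_sub, smul_eq_mul]
    field_simp
    simp only [D]
    ring

theorem mx2_comb_mid (v b c d : Pl) (s : ℝ) :
    D v ((1 - s) • c + s • d) b = (1 - s) * D v c b + s * D v d b := by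
  unfold D
  simp only [Prod.fst_add, Prod.smul_fst, Prod.snd_add, Prod.smul_snd, smul_eq_mul]
  ring

theorem mx2_comb_last (v a c d : Pl) (s : ℝ) :
    D v a ((1 - s) • c + s • d) = (1 - s) * D v a c + s * D v a d := by
  unfold D
  simp only [Prod.fst_add, Prod.smul_fst, Prod.snd_add, Prod.smul_snd, smul_eq_mul]
  ring

/-- Cramer's rule -/
theorem mx2_cramer (v a b q : Pl) :
    D v a b • (q - v) = D v q b • (a - v) + D v a q • (b - v) := by
  ext
  · simp only [Prod.fst_add, Prod.smul_fst, Prod.fst_sub, smul_eq_mul, D]; ring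
  · simp only [Prod.snd_add, Prod.smul_snd, Prod.snd_sub, smul_eq_mul, D]; ring

/-- The edge `c d` enters the angle from outside, below the line `a b`: it crosses `v a` or
`v b`. -/
theorem mx2_enter {v a b c d : Pl} {s : ℝ} (hs0 : 0 < s) (hs1 : s < 1) (hΔ : 0 < D v a b)
    (hA : 0 < (1 - s) * D v c b + s * D v d b) (hB : 0 < (1 - s) * D v a c + s * D v a d)
    (hH : (1 - s) * (D v c b + D v a c) + s * (D v d b + D v a d) ≤ D v a b)
    (hc : D v c b + D v a c < D v a b) (hcA : D v c b < 0) (hcdv : D c d v ≠ 0)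
    (hca : D v a c ≠ 0) : Cr c d v b ∨ Cr c d v a := by
  set A := D v c b with hAd
  set B := D v a c with hBd
  set Az := (1 - s) * A + s * D v d b with hAz
  set Bz := (1 - s) * B + s * D v a d with hBz
  have hHz : Az + Bz ≤ D v a b := by rw [hAz, hBz]; linarith
  have hpt : ∀ r : ℝ, D v ((1 - r * s) • c + (r * s) • d) b = (1 - r) * A + r * Az ∧
      D v a ((1 - r * s) • c + (r * s) • d) = (1 - r) * B + r * Bz := by
    intro r
    rw [mx2_comb_mid, mx2_comb_last, hAz, hBz]
    constructor <;> ring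
  have hcr : ∀ r : ℝ, D v a b • (((1 - r * s) • c + (r * s) • d) - v) =
      ((1 - r) * A + r * Az) • (a - v) + ((1 - r) * B + r * Bz) • (b - v) := by
    intro r
    rw [mx2_cramer v a b, (hpt r).1, (hpt r).2]
  -- first zero of `α`
  set r0 := -A / (Az - A) with hr0
  have hden : 0 < Az - A := by linarith
  have r00 : 0 < r0 := div_pos (by linarith) hden
  have r01 : r0 < 1 := by rw [hr0, div_lt_one hden]; linarith
  have hz0 : (1 - r0) * A + r0 * Az = 0 := by
    rw [hr0]; field_simp; ring
  set By := (1 - r0) * B + r0 * Bz with hBy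
  have hBy1 : By < D v a b := by
    have h1 : By = (1 - r0) * (A + B) + r0 * (Az + Bz) := by rw [hBy]; linear_combination (-1 : ℝ) * hz0
    rw [h1]
    nlinarith [mul_pos (sub_pos.2 r01) (sub_pos.2 hc), mul_nonneg r00.le (sub_nonneg.2 hHz)]
  have hbv : D v b c ≠ 0 := by
    rw [D_swap', neg_ne_zero]
    exact hcA.ne
  rcases lt_trichotomy By 0 with hneg | h0 | hpos
  · right
    set r1 := r0 + (1 - r0) * (-By / (Bz - By)) with hr1
    have hden2 : 0 < Bz - By := by linarith
    have k0 : 0 < -By / (Bz - By) := div_pos (by linarith) hden2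
    have k1 : -By / (Bz - By) < 1 := by rw [div_lt_one hden2]; linarith
    have r10 : r0 < r1 := by rw [hr1]; nlinarith
    have r11 : r1 < 1 := by rw [hr1]; nlinarith
    have hzB : (1 - r1) * B + r1 * Bz = 0 := by
      have e : (1 - r1) * B + r1 * Bz = (1 - (-By / (Bz - By))) * By + (-By / (Bz - By)) * Bz := by
        rw [hr1, hBy]; ring
      rw [e]; field_simp; ring
    have hAp : 0 < (1 - r1) * A + r1 * Az := by
      have e : (1 - r1) * A + r1 * Az = ((1 - r0) * A + r0 * Az) + (r1 - r0) * (Az - A) := by ring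
      rw [e, hz0, zero_add]
      exact mul_pos (by linarith) hden
    have hA1 : (1 - r1) * A + r1 * Az < D v a b := by
      have h1 : (1 - r1) * A + r1 * Az = (1 - r1) * (A + B) + r1 * (Az + Bz) := by
        linear_combination (-1 : ℝ) * hzB
      rw [h1]
      nlinarith [mul_pos (sub_pos.2 r11) (sub_pos.2 hc), mul_nonneg (r00.trans r10).le (sub_nonneg.2 hHz)]
    have h3 := hcr r1
    rw [hzB, zero_smul, add_zero] at h3
    refine cross_of_param (s := r1 * s) (t := ((1 - r1) * A + r1 * Az) / D v a b)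
      (mul_pos (r00.trans r10) hs0) (by nlinarith [r00.trans r10]) (div_pos hAp hΔ)
      (by rw [div_lt_one hΔ]; exact hA1) ?_ hcdv hca
    have h4 : ((1 - r1 * s) • c + (r1 * s) • d) - v =
        (((1 - r1) * A + r1 * Az) / D v a b) • (a - v) := by
      have h5 := congrArg (fun w => (D v a b)⁻¹ • w) h3
      simp only [smul_smul] at h5
      rw [inv_mul_cancel₀ hΔ.ne', one_smul] at h5
      rw [h5, div_eq_inv_mul]
    rw [← h4]; abel
  · exfalso
    have h3 := hcr r0
    rw [hz0, ← hBy, h0, zero_smul, zero_smul, add_zero] at h3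
    have h4 : ((1 - r0 * s) • c + (r0 * s) • d) - v = 0 := by
      rcases smul_eq_zero.1 h3 with h | h
      · exact absurd h hΔ.ne'
      · exact h
    apply hcdv
    have h5 : v = (1 - r0 * s) • c + (r0 * s) • d := (sub_eq_zero.1 h4).symm
    rw [h5]
    unfold D
    simp only [Prod.fst_add, Prod.smul_fst, Prod.snd_add, Prod.smul_snd, smul_eq_mul]
    ring
  · left
    have h3 := hcr r0
    rw [hz0, zero_smul, zero_add] at h3
    refine cross_of_param (s := r0 * s) (t := By / D v a b)
      (mul_pos r00 hs0) (by nlinarith) (div_pos hpos hΔ)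
      (by rw [div_lt_one hΔ]; exact hBy1) ?_ hcdv hbv
    have h4 : ((1 - r0 * s) • c + (r0 * s) • d) - v = (By / D v a b) • (b - v) := by
      have h5 := congrArg (fun w => (D v a b)⁻¹ • w) h3
      simp only [smul_smul] at h5
      rw [inv_mul_cancel₀ hΔ.ne', one_smul] at h5
      rw [h5, div_eq_inv_mul]
    rw [← h4]; abel

/-- mirror image of `enter` -/
theorem mx2_enter' {v a b c d : Pl} {s : ℝ} (hs0 : 0 < s) (hs1 : s < 1) (hΔ : 0 < D v a b)
    (hA : 0 < (1 - s) * D v c b + s * D v d b) (hB : 0 < (1 - s) * D v a c + s * D v a d)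
    (hH : (1 - s) * (D v c b + D v a c) + s * (D v d b + D v a d) ≤ D v a b)
    (hc : D v c b + D v a c < D v a b) (hcB : D v a c < 0) (hcdv : D c d v ≠ 0)
    (hcb : D v b c ≠ 0) : Cr c d v a ∨ Cr c d v b := by
  -- reflect the plane in the first coordinate
  set ρ : Pl → Pl := fun p => (-p.1, p.2) with hρ
  have hD : ∀ p q r, D (ρ p) (ρ q) (ρ r) = - D p q r := by
    intro p q r; simp only [hρ, D]; ring
  have hCr : ∀ p q r s, Cr (ρ p) (ρ q) (ρ r) (ρ s) → Cr p q r s := by
    intro p q r s h
    obtain ⟨h1, h2⟩ := h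
    rw [hD, hD, neg_mul_neg] at h1 h2
    exact ⟨h1, h2⟩
  have e1 : ∀ x, D (ρ v) (ρ x) (ρ a) = D v a x := by
    intro x; rw [hD, D_swap' v x a, neg_neg]
  have e2 : ∀ x, D (ρ v) (ρ b) (ρ x) = D v x b := by
    intro x; rw [hD, D_swap' v b x, neg_neg]
  have e3 : D (ρ v) (ρ b) (ρ a) = D v a b := e1 b
  have key := mx2_enter (v := ρ v) (a := ρ b) (b := ρ a) (c := ρ c) (d := ρ d) hs0 hs1
    (by rw [e3]; exact hΔ) (by rw [e1, e1]; exact hB) (by rw [e2, e2]; exact hA)
    (by rw [e1, e1, e2, e2, e3]; linarith) (by rw [e1, e2, e3]; linarith)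
    (by rw [e1]; exact hcB) (by rw [hD]; exact neg_ne_zero.2 hcdv)
    (by rw [hD]; exact neg_ne_zero.2 hcb)
  rcases key with h | h
  · exact Or.inl (hCr _ _ _ _ h)
  · exact Or.inr (hCr _ _ _ _ h)

theorem mx_et [Finite P] (C : Conf P) {T : SimpleGraph P} (hT : Mx C T) {v a b : P}
    (h : Nx C T v a b) : ET C T v a b := by
  set f := C.f with hf
  have hgp := C.gp
  have hΔ := h.pos
  rw [← hf] at hΔ
  have hva := h.va.ne
  have hvb := h.vb.ne
  have hab : a ≠ b := by
    rintro rfl
    rw [D_self'] at hΔ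
    exact lt_irrefl _ hΔ
  -- the common step
  have step : ∀ (c d : P) (s : ℝ), T.Adj c d → c ≠ v → d ≠ v → 0 < s → s < 1 →
      0 < (1 - s) * D (f v) (f c) (f b) + s * D (f v) (f d) (f b) →
      0 < (1 - s) * D (f v) (f a) (f c) + s * D (f v) (f a) (f d) →
      (1 - s) * (D (f v) (f c) (f b) + D (f v) (f a) (f c)) +
        s * (D (f v) (f d) (f b) + D (f v) (f a) (f d)) ≤ D (f v) (f a) (f b) →
      D (f v) (f c) (f b) + D (f v) (f a) (f c) < D (f v) (f a) (f b) →
      0 < D (f v) (f c) (f b) ∧ 0 < D (f v) (f a) (f c) := by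
    intro c d s hcd hcv hdv hs0 hs1 hA hB hH hc
    have hca : c ≠ a := by
      rintro rfl
      rw [D_self'] at hc
      linarith
    have hcb : c ≠ b := by
      rintro rfl
      rw [D_self'] at hc
      linarith
    have g1 : D (f v) (f c) (f b) ≠ 0 := hgp.ne3 v c b hcv.symm hcb hvb
    have g2 : D (f v) (f a) (f c) ≠ 0 := hgp.ne3 v a c hva hca.symm hcv.symm
    have g3 : D (f c) (f d) (f v) ≠ 0 := hgp.ne3 c d v hcd.ne hdv hcv
    have g4 : D (f v) (f b) (f c) ≠ 0 := hgp.ne3 v b c hvb hcb.symm hcv.symm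
    by_contra hcon
    rw [not_and_or, not_lt, not_lt] at hcon
    rcases hcon with h1 | h1
    · rcases mx2_enter hs0 hs1 hΔ hA hB hH hc (lt_of_le_of_ne h1 g1) g3 g2 with h2 | h2
      · exact hT.cf c d v b hcd h.vb h2
      · exact hT.cf c d v a hcd h.va h2
    · rcases mx2_enter' hs0 hs1 hΔ hA hB hH hc (lt_of_le_of_ne h1 g2) g3 g4 with h2 | h2
      · exact hT.cf c d v a hcd h.va h2
      · exact hT.cf c d v b hcd h.vb h2
  -- claim 1
  have claim1 : ∀ q : P, ¬ (0 < D (f v) (f q) (f b) ∧ 0 < D (f v) (f a) (f q) ∧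
      D (f v) (f q) (f b) + D (f v) (f a) (f q) < D (f v) (f a) (f b)) := by
    intro q0 hq0
    set Q : Set P := {q | 0 < D (f v) (f q) (f b) ∧ 0 < D (f v) (f a) (f q) ∧
      D (f v) (f q) (f b) + D (f v) (f a) (f q) < D (f v) (f a) (f b)} with hQ
    have hQf : Q.Finite := Set.toFinite Q
    obtain ⟨q, hqQ, hqmin⟩ := Set.exists_min_image Q
      (fun q => D (f v) (f q) (f b) + D (f v) (f a) (f q)) hQf ⟨q0, hq0⟩
    obtain ⟨q1, q2, q3⟩ := hqQ
    have hqv : v ≠ q := by
      rintro rfl
      rw [D_self] at q1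
      exact lt_irrefl _ q1
    have hnadj : ¬ T.Adj v q := fun hadj => h.no q hadj ⟨q2, q1⟩
    obtain ⟨c, d, hcd, hcr⟩ := hT.mx v q hqv hnadj
    rw [← hf] at hcr
    obtain ⟨t, s, t0, t1, s0, s1, hz⟩ := (mx2_param hcr)
    have hcr1 := hcr.1
    have hcv : c ≠ v := by
      rintro rfl
      rw [D_self''] at hcr1
      simp at hcr1
    have hdv : d ≠ v := by
      rintro rfl
      rw [D_self'' (f d) (f q)] at hcr1
      simp at hcr1
    have eA : (1 - s) * D (f v) (f c) (f b) + s * D (f v) (f d) (f b) = t * D (f v) (f q) (f b) := by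
      rw [← mx2_comb_mid, ← hz]
      unfold D
      simp only [Prod.fst_add, Prod.smul_fst, Prod.snd_add, Prod.smul_snd, Prod.fst_sub,
        Prod.snd_sub, smul_eq_mul]
      ring
    have eB : (1 - s) * D (f v) (f a) (f c) + s * D (f v) (f a) (f d) = t * D (f v) (f a) (f q) := by
      rw [← mx2_comb_last, ← hz]
      unfold D
      simp only [Prod.fst_add, Prod.smul_fst, Prod.snd_add, Prod.smul_snd, Prod.fst_sub,
        Prod.snd_sub, smul_eq_mul]
      ring
    have hA : 0 < (1 - s) * D (f v) (f c) (f b) + s * D (f v) (f d) (f b) := by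
      rw [eA]; exact mul_pos t0 q1
    have hB : 0 < (1 - s) * D (f v) (f a) (f c) + s * D (f v) (f a) (f d) := by
      rw [eB]; exact mul_pos t0 q2
    set Hq := D (f v) (f q) (f b) + D (f v) (f a) (f q) with hHq
    have hHq0 : 0 < Hq := add_pos q1 q2
    have eH : (1 - s) * (D (f v) (f c) (f b) + D (f v) (f a) (f c)) +
        s * (D (f v) (f d) (f b) + D (f v) (f a) (f d)) = t * Hq := by
      rw [hHq]; linear_combination eA + eB
    have htH : t * Hq < Hq := by nlinarith
    rcases le_total (D (f v) (f c) (f b) + D (f v) (f a) (f c))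
      (D (f v) (f d) (f b) + D (f v) (f a) (f d)) with hle | hle
    · have hc : D (f v) (f c) (f b) + D (f v) (f a) (f c) < Hq := by
        nlinarith [mul_nonneg s0.le (sub_nonneg.2 hle)]
      obtain ⟨p1, p2⟩ := step c d s hcd hcv hdv s0 s1 hA hB (by linarith) (by linarith)
      have := hqmin c ⟨p1, p2, by linarith⟩
      linarith
    · have hc : D (f v) (f d) (f b) + D (f v) (f a) (f d) < Hq := by
        nlinarith [mul_nonneg (sub_pos.2 s1).le (sub_nonneg.2 hle)]
      obtain ⟨p1, p2⟩ := step d c (1 - s) hcd.symm hdv hcv (by linarith) (by linarith)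
        (by linarith) (by linarith) (by linarith) (by linarith)
      have := hqmin d ⟨p1, p2, by linarith⟩
      linarith
  -- claim 2
  have claim2 : T.Adj a b := by
    by_contra hnadj
    obtain ⟨c, d, hcd, hcr⟩ := hT.mx a b hab hnadj
    rw [← hf] at hcr
    obtain ⟨t, s, t0, t1, s0, s1, hz⟩ := (mx2_param hcr)
    have eA : (1 - s) * D (f v) (f c) (f b) + s * D (f v) (f d) (f b)
        = (1 - t) * D (f v) (f a) (f b) := by
      rw [← mx2_comb_mid, ← hz]
      unfold D
      simp only [Prod.fst_add, Prod.smul_fst, Prod.snd_add, Prod.smul_snd, Prod.fst_sub,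
        Prod.snd_sub, smul_eq_mul]
      ring
    have eB : (1 - s) * D (f v) (f a) (f c) + s * D (f v) (f a) (f d) = t * D (f v) (f a) (f b) := by
      rw [← mx2_comb_last, ← hz]
      unfold D
      simp only [Prod.fst_add, Prod.smul_fst, Prod.snd_add, Prod.smul_snd, Prod.fst_sub,
        Prod.snd_sub, smul_eq_mul]
      ring
    have hA : 0 < (1 - s) * D (f v) (f c) (f b) + s * D (f v) (f d) (f b) := by
      rw [eA]; exact mul_pos (by linarith) hΔ
    have hB : 0 < (1 - s) * D (f v) (f a) (f c) + s * D (f v) (f a) (f d) := by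
      rw [eB]; exact mul_pos t0 hΔ
    have eH : (1 - s) * (D (f v) (f c) (f b) + D (f v) (f a) (f c)) +
        s * (D (f v) (f d) (f b) + D (f v) (f a) (f d)) = D (f v) (f a) (f b) := by
      linear_combination eA + eB
    have hcv : c ≠ v := by
      rintro rfl
      rw [D_self, mul_zero, zero_add] at hA
      rw [D_self'', mul_zero, zero_add] at hB
      exact h.no d hcd ⟨(pos_iff_pos_of_mul_pos hB).1 s0, (pos_iff_pos_of_mul_pos hA).1 s0⟩
    have hdv : d ≠ v := by
      rintro rfl
      rw [D_self, mul_zero, add_zero] at hA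
      rw [D_self'', mul_zero, add_zero] at hB
      have hs1' : (0:ℝ) < 1 - s := by linarith
      exact h.no c hcd.symm ⟨(pos_iff_pos_of_mul_pos hB).1 hs1', (pos_iff_pos_of_mul_pos hA).1 hs1'⟩
    -- D a b c ≠ D a b d in sign
    have ec : D (f a) (f b) (f c) = D (f v) (f a) (f b) - (D (f v) (f c) (f b) + D (f v) (f a) (f c)) := by
      unfold D; ring
    have ed : D (f a) (f b) (f d) = D (f v) (f a) (f b) - (D (f v) (f d) (f b) + D (f v) (f a) (f d)) := by
      unfold D; ring
    have hcr1 := hcr.1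
    rw [ec, ed] at hcr1
    rcases lt_or_ge (D (f v) (f c) (f b) + D (f v) (f a) (f c)) (D (f v) (f a) (f b)) with hc | hc
    · obtain ⟨p1, p2⟩ := step c d s hcd hcv hdv s0 s1 hA hB eH.le hc
      exact claim1 c ⟨p1, p2, hc⟩
    · have hd : D (f v) (f d) (f b) + D (f v) (f a) (f d) < D (f v) (f a) (f b) := by
        by_contra hd
        have := mul_nonneg_of_nonpos_of_nonpos (sub_nonpos.2 hc) (sub_nonpos.2 (not_lt.1 hd))
        linarith
      obtain ⟨p1, p2⟩ := step d c (1 - s) hcd.symm hdv hcv (by linarith) (by linarith)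
        (by linarith) (by linarith) (by linarith) hd
      exact claim1 d ⟨p1, p2, hd⟩
  refine ⟨h.pos, h.va, claim2, h.vb.symm, fun w hw => ?_⟩
  obtain ⟨w1, w2, w3⟩ := hw
  rw [← hf] at w1 w2 w3
  have e1 : D (f b) (f v) (f w) = D (f v) (f w) (f b) := D_cyc _ _ _
  have e2 : D (f a) (f b) (f w) = D (f v) (f a) (f b) - (D (f v) (f w) (f b) + D (f v) (f a) (f w)) := by
    unfold D; ring
  exact claim1 w ⟨by rw [← e1]; exact w3, w1, by rw [e2] at w2; linarith⟩

end B306
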