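import Pool.Agent.Lib_MP_b306af.GMx2

/-! # MP_b306af, Part II: no angle of size π at an inner vertex -/

namespace B306

variable {P : Type}

/- Piece MAX3 (`mx_half`).  `v` is strictly inside the outer triangle.
(0) Some point `q0` of the set has `cr u (q0 - v) > 0`: with `λ_i > 0` the areas,
`λ_1 (o1 - v) + λ_2 (o2 - v) + λ_3 (o3 - v) = 0`, so the three `cr u (o_i - v)` cannot be all `≤ 0`
unless all are `0`, impossible as `o1, o2, o3` are not collinear and `u ≠ 0`.
(1) If `v q0` is an edge, done.  Otherwise some edges cross `v q0` (maximality); the edge `c d` crosses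
at `v + t(c,d) (q0 - v)`, `t = D c d v / (D c d v - D c d q0)`; choose the edge with minimal `t`
(finitely many), `z = v + t (q0 - v)`, `0 < t < 1`, `z = (1-s) c + s d`.  As `cr u (z - v) > 0`, one of
`c`, `d` has `cr u (· - v) > 0`; call it `c`.  Note: no edge meets the open segment `v z`.
(2) Let `α, β` be the affine coordinates with `p - v = α (z - v) + β (c - v)`
(`β p = D v z p / D v z c`, `α p = D v p c / D v z c`, `D v z c ≠ 0`).  `Q` = points `q ≠ v` of the
set with `α q ≥ 0`, `β q ≥ 0`, `α q + β q ≤ 1`; it contains `c`.  For `q ∈ Q`: `β q ≠ 0` (only `q0`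
and `v` are on the line `v z`, and `α q0 = 1/t > 1`), so `β q > 0`; and
`cr u (q - v) = α cr u (z - v) + β cr u (c - v) > 0`.  Choose `q ∈ Q` such that no `q' ∈ Q` has
`λ q' < 0`, where `λ p = β p α q - α p β q` (minimise `β / (α + β)`).
(3) CLAIM: no edge `e' = c' d'` crosses `v q`; so `v q` is an edge by maximality, done.  Suppose it
does, at `z' = v + τ (q - v) = (1-σ) c' + σ d'`, `0 < τ < 1`; `λ c' ≠ 0`, `λ d' ≠ 0` have opposite signs
(`λ` is a multiple of `D v q ·`), say `λ c' < 0`.  Put `γ = 1 - α - β`; `β z' > 0`, `γ z' > 0`, `λ z' = 0`.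
If `β c' ≥ 0` and `γ c' ≥ 0` then `α c' β q = β c' α q - λ c' > 0`, so `α c' > 0`, `c' ∈ Q`,
contradiction with the choice of `q`.  So on the segment `z' c'` one of `β`, `γ` becomes negative.
Let `y` be the first point where `β` or `γ` vanishes (`y = z' + s (c' - z')`, `s > 0` the smaller of
the zeros).  Then `λ y < 0`, so `α y β q > β y α q ≥ 0`, `α y > 0`.
 - If `β y = 0`, `γ y ≥ 0`: `y = v + α y (z - v)`, `0 < α y ≤ 1`: the edge `e'` crosses `v q0` with
   parameter `≤ t` (it is a proper crossing: `y ≠ c'`? if `y = c'` then `c'` is on the line `v q0`,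
   so `c' = q0`, but `α q0 > 1`; `v`, `q0` are not on the line `c' d'`...), by minimality the parameter is
   `t`, `y = z`, `γ y = 0`: treated in the next case.
 - If `γ y = 0`, `β y ≥ 0`, `α y > 0`: `y` is on the segment `z c`, `y ≠ c`, so strictly between `c` and
   `d` on the edge `c d`.  If `{c', d'} ≠ {c, d}` the edges `c d` and `c' d'` share the point `y`,
   interior to `c d` and not equal to `d'`; `y = c'` is impossible (three collinear points), so they
   cross properly (if they had a common endpoint they would be collinear): contradiction.  If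
   `{c', d'} = {c, d}` then `γ` vanishes on `e'` at `c`, and at `z`, so `γ z' = 0`, contradiction. -/

theorem mx3_coord (v z c : Pl) (hΔ : D v z c ≠ 0) : ∃ α β : Pl → ℝ,
    (∀ p q r, α ((1 - r) • p + r • q) = (1 - r) * α p + r * α q) ∧
    (∀ p q r, β ((1 - r) • p + r • q) = (1 - r) * β p + r * β q) ∧
    (∀ p, p - v = α p • (z - v) + β p • (c - v)) ∧
    α v = 0 ∧ β v = 0 ∧ α z = 1 ∧ β z = 0 ∧ α c = 0 ∧ β c = 1 ∧
    (∀ p q, D v q p = D v z c * (α q * β p - β q * α p)) := by
  refine ⟨fun p => D v p c / D v z c, fun p => D v z p / D v z c, ?_, ?_, ?_, ?_, ?_, ?_, ?_, ?_, ?_, ?_⟩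
  · intro p q r
    simp only [mx2_comb_mid]
    ring
  · intro p q r
    simp only [mx2_comb_last]
    ring
  · intro p
    have h := mx2_cramer v z c p
    have h5 := congrArg (fun w => (D v z c)⁻¹ • w) h
    simp only [smul_add, smul_smul] at h5
    rw [inv_mul_cancel₀ hΔ, one_smul] at h5
    rw [h5]
    simp only [div_eq_inv_mul]
  · simp only [D_self, zero_div]
  · simp only [D_self'', zero_div]
  · exact div_self hΔ
  · simp only [D_self', zero_div]
  · simp only [D_self', zero_div]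
  · exact div_self hΔ
  · intro p q
    have h : D v z c * D v q p = D v q c * D v z p - D v z q * D v p c := by unfold D; ring
    field_simp
    linarith

/-- two edges with a common interior point are equal -/
theorem mx3_same (C : Conf P) {T : SimpleGraph P} (hT : CF T C.f) {c d c' d' : P} {s s' : ℝ}
    (h1 : T.Adj c d) (h2 : T.Adj c' d') (hs0 : 0 < s) (hs1 : s < 1) (hs0' : 0 < s') (hs1' : s' < 1)
    (h : (1 - s) • C.f c + s • C.f d = (1 - s') • C.f c' + s' • C.f d') :
    (c' = c ∧ d' = d) ∨ (c' = d ∧ d' = c) := by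
  have hgp := C.gp
  have e1 : (1 - s) * (C.f c).1 + s * (C.f d).1 = (1 - s') * (C.f c').1 + s' * (C.f d').1 := by
    have := congrArg Prod.fst h
    simpa using this
  have e2 : (1 - s) * (C.f c).2 + s * (C.f d).2 = (1 - s') * (C.f c').2 + s' * (C.f d').2 := by
    have := congrArg Prod.snd h
    simpa using this
  -- a common endpoint
  have share : ∀ (x y y' : P) (r r' : ℝ), T.Adj x y → T.Adj x y' → r ≠ 0 → r' ≠ 0 →
      (1 - r) * (C.f x).1 + r * (C.f y).1 = (1 - r') * (C.f x).1 + r' * (C.f y').1 →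
      (1 - r) * (C.f x).2 + r * (C.f y).2 = (1 - r') * (C.f x).2 + r' * (C.f y').2 → y' = y := by
    intro x y y' r r' hy hy' hr hr' g1 g2
    by_contra hne
    have h3 : D (C.f x) (C.f y) (C.f y') ≠ 0 := hgp.ne3 x y y' hy.ne (Ne.symm hne) hy'.ne
    apply h3
    have h4 : r * r' * D (C.f x) (C.f y) (C.f y') = 0 := by
      have k1 : r * ((C.f y).1 - (C.f x).1) = r' * ((C.f y').1 - (C.f x).1) := by linarith
      have k2 : r * ((C.f y).2 - (C.f x).2) = r' * ((C.f y').2 - (C.f x).2) := by linarith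
      have : r * r' * D (C.f x) (C.f y) (C.f y') =
          (r * ((C.f y).1 - (C.f x).1)) * (r' * ((C.f y').2 - (C.f x).2)) -
          (r * ((C.f y).2 - (C.f x).2)) * (r' * ((C.f y').1 - (C.f x).1)) := by unfold D; ring
      rw [this, k1, k2]; ring
    rcases mul_eq_zero.1 h4 with h5 | h5
    · rcases mul_eq_zero.1 h5 with h6 | h6
      · exact absurd h6 hr
      · exact absurd h6 hr'
    · exact h5
  have hs1n : (1 - s) ≠ 0 := by linarith
  have hs1n' : (1 - s') ≠ 0 := by linarith
  by_cases hcc : c' = c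
  · subst hcc
    exact Or.inl ⟨rfl, share c' d d' s s' h1 h2 hs0.ne' hs0'.ne' e1 e2⟩
  by_cases hcd : c' = d
  · subst hcd
    refine Or.inr ⟨rfl, share c' c d' (1 - s) s' h1.symm h2 hs1n hs0'.ne' ?_ ?_⟩
    · linarith
    · linarith
  by_cases hdc : d' = c
  · subst hdc
    refine Or.inr ⟨share d' d c' s (1 - s') h1 h2.symm hs0.ne' hs1n' ?_ ?_, rfl⟩
    · linarith
    · linarith
  by_cases hdd : d' = d
  · subst hdd
    refine Or.inl ⟨share d' c c' (1 - s) (1 - s') h1.symm h2.symm hs1n hs1n' ?_ ?_, rfl⟩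
    · linarith
    · linarith
  exfalso
  have g1 : D (C.f c) (C.f d) (C.f c') ≠ 0 := hgp.ne3 c d c' h1.ne (Ne.symm hcd) (Ne.symm hcc)
  have g2 : D (C.f c') (C.f d') (C.f c) ≠ 0 := hgp.ne3 c' d' c h2.ne hdc hcc
  have key := cross_of_param (c := C.f c) (d := C.f d) (v := C.f c') (b := C.f d') hs0 hs1 hs0' hs1'
    (by
      rw [h]
      ext
      · simp only [Prod.fst_add, Prod.smul_fst, Prod.fst_sub, smul_eq_mul]; ring
      · simp only [Prod.snd_add, Prod.smul_snd, Prod.snd_sub, smul_eq_mul]; ring) g1 g2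
  exact hT c d c' d' h1 h2 key

/-- step (0) -/
theorem mx3_start (C : Conf P) {v : P} (hv : C.Inner v) {u : Pl} (hu : u ≠ 0) :
    ∃ q, q ≠ v ∧ 0 < cr u (C.f q - C.f v) := by
  obtain ⟨i1, i2, i3⟩ := C.ins v hv.1 hv.2.1 hv.2.2
  set x := C.f v with hx
  set a := C.f C.o1 with ha
  set b := C.f C.o2 with hb
  set c := C.f C.o3 with hc
  have hsum : D b c x * cr u (a - x) + D c a x * cr u (b - x) + D a b x * cr u (c - x) = 0 := by
    simp only [D, cr, Prod.fst_sub, Prod.snd_sub]; ring
  by_contra hcon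
  push Not at hcon
  have ka : cr u (a - x) ≤ 0 := hcon C.o1 (fun h => hv.1 h.symm)
  have kb : cr u (b - x) ≤ 0 := hcon C.o2 (fun h => hv.2.1 h.symm)
  have kc : cr u (c - x) ≤ 0 := hcon C.o3 (fun h => hv.2.2 h.symm)
  have ma : D b c x * cr u (a - x) ≤ 0 := mul_nonpos_of_nonneg_of_nonpos i2.le ka
  have mb : D c a x * cr u (b - x) ≤ 0 := mul_nonpos_of_nonneg_of_nonpos i3.le kb
  have mc : D a b x * cr u (c - x) ≤ 0 := mul_nonpos_of_nonneg_of_nonpos i1.le kc
  have za : cr u (a - x) = 0 := by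
    have : D b c x * cr u (a - x) = 0 := by linarith
    rcases mul_eq_zero.1 this with h | h
    · exact absurd h i2.ne'
    · exact h
  have zb : cr u (b - x) = 0 := by
    have : D c a x * cr u (b - x) = 0 := by linarith
    rcases mul_eq_zero.1 this with h | h
    · exact absurd h i3.ne'
    · exact h
  apply hu
  have i1' : D a b x ≠ 0 := i1.ne'
  have e1 : D a b x * u.1 = cr u (b - x) * (a - x).1 - cr u (a - x) * (b - x).1 := by
    simp only [D, cr, Prod.fst_sub, Prod.snd_sub]; ring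
  have e2 : D a b x * u.2 = cr u (b - x) * (a - x).2 - cr u (a - x) * (b - x).2 := by
    simp only [D, cr, Prod.fst_sub, Prod.snd_sub]; ring
  rw [za, zb, zero_mul, zero_mul, sub_zero] at e1 e2
  ext
  · rcases mul_eq_zero.1 e1 with h | h
    · exact absurd h i1'
    · exact h
  · rcases mul_eq_zero.1 e2 with h | h
    · exact absurd h i1'
    · exact h

/-- step (1): the first edge met by the segment `v q0` -/
theorem mx3_first [Finite P] (C : Conf P) {T : SimpleGraph P} (hT : Mx C T) {v q0 : P}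
    (hne : v ≠ q0) (hna : ¬ T.Adj v q0) :
    ∃ (c d : P) (t s : ℝ), T.Adj c d ∧ c ≠ v ∧ c ≠ q0 ∧ 0 < t ∧ t < 1 ∧ 0 < s ∧ s < 1 ∧
      C.f v + t • (C.f q0 - C.f v) = (1 - s) • C.f c + s • C.f d ∧ d ≠ v ∧ d ≠ q0 ∧
      ∀ (c' d' : P) (t' s' : ℝ), T.Adj c' d' → c' ≠ v → c' ≠ q0 → d' ≠ v → 0 < t' → t' < 1 →
        0 < s' → s' < 1 →
        (1 - s') • C.f c' + s' • C.f d' = C.f v + t' • (C.f q0 - C.f v) → t ≤ t' := by
  obtain ⟨c0, d0, hcd0, hcr0⟩ := hT.mx v q0 hne hna
  set E : Set (P × P) := {e | T.Adj e.1 e.2 ∧ Cr (C.f v) (C.f q0) (C.f e.1) (C.f e.2)} with hE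
  have hEf : E.Finite := Set.toFinite E
  set τ : P × P → ℝ := fun e => D (C.f e.1) (C.f e.2) (C.f v) /
    (D (C.f e.1) (C.f e.2) (C.f v) - D (C.f e.1) (C.f e.2) (C.f q0)) with hτ
  obtain ⟨⟨c, d⟩, hcdE, hmin⟩ := Set.exists_min_image E τ hEf ⟨(c0, d0), hcd0, hcr0⟩
  obtain ⟨hcd, hcr⟩ := hcdE
  simp only at hcd hcr
  obtain ⟨t, s, t0, t1, s0, s1, hz⟩ := mx2_param hcr
  -- the parameter
  have par : ∀ (c' d' : P) (t' s' : ℝ), D (C.f c') (C.f d') (C.f v) ≠ 0 → 0 < t' →
      (1 - s') • C.f c' + s' • C.f d' = C.f v + t' • (C.f q0 - C.f v) → τ (c', d') = t' := by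
    intro c' d' t' s' hD ht' h
    have e1 : (1 - s') * (C.f c').1 + s' * (C.f d').1 = (C.f v).1 + t' * ((C.f q0).1 - (C.f v).1) := by
      have := congrArg Prod.fst h
      simpa using this
    have e2 : (1 - s') * (C.f c').2 + s' * (C.f d').2 = (C.f v).2 + t' * ((C.f q0).2 - (C.f v).2) := by
      have := congrArg Prod.snd h
      simpa using this
    have k1 : t' * D (C.f c') (C.f d') (C.f q0) = - ((1 - t') * D (C.f c') (C.f d') (C.f v)) := by
      unfold D
      linear_combination ((C.f d').1 - (C.f c').1) * (- e2) - ((C.f d').2 - (C.f c').2) * (- e1)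
    have k2 : t' * (D (C.f c') (C.f d') (C.f v) - D (C.f c') (C.f d') (C.f q0)) =
        D (C.f c') (C.f d') (C.f v) := by linarith
    have k3 : D (C.f c') (C.f d') (C.f v) - D (C.f c') (C.f d') (C.f q0) ≠ 0 := by
      intro h0
      rw [h0, mul_zero] at k2
      exact hD k2.symm
    simp only [hτ]
    rw [div_eq_iff k3]
    linarith
  have hcr1 := hcr.1
  have hcr2 := hcr.2
  have hcv : c ≠ v := by
    rintro rfl
    rw [D_self''] at hcr1
    simp at hcr1
  have hdv : d ≠ v := by
    rintro rfl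
    rw [D_self'' (C.f d) (C.f q0)] at hcr1
    simp at hcr1
  have hcq : c ≠ q0 := by
    rintro rfl
    rw [D_self'] at hcr1
    simp at hcr1
  have hdq : d ≠ q0 := by
    rintro rfl
    rw [D_self' (C.f v) (C.f d)] at hcr1
    simp at hcr1
  have hD : D (C.f c) (C.f d) (C.f v) ≠ 0 := C.gp.ne3 c d v hcd.ne hdv hcv
  refine ⟨c, d, t, s, hcd, hcv, hcq, t0, t1, s0, s1, hz, hdv, hdq, ?_⟩
  intro c' d' t' s' hcd' hcv' hcq' hdv' t0' t1' s0' s1' h
  have hD' : D (C.f c') (C.f d') (C.f v) ≠ 0 := C.gp.ne3 c' d' v hcd'.ne hdv' hcv'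
  have hD2 : D (C.f v) (C.f q0) (C.f c') ≠ 0 := C.gp.ne3 v q0 c' hne (Ne.symm hcq') (Ne.symm hcv')
  have hcr' := cross_of_param s0' s1' t0' t1' h hD' hD2
  have h1 := hmin (c', d') ⟨hcd', hcr'.symm⟩
  rw [par c' d' t' s' hD' t0' h, par c d t s hD t0 hz.symm] at h1
  exact h1

theorem mx_half [Finite P] (C : Conf P) {T : SimpleGraph P} (hT : Mx C T) {v : P}
    (hv : C.Inner v) {u : Pl} (hu : u ≠ 0) : ∃ w, T.Adj v w ∧ 0 < cr u (C.f w - C.f v) := by
  obtain ⟨q0, hq0v, hq0⟩ := mx3_start C hv hu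
  by_cases hadj : T.Adj v q0
  · exact ⟨q0, hadj, hq0⟩
  obtain ⟨c1, d1, t, s1, hcd1, hc1v, hc1q, t0, t1, s10, s11, hz1, hd1v, hd1q, hmin⟩ :=
    mx3_first C hT (Ne.symm hq0v) hadj
  set f := C.f with hf
  -- choose the endpoint above the line
  set L : Pl → ℝ := fun p => cr u (p - f v) with hL
  have hLq0 : 0 < L (f q0) := hq0
  have hLc : ∀ (p q : Pl) (r : ℝ), L ((1 - r) • p + r • q) = (1 - r) * L p + r * L q := by
    intro p q r
    simp only [hL, cr, Prod.fst_sub, Prod.snd_sub, Prod.fst_add, Prod.snd_add, Prod.smul_fst,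
      Prod.smul_snd, smul_eq_mul]
    ring
  have hsel : ∃ (c d : P) (s : ℝ), T.Adj c d ∧ c ≠ v ∧ c ≠ q0 ∧ 0 < s ∧ s < 1 ∧
      f v + t • (f q0 - f v) = (1 - s) • f c + s • f d ∧ 0 < L (f c) := by
    have h1 : L (f v + t • (f q0 - f v)) = t * L (f q0) := by
      simp only [hL, cr, Prod.fst_sub, Prod.snd_sub, Prod.fst_add, Prod.snd_add, Prod.smul_fst,
        Prod.smul_snd, smul_eq_mul]
      ring
    rw [hz1, hLc] at h1
    have h2 : 0 < t * L (f q0) := mul_pos t0 hLq0
    by_cases h3 : 0 < L (f c1)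
    · exact ⟨c1, d1, s1, hcd1, hc1v, hc1q, s10, s11, hz1, h3⟩
    · have h4 : 0 < L (f d1) := by
        by_contra h5
        have := mul_nonneg (sub_pos.2 s11).le (neg_nonneg.2 (not_lt.1 h3))
        have := mul_nonneg s10.le (neg_nonneg.2 (not_lt.1 h5))
        linarith
      refine ⟨d1, c1, 1 - s1, hcd1.symm, hd1v, hd1q, by linarith, by linarith, ?_, h4⟩
      rw [hz1, sub_sub_cancel, add_comm]
  obtain ⟨c, d, s, hcd, hcv, hcq, s0, s1', hz, hLcpos⟩ := hsel
  set z : Pl := f v + t • (f q0 - f v) with hzdef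
  have hDz : ∀ p, D (f v) z p = t * D (f v) (f q0) p := by
    intro p
    rw [hzdef]
    unfold D
    simp only [Prod.fst_add, Prod.smul_fst, Prod.snd_add, Prod.smul_snd, Prod.fst_sub,
      Prod.snd_sub, smul_eq_mul]
    ring
  have hΔ : D (f v) z (f c) ≠ 0 := by
    rw [hDz]
    exact mul_ne_zero t0.ne' (C.gp.ne3 v q0 c (Ne.symm hq0v) (Ne.symm hcq) (Ne.symm hcv))
  obtain ⟨α, β, hα, hβ, hvec, αv, βv, αz, βz, αc, βc, hDD⟩ := mx3_coord (f v) z (f c) hΔ
  have hzc : z = (1 - t) • f v + t • f q0 := by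
    rw [hzdef]
    ext
    · simp only [Prod.fst_add, Prod.smul_fst, Prod.fst_sub, smul_eq_mul]; ring
    · simp only [Prod.snd_add, Prod.smul_snd, Prod.snd_sub, smul_eq_mul]; ring
  have αq0 : t * α (f q0) = 1 := by
    have := hα (f v) (f q0) t
    rw [← hzc, αz, αv] at this
    linarith
  have hLz : 0 < L z := by
    rw [hzc, hLc]
    have : L (f v) = 0 := by simp [hL, cr]
    rw [this]
    have := mul_pos t0 hLq0
    linarith
  have hLab : ∀ p, L p = α p * L z + β p * L (f c) := by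
    intro p
    have h1 := hvec p
    simp only [hL]
    rw [h1]
    simp only [cr, Prod.fst_sub, Prod.snd_sub, Prod.fst_add, Prod.snd_add, Prod.smul_fst,
      Prod.smul_snd, smul_eq_mul]
    ring
  set Q : Set P := {q | q ≠ v ∧ 0 ≤ α (f q) ∧ 0 ≤ β (f q) ∧ α (f q) + β (f q) ≤ 1} with hQ
  have hQc : c ∈ Q := ⟨hcv, by rw [αc], by rw [βc]; norm_num, by rw [αc, βc]; norm_num⟩
  have hβpos : ∀ q ∈ Q, 0 < β (f q) := by
    rintro q ⟨q1, q2, q3, q4⟩
    refine lt_of_le_of_ne q3 (fun h0 => ?_)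
    have hqq : q ≠ q0 := by
      rintro rfl
      rw [← h0] at q4
      nlinarith
    have h1 := hDD (f q) z
    rw [αz, βz, ← h0] at h1
    have h2 : D (f v) z (f q) = 0 := by rw [h1]; ring
    rw [hDz] at h2
    rcases mul_eq_zero.1 h2 with h3 | h3
    · exact t0.ne' h3
    · exact C.gp.ne3 v q0 q (Ne.symm hq0v) (Ne.symm hqq) (Ne.symm q1) h3
  obtain ⟨q, hqQ, hqmax⟩ := Set.exists_max_image Q (fun q => α (f q) / β (f q)) (Set.toFinite Q) ⟨c, hQc⟩
  have hβq := hβpos q hqQ
  obtain ⟨q1, q2, q3, q4⟩ := hqQ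
  have hLq : 0 < L (f q) := by
    rw [hLab]
    have := mul_nonneg q2 hLz.le
    have := mul_pos hβq hLcpos
    linarith
  have hbest : ∀ q' ∈ Q, α (f q') * β (f q) ≤ α (f q) * β (f q') := by
    intro q' hq'
    have h1 := hqmax q' hq'
    rw [div_le_div_iff₀ (hβpos q' hq') hβq] at h1
    exact h1
  by_contra hcon
  have hnq : ¬ T.Adj v q := fun h => hcon ⟨q, h, hLq⟩
  obtain ⟨c2, d2, hcd2, hcr2⟩ := hT.mx v q (Ne.symm q1) hnq
  rw [← hf] at hcr2
  -- choose the endpoint with negative `λ`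
  set lam : Pl → ℝ := fun p => β p * α (f q) - α p * β (f q) with hlam
  have hDlam : ∀ p, D (f v) (f q) p = D (f v) z (f c) * lam p := by
    intro p
    rw [hDD p (f q)]
    simp only [hlam]
    ring
  have hsel2 : ∃ (c' d' : P) (τ σ : ℝ), T.Adj c' d' ∧ lam (f c') < 0 ∧ c' ≠ v ∧ d' ≠ v ∧
      0 < τ ∧ τ < 1 ∧ 0 < σ ∧ σ < 1 ∧
      f v + τ • (f q - f v) = (1 - σ) • f c' + σ • f d' := by
    obtain ⟨τ, σ, τ0, τ1, σ0, σ1, hz'⟩ := mx2_param hcr2
    have h1 := hcr2.1
    have hc2v : c2 ≠ v := by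
      rintro rfl
      rw [D_self''] at h1
      simp at h1
    have hd2v : d2 ≠ v := by
      rintro rfl
      rw [D_self'' (f d2) (f q)] at h1
      simp at h1
    rw [hDlam, hDlam] at h1
    have hΔ2 : 0 < D (f v) z (f c) * D (f v) z (f c) := mul_self_pos.2 hΔ
    have h2 : lam (f c2) * lam (f d2) < 0 := by
      by_contra h3
      have := mul_nonneg hΔ2.le (not_lt.1 h3)
      nlinarith
    by_cases h3 : lam (f c2) < 0
    · exact ⟨c2, d2, τ, σ, hcd2, h3, hc2v, hd2v, τ0, τ1, σ0, σ1, hz'⟩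
    · have h4 : lam (f d2) < 0 := by
        by_contra h5
        have := mul_nonneg (not_lt.1 h3) (not_lt.1 h5)
        linarith
      refine ⟨d2, c2, τ, 1 - σ, hcd2.symm, h4, hd2v, hc2v, τ0, τ1, by linarith, by linarith, ?_⟩
      rw [hz', sub_sub_cancel, add_comm]
  obtain ⟨c', d', τ, σ, hcd', hlc, hcv', hdv', τ0, τ1, σ0, σ1, hz'⟩ := hsel2
  set z' : Pl := f v + τ • (f q - f v) with hz'def
  have hz'c : z' = (1 - τ) • f v + τ • f q := by
    rw [hz'def]
    ext
    · simp only [Prod.fst_add, Prod.smul_fst, Prod.fst_sub, smul_eq_mul]; ring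
    · simp only [Prod.snd_add, Prod.smul_snd, Prod.snd_sub, smul_eq_mul]; ring
  have αz' : α z' = τ * α (f q) := by rw [hz'c, hα, αv]; ring
  have βz' : β z' = τ * β (f q) := by rw [hz'c, hβ, βv]; ring
  have βz'pos : 0 < β z' := by rw [βz']; exact mul_pos τ0 hβq
  have γz'pos : 0 < 1 - α z' - β z' := by
    rw [αz', βz']
    have : τ * (α (f q) + β (f q)) ≤ τ * 1 := mul_le_mul_of_nonneg_left q4 τ0.le
    linarith
  -- the line from `z'` to `c'`
  have hP : ∀ r : ℝ, (1 - (1 - r) * σ) • f c' + ((1 - r) * σ) • f d' = (1 - r) • z' + r • f c' := by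
    intro r
    rw [hz']
    ext
    · simp only [Prod.fst_add, Prod.smul_fst, smul_eq_mul]; ring
    · simp only [Prod.snd_add, Prod.smul_snd, smul_eq_mul]; ring
  -- γ on the edge `c d`
  have γd : 1 - α (f d) - β (f d) = 0 := by
    have h1 := hα (f c) (f d) s
    have h2 := hβ (f c) (f d) s
    rw [← hz, αz, αc] at h1
    rw [← hz, βz, βc] at h2
    have h3 : s * (1 - α (f d) - β (f d)) = 0 := by nlinarith
    rcases mul_eq_zero.1 h3 with h4 | h4
    · exact absurd h4 s0.ne'
    · exact h4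
  -- a common interior point is impossible
  have fin : ∀ s1 s2 : ℝ, 0 < s1 → s1 < 1 → 0 < s2 → s2 < 1 →
      (1 - s1) • f c + s1 • f d = (1 - s2) • f c' + s2 • f d' → False := by
    intro s1 s2 a1 a2 a3 a4 h
    have γz' : 1 - α z' - β z' = (1 - σ) * (1 - α (f c') - β (f c')) + σ * (1 - α (f d') - β (f d')) := by
      rw [hz', hα, hβ]; ring
    rcases mx3_same C hT.cf hcd hcd' a1 a2 a3 a4 h with ⟨e1, e2⟩ | ⟨e1, e2⟩
    · rw [e1, e2, γd, αc, βc] at γz'
      rw [γz'] at γz'pos
      norm_num at γz'pos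
    · rw [e1, e2, γd, αc, βc] at γz'
      rw [γz'] at γz'pos
      norm_num at γz'pos
  -- the values on the way from `z'` to `c'`
  have αP : ∀ r : ℝ, α ((1 - r) • z' + r • f c') = (1 - r) * α z' + r * α (f c') := fun r => hα _ _ _
  have βP : ∀ r : ℝ, β ((1 - r) • z' + r • f c') = (1 - r) * β z' + r * β (f c') := fun r => hβ _ _ _
  have αpos : ∀ r : ℝ, 0 < r → 0 ≤ (1 - r) * β z' + r * β (f c') →
      0 < (1 - r) * α z' + r * α (f c') := by
    intro r hr hb
    have h1 : ((1 - r) * β z' + r * β (f c')) * α (f q) - ((1 - r) * α z' + r * α (f c')) * β (f q)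
        = r * lam (f c') := by
      rw [αz', βz']; simp only [hlam]; ring
    have h2 : r * lam (f c') < 0 := mul_neg_of_pos_of_neg hr hlc
    have h3 := mul_nonneg hb q2
    have h4 : 0 < ((1 - r) * α z' + r * α (f c')) * β (f q) := by linarith
    exact (pos_iff_pos_of_mul_pos h4).2 hβq
  -- case II
  have caseII : ∀ r : ℝ, 0 < r → r < 1 → 0 < (1 - r) * β z' + r * β (f c') →
      1 - ((1 - r) * α z' + r * α (f c')) - ((1 - r) * β z' + r * β (f c')) = 0 → False := by
    intro r r0 r1 hb hg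
    have ha := αpos r r0 hb.le
    set b := (1 - r) * β z' + r * β (f c') with hb'
    set a := (1 - r) * α z' + r * α (f c') with ha'
    refine fin ((1 - b) * s) ((1 - r) * σ) (mul_pos (by linarith) s0) (by nlinarith)
      (mul_pos (by linarith) σ0) (by nlinarith) ?_
    rw [hP r]
    have h1 := hvec ((1 - r) • z' + r • f c')
    rw [αP, βP, ← hb', ← ha'] at h1
    have h2 : (1 - r) • z' + r • f c' = f v + (a • (z - f v) + b • (f c - f v)) := by
      rw [← h1]; abel
    rw [h2]
    have ea : a = 1 - b := by linarith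
    have hz1' : z.1 = (1 - s) * (f c).1 + s * (f d).1 := by rw [hz]; simp
    have hz2' : z.2 = (1 - s) * (f c).2 + s * (f d).2 := by rw [hz]; simp
    ext
    · simp only [Prod.fst_add, Prod.smul_fst, Prod.fst_sub, smul_eq_mul]
      rw [ea, hz1']; ring
    · simp only [Prod.snd_add, Prod.smul_snd, Prod.snd_sub, smul_eq_mul]
      rw [ea, hz2']; ring
  by_cases hb : β (f c') < 0
  · -- the zero of β
    set r := β z' / (β z' - β (f c')) with hr
    have hden : 0 < β z' - β (f c') := by linarith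
    have r0 : 0 < r := div_pos βz'pos hden
    have r1 : r < 1 := by rw [hr, div_lt_one hden]; linarith
    have hb0 : (1 - r) * β z' + r * β (f c') = 0 := by
      rw [hr]; field_simp; ring
    have ha := αpos r r0 hb0.ge
    by_cases hg : 0 ≤ 1 - ((1 - r) * α z' + r * α (f c'))
    · -- case I
      set a := (1 - r) * α z' + r * α (f c') with ha'
      have h1 := hvec ((1 - r) • z' + r • f c')
      rw [αP, βP, ← ha', hb0, zero_smul, add_zero] at h1
      have h2 : (1 - r) • z' + r • f c' = f v + (a * t) • (f q0 - f v) := by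
        have h3 : (1 - r) • z' + r • f c' = f v + a • (z - f v) := by rw [← h1]; abel
        rw [h3, hzdef, mul_smul]
        congr 2
        abel
      have hc'q0 : c' ≠ q0 := by
        rintro rfl
        have : β z = (1 - t) * β (f v) + t * β (f c') := by rw [hzc, hβ]
        rw [βz, βv] at this
        have : t * β (f c') < 0 := mul_neg_of_pos_of_neg t0 hb
        linarith
      have at1 : a * t < 1 := by nlinarith
      have hle := hmin c' d' (a * t) ((1 - r) * σ) hcd' hcv' hc'q0 hdv' (mul_pos ha t0) at1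
        (mul_pos (by linarith) σ0) (by nlinarith) (by rw [hP r]; exact h2)
      have ha1 : a = 1 := by nlinarith
      refine fin s ((1 - r) * σ) s0 s1' (mul_pos (by linarith) σ0) (by nlinarith) ?_
      rw [hP r, h2, ha1, one_mul, ← hz]
    · -- γ vanishes before
      have hγc : 1 - α (f c') - β (f c') < 0 := by
        by_contra h3
        apply hg
        have h4 : 1 - ((1 - r) * α z' + r * α (f c')) = (1 - r) * (1 - α z' - β z') +
            r * (1 - α (f c') - β (f c')) := by linear_combination (1:ℝ) * hb0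
        rw [h4]
        exact add_nonneg (mul_nonneg (by linarith) γz'pos.le) (mul_nonneg r0.le (not_lt.1 h3))
      set ρ := (1 - α z' - β z') / ((1 - α z' - β z') - (1 - α (f c') - β (f c'))) with hρ
      have hden2 : 0 < (1 - α z' - β z') - (1 - α (f c') - β (f c')) := by linarith
      have ρ0 : 0 < ρ := div_pos γz'pos hden2
      have ρ1 : ρ < 1 := by rw [hρ, div_lt_one hden2]; linarith
      have hg0 : (1 - ρ) * (1 - α z' - β z') + ρ * (1 - α (f c') - β (f c')) = 0 := by
        rw [hρ]; field_simp; ring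
      have hρr : ρ < r := by
        by_contra h3
        apply hg
        have h3' := not_lt.1 h3
        have h4 : 1 - ((1 - r) * α z' + r * α (f c')) = (1 - r) * (1 - α z' - β z') +
            r * (1 - α (f c') - β (f c')) := by linear_combination (1:ℝ) * hb0
        rw [h4]
        nlinarith [mul_nonneg (sub_nonneg.2 h3') hden2.le]
      refine caseII ρ ρ0 ρ1 ?_ (by linear_combination hg0)
      nlinarith [mul_pos (sub_pos.2 hρr) hden]
  · have hb' := not_lt.1 hb
    by_cases hg : 0 ≤ 1 - α (f c') - β (f c')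
    · have ha : 0 < α (f c') := by
        have := αpos 1 one_pos (by rw [sub_self, zero_mul, zero_add, one_mul]; exact hb')
        rwa [sub_self, zero_mul, zero_add, one_mul] at this
      have h1 := hbest c' ⟨hcv', ha.le, hb', by linarith⟩
      simp only [hlam] at hlc
      linarith
    · set ρ := (1 - α z' - β z') / ((1 - α z' - β z') - (1 - α (f c') - β (f c'))) with hρ
      have hden2 : 0 < (1 - α z' - β z') - (1 - α (f c') - β (f c')) := by linarith [not_le.1 hg]
      have ρ0 : 0 < ρ := div_pos γz'pos hden2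
      have ρ1 : ρ < 1 := by rw [hρ, div_lt_one hden2]; linarith [not_le.1 hg]
      have hg0 : (1 - ρ) * (1 - α z' - β z') + ρ * (1 - α (f c') - β (f c')) = 0 := by
        rw [hρ]; field_simp; ring
      refine caseII ρ ρ0 ρ1 ?_ (by linear_combination hg0)
      exact add_pos_of_pos_of_nonneg (mul_pos (by linarith) βz'pos) (mul_nonneg ρ0.le hb')

end B306
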