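import Pool.Agent.Lib_MP_b306af.GStepB

/-! # MP_b306af, Part II: consecutive neighbours, extensions -/

namespace B306

variable {P : Type}

/- Piece NEXT (first five theorems of this file).
The relation `0 < D v x y` is a strict linear order on the neighbours `x` of `v` in an open
half-plane bounded by a line through `v` (transitivity: Plücker relation `D_plu`; total by general
position).
`exists_nx`: among the (finitely many) neighbours `b` with `0 < D v a b` take the minimal one
(`Set.Finite.exists_minimal_wrt`, or `Finset.exists_min_image` with the number of neighbours `w`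
with `0 < D v a w`, `0 < D v w b` as a measure: if that number is positive, pass to such a `w`,
strong induction).
`nx_unique`, `nx_unique'`: if `b ≠ b'` then `D v b b' ≠ 0`, and one of `b`, `b'` is in the sector of
the other. -/

theorem exists_nx [Finite P] (C : Conf P) (H : SimpleGraph P) {v a : P} (ha : H.Adj v a)
    (h : ∃ b, H.Adj v b ∧ 0 < D (C.f v) (C.f a) (C.f b)) : ∃ b, Nx C H v a b := by
  have key : ∀ (n : ℕ) (b : P), ({w | H.Adj v w ∧ 0 < D (C.f v) (C.f a) (C.f w) ∧
      0 < D (C.f v) (C.f w) (C.f b)} : Set P).ncard = n → H.Adj v b →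
      0 < D (C.f v) (C.f a) (C.f b) → ∃ b, Nx C H v a b := by
    intro n
    induction n using Nat.strong_induction_on with
    | _ n ih =>
      intro b hn hb hab
      by_cases hw : ∃ w, H.Adj v w ∧ 0 < D (C.f v) (C.f a) (C.f w) ∧
          0 < D (C.f v) (C.f w) (C.f b)
      · obtain ⟨w, hw1, hw2, hw3⟩ := hw
        refine ih _ ?_ w rfl hw1 hw2
        rw [← hn]
        refine Set.ncard_lt_ncard ?_ (Set.toFinite _)
        refine ⟨?_, fun hsub => ?_⟩
        · rintro x ⟨hx1, hx2, hx3⟩
          refine ⟨hx1, hx2, ?_⟩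
          have h1 := D_plu (C.f v) (C.f a) (C.f x) (C.f w) (C.f b)
          have h2 := mul_pos hx2 hw3
          have h3 := mul_pos hab hx3
          have h4 : 0 < D (C.f v) (C.f a) (C.f w) * D (C.f v) (C.f x) (C.f b) := by linarith
          exact (mul_pos_iff_of_pos_left hw2).1 h4
        · have h0 : w ∈ {w | H.Adj v w ∧ 0 < D (C.f v) (C.f a) (C.f w) ∧
              0 < D (C.f v) (C.f w) (C.f b)} := ⟨hw1, hw2, hw3⟩
          have h1 := (hsub h0).2.2
          rw [D_self'] at h1
          exact lt_irrefl _ h1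
      · push Not at hw
        exact ⟨b, ha, hb, hab, fun w hw1 h2 => absurd h2.2 (not_lt.2 (hw w hw1 h2.1))⟩
  obtain ⟨b, hb, hab⟩ := h
  exact key _ b rfl hb hab

theorem exists_nx' [Finite P] (C : Conf P) (H : SimpleGraph P) {v b : P} (hb : H.Adj v b)
    (h : ∃ a, H.Adj v a ∧ 0 < D (C.f v) (C.f a) (C.f b)) : ∃ a, Nx C H v a b := by
  have key : ∀ (n : ℕ) (a : P), ({w | H.Adj v w ∧ 0 < D (C.f v) (C.f a) (C.f w) ∧
      0 < D (C.f v) (C.f w) (C.f b)} : Set P).ncard = n → H.Adj v a →
      0 < D (C.f v) (C.f a) (C.f b) → ∃ a, Nx C H v a b := by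
    intro n
    induction n using Nat.strong_induction_on with
    | _ n ih =>
      intro a hn ha hab
      by_cases hw : ∃ w, H.Adj v w ∧ 0 < D (C.f v) (C.f a) (C.f w) ∧
          0 < D (C.f v) (C.f w) (C.f b)
      · obtain ⟨w, hw1, hw2, hw3⟩ := hw
        refine ih _ ?_ w rfl hw1 hw3
        rw [← hn]
        refine Set.ncard_lt_ncard ?_ (Set.toFinite _)
        refine ⟨?_, fun hsub => ?_⟩
        · rintro x ⟨hx1, hx2, hx3⟩
          refine ⟨hx1, ?_, hx3⟩
          have h1 := D_plu (C.f v) (C.f a) (C.f w) (C.f x) (C.f b)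
          have h2 := mul_pos hw2 hx3
          have h3 := mul_pos hab hx2
          have h4 : 0 < D (C.f v) (C.f w) (C.f b) * D (C.f v) (C.f a) (C.f x) := by linarith
          exact (mul_pos_iff_of_pos_left hw3).1 h4
        · have h0 : w ∈ {w | H.Adj v w ∧ 0 < D (C.f v) (C.f a) (C.f w) ∧
              0 < D (C.f v) (C.f w) (C.f b)} := ⟨hw1, hw2, hw3⟩
          have h1 := (hsub h0).2.1
          rw [D_self'] at h1
          exact lt_irrefl _ h1
      · push Not at hw
        exact ⟨a, ha, hb, hab, fun w hw1 h2 => absurd h2.2 (not_lt.2 (hw w hw1 h2.1))⟩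
  obtain ⟨a, ha, hab⟩ := h
  exact key _ a rfl ha hab

theorem nx_unique (C : Conf P) (H : SimpleGraph P) {v a b b' : P} (h : Nx C H v a b)
    (h' : Nx C H v a b') : b = b' := by
  by_contra hbb
  have h1 := C.gp.ne3 v b b' h.vb.ne hbb h'.vb.ne
  rcases lt_or_gt_of_ne h1 with h2 | h2
  · refine h.no b' h'.vb ⟨h'.pos, ?_⟩
    rw [D_swap']
    linarith
  · exact h'.no b h.vb ⟨h.pos, h2⟩

theorem nx_unique' (C : Conf P) (H : SimpleGraph P) {v a a' b : P} (h : Nx C H v a b)
    (h' : Nx C H v a' b) : a = a' := by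
  by_contra haa
  have h1 := C.gp.ne3 v a a' h.va.ne haa h'.va.ne
  rcases lt_or_gt_of_ne h1 with h2 | h2
  · refine h'.no a h.va ⟨?_, h.pos⟩
    rw [D_swap']
    linarith
  · exact h.no a' h'.va ⟨h2, h'.pos⟩

/-- cyclic rotation of an empty triangle -/
theorem ET.rot {C : Conf P} {H : SimpleGraph P} {a b c : P} (h : ET C H a b c) : ET C H b c a := by
  refine ⟨by rw [← D_cyc]; exact h.pos, h.bc, h.ca, h.ab, fun w hw => h.emp w ?_⟩
  exact ⟨hw.2.2, hw.1, hw.2.1⟩

/-- composition of extensions -/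
theorem Ext.trans {P' P'' : Type} {C : Conf P} {H : SimpleGraph P} {C' : Conf P'}
    {H' : SimpleGraph P'} {C'' : Conf P''} {H'' : SimpleGraph P''} {j : P → P'} {k : P' → P''}
    (h : Ext C H C' H' j) (h' : Ext C' H' C'' H'' k) : Ext C H C'' H'' (k ∘ j) where
  inj := h'.inj.comp h.inj
  pos x := by rw [Function.comp, h'.pos, h.pos]
  o1 := by rw [h'.o1, h.o1]; rfl
  o2 := by rw [h'.o2, h.o2]; rfl
  o3 := by rw [h'.o3, h.o3]; rfl
  adj x y := by rw [Function.comp, Function.comp, h'.adj, h.adj]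
  et x y z hx := h'.et _ _ _ (h.et _ _ _ hx)
  ps := h'.ps

theorem Ext.refl {C : Conf P} {H : SimpleGraph P} (hH : PS C H) : Ext C H C H id :=
  ⟨Function.injective_id, fun _ => rfl, rfl, rfl, rfl, fun _ _ => Iff.rfl, fun _ _ _ h => h, hH⟩

/-- degree -/
noncomputable def dg (H : SimpleGraph P) (v : P) : ℕ := (H.neighborSet v).ncard

open Classical in
/-- number (0, 1, 2) of sides of the edge `v x` on which the sector at `v` is not closed -/
noncomputable def om (C : Conf P) (H : SimpleGraph P) (v x : P) : ℕ :=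
  (if ∃ b, ET C H v x b then 0 else 1) + (if ∃ a, ET C H v a x then 0 else 1)

end B306
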