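import Pool.Agent.Lib_MP_b306af.GBasic

/-! # MP_b306af, Part II: perturbation to general position, outer triangle -/

namespace B306

open Filter Topology

variable {P : Type}

/- Piece PERT (all theorems).
`pert_gp`: `D` of the perturbed points is a polynomial in `ε` of degree 2 whose `ε^2` coefficient
is the Vandermonde determinant `(t b - t a)(t c - t a)(t c - t b) ≠ 0`; a nonzero polynomial
`α + β ε + γ ε^2` has finitely many zeros, so it is nonzero for all small `ε > 0` (if `α ≠ 0` by
continuity; if `α = 0`, `β ≠ 0`: divide by `ε`; if `α = β = 0` clear).  The difference of the abscissas is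
`α + ε (t a - t b)`.
`pert_cf`: finitely many pairs of edges `a b`, `c d`.  If they have a common endpoint, a factor
`D` vanishes.  Otherwise the closed segments are disjoint compact sets (a common point would be a
common vertex by `hf.edge`), so they have disjoint `δ`-thickenings
(`Disjoint.exists_thickenings`); by `Cr.exists_mem` a crossing of the perturbed segments gives a
point `(1-s)(a + ε g a) + s (b + ε g b)` at distance at most `ε max(‖g a‖, ‖g b‖)` from the segment
`a b`, and in the same way close to `c d`: contradiction for small `ε`.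
`pert_D`: continuity. -/

private theorem GPert_poly (α β γ : ℝ) (h : α ≠ 0 ∨ β ≠ 0 ∨ γ ≠ 0) :
    ∀ᶠ ε in 𝓝[>] (0 : ℝ), α + β * ε + γ * ε ^ 2 ≠ 0 := by
  by_cases hα : α = 0
  · subst hα
    by_cases hβ : β = 0
    · subst hβ
      have hγ : γ ≠ 0 := by
        rcases h with h | h | h
        · exact absurd rfl h
        · exact absurd rfl h
        · exact h
      filter_upwards [self_mem_nhdsWithin] with ε hε
      have hε' : (0 : ℝ) < ε := hε
      have : 0 + 0 * ε + γ * ε ^ 2 = γ * ε ^ 2 := by ring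
      rw [this]
      exact mul_ne_zero hγ (pow_ne_zero _ hε'.ne')
    · have h1 : ∀ᶠ ε in 𝓝 (0 : ℝ), β + γ * ε ≠ 0 := by
        have hc : ContinuousAt (fun ε : ℝ => β + γ * ε) 0 := by fun_prop
        apply hc.eventually_ne
        simpa using hβ
      filter_upwards [self_mem_nhdsWithin, h1.filter_mono nhdsWithin_le_nhds] with ε hε h2
      have hε' : (0 : ℝ) < ε := hε
      have : 0 + β * ε + γ * ε ^ 2 = ε * (β + γ * ε) := by ring
      rw [this]
      exact mul_ne_zero hε'.ne' h2
  · have h1 : ∀ᶠ ε in 𝓝 (0 : ℝ), α + β * ε + γ * ε ^ 2 ≠ 0 := by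
      have hc : ContinuousAt (fun ε : ℝ => α + β * ε + γ * ε ^ 2) 0 := by fun_prop
      apply hc.eventually_ne
      simpa using hα
    exact h1.filter_mono nhdsWithin_le_nhds

theorem pert_gp [Finite P] (f : P → Pl) {t : P → ℝ} (ht : Function.Injective t) :
    ∀ᶠ ε in 𝓝[>] (0 : ℝ), GP (fun p => f p + ε • ((t p, t p ^ 2) : Pl)) := by
  have h3 : ∀ᶠ ε in 𝓝[>] (0 : ℝ), ∀ a b c : P, a ≠ b → b ≠ c → a ≠ c →
      D (f a + ε • ((t a, t a ^ 2) : Pl)) (f b + ε • ((t b, t b ^ 2) : Pl))
        (f c + ε • ((t c, t c ^ 2) : Pl)) ≠ 0 := by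
    rw [eventually_all]
    intro a
    rw [eventually_all]
    intro b
    rw [eventually_all]
    intro c
    by_cases hab : a = b
    · exact Eventually.of_forall fun ε h => absurd hab h
    by_cases hbc : b = c
    · exact Eventually.of_forall fun ε _ h => absurd hbc h
    by_cases hac : a = c
    · exact Eventually.of_forall fun ε _ _ h => absurd hac h
    have hγ : (t b - t a) * (t c - t a) * (t c - t b) ≠ 0 := by
      refine mul_ne_zero (mul_ne_zero ?_ ?_) ?_
      · exact sub_ne_zero.2 (fun h => hab (ht h).symm)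
      · exact sub_ne_zero.2 (fun h => hac (ht h).symm)
      · exact sub_ne_zero.2 (fun h => hbc (ht h).symm)
    have h1 := GPert_poly (D (f a) (f b) (f c))
      (((f b).1 - (f a).1) * (t c ^ 2 - t a ^ 2) + (t b - t a) * ((f c).2 - (f a).2)
        - ((f b).2 - (f a).2) * (t c - t a) - (t b ^ 2 - t a ^ 2) * ((f c).1 - (f a).1))
      ((t b - t a) * (t c - t a) * (t c - t b)) (Or.inr (Or.inr hγ))
    filter_upwards [h1] with ε h2 _ _ _ h3
    apply h2
    rw [← h3]
    unfold D
    simp only [Prod.fst_add, Prod.snd_add, Prod.smul_mk, smul_eq_mul]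
    ring
  have h1 : ∀ᶠ ε in 𝓝[>] (0 : ℝ), ∀ a b : P, a ≠ b →
      (f a + ε • ((t a, t a ^ 2) : Pl)).1 ≠ (f b + ε • ((t b, t b ^ 2) : Pl)).1 := by
    rw [eventually_all]
    intro a
    rw [eventually_all]
    intro b
    by_cases hab : a = b
    · exact Eventually.of_forall fun ε h => absurd hab h
    have hβ : t a - t b ≠ 0 := sub_ne_zero.2 (fun h => hab (ht h))
    have h1 := GPert_poly ((f a).1 - (f b).1) (t a - t b) 0 (Or.inr (Or.inl hβ))
    filter_upwards [h1] with ε h2 _ h3
    apply h2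
    simp only [Prod.fst_add, Prod.smul_mk, smul_eq_mul] at h3
    linarith
  filter_upwards [h3, h1] with ε h3 h1
  exact ⟨fun a b c => h3 a b c, fun a b => h1 a b⟩

private theorem GPert_near {a b g g' : Pl} {ε : ℝ} (hε : 0 < ε) {z : Pl}
    (hz : z ∈ segment ℝ (a + ε • g) (b + ε • g')) :
    ∃ w ∈ segment ℝ a b, dist z w ≤ ε * (‖g‖ + ‖g'‖) := by
  rw [segment_eq_image] at hz
  obtain ⟨s, ⟨hs0, hs1⟩, rfl⟩ := hz
  refine ⟨(1 - s) • a + s • b, ?_, ?_⟩
  · rw [segment_eq_image]
    exact ⟨s, ⟨hs0, hs1⟩, rfl⟩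
  · have h1 : ((1 - s) • (a + ε • g) + s • (b + ε • g')) - ((1 - s) • a + s • b) =
        ε • ((1 - s) • g + s • g') := by
      simp only [smul_add, smul_smul]
      rw [mul_comm (1 - s) ε, mul_comm s ε]
      abel
    rw [dist_eq_norm]
    show ‖((1 - s) • (a + ε • g) + s • (b + ε • g')) - ((1 - s) • a + s • b)‖ ≤ _
    rw [h1, norm_smul, Real.norm_of_nonneg hε.le]
    apply mul_le_mul_of_nonneg_left _ hε.le
    refine (norm_add_le _ _).trans ?_
    rw [norm_smul, norm_smul, Real.norm_of_nonneg (by linarith), Real.norm_of_nonneg hs0]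
    have e1 : (1 - s) * ‖g‖ ≤ 1 * ‖g‖ :=
      mul_le_mul_of_nonneg_right (by linarith) (norm_nonneg _)
    have e2 : s * ‖g'‖ ≤ 1 * ‖g'‖ := mul_le_mul_of_nonneg_right hs1 (norm_nonneg _)
    linarith

theorem pert_cf [Finite P] (H : SimpleGraph P) {f : P → Pl} (hf : IsDrawing H f) (g : P → Pl) :
    ∀ᶠ ε in 𝓝[>] (0 : ℝ), CF H (fun p => f p + ε • g p) := by
  unfold CF
  rw [eventually_all]
  intro a
  rw [eventually_all]
  intro b
  rw [eventually_all]
  intro c
  rw [eventually_all]
  intro d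
  by_cases hab : H.Adj a b
  swap
  · exact Eventually.of_forall fun ε h => absurd h hab
  by_cases hcd : H.Adj c d
  swap
  · exact Eventually.of_forall fun ε _ h => absurd h hcd
  by_cases h1 : c = a
  · subst h1
    refine Eventually.of_forall fun ε _ _ h => ?_
    have := h.1
    rw [D_self'', zero_mul] at this
    exact lt_irrefl _ this
  by_cases h2 : c = b
  · subst h2
    refine Eventually.of_forall fun ε _ _ h => ?_
    have := h.1
    rw [D_self', zero_mul] at this
    exact lt_irrefl _ this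
  by_cases h3 : d = a
  · subst h3
    refine Eventually.of_forall fun ε _ _ h => ?_
    have := h.1
    rw [D_self'' _ (f b + ε • g b), mul_zero] at this
    exact lt_irrefl _ this
  by_cases h4 : d = b
  · subst h4
    refine Eventually.of_forall fun ε _ _ h => ?_
    have := h.1
    rw [D_self' _ (f d + ε • g d), mul_zero] at this
    exact lt_irrefl _ this
  have hne : s(a, b) ≠ s(c, d) := by
    intro h
    rw [Sym2.eq_iff] at h
    rcases h with ⟨h, -⟩ | ⟨h, -⟩
    · exact h1 h.symm
    · exact h3 h.symm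
  have hdis : Disjoint (segment ℝ (f a) (f b)) (segment ℝ (f c) (f d)) := by
    rw [Set.disjoint_left]
    intro p hp hp'
    obtain ⟨w, hw1, hw2, -⟩ := hf.edge a b c d hab hcd hne p hp hp'
    rcases hw1 with rfl | rfl <;> rcases hw2 with h | h
    · exact h1 h.symm
    · exact h3 h.symm
    · exact h2 h.symm
    · exact h4 h.symm
  have hcomp : ∀ x y : Pl, IsCompact (segment ℝ x y) := by
    intro x y
    rw [segment_eq_image]
    exact isCompact_Icc.image (by fun_prop)
  obtain ⟨δ, hδ, hdis2⟩ := hdis.exists_thickenings (hcomp _ _) (hcomp _ _).isClosed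
  set M : ℝ := ‖g a‖ + ‖g b‖ + ‖g c‖ + ‖g d‖ + 1 with hM
  have hM0 : 0 < M := by positivity
  have hlt : ∀ᶠ ε in 𝓝[>] (0 : ℝ), ε < δ / M :=
    (eventually_lt_nhds (div_pos hδ hM0)).filter_mono nhdsWithin_le_nhds
  filter_upwards [self_mem_nhdsWithin, hlt] with ε hε hε2 _ _ hcr
  have hε' : (0 : ℝ) < ε := hε
  obtain ⟨z, hz1, hz2⟩ := hcr.exists_mem
  obtain ⟨w1, hw1, hd1⟩ := GPert_near hε' hz1
  obtain ⟨w2, hw2, hd2⟩ := GPert_near hε' hz2
  have hεM : ε * M < δ := by
    rwa [lt_div_iff₀ hM0] at hε2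
  have hz1' : z ∈ Metric.thickening δ (segment ℝ (f a) (f b)) := by
    refine Metric.mem_thickening_iff.2 ⟨w1, hw1, ?_⟩
    refine lt_of_le_of_lt hd1 (lt_of_le_of_lt ?_ hεM)
    apply mul_le_mul_of_nonneg_left _ hε'.le
    have := norm_nonneg (g c)
    have := norm_nonneg (g d)
    rw [hM]
    linarith
  have hz2' : z ∈ Metric.thickening δ (segment ℝ (f c) (f d)) := by
    refine Metric.mem_thickening_iff.2 ⟨w2, hw2, ?_⟩
    refine lt_of_le_of_lt hd2 (lt_of_le_of_lt ?_ hεM)
    apply mul_le_mul_of_nonneg_left _ hε'.le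
    have := norm_nonneg (g a)
    have := norm_nonneg (g b)
    rw [hM]
    linarith
  exact Set.disjoint_left.1 hdis2 hz1' hz2'

theorem pert_D (f g : P → Pl) {a b c : P} (h : 0 < D (f a) (f b) (f c)) :
    ∀ᶠ ε in 𝓝[>] (0 : ℝ), 0 < D (f a + ε • g a) (f b + ε • g b) (f c + ε • g c) := by
  have h1 : ∀ᶠ ε in 𝓝 (0 : ℝ), 0 < D (f a + ε • g a) (f b + ε • g b) (f c + ε • g c) := by
    have hc : ContinuousAt (fun ε : ℝ => D (f a + ε • g a) (f b + ε • g b) (f c + ε • g c)) 0 := by
      unfold D
      simp only [Prod.fst_add, Prod.snd_add, Prod.smul_fst, Prod.smul_snd, smul_eq_mul]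
      fun_prop
    refine hc.eventually_mem (isOpen_Ioi.mem_nhds ?_)
    show 0 < D (f a + (0 : ℝ) • g a) (f b + (0 : ℝ) • g b) (f c + (0 : ℝ) • g c)
    simpa using h
  exact h1.filter_mono nhdsWithin_le_nhds

end B306
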