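import Pool.Agent.Lib_MP_b306af.GNext

/-! # MP_b306af, Part II: stage A -/

namespace B306

variable {P : Type}

/- Piece STAGEA.  Choose `u0 = (1, t0)`, `u1 = (-1, 1 + t1)`, `u2 = (-1, -1 + t2)` with
`|t_i| < 1/4` outside a finite set, so that all `u_i` are generic at `v` (`Gen`); then
`0 < cr u0 u1`, `0 < cr u1 u2`, `0 < cr u2 u0`.  For `i = 0, 1, 2` in turn: if `u_i` is strictly
inside the angle of an empty triangle at `v` do nothing, otherwise add a vertex in the direction
`u_i` by `core` with `S = ∅` (`u_j` remains generic: for the new vertex `p_i = v + ε u_i`,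
`cr u_j (p_i - v) = ε cr u_j u_i ≠ 0`).  At the end: for a neighbour `a` of `v` (old or new) with
`A = a - v ≠ 0` some `u_i` has `0 < cr A u_i` (otherwise, as `u_2` is a negative combination of
`u_0` and `u_1`, all `cr A u_i = 0` and `A = 0`; for `A` parallel to `u_i` use the others, the
argument is the same).  If `p_i` was added, it is a neighbour with `0 < D v a p_i`; if `u_i` was
inside the angle `(x, y)` of an empty triangle, `u_i = λ X + μ Y` with `λ, μ > 0` (Cramer), and
`0 < cr A X` or `0 < cr A Y`.  It is convenient to prove a lemma for one direction with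
`P' = P` or `P' = Option P`, and to carry the list of directions in the statement. -/

/-- the direction `u` at `v` is taken by a neighbour or inside the angle of an empty triangle -/
private def SCov (C : Conf P) (H : SimpleGraph P) (v : P) (u : Pl) : Prop :=
  (∃ p, H.Adj v p ∧ ∃ ε : ℝ, 0 < ε ∧ C.f p = C.f v + ε • u) ∨
    ∃ x y, ET C H v x y ∧ 0 < cr (C.f x - C.f v) u ∧ 0 < cr u (C.f y - C.f v)

/-- bookkeeping of an extension at `v` -/
private structure SExt {P' : Type} (C : Conf P) (H : SimpleGraph P) (v : P) (C' : Conf P')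
    (H' : SimpleGraph P') (j : P → P') (n : ℕ) : Prop where
  ext : Ext C H C' H' j
  new : ∀ p ∉ Set.range j, ∀ q, H'.Adj p q → q = j v
  deg : dg H' (j v) ≤ dg H v + n
  oth : ∀ x ≠ v, dg H' (j x) = dg H x

private theorem SCov.ext {P' : Type} {C : Conf P} {H : SimpleGraph P} {C' : Conf P'}
    {H' : SimpleGraph P'} {j : P → P'} (h : Ext C H C' H' j) {v : P} {u : Pl}
    (hc : SCov C H v u) : SCov C' H' (j v) u := by
  rcases hc with ⟨p, hp, ε, hε, he⟩ | ⟨x, y, hx, h1, h2⟩
  · exact Or.inl ⟨j p, (h.adj v p).2 hp, ε, hε, by rw [h.pos, h.pos, he]⟩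
  · exact Or.inr ⟨j x, j y, h.et _ _ _ hx, by rw [h.pos, h.pos]; exact h1,
      by rw [h.pos, h.pos]; exact h2⟩

private theorem SExt.trans {P' P'' : Type} {C : Conf P} {H : SimpleGraph P} {v : P}
    {C' : Conf P'} {H' : SimpleGraph P'} {j : P → P'} {C'' : Conf P''} {H'' : SimpleGraph P''}
    {k : P' → P''} {m n : ℕ} (h : SExt C H v C' H' j m) (h' : SExt C' H' (j v) C'' H'' k n) :
    SExt C H v C'' H'' (k ∘ j) (m + n) where
  ext := h.ext.trans h'.ext
  new := by
    intro p hp q hq
    by_cases hpk : p ∈ Set.range k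
    · obtain ⟨p', rfl⟩ := hpk
      have hp' : p' ∉ Set.range j := by
        rintro ⟨x, rfl⟩
        exact hp ⟨x, rfl⟩
      by_cases hqk : q ∈ Set.range k
      · obtain ⟨q', rfl⟩ := hqk
        have h1 := h.new p' hp' q' ((h'.ext.adj p' q').1 hq)
        rw [h1]
        rfl
      · have h1 := h'.new q hqk (k p') hq.symm
        exact absurd ⟨v, (h'.ext.inj h1).symm⟩ hp'
    · exact h'.new p hpk q hq
  deg := by
    have h1 := h.deg
    have h2 := h'.deg
    show dg H'' (k (j v)) ≤ _
    omega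
  oth := by
    intro x hx
    show dg H'' (k (j x)) = _
    rw [h'.oth (j x) fun h1 => hx (h.ext.inj h1), h.oth x hx]

private theorem sta_inner {P' : Type} {C : Conf P} {H : SimpleGraph P} {C' : Conf P'}
    {H' : SimpleGraph P'} {j : P → P'} (h : Ext C H C' H' j) {v : P} (hv : C.Inner v) :
    C'.Inner (j v) := by
  refine ⟨?_, ?_, ?_⟩
  · rw [h.o1]
    exact fun h1 => hv.1 (h.inj h1)
  · rw [h.o2]
    exact fun h1 => hv.2.1 (h.inj h1)
  · rw [h.o3]
    exact fun h1 => hv.2.2 (h.inj h1)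

/-- one direction -/
private theorem sta_one [Finite P] (C : Conf P) {H : SimpleGraph P} (hH : PS C H) {v : P}
    (hv : C.Inner v) {u : Pl} (hu : Gen C v u) :
    ∃ (P' : Type) (_ : Finite P') (C' : Conf P') (H' : SimpleGraph P') (j : P → P'),
      SExt C H v C' H' j 1 ∧ SCov C' H' (j v) u ∧
      ∀ u', Gen C v u' → cr u' u ≠ 0 → Gen C' (j v) u' := by
  classical
  by_cases hE : ∃ x y, ET C H v x y ∧ 0 < cr (C.f x - C.f v) u ∧ 0 < cr u (C.f y - C.f v)
  · refine ⟨P, inferInstance, C, H, id, ⟨Ext.refl hH, ?_, Nat.le_succ _, fun _ _ => rfl⟩,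
      Or.inr hE, fun u' hu' _ => hu'⟩
    intro p hp
    exact absurd ⟨p, rfl⟩ hp
  · have hE' : ∀ x y, ET C H v x y →
        ¬ (0 < cr (C.f x - C.f v) u ∧ 0 < cr u (C.f y - C.f v)) := fun x y hx h1 =>
      hE ⟨x, y, hx, h1⟩
    obtain ⟨C', ε, hε, hf, hext, -⟩ := core C hH hv hu (S := ∅)
      (fun w hw => absurd hw (Set.notMem_empty w)) (fun w hw => absurd hw (Set.notMem_empty w)) hE'
    have hfs : ∀ w, C'.f (some w) = C.f w := hext.pos
    have hfn : C'.f none = C.f v + ε • u := by
      rw [hf]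
      rfl
    refine ⟨Option P, inferInstance, C', addV H (insert v ∅), some, ⟨hext, ?_, ?_, ?_⟩, ?_, ?_⟩
    · intro p hp q hq
      cases p with
      | some p => exact absurd ⟨p, rfl⟩ hp
      | none =>
        cases q with
        | none => exact absurd hq (fun h => h)
        | some q =>
          have h1 : q ∈ (insert v ∅ : Set P) := hq
          simp only [Set.mem_insert_iff, Set.mem_empty_iff_false, or_false] at h1
          rw [h1]
    · unfold dg
      have h1 : (addV H (insert v ∅)).neighborSet (some v) ⊆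
          insert none (some '' H.neighborSet v) := by
        intro q hq
        cases q with
        | none => exact Set.mem_insert _ _
        | some q => exact Set.mem_insert_of_mem _ ⟨q, hq, rfl⟩
      refine (Set.ncard_le_ncard h1 (Set.toFinite _)).trans ?_
      refine (Set.ncard_insert_le _ _).trans ?_
      rw [Set.ncard_image_of_injective _ (Option.some_injective P)]
    · intro x hx
      unfold dg
      have h1 : (addV H (insert v ∅)).neighborSet (some x) = some '' H.neighborSet x := by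
        ext q
        cases q with
        | none =>
          constructor
          · intro hq
            have h2 : x ∈ (insert v ∅ : Set P) := hq
            simp only [Set.mem_insert_iff, Set.mem_empty_iff_false, or_false] at h2
            exact absurd h2 hx
          · rintro ⟨y, -, hy⟩
            exact absurd hy (Option.some_ne_none y)
        | some q =>
          constructor
          · intro hq
            exact ⟨q, hq, rfl⟩
          · rintro ⟨y, hy, hy'⟩
            rw [Option.some_injective P hy'] at hy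
            exact hy
      rw [h1, Set.ncard_image_of_injective _ (Option.some_injective P)]
    · left
      refine ⟨none, ?_, ε, hε, ?_⟩
      · show v ∈ (insert v ∅ : Set P)
        exact Set.mem_insert _ _
      · rw [hfn, hfs]
    · intro u' hu' hne
      refine ⟨hu'.x, ?_⟩
      intro w hw
      cases w with
      | some w =>
        rw [hfs, hfs]
        exact hu'.w w fun h1 => hw (by rw [h1])
      | none =>
        rw [hfn, hfs, add_sub_cancel_left]
        have h1 : cr u' (ε • u) = ε * cr u' u := by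
          unfold cr
          simp only [Prod.smul_fst, Prod.smul_snd, smul_eq_mul]
          ring
        rw [h1]
        exact mul_ne_zero hε.ne' hne

/-- a generic direction near `(x, s)` -/
private theorem sta_gen [Finite P] (C : Conf P) (v : P) {x : ℝ} (hx : x ≠ 0) (s : ℝ) :
    ∃ t : ℝ, -(1 / 4) < t ∧ t < 1 / 4 ∧ Gen C v (x, s + t) := by
  classical
  have hfin : (Set.range fun w : P => x * (C.f w - C.f v).2 / (C.f w - C.f v).1 - s).Finite :=
    Set.finite_range _
  have hinf : (Set.Ioo (-(1 / 4) : ℝ) (1 / 4)).Infinite := Set.Ioo_infinite (by norm_num)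
  obtain ⟨t, ht, ht'⟩ := hinf.exists_notMem_finite hfin
  refine ⟨t, ht.1, ht.2, ⟨hx, ?_⟩⟩
  intro w hw h0
  have h1 : (C.f w - C.f v).1 ≠ 0 := by
    rw [Prod.fst_sub]
    exact sub_ne_zero.2 (C.gp.ne1 w v hw)
  apply ht'
  refine ⟨w, ?_⟩
  unfold cr at h0
  simp only at h0
  show x * (C.f w - C.f v).2 / (C.f w - C.f v).1 - s = t
  field_simp
  linarith

/-- one of three positively spanning directions is to the left of `A ≠ 0` -/
private theorem sta_left {u0 u1 u2 A : Pl} (h01 : 0 < cr u0 u1) (h12 : 0 < cr u1 u2)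
    (h20 : 0 < cr u2 u0) (hA : A ≠ 0) : 0 < cr A u0 ∨ 0 < cr A u1 ∨ 0 < cr A u2 := by
  by_contra hcon
  push Not at hcon
  obtain ⟨h0, h1, h2⟩ := hcon
  have hid : cr u1 u2 * cr A u0 + cr u2 u0 * cr A u1 + cr u0 u1 * cr A u2 = 0 := by
    unfold cr
    ring
  have e0 : cr u1 u2 * cr A u0 ≤ 0 := mul_nonpos_of_nonneg_of_nonpos h12.le h0
  have e1 : cr u2 u0 * cr A u1 ≤ 0 := mul_nonpos_of_nonneg_of_nonpos h20.le h1
  have e2 : cr u0 u1 * cr A u2 ≤ 0 := mul_nonpos_of_nonneg_of_nonpos h01.le h2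
  have f0 : cr A u0 = 0 := by
    have : cr u1 u2 * cr A u0 = 0 := by linarith
    rcases mul_eq_zero.1 this with h | h
    · exact absurd h h12.ne'
    · exact h
  have f1 : cr A u1 = 0 := by
    have : cr u2 u0 * cr A u1 = 0 := by linarith
    rcases mul_eq_zero.1 this with h | h
    · exact absurd h h20.ne'
    · exact h
  apply hA
  have g1 : cr u0 u1 * A.1 = 0 := by
    have : cr u0 u1 * A.1 = u0.1 * cr A u1 - u1.1 * cr A u0 := by
      unfold cr
      ring
    rw [this, f0, f1]
    ring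
  have g2 : cr u0 u1 * A.2 = 0 := by
    have : cr u0 u1 * A.2 = u0.2 * cr A u1 - u1.2 * cr A u0 := by
      unfold cr
      ring
    rw [this, f0, f1]
    ring
  have k1 : A.1 = 0 := (mul_eq_zero.1 g1).resolve_left h01.ne'
  have k2 : A.2 = 0 := (mul_eq_zero.1 g2).resolve_left h01.ne'
  exact Prod.ext k1 k2

private theorem sta_cov {C : Conf P} {H : SimpleGraph P} {v : P} {u A : Pl}
    (hc : SCov C H v u) (hA : 0 < cr A u) :
    ∃ b, H.Adj v b ∧ 0 < cr A (C.f b - C.f v) := by
  rcases hc with ⟨p, hp, ε, hε, he⟩ | ⟨x, y, hx, h1, h2⟩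
  · refine ⟨p, hp, ?_⟩
    rw [he, add_sub_cancel_left]
    have h1 : cr A (ε • u) = ε * cr A u := by
      unfold cr
      simp only [Prod.smul_fst, Prod.smul_snd, smul_eq_mul]
      ring
    rw [h1]
    exact mul_pos hε hA
  · have h3 : 0 < cr (C.f x - C.f v) (C.f y - C.f v) := by
      rw [← D_eq_cr]
      exact hx.pos
    have hid : cr (C.f x - C.f v) (C.f y - C.f v) * cr A u =
        cr u (C.f y - C.f v) * cr A (C.f x - C.f v)
          + cr (C.f x - C.f v) u * cr A (C.f y - C.f v) := by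
      unfold cr
      ring
    have h4 := mul_pos h3 hA
    by_cases h5 : 0 < cr A (C.f x - C.f v)
    · exact ⟨x, hx.ab, h5⟩
    · refine ⟨y, hx.ca.symm, ?_⟩
      by_contra h6
      have h7 := mul_nonpos_of_nonneg_of_nonpos h2.le (not_lt.1 h5)
      have h8 := mul_nonpos_of_nonneg_of_nonpos h1.le (not_lt.1 h6)
      linarith

theorem stageA [Finite P] (C : Conf P) {H : SimpleGraph P} (hH : PS C H) {v : P}
    (hv : C.Inner v) :
    ∃ (P' : Type) (_ : Finite P') (C' : Conf P') (H' : SimpleGraph P') (j : P → P'),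
      Ext C H C' H' j ∧ (∃ a, H'.Adj (j v) a) ∧
      (∀ a, H'.Adj (j v) a → ∃ b, H'.Adj (j v) b ∧ 0 < D (C'.f (j v)) (C'.f a) (C'.f b)) ∧
      (∀ p ∉ Set.range j, ∀ q, H'.Adj p q → q = j v) ∧
      dg H' (j v) ≤ dg H v + 3 ∧ ∀ x ≠ v, dg H' (j x) = dg H x := by
  obtain ⟨t0, a0, b0, g0⟩ := sta_gen C v (x := 1) one_ne_zero 0
  obtain ⟨t1, a1, b1, g1⟩ := sta_gen C v (x := -1) (by norm_num) 1
  obtain ⟨t2, a2, b2, g2⟩ := sta_gen C v (x := -1) (by norm_num) (-1)
  set u0 : Pl := (1, 0 + t0) with hu0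
  set u1 : Pl := (-1, 1 + t1) with hu1
  set u2 : Pl := (-1, -1 + t2) with hu2
  have h01 : 0 < cr u0 u1 := by
    unfold cr
    simp only [hu0, hu1]
    linarith
  have h12 : 0 < cr u1 u2 := by
    unfold cr
    simp only [hu1, hu2]
    linarith
  have h20 : 0 < cr u2 u0 := by
    unfold cr
    simp only [hu0, hu2]
    linarith
  have h10 : cr u1 u0 ≠ 0 := by
    rw [cr_swap]
    exact neg_ne_zero.2 h01.ne'
  have h21 : cr u2 u1 ≠ 0 := by
    rw [cr_swap]
    exact neg_ne_zero.2 h12.ne'
  obtain ⟨P1, _, C1, H1, j1, e1, c1, k1⟩ := sta_one C hH hv g0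
  obtain ⟨P2, _, C2, H2, j2, e2, c2, k2⟩ := sta_one C1 e1.ext.ps (sta_inner e1.ext hv)
    (k1 u1 g1 h10)
  obtain ⟨P3, _, C3, H3, j3, e3, c3, k3⟩ := sta_one C2 e2.ext.ps
    (sta_inner e2.ext (sta_inner e1.ext hv)) (k2 u2 (k1 u2 g2 h20.ne') h21)
  have e := (e1.trans e2).trans e3
  have d0 : SCov C3 H3 ((j3 ∘ (j2 ∘ j1)) v) u0 := (c1.ext e2.ext).ext e3.ext
  have d1 : SCov C3 H3 ((j3 ∘ (j2 ∘ j1)) v) u1 := c2.ext e3.ext
  have d2 : SCov C3 H3 ((j3 ∘ (j2 ∘ j1)) v) u2 := c3
  refine ⟨P3, inferInstance, C3, H3, j3 ∘ (j2 ∘ j1), e.ext, ?_, ?_, e.new, e.deg, e.oth⟩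
  · rcases d0 with ⟨p, hp, -⟩ | ⟨x, y, hx, -⟩
    · exact ⟨p, hp⟩
    · exact ⟨x, hx.ab⟩
  · intro a ha
    have hA : C3.f a - C3.f ((j3 ∘ (j2 ∘ j1)) v) ≠ 0 := by
      intro h0
      have h1 : (C3.f a).1 = (C3.f ((j3 ∘ (j2 ∘ j1)) v)).1 := by rw [sub_eq_zero.1 h0]
      exact C3.gp.ne1 a _ ha.ne' h1
    simp only [D_eq_cr]
    rcases sta_left h01 h12 h20 hA with h | h | h
    · exact sta_cov d0 h
    · exact sta_cov d1 h
    · exact sta_cov d2 h

end B306
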