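import Pool.Agent.Lib_MP_b306af.GCore2

/-! # MP_b306af, Part II: one vertex in a sector -/

namespace B306

variable {P : Type} [Finite P]

/- Piece STEPB.  Choose `u = A + t B`, `A = a - v`, `B = b - v`, with `t > 0` outside a finite set:
`cr u W = cr A W + t cr B W ≠ 0` for all `w ≠ v` (if `cr B W = 0` then `w = b` by general position
and `cr A W ≠ 0`) and `u.1 = A.1 + t B.1 ≠ 0`.  Then `0 < cr A u`, `0 < cr u B`.  `S = {a, b}`.
`hS`: a neighbour `x` strictly between `u` and `b` (`0 < cr u B` so the first case: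
`0 < cr u X`, `0 < cr X B`) has `0 < cr A X` by Plücker `cr A X cr u B = cr A u cr X B +
cr A B cr u X > 0`: it is in the sector `(a,b)`, excluded by `Nx.no`.  The same for `a`.
`hE`: if `ET v x y` and `0 < cr X u`, `0 < cr u Y`, then `x = a` and `y = b`, contradiction with
`hn`: if `x ≠ a` then `cr A X ≠ 0`; if `0 < cr A X` then also `0 < cr X B` (Plücker from `0 < cr X u`,
`0 < cr u B`, `0 < cr A X`, `0 < cr A B`), excluded by `Nx.no`; if `cr A X < 0` then `0 < cr X A` and
`0 < cr A Y`: so the neighbour `a` is strictly inside the angle `(x,y)` of the empty triangle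
`v x y`, it is not in the triangle, so `v a` crosses `x y`, contradiction.  The same for `y`.
(`et_no` below: no neighbour of `v` strictly inside the angle of an empty triangle at `v`.) -/

omit [Finite P] in
theorem et_no (C : Conf P) {H : SimpleGraph P} (hH : CF H C.f) {v x y : P} (h : ET C H v x y) :
    Nx C H v x y := by
  refine ⟨h.ab, h.ca.symm, h.pos, ?_⟩
  rintro w hw ⟨h1, h2⟩
  have hxy : x ≠ y := by
    rintro rfl
    have := h.pos
    rw [D_self'] at this
    exact lt_irrefl _ this
  have hyw : y ≠ w := by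
    rintro rfl
    rw [D_self'] at h2
    exact lt_irrefl _ h2
  have hxw : x ≠ w := by
    rintro rfl
    rw [D_self'] at h1
    exact lt_irrefl _ h1
  have h3 := C.gp.ne3 x y w hxy hyw hxw
  have h4 : ¬ 0 < D (C.f x) (C.f y) (C.f w) := fun h4 =>
    h.emp w ⟨h1, h4, by rw [D_cyc]; exact h2⟩
  have h5 : D (C.f x) (C.f y) (C.f w) < 0 := lt_of_le_of_ne (not_lt.1 h4) h3
  refine hH v w x y hw h.bc ⟨?_, ?_⟩
  · refine mul_neg_of_neg_of_pos ?_ h2
    rw [D_swap']
    linarith
  · refine mul_neg_of_pos_of_neg ?_ h5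
    rw [D_cyc']
    exact h.pos

omit [Finite P] in
theorem nx_et_unique (C : Conf P) {H : SimpleGraph P} {v a b x y : P} (h : Nx C H v a b)
    (h' : Nx C H v x y) {u : Pl} (h1 : 0 < cr (C.f a - C.f v) u) (h2 : 0 < cr u (C.f b - C.f v))
    (h3 : 0 < cr (C.f x - C.f v) u) (h4 : 0 < cr u (C.f y - C.f v)) : x = a ∧ y = b := by
  have hab := h.pos
  have hxy := h'.pos
  rw [D_eq_cr] at hab hxy
  have hva := h.va.ne
  have hvb := h.vb.ne
  have hvx := h'.va.ne
  have hvy := h'.vb.ne
  have hno : ∀ w, H.Adj v w → 0 < cr (C.f a - C.f v) (C.f w - C.f v) →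
      0 < cr (C.f w - C.f v) (C.f b - C.f v) → False := by
    intro w hw h5 h6
    refine h.no w hw ⟨?_, ?_⟩
    · rw [D_eq_cr]; exact h5
    · rw [D_eq_cr]; exact h6
  have hno' : ∀ w, H.Adj v w → 0 < cr (C.f x - C.f v) (C.f w - C.f v) →
      0 < cr (C.f w - C.f v) (C.f y - C.f v) → False := by
    intro w hw h5 h6
    refine h'.no w hw ⟨?_, ?_⟩
    · rw [D_eq_cr]; exact h5
    · rw [D_eq_cr]; exact h6
  have hne : ∀ p q, v ≠ p → v ≠ q → p ≠ q → cr (C.f p - C.f v) (C.f q - C.f v) ≠ 0 := by
    intro p q hp hq hpq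
    rw [← D_eq_cr]
    exact C.gp.ne3 v p q hp hpq hq
  set A := C.f a - C.f v
  set B := C.f b - C.f v
  set X := C.f x - C.f v
  set Y := C.f y - C.f v
  constructor
  · by_contra hxa
    have h5 : cr A X ≠ 0 := hne a x hva hvx (Ne.symm hxa)
    rcases lt_or_gt_of_ne h5 with h6 | h6
    · have h7 : 0 < cr X A := by rw [cr_swap]; linarith
      have h8 := cr_plu X A u Y
      have h9 : 0 < cr X u * cr A Y := by
        have := mul_pos h7 h4
        have := mul_pos hxy h1
        linarith
      exact hno' a h.va h7 ((mul_pos_iff_of_pos_left h3).1 h9)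
    · have h8 := cr_plu A X u B
      have h9 : 0 < cr A u * cr X B := by
        have := mul_pos h6 h2
        have := mul_pos hab h3
        linarith
      exact hno x h'.va h6 ((mul_pos_iff_of_pos_left h1).1 h9)
  · by_contra hyb
    have h5 : cr B Y ≠ 0 := hne b y hvb hvy (Ne.symm hyb)
    rcases lt_or_gt_of_ne h5 with h6 | h6
    · have h7 : 0 < cr Y B := by rw [cr_swap]; linarith
      have h8 := cr_plu A u Y B
      have h9 : 0 < cr u B * cr A Y := by
        have := mul_pos h1 h7
        have := mul_pos hab h4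
        linarith
      exact hno y h'.vb ((mul_pos_iff_of_pos_left h2).1 h9) h7
    · have h8 := cr_plu X u B Y
      have h9 : 0 < cr u Y * cr X B := by
        have := mul_pos h3 h6
        have := mul_pos hxy h2
        linarith
      exact hno' b h.vb ((mul_pos_iff_of_pos_left h4).1 h9) h6

open Filter Topology in
omit [Finite P] in
theorem ev_ne (c d : ℝ) (h : c ≠ 0 ∨ d ≠ 0) : ∀ᶠ t in 𝓝[>] (0 : ℝ), c + t * d ≠ 0 := by
  by_cases hc : c = 0
  · have hd := h.resolve_left (fun h => h hc)
    filter_upwards [self_mem_nhdsWithin] with t ht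
    rw [hc, zero_add]
    exact mul_ne_zero (ne_of_gt ht) hd
  · have hcont : ContinuousAt (fun t : ℝ => c + t * d) 0 := by fun_prop
    have h1 : ∀ᶠ t in 𝓝 (0 : ℝ), c + t * d ≠ 0 := by
      apply hcont.eventually_ne
      simpa using hc
    exact h1.filter_mono nhdsWithin_le_nhds

open Filter Topology in
theorem stepB (C : Conf P) {H : SimpleGraph P} (hH : PS C H) {v a b : P} (hv : C.Inner v)
    (h : Nx C H v a b) (hn : ¬ ET C H v a b) :
    ∃ C' : Conf (Option P), Ext C H C' (addV H {v, a, b}) some ∧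
      ET C' (addV H {v, a, b}) (some v) (some a) none ∧
      ET C' (addV H {v, a, b}) (some v) none (some b) := by
  have hab := h.pos
  rw [D_eq_cr] at hab
  have hva := h.va.ne
  have hvb := h.vb.ne
  have hne : ∀ p q, v ≠ p → v ≠ q → p ≠ q → cr (C.f p - C.f v) (C.f q - C.f v) ≠ 0 := by
    intro p q hp hq hpq
    rw [← D_eq_cr]
    exact C.gp.ne3 v p q hp hpq hq
  obtain ⟨t, ht, ht1, htw⟩ : ∃ t : ℝ, 0 < t ∧
      (C.f a - C.f v).1 + t * (C.f b - C.f v).1 ≠ 0 ∧
      ∀ w, w ≠ v → cr (C.f a - C.f v) (C.f w - C.f v) +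
        t * cr (C.f b - C.f v) (C.f w - C.f v) ≠ 0 := by
    have h1 := ev_ne (C.f a - C.f v).1 (C.f b - C.f v).1 (Or.inr (by
      rw [Prod.fst_sub]
      exact sub_ne_zero.2 (C.gp.ne1 b v hvb.symm)))
    have h2 : ∀ᶠ t in 𝓝[>] (0 : ℝ), ∀ w, w ≠ v → cr (C.f a - C.f v) (C.f w - C.f v) +
        t * cr (C.f b - C.f v) (C.f w - C.f v) ≠ 0 := by
      rw [Filter.eventually_all]
      intro w
      by_cases hw : w = v
      · exact Filter.Eventually.of_forall fun t h => absurd hw h
      have h3 := ev_ne (cr (C.f a - C.f v) (C.f w - C.f v)) (cr (C.f b - C.f v) (C.f w - C.f v)) (by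
        by_cases hwb : w = b
        · left
          rw [hwb]
          exact ne_of_gt hab
        · right
          exact hne b w hvb (Ne.symm hw) (Ne.symm hwb))
      exact h3.mono fun t ht _ => ht
    obtain ⟨t, h3, h4, h5⟩ := (h1.and (h2.and self_mem_nhdsWithin)).exists
    exact ⟨t, h5, h3, h4⟩
  set A := C.f a - C.f v with hA
  set B := C.f b - C.f v with hB
  set u : Pl := A + t • B with hu
  have hcru : ∀ W : Pl, cr u W = cr A W + t * cr B W := by
    intro W
    simp only [hu, cr, Prod.fst_add, Prod.snd_add, Prod.smul_fst, Prod.smul_snd, smul_eq_mul]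
    ring
  have hAu : 0 < cr A u := by
    have : cr A u = t * cr A B := by
      simp only [hu, cr, Prod.fst_add, Prod.snd_add, Prod.smul_fst, Prod.smul_snd, smul_eq_mul]
      ring
    rw [this]
    exact mul_pos ht hab
  have huB : 0 < cr u B := by
    rw [hcru, cr_self, mul_zero, add_zero]
    exact hab
  have hgen : Gen C v u := by
    refine ⟨?_, fun w hw => ?_⟩
    · simpa [hu] using ht1
    · rw [hcru]
      exact htw w hw
  have hno : ∀ w, H.Adj v w → 0 < cr A (C.f w - C.f v) → 0 < cr (C.f w - C.f v) B → False := by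
    intro w hw h5 h6
    refine h.no w hw ⟨?_, ?_⟩
    · rw [D_eq_cr]; exact h5
    · rw [D_eq_cr]; exact h6
  obtain ⟨C', ε, hε, hf, hext, hemp⟩ := core C hH hv hgen (S := {a, b}) (by
    rintro w (rfl | rfl)
    · exact h.va
    · exact h.vb) (by
    rintro w (rfl | rfl) x hx hbtw
    · rcases hbtw with ⟨h1, -, -⟩ | ⟨-, h2, h3⟩
      · rw [cr_swap] at h1
        linarith
      · have h4 : 0 < cr (C.f x - C.f v) u := by rw [cr_swap]; linarith
        have h5 : 0 < cr A (C.f x - C.f v) := by rw [cr_swap]; linarith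
        have h8 := cr_plu A (C.f x - C.f v) u B
        have h9 : 0 < cr A u * cr (C.f x - C.f v) B := by
          have := mul_pos h5 huB
          have := mul_pos hab h4
          linarith
        exact hno x hx h5 ((mul_pos_iff_of_pos_left hAu).1 h9)
    · rcases hbtw with ⟨-, h2, h3⟩ | ⟨h1, -, -⟩
      · have h8 := cr_plu A u (C.f x - C.f v) B
        have h9 : 0 < cr u B * cr A (C.f x - C.f v) := by
          have := mul_pos hAu h3
          have := mul_pos hab h2
          linarith
        exact hno x hx ((mul_pos_iff_of_pos_left huB).1 h9) h3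
      · exact absurd h1 (not_lt.2 huB.le)) (by
    rintro x y hxy ⟨h1, h2⟩
    obtain ⟨rfl, rfl⟩ := nx_et_unique C h (et_no C hH.cf hxy) hAu huB h1 h2
    exact hn hxy)
  have hfv : C'.f (some v) = C.f v := by rw [hf]; rfl
  have hfa : C'.f (some a) = C.f a := by rw [hf]; rfl
  have hfb : C'.f (some b) = C.f b := by rw [hf]; rfl
  have hfn : C'.f none = C.f v + ε • u := by rw [hf]; rfl
  refine ⟨C', hext, ⟨?_, h.va, ?_, ?_, fun q => (hemp a q).1⟩, ⟨?_, ?_, ?_, h.vb.symm,
    fun q => (hemp b q).2⟩⟩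
  · rw [hfv, hfa, hfn, D_swap', core_D, cr_swap]
    have := mul_pos hε hAu
    change 0 < -(ε * -cr A u)
    linarith
  · exact Or.inr (Or.inl rfl)
  · exact Or.inl rfl
  · rw [hfv, hfb, hfn, core_D]
    exact mul_pos hε huB
  · exact Or.inl rfl
  · exact Or.inr (Or.inr rfl)

end B306
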