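import Mathlib

/-!
# MP_b306af: combinatorial triangulations of closed surfaces

`T.face a b c` : `a b c` is an oriented triangle.  Every dart `(a, b)` with `a ~ b` is in exactly
one oriented triangle `a b c`.
-/

namespace B306

/-- connected triangulated closed oriented surface (simple graph) -/
structure Tri (V : Type) where
  face : V → V → V → Prop
  cyc : ∀ a b c, face a b c → face b c a
  ne : ∀ a b c, face a b c → a ≠ b
  uniq : ∀ a b c c', face a b c → face a b c' → c = c'
  opp : ∀ a b c, face a b c → ∃ d, face b a d
  link : ∀ (v : V) (A : Set V), (∃ a ∈ A, ∃ c, face v a c) →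
    (∀ a c, a ∈ A → face v a c → c ∈ A) → ∀ b c, face v b c → b ∈ A
  conn : ∀ A : Set V, A.Nonempty → (∀ a b c, face a b c → a ∈ A → b ∈ A) → A = Set.univ

variable {V : Type}

/-- the graph of a triangulation -/
def Tri.G (T : Tri V) : SimpleGraph V where
  Adj a b := ∃ c, T.face a b c
  symm := ⟨fun a b ⟨c, h⟩ => T.opp a b c h⟩
  loopless := ⟨fun a ⟨c, h⟩ => T.ne a a c h rfl⟩

/-- the oriented triangles -/
def Tri.F (T : Tri V) : Set (V × V × V) := {t | T.face t.1 t.2.1 t.2.2}

/-- Euler characteristic 2: the number of oriented triangles (three for each face) is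
`3 (2 n - 4)` -/
def Tri.Sph (T : Tri V) : Prop := T.F.ncard + 12 = 6 * Nat.card V

/-- mod 2 cocycles: symmetric functions on darts with sum `0` on every triangle -/
structure Tri.Coc (T : Tri V) (c : V → V → ZMod 2) : Prop where
  symm : ∀ a b, c a b = c b a
  face : ∀ a b x, T.face a b x → c a b + c b x + c x a = 0

end B306
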