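import Pool.Agent.Lib_MP_b306af.GMx1
import Pool.Agent.Lib_MP_b306af.GMx2
import Pool.Agent.Lib_MP_b306af.GMx3
import Pool.Agent.Lib_MP_b306af.TDefs

/-! # MP_b306af, Part II: empty triangles at the darts -/

namespace B306

variable {P : Type}

/-- oriented triangles: the empty triangles, and the outer one with reversed orientation -/
def gface (C : Conf P) (T : SimpleGraph P) (a b c : P) : Prop :=
  ET C T a b c ∨ (a = C.o1 ∧ b = C.o3 ∧ c = C.o2) ∨ (a = C.o3 ∧ b = C.o2 ∧ c = C.o1) ∨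
    (a = C.o2 ∧ b = C.o1 ∧ c = C.o3)

/-- the outer boundary darts (outer side) -/
def OD (C : Conf P) (a b : P) : Prop :=
  (a = C.o1 ∧ b = C.o3) ∨ (a = C.o3 ∧ b = C.o2) ∨ (a = C.o2 ∧ b = C.o1)

/- Piece TRI1 (`et_next`, `et_prev`, `et_uniq`).  Let `T.Adj v a`, not an outer dart.
`et_next`: some neighbour `b` of `v` has `0 < D v a b`: for `v` inner by `mx_half` with
`u = a - v`; for `v = o1`: if `a ≠ o3` then `b = o3` (`0 < D o1 a o3`: for `a = o2` this is `pos`, for `a`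
inner it is `ins`: `D o3 o1 a`), similarly for `o2`, `o3`.  Then `exists_nx` and `mx_et`.
`et_prev`: the same from the other side: `v` inner: `mx_half` with `u = v - a`.  If `(a, v)` is not an
outer dart.  `et_uniq`: from `et_no` and `nx_unique`. -/

private theorem tri1_ne (C : Conf P) {a v : P} (h : a ≠ v) : C.f a - C.f v ≠ 0 := by
  intro h0
  exact C.gp.ne1 a v h (by rw [sub_eq_zero.1 h0])

private theorem tri1_o12 (C : Conf P) {b : P} (h1 : b ≠ C.o1) (h2 : b ≠ C.o2) :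
    0 < D (C.f C.o1) (C.f C.o2) (C.f b) := by
  by_cases h3 : b = C.o3
  · rw [h3]; exact C.pos
  · exact (C.ins b h1 h2 h3).1

private theorem tri1_o23 (C : Conf P) {b : P} (h2 : b ≠ C.o2) (h3 : b ≠ C.o3) :
    0 < D (C.f C.o2) (C.f C.o3) (C.f b) := by
  by_cases h1 : b = C.o1
  · rw [h1, ← D_cyc]; exact C.pos
  · exact (C.ins b h1 h2 h3).2.1

private theorem tri1_o31 (C : Conf P) {b : P} (h1 : b ≠ C.o1) (h3 : b ≠ C.o3) :
    0 < D (C.f C.o3) (C.f C.o1) (C.f b) := by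
  by_cases h2 : b = C.o2
  · rw [h2, ← D_cyc']; exact C.pos
  · exact (C.ins b h1 h2 h3).2.2

theorem et_next [Finite P] (C : Conf P) {T : SimpleGraph P} (hT : Mx C T) {v a : P}
    (h : T.Adj v a) (ho : ¬ OD C v a) : ∃ b, ET C T v a b := by
  have hne : a ≠ v := h.ne'
  have key : ∃ b, T.Adj v b ∧ 0 < D (C.f v) (C.f a) (C.f b) := by
    by_cases h1 : v = C.o1
    · subst h1
      refine ⟨C.o3, hT.e31.symm, ?_⟩
      rw [← D_cyc]
      exact tri1_o31 C hne fun h2 => ho (Or.inl ⟨rfl, h2⟩)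
    by_cases h2 : v = C.o2
    · subst h2
      refine ⟨C.o1, hT.e12.symm, ?_⟩
      rw [← D_cyc]
      exact tri1_o12 C (fun h3 => ho (Or.inr (Or.inr ⟨rfl, h3⟩))) hne
    by_cases h3 : v = C.o3
    · subst h3
      refine ⟨C.o2, hT.e23.symm, ?_⟩
      rw [← D_cyc]
      exact tri1_o23 C (fun h4 => ho (Or.inr (Or.inl ⟨rfl, h4⟩))) hne
    obtain ⟨w, hw, hw'⟩ := mx_half C hT (v := v) ⟨h1, h2, h3⟩ (tri1_ne C hne)
    exact ⟨w, hw, by rw [D_eq_cr]; exact hw'⟩
  obtain ⟨b, hb⟩ := exists_nx C T h key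
  exact ⟨b, mx_et C hT hb⟩

theorem et_prev [Finite P] (C : Conf P) {T : SimpleGraph P} (hT : Mx C T) {v b : P}
    (h : T.Adj v b) (ho : ¬ OD C b v) : ∃ a, ET C T v a b := by
  have hne : b ≠ v := h.ne'
  have key : ∃ a, T.Adj v a ∧ 0 < D (C.f v) (C.f a) (C.f b) := by
    by_cases h1 : v = C.o1
    · subst h1
      exact ⟨C.o2, hT.e12, tri1_o12 C hne fun h2 => ho (Or.inr (Or.inr ⟨h2, rfl⟩))⟩
    by_cases h2 : v = C.o2
    · subst h2
      exact ⟨C.o3, hT.e23, tri1_o23 C hne fun h3 => ho (Or.inr (Or.inl ⟨h3, rfl⟩))⟩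
    by_cases h3 : v = C.o3
    · subst h3
      exact ⟨C.o1, hT.e31, tri1_o31 C (fun h4 => ho (Or.inl ⟨h4, rfl⟩)) hne⟩
    obtain ⟨w, hw, hw'⟩ := mx_half C hT (v := v) ⟨h1, h2, h3⟩ (tri1_ne C hne.symm)
    refine ⟨w, hw, ?_⟩
    rw [D_eq_cr, cr_swap]
    have h4 : cr (C.f v - C.f b) (C.f w - C.f v) = - cr (C.f b - C.f v) (C.f w - C.f v) := by
      unfold cr
      simp only [Prod.fst_sub, Prod.snd_sub]
      ring
    rw [h4] at hw'
    exact hw'
  obtain ⟨a, ha⟩ := exists_nx' C T h key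
  exact ⟨a, mx_et C hT ha⟩

private theorem tri1_no (C : Conf P) {H : SimpleGraph P} (hH : CF H C.f) {v x y : P}
    (h : ET C H v x y) : Nx C H v x y := by
  refine ⟨h.ab, h.ca.symm, h.pos, ?_⟩
  rintro w hw ⟨h1, h2⟩
  have hwx : w ≠ x := by
    rintro rfl
    rw [D_self'] at h1
    exact lt_irrefl _ h1
  have hwy : w ≠ y := by
    rintro rfl
    rw [D_self'] at h2
    exact lt_irrefl _ h2
  have h3 : D (C.f x) (C.f y) (C.f w) ≠ 0 := C.gp.ne3 x y w h.bc.ne hwy.symm hwx.symm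
  have h4 : ¬ 0 < D (C.f x) (C.f y) (C.f w) := by
    intro h5
    refine h.emp w ⟨h1, h5, ?_⟩
    rw [D_cyc]
    exact h2
  have h5 : D (C.f x) (C.f y) (C.f w) < 0 := lt_of_le_of_ne (not_lt.1 h4) h3
  refine hH v w x y hw h.bc ⟨?_, ?_⟩
  · rw [D_swap']
    nlinarith
  · have h6 : 0 < D (C.f x) (C.f y) (C.f v) := by
      rw [← D_cyc]
      exact h.pos
    nlinarith

theorem et_uniq (C : Conf P) {T : SimpleGraph P} (hT : CF T C.f) {v a b b' : P}
    (h : ET C T v a b) (h' : ET C T v a b') : b = b' :=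
  nx_unique C T (tri1_no C hT h) (tri1_no C hT h')

/- Piece TRI2 (`no_et_outer`): an empty triangle has no outer dart: `D o1 o3 c > 0` is impossible,
because `D o3 o1 c > 0` for `c` inner and for `c = o2` (`pos`), and it is `0` for `c = o1, o3`. -/

theorem no_et_outer (C : Conf P) {T : SimpleGraph P} {a b c : P} (h : ET C T a b c) :
    ¬ OD C a b := by
  have hp := h.pos
  rintro (⟨rfl, rfl⟩ | ⟨rfl, rfl⟩ | ⟨rfl, rfl⟩)
  · by_cases h1 : c = C.o1
    · rw [h1, D_self''] at hp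
      exact lt_irrefl _ hp
    by_cases h3 : c = C.o3
    · rw [h3, D_self'] at hp
      exact lt_irrefl _ hp
    have := tri1_o31 C h1 h3
    rw [D_swap] at hp
    linarith
  · by_cases h1 : c = C.o3
    · rw [h1, D_self''] at hp
      exact lt_irrefl _ hp
    by_cases h3 : c = C.o2
    · rw [h3, D_self'] at hp
      exact lt_irrefl _ hp
    have := tri1_o23 C h3 h1
    rw [D_swap] at hp
    linarith
  · by_cases h1 : c = C.o2
    · rw [h1, D_self''] at hp
      exact lt_irrefl _ hp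
    by_cases h3 : c = C.o1
    · rw [h3, D_self'] at hp
      exact lt_irrefl _ hp
    have := tri1_o12 C h3 h1
    rw [D_swap] at hp
    linarith

end B306
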