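import Pool.Agent.Lib_MP_b306af.GTri1

/-! # MP_b306af, Part II: the faces at a vertex form one cycle -/

namespace B306

variable {P : Type}

/- Piece TRI3 (`reach`): `A` closed under `a ↦ c` for faces `v a c`.
For `v` inner all faces at `v` are empty triangles.  (1) If `a ∈ A`, `w` is a neighbour of `v` with
`0 < D v a w`, then `w ∈ A`: induction on the number of neighbours strictly inside the angle
`(a, w)`: if there is none, `Nx C T v a w`, so `ET v a w` by `mx_et`; otherwise take one, `w'`, and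
apply the induction hypothesis to `(a, w')` and `(w', w)` (the sectors are smaller by Plücker).
(2) Let `a ∈ A` and let `w ≠ a` be any neighbour; if `0 < D v a w` use (1).  Otherwise
`D v a w < 0`.  By `mx_half` (`u = a - v`) there are neighbours `b` with `0 < D v a b`; take the last
one (`0 < D v x b` for all other neighbours `x` with `0 < D v a x`), `b ∈ A` by (1).  If
`0 < D v b w` use (1).  Otherwise `D v b w < 0`.  By `mx_half` (`u = b - v`) there is a neighbour `b''`
with `0 < D v b b''`, `b'' ∈ A` by (1); `D v a b'' > 0` is impossible (`b` is the last), so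
`D v a b'' < 0` (or `b'' = a`, impossible as `D v b a < 0`), and then `0 < D v b'' w`: in the basis
`A = a - v`, `B = b - v`: `B'' = x A + y B` with `x, y < 0`, so `cr B'' W = x cr A W + y cr B W > 0`.
Apply (1) to `b''`.
For `v = o1` (the others are similar): all neighbours `w ≠ o2` have `0 < D v o2 w`, all `w ≠ o3` have
`0 < D v w o3`, and the outer face gives `o3 ∈ A → o2 ∈ A`.  (1) holds as before (with `a`, `w` in the
angle); from `a ∈ A` reach `o3`, then `o2`, then everything. -/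

/-- the neighbours of `v` strictly inside the angle `(a, w)` -/
def TRI3_S (C : Conf P) (T : SimpleGraph P) (v a w : P) : Set P :=
  {x | T.Adj v x ∧ 0 < D (C.f v) (C.f a) (C.f x) ∧ 0 < D (C.f v) (C.f x) (C.f w)}

theorem TRI3_plu {v a x y w : Pl} (h1 : 0 < D v a x) (h2 : 0 < D v a y) (h3 : 0 < D v x y)
    (h4 : 0 < D v a w) (h5 : 0 < D v w x) : 0 < D v w y := by
  -- `a < w < x < y`
  have h := D_plu v a w x y
  have h6 : D v a x * D v w y = D v a w * D v x y + D v a y * D v w x := by linarith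
  have h7 : 0 < D v a x * D v w y := by
    rw [h6]
    exact add_pos (mul_pos h4 h3) (mul_pos h2 h5)
  exact (pos_iff_pos_of_mul_pos h7).1 h1

theorem TRI3_plu' {v a x y w : Pl} (h1 : 0 < D v a x) (h2 : 0 < D v a y) (h3 : 0 < D v x y)
    (h4 : 0 < D v x w) (h5 : 0 < D v w y) : 0 < D v a w := by
  -- `a < x < w < y`
  have h := D_plu v a x w y
  have h6 : D v a w * D v x y = D v a x * D v w y + D v a y * D v x w := by linarith
  have h7 : 0 < D v a w * D v x y := by
    rw [h6]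
    exact add_pos (mul_pos h1 h5) (mul_pos h2 h4)
  exact (pos_iff_pos_of_mul_pos h7).2 h3

/-- one turn by less than `π` -/
theorem TRI3_step [Finite P] (C : Conf P) {T : SimpleGraph P} (hT : Mx C T) (v : P) (A : Set P)
    (hA : ∀ a c, a ∈ A → gface C T v a c → c ∈ A) :
    ∀ n : ℕ, ∀ a w : P, (TRI3_S C T v a w).ncard = n → a ∈ A → T.Adj v a → T.Adj v w →
      0 < D (C.f v) (C.f a) (C.f w) → w ∈ A := by
  intro n
  induction n using Nat.strong_induction_on with
  | _ n ih =>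
    intro a w hn ha hva hvw hD
    by_cases hS : TRI3_S C T v a w = ∅
    · refine hA a w ha (Or.inl (mx_et C hT ⟨hva, hvw, hD, fun x hx h => ?_⟩))
      have : x ∈ TRI3_S C T v a w := ⟨hx, h.1, h.2⟩
      rw [hS] at this
      exact this
    · obtain ⟨x, hx⟩ := Set.nonempty_iff_ne_empty.2 hS
      obtain ⟨hx1, hx2, hx3⟩ := hx
      have s1 : TRI3_S C T v a x ⊂ TRI3_S C T v a w := by
        refine ⟨fun y hy => ⟨hy.1, hy.2.1, TRI3_plu hx2 hD hx3 hy.2.1 hy.2.2⟩, fun h => ?_⟩
        have h1 : x ∈ TRI3_S C T v a x := h ⟨hx1, hx2, hx3⟩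
        have h2 := h1.2.2
        rw [D_self'] at h2
        exact lt_irrefl _ h2
      have s2 : TRI3_S C T v x w ⊂ TRI3_S C T v a w := by
        refine ⟨fun y hy => ⟨hy.1, TRI3_plu' hx2 hD hx3 hy.2.1 hy.2.2, hy.2.2⟩, fun h => ?_⟩
        have h1 : x ∈ TRI3_S C T v x w := h ⟨hx1, hx2, hx3⟩
        have h2 := h1.2.1
        rw [D_self'] at h2
        exact lt_irrefl _ h2
      have hxA : x ∈ A := ih _ (by rw [← hn]; exact Set.ncard_lt_ncard s1 (Set.toFinite _)) a x rfl
        ha hva hx1 hx2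
      exact ih _ (by rw [← hn]; exact Set.ncard_lt_ncard s2 (Set.toFinite _)) x w rfl
        hxA hx1 hvw hx3

/-- the argument at an outer vertex -/
theorem TRI3_outer [Finite P] (C : Conf P) {T : SimpleGraph P} (hT : Mx C T) (v : P) (A : Set P)
    (h0 : ∃ a ∈ A, T.Adj v a) (hA : ∀ a c, a ∈ A → gface C T v a c → c ∈ A) (s l : P)
    (hs : T.Adj v s) (hl : T.Adj v l)
    (h1 : ∀ w, T.Adj v w → w ≠ s → 0 < D (C.f v) (C.f s) (C.f w))
    (h2 : ∀ w, T.Adj v w → w ≠ l → 0 < D (C.f v) (C.f w) (C.f l))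
    (h3 : l ∈ A → s ∈ A) {b : P} (hb : T.Adj v b) : b ∈ A := by
  obtain ⟨a, haA, hva⟩ := h0
  have hlA : l ∈ A := by
    by_cases h : a = l
    · rw [← h]; exact haA
    · exact TRI3_step C hT v A hA _ a l rfl haA hva hl (h2 a hva h)
  have hsA := h3 hlA
  by_cases h : b = s
  · rw [h]; exact hsA
  · exact TRI3_step C hT v A hA _ s b rfl hsA hs hb (h1 b hb h)

theorem reach [Finite P] (C : Conf P) {T : SimpleGraph P} (hT : Mx C T) (v : P) (A : Set P)
    (h0 : ∃ a ∈ A, T.Adj v a) (hA : ∀ a c, a ∈ A → gface C T v a c → c ∈ A) {b : P}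
    (hb : T.Adj v b) : b ∈ A := by
  have hpos := C.pos
  have p2 : 0 < D (C.f C.o2) (C.f C.o3) (C.f C.o1) := by rw [← D_cyc]; exact hpos
  have p3 : 0 < D (C.f C.o3) (C.f C.o1) (C.f C.o2) := by rw [← D_cyc]; exact p2
  by_cases hv1 : v = C.o1
  · subst hv1
    refine TRI3_outer C hT C.o1 A h0 hA C.o2 C.o3 hT.e12 hT.e31.symm (fun w hw hne => ?_)
      (fun w hw hne => ?_) (fun h => hA C.o3 C.o2 h (Or.inr (Or.inl ⟨rfl, rfl, rfl⟩))) hb
    · by_cases h3 : w = C.o3
      · rw [h3]; exact hpos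
      · exact (C.ins w hw.ne' hne h3).1
    · by_cases h3 : w = C.o2
      · rw [h3]; exact hpos
      · rw [D_cyc']
        exact (C.ins w hw.ne' h3 hne).2.2
  by_cases hv2 : v = C.o2
  · subst hv2
    refine TRI3_outer C hT C.o2 A h0 hA C.o3 C.o1 hT.e23 hT.e12.symm (fun w hw hne => ?_)
      (fun w hw hne => ?_) (fun h => hA C.o1 C.o3 h (Or.inr (Or.inr (Or.inr ⟨rfl, rfl, rfl⟩)))) hb
    · by_cases h3 : w = C.o1
      · rw [h3]; exact p2
      · exact (C.ins w h3 hw.ne' hne).2.1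
    · by_cases h3 : w = C.o3
      · rw [h3]; exact p2
      · rw [D_cyc']
        exact (C.ins w hne hw.ne' h3).1
  by_cases hv3 : v = C.o3
  · subst hv3
    refine TRI3_outer C hT C.o3 A h0 hA C.o1 C.o2 hT.e31 hT.e23.symm (fun w hw hne => ?_)
      (fun w hw hne => ?_) (fun h => hA C.o2 C.o1 h (Or.inr (Or.inr (Or.inl ⟨rfl, rfl, rfl⟩)))) hb
    · by_cases h3 : w = C.o2
      · rw [h3]; exact p3
      · exact (C.ins w hne h3 hw.ne').2.2
    · by_cases h3 : w = C.o1
      · rw [h3]; exact p3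
      · rw [D_cyc']
        exact (C.ins w h3 hne hw.ne').2.1
  have hv : C.Inner v := ⟨hv1, hv2, hv3⟩
  have hstep : ∀ a w : P, a ∈ A → T.Adj v a → T.Adj v w → 0 < D (C.f v) (C.f a) (C.f w) → w ∈ A :=
    fun a w => TRI3_step C hT v A hA _ a w rfl
  obtain ⟨a, haA, hva⟩ := h0
  have hne : ∀ x, T.Adj v x → C.f x - C.f v ≠ 0 := by
    intro x hx h
    have h1 : C.f x = C.f v := sub_eq_zero.1 h
    exact C.gp.ne1 v x hx.ne (by rw [h1])
  have hgp : ∀ x y, T.Adj v x → T.Adj v y → x ≠ y → D (C.f v) (C.f x) (C.f y) ≠ 0 :=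
    fun x y hx hy hxy => C.gp.ne3 v x y hx.ne hxy hy.ne
  by_cases hba : b = a
  · rw [hba]; exact haA
  rcases lt_or_gt_of_ne (hgp a b hva hb (Ne.symm hba)) with hab | hab
  swap
  · exact hstep a b haA hva hb hab
  -- the last neighbour of the half plane to the left of `a`
  obtain ⟨c0, hc0, hc0'⟩ := mx_half C hT hv (hne a hva)
  rw [← D_eq_cr] at hc0'
  obtain ⟨c, ⟨hc, hc'⟩, hmax⟩ := Set.exists_max_image
    {x | T.Adj v x ∧ 0 < D (C.f v) (C.f a) (C.f x)} (fun x => (TRI3_S C T v a x).ncard)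
    (Set.toFinite _) ⟨c0, hc0, hc0'⟩
  have hlast : ∀ y, T.Adj v y → 0 < D (C.f v) (C.f a) (C.f y) → ¬ 0 < D (C.f v) (C.f c) (C.f y) := by
    intro y hy hy1 hy2
    have h1 := hmax y ⟨hy, hy1⟩
    have h2 : TRI3_S C T v a c ⊂ TRI3_S C T v a y := by
      refine ⟨fun x hx => ⟨hx.1, hx.2.1, TRI3_plu hc' hy1 hy2 hx.2.1 hx.2.2⟩, fun h => ?_⟩
      have h3 : c ∈ TRI3_S C T v a c := h ⟨hc, hc', hy2⟩
      have h4 := h3.2.2
      rw [D_self'] at h4
      exact lt_irrefl _ h4
    have h3 := Set.ncard_lt_ncard h2 (Set.toFinite _)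
    exact absurd h3 (not_lt.2 h1)
  have hcA : c ∈ A := hstep a c haA hva hc hc'
  by_cases hbc : b = c
  · rw [hbc]; exact hcA
  rcases lt_or_gt_of_ne (hgp c b hc hb (Ne.symm hbc)) with hcb | hcb
  swap
  · exact hstep c b hcA hc hb hcb
  obtain ⟨e, he, he'⟩ := mx_half C hT hv (hne c hc)
  rw [← D_eq_cr] at he'
  have heA : e ∈ A := hstep c e hcA hc he he'
  have hea : e ≠ a := by
    rintro rfl
    rw [D_swap'] at he'
    linarith
  have hae : D (C.f v) (C.f a) (C.f e) < 0 := by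
    rcases lt_or_gt_of_ne (hgp a e hva he (Ne.symm hea)) with h | h
    · exact h
    · exact absurd he' (hlast e he h)
  have hplu := D_plu (C.f v) (C.f a) (C.f c) (C.f e) (C.f b)
  have h6 : D (C.f v) (C.f a) (C.f c) * D (C.f v) (C.f e) (C.f b) =
      D (C.f v) (C.f a) (C.f e) * D (C.f v) (C.f c) (C.f b) -
        D (C.f v) (C.f a) (C.f b) * D (C.f v) (C.f c) (C.f e) := by linarith
  have h7 : 0 < D (C.f v) (C.f a) (C.f c) * D (C.f v) (C.f e) (C.f b) := by
    rw [h6]
    have q1 := mul_pos_of_neg_of_neg hae hcb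
    have q2 := mul_neg_of_neg_of_pos hab he'
    linarith
  have h8 : 0 < D (C.f v) (C.f e) (C.f b) := (pos_iff_pos_of_mul_pos h7).1 hc'
  exact hstep e b heA he hb h8

end B306
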