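import Pool.Agent.Lib_MP_b306af.GTri3

/-! # MP_b306af, Part II: the triangulation -/

namespace B306

variable {P : Type}

/- Piece TRI4 (`gtri`): the structure.  `cyc`: `ET.rot`.  `uniq`: `et_uniq`, `no_et_outer`.
`opp`: if `gface a b c` then `T.Adj b a`; if `(b, a)` is an outer dart use the outer face, otherwise
`et_next`.  `conn`: a set `A` closed under adjacency and non-empty contains with an inner vertex
`v` a neighbour with larger abscissa (`mx_half` with `u = (0, -1)`: `cr (0,-1) (w - v) =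
w.1 - v.1`), so by finiteness (take a point of `A` with maximal abscissa) it contains an outer vertex,
hence all three; applied to the complement (also closed under adjacency) this gives
`A = univ`. -/

theorem gface_adj (C : Conf P) {T : SimpleGraph P} (hT : PS C T) {a b c : P}
    (h : gface C T a b c) : T.Adj a b := by
  rcases h with h | ⟨rfl, rfl, rfl⟩ | ⟨rfl, rfl, rfl⟩ | ⟨rfl, rfl, rfl⟩
  · exact h.ab
  · exact hT.e31.symm
  · exact hT.e23.symm
  · exact hT.e12.symm

theorem adj_gface [Finite P] (C : Conf P) {T : SimpleGraph P} (hT : Mx C T) {a b : P}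
    (h : T.Adj a b) : ∃ c, gface C T a b c := by
  by_cases ho : OD C a b
  · rcases ho with ⟨rfl, rfl⟩ | ⟨rfl, rfl⟩ | ⟨rfl, rfl⟩
    · exact ⟨C.o2, Or.inr (Or.inl ⟨rfl, rfl, rfl⟩)⟩
    · exact ⟨C.o1, Or.inr (Or.inr (Or.inl ⟨rfl, rfl, rfl⟩))⟩
    · exact ⟨C.o3, Or.inr (Or.inr (Or.inr ⟨rfl, rfl, rfl⟩))⟩
  · obtain ⟨c, hc⟩ := et_next C hT h ho
    exact ⟨c, Or.inl hc⟩

private theorem gface_cyc (C : Conf P) {T : SimpleGraph P} {a b c : P} (h : gface C T a b c) :
    gface C T b c a := by
  rcases h with h | ⟨rfl, rfl, rfl⟩ | ⟨rfl, rfl, rfl⟩ | ⟨rfl, rfl, rfl⟩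
  · exact Or.inl h.rot
  · exact Or.inr (Or.inr (Or.inl ⟨rfl, rfl, rfl⟩))
  · exact Or.inr (Or.inr (Or.inr ⟨rfl, rfl, rfl⟩))
  · exact Or.inr (Or.inl ⟨rfl, rfl, rfl⟩)

private theorem gface_od (C : Conf P) {T : SimpleGraph P} {a b c : P} (h : gface C T a b c) :
    ET C T a b c ∨ OD C a b := by
  rcases h with h | ⟨h1, h2, _⟩ | ⟨h1, h2, _⟩ | ⟨h1, h2, _⟩
  · exact Or.inl h
  · exact Or.inr (Or.inl ⟨h1, h2⟩)
  · exact Or.inr (Or.inr (Or.inl ⟨h1, h2⟩))
  · exact Or.inr (Or.inr (Or.inr ⟨h1, h2⟩))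

private theorem gface_uniq (C : Conf P) {T : SimpleGraph P} (hT : PS C T) {a b c c' : P}
    (h : gface C T a b c) (h' : gface C T a b c') : c = c' := by
  have n12 := hT.e12.ne
  have n23 := hT.e23.ne
  have n31 := hT.e31.ne
  by_cases ho : OD C a b
  · rcases h with h | h
    · exact absurd ho (no_et_outer C h)
    rcases h' with h' | h'
    · exact absurd ho (no_et_outer C h')
    rcases h with ⟨h1, h2, h3⟩ | ⟨h1, h2, h3⟩ | ⟨h1, h2, h3⟩ <;>
    rcases h' with ⟨k1, k2, k3⟩ | ⟨k1, k2, k3⟩ | ⟨k1, k2, k3⟩ <;>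
    first
    | exact h3.trans k3.symm
    | exact absurd (h1.symm.trans k1) n12
    | exact absurd (h1.symm.trans k1) n23
    | exact absurd (h1.symm.trans k1) n31
    | exact absurd (h1.symm.trans k1) n12.symm
    | exact absurd (h1.symm.trans k1) n23.symm
    | exact absurd (h1.symm.trans k1) n31.symm
  · rcases gface_od C h with h | h
    · rcases gface_od C h' with h' | h'
      · exact et_uniq C hT.cf h h'
      · exact absurd h' ho
    · exact absurd h ho

private theorem closed_o1 [Finite P] (C : Conf P) {T : SimpleGraph P} (hT : Mx C T) {A : Set P}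
    (hne : A.Nonempty) (hA : ∀ a b, T.Adj a b → a ∈ A → b ∈ A) : C.o1 ∈ A := by
  obtain ⟨x, hx, hmax⟩ := Set.exists_max_image A (fun p => (C.f p).1) (Set.toFinite A) hne
  by_cases hin : C.Inner x
  · have hu : ((0, -1) : Pl) ≠ 0 := by
      intro h
      have := congrArg Prod.snd h
      norm_num at this
    obtain ⟨w, hw, hcr⟩ := mx_half C hT hin hu
    have h1 := hmax w (hA x w hw hx)
    unfold cr at hcr
    simp only [Prod.fst_sub, Prod.snd_sub] at hcr
    have h2 : (C.f w).1 ≤ (C.f x).1 := h1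
    linarith
  · unfold Conf.Inner at hin
    by_cases h1 : x = C.o1
    · rwa [h1] at hx
    by_cases h2 : x = C.o2
    · rw [h2] at hx
      exact hA _ _ hT.e12.symm hx
    by_cases h3 : x = C.o3
    · rw [h3] at hx
      exact hA _ _ hT.e31 hx
    exact absurd ⟨h1, h2, h3⟩ hin

theorem gtri [Finite P] (C : Conf P) {T : SimpleGraph P} (hT : Mx C T) :
    ∃ T' : Tri P, (∀ a b c, T'.face a b c ↔ gface C T a b c) ∧ T'.G = T := by
  refine ⟨{ face := gface C T
            cyc := fun a b c h => gface_cyc C h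
            ne := fun a b c h => (gface_adj C hT.toPS h).ne
            uniq := fun a b c c' h h' => gface_uniq C hT.toPS h h'
            opp := fun a b c h => adj_gface C hT (gface_adj C hT.toPS h).symm
            link := fun v A h0 hA b c h => ?_
            conn := fun A hne hA => ?_ }, fun a b c => Iff.rfl, ?_⟩
  · obtain ⟨a, ha, c', hc'⟩ := h0
    exact reach C hT v A ⟨a, ha, gface_adj C hT.toPS hc'⟩ hA (gface_adj C hT.toPS h)
  · have hadj : ∀ a b, T.Adj a b → a ∈ A → b ∈ A := by
      intro a b hab ha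
      obtain ⟨c, hc⟩ := adj_gface C hT hab
      exact hA a b c hc ha
    have h1 := closed_o1 C hT hne hadj
    by_contra hne'
    have h2 : Aᶜ.Nonempty := Set.nonempty_compl.2 hne'
    have h3 := closed_o1 C hT h2 (fun a b hab ha hb => ha (hadj b a hab.symm hb))
    exact h3 h1
  · ext a b
    constructor
    · rintro ⟨c, hc⟩
      exact gface_adj C hT.toPS hc
    · intro h
      exact adj_gface C hT h

end B306
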