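import Pool.Agent.Lib_MP_b306af.GTri4

/-! # MP_b306af, Part II: counting triangles -/

namespace B306

variable {P : Type}

/- Piece TRI5 (`gtri_sph`): counting.  For every empty triangle exactly one of its three rotations
`(v, a, b)` has its first vertex in the middle: `a.1 < v.1 < b.1` or `b.1 < v.1 < a.1` (distinct
abscissas).  Let `n = |P|`.  For `v` inner there is exactly one empty triangle `(v, a, b)` with
`b.1 < v.1 < a.1` and exactly one with `a.1 < v.1 < b.1`: existence (first kind): by `mx_half`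
(`u = (0,-1)` and `u = (0,1)`) there are neighbours on both sides; among the neighbours with
`v.1 < a.1` let `a` be the last one in the counterclockwise order (`0 < D v x a` for the others, i.e.
the largest slope); by `et_next` (`v` inner) there is `b` with `ET v a b`; `v.1 < b.1` is impossible, so
`b.1 < v.1`.  Uniqueness: if `ET v a b`, `ET v a' b'` are both of the first kind, the vertical vector
`u = (0, 1)` is strictly inside both angles (`cr A u = A.1 > 0`, `cr u B = -B.1 > 0`), so they are equal by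
`nx_et_unique`.  For the outer vertices: let `m` be the one whose abscissa is in the middle, `l` the left
one, `r` the right one; at `l` all neighbours are on the right, at `r` all on the left: no such
triangle.  At `m`: exactly one in total: if `r` follows `m` counterclockwise (the darts `(m, r)`,
`(r, l)`, `(l, m)` are inner: `0 < D m r l`) then all other points are inside the angle
`(r, l)` at `m`, which contains the upward vertical direction and not the downward one: exactly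
one of the first kind (existence as above) and none of the second; in the other case
symmetric.  Hence the number of triangles is `2 (n - 3) + 1`, and the number of elements of `F` is
`3 (2 n - 5) + 3`. -/

/-- rotation of triples -/
private def t5rot (t : P × P × P) : P × P × P := (t.2.1, t.2.2, t.1)

private theorem t5rot_inj : Function.Injective (t5rot (P := P)) := by
  rintro ⟨a, b, c⟩ ⟨a', b', c'⟩ h
  simp only [t5rot, Prod.mk.injEq] at h
  obtain ⟨h1, h2, h3⟩ := h
  rw [h1, h2, h3]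

private theorem t5rot_surj : Function.Surjective (t5rot (P := P)) :=
  fun ⟨a, b, c⟩ => ⟨(c, a, b), rfl⟩

private theorem t5_three [Finite P] (E M : Set (P × P × P)) (hM : M ⊆ E)
    (hrot : ∀ t ∈ E, t5rot t ∈ E)
    (hex : ∀ t ∈ E, t ∈ M ∨ t5rot t ∈ M ∨ t5rot (t5rot t) ∈ M)
    (h12 : ∀ t ∈ M, t5rot t ∉ M) (h13 : ∀ t ∈ M, t5rot (t5rot t) ∉ M) :
    E.ncard = 3 * M.ncard := by
  have hE : E = M ∪ (t5rot ⁻¹' M ∪ (t5rot ∘ t5rot) ⁻¹' M) := by
    ext t
    constructor
    · intro ht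
      rcases hex t ht with h | h | h
      · exact Or.inl h
      · exact Or.inr (Or.inl h)
      · exact Or.inr (Or.inr h)
    · rintro (h | h | h)
      · exact hM h
      · have h1 := hrot _ (hrot _ (hM h))
        exact h1
      · have h1 := hrot _ (hM h)
        exact h1
  have hd2 : Disjoint (t5rot ⁻¹' M) ((t5rot ∘ t5rot) ⁻¹' M) := by
    rw [Set.disjoint_left]
    intro t h1 h2
    exact h12 _ h1 h2
  have hd1 : Disjoint M (t5rot ⁻¹' M ∪ (t5rot ∘ t5rot) ⁻¹' M) := by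
    rw [Set.disjoint_left]
    rintro t h1 (h2 | h2)
    · exact h12 _ h1 h2
    · exact h13 _ h1 h2
  have hc1 : (t5rot ⁻¹' M).ncard = M.ncard := by
    refine Set.ncard_preimage_of_injective_subset_range t5rot_inj ?_
    rw [t5rot_surj.range_eq]
    exact Set.subset_univ _
  have hc2 : ((t5rot ∘ t5rot) ⁻¹' M).ncard = M.ncard := by
    refine Set.ncard_preimage_of_injective_subset_range (t5rot_inj.comp t5rot_inj) ?_
    rw [(t5rot_surj.comp t5rot_surj).range_eq]
    exact Set.subset_univ _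
  have h1 : E.ncard = M.ncard + ((t5rot ⁻¹' M).ncard + ((t5rot ∘ t5rot) ⁻¹' M).ncard) := by
    rw [← Set.ncard_union_eq hd2 (Set.toFinite _) (Set.toFinite _),
      ← Set.ncard_union_eq hd1 (Set.toFinite _) (Set.toFinite _), ← hE]
  rw [h1, hc1, hc2]
  ring

/-- the empty triangles at `v` whose angle contains the direction `u` -/
private def T5M (C : Conf P) (T : SimpleGraph P) (u : Pl) : Set (P × P × P) :=
  {t | ET C T t.1 t.2.1 t.2.2 ∧ 0 < cr (C.f t.2.1 - C.f t.1) u ∧ 0 < cr u (C.f t.2.2 - C.f t.1)}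

private def T5V (C : Conf P) (T : SimpleGraph P) (u : Pl) : Set P :=
  {v | ∃ a b, ET C T v a b ∧ 0 < cr (C.f a - C.f v) u ∧ 0 < cr u (C.f b - C.f v)}

private theorem t5_inj (C : Conf P) {T : SimpleGraph P} (hT : CF T C.f) (u : Pl) :
    (T5M C T u).ncard = (T5V C T u).ncard := by
  have h1 : T5V C T u = Prod.fst '' T5M C T u := by
    ext v
    constructor
    · rintro ⟨a, b, h⟩
      exact ⟨(v, a, b), h, rfl⟩
    · rintro ⟨⟨w, a, b⟩, h, rfl⟩
      exact ⟨a, b, h⟩
  rw [h1, Set.InjOn.ncard_image]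
  rintro ⟨v, a, b⟩ h ⟨v', a', b'⟩ h' hv
  have hv' : v = v' := hv
  subst hv'
  obtain ⟨h2, h3⟩ := nx_et_unique C (et_no C hT h.1) (et_no C hT h'.1) h.2.1 h.2.2 h'.2.1 h'.2.2
  change a' = a at h2
  change b' = b at h3
  rw [h2, h3]

/-- existence: the direction `u` is inside some angle -/
private theorem t5_mem [Finite P] (C : Conf P) {T : SimpleGraph P} (hT : Mx C T) {u : Pl} {v : P}
    (hu : ∀ w, w ≠ v → cr (C.f w - C.f v) u ≠ 0)
    (hR : ∃ w, T.Adj v w ∧ 0 < cr (C.f w - C.f v) u)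
    (ho : ∀ a, T.Adj v a → 0 < cr (C.f a - C.f v) u → ¬ OD C v a) : v ∈ T5V C T u := by
  obtain ⟨a, ⟨ha, ha'⟩, hmax⟩ := Set.exists_max_image
    {x | T.Adj v x ∧ 0 < cr (C.f x - C.f v) u}
    (fun y => ({x | (T.Adj v x ∧ 0 < cr (C.f x - C.f v) u) ∧
      0 < cr (C.f x - C.f v) (C.f y - C.f v)} : Set P).ncard)
    (Set.toFinite _) hR
  obtain ⟨b, hb⟩ := et_next C hT ha (ho a ha ha')
  refine ⟨a, b, hb, ha', ?_⟩
  have hb1 : cr (C.f b - C.f v) u ≠ 0 := hu b hb.ca.ne
  have hb2 : T.Adj v b := hb.ca.symm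
  have hab := hb.pos
  rw [D_eq_cr] at hab
  rcases lt_or_gt_of_ne hb1 with h | h
  · rw [cr_swap]; linarith
  · exfalso
    have h1 := hmax b ⟨hb2, h⟩
    have h2 : ({x | (T.Adj v x ∧ 0 < cr (C.f x - C.f v) u) ∧
      0 < cr (C.f x - C.f v) (C.f a - C.f v)} : Set P) ⊂
      {x | (T.Adj v x ∧ 0 < cr (C.f x - C.f v) u) ∧
      0 < cr (C.f x - C.f v) (C.f b - C.f v)} := by
      refine ⟨?_, fun hs => ?_⟩
      · rintro x ⟨⟨hx1, hx2⟩, hx3⟩
        refine ⟨⟨hx1, hx2⟩, ?_⟩
        have h3 := cr_plu (C.f x - C.f v) (C.f a - C.f v) (C.f b - C.f v) u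
        have h4 := mul_pos hx3 h
        have h5 := mul_pos hx2 hab
        have h6 : 0 < cr (C.f x - C.f v) (C.f b - C.f v) * cr (C.f a - C.f v) u := by linarith
        exact (mul_pos_iff_of_pos_right ha').1 h6
      · have h3 : a ∈ ({x | (T.Adj v x ∧ 0 < cr (C.f x - C.f v) u) ∧
          0 < cr (C.f x - C.f v) (C.f a - C.f v)} : Set P) := hs ⟨⟨ha, ha'⟩, hab⟩
        have h4 := h3.2
        rw [cr_self] at h4
        exact lt_irrefl _ h4
    have h3 := Set.ncard_lt_ncard h2 (Set.toFinite _)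
    exact absurd h3 (not_lt.2 h1)

/-- converse at an outer vertex `v`, whose neighbours are in the angle `(p, q)` -/
private theorem t5_conv (C : Conf P) {T : SimpleGraph P} {u : Pl} {v p q : P}
    (hp : ∀ w, T.Adj v w → w ≠ p → 0 < D (C.f v) (C.f p) (C.f w))
    (hq : ∀ w, T.Adj v w → w ≠ q → 0 < D (C.f v) (C.f w) (C.f q))
    (h : v ∈ T5V C T u) : 0 < cr (C.f p - C.f v) u ∧ 0 < cr u (C.f q - C.f v) := by
  obtain ⟨a, b, hab, h1, h2⟩ := h
  have hpos := hab.pos
  have hva := hab.ab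
  have hvb := hab.ca.symm
  have hbp : b ≠ p := by
    rintro rfl
    by_cases hab' : a = b
    · exact hab.bc.ne hab'
    · have := hp a hva hab'
      rw [D_swap'] at this
      linarith
  have haq : a ≠ q := by
    rintro rfl
    have := hq b hvb hab.bc.ne'
    rw [D_swap'] at this
    linarith
  have hpb := hp b hvb hbp
  have haq' := hq a hva haq
  have hpa : 0 ≤ D (C.f v) (C.f p) (C.f a) := by
    by_cases h3 : a = p
    · rw [h3, D_self']
    · exact (hp a hva h3).le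
  have hbq : 0 ≤ D (C.f v) (C.f b) (C.f q) := by
    by_cases h3 : b = q
    · rw [h3, D_self']
    · exact (hq b hvb h3).le
  rw [D_eq_cr] at hpos hpb haq' hpa hbq
  constructor
  · have h3 := cr_plu (C.f p - C.f v) (C.f a - C.f v) (C.f b - C.f v) u
    have h4 := mul_pos hpb h1
    have h5 := mul_nonneg hpa h2.le
    rw [cr_swap (C.f b - C.f v) u] at h3
    have h6 : 0 < cr (C.f p - C.f v) u * cr (C.f a - C.f v) (C.f b - C.f v) := by linarith
    exact (mul_pos_iff_of_pos_right hpos).1 h6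
  · have h3 := cr_plu (C.f a - C.f v) (C.f b - C.f v) u (C.f q - C.f v)
    have h4 := mul_pos haq' h2
    have h5 := mul_nonneg h1.le hbq
    rw [cr_swap (C.f b - C.f v) u] at h3
    have h6 : 0 < cr (C.f a - C.f v) (C.f b - C.f v) * cr u (C.f q - C.f v) := by linarith
    exact (mul_pos_iff_of_pos_left hpos).1 h6

private theorem t5_inner [Finite P] (C : Conf P) {T : SimpleGraph P} (hT : Mx C T) {u : Pl} {v : P}
    (hv : C.Inner v) (hu0 : u ≠ 0) (hu : ∀ w, w ≠ v → cr (C.f w - C.f v) u ≠ 0) :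
    v ∈ T5V C T u := by
  have hmu : -u ≠ 0 := neg_ne_zero.2 hu0
  obtain ⟨w, hw, hw'⟩ := mx_half C hT hv hmu
  refine t5_mem C hT hu ⟨w, hw, ?_⟩ ?_
  · have : cr (-u) (C.f w - C.f v) = cr (C.f w - C.f v) u := by
      unfold cr
      simp only [Prod.fst_neg, Prod.snd_neg]
      ring
    rw [← this]
    exact hw'
  · rintro a - - (⟨h, -⟩ | ⟨h, -⟩ | ⟨h, -⟩)
    · exact hv.1 h
    · exact hv.2.2 h
    · exact hv.2.1 h

/-- the outer vertices -/
private theorem t5_outer [Finite P] (C : Conf P) {T : SimpleGraph P} (hT : Mx C T) {u : Pl}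
    (hu : ∀ v w, w ≠ v → cr (C.f w - C.f v) u ≠ 0) :
    (C.o1 ∈ T5V C T u ↔ 0 < cr (C.f C.o2 - C.f C.o1) u ∧ 0 < cr u (C.f C.o3 - C.f C.o1)) ∧
    (C.o2 ∈ T5V C T u ↔ 0 < cr (C.f C.o3 - C.f C.o2) u ∧ 0 < cr u (C.f C.o1 - C.f C.o2)) ∧
    (C.o3 ∈ T5V C T u ↔ 0 < cr (C.f C.o1 - C.f C.o3) u ∧ 0 < cr u (C.f C.o2 - C.f C.o3)) := by
  have n12 := hT.e12.ne
  have n23 := hT.e23.ne
  have n31 := hT.e31.ne
  have p1 := C.pos
  have p2 : 0 < D (C.f C.o2) (C.f C.o3) (C.f C.o1) := by rw [← D_cyc]; exact p1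
  have p3 : 0 < D (C.f C.o3) (C.f C.o1) (C.f C.o2) := by rw [← D_cyc]; exact p2
  refine ⟨⟨fun h => t5_conv C ?_ ?_ h, fun h => t5_mem C hT (hu _) ⟨C.o2, hT.e12, h.1⟩ ?_⟩,
    ⟨fun h => t5_conv C ?_ ?_ h, fun h => t5_mem C hT (hu _) ⟨C.o3, hT.e23, h.1⟩ ?_⟩,
    ⟨fun h => t5_conv C ?_ ?_ h, fun h => t5_mem C hT (hu _) ⟨C.o1, hT.e31, h.1⟩ ?_⟩⟩
  · intro w hw hne
    by_cases h3 : w = C.o3
    · rw [h3]; exact p1
    · exact (C.ins w hw.ne' hne h3).1
  · intro w hw hne
    by_cases h3 : w = C.o2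
    · rw [h3]; exact p1
    · rw [D_cyc']
      exact (C.ins w hw.ne' h3 hne).2.2
  · rintro a - ha (⟨-, rfl⟩ | ⟨h1, -⟩ | ⟨h1, -⟩)
    · have h2 := h.2
      rw [cr_swap] at h2
      linarith
    · exact n31 h1.symm
    · exact n12 h1
  · intro w hw hne
    by_cases h3 : w = C.o1
    · rw [h3]; exact p2
    · exact (C.ins w h3 hw.ne' hne).2.1
  · intro w hw hne
    by_cases h3 : w = C.o3
    · rw [h3]; exact p2
    · rw [D_cyc']
      exact (C.ins w hne hw.ne' h3).1
  · rintro a - ha (⟨h1, -⟩ | ⟨h1, -⟩ | ⟨-, rfl⟩)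
    · exact n12 h1.symm
    · exact n23 h1
    · have h2 := h.2
      rw [cr_swap] at h2
      linarith
  · intro w hw hne
    by_cases h3 : w = C.o2
    · rw [h3]; exact p3
    · exact (C.ins w hne h3 hw.ne').2.2
  · intro w hw hne
    by_cases h3 : w = C.o1
    · rw [h3]; exact p3
    · rw [D_cyc']
      exact (C.ins w h3 hne hw.ne').2.1
  · rintro a - ha (⟨h1, -⟩ | ⟨-, rfl⟩ | ⟨h1, -⟩)
    · exact n31 h1
    · have h2 := h.2
      rw [cr_swap] at h2
      linarith
    · exact n23 h1.symm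

open Classical in
private theorem t5_ncard [Finite P] (C : Conf P) (n12 : C.o1 ≠ C.o2) (n23 : C.o2 ≠ C.o3)
    (n31 : C.o3 ≠ C.o1) (S : Set P) (hS : {v | C.Inner v} ⊆ S) :
    S.ncard = ({v | C.Inner v} : Set P).ncard + ((if C.o1 ∈ S then 1 else 0) +
      ((if C.o2 ∈ S then 1 else 0) + (if C.o3 ∈ S then 1 else 0))) := by
  have hone : ∀ o : P, (S ∩ {o}).ncard = if o ∈ S then 1 else 0 := by
    intro o
    split_ifs with h
    · have : S ∩ {o} = {o} := by
        ext x
        constructor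
        · rintro ⟨-, hx⟩; exact hx
        · rintro hx
          have hx' : x = o := hx
          exact ⟨by rw [hx']; exact h, hx⟩
      rw [this, Set.ncard_singleton]
    · have : S ∩ {o} = ∅ := by
        ext x
        constructor
        · rintro ⟨h1, hx⟩
          have hx' : x = o := hx
          rw [hx'] at h1
          exact absurd h1 h
        · rintro ⟨⟩
      rw [this, Set.ncard_empty]
  have hSe : S = {v | C.Inner v} ∪ ((S ∩ {C.o1}) ∪ ((S ∩ {C.o2}) ∪ (S ∩ {C.o3}))) := by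
    ext x
    constructor
    · intro hx
      by_cases h1 : x = C.o1
      · exact Or.inr (Or.inl ⟨hx, h1⟩)
      by_cases h2 : x = C.o2
      · exact Or.inr (Or.inr (Or.inl ⟨hx, h2⟩))
      by_cases h3 : x = C.o3
      · exact Or.inr (Or.inr (Or.inr ⟨hx, h3⟩))
      exact Or.inl ⟨h1, h2, h3⟩
    · rintro (h | h | h | h)
      · exact hS h
      · exact h.1
      · exact h.1
      · exact h.1
  have hd3 : Disjoint (S ∩ {C.o2}) (S ∩ {C.o3}) := by
    rw [Set.disjoint_left]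
    rintro x ⟨-, h1⟩ ⟨-, h2⟩
    have h1' : x = C.o2 := h1
    have h2' : x = C.o3 := h2
    exact n23 (h1'.symm.trans h2')
  have hd2 : Disjoint (S ∩ {C.o1}) ((S ∩ {C.o2}) ∪ (S ∩ {C.o3})) := by
    rw [Set.disjoint_left]
    rintro x ⟨-, h1⟩ (⟨-, h2⟩ | ⟨-, h2⟩)
    · have h1' : x = C.o1 := h1
      have h2' : x = C.o2 := h2
      exact n12 (h1'.symm.trans h2')
    · have h1' : x = C.o1 := h1
      have h2' : x = C.o3 := h2
      exact n31 (h2'.symm.trans h1')
  have hd1 : Disjoint {v | C.Inner v} ((S ∩ {C.o1}) ∪ ((S ∩ {C.o2}) ∪ (S ∩ {C.o3}))) := by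
    rw [Set.disjoint_left]
    rintro x ⟨h1, h2, h3⟩ (⟨-, h⟩ | ⟨-, h⟩ | ⟨-, h⟩)
    · exact h1 h
    · exact h2 h
    · exact h3 h
  rw [← hone, ← hone, ← hone, ← Set.ncard_union_eq hd3 (Set.toFinite _) (Set.toFinite _),
    ← Set.ncard_union_eq hd2 (Set.toFinite _) (Set.toFinite _),
    ← Set.ncard_union_eq hd1 (Set.toFinite _) (Set.toFinite _), ← hSe]

/-- the number of oriented empty triangles -/
private theorem t5_count [Finite P] (C : Conf P) {T : SimpleGraph P} (hT : Mx C T) :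
    ({t | ET C T t.1 t.2.1 t.2.2} : Set (P × P × P)).ncard + 15 = 6 * Nat.card P := by
  classical
  have n12 := hT.e12.ne
  have n23 := hT.e23.ne
  have n31 := hT.e31.ne
  set I : Set P := {v | C.Inner v} with hI
  have hcr1 : ∀ W : Pl, cr W ((0, 1) : Pl) = W.1 := by intro W; simp [cr]
  have hcr2 : ∀ W : Pl, cr ((0, 1) : Pl) W = - W.1 := by intro W; simp [cr]
  have hcr3 : ∀ W : Pl, cr W ((0, -1) : Pl) = - W.1 := by intro W; simp [cr]
  have hcr4 : ∀ W : Pl, cr ((0, -1) : Pl) W = W.1 := by intro W; simp [cr]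
  have hu1 : ∀ v w, w ≠ v → cr (C.f w - C.f v) ((0, 1) : Pl) ≠ 0 := by
    intro v w h
    rw [hcr1, Prod.fst_sub]
    exact sub_ne_zero.2 (C.gp.ne1 w v h)
  have hu2 : ∀ v w, w ≠ v → cr (C.f w - C.f v) ((0, -1) : Pl) ≠ 0 := by
    intro v w h
    rw [hcr3, Prod.fst_sub]
    exact neg_ne_zero.2 (sub_ne_zero.2 (C.gp.ne1 w v h))
  have hu10 : ((0, 1) : Pl) ≠ 0 := by
    intro h
    have := congrArg Prod.snd h
    norm_num at this
  have hu20 : ((0, -1) : Pl) ≠ 0 := by
    intro h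
    have := congrArg Prod.snd h
    norm_num at this
  -- the two kinds
  have hV1 := t5_ncard C n12 n23 n31 (T5V C T (0, 1)) (fun v hv => t5_inner C hT hv hu10 (hu1 v))
  have hV2 := t5_ncard C n12 n23 n31 (T5V C T (0, -1)) (fun v hv => t5_inner C hT hv hu20 (hu2 v))
  have hU := t5_ncard C n12 n23 n31 Set.univ (fun v _ => Set.mem_univ v)
  simp only [Set.mem_univ, if_true, Set.ncard_univ] at hU
  obtain ⟨a1, a2, a3⟩ := t5_outer C hT hu1
  obtain ⟨b1, b2, b3⟩ := t5_outer C hT hu2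
  simp only [hcr1, hcr2, hcr3, hcr4, Prod.fst_sub] at a1 a2 a3 b1 b2 b3
  have hsum : (T5V C T (0, 1)).ncard + (T5V C T (0, -1)).ncard = 2 * I.ncard + 1 := by
    rw [hV1, hV2]
    have x12 := C.gp.ne1 _ _ n12
    have x23 := C.gp.ne1 _ _ n23
    have x31 := C.gp.ne1 _ _ n31
    simp only [a1, a2, a3, b1, b2, b3]
    rcases lt_or_gt_of_ne x12 with y12 | y12 <;> rcases lt_or_gt_of_ne x23 with y23 | y23 <;>
      rcases lt_or_gt_of_ne x31 with y31 | y31
    all_goals
      first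
      | (exfalso; linarith)
      | (simp only [neg_sub, sub_pos, y12, y23, y31, not_lt.2 y12.le, not_lt.2 y23.le,
          not_lt.2 y31.le, and_true, and_false, if_true, if_false, hI]; omega)
  -- the middle rotation
  set E : Set (P × P × P) := {t | ET C T t.1 t.2.1 t.2.2} with hE
  set M : Set (P × P × P) := T5M C T (0, 1) ∪ T5M C T (0, -1) with hM
  have hMiff : ∀ a b c, (a, b, c) ∈ M ↔ ET C T a b c ∧
      (((C.f c).1 < (C.f a).1 ∧ (C.f a).1 < (C.f b).1) ∨
        ((C.f b).1 < (C.f a).1 ∧ (C.f a).1 < (C.f c).1)) := by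
    intro a b c
    constructor
    · rintro (⟨h1, h2, h3⟩ | ⟨h1, h2, h3⟩)
      · rw [hcr1, Prod.fst_sub] at h2
        rw [hcr2, Prod.fst_sub] at h3
        exact ⟨h1, Or.inl ⟨by linarith, by linarith⟩⟩
      · rw [hcr3, Prod.fst_sub] at h2
        rw [hcr4, Prod.fst_sub] at h3
        exact ⟨h1, Or.inr ⟨by linarith, by linarith⟩⟩
    · rintro ⟨h1, ⟨h2, h3⟩ | ⟨h2, h3⟩⟩
      · refine Or.inl ⟨h1, ?_, ?_⟩
        · rw [hcr1, Prod.fst_sub]
          linarith
        · rw [hcr2, Prod.fst_sub]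
          linarith
      · refine Or.inr ⟨h1, ?_, ?_⟩
        · rw [hcr3, Prod.fst_sub]
          linarith
        · rw [hcr4, Prod.fst_sub]
          linarith
  have hMcard : M.ncard = 2 * I.ncard + 1 := by
    rw [hM, Set.ncard_union_eq ?_ (Set.toFinite _) (Set.toFinite _), t5_inj C hT.cf,
      t5_inj C hT.cf, hsum]
    rw [Set.disjoint_left]
    rintro ⟨a, b, c⟩ ⟨-, h2, -⟩ ⟨-, h3, -⟩
    rw [hcr1] at h2
    rw [hcr3] at h3
    linarith
  have hEcard : E.ncard = 3 * M.ncard := by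
    refine t5_three E M ?_ ?_ ?_ ?_ ?_
    · rintro ⟨a, b, c⟩ h
      exact ((hMiff a b c).1 h).1
    · rintro ⟨a, b, c⟩ h
      exact ET.rot h
    · rintro ⟨a, b, c⟩ h
      have h' : ET C T a b c := h
      have x12 := C.gp.ne1 _ _ h'.ab.ne
      have x23 := C.gp.ne1 _ _ h'.bc.ne
      have x31 := C.gp.ne1 _ _ h'.ca.ne
      change (a, b, c) ∈ M ∨ (b, c, a) ∈ M ∨ (c, a, b) ∈ M
      rw [hMiff, hMiff, hMiff]
      rcases lt_or_gt_of_ne x12 with y12 | y12 <;> rcases lt_or_gt_of_ne x23 with y23 | y23 <;>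
        rcases lt_or_gt_of_ne x31 with y31 | y31
      all_goals
        first
        | (exfalso; linarith)
        | exact Or.inl ⟨h', Or.inl ⟨by linarith, by linarith⟩⟩
        | exact Or.inl ⟨h', Or.inr ⟨by linarith, by linarith⟩⟩
        | exact Or.inr (Or.inl ⟨h'.rot, Or.inl ⟨by linarith, by linarith⟩⟩)
        | exact Or.inr (Or.inl ⟨h'.rot, Or.inr ⟨by linarith, by linarith⟩⟩)
        | exact Or.inr (Or.inr ⟨h'.rot.rot, Or.inl ⟨by linarith, by linarith⟩⟩)
        | exact Or.inr (Or.inr ⟨h'.rot.rot, Or.inr ⟨by linarith, by linarith⟩⟩)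
    · rintro ⟨a, b, c⟩ h h'
      change (b, c, a) ∈ M at h'
      rw [hMiff] at h h'
      rcases h.2 with ⟨h1, h2⟩ | ⟨h1, h2⟩ <;> rcases h'.2 with ⟨h3, h4⟩ | ⟨h3, h4⟩ <;> linarith
    · rintro ⟨a, b, c⟩ h h'
      change (c, a, b) ∈ M at h'
      rw [hMiff] at h h'
      rcases h.2 with ⟨h1, h2⟩ | ⟨h1, h2⟩ <;> rcases h'.2 with ⟨h3, h4⟩ | ⟨h3, h4⟩ <;> linarith
  rw [hEcard, hMcard, hU]
  ring

theorem gtri_sph [Finite P] (C : Conf P) {T : SimpleGraph P} (hT : Mx C T) {T' : Tri P}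
    (h : ∀ a b c, T'.face a b c ↔ gface C T a b c) : T'.Sph := by
  have n12 := hT.e12.ne
  have n23 := hT.e23.ne
  have n31 := hT.e31.ne
  have hF : T'.F = {t | ET C T t.1 t.2.1 t.2.2} ∪
      {(C.o1, C.o3, C.o2), (C.o3, C.o2, C.o1), (C.o2, C.o1, C.o3)} := by
    ext ⟨a, b, c⟩
    change T'.face a b c ↔ _
    rw [h]
    simp only [gface, Set.mem_union, Set.mem_ofPred_eq, Set.mem_insert_iff, Set.mem_singleton_iff,
      Prod.mk.injEq]
  have hd : Disjoint {t : P × P × P | ET C T t.1 t.2.1 t.2.2}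
      {(C.o1, C.o3, C.o2), (C.o3, C.o2, C.o1), (C.o2, C.o1, C.o3)} := by
    rw [Set.disjoint_left]
    rintro ⟨a, b, c⟩ h1 h2
    simp only [Set.mem_insert_iff, Set.mem_singleton_iff, Prod.mk.injEq] at h2
    refine no_et_outer C h1 ?_
    rcases h2 with ⟨h3, h4, -⟩ | ⟨h3, h4, -⟩ | ⟨h3, h4, -⟩
    · exact Or.inl ⟨h3, h4⟩
    · exact Or.inr (Or.inl ⟨h3, h4⟩)
    · exact Or.inr (Or.inr ⟨h3, h4⟩)
  have h3 : ({(C.o1, C.o3, C.o2), (C.o3, C.o2, C.o1), (C.o2, C.o1, C.o3)} :
      Set (P × P × P)).ncard = 3 := by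
    rw [Set.ncard_insert_of_notMem, Set.ncard_insert_of_notMem, Set.ncard_singleton]
    · simp only [Set.mem_singleton_iff, Prod.mk.injEq, not_and]
      intro h4
      exact absurd h4 n23.symm
    · simp only [Set.mem_insert_iff, Set.mem_singleton_iff, Prod.mk.injEq, not_or, not_and]
      exact ⟨fun h4 => absurd h4 n31.symm, fun h4 => absurd h4 n12⟩
  have hc := t5_count C hT
  unfold Tri.Sph
  rw [hF, Set.ncard_union_eq hd (Set.toFinite _) (Set.toFinite _), h3]
  omega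

end B306
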