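import Pool.Agent.Lib_MP_b306af.CDefs
import Pool.Agent.Lib_MP_b306af.CubDefs

/-!
# MP_b306af: from Theorem I (Part I, `B306C.Cub`) to the form used in Part III (`P1.ThmI`)
-/

set_option autoImplicit false

namespace P1

/-- the same cubic multigraph -/
def toC {V : Type} (K : Cub V) : B306C.Cub V := ⟨K.e, K.inv, K.ne⟩

theorem fin3_sets : ∀ s : Finset (Fin 3), s.card = 0 ∨ s.card = 2 ↔
    ((∀ i, i ∉ s) ∨ ∃ i, ∀ j, j ∈ s ↔ j ≠ i) := by decide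

theorem deg_iff {V : Type} (C : Set (V × Fin 3)) (v : V) :
    ({i | (v, i) ∈ C}.ncard = 0 ∨ {i | (v, i) ∈ C}.ncard = 2) ↔
      ((∀ i, (v, i) ∉ C) ∨ ∃ i, ∀ j, (v, j) ∈ C ↔ j ≠ i) := by
  classical
  have h1 : {i | (v, i) ∈ C} = ((Finset.univ.filter fun i => (v, i) ∈ C : Finset (Fin 3)) :
      Set (Fin 3)) := by
    ext i
    simp
  have h2 := fin3_sets (Finset.univ.filter fun i => (v, i) ∈ C)
  rw [h1, Set.ncard_coe_finset, h2]
  simp only [Finset.mem_filter, Finset.mem_univ, true_and]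

theorem even_iff {V : Type} (K : Cub V) (C : Set (V × Fin 3)) : K.Even C ↔ (toC K).Even C :=
  ⟨fun h => ⟨h.closed, fun v => (deg_iff C v).1 (h.deg v)⟩,
    fun h => ⟨h.mem, fun v => (deg_iff C v).2 (h.deg v)⟩⟩

theorem cycle_of {V : Type} (K : Cub V) (C : Set (V × Fin 3)) (h : (toC K).IsCycle C) :
    K.Cycle C :=
  ⟨(even_iff K C).2 h.even, h.nonempty,
    fun C' h1 h2 h3 => h.min C' h1 ((even_iff K C').1 h3) h2⟩

open Classical in
/-- Theorem I in the two forms -/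
theorem thmI_of (h : ∀ (V : Type) [Fintype V] (K : B306C.Cub V), K.Conn3 →
    ∀ (v0 : V) (i0 : Fin 3) (w : V → ℝ), (∀ v, 0 ≤ w v) →
    ∃ C, K.IsCycle C ∧ (∀ j, (v0, j) ∈ C ↔ j ≠ i0) ∧
      (∑ v ∈ Finset.univ.filter (fun v => v ≠ v0), w v) ^ ((4 : ℝ) / 5) ≤
        ∑ v ∈ Finset.univ.filter (fun v => v ≠ v0 ∧ ∃ i, (v, i) ∈ C), (w v) ^ ((4 : ℝ) / 5)) :
    ThmI := by
  intro V _ K hK v0 i0 w hw
  obtain ⟨C, h1, h2, h3⟩ := h V (toC K) hK v0 i0 w hw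
  refine ⟨C, cycle_of K C h1, fun h4 => (h2 i0).1 h4 rfl, fun j hj => (h2 j).2 hj, ?_⟩
  have e1 : Finset.univ.erase v0 = Finset.univ.filter (fun v => v ≠ v0) := by
    ext v
    simp
  have e2 : (Finset.univ.filter (fun v => v ≠ v0)).filter (fun v => ∃ i, (v, i) ∈ C) =
      Finset.univ.filter (fun v => v ≠ v0 ∧ ∃ i, (v, i) ∈ C) := by
    rw [Finset.filter_filter]
  rw [e1, e2]
  exact h3

end P1
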