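import Pool.Agent.Lib_MP_b306af.P3Gl

/-!
# MP_b306af, Part III: the Annulus Lemma
-/

set_option autoImplicit false

namespace P3

open P4

variable {V : Type}

/-- The outer annulus part: a bond of `T1 - x`. -/
theorem ann_outer [Finite V] {T1 : Tri V} {p q x r s t : V} (hF : T1.F p q x) (hroot : T1.F r s t)
    (hxr : r ≠ x) (hxs : s ≠ x) (hxt : t ≠ x) (hadj : ¬ T1.Adj x t) :
    ∃ A B : Set V, A ∪ B = W T1 \ {x} ∧ Disjoint A B ∧ Con T1.Adj A ∧ Con T1.Adj B ∧
      r ∈ A ∧ s ∈ B ∧ t ∈ B ∧ ((p ∈ A ∧ q ∈ B) ∨ (q ∈ A ∧ p ∈ B)) := by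
  have hF' := F_adj hF
  have hFn := F_ne hF
  have hR := F_adj hroot
  have hRn := F_ne hroot
  have hpt : p ≠ t := fun e => hadj (e ▸ hF'.2.2)
  have hqt : q ≠ t := fun e => hadj (e ▸ hF'.2.1.symm)
  have mem : ∀ v, T1.Supp v → v ≠ x → v ≠ t → v ∈ W T1 \ {x, t} := by
    intro v hv h1 h2
    refine ⟨hv, ?_⟩
    rintro (h | h)
    · exact h1 h
    · exact h2 h
  obtain ⟨A, B, hA, hB, hd, hAc, hBc, h1, h2, h3⟩ := two_sets T1.Adj (adj_symm T1) (W T1 \ {x, t})
    (Set.toFinite _) (con_del2 T1 x t) (by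
      intro z _
      have h := con_del3 T1 x t z hadj
      have e : (W T1 \ {x, t}) \ {z} = W T1 \ {x, t, z} := by
        ext v
        simp only [Set.mem_sdiff, Set.mem_singleton_iff, Set.mem_insert_iff, not_or]
        tauto
      rwa [e]) (mem r hR.1.supp hxr hRn.2.2.symm) (mem s hR.2.1.supp hxs hRn.2.1)
      (mem p hF'.1.supp hFn.2.2.symm hpt) (mem q hF'.2.1.supp hFn.2.1 hqt) hRn.1 hFn.1
  have hBt : Con T1.Adj (insert t B) := hBc.insert h2 hR.2.1 hR.2.1.symm
  have hsub : W T1 \ {x, t} ⊆ W T1 \ {x} := fun v hv => ⟨hv.1, fun h => hv.2 (Or.inl h)⟩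
  have htA : t ∉ A := fun h => (hA h).2 (Or.inr rfl)
  obtain ⟨A', B', e1, e2, e3, e4, e5, e6⟩ := extend T1.Adj (adj_symm T1) (W T1 \ {x})
    (Set.toFinite _) (con_del1 T1 x) A (insert t B) (hA.trans hsub)
    (Set.insert_subset ⟨hR.2.2.supp, hxt⟩ (hB.trans hsub)) ⟨r, h1⟩ (by
      rw [Set.disjoint_left]
      rintro v hv (hv' | hv')
      · exact htA (hv' ▸ hv)
      · exact Set.disjoint_left.mp hd hv hv') hAc hBt
  refine ⟨A', B', e4, e3, e5, e6, e1 h1, e2 (Or.inr h2), e2 (Or.inl rfl), ?_⟩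
  rcases h3 with h3 | h3
  · exact Or.inl ⟨e1 h3.1, e2 (Or.inr h3.2)⟩
  · exact Or.inr ⟨e1 h3.1, e2 (Or.inr h3.2)⟩

/-- The inner annulus part. -/
theorem ann_inner [Finite V] {T2 : Tri V} {p q x a b : V} (hF : T2.F q p x) (ha : T2.Supp a)
    (hb : T2.Supp b) (hab : a ≠ b) (hax : a ≠ x) (hbx : b ≠ x) :
    ∃ A B : Set V, A ∪ B = W T2 \ {x} ∧ Disjoint A B ∧ Con T2.Adj A ∧ Con T2.Adj B ∧
      p ∈ A ∧ q ∈ B ∧ ((a ∈ A ∧ b ∈ B) ∨ (b ∈ A ∧ a ∈ B)) := by
  have hF' := F_adj hF
  have hFn := F_ne hF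
  obtain ⟨A, B, hA, hB, hd, hAc, hBc, h1, h2, h3⟩ := two_sets T2.Adj (adj_symm T2) (W T2 \ {x})
    (Set.toFinite _) (con_del1 T2 x) (by
      intro z _
      have h := con_del2 T2 x z
      have e : (W T2 \ {x}) \ {z} = W T2 \ {x, z} := by
        ext v
        simp only [Set.mem_sdiff, Set.mem_singleton_iff, Set.mem_insert_iff, not_or]
        tauto
      rwa [e]) (⟨hF'.2.1.supp, hFn.2.1⟩ : p ∈ W T2 \ {x}) ⟨hF'.1.supp, hFn.2.2.symm⟩
      ⟨ha, hax⟩ ⟨hb, hbx⟩ hFn.1.symm hab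
  obtain ⟨A', B', e1, e2, e3, e4, e5, e6⟩ := extend T2.Adj (adj_symm T2) (W T2 \ {x})
    (Set.toFinite _) (con_del1 T2 x) A B hA hB ⟨p, h1⟩ hd hAc hBc
  refine ⟨A', B', e4, e3, e5, e6, e1 h1, e2 h2, ?_⟩
  rcases h3 with h3 | h3
  · exact Or.inl ⟨e1 h3.1, e2 h3.2⟩
  · exact Or.inr ⟨e1 h3.1, e2 h3.2⟩

/-- ANNULUS LEMMA. `p q x` and `a b c` are nested separating triangles of `T`, `x` is a mark whose
closed star is disjoint from `a b c` and from the root face (`x` is not a root vertex, not adjacent to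
`t`). If the part inside `a b c` has structures of value `≥ k` for every root corner, then `T` has a
structure of value `≥ k + 1` with root corner `r`. -/
theorem annulus_one [Finite V] {T T1 Ti T2 T3 : Tri V} {M M3 : Finset V} {p q x a b c r s t : V}
    {k : ℝ} (c1 : Cut T T1 Ti p q x) (c2 : Cut Ti T2 T3 a b c) (hroot : T1.F r s t)
    (hr2 : T2.F q p x) (hxM : x ∈ M) (hxr : r ≠ x) (hxs : s ≠ x) (hxt : t ≠ x)
    (hxt' : ¬ T.Adj x t) (ha : a ≠ x ∧ ¬ T.Adj x a) (hb : b ≠ x ∧ ¬ T.Adj x b)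
    (hc : c ≠ x ∧ ¬ T.Adj x c) (hM3 : ∀ v ∈ M3, v ∈ M ∧ T3.Supp v) (h3 : Val T3 M3 a b c k) :
    ∃ side, Str T M side ∧ side r = 1 ∧ side s = -1 ∧ side t = -1 ∧
      k + 1 ≤ (val M side : ℝ) := by
  classical
  -- the triangles have no common vertex
  have hxp : T.Adj x p := c1.adj_o (F_adj c1.Fo).2.2
  have hxq : T.Adj x q := c1.adj_o (F_adj c1.Fo).2.1.symm
  have hnot : ∀ v, v = p ∨ v = q ∨ v = x → ¬ (v = a ∨ v = b ∨ v = c) := by
    intro v hv hv'
    rcases hv' with rfl | rfl | rfl <;> rcases hv with rfl | rfl | rfl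
    · exact ha.2 hxp
    · exact ha.2 hxq
    · exact ha.1 rfl
    · exact hb.2 hxp
    · exact hb.2 hxq
    · exact hb.1 rfl
    · exact hc.2 hxp
    · exact hc.2 hxq
    · exact hc.1 rfl
  have hT2 : T2.Supp p ∧ T2.Supp q ∧ T2.Supp x :=
    ⟨(F_adj hr2).2.1.supp, (F_adj hr2).1.supp, (F_adj hr2).2.2.supp⟩
  have h12 : ∀ v, T1.Supp v → T2.Supp v → v = p ∨ v = q ∨ v = x := fun v h1 h2 =>
    c1.common v h1 ((c2.supp_iff v).mpr (Or.inl h2))
  have h13 : ∀ v, T1.Supp v → ¬ T3.Supp v := by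
    intro v h1 h3
    have h4 := c1.common v h1 ((c2.supp_iff v).mpr (Or.inr h3))
    have h5 : T2.Supp v := by
      rcases h4 with rfl | rfl | rfl
      · exact hT2.1
      · exact hT2.2.1
      · exact hT2.2.2
    exact hnot v h4 (c2.common v h5 h3)
  obtain ⟨A1, B1, u1, d1, cA1, cB1, rA, sB, tB, hpq⟩ := ann_outer c1.Fo hroot hxr hxs hxt
    (fun h => hxt' (c1.adj_o h))
  obtain ⟨A2, B2, u2, d2, cA2, cB2, pA, qB, hab⟩ := ann_inner hr2 c2.corners_o.1 c2.corners_o.2.1
    (F_ne c2.Fo).1 ha.1 hb.1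
  -- the plus and the minus class of `T2`
  obtain ⟨P2, M2, u2', d2', cP2, cM2, hp, hp', hq, hq', hab'⟩ : ∃ P2 M2 : Set V,
      P2 ∪ M2 = W T2 \ {x} ∧ Disjoint P2 M2 ∧ Con T2.Adj P2 ∧ Con T2.Adj M2 ∧
      (p ∈ A1 → p ∈ P2) ∧ (p ∈ B1 → p ∈ M2) ∧ (q ∈ A1 → q ∈ P2) ∧ (q ∈ B1 → q ∈ M2) ∧
      ((a ∈ P2 ∧ b ∈ M2) ∨ (b ∈ P2 ∧ a ∈ M2)) := by
    have dA : ∀ v, v ∈ A1 → v ∉ B1 := fun v h h' => Set.disjoint_left.mp d1 h h'
    rcases hpq with ⟨h1, h2⟩ | ⟨h1, h2⟩
    · exact ⟨A2, B2, u2, d2, cA2, cB2, fun _ => pA, fun h => absurd h (dA p h1),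
        fun h => absurd h2 (dA q h), fun _ => qB, hab⟩
    · exact ⟨B2, A2, by rw [Set.union_comm]; exact u2, d2.symm, cB2, cA2,
        fun h => absurd h2 (dA p h), fun _ => pA, fun _ => qB, fun h => absurd h (dA q h1),
        hab.elim (fun h => Or.inr ⟨h.2, h.1⟩) (fun h => Or.inl ⟨h.2, h.1⟩)⟩
  have dA : ∀ v, v ∈ A1 → v ∉ B1 := fun v h h' => Set.disjoint_left.mp d1 h h'
  have dP : ∀ v, v ∈ P2 → v ∉ M2 := fun v h h' => Set.disjoint_left.mp d2' h h'
  have mem1 : ∀ v, v ∈ A1 ∨ v ∈ B1 ↔ T1.Supp v ∧ v ≠ x := by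
    intro v
    have h : v ∈ A1 ∪ B1 ↔ v ∈ W T1 \ {x} := by rw [u1]
    exact h
  have mem2 : ∀ v, v ∈ P2 ∨ v ∈ M2 ↔ T2.Supp v ∧ v ≠ x := by
    intro v
    have h : v ∈ P2 ∪ M2 ↔ v ∈ W T2 \ {x} := by rw [u2']
    exact h
  -- the signs on the inner triangle
  obtain ⟨sg, hsg⟩ : ∃ sg : V → SignType, sg = fun v => if v ∈ P2 then 1 else -1 := ⟨_, rfl⟩
  have sgP : ∀ v, v ∈ P2 → sg v = 1 := by
    intro v hv
    rw [hsg]
    exact if_pos hv
  have sgM : ∀ v, v ∈ M2 → sg v = -1 := by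
    intro v hv
    rw [hsg]
    exact if_neg (fun h => dP v h hv)
  have sg0 : ∀ v, sg v ≠ 0 := by
    intro v
    rw [hsg]
    beta_reduce
    split_ifs
    · decide
    · decide
  have hFabc := F_ne c2.Fo
  obtain ⟨side3, hpre, ha3, hb3, hc3, hk⟩ := h3.pattern hFabc.1 hFabc.2.1 hFabc.2.2
    (sg a) (sg b) (sg c) (sg0 a) (sg0 b) (sg0 c)
    (by
      rintro ⟨e, -⟩
      rcases hab' with ⟨h1, h2⟩ | ⟨h1, h2⟩
      · rw [sgP a h1, sgM b h2] at e
        exact absurd e (by decide)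
      · rw [sgM a h2, sgP b h1] at e
        exact absurd e (by decide))
  -- the sides
  obtain ⟨side, hside⟩ : ∃ side : V → SignType, side = fun v =>
      if T3.Supp v then side3 v else if v ∈ A1 ∨ v ∈ P2 then 1 else
        if v ∈ B1 ∨ v ∈ M2 then -1 else 0 := ⟨_, rfl⟩
  have f3 : ∀ v, T3.Supp v → side v = side3 v := by
    intro v hv
    rw [hside]
    beta_reduce
    rw [if_pos hv]
  have fA : ∀ v, v ∈ A1 → side v = 1 := by
    intro v hv
    have h1 := ((mem1 v).mp (Or.inl hv)).1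
    rw [hside]
    beta_reduce
    rw [if_neg (h13 v h1), if_pos (Or.inl hv)]
  have hcross : ∀ v, v ∈ B1 → v ∉ P2 := by
    intro v hv hv'
    have h1 := (mem1 v).mp (Or.inr hv)
    have h2 := (mem2 v).mp (Or.inl hv')
    rcases h12 v h1.1 h2.1 with h | h | h
    · exact dP v hv' (h ▸ hp' (h ▸ hv))
    · exact dP v hv' (h ▸ hq' (h ▸ hv))
    · exact h1.2 h
  have hcross' : ∀ v, v ∈ M2 → v ∉ A1 := by
    intro v hv' hv
    have h1 := (mem1 v).mp (Or.inl hv)
    have h2 := (mem2 v).mp (Or.inr hv')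
    rcases h12 v h1.1 h2.1 with h | h | h
    · exact dP v (h ▸ hp (h ▸ hv)) hv'
    · exact dP v (h ▸ hq (h ▸ hv)) hv'
    · exact h1.2 h
  have fB : ∀ v, v ∈ B1 → side v = -1 := by
    intro v hv
    have h1 := ((mem1 v).mp (Or.inr hv)).1
    rw [hside]
    beta_reduce
    rw [if_neg (h13 v h1), if_neg, if_pos (Or.inl hv)]
    rintro (h | h)
    · exact dA v h hv
    · exact hcross v hv h
  have hcorner : ∀ v, T2.Supp v → T3.Supp v → side v = sg v := by
    intro v h2 h3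
    rw [f3 v h3]
    rcases c2.common v h2 h3 with rfl | rfl | rfl
    · exact ha3
    · exact hb3
    · exact hc3
  have fP : ∀ v, v ∈ P2 → side v = 1 := by
    intro v hv
    by_cases h3 : T3.Supp v
    · rw [hcorner v ((mem2 v).mp (Or.inl hv)).1 h3, sgP v hv]
    · rw [hside]
      beta_reduce
      rw [if_neg h3, if_pos (Or.inr hv)]
  have fM : ∀ v, v ∈ M2 → side v = -1 := by
    intro v hv
    by_cases h3 : T3.Supp v
    · rw [hcorner v ((mem2 v).mp (Or.inr hv)).1 h3, sgM v hv]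
    · rw [hside]
      beta_reduce
      rw [if_neg h3, if_neg, if_pos (Or.inr hv)]
      rintro (h | h)
      · exact hcross' v hv h
      · exact dP v h hv
  have fx : side x = 0 := by
    rw [hside]
    beta_reduce
    rw [if_neg (h13 x (F_adj c1.Fo).2.2.supp), if_neg, if_neg]
    · rintro (h | h)
      · exact ((mem1 x).mp (Or.inr h)).2 rfl
      · exact ((mem2 x).mp (Or.inr h)).2 rfl
    · rintro (h | h)
      · exact ((mem1 x).mp (Or.inl h)).2 rfl
      · exact ((mem2 x).mp (Or.inl h)).2 rfl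
  have hxT3 : ¬ T3.Supp x := h13 x (F_adj c1.Fo).2.2.supp
  -- the classes of the parts
  have class1 : ∀ σ : SignType, σ ≠ 0 → Con T1.Adj {v | T1.Supp v ∧ side v = σ} := by
    intro σ hσ
    rcases sign_cases σ hσ with rfl | rfl
    · have e : {v | T1.Supp v ∧ side v = 1} = A1 := by
        ext v
        constructor
        · rintro ⟨h1, h2⟩
          by_cases hvx : v = x
          · rw [hvx, fx] at h2
            exact absurd h2 (by decide)
          · rcases (mem1 v).mpr ⟨h1, hvx⟩ with h | h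
            · exact h
            · rw [fB v h] at h2
              exact absurd h2 (by decide)
        · intro hv
          exact ⟨((mem1 v).mp (Or.inl hv)).1, fA v hv⟩
      rw [e]
      exact cA1
    · have e : {v | T1.Supp v ∧ side v = -1} = B1 := by
        ext v
        constructor
        · rintro ⟨h1, h2⟩
          by_cases hvx : v = x
          · rw [hvx, fx] at h2
            exact absurd h2 (by decide)
          · rcases (mem1 v).mpr ⟨h1, hvx⟩ with h | h
            · rw [fA v h] at h2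
              exact absurd h2 (by decide)
            · exact h
        · intro hv
          exact ⟨((mem1 v).mp (Or.inr hv)).1, fB v hv⟩
      rw [e]
      exact cB1
  have class2 : ∀ σ : SignType, σ ≠ 0 → Con T2.Adj {v | T2.Supp v ∧ side v = σ} := by
    intro σ hσ
    rcases sign_cases σ hσ with rfl | rfl
    · have e : {v | T2.Supp v ∧ side v = 1} = P2 := by
        ext v
        constructor
        · rintro ⟨h1, h2⟩
          by_cases hvx : v = x
          · rw [hvx, fx] at h2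
            exact absurd h2 (by decide)
          · rcases (mem2 v).mpr ⟨h1, hvx⟩ with h | h
            · exact h
            · rw [fM v h] at h2
              exact absurd h2 (by decide)
        · intro hv
          exact ⟨((mem2 v).mp (Or.inl hv)).1, fP v hv⟩
      rw [e]
      exact cP2
    · have e : {v | T2.Supp v ∧ side v = -1} = M2 := by
        ext v
        constructor
        · rintro ⟨h1, h2⟩
          by_cases hvx : v = x
          · rw [hvx, fx] at h2
            exact absurd h2 (by decide)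
          · rcases (mem2 v).mpr ⟨h1, hvx⟩ with h | h
            · rw [fP v h] at h2
              exact absurd h2 (by decide)
            · exact h
        · intro hv
          exact ⟨((mem2 v).mp (Or.inr hv)).1, fM v hv⟩
      rw [e]
      exact cM2
  have class3 : ∀ σ : SignType, σ ≠ 0 → Con T3.Adj {v | T3.Supp v ∧ side v = σ} := by
    intro σ hσ
    have e : {v | T3.Supp v ∧ side v = σ} = {v | T3.Supp v ∧ side3 v = σ} := by
      ext v
      constructor
      · rintro ⟨h1, h2⟩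
        exact ⟨h1, by rw [← f3 v h1]; exact h2⟩
      · rintro ⟨h1, h2⟩
        exact ⟨h1, by rw [f3 v h1]; exact h2⟩
    rw [e]
    exact hpre.conn σ hσ
  have hab1 : ∀ σ : SignType, σ ≠ 0 → side a = σ ∨ side b = σ ∨ side c = σ := by
    intro σ hσ
    rcases hab' with ⟨h1, h2⟩ | ⟨h1, h2⟩
    · rcases sign_cases σ hσ with rfl | rfl
      · exact Or.inl (fP a h1)
      · exact Or.inr (Or.inl (fM b h2))
    · rcases sign_cases σ hσ with rfl | rfl
      · exact Or.inr (Or.inl (fP b h1))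
      · exact Or.inl (fM a h2)
  have hpq1 : ∀ σ : SignType, σ ≠ 0 → side p = σ ∨ side q = σ := by
    intro σ hσ
    rcases hpq with ⟨h1, h2⟩ | ⟨h1, h2⟩
    · rcases sign_cases σ hσ with rfl | rfl
      · exact Or.inl (fA p h1)
      · exact Or.inr (fB q h2)
    · rcases sign_cases σ hσ with rfl | rfl
      · exact Or.inr (fA q h1)
      · exact Or.inl (fB p h2)
  have hzero : ∀ v, T.Supp v → side v = 0 → v = x ∨ T3.Supp v := by
    intro v hv h0
    by_cases hvx : v = x
    · exact Or.inl hvx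
    · refine Or.inr ?_
      rcases (c1.supp_iff v).mp hv with h1 | h1
      · rcases (mem1 v).mpr ⟨h1, hvx⟩ with h | h
        · rw [fA v h] at h0
          exact absurd h0 (by decide)
        · rw [fB v h] at h0
          exact absurd h0 (by decide)
      · rcases (c2.supp_iff v).mp h1 with h2 | h2
        · rcases (mem2 v).mpr ⟨h2, hvx⟩ with h | h
          · rw [fP v h] at h0
            exact absurd h0 (by decide)
          · rw [fM v h] at h0
            exact absurd h0 (by decide)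
        · exact h2
  refine ⟨side, ⟨?_, ?_, ?_⟩, fA r rA, fB s sB, fB t tB, ?_⟩
  · intro v hv h0
    rcases hzero v hv h0 with h | h
    · rw [h]
      exact hxM
    · exact (hM3 v (hpre.zero v h (by rw [← f3 v h]; exact h0))).1
  · intro σ hσ
    have h1 := c2.con (class2 σ hσ) (class3 σ hσ) (hab1 σ hσ)
    refine c1.con (class1 σ hσ) h1 ?_
    rcases hpq1 σ hσ with h | h
    · exact Or.inl h
    · exact Or.inr (Or.inl h)
  · intro σ hσ v hv h0
    rcases hzero v hv h0 with h | h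
    · subst h
      rcases hpq1 σ hσ with h | h
      · exact ⟨p, hxp, h⟩
      · exact ⟨q, hxq, h⟩
    · obtain ⟨y, hy, hyσ⟩ := hpre.nbr σ hσ v h (by rw [← f3 v h]; exact h0)
      exact ⟨y, c1.adj_i (c2.adj_i hy), by rw [f3 y hy.symm.supp]; exact hyσ⟩
  · have hxM3 : x ∉ M3 := fun h => hxT3 (hM3 x h).2
    have h1 : val ({x} : Finset V) side = 1 := by
      unfold val
      rw [Finset.filter_true_of_mem, Finset.card_singleton]
      intro v hv
      rw [Finset.mem_singleton] at hv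
      rw [hv]
      exact fx
    have h2 : val M3 side = val M3 side3 := val_congr fun v hv => f3 v (hM3 v hv).2
    have h4 := val_add (M := M) (M1 := M3) (M2 := {x}) (fun v hv => (hM3 v hv).1)
      (Finset.singleton_subset_iff.mpr hxM) (by
        rw [Finset.disjoint_singleton_right]
        exact hxM3) side
    rw [h1, h2] at h4
    have h5 : ((val M3 side3 + 1 : ℕ) : ℝ) ≤ (val M side : ℝ) := by exact_mod_cast h4
    push_cast at h5
    linarith

/-- ANNULUS LEMMA. `p q x` and `a b c` are nested triangles of `T`, `x` is a mark whose closed star is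
disjoint from `a b c` and from the root face `r s t`. -/
theorem annulus [Finite V] {T T1 Ti T2 T3 : Tri V} {M M3 : Finset V} {p q x a b c r s t : V}
    {k : ℝ} (c1 : Cut T T1 Ti p q x) (c2 : Cut Ti T2 T3 a b c) (hroot : T1.F r s t)
    (hr2 : T2.F q p x) (hxM : x ∈ M) (h1 : ∀ d, Cor r s t d → ¬ St T x d)
    (h2 : ∀ d, Cor a b c d → ¬ St T x d) (hM3 : ∀ v ∈ M3, v ∈ M ∧ T3.Supp v)
    (h3 : Val T3 M3 a b c k) : Val T M r s t (k + 1) := by
  have g2 : ∀ d, Cor a b c d → d ≠ x ∧ ¬ T.Adj x d := fun d hd =>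
    ⟨fun e => h2 d hd (Or.inl e), fun e => h2 d hd (Or.inr e)⟩
  have g1 : ∀ d, Cor r s t d → d ≠ x ∧ ¬ T.Adj x d := fun d hd =>
    ⟨fun e => h1 d hd (Or.inl e), fun e => h1 d hd (Or.inr e)⟩
  have main : ∀ u v w, T1.F u v w → (∀ d, d = u ∨ d = v ∨ d = w → Cor r s t d) →
      (∀ d, Cor r s t d → d = u ∨ d = v ∨ d = w) →
      ∃ side, Str T M side ∧ side u = 1 ∧ (∀ d, Cor r s t d → d ≠ u → side d = -1) ∧
        k + 1 ≤ (val M side : ℝ) := by
    intro u v w hF hsub hsub'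
    obtain ⟨side, e1, e2, e3, e4, e5⟩ := annulus_one c1 c2 hF hr2 hxM (g1 u (hsub u (Or.inl rfl))).1
      (g1 v (hsub v (Or.inr (Or.inl rfl)))).1 (g1 w (hsub w (Or.inr (Or.inr rfl)))).1
      (g1 w (hsub w (Or.inr (Or.inr rfl)))).2 (g2 a (Or.inl rfl)) (g2 b (Or.inr (Or.inl rfl)))
      (g2 c (Or.inr (Or.inr rfl))) hM3 h3
    refine ⟨side, e1, e2, fun d hd hdu => ?_, e5⟩
    rcases hsub' d hd with h | h | h
    · exact absurd h hdu
    · rw [h]
      exact e3
    · rw [h]
      exact e4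
  refine Val.of_plus fun d hd => ?_
  rcases hd with rfl | rfl | rfl
  · exact main d s t hroot (fun e he => he) (fun e he => he)
  · exact main d t r (T1.cyc _ _ _ hroot) (fun e he => by unfold Cor; tauto)
      (fun e he => by unfold Cor at he; tauto)
  · exact main d r s (T1.cyc2 hroot) (fun e he => by unfold Cor; tauto)
      (fun e he => by unfold Cor at he; tauto)

end P3
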