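import Pool.Agent.Lib_MP_b306af.P3Defs

/-!
# MP_b306af, Part III: elementary facts about cuts and contractions
-/

set_option autoImplicit false

namespace P3

open P4

variable {V : Type}

theorem con_iff' {R : V → V → Prop} {A : Set V} : Con R A ↔
    ∀ P : V → Prop, (∀ a b, a ∈ A → b ∈ A → R a b → P a → P b) →
      ∀ a b, a ∈ A → b ∈ A → P a → P b :=
  ⟨fun h P hP a b ha hb hPa => h {v | P v} (fun a ha b hb hab hPa => hP a b ha hb hab hPa)
      a ha b hb hPa,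
    fun h P hP a ha b hb hPa => h (fun v => v ∈ P) (fun a b ha hb hab hPa => hP a ha b hb hab hPa)
      a b ha hb hPa⟩

theorem Tri_ne {T : Tri V} {a b c : V} (h : T.F a b c) : a ≠ b ∧ b ≠ c ∧ c ≠ a :=
  ⟨T.ne _ _ _ h, T.ne _ _ _ (T.cyc _ _ _ h), T.ne _ _ _ (T.cyc2 h)⟩

theorem adj12 {T : Tri V} {a b c : V} (h : T.F a b c) : T.Adj a b := ⟨c, h⟩
theorem adj23 {T : Tri V} {a b c : V} (h : T.F a b c) : T.Adj b c := ⟨a, T.cyc _ _ _ h⟩
theorem adj31 {T : Tri V} {a b c : V} (h : T.F a b c) : T.Adj c a := ⟨b, T.cyc2 h⟩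
theorem supp1 {T : Tri V} {a b c : V} (h : T.F a b c) : T.Supp a := ⟨b, c, h⟩
theorem supp2 {T : Tri V} {a b c : V} (h : T.F a b c) : T.Supp b := ⟨c, a, T.cyc _ _ _ h⟩
theorem supp3 {T : Tri V} {a b c : V} (h : T.F a b c) : T.Supp c := ⟨a, b, T.cyc2 h⟩

theorem Cor.supp {T : Tri V} {r s t v : V} (h : T.F r s t) (hv : Cor r s t v) : T.Supp v := by
  rcases hv with rfl | rfl | rfl
  · exact supp1 h
  · exact supp2 h
  · exact supp3 h

theorem Cor.adj {T : Tri V} {r s t u v : V} (h : T.F r s t) (hu : Cor r s t u) (hv : Cor r s t v)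
    (huv : u ≠ v) : T.Adj u v := by
  rcases hu with rfl | rfl | rfl <;> rcases hv with rfl | rfl | rfl
  · exact absurd rfl huv
  · exact adj12 h
  · exact (adj31 h).symm
  · exact (adj12 h).symm
  · exact absurd rfl huv
  · exact adj23 h
  · exact adj31 h
  · exact (adj23 h).symm
  · exact absurd rfl huv

theorem Cor.swap {r s t v : V} (h : Cor r s t v) : Cor s r t v := by
  rcases h with h | h | h
  · exact Or.inr (Or.inl h)
  · exact Or.inl h
  · exact Or.inr (Or.inr h)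

theorem Cor.rot {r s t v : V} (h : Cor r s t v) : Cor s t r v := by
  rcases h with h | h | h
  · exact Or.inr (Or.inr h)
  · exact Or.inl h
  · exact Or.inr (Or.inl h)

theorem Cyc3.cor {p q x a b c : V} (h : Cyc3 p q x a b c) : Cor p q x a ∧ Cor p q x b ∧ Cor p q x c := by
  rcases h with ⟨rfl, rfl, rfl⟩ | ⟨rfl, rfl, rfl⟩ | ⟨rfl, rfl, rfl⟩
  · exact ⟨Or.inl rfl, Or.inr (Or.inl rfl), Or.inr (Or.inr rfl)⟩
  · exact ⟨Or.inr (Or.inl rfl), Or.inr (Or.inr rfl), Or.inl rfl⟩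
  · exact ⟨Or.inr (Or.inr rfl), Or.inl rfl, Or.inr (Or.inl rfl)⟩

theorem Cyc3.rotn {p q x a b c : V} (h : Cyc3 p q x a b c) : Cyc3 p q x b c a := by
  rcases h with ⟨rfl, rfl, rfl⟩ | ⟨rfl, rfl, rfl⟩ | ⟨rfl, rfl, rfl⟩
  · exact Or.inr (Or.inl ⟨rfl, rfl, rfl⟩)
  · exact Or.inr (Or.inr ⟨rfl, rfl, rfl⟩)
  · exact Or.inl ⟨rfl, rfl, rfl⟩

theorem Cyc3.rot' {p q x a b c : V} (h : Cyc3 p q x a b c) : Cyc3 q x p a b c := by
  rcases h with ⟨rfl, rfl, rfl⟩ | ⟨rfl, rfl, rfl⟩ | ⟨rfl, rfl, rfl⟩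
  · exact Or.inr (Or.inr ⟨rfl, rfl, rfl⟩)
  · exact Or.inl ⟨rfl, rfl, rfl⟩
  · exact Or.inr (Or.inl ⟨rfl, rfl, rfl⟩)

theorem Cyc3.face {T : Tri V} {p q x a b c : V} (h : T.F p q x) (hc : Cyc3 p q x a b c) :
    T.F a b c := by
  rcases hc with ⟨rfl, rfl, rfl⟩ | ⟨rfl, rfl, rfl⟩ | ⟨rfl, rfl, rfl⟩
  · exact h
  · exact T.cyc _ _ _ h
  · exact T.cyc2 h

/-- a face whose first two vertices are a dart of the face `p q x` is this face -/
theorem Cyc3.of_dart {T : Tri V} {p q x a b c d : V} (h : T.F p q x) (hc : Cyc3 p q x a b c)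
    (hd : T.F a b d) : d = c := T.uniq _ _ _ _ hd (Cyc3.face h hc)

/-- if two faces have the same vertices, there are no other vertices -/
theorem two_faces {T : Tri V} {a b c : V} (h : T.F a b c) (h' : T.F b a c) {v : V}
    (hv : T.Supp v) : Cor a b c v := by
  obtain ⟨w, z, hw⟩ := hv
  have key := T.trans (fun y z => Cor a b c y ∧ Cor a b c z) ?_ ?_ a b c v w z h hw
    ⟨Or.inl rfl, Or.inr (Or.inl rfl)⟩
  · exact key.1
  · rintro y z w hF ⟨hy, hz⟩
    refine ⟨hz, ?_⟩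
    have hn := Tri_ne hF
    rcases hy with rfl | rfl | rfl <;> rcases hz with rfl | rfl | rfl
    · exact absurd rfl hn.1
    · exact Or.inr (Or.inr (T.uniq _ _ _ _ hF h))
    · exact Or.inr (Or.inl (T.uniq _ _ _ _ hF (T.cyc _ _ _ h')))
    · exact Or.inr (Or.inr (T.uniq _ _ _ _ hF h'))
    · exact absurd rfl hn.1
    · exact Or.inl (T.uniq _ _ _ _ hF (T.cyc _ _ _ h))
    · exact Or.inr (Or.inl (T.uniq _ _ _ _ hF (T.cyc2 h)))
    · exact Or.inl (T.uniq _ _ _ _ hF (T.cyc2 h'))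
    · exact absurd rfl hn.1
  · rintro y z w _ ⟨hy, hz⟩
    exact ⟨hz, hy⟩

/-! ### cuts -/

variable {T To Ti : Tri V} {p q x : V}

theorem not_cyc_swap (hn : p ≠ q ∧ q ≠ x ∧ x ≠ p) : ¬ Cyc3 p q x q p x := by
  rintro (⟨h, -, -⟩ | ⟨-, h, -⟩ | ⟨h, -, -⟩)
  · exact hn.1 h.symm
  · exact hn.2.2 h.symm
  · exact hn.2.1 h

theorem IsCut.swap (h : IsCut T To Ti p q x) : IsCut T Ti To q p x where
  fo := h.fi
  fi := h.fo
  iff a b c := (h.iff a b c).trans Or.comm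
  supp v h1 h2 := by
    rcases h.supp v h2 h1 with h | h | h
    · exact Or.inr (Or.inl h)
    · exact Or.inl h
    · exact Or.inr (Or.inr h)
  ino := by
    obtain ⟨v, h1, h2, h3, h4⟩ := h.ini
    exact ⟨v, h1, h3, h2, h4⟩
  ini := by
    obtain ⟨v, h1, h2, h3, h4⟩ := h.ino
    exact ⟨v, h1, h3, h2, h4⟩

theorem IsCut.rot (h : IsCut T To Ti p q x) : IsCut T To Ti q x p where
  fo := To.cyc _ _ _ h.fo
  fi := Ti.cyc2 h.fi
  iff a b c := by
    have e1 : Cyc3 q x p a b c ↔ Cyc3 p q x a b c :=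
      ⟨fun h => Cyc3.rot' (Cyc3.rot' h), fun h => Cyc3.rot' h⟩
    have e2 : Cyc3 x q p a b c ↔ Cyc3 q p x a b c :=
      ⟨fun h => Cyc3.rot' h, fun h => Cyc3.rot' (Cyc3.rot' h)⟩
    rw [e1, e2]
    exact h.iff a b c
  supp v h1 h2 := by
    rcases h.supp v h1 h2 with h | h | h
    · exact Or.inr (Or.inr h)
    · exact Or.inl h
    · exact Or.inr (Or.inl h)
  ino := by
    obtain ⟨v, h1, h2, h3, h4⟩ := h.ino
    exact ⟨v, h1, h3, h4, h2⟩
  ini := by
    obtain ⟨v, h1, h2, h3, h4⟩ := h.ini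
    exact ⟨v, h1, h3, h4, h2⟩

theorem IsCut.ne3 (h : IsCut T To Ti p q x) : p ≠ q ∧ q ≠ x ∧ x ≠ p := Tri_ne h.fo

/-- the reversed triangle is not a face of `To` -/
theorem IsCut.nrev (h : IsCut T To Ti p q x) : ¬ To.F q p x := by
  intro h'
  obtain ⟨v, hv, h1, h2, h3⟩ := h.ino
  rcases two_faces h.fo h' hv with h | h | h
  · exact h1 h
  · exact h2 h
  · exact h3 h

theorem IsCut.nrev' (h : IsCut T To Ti p q x) : ¬ Ti.F p q x := h.swap.nrev

/-- faces of `To` other than the triangle are faces of `T` -/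
theorem IsCut.ofO (h : IsCut T To Ti p q x) {a b c : V} (hF : To.F a b c)
    (hc : ¬ Cyc3 p q x a b c) : T.F a b c := (h.iff a b c).2 (Or.inl ⟨hF, hc⟩)

theorem IsCut.ofI (h : IsCut T To Ti p q x) {a b c : V} (hF : Ti.F a b c)
    (hc : ¬ Cyc3 q p x a b c) : T.F a b c := (h.iff a b c).2 (Or.inr ⟨hF, hc⟩)

theorem IsCut.nf (h : IsCut T To Ti p q x) : ¬ T.F p q x := by
  rw [h.iff]
  rintro (⟨-, h1⟩ | ⟨h1, -⟩)
  · exact h1 (Or.inl ⟨rfl, rfl, rfl⟩)
  · exact h.nrev' h1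

theorem IsCut.nf' (h : IsCut T To Ti p q x) : ¬ T.F q p x := h.swap.nf

/-- edges of `To` are edges of `T` -/
theorem IsCut.adjO (h : IsCut T To Ti p q x) {a b : V} (hab : To.Adj a b) : T.Adj a b := by
  obtain ⟨c, hc⟩ := hab
  by_cases h1 : Cyc3 p q x a b c
  · obtain ⟨d, hd⟩ := To.opp _ _ _ hc
    have h2 : ¬ Cyc3 p q x b a d := by
      intro h2
      have hn := h.ne3
      rcases h1 with ⟨rfl, rfl, rfl⟩ | ⟨rfl, rfl, rfl⟩ | ⟨rfl, rfl, rfl⟩ <;>
      rcases h2 with ⟨h3, h4, -⟩ | ⟨h3, h4, -⟩ | ⟨h3, h4, -⟩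
      · exact hn.1 h3.symm
      · exact hn.2.2 h4.symm
      · exact hn.2.1 h3
      · exact hn.2.2 h3
      · exact hn.2.1 h3.symm
      · exact hn.1 h4.symm
      · exact hn.2.1 h4.symm
      · exact hn.1 h3
      · exact hn.2.2 h4
    exact Tri.Adj.symm ⟨d, h.ofO hd h2⟩
  · exact ⟨c, h.ofO hc h1⟩

theorem IsCut.adjI (h : IsCut T To Ti p q x) {a b : V} (hab : Ti.Adj a b) : T.Adj a b :=
  h.swap.adjO hab

theorem IsCut.adj (h : IsCut T To Ti p q x) {a b : V} (hab : T.Adj a b) :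
    To.Adj a b ∨ Ti.Adj a b := by
  obtain ⟨c, hc⟩ := hab
  rcases (h.iff a b c).1 hc with h1 | h1
  · exact Or.inl ⟨c, h1.1⟩
  · exact Or.inr ⟨c, h1.1⟩

theorem IsCut.isSep (h : IsCut T To Ti p q x) : Sep T p q x where
  pq := h.adjO (adj12 h.fo)
  qx := h.adjO (adj23 h.fo)
  xp := h.adjO (adj31 h.fo)
  nf := h.nf
  nf' := h.nf'

theorem IsCut.suppO (h : IsCut T To Ti p q x) {v : V} (hv : To.Supp v) : T.Supp v := by
  obtain ⟨a, b, hab⟩ := hv
  exact (h.adjO ⟨b, hab⟩).supp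

theorem IsCut.suppI (h : IsCut T To Ti p q x) {v : V} (hv : Ti.Supp v) : T.Supp v :=
  h.swap.suppO hv

theorem IsCut.supp_or (h : IsCut T To Ti p q x) {v : V} (hv : T.Supp v) :
    To.Supp v ∨ Ti.Supp v := by
  obtain ⟨a, b, hab⟩ := hv
  rcases h.adj ⟨b, hab⟩ with h1 | h1
  · exact Or.inl h1.supp
  · exact Or.inr h1.supp

/-- a vertex is inside iff it is a vertex of `T` but not of `To` -/
theorem IsCut.ins_iff (h : IsCut T To Ti p q x) {v : V} :
    Ins Ti p q x v ↔ T.Supp v ∧ ¬ To.Supp v := by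
  constructor
  · rintro ⟨h1, h2, h3, h4⟩
    refine ⟨h.suppI h1, fun h5 => ?_⟩
    rcases h.supp v h5 h1 with h6 | h6 | h6
    · exact h2 h6
    · exact h3 h6
    · exact h4 h6
  · rintro ⟨h1, h2⟩
    have h3 := (h.supp_or h1).resolve_left h2
    refine ⟨h3, ?_, ?_, ?_⟩
    · rintro rfl; exact h2 (supp1 h.fo)
    · rintro rfl; exact h2 (supp2 h.fo)
    · rintro rfl; exact h2 (supp3 h.fo)

/-- edges at inner vertices are edges of `Ti` -/
theorem IsCut.adj_ins (h : IsCut T To Ti p q x) {a b : V} (ha : Ins Ti p q x a)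
    (hab : T.Adj a b) : Ti.Adj a b := by
  refine (h.adj hab).resolve_left fun h1 => ?_
  exact (h.ins_iff.1 ha).2 h1.supp

/-- edges between vertices of `Ti` are edges of `Ti` -/
theorem IsCut.adj_in (h : IsCut T To Ti p q x) {a b : V} (ha : Ti.Supp a) (hb : Ti.Supp b)
    (hab : T.Adj a b) : Ti.Adj a b := by
  by_cases h1 : Ins Ti p q x a
  · exact h.adj_ins h1 hab
  · by_cases h2 : Ins Ti p q x b
    · exact (h.adj_ins h2 hab.symm).symm
    · have ha' : Cor q p x a := by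
        by_contra h3
        exact h1 ⟨ha, fun e => h3 (Or.inr (Or.inl e)), fun e => h3 (Or.inl e),
          fun e => h3 (Or.inr (Or.inr e))⟩
      have hb' : Cor q p x b := by
        by_contra h3
        exact h2 ⟨hb, fun e => h3 (Or.inr (Or.inl e)), fun e => h3 (Or.inl e),
          fun e => h3 (Or.inr (Or.inr e))⟩
      exact Cor.adj h.fi ha' hb' hab.ne

/-- a face of `Ti` at an inner vertex is a face of `T` -/
theorem IsCut.face_ins (h : IsCut T To Ti p q x) {a b c : V} (ha : Ins Ti p q x a)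
    (hF : Ti.F a b c) : T.F a b c := by
  refine h.ofI hF fun h1 => ?_
  rcases (Cyc3.cor h1).1 with h2 | h2 | h2
  · exact ha.2.2.1 h2
  · exact ha.2.1 h2
  · exact ha.2.2.2 h2

theorem IsCut.nv_lt [Finite V] (h : IsCut T To Ti p q x) : nv To < nv T := by
  obtain ⟨v, hv⟩ := h.ini
  have hv' := h.ins_iff.1 hv
  refine Set.ncard_lt_ncard ?_ (Set.toFinite _)
  refine ⟨fun w hw => h.suppO hw, fun h1 => hv'.2 (h1 hv'.1)⟩

theorem IsCut.nv_lt' [Finite V] (h : IsCut T To Ti p q x) : nv Ti < nv T := h.swap.nv_lt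

theorem IsCut.four_le [Finite V] (h : IsCut T To Ti p q x) : 4 ≤ nv To := by
  classical
  obtain ⟨v, hv, h1, h2, h3⟩ := h.ino
  have hn := h.ne3
  have hsub : (({v, p, q, x} : Finset V) : Set V) ⊆ {v | To.Supp v} := by
    intro w hw
    simp only [Finset.coe_insert, Finset.coe_singleton, Set.mem_insert_iff,
      Set.mem_singleton_iff] at hw
    rcases hw with rfl | rfl | rfl | rfl
    · exact hv
    · exact supp1 h.fo
    · exact supp2 h.fo
    · exact supp3 h.fo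
  have hcard : ({v, p, q, x} : Finset V).card = 4 := by
    rw [Finset.card_insert_of_notMem, Finset.card_insert_of_notMem, Finset.card_insert_of_notMem,
      Finset.card_singleton]
    · simpa using hn.2.1
    · simp only [Finset.mem_insert, Finset.mem_singleton, not_or]
      exact ⟨hn.1, hn.2.2.symm⟩
    · simp only [Finset.mem_insert, Finset.mem_singleton, not_or]
      exact ⟨h1, h2, h3⟩
  have := Set.ncard_le_ncard hsub (Set.toFinite _)
  rw [Set.ncard_coe_finset, hcard] at this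
  exact this

theorem IsCut.five_le [Finite V] (h : IsCut T To Ti p q x) : 5 ≤ nv T := by
  have h1 := h.four_le
  have h2 := h.nv_lt
  omega

theorem Far.sub {T T' : Tri V} {M M' : Finset V} (h : Far T M) (hM : M' ⊆ M)
    (hadj : ∀ a b, T'.Adj a b → T.Adj a b) : Far T' M' := by
  intro x hx y hy hxy a b ha hb
  have hst : ∀ u v, St T' u v → St T u v := by
    rintro u v (h1 | h1)
    · exact Or.inl h1
    · exact Or.inr (hadj _ _ h1)
  have := h x (hM hx) y (hM hy) hxy a b (hst _ _ ha) (hst _ _ hb)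
  exact ⟨this.1, fun h1 => this.2 (hadj _ _ h1)⟩

theorem Far.not_adj {T : Tri V} {M : Finset V} (h : Far T M) {x y : V} (hx : x ∈ M) (hy : y ∈ M) :
    ¬ T.Adj x y := by
  intro hxy
  exact (h x hx y hy hxy.ne x y (Or.inl rfl) (Or.inl rfl)).2 hxy

theorem mem_Min {M : Finset V} {Ti : Tri V} {p q x v : V} :
    v ∈ Min M Ti p q x ↔ v ∈ M ∧ Ins Ti p q x v := by
  classical
  unfold Min
  rw [Finset.mem_filter]

theorem Val.mono {T : Tri V} {M : Finset V} {r s t : V} {k k' : ℝ} (h : Val T M r s t k)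
    (hk : k' ≤ k) : Val T M r s t k' := by
  intro c hc σ hσ
  obtain ⟨side, h1, h2, h3, h4⟩ := h c hc σ hσ
  exact ⟨side, h1, h2, h3, hk.trans h4⟩

end P3
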