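import Pool.Agent.Lib_MP_b306af.CubDefs
import Pool.Agent.Lib_MP_b306af.CFin

/-!
# MP_b306af: Theorem I in the form used by Part III, section 4
-/

namespace P1

variable {V : Type}

/-- the same cubic graph for Part I -/
def Cub.toC (K : Cub V) : B306C.Cub V := ⟨K.e, K.inv, K.ne⟩

theorem fin3_two (S : Set (Fin 3)) (h : S.ncard = 2) : ∃ i, ∀ j, j ∈ S ↔ j ≠ i := by
  rw [Set.ncard_eq_two] at h
  obtain ⟨a, b, hab, rfl⟩ := h
  have : ∀ a b : Fin 3, a ≠ b → ∃ i, ∀ j, (j = a ∨ j = b) ↔ j ≠ i := by decide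
  obtain ⟨i, hi⟩ := this a b hab
  exact ⟨i, fun j => by simpa using hi j⟩

theorem fin3_two' (S : Set (Fin 3)) (i : Fin 3) (h : ∀ j, j ∈ S ↔ j ≠ i) : S.ncard = 2 := by
  have : ∀ i : Fin 3, ∃ a b, a ≠ b ∧ ∀ j, (j = a ∨ j = b) ↔ j ≠ i := by decide
  obtain ⟨a, b, hab, hj⟩ := this i
  rw [Set.ncard_eq_two]
  refine ⟨a, b, hab, ?_⟩
  ext j
  rw [h j, ← hj j]
  simp

theorem Cub.Even.toC {K : Cub V} {C : Set (V × Fin 3)} (h : K.Even C) : K.toC.Even C := by
  constructor
  · exact h.closed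
  · intro v
    rcases h.deg v with h0 | h0
    · left
      intro i hi
      rw [Set.ncard_eq_zero (Set.toFinite _)] at h0
      have : i ∈ {i | (v, i) ∈ C} := hi
      rw [h0] at this
      exact this
    · right
      exact fin3_two _ h0

theorem Cub.Even.ofC {K : Cub V} {C : Set (V × Fin 3)} (h : K.toC.Even C) : K.Even C := by
  constructor
  · exact h.mem
  · intro v
    rcases h.deg v with h0 | ⟨i, h0⟩
    · left
      have : {i | (v, i) ∈ C} = ∅ := by
        ext i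
        simpa using h0 i
      rw [this, Set.ncard_empty]
    · right
      exact fin3_two' _ i h0

theorem Cub.Cycle.ofC {K : Cub V} {C : Set (V × Fin 3)} (h : K.toC.IsCycle C) : K.Cycle C :=
  ⟨Cub.Even.ofC h.even, h.nonempty, fun C' h1 h2 h3 => h.min C' h1 h3.toC h2⟩

theorem thmI : ThmI := by
  intro V _ K hK v0 i0 w hw
  obtain ⟨C, h1, h2, h3⟩ := B306C.theorem_I K.toC hK v0 i0 w hw
  refine ⟨C, Cub.Cycle.ofC h1, ?_, ?_, ?_⟩
  · rw [h2]
    simp
  · intro j hj
    rw [h2]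
    exact hj
  · classical
    have e1 : Finset.univ.erase v0 = Finset.univ.filter (fun v : V => v ≠ v0) := by
      ext v
      simp
    have e2 : {v ∈ Finset.univ.erase v0 | ∃ i, (v, i) ∈ C} =
        Finset.univ.filter (fun v : V => v ≠ v0 ∧ ∃ i, (v, i) ∈ C) := by
      ext v
      simp
    rw [e2, e1]
    exact h3

end P1
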