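import Pool.Agent.Lib_MP_b306af.P3Basic

/-!
# MP_b306af, Part III: uniqueness and composition of cuts
-/

set_option autoImplicit false

namespace P3

open P4

variable {V : Type} {T To Ti Tio Tii X Y : Tri V} {p q x a b c : V}

theorem tri_ext {X Y : Tri V} (h : ∀ y z w, X.F y z w ↔ Y.F y z w) : X = Y := by
  have hF : X.F = Y.F := by
    funext y z w
    exact propext (h y z w)
  cases X
  cases Y
  simp only at hF
  subst hF
  rfl

/-- three corners which are pairwise different are a rotation of the triangle or of its reverse -/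
theorem cor_three {y z w : V} (hy : Cor p q x y) (hz : Cor p q x z) (hw : Cor p q x w)
    (h1 : y ≠ z) (h2 : z ≠ w) (h3 : w ≠ y) : Cyc3 p q x y z w ∨ Cyc3 q p x y z w := by
  rcases hy with rfl | rfl | rfl <;> rcases hz with rfl | rfl | rfl <;>
    rcases hw with rfl | rfl | rfl <;>
    first
    | exact absurd rfl h1
    | exact absurd rfl h2
    | exact absurd rfl h3
    | exact Or.inl (Or.inl ⟨rfl, rfl, rfl⟩)
    | exact Or.inl (Or.inr (Or.inl ⟨rfl, rfl, rfl⟩))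
    | exact Or.inl (Or.inr (Or.inr ⟨rfl, rfl, rfl⟩))
    | exact Or.inr (Or.inl ⟨rfl, rfl, rfl⟩)
    | exact Or.inr (Or.inr (Or.inl ⟨rfl, rfl, rfl⟩))
    | exact Or.inr (Or.inr (Or.inr ⟨rfl, rfl, rfl⟩))

/-- no face is in both parts -/
theorem IsCut.disj (h : IsCut T To Ti p q x) {y z w : V} (h1 : To.F y z w) (h2 : Ti.F y z w) :
    False := by
  have hn := Tri_ne h1
  rcases cor_three (h.supp y (supp1 h1) (supp1 h2)) (h.supp z (supp2 h1) (supp2 h2))
    (h.supp w (supp3 h1) (supp3 h2)) hn.1 hn.2.1 hn.2.2 with h3 | h3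
  · -- rotation of `p q x`, a face of `Ti`
    apply h.nrev'
    rcases h3 with ⟨rfl, rfl, rfl⟩ | ⟨rfl, rfl, rfl⟩ | ⟨rfl, rfl, rfl⟩
    · exact h2
    · exact Ti.cyc2 h2
    · exact Ti.cyc _ _ _ h2
  · apply h.nrev
    rcases h3 with ⟨rfl, rfl, rfl⟩ | ⟨rfl, rfl, rfl⟩ | ⟨rfl, rfl, rfl⟩
    · exact h1
    · exact To.cyc2 h1
    · exact To.cyc _ _ _ h1

/-- a face of `T` with all vertices in `Ti` is a face of `Ti` -/
theorem IsCut.face_in (h : IsCut T To Ti p q x) {y z w : V} (hF : T.F y z w) (hy : Ti.Supp y)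
    (hz : Ti.Supp z) (hw : Ti.Supp w) : Ti.F y z w := by
  rcases (h.iff y z w).1 hF with h1 | h1
  · have hn := Tri_ne hF
    exfalso
    rcases cor_three (h.supp y (supp1 h1.1) hy) (h.supp z (supp2 h1.1) hz)
      (h.supp w (supp3 h1.1) hw) hn.1 hn.2.1 hn.2.2 with h3 | h3
    · exact h1.2 h3
    · apply h.nf'
      rcases h3 with ⟨rfl, rfl, rfl⟩ | ⟨rfl, rfl, rfl⟩ | ⟨rfl, rfl, rfl⟩
      · exact hF
      · exact T.cyc2 hF
      · exact T.cyc _ _ _ hF
  · exact h1.1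

/-- `(y, z)` is a dart of the triangle `a b c` -/
def DartC (a b c y z : V) : Prop := (y = a ∧ z = b) ∨ (y = b ∧ z = c) ∨ (y = c ∧ z = a)

theorem DartC.face {X : Tri V} (h : X.F a b c) {y z w : V} (hd : DartC a b c y z)
    (hF : X.F y z w) : Cyc3 a b c y z w := by
  rcases hd with ⟨rfl, rfl⟩ | ⟨rfl, rfl⟩ | ⟨rfl, rfl⟩
  · exact Or.inl ⟨rfl, rfl, X.uniq _ _ _ _ hF h⟩
  · exact Or.inr (Or.inl ⟨rfl, rfl, X.uniq _ _ _ _ hF (X.cyc _ _ _ h)⟩)
  · exact Or.inr (Or.inr ⟨rfl, rfl, X.uniq _ _ _ _ hF (X.cyc2 h)⟩)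

theorem DartC.of_cyc {y z w : V} (h : Cyc3 a b c y z w) : DartC a b c y z := by
  rcases h with ⟨rfl, rfl, rfl⟩ | ⟨rfl, rfl, rfl⟩ | ⟨rfl, rfl, rfl⟩
  · exact Or.inl ⟨rfl, rfl⟩
  · exact Or.inr (Or.inl ⟨rfl, rfl⟩)
  · exact Or.inr (Or.inr ⟨rfl, rfl⟩)

theorem DartC.flip {y z : V} (h : DartC a b c y z) : DartC b a c z y := by
  rcases h with ⟨rfl, rfl⟩ | ⟨rfl, rfl⟩ | ⟨rfl, rfl⟩
  · exact Or.inl ⟨rfl, rfl⟩
  · exact Or.inr (Or.inr ⟨rfl, rfl⟩)
  · exact Or.inr (Or.inl ⟨rfl, rfl⟩)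

/-- the faces of `T` which belong to `X` are those on one side of the triangle `a b c` -/
structure Bd (T X : Tri V) (a b c : V) : Prop where
  d1 : ∀ y z w, T.F y z w → DartC a b c y z → X.F y z w
  d2 : ∀ y z w, T.F y z w → DartC b a c y z → ¬ X.F y z w
  d3 : ∀ y z w w', T.F y z w → T.F z y w' → ¬ DartC a b c y z → ¬ DartC b a c y z →
    X.F y z w → X.F z y w'

theorem IsCut.bd (h : IsCut T To Ti a b c) : Bd T Ti a b c := by
  refine ⟨?_, ?_, ?_⟩
  · intro y z w hF hd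
    rcases (h.iff y z w).1 hF with h1 | h1
    · exact absurd (hd.face h.fo h1.1) h1.2
    · exact h1.1
  · intro y z w hF hd hX
    have h1 := hd.face h.fi hX
    rcases (h.iff y z w).1 hF with h2 | h2
    · exact h.disj h2.1 hX
    · exact h2.2 h1
  · intro y z w w' hF hF' h1 h2 hX
    obtain ⟨w'', hw⟩ := Ti.opp _ _ _ hX
    have h3 : ¬ Cyc3 b a c z y w'' := fun h3 => h1 (DartC.of_cyc h3).flip
    have h4 := T.uniq _ _ _ _ hF' (h.ofI hw h3)
    rw [h4]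
    exact hw

/-- uniqueness -/
theorem Bd.unique (hX : Bd T X a b c) (hY : Bd T Y a b c) (hab : T.Adj a b) {y z w : V}
    (hF : T.F y z w) : X.F y z w ↔ Y.F y z w := by
  obtain ⟨d, hd⟩ := hab
  have key := T.trans (fun y z => ∀ w, T.F y z w → (X.F y z w ↔ Y.F y z w)) ?_ ?_ a b d y z w hd hF
    (fun w hw => ⟨fun _ => hY.d1 _ _ _ hw (Or.inl ⟨rfl, rfl⟩),
      fun _ => hX.d1 _ _ _ hw (Or.inl ⟨rfl, rfl⟩)⟩)
  · exact key w hF
  · intro y z w hF hP w' hF'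
    have h1 : w' = y := T.uniq _ _ _ _ hF' (T.cyc _ _ _ hF)
    subst h1
    have h2 := hP w hF
    exact ⟨fun h3 => Y.cyc _ _ _ (h2.1 (X.cyc2 h3)), fun h3 => X.cyc _ _ _ (h2.2 (Y.cyc2 h3))⟩
  · intro y z w hF hP w' hF'
    have h2 := hP w hF
    by_cases h3 : DartC a b c y z
    · exact ⟨fun h4 => absurd h4 (hX.d2 _ _ _ hF' h3.flip),
        fun h4 => absurd h4 (hY.d2 _ _ _ hF' h3.flip)⟩
    · by_cases h4 : DartC b a c y z
      · exact ⟨fun _ => hY.d1 _ _ _ hF' h4.flip, fun _ => hX.d1 _ _ _ hF' h4.flip⟩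
      · have h5 : ¬ DartC a b c z y := fun h6 => h4 h6.flip
        have h6 : ¬ DartC b a c z y := fun h6 => h3 h6.flip
        exact ⟨fun h7 => hY.d3 _ _ _ _ hF hF' h3 h4 (h2.1 (hX.d3 _ _ _ _ hF' hF h5 h6 h7)),
          fun h7 => hX.d3 _ _ _ _ hF hF' h3 h4 (h2.2 (hY.d3 _ _ _ _ hF' hF h5 h6 h7))⟩

/-- a separating triangle of a part is separating -/
theorem IsCut.sep_in (h : IsCut T To Ti p q x) (h2 : Sep Ti a b c) : Sep T a b c where
  pq := h.adjI h2.pq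
  qx := h.adjI h2.qx
  xp := h.adjI h2.xp
  nf := fun hF => h2.nf (h.face_in hF h2.pq.supp h2.qx.supp h2.xp.supp)
  nf' := fun hF => h2.nf' (h.face_in hF h2.qx.supp h2.pq.supp h2.xp.supp)

/-- the inner part of a cut of the inner part -/
theorem IsCut.bd_in (h : IsCut T To Ti p q x) (h2 : IsCut Ti Tio Tii a b c)
    (hr2 : Tio.F q p x) : Bd T Tii a b c := by
  have hnot : ∀ y z w, Tii.F y z w → ¬ Cyc3 q p x y z w := fun y z w h3 h4 =>
    h2.disj (Cyc3.face hr2 h4) h3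
  have hsep := h.sep_in h2.isSep
  refine ⟨?_, ?_, ?_⟩
  · intro y z w hF hd
    have hadj : Ti.Adj y z := by
      rcases hd with ⟨rfl, rfl⟩ | ⟨rfl, rfl⟩ | ⟨rfl, rfl⟩
      · exact h2.isSep.pq
      · exact h2.isSep.qx
      · exact h2.isSep.xp
    obtain ⟨w', hw'⟩ := hadj
    have h3 := h2.bd.d1 _ _ _ hw' hd
    have h4 := T.uniq _ _ _ _ hF (h.ofI hw' (hnot _ _ _ h3))
    rw [h4]
    exact h3
  · intro y z w hF hd hX
    have h1 := hd.face h2.fi hX
    apply hsep.nf'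
    rcases h1 with ⟨rfl, rfl, rfl⟩ | ⟨rfl, rfl, rfl⟩ | ⟨rfl, rfl, rfl⟩
    · exact hF
    · exact T.cyc2 hF
    · exact T.cyc _ _ _ hF
  · intro y z w w' hF hF' h1 h2' hX
    obtain ⟨w'', hw⟩ := Tii.opp _ _ _ hX
    have h3 : ¬ Cyc3 b a c z y w'' := fun h3 => h1 (DartC.of_cyc h3).flip
    have h4 := T.uniq _ _ _ _ hF' (h.ofI (h2.ofI hw h3) (hnot _ _ _ hw))
    rw [h4]
    exact hw

/-- composition of cuts; `hex` is the existence theorem of cuts for `T` -/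
theorem cut_comp_ex {r s t : V}
    (hex : ∀ a b c, Sep T a b c → ∃ To Ti, (IsCut T To Ti a b c ∨ IsCut T To Ti b a c) ∧ To.F r s t)
    (hT : T.F r s t) (h : IsCut T To Ti p q x) (hr : To.F r s t)
    (h2 : IsCut Ti Tio Tii a b c) (hr2 : Tio.F q p x) :
    ∃ To1, IsCut T To1 Tii a b c ∧ To1.F r s t := by
  have hsep := h.sep_in h2.isSep
  have hbd := h.bd_in h2 hr2
  obtain ⟨To1, Ti1, h3, h4⟩ := hex a b c hsep
  rcases h3 with h3 | h3
  · have h5 : Ti1 = Tii := by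
      refine tri_ext fun y z w => ?_
      constructor
      · intro h6
        by_cases h7 : Cyc3 b a c y z w
        · exact Cyc3.face h2.fi h7
        · have h8 := h3.ofI h6 h7
          exact (h3.bd.unique hbd hsep.pq h8).1 h6
      · intro h6
        by_cases h7 : Cyc3 b a c y z w
        · exact Cyc3.face h3.fi h7
        · have h8 : T.F y z w := h.ofI (h2.ofI h6 h7) fun h9 =>
            h2.disj (Cyc3.face hr2 h9) h6
          exact (h3.bd.unique hbd hsep.pq h8).2 h6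
    rw [← h5]
    exact ⟨To1, h3, h4⟩
  · exfalso
    have h5 : Tii.F r s t := (h3.swap.bd.unique hbd hsep.pq hT).1 h4
    by_cases h7 : Cyc3 b a c r s t
    · apply hsep.nf'
      rcases h7 with ⟨rfl, rfl, rfl⟩ | ⟨rfl, rfl, rfl⟩ | ⟨rfl, rfl, rfl⟩
      · exact hT
      · exact T.cyc2 hT
      · exact T.cyc _ _ _ hT
    · exact h.disj hr (h2.ofI h5 h7)

end P3
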