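import Mathlib
import Pool.Agent.Lib_MP_b306af.P4Defs

/-!
# MP_b306af, Part III, section 2: connectivity

`Con R A` : the set `A` is connected for the relation `R` (every set closed under `R` inside `A` which
meets `A` contains `A`). Lemma E (`two_sets`), Lemma G (`extend`) and the Menger theorem for two
disjoint sets.
-/

set_option autoImplicit false

namespace P3

variable {V : Type}

/-- `A` is connected for the relation `R` (also the empty set) -/
def Con (R : V → V → Prop) (A : Set V) : Prop :=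
  ∀ P : Set V, (∀ a ∈ A, ∀ b ∈ A, R a b → a ∈ P → b ∈ P) → ∀ a ∈ A, ∀ b ∈ A, a ∈ P → b ∈ P

theorem Con.mono {R R' : V → V → Prop} (h : ∀ a b, R a b → R' a b) {A : Set V} (hA : Con R A) :
    Con R' A := fun P hP => hA P fun a ha b hb hab => hP a ha b hb (h a b hab)

theorem Con.singleton (R : V → V → Prop) (a : V) : Con R {a} := by
  intro P _ x hx y hy hxP
  rw [Set.mem_singleton_iff] at hx hy
  rw [hy, ← hx]
  exact hxP

theorem Con.empty (R : V → V → Prop) : Con R (∅ : Set V) := fun _ _ a ha => absurd ha (by simp)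

/-- two connected sets with a common element -/
theorem Con.union {R : V → V → Prop} {A B : Set V} (hA : Con R A) (hB : Con R B) {z : V}
    (hzA : z ∈ A) (hzB : z ∈ B) : Con R (A ∪ B) := by
  intro P hP a ha b hb haP
  have hPA : ∀ a ∈ A, ∀ b ∈ A, R a b → a ∈ P → b ∈ P := fun a ha b hb =>
    hP a (Or.inl ha) b (Or.inl hb)
  have hPB : ∀ a ∈ B, ∀ b ∈ B, R a b → a ∈ P → b ∈ P := fun a ha b hb =>
    hP a (Or.inr ha) b (Or.inr hb)
  have hz : z ∈ P := by
    rcases ha with ha | ha
    · exact hA P hPA a ha z hzA haP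
    · exact hB P hPB a ha z hzB haP
  rcases hb with hb | hb
  · exact hA P hPA z hzA b hb hz
  · exact hB P hPB z hzB b hb hz

/-- two connected sets joined by an edge -/
theorem Con.union_edge {R : V → V → Prop} {A B : Set V} (hA : Con R A) (hB : Con R B) {x y : V}
    (hx : x ∈ A) (hy : y ∈ B) (hxy : R x y) (hyx : R y x) : Con R (A ∪ B) := by
  intro P hP a ha b hb haP
  have hPA : ∀ a ∈ A, ∀ b ∈ A, R a b → a ∈ P → b ∈ P := fun a ha b hb =>
    hP a (Or.inl ha) b (Or.inl hb)
  have hPB : ∀ a ∈ B, ∀ b ∈ B, R a b → a ∈ P → b ∈ P := fun a ha b hb =>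
    hP a (Or.inr ha) b (Or.inr hb)
  have hxyP : x ∈ P ↔ y ∈ P :=
    ⟨hP x (Or.inl hx) y (Or.inr hy) hxy, hP y (Or.inr hy) x (Or.inl hx) hyx⟩
  have hz : x ∈ P := by
    rcases ha with ha | ha
    · exact hA P hPA a ha x hx haP
    · exact hxyP.mpr (hB P hPB a ha y hy haP)
  rcases hb with hb | hb
  · exact hA P hPA x hx b hb hz
  · exact hB P hPB y hy b hb (hxyP.mp hz)

theorem Con.insert {R : V → V → Prop} {A : Set V} (hA : Con R A) {x y : V}
    (hx : x ∈ A) (hxy : R x y) (hyx : R y x) : Con R (insert y A) := by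
  have h := hA.union_edge (Con.singleton R y) hx (Set.mem_singleton y) hxy hyx
  rwa [Set.union_singleton] at h

/-- Deleting the vertex `y` from a connected set: enough that the neighbours of `y` stay in one
component. -/
theorem Con.remove {R : V → V → Prop} (hR : ∀ a b, R a b → R b a) {S : Set V} (hS : Con R S) {y : V}
    (hy : ∀ P : Set V, (∀ a ∈ S \ {y}, ∀ b ∈ S \ {y}, R a b → a ∈ P → b ∈ P) →
      ∀ a ∈ S \ {y}, ∀ b ∈ S \ {y}, R y a → R y b → a ∈ P → b ∈ P) : Con R (S \ {y}) := by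
  intro P hP a ha b hb haP
  by_cases hN : ∃ c ∈ S \ {y}, R y c ∧ c ∈ P
  · obtain ⟨c, hc, hyc, hcP⟩ := hN
    have h1 := hS (P ∪ {y}) (by
      intro u hu v hv huv huP
      by_cases hvy : v = y
      · exact Or.inr hvy
      · refine Or.inl ?_
        by_cases huy : u = y
        · subst huy
          exact hy P hP c hc v ⟨hv, hvy⟩ hyc huv hcP
        · rcases huP with huP | huP
          · exact hP u ⟨hu, huy⟩ v ⟨hv, hvy⟩ huv huP
          · exact absurd huP huy) a ha.1 b hb.1 (Or.inl haP)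
    rcases h1 with h1 | h1
    · exact h1
    · exact absurd h1 hb.2
  · push Not at hN
    have h1 := hS (P \ {y}) (by
      intro u hu v hv huv huP
      have huy : u ≠ y := fun e => huP.2 e
      by_cases hvy : v = y
      · subst hvy
        exact absurd huP.1 (hN u ⟨hu, huy⟩ (hR _ _ huv))
      · exact ⟨hP u ⟨hu, huy⟩ v ⟨hv, hvy⟩ huv huP.1, hvy⟩) a ha.1 b hb.1 ⟨haP, ha.2⟩
    exact h1.1

/-! ### Menger for two sets -/

private theorem mg_split {α : Type} {C D : Set α} {z x : α} (hd : Disjoint C D)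
    (hC : z ∈ C ∨ x ∈ C) (hD : z ∈ D ∨ x ∈ D) (hzx : z ≠ x) :
    (z ∈ C ∧ x ∈ D ∧ z ∉ D ∧ x ∉ C) ∨ (z ∈ D ∧ x ∈ C ∧ z ∉ C ∧ x ∉ D) := by
  have h1 : ∀ t, t ∈ C → t ∉ D := fun t h1 h2 => (Set.disjoint_left.mp hd) h1 h2
  rcases hC with h | h
  · rcases hD with h' | h'
    · exact absurd h' (h1 _ h)
    · exact Or.inl ⟨h, h', h1 _ h, fun h2 => h1 _ h2 h'⟩
  · rcases hD with h' | h'
    · exact Or.inr ⟨h', h, fun h2 => h1 _ h2 h', h1 _ h⟩
    · exact absurd h' (h1 _ h)

/-- The edges of `R` inside `H`. -/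
def Eset (R : V → V → Prop) (H : Set V) : Set (V × V) :=
  {p | p.1 ∈ H ∧ p.2 ∈ H ∧ R p.1 p.2 ∧ p.1 ≠ p.2}

theorem Eset_finite {R : V → V → Prop} {H : Set V} (hH : H.Finite) : (Eset R H).Finite :=
  (hH.prod hH).subset fun p hp => ⟨hp.1, hp.2.1⟩

/-- Menger: if no vertex separates `A0` from `B0` in `H` then there are two disjoint connected sets
which meet `A0` and `B0`. -/
theorem menger_two [Nonempty V] (R : V → V → Prop) (hR : ∀ a b, R a b → R b a) (H A0 B0 : Set V)
    (hfin : H.Finite) (hA : A0 ⊆ H) (hB : B0 ⊆ H)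
    (hsep : ∀ (z : V) (L : Set V), (∀ a ∈ A0, a ≠ z → a ∈ L) →
      (∀ u ∈ H, ∀ v ∈ H, u ≠ z → v ≠ z → R u v → u ∈ L → v ∈ L) → ∃ b ∈ B0, b ≠ z ∧ b ∈ L) :
    ∃ C D : Set V, C ⊆ H ∧ D ⊆ H ∧ Disjoint C D ∧ Con R C ∧ Con R D ∧
      (∃ a ∈ A0, a ∈ C) ∧ (∃ b ∈ B0, b ∈ C) ∧ (∃ a ∈ A0, a ∈ D) ∧ (∃ b ∈ B0, b ∈ D) := by
  obtain ⟨n, hn⟩ : ∃ n, n = (Eset R H).ncard := ⟨_, rfl⟩
  induction n using Nat.strong_induction_on generalizing R H A0 B0 with
  | _ n ih =>
    by_cases hE : ∃ x ∈ H, ∃ y ∈ H, x ≠ y ∧ R x y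
    · obtain ⟨x0, hx0, y0, hy0, hne0, hxy0⟩ := hE
      obtain ⟨R', hR'⟩ : ∃ R' : V → V → Prop, R' = fun u v =>
        R u v ∧ ¬ (u = x0 ∧ v = y0) ∧ ¬ (u = y0 ∧ v = x0) := ⟨_, rfl⟩
      have hR's : ∀ a b, R' a b → R' b a := by
        intro a b h
        rw [hR'] at h ⊢
        exact ⟨hR _ _ h.1, fun e => h.2.2 ⟨e.2, e.1⟩, fun e => h.2.1 ⟨e.2, e.1⟩⟩
      have hR'R : ∀ a b, R' a b → R a b := by
        intro a b h
        rw [hR'] at h
        exact h.1
      by_cases hsep' : ∀ (z : V) (L : Set V), (∀ a ∈ A0, a ≠ z → a ∈ L) →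
          (∀ u ∈ H, ∀ v ∈ H, u ≠ z → v ≠ z → R' u v → u ∈ L → v ∈ L) → ∃ b ∈ B0, b ≠ z ∧ b ∈ L
      · have hlt : (Eset R' H).ncard < n := by
          rw [hn]
          refine Set.ncard_lt_ncard ⟨fun p hp => ⟨hp.1, hp.2.1, hR'R _ _ hp.2.2.1, hp.2.2.2⟩, ?_⟩
            (Eset_finite hfin)
          intro h
          have h1 := h (show (x0, y0) ∈ Eset R H from ⟨hx0, hy0, hxy0, hne0⟩)
          have h2 := h1.2.2.1
          rw [hR'] at h2
          exact h2.2.1 ⟨rfl, rfl⟩
        obtain ⟨C, D, h1, h2, h3, h4, h5, h6⟩ := ih _ hlt R' hR's H A0 B0 hfin hA hB hsep' rfl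
        exact ⟨C, D, h1, h2, h3, h4.mono hR'R, h5.mono hR'R, h6⟩
      · push Not at hsep'
        obtain ⟨z, L0, hL1, hL2, hL3⟩ := hsep'
        -- the edge leaves the set
        obtain ⟨x, y, hx, hy, hxy, hxL, hyL, hxz, hyz, hedge⟩ : ∃ x y, x ∈ H ∧ y ∈ H ∧ R x y ∧
            x ∈ L0 ∧ y ∉ L0 ∧ x ≠ z ∧ y ≠ z ∧
            ∀ u v, R u v → ¬ (u = x ∧ v = y) → ¬ (u = y ∧ v = x) → R' u v := by
          by_contra hno
          push Not at hno
          obtain ⟨b, hb, hbz, hbL⟩ := hsep z L0 hL1 (by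
            intro u hu v hv huz hvz huv huL
            by_cases h' : R' u v
            · exact hL2 u hu v hv huz hvz h' huL
            · by_contra hvL
              obtain ⟨u1, v1, h1, h2, h3, h4⟩ := hno u v hu hv huv huL hvL huz hvz
              have key : ∀ s t, R s t → ¬ R' s t → (s = x0 ∧ t = y0) ∨ (s = y0 ∧ t = x0) := by
                intro s t hst hn'
                rw [hR'] at hn'
                by_contra hc
                exact hn' ⟨hst, fun e => hc (Or.inl e), fun e => hc (Or.inr e)⟩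
              rcases key u v huv h' with ⟨e1, e2⟩ | ⟨e1, e2⟩
              · rcases key u1 v1 h1 h4 with ⟨e3, e4⟩ | ⟨e3, e4⟩
                · exact h2 (e3.trans e1.symm) (e4.trans e2.symm)
                · exact h3 (e3.trans e2.symm) (e4.trans e1.symm)
              · rcases key u1 v1 h1 h4 with ⟨e3, e4⟩ | ⟨e3, e4⟩
                · exact h3 (e3.trans e2.symm) (e4.trans e1.symm)
                · exact h2 (e3.trans e1.symm) (e4.trans e2.symm))
          exact hL3 b hb hbz hbL
        -- the set `L`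
        obtain ⟨L, hL⟩ : ∃ L : Set V, L = {v | v ∈ L0 ∧ v ∈ H ∧ v ≠ z} := ⟨_, rfl⟩
        have memL : ∀ v, v ∈ L ↔ v ∈ L0 ∧ v ∈ H ∧ v ≠ z := by
          intro v
          rw [hL]
          rfl
        have hxL' : x ∈ L := (memL x).mpr ⟨hxL, hx, hxz⟩
        have hyL' : y ∉ L := fun h => hyL ((memL y).mp h).1
        have hLA : ∀ a ∈ A0, a ≠ z → a ∈ L := fun a ha haz => (memL a).mpr ⟨hL1 a ha haz, hA ha, haz⟩
        have hLB : ∀ b ∈ B0, b ∉ L := fun b hb h =>
          hL3 b hb ((memL b).mp h).2.2 ((memL b).mp h).1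
        have hLc : ∀ u ∈ L, ∀ v ∈ H, v ≠ z → R u v → ¬ (u = x ∧ v = y) → v ∈ L := by
          intro u hu v hv hvz huv hne
          have hu' := (memL u).mp hu
          have huy : u ≠ y := fun e => hyL (e ▸ hu'.1)
          exact (memL v).mpr ⟨hL2 u hu'.2.1 v hv hu'.2.2 hvz
            (hedge u v huv hne (fun e => huy e.1)) hu'.1, hv, hvz⟩
        have hzH : z ∈ H := by
          by_contra hzH
          obtain ⟨b, hb, hbx, hbL⟩ := hsep x L (fun a ha _ => hLA a ha (fun e => hzH (e ▸ hA ha))) (by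
            intro u hu v hv hux hvx huv huL
            exact hLc u huL v hv (fun e => hzH (e ▸ hv)) huv (fun e => hux e.1))
          exact hLB b hb hbL
        have hzL : z ∉ L := fun h => ((memL z).mp h).2.2 rfl
        have hLH : L ⊆ H := fun v hv => ((memL v).mp hv).2.1
        have hxy' : x ≠ y := fun e => hyL (e ▸ hxL)
        -- first part
        have hH1 : (L ∪ {z}) ⊆ H := by
          rintro v (hv | hv)
          · exact hLH hv
          · rw [Set.mem_singleton_iff] at hv
            rw [hv]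
            exact hzH
        have hlt1 : (Eset R (L ∪ {z})).ncard < n := by
          rw [hn]
          refine Set.ncard_lt_ncard ⟨fun p hp => ⟨hH1 hp.1, hH1 hp.2.1, hp.2.2.1, hp.2.2.2⟩, ?_⟩
            (Eset_finite hfin)
          intro h
          have h1 := h (show (x, y) ∈ Eset R H from ⟨hx, hy, hxy, hxy'⟩)
          rcases h1.2.1 with h2 | h2
          · exact hyL' h2
          · exact hyz h2
        obtain ⟨C1, D1, c1, c2, c3, c4, c5, c6, c7, c8, c9⟩ := ih _ hlt1 R hR (L ∪ {z}) A0 {z, x}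
          (hfin.subset hH1) (by
            intro a ha
            by_cases haz : a = z
            · exact Or.inr haz
            · exact Or.inl (hLA a ha haz)) (by
            rintro b (hb | hb)
            · exact Or.inr hb
            · rw [Set.mem_singleton_iff] at hb
              rw [hb]
              exact Or.inl hxL') (by
            intro z' L' hL'A hL'c
            by_contra hno
            push Not at hno
            have hz' : z ≠ z' → z ∉ L' := fun h => hno z (Or.inl rfl) h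
            have hx' : x ≠ z' → x ∉ L' := fun h => hno x (Or.inr rfl) h
            obtain ⟨b, hb, hbz, hbL⟩ := hsep z' {v | v ∈ L' ∧ v ∈ L ∪ {z}} (by
              intro a ha haz'
              refine ⟨hL'A a ha haz', ?_⟩
              by_cases haz : a = z
              · exact Or.inr haz
              · exact Or.inl (hLA a ha haz)) (by
              intro u hu v hv huz' hvz' huv huL
              obtain ⟨huL', huL1⟩ := huL
              have huz : u ≠ z := by
                rintro rfl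
                exact hz' huz' huL'
              have hux : u ≠ x := by
                rintro rfl
                exact hx' huz' huL'
              have huL2 : u ∈ L := by
                rcases huL1 with h | h
                · exact h
                · exact absurd h huz
              have hv1 : v ∈ L ∪ {z} := by
                by_cases hvz : v = z
                · exact Or.inr hvz
                · exact Or.inl (hLc u huL2 v hv hvz huv (fun e => hux e.1))
              exact ⟨hL'c u huL1 v hv1 huz' hvz' huv huL', hv1⟩)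
            obtain ⟨hbL', hbL1⟩ := hbL
            rcases hbL1 with h | h
            · exact hLB b hb h
            · rw [Set.mem_singleton_iff] at h
              subst h
              exact hz' hbz hbL') rfl
        -- second part
        have hH2 : (H \ L) ⊆ H := fun v hv => hv.1
        have hlt2 : (Eset R (H \ L)).ncard < n := by
          rw [hn]
          refine Set.ncard_lt_ncard ⟨fun p hp => ⟨hp.1.1, hp.2.1.1, hp.2.2.1, hp.2.2.2⟩, ?_⟩
            (Eset_finite hfin)
          intro h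
          have h1 := h (show (x, y) ∈ Eset R H from ⟨hx, hy, hxy, hxy'⟩)
          exact h1.1.2 hxL'
        obtain ⟨C2, D2, d1, d2, d3, d4, d5, d6, d7, d8, d9⟩ := ih _ hlt2 R hR (H \ L) {z, y} B0
          (hfin.subset hH2) (by
            rintro b (hb | hb)
            · rw [hb]
              exact ⟨hzH, hzL⟩
            · rw [Set.mem_singleton_iff] at hb
              rw [hb]
              exact ⟨hy, hyL'⟩) (fun b hb => ⟨hB hb, hLB b hb⟩) (by
            intro z' L' hL'A hL'c
            have hz' : z ≠ z' → z ∈ L' := fun h => hL'A z (Or.inl rfl) h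
            have hy' : y ≠ z' → y ∈ L' := fun h => hL'A y (Or.inr rfl) h
            obtain ⟨b, hb, hbz, hbL⟩ := hsep z' {v | v ∈ L ∨ (v ∈ L' ∧ v ∈ H)} (by
              intro a ha haz'
              by_cases haz : a = z
              · subst haz
                exact Or.inr ⟨hz' haz', hzH⟩
              · exact Or.inl (hLA a ha haz)) (by
              intro u hu v hv huz' hvz' huv huL
              by_cases hvL : v ∈ L
              · exact Or.inl hvL
              · refine Or.inr ⟨?_, hv⟩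
                by_cases huL2 : u ∈ L
                · by_cases hvz : v = z
                  · subst hvz
                    exact hz' hvz'
                  · by_cases he : u = x ∧ v = y
                    · rw [he.2]
                      exact hy' (by rw [← he.2]; exact hvz')
                    · exact absurd (hLc u huL2 v hv hvz huv he) hvL
                · rcases huL with h | h
                  · exact absurd h huL2
                  · exact hL'c u ⟨hu, huL2⟩ v ⟨hv, hvL⟩ huz' hvz' huv h.1)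
            refine ⟨b, hb, hbz, ?_⟩
            rcases hbL with h | h
            · exact absurd h (hLB b hb)
            · exact h.1) rfl
        have k1 : z ∈ C1 ∨ x ∈ C1 := by
          obtain ⟨b, hb | hb, hbC⟩ := c7
          · exact Or.inl (hb ▸ hbC)
          · rw [Set.mem_singleton_iff] at hb
            exact Or.inr (hb ▸ hbC)
        have k2 : z ∈ D1 ∨ x ∈ D1 := by
          obtain ⟨b, hb | hb, hbC⟩ := c9
          · exact Or.inl (hb ▸ hbC)
          · rw [Set.mem_singleton_iff] at hb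
            exact Or.inr (hb ▸ hbC)
        have k3 : z ∈ C2 ∨ y ∈ C2 := by
          obtain ⟨b, hb | hb, hbC⟩ := d6
          · exact Or.inl (hb ▸ hbC)
          · rw [Set.mem_singleton_iff] at hb
            exact Or.inr (hb ▸ hbC)
        have k4 : z ∈ D2 ∨ y ∈ D2 := by
          obtain ⟨b, hb | hb, hbC⟩ := d8
          · exact Or.inl (hb ▸ hbC)
          · rw [Set.mem_singleton_iff] at hb
            exact Or.inr (hb ▸ hbC)
        -- combination
        have comb : ∀ C1 D1 C2 D2 : Set V, C1 ⊆ L ∪ {z} → D1 ⊆ L ∪ {z} → Disjoint C1 D1 →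
            Con R C1 → Con R D1 → (∃ a ∈ A0, a ∈ C1) → (∃ a ∈ A0, a ∈ D1) →
            C2 ⊆ H \ L → D2 ⊆ H \ L → Disjoint C2 D2 → Con R C2 → Con R D2 →
            (∃ b ∈ B0, b ∈ C2) → (∃ b ∈ B0, b ∈ D2) → z ∈ C1 → x ∈ D1 → z ∉ D1 → z ∈ C2 →
            y ∈ D2 → z ∉ D2 →
            ∃ C D : Set V, C ⊆ H ∧ D ⊆ H ∧ Disjoint C D ∧ Con R C ∧ Con R D ∧
              (∃ a ∈ A0, a ∈ C) ∧ (∃ b ∈ B0, b ∈ C) ∧ (∃ a ∈ A0, a ∈ D) ∧ (∃ b ∈ B0, b ∈ D) := by
          intro C1 D1 C2 D2 c1 c2 c3 c4 c5 c6 c8 d1 d2 d3 d4 d5 d7 d9 zC1 xD1 zD1 zC2 yD2 zD2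
          refine ⟨C1 ∪ C2, D1 ∪ D2, Set.union_subset (c1.trans hH1) (d1.trans hH2),
            Set.union_subset (c2.trans hH1) (d2.trans hH2), ?_, c4.union d4 zC1 zC2,
            c5.union_edge d5 xD1 yD2 hxy (hR _ _ hxy), ?_, ?_, ?_, ?_⟩
          · rw [Set.disjoint_left]
            rintro t (ht | ht) (ht' | ht')
            · exact Set.disjoint_left.mp c3 ht ht'
            · rcases c1 ht with h | h
              · exact (d2 ht').2 h
              · rw [Set.mem_singleton_iff] at h
                exact zD2 (h ▸ ht')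
            · rcases c2 ht' with h | h
              · exact (d1 ht).2 h
              · rw [Set.mem_singleton_iff] at h
                exact zD1 (h ▸ ht')
            · exact Set.disjoint_left.mp d3 ht ht'
          · obtain ⟨a, ha, h⟩ := c6
            exact ⟨a, ha, Or.inl h⟩
          · obtain ⟨a, ha, h⟩ := d7
            exact ⟨a, ha, Or.inr h⟩
          · obtain ⟨a, ha, h⟩ := c8
            exact ⟨a, ha, Or.inl h⟩
          · obtain ⟨a, ha, h⟩ := d9
            exact ⟨a, ha, Or.inr h⟩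
        rcases mg_split c3 k1 k2 hxz.symm with ⟨e1, e2, e3, e4⟩ | ⟨e1, e2, e3, e4⟩
        · rcases mg_split d3 k3 k4 hyz.symm with ⟨f1, f2, f3, f4⟩ | ⟨f1, f2, f3, f4⟩
          · exact comb C1 D1 C2 D2 c1 c2 c3 c4 c5 c6 c8 d1 d2 d3 d4 d5 d7 d9 e1 e2 e3 f1 f2 f3
          · exact comb C1 D1 D2 C2 c1 c2 c3 c4 c5 c6 c8 d2 d1 d3.symm d5 d4 d9 d7 e1 e2 e3 f1 f2 f3
        · rcases mg_split d3 k3 k4 hyz.symm with ⟨f1, f2, f3, f4⟩ | ⟨f1, f2, f3, f4⟩
          · exact comb D1 C1 C2 D2 c2 c1 c3.symm c5 c4 c8 c6 d1 d2 d3 d4 d5 d7 d9 e1 e2 e3 f1 f2 f3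
          · exact comb D1 C1 D2 C2 c2 c1 c3.symm c5 c4 c8 c6 d2 d1 d3.symm d5 d4 d9 d7 e1 e2 e3 f1
              f2 f3
    · push Not at hE
      have hb : ∀ z : V, ∃ b ∈ B0, b ≠ z ∧ b ∈ A0 := fun z =>
        hsep z A0 (fun a ha _ => ha) (by
          intro u hu v hv _ _ huv huA
          by_cases huv' : u = v
          · exact huv' ▸ huA
          · exact absurd huv (hE u hu v hv huv'))
      obtain ⟨b1, hb1, -, hb1A⟩ := hb (Classical.arbitrary V)
      obtain ⟨b2, hb2, hne, hb2A⟩ := hb b1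
      refine ⟨{b1}, {b2}, ?_, ?_, ?_, Con.singleton R b1, Con.singleton R b2,
        ⟨b1, hb1A, rfl⟩, ⟨b1, hb1, rfl⟩, ⟨b2, hb2A, rfl⟩, ⟨b2, hb2, rfl⟩⟩
      · exact Set.singleton_subset_iff.mpr (hA hb1A)
      · exact Set.singleton_subset_iff.mpr (hA hb2A)
      · rw [Set.disjoint_singleton]
        exact hne.symm


/-- LEMMA E. In a 2-connected graph two pairs of vertices are joined by disjoint connected sets. -/
theorem two_sets (R : V → V → Prop) (hR : ∀ a b, R a b → R b a) (H : Set V)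
    (hfin : H.Finite) (h0 : Con R H) (hz : ∀ z ∈ H, Con R (H \ {z})) {a1 a2 b1 b2 : V}
    (ha1 : a1 ∈ H) (ha2 : a2 ∈ H) (hb1 : b1 ∈ H) (hb2 : b2 ∈ H) (ha : a1 ≠ a2) (hb : b1 ≠ b2) :
    ∃ A B : Set V, A ⊆ H ∧ B ⊆ H ∧ Disjoint A B ∧ Con R A ∧ Con R B ∧ a1 ∈ A ∧ a2 ∈ B ∧
      ((b1 ∈ A ∧ b2 ∈ B) ∨ (b2 ∈ A ∧ b1 ∈ B)) := by
  have : Nonempty V := ⟨a1⟩
  obtain ⟨C, D, hC, hD, hd, hCc, hDc, ⟨a, ha', haC⟩, ⟨b, hb', hbC⟩, ⟨a', ha'', haD⟩, ⟨b', hb'', hbD⟩⟩ :=
    menger_two R hR H {a1, a2} {b1, b2} hfin (by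
      rintro t (ht | ht)
      · rw [ht]; exact ha1
      · rw [Set.mem_singleton_iff] at ht
        rw [ht]; exact ha2) (by
      rintro t (ht | ht)
      · rw [ht]; exact hb1
      · rw [Set.mem_singleton_iff] at ht
        rw [ht]; exact hb2) (by
      intro z L hLA hLc
      obtain ⟨a, ha', haz⟩ : ∃ a, a ∈ ({a1, a2} : Set V) ∧ a ≠ z := by
        by_cases h : a1 = z
        · exact ⟨a2, Or.inr rfl, fun e => ha (h.trans e.symm)⟩
        · exact ⟨a1, Or.inl rfl, h⟩
      obtain ⟨b, hb', hbz⟩ : ∃ b, b ∈ ({b1, b2} : Set V) ∧ b ≠ z := by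
        by_cases h : b1 = z
        · exact ⟨b2, Or.inr rfl, fun e => hb (h.trans e.symm)⟩
        · exact ⟨b1, Or.inl rfl, h⟩
      have haH : a ∈ H := by
        rcases ha' with h | h
        · rw [h]; exact ha1
        · rw [Set.mem_singleton_iff] at h
          rw [h]; exact ha2
      have hbH : b ∈ H := by
        rcases hb' with h | h
        · rw [h]; exact hb1
        · rw [Set.mem_singleton_iff] at h
          rw [h]; exact hb2
      refine ⟨b, hb', hbz, ?_⟩
      by_cases hzH : z ∈ H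
      · exact hz z hzH L (fun u hu v hv huv huL => hLc u hu.1 v hv.1 hu.2 hv.2 huv huL) a
          ⟨haH, haz⟩ b ⟨hbH, hbz⟩ (hLA a ha' haz)
      · exact h0 L (fun u hu v hv huv huL => hLc u hu v hv (fun e => hzH (e ▸ hu))
          (fun e => hzH (e ▸ hv)) huv huL) a haH b hbH (hLA a ha' haz))
  have e1 : a1 ∈ C ∨ a2 ∈ C := by
    rcases ha' with h | h
    · exact Or.inl (h ▸ haC)
    · rw [Set.mem_singleton_iff] at h
      exact Or.inr (h ▸ haC)
  have e2 : a1 ∈ D ∨ a2 ∈ D := by
    rcases ha'' with h | h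
    · exact Or.inl (h ▸ haD)
    · rw [Set.mem_singleton_iff] at h
      exact Or.inr (h ▸ haD)
  have e3 : b1 ∈ C ∨ b2 ∈ C := by
    rcases hb' with h | h
    · exact Or.inl (h ▸ hbC)
    · rw [Set.mem_singleton_iff] at h
      exact Or.inr (h ▸ hbC)
  have e4 : b1 ∈ D ∨ b2 ∈ D := by
    rcases hb'' with h | h
    · exact Or.inl (h ▸ hbD)
    · rw [Set.mem_singleton_iff] at h
      exact Or.inr (h ▸ hbD)
  rcases mg_split hd e1 e2 ha with ⟨f1, f2, f3, f4⟩ | ⟨f1, f2, f3, f4⟩
  · refine ⟨C, D, hC, hD, hd, hCc, hDc, f1, f2, ?_⟩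
    rcases mg_split hd e3 e4 hb with ⟨g1, g2, g3, g4⟩ | ⟨g1, g2, g3, g4⟩
    · exact Or.inl ⟨g1, g2⟩
    · exact Or.inr ⟨g2, g1⟩
  · refine ⟨D, C, hD, hC, hd.symm, hDc, hCc, f1, f2, ?_⟩
    rcases mg_split hd e3 e4 hb with ⟨g1, g2, g3, g4⟩ | ⟨g1, g2, g3, g4⟩
    · exact Or.inr ⟨g2, g1⟩
    · exact Or.inl ⟨g1, g2⟩

/-- LEMMA G. Two disjoint connected sets in a connected finite set extend to a partition. -/
theorem extend (R : V → V → Prop) (hR : ∀ a b, R a b → R b a) (H : Set V) (hfin : H.Finite)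
    (hH : Con R H) (A B : Set V) (hA : A ⊆ H) (hB : B ⊆ H) (hne : A.Nonempty)
    (hd : Disjoint A B) (hAc : Con R A) (hBc : Con R B) :
    ∃ A' B' : Set V, A ⊆ A' ∧ B ⊆ B' ∧ Disjoint A' B' ∧ A' ∪ B' = H ∧ Con R A' ∧ Con R B' := by
  obtain ⟨n, hn⟩ : ∃ n, n = (H \ (A ∪ B)).ncard := ⟨_, rfl⟩
  induction n using Nat.strong_induction_on generalizing A B with
  | _ n ih =>
    by_cases hc : ∃ u ∈ A ∪ B, ∃ v ∈ H, v ∉ A ∪ B ∧ R u v
    · obtain ⟨u, hu, v, hv, hvn, huv⟩ := hc
      have hvA : v ∉ A := fun h => hvn (Or.inl h)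
      have hvB : v ∉ B := fun h => hvn (Or.inr h)
      rcases hu with hu | hu
      · have hlt : (H \ (insert v A ∪ B)).ncard < n := by
          rw [hn]
          refine Set.ncard_lt_ncard ⟨?_, ?_⟩ (hfin.subset fun t ht => ht.1)
          · intro t ht
            exact ⟨ht.1, fun h => ht.2 (h.elim (fun h => Or.inl (Or.inr h)) Or.inr)⟩
          · intro h
            exact (h (show v ∈ H \ (A ∪ B) from ⟨hv, hvn⟩)).2 (Or.inl (Or.inl rfl))
        obtain ⟨A', B', h1, h2, h3⟩ := ih _ hlt (insert v A) B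
          (Set.insert_subset hv hA) hB ⟨v, Or.inl rfl⟩
          (by
            rw [Set.disjoint_left]
            rintro t (ht | ht) htB
            · exact hvB (ht ▸ htB)
            · exact Set.disjoint_left.mp hd ht htB) (hAc.insert hu huv (hR _ _ huv)) hBc rfl
        exact ⟨A', B', (Set.subset_insert v A).trans h1, h2, h3⟩
      · have hlt : (H \ (A ∪ insert v B)).ncard < n := by
          rw [hn]
          refine Set.ncard_lt_ncard ⟨?_, ?_⟩ (hfin.subset fun t ht => ht.1)
          · intro t ht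
            exact ⟨ht.1, fun h => ht.2 (h.elim Or.inl (fun h => Or.inr (Or.inr h)))⟩
          · intro h
            exact (h (show v ∈ H \ (A ∪ B) from ⟨hv, hvn⟩)).2 (Or.inr (Or.inl rfl))
        obtain ⟨A', B', h1, h2, h3⟩ := ih _ hlt A (insert v B) hA
          (Set.insert_subset hv hB) hne
          (by
            rw [Set.disjoint_left]
            rintro t htA (ht | ht)
            · exact hvA (ht ▸ htA)
            · exact Set.disjoint_left.mp hd htA ht) hAc (hBc.insert hu huv (hR _ _ huv)) rfl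
        exact ⟨A', B', h1, (Set.subset_insert v B).trans h2, h3⟩
    · push Not at hc
      refine ⟨A, B, subset_rfl, subset_rfl, hd, ?_, hAc, hBc⟩
      apply Set.Subset.antisymm (Set.union_subset hA hB)
      intro t ht
      obtain ⟨a, ha⟩ := hne
      exact hH (A ∪ B) (fun u hu v hv huv huP => by
        by_contra hvn
        exact hc u huP v hv hvn huv) a (hA ha) t ht (Or.inl ha)

end P3
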