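import Pool.Agent.Lib_MP_b306af.P3Torso

/-!
# MP_b306af, Part III: the counting lemma (Lemma 3)
-/

set_option autoImplicit false

namespace P3

open P4

variable {V : Type}

theorem cyc3_of_corners {a b c u v w : V} (hu : u = a ∨ u = b ∨ u = c) (hv : v = a ∨ v = b ∨ v = c)
    (hw : w = a ∨ w = b ∨ w = c) (h1 : u ≠ v) (h2 : v ≠ w) (h3 : w ≠ u) :
    Cyc3 a b c u v w ∨ Cyc3 b a c u v w := by
  unfold Cyc3
  rcases hu with rfl | rfl | rfl <;> rcases hv with rfl | rfl | rfl <;>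
    rcases hw with rfl | rfl | rfl <;> tauto

theorem cyc3_dart {p q x u v : V} (hu : u = p ∨ u = q ∨ u = x) (hv : v = p ∨ v = q ∨ v = x)
    (h : u ≠ v) : ∃ c, Cyc3 p q x u v c ∨ Cyc3 p q x v u c := by
  rcases te_of_corners hu hv h with ⟨rfl, rfl⟩ | ⟨rfl, rfl⟩ | ⟨rfl, rfl⟩ | ⟨rfl, rfl⟩ | ⟨rfl, rfl⟩ |
    ⟨rfl, rfl⟩
  · exact ⟨x, Or.inl (Or.inl ⟨rfl, rfl, rfl⟩)⟩
  · exact ⟨x, Or.inr (Or.inl ⟨rfl, rfl, rfl⟩)⟩
  · exact ⟨p, Or.inl (Or.inr (Or.inl ⟨rfl, rfl, rfl⟩))⟩
  · exact ⟨p, Or.inr (Or.inr (Or.inl ⟨rfl, rfl, rfl⟩))⟩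
  · exact ⟨q, Or.inl (Or.inr (Or.inr ⟨rfl, rfl, rfl⟩))⟩
  · exact ⟨q, Or.inr (Or.inr (Or.inr ⟨rfl, rfl, rfl⟩))⟩

theorem cyc3_corners {p q x a b c : V} (h : Cyc3 p q x a b c) :
    (a = p ∨ a = q ∨ a = x) ∧ (b = p ∨ b = q ∨ b = x) ∧ (c = p ∨ c = q ∨ c = x) := by
  rcases h with ⟨rfl, rfl, rfl⟩ | ⟨rfl, rfl, rfl⟩ | ⟨rfl, rfl, rfl⟩ <;> simp

/-- `y` touches the triangle `p q x` -/
def Tch (T : Tri V) (p q x y : V) : Prop :=
  ∃ a b, a ≠ b ∧ Cor p q x a ∧ Cor p q x b ∧ St T y a ∧ St T y b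

theorem tch_unique {T : Tri V} {M : Finset V} (hF : Far T M) {p q x y z : V} (hy : y ∈ M)
    (hz : z ∈ M) (h : Tch T p q x y) (h' : Tch T p q x z) : y = z := by
  by_contra hne
  obtain ⟨a, b, hab, ha, hb, ya, yb⟩ := h
  obtain ⟨c, d, hcd, hc, hd, zc, zd⟩ := h'
  exact four_in_three hab (hF y hy z hz hne a c ya zc).1 (hF y hy z hz hne a d ya zd).1
    (hF y hy z hz hne b c yb zc).1 (hF y hy z hz hne b d yb zd).1 hcd ha hb hc hd

section
variable {T T' : Tri V} {r s t : V} {n : ℕ} {p q x : Fin n → V} {Ti : Fin n → Tri V}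
  {M : Finset V}

theorem Torso.face_t (hT : Torso T T' r s t n p q x Ti) {y u v : V}
    (hyc : ∀ i, ¬ Cor (p i) (q i) (x i) y) (h : T'.F y u v) : T.F y u v :=
  (hT.split _ _ _).mpr (Or.inl ⟨h, fun i hi => hyc i (cyc3_corners hi).1⟩)

/-- the face opposite to a mark which is not a corner -/
theorem Torso.opp_face (hT : Torso T T' r s t n p q x Ti) (hD : Dat T M r s t)
    (h5 : ¬ nv T ≤ 4) (hR : Red T M r s t) {y u v w : V} (hy : y ∈ M)
    (hyc : ∀ i, ¬ Cor (p i) (q i) (x i) y) (h1 : T'.F y u v) (h2 : T'.F v u w) :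
    Cyc3 r s t v u w ∨ ∃ i, Cyc3 (p i) (q i) (x i) v u w := by
  have hF := hT.face_t hyc h1
  have hFu : T'.F u v y := T'.cyc _ _ _ h1
  -- a face of T' with two corners u, v and without y is the face v u w
  have key : ∀ a b c, T'.F a b c → ¬ Cor a b c y → Cor a b c u → Cor a b c v →
      Cyc3 a b c v u w := by
    intro a b c hf hny hu hv
    obtain ⟨d, hd | hd⟩ := cyc3_dart hu hv (F_ne h1).2.1
    · have e : d = y := T'.uniq _ _ _ _ (Cyc3.F hd hf) hFu
      rw [e] at hd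
      exact absurd (cyc3_corners hd).2.2 hny
    · have e : d = w := T'.uniq _ _ _ _ (Cyc3.F hd hf) h2
      rw [e] at hd
      exact hd
  rcases hR.r2.resolve_left h5 y hy u v hF with ⟨hu, hv⟩ | ⟨z, hz⟩
  · exact Or.inl (key r s t hT.root (hD.out y hy) hu hv)
  · right
    by_cases hzS : T'.Supp z
    · have a1 : T'.Adj u v := (F_adj h1).2.1
      have a2 : T'.Adj v z := hT.adjBack hz.qx a1.symm.supp hzS
      have a3 : T'.Adj z u := hT.adjBack hz.xp hzS a1.supp
      by_cases f1 : T'.F u v z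
      · have e : z = y := T'.uniq _ _ _ _ f1 hFu
        rw [e] at hz
        exact absurd (T.cyc _ _ _ hF) hz.nf
      · by_cases f2 : T'.F v u z
        · have e : z = w := T'.uniq _ _ _ _ f2 h2
          by_contra hno
          push Not at hno
          rw [e] at hz
          exact hz.nf' ((hT.split _ _ _).mpr (Or.inl ⟨h2, hno⟩))
        · exact absurd ⟨a1, a2, a3, f1, f2⟩ (hT.nosep u v z)
    · obtain ⟨i, hi⟩ : ∃ i, (Ti i).Supp z := (hT.suppOr hz.xp.supp).resolve_left hzS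
      have b1 := hT.adjIns hi hzS hz.xp
      have b2 := hT.adjIns hi hzS hz.qx.symm
      have c1 := hT.common i u (F_adj h1).2.1.supp b1
      have c2 := hT.common i v (F_adj h1).2.2.supp b2
      exact ⟨i, key _ _ _ (hT.face i) (hyc i) c1 c2⟩

/-- LEMMA K -/
theorem Torso.no_k4 (hT : Torso T T' r s t n p q x Ti) (hn : 0 < n) {y a b c : V}
    (hyr : ¬ Cor r s t y) (hyc : ∀ i, ¬ Cor (p i) (q i) (x i) y) (h1 : T'.F y a b)
    (h2 : T'.F y b c) (h3 : T'.F b a c) : False := by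
  have a1 := F_adj h1
  have a2 := F_adj h2
  have a3 := F_adj h3
  have nb := F_ne h2
  by_cases f1 : T'.F y a c
  · exact nb.2.1 (T'.uniq _ _ _ _ h1 f1)
  · by_cases f2 : T'.F a y c
    · have f3 : T'.F y c a := T'.cyc _ _ _ f2
      have hall := deg_three T' h1 h2 f3 h3
      have hnab : ¬ T'.F a b c := by
        intro f4
        have e : c = y := T'.uniq _ _ _ _ f4 (T'.cyc _ _ _ h1)
        exact nb.2.2 e
      have key : ∀ u v w, T'.F u v w → ¬ Cor u v w y → Cyc3 b a c u v w := by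
        intro u v w hf hny
        have ne := F_ne hf
        have ad := F_adj hf
        have cu := (hall u ad.1.supp).resolve_left (fun e => hny (Or.inl e.symm))
        have cv := (hall v ad.2.1.supp).resolve_left (fun e => hny (Or.inr (Or.inl e.symm)))
        have cw := (hall w ad.2.2.supp).resolve_left (fun e => hny (Or.inr (Or.inr e.symm)))
        rcases cyc3_of_corners cu cv cw ne.1 ne.2.1 ne.2.2 with h4 | h4
        · exact absurd (Cyc3.F (cyc3_symm h4) hf) hnab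
        · exact h4
      have k1 := key r s t hT.root hyr
      have k2 := key _ _ _ (hT.face ⟨0, hn⟩) (hyc _)
      exact hT.root' ⟨0, hn⟩ (cyc3_trans (cyc3_symm k2) (cyc3_symm k1))
    · exact hT.nosep y a c ⟨a1.1, a3.2.1, a2.2.2, f1, f2⟩

/-- different link edges have different opposite faces -/
theorem Torso.opp_ne (hT : Torso T T' r s t n p q x Ti) (hn : 0 < n) {y u v w u' v' w' : V}
    (hyr : ¬ Cor r s t y) (hyc : ∀ i, ¬ Cor (p i) (q i) (x i) y) (h1 : T'.F y u v)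
    (h2 : T'.F v u w) (h1' : T'.F y u' v') (huu : u ≠ u')
    (h : Cyc3 v u w v' u' w') : False := by
  rcases h with ⟨_, e2, _⟩ | ⟨e1, e2, _⟩ | ⟨e1, e2, _⟩
  · exact huu e2.symm
  · rw [e1, e2] at h1'
    exact hT.no_k4 hn hyr hyc h1' h1 (T'.cyc _ _ _ h2)
  · rw [e1, e2] at h1'
    exact hT.no_k4 hn hyr hyc h1 h1' h2

theorem Torso.big [Finite V] (hT : Torso T T' r s t n p q x Ti) (hn : 0 < n) {y : V}
    (hy : T'.Supp y) (hyr : ¬ Cor r s t y) : ¬ nv T ≤ 4 := by
  have h1 : nv T' < nv T := by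
    obtain ⟨A, hA, _⟩ := hT.cut ⟨0, hn⟩
    obtain ⟨v, hv, v1, v2, v3⟩ := hA.ini
    exact nv_lt_of (fun w hw => hT.suppT hw)
      ⟨v, hT.suppI _ hv, hT.insNot (i := ⟨0, hn⟩) ⟨hv, v1, v2, v3⟩⟩
  have h2 : 4 ≤ nv T' := by
    have ne := F_ne hT.root
    have ad := F_adj hT.root
    have hcard : ({y, r, s, t} : Set V).ncard = 4 := by
      rw [Set.ncard_insert_of_notMem, Set.ncard_insert_of_notMem, Set.ncard_insert_of_notMem,
        Set.ncard_singleton]
      · intro h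
        exact ne.2.1 h
      · rintro (h | h)
        · exact ne.1 h
        · exact ne.2.2 h.symm
      · rintro (h | h | h)
        · exact hyr (Or.inl h)
        · exact hyr (Or.inr (Or.inl h))
        · exact hyr (Or.inr (Or.inr h))
    rw [← hcard]
    refine Set.ncard_le_ncard ?_ (Set.toFinite _)
    rintro v (h | h | h | h)
    · rw [h]
      exact hy
    · rw [h]
      exact ad.1.supp
    · rw [h]
      exact ad.2.1.supp
    · rw [h]
      exact ad.2.2.supp
  omega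

/-- a mark of the torso which is not a corner touches two of the emptied triangles -/
theorem Torso.touch [Finite V] (hT : Torso T T' r s t n p q x Ti) (hn : 0 < n)
    (hD : Dat T M r s t) (hR : Red T M r s t) {y : V} (hy : y ∈ M) (hyS : T'.Supp y)
    (hyc : ∀ i, ¬ Cor (p i) (q i) (x i) y) :
    ∃ i j, i ≠ j ∧ Tch T (p i) (q i) (x i) y ∧ Tch T (p j) (q j) (x j) y := by
  have hyr := hD.out y hy
  have h5 := hT.big hn hyS hyr
  obtain ⟨a0, a1, f1⟩ := hyS
  have f2 := T'.F_nx (F_adj f1).2.2.symm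
  set a2 := T'.nx y a1
  have f3 := T'.F_nx (F_adj f2).2.2.symm
  set a3 := T'.nx y a2
  have n01 := (F_ne f1).2.1
  have n12 := (F_ne f2).2.1
  have n02 : a0 ≠ a2 := by
    intro e
    rw [← e] at f2
    have hall := deg_two T' f1 f2
    have ne := F_ne hT.root
    have ad := F_adj hT.root
    have c1 := (hall r ad.1.supp).resolve_left (fun e => hyr (Or.inl e.symm))
    have c2 := (hall s ad.2.1.supp).resolve_left (fun e => hyr (Or.inr (Or.inl e.symm)))
    have c3 := (hall t ad.2.2.supp).resolve_left (fun e => hyr (Or.inr (Or.inr e.symm)))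
    rcases c1 with e1 | e1 <;> rcases c2 with e2 | e2 <;> rcases c3 with e3 | e3
    · exact ne.1 (e1.trans e2.symm)
    · exact ne.1 (e1.trans e2.symm)
    · exact ne.2.2 (e3.trans e1.symm)
    · exact ne.2.1 (e2.trans e3.symm)
    · exact ne.2.1 (e2.trans e3.symm)
    · exact ne.2.2 (e3.trans e1.symm)
    · exact ne.1 (e1.trans e2.symm)
    · exact ne.1 (e1.trans e2.symm)
  obtain ⟨w1, g1⟩ := T'.opp _ _ _ (T'.cyc _ _ _ f1)
  obtain ⟨w2, g2⟩ := T'.opp _ _ _ (T'.cyc _ _ _ f2)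
  obtain ⟨w3, g3⟩ := T'.opp _ _ _ (T'.cyc _ _ _ f3)
  have o1 := hT.opp_face hD h5 hR hy hyc f1 g1
  have o2 := hT.opp_face hD h5 hR hy hyc f2 g2
  have o3 := hT.opp_face hD h5 hR hy hyc f3 g3
  have d12 : ¬ Cyc3 a1 a0 w1 a2 a1 w2 := fun h => hT.opp_ne hn hyr hyc f1 g1 f2 n01 h
  have d13 : ¬ Cyc3 a1 a0 w1 a3 a2 w3 := fun h => hT.opp_ne hn hyr hyc f1 g1 f3 n02 h
  have d23 : ¬ Cyc3 a2 a1 w2 a3 a2 w3 := fun h => hT.opp_ne hn hyr hyc f2 g2 f3 n12 h
  -- touching
  have tch : ∀ u v w i, T'.F y u v → Cyc3 (p i) (q i) (x i) v u w →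
      Tch T (p i) (q i) (x i) y := by
    intro u v w i hf hc
    have ad := F_adj (hT.face_t hyc hf)
    exact ⟨u, v, (F_ne hf).2.1, (cyc3_corners hc).2.1, (cyc3_corners hc).1, Or.inr ad.1,
      Or.inr ad.2.2.symm⟩
  have same : ∀ {u v w a b c a' b' c' : V}, Cyc3 u v w a b c → Cyc3 u v w a' b' c' →
      Cyc3 a b c a' b' c' := fun h h' => cyc3_trans (cyc3_symm h) (cyc3_symm h')
  rcases o1 with r1 | ⟨i1, r1⟩
  · rcases o2 with r2 | ⟨i2, r2⟩
    · exact absurd (same r1 r2) d12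
    · rcases o3 with r3 | ⟨i3, r3⟩
      · exact absurd (same r1 r3) d13
      · refine ⟨i2, i3, ?_, tch _ _ _ i2 f2 r2, tch _ _ _ i3 f3 r3⟩
        rintro rfl
        exact d23 (same r2 r3)
  · rcases o2 with r2 | ⟨i2, r2⟩
    · rcases o3 with r3 | ⟨i3, r3⟩
      · exact absurd (same r2 r3) d23
      · refine ⟨i1, i3, ?_, tch _ _ _ i1 f1 r1, tch _ _ _ i3 f3 r3⟩
        rintro rfl
        exact d13 (same r1 r3)
    · refine ⟨i1, i2, ?_, tch _ _ _ i1 f1 r1, tch _ _ _ i2 f2 r2⟩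
      rintro rfl
      exact d12 (same r1 r2)

theorem Torso.corner_tch (hT : Torso T T' r s t n p q x Ti) {y : V} {i : Fin n}
    (h : Cor (p i) (q i) (x i) y) : Tch T (p i) (q i) (x i) y := by
  obtain ⟨A, hA, _⟩ := hT.cut i
  obtain ⟨k1, k2, k3⟩ := hA.cut.adjs
  rcases h with e | e | e
  · exact ⟨y, q i, by rw [e]; exact k1.ne, Or.inl e, Or.inr (Or.inl rfl), Or.inl rfl,
      Or.inr (by rw [e]; exact k1)⟩
  · exact ⟨y, x i, by rw [e]; exact k2.ne, Or.inr (Or.inl e), Or.inr (Or.inr rfl), Or.inl rfl,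
      Or.inr (by rw [e]; exact k2)⟩
  · exact ⟨y, p i, by rw [e]; exact k3.ne, Or.inr (Or.inr e), Or.inl rfl, Or.inl rfl,
      Or.inr (by rw [e]; exact k3)⟩

open Classical in
/-- COUNTING (a) -/
theorem Torso.count_a [Finite V] (hT : Torso T T' r s t n p q x Ti) (hn : 0 < n)
    (hD : Dat T M r s t) (hR : Red T M r s t) :
    (M.filter fun v => T'.Supp v).card ≤ n := by
  have hex : ∀ y ∈ M.filter (fun v => T'.Supp v), ∃ i, Tch T (p i) (q i) (x i) y := by
    intro y hy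
    rw [Finset.mem_filter] at hy
    by_cases hc : ∃ i, Cor (p i) (q i) (x i) y
    · obtain ⟨i, hi⟩ := hc
      exact ⟨i, hT.corner_tch hi⟩
    · push Not at hc
      obtain ⟨i, _, _, hi, _⟩ := hT.touch hn hD hR hy.1 hy.2 hc
      exact ⟨i, hi⟩
  haveI : Nonempty (Fin n) := ⟨⟨0, hn⟩⟩
  choose! f hf using hex
  have h1 : ((M.filter fun v => T'.Supp v).image f).card = (M.filter fun v => T'.Supp v).card := by
    apply Finset.card_image_of_injOn
    intro y hy z hz hyz
    have h2 := hf y hy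
    have h3 := hf z hz
    have hyz' : f y = f z := hyz
    rw [← hyz'] at h3
    exact tch_unique hD.far (Finset.mem_filter.mp hy).1 (Finset.mem_filter.mp hz).1 h2 h3
  rw [← h1]
  calc ((M.filter fun v => T'.Supp v).image f).card ≤ (Finset.univ : Finset (Fin n)).card :=
        Finset.card_le_card (Finset.subset_univ _)
    _ = n := by rw [Finset.card_univ, Fintype.card_fin]

/-- COUNTING (b): one emptied triangle -/
theorem Torso.count_b [Finite V] {p q x : Fin 1 → V} {Ti : Fin 1 → Tri V}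
    (hT : Torso T T' r s t 1 p q x Ti) (hD : Dat T M r s t) (hR : Red T M r s t) {y : V}
    (hy : y ∈ M) (hyS : T'.Supp y) : Cor (p 0) (q 0) (x 0) y := by
  by_contra hc
  obtain ⟨i, j, hij, _⟩ := hT.touch Nat.one_pos hD hR hy hyS (fun i => by
    rw [Subsingleton.elim i 0]
    exact hc)
  exact hij (Subsingleton.elim i j)

open Classical in
/-- the marks are the marks of the torso and the marks inside the emptied triangles -/
theorem Torso.card_marks (hT : Torso T T' r s t n p q x Ti) (hM : ∀ v ∈ M, T.Supp v) :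
    M.card = (M.filter fun v => T'.Supp v).card +
      ∑ i, (Min M (Ti i) (p i) (q i) (x i)).card := by
  have hdis : ∀ i ∈ (Finset.univ : Finset (Fin n)), ∀ j ∈ (Finset.univ : Finset (Fin n)), i ≠ j →
      Disjoint (Min M (Ti i) (p i) (q i) (x i)) (Min M (Ti j) (p j) (q j) (x j)) := by
    intro i _ j _ hij
    rw [Finset.disjoint_left]
    intro v h1 h2
    unfold Min at h1 h2
    rw [Finset.mem_filter] at h1 h2
    exact hT.insNot h1.2 (hT.disj i j hij v h1.2.1 h2.2.1)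
  rw [← Finset.card_biUnion hdis, ← Finset.card_union_of_disjoint]
  · congr 1
    ext v
    rw [Finset.mem_union, Finset.mem_filter, Finset.mem_biUnion]
    constructor
    · intro hv
      by_cases h1 : T'.Supp v
      · exact Or.inl ⟨hv, h1⟩
      · right
        obtain ⟨i, hi⟩ := (hT.suppOr (hM v hv)).resolve_left h1
        refine ⟨i, Finset.mem_univ _, ?_⟩
        unfold Min
        rw [Finset.mem_filter]
        exact ⟨hv, hi, fun e => h1 (hT.cornerBoth i (Or.inl e)).1,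
          fun e => h1 (hT.cornerBoth i (Or.inr (Or.inl e))).1,
          fun e => h1 (hT.cornerBoth i (Or.inr (Or.inr e))).1⟩
    · rintro (h1 | ⟨i, _, h1⟩)
      · exact h1.1
      · unfold Min at h1
        exact (Finset.mem_filter.mp h1).1
  · rw [Finset.disjoint_left]
    intro v h1 h2
    rw [Finset.mem_filter] at h1
    rw [Finset.mem_biUnion] at h2
    obtain ⟨i, _, h2⟩ := h2
    unfold Min at h2
    exact hT.insNot (Finset.mem_filter.mp h2).2 h1.2

end

end P3
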