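import Pool.Agent.Lib_MP_b306af.P3Cut0

/-!
# MP_b306af, Part III: existence of the cut along a triangle (`cut_exists`)

`Reach T p q x u v a b` : the dart `(a, b)` is reachable from `(u, v)` by rotations in the faces and by
crossing edges which are not edges of the triangle `p q x`. Jordan: `(q, p)` is not reachable from
`(p, q)` (unit flow and `exact`). The two classes give the two parts.
-/

set_option autoImplicit false

namespace P3

open P4

variable {V : Type}

/-- `{a, b}` is an edge of the triangle `p q x` -/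
def TE (p q x a b : V) : Prop :=
  (a = p ∧ b = q) ∨ (a = q ∧ b = p) ∨ (a = q ∧ b = x) ∨ (a = x ∧ b = q) ∨ (a = x ∧ b = p) ∨
    (a = p ∧ b = x)

theorem TE.symm {p q x a b : V} (h : TE p q x a b) : TE p q x b a := by
  unfold TE at *
  tauto

theorem TE.swap {p q x a b : V} (h : TE p q x a b) : TE q p x a b := by
  unfold TE at *
  tauto

/-- darts reachable from `(u, v)` without crossing the triangle `p q x` -/
inductive Reach (T : Tri V) (p q x u v : V) : V → V → Prop
  | base : Reach T p q x u v u v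
  | rot {a b c : V} : Reach T p q x u v a b → T.F a b c → Reach T p q x u v b c
  | cross {a b : V} : Reach T p q x u v a b → ¬ TE p q x a b → Reach T p q x u v b a

namespace Reach

variable {T : Tri V} {p q x u v : V}

theorem adj (huv : T.Adj u v) {a b : V} (h : Reach T p q x u v a b) : T.Adj a b := by
  induction h with
  | base => exact huv
  | rot _ hF _ => exact (F_adj hF).2.1
  | cross _ _ ih => exact ih.symm

theorem trans {a b s t : V} (h1 : Reach T p q x u v a b) (h2 : Reach T p q x a b s t) :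
    Reach T p q x u v s t := by
  induction h2 with
  | base => exact h1
  | rot _ hF ih => exact ih.rot hF
  | cross _ hn ih => exact ih.cross hn

theorem symm {a b : V} (h : Reach T p q x u v a b) : Reach T p q x a b u v := by
  induction h with
  | base => exact base
  | rot _ hF ih =>
    exact ((base.rot (T.cyc _ _ _ hF)).rot (T.cyc2 hF)).trans ih
  | cross _ hn ih => exact (base.cross (fun h => hn h.symm)).trans ih

theorem swap {a b : V} (h : Reach T p q x u v a b) : Reach T q p x u v a b := by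
  induction h with
  | base => exact base
  | rot _ hF ih => exact ih.rot hF
  | cross _ hn ih => exact ih.cross (fun h => hn h.swap)

theorem rot2 {a b c : V} (h : Reach T p q x u v a b) (hF : T.F a b c) : Reach T p q x u v c a :=
  (h.rot hF).rot (T.cyc _ _ _ hF)

end Reach

/-! ### Jordan -/

open Classical in
/-- indicator of the dart `(a, b)` -/
noncomputable def ed (a b s t : V) : ℝ := if s = a ∧ t = b then 1 else 0

theorem ed_self (a b : V) : ed a b a b = 1 := by
  unfold ed
  rw [if_pos ⟨rfl, rfl⟩]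

theorem ed_zero {a b s t : V} (h : ¬ (s = a ∧ t = b)) : ed a b s t = 0 := by
  unfold ed
  rw [if_neg h]

theorem ed_rev (a b s t : V) : ed a b s t = ed b a t s := by
  unfold ed
  by_cases h : s = a ∧ t = b
  · rw [if_pos h, if_pos ⟨h.2, h.1⟩]
  · rw [if_neg h, if_neg (fun h' => h ⟨h'.2, h'.1⟩)]

theorem ed_rot (T : Tri V) {a b c s t r : V} (hF : T.F a b c) (hG : T.F s t r) :
    ed a b s t = ed b c t r := by
  unfold ed
  by_cases h : s = a ∧ t = b
  · have h2 : r = c := by
      rw [h.1, h.2] at hG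
      exact T.uniq _ _ _ _ hG hF
    rw [if_pos h, if_pos ⟨h.2, h2⟩]
  · rw [if_neg h, if_neg]
    rintro ⟨h1, h2⟩
    refine h ⟨?_, h1⟩
    rw [h1, h2] at hG
    exact T.uniq _ _ _ _ (T.cyc _ _ _ hG) (T.cyc _ _ _ hF)

theorem flow {T : Tri V} {p q x u v a b : V} (h : Reach T p q x u v a b) :
    ∃ κ : V → V → ℝ, (∀ s t, κ s t = - κ t s) ∧ (∀ s t, TE p q x s t → κ s t = 0) ∧
      ∀ s t r, T.F s t r → κ s t + κ t r + κ r s =
        (ed u v s t + ed u v t r + ed u v r s) - (ed a b s t + ed a b t r + ed a b r s) := by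
  induction h with
  | base => exact ⟨fun _ _ => 0, fun _ _ => by simp, fun _ _ _ => rfl, fun _ _ _ _ => by ring⟩
  | @rot a b c _ hF ih =>
    obtain ⟨κ, h1, h2, h3⟩ := ih
    refine ⟨κ, h1, h2, fun s t r hG => ?_⟩
    have e1 := ed_rot T hF hG
    have e2 := ed_rot T hF (T.cyc _ _ _ hG)
    have e3 := ed_rot T hF (T.cyc2 hG)
    rw [h3 s t r hG, e1, e2, e3]
    ring
  | @cross a b _ hn ih =>
    obtain ⟨κ, h1, h2, h3⟩ := ih
    refine ⟨fun s t => κ s t + ed a b s t - ed b a s t, ?_, ?_, ?_⟩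
    · intro s t
      beta_reduce
      rw [h1 s t, ed_rev a b s t, ed_rev b a s t]
      ring
    · intro s t hst
      beta_reduce
      rw [h2 s t hst, ed_zero (a := a) (b := b), ed_zero (a := b) (b := a)]
      · ring
      · rintro ⟨rfl, rfl⟩
        exact hn hst.symm
      · rintro ⟨rfl, rfl⟩
        exact hn hst
    · intro s t r hG
      have := h3 s t r hG
      linarith

theorem jordan {T : Tri V} {p q x : V} (h1 : T.Adj p q) (h2 : T.Adj q x) (h3 : T.Adj x p) :
    ¬ Reach T p q x p q q p := by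
  intro h
  obtain ⟨κ, k1, k2, k3⟩ := flow h
  obtain ⟨f, hf⟩ := T.exact (fun s t => κ s t - ed p q s t + ed q p s t)
    (fun s t => by
      rw [k1 s t, ed_rev p q s t, ed_rev q p s t]
      ring)
    (fun s t r hG => by
      have := k3 s t r hG
      linarith)
  obtain ⟨y1, hy1⟩ := h1
  obtain ⟨y2, hy2⟩ := h2
  obtain ⟨y3, hy3⟩ := h3
  have e1 := hf p q y1 hy1
  have e2 := hf q x y2 hy2
  have e3 := hf x p y3 hy3
  have n1 : p ≠ q := T.ne _ _ _ hy1
  have n2 : q ≠ x := T.ne _ _ _ hy2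
  have n3 : x ≠ p := T.ne _ _ _ hy3
  rw [k2 p q (Or.inl ⟨rfl, rfl⟩), ed_self, ed_zero (fun h => n1 h.1)] at e1
  rw [k2 q x (Or.inr (Or.inr (Or.inl ⟨rfl, rfl⟩))), ed_zero (fun h => n1 h.1.symm),
    ed_zero (fun h => n3 h.2)] at e2
  rw [k2 x p (Or.inr (Or.inr (Or.inr (Or.inr (Or.inl ⟨rfl, rfl⟩))))), ed_zero (fun h => n3 h.1),
    ed_zero (fun h => n2 h.1.symm)] at e3
  linarith

/-- going around a corner `c` of the triangle from `a` to `b` -/
theorem arc [Finite V] {T : Tri V} {p q x u v a b c : V}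
    (hc : ∀ w, TE p q x w c → w = a ∨ w = b) (hca : T.Adj c a) (hbc : T.Adj b c)
    (h : Reach T p q x u v c a) : Reach T p q x u v b c := by
  by_contra hn
  have key := link_closed T c {w | Reach T p q x u v c w} ⟨a, h, hca⟩ (by
    intro w z hF hw
    have h1 : Reach T p q x u v c w := hw
    have h2 := h1.rot2 hF
    by_cases hz : TE p q x z c
    · rcases hc z hz with e | e
      · rw [e]
        exact h
      · rw [e] at h2
        exact absurd h2 hn
    · exact h2.cross hz)
  obtain ⟨y, hy⟩ := hbc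
  have h1 := T.cyc _ _ _ hy
  have h2 : Reach T p q x u v c y := key y ⟨b, h1⟩
  exact hn (h2.rot2 h1)

section classes

variable {T : Tri V} {p q x : V}

theorem te_p (n1 : p ≠ q) (n2 : q ≠ x) (n3 : x ≠ p) : ∀ w, TE p q x w p → w = q ∨ w = x := by
  intro w h
  rcases h with h | h | h | h | h | h
  · exact absurd h.2 n1
  · exact Or.inl h.1
  · exact Or.inl h.1
  · exact Or.inr h.1
  · exact Or.inr h.1
  · exact absurd h.2.symm n3

theorem te_q (n1 : p ≠ q) (n2 : q ≠ x) (n3 : x ≠ p) : ∀ w, TE p q x w q → w = p ∨ w = x := by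
  intro w h
  rcases h with h | h | h | h | h | h
  · exact Or.inl h.1
  · exact absurd h.2.symm n1
  · exact absurd h.2 n2
  · exact Or.inr h.1
  · exact Or.inr h.1
  · exact absurd h.2 n2

theorem te_x (n1 : p ≠ q) (n2 : q ≠ x) (n3 : x ≠ p) : ∀ w, TE p q x w x → w = p ∨ w = q := by
  intro w h
  rcases h with h | h | h | h | h | h
  · exact absurd h.2.symm n2
  · exact absurd h.2 n3
  · exact Or.inr h.1
  · exact absurd h.2.symm n2
  · exact absurd h.2 n3
  · exact Or.inl h.1

variable [Finite V]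

/-- the darts of the triangle in the class of `(p, q)` -/
theorem left_darts (h1 : T.Adj p q) (h2 : T.Adj q x) (h3 : T.Adj x p) :
    Reach T p q x p q x p ∧ Reach T p q x p q q x := by
  have a1 := arc (T := T) (u := p) (v := q) (a := q) (b := x) (c := p)
    (te_p h1.ne h2.ne h3.ne) h1 h3 Reach.base
  have a2 := arc (T := T) (u := p) (v := q) (a := p) (b := q) (c := x)
    (te_x h1.ne h2.ne h3.ne) h3 h2 a1
  exact ⟨a1, a2⟩

/-- the darts of the triangle in the class of `(q, p)` -/
theorem right_darts (h1 : T.Adj p q) (h2 : T.Adj q x) (h3 : T.Adj x p) :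
    Reach T p q x q p x q ∧ Reach T p q x q p p x := by
  have a1 := arc (T := T) (u := q) (v := p) (a := p) (b := x) (c := q)
    (te_q h1.ne h2.ne h3.ne) h1.symm h2.symm Reach.base
  have a2 := arc (T := T) (u := q) (v := p) (a := q) (b := p) (c := x)
    (fun w hw => (te_x h1.ne h2.ne h3.ne w hw).symm) h2.symm h3.symm a1
  exact ⟨a1, a2⟩

theorem classes_disj (h1 : T.Adj p q) (h2 : T.Adj q x) (h3 : T.Adj x p) {a b : V}
    (ha : Reach T p q x p q a b) (hb : Reach T p q x q p a b) : False :=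
  jordan h1 h2 h3 (ha.trans hb.symm)

theorem classes_total (h1 : T.Adj p q) (h2 : T.Adj q x) (h3 : T.Adj x p) {a b : V}
    (hab : T.Adj a b) : Reach T p q x q p a b ∨ Reach T p q x p q a b := by
  obtain ⟨l1, l2⟩ := left_darts h1 h2 h3
  obtain ⟨r1, r2⟩ := right_darts h1 h2 h3
  obtain ⟨c, hc⟩ := hab
  obtain ⟨y, hy⟩ := h1
  refine T.trans (fun s t => Reach T p q x q p s t ∨ Reach T p q x p q s t) ?_ ?_ p q y a b c hy hc
    (Or.inr Reach.base)
  · intro s t r hF h
    rcases h with h | h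
    · exact Or.inl (h.rot hF)
    · exact Or.inr (h.rot hF)
  · intro s t r hF h
    by_cases hte : TE p q x s t
    · rcases hte with ⟨rfl, rfl⟩ | ⟨rfl, rfl⟩ | ⟨rfl, rfl⟩ | ⟨rfl, rfl⟩ | ⟨rfl, rfl⟩ | ⟨rfl, rfl⟩
      · exact Or.inl Reach.base
      · exact Or.inr Reach.base
      · exact Or.inl r1
      · exact Or.inr l2
      · exact Or.inl r2
      · exact Or.inr l1
    · rcases h with h | h
      · exact Or.inl (h.cross hte)
      · exact Or.inr (h.cross hte)

end classes

/-- one half -/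
theorem half_exists [Finite V] (T : Tri V) {p q x : V} (h1 : T.Adj p q) (h2 : T.Adj q x)
    (h3 : T.Adj x p) : ∃ A : Tri V, ∀ a b c, A.F a b c ↔
      (T.F a b c ∧ Reach T p q x q p a b) ∨ Cyc3 p q x a b c := by
  classical
  have n1 := h1.ne
  have n2 := h2.ne
  have n3 := h3.ne
  obtain ⟨l1, l2⟩ := left_darts h1 h2 h3
  obtain ⟨r1, r2⟩ := right_darts h1 h2 h3
  have l0 : Reach T p q x p q p q := Reach.base
  have r0 : Reach T p q x q p q p := Reach.base
  have hdj : ∀ a b, Reach T p q x q p a b → Reach T p q x p q a b → False :=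
    fun a b ha hb => classes_disj h1 h2 h3 hb ha
  -- darts of the new face are in the left class
  have hcy : ∀ a b c, Cyc3 p q x a b c → Reach T p q x p q a b := by
    rintro a b c (⟨rfl, rfl, rfl⟩ | ⟨rfl, rfl, rfl⟩ | ⟨rfl, rfl, rfl⟩)
    · exact l0
    · exact l2
    · exact l1
  have hcyr : ∀ a b c, Cyc3 p q x a b c → Reach T p q x q p b a := by
    rintro a b c (⟨rfl, rfl, rfl⟩ | ⟨rfl, rfl, rfl⟩ | ⟨rfl, rfl, rfl⟩)
    · exact r0
    · exact r1
    · exact r2
  have hcyF : ∀ a b, TE p q x a b → Reach T p q x q p a b → ∃ d, Cyc3 p q x b a d := by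
    intro a b hte hr
    rcases hte with ⟨rfl, rfl⟩ | ⟨rfl, rfl⟩ | ⟨rfl, rfl⟩ | ⟨rfl, rfl⟩ | ⟨rfl, rfl⟩ | ⟨rfl, rfl⟩
    · exact absurd l0 (fun h => hdj _ _ hr h)
    · exact ⟨x, Or.inl ⟨rfl, rfl, rfl⟩⟩
    · exact absurd l2 (fun h => hdj _ _ hr h)
    · exact ⟨p, Or.inr (Or.inl ⟨rfl, rfl, rfl⟩)⟩
    · exact absurd l1 (fun h => hdj _ _ hr h)
    · exact ⟨q, Or.inr (Or.inr ⟨rfl, rfl, rfl⟩)⟩
  have hcy_uniq : ∀ a b c d, Cyc3 p q x a b c → Cyc3 p q x a b d → c = d := by
    rintro a b c d (⟨h4, h5, h6⟩ | ⟨h4, h5, h6⟩ | ⟨h4, h5, h6⟩) (⟨h7, h8, h9⟩ | ⟨h7, h8, h9⟩ | ⟨h7, h8, h9⟩)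
    · rw [h6, h9]
    · exact absurd (h4.symm.trans h7) n1
    · exact absurd (h4.symm.trans h7).symm n3
    · exact absurd (h7.symm.trans h4) n1
    · rw [h6, h9]
    · exact absurd (h4.symm.trans h7) n2
    · exact absurd (h7.symm.trans h4).symm n3
    · exact absurd (h7.symm.trans h4) n2
    · rw [h6, h9]
  obtain ⟨F', hF'⟩ : ∃ F' : V → V → V → Prop, F' = fun a b c =>
      (T.F a b c ∧ Reach T p q x q p a b) ∨ Cyc3 p q x a b c := ⟨_, rfl⟩
  have mem : ∀ a b c, F' a b c ↔ (T.F a b c ∧ Reach T p q x q p a b) ∨ Cyc3 p q x a b c := by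
    intro a b c
    rw [hF']
  have cyc' : ∀ a b c, F' a b c → F' b c a := by
    intro a b c h
    rw [mem] at h ⊢
    rcases h with ⟨hF, hr⟩ | h
    · exact Or.inl ⟨T.cyc _ _ _ hF, hr.rot hF⟩
    · exact Or.inr (Cyc3.rot h)
  have opp' : ∀ a b c, F' a b c → ∃ d, F' b a d := by
    intro a b c h
    rw [mem] at h
    rcases h with ⟨hF, hr⟩ | h
    · by_cases hte : TE p q x a b
      · obtain ⟨d, hd⟩ := hcyF a b hte hr
        exact ⟨d, (mem _ _ _).mpr (Or.inr hd)⟩
      · obtain ⟨d, hd⟩ := T.opp _ _ _ hF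
        exact ⟨d, (mem _ _ _).mpr (Or.inl ⟨hd, hr.cross hte⟩)⟩
    · have hr := hcyr a b c h
      obtain ⟨d, hd⟩ := hr.adj h1.symm
      exact ⟨d, (mem _ _ _).mpr (Or.inl ⟨hd, hr⟩)⟩
  have ne' : ∀ a b c, F' a b c → a ≠ b := by
    intro a b c h
    rw [mem] at h
    rcases h with ⟨hF, hr⟩ | ⟨h4, h5, h6⟩ | ⟨h4, h5, h6⟩ | ⟨h4, h5, h6⟩
    · exact T.ne _ _ _ hF
    · rw [h4, h5]
      exact n1
    · rw [h4, h5]
      exact n2
    · rw [h4, h5]
      exact n3
  have uniq' : ∀ a b c d, F' a b c → F' a b d → c = d := by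
    intro a b c d h h'
    rw [mem] at h h'
    rcases h with ⟨hF, hr⟩ | h
    · rcases h' with ⟨hF', hr'⟩ | h'
      · exact T.uniq _ _ _ _ hF hF'
      · exact absurd (hcy a b d h') (fun h => hdj _ _ hr h)
    · rcases h' with ⟨hF', hr'⟩ | h'
      · exact absurd (hcy a b c h) (fun h => hdj _ _ hr' h)
      · exact hcy_uniq a b c d h h'
  have trans' : ∀ P : V → V → Prop,
      (∀ a b c, F' a b c → P a b → P b c) → (∀ a b c, F' a b c → P a b → P b a) →
      ∀ a b c y z w, F' a b c → F' y z w → P a b → P y z := by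
    intro P k1 k2
    have k1' : ∀ a b c, F' a b c → (P a b ↔ P b c) := fun a b c h =>
      ⟨k1 a b c h, fun h' => k1 _ _ _ (cyc' _ _ _ (cyc' _ _ _ h)) (k1 _ _ _ (cyc' _ _ _ h) h')⟩
    have k2' : ∀ a b c, F' a b c → (P a b ↔ P b a) := fun a b c h =>
      ⟨k2 a b c h, fun h' => by
        obtain ⟨d, hd⟩ := opp' a b c h
        exact k2 _ _ _ hd h'⟩
    have key : ∀ a b, Reach T p q x q p a b → (P a b ↔ P q p) := by
      intro a b h
      induction h with
      | base => exact Iff.rfl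
      | rot hr hF ih => exact (k1' _ _ _ ((mem _ _ _).mpr (Or.inl ⟨hF, hr⟩))).symm.trans ih
      | cross hr hn ih =>
        obtain ⟨d, hd⟩ := hr.adj h1.symm
        exact (k2' _ _ _ ((mem _ _ _).mpr (Or.inl ⟨hd, hr⟩))).symm.trans ih
    have all : ∀ a b c, F' a b c → (P a b ↔ P q p) := by
      intro a b c h
      rcases (mem _ _ _).mp h with ⟨hF, hr⟩ | h4
      · exact key a b hr
      · exact (k2' a b c h).trans (key b a (hcyr a b c h4))
    intro a b c y z w h h' hP
    exact (all y z w h').mpr ((all a b c h).mp hP)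
  have exact' : ∀ κ : V → V → ℝ, (∀ a b, κ a b = - κ b a) →
      (∀ a b c, F' a b c → κ a b + κ b c + κ c a = 0) →
      ∃ h : V → ℝ, ∀ a b c, F' a b c → κ a b = h b - h a := by
    intro κ hκ hz
    have htri := hz p q x ((mem p q x).mpr (Or.inr (Or.inl ⟨rfl, rfl, rfl⟩)))
    obtain ⟨g, hg⟩ : ∃ g : V → ℝ, g = fun v => if v = q then κ p q else
      if v = x then κ p q + κ q x else 0 := ⟨_, rfl⟩
    have gp : g p = 0 := by
      rw [hg]
      beta_reduce
      rw [if_neg n1, if_neg n3.symm]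
    have gq : g q = κ p q := by
      rw [hg]
      beta_reduce
      rw [if_pos rfl]
    have gx : g x = κ p q + κ q x := by
      rw [hg]
      beta_reduce
      rw [if_neg n2.symm, if_pos rfl]
    have hte : ∀ a b, TE p q x a b → κ a b = g b - g a := by
      rintro a b (⟨rfl, rfl⟩ | ⟨rfl, rfl⟩ | ⟨rfl, rfl⟩ | ⟨rfl, rfl⟩ | ⟨rfl, rfl⟩ | ⟨rfl, rfl⟩)
      · rw [gp, gq]
        ring
      · rw [gp, gq, hκ]
        ring
      · rw [gq, gx]
        ring
      · rw [gq, gx, hκ]
        ring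
      · rw [gp, gx]
        linarith
      · rw [gp, gx]
        have := hκ a b
        linarith
    obtain ⟨κ', hκ'⟩ : ∃ κ' : V → V → ℝ, κ' = fun a b =>
        if Reach T p q x q p a b ∨ Reach T p q x q p b a then κ a b else g b - g a := ⟨_, rfl⟩
    have kr : ∀ a b, Reach T p q x q p a b → κ' a b = κ a b := by
      intro a b h
      rw [hκ']
      beta_reduce
      rw [if_pos (Or.inl h)]
    have kl : ∀ a b, Reach T p q x p q a b → κ' a b = g b - g a := by
      intro a b h
      rw [hκ']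
      beta_reduce
      by_cases h4 : Reach T p q x q p a b ∨ Reach T p q x q p b a
      · rw [if_pos h4]
        by_cases h5 : TE p q x a b
        · exact hte a b h5
        · rcases h4 with h4 | h4
          · exact absurd h (fun h => hdj _ _ h4 h)
          · exact absurd (h.cross h5) (fun h => hdj _ _ h4 h)
      · rw [if_neg h4]
    obtain ⟨h, hh⟩ := T.exact κ' (by
      intro a b
      rw [hκ']
      beta_reduce
      by_cases h4 : Reach T p q x q p a b ∨ Reach T p q x q p b a
      · rw [if_pos h4, if_pos h4.symm, hκ]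
      · rw [if_neg h4, if_neg (fun h5 => h4 h5.symm)]
        ring) (by
      intro a b c hF
      rcases classes_total h1 h2 h3 (F_adj hF).1 with h4 | h4
      · rw [kr a b h4, kr b c (h4.rot hF), kr c a (h4.rot2 hF)]
        exact hz a b c ((mem _ _ _).mpr (Or.inl ⟨hF, h4⟩))
      · rw [kl a b h4, kl b c (h4.rot hF), kl c a (h4.rot2 hF)]
        ring)
    refine ⟨h, fun a b c hF => ?_⟩
    rcases (mem _ _ _).mp hF with ⟨hF4, hr⟩ | h4
    · rw [← kr a b hr]
      exact hh a b c hF4
    · have hr := hcyr a b c h4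
      obtain ⟨d, hd⟩ := hr.adj h1.symm
      have h5 := hh b a d hd
      rw [kr b a hr] at h5
      rw [hκ a b]
      linarith
  exact ⟨{ F := F', cyc := cyc', uniq := uniq', opp := opp', ne := ne', trans := trans',
           exact := exact' }, mem⟩

/-- Any three pairwise adjacent vertices cut the triangulation. -/
theorem cut_exists [Finite V] (T : Tri V) {p q x : V} (h1 : T.Adj p q) (h2 : T.Adj q x)
    (h3 : T.Adj x p) : ∃ To Ti : Tri V, Cut T To Ti p q x := by
  obtain ⟨To, hTo⟩ := half_exists T h1 h2 h3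
  obtain ⟨Ti, hTi⟩ := half_exists T h1.symm h3.symm h2.symm
  obtain ⟨l1, l2⟩ := left_darts h1 h2 h3
  obtain ⟨r1, r2⟩ := right_darts h1 h2 h3
  have hTi' : ∀ a b c, Ti.F a b c ↔ (T.F a b c ∧ Reach T p q x p q a b) ∨ Cyc3 q p x a b c := by
    intro a b c
    rw [hTi]
    constructor
    · rintro (h | h)
      · exact Or.inl ⟨h.1, h.2.swap⟩
      · exact Or.inr h
    · rintro (h | h)
      · exact Or.inl ⟨h.1, h.2.swap⟩
      · exact Or.inr h
  refine ⟨To, Ti, ?_, ?_, ?_, ?_⟩
  · exact (hTo _ _ _).mpr (Or.inr (Or.inl ⟨rfl, rfl, rfl⟩))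
  · exact (hTi' _ _ _).mpr (Or.inr (Or.inl ⟨rfl, rfl, rfl⟩))
  · intro a b c
    constructor
    · intro hF
      rcases classes_total h1 h2 h3 (F_adj hF).1 with h | h
      · refine Or.inl ⟨(hTo _ _ _).mpr (Or.inl ⟨hF, h⟩), fun h4 => ?_⟩
        refine classes_disj h1 h2 h3 ?_ h
        rcases h4 with ⟨rfl, rfl, rfl⟩ | ⟨rfl, rfl, rfl⟩ | ⟨rfl, rfl, rfl⟩
        · exact Reach.base
        · exact l2
        · exact l1
      · refine Or.inr ⟨(hTi' _ _ _).mpr (Or.inl ⟨hF, h⟩), fun h4 => ?_⟩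
        refine classes_disj h1 h2 h3 h ?_
        rcases h4 with ⟨rfl, rfl, rfl⟩ | ⟨rfl, rfl, rfl⟩ | ⟨rfl, rfl, rfl⟩
        · exact Reach.base
        · exact r2
        · exact r1
    · rintro (⟨h, hn⟩ | ⟨h, hn⟩)
      · rcases (hTo _ _ _).mp h with h | h
        · exact h.1
        · exact absurd h hn
      · rcases (hTi' _ _ _).mp h with h | h
        · exact h.1
        · exact absurd h hn
  · intro v ho hi
    by_contra hv
    push Not at hv
    obtain ⟨b, c, hb⟩ := ho
    obtain ⟨b', c', hb'⟩ := hi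
    have hvb : T.F v b c ∧ Reach T p q x q p v b := by
      rcases (hTo _ _ _).mp hb with h | h
      · exact h
      · rcases h with h | h | h
        · exact absurd h.1 hv.1
        · exact absurd h.1 hv.2.1
        · exact absurd h.1 hv.2.2
    have hvb' : T.F v b' c' ∧ Reach T p q x p q v b' := by
      rcases (hTi' _ _ _).mp hb' with h | h
      · exact h
      · rcases h with h | h | h
        · exact absurd h.1 hv.2.1
        · exact absurd h.1 hv.1
        · exact absurd h.1 hv.2.2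
    have hnte : ∀ w, ¬ TE p q x w v := by
      intro w h
      rcases h with h | h | h | h | h | h
      · exact hv.2.1 h.2
      · exact hv.1 h.2
      · exact hv.2.2 h.2
      · exact hv.2.1 h.2
      · exact hv.1 h.2
      · exact hv.2.2 h.2
    have key := link_closed T v {w | Reach T p q x q p v w} ⟨b, hvb.2, ⟨c, hvb.1⟩⟩ (by
      intro w z hF hw
      have h1 : Reach T p q x q p v w := hw
      exact (h1.rot2 hF).cross (hnte z))
    exact classes_disj h1 h2 h3 hvb'.2 (key b' ⟨c', hvb'.1⟩)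

end P3
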