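import Pool.Agent.Lib_MP_b306af.P3Tri

/-!
# MP_b306af, Part III: cuts along triangles (`Cut`)
-/

set_option autoImplicit false

namespace P3

open P4

variable {V : Type}

/-- `T` is cut along the triangle `p q x` in `To` (outside, where `p q x` is a face) and `Ti` (inside,
where `q p x` is a face). -/
structure Cut (T To Ti : Tri V) (p q x : V) : Prop where
  Fo : To.F p q x
  Fi : Ti.F q p x
  split : ∀ a b c, T.F a b c ↔
    (To.F a b c ∧ ¬ Cyc3 p q x a b c) ∨ (Ti.F a b c ∧ ¬ Cyc3 q p x a b c)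
  common : ∀ v, To.Supp v → Ti.Supp v → v = p ∨ v = q ∨ v = x

theorem Cyc3.rot {p q x a b c : V} (h : Cyc3 p q x a b c) : Cyc3 p q x b c a := by
  rcases h with ⟨h1, h2, h3⟩ | ⟨h1, h2, h3⟩ | ⟨h1, h2, h3⟩
  · exact Or.inr (Or.inl ⟨h2, h3, h1⟩)
  · exact Or.inr (Or.inr ⟨h2, h3, h1⟩)
  · exact Or.inl ⟨h2, h3, h1⟩

theorem Cyc3.F {T : Tri V} {p q x a b c : V} (h : Cyc3 p q x a b c) (hF : T.F p q x) :
    T.F a b c := by
  rcases h with ⟨h1, h2, h3⟩ | ⟨h1, h2, h3⟩ | ⟨h1, h2, h3⟩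
  · rw [h1, h2, h3]
    exact hF
  · rw [h1, h2, h3]
    exact T.cyc _ _ _ hF
  · rw [h1, h2, h3]
    exact T.cyc2 hF

/-- A rotation of `p q x` does not contain the dart of a rotation of `q p x`. -/
theorem Cyc3.not_rev {T : Tri V} {p q x a b c c' : V} (hF : T.F p q x) (h : Cyc3 p q x a b c)
    (h' : Cyc3 p q x b a c') : False := by
  have hne := F_ne hF
  rcases h with ⟨h1, h2, -⟩ | ⟨h1, h2, -⟩ | ⟨h1, h2, -⟩ <;>
    rcases h' with ⟨h3, h4, -⟩ | ⟨h3, h4, -⟩ | ⟨h3, h4, -⟩ <;> subst h1 <;> subst h2 <;> tauto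

namespace Cut

variable {T To Ti : Tri V} {p q x : V}

/-- the symmetry of a cut -/
theorem symm (h : Cut T To Ti p q x) : Cut T Ti To q p x where
  Fo := h.Fi
  Fi := h.Fo
  split a b c := by rw [h.split, or_comm]
  common v h1 h2 := by
    have := h.common v h2 h1
    tauto

/-- rotation of the triangle -/
theorem rot (h : Cut T To Ti p q x) : Cut T To Ti q x p where
  Fo := To.cyc _ _ _ h.Fo
  Fi := Ti.cyc2 h.Fi
  split a b c := by
    have e1 : Cyc3 p q x a b c ↔ Cyc3 q x p a b c := by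
      unfold Cyc3
      tauto
    have e2 : Cyc3 q p x a b c ↔ Cyc3 x q p a b c := by
      unfold Cyc3
      tauto
    rw [h.split, e1, e2]
  common v h1 h2 := by
    have := h.common v h1 h2
    tauto

theorem adj_o (h : Cut T To Ti p q x) {a b : V} (hab : To.Adj a b) : T.Adj a b := by
  obtain ⟨c, hc⟩ := hab
  by_cases h1 : Cyc3 p q x a b c
  · obtain ⟨d, hd⟩ := To.opp _ _ _ hc
    have h2 : ¬ Cyc3 p q x b a d := fun h3 => Cyc3.not_rev h.Fo h1 h3
    exact (show T.Adj b a from ⟨d, (h.split b a d).mpr (Or.inl ⟨hd, h2⟩)⟩).symm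
  · exact ⟨c, (h.split a b c).mpr (Or.inl ⟨hc, h1⟩)⟩

theorem adj_i (h : Cut T To Ti p q x) {a b : V} (hab : Ti.Adj a b) : T.Adj a b := h.symm.adj_o hab

theorem adj_iff (h : Cut T To Ti p q x) (a b : V) : T.Adj a b ↔ To.Adj a b ∨ Ti.Adj a b := by
  constructor
  · rintro ⟨c, hc⟩
    rcases (h.split a b c).mp hc with h1 | h1
    · exact Or.inl ⟨c, h1.1⟩
    · exact Or.inr ⟨c, h1.1⟩
  · rintro (h1 | h1)
    · exact h.adj_o h1
    · exact h.adj_i h1

theorem supp_iff (h : Cut T To Ti p q x) (a : V) : T.Supp a ↔ To.Supp a ∨ Ti.Supp a := by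
  constructor
  · rintro ⟨b, c, hc⟩
    rcases (h.split a b c).mp hc with h1 | h1
    · exact Or.inl ⟨b, c, h1.1⟩
    · exact Or.inr ⟨b, c, h1.1⟩
  · rintro (⟨b, c, hc⟩ | ⟨b, c, hc⟩)
    · exact (h.adj_o ⟨c, hc⟩).supp
    · exact (h.adj_i ⟨c, hc⟩).supp

/-- the three corners belong to both parts -/
theorem corners_o (h : Cut T To Ti p q x) : To.Supp p ∧ To.Supp q ∧ To.Supp x :=
  ⟨(F_adj h.Fo).1.supp, (F_adj h.Fo).2.1.supp, (F_adj h.Fo).2.2.supp⟩

theorem corners_i (h : Cut T To Ti p q x) : Ti.Supp p ∧ Ti.Supp q ∧ Ti.Supp x :=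
  ⟨(F_adj h.Fi).2.1.supp, (F_adj h.Fi).1.supp, (F_adj h.Fi).2.2.supp⟩

/-- Gluing of the connected classes: if the class `σ` is connected in both parts and one of the
corners has side `σ`, then the class is connected in `T`. -/
theorem con (h : Cut T To Ti p q x) {side : V → SignType} {σ : SignType}
    (ho : Con To.Adj {v | To.Supp v ∧ side v = σ}) (hi : Con Ti.Adj {v | Ti.Supp v ∧ side v = σ})
    (hc : side p = σ ∨ side q = σ ∨ side x = σ) : Con T.Adj {v | T.Supp v ∧ side v = σ} := by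
  obtain ⟨z, hzo, hzi, hz⟩ : ∃ z, To.Supp z ∧ Ti.Supp z ∧ side z = σ := by
    rcases hc with hc | hc | hc
    · exact ⟨p, h.corners_o.1, h.corners_i.1, hc⟩
    · exact ⟨q, h.corners_o.2.1, h.corners_i.2.1, hc⟩
    · exact ⟨x, h.corners_o.2.2, h.corners_i.2.2, hc⟩
  have h1 : Con T.Adj {v | To.Supp v ∧ side v = σ} := ho.mono fun a b hab => h.adj_o hab
  have h2 : Con T.Adj {v | Ti.Supp v ∧ side v = σ} := hi.mono fun a b hab => h.adj_i hab
  have h3 := h1.union h2 (z := z) ⟨hzo, hz⟩ ⟨hzi, hz⟩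
  have e : {v | To.Supp v ∧ side v = σ} ∪ {v | Ti.Supp v ∧ side v = σ} =
      {v | T.Supp v ∧ side v = σ} := by
    ext v
    simp only [Set.mem_union, Set.mem_ofPred_eq, h.supp_iff v]
    tauto
  rwa [e] at h3

end Cut

end P3
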