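import Pool.Agent.Lib_MP_b306af.P3Cut0

/-!
# MP_b306af, Part III: definitions (structures through prescribed vertices)

`T : P4.Tri V`, root face `(r, s, t)` with `T.F r s t`, marks `M : Finset V`.
-/

set_option autoImplicit false

namespace P3

open P4

variable {V : Type}

/-- closed star -/
def St (T : Tri V) (x y : V) : Prop := y = x ∨ T.Adj x y

/-- number of vertices -/
noncomputable def nv (T : Tri V) : ℕ := {v | T.Supp v}.ncard

/-- separating triangle: three pairwise adjacent vertices which are not a face -/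
structure Sep (T : Tri V) (p q x : V) : Prop where
  pq : T.Adj p q
  qx : T.Adj q x
  xp : T.Adj x p
  nf : ¬ T.F p q x
  nf' : ¬ T.F q p x

/-- `T` is cut along the separating triangle `p q x` in two triangulations of the sphere: `To`, in
which `(p, q, x)` is a face, and `Ti`, in which `(q, p, x)` is a face -/
structure IsCut (T To Ti : Tri V) (p q x : V) : Prop where
  fo : To.F p q x
  fi : Ti.F q p x
  iff : ∀ a b c, T.F a b c ↔
    (To.F a b c ∧ ¬ Cyc3 p q x a b c) ∨ (Ti.F a b c ∧ ¬ Cyc3 q p x a b c)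
  supp : ∀ v, To.Supp v → Ti.Supp v → v = p ∨ v = q ∨ v = x
  ino : ∃ v, To.Supp v ∧ v ≠ p ∧ v ≠ q ∧ v ≠ x
  ini : ∃ v, Ti.Supp v ∧ v ≠ p ∧ v ≠ q ∧ v ≠ x

/-- `v` is a vertex of `Ti` which is not on the triangle -/
def Ins (Ti : Tri V) (p q x v : V) : Prop := Ti.Supp v ∧ v ≠ p ∧ v ≠ q ∧ v ≠ x

/-- `T'` is obtained from `T` by contracting the edge `u v` to the vertex `u` -/
def IsContr (T T' : Tri V) (u v : V) : Prop :=
  ∀ a b c, T'.F a b c ↔ a ≠ v ∧ b ≠ v ∧ c ≠ v ∧ a ≠ b ∧ b ≠ c ∧ c ≠ a ∧
    (T.F a b c ∨ (a = u ∧ T.F v b c) ∨ (b = u ∧ T.F a v c) ∨ (c = u ∧ T.F a b v))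

/-- (D): the closed stars of different marks are disjoint and there is no edge between them -/
def Far (T : Tri V) (M : Finset V) : Prop :=
  ∀ x ∈ M, ∀ y ∈ M, x ≠ y → ∀ a b, St T x a → St T y b → a ≠ b ∧ ¬ T.Adj a b

/-- `v` is a corner of the triangle `r s t` -/
def Cor (r s t v : V) : Prop := v = r ∨ v = s ∨ v = t

/-- admissible data: `(r, s, t)` is a face, the marks are vertices not on this face, (D) holds -/
structure Dat (T : Tri V) (M : Finset V) (r s t : V) : Prop where
  root : T.F r s t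
  supp : ∀ v ∈ M, T.Supp v
  out : ∀ v ∈ M, ¬ Cor r s t v
  far : Far T M

/-- structure (s1), (s2), (s3) -/
structure Str (T : Tri V) (M : Finset V) (side : V → SignType) : Prop where
  zero : ∀ v, T.Supp v → side v = 0 → v ∈ M
  conn : ∀ σ : SignType, σ ≠ 0 → Con T.Adj {v | T.Supp v ∧ side v = σ}
  nbr : ∀ σ : SignType, σ ≠ 0 → ∀ v, T.Supp v → side v = 0 → ∃ x, T.Adj v x ∧ side x = σ

open Classical in
/-- number of marks on the axis -/
noncomputable def val (M : Finset V) (side : V → SignType) : ℕ :=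
  (M.filter fun v => side v = 0).card

/-- for every root corner `c` and every sign there is a structure with value at least `k` in which
`c` has this sign and the other two root vertices have the other sign -/
def Val (T : Tri V) (M : Finset V) (r s t : V) (k : ℝ) : Prop :=
  ∀ c, Cor r s t c → ∀ σ : SignType, σ ≠ 0 → ∃ side, Str T M side ∧ side c = σ ∧
    (∀ d, Cor r s t d → d ≠ c → side d = -σ) ∧ k ≤ (val M side : ℝ)

/-- `F y = (y / 7) ^ (4 / 5)` -/
noncomputable def Fz (y : ℝ) : ℝ := (y / 7) ^ ((4 : ℝ) / 5)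

/-- reduced data -/
structure Red (T : Tri V) (M : Finset V) (r s t : V) : Prop where
  r1 : ∀ To Ti p q x, IsCut T To Ti p q x → To.F r s t → ∃ v ∈ M, Ins Ti p q x v
  r2 : nv T ≤ 4 ∨ ∀ x ∈ M, ∀ u v, T.F x u v → (Cor r s t u ∧ Cor r s t v) ∨ ∃ z, Sep T u v z

open Classical in
/-- the marks inside -/
noncomputable def Min (M : Finset V) (Ti : Tri V) (p q x : V) : Finset V :=
  M.filter fun v => Ins Ti p q x v

end P3
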