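import Pool.Agent.Lib_MP_b306af.P3Conn

/-!
# MP_b306af, Part III, section 2: 3-connectivity of a triangulation (Lemmas C and D)
-/

set_option autoImplicit false

namespace P3

open P4

variable {V : Type}

/-- the vertex set of a triangulation -/
def W (T : Tri V) : Set V := {v | T.Supp v}

/-- the neighbours of `x` -/
def N (T : Tri V) (x : V) : Set V := {v | T.Adj x v}

theorem adj_symm (T : Tri V) : ∀ a b, T.Adj a b → T.Adj b a := fun _ _ h => h.symm

theorem F_adj {T : Tri V} {a b c : V} (h : T.F a b c) : T.Adj a b ∧ T.Adj b c ∧ T.Adj c a :=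
  ⟨⟨c, h⟩, ⟨a, T.cyc _ _ _ h⟩, ⟨b, T.cyc2 h⟩⟩

theorem F_ne {T : Tri V} {a b c : V} (h : T.F a b c) : a ≠ b ∧ b ≠ c ∧ c ≠ a :=
  ⟨T.ne _ _ _ h, T.ne _ _ _ (T.cyc _ _ _ h), T.ne _ _ _ (T.cyc2 h)⟩

theorem N_sub {T : Tri V} {x : V} : N T x ⊆ W T := fun _ h => h.symm.supp

theorem con_W (T : Tri V) : Con T.Adj (W T) := by
  intro P hP a ha b hb haP
  obtain ⟨a', a'', haF⟩ := ha
  obtain ⟨b', b'', hbF⟩ := hb
  have h := T.trans (fun s t => s ∈ P ∧ t ∈ P) (by
    rintro s t r hF ⟨hs, ht⟩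
    exact ⟨ht, hP t (F_adj hF).2.1.supp r (F_adj hF).2.2.supp (F_adj hF).2.1 ht⟩)
    (fun s t r _ h => ⟨h.2, h.1⟩) a a' a'' b b' b'' haF hbF
    ⟨haP, hP a (F_adj haF).1.supp a' (F_adj haF).2.1.supp (F_adj haF).1 haP⟩
  exact h.1

/-- The link of a vertex is one cycle. -/
theorem link_closed [Finite V] (T : Tri V) (x : V) (Q : Set V) (hQ : ∃ a ∈ Q, T.Adj x a)
    (hc : ∀ a c, T.F x a c → a ∈ Q → c ∈ Q) : ∀ b, T.Adj x b → b ∈ Q := by
  classical
  obtain ⟨a0, ha0, hxa0⟩ := hQ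
  -- the closed set is closed in both directions
  have hback : ∀ a c, T.F x a c → c ∈ Q → a ∈ Q := by
    intro a c hF hcQ
    obtain ⟨Q', hQ'⟩ : ∃ Q' : Set V, Q' = {v | v ∈ Q ∧ T.Adj x v} := ⟨_, rfl⟩
    have mem : ∀ v, v ∈ Q' ↔ v ∈ Q ∧ T.Adj x v := by
      intro v
      rw [hQ']
      rfl
    have hmaps : Set.MapsTo (fun v => T.nx x v) Q' Q' := by
      intro v hv
      have h1 := (mem v).mp hv
      have h2 := T.F_nx h1.2
      exact (mem _).mpr ⟨hc _ _ h2 h1.1, (F_adj h2).2.2.symm⟩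
    have hinj : Set.InjOn (fun v => T.nx x v) Q' := by
      intro u hu v hv huv
      have h1 := T.F_nx ((mem u).mp hu).2
      have h2 := T.F_nx ((mem v).mp hv).2
      have huv' : T.nx x u = T.nx x v := huv
      rw [huv'] at h1
      exact T.uniq _ _ _ _ (T.cyc2 h1) (T.cyc2 h2)
    have himg : (fun v => T.nx x v) '' Q' = Q' :=
      Set.eq_of_subset_of_ncard_le (Set.image_subset_iff.mpr hmaps)
        (by rw [Set.ncard_image_of_injOn hinj]) (Set.toFinite _)
    have hcQ' : c ∈ (fun v => T.nx x v) '' Q' := by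
      rw [himg]
      exact (mem c).mpr ⟨hcQ, (F_adj hF).2.2.symm⟩
    obtain ⟨v, hv, hvc⟩ := hcQ'
    have h1 := T.F_nx ((mem v).mp hv).2
    have hvc' : T.nx x v = c := hvc
    rw [hvc'] at h1
    have h2 : a = v := T.uniq _ _ _ _ (T.cyc2 hF) (T.cyc2 h1)
    rw [h2]
    exact ((mem v).mp hv).1
  intro b hxb
  by_contra hbQ
  obtain ⟨κ, hκ⟩ : ∃ κ : V → V → ℝ, κ = fun s t =>
      (if s = x ∧ t ∈ Q ∧ T.Adj x t then (1 : ℝ) else 0) -
        (if t = x ∧ s ∈ Q ∧ T.Adj x s then (1 : ℝ) else 0) := ⟨_, rfl⟩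
  have hxx : ¬ T.Adj x x := fun h => h.ne rfl
  have k0 : ∀ s t, s ≠ x → t ≠ x → κ s t = 0 := by
    intro s t hs ht
    rw [hκ]
    beta_reduce
    rw [if_neg (fun h => hs h.1), if_neg (fun h => ht h.1), sub_zero]
  have k1 : ∀ t, t ∈ Q → T.Adj x t → κ x t = 1 := by
    intro t ht hxt
    rw [hκ]
    beta_reduce
    rw [if_pos ⟨rfl, ht, hxt⟩, if_neg (fun h => hxx h.2.2), sub_zero]
  have k2 : ∀ t, t ∉ Q → κ x t = 0 := by
    intro t ht
    rw [hκ]
    beta_reduce
    rw [if_neg (fun h => ht h.2.1), if_neg (fun h => hxx h.2.2), sub_zero]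
  have kanti : ∀ s t, κ s t = - κ t s := by
    intro s t
    rw [hκ]
    beta_reduce
    ring
  obtain ⟨h, hh⟩ := T.exact κ kanti (by
    have main : ∀ b c, T.F x b c → κ x b + κ b c + κ c x = 0 := by
      intro b c hF
      have hne := F_ne hF
      rw [kanti c x, k0 b c hne.1.symm hne.2.2]
      by_cases hb : b ∈ Q
      · rw [k1 b hb (F_adj hF).1, k1 c (hc b c hF hb) (F_adj hF).2.2.symm]
        ring
      · rw [k2 b hb, k2 c (fun h => hb (hback b c hF h))]
        ring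
    intro a b c hF
    by_cases hax : a = x
    · subst hax
      exact main b c hF
    · by_cases hbx : b = x
      · subst hbx
        have := main c a (T.cyc _ _ _ hF)
        linarith
      · by_cases hcx : c = x
        · subst hcx
          have := main a b (T.cyc2 hF)
          linarith
        · rw [k0 a b hax hbx, k0 b c hbx hcx, k0 c a hcx hax]
          ring)
  have hfin := T.trans (fun s t => (s ≠ x → h s = h x + 1) ∧ (t ≠ x → h t = h x + 1)) (by
    rintro s t r hF ⟨hs, ht⟩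
    refine ⟨ht, fun hrx => ?_⟩
    by_cases htx : t = x
    · subst htx
      have hst : s ≠ t := (F_ne hF).1
      have h1 := hh r s t (T.cyc2 hF)
      rw [k0 r s hrx hst] at h1
      linarith [hs hst]
    · have h1 := hh t r s (T.cyc _ _ _ hF)
      rw [k0 t r htx hrx] at h1
      linarith [ht htx])
    (fun s t r _ hst => ⟨hst.2, hst.1⟩)
  obtain ⟨a1, ha1⟩ := hxa0
  obtain ⟨b1, hb1⟩ := hxb
  have hend := hfin x a0 a1 x b b1 ha1 hb1 ⟨fun e => absurd rfl e, fun _ => by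
    have h1 := hh x a0 a1 ha1
    rw [k1 a0 ha0 ⟨a1, ha1⟩] at h1
    linarith⟩
  have h2 := hh x b b1 hb1
  rw [k2 b hbQ] at h2
  have h3 := hend.2 (F_ne hb1).1.symm
  linarith

/-- The neighbours of `x` without `z` are connected. -/
theorem link_con [Finite V] (T : Tri V) (x z : V) : Con T.Adj (N T x \ {z}) := by
  intro P hP a ha b hb haP
  by_cases hz : T.Adj x z
  · have hz1 := T.F_nx hz
    have key : ∀ P : Set V, (∀ a ∈ N T x \ {z}, ∀ b ∈ N T x \ {z}, T.Adj a b → a ∈ P → b ∈ P) →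
        T.nx x z ∈ P → ∀ b ∈ N T x \ {z}, b ∈ P := by
      intro P hP hnP b hb
      have h := link_closed T x (P ∪ {z}) ⟨z, Or.inr rfl, hz⟩ (by
        intro a' c' hF ha'
        by_cases hc'z : c' = z
        · exact Or.inr hc'z
        · refine Or.inl ?_
          by_cases ha'z : a' = z
          · subst ha'z
            rw [← T.nx_eq hF]
            exact hnP
          · rcases ha' with h | h
            · exact hP a' ⟨(F_adj hF).1, ha'z⟩ c' ⟨(F_adj hF).2.2.symm, hc'z⟩ (F_adj hF).2.1 h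
            · exact absurd h ha'z) b hb.1
      rcases h with h | h
      · exact h
      · exact absurd h hb.2
    by_cases hn : T.nx x z ∈ P
    · exact key P hP hn b hb
    · exact absurd haP (key Pᶜ (fun s hs t ht hst hsP htP =>
        hsP (hP t ht s hs hst.symm htP)) hn a ha)
  · have hN : N T x \ {z} = N T x := by
      ext t
      constructor
      · exact fun h => h.1
      · exact fun h => ⟨h, fun e => hz (by rw [Set.mem_singleton_iff] at e; rw [← e]; exact h)⟩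
    rw [hN] at hP ha hb
    exact link_closed T x P ⟨a, haP, ha⟩ (fun s t hF hs =>
      hP s (F_adj hF).1 t (F_adj hF).2.2.symm (F_adj hF).2.1 hs) b hb

/-- Removing a vertex `y` from a connected set which contains all neighbours of `y` but at most one. -/
theorem con_del [Finite V] (T : Tri V) {S : Set V} (hS : Con T.Adj S) (y z : V)
    (hN : ∀ v, T.Adj y v → v ≠ z → v ∈ S) (hz : z ∉ S) : Con T.Adj (S \ {y}) := by
  refine hS.remove (adj_symm T) ?_
  intro P hP a ha b hb hya hyb haP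
  have hsub : ∀ v, v ∈ N T y \ {z} → v ∈ S \ {y} := by
    intro v hv
    exact ⟨hN v hv.1 hv.2, fun e => hv.1.ne e.symm⟩
  exact link_con T y z P (fun u hu v hv huv => hP u (hsub u hu) v (hsub v hv) huv) a
    ⟨hya, fun e => hz (e ▸ ha.1)⟩ b ⟨hyb, fun e => hz (e ▸ hb.1)⟩ haP

theorem con_del1 [Finite V] (T : Tri V) (y : V) : Con T.Adj (W T \ {y}) := by
  refine (con_W T).remove (adj_symm T) ?_
  intro P hP a ha b hb hya hyb haP
  have hsub : ∀ v, v ∈ N T y \ {y} → v ∈ W T \ {y} := fun v hv => ⟨N_sub hv.1, hv.2⟩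
  exact link_con T y y P (fun u hu v hv huv => hP u (hsub u hu) v (hsub v hv) huv) a
    ⟨hya, ha.2⟩ b ⟨hyb, hb.2⟩ haP

/-- LEMMA C (c2) -/
theorem con_del2 [Finite V] (T : Tri V) (y z : V) : Con T.Adj (W T \ {y, z}) := by
  have h := con_del T (con_del1 T z) y z (fun v hv hvz => ⟨hv.symm.supp, hvz⟩) (fun h => h.2 rfl)
  have e : (W T \ {z}) \ {y} = W T \ {y, z} := by
    ext t
    simp only [Set.mem_sdiff, Set.mem_singleton_iff, Set.mem_insert_iff, not_or]
    tauto
  rwa [e] at h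

/-- LEMMA C (c3) -/
theorem con_del3 [Finite V] (T : Tri V) (x t z : V) (hxt : ¬ T.Adj x t) :
    Con T.Adj (W T \ {x, t, z}) := by
  by_cases htx : t = x
  · subst htx
    have h := con_del2 T t z
    have e : W T \ {t, t, z} = W T \ {t, z} := by
      rw [Set.insert_eq_of_mem (Set.mem_insert t {z})]
    rw [e]
    exact h
  · have h := con_del T (S := W T \ {t, z}) (con_del2 T t z) x z (fun v hv hvz =>
      ⟨hv.symm.supp, by
        rintro (h | h)
        · exact hxt (h ▸ hv)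
        · exact hvz h⟩) (fun h => h.2 (Or.inr rfl))
    have e : (W T \ {t, z}) \ {x} = W T \ {x, t, z} := by
      ext s
      simp only [Set.mem_sdiff, Set.mem_singleton_iff, Set.mem_insert_iff, not_or]
      tauto
    rwa [e] at h

/-- LEMMA D: a link of length 2 -/
theorem deg_two (T : Tri V) {v a c : V} (h1 : T.F v a c) (h2 : T.F v c a) :
    ∀ u, T.Supp u → u = v ∨ u = a ∨ u = c := by
  rintro u ⟨u', u'', hu⟩
  have h := T.trans (fun s t => (s = v ∧ (t = a ∨ t = c)) ∨ (s = a ∧ (t = c ∨ t = v)) ∨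
      (s = c ∧ (t = v ∨ t = a))) (by
    rintro s t r hF (⟨rfl, rfl | rfl⟩ | ⟨rfl, rfl | rfl⟩ | ⟨rfl, rfl | rfl⟩)
    · have := T.uniq _ _ _ _ hF h1
      tauto
    · have := T.uniq _ _ _ _ hF h2
      tauto
    · have := T.uniq _ _ _ _ hF (T.cyc _ _ _ h1)
      tauto
    · have := T.uniq _ _ _ _ hF (T.cyc2 h2)
      tauto
    · have := T.uniq _ _ _ _ hF (T.cyc2 h1)
      tauto
    · have := T.uniq _ _ _ _ hF (T.cyc _ _ _ h2)
      tauto) (by
    rintro s t r hF (⟨rfl, rfl | rfl⟩ | ⟨rfl, rfl | rfl⟩ | ⟨rfl, rfl | rfl⟩) <;> tauto)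
    v a c u u' u'' h1 hu (Or.inl ⟨rfl, Or.inl rfl⟩)
  tauto

/-- LEMMA D: a vertex of degree three whose link is a face on the other side: `K4` -/
theorem deg_three (T : Tri V) {v a b c : V} (h1 : T.F v a b) (h2 : T.F v b c) (h3 : T.F v c a)
    (h4 : T.F b a c) : ∀ u, T.Supp u → u = v ∨ u = a ∨ u = b ∨ u = c := by
  rintro u ⟨u', u'', hu⟩
  have h := T.trans (fun s t => s ≠ t ∧ (s = v ∨ s = a ∨ s = b ∨ s = c) ∧
      (t = v ∨ t = a ∨ t = b ∨ t = c)) (by
    rintro s t r hF ⟨hst, hs, ht⟩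
    refine ⟨(F_ne hF).2.1, ht, ?_⟩
    rcases hs with rfl | rfl | rfl | rfl <;> rcases ht with rfl | rfl | rfl | rfl
    · exact absurd rfl hst
    · have := T.uniq _ _ _ _ hF h1
      tauto
    · have := T.uniq _ _ _ _ hF h2
      tauto
    · have := T.uniq _ _ _ _ hF h3
      tauto
    · have := T.uniq _ _ _ _ hF (T.cyc2 h3)
      tauto
    · exact absurd rfl hst
    · have := T.uniq _ _ _ _ hF (T.cyc _ _ _ h1)
      tauto
    · have := T.uniq _ _ _ _ hF (T.cyc _ _ _ h4)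
      tauto
    · have := T.uniq _ _ _ _ hF (T.cyc2 h1)
      tauto
    · have := T.uniq _ _ _ _ hF h4
      tauto
    · exact absurd rfl hst
    · have := T.uniq _ _ _ _ hF (T.cyc _ _ _ h2)
      tauto
    · have := T.uniq _ _ _ _ hF (T.cyc2 h2)
      tauto
    · have := T.uniq _ _ _ _ hF (T.cyc _ _ _ h3)
      tauto
    · have := T.uniq _ _ _ _ hF (T.cyc2 h4)
      tauto
    · exact absurd rfl hst)
    (fun s t r _ h => ⟨h.1.symm, h.2.2, h.2.1⟩)
    v a b u u' u'' h1 hu ⟨(F_ne h1).1, Or.inl rfl, Or.inr (Or.inl rfl)⟩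
  exact h.2.1

end P3
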