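import Pool.Agent.Lib_MP_b306af.P3DualA
import Pool.Agent.Lib_MP_b306af.P3Tri

/-!
# The dual cubic graph of a triangulation, bonds, theorem WF (MP_b306af, Part III, section 4)
-/

namespace P3

open P4 P1

variable {V : Type}

/-- around a vertex -/
theorem cut_step [Finite V] (T : Tri V) (L : V → V → Prop) (hA : ∀ a b, L a b → T.Adj a b)
    (hL : ∀ a b c, T.F a b c → L a b → L b c) {a b : V} (h1 : L a b) (h2 : ¬ L b a) :
    ∃ c, L b c ∧ ¬ L c b := by
  by_contra hne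
  push Not at hne
  have hF : ∀ x, L x b → T.F x b (T.nx x b) := fun x hx => T.F_nx (hA x b hx)
  have hG : ∀ x, L x b → L (T.nx x b) b := fun x hx => hne _ (hL _ _ _ (hF x hx) hx)
  let G : {x // L x b} → {x // L x b} := fun x => ⟨T.nx x.1 b, hG x.1 x.2⟩
  have Ginj : Function.Injective G := by
    rintro ⟨x, hx⟩ ⟨y, hy⟩ hxy
    have h3 : T.nx x b = T.nx y b := congrArg Subtype.val hxy
    have f1 := T.cyc _ _ _ (hF x hx)
    have f2 := T.cyc _ _ _ (hF y hy)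
    rw [← h3] at f2
    exact Subtype.ext (T.uniq _ _ _ _ f1 f2)
  have Gsurj := Finite.surjective_of_injective Ginj
  obtain ⟨⟨x, hx⟩, hx'⟩ := Gsurj ⟨a, h1⟩
  have h4 : T.nx x b = a := congrArg Subtype.val hx'
  have h5 := hF x hx
  rw [h4] at h5
  exact h2 (hL _ _ _ h5 hx)

/-- the type of darts -/
abbrev Dart (T : Tri V) : Type := {d : V × V // T.Adj d.1 d.2}

/-- the next dart in the face on the left -/
noncomputable def rho (T : Tri V) (d : Dart T) : Dart T :=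
  ⟨(d.1.2, T.nx d.1.1 d.1.2), ⟨d.1.1, T.cyc _ _ _ (T.F_nx d.2)⟩⟩

/-- the opposite dart -/
def opd (T : Tri V) (d : Dart T) : Dart T := ⟨(d.1.2, d.1.1), Tri.Adj.symm d.2⟩

theorem rho_mk (T : Tri V) {a b c : V} (h : T.F a b c) :
    rho T ⟨(a, b), ⟨c, h⟩⟩ = ⟨(b, c), ⟨a, T.cyc _ _ _ h⟩⟩ := by
  apply Subtype.ext
  simp only [rho, T.nx_eq h]

theorem rho3 (T : Tri V) (d : Dart T) : rho T (rho T (rho T d)) = d := by
  obtain ⟨⟨a, b⟩, c, h⟩ := d
  simp only at h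
  rw [rho_mk T h, rho_mk T (T.cyc _ _ _ h), rho_mk T (T.cyc2 h)]

theorem rho_ne (T : Tri V) (d : Dart T) : rho T d ≠ d := by
  obtain ⟨⟨a, b⟩, c, h⟩ := d
  simp only at h
  rw [rho_mk T h]
  intro hh
  have := congrArg (fun z => z.1.1) hh
  exact T.ne _ _ _ h this.symm

theorem opd_opd (T : Tri V) (d : Dart T) : opd T (opd T d) = d := rfl

/-- the dual graph: faces, ports, and their properties -/
theorem exists_dual [Finite V] (T : Tri V) :
    ∃ (Q : Type) (_ : Finite Q) (f : Q × Fin 3 ≃ Dart T) (K : Cub Q),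
      (∀ q, rho T (f (q, 0)) = f (q, 1) ∧ rho T (f (q, 1)) = f (q, 2) ∧
        rho T (f (q, 2)) = f (q, 0)) ∧
      (∀ d, f (K.e d) = opd T (f d)) ∧ K.Conn3 := by
  obtain ⟨Q, f, hf⟩ := exists_fin3 (rho T) (rho3 T) (rho_ne T)
  have hfinD : Finite (Dart T) := by
    infer_instance
  have hfin3 : Finite (Q × Fin 3) := Finite.of_equiv _ f.symm
  have hfinQ : Finite Q := Finite.of_injective (fun q : Q => (q, (0 : Fin 3)))
    (fun a b hab => congrArg Prod.fst hab)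
  -- the face of a dart
  have face_rho : ∀ d, (f.symm (rho T d)).1 = (f.symm d).1 := by
    intro d
    obtain ⟨⟨q, i⟩, rfl⟩ := f.surjective d
    obtain ⟨f0, f1, f2⟩ := hf q
    fin_cases i
    · change (f.symm (rho T (f (q, 0)))).1 = (f.symm (f (q, 0))).1
      rw [f0, Equiv.symm_apply_apply, Equiv.symm_apply_apply]
    · change (f.symm (rho T (f (q, 1)))).1 = (f.symm (f (q, 1))).1
      rw [f1, Equiv.symm_apply_apply, Equiv.symm_apply_apply]
    · change (f.symm (rho T (f (q, 2)))).1 = (f.symm (f (q, 2))).1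
      rw [f2, Equiv.symm_apply_apply, Equiv.symm_apply_apply]
  have same : ∀ d d', (f.symm d).1 = (f.symm d').1 → d' = d ∨ d' = rho T d ∨
      d' = rho T (rho T d) := by
    intro d d' hd
    obtain ⟨⟨q, i⟩, rfl⟩ := f.surjective d
    obtain ⟨⟨q', j⟩, rfl⟩ := f.surjective d'
    rw [Equiv.symm_apply_apply, Equiv.symm_apply_apply] at hd
    simp only at hd
    subst hd
    obtain ⟨f0, f1, f2⟩ := hf q
    fin_cases i <;> fin_cases j
    · exact Or.inl rfl
    · exact Or.inr (Or.inl f0.symm)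
    · right; right
      change f (q, 2) = rho T (rho T (f (q, 0)))
      rw [f0, f1]
    · right; right
      change f (q, 0) = rho T (rho T (f (q, 1)))
      rw [f1, f2]
    · exact Or.inl rfl
    · exact Or.inr (Or.inl f1.symm)
    · exact Or.inr (Or.inl f2.symm)
    · right; right
      change f (q, 1) = rho T (rho T (f (q, 2)))
      rw [f2, f0]
    · exact Or.inl rfl
  have hne : ∀ d : Q × Fin 3, (f.symm (opd T (f d))).1 ≠ d.1 := by
    intro d hd
    have h1 : (f.symm (f d)).1 = (f.symm (opd T (f d))).1 := by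
      rw [Equiv.symm_apply_apply, hd]
    have h2 := same _ _ h1
    generalize f d = D at h2
    obtain ⟨⟨a, b⟩, c, h⟩ := D
    simp only at h
    rw [rho_mk T h, rho_mk T (T.cyc _ _ _ h)] at h2
    rcases h2 with h2 | h2 | h2
    · exact T.ne _ _ _ h (congrArg (fun z => z.1.2) h2)
    · exact T.ne _ _ _ (T.cyc2 h) (congrArg (fun z => z.1.2) h2).symm
    · exact T.ne _ _ _ (T.cyc _ _ _ h) (congrArg (fun z => z.1.1) h2)
  let K : Cub Q :=
    { e := fun d => f.symm (opd T (f d))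
      inv := fun d => by
        simp only [Equiv.apply_symm_apply, opd_opd, Equiv.symm_apply_apply]
      ne := hne }
  refine ⟨Q, hfinQ, f, K, hf, fun d => by simp only [K, Equiv.apply_symm_apply], ?_⟩
  intro X hX hXc
  -- the darts with left face in `X`
  let L : V → V → Prop := fun a b => ∃ h : T.Adj a b, (f.symm ⟨(a, b), h⟩).1 ∈ X
  have hA : ∀ a b, L a b → T.Adj a b := fun a b h => h.1
  have hL : ∀ a b c, T.F a b c → L a b → L b c := by
    rintro a b c hF ⟨h1, h2⟩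
    refine ⟨⟨a, T.cyc _ _ _ hF⟩, ?_⟩
    have h3 := face_rho ⟨(a, b), ⟨c, hF⟩⟩
    rw [rho_mk T hF] at h3
    rw [h3]
    exact h2
  have first : ∃ a b, L a b ∧ ¬ L b a := by
    by_contra hne
    push Not at hne
    obtain ⟨q, hq⟩ := hX
    obtain ⟨q', hq'⟩ := hXc
    have key : ∀ d d' : Dart T, (f.symm d).1 ∈ X → (f.symm d').1 ∈ X := by
      rintro ⟨⟨a, b⟩, c, h⟩ ⟨⟨x, y⟩, z, h'⟩ hd
      have h3 := T.trans L hL (fun a b c _ hab => hne a b hab) a b c x y z h h' ⟨_, hd⟩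
      exact h3.2
    apply hq'
    have := key (f (q, 0)) (f (q', 0)) (by rw [Equiv.symm_apply_apply]; exact hq)
    rw [Equiv.symm_apply_apply] at this
    exact this
  obtain ⟨a, b, hab, hba⟩ := first
  obtain ⟨c, hbc, hcb⟩ := cut_step T L hA hL hab hba
  obtain ⟨d, hcd, hdc⟩ := cut_step T L hA hL hbc hcb
  have hca : c ≠ a := by
    rintro rfl
    exact hba hbc
  have nab : a ≠ b := Tri.Adj.ne (hA _ _ hab)
  have nbc : b ≠ c := Tri.Adj.ne (hA _ _ hbc)
  have port : ∀ (x y : V) (hxy : L x y), ¬ L y x →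
      f.symm ⟨(x, y), hA x y hxy⟩ ∈ {d : Q × Fin 3 | d.1 ∈ X ∧ (K.e d).1 ∉ X} := by
    intro x y hxy hyx
    refine ⟨hxy.2, ?_⟩
    intro hh
    apply hyx
    refine ⟨Tri.Adj.symm (hA x y hxy), ?_⟩
    have e1 : K.e (f.symm ⟨(x, y), hA x y hxy⟩) =
        f.symm ⟨(y, x), Tri.Adj.symm (hA x y hxy)⟩ := by
      change f.symm (opd T (f (f.symm _))) = _
      rw [Equiv.apply_symm_apply]
      rfl
    rw [e1] at hh
    exact hh
  have hsub : ({f.symm ⟨(a, b), hA a b hab⟩, f.symm ⟨(b, c), hA b c hbc⟩,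
      f.symm ⟨(c, d), hA c d hcd⟩} : Set (Q × Fin 3)) ⊆
        {d : Q × Fin 3 | d.1 ∈ X ∧ (K.e d).1 ∉ X} := by
    intro p hp
    simp only [Set.mem_insert_iff, Set.mem_singleton_iff] at hp
    rcases hp with rfl | rfl | rfl
    · exact port a b hab hba
    · exact port b c hbc hcb
    · exact port c d hcd hdc
  have hcard : ({f.symm ⟨(a, b), hA a b hab⟩, f.symm ⟨(b, c), hA b c hbc⟩,
      f.symm ⟨(c, d), hA c d hcd⟩} : Set (Q × Fin 3)).ncard = 3 := by
    rw [Set.ncard_eq_three]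
    refine ⟨_, _, _, ?_, ?_, ?_, rfl⟩
    · intro hh
      have := f.symm.injective hh
      exact nab (congrArg (fun z => z.1.1) this)
    · intro hh
      have := f.symm.injective hh
      exact hca (congrArg (fun z => z.1.1) this).symm
    · intro hh
      have := f.symm.injective hh
      exact nbc (congrArg (fun z => z.1.1) this)
  exact hcard.symm.le.trans (Set.ncard_le_ncard hsub (Set.toFinite _))

/-- every vertex is connected to a given one -/
theorem con_univ (T : Tri V) {r s t : V} (h0 : T.F r s t) (W : Set V) (hr : r ∈ W)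
    (hW : ∀ a b, T.Adj a b → a ∈ W → b ∈ W) : ∀ v, T.Supp v → v ∈ W := by
  rintro v ⟨b, c, hv⟩
  exact T.trans (fun a _ => a ∈ W) (fun a b c hF ha => hW a b ⟨c, hF⟩ ha)
    (fun a b c hF ha => hW a b ⟨c, hF⟩ ha) r s t v b c h0 hv hr

/-- a cycle of the dual graph is a bond -/
theorem bond (T : Tri V) (cr : V → V → Prop)
    (hsymm : ∀ a b, cr a b → cr b a) (κ : V → V → ℝ) (hκ : ∀ a b, κ a b = - κ b a)
    (hκF : ∀ a b c, T.F a b c → κ a b + κ b c + κ c a = 0) (hκ0 : ∀ a b, κ a b ≠ 0 ↔ cr a b)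
    (hmin : ∀ W : Set V, (∀ a b, T.Adj a b → a ∈ W → b ∉ W → cr a b) →
      (∃ a b, T.Adj a b ∧ a ∈ W ∧ b ∉ W) → ∀ a b, cr a b → (a ∈ W ↔ b ∉ W))
    {r s t : V} (h0 : T.F r s t) (hrs : cr r s) (hst : ¬ cr s t) :
    ∃ W : Set V, r ∈ W ∧ s ∉ W ∧ t ∉ W ∧ Con T.Adj {v | T.Supp v ∧ v ∈ W} ∧
      Con T.Adj {v | T.Supp v ∧ v ∉ W} ∧ ∀ a b, T.Adj a b → (cr a b ↔ (a ∈ W ↔ b ∉ W)) := by
  obtain ⟨h, hh⟩ := T.exact κ hκ hκF
  -- the component of `x`
  let S : V → Set V := fun x => {y | Relation.ReflTransGen (fun a b => T.Adj a b ∧ ¬ cr a b) x y}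
  have S_self : ∀ x, x ∈ S x := fun x => Relation.ReflTransGen.refl
  have S_step : ∀ x a b, T.Adj a b → a ∈ S x → ¬ cr a b → b ∈ S x := by
    intro x a b hab ha hcr
    exact Relation.ReflTransGen.tail ha ⟨hab, hcr⟩
  have S_back : ∀ x a b, T.Adj a b → b ∈ S x → ¬ cr a b → a ∈ S x := by
    intro x a b hab hb hcr
    exact S_step x b a hab.symm hb (fun hc => hcr (hsymm _ _ hc))
  have S_h : ∀ x y, y ∈ S x → h y = h x := by
    intro x y hy
    induction hy with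
    | refl => rfl
    | tail _ hbc ih =>
      obtain ⟨⟨c, hF⟩, hcr⟩ := hbc
      have h1 := hh _ _ _ hF
      have h2 : κ _ _ = 0 := not_not.1 (fun hc => hcr ((hκ0 _ _).1 hc))
      rw [h2] at h1
      linarith
  have S_con : ∀ x, T.Supp x → Con T.Adj {v | T.Supp v ∧ v ∈ S x} := by
    intro x hx P hP a ha b hb hPa
    -- P spreads backwards to x, then forwards
    have hP' : ∀ a b, a ∈ S x → T.Supp a → T.Adj a b ∧ ¬ cr a b → b ∈ P → a ∈ P := by
      intro a b ha hsa hab hPb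
      exact hP b ⟨hab.1.symm.supp, S_step x a b hab.1 ha hab.2⟩ a ⟨hsa, ha⟩ hab.1.symm hPb
    have fwd : ∀ y, y ∈ S x → x ∈ P → y ∈ P := by
      intro y hy hPx
      induction hy with
      | refl => exact hPx
      | tail hxb hbc ih =>
        exact hP _ ⟨hbc.1.supp, hxb⟩ _ ⟨hbc.1.symm.supp, Relation.ReflTransGen.tail hxb hbc⟩
          hbc.1 ih
    have bwd : ∀ y, y ∈ S x → y ∈ P → x ∈ P := by
      intro y hy
      induction hy with
      | refl => exact fun hp => hp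
      | tail hxb hbc ih =>
        intro hPc
        exact ih (hP' _ _ hxb hbc.1.supp hbc hPc)
    exact fwd b hb.2 (bwd a ha.2 hPa)
  have S_leave : ∀ x a b, T.Adj a b → a ∈ S x → b ∉ S x → cr a b := by
    intro x a b hab ha hb
    by_contra hcr
    exact hb (S_step x a b hab ha hcr)
  have S_ex : ∀ x, T.Supp x → ∃ a b, T.Adj a b ∧ a ∈ S x ∧ b ∉ S x := by
    rintro x ⟨y, z, hx⟩
    by_contra hne
    push Not at hne
    have hall := con_univ T hx (S x) (S_self x) (fun a b hab ha => hne a b hab ha)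
    have h1 : h r = h x := S_h x r (hall r ⟨s, t, h0⟩)
    have h2 : h s = h x := S_h x s (hall s ⟨t, r, T.cyc _ _ _ h0⟩)
    have h3 := hh _ _ _ h0
    exact (hκ0 r s).2 hrs (by rw [h3, h1, h2]; ring)
  have S_all : ∀ x, T.Supp x → ∀ a b, cr a b → (a ∈ S x ↔ b ∉ S x) := by
    intro x hx
    exact hmin (S x) (S_leave x) (S_ex x hx)
  have hr : T.Supp r := ⟨s, t, h0⟩
  have hs : T.Supp s := ⟨t, r, T.cyc _ _ _ h0⟩
  have s_notin : s ∉ S r := (S_all r hr r s hrs).1 (S_self r)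
  have t_notin : t ∉ S r := by
    intro ht
    exact s_notin (S_back r s t ⟨r, T.cyc _ _ _ h0⟩ ht hst)
  -- the two components are disjoint
  have disj : ∀ y, y ∈ S s → y ∉ S r := by
    intro y hy
    induction hy with
    | refl => exact s_notin
    | tail _ hbc ih =>
      intro hc
      exact ih (S_back r _ _ hbc.1 hc hbc.2)
  have cover : ∀ v, T.Supp v → v ∈ S r ∨ v ∈ S s := by
    apply con_univ T h0 {v | v ∈ S r ∨ v ∈ S s} (Or.inl (S_self r))
    intro a b hab ha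
    by_cases hcr : cr a b
    · rcases ha with ha | ha
      · by_cases hb : b ∈ S r
        · exact Or.inl hb
        · right
          have h1 : a ∉ S s := fun hc => disj a hc ha
          by_contra hb'
          exact h1 ((S_all s hs a b hcr).2 hb')
      · by_cases hb : b ∈ S s
        · exact Or.inr hb
        · left
          have h1 : a ∉ S r := disj a ha
          by_contra hb'
          exact h1 ((S_all r hr a b hcr).2 hb')
    · rcases ha with ha | ha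
      · exact Or.inl (S_step r a b hab ha hcr)
      · exact Or.inr (S_step s a b hab ha hcr)
  refine ⟨S r, S_self r, s_notin, t_notin, S_con r hr, ?_, ?_⟩
  · have hset : {v | T.Supp v ∧ v ∉ S r} = {v | T.Supp v ∧ v ∈ S s} := by
      ext v
      constructor
      · rintro ⟨h1, h2⟩
        exact ⟨h1, (cover v h1).resolve_left h2⟩
      · rintro ⟨h1, h2⟩
        exact ⟨h1, disj v h2⟩
    rw [hset]
    exact S_con s hs
  · intro a b hab
    constructor
    · exact S_all r hr a b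
    · intro hiff
      by_cases ha : a ∈ S r
      · exact S_leave r a b hab ha (hiff.1 ha)
      · have hb : b ∈ S r := by
          by_contra hb
          exact ha (hiff.2 hb)
        exact hsymm _ _ (S_leave r b a hab.symm hb ha)

theorem face_form (T : Tri V) {Q : Type} (f : Q × Fin 3 ≃ Dart T)
    (hf : ∀ q, rho T (f (q, 0)) = f (q, 1) ∧ rho T (f (q, 1)) = f (q, 2) ∧
        rho T (f (q, 2)) = f (q, 0)) (q : Q) :
    ∃ (a b c : V) (h : T.F a b c), f (q, 0) = ⟨(a, b), ⟨c, h⟩⟩ ∧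
      f (q, 1) = ⟨(b, c), ⟨a, T.cyc _ _ _ h⟩⟩ ∧ f (q, 2) = ⟨(c, a), ⟨b, T.cyc2 h⟩⟩ := by
  obtain ⟨h1, h2, -⟩ := hf q
  rcases hd : f (q, 0) with ⟨⟨a, b⟩, c, h⟩
  simp only at h
  rw [hd, rho_mk T h] at h1
  rw [← h1, rho_mk T (T.cyc _ _ _ h)] at h2
  exact ⟨a, b, c, h, rfl, h1.symm, h2.symm⟩

theorem face_form' (T : Tri V) {Q : Type} (f : Q × Fin 3 ≃ Dart T)
    (hf : ∀ q, rho T (f (q, 0)) = f (q, 1) ∧ rho T (f (q, 1)) = f (q, 2) ∧
        rho T (f (q, 2)) = f (q, 0)) {a b c : V} (h : T.F a b c) :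
    ∃ (q : Q) (i j k : Fin 3), f.symm ⟨(a, b), ⟨c, h⟩⟩ = (q, i) ∧
      f.symm ⟨(b, c), ⟨a, T.cyc _ _ _ h⟩⟩ = (q, j) ∧ f.symm ⟨(c, a), ⟨b, T.cyc2 h⟩⟩ = (q, k) ∧
      ((i = 0 ∧ j = 1 ∧ k = 2) ∨ (i = 1 ∧ j = 2 ∧ k = 0) ∨ (i = 2 ∧ j = 0 ∧ k = 1)) := by
  obtain ⟨⟨q, i⟩, hq⟩ := f.surjective ⟨(a, b), ⟨c, h⟩⟩
  obtain ⟨h1, h2, h3⟩ := hf q
  have r1 := rho_mk T h
  have r2 := rho_mk T (T.cyc _ _ _ h)
  have hi : i = 0 ∨ i = 1 ∨ i = 2 := by fin_cases i <;> simp
  rcases hi with rfl | rfl | rfl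
  · rw [hq, r1] at h1
    rw [← h1, r2] at h2
    refine ⟨q, 0, 1, 2, ?_, ?_, ?_, Or.inl ⟨rfl, rfl, rfl⟩⟩
    · rw [Equiv.symm_apply_eq]; exact hq.symm
    · rw [Equiv.symm_apply_eq]; exact h1
    · rw [Equiv.symm_apply_eq]; exact h2
  · rw [hq, r1] at h2
    rw [← h2, r2] at h3
    refine ⟨q, 1, 2, 0, ?_, ?_, ?_, Or.inr (Or.inl ⟨rfl, rfl, rfl⟩)⟩
    · rw [Equiv.symm_apply_eq]; exact hq.symm
    · rw [Equiv.symm_apply_eq]; exact h2
    · rw [Equiv.symm_apply_eq]; exact h3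
  · rw [hq, r1] at h3
    rw [← h3, r2] at h1
    refine ⟨q, 2, 0, 1, ?_, ?_, ?_, Or.inr (Or.inr ⟨rfl, rfl, rfl⟩)⟩
    · rw [Equiv.symm_apply_eq]; exact hq.symm
    · rw [Equiv.symm_apply_eq]; exact h3
    · rw [Equiv.symm_apply_eq]; exact h1

/-- theorem of the alternating 0 or 2 -/
theorem card_two {A B C : Prop} {S : Set (Fin 3)}
    (h0 : (0 : Fin 3) ∈ S ↔ (A ↔ ¬ B)) (h1 : (1 : Fin 3) ∈ S ↔ (B ↔ ¬ C))
    (h2 : (2 : Fin 3) ∈ S ↔ (C ↔ ¬ A)) : S.ncard = 0 ∨ S.ncard = 2 := by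
  have hS : ∀ (T : Set (Fin 3)), ((0 : Fin 3) ∈ S ↔ (0 : Fin 3) ∈ T) →
      ((1 : Fin 3) ∈ S ↔ (1 : Fin 3) ∈ T) → ((2 : Fin 3) ∈ S ↔ (2 : Fin 3) ∈ T) → S = T := by
    intro T h0 h1 h2
    ext i
    fin_cases i
    · exact h0
    · exact h1
    · exact h2
  by_cases hA : A <;> by_cases hB : B <;> by_cases hC : C <;>
    simp only [hA, hB, hC, not_true, not_false_iff, iff_true, iff_false] at h0 h1 h2
  · left; rw [hS ∅ (by simpa using h0) (by simpa using h1) (by simpa using h2), Set.ncard_empty]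
  · right
    rw [hS {1, 2} (by simpa using h0) (by simpa using h1) (by simpa using h2)]
    exact Set.ncard_pair (by decide)
  · right
    rw [hS {0, 1} (by simpa using h0) (by simpa using h1) (by simpa using h2)]
    exact Set.ncard_pair (by decide)
  · right
    rw [hS {0, 2} (by simpa using h0) (by simpa using h1) (by simpa using h2)]
    exact Set.ncard_pair (by decide)
  · right
    rw [hS {0, 2} (by simpa using h0) (by simpa using h1) (by simpa using h2)]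
    exact Set.ncard_pair (by decide)
  · right
    rw [hS {0, 1} (by simpa using h0) (by simpa using h1) (by simpa using h2)]
    exact Set.ncard_pair (by decide)
  · right
    rw [hS {1, 2} (by simpa using h0) (by simpa using h1) (by simpa using h2)]
    exact Set.ncard_pair (by decide)
  · left; rw [hS ∅ (by simpa using h0) (by simpa using h1) (by simpa using h2), Set.ncard_empty]

theorem rpow_sum_le {ι : Type} (D : Finset ι) (ω : ι → ℝ) (hω : ∀ i ∈ D, 0 ≤ ω i) {β : ℝ}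
    (h0 : 0 < β) (h1 : β ≤ 1) : (∑ i ∈ D, ω i) ^ β ≤ ∑ i ∈ D, ω i ^ β := by
  classical
  induction D using Finset.induction_on with
  | empty => simp [Real.zero_rpow h0.ne']
  | insert a D ha ih =>
    rw [Finset.sum_insert ha, Finset.sum_insert ha]
    have h2 : 0 ≤ ∑ i ∈ D, ω i :=
      Finset.sum_nonneg (fun i hi => hω i (Finset.mem_insert_of_mem hi))
    have h3 := ih (fun i hi => hω i (Finset.mem_insert_of_mem hi))
    have h4 := Real.rpow_add_le_add_rpow (hω a (Finset.mem_insert_self _ _)) h2 h0.le h1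
    linarith

theorem iff_absurd {A B : Prop} (h1 : A ↔ ¬ B) (h2 : A ↔ B) : False := by tauto

theorem iff_flip {A B : Prop} (h1 : A ↔ ¬ B) : B ↔ ¬ A := by tauto

open Classical in
/-- THEOREM WF: weighted faces and a bond of the triangulation, from Part I -/
theorem wf (hI : ThmI) [Finite V] (T : Tri V) {r s t : V} (h : T.F r s t) {ι : Type}
    (D : Finset ι) (p q x : ι → V) (hD : ∀ i ∈ D, T.F (p i) (q i) (x i))
    (hr : ∀ i ∈ D, ¬ Cyc3 r s t (p i) (q i) (x i)) (ω : ι → ℝ) (hω : ∀ i ∈ D, 0 ≤ ω i) :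
    ∃ side : V → SignType, (∀ v, side v = 1 ∨ side v = -1) ∧
      (∀ σ : SignType, σ ≠ 0 → Con T.Adj {v | T.Supp v ∧ side v = σ}) ∧
      side r = 1 ∧ side s = -1 ∧ side t = -1 ∧
      (∑ i ∈ D, ω i) ^ (4 / 5 : ℝ) ≤
        ∑ i ∈ {i ∈ D | ¬ (side (p i) = side (q i) ∧ side (q i) = side (x i))},
          ω i ^ (4 / 5 : ℝ) := by
  obtain ⟨Q, hfinQ, f, K, hf, hK, hconn⟩ := exists_dual T
  have := Fintype.ofFinite Q
  obtain ⟨v0, i1, i2, i3, e1, e2, e3, hi⟩ := face_form' T f hf h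
  -- the face of the index i
  have hex : ∀ i ∈ D, ∃ (v : Q) (j1 j2 j3 : Fin 3) (hF : T.F (p i) (q i) (x i)),
      f.symm ⟨(p i, q i), ⟨x i, hF⟩⟩ = (v, j1) ∧
      f.symm ⟨(q i, x i), ⟨p i, T.cyc _ _ _ hF⟩⟩ = (v, j2) ∧
      f.symm ⟨(x i, p i), ⟨q i, T.cyc2 hF⟩⟩ = (v, j3) ∧
      ((j1 = 0 ∧ j2 = 1 ∧ j3 = 2) ∨ (j1 = 1 ∧ j2 = 2 ∧ j3 = 0) ∨
        (j1 = 2 ∧ j2 = 0 ∧ j3 = 1)) := by
    intro i hi
    obtain ⟨v, j1, j2, j3, g1, g2, g3, g4⟩ := face_form' T f hf (hD i hi)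
    exact ⟨v, j1, j2, j3, hD i hi, g1, g2, g3, g4⟩
  have hfc : ∃ face : ι → Q, ∀ i ∈ D, ∃ (j1 j2 j3 : Fin 3) (hF : T.F (p i) (q i) (x i)),
      f.symm ⟨(p i, q i), ⟨x i, hF⟩⟩ = (face i, j1) ∧
      f.symm ⟨(q i, x i), ⟨p i, T.cyc _ _ _ hF⟩⟩ = (face i, j2) ∧
      f.symm ⟨(x i, p i), ⟨q i, T.cyc2 hF⟩⟩ = (face i, j3) ∧
      ((j1 = 0 ∧ j2 = 1 ∧ j3 = 2) ∨ (j1 = 1 ∧ j2 = 2 ∧ j3 = 0) ∨
        (j1 = 2 ∧ j2 = 0 ∧ j3 = 1)) := by
    refine ⟨fun i => if hi : i ∈ D then (hex i hi).choose else v0, fun i hi => ?_⟩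
    have := (hex i hi).choose_spec
    simp only [dif_pos hi]
    exact this
  obtain ⟨face, hface⟩ := hfc
  have face_ne : ∀ i ∈ D, face i ≠ v0 := by
    intro i hiD hv
    obtain ⟨j1, j2, j3, hF, g1, g2, g3, g4⟩ := hface i hiD
    apply hr i hiD
    rw [hv] at g1 g2 g3
    have key : ∀ {a b c d : V} (hab : T.Adj a b) (hcd : T.Adj c d) {l m : Fin 3},
        f.symm ⟨(a, b), hab⟩ = (v0, l) → f.symm ⟨(c, d), hcd⟩ = (v0, m) → l = m → a = c := by
      intro a b c d hab hcd l m h1 h2 hlm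
      rw [hlm, ← h2] at h1
      have := f.symm.injective h1
      exact congrArg (fun z => z.1.1) this
    rcases g4 with ⟨k1, k2, k3⟩ | ⟨k1, k2, k3⟩ | ⟨k1, k2, k3⟩ <;>
      rcases hi with ⟨l1, l2, l3⟩ | ⟨l1, l2, l3⟩ | ⟨l1, l2, l3⟩
    · exact Or.inl ⟨key _ _ g1 e1 (by rw [k1, l1]), key _ _ g2 e2 (by rw [k2, l2]),
        key _ _ g3 e3 (by rw [k3, l3])⟩
    · exact Or.inr (Or.inr ⟨key _ _ g1 e3 (by rw [k1, l3]), key _ _ g2 e1 (by rw [k2, l1]),
        key _ _ g3 e2 (by rw [k3, l2])⟩)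
    · exact Or.inr (Or.inl ⟨key _ _ g1 e2 (by rw [k1, l2]), key _ _ g2 e3 (by rw [k2, l3]),
        key _ _ g3 e1 (by rw [k3, l1])⟩)
    · exact Or.inr (Or.inl ⟨key _ _ g1 e2 (by rw [k1, l2]), key _ _ g2 e3 (by rw [k2, l3]),
        key _ _ g3 e1 (by rw [k3, l1])⟩)
    · exact Or.inl ⟨key _ _ g1 e1 (by rw [k1, l1]), key _ _ g2 e2 (by rw [k2, l2]),
        key _ _ g3 e3 (by rw [k3, l3])⟩
    · exact Or.inr (Or.inr ⟨key _ _ g1 e3 (by rw [k1, l3]), key _ _ g2 e1 (by rw [k2, l1]),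
        key _ _ g3 e2 (by rw [k3, l2])⟩)
    · exact Or.inr (Or.inr ⟨key _ _ g1 e3 (by rw [k1, l3]), key _ _ g2 e1 (by rw [k2, l1]),
        key _ _ g3 e2 (by rw [k3, l2])⟩)
    · exact Or.inr (Or.inl ⟨key _ _ g1 e2 (by rw [k1, l2]), key _ _ g2 e3 (by rw [k2, l3]),
        key _ _ g3 e1 (by rw [k3, l1])⟩)
    · exact Or.inl ⟨key _ _ g1 e1 (by rw [k1, l1]), key _ _ g2 e2 (by rw [k2, l2]),
        key _ _ g3 e3 (by rw [k3, l3])⟩
  let w : Q → ℝ := fun v => ∑ i ∈ D with face i = v, ω i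
  have hw : ∀ v, 0 ≤ w v := fun v =>
    Finset.sum_nonneg (fun i hi => hω i (Finset.mem_filter.1 hi).1)
  obtain ⟨C, hC, hC0, hC1, hCw⟩ := hI Q K hconn v0 i2 w hw
  obtain ⟨κ0, hκ1, hκ2, hκ3⟩ := hC.orient
  -- crossed edges
  let cr : V → V → Prop := fun a b => ∃ h : T.Adj a b, f.symm ⟨(a, b), h⟩ ∈ C
  have eport : ∀ (a b : V) (hab : T.Adj a b),
      K.e (f.symm ⟨(a, b), hab⟩) = f.symm ⟨(b, a), hab.symm⟩ := by
    intro a b hab
    apply f.injective
    rw [hK, Equiv.apply_symm_apply, Equiv.apply_symm_apply]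
    rfl
  have crsymm : ∀ a b, cr a b → cr b a := by
    rintro a b ⟨hab, hc⟩
    refine ⟨hab.symm, ?_⟩
    rw [← eport a b hab]
    exact hC.even.closed _ hc
  let κ : V → V → ℝ := fun a b => if h : T.Adj a b then κ0 (f.symm ⟨(a, b), h⟩) else 0
  have κpos : ∀ a b (hab : T.Adj a b), κ a b = κ0 (f.symm ⟨(a, b), hab⟩) := by
    intro a b hab
    simp only [κ, dif_pos hab]
  have κneg : ∀ a b, ¬ T.Adj a b → κ a b = 0 := by
    intro a b hab
    simp only [κ, dif_neg hab]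
  have κanti : ∀ a b, κ a b = - κ b a := by
    intro a b
    by_cases hab : T.Adj a b
    · rw [κpos a b hab, κpos b a hab.symm, ← eport a b hab, hκ1, neg_neg]
    · rw [κneg a b hab, κneg b a (fun hh => hab hh.symm), neg_zero]
  have κface : ∀ a b c, T.F a b c → κ a b + κ b c + κ c a = 0 := by
    intro a b c hF
    obtain ⟨v, j1, j2, j3, g1, g2, g3, g4⟩ := face_form' T f hf hF
    rw [κpos a b ⟨c, hF⟩, κpos b c ⟨a, T.cyc _ _ _ hF⟩, κpos c a ⟨b, T.cyc2 hF⟩, g1, g2, g3]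
    have := hκ2 v
    rcases g4 with ⟨k1, k2, k3⟩ | ⟨k1, k2, k3⟩ | ⟨k1, k2, k3⟩
    · rw [k1, k2, k3]; exact this
    · rw [k1, k2, k3]; linarith
    · rw [k1, k2, k3]; linarith
  have κcr : ∀ a b, κ a b ≠ 0 ↔ cr a b := by
    intro a b
    by_cases hab : T.Adj a b
    · rw [κpos a b hab, hκ3]
      exact ⟨fun hh => ⟨hab, hh⟩, fun ⟨_, hh⟩ => hh⟩
    · rw [κneg a b hab]
      exact ⟨fun hh => absurd rfl hh, fun ⟨hh, _⟩ => absurd hh hab⟩
  have hmin : ∀ W : Set V, (∀ a b, T.Adj a b → a ∈ W → b ∉ W → cr a b) →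
      (∃ a b, T.Adj a b ∧ a ∈ W ∧ b ∉ W) → ∀ a b, cr a b → (a ∈ W ↔ b ∉ W) := by
    rintro W hW ⟨a0, b0, hab0, ha0, hb0⟩
    let C' : Set (Q × Fin 3) := {d | (f d).1.1 ∈ W ↔ ¬ ((f d).1.2 ∈ W)}
    have hsub : C' ⊆ C := by
      intro d hd
      have hd' : (f d).1.1 ∈ W ↔ ¬ ((f d).1.2 ∈ W) := hd
      rcases hfd : f d with ⟨⟨a, b⟩, hab⟩
      rw [hfd] at hd'
      simp only at hd' hab
      have hdd : d = f.symm ⟨(a, b), hab⟩ := by rw [← hfd, Equiv.symm_apply_apply]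
      rw [hdd]
      by_cases ha : a ∈ W
      · exact (hW a b hab ha (hd'.1 ha)).2
      · have hb : b ∈ W := by
          by_contra hb
          exact ha (hd'.2 hb)
        exact (crsymm _ _ (hW b a hab.symm hb ha)).2
    have heven : K.Even C' := by
      constructor
      · intro d hd
        have hd' : (f d).1.1 ∈ W ↔ ¬ ((f d).1.2 ∈ W) := hd
        change (f (K.e d)).1.1 ∈ W ↔ ¬ ((f (K.e d)).1.2 ∈ W)
        rw [hK]
        change (f d).1.2 ∈ W ↔ ¬ ((f d).1.1 ∈ W)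
        exact iff_flip hd'
      · intro v
        obtain ⟨a, b, c, hF, g0, g1, g2⟩ := face_form T f hf v
        apply card_two (A := a ∈ W) (B := b ∈ W) (C := c ∈ W)
        · change ((f (v, 0)).1.1 ∈ W ↔ ¬ ((f (v, 0)).1.2 ∈ W)) ↔ _
          rw [g0]
        · change ((f (v, 1)).1.1 ∈ W ↔ ¬ ((f (v, 1)).1.2 ∈ W)) ↔ _
          rw [g1]
        · change ((f (v, 2)).1.1 ∈ W ↔ ¬ ((f (v, 2)).1.2 ∈ W)) ↔ _
          rw [g2]
    have hne : C'.Nonempty := by
      refine ⟨f.symm ⟨(a0, b0), hab0⟩, ?_⟩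
      change (f (f.symm ⟨(a0, b0), hab0⟩)).1.1 ∈ W ↔ ¬ ((f (f.symm ⟨(a0, b0), hab0⟩)).1.2 ∈ W)
      rw [Equiv.apply_symm_apply]
      exact ⟨fun _ => hb0, fun _ => ha0⟩
    have hEq := hC.minimal C' hsub hne heven
    rintro a b ⟨hab, hc⟩
    rw [← hEq] at hc
    have hc' : (f (f.symm ⟨(a, b), hab⟩)).1.1 ∈ W ↔
      ¬ ((f (f.symm ⟨(a, b), hab⟩)).1.2 ∈ W) := hc
    rw [Equiv.apply_symm_apply] at hc'
    exact hc'
  have hi12 : i1 ≠ i2 := by
    rcases hi with ⟨l1, l2, l3⟩ | ⟨l1, l2, l3⟩ | ⟨l1, l2, l3⟩ <;> rw [l1, l2] <;> decide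
  have hrs : cr r s := ⟨⟨t, h⟩, by rw [e1]; exact hC1 i1 hi12⟩
  have hst : ¬ cr s t := by
    rintro ⟨hh, hc⟩
    rw [e2] at hc
    exact hC0 hc
  obtain ⟨W, rW, sW, tW, conW, conW', hbond⟩ :=
    bond T cr crsymm κ κanti κface κcr hmin h hrs hst
  refine ⟨fun v => if v ∈ W then 1 else -1, ?_, ?_, ?_, ?_, ?_, ?_⟩
  · intro v
    by_cases hv : v ∈ W
    · left; simp only [if_pos hv]
    · right; simp only [if_neg hv]
  · intro σ hσ
    have hσ' : σ = 1 ∨ σ = -1 := by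
      rcases σ with _ | _ | _
      · exact absurd rfl hσ
      · right; rfl
      · left; rfl
    rcases hσ' with rfl | rfl
    · have : {v | T.Supp v ∧ (if v ∈ W then (1 : SignType) else -1) = 1} =
          {v | T.Supp v ∧ v ∈ W} := by
        ext v
        by_cases hv : v ∈ W <;> simp [hv]
      rw [this]
      exact conW
    · have : {v | T.Supp v ∧ (if v ∈ W then (1 : SignType) else -1) = -1} =
          {v | T.Supp v ∧ v ∉ W} := by
        ext v
        by_cases hv : v ∈ W <;> simp [hv]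
      rw [this]
      exact conW'
  · simp only [if_pos rW]
  · simp only [if_neg sW]
  · simp only [if_neg tW]
  · have hL : ∑ v ∈ Finset.univ.erase v0, w v = ∑ i ∈ D, ω i := by
      apply Finset.sum_fiberwise_of_maps_to
      intro i hi
      simp only [Finset.mem_erase, Finset.mem_univ, and_true]
      exact face_ne i hi
    rw [hL] at hCw
    refine hCw.trans ?_
    have h1 : ∀ v ∈ {v ∈ Finset.univ.erase v0 | ∃ i, (v, i) ∈ C},
        w v ^ (4 / 5 : ℝ) ≤ ∑ i ∈ D with face i = v, ω i ^ (4 / 5 : ℝ) := by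
      intro v _
      exact rpow_sum_le _ _ (fun i hi => hω i (Finset.mem_filter.1 hi).1) (by norm_num)
        (by norm_num)
    refine (Finset.sum_le_sum h1).trans ?_
    have h2 : ∑ v ∈ {v ∈ Finset.univ.erase v0 | ∃ i, (v, i) ∈ C},
        ∑ i ∈ D with face i = v, ω i ^ (4 / 5 : ℝ) =
          ∑ i ∈ D with (∃ j, (face i, j) ∈ C), ω i ^ (4 / 5 : ℝ) := by
      rw [← Finset.sum_fiberwise_of_maps_to (s := {i ∈ D | ∃ j, (face i, j) ∈ C})
        (t := {v ∈ Finset.univ.erase v0 | ∃ i, (v, i) ∈ C}) (g := face)]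
      · apply Finset.sum_congr rfl
        intro v hv
        apply Finset.sum_congr _ (fun _ _ => rfl)
        ext i
        simp only [Finset.mem_filter] at hv ⊢
        constructor
        · rintro ⟨g1, g2⟩
          exact ⟨⟨g1, by rw [g2]; exact hv.2⟩, g2⟩
        · rintro ⟨⟨g1, _⟩, g2⟩
          exact ⟨g1, g2⟩
      · intro i hi
        simp only [Finset.mem_filter, Finset.mem_erase, Finset.mem_univ, and_true] at hi ⊢
        exact ⟨face_ne i hi.1, hi.2⟩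
    rw [h2]
    apply Finset.sum_le_sum_of_subset_of_nonneg
    · intro i hi
      simp only [Finset.mem_filter] at hi ⊢
      refine ⟨hi.1, ?_⟩
      rintro ⟨m1, m2⟩
      obtain ⟨j, hj⟩ := hi.2
      obtain ⟨j1, j2, j3, hF, g1, g2, g3, g4⟩ := hface i hi.1
      have hmem : ∀ a b : V, (if a ∈ W then (1 : SignType) else -1) =
          (if b ∈ W then 1 else -1) → (a ∈ W ↔ b ∈ W) := by
        intro a b
        by_cases ha : a ∈ W <;> by_cases hb : b ∈ W <;> simp [ha, hb]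
      have m1' := hmem _ _ m1
      have m2' := hmem _ _ m2
      have n1 : ¬ cr (p i) (q i) := by
        intro hc
        exact iff_absurd ((hbond _ _ ⟨_, hF⟩).1 hc) m1'
      have n2 : ¬ cr (q i) (x i) := by
        intro hc
        exact iff_absurd ((hbond _ _ ⟨_, T.cyc _ _ _ hF⟩).1 hc) m2'
      have n3 : ¬ cr (x i) (p i) := by
        intro hc
        exact iff_absurd ((hbond _ _ ⟨_, T.cyc2 hF⟩).1 hc) (m1'.trans m2').symm
      have hj' : j = j1 ∨ j = j2 ∨ j = j3 := by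
        rcases g4 with ⟨k1, k2, k3⟩ | ⟨k1, k2, k3⟩ | ⟨k1, k2, k3⟩ <;> rw [k1, k2, k3] <;>
          fin_cases j <;> simp
      rcases hj' with rfl | rfl | rfl
      · exact n1 ⟨⟨_, hF⟩, by rw [g1]; exact hj⟩
      · exact n2 ⟨⟨_, T.cyc _ _ _ hF⟩, by rw [g2]; exact hj⟩
      · exact n3 ⟨⟨_, T.cyc2 hF⟩, by rw [g3]; exact hj⟩
    · intro i hi _
      exact Real.rpow_nonneg (hω i (Finset.mem_filter.1 hi).1) _

end P3
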