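import Pool.Agent.Lib_MP_b306af.CubDefs
import Pool.Agent.Lib_MP_b306af.P4Defs

/-!
# Orientation of a cycle of a cubic graph, and the type of faces (MP_b306af, Part III, section 4)
-/

namespace P1

namespace Cub

variable {V : Type} {K : Cub V} {C : Set (V × Fin 3)}

/-- the other port -/
theorem exists_other (h : K.Even C) : ∃ o : V × Fin 3 → V × Fin 3,
    (∀ d, o (o d) = d) ∧ (∀ d ∈ C, o d ∈ C ∧ o d ≠ d ∧ (o d).1 = d.1 ∧
      ∀ d' ∈ C, d'.1 = d.1 → d' = d ∨ d' = o d) ∧ ∀ d, d ∉ C → o d = d := by
  classical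
  have key : ∀ d ∈ C, ∃ d' ∈ C, d' ≠ d ∧ d'.1 = d.1 ∧
      ∀ d'' ∈ C, d''.1 = d.1 → d'' = d ∨ d'' = d' := by
    rintro ⟨v, i⟩ hd
    have h2 : {i | (v, i) ∈ C}.ncard = 2 := by
      rcases h.deg v with h0 | h0
      · rw [Set.ncard_eq_zero (Set.toFinite _)] at h0
        exact absurd (show i ∈ {i | (v, i) ∈ C} from hd) (by rw [h0]; simp)
      · exact h0
    rw [Set.ncard_eq_two] at h2
    obtain ⟨x, y, hxy, hS⟩ := h2
    have hx : (v, x) ∈ C := by
      have : x ∈ {i | (v, i) ∈ C} := by rw [hS]; simp
      exact this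
    have hy : (v, y) ∈ C := by
      have : y ∈ {i | (v, i) ∈ C} := by rw [hS]; simp
      exact this
    have hmem : ∀ j, (v, j) ∈ C → j = x ∨ j = y := by
      intro j hj
      have : j ∈ {i | (v, i) ∈ C} := hj
      rw [hS] at this
      simpa using this
    rcases hmem i hd with rfl | rfl
    · refine ⟨(v, y), hy, ?_, rfl, ?_⟩
      · intro hh
        exact hxy (by simpa using hh.symm)
      · rintro ⟨v', j⟩ hj hv
        simp only at hv
        subst hv
        rcases hmem j hj with rfl | rfl
        · exact Or.inl rfl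
        · exact Or.inr rfl
    · refine ⟨(v, x), hx, ?_, rfl, ?_⟩
      · intro hh
        exact hxy (by simpa using hh)
      · rintro ⟨v', j⟩ hj hv
        simp only at hv
        subst hv
        rcases hmem j hj with rfl | rfl
        · exact Or.inr rfl
        · exact Or.inl rfl
  choose! g hg using key
  refine ⟨fun d => if d ∈ C then g d else d, ?_, ?_, ?_⟩
  · intro d
    by_cases hd : d ∈ C
    · have h1 := hg d hd
      have h2 := hg (g d) h1.1
      have e1 : (if d ∈ C then g d else d) = g d := if_pos hd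
      simp only [e1]
      rw [if_pos h1.1]
      rcases h2.2.2.2 d hd (h1.2.2.1).symm with h3 | h3
      · exact absurd h3.symm h1.2.1
      · exact h3.symm
    · simp only [if_neg hd]
  · intro d hd
    simp only [if_pos hd]
    exact hg d hd
  · intro d hd
    simp only [if_neg hd]

/-- orientation of a cycle -/
theorem Cycle.orient (h : K.Cycle C) : ∃ κ : V × Fin 3 → ℝ, (∀ d, κ (K.e d) = - κ d) ∧
    (∀ v, κ (v, 0) + κ (v, 1) + κ (v, 2) = 0) ∧ ∀ d, κ d ≠ 0 ↔ d ∈ C := by
  classical
  obtain ⟨o, oo, oC, oN⟩ := exists_other h.even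
  let eP : Equiv.Perm (V × Fin 3) := ⟨K.e, K.e, K.inv, K.inv⟩
  let oP : Equiv.Perm (V × Fin 3) := ⟨o, o, oo, oo⟩
  have heP : ∀ d, eP d = K.e d := fun _ => rfl
  have hoP : ∀ d, oP d = o d := fun _ => rfl
  have oo' : oP * oP = 1 := Equiv.ext oo
  have ee' : eP * eP = 1 := Equiv.ext K.inv
  let g : Equiv.Perm (V × Fin 3) := eP * oP
  have oinv : oP⁻¹ = oP := inv_eq_of_mul_eq_one_left oo'
  have einv : eP⁻¹ = eP := inv_eq_of_mul_eq_one_left ee'
  have ginv : g⁻¹ = oP * eP := by
    simp only [g, mul_inv_rev, oinv, einv]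
  have conj : ∀ k : ℤ, oP * g ^ k = g ^ (-k) * oP := by
    intro k
    have h1 : oP * g * oP⁻¹ = g⁻¹ := by
      rw [ginv, oinv]
      simp only [g]
      rw [mul_assoc, mul_assoc, oo', mul_one]
    have h2 : oP * g ^ k * oP⁻¹ = (g⁻¹) ^ k := by
      rw [← h1, conj_zpow]
    rw [inv_zpow, ← zpow_neg] at h2
    rw [← h2, inv_mul_cancel_right]
  obtain ⟨d0, hd0⟩ := h.nonempty
  have eC : ∀ d ∈ C, K.e d ∈ C := h.even.closed
  have eC' : ∀ d, K.e d ∈ C → d ∈ C := by
    intro d hd
    have := eC _ hd
    rwa [K.inv] at this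
  have oC' : ∀ d, o d ∈ C ↔ d ∈ C := by
    intro d
    constructor
    · intro hd
      by_contra hn
      rw [oN d hn] at hd
      exact hn hd
    · intro hd
      exact (oC d hd).1
  have gC : ∀ d, g d ∈ C ↔ d ∈ C := by
    intro d
    have : g d = K.e (o d) := rfl
    rw [this]
    constructor
    · intro hd
      exact (oC' d).1 (eC' _ hd)
    · intro hd
      exact eC _ ((oC' d).2 hd)
  have gkC : ∀ (k : ℤ) d, (g ^ k) d ∈ C ↔ d ∈ C := by
    intro k
    induction k using Int.induction_on with
    | zero => intro d; simp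
    | succ n ih =>
      intro d
      rw [add_comm, zpow_add, zpow_one, Equiv.Perm.mul_apply, gC, ih]
    | pred n ih =>
      intro d
      have e1 : (g ^ (-(n : ℤ) - 1)) d = g⁻¹ ((g ^ (-(n : ℤ))) d) := by
        rw [sub_eq_add_neg, add_comm, zpow_add, zpow_neg_one, Equiv.Perm.mul_apply]
      rw [e1]
      have e2 := gC (g⁻¹ ((g ^ (-(n : ℤ))) d))
      have e3 : g (g⁻¹ ((g ^ (-(n : ℤ))) d)) = (g ^ (-(n : ℤ))) d := Equiv.apply_symm_apply g _
      rw [e3] at e2
      rw [← e2, ih]
  let O : Set (V × Fin 3) := {d | ∃ k : ℤ, d = (g ^ k) d0}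
  let O' : Set (V × Fin 3) := {d | ∃ k : ℤ, d = (g ^ k) (o d0)}
  have O_sub : O ⊆ C := by
    rintro d ⟨k, rfl⟩
    exact (gkC k d0).2 hd0
  have O'_sub : O' ⊆ C := by
    rintro d ⟨k, rfl⟩
    exact (gkC k _).2 ((oC' d0).2 hd0)
  have gO : ∀ d, d ∈ O → g d ∈ O := by
    rintro d ⟨k, rfl⟩
    exact ⟨1 + k, by rw [zpow_add, zpow_one]; rfl⟩
  have gO' : ∀ d, d ∈ O' → g d ∈ O' := by
    rintro d ⟨k, rfl⟩
    exact ⟨1 + k, by rw [zpow_add, zpow_one]; rfl⟩
  have oO : ∀ d, d ∈ O → o d ∈ O' := by
    rintro d ⟨k, rfl⟩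
    refine ⟨-k, ?_⟩
    have := congrArg (fun p : Equiv.Perm (V × Fin 3) => p d0) (conj k)
    simpa [Equiv.Perm.mul_apply, hoP] using this
  have oO' : ∀ d, d ∈ O' → o d ∈ O := by
    rintro d ⟨k, rfl⟩
    refine ⟨-k, ?_⟩
    have := congrArg (fun p : Equiv.Perm (V × Fin 3) => p (o d0)) (conj k)
    simp only [Equiv.Perm.mul_apply, hoP, oo] at this
    exact this
  have e_eq : ∀ d, K.e d = g (o d) := by
    intro d
    have : g (o d) = K.e (o (o d)) := rfl
    rw [this, oo]
  have eO : ∀ d, d ∈ O → K.e d ∈ O' := by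
    intro d hd
    rw [e_eq]
    exact gO' _ (oO _ hd)
  have eO' : ∀ d, d ∈ O' → K.e d ∈ O := by
    intro d hd
    rw [e_eq]
    exact gO _ (oO' _ hd)
  -- disjointness
  have base : ∀ k : ℤ, (g ^ k) d0 ≠ o d0 := by
    intro k hk
    rcases Int.even_or_odd k with ⟨m, hm⟩ | ⟨m, hm⟩
    · -- y = g^m d0 satisfies o y = y
      have h1 : o ((g ^ m) d0) = (g ^ m) d0 := by
        have h2 := congrArg (fun p : Equiv.Perm (V × Fin 3) => p d0) (conj m)
        simp only [Equiv.Perm.mul_apply, hoP] at h2
        rw [h2, ← hk, ← Equiv.Perm.mul_apply, ← zpow_add]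
        congr 2
        omega
      exact (oC _ ((gkC m d0).2 hd0)).2.1 h1
    · have h2 := congrArg (fun p : Equiv.Perm (V × Fin 3) => p d0) (conj m)
      simp only [Equiv.Perm.mul_apply, hoP] at h2
      have h3 : o ((g ^ m) d0) = (g ^ (m + 1)) d0 := by
        rw [h2, ← hk, ← Equiv.Perm.mul_apply, ← zpow_add]
        congr 2
        omega
      have h4 : (g ^ (m + 1)) d0 = K.e (o ((g ^ m) d0)) := by
        rw [add_comm, zpow_add, zpow_one, Equiv.Perm.mul_apply]
        rfl
      have h5 : K.e (o ((g ^ m) d0)) = o ((g ^ m) d0) := by rw [← h4, h3]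
      exact K.ne _ (congrArg Prod.fst h5)
  have disj : ∀ d, d ∈ O → d ∉ O' := by
    rintro d ⟨k, rfl⟩ ⟨l, hl⟩
    apply base (-l + k)
    rw [zpow_add, Equiv.Perm.mul_apply, hl, ← Equiv.Perm.mul_apply, ← zpow_add]
    simp
  have hUeven : K.Even (O ∪ O') := by
    constructor
    · rintro d (hd | hd)
      · exact Or.inr (eO d hd)
      · exact Or.inl (eO' d hd)
    · intro v
      by_cases hv : ∃ i, (v, i) ∈ O ∪ O'
      · right
        obtain ⟨i, hi⟩ := hv
        have hiC : (v, i) ∈ C := by
          rcases hi with hi | hi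
          · exact O_sub hi
          · exact O'_sub hi
        have hoi : o (v, i) ∈ O ∪ O' := by
          rcases hi with hi | hi
          · exact Or.inr (oO _ hi)
          · exact Or.inl (oO' _ hi)
        obtain ⟨p1, p2, p3, p4⟩ := oC _ hiC
        rw [Set.ncard_eq_two]
        refine ⟨i, (o (v, i)).2, ?_, ?_⟩
        · intro hh
          apply p2
          exact Prod.ext p3 hh.symm
        · ext j
          simp only [Set.mem_ofPred_eq, Set.mem_insert_iff, Set.mem_singleton_iff]
          constructor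
          · intro hj
            have hjC : (v, j) ∈ C := by
              rcases hj with hj | hj
              · exact O_sub hj
              · exact O'_sub hj
            rcases p4 (v, j) hjC rfl with h1 | h1
            · left; simpa using h1
            · right; rw [← h1]
          · rintro (rfl | rfl)
            · exact hi
            · have : (v, (o (v, i)).2) = o (v, i) := Prod.ext p3.symm rfl
              rw [this]
              exact hoi
      · left
        have : {i | (v, i) ∈ O ∪ O'} = ∅ := by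
          ext j
          simp only [Set.mem_ofPred_eq, Set.mem_empty_iff_false, iff_false]
          exact fun hj => hv ⟨j, hj⟩
        rw [this, Set.ncard_empty]
  have hU : O ∪ O' = C := by
    apply h.minimal _ _ _ hUeven
    · rintro d (hd | hd)
      · exact O_sub hd
      · exact O'_sub hd
    · exact ⟨d0, Or.inl ⟨0, by simp⟩⟩
  let κ : V × Fin 3 → ℝ := fun d => if d ∈ O then 1 else if d ∈ O' then -1 else 0
  have κO : ∀ d, d ∈ O → κ d = 1 := fun d hd => if_pos hd
  have κO' : ∀ d, d ∈ O' → κ d = -1 := by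
    intro d hd
    have : d ∉ O := fun hh => disj d hh hd
    simp only [κ, if_neg this, if_pos hd]
  have κN : ∀ d, d ∉ C → κ d = 0 := by
    intro d hd
    have h1 : d ∉ O := fun hh => hd (O_sub hh)
    have h2 : d ∉ O' := fun hh => hd (O'_sub hh)
    simp only [κ, if_neg h1, if_neg h2]
  refine ⟨κ, ?_, ?_, ?_⟩
  · intro d
    by_cases hd : d ∈ C
    · have hd' : d ∈ O ∪ O' := by rw [hU]; exact hd
      rcases hd' with hd' | hd'
      · rw [κO d hd', κO' _ (eO d hd')]
      · rw [κO' d hd', κO _ (eO' d hd')]; norm_num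
    · rw [κN d hd, κN (K.e d) (fun hh => hd (eC' d hh))]; norm_num
  · intro v
    have hsum : ∑ i : Fin 3, κ (v, i) = 0 := by
      by_cases hv : ∃ i, (v, i) ∈ C
      · obtain ⟨i, hi⟩ := hv
        obtain ⟨p1, p2, p3, p4⟩ := oC _ hi
        have hij : i ≠ (o (v, i)).2 := by
          intro hh
          apply p2
          exact Prod.ext p3 hh.symm
        have h1 : ∑ j : Fin 3, κ (v, j) = ∑ j ∈ {i, (o (v, i)).2}, κ (v, j) := by
          symm
          apply Finset.sum_subset (Finset.subset_univ _)
          intro j _ hj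
          apply κN
          intro hjC
          apply hj
          rcases p4 (v, j) hjC rfl with h2 | h2
          · simp only [Finset.mem_insert, Finset.mem_singleton]
            left; simpa using h2
          · simp only [Finset.mem_insert, Finset.mem_singleton]
            right; rw [← h2]
        rw [h1, Finset.sum_pair hij]
        have h3 : (v, (o (v, i)).2) = o (v, i) := Prod.ext p3.symm rfl
        rw [h3]
        have hd' : (v, i) ∈ O ∪ O' := by rw [hU]; exact hi
        rcases hd' with hd' | hd'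
        · rw [κO _ hd', κO' _ (oO _ hd')]; norm_num
        · rw [κO' _ hd', κO _ (oO' _ hd')]; norm_num
      · apply Finset.sum_eq_zero
        intro j _
        exact κN _ (fun hj => hv ⟨j, hj⟩)
    rw [Fin.sum_univ_three] at hsum
    exact hsum
  · intro d
    constructor
    · intro hd
      by_contra hn
      exact hd (κN d hn)
    · intro hd
      have hd' : d ∈ O ∪ O' := by rw [hU]; exact hd
      rcases hd' with hd' | hd'
      · rw [κO _ hd']; norm_num
      · rw [κO' _ hd']; norm_num

end Cub

/-- orbits of a free permutation of order three -/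
theorem exists_fin3 {D : Type} (ρ : D → D) (h3 : ∀ d, ρ (ρ (ρ d)) = d) (h1 : ∀ d, ρ d ≠ d) :
    ∃ (Q : Type) (f : Q × Fin 3 ≃ D), ∀ q, ρ (f (q, 0)) = f (q, 1) ∧ ρ (f (q, 1)) = f (q, 2) ∧
      ρ (f (q, 2)) = f (q, 0) := by
  classical
  have h2 : ∀ d, ρ (ρ d) ≠ d := by
    intro d hd
    apply h1 d
    have := congrArg ρ hd
    rw [h3] at this
    exact this.symm
  have inj : Function.Injective ρ := by
    intro x y hxy
    have := congrArg (fun z => ρ (ρ z)) hxy
    simpa only [h3] using this
  let S : Setoid D :=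
    { r := fun x y => x = y ∨ x = ρ y ∨ x = ρ (ρ y)
      iseqv :=
        { refl := fun x => Or.inl rfl
          symm := by
            rintro x y (h | h | h)
            · exact Or.inl h.symm
            · right; right; rw [h, h3]
            · right; left; rw [h, h3]
          trans := by
            rintro x y z (h | h | h) (h' | h' | h')
            · left; rw [h, h']
            · right; left; rw [h, h']
            · right; right; rw [h, h']
            · right; left; rw [h, h']
            · right; right; rw [h, h']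
            · left; rw [h, h', h3]
            · right; right; rw [h, h']
            · left; rw [h, h', h3]
            · right; left; rw [h, h', h3] } }
  let F : Quotient S × Fin 3 → D := fun p =>
    if p.2 = 0 then p.1.out else if p.2 = 1 then ρ p.1.out else ρ (ρ p.1.out)
  have F0 : ∀ q, F (q, 0) = q.out := fun q => by simp [F]
  have F1 : ∀ q, F (q, 1) = ρ q.out := fun q => by simp [F]
  have F2 : ∀ q, F (q, 2) = ρ (ρ q.out) := fun q => by simp [F]
  have cls : ∀ p, (Quotient.mk S (F p)) = p.1 := by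
    rintro ⟨q, i⟩
    have hq : Quotient.mk S q.out = q := Quotient.out_eq q
    fin_cases i
    · change Quotient.mk S (F (q, 0)) = q
      rw [F0, hq]
    · change Quotient.mk S (F (q, 1)) = q
      rw [F1]
      refine Eq.trans (Quotient.sound ?_) hq
      exact Or.inr (Or.inl rfl)
    · change Quotient.mk S (F (q, 2)) = q
      rw [F2]
      refine Eq.trans (Quotient.sound ?_) hq
      exact Or.inr (Or.inr rfl)
  have Finj : Function.Injective F := by
    intro p p' hp
    have h4 : p.1 = p'.1 := by rw [← cls p, ← cls p', hp]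
    obtain ⟨q, i⟩ := p
    obtain ⟨q', j⟩ := p'
    simp only at h4
    subst h4
    fin_cases i <;> fin_cases j
    · rfl
    · change F (q, 0) = F (q, 1) at hp
      rw [F0, F1] at hp
      exact absurd hp.symm (h1 _)
    · change F (q, 0) = F (q, 2) at hp
      rw [F0, F2] at hp
      exact absurd hp.symm (h2 _)
    · change F (q, 1) = F (q, 0) at hp
      rw [F0, F1] at hp
      exact absurd hp (h1 _)
    · rfl
    · change F (q, 1) = F (q, 2) at hp
      rw [F1, F2] at hp
      exact absurd hp.symm (h1 _)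
    · change F (q, 2) = F (q, 0) at hp
      rw [F0, F2] at hp
      exact absurd hp (h2 _)
    · change F (q, 2) = F (q, 1) at hp
      rw [F1, F2] at hp
      exact absurd hp (h1 _)
    · rfl
  have Fsurj : Function.Surjective F := by
    intro d
    have h5 : S.r d (Quotient.mk S d).out := by
      have : Quotient.mk S (Quotient.mk S d).out = Quotient.mk S d := Quotient.out_eq _
      exact S.iseqv.symm (Quotient.exact this)
    rcases h5 with h5 | h5 | h5
    · exact ⟨(Quotient.mk S d, 0), by rw [F0]; exact h5.symm⟩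
    · exact ⟨(Quotient.mk S d, 1), by rw [F1]; exact h5.symm⟩
    · exact ⟨(Quotient.mk S d, 2), by rw [F2]; exact h5.symm⟩
  refine ⟨Quotient S, Equiv.ofBijective F ⟨Finj, Fsurj⟩, ?_⟩
  intro q
  refine ⟨?_, ?_, ?_⟩
  · change ρ (F (q, 0)) = F (q, 1)
    rw [F0, F1]
  · change ρ (F (q, 1)) = F (q, 2)
    rw [F1, F2]
  · change ρ (F (q, 2)) = F (q, 0)
    rw [F2, F0, h3]

end P1
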