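import Pool.Agent.Lib_MP_b306af.P3Defs

/-!
# MP_b306af, Part III: inequalities for `Fz y = (y / 7) ^ (4 / 5)`
-/

set_option autoImplicit false

namespace P3

theorem Fz_nonneg {y : ℝ} (hy : 0 ≤ y) : 0 ≤ Fz y := Real.rpow_nonneg (by positivity) _

theorem Fz_mono {y z : ℝ} (hy : 0 ≤ y) (hyz : y ≤ z) : Fz y ≤ Fz z := by
  unfold Fz
  exact Real.rpow_le_rpow (by positivity) (by linarith) (by norm_num)

theorem Fz_seven : Fz 7 = 1 := by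
  unfold Fz
  norm_num

theorem Fz_eq {y : ℝ} (hy : 0 ≤ y) : Fz y = y ^ ((4 : ℝ) / 5) / 7 ^ ((4 : ℝ) / 5) := by
  unfold Fz
  rw [Real.div_rpow hy (by norm_num)]

/-- `F (y + 5) ≤ F y + 1` -/
theorem Fz_add_five {y : ℝ} (hy : 0 ≤ y) : Fz (y + 5) ≤ Fz y + 1 := by
  have h1 : Fz (y + 5) ≤ Fz y + Fz 5 := by
    unfold Fz
    have h2 : (y + 5) / 7 = y / 7 + 5 / 7 := by ring
    rw [h2]
    exact Real.rpow_add_le_add_rpow (by positivity) (by norm_num) (by norm_num) (by norm_num)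
  have h3 : Fz 5 ≤ Fz 7 := Fz_mono (by norm_num) (by norm_num)
  rw [Fz_seven] at h3
  linarith

/-- from the weighted face theorem to `F` -/
theorem Fz_sum {ι : Type} (D B : Finset ι) (ω : ι → ℝ) (hω : ∀ i ∈ D, 0 ≤ ω i) (hB : B ⊆ D)
    (h : (∑ i ∈ D, ω i) ^ ((4 : ℝ) / 5) ≤ ∑ i ∈ B, ω i ^ ((4 : ℝ) / 5)) :
    Fz (∑ i ∈ D, ω i) ≤ ∑ i ∈ B, Fz (ω i) := by
  have h0 : 0 ≤ ∑ i ∈ D, ω i := Finset.sum_nonneg hω
  have h7 : (0 : ℝ) < 7 ^ ((4 : ℝ) / 5) := by positivity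
  rw [Fz_eq h0]
  have h1 : ∑ i ∈ B, Fz (ω i) = (∑ i ∈ B, ω i ^ ((4 : ℝ) / 5)) / 7 ^ ((4 : ℝ) / 5) := by
    rw [Finset.sum_div]
    exact Finset.sum_congr rfl fun i hi => Fz_eq (hω i (hB hi))
  rw [h1]
  exact div_le_div_of_nonneg_right h h7.le

end P3
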