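import Pool.Agent.Lib_MP_b306af.P3Defs

/-!
# MP_b306af, Part III: gluing along one triangle, prescribed signs on the root triangle
-/

set_option autoImplicit false

namespace P3

open P4

variable {V : Type}

theorem IsCut.cut {T To Ti : Tri V} {p q x : V} (h : IsCut T To Ti p q x) : Cut T To Ti p q x :=
  ⟨h.fo, h.fi, h.iff, h.supp⟩

theorem sign_cases : ∀ σ : SignType, σ ≠ 0 → σ = 1 ∨ σ = -1 := by decide

theorem sign_neg_ne : ∀ σ : SignType, σ ≠ 0 → -σ ≠ 0 := by decide

theorem Str.neg {T : Tri V} {M : Finset V} {side : V → SignType} (h : Str T M side) :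
    Str T M (fun v => - side v) := by
  have h0 : ∀ σ : SignType, -σ = 0 → σ = 0 := by decide
  have h1 : ∀ σ τ : SignType, -σ = τ ↔ σ = -τ := by decide
  refine ⟨fun v hv hv0 => h.zero v hv (h0 _ hv0), fun σ hσ => ?_, fun σ hσ v hv hv0 => ?_⟩
  · have h2 := h.conn (-σ) (fun e => hσ (h0 _ e))
    have e : {v | T.Supp v ∧ side v = -σ} = {v | T.Supp v ∧ -side v = σ} := by
      ext v
      simp only [Set.mem_ofPred_eq, h1]
    rwa [e] at h2
  · obtain ⟨x, hx, hxs⟩ := h.nbr (-σ) (fun e => hσ (h0 _ e)) v hv (h0 _ hv0)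
    exact ⟨x, hx, (h1 _ _).mpr hxs⟩

theorem val_neg (M : Finset V) (side : V → SignType) : val M (fun v => - side v) = val M side := by
  have h0 : ∀ σ : SignType, -σ = 0 ↔ σ = 0 := by decide
  unfold val
  congr 1
  ext v
  simp only [Finset.mem_filter, h0]

theorem Str.mono {T : Tri V} {M M' : Finset V} (h : M ⊆ M') {side : V → SignType}
    (hs : Str T M side) : Str T M' side :=
  ⟨fun v hv h0 => h (hs.zero v hv h0), hs.conn, hs.nbr⟩

/-- the value depends only on the sides of the marks -/
theorem val_congr {M : Finset V} {side side' : V → SignType} (h : ∀ v ∈ M, side v = side' v) :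
    val M side = val M side' := by
  classical
  unfold val
  congr 1
  ext v
  simp only [Finset.mem_filter]
  constructor
  · rintro ⟨h1, h2⟩
    exact ⟨h1, by rw [← h v h1]; exact h2⟩
  · rintro ⟨h1, h2⟩
    exact ⟨h1, by rw [h v h1]; exact h2⟩

theorem val_add {M M1 M2 : Finset V} (h1 : M1 ⊆ M) (h2 : M2 ⊆ M) (hd : Disjoint M1 M2)
    (side : V → SignType) : val M1 side + val M2 side ≤ val M side := by
  classical
  unfold val
  rw [← Finset.card_union_of_disjoint]
  · refine Finset.card_le_card fun v hv => ?_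
    rw [Finset.mem_union, Finset.mem_filter, Finset.mem_filter] at hv
    rw [Finset.mem_filter]
    rcases hv with hv | hv
    · exact ⟨h1 hv.1, hv.2⟩
    · exact ⟨h2 hv.1, hv.2⟩
  · rw [Finset.disjoint_left] at hd ⊢
    intro v hv hv'
    rw [Finset.mem_filter] at hv hv'
    exact hd hv.1 hv'.1

/-- LEMMA H for one triangle with both signs. -/
theorem glue {T To Ti : Tri V} {p q x : V} (c : Cut T To Ti p q x) {M Mo Mi : Finset V}
    {So Si : V → SignType} (ho : Str To Mo So) (hi : Str Ti Mi Si) (hMo : Mo ⊆ M) (hMi : Mi ⊆ M)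
    (hp : So p = Si p) (hq : So q = Si q) (hx : So x = Si x)
    (hbi : ∀ σ : SignType, σ ≠ 0 → So p = σ ∨ So q = σ ∨ So x = σ) :
    ∃ side, Str T M side ∧ (∀ v, To.Supp v → side v = So v) ∧ (∀ v, Ti.Supp v → side v = Si v) := by
  classical
  obtain ⟨side, hside⟩ : ∃ side : V → SignType, side = fun v => if To.Supp v then So v else Si v :=
    ⟨_, rfl⟩
  have fo : ∀ v, To.Supp v → side v = So v := by
    intro v hv
    rw [hside]
    exact if_pos hv
  have fi : ∀ v, Ti.Supp v → side v = Si v := by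
    intro v hv
    by_cases hvo : To.Supp v
    · rw [fo v hvo]
      rcases c.common v hvo hv with rfl | rfl | rfl
      · exact hp
      · exact hq
      · exact hx
    · rw [hside]
      exact if_neg hvo
  refine ⟨side, ⟨?_, ?_, ?_⟩, fo, fi⟩
  · intro v hv h0
    rcases (c.supp_iff v).mp hv with h | h
    · exact hMo (ho.zero v h (by rw [← fo v h]; exact h0))
    · exact hMi (hi.zero v h (by rw [← fi v h]; exact h0))
  · intro σ hσ
    have e1 : {v | To.Supp v ∧ side v = σ} = {v | To.Supp v ∧ So v = σ} := by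
      ext v
      constructor
      · rintro ⟨h1, h2⟩
        exact ⟨h1, by rw [← fo v h1]; exact h2⟩
      · rintro ⟨h1, h2⟩
        exact ⟨h1, by rw [fo v h1]; exact h2⟩
    have e2 : {v | Ti.Supp v ∧ side v = σ} = {v | Ti.Supp v ∧ Si v = σ} := by
      ext v
      constructor
      · rintro ⟨h1, h2⟩
        exact ⟨h1, by rw [← fi v h1]; exact h2⟩
      · rintro ⟨h1, h2⟩
        exact ⟨h1, by rw [fi v h1]; exact h2⟩
    refine c.con (by rw [e1]; exact ho.conn σ hσ) (by rw [e2]; exact hi.conn σ hσ) ?_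
    rw [fo p c.corners_o.1, fo q c.corners_o.2.1, fo x c.corners_o.2.2]
    exact hbi σ hσ
  · intro σ hσ v hv h0
    rcases (c.supp_iff v).mp hv with h | h
    · obtain ⟨y, hy, hyσ⟩ := ho.nbr σ hσ v h (by rw [← fo v h]; exact h0)
      exact ⟨y, c.adj_o hy, by rw [fo y hy.symm.supp]; exact hyσ⟩
    · obtain ⟨y, hy, hyσ⟩ := hi.nbr σ hσ v h (by rw [← fi v h]; exact h0)
      exact ⟨y, c.adj_i hy, by rw [fi y hy.symm.supp]; exact hyσ⟩

/-- STEP A, and LEMMA H for a triangle with one sign: all vertices inside get the sign of the corner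
`p`. -/
theorem glue_const [Finite V] {T To Ti : Tri V} {p q x : V} (c : Cut T To Ti p q x)
    {M : Finset V} {So : V → SignType} (ho : Str To M So) {σ : SignType} (hσ : σ ≠ 0)
    (hp : So p = σ) :
    ∃ side, Str T M side ∧ (∀ v, To.Supp v → side v = So v) ∧
      (∀ v, Ins Ti p q x v → side v = σ) := by
  classical
  obtain ⟨side, hside⟩ : ∃ side : V → SignType, side = fun v => if To.Supp v then So v else σ :=
    ⟨_, rfl⟩
  have fo : ∀ v, To.Supp v → side v = So v := by
    intro v hv
    rw [hside]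
    exact if_pos hv
  have fn : ∀ v, ¬ To.Supp v → side v = σ := by
    intro v hv
    rw [hside]
    exact if_neg hv
  have hins : ∀ v, Ins Ti p q x v → ¬ To.Supp v := by
    rintro v ⟨h1, h2, h3, h4⟩ ho
    rcases c.common v ho h1 with h | h | h
    · exact h2 h
    · exact h3 h
    · exact h4 h
  refine ⟨side, ⟨?_, ?_, ?_⟩, fo, fun v hv => fn v (hins v hv)⟩
  · intro v hv h0
    by_cases h : To.Supp v
    · exact ho.zero v h (by rw [← fo v h]; exact h0)
    · rw [fn v h] at h0
      exact absurd h0 hσ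
  · intro τ hτ
    have e1 : {v | To.Supp v ∧ side v = τ} = {v | To.Supp v ∧ So v = τ} := by
      ext v
      constructor
      · rintro ⟨h1, h2⟩
        exact ⟨h1, by rw [← fo v h1]; exact h2⟩
      · rintro ⟨h1, h2⟩
        exact ⟨h1, by rw [fo v h1]; exact h2⟩
    have h1 : Con T.Adj {v | To.Supp v ∧ side v = τ} := by
      rw [e1]
      exact (ho.conn τ hτ).mono fun a b hab => c.adj_o hab
    by_cases hτσ : τ = σ
    · subst hτσ
      have h2 : Con T.Adj (W Ti \ {q, x}) := (con_del2 Ti q x).mono fun a b hab => c.adj_i hab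
      have hFn := F_ne c.Fi
      have h3 := h1.union h2 (z := p) ⟨c.corners_o.1, by rw [fo p c.corners_o.1]; exact hp⟩
        ⟨c.corners_i.1, by
          rintro (h | h)
          · exact hFn.1 h.symm
          · exact hFn.2.1 h⟩
      have e : {v | To.Supp v ∧ side v = τ} ∪ (W Ti \ {q, x}) = {v | T.Supp v ∧ side v = τ} := by
        ext v
        constructor
        · rintro (⟨h4, h5⟩ | ⟨h4, h5⟩)
          · exact ⟨(c.supp_iff v).mpr (Or.inl h4), h5⟩
          · refine ⟨(c.supp_iff v).mpr (Or.inr h4), ?_⟩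
            by_cases hvp : v = p
            · rw [hvp, fo p c.corners_o.1]
              exact hp
            · exact fn v (hins v ⟨h4, hvp, fun h => h5 (Or.inl h), fun h => h5 (Or.inr h)⟩)
        · rintro ⟨h4, h5⟩
          by_cases h6 : To.Supp v
          · exact Or.inl ⟨h6, h5⟩
          · refine Or.inr ⟨?_, ?_⟩
            · rcases (c.supp_iff v).mp h4 with h | h
              · exact absurd h h6
              · exact h
            · rintro (h | h)
              · exact h6 (h ▸ c.corners_o.2.1)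
              · rw [Set.mem_singleton_iff] at h
                exact h6 (h ▸ c.corners_o.2.2)
      rwa [e] at h3
    · have e : {v | To.Supp v ∧ side v = τ} = {v | T.Supp v ∧ side v = τ} := by
        ext v
        constructor
        · rintro ⟨h4, h5⟩
          exact ⟨(c.supp_iff v).mpr (Or.inl h4), h5⟩
        · rintro ⟨h4, h5⟩
          refine ⟨?_, h5⟩
          by_contra h6
          rw [fn v h6] at h5
          exact hτσ h5.symm
      rwa [e] at h1
  · intro τ hτ v hv h0
    by_cases h : To.Supp v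
    · obtain ⟨y, hy, hyσ⟩ := ho.nbr τ hτ v h (by rw [← fo v h]; exact h0)
      exact ⟨y, c.adj_o hy, by rw [fo y hy.symm.supp]; exact hyσ⟩
    · rw [fn v h] at h0
      exact absurd h0 hσ

/-- A structure with prescribed signs, not all equal, on the root triangle. -/
theorem Val.pattern {T : Tri V} {M : Finset V} {a b c : V} {k : ℝ} (hab : a ≠ b) (hbc : b ≠ c)
    (hca : c ≠ a) (h3 : Val T M a b c k) (sa sb sc : SignType) (ha : sa ≠ 0) (hb : sb ≠ 0)
    (hc : sc ≠ 0) (hne : ¬ (sa = sb ∧ sb = sc)) :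
    ∃ side, Str T M side ∧ side a = sa ∧ side b = sb ∧ side c = sc ∧ k ≤ (val M side : ℝ) := by
  obtain ⟨s1, h1, h1a, h1o, h1k⟩ := h3 a (Or.inl rfl) sa ha
  obtain ⟨s2, h2, h2a, h2o, h2k⟩ := h3 b (Or.inr (Or.inl rfl)) sb hb
  obtain ⟨s3, h3', h3a, h3o, h3k⟩ := h3 c (Or.inr (Or.inr rfl)) sc hc
  have key : ∀ σ τ : SignType, σ ≠ 0 → τ ≠ 0 → σ ≠ τ → -σ = τ := by decide
  by_cases e1 : sa = sb
  · have e2 : sc ≠ sb := fun e => hne ⟨e1, e.symm⟩
    refine ⟨s3, h3', ?_, ?_, h3a, h3k⟩
    · rw [h3o a (Or.inl rfl) hca.symm, e1]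
      exact key sc sb hc hb e2
    · rw [h3o b (Or.inr (Or.inl rfl)) hbc]
      exact key sc sb hc hb e2
  · by_cases e2 : sb = sc
    · refine ⟨s1, h1, h1a, ?_, ?_, h1k⟩
      · rw [h1o b (Or.inr (Or.inl rfl)) hab.symm]
        exact key sa sb ha hb e1
      · rw [h1o c (Or.inr (Or.inr rfl)) hca, ← e2]
        exact key sa sb ha hb e1
    · have e3 : sa = sc := by
        clear h1a h1o h2a h2o h3a h3o hne
        rcases sign_cases sa ha with rfl | rfl <;> rcases sign_cases sb hb with rfl | rfl <;>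
          rcases sign_cases sc hc with rfl | rfl <;>
          first | rfl | exact absurd rfl e1 | exact absurd rfl e2
      refine ⟨s2, h2, ?_, h2a, ?_, h2k⟩
      · rw [h2o a (Or.inl rfl) hab, e3]
        exact key sb sc hb hc e2
      · rw [h2o c (Or.inr (Or.inr rfl)) hbc.symm]
        exact key sb sc hb hc e2

/-- It is enough to have structures in which the root corner is positive. -/
theorem Val.of_plus {T : Tri V} {M : Finset V} {r s t : V} {k : ℝ}
    (h : ∀ c, Cor r s t c → ∃ side, Str T M side ∧ side c = 1 ∧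
      (∀ d, Cor r s t d → d ≠ c → side d = -1) ∧ k ≤ (val M side : ℝ)) : Val T M r s t k := by
  intro c hc σ hσ
  obtain ⟨side, h1, h2, h3, h4⟩ := h c hc
  rcases sign_cases σ hσ with rfl | rfl
  · exact ⟨side, h1, h2, h3, h4⟩
  · refine ⟨fun v => - side v, h1.neg, ?_, ?_, ?_⟩
    · show - side c = -1
      rw [h2]
    · intro d hd hdc
      show - side d = - -1
      rw [h3 d hd hdc]
    · rw [val_neg]
      exact h4

end P3
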