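import Pool.Agent.Lib_MP_b306af.P3Defs

/-!
# MP_b306af, Part III: the torso (definition)
-/

set_option autoImplicit false

namespace P3

open P4

variable {V : Type}

/-- `T'` is the torso of `T`: the separating triangles `(p i, q i, x i)` have disjoint insides
`Ti i`, and emptying all of them gives the triangulation `T'` without separating triangles. -/
structure Torso (T T' : Tri V) (r s t : V) (n : ℕ) (p q x : Fin n → V) (Ti : Fin n → Tri V) :
    Prop where
  cut : ∀ i, ∃ A, IsCut T A (Ti i) (p i) (q i) (x i) ∧ A.F r s t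
  face : ∀ i, T'.F (p i) (q i) (x i)
  split : ∀ a b c, T.F a b c ↔ (T'.F a b c ∧ ∀ i, ¬ Cyc3 (p i) (q i) (x i) a b c) ∨
    ∃ i, (Ti i).F a b c ∧ ¬ Cyc3 (q i) (p i) (x i) a b c
  common : ∀ i v, T'.Supp v → (Ti i).Supp v → v = p i ∨ v = q i ∨ v = x i
  disj : ∀ i j, i ≠ j → ∀ v, (Ti i).Supp v → (Ti j).Supp v → T'.Supp v
  root : T'.F r s t
  root' : ∀ i, ¬ Cyc3 (p i) (q i) (x i) r s t
  nosep : ∀ a b c, ¬ Sep T' a b c
  inj : ∀ i j, Cyc3 (p i) (q i) (x i) (p j) (q j) (x j) → i = j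

end P3
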