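import Pool.Agent.Lib_MP_b306af.P3Dual
import Pool.Agent.Lib_MP_b306af.P3Gl
import Pool.Agent.Lib_MP_b306af.P3TorsoDef

/-!
# Gluing structures along triangles (MP_b306af, Part III, Lemma H)
-/

namespace P3

open P4 P1

variable {V : Type}

/-- `T` is obtained from `T'` by inserting the triangulations `Ti i` in the faces
`(p i, q i, x i)` of `T'`. -/
structure MCut {ι : Type} (T T' : Tri V) (Ti : ι → Tri V) (p q x : ι → V) : Prop where
  out : ∀ i, T'.F (p i) (q i) (x i)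
  inn : ∀ i, (Ti i).F (q i) (p i) (x i)
  F_iff : ∀ a b c, T.F a b c ↔ (T'.F a b c ∧ ∀ i, ¬ Cyc3 (p i) (q i) (x i) a b c) ∨
    ∃ i, (Ti i).F a b c ∧ ¬ Cyc3 (q i) (p i) (x i) a b c
  supp_out : ∀ i v, T'.Supp v → (Ti i).Supp v → v = p i ∨ v = q i ∨ v = x i
  supp_in : ∀ i j v, (Ti i).Supp v → (Ti j).Supp v → i = j ∨ T'.Supp v

theorem F_rot {T : Tri V} {o1 o2 o3 a b c : V} (h : T.F o1 o2 o3) (hc : Cyc3 o1 o2 o3 a b c) :
    T.F a b c := by
  rcases hc with ⟨rfl, rfl, rfl⟩ | ⟨rfl, rfl, rfl⟩ | ⟨rfl, rfl, rfl⟩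
  · exact h
  · exact T.cyc _ _ _ h
  · exact T.cyc2 h

theorem cyc3_opp {o1 o2 o3 a b c d : V} (h12 : o1 ≠ o2) (h23 : o2 ≠ o3) (h31 : o3 ≠ o1)
    (hc : Cyc3 o1 o2 o3 a b c) : ¬ Cyc3 o2 o1 o3 a b d := by
  intro hd
  rcases hc with ⟨rfl, rfl, rfl⟩ | ⟨rfl, rfl, rfl⟩ | ⟨rfl, rfl, rfl⟩ <;>
    rcases hd with ⟨h1, h2, -⟩ | ⟨h1, h2, -⟩ | ⟨h1, h2, -⟩ <;>
    first
    | exact h12 h1 | exact h12 h1.symm | exact h23 h1 | exact h23 h1.symm | exact h31 h1
    | exact h31 h1.symm | exact h12 h2 | exact h12 h2.symm | exact h23 h2 | exact h23 h2.symm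
    | exact h31 h2

theorem cyc3_swap {o1 o2 o3 a b c : V} (hc : Cyc3 o1 o2 o3 a b c) : Cyc3 o2 o1 o3 b a c := by
  rcases hc with ⟨rfl, rfl, rfl⟩ | ⟨rfl, rfl, rfl⟩ | ⟨rfl, rfl, rfl⟩
  · exact Or.inl ⟨rfl, rfl, rfl⟩
  · exact Or.inr (Or.inr ⟨rfl, rfl, rfl⟩)
  · exact Or.inr (Or.inl ⟨rfl, rfl, rfl⟩)

namespace MCut

variable {ι : Type} {T T' : Tri V} {Ti : ι → Tri V} {p q x : ι → V}

theorem ne12 (h : MCut T T' Ti p q x) (i : ι) : p i ≠ q i := T'.ne _ _ _ (h.out i)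
theorem ne23 (h : MCut T T' Ti p q x) (i : ι) : q i ≠ x i := T'.ne _ _ _ (T'.cyc _ _ _ (h.out i))
theorem ne31 (h : MCut T T' Ti p q x) (i : ι) : x i ≠ p i := T'.ne _ _ _ (T'.cyc2 (h.out i))

theorem adj_out (h : MCut T T' Ti p q x) {a b : V} (hab : T'.Adj a b) : T.Adj a b := by
  obtain ⟨c, hc⟩ := hab
  by_cases hi : ∃ i, Cyc3 (p i) (q i) (x i) a b c
  · obtain ⟨i, hi⟩ := hi
    have h1 : (Ti i).F b a c := F_rot (h.inn i) (cyc3_swap hi)
    obtain ⟨d, hd⟩ := (Ti i).opp _ _ _ h1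
    refine ⟨d, (h.F_iff _ _ _).2 (Or.inr ⟨i, hd, ?_⟩)⟩
    exact cyc3_opp (h.ne12 i) (h.ne23 i) (h.ne31 i) hi
  · push Not at hi
    exact ⟨c, (h.F_iff _ _ _).2 (Or.inl ⟨hc, hi⟩)⟩

theorem adj_in (h : MCut T T' Ti p q x) {i : ι} {a b : V} (hab : (Ti i).Adj a b) :
    T.Adj a b := by
  obtain ⟨c, hc⟩ := hab
  by_cases hi : Cyc3 (q i) (p i) (x i) a b c
  · have h1 : T'.F b a c := F_rot (h.out i) (cyc3_swap hi)
    exact h.adj_out (T'.opp _ _ _ h1)
  · exact ⟨c, (h.F_iff _ _ _).2 (Or.inr ⟨i, hc, hi⟩)⟩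

theorem adj_iff (h : MCut T T' Ti p q x) {a b : V} :
    T.Adj a b ↔ T'.Adj a b ∨ ∃ i, (Ti i).Adj a b := by
  constructor
  · rintro ⟨c, hc⟩
    rcases (h.F_iff _ _ _).1 hc with ⟨h1, _⟩ | ⟨i, h1, _⟩
    · exact Or.inl ⟨c, h1⟩
    · exact Or.inr ⟨i, c, h1⟩
  · rintro (h1 | ⟨i, h1⟩)
    · exact h.adj_out h1
    · exact h.adj_in h1

theorem supp_iff_adj (T : Tri V) (v : V) : T.Supp v ↔ ∃ w, T.Adj v w := by
  constructor
  · rintro ⟨b, c, h⟩
    exact ⟨b, c, h⟩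
  · rintro ⟨b, c, h⟩
    exact ⟨b, c, h⟩

theorem supp_iff (h : MCut T T' Ti p q x) {v : V} :
    T.Supp v ↔ T'.Supp v ∨ ∃ i, (Ti i).Supp v := by
  simp only [supp_iff_adj, h.adj_iff]
  constructor
  · rintro ⟨w, h1 | ⟨i, h1⟩⟩
    · exact Or.inl ⟨w, h1⟩
    · exact Or.inr ⟨i, w, h1⟩
  · rintro (⟨w, h1⟩ | ⟨i, w, h1⟩)
    · exact ⟨w, Or.inl h1⟩
    · exact ⟨w, Or.inr ⟨i, h1⟩⟩

theorem supp_p (h : MCut T T' Ti p q x) (i : ι) : T'.Supp (p i) ∧ (Ti i).Supp (p i) :=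
  ⟨⟨_, _, h.out i⟩, ⟨_, _, (Ti i).cyc _ _ _ (h.inn i)⟩⟩

theorem supp_q (h : MCut T T' Ti p q x) (i : ι) : T'.Supp (q i) ∧ (Ti i).Supp (q i) :=
  ⟨⟨_, _, T'.cyc _ _ _ (h.out i)⟩, ⟨_, _, h.inn i⟩⟩

theorem supp_x (h : MCut T T' Ti p q x) (i : ι) : T'.Supp (x i) ∧ (Ti i).Supp (x i) :=
  ⟨⟨_, _, T'.cyc2 (h.out i)⟩, ⟨_, _, (Ti i).cyc2 (h.inn i)⟩⟩

/-- connectedness of a class of the glued triangulation -/
theorem glue_con (h : MCut T T' Ti p q x) (A : Set V)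
    (hT' : Con T'.Adj {v | T'.Supp v ∧ v ∈ A})
    (hTi : ∀ i, Con (Ti i).Adj {v | (Ti i).Supp v ∧ v ∈ A})
    (hc : ∀ i v, (Ti i).Supp v → v ∈ A → p i ∈ A ∨ q i ∈ A ∨ x i ∈ A) :
    Con T.Adj {v | T.Supp v ∧ v ∈ A} := by
  intro P hP
  have hP' : ∀ a b, T'.Supp a → T'.Supp b → a ∈ A → b ∈ A → a ∈ P → b ∈ P := by
    intro a b ha hb haA hbA
    apply hT' P _ a ⟨ha, haA⟩ b ⟨hb, hbA⟩
    rintro c ⟨hc1, hc2⟩ d ⟨hd1, hd2⟩ hcd hPc
    exact hP c ⟨h.supp_iff.2 (Or.inl hc1), hc2⟩ d ⟨h.supp_iff.2 (Or.inl hd1), hd2⟩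
      (h.adj_out hcd) hPc
  have hPi : ∀ i a b, (Ti i).Supp a → (Ti i).Supp b → a ∈ A → b ∈ A → a ∈ P → b ∈ P := by
    intro i a b ha hb haA hbA
    apply hTi i P _ a ⟨ha, haA⟩ b ⟨hb, hbA⟩
    rintro c ⟨hc1, hc2⟩ d ⟨hd1, hd2⟩ hcd hPc
    exact hP c ⟨h.supp_iff.2 (Or.inr ⟨i, hc1⟩), hc2⟩ d ⟨h.supp_iff.2 (Or.inr ⟨i, hd1⟩), hd2⟩
      (h.adj_in hcd) hPc
  -- every vertex of the class is joined to one in T'
  have key : ∀ v, T.Supp v → v ∈ A → ∃ w, T'.Supp w ∧ w ∈ A ∧ (v ∈ P ↔ w ∈ P) := by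
    intro v hv hvA
    rcases h.supp_iff.1 hv with hv | ⟨i, hv⟩
    · exact ⟨v, hv, hvA, Iff.rfl⟩
    · rcases hc i v hv hvA with h1 | h1 | h1
      · exact ⟨p i, (h.supp_p i).1, h1, ⟨hPi i _ _ hv (h.supp_p i).2 hvA h1,
          hPi i _ _ (h.supp_p i).2 hv h1 hvA⟩⟩
      · exact ⟨q i, (h.supp_q i).1, h1, ⟨hPi i _ _ hv (h.supp_q i).2 hvA h1,
          hPi i _ _ (h.supp_q i).2 hv h1 hvA⟩⟩
      · exact ⟨x i, (h.supp_x i).1, h1, ⟨hPi i _ _ hv (h.supp_x i).2 hvA h1,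
          hPi i _ _ (h.supp_x i).2 hv h1 hvA⟩⟩
  rintro a ⟨ha, haA⟩ b ⟨hb, hbA⟩ hPa
  obtain ⟨w, hw, hwA, hw'⟩ := key a ha haA
  obtain ⟨z, hz, hzA, hz'⟩ := key b hb hbA
  exact hz'.2 (hP' w z hw hz hwA hzA (hw'.1 hPa))

open Classical in
/-- the common extension of functions which agree at the corners -/
theorem exists_side {α : Type} [Inhabited α] (h : MCut T T' Ti p q x) (so : V → α)
    (si : ι → V → α)
    (hp : ∀ i, si i (p i) = so (p i)) (hq : ∀ i, si i (q i) = so (q i))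
    (hx : ∀ i, si i (x i) = so (x i)) :
    ∃ side : V → α, (∀ v, T'.Supp v → side v = so v) ∧
      ∀ i v, (Ti i).Supp v → side v = si i v := by
  refine ⟨fun v => if T'.Supp v then so v else if h : ∃ i, (Ti i).Supp v then si h.choose v
    else default, ?_, ?_⟩
  · intro v hv
    simp only [if_pos hv]
  · intro i v hv
    by_cases hv' : T'.Supp v
    · simp only [if_pos hv']
      rcases h.supp_out i v hv' hv with rfl | rfl | rfl
      · exact (hp i).symm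
      · exact (hq i).symm
      · exact (hx i).symm
    · have hex : ∃ i, (Ti i).Supp v := ⟨i, hv⟩
      simp only [if_neg hv', dif_pos hex]
      rcases h.supp_in _ i v hex.choose_spec hv with h1 | h1
      · rw [h1]
      · exact absurd h1 hv'

end MCut

theorem Torso.mcut {T T' : Tri V} {r s t : V} {n : ℕ} {p q x : Fin n → V} {Ti : Fin n → Tri V}
    (h : Torso T T' r s t n p q x Ti) : MCut T T' Ti p q x where
  out := h.face
  inn i := by
    obtain ⟨A, hA, _⟩ := h.cut i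
    exact hA.fi
  F_iff := h.split
  supp_out := h.common
  supp_in i j v hi hj := by
    by_cases hij : i = j
    · exact Or.inl hij
    · exact Or.inr (h.disj i j hij v hi hj)

/-- constant structures -/
theorem str_const (T : Tri V) (M : Finset V) {τ : SignType} (hτ : τ ≠ 0) :
    Str T M (fun _ => τ) := by
  refine ⟨fun v _ h => absurd h hτ, fun σ _ => ?_, fun σ _ v _ h => absurd h hτ⟩
  by_cases h : τ = σ
  · have : {v | T.Supp v ∧ τ = σ} = W T := by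
      ext v
      simp [h, W]
    rw [this]
    exact con_W T
  · have : {v | T.Supp v ∧ τ = σ} = ∅ := by
      ext v
      simp [h]
    rw [this]
    exact Con.empty _

open Classical in
/-- Lemma H for a bond of `T'` and structures of all the `Ti i` -/
theorem glue_all {ι : Type} [Fintype ι] {T T' : Tri V} {Ti : ι → Tri V}
    {p q x : ι → V} (h : MCut T T' Ti p q x) (M : Finset V) (so : V → SignType)
    (hso : ∀ v, T'.Supp v → so v ≠ 0)
    (con : ∀ σ : SignType, σ ≠ 0 → Con T'.Adj {v | T'.Supp v ∧ so v = σ}) (k : ι → ℝ)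
    (hV : ∀ i, ¬ (so (p i) = so (q i) ∧ so (q i) = so (x i)) →
      Val (Ti i) (Min M (Ti i) (p i) (q i) (x i)) (p i) (q i) (x i) (k i)) :
    ∃ side : V → SignType, Str T M side ∧ (∀ v, T'.Supp v → side v = so v) ∧
      ∑ i ∈ {i | ¬ (so (p i) = so (q i) ∧ so (q i) = so (x i))}, k i ≤ (val M side : ℝ) := by
  have sp : ∀ i, so (p i) ≠ 0 := fun i => hso _ (h.supp_p i).1
  have sq : ∀ i, so (q i) ≠ 0 := fun i => hso _ (h.supp_q i).1
  have sx : ∀ i, so (x i) ≠ 0 := fun i => hso _ (h.supp_x i).1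
  have hex : ∀ i, ∃ si, Str (Ti i) (Min M (Ti i) (p i) (q i) (x i)) si ∧
      si (p i) = so (p i) ∧ si (q i) = so (q i) ∧ si (x i) = so (x i) ∧
      (so (p i) = so (q i) → so (q i) = so (x i) → ∀ v, si v = so (p i)) ∧
      (¬ (so (p i) = so (q i) ∧ so (q i) = so (x i)) →
        k i ≤ (val (Min M (Ti i) (p i) (q i) (x i)) si : ℝ)) := by
    intro i
    by_cases hm : so (p i) = so (q i) ∧ so (q i) = so (x i)
    · refine ⟨fun _ => so (p i), str_const _ _ (sp i), rfl, hm.1, hm.1.trans hm.2,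
        fun _ _ _ => rfl, fun hh => absurd hm hh⟩
    · obtain ⟨si, h1, h2, h3, h4, h5⟩ := Val.pattern (h.ne12 i) (h.ne23 i) (h.ne31 i)
        (hV i hm) (so (p i)) (so (q i)) (so (x i)) (sp i) (sq i) (sx i) hm
      exact ⟨si, h1, h2, h3, h4, fun g1 g2 => absurd ⟨g1, g2⟩ hm, fun _ => h5⟩
  choose si hsi hp hq hx hmono hval using hex
  have : Inhabited SignType := ⟨0⟩
  obtain ⟨side, hS1, hS2⟩ := h.exists_side so si hp hq hx
  refine ⟨side, ⟨?_, ?_, ?_⟩, hS1, ?_⟩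
  · intro v hv h0
    rcases h.supp_iff.1 hv with hv | ⟨i, hv⟩
    · rw [hS1 v hv] at h0
      exact absurd h0 (hso v hv)
    · rw [hS2 i v hv] at h0
      exact (Finset.mem_filter.1 ((hsi i).zero v hv h0)).1
  · intro σ hσ
    apply h.glue_con {v | side v = σ}
    · have : {v | T'.Supp v ∧ v ∈ {v | side v = σ}} = {v | T'.Supp v ∧ so v = σ} := by
        ext v
        simp only [Set.mem_ofPred_eq]
        constructor
        · rintro ⟨h1, h2⟩
          exact ⟨h1, by rw [← hS1 v h1]; exact h2⟩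
        · rintro ⟨h1, h2⟩
          exact ⟨h1, by rw [hS1 v h1]; exact h2⟩
      rw [this]
      exact con σ hσ
    · intro i
      have : {v | (Ti i).Supp v ∧ v ∈ {v | side v = σ}} = {v | (Ti i).Supp v ∧ si i v = σ} := by
        ext v
        simp only [Set.mem_ofPred_eq]
        constructor
        · rintro ⟨h1, h2⟩
          exact ⟨h1, by rw [← hS2 i v h1]; exact h2⟩
        · rintro ⟨h1, h2⟩
          exact ⟨h1, by rw [hS2 i v h1]; exact h2⟩
      rw [this]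
      exact (hsi i).conn σ hσ
    · intro i v hv hvA
      simp only [Set.mem_ofPred_eq] at hvA ⊢
      rw [hS1 _ (h.supp_p i).1, hS1 _ (h.supp_q i).1, hS1 _ (h.supp_x i).1]
      rw [hS2 i v hv] at hvA
      by_cases hm : so (p i) = so (q i) ∧ so (q i) = so (x i)
      · left
        rw [← hvA, hmono i hm.1 hm.2 v]
      · have g1 := sp i
        have g2 := sq i
        have g3 := sx i
        revert hm g1 g2 g3 hσ
        generalize so (p i) = α
        generalize so (q i) = β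
        generalize so (x i) = γ
        clear hvA
        revert σ α β γ
        decide
  · intro σ hσ v hv h0
    rcases h.supp_iff.1 hv with hv | ⟨i, hv⟩
    · rw [hS1 v hv] at h0
      exact absurd h0 (hso v hv)
    · rw [hS2 i v hv] at h0
      obtain ⟨w, hw, hw'⟩ := (hsi i).nbr σ hσ v hv h0
      exact ⟨w, h.adj_in hw, by rw [hS2 i w hw.symm.supp]; exact hw'⟩
  · let Z : ι → Finset V := fun i =>
      (Min M (Ti i) (p i) (q i) (x i)).filter fun v => si i v = 0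
    have hle : ∑ i ∈ {i | ¬ (so (p i) = so (q i) ∧ so (q i) = so (x i))}, k i ≤
        ∑ i ∈ {i | ¬ (so (p i) = so (q i) ∧ so (q i) = so (x i))}, ((Z i).card : ℝ) := by
      apply Finset.sum_le_sum
      intro i hi
      exact hval i (Finset.mem_filter.1 hi).2
    refine hle.trans ?_
    rw [← Nat.cast_sum, ← Finset.card_biUnion]
    · unfold val
      rw [Nat.cast_le]
      apply Finset.card_le_card
      intro v hv
      simp only [Finset.mem_biUnion, Finset.mem_filter, Min, Z] at hv ⊢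
      obtain ⟨i, -, ⟨h1, h2⟩, h3⟩ := hv
      exact ⟨h1, by rw [hS2 i v h2.1]; exact h3⟩
    · intro i _ j _ hij
      change Disjoint (Z i) (Z j)
      rw [Finset.disjoint_left]
      intro v hv hv'
      simp only [Finset.mem_filter, Min, Z] at hv hv'
      obtain ⟨⟨-, g1, g2, g3, g4⟩, -⟩ := hv
      obtain ⟨⟨-, f1, -⟩, -⟩ := hv'
      rcases h.supp_in i j v g1 f1 with h1 | h1
      · exact hij h1
      · rcases h.supp_out i v h1 g1 with h2 | h2 | h2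
        · exact g2 h2
        · exact g3 h2
        · exact g4 h2

theorem cyc3_rot {r s t a b c : V} : Cyc3 s t r a b c ↔ Cyc3 r s t a b c := by
  unfold Cyc3
  constructor
  · rintro (h | h | h)
    · exact Or.inr (Or.inl h)
    · exact Or.inr (Or.inr h)
    · exact Or.inl h
  · rintro (h | h | h)
    · exact Or.inr (Or.inr h)
    · exact Or.inl h
    · exact Or.inr (Or.inl h)

theorem cyc3_comm {r s t a b c : V} (h : Cyc3 r s t a b c) : Cyc3 a b c r s t := by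
  rcases h with ⟨rfl, rfl, rfl⟩ | ⟨rfl, rfl, rfl⟩ | ⟨rfl, rfl, rfl⟩
  · exact Or.inl ⟨rfl, rfl, rfl⟩
  · exact Or.inr (Or.inr ⟨rfl, rfl, rfl⟩)
  · exact Or.inr (Or.inl ⟨rfl, rfl, rfl⟩)

/-- Part III, section 5 (ii) and (iii): from the inner triangulations to `T` -/
theorem torso_step (hI : ThmI) [Finite V] {ι : Type} [Fintype ι] {T T' : Tri V}
    {Ti : ι → Tri V} {p q x : ι → V} (h : MCut T T' Ti p q x) {r s t : V} (h0 : T'.F r s t)
    (hr : ∀ i, ¬ Cyc3 (p i) (q i) (x i) r s t) (M : Finset V) (k : ι → ℝ)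
    (hV : ∀ i, Val (Ti i) (Min M (Ti i) (p i) (q i) (x i)) (p i) (q i) (x i) (k i))
    (ω : ι → ℝ) (hω : ∀ i, 0 ≤ ω i) (hωk : ∀ i, ω i ^ (4 / 5 : ℝ) ≤ k i) :
    Val T M r s t ((∑ i, ω i) ^ (4 / 5 : ℝ)) := by
  classical
  have key : ∀ r s t : V, T'.F r s t → (∀ i, ¬ Cyc3 r s t (p i) (q i) (x i)) →
      ∀ σ : SignType, σ ≠ 0 →
      ∃ side, Str T M side ∧ side r = σ ∧ side s = - σ ∧ side t = - σ ∧
        (∑ i, ω i) ^ (4 / 5 : ℝ) ≤ (val M side : ℝ) := by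
    intro r s t h0 hr σ hσ
    obtain ⟨so, h1, h2, h3, h4, h5, h6⟩ := wf hI T' h0 Finset.univ p q x (fun i _ => h.out i)
      (fun i _ => hr i) ω (fun i _ => hω i)
    have hso : ∀ v, T'.Supp v → so v ≠ 0 := by
      intro v _ hv
      rcases h1 v with h7 | h7 <;> rw [h7] at hv <;> exact absurd hv (by decide)
    obtain ⟨side, g1, g2, g3⟩ := glue_all h M so hso h2 k (fun i _ => hV i)
    have g4 : (∑ i, ω i) ^ (4 / 5 : ℝ) ≤ (val M side : ℝ) := by
      refine h6.trans (le_trans ?_ g3)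
      apply Finset.sum_le_sum
      intro i _
      exact hωk i
    have e1 : side r = 1 := by rw [g2 r ⟨_, _, h0⟩]; exact h3
    have e2 : side s = -1 := by rw [g2 s ⟨_, _, T'.cyc _ _ _ h0⟩]; exact h4
    have e3 : side t = -1 := by rw [g2 t ⟨_, _, T'.cyc2 h0⟩]; exact h5
    rcases sign_cases σ hσ with rfl | rfl
    · exact ⟨side, g1, e1, e2, e3, g4⟩
    · refine ⟨fun v => - side v, g1.neg, ?_, ?_, ?_, ?_⟩
      · simp only [e1]
      · simp only [e2]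
      · simp only [e3]
      · rw [val_neg]
        exact g4
  have hr' : ∀ i, ¬ Cyc3 r s t (p i) (q i) (x i) := fun i hc => hr i (cyc3_comm hc)
  rintro c (rfl | rfl | rfl) σ hσ
  · obtain ⟨side, g1, g2, g3, g4, g5⟩ := key _ _ _ h0 hr' σ hσ
    refine ⟨side, g1, g2, ?_, g5⟩
    rintro d (rfl | rfl | rfl) hd
    · exact absurd rfl hd
    · exact g3
    · exact g4
  · obtain ⟨side, g1, g2, g3, g4, g5⟩ := key _ _ _ (T'.cyc _ _ _ h0)
      (fun i hc => hr' i (cyc3_rot.1 hc)) σ hσ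
    refine ⟨side, g1, g2, ?_, g5⟩
    rintro d (rfl | rfl | rfl) hd
    · exact g4
    · exact absurd rfl hd
    · exact g3
  · obtain ⟨side, g1, g2, g3, g4, g5⟩ := key _ _ _ (T'.cyc2 h0)
      (fun i hc => hr' i (cyc3_rot.1 (cyc3_rot.1 hc))) σ hσ
    refine ⟨side, g1, g2, ?_, g5⟩
    rintro d (rfl | rfl | rfl) hd
    · exact g3
    · exact g4
    · exact absurd rfl hd

/-- section 5 (ii): values `Fz (m i)` inside give `Fz (∑ m i)` -/
theorem torso_Fz (hI : ThmI) [Finite V] {ι : Type} [Fintype ι] {T T' : Tri V}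
    {Ti : ι → Tri V} {p q x : ι → V} (h : MCut T T' Ti p q x) {r s t : V} (h0 : T'.F r s t)
    (hr : ∀ i, ¬ Cyc3 (p i) (q i) (x i) r s t) (M : Finset V) (m : ι → ℝ) (hm : ∀ i, 0 ≤ m i)
    (hV : ∀ i, Val (Ti i) (Min M (Ti i) (p i) (q i) (x i)) (p i) (q i) (x i) (Fz (m i))) :
    Val T M r s t (Fz (∑ i, m i)) := by
  have := torso_step hI h h0 hr M (fun i => Fz (m i)) hV (fun i => m i / 7)
    (fun i => div_nonneg (hm i) (by norm_num)) (fun i => le_refl _)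
  rw [← Finset.sum_div] at this
  exact this

/-- section 5 (iii): the same value everywhere -/
theorem torso_same (hI : ThmI) [Finite V] {ι : Type} [Fintype ι] [Nonempty ι] {T T' : Tri V}
    {Ti : ι → Tri V} {p q x : ι → V} (h : MCut T T' Ti p q x) {r s t : V} (h0 : T'.F r s t)
    (hr : ∀ i, ¬ Cyc3 (p i) (q i) (x i) r s t) (M : Finset V) (k : ℝ)
    (hV : ∀ i, Val (Ti i) (Min M (Ti i) (p i) (q i) (x i)) (p i) (q i) (x i) k) :
    Val T M r s t k := by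
  have hV' : ∀ i, Val (Ti i) (Min M (Ti i) (p i) (q i) (x i)) (p i) (q i) (x i) (max k 0) := by
    intro i c hc σ hσ
    obtain ⟨side, g1, g2, g3, g4⟩ := hV i c hc σ hσ
    exact ⟨side, g1, g2, g3, max_le g4 (Nat.cast_nonneg _)⟩
  have h1 : ∀ i : ι, ((max k 0) ^ (5 / 4 : ℝ)) ^ (4 / 5 : ℝ) ≤ max k 0 := by
    intro i
    rw [← Real.rpow_mul (le_max_right _ _)]
    norm_num
  have h2 := torso_step hI h h0 hr M (fun _ => max k 0) hV' (fun _ => (max k 0) ^ (5 / 4 : ℝ))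
    (fun _ => Real.rpow_nonneg (le_max_right _ _) _) h1
  have h3 : k ≤ (∑ _i : ι, (max k 0) ^ (5 / 4 : ℝ)) ^ (4 / 5 : ℝ) := by
    obtain ⟨i0⟩ : Nonempty ι := inferInstance
    have h4 : (max k 0) ^ (5 / 4 : ℝ) ≤ ∑ _i : ι, (max k 0) ^ (5 / 4 : ℝ) :=
      Finset.single_le_sum (f := fun _ : ι => (max k 0) ^ (5 / 4 : ℝ))
        (fun _ _ => Real.rpow_nonneg (le_max_right _ _) _) (Finset.mem_univ i0)
    have h5 := Real.rpow_le_rpow (Real.rpow_nonneg (le_max_right _ _) _) h4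
      (show (0 : ℝ) ≤ 4 / 5 by norm_num)
    have h6 : ((max k 0) ^ (5 / 4 : ℝ)) ^ (4 / 5 : ℝ) = max k 0 := by
      rw [← Real.rpow_mul (le_max_right _ _)]
      norm_num
    rw [h6] at h5
    exact (le_max_left k 0).trans h5
  intro c hc σ hσ
  obtain ⟨side, g1, g2, g3, g4⟩ := h2 c hc σ hσ
  exact ⟨side, g1, g2, g3, h3.trans g4⟩

end P3
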