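import Pool.Agent.Lib_MP_b306af.P3Gl

/-!
# MP_b306af, Part III: the case of a mark all of whose neighbours are root vertices (`K4`)
-/

set_option autoImplicit false

namespace P3

open P4

variable {V : Type}

theorem k4_aux (T : Tri V) {a b c x : V} (h : T.F a b c ∨ T.F b a c) (hx : T.F x a b)
    (hxc : x ≠ c) (hN : ∀ u, T.Adj x u → u = a ∨ u = b ∨ u = c) :
    (∀ v, T.Supp v → v = x ∨ v = a ∨ v = b ∨ v = c) ∧ T.Adj x a ∧ T.Adj x b ∧ T.Adj x c := by
  have hac : a ≠ c := by
    rcases h with h | h
    · exact (F_ne h).2.2.symm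
    · exact (F_ne h).2.1
  have hbc : b ≠ c := by
    rcases h with h | h
    · exact (F_ne h).2.1
    · exact (F_ne h).2.2.symm
  have hcS : T.Supp c := by
    rcases h with h | h
    · exact (F_adj h).2.2.supp
    · exact (F_adj h).2.2.supp
  have hx' := F_adj hx
  have hxn := F_ne hx
  -- the second face
  have h2 : T.F x b c := by
    have h1 := T.F_nx hx'.2.2.symm
    have hne := F_ne h1
    rcases hN _ (F_adj h1).2.2.symm with e | e | e
    · rw [e] at h1
      exfalso
      rcases deg_two T hx h1 c hcS with e' | e' | e'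
      · exact hxc e'.symm
      · exact hac e'.symm
      · exact hbc e'.symm
    · exact absurd e.symm hne.2.1
    · rwa [e] at h1
  have h3 : T.F x c a := by
    have h1 := T.F_nx (F_adj h2).2.2.symm
    have hne := F_ne h1
    rcases hN _ (F_adj h1).2.2.symm with e | e | e
    · rwa [e] at h1
    · rw [e] at h1
      exact absurd (T.uniq _ _ _ _ (T.cyc2 hx) (T.cyc2 h1)) hac
    · exact absurd e.symm hne.2.1
  have h4 : T.F b a c := by
    rcases h with h | h
    · exact absurd (T.uniq _ _ _ _ (T.cyc _ _ _ hx) h) hxc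
    · exact h
  exact ⟨deg_three T hx h2 h3 h4, hx'.1, hx'.2.2.symm, (F_adj h2).2.2.symm⟩

/-- (K4) If all neighbours of `x` are root vertices then `T` is the tetrahedron. -/
theorem k4 [Finite V] {T : Tri V} {r s t x : V} (h : T.F r s t) (hx : T.Supp x)
    (hxc : ¬ Cor r s t x) (hN : ∀ u, T.Adj x u → Cor r s t u) :
    (∀ v, T.Supp v → v = x ∨ Cor r s t v) ∧ T.Adj x r ∧ T.Adj x s ∧ T.Adj x t := by
  obtain ⟨a, b, hF⟩ := hx
  have hr : x ≠ r := fun e => hxc (Or.inl e)
  have hs : x ≠ s := fun e => hxc (Or.inr (Or.inl e))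
  have ht : x ≠ t := fun e => hxc (Or.inr (Or.inr e))
  have hne := F_ne hF
  have h1 := T.cyc _ _ _ h
  have h2 := T.cyc2 h
  rcases hN a (F_adj hF).1 with rfl | rfl | rfl <;>
    rcases hN b (F_adj hF).2.2.symm with rfl | rfl | rfl
  · exact absurd rfl hne.2.1
  · obtain ⟨e1, e2, e3, e4⟩ := k4_aux T (Or.inl h) hF ht (fun u hu => hN u hu)
    exact ⟨e1, e2, e3, e4⟩
  · obtain ⟨e1, e2, e3, e4⟩ := k4_aux T (c := s) (Or.inr h2) hF hs
      (fun u hu => by have := hN u hu; unfold Cor at this; tauto)
    exact ⟨fun v hv => by have := e1 v hv; unfold Cor; tauto, e2, e4, e3⟩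
  · obtain ⟨e1, e2, e3, e4⟩ := k4_aux T (c := t) (Or.inr h) hF ht
      (fun u hu => by have := hN u hu; unfold Cor at this; tauto)
    exact ⟨fun v hv => by have := e1 v hv; unfold Cor; tauto, e3, e2, e4⟩
  · exact absurd rfl hne.2.1
  · obtain ⟨e1, e2, e3, e4⟩ := k4_aux T (c := r) (Or.inl h1) hF hr
      (fun u hu => by have := hN u hu; unfold Cor at this; tauto)
    exact ⟨fun v hv => by have := e1 v hv; unfold Cor; tauto, e4, e2, e3⟩
  · obtain ⟨e1, e2, e3, e4⟩ := k4_aux T (c := s) (Or.inl h2) hF hs
      (fun u hu => by have := hN u hu; unfold Cor at this; tauto)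
    exact ⟨fun v hv => by have := e1 v hv; unfold Cor; tauto, e3, e4, e2⟩
  · obtain ⟨e1, e2, e3, e4⟩ := k4_aux T (c := r) (Or.inr h1) hF hr
      (fun u hu => by have := hN u hu; unfold Cor at this; tauto)
    exact ⟨fun v hv => by have := e1 v hv; unfold Cor; tauto, e4, e3, e2⟩
  · exact absurd rfl hne.2.1

/-- The base case of Part III. -/
theorem base [Finite V] {T : Tri V} {M : Finset V} {r s t x : V} (hD : Dat T M r s t) (hxM : x ∈ M)
    (hN : ∀ u, T.Adj x u → Cor r s t u) : M.card = 1 ∧ Val T M r s t 1 := by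
  classical
  have hxc := hD.out x hxM
  obtain ⟨hall, hxr, hxs, hxt⟩ := k4 hD.root (hD.supp x hxM) hxc hN
  have hM : M = {x} := by
    ext v
    rw [Finset.mem_singleton]
    constructor
    · intro hv
      rcases hall v (hD.supp v hv) with h | h
      · exact h
      · exact absurd h (hD.out v hv)
    · rintro rfl
      exact hxM
  refine ⟨by rw [hM, Finset.card_singleton], ?_⟩
  have hadj : ∀ d, Cor r s t d → T.Adj x d := by
    rintro d (rfl | rfl | rfl)
    · exact hxr
    · exact hxs
    · exact hxt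
  intro c hc σ hσ
  have hσ' : -σ ≠ 0 := sign_neg_ne σ hσ
  have hσσ : ∀ σ : SignType, σ ≠ 0 → -σ ≠ σ := by decide
  have hcx : c ≠ x := fun e => hxc (e ▸ hc)
  obtain ⟨side, hside⟩ : ∃ side : V → SignType, side = fun v =>
      if v = x then 0 else if v = c then σ else -σ := ⟨_, rfl⟩
  have f0 : side x = 0 := by
    rw [hside]
    exact if_pos rfl
  have f1 : side c = σ := by
    rw [hside]
    beta_reduce
    rw [if_neg hcx, if_pos rfl]
  have f2 : ∀ v, v ≠ x → v ≠ c → side v = -σ := by
    intro v h1 h2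
    rw [hside]
    beta_reduce
    rw [if_neg h1, if_neg h2]
  have f3 : ∀ v, side v = 0 → v = x := by
    intro v hv
    by_contra h
    by_cases h2 : v = c
    · rw [h2, f1] at hv
      exact hσ hv
    · rw [f2 v h h2] at hv
      exact hσ' hv
  obtain ⟨d, hd, hdc⟩ : ∃ d, Cor r s t d ∧ d ≠ c := by
    have hrs := (F_ne hD.root).1
    by_cases h : r = c
    · exact ⟨s, Or.inr (Or.inl rfl), fun e => hrs (h.trans e.symm)⟩
    · exact ⟨r, Or.inl rfl, h⟩
  refine ⟨side, ⟨fun v _ h0 => by rw [f3 v h0]; exact hxM, ?_, ?_⟩, f1, fun d hd hdc =>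
    f2 d (fun e => hxc (e ▸ hd)) hdc, ?_⟩
  · intro τ hτ
    by_cases h : τ = σ
    · subst h
      have e : {v | T.Supp v ∧ side v = τ} = {c} := by
        ext v
        constructor
        · rintro ⟨h1, h2⟩
          by_contra h3
          by_cases h4 : v = x
          · rw [h4, f0] at h2
            exact hσ h2.symm
          · rw [f2 v h4 h3] at h2
            exact hσσ τ hσ h2
        · intro hv
          rw [Set.mem_singleton_iff] at hv
          rw [hv]
          exact ⟨(hadj c hc).symm.supp, f1⟩
      rw [e]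
      exact Con.singleton _ _
    · have hτ' : τ = -σ := by
        rcases sign_cases τ hτ with rfl | rfl <;> rcases sign_cases σ hσ with rfl | rfl <;>
          first | rfl | exact absurd rfl h
      have e : {v | T.Supp v ∧ side v = τ} = W T \ {x, c} := by
        ext v
        constructor
        · rintro ⟨h1, h2⟩
          refine ⟨h1, ?_⟩
          rintro (h3 | h3)
          · rw [h3, f0] at h2
            exact hτ h2.symm
          · rw [Set.mem_singleton_iff] at h3
            rw [h3, f1] at h2
            exact h h2.symm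
        · rintro ⟨h1, h2⟩
          exact ⟨h1, by
            rw [hτ']
            exact f2 v (fun e => h2 (Or.inl e)) (fun e => h2 (Or.inr e))⟩
      rw [e]
      exact con_del2 T x c
  · intro τ hτ v _ h0
    rw [f3 v h0]
    by_cases h : τ = σ
    · exact ⟨c, hadj c hc, by rw [f1, h]⟩
    · have hτ' : τ = -σ := by
        rcases sign_cases τ hτ with rfl | rfl <;> rcases sign_cases σ hσ with rfl | rfl <;>
          first | rfl | exact absurd rfl h
      exact ⟨d, hadj d hd, by rw [f2 d (fun e => hxc (e ▸ hd)) hdc, hτ']⟩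
  · have h1 : val M side = 1 := by
      unfold val
      rw [hM, Finset.filter_true_of_mem, Finset.card_singleton]
      intro v hv
      rw [Finset.mem_singleton] at hv
      rw [hv]
      exact f0
    rw [h1]
    norm_num

end P3
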