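import Pool.Agent.Lib_MP_b306af.P3Cut
import Pool.Agent.Lib_MP_b306af.P3Gl

/-!
# MP_b306af, Part III: uniqueness and nesting of cuts
-/

set_option autoImplicit false

namespace P3

open P4

variable {V : Type}

theorem cyc3_self (p q x : V) : Cyc3 p q x p q x := Or.inl ⟨rfl, rfl, rfl⟩

theorem cyc3_trans {p q x a b c u v w : V} (h : Cyc3 p q x a b c) (h' : Cyc3 u v w a b c) :
    Cyc3 p q x u v w := by
  rcases h with ⟨rfl, rfl, rfl⟩ | ⟨rfl, rfl, rfl⟩ | ⟨rfl, rfl, rfl⟩ <;>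
    rcases h' with ⟨rfl, rfl, rfl⟩ | ⟨rfl, rfl, rfl⟩ | ⟨rfl, rfl, rfl⟩ <;>
    unfold Cyc3 <;> tauto

theorem cyc3_symm {p q x a b c : V} (h : Cyc3 p q x a b c) : Cyc3 a b c p q x :=
  cyc3_trans (cyc3_self a b c) h

theorem cyc3_te {p q x a b c : V} (h : Cyc3 p q x a b c) : TE p q x a b := by
  unfold TE
  rcases h with h | h | h <;> tauto

theorem cyc3_not_swap {p q x : V} (n1 : p ≠ q) (n2 : q ≠ x) (n3 : x ≠ p) : ¬ Cyc3 q p x p q x := by
  rintro (h | h | h)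
  · exact n1 h.1
  · exact n2 h.2.1
  · exact n3 h.1.symm

/-- a face in both parts is one of the two triangles -/
theorem Cut.both {T To Ti : Tri V} {p q x : V} (h : Cut T To Ti p q x) {a b c : V}
    (ho : To.F a b c) (hi : Ti.F a b c) : Cyc3 p q x a b c ∨ Cyc3 q p x a b c := by
  have ne := F_ne ho
  have ha := h.common a (F_adj ho).1.supp (F_adj hi).1.supp
  have hb := h.common b (F_adj ho).2.1.supp (F_adj hi).2.1.supp
  have hc := h.common c (F_adj ho).2.2.supp (F_adj hi).2.2.supp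
  unfold Cyc3
  rcases ha with rfl | rfl | rfl <;> rcases hb with rfl | rfl | rfl <;>
    rcases hc with rfl | rfl | rfl <;> tauto

theorem Cut.adjs {T To Ti : Tri V} {p q x : V} (h : Cut T To Ti p q x) :
    T.Adj p q ∧ T.Adj q x ∧ T.Adj x p :=
  ⟨h.adj_o (F_adj h.Fo).1, h.adj_o (F_adj h.Fo).2.1, h.adj_o (F_adj h.Fo).2.2⟩

theorem reach_o {T To Ti : Tri V} {p q x : V} (h : Cut T To Ti p q x) {a b : V}
    (hr : Reach T p q x q p a b) : ∃ c, To.F a b c ∧ ¬ Cyc3 p q x a b c := by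
  induction hr with
  | base =>
    obtain ⟨d, hd⟩ := To.opp _ _ _ h.Fo
    exact ⟨d, hd, fun h' => Cyc3.not_rev h.Fo (cyc3_self p q x) h'⟩
  | @rot a b c _ hF ih =>
    obtain ⟨c', h1, h2⟩ := ih
    have h3 : T.F a b c' := (h.split _ _ _).mpr (Or.inl ⟨h1, h2⟩)
    have h4 : c' = c := T.uniq _ _ _ _ h3 hF
    rw [h4] at h1 h2
    exact ⟨a, To.cyc _ _ _ h1, fun h' => h2 (Cyc3.rot (Cyc3.rot h'))⟩
  | @cross a b _ hn ih =>
    obtain ⟨c', h1, h2⟩ := ih
    obtain ⟨d, hd⟩ := To.opp _ _ _ h1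
    exact ⟨d, hd, fun h' => hn (cyc3_te h').symm⟩

theorem reach_i {T To Ti : Tri V} {p q x : V} (h : Cut T To Ti p q x) {a b : V}
    (hr : Reach T p q x p q a b) : ∃ c, Ti.F a b c ∧ ¬ Cyc3 q p x a b c :=
  reach_o h.symm hr.swap

section
variable [Finite V]

theorem cut_char_o {T To Ti : Tri V} {p q x : V} (h : Cut T To Ti p q x) (a b c : V) :
    (To.F a b c ∧ ¬ Cyc3 p q x a b c) ↔ (T.F a b c ∧ Reach T p q x q p a b) := by
  obtain ⟨h1, h2, h3⟩ := h.adjs
  constructor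
  · rintro ⟨hF, hn⟩
    have hT : T.F a b c := (h.split _ _ _).mpr (Or.inl ⟨hF, hn⟩)
    refine ⟨hT, ?_⟩
    rcases classes_total h1 h2 h3 (F_adj hT).1 with h4 | h4
    · exact h4
    · obtain ⟨c', h5, h6⟩ := reach_i h h4
      have h7 : T.F a b c' := (h.split _ _ _).mpr (Or.inr ⟨h5, h6⟩)
      have h8 : c' = c := T.uniq _ _ _ _ h7 hT
      rw [h8] at h5 h6
      rcases h.both hF h5 with h9 | h9
      · exact absurd h9 hn
      · exact absurd h9 h6
  · rintro ⟨hT, hr⟩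
    obtain ⟨c', h5, h6⟩ := reach_o h hr
    have h7 : T.F a b c' := (h.split _ _ _).mpr (Or.inl ⟨h5, h6⟩)
    have h8 : c' = c := T.uniq _ _ _ _ h7 hT
    rw [h8] at h5 h6
    exact ⟨h5, h6⟩

theorem cut_char_i {T To Ti : Tri V} {p q x : V} (h : Cut T To Ti p q x) (a b c : V) :
    (Ti.F a b c ∧ ¬ Cyc3 q p x a b c) ↔ (T.F a b c ∧ Reach T p q x p q a b) := by
  rw [cut_char_o h.symm a b c]
  exact ⟨fun h' => ⟨h'.1, h'.2.swap⟩, fun h' => ⟨h'.1, h'.2.swap⟩⟩

theorem cut_F_o {T To Ti : Tri V} {p q x : V} (h : Cut T To Ti p q x) (a b c : V) :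
    To.F a b c ↔ (T.F a b c ∧ Reach T p q x q p a b) ∨ Cyc3 p q x a b c := by
  rw [← cut_char_o h a b c]
  constructor
  · intro hF
    by_cases hc : Cyc3 p q x a b c
    · exact Or.inr hc
    · exact Or.inl ⟨hF, hc⟩
  · rintro (h1 | h1)
    · exact h1.1
    · exact Cyc3.F h1 h.Fo

theorem cut_F_i {T To Ti : Tri V} {p q x : V} (h : Cut T To Ti p q x) (a b c : V) :
    Ti.F a b c ↔ (T.F a b c ∧ Reach T p q x p q a b) ∨ Cyc3 q p x a b c := by
  rw [← cut_char_i h a b c]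
  constructor
  · intro hF
    by_cases hc : Cyc3 q p x a b c
    · exact Or.inr hc
    · exact Or.inl ⟨hF, hc⟩
  · rintro (h1 | h1)
    · exact h1.1
    · exact Cyc3.F h1 h.Fi

/-- two cuts along the same oriented triangle have the same parts -/
theorem cut_unique {T A B A' B' : Tri V} {p q x : V} (h : Cut T A B p q x)
    (h' : Cut T A' B' p q x) :
    (∀ a b c, A.F a b c ↔ A'.F a b c) ∧ (∀ a b c, B.F a b c ↔ B'.F a b c) :=
  ⟨fun a b c => (cut_F_o h a b c).trans (cut_F_o h' a b c).symm,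
    fun a b c => (cut_F_i h a b c).trans (cut_F_i h' a b c).symm⟩

/-- a dart of the triangle in the inner class is a dart of the new face -/
theorem lte {T : Tri V} {p q x a b : V} (h1 : T.Adj p q) (h2 : T.Adj q x) (h3 : T.Adj x p)
    (hr : Reach T p q x p q a b) (hte : TE p q x a b) : ∃ c, Cyc3 p q x a b c := by
  obtain ⟨r1, r2⟩ := right_darts h1 h2 h3
  rcases hte with ⟨rfl, rfl⟩ | ⟨rfl, rfl⟩ | ⟨rfl, rfl⟩ | ⟨rfl, rfl⟩ | ⟨rfl, rfl⟩ | ⟨rfl, rfl⟩
  · exact ⟨x, Or.inl ⟨rfl, rfl, rfl⟩⟩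
  · exact (classes_disj h1 h2 h3 hr Reach.base).elim
  · exact ⟨p, Or.inr (Or.inl ⟨rfl, rfl, rfl⟩)⟩
  · exact (classes_disj h1 h2 h3 hr r1).elim
  · exact ⟨q, Or.inr (Or.inr ⟨rfl, rfl, rfl⟩)⟩
  · exact (classes_disj h1 h2 h3 hr r2).elim

theorem cyc3_reach {T : Tri V} {p q x a b c : V} (h1 : T.Adj p q) (h2 : T.Adj q x)
    (h3 : T.Adj x p) (h : Cyc3 p q x a b c) : Reach T p q x p q a b := by
  obtain ⟨l1, l2⟩ := left_darts h1 h2 h3
  rcases h with ⟨rfl, rfl, rfl⟩ | ⟨rfl, rfl, rfl⟩ | ⟨rfl, rfl, rfl⟩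
  · exact Reach.base
  · exact l2
  · exact l1

omit [Finite V] in
/-- rotations in a face -/
theorem reach_cyc {T : Tri V} {p' q' x' u v p q x a b c : V} (hF : T.F p q x)
    (h : Cyc3 p q x a b c) :
    Reach T p' q' x' u v a b ↔ Reach T p' q' x' u v p q := by
  rcases h with ⟨rfl, rfl, rfl⟩ | ⟨rfl, rfl, rfl⟩ | ⟨rfl, rfl, rfl⟩
  · exact Iff.rfl
  · exact ⟨fun h => h.rot2 (T.cyc _ _ _ hF), fun h => h.rot hF⟩
  · exact ⟨fun h => h.rot (T.cyc2 hF), fun h => h.rot2 hF⟩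

/-- inside moves do not cross a triangle of the outer part -/
theorem in_reach {T To Ti : Tri V} {p q x p' q' x' : V} (h : Cut T To Ti p q x)
    (hp : To.Supp p') (hq : To.Supp q') (hx : To.Supp x') {a b : V}
    (hr : Reach T p q x p q a b) : Reach T p' q' x' p q a b := by
  induction hr with
  | base => exact Reach.base
  | rot _ hF ih => exact ih.rot hF
  | @cross a b hr0 hn ih =>
    refine ih.cross fun hte => hn ?_
    obtain ⟨c, hc, _⟩ := reach_i h hr0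
    have ha : To.Supp a ∧ To.Supp b := by
      rcases hte with ⟨rfl, rfl⟩ | ⟨rfl, rfl⟩ | ⟨rfl, rfl⟩ | ⟨rfl, rfl⟩ | ⟨rfl, rfl⟩ | ⟨rfl, rfl⟩
      · exact ⟨hp, hq⟩
      · exact ⟨hq, hp⟩
      · exact ⟨hq, hx⟩
      · exact ⟨hx, hq⟩
      · exact ⟨hx, hp⟩
      · exact ⟨hp, hx⟩
    have h4 := h.common a ha.1 (F_adj hc).1.supp
    have h5 := h.common b ha.2 (F_adj hc).2.1.supp
    have ne := (F_ne hc).1
    unfold TE
    rcases h4 with rfl | rfl | rfl <;> rcases h5 with rfl | rfl | rfl <;> tauto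

theorem reach_up {T To Ti : Tri V} {p q x p' q' x' : V} (h : Cut T To Ti p q x)
    (hp : To.Supp p') (hq : To.Supp q') (hx : To.Supp x') {u v a b : V}
    (hr : Reach To p' q' x' u v a b) : Reach T p' q' x' u v a b := by
  obtain ⟨h1, h2, h3⟩ := h.adjs
  induction hr with
  | base => exact Reach.base
  | @rot a b c _ hF ih =>
    by_cases hc : Cyc3 p q x a b c
    · have e1 := in_reach h hp hq hx (cyc3_reach h1 h2 h3 hc)
      have e2 := in_reach h hp hq hx (cyc3_reach h1 h2 h3 (Cyc3.rot hc))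
      exact (ih.trans e1.symm).trans e2
    · exact ih.rot ((h.split _ _ _).mpr (Or.inl ⟨hF, hc⟩))
  | cross _ hn ih => exact ih.cross hn

theorem reach_down {T To Ti : Tri V} {p q x p' q' x' : V} (h : Cut T To Ti p q x)
    {u v a b : V} (huv : To.Adj u v) (hr : Reach T p' q' x' u v a b) :
    (Reach T p q x q p a b → Reach To p' q' x' u v a b) ∧
      (Reach T p q x p q a b → Reach To p' q' x' u v p q) := by
  obtain ⟨h1, h2, h3⟩ := h.adjs
  induction hr with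
  | base =>
    refine ⟨fun _ => Reach.base, fun hl => ?_⟩
    obtain ⟨w, hw⟩ := huv
    by_cases hc : Cyc3 p q x u v w
    · exact (reach_cyc h.Fo hc).mp Reach.base
    · exact (classes_disj h1 h2 h3 hl ((cut_char_o h u v w).mp ⟨hw, hc⟩).2).elim
  | @rot a b c hr0 hF ih =>
    constructor
    · intro hR
      have hR' : Reach T p q x q p a b := hR.rot2 (T.cyc _ _ _ hF)
      exact (ih.1 hR').rot ((cut_char_o h a b c).mpr ⟨hF, hR'⟩).1
    · intro hL
      exact ih.2 (hL.rot2 (T.cyc _ _ _ hF))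
  | @cross a b hr0 hn ih =>
    have hab : T.Adj a b := hr0.adj (h.adj_o huv)
    constructor
    · intro hR
      rcases classes_total h1 h2 h3 hab with h4 | h4
      · exact (ih.1 h4).cross hn
      · have hte : TE p q x a b := by
          by_contra hte
          exact classes_disj h1 h2 h3 (h4.cross hte) hR
        obtain ⟨c, hc⟩ := lte h1 h2 h3 h4 hte
        exact ((reach_cyc h.Fo hc).mpr (ih.2 h4)).cross hn
    · intro hL
      rcases classes_total h1 h2 h3 hab with h4 | h4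
      · have hte : TE p q x b a := by
          by_contra hte
          exact classes_disj h1 h2 h3 (hL.cross hte) h4
        obtain ⟨c, hc⟩ := lte h1 h2 h3 hL hte
        exact (reach_cyc h.Fo hc).mp ((ih.1 h4).cross hn)
      · exact ih.2 h4

/-- NESTING: cut `T` along `p q x`, the outer part `To` along `p' q' x'` in `C` and `E`, where the
face `p q x` of `To` lies in `C`. Then `E` is also the inner part of the cut of `T` along `p' q' x'`,
and the outer part is `C` glued with `Ti`. -/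
theorem cut_nest {T To Ti C E : Tri V} {p q x p' q' x' : V} (h : Cut T To Ti p q x)
    (h' : Cut To C E p' q' x') (hf : C.F p q x) (hn : ¬ Cyc3 p' q' x' p q x) :
    ∃ A, Cut T A E p' q' x' ∧ Cut A C Ti p q x := by
  obtain ⟨h1, h2, h3⟩ := h.adjs
  obtain ⟨k1, k2, k3⟩ := h'.adjs
  obtain ⟨A, B, hc⟩ := cut_exists T (h.adj_o k1) (h.adj_o k2) (h.adj_o k3)
  have hR : Reach To p' q' x' q' p' p q := ((cut_char_o h' p q x).mp ⟨hf, hn⟩).2
  have hR' : Reach T p' q' x' q' p' p q := reach_up h k1.supp k2.supp k3.supp hR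
  have hB : ∀ a b c, B.F a b c ↔ E.F a b c := by
    intro a b c
    rw [cut_F_i hc a b c, cut_F_i h' a b c]
    refine or_congr ?_ Iff.rfl
    constructor
    · rintro ⟨hT, hr⟩
      rcases classes_total h1 h2 h3 (F_adj hT).1 with h4 | h4
      · exact ⟨((cut_char_o h a b c).mpr ⟨hT, h4⟩).1, (reach_down h k1 hr).1 h4⟩
      · exact (classes_disj k1 k2 k3 ((reach_down h k1 hr).2 h4) hR).elim
    · rintro ⟨hTo, hr⟩
      have hncyc : ¬ Cyc3 p q x a b c := fun h5 =>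
        classes_disj k1 k2 k3 ((reach_cyc h.Fo h5).mp hr) hR
      exact ⟨(h.split _ _ _).mpr (Or.inl ⟨hTo, hncyc⟩), reach_up h k1.supp k2.supp k3.supp hr⟩
  have hBs : ∀ v, E.Supp v → B.Supp v := by
    rintro v ⟨b, c, hv⟩
    exact ⟨b, c, (hB _ _ _).mpr hv⟩
  refine ⟨A, ⟨hc.Fo, h'.Fi, ?_, fun v ho hi => hc.common v ho (hBs v hi)⟩,
    ⟨hf, h.Fi, ?_, fun v ho hi => h.common v ((h'.supp_iff v).mpr (Or.inl ho)) hi⟩⟩
  · intro a b c
    rw [hc.split a b c, hB a b c]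
  · intro a b c
    rw [cut_F_o hc a b c]
    constructor
    · rintro (⟨hT, hr⟩ | h4)
      · rcases (h.split a b c).mp hT with h5 | h5
        · refine Or.inl ⟨?_, h5.2⟩
          exact (cut_F_o h' a b c).mpr (Or.inl ⟨h5.1,
            (reach_down h k1.symm hr).1 ((cut_char_o h a b c).mp h5).2⟩)
        · exact Or.inr h5
      · exact Or.inl ⟨Cyc3.F h4 h'.Fo, fun h5 => hn (cyc3_trans h4 h5)⟩
    · rintro (⟨hC, hnc⟩ | h4)
      · rcases (cut_F_o h' a b c).mp hC with ⟨h5, h6⟩ | h5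
        · exact Or.inl ⟨(h.split _ _ _).mpr (Or.inl ⟨h5, hnc⟩),
            reach_up h k1.supp k2.supp k3.supp h6⟩
        · exact Or.inr h5
      · have h5 := (cut_char_i h a b c).mp h4
        exact Or.inl ⟨h5.1, hR'.trans (in_reach h k1.supp k2.supp k3.supp h5.2)⟩

end

/-! ### separating triangles -/

theorem inner_exists {T To Ti : Tri V} {p q x : V} (hs : Sep T p q x) (h : Cut T To Ti p q x) :
    ∃ v, Ti.Supp v ∧ v ≠ p ∧ v ≠ q ∧ v ≠ x := by
  have ne := F_ne h.Fi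
  obtain ⟨y, hy⟩ := Ti.opp _ _ _ h.Fi
  have ney := F_ne hy
  refine ⟨y, (F_adj hy).2.2.supp, ney.2.2, ney.2.1.symm, fun e => hs.nf ?_⟩
  rw [e] at hy
  exact (h.split _ _ _).mpr (Or.inr ⟨hy, cyc3_not_swap ne.1.symm ne.2.2.symm ne.2.1.symm⟩)

theorem Sep.swap {T : Tri V} {p q x : V} (h : Sep T p q x) : Sep T q p x :=
  ⟨h.pq.symm, h.xp.symm, h.qx.symm, h.nf', h.nf⟩

theorem Sep.rot {T : Tri V} {p q x : V} (h : Sep T p q x) : Sep T q x p :=
  ⟨h.qx, h.xp, h.pq, fun h' => h.nf (T.cyc2 h'), fun h' => h.nf' (T.cyc _ _ _ h')⟩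

theorem Cut.isCut {T To Ti : Tri V} {p q x : V} (h : Cut T To Ti p q x) (hs : Sep T p q x) :
    IsCut T To Ti p q x := by
  refine ⟨h.Fo, h.Fi, h.split, h.common, ?_, inner_exists hs h⟩
  obtain ⟨v, h1, h2, h3, h4⟩ := inner_exists hs.swap h.symm
  exact ⟨v, h1, h3, h2, h4⟩

theorem IsCut.toSep {T To Ti : Tri V} {p q x : V} (h : IsCut T To Ti p q x) : Sep T p q x := by
  obtain ⟨a1, a2, a3⟩ := h.cut.adjs
  refine ⟨a1, a2, a3, fun hF => ?_, fun hF => ?_⟩
  · rcases (h.iff _ _ _).mp hF with h1 | h1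
    · exact h1.2 (cyc3_self p q x)
    · obtain ⟨v, hv, v1, v2, v3⟩ := h.ini
      rcases deg_two Ti h.fi (Ti.cyc _ _ _ h1.1) v hv with e | e | e
      · exact v2 e
      · exact v1 e
      · exact v3 e
  · rcases (h.iff _ _ _).mp hF with h1 | h1
    · obtain ⟨v, hv, v1, v2, v3⟩ := h.ino
      rcases deg_two To h.fo (To.cyc _ _ _ h1.1) v hv with e | e | e
      · exact v1 e
      · exact v2 e
      · exact v3 e
    · exact h1.2 (cyc3_self q p x)

theorem IsCut.symm {T To Ti : Tri V} {p q x : V} (h : IsCut T To Ti p q x) :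
    IsCut T Ti To q p x := h.cut.symm.isCut h.toSep.swap

/-- a face of `T` in `To` is not the new face -/
theorem IsCut.not_new {T To Ti : Tri V} {p q x r s t : V} (h : IsCut T To Ti p q x)
    (hr : T.F r s t) : ¬ Cyc3 p q x r s t := fun h1 => h.toSep.nf (Cyc3.F (cyc3_symm h1) hr)

theorem sep_cut [Finite V] {T : Tri V} {p q x r s t : V} (hs : Sep T p q x) (hr : T.F r s t) :
    ∃ To Ti, (IsCut T To Ti p q x ∨ IsCut T To Ti q p x) ∧ To.F r s t := by
  obtain ⟨To, Ti, h⟩ := cut_exists T hs.pq hs.qx hs.xp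
  rcases (h.split _ _ _).mp hr with h1 | h1
  · exact ⟨To, Ti, Or.inl (h.isCut hs), h1.1⟩
  · exact ⟨Ti, To, Or.inr (h.symm.isCut hs.swap), h1.1⟩

/-- separating triangles of the inner part (root face `q p x`) are separating in `T`, with the same
inner part -/
theorem cut_comp [Finite V] {T To Ti Tio Tii : Tri V} {p q x a b c r s t : V}
    (h : IsCut T To Ti p q x) (hr : T.F r s t) (hro : To.F r s t) (h' : IsCut Ti Tio Tii a b c)
    (hf : Tio.F q p x) : ∃ To1, IsCut T To1 Tii a b c ∧ To1.F r s t := by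
  obtain ⟨A, hA, hA'⟩ := cut_nest h.cut.symm h'.cut hf (h'.not_new h.fi)
  have hrA : A.F r s t := (hA'.split _ _ _).mpr (Or.inr ⟨hro, h.not_new hr⟩)
  obtain ⟨v, hv, v1, v2, v3⟩ := h'.ino
  exact ⟨A, ⟨hA.Fo, hA.Fi, hA.split, hA.common, ⟨v, (hA'.supp_iff v).mpr (Or.inl hv), v1, v2, v3⟩,
    h'.ini⟩, hrA⟩

end P3
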