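import Pool.Agent.Lib_MP_b306af.P3StepA

/-!
# MP_b306af, Part III, Step B: contraction of a link edge of a mark
-/

set_option autoImplicit false

namespace P3

open P4

variable {V : Type} {T T' : Tri V} {u v : V}

/-- a set of three vertices is not the whole support if there are at least four vertices -/
theorem exists_fourth [Finite V] {T : Tri V} (h : 4 ≤ nv T) (a b c : V) :
    ∃ w, T.Supp w ∧ ¬ Cor a b c w := by
  classical
  by_contra hcon
  have hsub : {v | T.Supp v} ⊆ (({a, b, c} : Finset V) : Set V) := by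
    intro w hw
    by_contra h1
    refine hcon ⟨w, hw, fun h2 => h1 ?_⟩
    simp only [Finset.coe_insert, Finset.coe_singleton, Set.mem_insert_iff, Set.mem_singleton_iff]
    exact h2
  have h1 := Set.ncard_le_ncard hsub (Set.toFinite _)
  rw [Set.ncard_coe_finset] at h1
  have h2 : ({a, b, c} : Finset V).card ≤ 3 := Finset.card_le_three
  unfold nv at h
  omega

/-- no two faces have the same vertices -/
theorem not_both [Finite V] {T : Tri V} (h : 4 ≤ nv T) {a b c : V} (h1 : T.F a b c) :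
    ¬ T.F b a c := by
  intro h2
  obtain ⟨w, hw, hw'⟩ := exists_fourth h a b c
  exact hw' (two_faces h1 h2 hw)

theorem IsContr.adj_cases (h : IsContr T T' u v) {a b : V} (hab : T'.Adj a b) :
    a ≠ v ∧ b ≠ v ∧ (T.Adj a b ∨ (a = u ∧ T.Adj v b) ∨ (b = u ∧ T.Adj a v)) := by
  obtain ⟨c, hc⟩ := hab
  obtain ⟨h1, h2, -, -, -, -, h3 | h3 | h3 | h3⟩ := (h a b c).1 hc
  · exact ⟨h1, h2, Or.inl ⟨c, h3⟩⟩
  · exact ⟨h1, h2, Or.inr (Or.inl ⟨h3.1, ⟨c, h3.2⟩⟩)⟩
  · exact ⟨h1, h2, Or.inr (Or.inr ⟨h3.1, ⟨c, h3.2⟩⟩)⟩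
  · exact ⟨h1, h2, Or.inl ⟨v, h3.2⟩⟩

theorem IsContr.adj_ne [Finite V] (h : IsContr T T' u v) (huv : T.Adj u v) (hn : 4 ≤ nv T)
    {a b : V} (hab : T.Adj a b) (ha : a ≠ v) (hb : b ≠ v) : T'.Adj a b := by
  obtain ⟨c, hc⟩ := hab
  have hnd := Tri_ne hc
  by_cases hcv : c = v
  · subst hcv
    by_cases hau : a = u
    · subst hau
      obtain ⟨d, hd⟩ := T.opp _ _ _ hc
      have hdc : d ≠ c := fun e => not_both hn hc (by rw [← e]; exact hd)
      have hnd' := Tri_ne hd
      exact Tri.Adj.symm ⟨d, (h _ _ _).2 ⟨hb, ha, hdc, hnd'.1, hnd'.2.1, hnd'.2.2, Or.inl hd⟩⟩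
    · by_cases hbu : b = u
      · subst hbu
        obtain ⟨d, hd⟩ := T.opp _ _ _ hc
        have hdc : d ≠ c := fun e => not_both hn hc (by rw [← e]; exact hd)
        have hnd' := Tri_ne hd
        exact Tri.Adj.symm ⟨d, (h _ _ _).2 ⟨hb, ha, hdc, hnd'.1, hnd'.2.1, hnd'.2.2, Or.inl hd⟩⟩
      · exact ⟨u, (h _ _ _).2 ⟨ha, hb, huv.ne, hnd.1, hbu, fun e => hau e.symm,
          Or.inr (Or.inr (Or.inr ⟨rfl, hc⟩))⟩⟩
  · exact ⟨c, (h _ _ _).2 ⟨ha, hb, hcv, hnd.1, hnd.2.1, hnd.2.2, Or.inl hc⟩⟩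

theorem IsContr.adj_v [Finite V] (h : IsContr T T' u v) (huv : T.Adj u v) (hn : 4 ≤ nv T)
    {b : V} (hab : T.Adj v b) (hb : b ≠ u) : T'.Adj u b := by
  obtain ⟨c, hc⟩ := hab
  have hnd := Tri_ne hc
  by_cases hcu : c = u
  · subst hcu
    obtain ⟨d, hd⟩ := T.opp _ _ _ hc
    have hdc : d ≠ c := fun e => not_both hn hc (by rw [← e]; exact hd)
    have hnd' := Tri_ne hd
    exact Tri.Adj.symm ⟨d, (h _ _ _).2 ⟨hnd.1.symm, huv.ne, hnd'.2.1.symm, hb, hdc.symm, hnd'.2.2,
      Or.inr (Or.inr (Or.inl ⟨rfl, hd⟩))⟩⟩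
  · exact ⟨c, (h _ _ _).2 ⟨huv.ne, hnd.1.symm, hnd.2.2, hb.symm, hnd.2.1, hcu,
      Or.inr (Or.inl ⟨rfl, hc⟩)⟩⟩

theorem IsContr.supp_iff [Finite V] (h : IsContr T T' u v) (huv : T.Adj u v) (hn : 4 ≤ nv T)
    {w : V} : T'.Supp w ↔ T.Supp w ∧ w ≠ v := by
  constructor
  · rintro ⟨b, c, hc⟩
    obtain ⟨h1, h2, h3 | h3 | h3⟩ := h.adj_cases ⟨c, hc⟩
    · exact ⟨h3.supp, h1⟩
    · exact ⟨by rw [h3.1]; exact huv.supp, h1⟩
    · exact ⟨h3.2.supp, h1⟩
  · rintro ⟨⟨b, c, hc⟩, hw⟩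
    by_cases hbv : b = v
    · subst hbv
      by_cases hwu : w = u
      · subst hwu
        have h1 : c ≠ b := (Tri_ne hc).2.1.symm
        exact (h.adj_ne huv hn (adj31 hc).symm hw h1).supp
      · exact (h.adj_v huv hn (adj12 hc).symm hwu).symm.supp
    · exact (h.adj_ne huv hn ⟨c, hc⟩ hw hbv).supp

theorem IsContr.nv_lt [Finite V] (h : IsContr T T' u v) (huv : T.Adj u v) (hn : 4 ≤ nv T) :
    nv T' < nv T := by
  refine Set.ncard_lt_ncard ?_ (Set.toFinite _)
  refine ⟨fun w hw => ((h.supp_iff huv hn).1 hw).1, fun h1 => ?_⟩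
  exact ((h.supp_iff huv hn).1 (h1 huv.symm.supp)).2 rfl

/-- the data of the contraction -/
theorem dat_contr [Finite V] (h : IsContr T T' u v) (huv : T.Adj u v) (hn : 4 ≤ nv T)
    {M : Finset V} {r s t x : V} (hD : Dat T M r s t) (hx : x ∈ M) (hxu : T.Adj x u)
    (hxv : T.Adj x v) (hvr : ¬ Cor r s t v) : Dat T' M r s t := by
  have huM : u ∉ M := fun hu => hD.far.not_adj hx hu hxu
  have hvM : v ∉ M := fun hv => hD.far.not_adj hx hv hxv
  -- the stars of the other marks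
  have hstar : ∀ y ∈ M, y ≠ x → ∀ a, St T' y a → a ≠ u ∧ St T y a := by
    intro y hy hyx a ha
    have hyu : ¬ T.Adj y u := fun h1 =>
      (hD.far y hy x hx hyx u u (Or.inr h1) (Or.inr hxu)).1 rfl
    have hyv : ¬ T.Adj y v := fun h1 =>
      (hD.far y hy x hx hyx v v (Or.inr h1) (Or.inr hxv)).1 rfl
    rcases ha with rfl | ha
    · exact ⟨fun e => huM (by rw [← e]; exact hy), Or.inl rfl⟩
    · obtain ⟨h1, h2, h3 | h3 | h3⟩ := h.adj_cases ha
      · exact ⟨fun e => hyu (by rw [← e]; exact h3), Or.inr h3⟩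
      · exact absurd (by rw [← h3.1]; exact hy) huM
      · exact absurd h3.2 hyv
  have hstarx : ∀ a, St T' x a → a = u ∨ St T x a := by
    intro a ha
    rcases ha with rfl | ha
    · exact Or.inr (Or.inl rfl)
    · obtain ⟨h1, h2, h3 | h3 | h3⟩ := h.adj_cases ha
      · exact Or.inr (Or.inr h3)
      · exact absurd (by rw [← h3.1]; exact hx) huM
      · exact Or.inl h3.1
  have hone : ∀ y ∈ M, y ≠ x → ∀ a b, St T' x a → St T' y b → a ≠ b ∧ ¬ T'.Adj a b := by
    intro y hy hyx a b ha hb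
    obtain ⟨hbu, hb'⟩ := hstar y hy hyx b hb
    have ha' : St T x a := by
      rcases hstarx a ha with rfl | h1
      · exact Or.inr hxu
      · exact h1
    refine ⟨(hD.far x hx y hy hyx.symm a b ha' hb').1, fun hab => ?_⟩
    obtain ⟨h1, h2, h3 | h3 | h3⟩ := h.adj_cases hab
    · exact (hD.far x hx y hy hyx.symm a b ha' hb').2 h3
    · exact (hD.far x hx y hy hyx.symm v b (Or.inr hxv) hb').2 h3.2
    · exact hbu h3.1
  have hroot : T'.F r s t := by
    have hnd := Tri_ne hD.root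
    refine (h _ _ _).2 ⟨fun e => hvr (Or.inl e.symm), fun e => hvr (Or.inr (Or.inl e.symm)),
      fun e => hvr (Or.inr (Or.inr e.symm)), hnd.1, hnd.2.1, hnd.2.2, Or.inl hD.root⟩
  refine ⟨hroot, ?_, hD.out, ?_⟩
  · intro y hy
    exact (h.supp_iff huv hn).2 ⟨hD.supp y hy, fun e => hvM (by rw [← e]; exact hy)⟩
  · intro y hy z hz hyz a b ha hb
    by_cases hyx : y = x
    · subst hyx
      exact hone z hz hyz.symm a b ha hb
    · by_cases hzx : z = x
      · subst hzx
        have := hone y hy hyx b a hb ha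
        exact ⟨this.1.symm, fun hab => this.2 hab.symm⟩
      · obtain ⟨hau, ha'⟩ := hstar y hy hyx a ha
        obtain ⟨hbu, hb'⟩ := hstar z hz hzx b hb
        refine ⟨(hD.far y hy z hz hyz a b ha' hb').1, fun hab => ?_⟩
        obtain ⟨h1, h2, h3 | h3 | h3⟩ := h.adj_cases hab
        · exact (hD.far y hy z hz hyz a b ha' hb').2 h3
        · exact hau h3.1
        · exact hbu h3.1

open Classical in
/-- lifting: the deleted vertex gets the side of the contracted one -/
noncomputable def lift (u v : V) (side' : V → SignType) (w : V) : SignType :=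
  if w = v then side' u else side' w

theorem lift_v (u v : V) (side' : V → SignType) : lift u v side' v = side' u := if_pos rfl

theorem lift_ne {u v w : V} {side' : V → SignType} (h : w ≠ v) : lift u v side' w = side' w :=
  if_neg h

theorem str_lift [Finite V] (h : IsContr T T' u v) (huv : T.Adj u v) (hn : 4 ≤ nv T)
    {M : Finset V} (hu : u ∉ M) {side' : V → SignType} (hS : Str T' M side') :
    Str T M (lift u v side') := by
  have hus : T'.Supp u := (h.supp_iff huv hn).2 ⟨huv.supp, huv.ne⟩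
  have hu0 : side' u ≠ 0 := fun e => hu (hS.zero u hus e)
  refine ⟨?_, ?_, ?_⟩
  · intro w hw h0
    by_cases hwv : w = v
    · subst hwv
      rw [lift_v] at h0
      exact absurd h0 hu0
    · rw [lift_ne hwv] at h0
      exact hS.zero w ((h.supp_iff huv hn).2 ⟨hw, hwv⟩) h0
  · intro σ hσ
    rw [con_iff']
    intro P hP a b ha hb hPa
    have hmem : ∀ w, w ∈ {w | T'.Supp w ∧ side' w = σ} →
        w ∈ {w | T.Supp w ∧ lift u v side' w = σ} := by
      rintro w ⟨h1, h2⟩
      have h3 := (h.supp_iff huv hn).1 h1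
      exact ⟨h3.1, by rw [lift_ne h3.2]; exact h2⟩
    have huA : side' u = σ → u ∈ {w | T.Supp w ∧ lift u v side' w = σ} := fun e =>
      ⟨huv.supp, by rw [lift_ne huv.ne]; exact e⟩
    have hvA : side' u = σ → v ∈ {w | T.Supp w ∧ lift u v side' w = σ} := fun e =>
      ⟨huv.symm.supp, by rw [lift_v]; exact e⟩
    have hstep : ∀ a b, a ∈ {w | T'.Supp w ∧ side' w = σ} → b ∈ {w | T'.Supp w ∧ side' w = σ} →
        T'.Adj a b → P a → P b := by
      intro y z hy hz hyz hPy
      obtain ⟨h1, h2, h3 | h3 | h3⟩ := h.adj_cases hyz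
      · exact hP y z (hmem y hy) (hmem z hz) h3 hPy
      · have e : side' u = σ := by rw [← h3.1]; exact hy.2
        rw [h3.1] at hPy
        exact hP v z (hvA e) (hmem z hz) h3.2 (hP u v (huA e) (hvA e) huv hPy)
      · have e : side' u = σ := by rw [← h3.1]; exact hz.2
        rw [h3.1]
        exact hP v u (hvA e) (huA e) huv.symm (hP y v (hmem y hy) (hvA e) h3.2 hPy)
    have hconn := (con_iff'.1 (hS.conn σ hσ)) P hstep
    have hback : ∀ w, w ∈ {w | T.Supp w ∧ lift u v side' w = σ} → w ≠ v →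
        w ∈ {w | T'.Supp w ∧ side' w = σ} := by
      rintro w ⟨h1, h2⟩ h3
      exact ⟨(h.supp_iff huv hn).2 ⟨h1, h3⟩, by rw [← h2, lift_ne h3]⟩
    -- from `a` to a vertex different from `v`
    by_cases hav : a = v
    · subst hav
      have e : side' u = σ := by rw [← ha.2, lift_v]
      have hPu := hP a u (hvA e) (huA e) huv.symm hPa
      by_cases hba : b = a
      · rw [hba]; exact hPa
      · exact hconn u b ⟨hus, e⟩ (hback b hb hba) hPu
    · by_cases hbv : b = v
      · subst hbv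
        have e : side' u = σ := by rw [← hb.2, lift_v]
        have hPu := hconn a u (hback a ha hav) ⟨hus, e⟩ hPa
        exact hP u b (huA e) (hvA e) huv hPu
      · exact hconn a b (hback a ha hav) (hback b hb hbv) hPa
  · intro σ hσ w hw h0
    by_cases hwv : w = v
    · subst hwv
      rw [lift_v] at h0
      exact absurd h0 hu0
    · rw [lift_ne hwv] at h0
      obtain ⟨z, hz, hz'⟩ := hS.nbr σ hσ w ((h.supp_iff huv hn).2 ⟨hw, hwv⟩) h0
      obtain ⟨h1, h2, h3 | h3 | h3⟩ := h.adj_cases hz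
      · exact ⟨z, h3, by rw [lift_ne h2]; exact hz'⟩
      · exact absurd (by rw [← h3.1]; exact h0) hu0
      · exact ⟨v, h3.2, by rw [lift_v, ← h3.1]; exact hz'⟩

/-- STEP B -/
theorem stepB [Finite V] (h : IsContr T T' u v) (huv : T.Adj u v) (hn : 4 ≤ nv T)
    {M : Finset V} {r s t x : V} (hD : Dat T M r s t) (hx : x ∈ M) (hxu : T.Adj x u)
    (hxv : T.Adj x v) (hvr : ¬ Cor r s t v) {k : ℝ} (hV : Val T' M r s t k) :
    Val T M r s t k := by
  intro c hc σ hσ
  obtain ⟨side', hS, h1, h2, h3⟩ := hV c hc σ hσ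
  have huM : u ∉ M := fun hu => hD.far.not_adj hx hu hxu
  have hvM : v ∉ M := fun hv => hD.far.not_adj hx hv hxv
  have hne : ∀ d, Cor r s t d → d ≠ v := fun d hd e => hvr (by rw [← e]; exact hd)
  refine ⟨_, str_lift h huv hn huM hS, ?_, ?_, ?_⟩
  · rw [lift_ne (hne c hc)]; exact h1
  · intro d hd hdc
    rw [lift_ne (hne d hd)]; exact h2 d hd hdc
  · rw [val_congr (side' := side') fun w hw => lift_ne fun e => hvM (by rw [← e]; exact hw)]
    exact h3

end P3
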