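import Pool.Agent.Lib_MP_b306af.P3Comp
import Pool.Agent.Lib_MP_b306af.P3StepB

/-!
# MP_b306af, Part III, Lemma 1: reducedness is inherited by the inner part of a cut
-/

set_option autoImplicit false

namespace P3

open P4

variable {V : Type} {T To Ti Tio Tii : Tri V} {p q x a b c r s t : V} {M : Finset V}

/-- existence of cuts, with the root face in the outer part -/
def CutEx (T : Tri V) : Prop :=
  ∀ r s t, T.F r s t → ∀ a b c, Sep T a b c →
    ∃ To Ti, (IsCut T To Ti a b c ∨ IsCut T To Ti b a c) ∧ To.F r s t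

theorem Ins.swap {v : V} (h : Ins Ti p q x v) : Ins Ti q p x v :=
  ⟨h.1, h.2.2.1, h.2.1, h.2.2.2⟩

theorem Sep.swap1 (h : Sep T p q x) : Sep T q p x :=
  ⟨h.pq.symm, h.xp.symm, h.qx.symm, h.nf', h.nf⟩

/-- the data of the inner part -/
theorem dat_in (h : IsCut T To Ti p q x) (hD : Dat T M r s t) :
    Dat Ti (Min M Ti p q x) q p x where
  root := h.fi
  supp v hv := (mem_Min.1 hv).2.1
  out v hv hc := by
    have h1 := (mem_Min.1 hv).2
    rcases hc with h2 | h2 | h2
    · exact h1.2.2.1 h2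
    · exact h1.2.1 h2
    · exact h1.2.2.2 h2
  far := hD.far.sub (fun v hv => (mem_Min.1 hv).1) fun _ _ => h.adjI

/-- the inside of the inner triangle is in the inside of the outer one -/
theorem ins_ins (h : IsCut T To Ti p q x) (h2 : IsCut Ti Tio Tii a b c) (hr2 : Tio.F q p x)
    {v : V} (hv : Ins Tii a b c v) : Ins Ti p q x v := by
  have h1 := h2.ins_iff.1 hv
  refine ⟨h1.1, ?_, ?_, ?_⟩
  · rintro rfl; exact h1.2 (supp2 hr2)
  · rintro rfl; exact h1.2 (supp1 hr2)
  · rintro rfl; exact h1.2 (supp3 hr2)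

/-- Lemma 1 -/
theorem red_in [Finite V] (hex : CutEx T) (hT : T.F r s t) (h : IsCut T To Ti p q x)
    (hr : To.F r s t) (hR : Red T M r s t) : Red Ti (Min M Ti p q x) q p x := by
  refine ⟨?_, Or.inr ?_⟩
  · intro Tio Tii a b c h2 hr2
    obtain ⟨To1, h3, h4⟩ := cut_comp_ex (hex r s t hT) hT h hr h2 hr2
    obtain ⟨v, hv, hv'⟩ := hR.r1 To1 Tii a b c h3 h4
    exact ⟨v, mem_Min.2 ⟨hv, ins_ins h h2 hr2 hv'⟩, hv'⟩
  · have hn := h.five_le
    have hr2 := hR.r2.resolve_left (by omega)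
    intro y hy u v hF
    obtain ⟨hyM, hyI⟩ := mem_Min.1 hy
    have hFT : T.F y u v := h.face_ins hyI hF
    have hus : Ti.Supp u := supp2 hF
    have hvs : Ti.Supp v := supp3 hF
    -- corners of the triangle
    have hcor : ∀ w, Ti.Supp w → ¬ Ins Ti p q x w → Cor q p x w := by
      intro w hw hw'
      by_contra h3
      exact hw' ⟨hw, fun e => h3 (Or.inr (Or.inl e)), fun e => h3 (Or.inl e),
        fun e => h3 (Or.inr (Or.inr e))⟩
    rcases hr2 y hyM u v hFT with ⟨hu, hv⟩ | ⟨z, hz⟩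
    · left
      have h5 : ∀ w, Ti.Supp w → Cor r s t w → Cor q p x w := fun w hw hw' =>
        Cor.swap (h.supp w (Cor.supp hr hw') hw)
      exact ⟨h5 u hus hu, h5 v hvs hv⟩
    · by_cases hui : Ins Ti p q x u
      · right
        have hzs : Ti.Supp z := (h.adj_ins hui hz.xp.symm).symm.supp
        refine ⟨z, h.adj_in hus hvs hz.pq, h.adj_in hvs hzs hz.qx, h.adj_in hzs hus hz.xp, ?_, ?_⟩
        · exact fun h6 => hz.nf (h.face_ins hui h6)
        · exact fun h6 => hz.nf' (T.cyc2 (h.face_ins hui (Ti.cyc _ _ _ h6)))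
      · by_cases hvi : Ins Ti p q x v
        · right
          have hzs : Ti.Supp z := (h.adj_ins hvi hz.qx).symm.supp
          refine ⟨z, h.adj_in hus hvs hz.pq, h.adj_in hvs hzs hz.qx, h.adj_in hzs hus hz.xp,
            ?_, ?_⟩
          · exact fun h6 => hz.nf (T.cyc2 (h.face_ins hvi (Ti.cyc _ _ _ h6)))
          · exact fun h6 => hz.nf' (h.face_ins hvi h6)
        · exact Or.inl ⟨hcor u hus hui, hcor v hvs hvi⟩

end P3
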