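import Pool.Agent.Lib_MP_b306af.P3Basic
import Pool.Agent.Lib_MP_b306af.P3Gl

/-!
# MP_b306af, Part III, Step A: separating triangles without marks inside
-/

set_option autoImplicit false

namespace P3

open P4

variable {V : Type} {T To Ti : Tri V} {p q x : V}

open Classical in
/-- extension of a structure by a constant sign -/
noncomputable def ext (To : Tri V) (side0 : V → SignType) (ε : SignType) (v : V) : SignType :=
  if To.Supp v then side0 v else ε

theorem ext_pos {To : Tri V} {side0 : V → SignType} {ε : SignType} {v : V} (h : To.Supp v) :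
    ext To side0 ε v = side0 v := if_pos h

theorem ext_neg {To : Tri V} {side0 : V → SignType} {ε : SignType} {v : V} (h : ¬ To.Supp v) :
    ext To side0 ε v = ε := if_neg h

/-- `z` is a corner of the triangle which is not on the axis; the inside gets its sign -/
theorem str_ext (h : IsCut T To Ti p q x) {M : Finset V} {side0 : V → SignType}
    (hS : Str To M side0) {z : V} (hz : Cor p q x z) (hz0 : side0 z ≠ 0)
    (hcon : ∀ y w, Con Ti.Adj {v | Ti.Supp v ∧ v ≠ y ∧ v ≠ w}) :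
    Str T M (ext To side0 (side0 z)) := by
  have hzs : To.Supp z := Cor.supp h.fo hz
  have hzi : Ti.Supp z := Cor.supp h.fi (Cor.swap hz)
  refine ⟨?_, ?_, ?_⟩
  · intro v hv h0
    by_cases hvo : To.Supp v
    · rw [ext_pos hvo] at h0
      exact hS.zero v hvo h0
    · rw [ext_neg hvo] at h0
      exact absurd h0 hz0
  · intro σ hσ
    rw [con_iff']
    intro P hP a b ha hb hPa
    have ha1 : T.Supp a ∧ ext To side0 (side0 z) a = σ := ha
    have hb1 : T.Supp b ∧ ext To side0 (side0 z) b = σ := hb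
    -- inside `To`
    have hO := (con_iff'.1 (hS.conn σ hσ)) P (fun u v hu hv huv hPu => by
      have hu' : To.Supp u ∧ side0 u = σ := hu
      have hv' : To.Supp v ∧ side0 v = σ := hv
      refine hP u v ⟨h.suppO hu'.1, ?_⟩ ⟨h.suppO hv'.1, ?_⟩ (h.adjO huv) hPu
      · rw [ext_pos hu'.1]; exact hu'.2
      · rw [ext_pos hv'.1]; exact hv'.2)
    -- the inside together with `z`
    have hI : side0 z = σ → ∀ u v, (Ins Ti p q x u ∨ u = z) → (Ins Ti p q x v ∨ v = z) →
        P u → P v := by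
      intro hzσ
      obtain ⟨y, w, hyw⟩ : ∃ y w, ∀ v, (Ti.Supp v ∧ v ≠ y ∧ v ≠ w) ↔ (Ins Ti p q x v ∨ v = z) := by
        have hn := h.ne3
        rcases hz with rfl | rfl | rfl
        · refine ⟨q, x, fun v => ⟨?_, ?_⟩⟩
          · rintro ⟨h1, h2, h3⟩
            by_cases h4 : v = z
            · exact Or.inr h4
            · exact Or.inl ⟨h1, h4, h2, h3⟩
          · rintro (⟨h1, -, h3, h4⟩ | rfl)
            · exact ⟨h1, h3, h4⟩
            · exact ⟨hzi, hn.1, hn.2.2.symm⟩
        · refine ⟨p, x, fun v => ⟨?_, ?_⟩⟩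
          · rintro ⟨h1, h2, h3⟩
            by_cases h4 : v = z
            · exact Or.inr h4
            · exact Or.inl ⟨h1, h2, h4, h3⟩
          · rintro (⟨h1, h2, -, h4⟩ | rfl)
            · exact ⟨h1, h2, h4⟩
            · exact ⟨hzi, hn.1.symm, hn.2.1⟩
        · refine ⟨p, q, fun v => ⟨?_, ?_⟩⟩
          · rintro ⟨h1, h2, h3⟩
            by_cases h4 : v = z
            · exact Or.inr h4
            · exact Or.inl ⟨h1, h2, h3, h4⟩
          · rintro (⟨h1, h2, h3, -⟩ | rfl)
            · exact ⟨h1, h2, h3⟩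
            · exact ⟨hzi, hn.2.2, hn.2.1.symm⟩
      have hmem : ∀ v, (Ins Ti p q x v ∨ v = z) → T.Supp v ∧ ext To side0 (side0 z) v = σ := by
        rintro v (hv | rfl)
        · have hv' := h.ins_iff.1 hv
          exact ⟨hv'.1, by rw [ext_neg hv'.2]; exact hzσ⟩
        · exact ⟨h.suppO hzs, by rw [ext_pos hzs]; exact hzσ⟩
      intro u v hu hv
      exact (con_iff'.1 (hcon y w)) P (fun u v hu hv huv hPu =>
        hP u v (hmem u ((hyw u).1 hu)) (hmem v ((hyw v).1 hv)) (h.adjI huv) hPu) u v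
        ((hyw u).2 hu) ((hyw v).2 hv)
    by_cases hao : To.Supp a
    · have ha2 : To.Supp a ∧ side0 a = σ := ⟨hao, by rw [← ha1.2, ext_pos hao]⟩
      by_cases hbo : To.Supp b
      · exact hO a b ha2 ⟨hbo, by rw [← hb1.2, ext_pos hbo]⟩ hPa
      · have hzσ : side0 z = σ := by rw [← hb1.2, ext_neg hbo]
        have hPz := hO a z ha2 ⟨hzs, hzσ⟩ hPa
        exact hI hzσ z b (Or.inr rfl) (Or.inl (h.ins_iff.2 ⟨hb1.1, hbo⟩)) hPz
    · have hzσ : side0 z = σ := by rw [← ha1.2, ext_neg hao]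
      have hai : Ins Ti p q x a := h.ins_iff.2 ⟨ha1.1, hao⟩
      by_cases hbo : To.Supp b
      · have hPz := hI hzσ a z (Or.inl hai) (Or.inr rfl) hPa
        exact hO z b ⟨hzs, hzσ⟩ ⟨hbo, by rw [← hb1.2, ext_pos hbo]⟩ hPz
      · exact hI hzσ a b (Or.inl hai) (Or.inl (h.ins_iff.2 ⟨hb1.1, hbo⟩)) hPa
  · intro σ hσ v hv h0
    by_cases hvo : To.Supp v
    · rw [ext_pos hvo] at h0
      obtain ⟨w, hw, hw'⟩ := hS.nbr σ hσ v hvo h0
      refine ⟨w, h.adjO hw, ?_⟩
      rw [ext_pos hw.symm.supp]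
      exact hw'
    · rw [ext_neg hvo] at h0
      exact absurd h0 hz0

theorem dat_out (h : IsCut T To Ti p q x) {M : Finset V} {r s t : V} (hD : Dat T M r s t)
    (hr : To.F r s t) (hM : ∀ v ∈ M, ¬ Ins Ti p q x v) : Dat To M r s t where
  root := hr
  supp v hv := by
    by_contra h1
    exact hM v hv (h.ins_iff.2 ⟨hD.supp v hv, h1⟩)
  out := hD.out
  far := hD.far.sub (fun _ h => h) fun _ _ => h.adjO

/-- STEP A -/
theorem stepA (h : IsCut T To Ti p q x) {M : Finset V} {r s t : V} (hD : Dat T M r s t)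
    (hr : To.F r s t) (hM : ∀ v ∈ M, ¬ Ins Ti p q x v)
    (hcon : ∀ y w, Con Ti.Adj {v | Ti.Supp v ∧ v ≠ y ∧ v ≠ w}) {k : ℝ}
    (hV : Val To M r s t k) : Val T M r s t k := by
  intro c hc σ hσ
  obtain ⟨side0, hS, h1, h2, h3⟩ := hV c hc σ hσ
  have hMo : ∀ v ∈ M, To.Supp v := (dat_out h hD hr hM).supp
  obtain ⟨z, hz, hz0⟩ : ∃ z, Cor p q x z ∧ side0 z ≠ 0 := by
    by_contra hcon'
    have hall : ∀ z, Cor p q x z → side0 z = 0 := by
      intro z hz
      by_contra h4
      exact hcon' ⟨z, hz, h4⟩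
    have hp := hS.zero p (supp1 h.fo) (hall p (Or.inl rfl))
    have hq := hS.zero q (supp2 h.fo) (hall q (Or.inr (Or.inl rfl)))
    exact hD.far.not_adj hp hq h.isSep.pq
  have hroot : ∀ d, Cor r s t d → To.Supp d := fun d hd => Cor.supp hr hd
  refine ⟨_, str_ext h hS hz hz0 hcon, ?_, ?_, ?_⟩
  · rw [ext_pos (hroot c hc)]; exact h1
  · intro d hd hdc
    rw [ext_pos (hroot d hd)]; exact h2 d hd hdc
  · rw [val_congr (side' := side0) fun v hv => ext_pos (hMo v hv)]
    exact h3

end P3
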