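import Pool.Agent.Lib_MP_b306af.P3TorsoDef
import Pool.Agent.Lib_MP_b306af.P3Gl

/-!
# MP_b306af, Part III: Lemma H for the torso
-/

set_option autoImplicit false

namespace P3

open P4

variable {V : Type}

/-- A union of connected sets which all meet one of them. -/
theorem Con.hub {R : V → V → Prop} {ι : Type} {S0 : Set V} {S : ι → Set V} (h0 : Con R S0)
    (h : ∀ i, Con R (S i)) (hm : ∀ i, (S i).Nonempty → ∃ z, z ∈ S i ∧ z ∈ S0) :
    Con R (S0 ∪ ⋃ i, S i) := by
  intro P hP a ha b hb haP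
  have key : ∀ c, c ∈ S0 ∪ ⋃ i, S i → ∃ z ∈ S0, (c ∈ P ↔ z ∈ P) := by
    rintro c (hc | hc)
    · exact ⟨c, hc, Iff.rfl⟩
    · obtain ⟨i, hi⟩ := Set.mem_iUnion.mp hc
      obtain ⟨z, hz, hz0⟩ := hm i ⟨c, hi⟩
      have hPi : ∀ a ∈ S i, ∀ b ∈ S i, R a b → a ∈ P → b ∈ P := fun a ha b hb =>
        hP a (Or.inr (Set.mem_iUnion.mpr ⟨i, ha⟩)) b (Or.inr (Set.mem_iUnion.mpr ⟨i, hb⟩))
      exact ⟨z, hz0, ⟨h i P hPi c hi z hz, h i P hPi z hz c hi⟩⟩
  obtain ⟨za, hza, ea⟩ := key a ha
  obtain ⟨zb, hzb, eb⟩ := key b hb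
  have hP0 : ∀ a ∈ S0, ∀ b ∈ S0, R a b → a ∈ P → b ∈ P := fun a ha b hb =>
    hP a (Or.inl ha) b (Or.inl hb)
  exact eb.mpr (h0 P hP0 za hza zb hzb (ea.mp haP))

namespace Torso

variable {T T' : Tri V} {r s t : V} {n : ℕ} {p q x : Fin n → V} {Ti : Fin n → Tri V}

theorem adj_i (h : Torso T T' r s t n p q x Ti) (i : Fin n) {a b : V} (hab : (Ti i).Adj a b) :
    T.Adj a b := by
  obtain ⟨A, hA, -⟩ := h.cut i
  exact hA.cut.adj_i hab

theorem adj_t (h : Torso T T' r s t n p q x Ti) {a b : V} (hab : T'.Adj a b) : T.Adj a b := by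
  obtain ⟨c, hc⟩ := hab
  by_cases h1 : ∃ i, Cyc3 (p i) (q i) (x i) a b c
  · obtain ⟨i, hi⟩ := h1
    obtain ⟨A, hA, -⟩ := h.cut i
    have hF := F_adj hA.fi
    apply h.adj_i i
    rcases hi with ⟨e1, e2, -⟩ | ⟨e1, e2, -⟩ | ⟨e1, e2, -⟩
    · rw [e1, e2]
      exact hF.1.symm
    · rw [e1, e2]
      exact hF.2.2.symm
    · rw [e1, e2]
      exact hF.2.1.symm
  · push Not at h1
    exact ⟨c, (h.split a b c).mpr (Or.inl ⟨hc, h1⟩)⟩

theorem supp_iff (h : Torso T T' r s t n p q x Ti) (v : V) :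
    T.Supp v ↔ T'.Supp v ∨ ∃ i, (Ti i).Supp v := by
  constructor
  · rintro ⟨b, c, hc⟩
    rcases (h.split v b c).mp hc with h1 | ⟨i, hi, -⟩
    · exact Or.inl ⟨b, c, h1.1⟩
    · exact Or.inr ⟨i, b, c, hi⟩
  · rintro (⟨b, c, hc⟩ | ⟨i, b, c, hc⟩)
    · exact (h.adj_t ⟨c, hc⟩).supp
    · exact (h.adj_i i ⟨c, hc⟩).supp

/-- the corners belong to `Ti i` and to `T'` -/
theorem corners (h : Torso T T' r s t n p q x Ti) (i : Fin n) :
    (T'.Supp (p i) ∧ T'.Supp (q i) ∧ T'.Supp (x i)) ∧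
      ((Ti i).Supp (p i) ∧ (Ti i).Supp (q i) ∧ (Ti i).Supp (x i)) := by
  obtain ⟨A, hA, -⟩ := h.cut i
  have h1 := F_adj (h.face i)
  exact ⟨⟨h1.1.supp, h1.2.1.supp, h1.2.2.supp⟩, hA.cut.corners_i⟩

/-- LEMMA H (general form): sides `side'` on the torso and `sd i` on the inner parts which agree. -/
theorem glue (h : Torso T T' r s t n p q x Ti) {M M' : Finset V} {Mi : Fin n → Finset V}
    {side' : V → SignType} {sd : Fin n → V → SignType} (h' : Str T' M' side')
    (hi : ∀ i, Str (Ti i) (Mi i) (sd i)) (hM' : M' ⊆ M) (hMi : ∀ i, Mi i ⊆ M)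
    (hp : ∀ i, sd i (p i) = side' (p i)) (hq : ∀ i, sd i (q i) = side' (q i))
    (hx : ∀ i, sd i (x i) = side' (x i))
    (hbi : ∀ i, ∀ σ : SignType, σ ≠ 0 →
      (side' (p i) = σ ∨ side' (q i) = σ ∨ side' (x i) = σ) ∨
        ∀ v, (Ti i).Supp v → sd i v ≠ σ) :
    ∃ side, Str T M side ∧ (∀ v, T'.Supp v → side v = side' v) ∧
      (∀ i v, (Ti i).Supp v → side v = sd i v) := by
  classical
  obtain ⟨side, hside⟩ : ∃ side : V → SignType, side = fun v => if T'.Supp v then side' v else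
      if hv : ∃ i, (Ti i).Supp v then sd hv.choose v else 0 := ⟨_, rfl⟩
  have ft : ∀ v, T'.Supp v → side v = side' v := by
    intro v hv
    rw [hside]
    exact if_pos hv
  have fi : ∀ i v, (Ti i).Supp v → side v = sd i v := by
    intro i v hv
    by_cases hv' : T'.Supp v
    · rw [ft v hv']
      rcases h.common i v hv' hv with e | e | e
      · rw [e, hp]
      · rw [e, hq]
      · rw [e, hx]
    · have hex : ∃ i, (Ti i).Supp v := ⟨i, hv⟩
      rw [hside]
      beta_reduce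
      rw [if_neg hv', dif_pos hex]
      by_cases e : hex.choose = i
      · rw [e]
      · exact absurd (h.disj _ i e v hex.choose_spec hv) hv'
  refine ⟨side, ⟨?_, ?_, ?_⟩, ft, fi⟩
  · intro v hv h0
    rcases (h.supp_iff v).mp hv with hv' | ⟨i, hv'⟩
    · exact hM' (h'.zero v hv' (by rw [← ft v hv']; exact h0))
    · exact hMi i ((hi i).zero v hv' (by rw [← fi i v hv']; exact h0))
  · intro σ hσ
    have h1 : Con T.Adj {v | T'.Supp v ∧ side' v = σ} :=
      (h'.conn σ hσ).mono fun a b hab => h.adj_t hab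
    have h2 : ∀ i, Con T.Adj {v | (Ti i).Supp v ∧ sd i v = σ} := fun i =>
      ((hi i).conn σ hσ).mono fun a b hab => h.adj_i i hab
    have h3 := h1.hub h2 (by
      rintro i ⟨v, hv, hvσ⟩
      obtain ⟨⟨c1, c2, c3⟩, c4, c5, c6⟩ := h.corners i
      rcases hbi i σ hσ with (e | e | e) | e
      · exact ⟨p i, ⟨c4, by rw [hp, e]⟩, c1, e⟩
      · exact ⟨q i, ⟨c5, by rw [hq, e]⟩, c2, e⟩
      · exact ⟨x i, ⟨c6, by rw [hx, e]⟩, c3, e⟩
      · exact absurd hvσ (e v hv))
    have e : {v | T'.Supp v ∧ side' v = σ} ∪ (⋃ i, {v | (Ti i).Supp v ∧ sd i v = σ}) =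
        {v | T.Supp v ∧ side v = σ} := by
      ext v
      constructor
      · rintro (⟨h4, h5⟩ | h4)
        · exact ⟨(h.supp_iff v).mpr (Or.inl h4), by rw [ft v h4]; exact h5⟩
        · obtain ⟨i, h5, h6⟩ := Set.mem_iUnion.mp h4
          exact ⟨(h.supp_iff v).mpr (Or.inr ⟨i, h5⟩), by rw [fi i v h5]; exact h6⟩
      · rintro ⟨h4, h5⟩
        rcases (h.supp_iff v).mp h4 with hv' | ⟨i, hv'⟩
        · exact Or.inl ⟨hv', by rw [← ft v hv']; exact h5⟩
        · exact Or.inr (Set.mem_iUnion.mpr ⟨i, hv', by rw [← fi i v hv']; exact h5⟩)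
    rwa [e] at h3
  · intro σ hσ v hv h0
    rcases (h.supp_iff v).mp hv with hv' | ⟨i, hv'⟩
    · obtain ⟨y, hy, hyσ⟩ := h'.nbr σ hσ v hv' (by rw [← ft v hv']; exact h0)
      exact ⟨y, h.adj_t hy, by rw [ft y hy.symm.supp]; exact hyσ⟩
    · obtain ⟨y, hy, hyσ⟩ := (hi i).nbr σ hσ v hv' (by rw [← fi i v hv']; exact h0)
      exact ⟨y, h.adj_i i hy, by rw [fi i y hy.symm.supp]; exact hyσ⟩

end Torso

/-- the value of disjoint sets of marks -/
theorem val_sum {ι : Type} (D : Finset ι) {M : Finset V} {Mi : ι → Finset V}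
    (h1 : ∀ i ∈ D, Mi i ⊆ M) (hd : ∀ i ∈ D, ∀ j ∈ D, i ≠ j → Disjoint (Mi i) (Mi j))
    (side : V → SignType) : ∑ i ∈ D, val (Mi i) side ≤ val M side := by
  classical
  unfold val
  rw [← Finset.card_biUnion]
  · refine Finset.card_le_card fun v hv => ?_
    rw [Finset.mem_biUnion] at hv
    obtain ⟨i, hi, hv⟩ := hv
    rw [Finset.mem_filter] at hv ⊢
    exact ⟨h1 i hi hv.1, hv.2⟩
  · intro i hi j hj hij
    rw [Function.onFun, Finset.disjoint_left]
    intro v hv hv'
    rw [Finset.mem_filter] at hv hv'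
    exact Finset.disjoint_left.mp (hd i hi j hj hij) hv.1 hv'.1

/-- LEMMA H for a bond of the torso: all bichromatic triangles are used. -/
theorem torso_val [Finite V] {T T' : Tri V} {r s t : V} {n : ℕ} {p q x : Fin n → V}
    {Ti : Fin n → Tri V} (hT : Torso T T' r s t n p q x Ti) {M : Finset V} {side' : V → SignType}
    (h1 : ∀ v, T'.Supp v → side' v = 1 ∨ side' v = -1)
    (h2 : ∀ σ : SignType, σ ≠ 0 → Con T'.Adj {v | T'.Supp v ∧ side' v = σ}) {k : Fin n → ℝ}
    (hV : ∀ i, Val (Ti i) (Min M (Ti i) (p i) (q i) (x i)) (p i) (q i) (x i) (k i)) :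
    ∃ side, Str T M side ∧ (∀ v, T'.Supp v → side v = side' v) ∧
      ∑ i with ¬ (side' (p i) = side' (q i) ∧ side' (q i) = side' (x i)), k i ≤
        (val M side : ℝ) := by
  classical
  have hne0 : ∀ v, T'.Supp v → side' v ≠ 0 := by
    intro v hv h0
    rcases h1 v hv with h | h
    · rw [h] at h0
      exact absurd h0 (by decide)
    · rw [h] at h0
      exact absurd h0 (by decide)
  have hsd : ∀ i, ∃ sd : V → SignType, Str (Ti i) (Min M (Ti i) (p i) (q i) (x i)) sd ∧
      sd (p i) = side' (p i) ∧ sd (q i) = side' (q i) ∧ sd (x i) = side' (x i) ∧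
      (¬ (side' (p i) = side' (q i) ∧ side' (q i) = side' (x i)) →
        k i ≤ (val (Min M (Ti i) (p i) (q i) (x i)) sd : ℝ)) ∧
      ((side' (p i) = side' (q i) ∧ side' (q i) = side' (x i)) → ∀ v, sd v = side' (p i)) := by
    intro i
    obtain ⟨⟨c1, c2, c3⟩, c4, c5, c6⟩ := hT.corners i
    have hFn := F_ne (hT.face i)
    by_cases hm : side' (p i) = side' (q i) ∧ side' (q i) = side' (x i)
    · refine ⟨fun _ => side' (p i), ⟨?_, ?_, ?_⟩, rfl, hm.1, hm.1.trans hm.2,
        fun hn => absurd hm hn, fun _ _ => rfl⟩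
      · intro v _ h0
        exact absurd h0 (hne0 _ c1)
      · intro σ hσ
        by_cases e : side' (p i) = σ
        · have e1 : {v | (Ti i).Supp v ∧ side' (p i) = σ} = W (Ti i) := by
            ext v
            exact ⟨fun h => h.1, fun h => ⟨h, e⟩⟩
          rw [e1]
          exact con_W (Ti i)
        · have e1 : {v | (Ti i).Supp v ∧ side' (p i) = σ} = ∅ := by
            ext v
            exact ⟨fun h => e h.2, fun h => absurd h (by simp)⟩
          rw [e1]
          exact Con.empty _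
      · intro σ hσ v _ h0
        exact absurd h0 (hne0 _ c1)
    · obtain ⟨sd, e1, e2, e3, e4, e5⟩ := (hV i).pattern hFn.1 hFn.2.1 hFn.2.2 (side' (p i))
        (side' (q i)) (side' (x i)) (hne0 _ c1) (hne0 _ c2) (hne0 _ c3) hm
      exact ⟨sd, e1, e2, e3, e4, fun _ => e5, fun hm' => absurd hm' hm⟩
  choose sd hs1 hs2 hs3 hs4 hs5 hs6 using hsd
  have hmin : ∀ i, ∀ v ∈ Min M (Ti i) (p i) (q i) (x i), v ∈ M ∧ Ins (Ti i) (p i) (q i) (x i) v := by
    intro i v hv
    unfold Min at hv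
    rw [Finset.mem_filter] at hv
    exact hv
  have h' : Str T' (∅ : Finset V) side' :=
    ⟨fun v hv h0 => absurd h0 (hne0 v hv), h2, fun σ _ v hv h0 => absurd h0 (hne0 v hv)⟩
  obtain ⟨side, g1, g2, g3⟩ := hT.glue (M := M) h' hs1 (Finset.empty_subset _)
    (fun i v hv => (hmin i v hv).1) hs2 hs3 hs4 (by
      intro i σ hσ
      obtain ⟨⟨c1, c2, c3⟩, c4, c5, c6⟩ := hT.corners i
      by_cases hm : side' (p i) = side' (q i) ∧ side' (q i) = side' (x i)
      · by_cases e : side' (p i) = σ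
        · exact Or.inl (Or.inl e)
        · exact Or.inr (fun v _ => by rw [hs6 i hm v]; exact e)
      · refine Or.inl ?_
        have e1 := sign_cases _ (hne0 _ c1)
        have e2 := sign_cases _ (hne0 _ c2)
        have e3 := sign_cases _ (hne0 _ c3)
        rcases sign_cases σ hσ with rfl | rfl
        · by_contra hno
          push Not at hno
          rcases e1 with e1 | e1
          · exact hno.1 e1
          · rcases e2 with e2 | e2
            · exact hno.2.1 e2
            · rcases e3 with e3 | e3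
              · exact hno.2.2 e3
              · exact hm ⟨e1.trans e2.symm, e2.trans e3.symm⟩
        · by_contra hno
          push Not at hno
          rcases e1 with e1 | e1
          · rcases e2 with e2 | e2
            · rcases e3 with e3 | e3
              · exact hm ⟨e1.trans e2.symm, e2.trans e3.symm⟩
              · exact hno.2.2 e3
            · exact hno.2.1 e2
          · exact hno.1 e1)
  refine ⟨side, g1, g2, ?_⟩
  have hsum := val_sum (Finset.univ.filter fun i =>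
      ¬ (side' (p i) = side' (q i) ∧ side' (q i) = side' (x i))) (M := M)
    (Mi := fun i => Min M (Ti i) (p i) (q i) (x i)) (fun i _ v hv => (hmin i v hv).1) (by
      intro i _ j _ hij
      rw [Finset.disjoint_left]
      intro v hv hv'
      obtain ⟨-, w1, w2, w3, w4⟩ := hmin i v hv
      obtain ⟨-, w5, w6, w7, w8⟩ := hmin j v hv'
      rcases hT.common i v (hT.disj i j hij v w1 w5) w1 with e | e | e
      · exact w2 e
      · exact w3 e
      · exact w4 e) side
  have hk : ∑ i with ¬ (side' (p i) = side' (q i) ∧ side' (q i) = side' (x i)), k i ≤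
      ∑ i with ¬ (side' (p i) = side' (q i) ∧ side' (q i) = side' (x i)),
        (val (Min M (Ti i) (p i) (q i) (x i)) side : ℝ) := by
    refine Finset.sum_le_sum fun i hi => ?_
    rw [Finset.mem_filter] at hi
    have e : val (Min M (Ti i) (p i) (q i) (x i)) side =
        val (Min M (Ti i) (p i) (q i) (x i)) (sd i) :=
      val_congr fun v hv => g3 i v (hmin i v hv).2.1
    rw [e]
    exact hs5 i hi.2
  refine hk.trans ?_
  exact_mod_cast hsum

end P3
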