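import Pool.Agent.Lib_MP_b306af.P3Count
import Pool.Agent.Lib_MP_b306af.P3TorsoGlue
import Pool.Agent.Lib_MP_b306af.P3Dual
import Pool.Agent.Lib_MP_b306af.P3Basic

/-!
# MP_b306af, Part III: weighted faces of the torso, and the interface of sections 3 and 4
-/

set_option autoImplicit false

namespace P3

open P4

variable {V : Type}

theorem cyc3_flip {p q x a b c : V} (h : Cyc3 p q x a b c) : Cyc3 a b c p q x := by
  rcases h with ⟨rfl, rfl, rfl⟩ | ⟨rfl, rfl, rfl⟩ | ⟨rfl, rfl, rfl⟩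
  · exact Or.inl ⟨rfl, rfl, rfl⟩
  · exact Or.inr (Or.inr ⟨rfl, rfl, rfl⟩)
  · exact Or.inr (Or.inl ⟨rfl, rfl, rfl⟩)

theorem Val.swap {T : Tri V} {M : Finset V} {r s t : V} {k : ℝ} (h : Val T M r s t k) :
    Val T M s r t k := by
  intro c hc σ hσ
  obtain ⟨side, h1, h2, h3, h4⟩ := h c (Cor.swap hc) σ hσ
  exact ⟨side, h1, h2, fun d hd => h3 d (Cor.swap hd), h4⟩

/-- the torso, with weights on the emptied triangles -/
theorem torso_wf [Finite V] (hI : P1.ThmI) {T T' : Tri V} {r s t : V} {n : ℕ} {p q x : Fin n → V}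
    {Ti : Fin n → Tri V} (h : Torso T T' r s t n p q x Ti) {M : Finset V}
    (ω k : Fin n → ℝ) (hω : ∀ i, 0 ≤ ω i)
    (hk : ∀ i, Val (Ti i) (Min M (Ti i) (p i) (q i) (x i)) (q i) (p i) (x i) (k i)) :
    ∀ c, Cor r s t c → ∀ σ : SignType, σ ≠ 0 → ∃ side, Str T M side ∧ side c = σ ∧
      (∀ d, Cor r s t d → d ≠ c → side d = -σ) ∧ ∃ B : Finset (Fin n),
        (∑ i, ω i) ^ ((4 : ℝ) / 5) ≤ ∑ i ∈ B, ω i ^ ((4 : ℝ) / 5) ∧
        ∑ i ∈ B, k i ≤ (val M side : ℝ) := by
  classical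
  -- the case of the sign `1`, for a rotation of the root face
  have main : ∀ a b c, T'.F a b c → (∀ i, ¬ Cyc3 (p i) (q i) (x i) a b c) →
      ∃ side, Str T M side ∧ side a = 1 ∧ side b = -1 ∧ side c = -1 ∧ ∃ B : Finset (Fin n),
        (∑ i, ω i) ^ ((4 : ℝ) / 5) ≤ ∑ i ∈ B, ω i ^ ((4 : ℝ) / 5) ∧
        ∑ i ∈ B, k i ≤ (val M side : ℝ) := by
    intro a b c hF hr
    obtain ⟨side', h1, h2, h3, h4, h5, h6⟩ := wf hI T' hF Finset.univ p q x
      (fun i _ => h.face i) (fun i _ hc => hr i (cyc3_flip hc)) ω (fun i _ => hω i)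
    obtain ⟨side, g1, g2, g3⟩ := torso_val h (fun v _ => h1 v) h2 (fun i => (hk i).swap)
    refine ⟨side, g1, ?_, ?_, ?_, _, h6, ?_⟩
    · rw [g2 a (supp1 hF), h3]
    · rw [g2 b (supp2 hF), h4]
    · rw [g2 c (supp3 hF), h5]
    · exact g3
  -- any corner
  have main2 : ∀ c, Cor r s t c → ∃ side, Str T M side ∧ side c = 1 ∧
      (∀ d, Cor r s t d → d ≠ c → side d = -1) ∧ ∃ B : Finset (Fin n),
        (∑ i, ω i) ^ ((4 : ℝ) / 5) ≤ ∑ i ∈ B, ω i ^ ((4 : ℝ) / 5) ∧
        ∑ i ∈ B, k i ≤ (val M side : ℝ) := by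
    intro c hc
    rcases hc with rfl | rfl | rfl
    · obtain ⟨side, g1, g2, g3, g4, g5⟩ := main _ _ _ h.root h.root'
      refine ⟨side, g1, g2, fun d hd hdc => ?_, g5⟩
      rcases hd with rfl | rfl | rfl
      · exact absurd rfl hdc
      · exact g3
      · exact g4
    · obtain ⟨side, g1, g2, g3, g4, g5⟩ := main _ _ _ (T'.cyc _ _ _ h.root)
        (fun i hc => h.root' i (Cyc3.rotn (Cyc3.rotn hc)))
      refine ⟨side, g1, g2, fun d hd hdc => ?_, g5⟩
      rcases hd with rfl | rfl | rfl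
      · exact g4
      · exact absurd rfl hdc
      · exact g3
    · obtain ⟨side, g1, g2, g3, g4, g5⟩ := main _ _ _ (T'.cyc2 h.root)
        (fun i hc => h.root' i (Cyc3.rotn hc))
      refine ⟨side, g1, g2, fun d hd hdc => ?_, g5⟩
      rcases hd with rfl | rfl | rfl
      · exact g3
      · exact g4
      · exact absurd rfl hdc
  intro c hc σ hσ
  obtain ⟨side, g1, g2, g3, B, g4, g5⟩ := main2 c hc
  rcases sign_cases σ hσ with rfl | rfl
  · exact ⟨side, g1, g2, g3, B, g4, g5⟩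
  · refine ⟨fun v => - side v, g1.neg, ?_, fun d hd hdc => ?_, B, g4, ?_⟩
    · change - side c = -1
      rw [g2]
    · change - side d = - -1
      rw [g3 d hd hdc]
    · rw [val_neg]
      exact g5

/-- a vertex of `T` is a vertex of the torso iff it is not inside an emptied triangle -/
theorem Torso.supp_ins {T T' : Tri V} {r s t : V} {n : ℕ} {p q x : Fin n → V}
    {Ti : Fin n → Tri V} (h : Torso T T' r s t n p q x Ti) {v : V} (hv : T.Supp v) :
    (∀ i, ¬ Ins (Ti i) (p i) (q i) (x i) v) ↔ T'.Supp v := by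
  constructor
  · intro h1
    by_contra h2
    obtain ⟨i, hi⟩ := (h.suppOr hv).resolve_left h2
    have hc : ¬ Cor (p i) (q i) (x i) v := fun h3 => h2 (Cor.supp (h.face i) h3)
    exact h1 i ⟨hi, fun e => hc (Or.inl e), fun e => hc (Or.inr (Or.inl e)),
      fun e => hc (Or.inr (Or.inr e))⟩
  · rintro h1 i ⟨h2, h3, h4, h5⟩
    rcases h.common i v h1 h2 with e | e | e
    · exact h3 e
    · exact h4 e
    · exact h5 e

open Classical in
theorem torso_count_a [Finite V] {T T' : Tri V} {r s t : V} {n : ℕ} {p q x : Fin n → V}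
    {Ti : Fin n → Tri V} (h : Torso T T' r s t n p q x Ti) (hn : 0 < n) {M : Finset V}
    (hD : Dat T M r s t) (hR : Red T M r s t) :
    (M.filter fun v => ∀ i, ¬ Ins (Ti i) (p i) (q i) (x i) v).card ≤ n := by
  have h1 : (M.filter fun v => ∀ i, ¬ Ins (Ti i) (p i) (q i) (x i) v) =
      M.filter fun v => T'.Supp v :=
    Finset.filter_congr fun v hv => h.supp_ins (hD.supp v hv)
  rw [h1]
  exact h.count_a hn hD hR

end P3
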