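import Pool.Agent.Lib_MP_b306af.P4CtrTri

/-!
# MP_b306af: existence of contractions, in the form used in Part III

The relation in `contr_exists` is `P3.IsContr T T' u v` (the edge `u v` is contracted to `u`).
-/

namespace P4

namespace Tri

variable {V : Type} {T : Tri V} {u v x y : V}

theorem ctr_ne (huv : u ≠ v) (a : V) : ctr v u a ≠ v := by
  by_cases h : a = v
  · rw [h, ctr_u]; exact huv
  · rw [ctr_of_ne h]; exact h

theorem ctrF_iff (huv : u ≠ v) (a b c : V) : T.ctrF v u a b c ↔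
    a ≠ v ∧ b ≠ v ∧ c ≠ v ∧ a ≠ b ∧ b ≠ c ∧ c ≠ a ∧
      (T.F a b c ∨ (a = u ∧ T.F v b c) ∨ (b = u ∧ T.F a v c) ∨ (c = u ∧ T.F a b v)) := by
  constructor
  · rintro ⟨n1, n2, n3, a0, b0, c0, hf, rfl, rfl, rfl⟩
    refine ⟨ctr_ne huv _, ctr_ne huv _, ctr_ne huv _, n1, n2, n3, ?_⟩
    have hab := T.ne _ _ _ hf
    have hbc := T.ne _ _ _ (T.cyc _ _ _ hf)
    have hca := T.ne _ _ _ (T.cyc2 hf)
    by_cases ha : a0 = v
    · have hb : b0 ≠ v := fun e => hab (ha.trans e.symm)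
      have hc : c0 ≠ v := fun e => hca (e.trans ha.symm)
      subst ha
      rw [ctr_u, ctr_of_ne hb, ctr_of_ne hc]
      exact Or.inr (Or.inl ⟨rfl, hf⟩)
    by_cases hb : b0 = v
    · have hc : c0 ≠ v := fun e => hbc (hb.trans e.symm)
      subst hb
      rw [ctr_u, ctr_of_ne ha, ctr_of_ne hc]
      exact Or.inr (Or.inr (Or.inl ⟨rfl, hf⟩))
    by_cases hc : c0 = v
    · subst hc
      rw [ctr_u, ctr_of_ne ha, ctr_of_ne hb]
      exact Or.inr (Or.inr (Or.inr ⟨rfl, hf⟩))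
    rw [ctr_of_ne ha, ctr_of_ne hb, ctr_of_ne hc]
    exact Or.inl hf
  · rintro ⟨ha, hb, hc, n1, n2, n3, hf | ⟨rfl, hf⟩ | ⟨rfl, hf⟩ | ⟨rfl, hf⟩⟩
    · exact ⟨n1, n2, n3, a, b, c, hf, ctr_of_ne ha, ctr_of_ne hb, ctr_of_ne hc⟩
    · exact ⟨n1, n2, n3, v, b, c, hf, ctr_u _ _, ctr_of_ne hb, ctr_of_ne hc⟩
    · exact ⟨n1, n2, n3, a, v, c, hf, ctr_of_ne ha, ctr_u _ _, ctr_of_ne hc⟩
    · exact ⟨n1, n2, n3, a, b, v, hf, ctr_of_ne ha, ctr_of_ne hb, ctr_u _ _⟩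

/-- the two faces at an edge have different third vertices, if there is a fourth vertex -/
theorem face_ne (h1 : T.F u v x) (h2 : T.F v u y) {w : V} (hw : T.Supp w) (hwu : w ≠ u)
    (hwv : w ≠ v) (hwx : w ≠ x) : x ≠ y := by
  rintro rfl
  obtain ⟨b, c, hf⟩ := hw
  have key := T.trans (fun a b => (a = u ∨ a = v ∨ a = x) ∧ (b = u ∨ b = v ∨ b = x)) (by
      rintro a b c hf ⟨ha, hb⟩
      refine ⟨hb, ?_⟩
      rcases ha with rfl | rfl | rfl <;> rcases hb with rfl | rfl | rfl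
      · exact absurd rfl (T.ne _ _ _ hf)
      · exact Or.inr (Or.inr (T.uniq _ _ _ _ hf h1))
      · exact Or.inr (Or.inl (T.uniq _ _ _ _ hf (T.cyc _ _ _ h2)))
      · exact Or.inr (Or.inr (T.uniq _ _ _ _ hf h2))
      · exact absurd rfl (T.ne _ _ _ hf)
      · exact Or.inl (T.uniq _ _ _ _ hf (T.cyc _ _ _ h1))
      · exact Or.inr (Or.inl (T.uniq _ _ _ _ hf (T.cyc2 h1)))
      · exact Or.inl (T.uniq _ _ _ _ hf (T.cyc2 h2))
      · exact absurd rfl (T.ne _ _ _ hf)) (by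
      rintro a b c _ ⟨ha, hb⟩
      exact ⟨hb, ha⟩) u v x w b c h1 hf ⟨Or.inl rfl, Or.inr (Or.inl rfl)⟩
  rcases key.1 with e | e | e
  · exact hwu e
  · exact hwv e
  · exact hwx e

/-- **Contraction** of an edge `u v` to `u`, if the third vertices of its two faces are the only
common neighbours and there are at least four vertices. -/
theorem contr_exists [Finite V] (T : Tri V) {u v x y w : V} (h1 : T.F u v x) (h2 : T.F v u y)
    (hsep : ∀ z, T.Adj u z → T.Adj v z → z = x ∨ z = y)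
    (hw : T.Supp w) (hwu : w ≠ u) (hwv : w ≠ v) (hwx : w ≠ x) :
    ∃ T' : Tri V, (∀ a b c, T'.F a b c ↔ a ≠ v ∧ b ≠ v ∧ c ≠ v ∧ a ≠ b ∧ b ≠ c ∧ c ≠ a ∧
      (T.F a b c ∨ (a = u ∧ T.F v b c) ∨ (b = u ∧ T.F a v c) ∨ (c = u ∧ T.F a b v))) ∧
      (∀ a, T'.Supp a ↔ T.Supp a ∧ a ≠ v) ∧
      (∀ a b, T'.Adj a b ↔ a ≠ v ∧ b ≠ v ∧ a ≠ b ∧
        (T.Adj a b ∨ (a = u ∧ T.Adj v b) ∨ (b = u ∧ T.Adj a v))) := by
  have huv := T.ne _ _ _ h1
  have h : T.CtrOK v u y x := ⟨h2, h1, (face_ne h1 h2 hw hwu hwv hwx).symm,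
    fun z hz hz' => (hsep z hz' hz).symm⟩
  have hsu : ∀ a, a ≠ v → T.Supp a → (T.contract h).Supp a := by
    intro a ha hs
    have := contract_supp h hs
    rwa [ctr_of_ne ha] at this
  have hadj : ∀ a b, a ≠ b → a ≠ v → b ≠ v → T.Adj a b → (T.contract h).Adj a b := by
    intro a b hab ha hb hs
    have := contract_adj h hs (by rw [ctr_of_ne ha, ctr_of_ne hb]; exact hab)
    rwa [ctr_of_ne ha, ctr_of_ne hb] at this
  refine ⟨T.contract h, fun a b c => ctrF_iff huv a b c, ?_, ?_⟩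
  · intro a
    constructor
    · rintro ⟨b, c, hf⟩
      obtain ⟨ha, hb, hc, -, -, -, hf⟩ := (ctrF_iff huv a b c).1 hf
      refine ⟨?_, ha⟩
      rcases hf with hf | ⟨rfl, -⟩ | ⟨-, hf⟩ | ⟨-, hf⟩
      · exact ⟨_, _, hf⟩
      · exact ⟨_, _, h1⟩
      · exact ⟨_, _, hf⟩
      · exact ⟨_, _, hf⟩
    · rintro ⟨hs, ha⟩
      exact hsu a ha hs
  · intro a b
    constructor
    · rintro ⟨c, hf⟩
      obtain ⟨ha, hb, hc, hab, -, -, hf⟩ := (ctrF_iff huv a b c).1 hf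
      refine ⟨ha, hb, hab, ?_⟩
      rcases hf with hf | ⟨e, hf⟩ | ⟨e, hf⟩ | ⟨-, hf⟩
      · exact Or.inl ⟨_, hf⟩
      · exact Or.inr (Or.inl ⟨e, _, hf⟩)
      · exact Or.inr (Or.inr ⟨e, _, hf⟩)
      · exact Or.inl ⟨_, hf⟩
    · rintro ⟨ha, hb, hab, hh | ⟨rfl, hh⟩ | ⟨rfl, hh⟩⟩
      · exact hadj a b hab ha hb hh
      · have := contract_adj h hh (by rw [ctr_u, ctr_of_ne hb]; exact hab)
        rwa [ctr_u, ctr_of_ne hb] at this
      · have := contract_adj h hh (by rw [ctr_u, ctr_of_ne ha]; exact hab)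
        rwa [ctr_u, ctr_of_ne ha] at this

end Tri

end P4
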