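import Pool.Agent.Lib_MP_b306af.P3Red
import Pool.Agent.Lib_MP_b306af.P3Ann
import Pool.Agent.Lib_MP_b306af.P3K4
import Pool.Agent.Lib_MP_b306af.P3F
import Pool.Agent.Lib_MP_b306af.P3StepA
import Pool.Agent.Lib_MP_b306af.P3StepB
import Pool.Agent.Lib_MP_b306af.P3TV
import Pool.Agent.Lib_MP_b306af.P4CtrEx

/-!
# MP_b306af, Part III, section 5: reduced triangulations; Theorem III
-/

set_option autoImplicit false

namespace P3

open P4

variable {V : Type}

/-- the three types of reduced data -/
def TypeA (T : Tri V) (M : Finset V) (r s t : V) : Prop := Val T M r s t (Fz (M.card + 6))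

def TypeB (T : Tri V) (M : Finset V) (r s t : V) : Prop :=
  Val T M r s t (Fz (M.card + 5)) ∧ ∃ To Ti p q x, IsCut T To Ti p q x ∧ To.F r s t ∧
    (∃ x1 ∈ M, Cor p q x x1) ∧ M.card = (Min M Ti p q x).card + 1

def TypeC (T : Tri V) (M : Finset V) (r s t : V) : Prop :=
  Val T M r s t (Fz (M.card + 4)) ∧ ∃ To Ti p q x, IsCut T To Ti p q x ∧ To.F r s t ∧
    ∃ x1 ∈ M, Cor p q x x1 ∧ ∃ Tio Tii a b c, IsCut Ti Tio Tii a b c ∧ Tio.F q p x ∧
      ∃ x2 ∈ M, Cor a b c x2 ∧ x1 ≠ x2 ∧ M.card = (Min M Tii a b c).card + 2

theorem cutEx [Finite V] (T : Tri V) : CutEx T := fun _ _ _ h _ _ _ hs => sep_cut hs h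

theorem type_val {T : Tri V} {M : Finset V} {r s t : V}
    (h : TypeA T M r s t ∨ TypeB T M r s t ∨ TypeC T M r s t) :
    Val T M r s t (Fz (M.card + 4)) := by
  have h0 : (0 : ℝ) ≤ M.card := Nat.cast_nonneg _
  rcases h with h | h | h
  · exact Val.mono h (Fz_mono (by linarith) (by linarith))
  · exact Val.mono h.1 (Fz_mono (by linarith) (by linarith))
  · exact h.1

/-- the marks inside the inner triangle, counted in `Ti` or in `T` -/
theorem min_min {T To Ti Tio Tii : Tri V} {p q x a b c : V} {M : Finset V}
    (h : IsCut T To Ti p q x) (h2 : IsCut Ti Tio Tii a b c) (hr2 : Tio.F q p x) :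
    Min (Min M Ti p q x) Tii a b c = Min M Tii a b c := by
  ext v
  rw [mem_Min, mem_Min, mem_Min]
  constructor
  · rintro ⟨⟨h1, -⟩, h3⟩
    exact ⟨h1, h3⟩
  · rintro ⟨h1, h3⟩
    exact ⟨⟨h1, ins_ins h h2 hr2 h3⟩, h3⟩

/-- if there is no separating triangle: all neighbours of a mark are root vertices -/
theorem nbrs_root [Finite V] {T : Tri V} {M : Finset V} {r s t : V} (hD : Dat T M r s t)
    (hR : Red T M r s t) (hno : ∀ a b c, ¬ Sep T a b c) {x : V} (hx : x ∈ M) :
    ∀ u, T.Adj x u → Cor r s t u := by
  intro u hu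
  rcases hR.r2 with h | h
  · -- at most four vertices
    by_contra hc
    classical
    have hsub : (({u, x, r, s, t} : Finset V) : Set V) ⊆ {v | T.Supp v} := by
      intro w hw
      simp only [Finset.coe_insert, Finset.coe_singleton, Set.mem_insert_iff,
        Set.mem_singleton_iff] at hw
      rcases hw with rfl | rfl | rfl | rfl | rfl
      · exact hu.symm.supp
      · exact hu.supp
      · exact supp1 hD.root
      · exact supp2 hD.root
      · exact supp3 hD.root
    have hn := Tri_ne hD.root
    have hxc := hD.out x hx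
    have hcard : ({u, x, r, s, t} : Finset V).card = 5 := by
      rw [Finset.card_insert_of_notMem, Finset.card_insert_of_notMem,
        Finset.card_insert_of_notMem, Finset.card_insert_of_notMem, Finset.card_singleton]
      · simpa using hn.2.1
      · simp only [Finset.mem_insert, Finset.mem_singleton, not_or]
        exact ⟨hn.1, hn.2.2.symm⟩
      · simp only [Finset.mem_insert, Finset.mem_singleton, not_or]
        exact ⟨fun e => hxc (Or.inl e), fun e => hxc (Or.inr (Or.inl e)),
          fun e => hxc (Or.inr (Or.inr e))⟩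
      · simp only [Finset.mem_insert, Finset.mem_singleton, not_or]
        exact ⟨hu.ne.symm, fun e => hc (Or.inl e), fun e => hc (Or.inr (Or.inl e)),
          fun e => hc (Or.inr (Or.inr e))⟩
    have h1 := Set.ncard_le_ncard hsub (Set.toFinite _)
    rw [Set.ncard_coe_finset, hcard] at h1
    unfold nv at h
    omega
  · obtain ⟨v, hv⟩ := hu
    rcases h x hx u v hv with h1 | ⟨z, hz⟩
    · exact h1.1
    · exact absurd hz (hno _ _ _)

open Classical in
/-- the marks are inside some triangle or own marks -/
theorem card_split {T T' : Tri V} {r s t : V} {n : ℕ} {p q x : Fin n → V}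
    {Ti : Fin n → Tri V} (M : Finset V) :
    M.card ≤ (∑ i, (Min M (Ti i) (p i) (q i) (x i)).card) +
      (M.filter fun v => ∀ i, ¬ Ins (Ti i) (p i) (q i) (x i) v).card := by
  have h1 : M ⊆ (Finset.univ.biUnion fun i => Min M (Ti i) (p i) (q i) (x i)) ∪
      (M.filter fun v => ∀ i, ¬ Ins (Ti i) (p i) (q i) (x i) v) := by
    intro v hv
    rw [Finset.mem_union, Finset.mem_biUnion, Finset.mem_filter]
    by_cases h : ∀ i, ¬ Ins (Ti i) (p i) (q i) (x i) v
    · exact Or.inr ⟨hv, h⟩
    · left
      by_contra h2
      refine h fun i hi => h2 ⟨i, Finset.mem_univ i, mem_Min.2 ⟨hv, hi⟩⟩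
  refine (Finset.card_le_card h1).trans ((Finset.card_union_le _ _).trans ?_)
  exact Nat.add_le_add_right Finset.card_biUnion_le _

/-- the annulus lemma, the mark may be any corner of the outer triangle -/
theorem annulus_any [Finite V] {T To1 Ti' Tio Tii : Tri V} {M : Finset V}
    {a b c a' b' c' r s t x1 : V} {k : ℝ} (h14 : IsCut T To1 Ti' a b c)
    (h8 : IsCut Ti' Tio Tii a' b' c') (h15 : To1.F r s t) (h9 : Tio.F b a c) (hx1M : x1 ∈ M)
    (h6 : Cor a b c x1) (hroot : ∀ d, Cor r s t d → ¬ St T x1 d)
    (hPhi : ∀ d, Cor a' b' c' d → ¬ St T x1 d)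
    (h3 : Val Tii (Min M Tii a' b' c') b' a' c' k) : Val T M r s t (k + 1) := by
  have hm : ∀ v ∈ Min M Tii a' b' c', v ∈ M ∧ Tii.Supp v := fun v hv =>
    ⟨(mem_Min.1 hv).1, (mem_Min.1 hv).2.1⟩
  rcases h6 with rfl | rfl | rfl
  · exact annulus h14.rot.cut h8.cut h15 (Tio.cyc2 h9) hx1M hroot hPhi hm h3.swap
  · exact annulus h14.rot.rot.cut h8.cut h15 (Tio.cyc _ _ _ h9) hx1M hroot hPhi hm h3.swap
  · exact annulus h14.cut h8.cut h15 h9 hx1M hroot hPhi hm h3.swap

/-- an edge which is in no separating triangle can be contracted -/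
theorem contr_ex [Finite V] (T : Tri V) {u v x : V} (h1 : T.F u v x)
    (hsep : ∀ z, ¬ Sep T u v z) (hn : 4 ≤ nv T) : ∃ T', IsContr T T' u v := by
  obtain ⟨y, hy⟩ := T.opp _ _ _ h1
  obtain ⟨w, hw, hw'⟩ := exists_fourth hn u v x
  have key : ∀ z, T.Adj u z → T.Adj v z → z = x ∨ z = y := by
    intro z hz hz'
    by_contra h2
    exact hsep z ⟨adj12 h1, hz', hz.symm, fun h3 => h2 (Or.inl (T.uniq _ _ _ _ h3 h1)),
      fun h3 => h2 (Or.inr (T.uniq _ _ _ _ h3 hy))⟩
  obtain ⟨T', h, -, -⟩ := P4.Tri.contr_exists T h1 hy key hw (fun e => hw' (Or.inl e))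
    (fun e => hw' (Or.inr (Or.inl e))) (fun e => hw' (Or.inr (Or.inr e)))
  exact ⟨T', h⟩

/-- STEP B in the form of the main induction -/
theorem stepB' [Finite V] {T : Tri V} (hn : 4 ≤ nv T) {M : Finset V} {r s t x u v : V}
    (hD : Dat T M r s t) (hx : x ∈ M) (hF : T.F x u v) (hnc : ¬ (Cor r s t u ∧ Cor r s t v))
    (hsep : ∀ z, ¬ Sep T u v z) {k : ℝ}
    (ih : ∀ T', nv T' < nv T → Dat T' M r s t → Val T' M r s t k) : Val T M r s t k := by
  by_cases hv : Cor r s t v
  · have hu : ¬ Cor r s t u := fun h => hnc ⟨h, hv⟩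
    obtain ⟨y, hy⟩ := T.opp _ _ _ (T.cyc _ _ _ hF)
    have hsep' : ∀ z, ¬ Sep T v u z := fun z hz => hsep z (Sep.swap1 hz)
    obtain ⟨T', hT'⟩ := contr_ex T hy hsep' hn
    have huv := adj12 hy
    exact stepB hT' huv hn hD hx (adj31 hF).symm (adj12 hF) hu
      (ih T' (hT'.nv_lt huv hn) (dat_contr hT' huv hn hD hx (adj31 hF).symm (adj12 hF) hu))
  · obtain ⟨T', hT'⟩ := contr_ex T (T.cyc _ _ _ hF) hsep hn
    have huv := adj23 hF
    exact stepB hT' huv hn hD hx (adj12 hF) (adj31 hF).symm hv
      (ih T' (hT'.nv_lt huv hn) (dat_contr hT' huv hn hD hx (adj12 hF) (adj31 hF).symm hv))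

/-- the connectivity used in STEP A -/
theorem con_two [Finite V] (T : Tri V) (y w : V) : Con T.Adj {v | T.Supp v ∧ v ≠ y ∧ v ≠ w} := by
  have h := con_del2 T y w
  have e : {v | T.Supp v ∧ v ≠ y ∧ v ≠ w} = W T \ {y, w} := by
    ext v
    simp only [Set.mem_sdiff, Set.mem_insert_iff, Set.mem_singleton_iff, not_or, W,
      Set.mem_setOf_eq]
  rw [e]
  exact h

/-- THE MAIN INDUCTION -/
theorem types [Finite V] (hI : P1.ThmI) (n : ℕ) : ∀ (T : Tri V) (M : Finset V) (r s t : V), nv T = n →
    Dat T M r s t → M.Nonempty →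
    (Val T M r s t (Fz (M.card + 4)) ∧
      (Red T M r s t → TypeA T M r s t ∨ TypeB T M r s t ∨ TypeC T M r s t)) := by
  induction n using Nat.strong_induction_on with
  | _ n ih =>
  intro T M r s t hn hD hM
  -- the reduced case
  have hred : Red T M r s t → TypeA T M r s t ∨ TypeB T M r s t ∨ TypeC T M r s t := by
    intro hR
    by_cases hno : ∀ a b c, ¬ Sep T a b c
    · left
      obtain ⟨x, hx⟩ := hM
      obtain ⟨h1, h2⟩ := base hD hx (nbrs_root hD hR hno hx)
      unfold TypeA
      rw [h1]
      have h3 : ((1 : ℕ) : ℝ) + 6 = 7 := by norm_num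
      rw [h3, Fz_seven]
      exact h2
    · have hsep : ∃ a b c, Sep T a b c := by
        by_contra h1
        exact hno fun a b c h2 => h1 ⟨a, b, c, h2⟩
      obtain ⟨T', N, p, q, x, Ti, hN, hT⟩ := torso_exists T hD.root hsep
      by_cases hN1 : N = 1
      · -- one triangle
        subst hN1
        obtain ⟨A, hcut, hA⟩ := hT.cut 0
        have hRi := red_in (cutEx T) hD.root hcut hA hR
        have hDi := dat_in hcut hD
        obtain ⟨v0, hv0, hv0'⟩ := hR.r1 A (Ti 0) _ _ _ hcut hA
        have hMi : (Min M (Ti 0) (p 0) (q 0) (x 0)).Nonempty := ⟨v0, mem_Min.2 ⟨hv0, hv0'⟩⟩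
        have hlt := hcut.nv_lt'
        have IH := (ih _ (hn ▸ hlt) (Ti 0) _ _ _ _ rfl hDi hMi).2 hRi
        -- the value of the inner part is inherited
        have hval : ∀ k, Val (Ti 0) (Min M (Ti 0) (p 0) (q 0) (x 0)) (q 0) (p 0) (x 0) k →
            Val T M r s t k := by
          intro k hk c hc σ hσ
          obtain ⟨side, h1, h2, h3, B, h4, h5⟩ := torso_wf hI hT (fun _ => 1) (fun _ => k)
            (fun _ => zero_le_one) (fun i => by
              have : i = 0 := Subsingleton.elim _ _
              rw [this]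
              exact hk) c hc σ hσ
          refine ⟨side, h1, h2, h3, ?_⟩
          have h6 : B.card = 1 := by
            have h7 : B.card ≤ 1 := (Finset.card_le_univ B).trans (by simp)
            have h8 : B.card ≠ 0 := by
              intro h9
              rw [Finset.card_eq_zero] at h9
              rw [h9] at h4
              simp at h4
              norm_num at h4
            omega
          rw [Finset.sum_const, h6, one_smul] at h5
          exact h5
        have hown : ∀ v ∈ M, ¬ Ins (Ti 0) (p 0) (q 0) (x 0) v → Cor (p 0) (q 0) (x 0) v :=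
          fun v hv hv' => hT.count_b hD hR hv ((hT.supp_ins (hD.supp v hv)).1 fun i => by
            rw [Subsingleton.elim i 0]
            exact hv')
        by_cases hO : ∀ v ∈ M, Ins (Ti 0) (p 0) (q 0) (x 0) v
        · -- no own mark
          have hMM : Min M (Ti 0) (p 0) (q 0) (x 0) = M := by
            ext v
            rw [mem_Min]
            exact ⟨fun h => h.1, fun h => ⟨h, hO v h⟩⟩
          rw [hMM] at IH hval
          rcases IH with h1 | h1 | h1
          · exact Or.inl (hval _ h1)
          · obtain ⟨h2, To', Ti', a, b, c, h3, h4, ⟨x1, h5, h6⟩, h7⟩ := h1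
            obtain ⟨To1, h8, h9⟩ := cut_comp_ex (cutEx T r s t hD.root) hD.root hcut hA h3 h4
            exact Or.inr (Or.inl ⟨hval _ h2, To1, Ti', a, b, c, h8, h9, ⟨x1, h5, h6⟩, h7⟩)
          · obtain ⟨h2, To', Ti', a, b, c, h3, h4, x1, h5, h6, h7⟩ := h1
            obtain ⟨To1, h8, h9⟩ := cut_comp_ex (cutEx T r s t hD.root) hD.root hcut hA h3 h4
            exact Or.inr (Or.inr ⟨hval _ h2, To1, Ti', a, b, c, h8, h9, x1, h5, h6, h7⟩)
        · -- one own mark
          obtain ⟨x0, hx0, hx0'⟩ : ∃ v ∈ M, ¬ Ins (Ti 0) (p 0) (q 0) (x 0) v := by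
            by_contra h1
            exact hO fun v hv => by
              by_contra h2
              exact h1 ⟨v, hv, h2⟩
          have hx0c := hown x0 hx0 hx0'
          have hcard : M.card = (Min M (Ti 0) (p 0) (q 0) (x 0)).card + 1 := by
            classical
            have h1 : M = insert x0 (Min M (Ti 0) (p 0) (q 0) (x 0)) := by
              ext v
              rw [Finset.mem_insert, mem_Min]
              constructor
              · intro hv
                by_cases h2 : Ins (Ti 0) (p 0) (q 0) (x 0) v
                · exact Or.inr ⟨hv, h2⟩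
                · left
                  by_contra h3
                  exact hD.far.not_adj hv hx0
                    (hcut.adjO (Cor.adj hcut.fo (hown v hv h2) hx0c h3))
              · rintro (rfl | h2)
                · exact hx0
                · exact h2.1
            conv_lhs => rw [h1]
            rw [Finset.card_insert_of_notMem]
            intro h2
            exact hx0' (mem_Min.1 h2).2
          have hcR : (M.card : ℝ) = (Min M (Ti 0) (p 0) (q 0) (x 0)).card + 1 := by
            rw [hcard]; push_cast; ring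
          rcases IH with h1 | h1 | h1
          · right; left
            refine ⟨hval _ ?_, A, Ti 0, p 0, q 0, x 0, hcut, hA, ⟨x0, hx0, hx0c⟩, hcard⟩
            have h2 : (M.card : ℝ) + 5 = (Min M (Ti 0) (p 0) (q 0) (x 0)).card + 6 := by
              rw [hcR]; ring
            rw [h2]
            exact h1
          · right; right
            obtain ⟨h2, To', Ti', a, b, c, h3, h4, ⟨x1, h5, h6⟩, h7⟩ := h1
            refine ⟨hval _ ?_, A, Ti 0, p 0, q 0, x 0, hcut, hA, x0, hx0, hx0c, To', Ti', a, b, c,
              h3, h4, x1, (mem_Min.1 h5).1, h6, ?_, ?_⟩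
            · have h8 : (M.card : ℝ) + 4 = (Min M (Ti 0) (p 0) (q 0) (x 0)).card + 5 := by
                rw [hcR]; ring
              rw [h8]
              exact h2
            · rintro rfl
              exact hx0' (mem_Min.1 h5).2
            · rw [min_min hcut h3 h4] at h7
              omega
          · left
            obtain ⟨h2, To', Ti', a, b, c, h3, h4, x1, h5, h6, Tio, Tii, a', b', c', h8, h9, x2,
              h10, h11, h12, h13⟩ := h1
            obtain ⟨hx1M, hx1I⟩ := mem_Min.1 h5
            obtain ⟨hx2M, hx2I⟩ := mem_Min.1 h10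
            -- the first triangle is separating in `T`
            obtain ⟨To1, h14, h15⟩ := cut_comp_ex (cutEx T r s t hD.root) hD.root hcut hA h3 h4
            -- the second triangle is separating in `T`
            obtain ⟨To2, h16, h17⟩ := cut_comp_ex (cutEx T r s t hD.root) hD.root h14 h15 h8 h9
            have hm0 : Min (Min M (Ti 0) (p 0) (q 0) (x 0)) Tii a' b' c' = Min M Tii a' b' c' := by
              ext v
              rw [mem_Min, mem_Min, mem_Min]
              constructor
              · rintro ⟨⟨e1, -⟩, e3⟩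
                exact ⟨e1, e3⟩
              · rintro ⟨e1, e3⟩
                exact ⟨⟨e1, ins_ins hcut h3 h4 (ins_ins h3 h8 h9 e3)⟩, e3⟩
            rw [hm0] at h13
            -- marks in the innermost part
            obtain ⟨v1, hv1, hv1'⟩ := hR.r1 To2 Tii a' b' c' h16 h17
            have hD3 : Dat Tii (Min M Tii a' b' c') b' a' c' := dat_in h16 hD
            have hM3 : (Min M Tii a' b' c').Nonempty := ⟨v1, mem_Min.2 ⟨hv1, hv1'⟩⟩
            have hlt3 := h16.nv_lt'
            have IH3 := (ih _ (hn ▸ hlt3) Tii _ _ _ _ rfl hD3 hM3).1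
            -- the star of `x1` is inside the big triangle
            have hstar : ∀ d, St T x1 d → Ins (Ti 0) (p 0) (q 0) (x 0) d := by
              intro d hd
              rcases hd with rfl | hd
              · exact hx1I
              · have e1 := hcut.adj_ins hx1I hd
                by_contra e2
                have e3 : Cor (p 0) (q 0) (x 0) d := by
                  by_contra e4
                  exact e2 ⟨e1.symm.supp, fun e => e4 (Or.inl e), fun e => e4 (Or.inr (Or.inl e)),
                    fun e => e4 (Or.inr (Or.inr e))⟩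
                have e4 : St T x0 d := by
                  by_cases e5 : d = x0
                  · exact Or.inl e5
                  · exact Or.inr (hcut.adjO (Cor.adj hcut.fo hx0c e3 (Ne.symm e5)))
                have e5 : x0 ≠ x1 := by
                  rintro rfl
                  exact hx0' hx1I
                exact (hD.far x0 hx0 x1 hx1M e5 d d e4 (Or.inr hd)).1 rfl
            have hroot : ∀ d, Cor r s t d → ¬ St T x1 d := by
              intro d hd hd'
              exact (hcut.ins_iff.1 (hstar d hd')).2 (Cor.supp hA hd)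
            have hPhi : ∀ d, Cor a' b' c' d → ¬ St T x1 d := by
              intro d hd hd'
              have e4 : St T x2 d := by
                by_cases e5 : d = x2
                · exact Or.inl e5
                · exact Or.inr (h16.adjO (Cor.adj h16.fo h11 hd (Ne.symm e5)))
              exact (hD.far x1 hx1M x2 hx2M h12 d d hd' e4).1 rfl
            have hv := annulus_any h14 h8 h15 h9 hx1M h6 hroot hPhi IH3
            refine Val.mono hv ?_
            have e6 : (M.card : ℝ) = (Min M Tii a' b' c').card + 3 := by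
              rw [hcR, h13]
              push_cast
              ring
            have e7 : (M.card : ℝ) + 6 = ((Min M Tii a' b' c').card + 4) + 5 := by
              rw [e6]
              ring
            rw [e7]
            exact Fz_add_five (by positivity)
      · -- at least two triangles
        have hN2 : 2 ≤ N := by omega
        left
        have hk : ∀ i, Val (Ti i) (Min M (Ti i) (p i) (q i) (x i)) (q i) (p i) (x i)
            (Fz ((Min M (Ti i) (p i) (q i) (x i)).card + 4)) := by
          intro i
          obtain ⟨A, hcut, hA⟩ := hT.cut i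
          have hDi := dat_in hcut hD
          obtain ⟨v0, hv0, hv0'⟩ := hR.r1 A (Ti i) _ _ _ hcut hA
          have hMi : (Min M (Ti i) (p i) (q i) (x i)).Nonempty := ⟨v0, mem_Min.2 ⟨hv0, hv0'⟩⟩
          have hlt := hcut.nv_lt'
          exact (ih _ (hn ▸ hlt) (Ti i) _ _ _ _ rfl hDi hMi).1
        intro c hc σ hσ
        obtain ⟨side, h1, h2, h3, B, h4, h5⟩ := torso_wf hI hT
          (fun i => ((Min M (Ti i) (p i) (q i) (x i)).card : ℝ) + 4) _ (fun i => by positivity)
          hk c hc σ hσ
        refine ⟨side, h1, h2, h3, le_trans ?_ h5⟩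
        refine le_trans ?_ (Fz_sum Finset.univ B _ (fun i _ => by positivity)
          (Finset.subset_univ B) h4)
        refine Fz_mono (by positivity) ?_
        have h6 := card_split (T := T) (T' := T') (r := r) (s := s) (t := t) (p := p) (q := q)
          (x := x) (Ti := Ti) M
        have h7 := torso_count_a hT hN hD hR
        have h8 : M.card + 6 ≤ (∑ i, (Min M (Ti i) (p i) (q i) (x i)).card) + 4 * N := by omega
        have h9 : (∑ i, (((Min M (Ti i) (p i) (q i) (x i)).card : ℝ) + 4)) =
            ((∑ i, (Min M (Ti i) (p i) (q i) (x i)).card : ℕ) : ℝ) + 4 * N := by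
          rw [Finset.sum_add_distrib, Finset.sum_const, Finset.card_univ, Fintype.card_fin]
          push_cast
          rw [nsmul_eq_mul]
          ring
        rw [h9]
        exact_mod_cast h8
  refine ⟨?_, hred⟩
  by_cases hR : Red T M r s t
  · exact type_val (hred hR)
  · have ih' : ∀ T', nv T' < nv T → Dat T' M r s t → Val T' M r s t (Fz (M.card + 4)) :=
      fun T' h1 h2 => (ih _ (hn ▸ h1) T' M r s t rfl h2 hM).1
    by_cases h1 : ∀ To Ti p q x, IsCut T To Ti p q x → To.F r s t → ∃ v ∈ M, Ins Ti p q x v
    · have h2 : ¬ (nv T ≤ 4 ∨ ∀ x ∈ M, ∀ u v, T.F x u v →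
          (Cor r s t u ∧ Cor r s t v) ∨ ∃ z, Sep T u v z) := fun h2 => hR ⟨h1, h2⟩
      have h3 : 4 ≤ nv T := by
        by_contra h4
        exact h2 (Or.inl (by omega))
      by_contra hcon
      refine h2 (Or.inr fun x hx u v hF => ?_)
      by_contra h4
      refine hcon (stepB' h3 hD hx hF (fun h5 => h4 (Or.inl h5)) (fun z hz => ?_) ih')
      exact h4 (Or.inr ⟨z, hz⟩)
    · by_contra hcon
      refine h1 fun To Ti p q x hcut hr => ?_
      by_contra h2
      have h3 : ∀ v ∈ M, ¬ Ins Ti p q x v := fun v hv hv' => h2 ⟨v, hv, hv'⟩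
      exact hcon (stepA hcut hD hr h3 (con_two Ti) (ih' To hcut.nv_lt (dat_out hcut hD hr h3)))

/-- THEOREM III -/
theorem thmIII (hI : P1.ThmI) [Finite V] {T : Tri V} {M : Finset V} {r s t : V} (hD : Dat T M r s t)
    (hM : M.Nonempty) : Val T M r s t (Fz (M.card + 4)) := (types hI _ T M r s t rfl hD hM).1

end P3
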