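import Pool.Agent.Lib_MP_b306af.P3Nest
import Pool.Agent.Lib_MP_b306af.P3TorsoDef

/-!
# MP_b306af, Part III: the torso (Lemma 2)

`Torso T T' r s t n p q x Ti` : `T'` has no separating triangles and is obtained from `T` by emptying
the `n` separating triangles `(p i, q i, x i)` with inner parts `Ti i`.
-/

set_option autoImplicit false

namespace P3

open P4

variable {V : Type}

theorem te_adj {T : Tri V} {p q x a b : V} (h1 : T.Adj p q) (h2 : T.Adj q x) (h3 : T.Adj x p)
    (h : TE p q x a b) : T.Adj a b := by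
  rcases h with ⟨rfl, rfl⟩ | ⟨rfl, rfl⟩ | ⟨rfl, rfl⟩ | ⟨rfl, rfl⟩ | ⟨rfl, rfl⟩ | ⟨rfl, rfl⟩
  · exact h1
  · exact h1.symm
  · exact h2
  · exact h2.symm
  · exact h3
  · exact h3.symm

theorem te_of_corners {p q x a b : V} (ha : a = p ∨ a = q ∨ a = x) (hb : b = p ∨ b = q ∨ b = x)
    (hab : a ≠ b) : TE p q x a b := by
  unfold TE
  rcases ha with rfl | rfl | rfl <;> rcases hb with rfl | rfl | rfl <;> tauto

namespace Torso

variable {T T' : Tri V} {r s t : V} {n : ℕ} {p q x : Fin n → V} {Ti : Fin n → Tri V}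

theorem adjT (h : Torso T T' r s t n p q x Ti) {a b : V} (hab : T'.Adj a b) : T.Adj a b := by
  obtain ⟨c, hc⟩ := hab
  by_cases h1 : ∀ i, ¬ Cyc3 (p i) (q i) (x i) a b c
  · exact ⟨c, (h.split _ _ _).mpr (Or.inl ⟨hc, h1⟩)⟩
  · push Not at h1
    obtain ⟨i, hi⟩ := h1
    obtain ⟨A, hA, _⟩ := h.cut i
    obtain ⟨k1, k2, k3⟩ := hA.cut.adjs
    exact te_adj k1 k2 k3 (cyc3_te hi)

theorem adjI (h : Torso T T' r s t n p q x Ti) (i : Fin n) {a b : V} (hab : (Ti i).Adj a b) :
    T.Adj a b := by
  obtain ⟨A, hA, _⟩ := h.cut i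
  exact hA.cut.adj_i hab

theorem suppT (h : Torso T T' r s t n p q x Ti) {v : V} (hv : T'.Supp v) : T.Supp v := by
  obtain ⟨b, c, hc⟩ := hv
  exact (h.adjT ⟨c, hc⟩).supp

theorem suppI (h : Torso T T' r s t n p q x Ti) (i : Fin n) {v : V} (hv : (Ti i).Supp v) :
    T.Supp v := by
  obtain ⟨b, c, hc⟩ := hv
  exact (h.adjI i ⟨c, hc⟩).supp

theorem suppOr (h : Torso T T' r s t n p q x Ti) {v : V} (hv : T.Supp v) :
    T'.Supp v ∨ ∃ i, (Ti i).Supp v := by
  obtain ⟨b, c, hc⟩ := hv
  rcases (h.split _ _ _).mp hc with h1 | ⟨i, h1⟩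
  · exact Or.inl ⟨b, c, h1.1⟩
  · exact Or.inr ⟨i, b, c, h1.1⟩

/-- corners of the emptied triangles are vertices of the torso -/
theorem cornerBoth (h : Torso T T' r s t n p q x Ti) (i : Fin n) {v : V}
    (hv : v = p i ∨ v = q i ∨ v = x i) : T'.Supp v ∧ (Ti i).Supp v := by
  obtain ⟨A, hA, _⟩ := h.cut i
  have h1 := F_adj (h.face i)
  have h2 := F_adj hA.fi
  rcases hv with e | e | e
  · rw [e]
    exact ⟨h1.1.supp, h2.2.1.supp⟩
  · rw [e]
    exact ⟨h1.2.1.supp, h2.1.supp⟩
  · rw [e]
    exact ⟨h1.2.2.supp, h2.2.2.supp⟩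

theorem insNot (h : Torso T T' r s t n p q x Ti) {i : Fin n} {v : V}
    (hv : Ins (Ti i) (p i) (q i) (x i) v) : ¬ T'.Supp v := by
  intro h1
  rcases h.common i v h1 hv.1 with e | e | e
  · exact hv.2.1 e
  · exact hv.2.2.1 e
  · exact hv.2.2.2 e

/-- adjacency in the torso -/
theorem adjBack (h : Torso T T' r s t n p q x Ti) {a b : V} (hab : T.Adj a b) (ha : T'.Supp a)
    (hb : T'.Supp b) : T'.Adj a b := by
  obtain ⟨c, hc⟩ := hab
  rcases (h.split _ _ _).mp hc with h1 | ⟨i, h1⟩
  · exact ⟨c, h1.1⟩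
  · have e1 := h.common i a ha (F_adj h1.1).1.supp
    have e2 := h.common i b hb (F_adj h1.1).2.1.supp
    obtain ⟨k1, k2, k3⟩ := F_adj (h.face i)
    exact te_adj k1 k2 k3 (te_of_corners e1 e2 (T.ne _ _ _ hc))

/-- a neighbour of an inner vertex of `Ti i` is a vertex of `Ti i` -/
theorem adjIns (h : Torso T T' r s t n p q x Ti) {i : Fin n} {v b : V} (hvi : (Ti i).Supp v)
    (hv : ¬ T'.Supp v) (hvb : T.Adj v b) : (Ti i).Supp b := by
  obtain ⟨c, hc⟩ := hvb
  rcases (h.split _ _ _).mp hc with h1 | ⟨j, h1⟩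
  · exact absurd ⟨b, c, h1.1⟩ hv
  · by_cases hij : i = j
    · rw [hij]
      exact (F_adj h1.1).2.1.supp
    · exact absurd (h.disj i j hij v hvi (F_adj h1.1).1.supp) hv

end Torso

theorem four_in_three {a b c d p q x : V} (hab : a ≠ b) (hac : a ≠ c) (had : a ≠ d) (hbc : b ≠ c)
    (hbd : b ≠ d) (hcd : c ≠ d) (ha : a = p ∨ a = q ∨ a = x) (hb : b = p ∨ b = q ∨ b = x)
    (hc : c = p ∨ c = q ∨ c = x) (hd : d = p ∨ d = q ∨ d = x) : False := by
  rcases ha with rfl | rfl | rfl <;> rcases hb with rfl | rfl | rfl <;>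
    rcases hc with rfl | rfl | rfl <;> rcases hd with rfl | rfl | rfl <;> tauto

theorem nv_lt_of [Finite V] {A B : Tri V} (h : ∀ v, A.Supp v → B.Supp v)
    (h' : ∃ v, B.Supp v ∧ ¬ A.Supp v) : nv A < nv B := by
  obtain ⟨v, h1, h2⟩ := h'
  exact Set.ncard_lt_ncard ⟨h, fun h3 => h2 (h3 h1)⟩ (Set.toFinite _)

theorem IsCut.nv_o [Finite V] {T To Ti : Tri V} {p q x : V} (h : IsCut T To Ti p q x) :
    nv To < nv T := by
  obtain ⟨v, hv, h1, h2, h3⟩ := h.ini
  refine nv_lt_of (fun w hw => (h.cut.supp_iff w).mpr (Or.inl hw))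
    ⟨v, (h.cut.supp_iff v).mpr (Or.inr hv), fun hvo => ?_⟩
  rcases h.supp v hvo hv with e | e | e
  · exact h1 e
  · exact h2 e
  · exact h3 e

theorem IsCut.nv_i [Finite V] {T To Ti : Tri V} {p q x : V} (h : IsCut T To Ti p q x) :
    nv Ti < nv T := h.symm.nv_o

/-- LEMMA 2 -/
theorem torso_exists [Finite V] (T : Tri V) {r s t : V} (hr : T.F r s t)
    (hs : ∃ a b c, Sep T a b c) :
    ∃ (T' : Tri V) (n : ℕ) (p q x : Fin n → V) (Ti : Fin n → Tri V), 0 < n ∧
      Torso T T' r s t n p q x Ti := by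
  obtain ⟨N, hN⟩ : ∃ N, N = nv T := ⟨_, rfl⟩
  induction N using Nat.strong_induction_on generalizing T with
  | _ N ih =>
    -- the cut with the largest inner part
    obtain ⟨S, hS⟩ : ∃ S : Set ℕ, S = {m | ∃ To Ti p q x, IsCut T To Ti p q x ∧ To.F r s t ∧
      nv Ti = m} := ⟨_, rfl⟩
    have memS : ∀ m, m ∈ S ↔ ∃ To Ti p q x, IsCut T To Ti p q x ∧ To.F r s t ∧ nv Ti = m := by
      intro m
      rw [hS]
      rfl
    have hne : S.Nonempty := by
      obtain ⟨a, b, c, hsep⟩ := hs
      obtain ⟨To, Ti, h1, h2⟩ := sep_cut hsep hr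
      rcases h1 with h1 | h1
      · exact ⟨nv Ti, (memS _).mpr ⟨To, Ti, a, b, c, h1, h2, rfl⟩⟩
      · exact ⟨nv Ti, (memS _).mpr ⟨To, Ti, b, a, c, h1, h2, rfl⟩⟩
    have hbd : BddAbove S := by
      refine ⟨nv T, fun m hm => ?_⟩
      obtain ⟨To, Ti, p, q, x, h1, _, h3⟩ := (memS m).mp hm
      rw [← h3]
      exact h1.nv_i.le
    obtain ⟨To, Ti, p, q, x, h, hro, hmax'⟩ := (memS _).mp (Nat.sSup_mem hne hbd)
    have hmax : ∀ To' Ti' p' q' x', IsCut T To' Ti' p' q' x' → To'.F r s t → nv Ti' ≤ nv Ti := by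
      intro To' Ti' p' q' x' h1 h2
      rw [hmax']
      exact le_csSup hbd ((memS _).mpr ⟨To', Ti', p', q', x', h1, h2, rfl⟩)
    by_cases hsep : ∃ a b c, Sep To a b c
    · obtain ⟨T', m, p', q', x', Ti', hm, hT⟩ := ih (nv To) (by rw [hN]; exact h.nv_o) To hro hsep rfl
      -- the face `p q x` of `To` is not inside one of the triangles
      have claim2 : ∀ j, (Ti' j).F p q x → Cyc3 (q' j) (p' j) (x' j) p q x := by
        intro j hj
        by_contra hn
        obtain ⟨C, hC, hrC⟩ := hT.cut j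
        obtain ⟨B, hB, hB'⟩ := cut_nest h.cut hC.symm.cut hj hn
        have hB2 : IsCut T C B (p' j) (q' j) (x' j) := by
          obtain ⟨v, hv, v1, v2, v3⟩ := hC.ini
          exact ⟨hB.Fi, hB.Fo, hB.symm.split, hB.symm.common, hC.ino,
            ⟨v, (hB'.supp_iff v).mpr (Or.inl hv), v1, v2, v3⟩⟩
        have h1 := hmax C B _ _ _ hB2 hrC
        have h2 : nv Ti < nv B := by
          refine nv_lt_of (fun w hw => (hB'.supp_iff w).mpr (Or.inr hw)) ?_
          by_contra hno
          push Not at hno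
          have hcor : ∀ v, (Ti' j).Supp v → v = p ∨ v = q ∨ v = x := fun v hv =>
            h.supp v ((hC.cut.supp_iff v).mpr (Or.inr hv))
              (hno v ((hB'.supp_iff v).mpr (Or.inl hv)))
          obtain ⟨v, hv, v1, v2, v3⟩ := hC.ini
          have ne := F_ne hC.fo
          obtain ⟨k1, k2, k3⟩ := hC.cut.corners_i
          exact four_in_three ne.1 ne.2.2.symm v1.symm ne.2.1 v2.symm v3.symm (hcor _ k1)
            (hcor _ k2) (hcor _ k3) (hcor _ hv)
        omega
      have claim : T'.F p q x ∧ ∀ j, ¬ Cyc3 (p' j) (q' j) (x' j) p q x := by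
        rcases (hT.split p q x).mp h.fo with h1 | ⟨j, h1, h2⟩
        · exact h1
        · exact absurd (claim2 j h1) h2
      refine ⟨T', m + 1, Fin.cons p p', Fin.cons q q', Fin.cons x x', Fin.cons Ti Ti',
        Nat.succ_pos m, ?_, ?_, ?_, ?_, ?_, hT.root, ?_, hT.nosep, ?_⟩
      · -- cut
        intro i
        refine Fin.cases ?_ (fun j => ?_) i
        · simp only [Fin.cons_zero]
          exact ⟨To, h, hro⟩
        · simp only [Fin.cons_succ]
          obtain ⟨C, hC, hrC⟩ := hT.cut j
          have hCF : C.F p q x := by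
            rcases (hC.iff p q x).mp h.fo with h1 | h1
            · exact h1.1
            · exact absurd (claim2 j h1.1) h1.2
          obtain ⟨A, hA, hA'⟩ := cut_nest h.cut hC.cut hCF (claim.2 j)
          obtain ⟨v, hv, v1, v2, v3⟩ := hC.ino
          exact ⟨A, ⟨hA.Fo, hA.Fi, hA.split, hA.common,
            ⟨v, (hA'.supp_iff v).mpr (Or.inl hv), v1, v2, v3⟩, hC.ini⟩,
            (hA'.split _ _ _).mpr (Or.inl ⟨hrC, h.not_new hr⟩)⟩
      · -- face
        intro i
        refine Fin.cases ?_ (fun j => ?_) i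
        · simp only [Fin.cons_zero]
          exact claim.1
        · simp only [Fin.cons_succ]
          exact hT.face j
      · -- split
        intro a b c
        rw [h.iff a b c, hT.split a b c, Fin.forall_fin_succ, Fin.exists_fin_succ]
        simp only [Fin.cons_zero, Fin.cons_succ]
        constructor
        · rintro (⟨h1 | ⟨j, h1⟩, h2⟩ | h1)
          · exact Or.inl ⟨h1.1, h2, h1.2⟩
          · exact Or.inr (Or.inr ⟨j, h1⟩)
          · exact Or.inr (Or.inl h1)
        · rintro (h1 | h1 | ⟨j, h1⟩)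
          · exact Or.inl ⟨Or.inl ⟨h1.1, h1.2.2⟩, h1.2.1⟩
          · exact Or.inr h1
          · refine Or.inl ⟨Or.inr ⟨j, h1⟩, fun h2 => h1.2 ?_⟩
            have h3 := claim2 j (Cyc3.F (cyc3_symm h2) h1.1)
            exact cyc3_trans h3 (cyc3_symm h2)
      · -- common
        intro i
        refine Fin.cases ?_ (fun j => ?_) i
        · simp only [Fin.cons_zero]
          intro v hv hvi
          exact h.supp v (hT.suppT hv) hvi
        · simp only [Fin.cons_succ]
          exact hT.common j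
      · -- disj
        have key : ∀ j v, Ti.Supp v → (Ti' j).Supp v → T'.Supp v := by
          intro j v h1 h2
          have h3 := F_adj claim.1
          rcases h.supp v (hT.suppI j h2) h1 with e | e | e
          · rw [e]
            exact h3.1.supp
          · rw [e]
            exact h3.2.1.supp
          · rw [e]
            exact h3.2.2.supp
        intro i j
        refine Fin.cases ?_ (fun i' => ?_) i
        · refine Fin.cases ?_ (fun j' => ?_) j
          · intro hij
            exact absurd rfl hij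
          · simp only [Fin.cons_zero, Fin.cons_succ]
            intro _ v h1 h2
            exact key j' v h1 h2
        · refine Fin.cases ?_ (fun j' => ?_) j
          · simp only [Fin.cons_zero, Fin.cons_succ]
            intro _ v h1 h2
            exact key i' v h2 h1
          · simp only [Fin.cons_succ]
            intro hij v h1 h2
            exact hT.disj i' j' (fun e => hij (by rw [e])) v h1 h2
      · -- root'
        intro i
        refine Fin.cases ?_ (fun j => ?_) i
        · simp only [Fin.cons_zero]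
          exact h.not_new hr
        · simp only [Fin.cons_succ]
          exact hT.root' j
      · -- inj
        intro i j
        refine Fin.cases ?_ (fun i' => ?_) i
        · refine Fin.cases ?_ (fun j' => ?_) j
          · intro _
            rfl
          · simp only [Fin.cons_zero, Fin.cons_succ]
            intro h1
            exact absurd (cyc3_symm h1) (claim.2 j')
        · refine Fin.cases ?_ (fun j' => ?_) j
          · simp only [Fin.cons_zero, Fin.cons_succ]
            intro h1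
            exact absurd h1 (claim.2 i')
          · simp only [Fin.cons_succ]
            intro h1
            rw [hT.inj i' j' h1]
    · push Not at hsep
      refine ⟨To, 1, fun _ => p, fun _ => q, fun _ => x, fun _ => Ti, Nat.one_pos,
        fun _ => ⟨To, h, hro⟩, fun _ => h.fo, ?_, fun _ => h.supp, ?_, hro,
        fun _ => h.not_new hr, hsep, ?_⟩
      · intro a b c
        rw [h.iff a b c]
        constructor
        · rintro (h1 | h1)
          · exact Or.inl ⟨h1.1, fun _ => h1.2⟩
          · exact Or.inr ⟨0, h1⟩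
        · rintro (h1 | ⟨_, h1⟩)
          · exact Or.inl ⟨h1.1, h1.2 0⟩
          · exact Or.inr h1
      · intro i j hij
        exact absurd (Subsingleton.elim i j) hij
      · intro i j _
        exact Subsingleton.elim i j

end P3
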