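import Pool.Agent.Lib_MP_b306af.P4ZBond1

/-! # MP_b306af Part IV: P4Blast -/

namespace P4

variable {V : Type}

namespace Setup

/- Piece BLAST (P4Bond).  The outer face has exactly one down-dart.
Existence: `o1, o2, o3` contains a vertex with `side = 1` and one with `side = -1 ≠ 1`; going around
there is a dart from an above to a non above vertex (8 cases).  Uniqueness: the outer vertices are
distinct (`T.ne`, `T.cyc` on `hS.h0`), a cyclic sequence of three 0/1 values has at most one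
descent: `IsO` has three cases, in each the sides are determined (9 cases). -/
theorem exists_last (S : Setup V) (hS : S.Good) :
    ∃ u c x, S.IsBond (u, c) ∧ S.T.F u c x ∧ S.IsO u c x ∧
      ∀ u' c' x', S.IsBond (u', c') → S.IsO u' c' x' → u' = u ∧ c' = c := by
  have hF1 := hS.h0
  have hF2 := S.T.cyc _ _ _ hF1
  have hF3 := S.T.cyc2 hF1
  have hne : (1 : SignType) ≠ -1 := by decide
  have hex : (S.side S.o1 = 1 ∧ S.side S.o2 ≠ 1) ∨ (S.side S.o2 = 1 ∧ S.side S.o3 ≠ 1) ∨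
      (S.side S.o3 = 1 ∧ S.side S.o1 ≠ 1) := by
    obtain ⟨v, hv, hv1⟩ := hS.plus0
    obtain ⟨w, hw, hw1⟩ := hS.minus0
    by_cases p1 : S.side S.o1 = 1
    · by_cases p2 : S.side S.o2 = 1
      · by_cases p3 : S.side S.o3 = 1
        · exfalso
          rcases hw with rfl | rfl | rfl
          · exact hne (p1.symm.trans hw1)
          · exact hne (p2.symm.trans hw1)
          · exact hne (p3.symm.trans hw1)
        · exact Or.inr (Or.inl ⟨p2, p3⟩)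
      · exact Or.inl ⟨p1, p2⟩
    · by_cases p3 : S.side S.o3 = 1
      · exact Or.inr (Or.inr ⟨p3, p1⟩)
      · by_cases p2 : S.side S.o2 = 1
        · exact Or.inr (Or.inl ⟨p2, p3⟩)
        · exfalso
          rcases hv with rfl | rfl | rfl
          · exact p1 hv1
          · exact p2 hv1
          · exact p3 hv1
  rcases hex with ⟨h1, h2⟩ | ⟨h1, h2⟩ | ⟨h1, h2⟩
  · refine ⟨S.o1, S.o2, S.o3, ⟨⟨_, hF1⟩, h1, h2⟩, hF1, Or.inl ⟨rfl, rfl, rfl⟩, ?_⟩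
    rintro u' c' x' ⟨-, h3, h4⟩ (⟨rfl, rfl, rfl⟩ | ⟨rfl, rfl, rfl⟩ | ⟨rfl, rfl, rfl⟩)
    · exact ⟨rfl, rfl⟩
    · exact absurd h3 h2
    · exact absurd h1 h4
  · refine ⟨S.o2, S.o3, S.o1, ⟨⟨_, hF2⟩, h1, h2⟩, hF2, Or.inr (Or.inl ⟨rfl, rfl, rfl⟩), ?_⟩
    rintro u' c' x' ⟨-, h3, h4⟩ (⟨rfl, rfl, rfl⟩ | ⟨rfl, rfl, rfl⟩ | ⟨rfl, rfl, rfl⟩)
    · exact absurd h1 h4
    · exact ⟨rfl, rfl⟩
    · exact absurd h3 h2
  · refine ⟨S.o3, S.o1, S.o2, ⟨⟨_, hF3⟩, h1, h2⟩, hF3, Or.inr (Or.inr ⟨rfl, rfl, rfl⟩), ?_⟩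
    rintro u' c' x' ⟨-, h3, h4⟩ (⟨rfl, rfl, rfl⟩ | ⟨rfl, rfl, rfl⟩ | ⟨rfl, rfl, rfl⟩)
    · exact absurd h3 h2
    · exact absurd h1 h4
    · exact ⟨rfl, rfl⟩

end Setup

end P4
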