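import Pool.Agent.Lib_MP_b306af.P4Defs

/-! # MP_b306af Part IV: P4Circ -/

namespace P4

variable {V : Type}

namespace Tri

/- Piece CIRC (P4Basic).  The boundary of a face function is a circulation.
`∑ b, φ a b = ∑ b, φ b a`: both sums may be restricted to the neighbours of `a`
(`h0`, `Adj.symm`).  On the neighbours `b ↦ T.nx a b` is a bijection: injective because
`T.F a b c` and `T.F a b' c` give `T.F c a b`, `T.F c a b'`, so `b = b'` (`T.uniq`); hence also
surjective (finite), or directly: for a neighbour `c` of `a`, `T.F c a b` with `b = T.nx c a`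
gives `T.F a b c`.  And `φ a b = φ c a` for `T.F a b c` (`hφ` twice: `φ a b = φ b c = φ c a`).
So `∑_b φ a b = ∑_b φ (nx a b) a = ∑_c φ c a` (`Finset.sum_bij` or `Finset.sum_nbij'` with
inverse `c ↦ T.nx c a`). -/
theorem circ [Fintype V] (T : Tri V) (φ : V → V → ℝ)
    (hφ : ∀ a b c, T.F a b c → φ a b = φ b c)
    (h0 : ∀ a b, ¬ T.Adj a b → φ a b = 0) (a : V) : ∑ b, (φ a b - φ b a) = 0 := by
  classical
  rw [Finset.sum_sub_distrib, sub_eq_zero]
  have h1 : ∑ b, φ a b = ∑ b ∈ Finset.univ.filter (fun b => T.Adj a b), φ a b := by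
    symm
    refine Finset.sum_subset (Finset.subset_univ _) (fun b _ hb => h0 a b ?_)
    intro h
    exact hb (Finset.mem_filter.2 ⟨Finset.mem_univ _, h⟩)
  have h2 : ∑ b, φ b a = ∑ b ∈ Finset.univ.filter (fun b => T.Adj a b), φ b a := by
    symm
    refine Finset.sum_subset (Finset.subset_univ _) (fun b _ hb => h0 b a ?_)
    intro h
    exact hb (Finset.mem_filter.2 ⟨Finset.mem_univ _, h.symm⟩)
  rw [h1, h2]
  refine Finset.sum_nbij' (fun b => T.nx a b) (fun c => T.nx c a) ?_ ?_ ?_ ?_ ?_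
  · intro b hb
    have hA : T.Adj a b := (Finset.mem_filter.1 hb).2
    have hF := T.F_nx hA
    exact Finset.mem_filter.2 ⟨Finset.mem_univ _, Adj.symm ⟨b, T.cyc2 hF⟩⟩
  · intro c hc
    have hA : T.Adj a c := (Finset.mem_filter.1 hc).2
    have hF := T.F_nx hA.symm
    exact Finset.mem_filter.2 ⟨Finset.mem_univ _, ⟨c, T.cyc _ _ _ hF⟩⟩
  · intro b hb
    have hA : T.Adj a b := (Finset.mem_filter.1 hb).2
    exact T.nx_eq (T.cyc2 (T.F_nx hA))
  · intro c hc
    have hA : T.Adj a c := (Finset.mem_filter.1 hc).2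
    exact T.nx_eq (T.cyc _ _ _ (T.F_nx hA.symm))
  · intro b hb
    have hA : T.Adj a b := (Finset.mem_filter.1 hb).2
    have hF := T.F_nx hA
    rw [hφ _ _ _ hF, hφ _ _ _ (T.cyc _ _ _ hF)]

end Tri

end P4
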