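import Pool.Agent.Lib_MP_b306af.PPDefs

/-! # MP_b306af: local lemmas at a vertex and at an edge, generic directions -/

namespace B306

open Filter Topology

variable {V : Type}

private theorem PPC2_pos {α : ℝ} (β : ℝ) (h : 0 < α) :
    ∀ᶠ ε in 𝓝[>] (0 : ℝ), 0 < α + ε * β := by
  have h1 : ∀ᶠ ε in 𝓝 (0 : ℝ), 0 < α + ε * β := by
    have hc : ContinuousAt (fun ε : ℝ => α + ε * β) 0 := by fun_prop
    refine hc.eventually_mem (isOpen_Ioi.mem_nhds ?_)
    show 0 < α + 0 * β
    simpa using h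
  exact h1.filter_mono nhdsWithin_le_nhds

private theorem PPC2_ne (α β : ℝ) (h : α ≠ 0 ∨ β ≠ 0) :
    ∀ᶠ ε in 𝓝[>] (0 : ℝ), α + ε * β ≠ 0 := by
  by_cases hα : α = 0
  · subst hα
    have hβ : β ≠ 0 := by
      rcases h with h | h
      · exact absurd rfl h
      · exact h
    filter_upwards [self_mem_nhdsWithin] with ε hε
    have hε' : (0 : ℝ) < ε := hε
    rw [zero_add]
    exact mul_ne_zero hε'.ne' hβ
  · have h1 : ∀ᶠ ε in 𝓝 (0 : ℝ), α + ε * β ≠ 0 := by
      have hc : ContinuousAt (fun ε : ℝ => α + ε * β) 0 := by fun_prop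
      apply hc.eventually_ne
      simpa using hα
    exact h1.filter_mono nhdsWithin_le_nhds

theorem in_vertex {a b c u : Pl} (h : 0 < D a b c) (h1 : 0 < cr (b - a) u)
    (h2 : 0 < cr u (c - a)) : ∀ᶠ ε in 𝓝[>] (0 : ℝ), InT a b c (a + ε • u) := by
  filter_upwards [self_mem_nhdsWithin, PPC2_pos (cr (c - b) u) h] with ε hε h3
  have hε' : (0 : ℝ) < ε := hε
  refine ⟨?_, ?_, ?_⟩
  · have : D a b (a + ε • u) = ε * cr (b - a) u := by
      unfold D cr
      simp only [Prod.fst_add, Prod.snd_add, Prod.smul_fst, Prod.smul_snd, Prod.fst_sub,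
        Prod.snd_sub, smul_eq_mul]
      ring
    rw [this]
    exact mul_pos hε' h1
  · have : D b c (a + ε • u) = D a b c + ε * cr (c - b) u := by
      unfold D cr
      simp only [Prod.fst_add, Prod.snd_add, Prod.smul_fst, Prod.smul_snd, Prod.fst_sub,
        Prod.snd_sub, smul_eq_mul]
      ring
    rw [this]
    exact h3
  · have : D c a (a + ε • u) = ε * cr u (c - a) := by
      unfold D cr
      simp only [Prod.fst_add, Prod.snd_add, Prod.smul_fst, Prod.smul_snd, Prod.fst_sub,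
        Prod.snd_sub, smul_eq_mul]
      ring
    rw [this]
    exact mul_pos hε' h2

theorem in_edge {a b c u : Pl} (h : 0 < D a b c) (h1 : 0 < cr (b - a) u) {t : ℝ} (ht0 : 0 < t)
    (ht1 : t < 1) : ∀ᶠ ε in 𝓝[>] (0 : ℝ), InT a b c (a + t • (b - a) + ε • u) := by
  have k1 : 0 < (1 - t) * D a b c := mul_pos (by linarith) h
  have k2 : 0 < t * D a b c := mul_pos ht0 h
  filter_upwards [self_mem_nhdsWithin, PPC2_pos (cr (c - b) u) k1, PPC2_pos (cr (a - c) u) k2]
    with ε hε h3 h4
  have hε' : (0 : ℝ) < ε := hε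
  refine ⟨?_, ?_, ?_⟩
  · have : D a b (a + t • (b - a) + ε • u) = ε * cr (b - a) u := by
      unfold D cr
      simp only [Prod.fst_add, Prod.snd_add, Prod.smul_fst, Prod.smul_snd, Prod.fst_sub,
        Prod.snd_sub, smul_eq_mul]
      ring
    rw [this]
    exact mul_pos hε' h1
  · have : D b c (a + t • (b - a) + ε • u) = (1 - t) * D a b c + ε * cr (c - b) u := by
      unfold D cr
      simp only [Prod.fst_add, Prod.snd_add, Prod.smul_fst, Prod.smul_snd, Prod.fst_sub,
        Prod.snd_sub, smul_eq_mul]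
      ring
    rw [this]
    exact h3
  · have : D c a (a + t • (b - a) + ε • u) = t * D a b c + ε * cr (a - c) u := by
      unfold D cr
      simp only [Prod.fst_add, Prod.snd_add, Prod.smul_fst, Prod.smul_snd, Prod.fst_sub,
        Prod.snd_sub, smul_eq_mul]
      ring
    rw [this]
    exact h4

theorem gq_of_gu [Finite V] {P : V → Pl} {u : Pl} (hu : Gu P u) (z : Pl) :
    ∀ᶠ ε in 𝓝[>] (0 : ℝ), Gq P (z + ε • u) := by
  have hx : ∀ᶠ ε in 𝓝[>] (0 : ℝ), ∀ v : V, (z + ε • u).1 ≠ (P v).1 := by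
    rw [eventually_all]
    intro v
    filter_upwards [PPC2_ne (z.1 - (P v).1) u.1 (Or.inr hu.x)] with ε h1 h2
    apply h1
    simp only [Prod.fst_add, Prod.smul_fst, smul_eq_mul] at h2
    linarith
  have hd : ∀ᶠ ε in 𝓝[>] (0 : ℝ), ∀ v w : V, P v ≠ P w → D (P v) (P w) (z + ε • u) ≠ 0 := by
    rw [eventually_all]
    intro v
    rw [eventually_all]
    intro w
    by_cases hvw : P v = P w
    · exact Eventually.of_forall fun ε h => absurd hvw h
    filter_upwards [PPC2_ne (D (P v) (P w) z) (cr (P w - P v) u) (Or.inr (hu.d v w hvw))]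
      with ε h1 _ h2
    apply h1
    rw [← h2]
    unfold D cr
    simp only [Prod.fst_add, Prod.snd_add, Prod.smul_fst, Prod.smul_snd, Prod.fst_sub,
      Prod.snd_sub, smul_eq_mul]
    ring
  filter_upwards [hx, hd] with ε h1 h2
  exact ⟨h1, h2⟩

theorem ex_gu_cone [Finite V] (P : V → Pl) {X Y : Pl} (h : 0 < cr X Y) :
    ∃ u, Gu P u ∧ 0 < cr X u ∧ 0 < cr u Y := by
  have hx : ∀ᶠ t in 𝓝[>] (0 : ℝ), X.1 + t * Y.1 ≠ 0 := by
    apply PPC2_ne
    by_contra hc
    push Not at hc
    unfold cr at h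
    rw [hc.1, hc.2] at h
    simp at h
  have hd : ∀ᶠ t in 𝓝[>] (0 : ℝ), ∀ v w : V, P v ≠ P w →
      cr (P w - P v) X + t * cr (P w - P v) Y ≠ 0 := by
    rw [eventually_all]
    intro v
    rw [eventually_all]
    intro w
    by_cases hvw : P v = P w
    · exact Eventually.of_forall fun ε h => absurd hvw h
    have h1 : cr (P w - P v) X ≠ 0 ∨ cr (P w - P v) Y ≠ 0 := by
      by_contra hc
      push Not at hc
      obtain ⟨c1, c2⟩ := hc
      apply hvw
      have e1 : cr X Y * (P w - P v).1 = cr (P w - P v) Y * X.1 - cr (P w - P v) X * Y.1 := by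
        unfold cr
        ring
      have e2 : cr X Y * (P w - P v).2 = cr (P w - P v) Y * X.2 - cr (P w - P v) X * Y.2 := by
        unfold cr
        ring
      rw [c1, c2, zero_mul, zero_mul, sub_zero] at e1 e2
      have e3 := (mul_eq_zero.1 e1).resolve_left h.ne'
      have e4 := (mul_eq_zero.1 e2).resolve_left h.ne'
      simp only [Prod.fst_sub, Prod.snd_sub] at e3 e4
      exact Prod.ext (by linarith) (by linarith)
    filter_upwards [PPC2_ne _ _ h1] with t h2 _
    exact h2
  obtain ⟨t, ⟨ht1, ht2⟩, ht0⟩ := ((hx.and hd).and self_mem_nhdsWithin).exists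
  have ht0' : (0 : ℝ) < t := ht0
  refine ⟨X + t • Y, ⟨?_, ?_⟩, ?_, ?_⟩
  · simp only [Prod.fst_add, Prod.smul_fst, smul_eq_mul]
    exact ht1
  · intro v w hvw
    have : cr (P w - P v) (X + t • Y) = cr (P w - P v) X + t * cr (P w - P v) Y := by
      unfold cr
      simp only [Prod.fst_add, Prod.snd_add, Prod.smul_fst, Prod.smul_snd, smul_eq_mul]
      ring
    rw [this]
    exact ht2 v w hvw
  · have : cr X (X + t • Y) = t * cr X Y := by
      unfold cr
      simp only [Prod.fst_add, Prod.snd_add, Prod.smul_fst, Prod.smul_snd, smul_eq_mul]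
      ring
    rw [this]
    exact mul_pos ht0' h
  · have : cr (X + t • Y) Y = cr X Y := by
      unfold cr
      simp only [Prod.fst_add, Prod.snd_add, Prod.smul_fst, Prod.smul_snd, smul_eq_mul]
      ring
    rw [this]
    exact h

theorem ex_gu_half [Finite V] (P : V → Pl) {X : Pl} (h : X ≠ 0) : ∃ u, Gu P u ∧ 0 < cr X u := by
  set J : Pl := (-X.2, X.1) with hJ
  have h1 : 0 < cr X J := by
    have e : cr X J = X.1 ^ 2 + X.2 ^ 2 := by
      rw [hJ]
      unfold cr
      ring
    rw [e]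
    by_contra hc
    have e1 : X.1 ^ 2 = 0 := by nlinarith [sq_nonneg X.1, sq_nonneg X.2]
    have e2 : X.2 ^ 2 = 0 := by nlinarith [sq_nonneg X.1, sq_nonneg X.2]
    exact h (Prod.ext (pow_eq_zero_iff (two_ne_zero) |>.1 e1) (pow_eq_zero_iff (two_ne_zero) |>.1 e2))
  have h2 : 0 < cr (J + X) J := by
    have : cr (J + X) J = cr X J := by
      unfold cr
      simp only [Prod.fst_add, Prod.snd_add]
      ring
    rw [this]
    exact h1
  obtain ⟨u, hu, h3, h4⟩ := ex_gu_cone P h2
  refine ⟨u, hu, ?_⟩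
  have : cr X u = cr (J + X) u + cr u J := by
    unfold cr
    simp only [Prod.fst_add, Prod.snd_add]
    ring
  rw [this]
  linarith

theorem ex_gu_half2 [Finite V] (P : V → Pl) {X Y : Pl} (h : cr X Y ≠ 0) :
    ∃ u, Gu P u ∧ 0 < cr X u ∧ 0 < cr Y u := by
  have key : ∀ X Y : Pl, 0 < cr X Y → ∃ u, Gu P u ∧ 0 < cr X u ∧ 0 < cr Y u := by
    intro X Y hXY
    have h1 : 0 < cr Y (-X) := by
      have : cr Y (-X) = cr X Y := by
        unfold cr
        simp only [Prod.fst_neg, Prod.snd_neg]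
        ring
      rw [this]
      exact hXY
    obtain ⟨u, hu, h3, h4⟩ := ex_gu_cone P h1
    refine ⟨u, hu, ?_, h3⟩
    have : cr u (-X) = cr X u := by
      unfold cr
      simp only [Prod.fst_neg, Prod.snd_neg]
      ring
    rw [← this]
    exact h4
  rcases lt_or_gt_of_ne h with h1 | h1
  · have h2 : 0 < cr Y X := by
      rw [cr_swap]
      linarith
    obtain ⟨u, hu, h3, h4⟩ := key Y X h2
    exact ⟨u, hu, h4, h3⟩
  · exact key X Y h1

theorem ex_gu_out [Finite V] (P : V → Pl) {X A B : Pl} (hX : X ≠ 0) (h : 0 < cr A B) :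
    ∃ u, Gu P u ∧ 0 < cr X u ∧ ¬ (0 < cr A u ∧ 0 < cr u B) := by
  by_cases h1 : cr X A = 0
  · by_cases h2 : cr X B = 0
    · exfalso
      have e1 : cr A B * X.1 = cr X B * A.1 - cr X A * B.1 := by
        unfold cr
        ring
      have e2 : cr A B * X.2 = cr X B * A.2 - cr X A * B.2 := by
        unfold cr
        ring
      rw [h1, h2, zero_mul, zero_mul, sub_zero] at e1 e2
      exact hX (Prod.ext ((mul_eq_zero.1 e1).resolve_left h.ne')
        ((mul_eq_zero.1 e2).resolve_left h.ne'))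
    · obtain ⟨u, hu, h3, h4⟩ := ex_gu_half2 P h2
      refine ⟨u, hu, h3, fun hc => ?_⟩
      have := hc.2
      rw [cr_swap] at this
      linarith
  · have h2 : cr X (-A) ≠ 0 := by
      have : cr X (-A) = - cr X A := by
        unfold cr
        simp only [Prod.fst_neg, Prod.snd_neg]
        ring
      rw [this]
      exact neg_ne_zero.2 h1
    obtain ⟨u, hu, h3, h4⟩ := ex_gu_half2 P h2
    refine ⟨u, hu, h3, fun hc => ?_⟩
    have e : cr (-A) u = - cr A u := by
      unfold cr
      simp only [Prod.fst_neg, Prod.snd_neg]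
      ring
    rw [e] at h4
    linarith [hc.1]

end B306
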