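import Pool.Agent.Lib_MP_b306af.PPC1
import Pool.Agent.Lib_MP_b306af.PPC2

/-! # MP_b306af: local lemmas at a vertex (collects PPC1 and PPC2) -/
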