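import Pool.Agent.Lib_MP_b306af.PPB
import Pool.Agent.Lib_MP_b306af.PPC

/-! # MP_b306af: positively oriented inner faces give a crossing-free drawing -/

namespace B306

open Filter Topology

variable {V : Type}

/- Piece PPD.  In every case a point `z` and a generic direction `u` are found such that
`q = z + ε u` (small `ε > 0`, `gq_of_gu`) is strictly inside two inner faces which are not rotations
of each other (contradiction to `cov_uniq`), or strictly inside an inner face and not inside the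
outer triangle (contradiction to `cov_out`).
`pp_side`: for an edge `a b` one of the two darts is in an inner face: the faces `(a, b, c)`,
`(b, a, d)`; if both were rotations of the outer face, this face would contain both darts,
impossible by `ne`.
`pp_inj`: `z = P a = P b`, `a ≠ b`.  Both outer: excluded by `neg`.  `a`, `b` not outer: take a face
`(a, x, y)` and a generic `u` in its angle (`ex_gu_cone`); by `cone_cov` some face `(b, x', y')` contains
`u` in its angle; by `in_vertex` `q` is inside both, so they are rotations, `b ∈ {a, x, y}`, and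
`D (P a) (P x) (P y) = 0`, contradiction.  `a` not outer, `b` outer, e.g. `b = o1` (the others in the same way):
the outer triangle at `o1` has the angle `(o3 - o1, o2 - o1)` (`0 < D o1 o3 o2`); take a generic `u` with not
(`0 < cr (o3 - o1) u`, `0 < cr u (o2 - o1)`) (`ex_gu_out`), by `cone_cov` `q` is inside a face at `a`, but `q` is not
inside the outer triangle (`D o1 o3 q = ε cr (o3 - o1) u`).
`pp_vert`: `v` not in `{a, b}`, `a b` an edge, `P v` on the closed segment: by `pp_inj` it is in the open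
segment, `P v = P a + t (P b - P a)`, `0 < t < 1`.  Let (after exchanging `a` and `b`) `(a, b, c)` be an inner
face.  `v` not outer: generic `u` with `0 < cr (P b - P a) u` (`ex_gu_half`), `q` is inside `(a, b, c)` (`in_edge`) and
inside a face `(v, x, y)` (`cone_cov`, `in_vertex`), so `v ∈ {a, b, c}`, `v = c`, `D = 0`, contradiction.
`v` outer: `u` in the half-plane but not in the angle of the outer triangle at `v` (`ex_gu_out`), `q` is inside
`(a, b, c)` but not in the outer triangle.
`pp_edge`: `a b`, `c d` different edges, `z` a common point.  If `z` is an endpoint of one of them, it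
is a vertex of the other one by `pp_vert` (and injectivity), done.  Otherwise `z` is in both open
segments.  Let `X = P b - P a`, `Y = P d - P c`.  CASE `cr X Y ≠ 0`.  If all four darts are in inner faces
`(a,b,·)`, `(b,a,·)`, `(c,d,·)`, `(d,c,·)`: a generic `u` with `0 < cr X u`, `0 < cr Y u` (`ex_gu_half2`)
shows that the faces of `(a,b)` and `(c,d)` are rotations of each other, `u` with
`0 < cr X u`, `0 < cr (-Y) u` the faces of `(a,b)` and `(d,c)`; so one face contains the darts
`(c,d)` and `(d,c)`, impossible by `ne`.  If e.g. the face of `(b, a)` is the outer face (a rotation; so `a b`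
is a side of the outer triangle), let (after exchanging `c` and `d`) `(c, d, ·)` be an inner face, take
`u` with `0 < cr (-X) u`, `0 < cr Y u`: `q` is inside the face of `(c, d)`, but not inside the outer triangle
(`D (P b) (P a) q > 0`, i.e. on the wrong side).  The other three subcases are the same after renaming.
CASE `cr X Y = 0`: both edges are on one line; after renaming `Y = λ X`, `λ > 0`, or use `-Y`:
let `(a, b, x)` be an inner face (rename if necessary).  If the dart of `c d` with the same direction is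
in an inner face, `u` with `0 < cr X u` shows that the two faces are rotations of each other: three
collinear vertices or the same edge, contradiction.  Otherwise that dart is in the outer face:
the points `z + ε u`, `0 < cr X u`, are outside the outer triangle, contradiction to `cov_out`. -/

private theorem rot3_rot {x y z a b c : V} (h : Rot3 x y z a b c) : Rot3 x y z b c a := by
  rcases h with ⟨rfl, rfl, rfl⟩ | ⟨rfl, rfl, rfl⟩ | ⟨rfl, rfl, rfl⟩
  · exact Or.inr (Or.inl ⟨rfl, rfl, rfl⟩)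
  · exact Or.inr (Or.inr ⟨rfl, rfl, rfl⟩)
  · exact Or.inl ⟨rfl, rfl, rfl⟩

private theorem D_shift (p q z u : Pl) (e : ℝ) :
    D p q (z + e • u) = D p q z + e * cr (q - p) u := by
  unfold D cr
  simp only [Prod.fst_add, Prod.snd_add, Prod.smul_fst, Prod.smul_snd, smul_eq_mul,
    Prod.fst_sub, Prod.snd_sub]
  ring

private theorem D_on (p q : Pl) (t : ℝ) : D p q (p + t • (q - p)) = 0 := by
  unfold D
  simp only [Prod.fst_add, Prod.snd_add, Prod.smul_fst, Prod.smul_snd, smul_eq_mul,
    Prod.fst_sub, Prod.snd_sub]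
  ring

private theorem cr_neg_left (X u : Pl) : cr (-X) u = - cr X u := by
  unfold cr; simp only [Prod.fst_neg, Prod.snd_neg]; ring

private theorem cr_neg_right (X u : Pl) : cr X (-u) = - cr X u := by
  unfold cr; simp only [Prod.fst_neg, Prod.snd_neg]; ring

private theorem nebot : (𝓝[>] (0 : ℝ)).NeBot := inferInstance

private theorem inn_pos {F : V → V → V → Prop} {o1 o2 o3 : V} {P : V → Pl}
    (h : PosD F o1 o2 o3 P) {a b c : V} (h1 : Inn F o1 o2 o3 a b c) :
    0 < D (P a) (P b) (P c) := h.pos a b c h1.1 h1.2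

private theorem outne {F : V → V → V → Prop} {o1 o2 o3 : V} {P : V → Pl}
    (h : PosD F o1 o2 o3 P) : o1 ≠ o2 ∧ o2 ≠ o3 ∧ o3 ≠ o1 :=
  ⟨h.pre.ne _ _ _ h.out, h.pre.ne _ _ _ (h.pre.cyc _ _ _ h.out),
    h.pre.ne _ _ _ (h.pre.cyc _ _ _ (h.pre.cyc _ _ _ h.out))⟩

/-- a face at a non-outer vertex is inner -/
private theorem inn_of_vertex {F : V → V → V → Prop} {o1 o2 o3 : V} {a x y : V}
    (h1 : a ≠ o1) (h2 : a ≠ o2) (h3 : a ≠ o3) (hF : F a x y) : Inn F o1 o2 o3 a x y := by
  refine ⟨hF, ?_⟩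
  rintro (⟨h, _⟩ | ⟨h, _⟩ | ⟨h, _⟩)
  · exact h1 h
  · exact h2 h
  · exact h3 h

/-- two inner faces containing `z + ε u` are the same -/
private theorem uniq_face [Finite V] {F : V → V → V → Prop} {o1 o2 o3 : V} {P : V → Pl}
    (h : PosD F o1 o2 o3 P) {u z : Pl} (hu : Gu P u) {a b c a' b' c' : V}
    (h1 : Inn F o1 o2 o3 a b c) (h2 : Inn F o1 o2 o3 a' b' c')
    (q1 : ∀ᶠ ε in 𝓝[>] (0 : ℝ), InT (P a) (P b) (P c) (z + ε • u))
    (q2 : ∀ᶠ ε in 𝓝[>] (0 : ℝ), InT (P a') (P b') (P c') (z + ε • u)) :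
    Rot3 a b c a' b' c' := by
  obtain ⟨e, he⟩ := ((q1.and q2).and (gq_of_gu hu z)).exists
  exact cov_uniq h he.2 h1 h2 he.1.1 he.1.2

/-- a point `z + ε u` of an inner face is inside the outer triangle -/
private theorem out_face [Finite V] {F : V → V → V → Prop} {o1 o2 o3 : V} {P : V → Pl}
    (h : PosD F o1 o2 o3 P) {u z : Pl} (hu : Gu P u) {a b c : V}
    (h1 : Inn F o1 o2 o3 a b c)
    (q1 : ∀ᶠ ε in 𝓝[>] (0 : ℝ), InT (P a) (P b) (P c) (z + ε • u)) :
    ∃ ε : ℝ, 0 < ε ∧ InT (P o2) (P o1) (P o3) (z + ε • u) := by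
  obtain ⟨e, he⟩ := ((q1.and (gq_of_gu hu z)).and self_mem_nhdsWithin).exists
  exact ⟨e, he.2, cov_out h he.1.2 h1 he.1.1⟩

/-- the angle of the outer triangle at an outer vertex -/
private theorem out_angle {F : V → V → V → Prop} {o1 o2 o3 : V} {P : V → Pl}
    (h : PosD F o1 o2 o3 P) {b : V} (hb : b = o1 ∨ b = o2 ∨ b = o3) :
    ∃ A B : Pl, 0 < cr A B ∧ ∀ (u : Pl) (e : ℝ), 0 < e →
      InT (P o2) (P o1) (P o3) (P b + e • u) → 0 < cr A u ∧ 0 < cr u B := by
  have hn := h.neg
  have key : ∀ p q r : Pl, D p q r < 0 → 0 < cr (r - p) (q - p) ∧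
      ∀ (u : Pl) (e : ℝ), 0 < e → 0 < D q p (p + e • u) → 0 < D p r (p + e • u) →
        0 < cr (r - p) u ∧ 0 < cr u (q - p) := by
    intro p q r hD
    refine ⟨?_, ?_⟩
    · have : cr (r - p) (q - p) = - D p q r := by
        unfold D cr; simp only [Prod.fst_sub, Prod.snd_sub]; ring
      linarith
    · intro u e he h1 h2
      rw [D_shift, D_self'', zero_add] at h2
      have e1 : D q p (p + e • u) = e * cr u (q - p) := by
        unfold D cr
        simp only [Prod.fst_add, Prod.snd_add, Prod.smul_fst, Prod.smul_snd, smul_eq_mul,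
          Prod.fst_sub, Prod.snd_sub]
        ring
      rw [e1] at h1
      exact ⟨(pos_iff_pos_of_mul_pos h2).1 he, (pos_iff_pos_of_mul_pos h1).1 he⟩
  rcases hb with rfl | rfl | rfl
  · obtain ⟨k1, k2⟩ := key (P b) (P o2) (P o3) hn
    exact ⟨_, _, k1, fun u e he hI => k2 u e he hI.1 hI.2.1⟩
  · obtain ⟨k1, k2⟩ := key (P b) (P o3) (P o1) (by rw [← D_cyc]; exact hn)
    exact ⟨_, _, k1, fun u e he hI => k2 u e he hI.2.2 hI.1⟩
  · obtain ⟨k1, k2⟩ := key (P b) (P o1) (P o2) (by rw [← D_cyc, ← D_cyc]; exact hn)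
    exact ⟨_, _, k1, fun u e he hI => k2 u e he hI.2.1 hI.2.2⟩

theorem pp_side {F : V → V → V → Prop} {o1 o2 o3 : V} {P : V → Pl} (h : PosD F o1 o2 o3 P)
    {a b : V} (hab : ∃ c, F a b c) :
    (∃ c, Inn F o1 o2 o3 a b c) ∨ ∃ c, Inn F o1 o2 o3 b a c := by
  obtain ⟨c, hc⟩ := hab
  obtain ⟨d, hd⟩ := h.pre.opp _ _ _ hc
  obtain ⟨n1, n2, n3⟩ := outne h
  by_cases h1 : Rot3 o1 o2 o3 a b c
  · by_cases h2 : Rot3 o1 o2 o3 b a d
    · exfalso
      rcases h1 with ⟨ha, hb, _⟩ | ⟨ha, hb, _⟩ | ⟨ha, hb, _⟩ <;>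
        rcases h2 with ⟨ha', hb', _⟩ | ⟨ha', hb', _⟩ | ⟨ha', hb', _⟩ <;>
        first
          | exact n1 (ha.symm.trans hb')
          | exact n1 (hb'.symm.trans ha)
          | exact n1 (hb.symm.trans ha')
          | exact n1 (ha'.symm.trans hb)
          | exact n2 (ha.symm.trans hb')
          | exact n2 (hb'.symm.trans ha)
          | exact n2 (hb.symm.trans ha')
          | exact n2 (ha'.symm.trans hb)
          | exact n3 (ha.symm.trans hb')
          | exact n3 (hb'.symm.trans ha)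
          | exact n3 (hb.symm.trans ha')
          | exact n3 (ha'.symm.trans hb)
    · exact Or.inr ⟨d, hd, h2⟩
  · exact Or.inl ⟨c, hc, h1⟩

theorem pp_inj [Finite V] {F : V → V → V → Prop} {o1 o2 o3 : V} {P : V → Pl}
    (h : PosD F o1 o2 o3 P) {a b : V} (ha : ∃ x y, F a x y) (hb : ∃ x y, F b x y)
    (hab : P a = P b) : a = b := by
  by_contra hne
  have hn := h.neg
  -- one outer, one not outer
  have mixed : ∀ a b : V, (∃ x y, F a x y) → P a = P b → (a ≠ o1 ∧ a ≠ o2 ∧ a ≠ o3) →
      (b = o1 ∨ b = o2 ∨ b = o3) → False := by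
    intro a b ha hab ha' hb'
    obtain ⟨A, B, hAB, hang⟩ := out_angle h hb'
    have hA : A ≠ 0 := by
      rintro rfl
      simp [cr] at hAB
    obtain ⟨u, hu, _, hout⟩ := ex_gu_out P hA hAB
    obtain ⟨x, y, hF, hx, hy⟩ := cone_cov h ha ha'.1 ha'.2.1 ha'.2.2 hu
    have hI := inn_of_vertex ha'.1 ha'.2.1 ha'.2.2 hF
    obtain ⟨e, he, hT⟩ := out_face h hu hI (in_vertex (inn_pos h hI) hx hy)
    rw [hab] at hT
    exact hout (hang u e he hT)
  by_cases hao : a = o1 ∨ a = o2 ∨ a = o3
  · by_cases hbo : b = o1 ∨ b = o2 ∨ b = o3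
    · rcases hao with rfl | rfl | rfl <;> rcases hbo with rfl | rfl | rfl <;>
        first
          | exact hne rfl
          | (rw [hab] at hn; simp [D_self, D_self', D_self''] at hn)
    · push Not at hbo
      exact mixed b a hb hab.symm hbo hao
  · by_cases hbo : b = o1 ∨ b = o2 ∨ b = o3
    · push Not at hao
      exact mixed a b ha hab hao hbo
    · push Not at hao hbo
      obtain ⟨x, y, hF⟩ := ha
      have hI := inn_of_vertex hao.1 hao.2.1 hao.2.2 hF
      have hpos := inn_pos h hI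
      obtain ⟨u, hu, hx, hy⟩ := ex_gu_cone P (X := P x - P a) (Y := P y - P a)
        (by rw [← D_eq_cr]; exact hpos)
      obtain ⟨x', y', hF', hx', hy'⟩ := cone_cov h hb hbo.1 hbo.2.1 hbo.2.2 hu
      have hI' := inn_of_vertex hbo.1 hbo.2.1 hbo.2.2 hF'
      have q2 := in_vertex (inn_pos h hI') hx' hy'
      have hr := uniq_face h hu hI hI' (in_vertex hpos hx hy)
        (by rw [← hab] at q2 ⊢; exact q2)
      rcases hr with ⟨e, _⟩ | ⟨e, _⟩ | ⟨e, _⟩
      · exact hne e.symm
      · subst e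
        rw [hab, D_self] at hpos; exact lt_irrefl _ hpos
      · subst e
        rw [hab, D_self''] at hpos; exact lt_irrefl _ hpos

theorem pp_vert [Finite V] {F : V → V → V → Prop} {o1 o2 o3 : V} {P : V → Pl}
    (h : PosD F o1 o2 o3 P) {a b v : V} (hab : ∃ c, F a b c) (hv : ∃ x y, F v x y)
    (hva : v ≠ a) (hvb : v ≠ b) : P v ∉ segment ℝ (P a) (P b) := by
  -- the case of an inner face `a b c`
  have key : ∀ a b : V, (∃ c, Inn F o1 o2 o3 a b c) → v ≠ a → v ≠ b →
      P v ∉ segment ℝ (P a) (P b) := by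
    rintro a b ⟨c, hI⟩ hva hvb hs
    rw [segment_eq_image'] at hs
    obtain ⟨t, ⟨ht0, ht1⟩, ht⟩ := hs
    simp only at ht
    have hpos := inn_pos h hI
    have hFa : ∃ x y, F a x y := ⟨b, c, hI.1⟩
    have hFb : ∃ x y, F b x y := ⟨c, a, h.pre.cyc _ _ _ hI.1⟩
    have ht0' : 0 < t := by
      rcases lt_or_eq_of_le ht0 with h0 | h0
      · exact h0
      · exfalso
        rw [← h0, zero_smul, add_zero] at ht
        exact hva (pp_inj h hv hFa ht.symm)
    have ht1' : t < 1 := by
      rcases lt_or_eq_of_le ht1 with h0 | h0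
      · exact h0
      · exfalso
        rw [h0, one_smul, add_sub_cancel] at ht
        exact hvb (pp_inj h hv hFb ht.symm)
    have hX : P b - P a ≠ 0 := by
      intro h0
      have : P b = P a := sub_eq_zero.1 h0
      rw [this, D_self] at hpos
      exact lt_irrefl _ hpos
    by_cases hvo : v = o1 ∨ v = o2 ∨ v = o3
    · obtain ⟨A, B, hAB, hang⟩ := out_angle h hvo
      obtain ⟨u, hu, hXu, hout⟩ := ex_gu_out P hX hAB
      obtain ⟨e, he, hT⟩ := out_face h hu hI (in_edge hpos hXu ht0' ht1')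
      rw [ht] at hT
      exact hout (hang u e he hT)
    · push Not at hvo
      obtain ⟨u, hu, hXu⟩ := ex_gu_half P hX
      obtain ⟨x, y, hF, hx, hy⟩ := cone_cov h hv hvo.1 hvo.2.1 hvo.2.2 hu
      have hI' := inn_of_vertex hvo.1 hvo.2.1 hvo.2.2 hF
      have q2 := in_vertex (inn_pos h hI') hx hy
      have q1 := in_edge hpos hXu ht0' ht1'
      rw [ht] at q1
      rcases uniq_face h hu hI hI' q1 q2 with ⟨e, _⟩ | ⟨e, _⟩ | ⟨e, _⟩
      · exact hva e
      · exact hvb e
      · subst e
        rw [← ht, D_on] at hpos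
        exact lt_irrefl _ hpos
  rcases pp_side h hab with hI | hI
  · exact key a b hI hva hvb
  · rw [segment_symm]
    exact key b a hI hvb hva

/-- a point of the open segment of the outer dart `p q`, moved to the left, is not in the outer
triangle -/
private theorem out_dart {o1 o2 o3 : V} {P : V → Pl} {p q r : V} (hr : Rot3 o1 o2 o3 p q r)
    {z u : Pl} {t : ℝ} (hz : z = P p + t • (P q - P p)) (hu : 0 < cr (P q - P p) u) {e : ℝ}
    (he : 0 < e) : ¬ InT (P o2) (P o1) (P o3) (z + e • u) := by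
  have h1 : 0 < D (P p) (P q) (z + e • u) := by
    rw [D_shift, hz, D_on, zero_add]
    exact mul_pos he hu
  rintro ⟨i1, i2, i3⟩
  rcases hr with ⟨rfl, rfl, rfl⟩ | ⟨rfl, rfl, rfl⟩ | ⟨rfl, rfl, rfl⟩
  · rw [D_swap] at i1; linarith
  · rw [D_swap] at i3; linarith
  · rw [D_swap] at i2; linarith

/-- comparison of two darts through a common point, the first one in an inner face -/
private theorem dart_cmp [Finite V] {F : V → V → V → Prop} {o1 o2 o3 : V} {P : V → Pl}
    (h : PosD F o1 o2 o3 P) {z u : Pl} (hu : Gu P u) {a b x c d y : V} {t s : ℝ}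
    (h1 : Inn F o1 o2 o3 a b x) (h2 : F c d y)
    (ht0 : 0 < t) (ht1 : t < 1) (hs0 : 0 < s) (hs1 : s < 1)
    (hz1 : z = P a + t • (P b - P a)) (hz2 : z = P c + s • (P d - P c))
    (hu1 : 0 < cr (P b - P a) u) (hu2 : 0 < cr (P d - P c) u) : Rot3 a b x c d y := by
  have q1 := in_edge (inn_pos h h1) hu1 ht0 ht1
  rw [← hz1] at q1
  by_cases hr : Rot3 o1 o2 o3 c d y
  · exfalso
    obtain ⟨e, he, hT⟩ := out_face h hu h1 q1
    exact out_dart hr hz2 hu2 he hT
  · have h2' : Inn F o1 o2 o3 c d y := ⟨h2, hr⟩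
    have q2 := in_edge (inn_pos h h2') hu2 hs0 hs1
    rw [← hz2] at q2
    exact uniq_face h hu h1 h2' q1 q2

private theorem rev_pt (p q : Pl) (t : ℝ) : p + t • (q - p) = q + (1 - t) • (p - q) := by
  ext
  · simp only [Prod.fst_add, Prod.smul_fst, smul_eq_mul, Prod.fst_sub]; ring
  · simp only [Prod.snd_add, Prod.smul_snd, smul_eq_mul, Prod.snd_sub]; ring

/-- open segments of two different edges do not meet: non-parallel case -/
private theorem np_case [Finite V] {F : V → V → V → Prop} {o1 o2 o3 : V} {P : V → Pl}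
    (h : PosD F o1 o2 o3 P) {z : Pl} {a b x c d y y' : V} {t s : ℝ}
    (h1 : Inn F o1 o2 o3 a b x) (h2 : F c d y) (h3 : F d c y')
    (ht0 : 0 < t) (ht1 : t < 1) (hs0 : 0 < s) (hs1 : s < 1)
    (hz1 : z = P a + t • (P b - P a)) (hz2 : z = P c + s • (P d - P c))
    (hcr : cr (P b - P a) (P d - P c) ≠ 0) : False := by
  obtain ⟨u, hu, hu1, hu2⟩ := ex_gu_half2 P hcr
  have r1 := dart_cmp h hu h1 h2 ht0 ht1 hs0 hs1 hz1 hz2 hu1 hu2
  have hcr' : cr (P b - P a) (P c - P d) ≠ 0 := by
    rw [← neg_sub (P d) (P c), cr_neg_right]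
    exact neg_ne_zero.2 hcr
  obtain ⟨u', hu', hu1', hu2'⟩ := ex_gu_half2 P hcr'
  have r2 := dart_cmp h hu' h1 h3 ht0 ht1 (sub_pos.2 hs1) (by linarith) hz1
    (hz2.trans (rev_pt _ _ _)) hu1' hu2'
  have n1 : a ≠ b := h.pre.ne _ _ _ h1.1
  have n2 : b ≠ x := h.pre.ne _ _ _ (h.pre.cyc _ _ _ h1.1)
  have n3 : x ≠ a := h.pre.ne _ _ _ (h.pre.cyc _ _ _ (h.pre.cyc _ _ _ h1.1))
  rcases r1 with ⟨e1, e2, _⟩ | ⟨e1, e2, _⟩ | ⟨e1, e2, _⟩ <;>
    rcases r2 with ⟨e3, e4, _⟩ | ⟨e3, e4, _⟩ | ⟨e3, e4, _⟩ <;>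
    first
      | exact n1 (e1.symm.trans e4)
      | exact n1 (e4.symm.trans e1)
      | exact n1 (e2.symm.trans e3)
      | exact n1 (e3.symm.trans e2)
      | exact n2 (e1.symm.trans e4)
      | exact n2 (e4.symm.trans e1)
      | exact n2 (e2.symm.trans e3)
      | exact n2 (e3.symm.trans e2)
      | exact n3 (e1.symm.trans e4)
      | exact n3 (e4.symm.trans e1)
      | exact n3 (e2.symm.trans e3)
      | exact n3 (e3.symm.trans e2)

/-- parallel case, same direction -/
private theorem par_case [Finite V] {F : V → V → V → Prop} {o1 o2 o3 : V} {P : V → Pl}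
    (h : PosD F o1 o2 o3 P) {z : Pl} {a b x c d y : V} {t s l : ℝ}
    (h1 : Inn F o1 o2 o3 a b x) (h2 : F c d y) (hne : s(a, b) ≠ s(c, d))
    (ht0 : 0 < t) (ht1 : t < 1) (hs0 : 0 < s) (hs1 : s < 1)
    (hz1 : z = P a + t • (P b - P a)) (hz2 : z = P c + s • (P d - P c))
    (hl : 0 < l) (hY : P d - P c = l • (P b - P a)) : False := by
  have hpos := inn_pos h h1
  have hX : P b - P a ≠ 0 := by
    intro h0
    have : P b = P a := sub_eq_zero.1 h0
    rw [this, D_self] at hpos
    exact lt_irrefl _ hpos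
  obtain ⟨u, hu, hXu⟩ := ex_gu_half P hX
  have hYu : 0 < cr (P d - P c) u := by
    have : cr (P d - P c) u = l * cr (P b - P a) u := by
      rw [hY]; unfold cr; simp only [Prod.smul_fst, Prod.smul_snd, smul_eq_mul]; ring
    rw [this]; exact mul_pos hl hXu
  have r := dart_cmp h hu h1 h2 ht0 ht1 hs0 hs1 hz1 hz2 hXu hYu
  have par : ∀ p q r s : Pl, s - r = l • (q - p) → cr (q - p) (s - r) = 0 := by
    intro p q r s hh
    rw [hh]; unfold cr; simp only [Prod.smul_fst, Prod.smul_snd, smul_eq_mul]; ring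
  rcases r with ⟨e1, e2, _⟩ | ⟨e1, e2, _⟩ | ⟨e1, e2, _⟩
  · subst e1; subst e2; exact hne rfl
  · subst e1; subst e2
    have := par _ _ _ _ hY
    have e : D (P a) (P c) (P d) = cr (P c - P a) (P d - P c) := by
      unfold D cr; simp only [Prod.fst_sub, Prod.snd_sub]; ring
    rw [e, this] at hpos
    exact lt_irrefl _ hpos
  · subst e1; subst e2
    have := par _ _ _ _ hY
    have e : D (P d) (P b) (P c) = cr (P b - P d) (P d - P c) * (-1) := by
      unfold D cr; simp only [Prod.fst_sub, Prod.snd_sub]; ring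
    rw [e, this] at hpos
    simp at hpos

theorem pp_edge [Finite V] {F : V → V → V → Prop} {o1 o2 o3 : V} {P : V → Pl}
    (h : PosD F o1 o2 o3 P) {a b c d : V} (hab : ∃ x, F a b x) (hcd : ∃ x, F c d x)
    (hne : s(a, b) ≠ s(c, d)) {z : Pl} (h1 : z ∈ segment ℝ (P a) (P b))
    (h2 : z ∈ segment ℝ (P c) (P d)) :
    ∃ w, (w = a ∨ w = b) ∧ (w = c ∨ w = d) ∧ z = P w := by
  have hFa : ∃ x y, F a x y := by
    obtain ⟨x, hx⟩ := hab; exact ⟨b, x, hx⟩
  have hFb : ∃ x y, F b x y := by
    obtain ⟨x, hx⟩ := hab; exact ⟨x, a, h.pre.cyc _ _ _ hx⟩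
  have hFc : ∃ x y, F c x y := by
    obtain ⟨x, hx⟩ := hcd; exact ⟨d, x, hx⟩
  have hFd : ∃ x y, F d x y := by
    obtain ⟨x, hx⟩ := hcd; exact ⟨x, c, h.pre.cyc _ _ _ hx⟩
  have vert : ∀ v a b : V, (∃ x y, F v x y) → (∃ x, F a b x) → P v ∈ segment ℝ (P a) (P b) →
      v = a ∨ v = b := by
    intro v a b hv hab hs
    by_contra hcon
    push Not at hcon
    exact pp_vert h hab hv hcon.1 hcon.2 hs
  by_cases za : z = P a
  · subst za; exact ⟨a, Or.inl rfl, vert a c d hFa hcd h2, rfl⟩
  by_cases zb : z = P b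
  · subst zb; exact ⟨b, Or.inr rfl, vert b c d hFb hcd h2, rfl⟩
  by_cases zc : z = P c
  · subst zc; exact ⟨c, vert c a b hFc hab h1, Or.inl rfl, rfl⟩
  by_cases zd : z = P d
  · subst zd; exact ⟨d, vert d a b hFd hab h1, Or.inr rfl, rfl⟩
  exfalso
  rw [segment_eq_image'] at h1 h2
  obtain ⟨t, ⟨ht0, ht1⟩, ht⟩ := h1
  obtain ⟨s, ⟨hs0, hs1⟩, hs⟩ := h2
  simp only at ht hs
  have ht0' : 0 < t := by
    rcases lt_or_eq_of_le ht0 with h0 | h0
    · exact h0
    · exfalso; rw [← h0, zero_smul, add_zero] at ht; exact za ht.symm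
  have ht1' : t < 1 := by
    rcases lt_or_eq_of_le ht1 with h0 | h0
    · exact h0
    · exfalso; rw [h0, one_smul, add_sub_cancel] at ht; exact zb ht.symm
  have hs0' : 0 < s := by
    rcases lt_or_eq_of_le hs0 with h0 | h0
    · exact h0
    · exfalso; rw [← h0, zero_smul, add_zero] at hs; exact zc hs.symm
  have hs1' : s < 1 := by
    rcases lt_or_eq_of_le hs1 with h0 | h0
    · exact h0
    · exfalso; rw [h0, one_smul, add_sub_cancel] at hs; exact zd hs.symm
  obtain ⟨xab, hxab⟩ := hab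
  obtain ⟨xcd, hxcd⟩ := hcd
  obtain ⟨xba, hxba⟩ := h.pre.opp _ _ _ hxab
  obtain ⟨xdc, hxdc⟩ := h.pre.opp _ _ _ hxcd
  by_cases hcr : cr (P b - P a) (P d - P c) = 0
  · -- parallel
    have hX : P b - P a ≠ 0 := by
      intro h0
      have e : P b = P a := sub_eq_zero.1 h0
      exact h.pre.ne _ _ _ hxab (pp_inj h hFa hFb e.symm)
    have hY : P d - P c ≠ 0 := by
      intro h0
      have e : P d = P c := sub_eq_zero.1 h0
      exact h.pre.ne _ _ _ hxcd (pp_inj h hFc hFd e.symm)
    obtain ⟨l, hl⟩ : ∃ l : ℝ, P d - P c = l • (P b - P a) := by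
      set X := P b - P a with hXd
      set Y := P d - P c with hYd
      by_cases hX1 : X.1 = 0
      · have hX2 : X.2 ≠ 0 := by
          intro h0; apply hX; ext
          · exact hX1
          · exact h0
        refine ⟨Y.2 / X.2, ?_⟩
        unfold cr at hcr
        rw [hX1] at hcr
        have hY1 : Y.1 = 0 := by
          have : X.2 * Y.1 = 0 := by linarith
          rcases mul_eq_zero.1 this with h0 | h0
          · exact absurd h0 hX2
          · exact h0
        ext
        · simp only [Prod.smul_fst, smul_eq_mul, hX1, mul_zero, hY1]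
        · simp only [Prod.smul_snd, smul_eq_mul]; field_simp
      · refine ⟨Y.1 / X.1, ?_⟩
        unfold cr at hcr
        ext
        · simp only [Prod.smul_fst, smul_eq_mul]; field_simp
        · simp only [Prod.smul_snd, smul_eq_mul]; field_simp; linarith
    have hl0 : l ≠ 0 := by
      rintro rfl
      rw [zero_smul] at hl
      exact hY hl
    have hne2 : s(a, b) ≠ s(d, c) := by rw [Sym2.eq_swap (a := d)]; exact hne
    have hne3 : s(b, a) ≠ s(c, d) := by rw [Sym2.eq_swap (a := b)]; exact hne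
    have hne4 : s(b, a) ≠ s(d, c) := by rw [Sym2.eq_swap (a := b)]; exact hne2
    have zab := ht.symm
    have zcd := hs.symm
    have zba := zab.trans (rev_pt _ _ _)
    have zdc := zcd.trans (rev_pt _ _ _)
    have t0 : 0 < 1 - t := by linarith
    have t1 : 1 - t < 1 := by linarith
    have s0 : 0 < 1 - s := by linarith
    have s1 : 1 - s < 1 := by linarith
    have l2 : P c - P d = (-l) • (P b - P a) := by rw [neg_smul, ← hl, neg_sub]
    have l3 : P d - P c = (-l) • (P a - P b) := by rw [hl, neg_smul, ← smul_neg, neg_sub]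
    have l4 : P c - P d = l • (P a - P b) := by rw [l2, neg_smul, ← smul_neg, neg_sub]
    rcases pp_side h ⟨xab, hxab⟩ with ⟨x, hI⟩ | ⟨x, hI⟩
    · rcases lt_or_gt_of_ne hl0 with hneg | hpos
      · exact par_case h hI hxdc hne2 ht0' ht1' s0 s1 zab zdc (neg_pos.2 hneg) l2
      · exact par_case h hI hxcd hne ht0' ht1' hs0' hs1' zab zcd hpos hl
    · rcases lt_or_gt_of_ne hl0 with hneg | hpos
      · exact par_case h hI hxcd hne3 t0 t1 hs0' hs1' zba zcd (neg_pos.2 hneg) l3
      · exact par_case h hI hxdc hne4 t0 t1 s0 s1 zba zdc hpos l4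
  · rcases pp_side h ⟨xab, hxab⟩ with ⟨x, hI⟩ | ⟨x, hI⟩
    · exact np_case h hI hxcd hxdc ht0' ht1' hs0' hs1' ht.symm hs.symm hcr
    · refine np_case h hI hxcd hxdc (t := 1 - t) (by linarith) (by linarith) hs0' hs1'
        (ht.symm.trans (rev_pt _ _ _)) hs.symm ?_
      rw [← neg_sub (P b) (P a), cr_neg_left]
      exact neg_ne_zero.2 hcr

end B306
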