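import Pool.Agent.Lib_MP_b306af.P4CtrTri
import Pool.Agent.Lib_MP_b306af.PosPlanar

/-!
# MP_b306af, Part IV: the contraction block

An edge `u v` inside one side, with no separating triangle through it, is contracted; a drawing
of the contracted triangulation gives a drawing of the original one by splitting the vertex again.
-/

namespace P4

open Filter Topology

variable {V : Type}

/-! ## signed areas -/

theorem det3_eq_D (P Q R : ℝ × ℝ) : det3 P Q R = B306.D P Q R := by
  unfold det3 B306.D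
  ring

/-- the signed areas of all faces of a closed surface add up to zero -/
theorem sum_det3 [Fintype V] (T : Tri V) (P : V → ℝ × ℝ) [DecidablePred fun t : V × V × V =>
    T.F t.1 t.2.1 t.2.2] :
    ∑ t ∈ Finset.univ.filter (fun t : V × V × V => T.F t.1 t.2.1 t.2.2),
      det3 (P t.1) (P t.2.1) (P t.2.2) = 0 := by
  classical
  set S := Finset.univ.filter (fun t : V × V × V => T.F t.1 t.2.1 t.2.2) with hS
  have hmem : ∀ t : V × V × V, t ∈ S ↔ T.F t.1 t.2.1 t.2.2 := by
    intro t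
    rw [hS, Finset.mem_filter]
    exact ⟨fun h => h.2, fun h => ⟨Finset.mem_univ _, h⟩⟩
  set f : V × V × V → ℝ := fun t => (P t.1).1 * (P t.2.1).2 - (P t.2.1).1 * (P t.1).2 with hf
  -- the rotation
  have hrot : ∀ g : V × V × V → ℝ, ∑ t ∈ S, g (t.2.1, t.2.2, t.1) = ∑ t ∈ S, g t := by
    intro g
    refine Finset.sum_nbij' (fun t => (t.2.1, t.2.2, t.1)) (fun t => (t.2.2, t.1, t.2.1))
      ?_ ?_ ?_ ?_ ?_
    · intro t ht
      rw [hmem] at ht ⊢
      exact T.cyc _ _ _ ht
    · intro t ht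
      rw [hmem] at ht ⊢
      exact T.cyc2 ht
    · intro t _
      rfl
    · intro t _
      rfl
    · intro t _
      rfl
  have h0 : ∑ t ∈ S, f t = 0 := by
    have h1 : ∑ t ∈ S, f t = ∑ t ∈ S, (- f t) := by
      refine Finset.sum_nbij' (fun t => (t.2.1, t.1, T.nx t.2.1 t.1))
        (fun t => (t.2.1, t.1, T.nx t.2.1 t.1)) ?_ ?_ ?_ ?_ ?_
      · intro t ht
        rw [hmem] at ht ⊢
        exact T.F_nx (T.opp _ _ _ ht)
      · intro t ht
        rw [hmem] at ht ⊢
        exact T.F_nx (T.opp _ _ _ ht)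
      · intro t ht
        rw [hmem] at ht
        obtain ⟨a, b, c⟩ := t
        simp only [Prod.mk.injEq, true_and]
        exact T.nx_eq ht
      · intro t ht
        rw [hmem] at ht
        obtain ⟨a, b, c⟩ := t
        simp only [Prod.mk.injEq, true_and]
        exact T.nx_eq ht
      · intro t ht
        simp only [hf]
        ring
    rw [Finset.sum_neg_distrib] at h1
    linarith
  have h2 : ∀ t : V × V × V, det3 (P t.1) (P t.2.1) (P t.2.2) =
      f t + f (t.2.1, t.2.2, t.1) + f (t.2.2, t.1, t.2.1) := by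
    intro t
    simp only [hf, det3]
    ring
  rw [Finset.sum_congr rfl (fun t _ => h2 t), Finset.sum_add_distrib, Finset.sum_add_distrib,
    hrot f, hrot (fun t => f (t.2.1, t.2.2, t.1)), hrot f, h0]
  ring

/-- if all inner faces are positive then the outer face is negative -/
theorem out_neg [Finite V] (T : Tri V) {o1 o2 o3 : V} (h0 : T.F o1 o2 o3) {P : V → ℝ × ℝ}
    (hpos : ∀ a b c, T.F a b c → ¬ Cyc3 o1 o2 o3 a b c → 0 < det3 (P a) (P b) (P c)) :
    det3 (P o1) (P o2) (P o3) < 0 := by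
  classical
  have := Fintype.ofFinite V
  by_contra hneg
  push Not at hneg
  have h1 := sum_det3 T P
  obtain ⟨d, hd⟩ := T.opp _ _ _ h0
  have n1 := T.ne _ _ _ h0
  have n2 := T.ne _ _ _ (T.cyc _ _ _ h0)
  have n3 := T.ne _ _ _ (T.cyc2 h0)
  have hnc : ¬ Cyc3 o1 o2 o3 o2 o1 d := by
    rintro (⟨h, -, -⟩ | ⟨-, h, -⟩ | ⟨h, -, -⟩)
    · exact n1 h.symm
    · exact n3 h.symm
    · exact n2 h
  have h2 : 0 < ∑ t ∈ Finset.univ.filter (fun t : V × V × V => T.F t.1 t.2.1 t.2.2),
      det3 (P t.1) (P t.2.1) (P t.2.2) := by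
    refine Finset.sum_pos' ?_ ⟨(o2, o1, d), ?_, ?_⟩
    · rintro ⟨a, b, c⟩ ht
      rw [Finset.mem_filter] at ht
      by_cases hc : Cyc3 o1 o2 o3 a b c
      · have hrot1 : det3 (P o2) (P o3) (P o1) = det3 (P o1) (P o2) (P o3) := by
          unfold det3; ring
        have hrot2 : det3 (P o3) (P o1) (P o2) = det3 (P o1) (P o2) (P o3) := by
          unfold det3; ring
        rcases hc with ⟨rfl, rfl, rfl⟩ | ⟨rfl, rfl, rfl⟩ | ⟨rfl, rfl, rfl⟩
        · exact hneg
        · simp only; rw [hrot1]; exact hneg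
        · simp only; rw [hrot2]; exact hneg
      · exact (hpos a b c ht.2 hc).le
    · rw [Finset.mem_filter]
      exact ⟨Finset.mem_univ _, hd⟩
    · exact hpos _ _ _ hd hnc
  linarith

/-- a drawing with positive inner faces, in the form of `PosPlanar` -/
theorem posD [Finite V] (T : Tri V) {o1 o2 o3 : V} (h0 : T.F o1 o2 o3) {P : V → ℝ × ℝ}
    (hpos : ∀ a b c, T.F a b c → ¬ Cyc3 o1 o2 o3 a b c → 0 < det3 (P a) (P b) (P c)) :
    B306.PosD T.F o1 o2 o3 P where
  pre := ⟨T.cyc, T.ne, T.uniq, T.opp⟩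
  out := h0
  neg := by
    rw [← det3_eq_D]
    exact out_neg T h0 hpos
  pos := by
    intro a b c h hr
    rw [← det3_eq_D]
    exact hpos a b c h hr

/-- two neighbours of a vertex are seen in different directions; so some direction separates
them -/
theorem exists_dir [Finite V] (T : Tri V) {o1 o2 o3 : V} (h0 : T.F o1 o2 o3) {P : V → ℝ × ℝ}
    (hpos : ∀ a b c, T.F a b c → ¬ Cyc3 o1 o2 o3 a b c → 0 < det3 (P a) (P b) (P c))
    {v x y : V} (hx : T.Adj v x) (hy : T.Adj v y) (hxy : x ≠ y) :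
    ∃ d : ℝ × ℝ, 0 < ((P x).1 - (P v).1) * d.2 - d.1 * ((P x).2 - (P v).2) ∧
      0 < d.1 * ((P y).2 - (P v).2) - ((P y).1 - (P v).1) * d.2 := by
  have hD := posD T h0 hpos
  have sv : ∃ a b, T.F v a b := ⟨x, hx⟩
  have sx : ∃ a b, T.F x a b := by obtain ⟨c, hc⟩ := hx.symm; exact ⟨v, c, hc⟩
  have sy : ∃ a b, T.F y a b := by obtain ⟨c, hc⟩ := hy.symm; exact ⟨v, c, hc⟩
  have nvx : P v ≠ P x := fun h => hx.ne (B306.pp_inj hD sv sx h)
  have nvy : P v ≠ P y := fun h => hy.ne (B306.pp_inj hD sv sy h)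
  have hvx := B306.pp_vert hD hx sy hy.ne.symm hxy.symm
  have hvy := B306.pp_vert hD hy sx hx.ne.symm hxy
  set a1 := (P x).1 - (P v).1 with ha1
  set a2 := (P x).2 - (P v).2 with ha2
  set b1 := (P y).1 - (P v).1 with hb1
  set b2 := (P y).2 - (P v).2 with hb2
  have ha0 : 0 < a1 ^ 2 + a2 ^ 2 := by
    by_contra hn
    push Not at hn
    have e1 : a1 = 0 := by nlinarith [sq_nonneg a1, sq_nonneg a2]
    have e2 : a2 = 0 := by nlinarith [sq_nonneg a1, sq_nonneg a2]
    exact nvx (Prod.ext (by linarith) (by linarith))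
  have hb0 : 0 < b1 ^ 2 + b2 ^ 2 := by
    by_contra hn
    push Not at hn
    have e1 : b1 = 0 := by nlinarith [sq_nonneg b1, sq_nonneg b2]
    have e2 : b2 = 0 := by nlinarith [sq_nonneg b1, sq_nonneg b2]
    exact nvy (Prod.ext (by linarith) (by linarith))
  by_cases hc : a1 * b2 - b1 * a2 = 0
  · -- parallel
    have hl : a1 * b1 + a2 * b2 < 0 := by
      by_contra hn
      push Not at hn
      have hsq : (a1 * b1 + a2 * b2) ^ 2 = (a1 ^ 2 + a2 ^ 2) * (b1 ^ 2 + b2 ^ 2) := by
        have : (a1 * b1 + a2 * b2) ^ 2 =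
          (a1 ^ 2 + a2 ^ 2) * (b1 ^ 2 + b2 ^ 2) - (a1 * b2 - b1 * a2) ^ 2 := by ring
        rw [this, hc]; ring
      have hpp : 0 < a1 * b1 + a2 * b2 := by
        rcases hn.lt_or_eq with h | h
        · exact h
        · exfalso
          rw [← h] at hsq
          have := mul_pos ha0 hb0
          nlinarith
      rcases le_total (a1 * b1 + a2 * b2) (a1 ^ 2 + a2 ^ 2) with hle | hle
      · -- `y` is on the segment `v x`
        apply hvx
        rw [segment_eq_image']
        refine ⟨(a1 * b1 + a2 * b2) / (a1 ^ 2 + a2 ^ 2),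
          ⟨div_nonneg hpp.le ha0.le, (div_le_one ha0).2 hle⟩, ?_⟩
        ext
        · simp only [Prod.fst_add, Prod.smul_fst, Prod.fst_sub, smul_eq_mul]
          rw [← ha1]
          field_simp
          have : (P y).1 = (P v).1 + b1 := by rw [hb1]; ring
          rw [this]
          linear_combination a2 * hc
        · simp only [Prod.snd_add, Prod.smul_snd, Prod.snd_sub, smul_eq_mul]
          rw [← ha2]
          field_simp
          have : (P y).2 = (P v).2 + b2 := by rw [hb2]; ring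
          rw [this]
          linear_combination (-a1) * hc
      · -- `x` is on the segment `v y`
        apply hvy
        rw [segment_eq_image']
        have hle2 : a1 * b1 + a2 * b2 ≤ b1 ^ 2 + b2 ^ 2 := by
          by_contra hcon
          push Not at hcon
          have : (a1 ^ 2 + a2 ^ 2) * (b1 ^ 2 + b2 ^ 2) <
            (a1 * b1 + a2 * b2) * (a1 * b1 + a2 * b2) := by
            calc (a1 ^ 2 + a2 ^ 2) * (b1 ^ 2 + b2 ^ 2)
                ≤ (a1 * b1 + a2 * b2) * (b1 ^ 2 + b2 ^ 2) := by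
                  exact mul_le_mul_of_nonneg_right hle hb0.le
              _ < (a1 * b1 + a2 * b2) * (a1 * b1 + a2 * b2) := by
                  exact mul_lt_mul_of_pos_left hcon hpp
          nlinarith
        refine ⟨(a1 * b1 + a2 * b2) / (b1 ^ 2 + b2 ^ 2),
          ⟨div_nonneg hpp.le hb0.le, (div_le_one hb0).2 hle2⟩, ?_⟩
        ext
        · simp only [Prod.fst_add, Prod.smul_fst, Prod.fst_sub, smul_eq_mul]
          rw [← hb1]
          field_simp
          have : (P x).1 = (P v).1 + a1 := by rw [ha1]; ring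
          rw [this]
          linear_combination (-b2) * hc
        · simp only [Prod.snd_add, Prod.smul_snd, Prod.snd_sub, smul_eq_mul]
          rw [← hb2]
          field_simp
          have : (P x).2 = (P v).2 + a2 := by rw [ha2]; ring
          rw [this]
          linear_combination b1 * hc
    refine ⟨(-a2, a1), ?_, ?_⟩
    · simp only
      nlinarith
    · simp only
      nlinarith
  · -- not parallel
    refine ⟨((a1 * b2 - b1 * a2) * (a1 + b1), (a1 * b2 - b1 * a2) * (a2 + b2)), ?_, ?_⟩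
    · simp only
      have : a1 * ((a1 * b2 - b1 * a2) * (a2 + b2)) - (a1 * b2 - b1 * a2) * (a1 + b1) * a2 =
        (a1 * b2 - b1 * a2) ^ 2 := by ring
      rw [this]
      positivity
    · simp only
      have : (a1 * b2 - b1 * a2) * (a1 + b1) * b2 - b1 * ((a1 * b2 - b1 * a2) * (a2 + b2)) =
        (a1 * b2 - b1 * a2) ^ 2 := by ring
      rw [this]
      positivity

/-! ## the contracted setup -/

namespace Setup

open Tri

variable {u v x y : V}

open Classical in
/-- labels after the contraction -/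
noncomputable def ctrA (S : Setup V) (u v p w : V) : ℝ :=
  if p = v ∧ S.T.Adj u w then S.A u w else S.A p w

/-- the contracted setup -/
noncomputable def ctrS [Finite V] (S : Setup V) (h : S.T.CtrOK u v x y) : Setup V where
  T := S.T.contract h
  side := S.side
  o1 := S.o1
  o2 := S.o2
  o3 := S.o3
  A := S.ctrA u v
  X := S.X

theorem ctrA_eq (S : Setup V) (h : S.T.CtrOK u v x y) (hx : S.side x ≠ -1)
    (hy : S.side y ≠ -1) {p w : V} (hpw : S.T.Adj p w) (hw : S.side w = -1) :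
    S.ctrA u v (ctr u v p) w = S.A p w := by
  unfold ctrA
  by_cases hp : p = u
  · subst hp
    rw [ctr_u, if_pos ⟨rfl, hpw⟩]
  · rw [ctr_of_ne hp]
    by_cases hc : p = v ∧ S.T.Adj u w
    · exfalso
      obtain ⟨rfl, hc⟩ := hc
      rcases h.sep w hc hpw with rfl | rfl
      · exact hx hw
      · exact hy hw
    · rw [if_neg hc]

theorem side_ctr (S : Setup V) (hu : S.side u = 1) (hv : S.side v = 1) (a : V) :
    S.side (ctr u v a) = S.side a := by
  by_cases ha : a = u
  · rw [ha, ctr_u, hu, hv]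
  · rw [ctr_of_ne ha]

theorem isO_ctr (S : Setup V) (hou : ¬ S.Outer u) {a b c : V} (h : S.IsO a b c) :
    S.IsO (ctr u v a) (ctr u v b) (ctr u v c) := by
  have h1 : S.o1 ≠ u := fun e => hou (Or.inl e.symm)
  have h2 : S.o2 ≠ u := fun e => hou (Or.inr (Or.inl e.symm))
  have h3 : S.o3 ≠ u := fun e => hou (Or.inr (Or.inr e.symm))
  have e1 : ctr u v S.o1 = S.o1 := ctr_of_ne h1
  have e2 : ctr u v S.o2 = S.o2 := ctr_of_ne h2
  have e3 : ctr u v S.o3 = S.o3 := ctr_of_ne h3
  rcases h with ⟨rfl, rfl, rfl⟩ | ⟨rfl, rfl, rfl⟩ | ⟨rfl, rfl, rfl⟩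
  · rw [e1, e2, e3]; exact Or.inl ⟨rfl, rfl, rfl⟩
  · rw [e1, e2, e3]; exact Or.inr (Or.inl ⟨rfl, rfl, rfl⟩)
  · rw [e1, e2, e3]; exact Or.inr (Or.inr ⟨rfl, rfl, rfl⟩)

/-- an outer face after the contraction comes from the outer face -/
theorem isO_of_ctr (S : Setup V) (hG : S.Good) (hou : ¬ S.Outer u) {a b c : V}
    (hf : S.T.F a b c) (h : S.IsO (ctr u v a) (ctr u v b) (ctr u v c)) : S.IsO a b c := by
  have key : ∀ o1 o2 o3 a b c : V, S.T.F o1 o2 o3 → S.T.F a b c → o1 ≠ u → o2 ≠ u → o3 ≠ u →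
      ctr u v a = o1 → ctr u v b = o2 → ctr u v c = o3 → a = o1 ∧ b = o2 ∧ c = o3 := by
    intro o1 o2 o3 a b c h0 hf n1 n2 n3 e1 e2 e3
    by_cases ha : a = u
    · have hb : b ≠ u := fun e => S.T.ne _ _ _ hf (ha.trans e.symm)
      have hc : c ≠ u := fun e => S.T.ne _ _ _ (S.T.cyc2 hf) (e.trans ha.symm)
      rw [ctr_of_ne hb] at e2
      rw [ctr_of_ne hc] at e3
      subst e2
      subst e3
      exact ⟨S.T.uniq _ _ _ _ (S.T.cyc _ _ _ hf) (S.T.cyc _ _ _ h0), rfl, rfl⟩
    rw [ctr_of_ne ha] at e1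
    subst e1
    by_cases hb : b = u
    · have hc : c ≠ u := fun e => S.T.ne _ _ _ (S.T.cyc _ _ _ hf) (hb.trans e.symm)
      rw [ctr_of_ne hc] at e3
      subst e3
      exact ⟨rfl, S.T.uniq _ _ _ _ (S.T.cyc2 hf) (S.T.cyc2 h0), rfl⟩
    rw [ctr_of_ne hb] at e2
    subst e2
    exact ⟨rfl, rfl, S.T.uniq _ _ _ _ hf h0⟩
  have h1 : S.o1 ≠ u := fun e => hou (Or.inl e.symm)
  have h2 : S.o2 ≠ u := fun e => hou (Or.inr (Or.inl e.symm))
  have h3 : S.o3 ≠ u := fun e => hou (Or.inr (Or.inr e.symm))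
  have f1 := hG.h0
  have f2 := S.T.cyc _ _ _ f1
  have f3 := S.T.cyc _ _ _ f2
  rcases h with ⟨e1, e2, e3⟩ | ⟨e1, e2, e3⟩ | ⟨e1, e2, e3⟩
  · exact Or.inl (key _ _ _ _ _ _ f1 hf h1 h2 h3 e1 e2 e3)
  · exact Or.inr (Or.inl (key _ _ _ _ _ _ f2 hf h2 h3 h1 e1 e2 e3))
  · exact Or.inr (Or.inr (key _ _ _ _ _ _ f3 hf h3 h1 h2 e1 e2 e3))

theorem ctr_neg (S : Setup V) (hu : S.side u = 1) (hv : S.side v = 1) {a w : V}
    (he : ctr u v a = w) (hw : S.side w = -1) : a = w := by
  subst he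
  rw [S.side_ctr hu hv] at hw
  have : a ≠ u := by
    rintro rfl
    rw [hu] at hw
    exact absurd hw (by decide)
  rw [ctr_of_ne this]

theorem ctr_zero (S : Setup V) (hu : S.side u = 1) (hv : S.side v = 1) {a w : V}
    (he : ctr u v a = w) (hw : S.side w = 0) : a = w := by
  subst he
  rw [S.side_ctr hu hv] at hw
  have : a ≠ u := by
    rintro rfl
    rw [hu] at hw
    exact absurd hw (by decide)
  rw [ctr_of_ne this]

theorem ctr_good [Finite V] (S : Setup V) (hG : S.Good) (h : S.T.CtrOK u v x y)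
    (hu : S.side u = 1) (hv : S.side v = 1) (hx : S.side x ≠ -1) (hy : S.side y ≠ -1)
    (hou : ¬ S.Outer u) : (S.ctrS h).Good := by
  have h1 : S.o1 ≠ u := fun e => hou (Or.inl e.symm)
  have h2 : S.o2 ≠ u := fun e => hou (Or.inr (Or.inl e.symm))
  have h3 : S.o3 ≠ u := fun e => hou (Or.inr (Or.inr e.symm))
  refine ⟨?_, hG.plus0, hG.minus0, ?_, ?_, ?_, ?_, ?_, ?_, ?_⟩
  · exact ⟨S.T.ne _ _ _ hG.h0, S.T.ne _ _ _ (S.T.cyc _ _ _ hG.h0),
      S.T.ne _ _ _ (S.T.cyc2 hG.h0), S.o1, S.o2, S.o3, hG.h0, ctr_of_ne h1, ctr_of_ne h2,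
      ctr_of_ne h3⟩
  · rintro a b c ⟨-, -, -, a0, b0, c0, hf, rfl, rfl, rfl⟩ h0
    simp only [ctrS] at h0 ⊢
    rw [S.side_ctr hu hv] at h0 ⊢
    exact hG.indep _ _ _ hf h0
  · intro σ hσ P hP
    rintro a b ⟨a1, a2, -, -, -, a0, _, _, hfa, rfl, -, -⟩
      ⟨b1, b2, -, -, -, b0, _, _, hfb, rfl, -, -⟩ sa sb hPa
    simp only [ctrS] at sa sb hP
    rw [S.side_ctr hu hv] at sa sb
    refine hG.conn σ hσ (fun a => P (ctr u v a)) ?_ a0 b0 ⟨_, _, hfa⟩ ⟨_, _, hfb⟩ sa sb hPa
    intro a b c hf sa sb hPa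
    by_cases hab : ctr u v a = ctr u v b
    · rw [← hab]; exact hPa
    · obtain ⟨d, hd⟩ := h.adj hf hab
      refine hP _ _ _ hd ?_ ?_ hPa
      · rw [S.side_ctr hu hv]; exact sa
      · rw [S.side_ctr hu hv]; exact sb
  · intro σ hσ
    rintro s ⟨a1, a2, -, -, -, s0, _, _, hf, rfl, -, -⟩ hs
    simp only [ctrS] at hs ⊢
    rw [S.side_ctr hu hv] at hs
    obtain ⟨z, hz, sz⟩ := hG.nbr σ hσ s0 ⟨_, _, hf⟩ hs
    refine ⟨ctr u v z, ?_, ?_⟩
    · refine contract_adj h hz ?_
      intro he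
      rcases ctr_eq hz.ne he with ⟨e, -⟩ | ⟨e, -⟩
      · rw [e, hu] at hs; exact absurd hs (by decide)
      · rw [e, hv] at hs; exact absurd hs (by decide)
    · rw [S.side_ctr hu hv]; exact sz
  · rintro p w w' ⟨-, -, -, p0, w0, w0', hf, ep, ew, ew'⟩ hO sp sw sw'
    simp only [ctrS] at sp sw sw' ⊢
    obtain rfl := S.ctr_neg hu hv ew sw
    obtain rfl := S.ctr_neg hu hv ew' sw'
    subst ep
    rw [S.side_ctr hu hv] at sp
    rw [S.ctrA_eq h hx hy ⟨_, hf⟩ sw, S.ctrA_eq h hx hy (Adj.symm ⟨_, S.T.cyc2 hf⟩) sw']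
    refine hG.lab1 _ _ _ hf (fun hc => hO ?_) sp sw sw'
    have := S.isO_ctr (v := v) hou hc
    rw [ew, ew'] at this
    exact this
  · rintro w p q ⟨-, -, -, w0, p0, q0, hf, ew, ep, eq⟩ hO sw sp sq
    simp only [ctrS] at sp sw sq ⊢
    obtain rfl := S.ctr_neg hu hv ew sw
    subst ep
    subst eq
    rw [S.side_ctr hu hv] at sp sq
    rw [S.ctrA_eq h hx hy ⟨_, S.T.cyc2 hf⟩ sw, S.ctrA_eq h hx hy (Adj.symm ⟨_, hf⟩) sw]
    refine hG.lab2 _ _ _ hf (fun hc => hO ?_) sw sp sq
    have := S.isO_ctr (v := v) hou hc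
    rw [ew] at this
    exact this
  · rintro p w s ⟨-, -, -, p0, w0, s0, hf, ep, ew, es⟩ hO sp sw ss
    simp only [ctrS] at sp sw ss ⊢
    obtain rfl := S.ctr_neg hu hv ew sw
    obtain rfl := S.ctr_zero hu hv es ss
    subst ep
    rw [S.side_ctr hu hv] at sp
    rw [S.ctrA_eq h hx hy ⟨_, hf⟩ sw]
    refine hG.lab3 _ _ _ hf (fun hc => hO ?_) sp sw ss
    have := S.isO_ctr (v := v) hou hc
    rw [ew, es] at this
    exact this
  · rintro w p s ⟨-, -, -, w0, p0, s0, hf, ew, ep, es⟩ hO sw sp ss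
    simp only [ctrS] at sp sw ss ⊢
    obtain rfl := S.ctr_neg hu hv ew sw
    obtain rfl := S.ctr_zero hu hv es ss
    subst ep
    rw [S.side_ctr hu hv] at sp
    rw [S.ctrA_eq h hx hy (Adj.symm ⟨_, hf⟩) sw]
    refine hG.lab4 _ _ _ hf (fun hc => hO ?_) sw sp ss
    have := S.isO_ctr (v := v) hou hc
    rw [ew, es] at this
    exact this

/-- the two faces at the contracted edge have different third vertices -/
theorem ctr_xy (S : Setup V) (hG : S.Good) (h1 : S.T.F u v x) (h2 : S.T.F v u y)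
    (hu : S.side u = 1) (hv : S.side v = 1) (hx : S.side x ≠ -1) : x ≠ y := by
  rintro rfl
  have key := fun a b c hf => S.T.trans
    (fun a b => (a = u ∨ a = v ∨ a = x) ∧ (b = u ∨ b = v ∨ b = x)) (by
      rintro a b c hf ⟨ha, hb⟩
      refine ⟨hb, ?_⟩
      rcases ha with rfl | rfl | rfl <;> rcases hb with rfl | rfl | rfl
      · exact absurd rfl (S.T.ne _ _ _ hf)
      · exact Or.inr (Or.inr (S.T.uniq _ _ _ _ hf h1))
      · exact Or.inr (Or.inl (S.T.uniq _ _ _ _ hf (S.T.cyc _ _ _ h2)))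
      · exact Or.inr (Or.inr (S.T.uniq _ _ _ _ hf h2))
      · exact absurd rfl (S.T.ne _ _ _ hf)
      · exact Or.inl (S.T.uniq _ _ _ _ hf (S.T.cyc _ _ _ h1))
      · exact Or.inr (Or.inl (S.T.uniq _ _ _ _ hf (S.T.cyc2 h1)))
      · exact Or.inl (S.T.uniq _ _ _ _ hf (S.T.cyc2 h2))
      · exact absurd rfl (S.T.ne _ _ _ hf)) (by
      rintro a b c _ ⟨ha, hb⟩
      exact ⟨hb, ha⟩) u v x a b c h1 hf ⟨Or.inl rfl, Or.inr (Or.inl rfl)⟩
  obtain ⟨w, hw, sw⟩ := hG.minus0
  have hall : w = u ∨ w = v ∨ w = x := by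
    rcases hw with rfl | rfl | rfl
    · exact (key _ _ _ hG.h0).1
    · exact (key _ _ _ hG.h0).2
    · exact (key _ _ _ (S.T.cyc _ _ _ hG.h0)).2
  rcases hall with rfl | rfl | rfl
  · rw [hu] at sw; exact absurd sw (by decide)
  · rw [hv] at sw; exact absurd sw (by decide)
  · exact hx sw

/-- the outer vertices are adjacent to each other -/
theorem outer_adj (S : Setup V) (hG : S.Good) {a b : V} (ha : S.Outer a) (hb : S.Outer b)
    (hab : a ≠ b) : S.T.Adj a b := by
  have e1 : S.T.Adj S.o1 S.o2 := ⟨_, hG.h0⟩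
  have e2 : S.T.Adj S.o2 S.o3 := ⟨_, S.T.cyc _ _ _ hG.h0⟩
  have e3 : S.T.Adj S.o3 S.o1 := ⟨_, S.T.cyc2 hG.h0⟩
  rcases ha with rfl | rfl | rfl <;> rcases hb with rfl | rfl | rfl
  · exact absurd rfl hab
  · exact e1
  · exact e3.symm
  · exact e1.symm
  · exact absurd rfl hab
  · exact e2
  · exact e3
  · exact e2.symm
  · exact absurd rfl hab

theorem sign_one {r : ℝ} (h : SignType.sign r = 1) : 0 < r := sign_eq_one_iff.1 h

theorem sign_neg_one {r : ℝ} (h : SignType.sign r = -1) : r < 0 := sign_eq_neg_one_iff.1 h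

theorem iv_contract_aux [Finite V] (S : Setup V) (hG : S.Good) {u v x y : V}
    (h1 : S.T.F u v x) (h2 : S.T.F v u y) (hu : S.side u = 1) (hv : S.side v = 1)
    (hx : S.side x ≠ -1) (hy : S.side y ≠ -1) (hou : ¬ S.Outer u)
    (hsep : ∀ z, S.T.Adj u z → S.T.Adj v z → z = x ∨ z = y)
    (ih : ∀ S' : Setup V, S'.Good → Set.ncard {t : V × V × V | S'.T.F t.1 t.2.1 t.2.2} <
      Set.ncard {t : V × V × V | S.T.F t.1 t.2.1 t.2.2} → S'.IV) : S.IV := by
  classical
  have h : S.T.CtrOK u v x y := ⟨h1, h2, S.ctr_xy hG h1 h2 hu hv hx, hsep⟩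
  have hG' := S.ctr_good hG h hu hv hx hy hou
  intro Q hQ ε hε
  have hside : (1 : SignType) ≠ -1 := by decide
  have hQ' : (S.ctrS h).OuterOK Q := by
    refine ⟨hQ.sgn, hQ.abs0, ?_⟩
    intro a w ha hw sa sw
    simp only [ctrS] at sa sw ⊢
    have hau : a ≠ u := fun e => hou (e ▸ ha)
    have haw : a ≠ w := by
      rintro rfl
      rw [sa] at sw
      exact hside sw
    have hadj := S.outer_adj hG ha hw haw
    have := S.ctrA_eq h hx hy hadj sw
    rw [ctr_of_ne hau] at this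
    rw [this]
    exact hQ.cross a w ha hw sa sw
  obtain ⟨P, hPQ, hP⟩ := ih (S.ctrS h) hG' (contract_ncard h) Q hQ' (ε / 2) (by linarith)
  have hvx : ctr u v v ≠ ctr u v x := by
    rw [ctr_v, ctr_of_ne h.xu]; exact h.vx
  have huy : ctr u v u ≠ ctr u v y := by
    rw [ctr_u, ctr_of_ne h.uy.symm]; exact h.yv.symm
  have ax : (S.T.contract h).Adj v x := by
    have := contract_adj h ⟨_, S.T.cyc _ _ _ h.f1⟩ hvx
    rwa [ctr_v, ctr_of_ne h.xu] at this
  have ay : (S.T.contract h).Adj v y := by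
    have := contract_adj h ⟨_, S.T.cyc _ _ _ h.f2⟩ huy
    rwa [ctr_u, ctr_of_ne h.uy.symm] at this
  obtain ⟨d, hd1, hd2⟩ := exists_dir (S.T.contract h) hG'.h0 (P := P) hP.pos ax ay h.xy
  -- the new drawing
  set W : V → ℝ × ℝ := fun a => if a = u then d else 0 with hW
  set R : ℝ → V → ℝ × ℝ := fun δ a => P (ctr u v a) + δ • W a with hR
  have Wne : ∀ a, a ≠ u → W a = 0 := by
    intro a ha
    simp only [hW, if_neg ha]
  have Wu : W u = d := by simp [hW]
  have Rne : ∀ δ a, a ≠ u → R δ a = P a := by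
    intro δ a ha
    simp only [hR]
    rw [ctr_of_ne ha, Wne a ha, smul_zero, add_zero]
  have Ru : ∀ δ, R δ u = P v + δ • d := by
    intro δ
    simp only [hR]
    rw [ctr_u, Wu]
  have R0 : ∀ a, R 0 a = P (ctr u v a) := by
    intro a
    simp only [hR, zero_smul, add_zero]
  have Rc : ∀ a, Continuous fun δ => R δ a := by
    intro a
    simp only [hR]
    fun_prop
  -- positivity of the faces
  have pos : ∀ t : V × V × V, ∀ᶠ δ in 𝓝[>] (0 : ℝ), S.T.F t.1 t.2.1 t.2.2 →
      ¬ S.IsO t.1 t.2.1 t.2.2 → 0 < det3 (R δ t.1) (R δ t.2.1) (R δ t.2.2) := by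
    rintro ⟨a, b, c⟩
    simp only
    by_cases hf : S.T.F a b c
    swap
    · exact Filter.Eventually.of_forall (fun δ hf' => absurd hf' hf)
    by_cases hO : S.IsO a b c
    · exact Filter.Eventually.of_forall (fun δ _ hO' => absurd hO hO')
    have hpx : ∀ δ : ℝ, 0 < δ → 0 < det3 (R δ u) (R δ v) (R δ x) := by
      intro δ hδ
      rw [Ru, Rne δ v h.uv.symm, Rne δ x h.xu]
      have : det3 (P v + δ • d) (P v) (P x) =
          δ * (((P x).1 - (P v).1) * d.2 - d.1 * ((P x).2 - (P v).2)) := by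
        simp only [det3, Prod.fst_add, Prod.snd_add, Prod.smul_fst, Prod.smul_snd, smul_eq_mul]
        ring
      rw [this]
      exact mul_pos hδ hd1
    have hpy : ∀ δ : ℝ, 0 < δ → 0 < det3 (R δ v) (R δ u) (R δ y) := by
      intro δ hδ
      rw [Ru, Rne δ v h.uv.symm, Rne δ y h.uy.symm]
      have : det3 (P v) (P v + δ • d) (P y) =
          δ * (d.1 * ((P y).2 - (P v).2) - ((P y).1 - (P v).1) * d.2) := by
        simp only [det3, Prod.fst_add, Prod.snd_add, Prod.smul_fst, Prod.smul_snd, smul_eq_mul]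
        ring
      rw [this]
      exact mul_pos hδ hd2
    have rot1 : ∀ p q r : ℝ × ℝ, det3 q r p = det3 p q r := by
      intro p q r; unfold det3; ring
    by_cases e1 : ctr u v a = ctr u v b
    · filter_upwards [self_mem_nhdsWithin] with δ hδ _ _
      rcases ctr_eq (S.T.ne _ _ _ hf) e1 with ⟨rfl, rfl⟩ | ⟨rfl, rfl⟩
      · rw [S.T.uniq _ _ _ _ hf h.f1]; exact hpx δ hδ
      · rw [S.T.uniq _ _ _ _ hf h.f2]; exact hpy δ hδ
    by_cases e2 : ctr u v b = ctr u v c
    · filter_upwards [self_mem_nhdsWithin] with δ hδ _ _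
      rw [← rot1]
      rcases ctr_eq (S.T.ne _ _ _ (S.T.cyc _ _ _ hf)) e2 with ⟨rfl, rfl⟩ | ⟨rfl, rfl⟩
      · rw [S.T.uniq _ _ _ _ (S.T.cyc _ _ _ hf) h.f1]; exact hpx δ hδ
      · rw [S.T.uniq _ _ _ _ (S.T.cyc _ _ _ hf) h.f2]; exact hpy δ hδ
    by_cases e3 : ctr u v c = ctr u v a
    · filter_upwards [self_mem_nhdsWithin] with δ hδ _ _
      rw [rot1]
      rcases ctr_eq (S.T.ne _ _ _ (S.T.cyc2 hf)) e3 with ⟨rfl, rfl⟩ | ⟨rfl, rfl⟩
      · rw [S.T.uniq _ _ _ _ (S.T.cyc2 hf) h.f1]; exact hpx δ hδ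
      · rw [S.T.uniq _ _ _ _ (S.T.cyc2 hf) h.f2]; exact hpy δ hδ
    have hf' : (S.ctrS h).T.F (ctr u v a) (ctr u v b) (ctr u v c) := ctrF_mk hf e1 e2 e3
    have hO' : ¬ (S.ctrS h).IsO (ctr u v a) (ctr u v b) (ctr u v c) := by
      intro hc
      exact hO (S.isO_of_ctr hG hou hf hc)
    have hp := hP.pos _ _ _ hf' hO'
    rw [← R0, ← R0, ← R0] at hp
    have hcont : Continuous fun δ => det3 (R δ a) (R δ b) (R δ c) := by
      have ha := Rc a
      have hb := Rc b
      have hc := Rc c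
      unfold det3
      fun_prop
    have := (hcont.tendsto 0).eventually (lt_mem_nhds hp)
    filter_upwards [nhdsWithin_le_nhds this] with δ hδ _ _ using hδ
  -- the sign of the new vertex
  have sgn : ∀ᶠ δ in 𝓝[>] (0 : ℝ), 0 < (R δ u).2 := by
    have hp : 0 < (R 0 u).2 := by
      rw [R0, ctr_u]
      have := hP.sgn v ax.supp
      exact sign_one (this.trans hv)
    have hcont : Continuous fun δ => (R δ u).2 := (Rc u).snd
    exact nhdsWithin_le_nhds ((hcont.tendsto 0).eventually (lt_mem_nhds hp))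
  -- the crossings
  have near : ∀ w : V, ∀ᶠ δ in 𝓝[>] (0 : ℝ), S.T.Adj u w → S.side w = -1 →
      |crossAt (R δ u) (R δ w) - S.A u w| < ε := by
    intro w
    by_cases hadj : S.T.Adj u w
    swap
    · exact Filter.Eventually.of_forall (fun δ hf' => absurd hf' hadj)
    by_cases sw : S.side w = -1
    swap
    · exact Filter.Eventually.of_forall (fun δ _ hf' => absurd hf' sw)
    have hwu : w ≠ u := hadj.ne.symm
    have hwv : w ≠ v := by
      rintro rfl
      rw [hv] at sw
      exact hside sw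
    have hne : ctr u v u ≠ ctr u v w := by
      rw [ctr_u, ctr_of_ne hwu]; exact hwv.symm
    have hadj' := contract_adj h hadj hne
    rw [ctr_u, ctr_of_ne hwu] at hadj'
    have hn := hP.near v w hadj' hv sw
    have hA : (S.ctrS h).A v w = S.A u w := by
      have := S.ctrA_eq h hx hy hadj sw
      rw [ctr_u] at this
      exact this
    rw [hA] at hn
    have e0 : R 0 u = P v := by rw [R0, ctr_u]
    have e0' : R 0 w = P w := by rw [R0, ctr_of_ne hwu]
    have hv2 : 0 < (P v).2 := sign_one ((hP.sgn v ax.supp).trans hv)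
    have hw2 : (P w).2 < 0 := sign_neg_one ((hP.sgn w hadj'.symm.supp).trans sw)
    have hn' : |crossAt (R 0 u) (R 0 w) - S.A u w| < ε := by
      rw [e0, e0']; linarith
    have hcont : ContinuousAt (fun δ => |crossAt (R δ u) (R δ w) - S.A u w|) 0 := by
      have c1 := (Rc u).continuousAt (x := 0)
      have c2 := (Rc w).continuousAt (x := 0)
      have hden : (R 0 w).2 - (R 0 u).2 ≠ 0 := by
        rw [e0, e0']; linarith
      unfold crossAt
      refine ContinuousAt.abs (ContinuousAt.sub (ContinuousAt.div ?_ ?_ hden)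
        continuousAt_const)
      · exact (c1.fst.mul c2.snd).sub (c2.fst.mul c1.snd)
      · exact c2.snd.sub c1.snd
    have := hcont.eventually (gt_mem_nhds hn')
    filter_upwards [nhdsWithin_le_nhds this] with δ hδ _ _ using hδ
  obtain ⟨δ, ⟨hpos, hsgn⟩, hnear⟩ :=
    (((Filter.eventually_all.2 pos).and sgn).and (Filter.eventually_all.2 near)).exists
  refine ⟨R δ, ?_, ?_, ?_, ?_, ?_⟩
  · intro a ha
    have hau : a ≠ u := fun e => hou (e ▸ ha)
    rw [Rne δ a hau]
    exact hPQ a ha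
  · intro a b c hf hO
    exact hpos (a, b, c) hf hO
  · intro a ha
    by_cases hau : a = u
    · subst hau
      rw [hu]
      exact sign_pos hsgn
    · rw [Rne δ a hau]
      have := contract_supp h ha
      rw [ctr_of_ne hau] at this
      exact hP.sgn a this
  · intro a ha sa
    have hau : a ≠ u := by
      rintro rfl
      rw [hu] at sa
      exact absurd sa (by decide)
    rw [Rne δ a hau]
    have := contract_supp h ha
    rw [ctr_of_ne hau] at this
    exact hP.abs0 a this sa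
  · intro a w haw sa sw
    by_cases hau : a = u
    · subst hau
      exact hnear w haw sw
    · have hwu : w ≠ u := by
        rintro rfl
        rw [hu] at sw
        exact hside sw
      have hwv : w ≠ v := by
        rintro rfl
        rw [hv] at sw
        exact hside sw
      have hne : ctr u v a ≠ ctr u v w := by
        intro he
        rcases ctr_eq haw.ne he with ⟨e, -⟩ | ⟨-, e⟩
        · exact hau e
        · exact hwu e
      have hadj' := contract_adj h haw hne
      rw [ctr_of_ne hau, ctr_of_ne hwu] at hadj'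
      have hn := hP.near a w hadj' sa sw
      have hA : (S.ctrS h).A a w = S.A a w := by
        have := S.ctrA_eq h hx hy haw sw
        rw [ctr_of_ne hau] at this
        exact this
      rw [hA] at hn
      rw [Rne δ a hau, Rne δ w hwu]
      linarith

/-- **Contraction block**: an edge `u v` inside the upper side whose faces `u v x`, `v u y` have no
third vertex on the lower side, with `u` not outer and with no further common neighbour, may be
contracted. -/
theorem iv_contract [Finite V] {S : Setup V} (hS : S.Good) (u v x y : V)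
    (hx : S.T.F u v x) (hy : S.T.F v u y) (hu : S.side u = 1) (hv : S.side v = 1)
    (hxs : S.side x ≠ -1) (hys : S.side y ≠ -1) (hout : ¬ S.Outer u)
    (hsep : ∀ z, S.T.Adj u z → S.T.Adj v z → z = x ∨ z = y)
    (IH : ∀ S' : Setup V, S'.Good → numF S'.T < numF S.T → S'.IV) : S.IV :=
  iv_contract_aux S hS hx hy hu hv hxs hys hout hsep IH

end Setup

end P4
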