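import Pool.Agent.Lib_MP_b306af.P4ZCore2

/-! # MP_b306af Part IV: P4Mircore -/

namespace P4

variable {V : Type}

namespace Setup

theorem mircore_tt (S : Setup V) (v c : V) (hv : S.side v ≠ 0) :
    S.mirror.tt v c = S.tt v c := by
  unfold tt
  show (if -S.side c = 0 then S.X c else if -S.side v = 1 then S.A c v else S.A v c) =
    (if S.side c = 0 then S.X c else if S.side v = 1 then S.A v c else S.A c v)
  generalize S.side c = p
  generalize hq : S.side v = q
  rw [hq] at hv
  cases p <;> cases q <;> first | rfl | exact absurd rfl hv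

theorem mircore_M [Fintype V] (S : Setup V) (φ : V → V → ℝ) (v : V) (hv : S.side v ≠ 0) :
    S.mirror.M (fun a b => φ b a) v = - S.M φ v := by
  unfold M
  rw [← Finset.sum_neg_distrib]
  refine Finset.sum_congr rfl fun c _ => ?_
  rw [mircore_tt S v c hv]
  ring

theorem mircore_term [Fintype V] (S : Setup V) (φ : V → V → ℝ) (v : V) :
    (S.mirror.side v : ℝ) * S.mirror.M (fun a b => φ b a) v = (S.side v : ℝ) * S.M φ v := by
  show ((-S.side v : SignType) : ℝ) * S.mirror.M (fun a b => φ b a) v = (S.side v : ℝ) * S.M φ v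
  by_cases hv : S.side v = 0
  · rw [hv]
    simp
  · rw [mircore_M S φ v hv, SignType.coe_neg]
    ring

/- Piece MIRCORE (P4Core).  `φ' a b = φ b a`.
`face`: `T.F b a c` gives `φ b a = φ a c = φ c b`.  `star`: for `T.F b s c`, `φ b s = φ s c`, use `star` for
the faces `T.F s c b`, `T.F s c' b'`.  For `side v ≠ 0`, `mirror.tt v c = tt v c` (cases), so
`mirror.M φ' v = - M φ v`; `((-σ : SignType) : ℝ) = - (σ : ℝ)` (`SignType.coe_neg`), terms with
`side v = 0` vanish; `o1` and `o2` are exchanged. -/
theorem CoreHyp.mirror [Fintype V] {S : Setup V} {φ : V → V → ℝ} (H : S.CoreHyp φ) :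
    S.mirror.CoreHyp (fun a b => φ b a) := by
  refine ⟨?_, ?_, ?_, ?_, ?_, ?_, ?_⟩
  · intro a b c h
    have h' : S.T.F b a c := h
    exact (H.face b a c h').trans (H.face a c b (S.T.cyc _ _ _ h'))
  · intro a b h
    refine H.zero b a fun h' => h ?_
    exact (Tri.mirror_Adj S.T a b).2 h'.symm
  · intro a b h hs
    have h1 : S.T.Adj a b := (Tri.mirror_Adj S.T a b).1 h
    have h2 : - S.side a = - S.side b := hs
    exact (H.same a b h1 (neg_injective h2)).symm
  · intro s b c b' c' hs h h' hne
    have e0 : - S.side s = 0 := hs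
    have e1 : S.side s = 0 := by
      revert e0
      generalize S.side s = p
      cases p <;> simp
    have f1 : S.T.F b s c := h
    have f2 : S.T.F b' s c' := h'
    have e2 : S.side c' ≠ S.side b' := fun e => hne (congrArg (fun x => -x) e.symm)
    show φ b s ≤ φ b' s
    rw [H.face b s c f1, H.face b' s c' f2]
    exact H.star s c b c' b' e1 (S.T.cyc _ _ _ f1) (S.T.cyc _ _ _ f2) e2
  · intro v hv ho hs
    have e0 : - S.side v = 1 := hs
    have e1 : S.side v = -1 := by
      revert e0
      generalize S.side v = p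
      cases p <;> decide
    have e2 : S.side v ≠ 0 := by rw [e1]; decide
    rw [mircore_M S φ v e2]
    have := H.mi v ((Tri.mirror_Supp S.T v).1 hv)
      (fun h => ho (h.elim (fun h => Or.inr (Or.inl h))
        (fun h => h.elim (fun h => Or.inl h) (fun h => Or.inr (Or.inr h))))) e1
    linarith
  · intro v hv ho hs
    have e0 : - S.side v = -1 := hs
    have e1 : S.side v = 1 := neg_injective e0
    have e2 : S.side v ≠ 0 := by rw [e1]; decide
    rw [mircore_M S φ v e2]
    have := H.pl v ((Tri.mirror_Supp S.T v).1 hv)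
      (fun h => ho (h.elim (fun h => Or.inr (Or.inl h))
        (fun h => h.elim (fun h => Or.inl h) (fun h => Or.inr (Or.inr h))))) e1
    linarith
  · obtain ⟨w, hw, h⟩ := H.out
    refine ⟨w, hw, ?_⟩
    rw [mircore_term, mircore_term, mircore_term]
    show 0 ≤ w S.o2 * ((S.side S.o2 : ℝ) * S.M φ S.o2) + w S.o1 * ((S.side S.o1 : ℝ) * S.M φ S.o1)
      + w S.o3 * ((S.side S.o3 : ℝ) * S.M φ S.o3)
    linarith

end Setup

end P4
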