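import Pool.Agent.Lib_MP_b306af.P4ZCore1

/-! # MP_b306af Part IV: P4Mirgood -/

namespace P4

variable {V : Type}

namespace Setup

/- Piece MIRGOOD (P4Core).  The reflection in the axis preserves `Good`: `T.mirror.F a b c` is
`T.F b a c`, `mirror.side v = - side v` (`neg_eq_iff_eq_neg`, `decide`), `mirror.A u w = A w u`.
`IsO` of the mirror for `(a, b, c)` is `IsO` for `(b, a, c)`.
`lab1` of the mirror for `u w w'` is `lab2` for the face `T.F u w' w` (rotate `T.F w u w'`);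
`lab2` of the mirror for `w u' u` (`T.F u' w u`) is `lab1` for `T.F w u u'`;
`lab3` of the mirror is `lab4`, `lab4` of the mirror is `lab3` (rotated). `IsO` is invariant under
rotation. -/
theorem mirror_good {S : Setup V} (hS : S.Good) : S.mirror.Good := by
  have hneg : ∀ (x σ : SignType), -x = σ ↔ x = -σ := by decide
  have h1 : ∀ x : SignType, -x = 1 ↔ x = -1 := by decide
  have h2 : ∀ x : SignType, -x = -1 ↔ x = 1 := by decide
  have h3 : ∀ x : SignType, -x = 0 ↔ x = 0 := by decide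
  have hrot : ∀ a b c, S.IsO a b c → S.IsO b c a := by
    rintro a b c (⟨h, h', h''⟩ | ⟨h, h', h''⟩ | ⟨h, h', h''⟩)
    · exact Or.inr (Or.inl ⟨h', h'', h⟩)
    · exact Or.inr (Or.inr ⟨h', h'', h⟩)
    · exact Or.inl ⟨h', h'', h⟩
  have hmir : ∀ a b c, S.IsO b a c → S.mirror.IsO a b c := by
    rintro a b c (⟨h, h', h''⟩ | ⟨h, h', h''⟩ | ⟨h, h', h''⟩)
    · exact Or.inl ⟨h', h, h''⟩
    · exact Or.inr (Or.inr ⟨h', h, h''⟩)
    · exact Or.inr (Or.inl ⟨h', h, h''⟩)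
  have hout : ∀ v, S.Outer v → S.mirror.Outer v := by
    rintro v (h | h | h)
    · exact Or.inr (Or.inl h)
    · exact Or.inl h
    · exact Or.inr (Or.inr h)
  refine ⟨hS.h0, ?_, ?_, ?_, ?_, ?_, ?_, ?_, ?_, ?_⟩
  · obtain ⟨v, hv, hv'⟩ := hS.minus0
    exact ⟨v, hout v hv, (h1 _).2 hv'⟩
  · obtain ⟨v, hv, hv'⟩ := hS.plus0
    exact ⟨v, hout v hv, (h2 _).2 hv'⟩
  · intro a b c hF ha hb
    exact hS.indep b a c hF ((h3 _).1 hb) ((h3 _).1 ha)
  · intro σ hσ P hP a b ha hb hsa hsb hPa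
    refine hS.conn (-σ) (fun h => hσ ((h3 _).1 h)) P ?_ a b ((Tri.mirror_Supp S.T a).1 ha)
      ((Tri.mirror_Supp S.T b).1 hb) ((hneg _ _).1 hsa) ((hneg _ _).1 hsb) hPa
    intro x y z hF hx hy hPx
    obtain ⟨w, hw⟩ := S.T.opp _ _ _ hF
    exact hP x y w hw ((hneg _ _).2 hx) ((hneg _ _).2 hy) hPx
  · intro σ hσ s hs hs0
    obtain ⟨x, hx, hx'⟩ := hS.nbr (-σ) (fun h => hσ ((h3 _).1 h)) s
      ((Tri.mirror_Supp S.T s).1 hs) ((h3 _).1 hs0)
    exact ⟨x, (Tri.mirror_Adj S.T s x).2 hx, (hneg _ _).2 hx'⟩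
  · intro u w w' hF hO hu hw hw'
    have hF' : S.T.F w u w' := hF
    exact hS.lab2 u w' w (S.T.cyc _ _ _ hF')
      (fun h => hO (hmir _ _ _ (hrot _ _ _ (hrot _ _ _ h))))
      ((h1 _).1 hu) ((h2 _).1 hw') ((h2 _).1 hw)
  · intro w u' u hF hO hw hu' hu
    have hF' : S.T.F u' w u := hF
    exact hS.lab1 w u u' (S.T.cyc _ _ _ hF')
      (fun h => hO (hmir _ _ _ (hrot _ _ _ (hrot _ _ _ h))))
      ((h2 _).1 hw) ((h1 _).1 hu) ((h1 _).1 hu')
  · intro u w s hF hO hu hw hs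
    exact hS.lab3 w u s hF (fun h => hO (hmir _ _ _ h)) ((h2 _).1 hw) ((h1 _).1 hu) ((h3 _).1 hs)
  · intro w u s hF hO hw hu hs
    exact hS.lab4 u w s hF (fun h => hO (hmir _ _ _ h)) ((h1 _).1 hu) ((h2 _).1 hw) ((h3 _).1 hs)

end Setup

end P4
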