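import Mathlib

/-! # MP_b306af Part IV: P4Cycle -/

namespace P4

/- Piece CYCLE (P4Cycle, Mathlib only).
Put `e r = f^[r + 1] l`, so `e 0 = f l`, `e (r + 1) = f (e r)`, all `B (e r)`.
Take `R x := ∃ r, e r = x`: it satisfies the hypothesis of `htr`, and `R (f l)`, so every `x` with
`B x` is some `e r`.  In particular `l = e r` for some `r`; let `m - 1` be the least such `r`.
Then `e m = f l = e 0`, so `e` is `m`-periodic, and every `x` with `B x` is `e r` with `r < m`
(`r % m`).  Injectivity on `r < m`: if `e r = e s` with `r < s < m`, then applying `f`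
`m - 1 - s` times gives `e (m - 1 - (s - r)) = e (m - 1) = l` with `m - 1 - (s - r) < m - 1`,
contradiction to minimality. (`hinj` is not even needed.) -/
theorem enum_cycle {α : Type} (B : α → Prop) (f : α → α)
    (hf : ∀ x, B x → B (f x))
    (htr : ∀ R : α → Prop, (∀ x, B x → R x → R (f x)) → ∀ x y, B x → B y → R x → R y)
    (l : α) (hl : B l) :
    ∃ (m : ℕ) (e : ℕ → α), 0 < m ∧ e 0 = f l ∧ e (m - 1) = l ∧ (∀ r, e (r + 1) = f (e r)) ∧
      (∀ r, B (e r)) ∧ (∀ r < m, ∀ s < m, e r = e s → r = s) ∧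
      (∀ x, B x → ∃ r < m, e r = x) := by
  have hB : ∀ r, B (f^[r] l) := by
    intro r
    induction r with
    | zero => exact hl
    | succ n ih =>
      rw [Function.iterate_succ_apply']
      exact hf _ ih
  have hR : ∀ x, B x → ∃ r, f^[r + 1] l = x := by
    intro x hx
    refine htr (fun x => ∃ r, f^[r + 1] l = x) ?_ (f l) x (hf l hl) hx ⟨0, rfl⟩
    rintro y _ ⟨r, rfl⟩
    exact ⟨r + 1, by rw [Function.iterate_succ_apply']⟩
  obtain ⟨r0, hr0⟩ := hR l hl
  have hper : l ∈ Function.periodicPts f := ⟨r0 + 1, Nat.succ_pos _, hr0⟩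
  have hpos : 0 < Function.minimalPeriod f l := Function.minimalPeriod_pos_of_mem_periodicPts hper
  have hmp : Function.minimalPeriod f (f l) = Function.minimalPeriod f l :=
    Function.minimalPeriod_apply hper
  refine ⟨Function.minimalPeriod f l, fun r => f^[r + 1] l, hpos, rfl, ?_, ?_, fun r => hB _,
    ?_, ?_⟩
  · show f^[Function.minimalPeriod f l - 1 + 1] l = l
    rw [Nat.sub_add_cancel hpos]
    exact Function.isPeriodicPt_minimalPeriod f l
  · intro r
    show f^[r + 1 + 1] l = f (f^[r + 1] l)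
    rw [Function.iterate_succ_apply']
  · intro r hr s hs h
    have h' : f^[r] (f l) = f^[s] (f l) := h
    rw [← hmp] at hr hs
    exact Function.iterate_injOn_Iio_minimalPeriod hr hs h'
  · intro x hx
    obtain ⟨r, rfl⟩ := hR x hx
    refine ⟨r % Function.minimalPeriod f l, Nat.mod_lt _ hpos, ?_⟩
    show f^[r % Function.minimalPeriod f l] (f l) = f^[r] (f l)
    rw [← hmp, Function.iterate_mod_minimalPeriod_eq]

end P4
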