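import Mathlib

/-! # MP_b306af Part IV: P4ZSeq1 -/

namespace P4

open Finset

variable {V : Type}

/-- the previous value, cyclically -/
def prv (m : ℕ) (f : ℕ → ℝ) (r : ℕ) : ℝ := if r = 0 then f (m - 1) else f (r - 1)

open Classical in
/-- the sum over the occurrences of `v` -/
noncomputable def occ (m : ℕ) (a : ℕ → V) (v : V) (g : ℕ → ℝ) : ℝ :=
  ∑ r ∈ (range m).filter (fun r => a r = v), g r

/-- the moment of `v` -/
noncomputable def mom (m : ℕ) (a : ℕ → V) (t f : ℕ → ℝ) (v : V) : ℝ :=
  occ m a v (fun r => t r * (f r - prv m f r))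

structure SeqData (m : ℕ) (a : ℕ → V) (t f : ℕ → ℝ) : Prop where
  hm : 0 < m
  /-- no alternation -/
  abab : ∀ i k j l, i < k → k < m → j < m → l < m → a i = a k → a j = a l → a j ≠ a i →
    i < j → j < k → i < l ∧ l < k
  lt : ∀ i k, i < k → k < m → a i = a k → t i < t k
  /-- conservation -/
  cons : ∀ v, occ m a v (fun r => f r - prv m f r) = 0

end P4
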