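import Pool.Agent.Lib_MP_b306af.P4ZCore2
import Pool.Agent.Lib_MP_b306af.P4ZBond2
import Pool.Agent.Lib_MP_b306af.P4ZSeq1

/-! # MP_b306af Part IV: P4Occ -/

namespace P4

variable {V : Type}

namespace Setup

/- Piece OCC (P4Core).  `r ↦ (E.e r).2` is a bijection from the occurrences `r < m` of `v` onto
`{c | IsBond (v, c)}` (`E.inj`, `E.surj`, `E.bond`): `Finset.sum_bij` or `Finset.sum_nbij`. -/
theorem BondSeq.occ_eq [Fintype V] {S : Setup V} (E : S.BondSeq) (v : V) (g : V × V → ℝ)
    [DecidablePred fun c => S.IsBond (v, c)] :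
    occ E.m (fun r => (E.e r).1) v (fun r => g (E.e r)) =
      ∑ c, if S.IsBond (v, c) then g (v, c) else 0 := by
  classical
  unfold occ
  rw [← Finset.sum_filter]
  have hpair : ∀ r, (E.e r).1 = v → E.e r = (v, (E.e r).2) := fun r hr =>
    Prod.ext hr rfl
  refine Finset.sum_bij (fun r _ => (E.e r).2) ?_ ?_ ?_ ?_
  · intro r hr
    have h1 := (Finset.mem_filter.1 hr).2
    rw [Finset.mem_filter]
    refine ⟨Finset.mem_univ _, ?_⟩
    rw [← hpair r h1]
    exact E.bond r
  · intro r hr t ht h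
    have h1 := Finset.mem_filter.1 hr
    have h2 := Finset.mem_filter.1 ht
    refine E.inj r (Finset.mem_range.1 h1.1) t (Finset.mem_range.1 h2.1) ?_
    exact Prod.ext (h1.2.trans h2.2.symm) h
  · intro c hc
    obtain ⟨r, hr, he⟩ := E.surj (v, c) (Finset.mem_filter.1 hc).2
    refine ⟨r, Finset.mem_filter.2 ⟨Finset.mem_range.2 hr, ?_⟩, ?_⟩
    · show (E.e r).1 = v
      rw [he]
    · show (E.e r).2 = c
      rw [he]
  · intro r hr
    show g (E.e r) = g (v, (E.e r).2)
    rw [← hpair r (Finset.mem_filter.1 hr).2]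

end Setup

end P4
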