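import Pool.Agent.Lib_MP_b306af.P4ZCore3
import Pool.Agent.Lib_MP_b306af.P4Occ

/-! # MP_b306af Part IV: P4Momeq -/

namespace P4

variable {V : Type}

namespace Setup

/- Piece MOMEQ (P4Core, uses `occ_eq`, `prv_eq`).  Same computation with the factor
`tO (v, c) = tt v c` for a bond edge `(v, c)` (`side v = 1`); the other terms of `M φ v` vanish
by `H.zero`, `H.same`.  If `side v ≠ 1` there is no occurrence and the sum is empty. -/
theorem BondSeq.mom_eq [Fintype V] {S : Setup V} {φ : V → V → ℝ} (H : S.CoreHyp φ)
    (E : S.BondSeq) (v : V) :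
    (S.side v = 1 → mom E.m (fun r => (E.e r).1) (fun r => S.tO (E.e r))
      (fun r => φ (E.e r).1 (E.e r).2) v = S.M φ v) ∧
    (S.side v ≠ 1 → mom E.m (fun r => (E.e r).1) (fun r => S.tO (E.e r))
      (fun r => φ (E.e r).1 (E.e r).2) v = 0) := by
  classical
  have key : mom E.m (fun r => (E.e r).1) (fun r => S.tO (E.e r))
      (fun r => φ (E.e r).1 (E.e r).2) v =
      ∑ c, if S.IsBond (v, c) then S.tO (v, c) * (φ v c - φ c v) else 0 := by
    have h1 := E.occ_eq v (fun e => S.tO e * (φ e.1 e.2 - φ e.2 e.1))
    rw [← h1]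
    unfold mom
    congr 1
    funext r
    rw [E.prv_eq H r]
  rw [key]
  constructor
  · intro hv
    unfold M
    apply Finset.sum_congr rfl
    intro c _
    split_ifs with hb
    · have ht : S.tO (v, c) = S.tt v c := by
        unfold tO tt
        simp only [hv, if_true]
      rw [ht]
    · by_cases hadj : S.T.Adj v c
      · have hc : S.side c = 1 := by
          by_contra hc
          exact hb ⟨hadj, hv, hc⟩
        rw [H.same v c hadj (hv.trans hc.symm), sub_self, mul_zero]
      · rw [H.zero v c hadj, H.zero c v (fun h => hadj h.symm), sub_self, mul_zero]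
  · intro hv
    apply Finset.sum_eq_zero
    intro c _
    rw [if_neg]
    rintro ⟨_, h, _⟩
    exact hv h

end Setup

end P4
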