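import Pool.Agent.Lib_MP_b306af.P4Linkf

/-! # MP_b306af Part IV: P4ZBasic1 -/

namespace P4

variable {V : Type}

namespace Tri

/-- every neighbour of `a` is reached from every other one by turning around `a` -/
theorem iter_nx [Finite V] (T : Tri V) (a b b' : V) (hb : T.Adj a b) (hb' : T.Adj a b') :
    ∃ n : ℕ, (fun c => T.nx a c)^[n] b = b' := by
  refine T.link_fwd a (fun c => ∃ n : ℕ, (fun c => T.nx a c)^[n] b = c) ?_ b b' hb hb' ⟨0, rfl⟩
  rintro c d hF ⟨n, hn⟩
  refine ⟨n + 1, ?_⟩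
  rw [Function.iterate_succ_apply', hn]
  exact T.nx_eq hF

end Tri

end P4
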