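import Pool.Agent.Lib_MP_b306af.P4ZBond2
import Pool.Agent.Lib_MP_b306af.P4ZBasic1

/-! # MP_b306af Part IV: P4Noabab -/

namespace P4

variable {V : Type}

namespace Setup

variable {S : Setup V}

/- Piece NOABAB (P4Bond).  Vertices above the axis do not alternate along the bond.
Let `a = (e i).1 = (e k).1`, `b = (e j).1 = (e l).1 ≠ a`, `c_i = (e i).2`, `c_k = (e k).2`.
(1) `κ1 x y = 1` if `(x, y) = e r` for some `r` with `i < r ≤ k`, `-1` if `(y, x)` is of this form,
`0` otherwise (antisymmetric since the first component of `e r` is above and the second is not).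
On the face left of `e r`, `r < m` (every face with a vertex above and a vertex not above is of
this form, after rotation, for exactly one `r`) the sum is `[i < r ≤ k] - [e' = succ (e r)]` where
the second bracket means: `succ (e r)` is `e r'` with `i < r' ≤ k`; `r' = r + 1` if `r + 1 < m` and
`r' = 0` if `r = m - 1` (`E.step`, `E.wrap`, `E.inj`).  So the sum is `1` for `r = k`, `-1` for `r = i`
and `0` otherwise.
(2) Let `ν n = (fun c => S.T.nx a c)^[n] c_i`; by `Tri.iter_nx` there is `N` with `ν N = c_k`.  Let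
`g x = #{n | 1 ≤ n ≤ N ∧ ν n = x}` (a real number) and `κ2 a x = g x`, `κ2 x a = - g x` for `x`
adjacent to `a`, all other values `0`.  On a face `S.T.F a y z` (`z = nx a y`) the sum of `κ2` is
`g y - g z`; since `nx a` is injective on neighbours of `a`, `ν n = z ↔ ν (n - 1) = y` for `n ≥ 1`, so
it is `#{n ∈ [1, N] | ν n = y} - #{n ∈ [0, N - 1] | ν n = y} = [y = c_k] - [y = c_i]`.  On faces
without `a` it is `0`.  (`c_i ≠ c_k` by `E.inj`.)
(3) So `κ = κ1 - κ2` has sum `0` on every face: the faces left of `e i = (a, c_i)` and of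
`e k = (a, c_k)` are exactly the ones where both sums are `-1`, `1`.  `T.exact`: `κ x y = h y - h x`.
(4) `κ = 0` between vertices which are not above, so `h` is constant `= H` on them (as in BTR, (4)).
For a bond edge `e r = (u, c)` with `u ≠ a`, `κ2 u c = 0` and so `h u = H - [i < r ≤ k]`.  For
`r = j` and `r = l` this gives `[i < j ≤ k] = [i < l ≤ k]`; and `l ≠ k` because `b ≠ a`. -/
theorem BondSeq.noabab [Finite V] (hS : S.Good) (E : S.BondSeq) (i k j l : ℕ) (hik : i < k)
    (hk : k < E.m) (hj : j < E.m) (hl : l < E.m) (h1 : (E.e i).1 = (E.e k).1)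
    (h2 : (E.e j).1 = (E.e l).1) (h3 : (E.e j).1 ≠ (E.e i).1) (hij : i < j) (hjk : j < k) :
    i < l ∧ l < k := by
  classical
  obtain ⟨a, ha⟩ : ∃ a, a = (E.e i).1 := ⟨_, rfl⟩
  obtain ⟨ci, hci⟩ : ∃ c, c = (E.e i).2 := ⟨_, rfl⟩
  obtain ⟨ck, hck⟩ : ∃ c, c = (E.e k).2 := ⟨_, rfl⟩
  have him : i < E.m := hik.trans hk
  have ei : E.e i = (a, ci) := Prod.ext ha.symm hci.symm
  have ek : E.e k = (a, ck) := Prod.ext (h1.symm.trans ha.symm) hck.symm
  have bi : S.IsBond (a, ci) := ei ▸ E.bond i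
  have bk : S.IsBond (a, ck) := ek ▸ E.bond k
  let R : V × V → Prop := fun p => ∃ r, i < r ∧ r ≤ k ∧ E.e r = p
  have hRe : ∀ r < E.m, (R (E.e r) ↔ i < r ∧ r ≤ k) := by
    intro r hr
    constructor
    · rintro ⟨r', h1, h2, h3⟩
      have := E.inj r' (by omega) r hr h3
      omega
    · rintro ⟨h1, h2⟩
      exact ⟨r, h1, h2, rfl⟩
  have hRs : ∀ r < E.m, (R (S.succ (E.e r)) ↔ i ≤ r ∧ r < k) := by
    intro r hr
    rcases Nat.lt_or_ge (r + 1) E.m with h | h
    · rw [← E.step r, hRe (r + 1) h]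
      omega
    · have hrm : r = E.m - 1 := by omega
      have e0 : S.succ (E.e r) = E.e 0 := by rw [hrm]; exact E.wrap.symm
      rw [e0, hRe 0 E.hm]
      omega
  have hRb : ∀ p, R p → S.IsBond p := by
    rintro p ⟨r, -, -, rfl⟩
    exact E.bond r
  let κ1 : V → V → ℝ := fun x y => (if R (x, y) then 1 else 0) - (if R (y, x) then 1 else 0)
  let δ : V → V → ℝ := fun x y =>
    (if x = a ∧ y = ck then 1 else 0) - (if x = a ∧ y = ci then 1 else 0)
  have hδ0 : ∀ x y, ¬ S.IsBond (x, y) → δ x y = 0 := by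
    intro x y hb
    have n1 : ¬ (x = a ∧ y = ck) := by rintro ⟨rfl, rfl⟩; exact hb bk
    have n2 : ¬ (x = a ∧ y = ci) := by rintro ⟨rfl, rfl⟩; exact hb bi
    show (if x = a ∧ y = ck then (1 : ℝ) else 0) - (if x = a ∧ y = ci then 1 else 0) = 0
    rw [if_neg n1, if_neg n2, sub_zero]
  have hκ0 : ∀ x y, ¬ S.IsBond (x, y) → ¬ S.IsBond (y, x) → κ1 x y = 0 := by
    intro x y hb hb'
    show (if R (x, y) then (1 : ℝ) else 0) - (if R (y, x) then 1 else 0) = 0
    rw [if_neg (fun h => hb (hRb _ h)), if_neg (fun h => hb' (hRb _ h)), sub_zero]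
  have nb1 : ∀ x y, S.side x ≠ 1 → ¬ S.IsBond (x, y) := fun x y h hb => h hb.2.1
  have nb2 : ∀ x y, S.side y = 1 → ¬ S.IsBond (x, y) := fun x y h hb => hb.2.2 h
  have hκp : ∀ x y, S.side y ≠ 1 → κ1 x y = if R (x, y) then 1 else 0 := by
    intro x y hy
    show (if R (x, y) then (1 : ℝ) else 0) - (if R (y, x) then 1 else 0) = _
    rw [if_neg (fun h => nb1 _ _ hy (hRb _ h)), sub_zero]
  have hκm : ∀ x y, S.side x ≠ 1 → κ1 x y = - if R (y, x) then 1 else 0 := by
    intro x y hx
    show (if R (x, y) then (1 : ℝ) else 0) - (if R (y, x) then 1 else 0) = _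
    rw [if_neg (fun h => nb1 _ _ hx (hRb _ h)), zero_sub]
  -- the sum of `κ1` on a face
  have A : ∀ x y z, S.T.F x y z → S.side x = 1 → S.side y ≠ 1 →
      κ1 x y + κ1 y z + κ1 z x = δ x y := by
    intro x y z hF hx hy
    have hb : S.IsBond (x, y) := ⟨⟨z, hF⟩, hx, hy⟩
    obtain ⟨r, hr, her⟩ := E.surj (x, y) hb
    have hnx : S.T.nx x y = z := S.T.nx_eq hF
    have key : κ1 x y + κ1 y z + κ1 z x =
        (if R (E.e r) then 1 else 0) - (if R (S.succ (E.e r)) then 1 else 0) := by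
      by_cases hz : S.side z = 1
      · have hs : S.succ (E.e r) = (z, y) := by
          rw [her]; unfold succ
          rw [hnx, if_pos hz]
        rw [hs, her, hκp x y hy, hκm y z hy, hκ0 z x (nb2 _ _ hx) (nb2 _ _ hz)]
        ring
      · have hs : S.succ (E.e r) = (x, z) := by
          rw [her]; unfold succ
          rw [hnx, if_neg hz]
        rw [hs, her, hκp x y hy, hκm z x hz, hκ0 y z (nb1 _ _ hy) (nb1 _ _ hz)]
        ring
    have d1 : (x = a ∧ y = ck) ↔ r = k := by
      constructor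
      · rintro ⟨h5, h6⟩
        apply E.inj r hr k hk
        rw [her, ek, h5, h6]
      · intro h5
        rw [h5, ek] at her
        exact ⟨(Prod.ext_iff.1 her).1.symm, (Prod.ext_iff.1 her).2.symm⟩
    have d2 : (x = a ∧ y = ci) ↔ r = i := by
      constructor
      · rintro ⟨h5, h6⟩
        apply E.inj r hr i him
        rw [her, ei, h5, h6]
      · intro h5
        rw [h5, ei] at her
        exact ⟨(Prod.ext_iff.1 her).1.symm, (Prod.ext_iff.1 her).2.symm⟩
    rw [key]
    show _ = (if x = a ∧ y = ck then (1 : ℝ) else 0) - (if x = a ∧ y = ci then 1 else 0)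
    simp only [hRe r hr, hRs r hr, d1, d2]
    by_cases g1 : r = k
    · have g2 : ¬ r = i := by omega
      have g3 : i < r ∧ r ≤ k := by omega
      have g4 : ¬ (i ≤ r ∧ r < k) := by omega
      rw [if_pos g1, if_neg g2, if_pos g3, if_neg g4]
    · by_cases g2 : r = i
      · have g3 : ¬ (i < r ∧ r ≤ k) := by omega
        have g4 : i ≤ r ∧ r < k := by omega
        rw [if_neg g1, if_pos g2, if_neg g3, if_pos g4]
      · by_cases g3 : i < r ∧ r ≤ k
        · have g4 : i ≤ r ∧ r < k := by omega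
          rw [if_neg g1, if_neg g2, if_pos g3, if_pos g4, sub_self, sub_zero]
        · have g4 : ¬ (i ≤ r ∧ r < k) := by omega
          rw [if_neg g1, if_neg g2, if_neg g3, if_neg g4]
  have C : ∀ x y z, S.T.F x y z →
      κ1 x y + κ1 y z + κ1 z x = δ x y + δ y z + δ z x := by
    intro x y z hF
    by_cases hx : S.side x = 1
    · by_cases hy : S.side y = 1
      · by_cases hz : S.side z = 1
        · rw [hκ0 x y (nb2 _ _ hy) (nb2 _ _ hx), hκ0 y z (nb2 _ _ hz) (nb2 _ _ hy),
            hκ0 z x (nb2 _ _ hx) (nb2 _ _ hz), hδ0 x y (nb2 _ _ hy), hδ0 y z (nb2 _ _ hz),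
            hδ0 z x (nb2 _ _ hx)]
        · have := A y z x (S.T.cyc _ _ _ hF) hy hz
          rw [hδ0 x y (nb2 _ _ hy), hδ0 z x (nb2 _ _ hx)]
          linarith
      · have := A x y z hF hx hy
        rw [hδ0 y z (nb1 _ _ hy), hδ0 z x (nb2 _ _ hx)]
        linarith
    · by_cases hz : S.side z = 1
      · have := A z x y (S.T.cyc2 hF) hz hx
        rw [hδ0 x y (nb1 _ _ hx), hδ0 y z (nb2 _ _ hz)]
        linarith
      · by_cases hy : S.side y = 1
        · have := A y z x (S.T.cyc _ _ _ hF) hy hz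
          rw [hδ0 x y (nb1 _ _ hx), hδ0 z x (nb1 _ _ hz)]
          linarith
        · rw [hκ0 x y (nb1 _ _ hx) (nb1 _ _ hy), hκ0 y z (nb1 _ _ hy) (nb1 _ _ hz),
            hκ0 z x (nb1 _ _ hz) (nb1 _ _ hx), hδ0 x y (nb1 _ _ hx), hδ0 y z (nb1 _ _ hy),
            hδ0 z x (nb1 _ _ hz)]
  -- turning around `a`
  obtain ⟨N, hN⟩ := S.T.iter_nx a ci ck bi.1 bk.1
  let ν : ℕ → V := fun n => (fun c => S.T.nx a c)^[n] ci
  have hν0 : ν 0 = ci := rfl
  have hνN : ν N = ck := hN
  have hνs : ∀ n, ν (n + 1) = S.T.nx a (ν n) := fun n => Function.iterate_succ_apply' _ _ _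
  have hνa : ∀ n, S.T.Adj a (ν n) := by
    intro n
    induction n with
    | zero => exact bi.1
    | succ n ih =>
      rw [hνs]
      exact Tri.Adj.symm ⟨_, S.T.cyc2 (S.T.F_nx ih)⟩
  let g : V → ℝ := fun y => ∑ n ∈ Finset.range N, if ν (n + 1) = y then (1 : ℝ) else 0
  have G : ∀ y z, S.T.F a y z → g y - g z = δ a y := by
    intro y z hF
    have h5 : g z = ∑ n ∈ Finset.range N, if ν n = y then (1 : ℝ) else 0 := by
      refine Finset.sum_congr rfl (fun n _ => ?_)
      have h6 : ν (n + 1) = z ↔ ν n = y := by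
        constructor
        · intro h7
          have h8 := S.T.F_nx (hνa n)
          rw [← hνs n, h7] at h8
          exact S.T.uniq _ _ _ _ (S.T.cyc2 h8) (S.T.cyc2 hF)
        · intro h7
          rw [hνs, h7]
          exact S.T.nx_eq hF
      simp only [h6]
    rw [h5]
    show (∑ n ∈ Finset.range N, if ν (n + 1) = y then (1 : ℝ) else 0) - _ = _
    rw [← Finset.sum_sub_distrib, Finset.sum_range_sub (fun n => if ν n = y then (1 : ℝ) else 0),
      hνN, hν0]
    show _ = (if a = a ∧ y = ck then (1 : ℝ) else 0) - (if a = a ∧ y = ci then 1 else 0)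
    simp only [true_and, eq_comm (a := y)]
  let κ2 : V → V → ℝ := fun x y => (if x = a then g y else 0) - (if y = a then g x else 0)
  have hκ2 : ∀ x y, x ≠ a → y ≠ a → κ2 x y = 0 := by
    intro x y hx hy
    show (if x = a then g y else 0) - (if y = a then g x else 0) = 0
    rw [if_neg hx, if_neg hy, sub_zero]
  have hκ2a : ∀ y, y ≠ a → κ2 a y = g y := by
    intro y hy
    show (if a = a then g y else 0) - (if y = a then g a else 0) = g y
    rw [if_pos rfl, if_neg hy, sub_zero]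
  have hκ2b : ∀ y, y ≠ a → κ2 y a = - g y := by
    intro y hy
    show (if y = a then g a else 0) - (if a = a then g y else 0) = - g y
    rw [if_pos rfl, if_neg hy, zero_sub]
  have hδa : ∀ x y, x ≠ a → δ x y = 0 := by
    intro x y hx
    show (if x = a ∧ y = ck then (1 : ℝ) else 0) - (if x = a ∧ y = ci then 1 else 0) = 0
    rw [if_neg (fun h => hx h.1), if_neg (fun h => hx h.1), sub_zero]
  have B1 : ∀ y z, S.T.F a y z → κ2 a y + κ2 y z + κ2 z a = δ a y + δ y z + δ z a := by
    intro y z hF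
    have n1 : y ≠ a := (S.T.ne _ _ _ hF).symm
    have n2 : z ≠ a := S.T.ne _ _ _ (S.T.cyc2 hF)
    rw [hκ2a y n1, hκ2 y z n1 n2, hκ2b z n2, hδa y z n1, hδa z a n2, ← G y z hF]
    ring
  have B : ∀ x y z, S.T.F x y z → κ2 x y + κ2 y z + κ2 z x = δ x y + δ y z + δ z x := by
    intro x y z hF
    by_cases hx : x = a
    · subst hx; exact B1 y z hF
    · by_cases hy : y = a
      · subst hy
        have := B1 z x (S.T.cyc _ _ _ hF)
        linarith
      · by_cases hz : z = a
        · subst hz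
          have := B1 x y (S.T.cyc2 hF)
          linarith
        · rw [hκ2 x y hx hy, hκ2 y z hy hz, hκ2 z x hz hx, hδa x y hx, hδa y z hy, hδa z x hz]
  obtain ⟨h, hh⟩ := S.T.exact (fun x y => κ1 x y - κ2 x y) (by
    intro x y
    show ((if R (x, y) then (1 : ℝ) else 0) - (if R (y, x) then 1 else 0)) -
      ((if x = a then g y else 0) - (if y = a then g x else 0)) =
      - (((if R (y, x) then (1 : ℝ) else 0) - (if R (x, y) then 1 else 0)) -
      ((if y = a then g x else 0) - (if x = a then g y else 0)))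
    ring) (by
    intro x y z hF
    have e1 := C x y z hF
    have e2 := B x y z hF
    show κ1 x y - κ2 x y + (κ1 y z - κ2 y z) + (κ1 z x - κ2 z x) = 0
    linarith)
  have haS : S.side a = 1 := bi.2.1
  have hna : ∀ x, S.side x ≠ 1 → x ≠ a := fun x hx e => hx (e ▸ haS)
  have nab : ∀ x y, S.T.Adj x y → S.side x ≠ 1 → S.side y ≠ 1 → h x = h y := by
    rintro x y ⟨z, hF⟩ hx hy
    have e1 := hh x y z hF
    have e2 := hκ0 x y (nb1 _ _ hx) (nb1 _ _ hy)
    have e3 := hκ2 x y (hna x hx) (hna y hy)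
    linarith
  have hmm : ∀ x y, S.T.Supp x → S.T.Supp y → S.side x = -1 → S.side y = -1 → h x = h y := by
    intro x y hx hy sx sy
    have h5 := hS.conn (-1) (by decide) (fun v => h v = h x) (by
      intro p q r hF sp sq hp
      show h q = h x
      rw [← hp]
      exact (nab p q ⟨r, hF⟩ (by rw [sp]; decide) (by rw [sq]; decide)).symm) x y hx hy sx sy rfl
    exact h5.symm
  have hto : ∀ x, S.T.Supp x → S.side x ≠ 1 →
      ∃ y, S.T.Supp y ∧ S.side y = -1 ∧ h x = h y := by
    intro x hx sx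
    by_cases h0 : S.side x = 0
    · obtain ⟨y, hxy, sy⟩ := hS.nbr (-1) (by decide) x hx h0
      exact ⟨y, (Tri.Adj.symm hxy).supp, sy, nab x y hxy sx (by rw [sy]; decide)⟩
    · have three : ∀ σ : SignType, σ ≠ 1 → σ ≠ 0 → σ = -1 := by decide
      exact ⟨x, hx, three _ sx h0, rfl⟩
  have hall : ∀ x y, S.T.Supp x → S.T.Supp y → S.side x ≠ 1 → S.side y ≠ 1 → h x = h y := by
    intro x y hx hy sx sy
    obtain ⟨x', h5, h6, h7⟩ := hto x hx sx
    obtain ⟨y', h8, h9, h10⟩ := hto y hy sy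
    rw [h7, h10]
    exact hmm x' y' h5 h8 h6 h9
  have Dr : ∀ r < E.m, (E.e r).1 ≠ a →
      h (E.e r).2 - h (E.e r).1 = if i < r ∧ r ≤ k then 1 else 0 := by
    intro r hr hne
    have hb := E.bond r
    obtain ⟨z, hF⟩ := hb.1
    have e1 := hh _ _ z hF
    have e2 := hκp (E.e r).1 (E.e r).2 hb.2.2
    have e3 := hκ2 (E.e r).1 (E.e r).2 hne (hna _ hb.2.2)
    have e4 : ((E.e r).1, (E.e r).2) = E.e r := rfl
    rw [e4] at e2
    simp only [hRe r hr] at e2
    rw [← e2]
    linarith
  have hja : (E.e j).1 ≠ a := by rw [ha]; exact h3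
  have hla : (E.e l).1 ≠ a := by rw [← h2]; exact hja
  have e1 := Dr j hj hja
  have e2 := Dr l hl hla
  have e3 := hall (E.e j).2 (E.e l).2 (Tri.Adj.symm (E.bond j).1).supp
    (Tri.Adj.symm (E.bond l).1).supp (E.bond j).2.2 (E.bond l).2.2
  have hj2 : i < j ∧ j ≤ k := ⟨hij, hjk.le⟩
  rw [if_pos hj2] at e1
  rw [← h2, ← e3, e1] at e2
  have hl2 : i < l ∧ l ≤ k := by
    by_contra hcon
    rw [if_neg hcon] at e2
    exact one_ne_zero e2
  refine ⟨hl2.1, lt_of_le_of_ne hl2.2 ?_⟩
  intro hlk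
  apply hla
  rw [hlk, ek]

end Setup

end P4
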