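import Pool.Agent.Lib_MP_b306af.P4ZCore3
import Pool.Agent.Lib_MP_b306af.P4Occ
import Pool.Agent.Lib_MP_b306af.P4Noabab
import Pool.Agent.Lib_MP_b306af.P4Circ

/-! # MP_b306af Part IV: P4Seqdata -/

namespace P4

variable {V : Type}

namespace Setup

/- Piece SEQDATA (P4Core, uses `occ_eq`, `prv_eq`, `Tri.circ`, `noabab`, `lab_same_lt`).
`abab` and `lt` are `E.noabab`, `E.lab_same_lt`.  `cons`: if `v` is not above, it has no occurrence
(`E.bond`) and the sum is empty.  If it is, by `prv_eq` and `occ_eq` with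
`g (v, c) = φ v c - φ c v` the sum is `∑ c, [IsBond (v, c)] (φ v c - φ c v)`, and the
terms with `¬ IsBond (v, c)` vanish: either `c` is not adjacent to `v` (`H.zero`, both darts) or
`side c = 1` (`H.same`).  So it is `∑ c, (φ v c - φ c v) = 0` by `Tri.circ`. -/
theorem BondSeq.seqData [Fintype V] {S : Setup V} (hS : S.Good) {φ : V → V → ℝ}
    (H : S.CoreHyp φ) (E : S.BondSeq) :
    SeqData E.m (fun r => (E.e r).1) (fun r => S.tO (E.e r))
      (fun r => φ (E.e r).1 (E.e r).2) := by
  classical
  refine ⟨E.hm, ?_, ?_, ?_⟩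
  · intro i k j l hik hk hj hl h1 h2 h3 hij hjk
    exact E.noabab hS i k j l hik hk hj hl h1 h2 h3 hij hjk
  · intro i k hik hk h
    exact E.lab_same_lt hS i k hik hk h
  · intro v
    have e1 : (fun r => φ (E.e r).1 (E.e r).2 -
        prv E.m (fun r => φ (E.e r).1 (E.e r).2) r) =
        fun r => (fun p : V × V => φ p.1 p.2 - φ p.2 p.1) (E.e r) := by
      funext r
      rw [BondSeq.prv_eq H E r]
    show occ E.m (fun r => (E.e r).1) v (fun r => φ (E.e r).1 (E.e r).2 -
        prv E.m (fun r => φ (E.e r).1 (E.e r).2) r) = 0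
    rw [e1, BondSeq.occ_eq E v (fun p : V × V => φ p.1 p.2 - φ p.2 p.1)]
    by_cases hv : S.side v = 1
    · refine Eq.trans (Finset.sum_congr rfl fun c _ => ?_) (S.T.circ φ H.face H.zero v)
      split_ifs with hc
      · rfl
      · by_cases hadj : S.T.Adj v c
        · have hc1 : S.side c = 1 := by
            by_contra hcon
            exact hc ⟨hadj, hv, hcon⟩
          rw [H.same v c hadj (hv.trans hc1.symm), sub_self]
        · rw [H.zero v c hadj, H.zero c v (fun h => hadj h.symm), sub_self]
    · refine Finset.sum_eq_zero fun c _ => ?_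
      rw [if_neg]
      exact fun hc => hv hc.2.1

end Setup

end P4
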