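import Pool.Agent.Lib_MP_b306af.P4Seqc

/-! # MP_b306af Part IV: P4Seqe -/

namespace P4

open Finset

variable {V : Type}

/- Piece SEQE (P4Seq, uses `rule`, `ro_wrap`).  `f (m - 1) = μ` is the minimum.
First part: `i = 0` is the first occurrence of `a 0`, `prv m f 0 = f (m - 1) = μ`: `rule`.  For
`v = a (m - 1)` let `i` be the first occurrence; the last one is `m - 1`, so `prv m f i = f (m - 1) = μ`
by `ro_wrap`: `rule`.
Second part: strong induction on `r`: assume `f r' = μ` for all `r' < r`.  Let `i ≤ r` be the first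
occurrence of `v = a r`: `prv m f i = μ` (`= f (i - 1)` with `i - 1 < r`, or `f (m - 1)`), so `rule` and
`0 ≤ mom v` give `f r = μ`. -/
theorem SeqData.all {m : ℕ} {a : ℕ → V} {t f : ℕ → ℝ} (D : SeqData m a t f) (μ : ℝ)
    (hμ : ∀ r < m, μ ≤ f r) (h0 : f (m - 1) = μ) :
    mom m a t f (a 0) ≤ 0 ∧ mom m a t f (a (m - 1)) ≤ 0 ∧
      ((∀ v, 0 ≤ mom m a t f v) → ∀ r < m, f r = μ) := by
  classical
  have hm : 0 < m := D.hm
  have first : ∀ r < m, ∃ i, i ≤ r ∧ a i = a r ∧ ∀ r', r' < i → a r' ≠ a i := by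
    intro r _
    have hex : ∃ i, a i = a r := ⟨r, rfl⟩
    refine ⟨Nat.find hex, Nat.find_min' hex rfl, Nat.find_spec hex, fun r' hr' h => ?_⟩
    exact Nat.find_min hex hr' (h.trans (Nat.find_spec hex))
  refine ⟨?_, ?_, ?_⟩
  · exact (D.rule μ hμ 0 hm (fun r hr => absurd hr (Nat.not_lt_zero r)) (by
      unfold prv
      rw [if_pos rfl, h0])).1
  · obtain ⟨i, hi1, hi2, hi3⟩ := first (m - 1) (Nat.sub_lt hm one_pos)
    have h1 : f (m - 1) = prv m f i := D.ro_wrap i (m - 1) hi1 (Nat.sub_lt hm one_pos) hi2 hi3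
      (fun r hr hr' => by omega)
    rw [← hi2]
    exact (D.rule μ hμ i (by omega) hi3 (by rw [← h1, h0])).1
  · intro hmom r
    induction r using Nat.strong_induction_on with
    | _ r ih =>
      intro hr
      obtain ⟨i, hi1, hi2, hi3⟩ := first r hr
      have hp : prv m f i = μ := by
        unfold prv
        split_ifs with h
        · exact h0
        · exact ih (i - 1) (by omega) (by omega)
      exact ((D.rule μ hμ i (by omega) hi3 hp).2 (hmom _) r hr hi2.symm).1

end P4
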