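import Pool.Agent.Lib_MP_b306af.P4ZCore4
import Pool.Agent.Lib_MP_b306af.P4Seqdata
import Pool.Agent.Lib_MP_b306af.P4Momeq
import Pool.Agent.Lib_MP_b306af.P4ZSeq
import Pool.Agent.Lib_MP_b306af.P4Mirgood
import Pool.Agent.Lib_MP_b306af.P4Mircore

/-! # MP_b306af Part IV: P4Cora -/

namespace P4

variable {V : Type}

namespace Setup

theorem cora_plus [Fintype V] {S : Setup V} (hS : S.Good) {φ : V → V → ℝ} (H : S.CoreHyp φ)
    (hμ : ∀ a b c, S.T.F a b c → φ S.o1 S.o2 ≤ φ a b) (v : V) (hv : S.Outer v)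
    (h1 : S.side v = 1) : S.M φ v ≤ 0 := by
  obtain ⟨E⟩ := S.exists_bondSeq hS
  have D := E.seqData hS H
  have hμ' : ∀ r < E.m, φ S.o1 S.o2 ≤ φ (E.e r).1 (E.e r).2 := by
    intro r _
    obtain ⟨c, hc⟩ := (E.bond r).1
    exact hμ _ _ c hc
  obtain ⟨ha, hb, _⟩ := D.all (φ S.o1 S.o2) hμ' (E.phi_last H hS)
  rw [← (E.mom_eq H v).1 h1]
  rcases E.outer_plus v hv h1 with h | h
  · rw [h]
    exact ha
  · rw [h]
    exact hb

theorem cora_minus [Fintype V] {S : Setup V} (hS : S.Good) {φ : V → V → ℝ} (H : S.CoreHyp φ)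
    (hμ : ∀ a b c, S.T.F a b c → φ S.o1 S.o2 ≤ φ a b) (v : V) (hv : S.Outer v)
    (h1 : S.side v = -1) : 0 ≤ S.M φ v := by
  have hv' : S.mirror.Outer v := by
    rcases hv with h | h | h
    · exact Or.inr (Or.inl h)
    · exact Or.inl h
    · exact Or.inr (Or.inr h)
  have hs : S.mirror.side v = 1 := by
    show - S.side v = 1
    rw [h1]
    rfl
  have h2 := cora_plus (mirror_good hS) H.mirror (fun a b c hF => hμ b a c hF) v hv' hs
  have h3 : S.mirror.M (fun a b => φ b a) v = - S.M φ v := by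
    unfold M
    rw [← Finset.sum_neg_distrib]
    refine Finset.sum_congr rfl fun c _ => ?_
    have h4 : S.mirror.tt v c = S.tt v c := by
      unfold tt
      rw [hs, h1]
      have e1 : (S.mirror.side c = 0) ↔ (S.side c = 0) := by
        show (- S.side c = 0) ↔ (S.side c = 0)
        rcases SignType.trichotomy (S.side c) with h | h | h <;> rw [h] <;> decide
      have e2 : ¬ ((-1 : SignType) = 1) := by decide
      rw [if_pos rfl, if_neg e2]
      simp only [e1]
      rfl
    rw [h4]
    ring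
  linarith

/- Piece CORA (P4Core, uses `SeqData.all`, `seqData`, `mom_eq`, `outer_plus`, `phi_last`, and the same for the
mirror).  The value on the outer face is the minimum `μ`.
For an outer vertex `v` with `side v = 1`: `M φ v = mom v ≤ 0` (`outer_plus`, `SeqData.all`).  For an outer
vertex with `side v = -1` apply this to the mirror: `mirror.M φ' v = - M φ v ≤ 0`.  So all three
terms of `H.out` are `≤ 0` (they are `0` if `side = 0`) and their sum is `≥ 0`, so they are `0`,
`M φ v = 0` for the outer vertices off the axis.  So `0 ≤ mom v` for all `v` (as in RUNX) and by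
`SeqData.all` the value left of all `e r` is `μ`.  -/
theorem core_allA [Fintype V] {S : Setup V} (hS : S.Good) {φ : V → V → ℝ} (H : S.CoreHyp φ)
    (hμ : ∀ a b c, S.T.F a b c → φ S.o1 S.o2 ≤ φ a b) :
    ∀ e, S.IsBond e → φ e.1 e.2 = φ S.o1 S.o2 := by
  obtain ⟨E⟩ := S.exists_bondSeq hS
  have D := E.seqData hS H
  have hμ' : ∀ r < E.m, φ S.o1 S.o2 ≤ φ (E.e r).1 (E.e r).2 := by
    intro r _
    obtain ⟨c, hc⟩ := (E.bond r).1
    exact hμ _ _ c hc
  have hle : ∀ v, S.Outer v → (S.side v : ℝ) * S.M φ v ≤ 0 := by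
    intro v hv
    rcases SignType.trichotomy (S.side v) with h | h | h
    · have h2 := cora_minus hS H hμ v hv h
      rw [h, SignType.coe_neg_one]
      linarith
    · rw [h, SignType.coe_zero, zero_mul]
    · have h2 := cora_plus hS H hμ v hv h
      rw [h, SignType.coe_one]
      linarith
  have o1 : S.Outer S.o1 := Or.inl rfl
  have o2 : S.Outer S.o2 := Or.inr (Or.inl rfl)
  have o3 : S.Outer S.o3 := Or.inr (Or.inr rfl)
  have hzero : ∀ v, S.Outer v → (S.side v : ℝ) * S.M φ v = 0 := by
    obtain ⟨w, hw, hsum⟩ := H.out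
    have a1 := mul_nonpos_of_nonneg_of_nonpos (hw S.o1).le (hle _ o1)
    have a2 := mul_nonpos_of_nonneg_of_nonpos (hw S.o2).le (hle _ o2)
    have a3 := mul_nonpos_of_nonneg_of_nonpos (hw S.o3).le (hle _ o3)
    rintro v (h | h | h)
    · rw [h]
      have h1 : w S.o1 * ((S.side S.o1 : ℝ) * S.M φ S.o1) = 0 := by linarith
      exact (mul_eq_zero.1 h1).resolve_left (hw _).ne'
    · rw [h]
      have h1 : w S.o2 * ((S.side S.o2 : ℝ) * S.M φ S.o2) = 0 := by linarith
      exact (mul_eq_zero.1 h1).resolve_left (hw _).ne'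
    · rw [h]
      have h1 : w S.o3 * ((S.side S.o3 : ℝ) * S.M φ S.o3) = 0 := by linarith
      exact (mul_eq_zero.1 h1).resolve_left (hw _).ne'
  have hmom : ∀ v, 0 ≤ mom E.m (fun r => (E.e r).1) (fun r => S.tO (E.e r))
      (fun r => φ (E.e r).1 (E.e r).2) v := by
    intro v
    by_cases h1 : S.side v = 1
    · rw [(E.mom_eq H v).1 h1]
      by_cases hv : S.Outer v
      · have h2 := hzero v hv
        rw [h1, SignType.coe_one, one_mul] at h2
        exact h2.ge
      · by_cases hs : S.T.Supp v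
        · exact H.pl v hs hv h1
        · apply le_of_eq
          symm
          unfold M
          apply Finset.sum_eq_zero
          intro c _
          rw [H.zero v c (fun h => hs h.supp), H.zero c v (fun h => hs h.symm.supp)]
          ring
    · rw [(E.mom_eq H v).2 h1]
  obtain ⟨_, _, hall⟩ := D.all (φ S.o1 S.o2) hμ' (E.phi_last H hS)
  intro e he
  obtain ⟨r, hr, rfl⟩ := E.surj e he
  exact hall hmom r hr

end Setup

end P4
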