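import Pool.Agent.Lib_MP_b306af.P4Runx
import Pool.Agent.Lib_MP_b306af.P4Mirgood
import Pool.Agent.Lib_MP_b306af.P4Mircore

/-! # MP_b306af Part IV: P4Corb -/

namespace P4

variable {V : Type}

namespace Setup

/- Piece CORB (P4Core, uses `run_cross` for `S` and for `S.mirror`, `lab_cross_lt`, `lab_mono`).
Suppose the value `μ` is taken on a bond face; the face is on the left of some `e r`.  Let
`[r1, r2] ∋ r` be the maximal interval with value `μ` (`r2 + 1 < m` because the last value is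
`φ o1 o2 > μ` by `phi_last`; the value before `r1` is `> μ` by maximality if `r1 ≥ 1`, by
`phi_last` if `r1 = 0`, see `prv_eq`).  By `run_cross` `e r1 = (u, w)` and `e (r2 + 1) = (u, w')` with
`side w = side w' = -1`.
Let `E'` be a `BondSeq` of `S.mirror`, `φ' a b = φ b a`; `e' k1 = (w, u)`, `e' k2 = (w', u)` (they
are bond edges of the mirror).  For crossing edges `mirror.tO (w, u) = A u w = tO (u, w)`.  By
`lab_cross_lt`, `tO (e r1) < tO (e (r2 + 1))`, so `k1 < k2` (otherwise `lab_mono` of the mirror).  Values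
of the mirror: left of `e' k1`: `φ' w u = φ u w = μ`; before `e' k1`: `φ' u w = φ w u > μ`; left of
`e' k2`: `φ u w' > μ`.  Let `k3` be the least index `> k1` with value (left of `e' k3`) `> μ`
(`k3 ≤ k2`).  By `run_cross` for the mirror and the run `[k1, k3 - 1]`: `e' k3 = (w3, u3)` is a crossing
edge and `w3 = w`.  Let `(u3, w3) = e r3`.  The value before `e' k3` is `μ`, after it is `> μ`:
`φ w3 u3 = ...`: `φ' w3 u3 = φ u3 w3 > μ`.  By labels (`lab_cross_lt` for the mirror: label of `k1` < label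
of `k3` ≤ label of `k2`, then `lab_mono` for `E` by contraposition) `r1 < r3 ≤ r2 + 1`.  If
`r3 ≤ r2` then the value left of `e r3` is `φ u3 w3 = μ`, contradiction.  So `r3 = r2 + 1`,
`(u3, w3) = (u, w')`, so `w' = w3 = w`, `e r1 = e (r2 + 1)`, contradiction. -/
theorem core_noB [Fintype V] {S : Setup V} (hS : S.Good) {φ : V → V → ℝ} (H : S.CoreHyp φ)
    (μ : ℝ) (hμ : ∀ a b c, S.T.F a b c → μ ≤ φ a b) (h0 : μ < φ S.o1 S.o2) :
    ∀ e, S.IsBond e → φ e.1 e.2 ≠ μ := by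
  classical
  intro e0 hb0 hv0
  obtain ⟨E⟩ := S.exists_bondSeq hS
  have hb := E.bond
  have hm := E.hm
  have hge : ∀ r, μ ≤ φ (E.e r).1 (E.e r).2 := fun r => hμ _ _ _ (S.T.F_nx (hb r).1)
  have hlast : μ < φ (E.e (E.m - 1)).1 (E.e (E.m - 1)).2 := by
    rw [E.phi_last H hS]
    exact h0
  obtain ⟨r, hr, hre⟩ := E.surj e0 hb0
  have hfr : φ (E.e r).1 (E.e r).2 = μ := by rw [hre]; exact hv0
  have hr1 : r ≠ E.m - 1 := by
    intro h
    rw [← h, hfr] at hlast
    exact lt_irrefl _ hlast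
  -- end of the run
  obtain ⟨r2, hrr2, hr2, hrun2, he⟩ : ∃ r2, r ≤ r2 ∧ r2 + 1 < E.m ∧
      (∀ i, r ≤ i → i ≤ r2 → φ (E.e i).1 (E.e i).2 = μ) ∧
      μ < φ (E.e (r2 + 1)).1 (E.e (r2 + 1)).2 := by
    have hex : ∃ k, r ≤ k ∧ φ (E.e k).1 (E.e k).2 ≠ μ := ⟨E.m - 1, by omega, hlast.ne'⟩
    have h1 := Nat.find_spec hex
    have h2 : ∀ i, i < Nat.find hex → r ≤ i → φ (E.e i).1 (E.e i).2 = μ := by
      intro i hi hri
      by_contra h3
      exact Nat.find_min hex hi ⟨hri, h3⟩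
    have h3 : Nat.find hex ≤ E.m - 1 := Nat.find_min' hex ⟨by omega, hlast.ne'⟩
    have h4 : r ≠ Nat.find hex := by
      intro h4
      rw [← h4] at h1
      exact h1.2 hfr
    generalize Nat.find hex = k at h1 h2 h3 h4
    obtain ⟨k', rfl⟩ : ∃ k', k = k' + 1 := ⟨k - 1, by have := h1.1; omega⟩
    refine ⟨k', by have := h1.1; omega, by omega, fun i hi hik => h2 i (by omega) hi, ?_⟩
    exact lt_of_le_of_ne (hge _) (fun h5 => h1.2 h5.symm)
  -- start of the run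
  obtain ⟨r1, hr1r, hrun1, hs⟩ : ∃ r1, r1 ≤ r ∧
      (∀ i, r1 ≤ i → i ≤ r → φ (E.e i).1 (E.e i).2 = μ) ∧
      μ < φ (E.e r1).2 (E.e r1).1 := by
    have hex : ∃ k, k ≤ r ∧ ∀ i, k ≤ i → i ≤ r → φ (E.e i).1 (E.e i).2 = μ :=
      ⟨r, le_rfl, fun i h1 h2 => by
        have h3 : i = r := by omega
        rw [h3]
        exact hfr⟩
    have h1 := Nat.find_spec hex
    have h2 : ∀ k, k < Nat.find hex → ¬ (k ≤ r ∧
        ∀ i, k ≤ i → i ≤ r → φ (E.e i).1 (E.e i).2 = μ) := fun k hk => Nat.find_min hex hk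
    generalize Nat.find hex = k at h1 h2
    refine ⟨k, h1.1, h1.2, ?_⟩
    rw [← E.prv_eq H]
    unfold prv
    split_ifs with h3
    · exact hlast
    · refine lt_of_le_of_ne (hge _) (fun h5 => ?_)
      refine h2 (k - 1) (by omega) ⟨by have := h1.1; omega, fun i hi1 hi2 => ?_⟩
      by_cases h6 : i = k - 1
      · rw [h6]
        exact h5.symm
      · exact h1.2 i (by omega) hi2
  have h12 : r1 ≤ r2 := by omega
  have hrun : ∀ i, r1 ≤ i → i ≤ r2 → φ (E.e i).1 (E.e i).2 = μ := by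
    intro i h1 h2
    rcases le_total i r with h3 | h3
    · exact hrun1 i h1 h3
    · exact hrun2 i h3 h2
  obtain ⟨hw, hw', huu⟩ := run_cross hS H E μ hμ h0 r1 r2 h12 hr2 hrun hs he
  obtain ⟨u, w, huw⟩ : ∃ u w, E.e r1 = (u, w) := ⟨_, _, rfl⟩
  obtain ⟨u', w', huw'⟩ : ∃ u w, E.e (r2 + 1) = (u, w) := ⟨_, _, rfl⟩
  have hbuw := hb r1
  have hbuw' := hb (r2 + 1)
  have hfuw := hrun r1 le_rfl h12
  have hlab := E.lab_cross_lt hS r1 (r2 + 1) (by omega) hr2 (Or.inl hw)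
  rw [huw] at hw hs hbuw hfuw huu
  rw [huw'] at hw' he hbuw' huu
  have hu' : u' = u := huu.symm
  subst hu'
  obtain ⟨hadj, hsu, -⟩ := hbuw
  obtain ⟨hadj', -, -⟩ := hbuw'
  dsimp only at hw hw' hs he hadj hsu hadj' hfuw
  have hlab1 : S.A u' w < S.A u' w' := by
    rw [huw, huw', tO, tO] at hlab
    dsimp only at hlab
    rw [if_neg (by rw [hw]; decide), if_neg (by rw [hw']; decide)] at hlab
    exact hlab
  -- the mirror
  have hS' := mirror_good hS
  have H' := H.mirror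
  obtain ⟨E'⟩ := S.mirror.exists_bondSeq hS'
  have hmb : ∀ a b, S.T.Adj a b → S.side a = 1 → S.side b = -1 → S.mirror.IsBond (b, a) := by
    intro a b h1 h2 h3
    refine ⟨(Tri.mirror_Adj _ _ _).mpr h1.symm, ?_, ?_⟩
    · show - S.side b = 1
      rw [h3]
      decide
    · show - S.side a ≠ 1
      rw [h2]
      decide
  have hml : ∀ a b, S.side a = 1 → S.mirror.tO (b, a) = S.A a b := by
    intro a b h1
    rw [tO]
    have h2 : ¬ S.mirror.side a = 0 := by
      show ¬ - S.side a = 0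
      rw [h1]
      decide
    exact if_neg h2
  obtain ⟨k1, hk1, hek1⟩ := E'.surj (w, u') (hmb u' w hadj hsu hw)
  obtain ⟨k2, hk2, hek2⟩ := E'.surj (w', u') (hmb u' w' hadj' hsu hw')
  have hk12 : k1 < k2 := by
    by_contra hcon
    have h1 := E'.lab_mono hS' k2 k1 (by omega) hk1
    rw [hek1, hek2, hml _ _ hsu, hml _ _ hsu] at h1
    exact absurd hlab1 (not_lt.mpr h1)
  have hμ' : ∀ a b c, S.mirror.T.F a b c → μ ≤ φ b a := fun a b c h => hμ b a c h
  have hge' : ∀ k, μ ≤ φ (E'.e k).2 (E'.e k).1 := fun k =>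
    hμ' _ _ _ (S.mirror.T.F_nx (E'.bond k).1)
  -- end of the mirror run
  obtain ⟨k3, hk13, hk32, hrun3, he3⟩ : ∃ k3, k1 ≤ k3 ∧ k3 + 1 ≤ k2 ∧
      (∀ i, k1 ≤ i → i ≤ k3 → φ (E'.e i).2 (E'.e i).1 = μ) ∧
      μ < φ (E'.e (k3 + 1)).2 (E'.e (k3 + 1)).1 := by
    have hk2v : φ (E'.e k2).2 (E'.e k2).1 ≠ μ := by
      rw [hek2]
      exact he.ne'
    have hex : ∃ k, k1 ≤ k ∧ φ (E'.e k).2 (E'.e k).1 ≠ μ := ⟨k2, hk12.le, hk2v⟩
    have h1 := Nat.find_spec hex
    have h2 : ∀ i, i < Nat.find hex → k1 ≤ i → φ (E'.e i).2 (E'.e i).1 = μ := by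
      intro i hi hri
      by_contra h3
      exact Nat.find_min hex hi ⟨hri, h3⟩
    have h3 : Nat.find hex ≤ k2 := Nat.find_min' hex ⟨hk12.le, hk2v⟩
    have h4 : k1 ≠ Nat.find hex := by
      intro h4
      rw [← h4, hek1] at h1
      exact h1.2 hfuw
    generalize Nat.find hex = k at h1 h2 h3 h4
    obtain ⟨k', rfl⟩ : ∃ k', k = k' + 1 := ⟨k - 1, by have := h1.1; omega⟩
    refine ⟨k', by have := h1.1; omega, by omega, fun i hi hik => h2 i (by omega) hi, ?_⟩
    exact lt_of_le_of_ne (hge' _) (fun h5 => h1.2 h5.symm)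
  have hs' : μ < φ (E'.e k1).1 (E'.e k1).2 := by
    rw [hek1]
    exact hs
  have h0' : μ < φ S.mirror.o2 S.mirror.o1 := h0
  obtain ⟨-, hu3, hww3⟩ := run_cross hS' H' E' μ hμ' h0' k1 k3 hk13 (by omega) hrun3 hs' he3
  obtain ⟨w3, u3, hwu3⟩ : ∃ u w, E'.e (k3 + 1) = (u, w) := ⟨_, _, rfl⟩
  have hb3 := E'.bond (k3 + 1)
  have hlab3 := E'.lab_cross_lt hS' k1 (k3 + 1) (by omega) (by omega) (Or.inr hu3)
  have hlab4 := E'.lab_mono hS' (k3 + 1) k2 (by omega) hk2
  rw [hwu3] at hu3 hww3 hb3 he3 hlab3 hlab4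
  rw [hek1] at hww3 hlab3
  have hw3 : w3 = w := hww3.symm
  subst hw3
  have hsu3 : S.side u3 = 1 := by
    have h1 : - S.side u3 = -1 := hu3
    revert h1
    generalize S.side u3 = σ
    revert σ
    decide
  have hadj3 : S.T.Adj u3 w3 := ((Tri.mirror_Adj _ _ _).mp hb3.1).symm
  rw [hml _ _ hsu, hml _ _ hsu3] at hlab3
  rw [hml _ _ hsu3, hek2, hml _ _ hsu] at hlab4
  have hb3' : S.IsBond (u3, w3) := by
    refine ⟨hadj3, hsu3, ?_⟩
    show S.side w3 ≠ 1
    rw [hw]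
    decide
  obtain ⟨r3, hr3, her3⟩ := E.surj _ hb3'
  have htO : S.tO (E.e r3) = S.A u3 w3 := by
    rw [her3, tO]
    exact if_neg (by show ¬ S.side w3 = 0; rw [hw]; decide)
  have htO1 : S.tO (E.e r1) = S.A u' w3 := by
    rw [huw, tO]
    exact if_neg (by show ¬ S.side w3 = 0; rw [hw]; decide)
  have htO2 : S.tO (E.e (r2 + 1)) = S.A u' w' := by
    rw [huw', tO]
    exact if_neg (by show ¬ S.side w' = 0; rw [hw']; decide)
  have h13 : r1 < r3 := by
    by_contra hcon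
    have h1 := E.lab_mono hS r3 r1 (by omega) (by omega)
    rw [htO, htO1] at h1
    exact absurd hlab3 (not_lt.mpr h1)
  have h32 : r3 ≤ r2 + 1 := by
    by_contra hcon
    have h1 := E.lab_cross_lt hS (r2 + 1) r3 (by omega) hr3
      (Or.inl (by rw [huw']; exact hw'))
    rw [htO, htO2] at h1
    exact absurd hlab4 (not_le.mpr h1)
  rcases Nat.lt_or_ge r2 r3 with h | h
  · have h4 : r3 = r2 + 1 := by omega
    rw [h4, huw'] at her3
    have h5 := congrArg Prod.fst her3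
    have h6 := congrArg Prod.snd her3
    dsimp only at h5 h6
    have h7 := E.inj r1 (by omega) (r2 + 1) hr2 (by rw [huw, huw', h6])
    omega
  · have h4 := hrun r3 h13.le h
    rw [her3] at h4
    exact absurd h4 he3.ne'

end Setup

end P4
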