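import Pool.Agent.Lib_MP_b306af.P4Defs

/-!
# MP_b306af, Part IV: contraction of an edge of a combinatorial triangulation

The edge `u v` (faces `u v x` and `v u y`) is contracted to `v`, under the condition that
`x` and `y` are the only common neighbours of `u` and `v`.
-/

namespace P4

variable {V : Type}

namespace Tri

open Classical in
/-- the contraction map: `u` goes to `v` -/
noncomputable def ctr (u v a : V) : V := if a = u then v else a

theorem ctr_u (u v : V) : ctr u v u = v := by simp [ctr]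

theorem ctr_of_ne {u v a : V} (h : a ≠ u) : ctr u v a = a := by simp [ctr, h]

theorem ctr_v (u v : V) : ctr u v v = v := by
  by_cases h : v = u
  · rw [h, ctr_u]
  · exact ctr_of_ne h

theorem ctr_eq {u v a b : V} (hab : a ≠ b) (h : ctr u v a = ctr u v b) :
    (a = u ∧ b = v) ∨ (a = v ∧ b = u) := by
  unfold ctr at h
  split_ifs at h with h1 h2 h2
  · exact absurd (h1.trans h2.symm) hab
  · exact Or.inl ⟨h1, h.symm⟩
  · exact Or.inr ⟨h, h2⟩
  · exact absurd h hab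

/-- the data of a contraction -/
structure CtrOK (T : Tri V) (u v x y : V) : Prop where
  f1 : T.F u v x
  f2 : T.F v u y
  xy : x ≠ y
  sep : ∀ z, T.Adj u z → T.Adj v z → z = x ∨ z = y

/-- the faces after the contraction -/
def ctrF (T : Tri V) (u v : V) (a b c : V) : Prop :=
  a ≠ b ∧ b ≠ c ∧ c ≠ a ∧
    ∃ a' b' c', T.F a' b' c' ∧ ctr u v a' = a ∧ ctr u v b' = b ∧ ctr u v c' = c

theorem ctrF_mk {T : Tri V} {u v a b c : V} (h : T.F a b c) (h1 : ctr u v a ≠ ctr u v b)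
    (h2 : ctr u v b ≠ ctr u v c) (h3 : ctr u v c ≠ ctr u v a) :
    T.ctrF u v (ctr u v a) (ctr u v b) (ctr u v c) :=
  ⟨h1, h2, h3, a, b, c, h, rfl, rfl, rfl⟩

variable {T : Tri V} {u v x y : V}

theorem CtrOK.uv (h : T.CtrOK u v x y) : u ≠ v := T.ne _ _ _ h.f1
theorem CtrOK.vx (h : T.CtrOK u v x y) : v ≠ x := T.ne _ _ _ (T.cyc _ _ _ h.f1)
theorem CtrOK.xu (h : T.CtrOK u v x y) : x ≠ u := T.ne _ _ _ (T.cyc2 h.f1)
theorem CtrOK.uy (h : T.CtrOK u v x y) : u ≠ y := T.ne _ _ _ (T.cyc _ _ _ h.f2)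
theorem CtrOK.yv (h : T.CtrOK u v x y) : y ≠ v := T.ne _ _ _ (T.cyc2 h.f2)

/-- an edge which is not contracted is an edge after the contraction -/
theorem CtrOK.adj (h : T.CtrOK u v x y) {a b c : V} (hF : T.F a b c)
    (hab : ctr u v a ≠ ctr u v b) : ∃ d, T.ctrF u v (ctr u v a) (ctr u v b) d := by
  have hca : c ≠ a := T.ne _ _ _ (T.cyc2 hF)
  have hcb : b ≠ c := T.ne _ _ _ (T.cyc _ _ _ hF)
  by_cases h1 : ctr u v c = ctr u v a
  · rcases ctr_eq hca h1 with ⟨rfl, rfl⟩ | ⟨rfl, rfl⟩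
    · -- `c = u`, `a = v`, so `b = x`
      have hb : b = x := T.uniq _ _ _ _ (T.cyc2 hF) h.f1
      subst hb
      obtain ⟨d, hd⟩ := T.opp _ _ _ (T.cyc2 h.f1)
      -- `hd : T.F c b d`
      have hda : d ≠ a := by
        rintro rfl
        exact h.xy (T.uniq _ _ _ _ (T.cyc2 hd) h.f2)
      have hdc : d ≠ c := T.ne _ _ _ (T.cyc2 hd)
      have hdb : b ≠ d := T.ne _ _ _ (T.cyc _ _ _ hd)
      refine ⟨ctr c a d, ?_⟩
      have e : ctr c a a = ctr c a c := h1.symm
      rw [e]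
      rw [e] at hab
      refine ctrF_mk hd hab ?_ ?_
      · rw [ctr_of_ne h.xu, ctr_of_ne hdc]; exact hdb
      · rw [ctr_of_ne hdc, ctr_u]; exact hda
    · -- `c = v`, `a = u`, so `b = y`
      have hb : b = y := T.uniq _ _ _ _ (T.cyc2 hF) h.f2
      subst hb
      obtain ⟨d, hd⟩ := T.opp _ _ _ (T.cyc2 h.f2)
      -- `hd : T.F c b d`
      have hda : d ≠ a := by
        rintro rfl
        exact h.xy (T.uniq _ _ _ _ h.f1 (T.cyc2 hd))
      have hdc : d ≠ c := T.ne _ _ _ (T.cyc2 hd)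
      have hdb : b ≠ d := T.ne _ _ _ (T.cyc _ _ _ hd)
      refine ⟨ctr a c d, ?_⟩
      have e : ctr a c a = ctr a c c := h1.symm
      rw [e]
      rw [e] at hab
      refine ctrF_mk hd hab ?_ ?_
      · rw [ctr_of_ne h.uy.symm, ctr_of_ne hda]; exact hdb
      · rw [ctr_of_ne hda, ctr_v]; exact hdc
  by_cases h2 : ctr u v b = ctr u v c
  · rcases ctr_eq hcb h2 with ⟨rfl, rfl⟩ | ⟨rfl, rfl⟩
    · -- `b = u`, `c = v`, so `a = x`
      have ha : a = x := T.uniq _ _ _ _ (T.cyc _ _ _ hF) h.f1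
      subst ha
      obtain ⟨d, hd⟩ := T.opp _ _ _ (T.cyc _ _ _ h.f1)
      -- `hd : T.F a c d`
      have hdb : d ≠ b := by
        rintro rfl
        exact h.xy (T.uniq _ _ _ _ (T.cyc _ _ _ hd) h.f2)
      have hdc : c ≠ d := T.ne _ _ _ (T.cyc _ _ _ hd)
      have hda : d ≠ a := T.ne _ _ _ (T.cyc2 hd)
      refine ⟨ctr b c d, ?_⟩
      rw [h2]
      rw [h2] at hab
      refine ctrF_mk hd hab ?_ ?_
      · rw [ctr_of_ne hdb, ctr_v]; exact hdc
      · rw [ctr_of_ne hdb, ctr_of_ne h.xu]; exact hda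
    · -- `b = v`, `c = u`, so `a = y`
      have ha : a = y := T.uniq _ _ _ _ (T.cyc _ _ _ hF) h.f2
      subst ha
      obtain ⟨d, hd⟩ := T.opp _ _ _ (T.cyc _ _ _ h.f2)
      -- `hd : T.F a c d`
      have hdb : d ≠ b := by
        rintro rfl
        exact h.xy (T.uniq _ _ _ _ h.f1 (T.cyc _ _ _ hd))
      have hdc : c ≠ d := T.ne _ _ _ (T.cyc _ _ _ hd)
      have hda : d ≠ a := T.ne _ _ _ (T.cyc2 hd)
      refine ⟨ctr c b d, ?_⟩
      rw [h2]
      rw [h2] at hab
      refine ctrF_mk hd hab ?_ ?_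
      · rw [ctr_u, ctr_of_ne hdc.symm]; exact hdb.symm
      · rw [ctr_of_ne hdc.symm, ctr_of_ne h.uy.symm]; exact hda
  · exact ⟨_, ctrF_mk hF hab h2 h1⟩

/-- the third vertex of a face after the contraction is unique -/
theorem CtrOK.uniq (h : T.CtrOK u v x y) {a b c a' b' c' : V} (hF : T.F a b c)
    (hF' : T.F a' b' c') (ea : ctr u v a = ctr u v a') (eb : ctr u v b = ctr u v b')
    (h1 : ctr u v a ≠ ctr u v b)
    (h2 : ctr u v b ≠ ctr u v c) (h3 : ctr u v c ≠ ctr u v a)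
    (h2' : ctr u v b' ≠ ctr u v c') (h3' : ctr u v c' ≠ ctr u v a') :
    ctr u v c = ctr u v c' := by
  by_cases haa : a = a'
  · subst haa
    by_cases hbb : b = b'
    · subst hbb
      rw [T.uniq _ _ _ _ hF hF']
    · exfalso
      rcases ctr_eq hbb eb with ⟨rfl, rfl⟩ | ⟨rfl, rfl⟩
      · -- `b = u`, `b' = v`
        rcases h.sep a (Adj.symm ⟨c, hF⟩) (Adj.symm ⟨c', hF'⟩) with rfl | rfl
        · have := T.uniq _ _ _ _ hF (T.cyc2 h.f1)
          rw [this, ctr_u, ctr_v] at h2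
          exact h2 rfl
        · have := T.uniq _ _ _ _ hF' (T.cyc2 h.f2)
          rw [this, ctr_u, ctr_v] at h2'
          exact h2' rfl
      · -- `b = v`, `b' = u`
        rcases h.sep a (Adj.symm ⟨c', hF'⟩) (Adj.symm ⟨c, hF⟩) with rfl | rfl
        · have := T.uniq _ _ _ _ hF' (T.cyc2 h.f1)
          rw [this, ctr_u, ctr_v] at h2'
          exact h2' rfl
        · have := T.uniq _ _ _ _ hF (T.cyc2 h.f2)
          rw [this, ctr_u, ctr_v] at h2
          exact h2 rfl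
  · exfalso
    have hbb : b = b' := by
      by_contra hbb
      have e1 : ctr u v a = v := by
        rcases ctr_eq haa ea with ⟨rfl, _⟩ | ⟨rfl, _⟩
        · exact ctr_u _ _
        · exact ctr_v _ _
      have e2 : ctr u v b = v := by
        rcases ctr_eq hbb eb with ⟨rfl, _⟩ | ⟨rfl, _⟩
        · exact ctr_u _ _
        · exact ctr_v _ _
      exact h1 (e1.trans e2.symm)
    subst hbb
    rcases ctr_eq haa ea with ⟨rfl, rfl⟩ | ⟨rfl, rfl⟩
    · -- `a = u`, `a' = v`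
      rcases h.sep b ⟨c, hF⟩ ⟨c', hF'⟩ with rfl | rfl
      · have := T.uniq _ _ _ _ hF' (T.cyc _ _ _ h.f1)
        rw [this, ctr_u, ctr_v] at h3'
        exact h3' rfl
      · have := T.uniq _ _ _ _ hF (T.cyc _ _ _ h.f2)
        rw [this, ctr_u, ctr_v] at h3
        exact h3 rfl
    · -- `a = v`, `a' = u`
      rcases h.sep b ⟨c', hF'⟩ ⟨c, hF⟩ with rfl | rfl
      · have := T.uniq _ _ _ _ hF (T.cyc _ _ _ h.f1)
        rw [this, ctr_u, ctr_v] at h3
        exact h3 rfl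
      · have := T.uniq _ _ _ _ hF' (T.cyc _ _ _ h.f2)
        rw [this, ctr_u, ctr_v] at h3'
        exact h3' rfl

/-- The edge `u v` is not a bridge of the dual graph (circulation argument). -/
theorem CtrOK.bridge [Finite V] (h : T.CtrOK u v x y) (P : V → V → Prop)
    (hc : ∀ a b c, T.F a b c → P a b → P b c)
    (ho : ∀ a b, T.Adj a b → ¬ (a = u ∧ b = v) → ¬ (a = v ∧ b = u) → P a b → P b a)
    (huv : P u v) : P v u := by
  by_contra hvu
  set O : Set V := {b | T.Adj u b ∧ P u b} with hO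
  set I : Set V := {b | T.Adj u b ∧ P b u} with hI
  have h1 : O.ncard ≤ I.ncard := by
    refine Set.ncard_le_ncard_of_injOn (fun b => T.nx u b) ?_ ?_ (Set.toFinite _)
    · rintro b ⟨hb, hPb⟩
      have hF := T.F_nx hb
      exact ⟨Adj.symm ⟨_, T.cyc2 hF⟩, hc _ _ _ (T.cyc _ _ _ hF) (hc _ _ _ hF hPb)⟩
    · rintro b ⟨hb, -⟩ b' ⟨hb', -⟩ hbb
      have hF := T.cyc2 (T.F_nx hb)
      have hF' := T.cyc2 (T.F_nx hb')
      simp only at hbb
      rw [hbb] at hF
      exact T.uniq _ _ _ _ hF hF'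
  have h2 : I ⊂ O := by
    refine ⟨?_, ?_⟩
    · rintro b ⟨hb, hPb⟩
      refine ⟨hb, ?_⟩
      by_cases hbv : b = v
      · rw [hbv] at hPb
        exact absurd hPb hvu
      · refine ho b u hb.symm ?_ ?_ hPb
        · rintro ⟨rfl, -⟩
          exact hb.ne rfl
        · rintro ⟨rfl, -⟩
          exact hbv rfl
    · intro hOI
      exact hvu (hOI ⟨⟨x, h.f1⟩, huv⟩).2
  have h3 := Set.ncard_lt_ncard h2 (Set.toFinite _)
  omega

open Classical in
/-- lift of a dart predicate of the contracted triangulation -/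
def liftP (u v x y : V) (P : V → V → Prop) (a b : V) : Prop :=
  if ctr u v a = ctr u v b then (if a = u then P v x else P v y) else P (ctr u v a) (ctr u v b)

theorem liftP_ne {P : V → V → Prop} {a b : V} (h : ctr u v a ≠ ctr u v b) :
    liftP u v x y P a b ↔ P (ctr u v a) (ctr u v b) := by
  unfold liftP
  rw [if_neg h]

theorem liftP_uv {P : V → V → Prop} : liftP u v x y P u v ↔ P v x := by
  unfold liftP
  rw [if_pos (by rw [ctr_u, ctr_v]), if_pos rfl]

theorem liftP_vu {P : V → V → Prop} (h : u ≠ v) : liftP u v x y P v u ↔ P v y := by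
  unfold liftP
  rw [if_pos (by rw [ctr_u, ctr_v]), if_neg h.symm]

/-- the lift is closed under rotation -/
theorem CtrOK.lift_cyc (h : T.CtrOK u v x y) (P : V → V → Prop)
    (h1 : ∀ a b c, T.ctrF u v a b c → P a b → P b c)
    (h2 : ∀ a b c, T.ctrF u v a b c → P a b → P b a) {a b c : V} (hF : T.F a b c)
    (hP : liftP u v x y P a b) : liftP u v x y P b c := by
  have hvx : ctr u v v ≠ ctr u v x := by
    rw [ctr_v, ctr_of_ne h.xu]; exact h.vx
  have hux : ctr u v u ≠ ctr u v x := by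
    rw [ctr_u, ctr_of_ne h.xu]; exact h.vx
  have hvy : ctr u v v ≠ ctr u v y := by
    rw [ctr_v, ctr_of_ne h.uy.symm]; exact h.yv.symm
  have huy : ctr u v u ≠ ctr u v y := by
    rw [ctr_u, ctr_of_ne h.uy.symm]; exact h.yv.symm
  have ex : ctr u v x = x := ctr_of_ne h.xu
  have ey : ctr u v y = y := ctr_of_ne h.uy.symm
  have hsx : P v x ↔ P x v := by
    constructor
    · intro hp
      obtain ⟨d, hd⟩ := h.adj (T.cyc _ _ _ h.f1) hvx
      rw [ctr_v, ex] at hd
      exact h2 _ _ _ hd hp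
    · intro hp
      obtain ⟨d, hd⟩ := h.adj (T.cyc2 h.f1) hux.symm
      rw [ctr_u, ex] at hd
      exact h2 _ _ _ hd hp
  have hsy : P v y ↔ P y v := by
    constructor
    · intro hp
      obtain ⟨d, hd⟩ := h.adj (T.cyc _ _ _ h.f2) huy
      rw [ctr_u, ey] at hd
      exact h2 _ _ _ hd hp
    · intro hp
      obtain ⟨d, hd⟩ := h.adj (T.cyc2 h.f2) hvy.symm
      rw [ctr_v, ey] at hd
      exact h2 _ _ _ hd hp
  by_cases e1 : ctr u v a = ctr u v b
  · rcases ctr_eq (T.ne _ _ _ hF) e1 with ⟨rfl, rfl⟩ | ⟨rfl, rfl⟩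
    · have hc : c = x := T.uniq _ _ _ _ hF h.f1
      subst hc
      rw [liftP_uv] at hP
      rw [liftP_ne hvx, ctr_v, ex]
      exact hP
    · have hc : c = y := T.uniq _ _ _ _ hF h.f2
      subst hc
      rw [liftP_vu h.uv] at hP
      rw [liftP_ne huy, ctr_u, ey]
      exact hP
  rw [liftP_ne e1] at hP
  by_cases e2 : ctr u v b = ctr u v c
  · rcases ctr_eq (T.ne _ _ _ (T.cyc _ _ _ hF)) e2 with ⟨rfl, rfl⟩ | ⟨rfl, rfl⟩
    · have ha : a = x := T.uniq _ _ _ _ (T.cyc _ _ _ hF) h.f1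
      subst ha
      rw [liftP_uv]
      rw [ctr_u, ex] at hP
      exact hsx.2 hP
    · have ha : a = y := T.uniq _ _ _ _ (T.cyc _ _ _ hF) h.f2
      subst ha
      rw [liftP_vu h.uv]
      rw [ctr_v, ey] at hP
      exact hsy.2 hP
  rw [liftP_ne e2]
  by_cases e3 : ctr u v c = ctr u v a
  · rcases ctr_eq (T.ne _ _ _ (T.cyc2 hF)) e3 with ⟨rfl, rfl⟩ | ⟨rfl, rfl⟩
    · have hb : b = x := T.uniq _ _ _ _ (T.cyc2 hF) h.f1
      subst hb
      rw [ctr_v, ex] at hP
      rw [ctr_u, ex]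
      exact hsx.1 hP
    · have hb : b = y := T.uniq _ _ _ _ (T.cyc2 hF) h.f2
      subst hb
      rw [ctr_u, ey] at hP
      rw [ctr_v, ey]
      exact hsy.1 hP
  · exact h1 _ _ _ (ctrF_mk hF e1 e2 e3) hP

/-- dual connectivity after the contraction -/
theorem CtrOK.trans [Finite V] (h : T.CtrOK u v x y) (P : V → V → Prop)
    (h1 : ∀ a b c, T.ctrF u v a b c → P a b → P b c)
    (h2 : ∀ a b c, T.ctrF u v a b c → P a b → P b a) {a b c a' b' c' : V}
    (hF : T.ctrF u v a b c) (hF' : T.ctrF u v a' b' c') (hP : P a b) : P a' b' := by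
  have h2' : ∀ a b, T.Adj a b → ctr u v a ≠ ctr u v b →
      (P (ctr u v a) (ctr u v b) ↔ P (ctr u v b) (ctr u v a)) := by
    intro a b hab hne
    obtain ⟨c, hc⟩ := hab
    obtain ⟨d, hd⟩ := h.adj hc hne
    obtain ⟨c', hc'⟩ := T.opp _ _ _ hc
    obtain ⟨d', hd'⟩ := h.adj hc' hne.symm
    exact ⟨h2 _ _ _ hd, h2 _ _ _ hd'⟩
  have hnn : ∀ a b c, T.ctrF u v a b c → ¬ P a b → ¬ P b c := by
    rintro a b c ⟨n1, n2, n3, a0, b0, c0, hf, rfl, rfl, rfl⟩ hn hp
    exact hn (h1 _ _ _ (ctrF_mk (T.cyc2 hf) n3 n1 n2)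
      (h1 _ _ _ (ctrF_mk (T.cyc _ _ _ hf) n2 n3 n1) hp))
  have hnn2 : ∀ a b c, T.ctrF u v a b c → ¬ P a b → ¬ P b a := by
    rintro a b c ⟨n1, n2, n3, a0, b0, c0, hf, rfl, rfl, rfl⟩ hn hp
    exact hn ((h2' _ _ ⟨_, hf⟩ n1).2 hp)
  have side : ∀ Q : V → V → Prop, (∀ a b c, T.ctrF u v a b c → Q a b → Q b c) →
      (∀ a b c, T.ctrF u v a b c → Q a b → Q b a) → Q v x → Q v y := by
    intro Q q1 q2 hq
    have := h.bridge (liftP u v x y Q) (fun a b c hf hp => h.lift_cyc Q q1 q2 hf hp) (by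
      intro a b hab n1 n2 hp
      have hne : ctr u v a ≠ ctr u v b := by
        intro he
        rcases ctr_eq hab.ne he with hh | hh
        · exact n1 hh
        · exact n2 hh
      rw [liftP_ne hne] at hp
      rw [liftP_ne hne.symm]
      obtain ⟨c, hc⟩ := hab
      obtain ⟨d, hd⟩ := h.adj hc hne
      exact q2 _ _ _ hd hp) (liftP_uv.2 hq)
    exact (liftP_vu h.uv).1 this
  have hxy : P v x ↔ P v y := by
    refine ⟨side P h1 h2, fun hy => ?_⟩
    by_contra hx
    exact side (fun a b => ¬ P a b) hnn hnn2 hx hy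
  obtain ⟨n1, n2, n3, a0, b0, c0, hf, rfl, rfl, rfl⟩ := hF
  obtain ⟨m1, m2, m3, a1, b1, c1, hg, rfl, rfl, rfl⟩ := hF'
  have key := T.trans (liftP u v x y P) (fun a b c hf hp => h.lift_cyc P h1 h2 hf hp) (by
    intro a b c hf hp
    by_cases he : ctr u v a = ctr u v b
    · rcases ctr_eq (T.ne _ _ _ hf) he with ⟨rfl, rfl⟩ | ⟨rfl, rfl⟩
      · rw [liftP_uv] at hp
        rw [liftP_vu h.uv]
        exact hxy.1 hp
      · rw [liftP_vu h.uv] at hp
        rw [liftP_uv]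
        exact hxy.2 hp
    · rw [liftP_ne he] at hp
      rw [liftP_ne (Ne.symm he)]
      exact (h2' _ _ ⟨_, hf⟩ he).1 hp) _ _ _ _ _ _ hf hg ((liftP_ne n1).2 hP)
  exact (liftP_ne m1).1 key

/-- the contracted triangulation -/
def contract [Finite V] (T : Tri V) (h : T.CtrOK u v x y) : Tri V where
  F := T.ctrF u v
  cyc := by
    rintro a b c ⟨n1, n2, n3, a0, b0, c0, hf, e1, e2, e3⟩
    exact ⟨n2, n3, n1, b0, c0, a0, T.cyc _ _ _ hf, e2, e3, e1⟩
  uniq := by
    rintro a b c d ⟨n1, n2, n3, a0, b0, c0, hf, rfl, rfl, rfl⟩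
      ⟨m1, m2, m3, a1, b1, c1, hg, e1, e2, rfl⟩
    refine h.uniq hf hg e1.symm e2.symm n1 n2 n3 ?_ ?_
    · rw [e2]; exact m2
    · rw [e1]; exact m3
  opp := by
    rintro a b c ⟨n1, n2, n3, a0, b0, c0, hf, rfl, rfl, rfl⟩
    obtain ⟨d, hd⟩ := T.opp _ _ _ hf
    exact h.adj hd n1.symm
  ne := fun a b c hf => hf.1
  trans := by
    intro P h1 h2 a b c x y z hf hg hp
    exact h.trans P h1 h2 hf hg hp
  exact := by
    intro κ hκ hz
    have hself : ∀ a, κ a a = 0 := by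
      intro a
      have := hκ a a
      linarith
    have hkey : ∀ a b c, T.F a b c → κ (ctr u v a) (ctr u v b) + κ (ctr u v b) (ctr u v c) +
        κ (ctr u v c) (ctr u v a) = 0 := by
      intro a b c hf
      by_cases e1 : ctr u v a = ctr u v b
      · rw [e1, hself, hκ (ctr u v c) (ctr u v b)]
        ring
      by_cases e2 : ctr u v b = ctr u v c
      · rw [e2, hself, hκ (ctr u v c) (ctr u v a)]
        ring
      by_cases e3 : ctr u v c = ctr u v a
      · rw [e3, hself, hκ (ctr u v b) (ctr u v a)]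
        ring
      exact hz _ _ _ (ctrF_mk hf e1 e2 e3)
    obtain ⟨g, hg⟩ := T.exact (fun a b => κ (ctr u v a) (ctr u v b)) (fun a b => hκ _ _) hkey
    have hguv : g u = g v := by
      have := hg _ _ _ h.f1
      rw [ctr_u, ctr_v, hself] at this
      linarith
    have hgc : ∀ a, g (ctr u v a) = g a := by
      intro a
      by_cases ha : a = u
      · rw [ha, ctr_u, hguv]
      · rw [ctr_of_ne ha]
    refine ⟨g, ?_⟩
    rintro a b c ⟨n1, n2, n3, a0, b0, c0, hf, rfl, rfl, rfl⟩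
    rw [hgc, hgc]
    exact hg _ _ _ hf

@[simp] theorem contract_F [Finite V] (h : T.CtrOK u v x y) (a b c : V) :
    (T.contract h).F a b c ↔ T.ctrF u v a b c := Iff.rfl

/-- the contraction decreases the number of faces -/
theorem contract_ncard [Finite V] (h : T.CtrOK u v x y) :
    Set.ncard {t : V × V × V | (T.contract h).F t.1 t.2.1 t.2.2} <
      Set.ncard {t : V × V × V | T.F t.1 t.2.1 t.2.2} := by
  have h1 : {t : V × V × V | (T.contract h).F t.1 t.2.1 t.2.2} ⊆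
      (fun t : V × V × V => (ctr u v t.1, ctr u v t.2.1, ctr u v t.2.2)) ''
        ({t : V × V × V | T.F t.1 t.2.1 t.2.2} \ {(u, v, x)}) := by
    rintro ⟨a, b, c⟩ ⟨n1, n2, n3, a0, b0, c0, hf, e1, e2, e3⟩
    refine ⟨(a0, b0, c0), ⟨hf, ?_⟩, ?_⟩
    · intro he
      simp only [Set.mem_singleton_iff, Prod.mk.injEq] at he
      obtain ⟨rfl, rfl, -⟩ := he
      apply n1
      rw [← e1, ← e2, ctr_u, ctr_v]
    · simp only [Prod.mk.injEq]
      exact ⟨e1, e2, e3⟩
  refine lt_of_le_of_lt ((Set.ncard_le_ncard h1 (Set.toFinite _)).trans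
    (Set.ncard_image_le (Set.toFinite _))) ?_
  exact Set.ncard_sdiff_singleton_lt_of_mem (show (u, v, x) ∈ _ from h.f1) (Set.toFinite _)

/-- edges before and after the contraction -/
theorem contract_adj [Finite V] (h : T.CtrOK u v x y) {a b : V} (hab : T.Adj a b)
    (hne : ctr u v a ≠ ctr u v b) : (T.contract h).Adj (ctr u v a) (ctr u v b) := by
  obtain ⟨c, hc⟩ := hab
  exact h.adj hc hne

/-- vertices before and after the contraction -/
theorem contract_supp [Finite V] (h : T.CtrOK u v x y) {a : V} (ha : T.Supp a) :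
    (T.contract h).Supp (ctr u v a) := by
  by_cases e : ctr u v a = v
  · have hvx : ctr u v v ≠ ctr u v x := by
      rw [ctr_v, ctr_of_ne h.xu]; exact h.vx
    have := contract_adj h ⟨_, T.cyc _ _ _ h.f1⟩ hvx
    rw [ctr_v] at this
    rw [e]
    exact this.supp
  · obtain ⟨b, c, hf⟩ := ha
    have hne : ctr u v a ≠ ctr u v b := by
      intro he
      rcases ctr_eq (T.ne _ _ _ hf) he with ⟨rfl, -⟩ | ⟨rfl, -⟩
      · exact e (ctr_u _ _)
      · exact e (ctr_v _ _)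
    exact (contract_adj h ⟨_, hf⟩ hne).supp

end Tri

end P4
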