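import Pool.Agent.Lib_MP_b306af.P4ZDraw1

/-! # MP_b306af Part IV: P4Exout -/

namespace P4

variable {V : Type}

namespace Setup

/- Piece EXOUT (P4Draw).  Admissible outer positions exist.
Let `u` be an outer vertex above, `w` below (`hS.plus0`, `hS.minus0`), `z` the third outer vertex.
`Q u = (0, 1)`, `Q w = (2 * A u w, -1)` : `crossAt = (0 * (-1) - 2 A * 1) / (-1 - 1) = A`.
If `side z = 0`, `Q z = (X z, 0)`.  If `side z = -1`: `Q z = (2 * A u z, -1)`.  If `side z = 1`: start with
`w` instead: `Q w = (0, -1)`, `Q u = (2 * A u w, 1)`, `Q z = (2 * A z w, 1)`.  All other vertices: anything.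
(Simplest: `Q v := if side v = 0 then (X v, 0) else if side v = 1 then (if v = u then (0, 1) else ...)`,
or do two cases: case (i) the only outer vertex above is `u`:
`Q v = if v = u then (0, 1) else if side v = 0 then (X v, 0) else (2 * A u v, -1)`; case (ii) the only
outer vertex below is `w`: `Q v = if v = w then (0, -1) else if side v = 0 then (X v, 0) else (2 * A v w, 1)`.
One of the cases holds since there are three outer vertices.) -/
theorem exists_outerOK {S : Setup V} (hS : S.Good) : ∃ Q, S.OuterOK Q := by
  classical
  obtain ⟨u, hu, hu1⟩ := hS.plus0
  obtain ⟨w, hw, hw1⟩ := hS.minus0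
  have htri : ∀ s : SignType, s = 0 ∨ s = -1 ∨ s = 1 := by decide
  have h01 : (0 : SignType) ≠ 1 := by decide
  have h0m : (0 : SignType) ≠ -1 := by decide
  have h1m : (1 : SignType) ≠ -1 := by decide
  by_cases hc : ∀ v, S.Outer v → S.side v = 1 → v = u
  · refine ⟨fun v => if v = u then (0, 1) else if S.side v = 0 then (S.X v, 0) else
      (2 * S.A u v, -1), ?_, ?_, ?_⟩
    · intro v hv
      by_cases h : v = u
      · subst h
        simp [hu1]
      · by_cases h0 : S.side v = 0
        · simp [h, h0]
        · have h1 : S.side v = -1 := by
            rcases htri (S.side v) with h2 | h2 | h2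
            · exact absurd h2 h0
            · exact h2
            · exact absurd (hc v hv h2) h
          simp [h, h1]
    · intro v hv h0
      have h : v ≠ u := by
        rintro rfl
        rw [hu1] at h0
        exact h01 h0.symm
      simp [h, h0]
    · intro u' w' hu' hw' hu'1 hw'1
      have e := hc u' hu' hu'1
      subst e
      have h : w' ≠ u' := by
        rintro rfl
        rw [hu'1] at hw'1
        exact h1m hw'1
      simp only [if_true, h, if_false, hw'1]
      rw [if_neg (by decide)]
      unfold crossAt
      norm_num
  · have hc' : ∀ v, S.Outer v → S.side v = -1 → v = w := by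
      intro v hv hv1
      push Not at hc
      obtain ⟨u', hu', hu'1, hne⟩ := hc
      by_contra hvw
      have a1 : v ≠ u := by
        rintro rfl
        rw [hu1] at hv1
        exact h1m hv1
      have a2 : v ≠ u' := by
        rintro rfl
        rw [hu'1] at hv1
        exact h1m hv1
      have a3 : w ≠ u := by
        rintro rfl
        rw [hu1] at hw1
        exact h1m hw1
      have a4 : w ≠ u' := by
        rintro rfl
        rw [hu'1] at hw1
        exact h1m hw1
      unfold Outer at hu hw hu' hv
      rcases hu with hu | hu | hu <;> rcases hw with hw | hw | hw <;>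
        rcases hu' with hu' | hu' | hu' <;> rcases hv with hv | hv | hv <;>
        first
          | exact hne (hu'.trans hu.symm)
          | exact hvw (hv.trans hw.symm)
          | exact a1 (hv.trans hu.symm)
          | exact a2 (hv.trans hu'.symm)
          | exact a3 (hw.trans hu.symm)
          | exact a4 (hw.trans hu'.symm)
    refine ⟨fun v => if v = w then (0, -1) else if S.side v = 0 then (S.X v, 0) else
      (2 * S.A v w, 1), ?_, ?_, ?_⟩
    · intro v hv
      by_cases h : v = w
      · subst h
        simp [hw1]
      · by_cases h0 : S.side v = 0
        · simp [h, h0]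
        · have h1 : S.side v = 1 := by
            rcases htri (S.side v) with h2 | h2 | h2
            · exact absurd h2 h0
            · exact absurd (hc' v hv h2) h
            · exact h2
          simp [h, h1]
    · intro v hv h0
      have h : v ≠ w := by
        rintro rfl
        rw [hw1] at h0
        exact h0m h0.symm
      simp [h, h0]
    · intro u' w' hu' hw' hu'1 hw'1
      have e := hc' w' hw' hw'1
      subst e
      have h : u' ≠ w' := by
        rintro rfl
        rw [hu'1] at hw'1
        exact h1m hw'1
      simp only [if_true, h, if_false, hu'1]
      rw [if_neg (by decide)]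
      unfold crossAt
      norm_num

end Setup

end P4
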