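import Pool.Agent.Lib_MP_b306af.P4Med

/-!
# MP_b306af: vertices far apart in `T.med E`
-/

namespace P4

variable {V W : Type}

namespace Tri

/-- equal or adjacent -/
def CAdj (T : Tri W) (p q : W) : Prop := p = q ∨ T.Adj p q

/-- at distance at most 3 -/
def Near (T : Tri W) (x y : W) : Prop := ∃ p q, T.CAdj x p ∧ T.CAdj p q ∧ T.CAdj q y

theorem CAdj.symm {T : Tri W} {p q : W} (h : T.CAdj p q) : T.CAdj q p := by
  rcases h with h | h
  · exact Or.inl h.symm
  · exact Or.inr (Adj.symm h)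

theorem CAdj.refl (T : Tri W) (p : W) : T.CAdj p p := Or.inl rfl

theorem Near.symm {T : Tri W} {x y : W} (h : T.Near x y) : T.Near y x := by
  obtain ⟨p, q, h1, h2, h3⟩ := h
  exact ⟨q, p, h3.symm, h2.symm, h1.symm⟩

theorem Near.refl (T : Tri W) (x : W) : T.Near x x :=
  ⟨x, x, CAdj.refl T x, CAdj.refl T x, CAdj.refl T x⟩

variable (T : Tri W) (hT : T.NonDeg) {E : W → W → Prop} (hE : ∀ a b, E a b → E b a)

theorem med_adj_ll (a b : W) : (T.med hT E hE).Adj (Sum.inl a) (Sum.inl b) ↔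
    E a b ∧ T.Adj a b := by
  constructor
  · rintro ⟨r, hr⟩
    rcases r with r | r
    · exact absurd hr (by simp [med, medF])
    · exact ⟨hr.1, hr.2.1⟩
  · rintro ⟨h1, h2⟩
    exact ⟨Sum.inr (T.fc a b), h1, h2, rfl⟩

theorem med_adj_rl (a : W) (f : Set (W × W)) :
    (T.med hT E hE).Adj (Sum.inr f) (Sum.inl a) ↔ ∃ b, T.Adj a b ∧ f = T.fc a b := by
  constructor
  · rintro ⟨r, hr⟩
    rcases r with r | r
    · exact ⟨r, hr.2.1, hr.2.2⟩
    · obtain ⟨b, h1, h2, h3, h4⟩ := hr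
      exact ⟨b, h2, h4⟩
  · rintro ⟨b, h1, rfl⟩
    by_cases he : E a b
    · exact ⟨Sum.inl b, he, h1, rfl⟩
    · exact ⟨Sum.inr (T.fc b a), b, he, h1, rfl, rfl⟩

theorem med_adj_lr (a : W) (f : Set (W × W)) :
    (T.med hT E hE).Adj (Sum.inl a) (Sum.inr f) ↔ ∃ b, T.Adj a b ∧ f = T.fc a b := by
  rw [← med_adj_rl T hT hE]
  exact ⟨Adj.symm, Adj.symm⟩

theorem med_adj_rr (g f : Set (W × W)) :
    (T.med hT E hE).Adj (Sum.inr g) (Sum.inr f) ↔
      ∃ a b, ¬ E a b ∧ T.Adj a b ∧ g = T.fc b a ∧ f = T.fc a b := by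
  constructor
  · rintro ⟨r, hr⟩
    rcases r with r | r
    · obtain ⟨b, h⟩ := hr
      exact ⟨r, b, h⟩
    · exact absurd hr (by simp [med, medF])
  · rintro ⟨a, b, h⟩
    exact ⟨Sum.inl a, b, h⟩

theorem med_supp_l (a : W) : (T.med hT E hE).Supp (Sum.inl a) ↔ T.Supp a := by
  constructor
  · rintro ⟨q, r, h⟩
    have h' : (T.med hT E hE).Adj (Sum.inl a) q := ⟨r, h⟩
    rcases q with q | q
    · exact ((med_adj_ll T hT hE a q).1 h').2.supp
    · obtain ⟨b, hb, -⟩ := (med_adj_lr T hT hE a q).1 h'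
      exact hb.supp
  · rintro ⟨b, c, h⟩
    exact (Adj.supp ((med_adj_lr T hT hE a (T.fc a b)).2 ⟨b, ⟨c, h⟩, rfl⟩))

theorem med_nonDeg : (T.med hT E hE).NonDeg := by
  intro p q r h h'
  rcases p with p | p <;> rcases q with q | q <;> rcases r with r | r <;>
    simp only [med, medF] at h h'
  · exact T.fc_ne h.2.1 (h'.2.2.symm.trans h.2.2)
  · exact T.fc_ne h.2.1 (h'.2.2.symm.trans h.2.2)
  · obtain ⟨b, h1, h2, h3, h4⟩ := h
    obtain ⟨b', h1', h2', h3', h4'⟩ := h'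
    -- `q = fc b p = fc p b'`, `r = fc p b = fc b' p`
    obtain ⟨c, hc⟩ := h2
    rcases T.of_fc hc (h3'.symm.trans h4 : T.fc b' p = T.fc p b) with ⟨k1, k2⟩ | ⟨k1, k2⟩ | ⟨k1, k2⟩
    · exact (T.ne3 hc).1 k2
    · exact (T.ne3 hc).2.2 k2.symm
    · rw [k1] at h2' h3' h4'
      obtain ⟨d, hd⟩ := T.opp _ _ _ hc
      rcases T.of_fc hd (h4'.symm.trans h3 : T.fc p c = T.fc b p) with
        ⟨k3, k4⟩ | ⟨k3, k4⟩ | ⟨k3, k4⟩
      · exact (T.ne3 hc).1 k3
      · rw [k4] at hc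
        exact hT _ _ _ hc hd
      · exact (T.ne3 hc).2.1 k4.symm
  · exact T.fc_ne h.2.1 (h'.2.2.symm.trans h.2.2)
  · obtain ⟨b, h1, h2, h3, h4⟩ := h
    obtain ⟨b', h1', h2', h3', h4'⟩ := h'
    obtain ⟨c, hc⟩ := h2
    rcases T.of_fc hc (h3'.symm.trans h4 : T.fc b' q = T.fc q b) with ⟨k1, k2⟩ | ⟨k1, k2⟩ | ⟨k1, k2⟩
    · exact (T.ne3 hc).1 k2
    · exact (T.ne3 hc).2.2 k2.symm
    · rw [k1] at h2' h3' h4'
      obtain ⟨d, hd⟩ := T.opp _ _ _ hc
      rcases T.of_fc hd (h4'.symm.trans h3 : T.fc q c = T.fc b q) with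
        ⟨k3, k4⟩ | ⟨k3, k4⟩ | ⟨k3, k4⟩
      · exact (T.ne3 hc).1 k3
      · rw [k4] at hc
        exact hT _ _ _ hc hd
      · exact (T.ne3 hc).2.1 k4.symm
  · obtain ⟨b, h1, h2, h3, h4⟩ := h
    obtain ⟨b', h1', h2', h3', h4'⟩ := h'
    obtain ⟨c, hc⟩ := h2
    rcases T.of_fc hc (h3'.symm.trans h4 : T.fc b' r = T.fc r b) with ⟨k1, k2⟩ | ⟨k1, k2⟩ | ⟨k1, k2⟩
    · exact (T.ne3 hc).1 k2
    · exact (T.ne3 hc).2.2 k2.symm
    · rw [k1] at h2' h3' h4'
      obtain ⟨d, hd⟩ := T.opp _ _ _ hc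
      rcases T.of_fc hd (h4'.symm.trans h3 : T.fc r c = T.fc b r) with
        ⟨k3, k4⟩ | ⟨k3, k4⟩ | ⟨k3, k4⟩
      · exact (T.ne3 hc).1 k3
      · rw [k4] at hc
        exact hT _ _ _ hc hd
      · exact (T.ne3 hc).2.1 k4.symm

end Tri

/-- greedy selection -/
theorem exists_far [Finite V] (R : V → V → Prop) (hR : ∀ x, R x x) (hs : ∀ x y, R x y → R y x)
    (K : ℕ) (hK : ∀ x, {y | R x y}.ncard ≤ K) (X : Set V) :
    ∃ X' ⊆ X, X.ncard ≤ K * X'.ncard ∧ ∀ x ∈ X', ∀ y ∈ X', x ≠ y → ¬ R x y := by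
  classical
  have := Fintype.ofFinite V
  let good : Finset (Finset V) := (Finset.univ : Finset (Finset V)).filter
    (fun A => (A : Set V) ⊆ X ∧ ∀ x ∈ A, ∀ y ∈ A, x ≠ y → ¬ R x y)
  have hg : good.Nonempty := ⟨∅, by simp [good]⟩
  obtain ⟨A, hA, hmax⟩ := good.exists_max_image Finset.card hg
  simp only [good, Finset.mem_filter, Finset.mem_univ, true_and] at hA hmax
  refine ⟨A, hA.1, ?_, fun x hx y hy => hA.2 x hx y hy⟩
  have hsub : X ⊆ ⋃ a ∈ A, {y | R a y} := by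
    intro x hx
    by_contra hno
    simp only [Set.mem_iUnion, Set.mem_ofPred_eq, not_exists] at hno
    have hxA : x ∉ A := fun h => hno x h (hR x)
    have h1 := hmax (insert x A) ⟨by
      rw [Finset.coe_insert]
      exact Set.insert_subset hx hA.1, by
      intro y hy z hz hyz
      rw [Finset.mem_insert] at hy hz
      rcases hy with rfl | hy <;> rcases hz with rfl | hz
      · exact absurd rfl hyz
      · exact fun h => hno z hz (hs _ _ h)
      · exact fun h => hno y hy h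
      · exact hA.2 y hy z hz hyz⟩
    rw [Finset.card_insert_of_notMem hxA] at h1
    omega
  calc X.ncard ≤ (⋃ a ∈ A, {y | R a y}).ncard := Set.ncard_le_ncard hsub (Set.toFinite _)
    _ ≤ ∑ a ∈ A, ({y | R a y}).ncard := Finset.set_ncard_biUnion_le A _
    _ ≤ ∑ _a ∈ A, K := Finset.sum_le_sum (fun a _ => hK a)
    _ = K * (A : Set V).ncard := by
      rw [Finset.sum_const, Set.ncard_coe_finset, smul_eq_mul, mul_comm]

namespace Tri

variable (T : Tri W) (hT : T.NonDeg)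

/-- closed neighbourhood of a new vertex has at most 7 elements -/
theorem med_deg_r {E : W → W → Prop} (hE : ∀ a b, E a b → E b a) (f : Set (W × W))
    (a b c : W) (hF : T.F a b c) (hf : f = T.fc a b) :
    {q | (T.med hT E hE).CAdj (Sum.inr f) q}.ncard ≤ 7 := by
  classical
  let s : Finset (W ⊕ Set (W × W)) := {Sum.inr f, Sum.inl a, Sum.inl b, Sum.inl c,
    Sum.inr (T.fc b a), Sum.inr (T.fc c b), Sum.inr (T.fc a c)}
  have hs : {q | (T.med hT E hE).CAdj (Sum.inr f) q} ⊆ (s : Set (W ⊕ Set (W × W))) := by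
    intro q hq
    rcases hq with hq | hq
    · rw [← hq]; simp [s]
    · rcases q with q | q
      · obtain ⟨d, h1, h2⟩ := (med_adj_rl T hT hE q f).1 hq
        rcases T.of_fc hF (h2.symm.trans hf) with ⟨rfl, -⟩ | ⟨rfl, -⟩ | ⟨rfl, -⟩ <;> simp [s]
      · obtain ⟨x, y, h1, h2, h3, h4⟩ := (med_adj_rr T hT hE f q).1 hq
        rcases T.of_fc hF (h3.symm.trans hf) with ⟨rfl, rfl⟩ | ⟨rfl, rfl⟩ | ⟨rfl, rfl⟩ <;>
          simp [s, h4]
  calc _ ≤ (s : Set (W ⊕ Set (W × W))).ncard := Set.ncard_le_ncard hs (Finset.finite_toSet s)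
    _ = s.card := Set.ncard_coe_finset s
    _ ≤ 7 := by
      refine (Finset.card_insert_le _ _).trans ?_
      have := Finset.card_le_six (a := (Sum.inl a : W ⊕ Set (W × W))) (b := Sum.inl b)
        (c := Sum.inl c) (d := Sum.inr (T.fc b a)) (e := Sum.inr (T.fc c b))
        (f := Sum.inr (T.fc a c))
      omega

/-- closed neighbourhood of an old vertex -/
theorem med_deg_l [Finite W] {E : W → W → Prop} (hE : ∀ a b, E a b → E b a) (a : W) (D : ℕ)
    (hD : {b | T.Adj a b}.ncard ≤ D) :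
    {q | (T.med hT E hE).CAdj (Sum.inl a) q}.ncard ≤ 2 * D + 1 := by
  classical
  have hs : {q | (T.med hT E hE).CAdj (Sum.inl a) q} ⊆
      {Sum.inl a} ∪ (Sum.inl '' {b | T.Adj a b} ∪ (fun b => Sum.inr (T.fc a b)) '' {b | T.Adj a b}) := by
    intro q hq
    rcases hq with hq | hq
    · left; exact hq.symm
    · right
      rcases q with q | q
      · left
        exact ⟨q, ((med_adj_ll T hT hE a q).1 hq).2, rfl⟩
      · right
        obtain ⟨b, h1, h2⟩ := (med_adj_lr T hT hE a q).1 hq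
        exact ⟨b, h1, by rw [h2]⟩
  refine (Set.ncard_le_ncard hs (Set.toFinite _)).trans ?_
  refine (Set.ncard_union_le _ _).trans ?_
  rw [Set.ncard_singleton]
  have h1 := Set.ncard_union_le (Sum.inl '' {b | T.Adj a b} : Set (W ⊕ Set (W × W)))
    ((fun b => Sum.inr (T.fc a b)) '' {b | T.Adj a b})
  have h2 : (Sum.inl '' {b | T.Adj a b} : Set (W ⊕ Set (W × W))).ncard ≤ D :=
    (Set.ncard_image_le (Set.toFinite _)).trans hD
  have h3 : ((fun b => Sum.inr (T.fc a b)) '' {b | T.Adj a b} : Set (W ⊕ Set (W × W))).ncard ≤ D :=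
    (Set.ncard_image_le (Set.toFinite _)).trans hD
  omega

/-- few vertices are near a given one -/
theorem med_near [Finite W] (i : V → W) (hi : Function.Injective i) {E : W → W → Prop}
    (hE : ∀ a b, E a b → E b a) (hEi : ∀ a b, E a b → b ∈ Set.range i) (D : ℕ)
    (hD : ∀ v, {b | T.Adj (i v) b}.ncard ≤ D) (x : V) :
    {y | (T.med hT E hE).Near (Sum.inl (i x)) (Sum.inl (i y))}.ncard ≤ (2 * D + 7) ^ 3 := by
  classical
  have : Finite V := Finite.of_injective i hi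
  have := Fintype.ofFinite V
  have : Finite (W ⊕ Set (W × W)) := inferInstance
  have := Fintype.ofFinite (W ⊕ Set (W × W))
  set M := T.med hT E hE with hM
  -- good vertices
  let good : W ⊕ Set (W × W) → Prop := fun p => {q | M.CAdj p q}.ncard ≤ 2 * D + 7
  have hgl : ∀ v, good (Sum.inl (i v)) := by
    intro v
    exact (med_deg_l T hT hE (i v) D (hD v)).trans (by omega)
  have hgn : ∀ v p, M.CAdj (Sum.inl (i v)) p → good p := by
    intro v p hp
    rcases hp with hp | hp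
    · rw [← hp]; exact hgl v
    · rcases p with p | p
      · obtain ⟨w, hw⟩ := hEi _ _ ((med_adj_ll T hT hE _ p).1 hp).1
        rw [← hw]
        exact hgl w
      · obtain ⟨b, ⟨c, hc⟩, h2⟩ := (med_adj_lr T hT hE _ p).1 hp
        exact (med_deg_r T hT hE p _ _ _ hc h2).trans (by omega)
  let nb : W ⊕ Set (W × W) → Finset (W ⊕ Set (W × W)) := fun p =>
    Finset.univ.filter (fun q => M.CAdj p q)
  have hnb : ∀ p, good p → (nb p).card ≤ 2 * D + 7 := by
    intro p hp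
    have : (nb p : Set (W ⊕ Set (W × W))) = {q | M.CAdj p q} := by
      ext q; simp [nb]
    rw [← Set.ncard_coe_finset, this]
    exact hp
  let B : Finset (W ⊕ Set (W × W)) :=
    (nb (Sum.inl (i x))).biUnion (fun p => ((nb p).filter good).biUnion nb)
  have hB : B.card ≤ (2 * D + 7) ^ 3 := by
    calc B.card ≤ (nb (Sum.inl (i x))).card * ((2 * D + 7) * (2 * D + 7)) := by
          apply Finset.card_biUnion_le_card_mul
          intro p hp
          have hp' : good p := hgn x p (by simpa [nb] using hp)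
          calc _ ≤ ((nb p).filter good).card * (2 * D + 7) := by
                apply Finset.card_biUnion_le_card_mul
                intro q hq
                exact hnb q (Finset.mem_filter.1 hq).2
            _ ≤ _ := Nat.mul_le_mul_right _ ((Finset.card_filter_le _ _).trans (hnb p hp'))
      _ ≤ (2 * D + 7) * ((2 * D + 7) * (2 * D + 7)) := Nat.mul_le_mul_right _ (hnb _ (hgl x))
      _ = _ := by ring
  have hsub : (fun y => (Sum.inl (i y) : W ⊕ Set (W × W))) ''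
      {y | M.Near (Sum.inl (i x)) (Sum.inl (i y))} ⊆ (B : Set (W ⊕ Set (W × W))) := by
    rintro _ ⟨y, ⟨p, q, h1, h2, h3⟩, rfl⟩
    simp only [B, Finset.coe_biUnion, Set.mem_iUnion, Finset.mem_coe, Finset.mem_filter, nb, Finset.mem_univ, true_and]
    exact ⟨p, h1, q, ⟨h2, hgn y q h3.symm⟩, h3⟩
  have hinj : Function.Injective (fun y => (Sum.inl (i y) : W ⊕ Set (W × W))) :=
    Sum.inl_injective.comp hi
  rw [← Set.ncard_image_of_injective _ hinj]
  refine (Set.ncard_le_ncard hsub (Set.toFinite _)).trans ?_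
  rw [Set.ncard_coe_finset]
  exact hB

end Tri

end P4
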