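import Mathlib

/-! # MP_b306af Part IV: P4Farkas -/

namespace P4

open Finset

/- Piece FARKAS (P4Farkas, Mathlib only).  Motzkin's theorem of the alternative.
Let `W` be the image in `κ → ℝ` of the subspace `⨅ i, ker (L i)` under `x ↦ (g j x)_j` (a submodule).
If `W` meets the open convex set `C = {z | ∀ j, 0 < z j}` we are in the first case.  Otherwise
`geometric_hahn_banach_open` (`C` convex open, `W` convex, disjoint) gives `f : (κ → ℝ) →L[ℝ] ℝ` and
`u` with `f z < u` on `C` and `u ≤ f w` on `W`.  As `W` is a subspace, `f = 0` on `W` (scale by large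
real numbers of both signs) and `u ≤ 0`.  Put `y j = - f (Pi.single j 1)`.  For `z ∈ C` `f z < 0`; with
`z = Pi.single j 1 + δ • 1`, `δ → 0`, `y j ≥ 0`; with `z = 1`, `∑ y j > 0`, so some `y j > 0`.  The
functional `∑ j, y j • g j = - f ∘ g` vanishes on `⨅ i, ker (L i)`, so by
`mem_span_of_iInf_ker_le_ker` it is in `span (range L)`, i.e. it is `- ∑ i, l i • L i`
(`Submodule.mem_span_range_iff_exists_fun`). -/
theorem motzkin {E : Type} [AddCommGroup E] [Module ℝ E] {ι κ : Type} [Fintype ι] [Fintype κ]
    (L : ι → E →ₗ[ℝ] ℝ) (g : κ → E →ₗ[ℝ] ℝ) :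
    (∃ x, (∀ i, L i x = 0) ∧ ∀ j, 0 < g j x) ∨
      ∃ (l : ι → ℝ) (y : κ → ℝ), (∀ j, 0 ≤ y j) ∧ (∃ j, 0 < y j) ∧
        ∀ x, ∑ i, l i * L i x + ∑ j, y j * g j x = 0 := by
  classical
  let U : Submodule ℝ E := ⨅ i, LinearMap.ker (L i)
  have memU : ∀ x, x ∈ U ↔ ∀ i, L i x = 0 := by
    intro x
    rw [Submodule.mem_iInf]
    rfl
  let G : E →ₗ[ℝ] (κ → ℝ) := LinearMap.pi g
  let W : Submodule ℝ (κ → ℝ) := U.map G
  let C : Set (κ → ℝ) := {z | ∀ j, 0 < z j}
  by_cases hmeet : ∃ x ∈ U, ∀ j, 0 < g j x
  · obtain ⟨x, hx, hj⟩ := hmeet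
    exact Or.inl ⟨x, (memU x).mp hx, hj⟩
  · right
    have hCconv : Convex ℝ C := by
      intro z hz w hw a b ha hb hab j
      show 0 < a * z j + b * w j
      have h1 : 0 ≤ a * z j := mul_nonneg ha (hz j).le
      have h2 : 0 ≤ b * w j := mul_nonneg hb (hw j).le
      rcases ha.lt_or_eq with h | h
      · have := mul_pos h (hz j)
        linarith
      · have hb1 : b = 1 := by linarith
        rw [← h, hb1]
        have := hw j
        linarith
    have hCopen : IsOpen C := by
      have : C = ⋂ j, {z : κ → ℝ | 0 < z j} := by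
        ext z
        simp [C]
      rw [this]
      exact isOpen_iInter_of_finite fun j => isOpen_lt continuous_const (continuous_apply j)
    have hdisj : Disjoint C (W : Set (κ → ℝ)) := by
      rw [Set.disjoint_left]
      rintro z hz ⟨x, hx, rfl⟩
      exact hmeet ⟨x, hx, hz⟩
    obtain ⟨f, u, hfC, hfW⟩ := geometric_hahn_banach_open hCconv hCopen W.convex hdisj
    have hu : u ≤ 0 := by
      have := hfW 0 W.zero_mem
      simpa using this
    have hfW0 : ∀ w ∈ W, f w = 0 := by
      intro w hw
      by_contra hne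
      have h1 := hfW (((u - 1) / f w) • w) (W.smul_mem _ hw)
      rw [map_smul, smul_eq_mul, div_mul_cancel₀ _ hne] at h1
      linarith
    have hfneg : ∀ z ∈ C, f z < 0 := fun z hz => (hfC z hz).trans_le hu
    have hf1 : f 1 < 0 := hfneg 1 fun j => one_pos
    have hfs : ∀ j, f (Pi.single j 1) ≤ 0 := by
      intro j
      by_contra hpos
      push Not at hpos
      have hδ : 0 < f (Pi.single j 1) / (2 * (-f 1)) := by
        apply div_pos hpos
        linarith
      have h1 := hfneg (Pi.single j 1 + (f (Pi.single j 1) / (2 * (-f 1))) • (1 : κ → ℝ)) (by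
        intro i
        show 0 < (Pi.single j (1 : ℝ) : κ → ℝ) i + (f (Pi.single j 1) / (2 * (-f 1))) * 1
        have h2 : 0 ≤ (Pi.single j (1 : ℝ) : κ → ℝ) i := by
          by_cases h : i = j
          · rw [h, Pi.single_eq_same]
            exact zero_le_one
          · rw [Pi.single_eq_of_ne h]
        linarith)
      rw [map_add, map_smul, smul_eq_mul] at h1
      have h3 : f (Pi.single j 1) / (2 * (-f 1)) * f 1 = -(f (Pi.single j 1) / 2) := by
        have : f 1 ≠ 0 := hf1.ne
        field_simp
      rw [h3] at h1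
      linarith
    have hsum : ∀ z : κ → ℝ, f z = ∑ j, z j * f (Pi.single j 1) := by
      intro z
      have h1 : z = ∑ j, z j • (Pi.single j (1 : ℝ) : κ → ℝ) := by
        conv_lhs => rw [← Finset.univ_sum_single z]
        refine Finset.sum_congr rfl fun j _ => ?_
        rw [← Pi.single_smul, smul_eq_mul, mul_one]
      conv_lhs => rw [h1]
      rw [map_sum]
      refine Finset.sum_congr rfl fun j _ => ?_
      rw [map_smul, smul_eq_mul]
    obtain ⟨y, hy⟩ : ∃ y : κ → ℝ, y = fun j => - f (Pi.single j 1) := ⟨_, rfl⟩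
    have hK : (∑ j, y j • g j : E →ₗ[ℝ] ℝ) ∈ Submodule.span ℝ (Set.range L) := by
      refine mem_span_of_iInf_ker_le_ker ?_
      intro x hx
      have hx' : x ∈ U := hx
      have h1 := hfW0 (G x) ⟨x, hx', rfl⟩
      rw [hsum] at h1
      rw [LinearMap.mem_ker, LinearMap.sum_apply]
      have h2 : ∑ j, (y j • g j) x = - ∑ j, G x j * f (Pi.single j 1) := by
        rw [← Finset.sum_neg_distrib]
        refine Finset.sum_congr rfl fun j _ => ?_
        rw [hy]
        show -f (Pi.single j 1) * g j x = -(g j x * f (Pi.single j 1))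
        ring
      rw [h2, h1, neg_zero]
    obtain ⟨c, hc⟩ := (Submodule.mem_span_range_iff_exists_fun ℝ).mp hK
    refine ⟨fun i => - c i, y, fun j => ?_, ?_, fun x => ?_⟩
    · rw [hy]
      have := hfs j
      show 0 ≤ - f (Pi.single j 1)
      linarith
    · by_contra hno
      push Not at hno
      have h1 := hsum 1
      have h2 : 0 ≤ ∑ j, (1 : κ → ℝ) j * f (Pi.single j 1) := by
        refine Finset.sum_nonneg fun j _ => ?_
        have h3 := hno j
        rw [hy] at h3
        have h4 : -f (Pi.single j 1) ≤ 0 := h3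
        rw [Pi.one_apply, one_mul]
        linarith
      linarith
    · have h1 := congrArg (fun K : E →ₗ[ℝ] ℝ => K x) hc
      simp only [LinearMap.sum_apply, LinearMap.smul_apply, smul_eq_mul] at h1
      rw [← h1, ← Finset.sum_add_distrib]
      refine Finset.sum_eq_zero fun i _ => ?_
      ring

end P4
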