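import Pool.Agent.Lib_MP_b306af.P4Defs

/-! # MP_b306af Part IV: P4Twoc -/

namespace P4

variable {V : Type}

namespace Tri

/- Piece TWOC (P4Basic).  `G - a` is connected.
Apply `T.trans` to `Q x y := (x ≠ a → P x) ∧ (x = a → P y)`.
Closed under `(x, y) → (y, z)` for `T.F x y z`: if `x ≠ a` then `P x`; if moreover `y ≠ a` then
`P y` (by `hP x y z`), and `Q y z` holds; if `y = a` we need `P z`: `x, z ≠ a` are adjacent
(`T.F z x y`; use `T.opp` to get a face `T.F x z _`), so `P z`.  If `x = a` then `P y`, `y ≠ a`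
(`T.ne`), so `Q y z`.  Closed under `(x, y) → (y, x)`: same computation, with `T.opp`.
A vertex `b ≠ a` with `P b` in a face `T.F b b' b''` has `Q b b'`, so `Q c c'` for a face
`T.F c c' c''`, and `c ≠ a` gives `P c`. -/
theorem two_conn (T : Tri V) (a : V) (P : V → Prop)
    (hP : ∀ b c d, T.F b c d → b ≠ a → c ≠ a → P b → P c) :
    ∀ b c, T.Supp b → T.Supp c → b ≠ a → c ≠ a → P b → P c := by
  rintro b c ⟨b', b'', hb⟩ ⟨c', c'', hc⟩ hba hca hPb
  have key := T.trans (fun x y => (x ≠ a → P x) ∧ (x = a → P y)) ?_ ?_ b b' b'' c c' c'' hb hc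
    ⟨fun _ => hPb, fun h => absurd h hba⟩
  · exact key.1 hca
  · rintro x y z hF ⟨h1, h2⟩
    refine ⟨fun hy => ?_, fun hy => ?_⟩
    · by_cases hx : x = a
      · exact h2 hx
      · exact hP x y z hF hx hy (h1 hx)
    · have hx : x ≠ a := by
        rw [← hy]
        exact T.ne _ _ _ hF
      have hz : z ≠ a := by
        rw [← hy]
        exact (T.ne _ _ _ (T.cyc _ _ _ hF)).symm
      obtain ⟨d, hd⟩ := T.opp _ _ _ (T.cyc2 hF)
      exact hP x z d hd hx hz (h1 hx)
  · rintro x y z hF ⟨h1, h2⟩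
    refine ⟨fun hy => ?_, fun hy => ?_⟩
    · by_cases hx : x = a
      · exact h2 hx
      · exact hP x y z hF hx hy (h1 hx)
    · have hx : x ≠ a := by
        rw [← hy]
        exact T.ne _ _ _ hF
      exact h1 hx

end Tri

end P4
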