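import Pool.Agent.Lib_MP_b306af.P4ZFary2
import Pool.Agent.Lib_MP_b306af.P4Twoc

/-! # MP_b306af Part IV: P4Radgood -/

namespace P4

variable {V : Type}

/- Piece RADGOOD (P4Fary, uses `Tri.two_conn`).  `side v = 1 ↔ v = o1`, `side v = -1 ↔ v ≠ o1`, never
`0`.  `conn 1`: both vertices are `o1`.  `conn (-1)`: `Tri.two_conn` with `a = o1`.  `lab1`: `u = o1`, face
`T.F o1 w w'`; `w ≠ o2`, otherwise `w' = o3` and the face is the outer face; so `L w < L w'`.  `lab2`: `u = u' = o1`
contradicts `T.ne`. -/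
theorem radial_good [Finite V] (T : Tri V) (o1 o2 o3 : V) (h0 : T.F o1 o2 o3) (L : V → ℝ)
    (hL : ∀ x y, T.F o1 x y → x ≠ o2 → L x < L y) : (radialSetup T o1 o2 o3 L).Good := by
  have s1 : (radialSetup T o1 o2 o3 L).side o1 = 1 := if_pos rfl
  have sm : ∀ v, v ≠ o1 → (radialSetup T o1 o2 o3 L).side v = -1 := fun v hv => if_neg hv
  have e1 : ∀ v, (radialSetup T o1 o2 o3 L).side v = 1 → v = o1 := by
    intro v hv
    by_contra h
    rw [sm v h] at hv
    exact absurd hv (by decide)
  have em : ∀ v, (radialSetup T o1 o2 o3 L).side v = -1 → v ≠ o1 := by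
    intro v hv h
    rw [h, s1] at hv
    exact absurd hv (by decide)
  have e0 : ∀ v, (radialSetup T o1 o2 o3 L).side v = 0 → False := by
    intro v hv
    by_cases h : v = o1
    · rw [h, s1] at hv
      exact absurd hv (by decide)
    · rw [sm v h] at hv
      exact absurd hv (by decide)
  refine ⟨h0, ⟨o1, Or.inl rfl, s1⟩, ⟨o2, Or.inr (Or.inl rfl), sm o2 (T.ne _ _ _ h0).symm⟩,
    ?_, ?_, ?_, ?_, ?_, ?_, ?_⟩
  · intro a b c _ ha
    exact (e0 a ha).elim
  · intro σ hσ P hP a b ha hb hsa hsb hPa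
    have hc : σ = 1 ∨ σ = -1 := by
      revert hσ
      revert σ
      intro σ _ _ _ hσ
      cases σ
      · exact absurd rfl hσ
      · exact Or.inr rfl
      · exact Or.inl rfl
    rcases hc with h | h
    · rw [h] at hsa hsb
      rw [e1 b hsb]
      rw [e1 a hsa] at hPa
      exact hPa
    · rw [h] at hsa hsb
      refine T.two_conn o1 P ?_ a b ha hb (em a hsa) (em b hsb) hPa
      intro x y z hF hx hy hPx
      refine hP x y z hF ?_ ?_ hPx
      · rw [h]
        exact sm x hx
      · rw [h]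
        exact sm y hy
  · intro σ _ s _ hs
    exact (e0 s hs).elim
  · intro u w w' hF hO hu hw hw'
    have hu1 := e1 u hu
    subst hu1
    refine hL w w' hF ?_
    intro hw2
    apply hO
    refine Or.inl ⟨rfl, hw2, ?_⟩
    rw [hw2] at hF
    exact T.uniq _ _ _ _ hF h0
  · intro w u' u hF _ _ hu' hu
    have h1 := e1 u' hu'
    have h2 := e1 u hu
    exact absurd (h1.trans h2.symm) (T.ne _ _ _ (T.cyc _ _ _ hF))
  · intro u w s _ _ _ _ hs
    exact (e0 s hs).elim
  · intro u w s _ _ _ _ hs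
    exact (e0 s hs).elim

end P4
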