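import Pool.Agent.Lib_MP_b306af.P4Link

/-! # MP_b306af Part IV: P4Linkf -/

namespace P4

variable {V : Type}

namespace Tri

/- Piece LINKF (P4Basic, uses `link_single`).  On a finite type forward invariance suffices.
Let `B = {b | T.Adj a b ∧ R b}` and `f b = T.nx a b`.  `f` maps `B` to `B` and is injective on
`B` (`T.F a b c`, `T.F a b' c` give `b = b'` by `T.cyc` and `T.uniq`), so it is surjective from
`B` onto `B` (`Set.Finite`, e.g. `Set.Finite.surjOn_of_injOn_image` / `Finset.surj_on_of_inj_on_of_card_le`).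
So if `T.F a b c` and `R c` then `c = f b'` with `b' ∈ B`, and `b = b'` by injectivity on the
neighbours, so `R b`.  Now apply `link_single`. -/
theorem link_fwd [Finite V] (T : Tri V) (a : V) (R : V → Prop)
    (hR : ∀ b c, T.F a b c → R b → R c) :
    ∀ b b', T.Adj a b → T.Adj a b' → R b → R b' := by
  classical
  have inj : ∀ b b' c, T.F a b c → T.F a b' c → b = b' := by
    intro b b' c h h'
    exact T.uniq _ _ _ _ (T.cyc2 h) (T.cyc2 h')
  set B : Set V := {b | T.Adj a b ∧ R b} with hB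
  have hmap : ∀ b ∈ B, T.nx a b ∈ B := by
    rintro b ⟨⟨c, hc⟩, hb⟩
    rw [T.nx_eq hc]
    exact ⟨Adj.symm ⟨b, T.cyc2 hc⟩, hR _ _ hc hb⟩
  have hinj : Set.InjOn (T.nx a) B := by
    rintro b ⟨⟨c, hc⟩, _⟩ b' ⟨⟨c', hc'⟩, _⟩ h
    rw [T.nx_eq hc, T.nx_eq hc'] at h
    subst h
    exact inj _ _ _ hc hc'
  have himg : T.nx a '' B = B := by
    refine Set.eq_of_subset_of_ncard_le ?_ ?_ (Set.toFinite B)
    · rintro _ ⟨b, hb, rfl⟩
      exact hmap b hb
    · rw [hinj.ncard_image]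
  apply T.link_single a R
  intro b c h
  refine ⟨hR b c h, fun hc => ?_⟩
  have hcB : c ∈ B := ⟨Adj.symm ⟨b, T.cyc2 h⟩, hc⟩
  rw [← himg] at hcB
  obtain ⟨b', ⟨⟨c', hb'⟩, hRb'⟩, hbc⟩ := hcB
  rw [T.nx_eq hb'] at hbc
  subst hbc
  rw [inj _ _ _ h hb']
  exact hRb'

end Tri

end P4
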