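import Pool.Agent.Lib_MP_b306af.P4Cycle
import Pool.Agent.Lib_MP_b306af.P4Linkf

/-! # MP_b306af Part IV: P4Radial -/

namespace P4

variable {V : Type}

/- Piece RADIAL (P4Fary, uses `enum_cycle`, `Tri.link_fwd`).  `enum_cycle` with `B x := T.Adj o1 x`,
`f x = T.nx o1 x` (`htr` from `Tri.link_fwd`), `l = o2`: `e 0 = f o2 = o3`, `e (m - 1) = o2`, and `m ≥ 2` because
`o3 ≠ o2`.  `L (e r) = - 1 / 2 + r / (m - 1)` for `r < m` (well defined by injectivity; `L = 0` on the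
non-neighbours; use the inverse of `e` on `Finset.range m`).  If `T.F o1 x y`, `x ≠ o2`: `x = e r` with
`r < m - 1`, `y = e (r + 1)`. -/
theorem exists_radial [Finite V] (T : Tri V) (o1 o2 o3 : V) (h0 : T.F o1 o2 o3) :
    ∃ L : V → ℝ, L o3 = - 1 / 2 ∧ L o2 = 1 / 2 ∧
      ∀ x y, T.F o1 x y → x ≠ o2 → L x < L y := by
  classical
  have h23 : o2 ≠ o3 := T.ne _ _ _ (T.cyc _ _ _ h0)
  obtain ⟨m, e, hm, he0, hel, hes, -, hinj, hsurj⟩ := enum_cycle (fun x => T.Adj o1 x)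
    (fun x => T.nx o1 x) (fun x hx => Tri.Adj.symm ⟨x, T.cyc2 (T.F_nx hx)⟩)
    (fun R hR x y hx hy hRx => T.link_fwd o1 R (fun b c hF hb => by
      have := hR b ⟨c, hF⟩ hb
      rwa [T.nx_eq hF] at this) x y hx hy hRx) o2 ⟨o3, h0⟩
  have he0' : e 0 = o3 := by rw [he0]; exact T.nx_eq h0
  have hm2 : 2 ≤ m := by
    by_contra hlt
    have h1 : m - 1 = 0 := by omega
    rw [h1, he0'] at hel
    exact h23 hel.symm
  let L : V → ℝ := fun x => if h : ∃ r < m, e r = x then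
    -1 / 2 + (h.choose : ℝ) / ((m : ℝ) - 1) else 0
  have hL : ∀ r < m, L (e r) = -1 / 2 + (r : ℝ) / ((m : ℝ) - 1) := by
    intro r hr
    have h : ∃ r' < m, e r' = e r := ⟨r, hr, rfl⟩
    have h1 : h.choose = r := hinj _ h.choose_spec.1 _ hr h.choose_spec.2
    show (if h : ∃ r' < m, e r' = e r then
      -1 / 2 + (h.choose : ℝ) / ((m : ℝ) - 1) else 0) = _
    rw [dif_pos h, h1]
  have hm1 : (0 : ℝ) < (m : ℝ) - 1 := by
    have : (2 : ℝ) ≤ m := by exact_mod_cast hm2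
    linarith
  refine ⟨L, ?_, ?_, ?_⟩
  · rw [← he0', hL 0 hm]
    simp
  · rw [← hel, hL (m - 1) (by omega), Nat.cast_sub (by omega), Nat.cast_one, div_self hm1.ne']
    norm_num
  · intro x y hF hx
    obtain ⟨r, hr, rfl⟩ := hsurj x ⟨y, hF⟩
    have hr1 : r + 1 < m := by
      rcases Nat.lt_or_ge (r + 1) m with h | h
      · exact h
      · exfalso
        have h1 : r = m - 1 := by omega
        rw [h1] at hx
        exact hx hel
    have hy : y = e (r + 1) := by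
      rw [hes]
      exact (T.nx_eq hF).symm
    rw [hy, hL r hr, hL (r + 1) hr1]
    have : (r : ℝ) / ((m : ℝ) - 1) < ((r + 1 : ℕ) : ℝ) / ((m : ℝ) - 1) := by
      apply div_lt_div_of_pos_right _ hm1
      push_cast
      linarith
    linarith

end P4
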