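import Pool.Agent.Lib_MP_b306af.P4ZFary1
import Pool.Agent.Lib_MP_b306af.P4Radial
import Pool.Agent.Lib_MP_b306af.P4Radgood

/-! # MP_b306af Part IV: P4Fary -/

namespace P4

variable {V : Type}

/-- the affine map sending `(0, 1)`, `(1, -1)`, `(-1, -1)` to `Q1`, `Q2`, `Q3` -/
private noncomputable def faryMap (Q1 Q2 Q3 : ℝ × ℝ) (P : ℝ × ℝ) : ℝ × ℝ :=
  ((1 + P.2) / 2 * Q1.1 + (1 - P.2 + 2 * P.1) / 4 * Q2.1 + (1 - P.2 - 2 * P.1) / 4 * Q3.1,
   (1 + P.2) / 2 * Q1.2 + (1 - P.2 + 2 * P.1) / 4 * Q2.2 + (1 - P.2 - 2 * P.1) / 4 * Q3.2)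

private theorem faryMap_det (Q1 Q2 Q3 A B C : ℝ × ℝ) :
    det3 (faryMap Q1 Q2 Q3 A) (faryMap Q1 Q2 Q3 B) (faryMap Q1 Q2 Q3 C) =
      (det3 Q1 Q2 Q3 / (-4)) * det3 A B C := by
  unfold det3 faryMap
  ring

/- Piece FARY (P4Fary, uses `exists_radial`, `radial_good`).  Take the `radialSetup`, with the outer positions
`o1 ↦ (0, 1)`, `o2 ↦ (1, -1)`, `o3 ↦ (-1, -1)`: `crossAt (0, 1) (1, -1) = 1 / 2 = L o2`,
`crossAt (0, 1) (-1, -1) = - 1 / 2 = L o3`.  `IV` gives `P0` with all other faces positive.  Let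
`Ψ (x, y) = α1 Q1 + α2 Q2 + α3 Q3`, `α1 = (1 + y) / 2`, `α2 = (1 - y + 2 x) / 4`, `α3 = (1 - y - 2 x) / 4`
(`α1 + α2 + α3 = 1`); `Ψ` is affine, `Ψ (0, 1) = Q1`, `Ψ (1, -1) = Q2`, `Ψ (-1, -1) = Q3` and
`det3 (Ψ P) (Ψ Q) (Ψ R) = (det3 Q1 Q2 Q3 / (-4)) * det3 P Q R` (`ring` after unfolding; check:
`det3 (0,1) (1,-1) (-1,-1) = -4`).  `P = Ψ ∘ P0`. -/
theorem fary_of_iv [Finite V] (T : Tri V) (o1 o2 o3 : V) (h0 : T.F o1 o2 o3)
    (hIV : ∀ S : Setup V, S.T = T → S.Good → S.IV) : Fary T o1 o2 o3 := by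
  classical
  obtain ⟨L, hL3, hL2, hL⟩ := exists_radial T o1 o2 o3 h0
  have hgood := radial_good T o1 o2 o3 h0 L hL
  have h12 : o1 ≠ o2 := T.ne _ _ _ h0
  have h31 : o3 ≠ o1 := T.ne _ _ _ (T.cyc2 h0)
  have h23 : o2 ≠ o3 := T.ne _ _ _ (T.cyc _ _ _ h0)
  intro Q1 Q2 Q3 hneg
  have hs1 : (radialSetup T o1 o2 o3 L).side o1 = 1 := by
    simp [radialSetup]
  have hsn : ∀ v, v ≠ o1 → (radialSetup T o1 o2 o3 L).side v = -1 := by
    intro v hv
    simp [radialSetup, hv]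
  have hs1' : ∀ v, (radialSetup T o1 o2 o3 L).side v = 1 → v = o1 := by
    intro v hv
    by_contra hne
    rw [hsn v hne] at hv
    exact absurd hv (by decide)
  let Q : V → ℝ × ℝ := fun v => if v = o1 then (0, 1) else if v = o2 then (1, -1) else (-1, -1)
  have hQ1 : Q o1 = (0, 1) := by simp [Q]
  have hQ2 : Q o2 = (1, -1) := by simp [Q, h12.symm]
  have hQ3 : Q o3 = (-1, -1) := by simp [Q, h31, h23.symm]
  have hok : (radialSetup T o1 o2 o3 L).OuterOK Q := by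
    refine ⟨?_, ?_, ?_⟩
    · intro v hv
      rcases hv with hv | hv | hv
      · have hv' : v = o1 := hv
        subst hv'
        rw [hs1, hQ1]; simp
      · have hv' : v = o2 := hv
        subst hv'
        rw [hsn _ h12.symm, hQ2]; simp
      · have hv' : v = o3 := hv
        subst hv'
        rw [hsn _ h31, hQ3]; simp
    · intro v _ hv0
      exfalso
      by_cases hv : v = o1
      · subst hv
        rw [hs1] at hv0
        exact absurd hv0 (by decide)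
      · rw [hsn v hv] at hv0
        exact absurd hv0 (by decide)
    · intro u w _ hw hu1 hw1
      have hu : u = o1 := hs1' u hu1
      subst hu
      rcases hw with hw | hw | hw
      · have hw' : w = u := hw
        subst hw'
        rw [hs1] at hw1
        exact absurd hw1 (by decide)
      · have hw' : w = o2 := hw
        subst hw'
        rw [hQ1, hQ2]
        show crossAt (0, 1) (1, -1) = L w
        rw [hL2]
        unfold crossAt
        norm_num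
      · have hw' : w = o3 := hw
        subst hw'
        rw [hQ1, hQ3]
        show crossAt (0, 1) (-1, -1) = L w
        rw [hL3]
        unfold crossAt
        norm_num
  obtain ⟨P0, hP0, hD⟩ := hIV (radialSetup T o1 o2 o3 L) rfl hgood Q hok 1 one_pos
  have e1 : P0 o1 = (0, 1) := (hP0 o1 (Or.inl rfl)).trans hQ1
  have e2 : P0 o2 = (1, -1) := (hP0 o2 (Or.inr (Or.inl rfl))).trans hQ2
  have e3 : P0 o3 = (-1, -1) := (hP0 o3 (Or.inr (Or.inr rfl))).trans hQ3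
  refine ⟨fun v => faryMap Q1 Q2 Q3 (P0 v), ?_, ?_, ?_, ?_⟩
  · show faryMap Q1 Q2 Q3 (P0 o1) = Q1
    rw [e1]
    ext <;> simp only [faryMap] <;> ring
  · show faryMap Q1 Q2 Q3 (P0 o2) = Q2
    rw [e2]
    ext <;> simp only [faryMap] <;> ring
  · show faryMap Q1 Q2 Q3 (P0 o3) = Q3
    rw [e3]
    ext <;> simp only [faryMap] <;> ring
  · intro a b c hF hnO
    have hpos : 0 < det3 (P0 a) (P0 b) (P0 c) := hD.pos a b c hF hnO
    show 0 < det3 (faryMap Q1 Q2 Q3 (P0 a)) (faryMap Q1 Q2 Q3 (P0 b)) (faryMap Q1 Q2 Q3 (P0 c))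
    rw [faryMap_det]
    exact mul_pos (div_pos_of_neg_of_neg hneg (by norm_num)) hpos

end P4
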