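import Pool.Agent.Lib_MP_b306af.P4ZFlip1

/-! # MP_b306af Part IV: P4Flb -/

namespace P4

variable {V : Type}

/- Piece FLB (P4Flip).  `a, b, c, w` are distinct.  `cyc`: clear.  `uniq`: the darts of the two old faces are
`ab, bc, ca` and `cb, bw, wc`; of the two new ones `ab, bw, wa` and `aw, wc, ca`.  `aw`, `wa` are
not darts of `T`.  For an old face `T.F x y z` different from the two, `(x, y)` is none of
`ab, ca, bw, wc` (`T.uniq`).  `opp`: the reverse of a dart of a face which is kept is in a `T`-face; if this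
`T`-face is `(a, b, c)` or `(c, b, w)`, the dart is `ab`, `ca`, `bw` or `wc` (the darts `bc`, `cb` are not in
kept faces), which is in a new face.  The reverses of `ab, ca, bw, wc` are in kept `T`-faces (`T.opp`; the
face of `ba` is not `(a, b, c)` or `(c, b, w)`, whose darts are different from `ba` as
`a, b, c, w` are distinct; same for the others), `aw`, `wa` are in new faces. -/
theorem flip_basic {T : Tri V} {a b c w : V} (h : FlipHyp T a b c w) :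
    (∀ x y z, flipF T a b c w x y z → flipF T a b c w y z x) ∧
    (∀ x y z z', flipF T a b c w x y z → flipF T a b c w x y z' → z = z') ∧
    (∀ x y z, flipF T a b c w x y z → ∃ z', flipF T a b c w y x z') ∧
    (∀ x y z, flipF T a b c w x y z → x ≠ y) := by
  have hab : a ≠ b := T.ne _ _ _ h.h1
  have hbc : b ≠ c := T.ne _ _ _ (T.cyc _ _ _ h.h1)
  have hca : c ≠ a := T.ne _ _ _ (T.cyc2 h.h1)
  have hbw : b ≠ w := T.ne _ _ _ (T.cyc _ _ _ h.h2)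
  have hwc : w ≠ c := T.ne _ _ _ (T.cyc2 h.h2)
  have haw : a ≠ w := h.ne
  have f1 := h.h1
  have f1' := T.cyc _ _ _ h.h1
  have f1'' := T.cyc2 h.h1
  have f2 := h.h2
  have f2' := T.cyc _ _ _ h.h2
  have f2'' := T.cyc2 h.h2
  have naw : ∀ z, ¬ T.F a w z := fun z hz => h.nadj ⟨z, hz⟩
  have nwa : ∀ z, ¬ T.F w a z := fun z hz => h.nadj (Tri.Adj.symm ⟨z, hz⟩)
  refine ⟨?_, ?_, ?_, ?_⟩
  · rintro x y z (⟨h1, h2, h3⟩ | h1 | h1)
    · refine Or.inl ⟨T.cyc _ _ _ h1, ?_, ?_⟩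
      · intro hc; apply h2; unfold Cyc3 at hc ⊢; tauto
      · intro hc; apply h3; unfold Cyc3 at hc ⊢; tauto
    · refine Or.inr (Or.inl ?_); unfold Cyc3 at h1 ⊢; tauto
    · refine Or.inr (Or.inr ?_); unfold Cyc3 at h1 ⊢; tauto
  · -- an old face and a new one never share a dart
    have key : ∀ x y z z', T.F x y z → ¬ Cyc3 a b c x y z → ¬ Cyc3 c b w x y z →
        (Cyc3 a b w x y z' ∨ Cyc3 a w c x y z') → False := by
      rintro x y z z' h1 h2 h3 ((⟨rfl, rfl, rfl⟩ | ⟨rfl, rfl, rfl⟩ | ⟨rfl, rfl, rfl⟩) |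
        (⟨rfl, rfl, rfl⟩ | ⟨rfl, rfl, rfl⟩ | ⟨rfl, rfl, rfl⟩))
      · exact h2 (Or.inl ⟨rfl, rfl, T.uniq _ _ _ _ h1 f1⟩)
      · exact h3 (Or.inr (Or.inl ⟨rfl, rfl, T.uniq _ _ _ _ h1 f2'⟩))
      · exact nwa _ h1
      · exact naw _ h1
      · exact h3 (Or.inr (Or.inr ⟨rfl, rfl, T.uniq _ _ _ _ h1 f2''⟩))
      · exact h2 (Or.inr (Or.inr ⟨rfl, rfl, T.uniq _ _ _ _ h1 f1''⟩))
    rintro x y z z' (⟨h1, h2, h3⟩ | h1) (⟨h1', h2', h3'⟩ | h1')
    · exact T.uniq _ _ _ _ h1 h1'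
    · exact (key x y z z' h1 h2 h3 h1').elim
    · exact (key x y z' z h1' h2' h3' h1).elim
    · rcases h1 with (⟨rfl, rfl, rfl⟩ | ⟨rfl, rfl, rfl⟩ | ⟨rfl, rfl, rfl⟩) |
        (⟨rfl, rfl, rfl⟩ | ⟨rfl, rfl, rfl⟩ | ⟨rfl, rfl, rfl⟩) <;>
      rcases h1' with (⟨e1, e2, e3⟩ | ⟨e1, e2, e3⟩ | ⟨e1, e2, e3⟩) |
        (⟨e1, e2, e3⟩ | ⟨e1, e2, e3⟩ | ⟨e1, e2, e3⟩) <;>
      first
        | exact e3.symm
        | exact absurd e1 hab
        | exact absurd e1 hab.symm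
        | exact absurd e1 hbc
        | exact absurd e1 hbc.symm
        | exact absurd e1 hca
        | exact absurd e1 hca.symm
        | exact absurd e1 hbw
        | exact absurd e1 hbw.symm
        | exact absurd e1 hwc
        | exact absurd e1 hwc.symm
        | exact absurd e1 haw
        | exact absurd e1 haw.symm
        | exact absurd e2 hab
        | exact absurd e2 hab.symm
        | exact absurd e2 hbc
        | exact absurd e2 hbc.symm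
        | exact absurd e2 hca
        | exact absurd e2 hca.symm
        | exact absurd e2 hbw
        | exact absurd e2 hbw.symm
  · -- darts with no old face of the two
    have keep : ∀ x y, (∃ z, T.F x y z) → (∀ z, ¬ Cyc3 a b c x y z) → (∀ z, ¬ Cyc3 c b w x y z) →
        ∃ z', flipF T a b c w x y z' := by
      rintro x y ⟨z, hz⟩ h1 h2
      exact ⟨z, Or.inl ⟨hz, h1 z, h2 z⟩⟩
    have nc : ∀ x y, (x, y) ≠ (a, b) → (x, y) ≠ (b, c) → (x, y) ≠ (c, a) → (x, y) ≠ (c, b) →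
        (x, y) ≠ (b, w) → (x, y) ≠ (w, c) →
        (∀ z, ¬ Cyc3 a b c x y z) ∧ (∀ z, ¬ Cyc3 c b w x y z) := by
      intro x y n1 n2 n3 n4 n5 n6
      constructor
      · rintro z (⟨rfl, rfl, _⟩ | ⟨rfl, rfl, _⟩ | ⟨rfl, rfl, _⟩)
        · exact n1 rfl
        · exact n2 rfl
        · exact n3 rfl
      · rintro z (⟨rfl, rfl, _⟩ | ⟨rfl, rfl, _⟩ | ⟨rfl, rfl, _⟩)
        · exact n4 rfl
        · exact n5 rfl
        · exact n6 rfl
    rintro x y z (⟨h1, h2, h3⟩ | (⟨rfl, rfl, rfl⟩ | ⟨rfl, rfl, rfl⟩ | ⟨rfl, rfl, rfl⟩) |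
      (⟨rfl, rfl, rfl⟩ | ⟨rfl, rfl, rfl⟩ | ⟨rfl, rfl, rfl⟩))
    · obtain ⟨z', hz'⟩ := T.opp _ _ _ h1
      by_cases c1 : Cyc3 a b c y x z'
      · rcases c1 with ⟨rfl, rfl, rfl⟩ | ⟨rfl, rfl, rfl⟩ | ⟨rfl, rfl, rfl⟩
        · exact ⟨w, Or.inr (Or.inl (Or.inl ⟨rfl, rfl, rfl⟩))⟩
        · exact (h3 (Or.inl ⟨rfl, rfl, T.uniq _ _ _ _ h1 f2⟩)).elim
        · exact ⟨w, Or.inr (Or.inr (Or.inr (Or.inr ⟨rfl, rfl, rfl⟩)))⟩
      · by_cases c2 : Cyc3 c b w y x z'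
        · rcases c2 with ⟨rfl, rfl, rfl⟩ | ⟨rfl, rfl, rfl⟩ | ⟨rfl, rfl, rfl⟩
          · exact (h2 (Or.inr (Or.inl ⟨rfl, rfl, T.uniq _ _ _ _ h1 f1'⟩))).elim
          · exact ⟨a, Or.inr (Or.inl (Or.inr (Or.inl ⟨rfl, rfl, rfl⟩)))⟩
          · exact ⟨a, Or.inr (Or.inr (Or.inr (Or.inl ⟨rfl, rfl, rfl⟩)))⟩
        · exact ⟨z', Or.inl ⟨hz', c1, c2⟩⟩
    · obtain ⟨n1, n2⟩ := nc y x (by simp [hab.symm]) (by simp [hca.symm]) (by simp [hbc])
        (by simp [hbc]) (by simp [haw]) (by simp [hbw])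
      exact keep y x (T.opp _ _ _ f1) n1 n2
    · obtain ⟨n1, n2⟩ := nc y x (by simp [haw.symm]) (by simp [hbw.symm]) (by simp [hwc])
        (by simp [hwc]) (by simp [hbw.symm]) (by simp [hbc])
      exact keep y x (T.opp _ _ _ f2') n1 n2
    · exact ⟨c, Or.inr (Or.inr (Or.inl ⟨rfl, rfl, rfl⟩))⟩
    · exact ⟨b, Or.inr (Or.inl (Or.inr (Or.inr ⟨rfl, rfl, rfl⟩)))⟩
    · obtain ⟨n1, n2⟩ := nc y x (by simp [hca]) (by simp [hbc.symm]) (by simp [haw.symm])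
        (by simp [hbw.symm]) (by simp [hbc.symm]) (by simp [hwc.symm])
      exact keep y x (T.opp _ _ _ f2'') n1 n2
    · obtain ⟨n1, n2⟩ := nc y x (by simp [hbc.symm]) (by simp [hab]) (by simp [hca.symm])
        (by simp [hca.symm]) (by simp [hab]) (by simp [haw])
      exact keep y x (T.opp _ _ _ f1'') n1 n2
  · rintro x y z (⟨h1, h2, h3⟩ | (⟨rfl, rfl, rfl⟩ | ⟨rfl, rfl, rfl⟩ | ⟨rfl, rfl, rfl⟩) |
      (⟨rfl, rfl, rfl⟩ | ⟨rfl, rfl, rfl⟩ | ⟨rfl, rfl, rfl⟩))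
    · exact T.ne _ _ _ h1
    · exact hab
    · exact hbw
    · exact haw.symm
    · exact haw
    · exact hwc
    · exact hca

end P4
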