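import Pool.Agent.Lib_MP_b306af.P4ZGeo1

/-! # MP_b306af Part IV: P4Geoa -/

namespace P4

/- Piece GEOA (P4Geo).  Apex `u` off the axis, `w`, `w'` on the other side.
With `α = crossAt u w`, `w - u = t (α - u.1, - u.2)`, `t = (u.2 - w.2) / u.2 > 0`, same for `w'`; so
`det3 u w w' = t t' u.2 (α' - α)`.  (Both signs of `u.2`.) -/
theorem det3_apex (u w w' : ℝ × ℝ) (h1 : u.2 * w.2 < 0) (h2 : u.2 * w'.2 < 0) :
    ∃ K : ℝ, 0 < K ∧ det3 u w w' = K * (u.2 * (crossAt u w' - crossAt u w)) := by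
  obtain ⟨u1, u2⟩ := u
  obtain ⟨w1, w2⟩ := w
  obtain ⟨x1, x2⟩ := w'
  simp only at h1 h2
  have hu : u2 ≠ 0 := by
    rintro rfl
    simp at h1
  have hu2 : 0 < u2 ^ 2 := by positivity
  have e1 : (w2 - u2) * u2 < 0 := by nlinarith
  have e2 : (x2 - u2) * u2 < 0 := by nlinarith
  have n1 : w2 - u2 ≠ 0 := by
    intro h
    rw [h, zero_mul] at e1
    exact lt_irrefl _ e1
  have n2 : x2 - u2 ≠ 0 := by
    intro h
    rw [h, zero_mul] at e2
    exact lt_irrefl _ e2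
  have hK : 0 < (x2 - u2) * (w2 - u2) / u2 ^ 2 := by
    have h3 := mul_pos_of_neg_of_neg e1 e2
    have h4 : (w2 - u2) * u2 * ((x2 - u2) * u2) = (x2 - u2) * (w2 - u2) * u2 ^ 2 := by ring
    rw [h4] at h3
    exact div_pos (pos_of_mul_pos_left h3 hu2.le) hu2
  refine ⟨_, hK, ?_⟩
  simp only [det3, crossAt]
  field_simp
  ring

end P4
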