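import Pool.Agent.Lib_MP_b306af.P4ZGeo1

/-! # MP_b306af Part IV: P4Geoc -/

namespace P4

/- Piece GEOC (P4Geo). `crossAt` is symmetric, and in terms of `p = x / y`, `q = 1 / y`. -/
theorem crossAt_comm (P Q : ℝ × ℝ) : crossAt P Q = crossAt Q P := by
  unfold crossAt
  rw [← neg_div_neg_eq]
  congr 1 <;> ring

theorem crossAt_pq (p q p' q' : ℝ) (hq : q ≠ 0) (hq' : q' ≠ 0) :
    crossAt (p / q, 1 / q) (p' / q', 1 / q') = (p - p') / (q - q') := by
  unfold crossAt
  have hqq : 1 / (q * q') ≠ 0 := one_div_ne_zero (mul_ne_zero hq hq')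
  have h1 : p / q * (1 / q') - p' / q' * (1 / q) = (p - p') * (1 / (q * q')) := by
    field_simp
  have h2 : 1 / q' - 1 / q = (q - q') * (1 / (q * q')) := by
    field_simp
  show (p / q * (1 / q') - p' / q' * (1 / q)) / (1 / q' - 1 / q) = _
  rw [h1, h2, mul_div_mul_right _ _ hqq]

end P4
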