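import Pool.Agent.Lib_MP_b306af.P4ZGeo1

/-! # MP_b306af Part IV: P4Geod -/

namespace P4

private theorem geod_cross (P Q : ℝ × ℝ) (hP : 0 < P.2) (hQ : Q.2 < 0) :
    P.1 / P.2 - Q.1 / Q.2 = crossAt P Q * (1 / P.2 - 1 / Q.2) := by
  have h1 : P.2 ≠ 0 := hP.ne'
  have h2 : Q.2 ≠ 0 := hQ.ne
  have h3 : Q.2 - P.2 ≠ 0 := by
    have : Q.2 - P.2 < 0 := by linarith
    exact this.ne
  unfold crossAt
  field_simp

/- Piece GEOD (P4Geo).  Domination is automatic.  `a`, `b` above the axis, `w1`, `w2` below, the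
segments cross the axis in the order `a w1 < b w1 ≤ b w2 < a w2`: then `b` is lower than `a`.
With `p = x / y`, `q = 1 / y`: `p_a - p_{w1} = α1 (q_a - q_{w1})`, `p_b - p_{w1} = β1 (q_b - q_{w1})`,
`p_b - p_{w2} = β2 (q_b - q_{w2})`, `p_a - p_{w2} = α2 (q_a - q_{w2})`; the alternating sum is
`q_a (α2 - α1) = q_b (β2 - β1) + q_{w1} (β1 - α1) + q_{w2} (α2 - β2)`, where `q_{w1}, q_{w2} < 0`.  So
`q_a (α2 - α1) < q_b (β2 - β1) ≤ q_b (α2 - α1)`, `q_a < q_b`, `a.2 > b.2`. -/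
theorem dominate (a b w1 w2 : ℝ × ℝ) (ha : 0 < a.2) (hb : 0 < b.2) (h1 : w1.2 < 0)
    (h2 : w2.2 < 0) (c1 : crossAt a w1 < crossAt b w1) (c2 : crossAt b w1 ≤ crossAt b w2)
    (c3 : crossAt b w2 < crossAt a w2) : b.2 < a.2 := by
  have e1 := geod_cross a w1 ha h1
  have e2 := geod_cross b w1 hb h1
  have e3 := geod_cross b w2 hb h2
  have e4 := geod_cross a w2 ha h2
  have q1 : 1 / w1.2 < 0 := one_div_neg.2 h1
  have q2 : 1 / w2.2 < 0 := one_div_neg.2 h2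
  have qb : 0 < 1 / b.2 := one_div_pos.2 hb
  have key : 1 / a.2 * (crossAt a w2 - crossAt a w1) = 1 / b.2 * (crossAt b w2 - crossAt b w1) +
      1 / w1.2 * (crossAt b w1 - crossAt a w1) + 1 / w2.2 * (crossAt a w2 - crossAt b w2) := by
    linear_combination e1 - e2 + e3 - e4
  have k1 : 1 / w1.2 * (crossAt b w1 - crossAt a w1) < 0 := mul_neg_of_neg_of_pos q1 (by linarith)
  have k2 : 1 / w2.2 * (crossAt a w2 - crossAt b w2) < 0 := mul_neg_of_neg_of_pos q2 (by linarith)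
  have k3 : 1 / b.2 * (crossAt b w2 - crossAt b w1) ≤ 1 / b.2 * (crossAt a w2 - crossAt a w1) :=
    mul_le_mul_of_nonneg_left (by linarith) qb.le
  have k4 : 1 / a.2 * (crossAt a w2 - crossAt a w1) < 1 / b.2 * (crossAt a w2 - crossAt a w1) := by
    linarith
  have k5 : 1 / a.2 < 1 / b.2 := lt_of_mul_lt_mul_right k4 (by linarith)
  exact lt_of_one_div_lt_one_div ha k5

end P4
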