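import Pool.Agent.Lib_MP_b306af.P4ZGeo1

/-! # MP_b306af Part IV: P4Geoe -/

namespace P4

/- Piece GEOE (P4Geo).  The flipped face is positive.  `a, b, c` above, `w` below, crossings in the order
`b w < a w < c w`, and `b`, `c` are not higher than `a`, one of them lower.
With `p, q` as above, `τ = crossAt a w`, `r = p - τ q`: `r_a = r_w`,
`r_b = r_w - (τ - β) (q_b - q_w) < r_a`, `r_c = r_w + (γ - τ) (q_c - q_w) > r_a`, and
`det3 a b c = ((r_a - r_b) (q_c - q_a) + (r_c - r_a) (q_b - q_a)) / (q_a q_b q_c)`. -/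
theorem det3_flip (a b c w : ℝ × ℝ) (ha : 0 < a.2) (hb : 0 < b.2) (hc : 0 < c.2)
    (hw : w.2 < 0) (h1 : crossAt b w < crossAt a w) (h2 : crossAt a w < crossAt c w)
    (h3 : b.2 ≤ a.2) (h4 : c.2 ≤ a.2) (h5 : b.2 < a.2 ∨ c.2 < a.2) : 0 < det3 a b c := by
  obtain ⟨xa, ya⟩ := a
  obtain ⟨xb, yb⟩ := b
  obtain ⟨xc, yc⟩ := c
  obtain ⟨xw, yw⟩ := w
  simp only at ha hb hc hw h3 h4 h5
  have e1 : xa * yw - xw * ya = crossAt (xa, ya) (xw, yw) * (yw - ya) := by
    unfold crossAt
    have : yw - ya ≠ 0 := by linarith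
    field_simp
  have e2 : xb * yw - xw * yb = crossAt (xb, yb) (xw, yw) * (yw - yb) := by
    unfold crossAt
    have : yw - yb ≠ 0 := by linarith
    field_simp
  have e3 : xc * yw - xw * yc = crossAt (xc, yc) (xw, yw) * (yw - yc) := by
    unfold crossAt
    have : yw - yc ≠ 0 := by linarith
    field_simp
  generalize crossAt (xa, ya) (xw, yw) = τ at h1 h2 e1
  generalize crossAt (xb, yb) (xw, yw) = β at h1 e2
  generalize crossAt (xc, yc) (xw, yw) = γ at h2 e3
  have key : -yw * det3 (xa, ya) (xb, yb) (xc, yc) =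
      (τ - β) * (yb - yw) * (ya - yc) + (γ - τ) * (yc - yw) * (ya - yb) := by
    unfold det3
    simp only
    linear_combination (-(yc - ya)) * e2 + (yb - ya) * e3 + (yc - yb) * e1
  have hW : 0 < -yw := by linarith
  have p1 : 0 < (τ - β) * (yb - yw) := mul_pos (by linarith) (by linarith)
  have p2 : 0 < (γ - τ) * (yc - yw) := mul_pos (by linarith) (by linarith)
  have hpos : 0 < (τ - β) * (yb - yw) * (ya - yc) + (γ - τ) * (yc - yw) * (ya - yb) := by
    rcases h5 with h | h
    · have q1 := mul_nonneg p1.le (by linarith : (0 : ℝ) ≤ ya - yc)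
      have q2 := mul_pos p2 (by linarith : (0 : ℝ) < ya - yb)
      linarith
    · have q1 := mul_pos p1 (by linarith : (0 : ℝ) < ya - yc)
      have q2 := mul_nonneg p2.le (by linarith : (0 : ℝ) ≤ ya - yb)
      linarith
  rw [← key] at hpos
  exact (mul_pos_iff_of_pos_left hW).1 hpos

end P4
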