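import Pool.Agent.Lib_MP_b306af.P4ZFlip3
import Pool.Agent.Lib_MP_b306af.P4Geoa
import Pool.Agent.Lib_MP_b306af.P4Geoc
import Pool.Agent.Lib_MP_b306af.P4Geod
import Pool.Agent.Lib_MP_b306af.P4Geoe

/-! # MP_b306af Part IV: P4Fldraw -/

namespace P4

variable {V : Type}

namespace Setup

/- Piece FLDRAW (P4Flip, uses `det3_apex`, `dominate`, `det3_flip`).  From a drawing of the flipped setup to
a drawing of `S`.  `P` is a drawing of `S.flip h τ` with `ε' ≤ ε` where `2 ε' ≤ A b w - A b wc` etc.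
(see hypotheses).  All faces of `T` except `(a, b, c)` and `(c, b, w)` are faces of the flipped
triangulation.  From the positivity of `(a, b, w)` and `(a, w, c)` (not the outer face) and
`det3_apex` with apex `w`: `crossAt b w < crossAt a w < crossAt c w` (`crossAt_comm`).  So
`(c, b, w)` is positive, again by `det3_apex`.
`b` is not higher than `a`: by `hB`: either directly, or the face `(b, a, wc)` is a non-outer face (kept: it
contains `wc` below and `a`, `b`, and is not `(c, b, w)`), positive, so `crossAt a wc < crossAt b wc`;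
`crossAt b wc ≤ crossAt b w`: equality if `wc = w`, otherwise
`crossAt b wc < A b wc + ε' ≤ A b w - ε' < crossAt b w`; and `crossAt b w < crossAt a w`:
`dominate a b wc w` gives `b.2 < a.2`.
`c` is lower than `a` or equal: same with `hC`: `crossAt a w < crossAt c w ≤ crossAt c wb < crossAt a wb`
(face `(a, c, wb)` positive), `dominate a c w wb`.
`hBC`: at least one is strict.  `det3_flip` gives `(a, b, c)`. -/
theorem flip_drawn {S : Setup V} (hS : S.Good) {a b c w : V} (h : FlipHyp S.T a b c w)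
    (ha : S.side a = 1) (hb : S.side b = 1) (hc : S.side c = 1) (hw : S.side w = -1)
    (ho : ¬ S.IsO c b w) (τ ε ε' : ℝ) (hε : ε' ≤ ε) (P : V → ℝ × ℝ)
    (hP : (S.flip h τ).Drawn ε' P) (wb wc : V) (hFb : S.T.F a c wb) (hFc : S.T.F b a wc)
    (hwb : S.side wb = -1) (hwc : S.side wc = -1)
    (hB : (P b).2 ≤ (P a).2 ∨ (¬ S.IsO b a wc ∧
      (wc = w ∨ S.A b wc + 2 * ε' ≤ S.A b w)))
    (hC : (P c).2 ≤ (P a).2 ∨ (¬ S.IsO a c wb ∧
      (w = wb ∨ S.A c w + 2 * ε' ≤ S.A c wb)))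
    (hBC : (¬ S.IsO b a wc ∧ (wc = w ∨ S.A b wc + 2 * ε' ≤ S.A b w)) ∨
      (¬ S.IsO a c wb ∧ (w = wb ∨ S.A c w + 2 * ε' ≤ S.A c wb))) :
    S.Drawn ε P := by
  classical
  have hmm : (1 : SignType) ≠ -1 := by decide
  have hab : a ≠ b := S.T.ne _ _ _ h.h1
  have hbc : b ≠ c := S.T.ne _ _ _ (S.T.cyc _ _ _ h.h1)
  have hca : c ≠ a := S.T.ne _ _ _ (S.T.cyc2 h.h1)
  have pm : ∀ x y, S.side x = 1 → S.side y = -1 → x ≠ y := by
    rintro x y h1 h2 rfl
    rw [h1] at h2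
    exact hmm h2
  have haw := pm a w ha hw
  have hbw := pm b w hb hw
  have hcw := pm c w hc hw
  -- the new faces
  have fA : (S.flip h τ).T.F a b w := Or.inr (Or.inl (Or.inl ⟨rfl, rfl, rfl⟩))
  have fB : (S.flip h τ).T.F a w c := Or.inr (Or.inr (Or.inl ⟨rfl, rfl, rfl⟩))
  have hIsO : ∀ x y z, S.IsO x y z → S.T.F x y z := by
    rintro x y z (⟨rfl, rfl, rfl⟩ | ⟨rfl, rfl, rfl⟩ | ⟨rfl, rfl, rfl⟩)
    · exact hS.h0
    · exact S.T.cyc _ _ _ hS.h0
    · exact S.T.cyc2 hS.h0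
  have oA : ¬ S.IsO a b w := fun hh => hcw (S.T.uniq _ _ _ _ h.h1 (hIsO _ _ _ hh))
  have oB : ¬ S.IsO a w c := fun hh => h.nadj ⟨c, hIsO _ _ _ hh⟩
  have pA : 0 < det3 (P a) (P b) (P w) := hP.pos _ _ _ fA oA
  have pB : 0 < det3 (P a) (P w) (P c) := hP.pos _ _ _ fB oB
  have sa : (S.flip h τ).T.Supp a := ⟨_, _, fA⟩
  have sb : (S.flip h τ).T.Supp b := ⟨_, _, (S.flip h τ).T.cyc _ _ _ fA⟩
  have sw : (S.flip h τ).T.Supp w := ⟨_, _, (S.flip h τ).T.cyc2 fA⟩
  have sc : (S.flip h τ).T.Supp c := ⟨_, _, (S.flip h τ).T.cyc2 fB⟩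
  have up : ∀ v, (S.flip h τ).T.Supp v → S.side v = 1 → 0 < (P v).2 :=
    fun v hv h1 => sign_eq_one_iff.1 ((hP.sgn v hv).trans h1)
  have dn : ∀ v, (S.flip h τ).T.Supp v → S.side v = -1 → (P v).2 < 0 :=
    fun v hv h1 => sign_eq_neg_one_iff.1 ((hP.sgn v hv).trans h1)
  have a2 := up a sa ha
  have b2 := up b sb hb
  have c2 := up c sc hc
  have w2 := dn w sw hw
  have rot : ∀ p q r : ℝ × ℝ, det3 r p q = det3 p q r := by
    intro p q r; unfold det3; ring
  -- comparison of crossings from a positive face with lower apex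
  have apex : ∀ z p q : ℝ × ℝ, z.2 < 0 → 0 < p.2 → 0 < q.2 →
      (0 < det3 p q z ↔ crossAt q z < crossAt p z) := by
    intro z p q hz hp hq
    obtain ⟨K, hK, he⟩ := det3_apex z p q (mul_neg_of_neg_of_pos hz hp)
      (mul_neg_of_neg_of_pos hz hq)
    rw [rot] at he
    rw [he, crossAt_comm q z, crossAt_comm p z]
    constructor
    · intro hh
      have h1 : 0 < z.2 * (crossAt z q - crossAt z p) := by
        by_contra hn
        push Not at hn
        have := mul_nonpos_of_nonneg_of_nonpos hK.le hn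
        linarith
      by_contra hn
      push Not at hn
      have := mul_nonpos_of_nonpos_of_nonneg hz.le (sub_nonneg.2 hn)
      linarith
    · intro hh
      exact mul_pos hK (mul_pos_of_neg_of_neg hz (by linarith))
  have I1 : crossAt (P b) (P w) < crossAt (P a) (P w) := (apex _ _ _ w2 a2 b2).1 pA
  have I2 : crossAt (P a) (P w) < crossAt (P c) (P w) := by
    refine (apex _ _ _ w2 c2 a2).1 ?_
    rw [rot] at *
    rw [rot]
    exact pB
  have pC : 0 < det3 (P c) (P b) (P w) := (apex _ _ _ w2 c2 b2).2 (I1.trans I2)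
  -- adjacency and labels
  have nr : ∀ x y, (S.flip h τ).T.Adj x y → S.side x = 1 → S.side y = -1 →
      ¬ (x = a ∧ y = w) → |crossAt (P x) (P y) - S.A x y| < ε' := by
    intro x y hadj h1 h2 hn
    have := hP.near x y hadj h1 h2
    have e : (S.flip h τ).A x y = S.A x y := by
      simp only [flip, if_neg hn]
    rwa [e] at this
  have adjbw : (S.flip h τ).T.Adj b w := ⟨_, (S.flip h τ).T.cyc _ _ _ fA⟩
  have adjcw : (S.flip h τ).T.Adj c w := Tri.Adj.symm ⟨_, (S.flip h τ).T.cyc _ _ _ fB⟩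
  have LB : (¬ S.IsO b a wc ∧ (wc = w ∨ S.A b wc + 2 * ε' ≤ S.A b w)) → (P b).2 < (P a).2 := by
    rintro ⟨hO, hh⟩
    have hawc := pm a wc ha hwc
    have hbwc := pm b wc hb hwc
    have f : (S.flip h τ).T.F b a wc := by
      refine Or.inl ⟨hFc, ?_, ?_⟩
      · rintro (⟨e1, e2, e3⟩ | ⟨e1, e2, e3⟩ | ⟨e1, e2, e3⟩)
        · exact hab e2
        · exact hawc e3.symm
        · exact hbc e1
      · rintro (⟨e1, e2, e3⟩ | ⟨e1, e2, e3⟩ | ⟨e1, e2, e3⟩)
        · exact hab e2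
        · exact haw e2
        · exact hbw e1
    have sg := dn wc ⟨_, _, (S.flip h τ).T.cyc2 f⟩ hwc
    have p := hP.pos _ _ _ f hO
    have c1 := (apex _ _ _ sg b2 a2).1 p
    refine dominate (P a) (P b) (P wc) (P w) a2 b2 sg w2 c1 ?_ I1
    rcases hh with rfl | hh
    · exact le_rfl
    · have n1 := abs_lt.1 (nr b wc (Tri.Adj.symm ⟨_, (S.flip h τ).T.cyc2 f⟩) hb hwc
        (fun e => hab e.1.symm))
      have n2 := abs_lt.1 (nr b w adjbw hb hw (fun e => hab e.1.symm))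
      linarith [n1.1, n1.2, n2.1, n2.2]
  have LC : (¬ S.IsO a c wb ∧ (w = wb ∨ S.A c w + 2 * ε' ≤ S.A c wb)) → (P c).2 < (P a).2 := by
    rintro ⟨hO, hh⟩
    have hawb := pm a wb ha hwb
    have hcwb := pm c wb hc hwb
    have f : (S.flip h τ).T.F a c wb := by
      refine Or.inl ⟨hFb, ?_, ?_⟩
      · rintro (⟨e1, e2, e3⟩ | ⟨e1, e2, e3⟩ | ⟨e1, e2, e3⟩)
        · exact hbc e2.symm
        · exact hab e1
        · exact hca e1.symm
      · rintro (⟨e1, e2, e3⟩ | ⟨e1, e2, e3⟩ | ⟨e1, e2, e3⟩)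
        · exact hca e1.symm
        · exact hab e1
        · exact haw e1
    have sg := dn wb ⟨_, _, (S.flip h τ).T.cyc2 f⟩ hwb
    have p := hP.pos _ _ _ f hO
    have c1 := (apex _ _ _ sg a2 c2).1 p
    refine dominate (P a) (P c) (P w) (P wb) a2 c2 w2 sg I2 ?_ c1
    rcases hh with rfl | hh
    · exact le_rfl
    · have n1 := abs_lt.1 (nr c wb ⟨_, (S.flip h τ).T.cyc _ _ _ f⟩ hc hwb
        (fun e => hca e.1))
      have n2 := abs_lt.1 (nr c w adjcw hc hw (fun e => hca e.1))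
      linarith [n1.1, n1.2, n2.1, n2.2]
  have hb' : (P b).2 ≤ (P a).2 := by
    rcases hB with hB | hB
    · exact hB
    · exact (LB hB).le
  have hc' : (P c).2 ≤ (P a).2 := by
    rcases hC with hC | hC
    · exact hC
    · exact (LC hC).le
  have pD : 0 < det3 (P a) (P b) (P c) :=
    det3_flip _ _ _ _ a2 b2 c2 w2 I1 I2 hb' hc' (hBC.imp LB LC)
  have supp : ∀ v, S.T.Supp v → (S.flip h τ).T.Supp v := by
    rintro v ⟨x, y, hF⟩
    by_cases h1 : Cyc3 a b c v x y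
    · rcases h1 with ⟨rfl, -, -⟩ | ⟨rfl, -, -⟩ | ⟨rfl, -, -⟩
      · exact sa
      · exact sb
      · exact sc
    by_cases h2 : Cyc3 c b w v x y
    · rcases h2 with ⟨rfl, -, -⟩ | ⟨rfl, -, -⟩ | ⟨rfl, -, -⟩
      · exact sc
      · exact sb
      · exact sw
    exact ⟨x, y, Or.inl ⟨hF, h1, h2⟩⟩
  refine ⟨?_, ?_, ?_, ?_⟩
  · intro x y z hF hO
    by_cases h1 : Cyc3 a b c x y z
    · rcases h1 with ⟨rfl, rfl, rfl⟩ | ⟨rfl, rfl, rfl⟩ | ⟨rfl, rfl, rfl⟩
      · exact pD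
      · rw [← rot]; exact pD
      · rw [rot]; exact pD
    by_cases h2 : Cyc3 c b w x y z
    · rcases h2 with ⟨rfl, rfl, rfl⟩ | ⟨rfl, rfl, rfl⟩ | ⟨rfl, rfl, rfl⟩
      · exact pC
      · rw [← rot]; exact pC
      · rw [rot]; exact pC
    exact hP.pos _ _ _ (Or.inl ⟨hF, h1, h2⟩) hO
  · intro v hv
    exact hP.sgn v (supp v hv)
  · intro v hv h0
    exact hP.abs0 v (supp v hv) h0
  · intro x y hadj h1 h2
    have hn : ¬ (x = a ∧ y = w) := by
      rintro ⟨rfl, rfl⟩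
      exact h.nadj hadj
    refine lt_of_lt_of_le (nr x y ?_ h1 h2 hn) hε
    obtain ⟨z, hF⟩ := hadj
    by_cases k1 : Cyc3 a b c x y z
    · exfalso
      rcases k1 with ⟨-, rfl, -⟩ | ⟨-, rfl, -⟩ | ⟨-, rfl, -⟩
      · exact pm _ _ hb h2 rfl
      · exact pm _ _ hc h2 rfl
      · exact pm _ _ ha h2 rfl
    by_cases k2 : Cyc3 c b w x y z
    · rcases k2 with ⟨-, rfl, -⟩ | ⟨rfl, rfl, -⟩ | ⟨rfl, -, -⟩
      · exact absurd rfl (pm _ _ hb h2)
      · exact adjbw
      · exact absurd rfl (pm _ _ h1 hw)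
    exact ⟨z, Or.inl ⟨hF, k1, k2⟩⟩

end Setup

end P4
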