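import Pool.Agent.Lib_MP_b306af.P4ZFlip1

/-! # MP_b306af Part IV: P4Fle -/

namespace P4

variable {V : Type}

private theorem fle_rot {o1 o2 o3 x y z : V} (h : Cyc3 o1 o2 o3 y z x) : Cyc3 o1 o2 o3 x y z := by
  rcases h with ⟨h1, h2, h3⟩ | ⟨h1, h2, h3⟩ | ⟨h1, h2, h3⟩
  · exact Or.inr (Or.inr ⟨h3, h1, h2⟩)
  · exact Or.inl ⟨h3, h1, h2⟩
  · exact Or.inr (Or.inl ⟨h3, h1, h2⟩)

/- Piece FLE (P4Flip).  `κ' b c = κ b a + κ a c`, `κ' c b = - κ' b c`, other values as `κ`.  Zero sum on the two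
old faces: `κ a b + κ' b c + κ c a = 0`; `κ' c b + κ b w + κ w c = κ c a + κ a b + κ b w + κ w c
= (κ a b + κ b w + κ w a) + (κ a w + κ w c + κ c a) = 0`.  `T.exact` gives `g` with
`κ' x y = g y - g x` on `T`-darts; on darts of the flipped triangulation other than `aw`, `wa`,
`κ = κ'`; `κ a w = - κ w c - κ c a = g w - g a` (`wc`, `ca` are `T`-darts, different from `bc`, `cb`). -/
theorem flip_exact {T : Tri V} {a b c w : V} (h : FlipHyp T a b c w)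
    (κ : V → V → ℝ) (hκ : ∀ x y, κ x y = - κ y x)
    (hz : ∀ x y z, flipF T a b c w x y z → κ x y + κ y z + κ z x = 0) :
    ∃ g : V → ℝ, ∀ x y z, flipF T a b c w x y z → κ x y = g y - g x := by
  classical
  have hab := T.ne _ _ _ h.h1
  have hbc := T.ne _ _ _ (T.cyc _ _ _ h.h1)
  have hca := T.ne _ _ _ (T.cyc2 h.h1)
  have hbw := T.ne _ _ _ (T.cyc _ _ _ h.h2)
  have hwc := T.ne _ _ _ (T.cyc2 h.h2)
  obtain ⟨κ', hκ'⟩ : ∃ κ' : V → V → ℝ, ∀ x y, κ' x y = if x = b ∧ y = c then κ b a + κ a c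
    else if x = c ∧ y = b then -(κ b a + κ a c) else κ x y := ⟨_, fun _ _ => rfl⟩
  have k1 : κ' b c = κ b a + κ a c := by rw [hκ', if_pos ⟨rfl, rfl⟩]
  have k2 : κ' c b = -(κ b a + κ a c) := by
    rw [hκ', if_neg (fun h => hbc h.1.symm), if_pos ⟨rfl, rfl⟩]
  have k3 : ∀ x y, ¬ (x = b ∧ y = c) → ¬ (x = c ∧ y = b) → κ' x y = κ x y := by
    intro x y h1 h2
    rw [hκ', if_neg h1, if_neg h2]
  have hanti : ∀ x y, κ' x y = -κ' y x := by
    intro x y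
    by_cases h1 : x = b ∧ y = c
    · rw [h1.1, h1.2, k1, k2]
      ring
    · by_cases h2 : x = c ∧ y = b
      · rw [h2.1, h2.2, k1, k2]
      · rw [k3 x y h1 h2, k3 y x (fun h => h2 ⟨h.2, h.1⟩) (fun h => h1 ⟨h.2, h.1⟩)]
        exact hκ x y
  have f1 : κ a b + κ b w + κ w a = 0 := hz a b w (Or.inr (Or.inl (Or.inl ⟨rfl, rfl, rfl⟩)))
  have f2 : κ a w + κ w c + κ c a = 0 := hz a w c (Or.inr (Or.inr (Or.inl ⟨rfl, rfl, rfl⟩)))
  have dart : ∀ x y z, T.F x y z → ¬ Cyc3 a b c x y z → ¬ Cyc3 c b w x y z → κ' x y = κ x y := by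
    intro x y z hF n1 n2
    apply k3
    · rintro ⟨h1, h2⟩
      rw [h1, h2] at hF
      have h3 : z = a := T.uniq _ _ _ _ hF (T.cyc _ _ _ h.h1)
      exact n1 (Or.inr (Or.inl ⟨h1, h2, h3⟩))
    · rintro ⟨h1, h2⟩
      rw [h1, h2] at hF
      have h3 : z = w := T.uniq _ _ _ _ hF h.h2
      exact n2 (Or.inl ⟨h1, h2, h3⟩)
  have eab : κ' a b = κ a b := k3 _ _ (fun h => hab h.1) (fun h => hca h.1.symm)
  have eca : κ' c a = κ c a := k3 _ _ (fun h => hbc h.1.symm) (fun h => hab h.2)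
  have ebw : κ' b w = κ b w := k3 _ _ (fun h => hwc h.2) (fun h => hbc h.1)
  have ewc : κ' w c = κ w c := k3 _ _ (fun h => hbw h.1.symm) (fun h => hwc h.1)
  have a1 := hκ a b
  have a2 := hκ c a
  have a3 := hκ a w
  have s1 : κ' a b + κ' b c + κ' c a = 0 := by
    rw [eab, k1, eca]
    linarith
  have s2 : κ' c b + κ' b w + κ' w c = 0 := by
    rw [k2, ebw, ewc]
    linarith
  obtain ⟨g, hg⟩ := T.exact κ' hanti (by
    intro x y z hF
    by_cases n1 : Cyc3 a b c x y z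
    · rcases n1 with ⟨h1, h2, h3⟩ | ⟨h1, h2, h3⟩ | ⟨h1, h2, h3⟩ <;> rw [h1, h2, h3] <;> linarith
    · by_cases n2 : Cyc3 c b w x y z
      · rcases n2 with ⟨h1, h2, h3⟩ | ⟨h1, h2, h3⟩ | ⟨h1, h2, h3⟩ <;> rw [h1, h2, h3] <;> linarith
      · rw [dart x y z hF n1 n2, dart y z x (T.cyc _ _ _ hF) (fun h => n1 (fle_rot h))
          (fun h => n2 (fle_rot h)), dart z x y (T.cyc2 hF) (fun h => n1 (fle_rot (fle_rot h)))
          (fun h => n2 (fle_rot (fle_rot h)))]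
        exact hz x y z (Or.inl ⟨hF, n1, n2⟩))
  have gab := hg a b c h.h1
  have gca := hg c a b (T.cyc2 h.h1)
  have gbw := hg b w c (T.cyc _ _ _ h.h2)
  have gwc := hg w c b (T.cyc2 h.h2)
  rw [eab] at gab
  rw [eca] at gca
  rw [ebw] at gbw
  rw [ewc] at gwc
  refine ⟨g, ?_⟩
  rintro x y z (⟨hF, n1, n2⟩ | (⟨h1, h2, h3⟩ | ⟨h1, h2, h3⟩ | ⟨h1, h2, h3⟩) |
    ⟨h1, h2, h3⟩ | ⟨h1, h2, h3⟩ | ⟨h1, h2, h3⟩)
  · rw [← dart x y z hF n1 n2]
    exact hg x y z hF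
  all_goals
    rw [h1, h2]
    linarith

end P4
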