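import Pool.Agent.Lib_MP_b306af.P4ZFlip3

/-! # MP_b306af Part IV: P4Flgood -/

namespace P4

variable {V : Type}

/-- every dart of `T` except `b c`, `c b` is a dart of the flipped triangulation -/
theorem flipF_of_dart {T : Tri V} {a b c w : V} {x y z : V} (hF : T.F x y z)
    (h1 : ¬ (x = b ∧ y = c)) (h2 : ¬ (x = c ∧ y = b)) : ∃ z', flipF T a b c w x y z' := by
  by_cases hA : Cyc3 a b c x y z
  · rcases hA with ⟨rfl, rfl, rfl⟩ | ⟨rfl, rfl, rfl⟩ | ⟨rfl, rfl, rfl⟩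
    · exact ⟨w, Or.inr (Or.inl (Or.inl ⟨rfl, rfl, rfl⟩))⟩
    · exact absurd ⟨rfl, rfl⟩ h1
    · exact ⟨w, Or.inr (Or.inr (Or.inr (Or.inr ⟨rfl, rfl, rfl⟩)))⟩
  · by_cases hB : Cyc3 c b w x y z
    · rcases hB with ⟨rfl, rfl, rfl⟩ | ⟨rfl, rfl, rfl⟩ | ⟨rfl, rfl, rfl⟩
      · exact absurd ⟨rfl, rfl⟩ h2
      · exact ⟨a, Or.inr (Or.inl (Or.inr (Or.inl ⟨rfl, rfl, rfl⟩)))⟩
      · exact ⟨a, Or.inr (Or.inr (Or.inr (Or.inl ⟨rfl, rfl, rfl⟩)))⟩
    · exact ⟨z, Or.inl ⟨hF, hA, hB⟩⟩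

namespace Setup

/- Piece FLGOOD (P4Flip).  `h0`: the outer face is kept: it is not `(a, b, c)` (three vertices above; the
outer face has a vertex below) and not `(c, b, w)` (`ho`).  `indep`: the only new edge is `a w`, sides
`1`, `-1`.  `conn`: `h.tri.Supp v ↔ T.Supp v`.  For `σ = -1` the edges inside the side are the same.  For
`σ = 1` the edge `b c` is lost, but `P b ↔ P a ↔ P c` by the edges `ab`, `ac` of the new
faces.  `nbr`: only `b c` is lost, which has no end on the axis.  `lab`: kept faces: the same (the pair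
`(a, w)` is not an edge of a kept face).  New face `(a, b, w)`: type `lab2` for the rotation `(w, a, b)`
(`u' = a`, `u = b`): `A b w < τ`.  New face `(a, w, c)`: rotation `(w, c, a)`, `u' = c`, `u = a`:
`τ < A c w`.  (All other rotations/types are excluded by the sides.) -/
theorem flip_good {S : Setup V} (hS : S.Good) {a b c w : V} (h : FlipHyp S.T a b c w)
    (ha : S.side a = 1) (hb : S.side b = 1) (hc : S.side c = 1) (hw : S.side w = -1)
    (ho : ¬ S.IsO c b w) (τ : ℝ) (h1 : S.A b w < τ) (h2 : τ < S.A c w) :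
    (S.flip h τ).Good := by
  have n10 : (1 : SignType) ≠ 0 := by decide
  have n11 : (1 : SignType) ≠ -1 := by decide
  have nm0 : (-1 : SignType) ≠ 0 := by decide
  have hab : a ≠ b := S.T.ne _ _ _ h.h1
  have hca : c ≠ a := S.T.ne _ _ _ (S.T.cyc2 h.h1)
  have hsupp : ∀ u, (S.flip h τ).T.Supp u → S.T.Supp u := by
    rintro u ⟨y, z, hF⟩
    rcases hF with ⟨hF, -, -⟩ | hF | hF
    · exact ⟨y, z, hF⟩
    · rcases hF with ⟨rfl, rfl, rfl⟩ | ⟨rfl, rfl, rfl⟩ | ⟨rfl, rfl, rfl⟩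
      · exact ⟨_, _, h.h1⟩
      · exact ⟨_, _, S.T.cyc _ _ _ h.h1⟩
      · exact ⟨_, _, S.T.cyc2 h.h2⟩
    · rcases hF with ⟨rfl, rfl, rfl⟩ | ⟨rfl, rfl, rfl⟩ | ⟨rfl, rfl, rfl⟩
      · exact ⟨_, _, h.h1⟩
      · exact ⟨_, _, S.T.cyc2 h.h2⟩
      · exact ⟨_, _, h.h2⟩
  have hA1 : ∀ u y z, S.T.F u y z → (S.flip h τ).A u y = S.A u y := by
    intro u y z hF
    refine if_neg ?_
    rintro ⟨rfl, rfl⟩
    exact h.nadj ⟨z, hF⟩
  have hA2 : ∀ u y z, S.T.F y u z → (S.flip h τ).A u y = S.A u y := by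
    intro u y z hF
    obtain ⟨d, hd⟩ := S.T.opp _ _ _ hF
    exact hA1 u y d hd
  refine
    { h0 := ?_
      plus0 := hS.plus0
      minus0 := hS.minus0
      indep := ?_
      conn := ?_
      nbr := ?_
      lab1 := ?_
      lab2 := ?_
      lab3 := ?_
      lab4 := ?_ }
  · -- outer face
    refine Or.inl ⟨hS.h0, ?_, ?_⟩
    · intro hcyc
      obtain ⟨v, hv, hv1⟩ := hS.minus0
      have hv' : S.side v = 1 := by
        change Cyc3 a b c S.o1 S.o2 S.o3 at hcyc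
        rcases hcyc with ⟨e1, e2, e3⟩ | ⟨e1, e2, e3⟩ | ⟨e1, e2, e3⟩ <;>
          rcases hv with rfl | rfl | rfl <;>
          first
            | (rw [e1]; assumption)
            | (rw [e2]; assumption)
            | (rw [e3]; assumption)
      rw [hv'] at hv1
      exact n11 hv1
    · intro hcyc
      apply ho
      rcases hcyc with ⟨e1, e2, e3⟩ | ⟨e1, e2, e3⟩ | ⟨e1, e2, e3⟩
      · exact Or.inl ⟨e1.symm, e2.symm, e3.symm⟩
      · exact Or.inr (Or.inr ⟨e3.symm, e1.symm, e2.symm⟩)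
      · exact Or.inr (Or.inl ⟨e2.symm, e3.symm, e1.symm⟩)
  · -- indep
    intro x y z hF hx hy
    change S.side x = 0 at hx
    change S.side y = 0 at hy
    rcases hF with ⟨hF, -, -⟩ | hF | hF
    · exact hS.indep _ _ _ hF hx hy
    · rcases hF with ⟨rfl, rfl, rfl⟩ | ⟨rfl, rfl, rfl⟩ | ⟨rfl, rfl, rfl⟩
      · rw [ha] at hx; exact n10 hx
      · rw [hb] at hx; exact n10 hx
      · rw [hw] at hx; exact nm0 hx
    · rcases hF with ⟨rfl, rfl, rfl⟩ | ⟨rfl, rfl, rfl⟩ | ⟨rfl, rfl, rfl⟩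
      · rw [ha] at hx; exact n10 hx
      · rw [hw] at hx; exact nm0 hx
      · rw [hc] at hx; exact n10 hx
  · -- conn
    intro σ hσ P hP u v hu hv hu1 hv1 hPu
    have hstep : ∀ x y z, S.T.F x y z → ¬ (x = b ∧ y = c) → ¬ (x = c ∧ y = b) →
        S.side x = σ → S.side y = σ → P x → P y := by
      intro x y z hF n1 n2 hx hy hPx
      obtain ⟨z', hz'⟩ := flipF_of_dart (a := a) (w := w) hF n1 n2
      exact hP x y z' hz' hx hy hPx
    have hbc : b ≠ c := S.T.ne _ _ _ (S.T.cyc _ _ _ h.h1)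
    refine hS.conn σ hσ P ?_ u v (hsupp u hu) (hsupp v hv) hu1 hv1 hPu
    intro x y z hF hx hy hPx
    by_cases c1 : x = b ∧ y = c
    · obtain ⟨rfl, rfl⟩ := c1
      have hσ1 : S.side a = σ := by rw [ha, ← hx, hb]
      obtain ⟨d, hd⟩ := S.T.opp _ _ _ h.h1
      have hPa : P a := hstep x a d hd (fun h => hca h.2.symm) (fun h => hab h.2) hx hσ1 hPx
      obtain ⟨d', hd'⟩ := S.T.opp _ _ _ (S.T.cyc2 h.h1)
      exact hstep a y d' hd' (fun h => hab h.1) (fun h => hca h.1.symm) hσ1 hy hPa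
    · by_cases c2 : x = c ∧ y = b
      · obtain ⟨rfl, rfl⟩ := c2
        have hσ1 : S.side a = σ := by rw [ha, ← hx, hc]
        have hPa : P a := hstep x a _ (S.T.cyc2 h.h1) (fun h => hca h.2.symm)
          (fun h => hab h.2) hx hσ1 hPx
        exact hstep a y _ h.h1 (fun h => hab h.1) (fun h => hca h.1.symm) hσ1 hy hPa
      · exact hstep x y z hF c1 c2 hx hy hPx
  · -- nbr
    intro σ hσ s hs hs0
    change S.side s = 0 at hs0
    obtain ⟨x, ⟨z, hF⟩, hx⟩ := hS.nbr σ hσ s (hsupp s hs) hs0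
    obtain ⟨z', hz'⟩ := flipF_of_dart (a := a) (b := b) (c := c) (w := w) hF
      (by rintro ⟨rfl, -⟩; rw [hb] at hs0; exact n10 hs0)
      (by rintro ⟨rfl, -⟩; rw [hc] at hs0; exact n10 hs0)
    exact ⟨x, ⟨z', hz'⟩, hx⟩
  · -- lab1
    intro u y z hF hO hu hy hz
    change S.side u = 1 at hu
    change S.side y = -1 at hy
    change S.side z = -1 at hz
    rcases hF with ⟨hF, -, -⟩ | hF | hF
    · rw [hA1 u y z hF, hA2 u z y (S.T.cyc2 hF)]
      exact hS.lab1 u y z hF hO hu hy hz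
    · exfalso
      rcases hF with ⟨rfl, rfl, rfl⟩ | ⟨rfl, rfl, rfl⟩ | ⟨rfl, rfl, rfl⟩
      · rw [hb] at hy; exact n11 hy
      · rw [ha] at hz; exact n11 hz
      · rw [ha] at hy; exact n11 hy
    · exfalso
      rcases hF with ⟨rfl, rfl, rfl⟩ | ⟨rfl, rfl, rfl⟩ | ⟨rfl, rfl, rfl⟩
      · rw [hc] at hz; exact n11 hz
      · rw [hc] at hy; exact n11 hy
      · rw [ha] at hy; exact n11 hy
  · -- lab2
    intro y u' u hF hO hy hu' hu
    change S.side y = -1 at hy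
    change S.side u' = 1 at hu'
    change S.side u = 1 at hu
    rcases hF with ⟨hF, -, -⟩ | hF | hF
    · rw [hA1 u y u' (S.T.cyc2 hF), hA2 u' y u hF]
      exact hS.lab2 y u' u hF hO hy hu' hu
    · rcases hF with ⟨rfl, rfl, rfl⟩ | ⟨rfl, rfl, rfl⟩ | ⟨rfl, rfl, rfl⟩
      · rw [ha] at hy; exact absurd hy n11
      · rw [hb] at hy; exact absurd hy n11
      · have e1 : (S.flip h τ).A u y = S.A u y := if_neg (fun hh => hab hh.1.symm)
        have e2 : (S.flip h τ).A u' y = τ := if_pos ⟨rfl, rfl⟩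
        rw [e1, e2]
        exact h1
    · rcases hF with ⟨rfl, rfl, rfl⟩ | ⟨rfl, rfl, rfl⟩ | ⟨rfl, rfl, rfl⟩
      · rw [ha] at hy; exact absurd hy n11
      · have e1 : (S.flip h τ).A u y = τ := if_pos ⟨rfl, rfl⟩
        have e2 : (S.flip h τ).A u' y = S.A u' y := if_neg (fun hh => hca hh.1)
        rw [e1, e2]
        exact h2
      · rw [hc] at hy; exact absurd hy n11
  · -- lab3
    intro u y s hF hO hu hy hs
    change S.side u = 1 at hu
    change S.side y = -1 at hy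
    change S.side s = 0 at hs
    rcases hF with ⟨hF, -, -⟩ | hF | hF
    · rw [hA1 u y s hF]
      exact hS.lab3 u y s hF hO hu hy hs
    · exfalso
      rcases hF with ⟨rfl, rfl, rfl⟩ | ⟨rfl, rfl, rfl⟩ | ⟨rfl, rfl, rfl⟩
      · rw [hw] at hs; exact nm0 hs
      · rw [ha] at hs; exact n10 hs
      · rw [hb] at hs; exact n10 hs
    · exfalso
      rcases hF with ⟨rfl, rfl, rfl⟩ | ⟨rfl, rfl, rfl⟩ | ⟨rfl, rfl, rfl⟩
      · rw [hc] at hs; exact n10 hs
      · rw [ha] at hs; exact n10 hs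
      · rw [hw] at hs; exact nm0 hs
  · -- lab4
    intro y u s hF hO hy hu hs
    change S.side u = 1 at hu
    change S.side y = -1 at hy
    change S.side s = 0 at hs
    rcases hF with ⟨hF, -, -⟩ | hF | hF
    · rw [hA2 u y s hF]
      exact hS.lab4 y u s hF hO hy hu hs
    · exfalso
      rcases hF with ⟨rfl, rfl, rfl⟩ | ⟨rfl, rfl, rfl⟩ | ⟨rfl, rfl, rfl⟩
      · rw [hw] at hs; exact nm0 hs
      · rw [ha] at hs; exact n10 hs
      · rw [hb] at hs; exact n10 hs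
    · exfalso
      rcases hF with ⟨rfl, rfl, rfl⟩ | ⟨rfl, rfl, rfl⟩ | ⟨rfl, rfl, rfl⟩
      · rw [hc] at hs; exact n10 hs
      · rw [ha] at hs; exact n10 hs
      · rw [hw] at hs; exact nm0 hs

end Setup

end P4
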