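import Pool.Agent.Lib_MP_b306af.P4ZFlip2

/-! # MP_b306af Part IV: P4Fln -/

namespace P4

variable {V : Type}

private theorem ncard_cyc3 {x y z : V} (h1 : x ≠ y) (h2 : x ≠ z) (h3 : y ≠ z) :
    {t : V × V × V | Cyc3 x y z t.1 t.2.1 t.2.2}.ncard = 3 := by
  rw [Set.ncard_eq_three]
  refine ⟨(x, y, z), (y, z, x), (z, x, y), ?_, ?_, ?_, ?_⟩
  · intro h
    exact h1 (congrArg Prod.fst h)
  · intro h
    exact h2 (congrArg Prod.fst h)
  · intro h
    exact h3 (congrArg Prod.fst h)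
  · ext ⟨p, q, r⟩
    simp only [Cyc3, Set.mem_ofPred_eq, Set.mem_insert_iff, Set.mem_singleton_iff, Prod.mk.injEq]

private theorem cyc3_mem {x y z p q r : V} (h : Cyc3 x y z p q r) (s : V) :
    (s = p ∨ s = q ∨ s = r) ↔ (s = x ∨ s = y ∨ s = z) := by
  rcases h with ⟨rfl, rfl, rfl⟩ | ⟨rfl, rfl, rfl⟩ | ⟨rfl, rfl, rfl⟩ <;> tauto

/- Piece FLN (P4Flip).  The six rotations of the old faces are six different `T`-faces, the six rotations of
the new ones are six different triples which are not `T`-faces (they contain the dart `aw` or `wa` after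
rotation); the other faces are the same.  So `numF` is the same.  The new faces are not inside one
side (`side w ≠ side a`), and `(a, b, c)` is, so `mono` decreases (`Set.ncard_lt_ncard`: the new set
is a proper subset of the old one). -/
theorem FlipHyp.numF_eq [Finite V] {T : Tri V} {a b c w : V} (h : FlipHyp T a b c w) :
    numF h.tri = numF T := by
  have ab : a ≠ b := T.ne _ _ _ h.h1
  have bc : b ≠ c := T.ne _ _ _ (T.cyc _ _ _ h.h1)
  have ca : c ≠ a := T.ne _ _ _ (T.cyc2 h.h1)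
  have bw : b ≠ w := T.ne _ _ _ (T.cyc _ _ _ h.h2)
  have wc : w ≠ c := T.ne _ _ _ (T.cyc2 h.h2)
  have aw : a ≠ w := h.ne
  have nadj := h.nadj
  have n1 : ¬ T.F a b w := fun hF => nadj (Tri.Adj.symm ⟨b, T.cyc2 hF⟩)
  have n2 : ¬ T.F b w a := fun hF => n1 (T.cyc2 hF)
  have n3 : ¬ T.F w a b := fun hF => n1 (T.cyc _ _ _ hF)
  have n4 : ¬ T.F a w c := fun hF => nadj ⟨c, hF⟩
  have n5 : ¬ T.F w c a := fun hF => n4 (T.cyc2 hF)
  have n6 : ¬ T.F c a w := fun hF => n4 (T.cyc _ _ _ hF)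
  set K : Set (V × V × V) := {t | T.F t.1 t.2.1 t.2.2 ∧ ¬ Cyc3 a b c t.1 t.2.1 t.2.2 ∧
    ¬ Cyc3 c b w t.1 t.2.1 t.2.2} with hK
  have hT : {t : V × V × V | T.F t.1 t.2.1 t.2.2} =
      (K ∪ {t | Cyc3 a b c t.1 t.2.1 t.2.2}) ∪ {t | Cyc3 c b w t.1 t.2.1 t.2.2} := by
    ext ⟨x, y, z⟩
    simp only [Set.mem_union, Set.mem_ofPred_eq, hK]
    constructor
    · intro hF
      by_cases c1 : Cyc3 a b c x y z
      · exact Or.inl (Or.inr c1)
      · by_cases c2 : Cyc3 c b w x y z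
        · exact Or.inr c2
        · exact Or.inl (Or.inl ⟨hF, c1, c2⟩)
    · rintro ((hF | hF) | hF)
      · exact hF.1
      · rcases hF with ⟨rfl, rfl, rfl⟩ | ⟨rfl, rfl, rfl⟩ | ⟨rfl, rfl, rfl⟩
        · exact h.h1
        · exact T.cyc _ _ _ h.h1
        · exact T.cyc2 h.h1
      · rcases hF with ⟨rfl, rfl, rfl⟩ | ⟨rfl, rfl, rfl⟩ | ⟨rfl, rfl, rfl⟩
        · exact h.h2
        · exact T.cyc _ _ _ h.h2
        · exact T.cyc2 h.h2
  have hN : {t : V × V × V | h.tri.F t.1 t.2.1 t.2.2} =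
      (K ∪ {t | Cyc3 a b w t.1 t.2.1 t.2.2}) ∪ {t | Cyc3 a w c t.1 t.2.1 t.2.2} := by
    ext ⟨x, y, z⟩
    simp only [Set.mem_union, Set.mem_ofPred_eq, hK, FlipHyp.tri, flipF, or_assoc]
  unfold numF
  rw [hT, hN, Set.ncard_union_eq _ (Set.toFinite _) (Set.toFinite _),
    Set.ncard_union_eq _ (Set.toFinite _) (Set.toFinite _),
    Set.ncard_union_eq _ (Set.toFinite _) (Set.toFinite _),
    Set.ncard_union_eq _ (Set.toFinite _) (Set.toFinite _),
    ncard_cyc3 ab ca.symm bc, ncard_cyc3 bc.symm wc.symm bw, ncard_cyc3 ab aw bw,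
    ncard_cyc3 aw ca.symm wc]
  · rw [Set.disjoint_left]
    rintro ⟨x, y, z⟩ h1 h2
    exact h1.2.1 h2
  · rw [Set.disjoint_left]
    rintro ⟨x, y, z⟩ h1 h2
    simp only [Set.mem_union, Set.mem_ofPred_eq, hK] at h1 h2
    rcases h1 with h1 | h1
    · exact h1.2.2 h2
    · rcases (cyc3_mem h1 w).1 ((cyc3_mem h2 w).2 (Or.inr (Or.inr rfl))) with e | e | e
      · exact aw e.symm
      · exact bw e.symm
      · exact wc e
  · rw [Set.disjoint_left]
    rintro ⟨x, y, z⟩ h1 h2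
    simp only [Set.mem_ofPred_eq, hK] at h1 h2
    rcases h2 with ⟨rfl, rfl, rfl⟩ | ⟨rfl, rfl, rfl⟩ | ⟨rfl, rfl, rfl⟩
    · exact n1 h1.1
    · exact n2 h1.1
    · exact n3 h1.1
  · rw [Set.disjoint_left]
    rintro ⟨x, y, z⟩ h1 h2
    simp only [Set.mem_union, Set.mem_ofPred_eq, hK] at h1 h2
    rcases h1 with h1 | h1
    · rcases h2 with ⟨rfl, rfl, rfl⟩ | ⟨rfl, rfl, rfl⟩ | ⟨rfl, rfl, rfl⟩
      · exact n4 h1.1
      · exact n5 h1.1
      · exact n6 h1.1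
    · rcases (cyc3_mem h2 b).1 ((cyc3_mem h1 b).2 (Or.inr (Or.inl rfl))) with e | e | e
      · exact ab e.symm
      · exact bw e
      · exact bc e

theorem FlipHyp.mono_lt [Finite V] {T : Tri V} {a b c w : V} (h : FlipHyp T a b c w)
    (side : V → SignType) (h1 : side a = side b) (h2 : side b = side c)
    (h3 : side w ≠ side a) : mono h.tri side < mono T side := by
  have ab : a ≠ b := T.ne _ _ _ h.h1
  have bc : b ≠ c := T.ne _ _ _ (T.cyc _ _ _ h.h1)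
  have ca : c ≠ a := T.ne _ _ _ (T.cyc2 h.h1)
  have bw : b ≠ w := T.ne _ _ _ (T.cyc _ _ _ h.h2)
  have wc : w ≠ c := T.ne _ _ _ (T.cyc2 h.h2)
  have aw : a ≠ w := h.ne
  unfold mono
  refine Set.ncard_lt_ncard ?_ (Set.toFinite _)
  rw [Set.ssubset_iff_of_subset]
  · refine ⟨(a, b, c), ⟨h.h1, h1, h2⟩, ?_⟩
    rintro ⟨hF, -⟩
    rcases hF with hF | hF | hF
    · exact hF.2.1 (Or.inl ⟨rfl, rfl, rfl⟩)
    · rcases hF with ⟨e1, e2, e3⟩ | ⟨e1, e2, e3⟩ | ⟨e1, e2, e3⟩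
      · exact wc e3.symm
      · exact ab e1
      · exact aw e1
    · rcases hF with ⟨e1, e2, e3⟩ | ⟨e1, e2, e3⟩ | ⟨e1, e2, e3⟩
      · exact bw e2
      · exact aw e1
      · exact ca e1.symm
  · rintro ⟨x, y, z⟩ ⟨hF, s1, s2⟩
    refine ⟨?_, s1, s2⟩
    simp only at s1 s2
    rcases hF with hF | hF | hF
    · exact hF.1
    · exfalso
      rcases hF with ⟨e1, e2, e3⟩ | ⟨e1, e2, e3⟩ | ⟨e1, e2, e3⟩ <;> simp only at e1 e2 e3 <;>
        subst e1 e2 e3
      · exact h3 (s1.trans s2).symm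
      · exact h3 s2
      · exact h3 s1
    · exfalso
      rcases hF with ⟨e1, e2, e3⟩ | ⟨e1, e2, e3⟩ | ⟨e1, e2, e3⟩ <;> simp only at e1 e2 e3 <;>
        subst e1 e2 e3
      · exact h3 s1.symm
      · exact h3 (s1.trans s2)
      · exact h3 s2.symm

end P4
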