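import Pool.Agent.Lib_MP_b306af.P4ZFlip1

/-! # MP_b306af Part IV: P4Flt -/

namespace P4

variable {V : Type}

/- Piece FLT (P4Flip).  `Q x y := if (x = b ∧ y = c) ∨ (x = c ∧ y = b) then P a b else P x y`.  Closed in `T`:
faces different from the two old ones: no dart `bc`, `cb` in them.  In the old faces: all of
`P a b`, `P b w`, `P w a` are equivalent (new face `(a, b, w)`), `P a w`, `P w c`, `P c a` too, and
`P w a → P a w → P w a` by `h2`.  So all five are equivalent, and the darts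
of `(a, b, c)` and `(c, b, w)` are mapped to `P a b, P a b, P c a` and `P a b, P b w, P w c`.  Opposite
darts: for `bc`, `cb` trivial; others `h2` (the dart is in a face of the flipped triangulation: every
`T`-dart except `bc`, `cb` is).  Use `T.trans` for `Q`; `aw`, `wa` are equivalent to `P a b`. -/
theorem flip_trans {T : Tri V} {a b c w : V} (h : FlipHyp T a b c w)
    (P : V → V → Prop)
    (h1 : ∀ x y z, flipF T a b c w x y z → P x y → P y z)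
    (h2 : ∀ x y z, flipF T a b c w x y z → P x y → P y x)
    (x y z x' y' z' : V) (hF : flipF T a b c w x y z) (hF' : flipF T a b c w x' y' z')
    (hP : P x y) : P x' y' := by
  classical
  have hab : a ≠ b := T.ne _ _ _ h.h1
  have hbc : b ≠ c := T.ne _ _ _ (T.cyc _ _ _ h.h1)
  have hca : c ≠ a := T.ne _ _ _ (T.cyc2 h.h1)
  have hbw : b ≠ w := T.ne _ _ _ (T.cyc _ _ _ h.h2)
  have hwc : w ≠ c := T.ne _ _ _ (T.cyc2 h.h2)
  -- new faces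
  have n1 : flipF T a b c w a b w := Or.inr (Or.inl (Or.inl ⟨rfl, rfl, rfl⟩))
  have n2 : flipF T a b c w b w a := Or.inr (Or.inl (Or.inr (Or.inl ⟨rfl, rfl, rfl⟩)))
  have n3 : flipF T a b c w w a b := Or.inr (Or.inl (Or.inr (Or.inr ⟨rfl, rfl, rfl⟩)))
  have m1 : flipF T a b c w a w c := Or.inr (Or.inr (Or.inl ⟨rfl, rfl, rfl⟩))
  have m2 : flipF T a b c w w c a := Or.inr (Or.inr (Or.inr (Or.inl ⟨rfl, rfl, rfl⟩)))
  have m3 : flipF T a b c w c a w := Or.inr (Or.inr (Or.inr (Or.inr ⟨rfl, rfl, rfl⟩)))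
  have e1 : P b w ↔ P a b := ⟨fun k => h1 _ _ _ n3 (h1 _ _ _ n2 k), h1 _ _ _ n1⟩
  have e2 : P w a ↔ P a b := ⟨h1 _ _ _ n3, fun k => h1 _ _ _ n2 (h1 _ _ _ n1 k)⟩
  have e3 : P a w ↔ P a b := by
    rw [← e2]
    exact ⟨h2 _ _ _ m1, h2 _ _ _ n3⟩
  have e4 : P w c ↔ P a b := by
    rw [← e3]
    exact ⟨fun k => h1 _ _ _ m3 (h1 _ _ _ m2 k), h1 _ _ _ m1⟩
  have e5 : P c a ↔ P a b := by
    rw [← e3]
    exact ⟨h1 _ _ _ m3, fun k => h1 _ _ _ m2 (h1 _ _ _ m1 k)⟩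
  obtain ⟨Q, hQ⟩ : ∃ Q : V → V → Prop, Q = fun x y =>
    if (x = b ∧ y = c) ∨ (x = c ∧ y = b) then P a b else P x y := ⟨_, rfl⟩
  have Qbc : Q b c ↔ P a b := by
    rw [hQ]
    simp
  have Qcb : Q c b ↔ P a b := by
    rw [hQ]
    simp
  have Qn : ∀ x y, ¬ (x = b ∧ y = c) → ¬ (x = c ∧ y = b) → (Q x y ↔ P x y) := by
    intro x y k1 k2
    rw [hQ]
    simp only
    rw [if_neg]
    rintro (k | k)
    · exact k1 k
    · exact k2 k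
  have Qab : Q a b ↔ P a b := Qn a b (fun k => hab k.1) (fun k => hca k.1.symm)
  have Qca : Q c a ↔ P a b := (Qn c a (fun k => hbc k.1.symm) (fun k => hab k.2)).trans e5
  have Qbw : Q b w ↔ P a b := (Qn b w (fun k => hwc k.2) (fun k => hbc k.1)).trans e1
  have Qwc : Q w c ↔ P a b := (Qn w c (fun k => hbw k.1.symm) (fun k => hwc k.1)).trans e4
  -- old faces
  have old : ∀ x y z, T.F x y z → ¬ Cyc3 a b c x y z → ¬ Cyc3 c b w x y z →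
      (¬ (x = b ∧ y = c) ∧ ¬ (x = c ∧ y = b)) ∧ (¬ (y = b ∧ z = c) ∧ ¬ (y = c ∧ z = b)) := by
    intro x y z hf k1 k2
    refine ⟨⟨?_, ?_⟩, ?_, ?_⟩
    · rintro ⟨rfl, rfl⟩
      exact k1 (Or.inr (Or.inl ⟨rfl, rfl, T.uniq _ _ _ _ hf (T.cyc _ _ _ h.h1)⟩))
    · rintro ⟨rfl, rfl⟩
      exact k2 (Or.inl ⟨rfl, rfl, T.uniq _ _ _ _ hf h.h2⟩)
    · rintro ⟨rfl, rfl⟩
      exact k1 (Or.inl ⟨T.uniq _ _ _ _ (T.cyc _ _ _ hf) (T.cyc _ _ _ h.h1), rfl, rfl⟩)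
    · rintro ⟨rfl, rfl⟩
      exact k2 (Or.inr (Or.inr ⟨T.uniq _ _ _ _ (T.cyc _ _ _ hf) h.h2, rfl, rfl⟩))
  have q1 : ∀ x y z, T.F x y z → Q x y → Q y z := by
    intro x y z hf hq
    by_cases k1 : Cyc3 a b c x y z
    · rcases k1 with ⟨rfl, rfl, rfl⟩ | ⟨rfl, rfl, rfl⟩ | ⟨rfl, rfl, rfl⟩
      · exact Qbc.2 (Qab.1 hq)
      · exact Qca.2 (Qbc.1 hq)
      · exact Qab.2 (Qca.1 hq)
    by_cases k2 : Cyc3 c b w x y z
    · rcases k2 with ⟨rfl, rfl, rfl⟩ | ⟨rfl, rfl, rfl⟩ | ⟨rfl, rfl, rfl⟩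
      · exact Qbw.2 (Qcb.1 hq)
      · exact Qwc.2 (Qbw.1 hq)
      · exact Qcb.2 (Qwc.1 hq)
    obtain ⟨⟨a1, a2⟩, a3, a4⟩ := old x y z hf k1 k2
    rw [Qn x y a1 a2] at hq
    rw [Qn y z a3 a4]
    exact h1 _ _ _ (Or.inl ⟨hf, k1, k2⟩) hq
  have q2 : ∀ x y z, T.F x y z → Q x y → Q y x := by
    intro x y z hf hq
    by_cases b1 : x = b ∧ y = c
    · obtain ⟨rfl, rfl⟩ := b1
      exact Qcb.2 (Qbc.1 hq)
    by_cases b2 : x = c ∧ y = b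
    · obtain ⟨rfl, rfl⟩ := b2
      exact Qbc.2 (Qcb.1 hq)
    rw [Qn x y b1 b2] at hq
    rw [Qn y x (fun k => b2 ⟨k.2, k.1⟩) (fun k => b1 ⟨k.2, k.1⟩)]
    by_cases k1 : Cyc3 a b c x y z
    · rcases k1 with ⟨rfl, rfl, rfl⟩ | ⟨rfl, rfl, rfl⟩ | ⟨rfl, rfl, rfl⟩
      · exact h2 _ _ _ n1 hq
      · exact absurd ⟨rfl, rfl⟩ b1
      · exact h2 _ _ _ m3 hq
    by_cases k2 : Cyc3 c b w x y z
    · rcases k2 with ⟨rfl, rfl, rfl⟩ | ⟨rfl, rfl, rfl⟩ | ⟨rfl, rfl, rfl⟩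
      · exact absurd ⟨rfl, rfl⟩ b2
      · exact h2 _ _ _ n2 hq
      · exact h2 _ _ _ m2 hq
    exact h2 _ _ _ (Or.inl ⟨hf, k1, k2⟩) hq
  have rep : ∀ x y z, flipF T a b c w x y z → ∃ s t r, T.F s t r ∧ (Q s t ↔ P x y) := by
    intro x y z hf
    rcases hf with ⟨hf, k1, k2⟩ | k | k
    · obtain ⟨⟨a1, a2⟩, -, -⟩ := old x y z hf k1 k2
      exact ⟨x, y, z, hf, Qn x y a1 a2⟩
    · refine ⟨a, b, c, h.h1, ?_⟩
      rcases k with ⟨rfl, rfl, rfl⟩ | ⟨rfl, rfl, rfl⟩ | ⟨rfl, rfl, rfl⟩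
      · exact Qab
      · exact Qab.trans e1.symm
      · exact Qab.trans e2.symm
    · refine ⟨a, b, c, h.h1, ?_⟩
      rcases k with ⟨rfl, rfl, rfl⟩ | ⟨rfl, rfl, rfl⟩ | ⟨rfl, rfl, rfl⟩
      · exact Qab.trans e3.symm
      · exact Qab.trans e4.symm
      · exact Qab.trans e5.symm
  obtain ⟨s, t, r, hs, es⟩ := rep x y z hF
  obtain ⟨s', t', r', hs', es'⟩ := rep x' y' z' hF'
  exact es'.1 (T.trans Q q1 q2 s t r s' t' r' hs hs' (es.2 hP))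

end P4
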