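import Pool.Agent.Lib_MP_b306af.P4ZGeo1

/-! # MP_b306af Part IV: P4Geob -/

namespace P4

/- Piece GEOB (P4Geo).  `s` on the axis, `u`, `w` on different sides:
`det3 u w s = t u.2 (s.1 - crossAt u w)`. -/
theorem det3_axis (u w s : ℝ × ℝ) (h1 : u.2 * w.2 < 0) (hs : s.2 = 0) :
    ∃ K : ℝ, 0 < K ∧ det3 u w s = K * (u.2 * (s.1 - crossAt u w)) := by
  have hu : u.2 ≠ 0 := by
    rintro h; rw [h] at h1; simp at h1
  have hne : w.2 - u.2 ≠ 0 := by
    intro h
    have h2 : w.2 = u.2 := by linarith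
    rw [h2] at h1
    nlinarith [mul_self_nonneg u.2]
  refine ⟨(u.2 - w.2) / u.2, ?_, ?_⟩
  · have h3 : (u.2 - w.2) / u.2 = (u.2 * u.2 - u.2 * w.2) / (u.2 * u.2) := by
      field_simp
    rw [h3]
    have h4 : 0 < u.2 * u.2 := mul_self_pos.mpr hu
    exact div_pos (by linarith) h4
  · unfold det3 crossAt
    rw [hs]
    field_simp
    ring

end P4
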