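import Pool.Agent.Lib_MP_b306af.P4Defs

/-! # MP_b306af Part IV: P4Half -/

namespace P4

variable {V : Type}

/- Piece HALF (P4Fary).  Around a vertex whose faces are all positive there is a neighbour in every open
half plane.  Put `l b = α (x_b - x_v) + β (y_b - y_v)`, `m b = - β (x_b - x_v) + α (y_b - y_v)`, `N = α² + β² > 0`:
`N * det3 v b c = l b * m c - m b * l c`.  Suppose `l b ≥ 0` for all neighbours `b`.  If some neighbour has
`l > 0`, take one with `m b / l b` maximal among those (finite); `c = nx v b`: `l b m c > m b l c`; if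
`l c > 0` then `m c / l c > m b / l b`, contradiction; so `l c = 0`, `m c > 0`; for `d = nx v c`:
`0 < l c m d - m c l d = - m c l d`, so `l d < 0`, contradiction.  If all `l b = 0` then
`det3 = 0` for every face at `v`, contradiction. -/
theorem half_plane [Finite V] (T : Tri V) (P : V → ℝ × ℝ) (v : V) (hv : T.Supp v)
    (hpos : ∀ b c, T.F v b c → 0 < det3 (P v) (P b) (P c)) (α β : ℝ)
    (hαβ : α ≠ 0 ∨ β ≠ 0) :
    ∃ b, T.Adj v b ∧ α * ((P b).1 - (P v).1) + β * ((P b).2 - (P v).2) < 0 := by
  by_contra hcon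
  push Not at hcon
  set l : V → ℝ := fun b => α * ((P b).1 - (P v).1) + β * ((P b).2 - (P v).2) with hl
  set m : V → ℝ := fun b => - β * ((P b).1 - (P v).1) + α * ((P b).2 - (P v).2) with hm
  have hl0 : ∀ b, T.Adj v b → 0 ≤ l b := hcon
  have hN : 0 < α ^ 2 + β ^ 2 := by
    rcases hαβ with h | h
    · have := sq_pos_of_ne_zero h
      have := sq_nonneg β
      linarith
    · have := sq_pos_of_ne_zero h
      have := sq_nonneg α
      linarith
  have hD : ∀ b c, T.F v b c → 0 < l b * m c - m b * l c := by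
    intro b c h
    have h1 := mul_pos hN (hpos b c h)
    have h2 : (α ^ 2 + β ^ 2) * det3 (P v) (P b) (P c) = l b * m c - m b * l c := by
      simp only [hl, hm, det3]
      ring
    rwa [h2] at h1
  have hadj : ∀ b c, T.F v b c → T.Adj v c := fun b c h => Tri.Adj.symm ⟨b, T.cyc2 h⟩
  by_cases hS : ({b | T.Adj v b ∧ 0 < l b} : Set V).Nonempty
  · obtain ⟨b, ⟨hb1, hb2⟩, hmax⟩ := Set.exists_max_image _ (fun b => m b / l b) (Set.toFinite _) hS
    have hF := T.F_nx hb1
    set c := T.nx v b
    have hD1 := hD b c hF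
    have hc1 := hadj b c hF
    rcases (hl0 c hc1).eq_or_lt with h0 | h0
    · rw [← h0, mul_zero, sub_zero] at hD1
      have hmc : 0 < m c := pos_of_mul_pos_right hD1 hb2.le
      have hF2 := T.F_nx hc1
      have hD2 := hD c _ hF2
      have hd := hl0 _ (hadj c _ hF2)
      rw [← h0, zero_mul, zero_sub] at hD2
      have := mul_nonneg hmc.le hd
      linarith
    · have h3 := hmax c ⟨hc1, h0⟩
      rw [div_le_div_iff₀ h0 hb2] at h3
      linarith [mul_comm (l b) (m c)]
  · have hz : ∀ b, T.Adj v b → l b = 0 := by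
      intro b hb
      by_contra h
      exact hS ⟨b, hb, lt_of_le_of_ne (hl0 b hb) (Ne.symm h)⟩
    obtain ⟨b, c, hF⟩ := hv
    have hD1 := hD b c hF
    rw [hz b ⟨c, hF⟩, hz c (hadj b c hF)] at hD1
    simp at hD1

end P4
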