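import Pool.Agent.Lib_MP_b306af.P4Half

/-! # MP_b306af Part IV: P4Insign -/

namespace P4

variable {V : Type}

/- Piece INSIGN (P4Fary, uses `half_plane`).  Let `v` be a vertex where `σ * y` is minimal on the
(finite, nonempty) support.  A vertex `v` which is not one of the `o i` cannot be such a vertex by
`half_plane` with `(α, β) = (0, σ)`, `σ = ±1` (all faces at it are different from the outer face).  So if
`v` is not an outer vertex, `σ y_v > min = σ y_{o i} ≥ 0` for some `i`. -/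
theorem inner_sign [Finite V] (T : Tri V) (P : V → ℝ × ℝ) (o1 o2 o3 : V)
    (hpos : ∀ a b c, T.F a b c → ¬ Cyc3 o1 o2 o3 a b c → 0 < det3 (P a) (P b) (P c))
    (σ : ℝ) (hσ : σ ≠ 0) (h1 : 0 ≤ σ * (P o1).2) (h2 : 0 ≤ σ * (P o2).2)
    (h3 : 0 ≤ σ * (P o3).2) (v : V) (hv : T.Supp v) (v1 : v ≠ o1) (v2 : v ≠ o2)
    (v3 : v ≠ o3) : 0 < σ * (P v).2 := by
  classical
  have key : ∀ w, T.Supp w → w ≠ o1 → w ≠ o2 → w ≠ o3 →
      ∃ b, T.Supp b ∧ σ * (P b).2 < σ * (P w).2 := by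
    intro w hw w1 w2 w3
    obtain ⟨b, hb, hlt⟩ := half_plane T P w hw (fun b c hF => by
      refine hpos _ _ _ hF ?_
      rintro (⟨h, _, _⟩ | ⟨h, _, _⟩ | ⟨h, _, _⟩)
      · exact w1 h
      · exact w2 h
      · exact w3 h) 0 σ (Or.inr hσ)
    refine ⟨b, (Tri.Adj.symm hb).supp, ?_⟩
    nlinarith [hlt]
  obtain ⟨m, hm, hmin⟩ := Set.exists_min_image {w | T.Supp w} (fun w => σ * (P w).2)
    (Set.toFinite _) ⟨v, hv⟩
  have hm0 : 0 ≤ σ * (P m).2 := by
    by_cases m1 : m = o1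
    · rw [m1]; exact h1
    by_cases m2 : m = o2
    · rw [m2]; exact h2
    by_cases m3 : m = o3
    · rw [m3]; exact h3
    obtain ⟨b, hb, hlt⟩ := key m hm m1 m2 m3
    exact absurd (hmin b hb) (not_le.mpr hlt)
  obtain ⟨b, hb, hlt⟩ := key v hv v1 v2 v3
  exact lt_of_le_of_lt (le_trans hm0 (hmin b hb)) hlt

end P4
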