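import Mathlib

/-! # MP_b306af Part IV: P4Interp -/

namespace P4

variable {V : Type}

/- Piece INTERP (P4Free).  A strictly increasing function with prescribed values.
Induction on `n`, or directly: for `n = 0` `g = id`.  For `n ≥ 1` piecewise linear interpolation.  A
convenient way by induction with the statement for lists/`Fin (n + 1)`: given `g` for the first `n` points
(`n ≥ 1`), put `g' z = g z` for `z ≤ t (n-1)` and
`g' z = x (n-1) + (z - t (n-1)) * (x n - x (n-1)) / (t n - t (n-1))` for `z > t (n-1)`.
(`Fin.snoc`/`Fin.last`; `Fin.castSucc` for the induction.) -/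
theorem exists_interp (n : ℕ) (t x : Fin n → ℝ) (ht : StrictMono t) (hx : StrictMono x) :
    ∃ g : ℝ → ℝ, StrictMono g ∧ ∀ i, g (t i) = x i := by
  classical
  induction n with
  | zero => exact ⟨id, strictMono_id, fun i => i.elim0⟩
  | succ n ih =>
    rcases n with _ | k
    · refine ⟨fun z => z - t 0 + x 0, fun a b hab => ?_, fun i => ?_⟩
      · show a - t 0 + x 0 < b - t 0 + x 0
        linarith
      · have : i = 0 := Fin.ext (by omega)
        subst this
        simp
    · obtain ⟨g, hg, hgt⟩ := ih (fun i => t i.castSucc) (fun i => x i.castSucc)
        (fun i j hij => ht (Fin.castSucc_lt_castSucc_iff.2 hij))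
        (fun i j hij => hx (Fin.castSucc_lt_castSucc_iff.2 hij))
      have hab : t (Fin.last k).castSucc < t (Fin.last (k + 1)) := ht (Fin.castSucc_lt_last _)
      have hxab : x (Fin.last k).castSucc < x (Fin.last (k + 1)) := hx (Fin.castSucc_lt_last _)
      have hga : g (t (Fin.last k).castSucc) = x (Fin.last k).castSucc := hgt (Fin.last k)
      set a := t (Fin.last k).castSucc with ha
      set b := t (Fin.last (k + 1)) with hb
      set xa := x (Fin.last k).castSucc with hxa
      set xb := x (Fin.last (k + 1)) with hxb
      have hs : 0 < (xb - xa) / (b - a) := div_pos (by linarith) (by linarith)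
      refine ⟨fun z => if z ≤ a then g z else xa + (z - a) * ((xb - xa) / (b - a)), ?_, ?_⟩
      · intro z w hzw
        by_cases hw : w ≤ a
        · have hz : z ≤ a := hzw.le.trans hw
          simpa only [if_pos hw, if_pos hz] using hg hzw
        · by_cases hz : z ≤ a
          · have h1 : g z ≤ g a := hg.monotone hz
            have h2 : 0 < (w - a) * ((xb - xa) / (b - a)) := mul_pos (by linarith) hs
            simp only [if_neg hw, if_pos hz]
            linarith
          · have h2 : (z - a) * ((xb - xa) / (b - a)) < (w - a) * ((xb - xa) / (b - a)) :=
              mul_lt_mul_of_pos_right (by linarith) hs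
            simp only [if_neg hw, if_neg hz]
            linarith
      · intro i
        refine Fin.lastCases ?_ (fun j => ?_) i
        · have h1 : ¬ t (Fin.last (k + 1)) ≤ a := not_le.2 hab
          simp only [if_neg h1]
          have h2 : b - a ≠ 0 := by linarith
          show xa + (b - a) * ((xb - xa) / (b - a)) = xb
          rw [mul_div_cancel₀ _ h2]
          ring
        · have h1 : t j.castSucc ≤ a :=
            ht.monotone (Fin.castSucc_le_castSucc_iff.2 (Fin.le_last j))
          simp only [if_pos h1]
          exact hgt j

end P4
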