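import Pool.Agent.Lib_MP_b306af.P4Outrev
import Pool.Agent.Lib_MP_b306af.P4Geoa
import Pool.Agent.Lib_MP_b306af.P4Geob
import Pool.Agent.Lib_MP_b306af.P4Geoc

/-! # MP_b306af Part IV: P4Outneg -/

namespace P4

variable {V : Type}

namespace Setup

/- Piece OUTNEG (P4Draw, uses `outer_rev`, `det3_apex`, `det3_axis`).
The outer face has a vertex above and one below.  The third one is above, below or on the axis; after a
rotation (`det3_rot`, `IsO.rot`; note `IsO o1 o2 o3`) it is `u w w'`, `w u' u`, `u w s` or `w u s`, and `hQ.cross`,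
`hQ.abs0`, `outer_rev` and `det3_apex` / `det3_axis` give the sign (`(Q s).2 = 0` by `hQ.sgn`). -/
theorem outer_neg [Finite V] {S : Setup V} (hS : S.Good) {Q : V → ℝ × ℝ}
    (hQ : S.OuterOK Q) : det3 (Q S.o1) (Q S.o2) (Q S.o3) < 0 := by
  obtain ⟨r1, r2, r3, r4⟩ := outer_rev hS
  have htri : ∀ x : SignType, x = 1 ∨ x = 0 ∨ x = -1 := by decide
  have hdet : ∀ P R T : ℝ × ℝ, det3 P R T = det3 R T P := by
    intro P R T
    unfold det3
    ring
  have hrot : ∀ a b c, S.IsO a b c → S.IsO b c a := by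
    rintro a b c (⟨h, h', h''⟩ | ⟨h, h', h''⟩ | ⟨h, h', h''⟩)
    · exact Or.inr (Or.inl ⟨h', h'', h⟩)
    · exact Or.inr (Or.inr ⟨h', h'', h⟩)
    · exact Or.inl ⟨h', h'', h⟩
  have hO1 : ∀ a b c, S.IsO a b c → S.Outer a := by
    rintro a b c (⟨h, h', h''⟩ | ⟨h, h', h''⟩ | ⟨h, h', h''⟩)
    · exact Or.inl h
    · exact Or.inr (Or.inl h)
    · exact Or.inr (Or.inr h)
  have hO2 : ∀ a b c, S.IsO a b c → S.Outer b := fun a b c h => hO1 _ _ _ (hrot _ _ _ h)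
  have hO3 : ∀ a b c, S.IsO a b c → S.Outer c := fun a b c h => hO2 _ _ _ (hrot _ _ _ h)
  have hp : ∀ v, S.Outer v → S.side v = 1 → 0 < (Q v).2 := fun v hv h =>
    sign_eq_one_iff.1 ((hQ.sgn v hv).trans h)
  have hm : ∀ v, S.Outer v → S.side v = -1 → (Q v).2 < 0 := fun v hv h =>
    sign_eq_neg_one_iff.1 ((hQ.sgn v hv).trans h)
  have hz : ∀ v, S.Outer v → S.side v = 0 → (Q v).2 = 0 := fun v hv h =>
    sign_eq_zero_iff.1 ((hQ.sgn v hv).trans h)
  -- the two apex cases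
  have c1 : ∀ u w w', S.IsO u w w' → S.side u = 1 → S.side w = -1 → S.side w' = -1 →
      det3 (Q u) (Q w) (Q w') < 0 := by
    intro u w w' hO hu hw hw'
    have pu := hp u (hO1 _ _ _ hO) hu
    have pw := hm w (hO2 _ _ _ hO) hw
    have pw' := hm w' (hO3 _ _ _ hO) hw'
    obtain ⟨K, hK, e⟩ := det3_apex (Q u) (Q w) (Q w') (mul_neg_of_pos_of_neg pu pw)
      (mul_neg_of_pos_of_neg pu pw')
    rw [e, hQ.cross u w (hO1 _ _ _ hO) (hO2 _ _ _ hO) hu hw,
      hQ.cross u w' (hO1 _ _ _ hO) (hO3 _ _ _ hO) hu hw']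
    have h := r1 u w w' hO hu hw hw'
    exact mul_neg_of_pos_of_neg hK (mul_neg_of_pos_of_neg pu (by linarith))
  have c2 : ∀ w u' u, S.IsO w u' u → S.side w = -1 → S.side u' = 1 → S.side u = 1 →
      det3 (Q w) (Q u') (Q u) < 0 := by
    intro w u' u hO hw hu' hu
    have pw := hm w (hO1 _ _ _ hO) hw
    have pu' := hp u' (hO2 _ _ _ hO) hu'
    have pu := hp u (hO3 _ _ _ hO) hu
    obtain ⟨K, hK, e⟩ := det3_apex (Q w) (Q u') (Q u) (mul_neg_of_neg_of_pos pw pu')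
      (mul_neg_of_neg_of_pos pw pu)
    rw [e, crossAt_comm (Q w) (Q u), crossAt_comm (Q w) (Q u'),
      hQ.cross u w (hO3 _ _ _ hO) (hO1 _ _ _ hO) hu hw,
      hQ.cross u' w (hO2 _ _ _ hO) (hO1 _ _ _ hO) hu' hw]
    have h := r2 w u' u hO hw hu' hu
    exact mul_neg_of_pos_of_neg hK (mul_neg_of_neg_of_pos pw (by linarith))
  have c3 : ∀ u w s, S.IsO u w s → S.side u = 1 → S.side w = -1 → S.side s = 0 →
      det3 (Q u) (Q w) (Q s) < 0 := by
    intro u w s hO hu hw hs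
    have pu := hp u (hO1 _ _ _ hO) hu
    have pw := hm w (hO2 _ _ _ hO) hw
    obtain ⟨K, hK, e⟩ := det3_axis (Q u) (Q w) (Q s) (mul_neg_of_pos_of_neg pu pw)
      (hz s (hO3 _ _ _ hO) hs)
    rw [e, hQ.cross u w (hO1 _ _ _ hO) (hO2 _ _ _ hO) hu hw, hQ.abs0 s (hO3 _ _ _ hO) hs]
    have h := r3 u w s hO hu hw hs
    exact mul_neg_of_pos_of_neg hK (mul_neg_of_pos_of_neg pu (by linarith))
  have c4 : ∀ w u s, S.IsO w u s → S.side w = -1 → S.side u = 1 → S.side s = 0 →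
      det3 (Q w) (Q u) (Q s) < 0 := by
    intro w u s hO hw hu hs
    have pw := hm w (hO1 _ _ _ hO) hw
    have pu := hp u (hO2 _ _ _ hO) hu
    obtain ⟨K, hK, e⟩ := det3_axis (Q w) (Q u) (Q s) (mul_neg_of_neg_of_pos pw pu)
      (hz s (hO3 _ _ _ hO) hs)
    rw [e, crossAt_comm (Q w) (Q u), hQ.cross u w (hO2 _ _ _ hO) (hO1 _ _ _ hO) hu hw,
      hQ.abs0 s (hO3 _ _ _ hO) hs]
    have h := r4 w u s hO hw hu hs
    exact mul_neg_of_pos_of_neg hK (mul_neg_of_neg_of_pos pw (by linarith))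
  have k1 : ∀ a b c, S.IsO a b c → S.side a = 1 → S.side b = -1 →
      det3 (Q a) (Q b) (Q c) < 0 := by
    intro a b c hO ha hb
    rcases htri (S.side c) with h | h | h
    · rw [hdet]
      exact c2 b c a (hrot _ _ _ hO) hb h ha
    · exact c3 a b c hO ha hb h
    · exact c1 a b c hO ha hb h
  have k2 : ∀ a b c, S.IsO a b c → S.side a = -1 → S.side b = 1 →
      det3 (Q a) (Q b) (Q c) < 0 := by
    intro a b c hO ha hb
    rcases htri (S.side c) with h | h | h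
    · exact c2 a b c hO ha hb h
    · exact c4 a b c hO ha hb h
    · rw [hdet]
      exact c1 b c a (hrot _ _ _ hO) hb h ha
  have i1 : S.IsO S.o1 S.o2 S.o3 := Or.inl ⟨rfl, rfl, rfl⟩
  have i2 := hrot _ _ _ i1
  have i3 := hrot _ _ _ i2
  have e1 : det3 (Q S.o1) (Q S.o2) (Q S.o3) = det3 (Q S.o2) (Q S.o3) (Q S.o1) := hdet _ _ _
  have e2 : det3 (Q S.o1) (Q S.o2) (Q S.o3) = det3 (Q S.o3) (Q S.o1) (Q S.o2) :=
    e1.trans (hdet _ _ _)
  have hne : (1 : SignType) ≠ -1 := by decide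
  obtain ⟨v, hv, hv1⟩ := hS.plus0
  obtain ⟨v', hv', hv1'⟩ := hS.minus0
  rcases hv with rfl | rfl | rfl
  · rcases hv' with rfl | rfl | rfl
    · exact absurd (hv1.symm.trans hv1') hne
    · exact k1 _ _ _ i1 hv1 hv1'
    · rw [e2]
      exact k2 _ _ _ i3 hv1' hv1
  · rcases hv' with rfl | rfl | rfl
    · exact k2 _ _ _ i1 hv1' hv1
    · exact absurd (hv1.symm.trans hv1') hne
    · rw [e1]
      exact k1 _ _ _ i2 hv1 hv1'
  · rcases hv' with rfl | rfl | rfl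
    · rw [e2]
      exact k1 _ _ _ i3 hv1 hv1'
    · rw [e1]
      exact k2 _ _ _ i2 hv1' hv1
    · exact absurd (hv1.symm.trans hv1') hne

end Setup

end P4
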