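import Pool.Agent.Lib_MP_b306af.P4Defs

/-! # MP_b306af Part IV: P4ZDraw1 -/

namespace P4

variable {V : Type}

namespace Setup

/-- `IsO` is invariant under rotation -/
theorem IsO.rot {S : Setup V} {a b c : V} (h : S.IsO a b c) : S.IsO b c a := by
  rcases h with ⟨h1, h2, h3⟩ | ⟨h1, h2, h3⟩ | ⟨h1, h2, h3⟩
  · exact Or.inr (Or.inl ⟨h2, h3, h1⟩)
  · exact Or.inr (Or.inr ⟨h2, h3, h1⟩)
  · exact Or.inl ⟨h2, h3, h1⟩

end Setup

end P4
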