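import Pool.Agent.Lib_MP_b306af.P4Geoa
import Pool.Agent.Lib_MP_b306af.P4Geoc
import Pool.Agent.Lib_MP_b306af.P4Outneg
import Pool.Agent.Lib_MP_b306af.P4ZDraw1

/-! # MP_b306af Part IV: P4Kdraw -/

namespace P4

variable {V : Type}

namespace Setup

/-- the point `(τ, 0)` between the crossings of `Q b Q w` and `Q a Q w` with the axis -/
private theorem kd_pos (xa ya xb yb xw yw τ : ℝ) (hya : 0 < ya) (hyb : 0 < yb) (hyw : yw < 0)
    (hg : 0 < det3 (xa, ya) (xb, yb) (xw, yw)) (hb : crossAt (xb, yb) (xw, yw) < τ)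
    (ha : τ < crossAt (xa, ya) (xw, yw)) : 0 < det3 (xa, ya) (xb, yb) (τ, 0) := by
  set G := det3 (xa, ya) (xb, yb) (xw, yw) with hG
  set αb := crossAt (xb, yb) (xw, yw) with hαb
  set αa := crossAt (xa, ya) (xw, yw) with hαa
  have hb0 : yw - yb ≠ 0 := by linarith
  have ha0 : yw - ya ≠ 0 := by linarith
  have gb : det3 (xa, ya) (xb, yb) (αb, 0) = yb / (yb - yw) * G := by
    have hb1 : yb - yw ≠ 0 := by linarith
    rw [hαb, hG]
    unfold det3 crossAt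
    simp only
    field_simp
    ring
  have ga : det3 (xa, ya) (xb, yb) (αa, 0) = ya / (ya - yw) * G := by
    have ha1 : ya - yw ≠ 0 := by linarith
    rw [hαa, hG]
    unfold det3 crossAt
    simp only
    field_simp
    ring
  have pb : 0 < det3 (xa, ya) (xb, yb) (αb, 0) := by
    rw [gb]
    exact mul_pos (div_pos hyb (by linarith)) hg
  have pa : 0 < det3 (xa, ya) (xb, yb) (αa, 0) := by
    rw [ga]
    exact mul_pos (div_pos hya (by linarith)) hg
  have key : (αa - αb) * det3 (xa, ya) (xb, yb) (τ, 0) =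
      (αa - τ) * det3 (xa, ya) (xb, yb) (αb, 0) + (τ - αb) * det3 (xa, ya) (xb, yb) (αa, 0) := by
    unfold det3
    simp only
    ring
  have h1 : 0 < (αa - αb) * det3 (xa, ya) (xb, yb) (τ, 0) := by
    rw [key]
    have e1 : 0 < αa - τ := by linarith
    have e2 : 0 < τ - αb := by linarith
    exact add_pos (mul_pos e1 pb) (mul_pos e2 pa)
  exact (mul_pos_iff_of_pos_left (by linarith)).1 h1

/-- the position of the inner vertex -/
private theorem kd_point (Qa Qb Qw : ℝ × ℝ) (τ : ℝ) (hya : 0 < Qa.2) (hyb : 0 < Qb.2)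
    (hyw : Qw.2 < 0) (hg : 0 < det3 Qa Qb Qw) (hb : crossAt Qb Qw < τ)
    (ha : τ < crossAt Qa Qw) :
    ∃ R : ℝ × ℝ, 0 < R.2 ∧ crossAt R Qw = τ ∧ 0 < det3 Qa Qb R := by
  obtain ⟨xa, ya⟩ := Qa
  obtain ⟨xb, yb⟩ := Qb
  obtain ⟨xw, yw⟩ := Qw
  simp only at hya hyb hyw
  have hz := kd_pos xa ya xb yb xw yw τ hya hyb hyw hg hb ha
  set g := det3 (xa, ya) (xb, yb) (τ, 0) with hgdef
  set G := det3 (xa, ya) (xb, yb) (xw, yw) with hG
  set δ := g / G with hδ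
  have hδ0 : 0 < δ := div_pos hz hg
  have hδG : δ * G = g := by
    rw [hδ]
    field_simp
  refine ⟨((1 + δ) * τ - δ * xw, - (δ * yw)), ?_, ?_, ?_⟩
  · show 0 < -(δ * yw)
    have := mul_neg_of_pos_of_neg hδ0 hyw
    linarith
  · unfold crossAt
    simp only
    have h1 : yw - -(δ * yw) = (1 + δ) * yw := by ring
    have h2 : (1 + δ) * yw ≠ 0 := mul_ne_zero (by linarith) (by linarith)
    rw [h1, div_eq_iff h2]
    ring
  · have h1 : det3 (xa, ya) (xb, yb) ((1 + δ) * τ - δ * xw, - (δ * yw)) =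
        (1 + δ) * g - δ * G := by
      rw [hgdef, hG]
      unfold det3
      simp only
      ring
    rw [h1, hδG]
    have : 0 < δ * g := mul_pos hδ0 hz
    linarith

/- Piece KDRAW (P4Flip, uses `det3_apex`, `outer_neg`).  `K4`: faces `(a, b, c)`, `(c, b, w)`, `(a, c, w)`, `(b, a, w)`, the
last one is the outer face, `c` is the inner vertex.  By `T.trans` (`P x y :=` `(x, y)` is one of the twelve
darts between different elements of `a, b, c, w`) these are all faces.  `lab2` for `(w, c, b)` and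
`(w, a, c)`: `A b w < A c w < A a w`.  Given `Q`: `crossAt (Q b) (Q w) = A b w`, `crossAt (Q a) (Q w) = A a w`
(outer vertices), `det3 (Q b) (Q a) (Q w) < 0` (`outer_neg` and rotation).  Let `τ = A c w`,
`z = (τ, 0)`, `P c = z + δ • (z - Q w)`, `P = Q` elsewhere, `δ > 0` small.  `(P c).2 = - δ (Q w).2 > 0`,
`crossAt (P c) (Q w) = τ`.  Faces `(c, b, w)`, `(a, c, w)`: `det3_apex` with apex `w`.  `(a, b, c)`:
`det3 (Q a) (Q b) z > 0`: `det3 (Q a) (Q b) R` is affine in `R`, `0` at `Q a` and `Q b`, positive at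
`Q w`, hence positive at the points `(A b w, 0)` of the segment `Q b, Q w` and `(A a w, 0)` of the
segment `Q a, Q w` (different from `Q b`, `Q a`), and `z` is a convex combination of these two points;
so positive for small `δ` (the expression is `det3 (Q a) (Q b) z + δ * (constant)`: choose
`δ` with `δ * |constant| < det3 (Q a) (Q b) z`). -/
theorem kfour_iv [Finite V] {S : Setup V} (hS : S.Good) (a b c w : V) (hF : S.T.F a b c)
    (hFa : S.T.F c b w) (hFb : S.T.F a c w) (hFc : S.T.F b a w) (ha : S.side a = 1)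
    (hb : S.side b = 1) (hc : S.side c = 1) (hw : S.side w = -1) (ho : S.IsO b a w) :
    S.IV := by
  classical
  have hab : a ≠ b := S.T.ne _ _ _ hF
  have hbc : b ≠ c := S.T.ne _ _ _ (S.T.cyc _ _ _ hF)
  have hca : c ≠ a := S.T.ne _ _ _ (S.T.cyc2 hF)
  have hpm : ∀ x, S.side x = 1 → x ≠ w := by
    rintro x hx rfl
    rw [hx] at hw
    exact absurd hw (by decide)
  have haw := hpm a ha
  have hbw := hpm b hb
  have hcw := hpm c hc
  have hout : S.Outer a ∧ S.Outer b ∧ S.Outer w := by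
    rcases ho with ⟨h1, h2, h3⟩ | ⟨h1, h2, h3⟩ | ⟨h1, h2, h3⟩
    · exact ⟨Or.inr (Or.inl h2), Or.inl h1, Or.inr (Or.inr h3)⟩
    · exact ⟨Or.inr (Or.inr h2), Or.inr (Or.inl h1), Or.inl h3⟩
    · exact ⟨Or.inl h2, Or.inr (Or.inr h1), Or.inr (Or.inl h3)⟩
  have hnc : ¬ S.Outer c := by
    intro h
    rcases ho with ⟨h1, h2, h3⟩ | ⟨h1, h2, h3⟩ | ⟨h1, h2, h3⟩ <;> rcases h with h | h | h <;>
      first
      | exact hbc (h1.trans h.symm)
      | exact hca (h.trans h2.symm)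
      | exact hcw (h.trans h3.symm)
  have hnO : ∀ x y, ¬ S.IsO c x y ∧ ¬ S.IsO x c y ∧ ¬ S.IsO x y c := by
    intro x y
    refine ⟨?_, ?_, ?_⟩ <;> rintro (⟨h1, h2, h3⟩ | ⟨h1, h2, h3⟩ | ⟨h1, h2, h3⟩) <;> apply hnc <;>
      first
      | exact Or.inl h1
      | exact Or.inr (Or.inl h1)
      | exact Or.inr (Or.inr h1)
      | exact Or.inl h2
      | exact Or.inr (Or.inl h2)
      | exact Or.inr (Or.inr h2)
      | exact Or.inl h3
      | exact Or.inr (Or.inl h3)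
      | exact Or.inr (Or.inr h3)
  -- the labels
  have hl1 : S.A b w < S.A c w := hS.lab2 w c b (S.T.cyc2 hFa) (hnO _ _).2.1 hw hc hb
  have hl2 : S.A c w < S.A a w := hS.lab2 w a c (S.T.cyc2 hFb) (hnO _ _).2.2 hw ha hc
  intro Q hQ ε hε
  have sa : 0 < (Q a).2 := by
    have := hQ.sgn a hout.1
    rw [ha] at this
    exact sign_eq_one_iff.1 this
  have sb : 0 < (Q b).2 := by
    have := hQ.sgn b hout.2.1
    rw [hb] at this
    exact sign_eq_one_iff.1 this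
  have sw : (Q w).2 < 0 := by
    have := hQ.sgn w hout.2.2
    rw [hw] at this
    exact sign_eq_neg_one_iff.1 this
  have ca : crossAt (Q a) (Q w) = S.A a w := hQ.cross a w hout.1 hout.2.2 ha hw
  have cb : crossAt (Q b) (Q w) = S.A b w := hQ.cross b w hout.2.1 hout.2.2 hb hw
  have hneg : det3 (Q b) (Q a) (Q w) < 0 := by
    have h1 := outer_neg hS hQ
    rcases ho with ⟨e1, e2, e3⟩ | ⟨e1, e2, e3⟩ | ⟨e1, e2, e3⟩
    · rw [e1, e2, e3]; exact h1
    · rw [e1, e2, e3, det3_rot']; exact h1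
    · rw [e1, e2, e3, det3_rot]; exact h1
  have hg : 0 < det3 (Q a) (Q b) (Q w) := by
    rw [det3_swap]
    linarith
  obtain ⟨R, hR1, hR2, hR3⟩ := kd_point (Q a) (Q b) (Q w) (S.A c w) sa sb sw hg
    (by rw [cb]; exact hl1) (by rw [ca]; exact hl2)
  -- the four faces are all faces
  have hall : ∀ x y z, S.T.F x y z → Cyc3 a b c x y z ∨ Cyc3 c b w x y z ∨ Cyc3 a c w x y z ∨
      Cyc3 b a w x y z := by
    have hRF : ∀ x y z, (Cyc3 a b c x y z ∨ Cyc3 c b w x y z ∨ Cyc3 a c w x y z ∨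
        Cyc3 b a w x y z) → S.T.F x y z := by
      have aux : ∀ p q r, S.T.F p q r → ∀ x y z, Cyc3 p q r x y z → S.T.F x y z := by
        rintro p q r h x y z (⟨rfl, rfl, rfl⟩ | ⟨rfl, rfl, rfl⟩ | ⟨rfl, rfl, rfl⟩)
        · exact h
        · exact S.T.cyc _ _ _ h
        · exact S.T.cyc2 h
      rintro x y z (h | h | h | h)
      · exact aux _ _ _ hF _ _ _ h
      · exact aux _ _ _ hFa _ _ _ h
      · exact aux _ _ _ hFb _ _ _ h
      · exact aux _ _ _ hFc _ _ _ h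
    intro x y z hxyz
    have hP := S.T.trans (fun x y => ∃ z, Cyc3 a b c x y z ∨ Cyc3 c b w x y z ∨
        Cyc3 a c w x y z ∨ Cyc3 b a w x y z) ?_ ?_ a b c x y z hF hxyz
        ⟨c, Or.inl (Or.inl ⟨rfl, rfl, rfl⟩)⟩
    · obtain ⟨z', hz'⟩ := hP
      have := S.T.uniq _ _ _ _ hxyz (hRF _ _ _ hz')
      rw [this]
      exact hz'
    · rintro x y z hxyz ⟨z', hz'⟩
      have := S.T.uniq _ _ _ _ hxyz (hRF _ _ _ hz')
      subst this
      refine ⟨x, ?_⟩
      have rot : ∀ p q r, Cyc3 p q r x y z → Cyc3 p q r y z x := by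
        rintro p q r (⟨h1, h2, h3⟩ | ⟨h1, h2, h3⟩ | ⟨h1, h2, h3⟩)
        · exact Or.inr (Or.inl ⟨h2, h3, h1⟩)
        · exact Or.inr (Or.inr ⟨h2, h3, h1⟩)
        · exact Or.inl ⟨h2, h3, h1⟩
      rcases hz' with h | h | h | h
      · exact Or.inl (rot _ _ _ h)
      · exact Or.inr (Or.inl (rot _ _ _ h))
      · exact Or.inr (Or.inr (Or.inl (rot _ _ _ h)))
      · exact Or.inr (Or.inr (Or.inr (rot _ _ _ h)))
    · rintro x y z - ⟨z', (⟨rfl, rfl, rfl⟩ | ⟨rfl, rfl, rfl⟩ | ⟨rfl, rfl, rfl⟩) |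
        (⟨rfl, rfl, rfl⟩ | ⟨rfl, rfl, rfl⟩ | ⟨rfl, rfl, rfl⟩) |
        (⟨rfl, rfl, rfl⟩ | ⟨rfl, rfl, rfl⟩ | ⟨rfl, rfl, rfl⟩) |
        (⟨rfl, rfl, rfl⟩ | ⟨rfl, rfl, rfl⟩ | ⟨rfl, rfl, rfl⟩)⟩
      all_goals
        first
        | exact ⟨_, Or.inl (Or.inl ⟨rfl, rfl, rfl⟩)⟩
        | exact ⟨_, Or.inl (Or.inr (Or.inl ⟨rfl, rfl, rfl⟩))⟩
        | exact ⟨_, Or.inl (Or.inr (Or.inr ⟨rfl, rfl, rfl⟩))⟩
        | exact ⟨_, Or.inr (Or.inl (Or.inl ⟨rfl, rfl, rfl⟩))⟩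
        | exact ⟨_, Or.inr (Or.inl (Or.inr (Or.inl ⟨rfl, rfl, rfl⟩)))⟩
        | exact ⟨_, Or.inr (Or.inl (Or.inr (Or.inr ⟨rfl, rfl, rfl⟩)))⟩
        | exact ⟨_, Or.inr (Or.inr (Or.inl (Or.inl ⟨rfl, rfl, rfl⟩)))⟩
        | exact ⟨_, Or.inr (Or.inr (Or.inl (Or.inr (Or.inl ⟨rfl, rfl, rfl⟩))))⟩
        | exact ⟨_, Or.inr (Or.inr (Or.inl (Or.inr (Or.inr ⟨rfl, rfl, rfl⟩))))⟩
        | exact ⟨_, Or.inr (Or.inr (Or.inr (Or.inl ⟨rfl, rfl, rfl⟩)))⟩
        | exact ⟨_, Or.inr (Or.inr (Or.inr (Or.inr (Or.inl ⟨rfl, rfl, rfl⟩))))⟩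
        | exact ⟨_, Or.inr (Or.inr (Or.inr (Or.inr (Or.inr ⟨rfl, rfl, rfl⟩))))⟩
  -- the drawing
  have hmem : ∀ v, S.T.Supp v → v = a ∨ v = b ∨ v = c ∨ v = w := by
    rintro v ⟨y, z, hv⟩
    rcases hall _ _ _ hv with (⟨h, _, _⟩ | ⟨h, _, _⟩ | ⟨h, _, _⟩) |
      (⟨h, _, _⟩ | ⟨h, _, _⟩ | ⟨h, _, _⟩) | (⟨h, _, _⟩ | ⟨h, _, _⟩ | ⟨h, _, _⟩) |
      (⟨h, _, _⟩ | ⟨h, _, _⟩ | ⟨h, _, _⟩) <;> simp only [h, true_or, or_true]
  set P : V → ℝ × ℝ := fun v => if v = c then R else Q v with hP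
  have Pc : P c = R := if_pos rfl
  have Pn : ∀ v, v ≠ c → P v = Q v := fun v hv => if_neg hv
  have Pa : P a = Q a := Pn a hca.symm
  have Pb : P b = Q b := Pn b hbc
  have Pw : P w = Q w := Pn w hcw.symm
  have d1 : 0 < det3 (P a) (P b) (P c) := by rw [Pa, Pb, Pc]; exact hR3
  have d2 : 0 < det3 (P c) (P b) (P w) := by
    rw [Pc, Pb, Pw, det3_rot']
    obtain ⟨K, hK, he⟩ := det3_apex (Q w) R (Q b) (mul_neg_of_neg_of_pos sw hR1)
      (mul_neg_of_neg_of_pos sw sb)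
    rw [he, crossAt_comm (Q w) (Q b), crossAt_comm (Q w) R, cb, hR2]
    exact mul_pos hK (mul_pos_of_neg_of_neg sw (by linarith))
  have d3 : 0 < det3 (P a) (P c) (P w) := by
    rw [Pc, Pa, Pw, det3_rot']
    obtain ⟨K, hK, he⟩ := det3_apex (Q w) (Q a) R (mul_neg_of_neg_of_pos sw sa)
      (mul_neg_of_neg_of_pos sw hR1)
    rw [he, crossAt_comm (Q w) (Q a), crossAt_comm (Q w) R, ca, hR2]
    exact mul_pos hK (mul_pos_of_neg_of_neg sw (by linarith))
  have hcyc : ∀ p q r x y z, Cyc3 p q r x y z → 0 < det3 (P p) (P q) (P r) →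
      0 < det3 (P x) (P y) (P z) := by
    rintro p q r x y z (⟨rfl, rfl, rfl⟩ | ⟨rfl, rfl, rfl⟩ | ⟨rfl, rfl, rfl⟩) hd
    · exact hd
    · rw [← det3_rot]; exact hd
    · rw [← det3_rot']; exact hd
  refine ⟨P, ?_, ⟨?_, ?_, ?_, ?_⟩⟩
  · intro v hv
    exact Pn v (fun h => hnc (h ▸ hv))
  · intro x y z hxyz hnO'
    rcases hall _ _ _ hxyz with h | h | h | h
    · exact hcyc _ _ _ _ _ _ h d1
    · exact hcyc _ _ _ _ _ _ h d2
    · exact hcyc _ _ _ _ _ _ h d3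
    · exfalso
      apply hnO'
      rcases h with ⟨rfl, rfl, rfl⟩ | ⟨rfl, rfl, rfl⟩ | ⟨rfl, rfl, rfl⟩
      · exact ho
      · exact ho.rot
      · exact ho.rot.rot
  · intro v hv
    rcases hmem v hv with rfl | rfl | rfl | rfl
    · rw [Pa]; exact hQ.sgn _ hout.1
    · rw [Pb]; exact hQ.sgn _ hout.2.1
    · rw [Pc, hc, sign_pos hR1]
    · rw [Pw]; exact hQ.sgn _ hout.2.2
  · intro v hv h0
    exfalso
    rcases hmem v hv with rfl | rfl | rfl | rfl
    · rw [ha] at h0; exact absurd h0 (by decide)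
    · rw [hb] at h0; exact absurd h0 (by decide)
    · rw [hc] at h0; exact absurd h0 (by decide)
    · rw [hw] at h0; exact absurd h0 (by decide)
  · intro u x hux hu hx
    have hxw : x = w := by
      rcases hmem x hux.symm.supp with rfl | rfl | rfl | rfl
      · rw [ha] at hx; exact absurd hx (by decide)
      · rw [hb] at hx; exact absurd hx (by decide)
      · rw [hc] at hx; exact absurd hx (by decide)
      · rfl
    subst hxw
    have : crossAt (P u) (P x) = S.A u x := by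
      rcases hmem u hux.supp with rfl | rfl | rfl | rfl
      · rw [Pa, Pw]; exact ca
      · rw [Pb, Pw]; exact cb
      · rw [Pc, Pw]; exact hR2
      · rw [hu] at hw; exact absurd hw (by decide)
    rw [this, sub_self, abs_zero]
    exact hε

end Setup

end P4
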