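import Pool.Agent.Lib_MP_b306af.P4Defs

/-! # MP_b306af Part IV: P4Kfour -/

namespace P4

variable {V : Type}

namespace Setup

/- Piece KFOUR (P4Flip).  No flip possible: then the graph is `K4`.  All triangles of edges are faces.
`Adj a wa`: the triangle `a, b, wa` is a face: `T.F a b wa` is impossible (`T.uniq` with `(a, b, c)`), so
`T.F b a wa`, `wa = wc`; the triangle `a, c, wa`: `T.F c a wa` is impossible (`(c, a, b)`), so
`T.F a c wa`, `wa = wb`. -/
theorem kfour_struct (T : Tri V) (a b c wa wb wc : V) (hF : T.F a b c) (hFa : T.F c b wa)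
    (hFb : T.F a c wb) (hFc : T.F b a wc) (hba : wa ≠ b) (hca : wa ≠ c)
    (hall : ∀ x y z, T.Adj x y → T.Adj y z → T.Adj z x → T.F x y z ∨ T.F y x z)
    (hadj : T.Adj a wa) : wa = wb ∧ wa = wc := by
  have hab : T.Adj a b := ⟨c, hF⟩
  have hbw : T.Adj b wa := ⟨c, T.cyc _ _ _ hFa⟩
  have hwc : T.Adj wa c := ⟨b, T.cyc2 hFa⟩
  have hca' : T.Adj c a := ⟨b, T.cyc2 hF⟩
  have hwa : T.Adj wa a := hadj.symm
  constructor
  · rcases hall a c wa hca'.symm hwc.symm hwa with h | h
    · exact T.uniq _ _ _ _ h hFb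
    · exact absurd (T.uniq _ _ _ _ h (T.cyc2 hF)) hba
  · rcases hall a b wa hab hbw hwa with h | h
    · exact absurd (T.uniq _ _ _ _ h hF) hca
    · exact T.uniq _ _ _ _ h hFc

end Setup

end P4
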