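import Pool.Agent.Lib_MP_b306af.P4Defs

/-! # MP_b306af Part IV: P4Kout -/

namespace P4

variable {V : Type}

namespace Setup

/- Piece KOUT (P4Flip).  `K4`: the outer face is one of the four faces.  `P x y :=` `x ≠ y` and
`x, y ∈ {a, b, c, w}`.  It is closed: for `T.F x y z`, `(x, y)` is one of the twelve darts, each of which
lies in one of the four faces, so `z ∈ {a, b, c, w}` by `T.uniq` (and `y ≠ z`).  By `T.trans` it holds
for `(o1, o2)`, hence `(o1, o2, o3)` is a rotation of one of the four faces (`T.uniq`).  It is not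
`(a, b, c)` because the outer face has a vertex with side `-1`. -/
theorem kfour_outer {S : Setup V} (hS : S.Good) (a b c w : V) (hF : S.T.F a b c)
    (hFa : S.T.F c b w) (hFb : S.T.F a c w) (hFc : S.T.F b a w) (ha : S.side a = 1)
    (hb : S.side b = 1) (hc : S.side c = 1) (hw : S.side w = -1) :
    S.IsO c b w ∨ S.IsO a c w ∨ S.IsO b a w := by
  obtain ⟨P, hP⟩ : ∃ P : V → V → Prop, P = fun x y =>
      (x = a ∧ y = b) ∨ (x = b ∧ y = c) ∨ (x = c ∧ y = a) ∨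
      (x = c ∧ y = b) ∨ (x = b ∧ y = w) ∨ (x = w ∧ y = c) ∨
      (x = a ∧ y = c) ∨ (x = c ∧ y = w) ∨ (x = w ∧ y = a) ∨
      (x = b ∧ y = a) ∨ (x = a ∧ y = w) ∨ (x = w ∧ y = b) := ⟨_, rfl⟩
  have h1 : ∀ x y z, S.T.F x y z → P x y → P y z := by
    intro x y z hx hxy
    rw [hP] at hxy ⊢
    rcases hxy with ⟨rfl, rfl⟩ | ⟨rfl, rfl⟩ | ⟨rfl, rfl⟩ | ⟨rfl, rfl⟩ | ⟨rfl, rfl⟩ | ⟨rfl, rfl⟩ |
      ⟨rfl, rfl⟩ | ⟨rfl, rfl⟩ | ⟨rfl, rfl⟩ | ⟨rfl, rfl⟩ | ⟨rfl, rfl⟩ | ⟨rfl, rfl⟩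
    · have := S.T.uniq _ _ _ _ hF hx; subst this; simp
    · have := S.T.uniq _ _ _ _ (S.T.cyc _ _ _ hF) hx; subst this; simp
    · have := S.T.uniq _ _ _ _ (S.T.cyc2 hF) hx; subst this; simp
    · have := S.T.uniq _ _ _ _ hFa hx; subst this; simp
    · have := S.T.uniq _ _ _ _ (S.T.cyc _ _ _ hFa) hx; subst this; simp
    · have := S.T.uniq _ _ _ _ (S.T.cyc2 hFa) hx; subst this; simp
    · have := S.T.uniq _ _ _ _ hFb hx; subst this; simp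
    · have := S.T.uniq _ _ _ _ (S.T.cyc _ _ _ hFb) hx; subst this; simp
    · have := S.T.uniq _ _ _ _ (S.T.cyc2 hFb) hx; subst this; simp
    · have := S.T.uniq _ _ _ _ hFc hx; subst this; simp
    · have := S.T.uniq _ _ _ _ (S.T.cyc _ _ _ hFc) hx; subst this; simp
    · have := S.T.uniq _ _ _ _ (S.T.cyc2 hFc) hx; subst this; simp
  have h2 : ∀ x y z, S.T.F x y z → P x y → P y x := by
    intro x y z _ hxy
    rw [hP] at hxy ⊢
    tauto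
  have h3 : P S.o1 S.o2 := by
    refine S.T.trans P h1 h2 a b c _ _ _ hF hS.h0 ?_
    rw [hP]
    simp
  obtain ⟨v, hv, hv1⟩ := hS.minus0
  have hne : (1 : SignType) ≠ -1 := by decide
  rw [hP] at h3
  unfold IsO Cyc3
  unfold Outer at hv
  rcases h3 with ⟨e1, e2⟩ | ⟨e1, e2⟩ | ⟨e1, e2⟩ | ⟨e1, e2⟩ | ⟨e1, e2⟩ | ⟨e1, e2⟩ |
      ⟨e1, e2⟩ | ⟨e1, e2⟩ | ⟨e1, e2⟩ | ⟨e1, e2⟩ | ⟨e1, e2⟩ | ⟨e1, e2⟩
  · have e3 : c = S.o3 := S.T.uniq a b _ _ hF (by rw [← e1, ← e2]; exact hS.h0)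
    rcases hv with h | h | h
    · rw [h, e1, ha] at hv1; exact absurd hv1 hne
    · rw [h, e2, hb] at hv1; exact absurd hv1 hne
    · rw [h, ← e3, hc] at hv1; exact absurd hv1 hne
  · have e3 : a = S.o3 := S.T.uniq b c _ _ (S.T.cyc _ _ _ hF) (by rw [← e1, ← e2]; exact hS.h0)
    rcases hv with h | h | h
    · rw [h, e1, hb] at hv1; exact absurd hv1 hne
    · rw [h, e2, hc] at hv1; exact absurd hv1 hne
    · rw [h, ← e3, ha] at hv1; exact absurd hv1 hne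
  · have e3 : b = S.o3 := S.T.uniq c a _ _ (S.T.cyc2 hF) (by rw [← e1, ← e2]; exact hS.h0)
    rcases hv with h | h | h
    · rw [h, e1, hc] at hv1; exact absurd hv1 hne
    · rw [h, e2, ha] at hv1; exact absurd hv1 hne
    · rw [h, ← e3, hb] at hv1; exact absurd hv1 hne
  · have e3 : w = S.o3 := S.T.uniq c b _ _ hFa (by rw [← e1, ← e2]; exact hS.h0)
    exact Or.inl (Or.inl ⟨e1.symm, e2.symm, e3⟩)
  · have e3 : c = S.o3 := S.T.uniq b w _ _ (S.T.cyc _ _ _ hFa) (by rw [← e1, ← e2]; exact hS.h0)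
    exact Or.inl (Or.inr (Or.inr ⟨e3, e1.symm, e2.symm⟩))
  · have e3 : b = S.o3 := S.T.uniq w c _ _ (S.T.cyc2 hFa) (by rw [← e1, ← e2]; exact hS.h0)
    exact Or.inl (Or.inr (Or.inl ⟨e2.symm, e3, e1.symm⟩))
  · have e3 : w = S.o3 := S.T.uniq a c _ _ hFb (by rw [← e1, ← e2]; exact hS.h0)
    exact Or.inr (Or.inl (Or.inl ⟨e1.symm, e2.symm, e3⟩))
  · have e3 : a = S.o3 := S.T.uniq c w _ _ (S.T.cyc _ _ _ hFb) (by rw [← e1, ← e2]; exact hS.h0)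
    exact Or.inr (Or.inl (Or.inr (Or.inr ⟨e3, e1.symm, e2.symm⟩)))
  · have e3 : c = S.o3 := S.T.uniq w a _ _ (S.T.cyc2 hFb) (by rw [← e1, ← e2]; exact hS.h0)
    exact Or.inr (Or.inl (Or.inr (Or.inl ⟨e2.symm, e3, e1.symm⟩)))
  · have e3 : w = S.o3 := S.T.uniq b a _ _ hFc (by rw [← e1, ← e2]; exact hS.h0)
    exact Or.inr (Or.inr (Or.inl ⟨e1.symm, e2.symm, e3⟩))
  · have e3 : b = S.o3 := S.T.uniq a w _ _ (S.T.cyc _ _ _ hFc) (by rw [← e1, ← e2]; exact hS.h0)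
    exact Or.inr (Or.inr (Or.inr (Or.inr ⟨e3, e1.symm, e2.symm⟩)))
  · have e3 : a = S.o3 := S.T.uniq w b _ _ (S.T.cyc2 hFc) (by rw [← e1, ← e2]; exact hS.h0)
    exact Or.inr (Or.inr (Or.inr (Or.inl ⟨e2.symm, e3, e1.symm⟩)))

end Setup

end P4
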