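import Pool.Agent.Lib_MP_b306af.P4Defs

/-! # MP_b306af Part IV: P4Labopen -/

namespace P4

variable {V : Type}

namespace Setup

private theorem labopen_aux {ι : Type*} [Finite ι] (P : ι → Prop) (D : ι → ℝ)
    (h : ∀ i, P i → 0 < D i) : ∃ δ : ℝ, 0 < δ ∧ ∀ i, P i → 2 * δ ≤ D i := by
  have h1 : ∀ᶠ δ in nhdsWithin (0 : ℝ) (Set.Ioi 0), ∀ i, P i → 2 * δ ≤ D i := by
    rw [Filter.eventually_all]
    intro i
    by_cases hi : P i
    · have h2 : ∀ᶠ δ in nhds (0 : ℝ), δ < D i / 2 := eventually_lt_nhds (by have := h i hi; linarith)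
      filter_upwards [nhdsWithin_le_nhds h2] with δ hδ _
      linarith
    · exact Filter.Eventually.of_forall fun δ hh => absurd hh hi
  obtain ⟨δ, h3, h4⟩ := (h1.and self_mem_nhdsWithin).exists
  exact ⟨δ, h4, h3⟩

/- Piece LABOPEN (P4Split).  The conditions on the labels are finitely many strict inequalities.
For each of the finitely many triples `(x, y, z)` and each of the four rules for which the hypotheses
hold, the difference of the two sides is positive; let `δ > 0` be a third of the minimum of `1` and all these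
differences (`Finite`, e.g. `Set.Finite.exists_...` / `Finset.exists_min_image` / iterate
`eventually_all` in the filter `𝓝[>] 0`: for each triple and rule, eventually `2 δ < difference`). -/
theorem good_open [Finite V] {S : Setup V} (hS : S.Good) :
    ∃ δ : ℝ, 0 < δ ∧ ∀ A : V → V → ℝ, (∀ u w, |A u w - S.A u w| < δ) →
      ({ S with A := A } : Setup V).Good := by
  obtain ⟨δ1, p1, h1⟩ := labopen_aux (ι := V × V × V)
    (fun t => S.T.F t.1 t.2.1 t.2.2 ∧ ¬ S.IsO t.1 t.2.1 t.2.2 ∧ S.side t.1 = 1 ∧ S.side t.2.1 = -1 ∧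
      S.side t.2.2 = -1) (fun t => S.A t.1 t.2.2 - S.A t.1 t.2.1)
    (fun t ht => sub_pos.2 (hS.lab1 _ _ _ ht.1 ht.2.1 ht.2.2.1 ht.2.2.2.1 ht.2.2.2.2))
  obtain ⟨δ2, p2, h2⟩ := labopen_aux (ι := V × V × V)
    (fun t => S.T.F t.1 t.2.1 t.2.2 ∧ ¬ S.IsO t.1 t.2.1 t.2.2 ∧ S.side t.1 = -1 ∧ S.side t.2.1 = 1 ∧
      S.side t.2.2 = 1) (fun t => S.A t.2.1 t.1 - S.A t.2.2 t.1)
    (fun t ht => sub_pos.2 (hS.lab2 _ _ _ ht.1 ht.2.1 ht.2.2.1 ht.2.2.2.1 ht.2.2.2.2))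
  obtain ⟨δ3, p3, h3⟩ := labopen_aux (ι := V × V × V)
    (fun t => S.T.F t.1 t.2.1 t.2.2 ∧ ¬ S.IsO t.1 t.2.1 t.2.2 ∧ S.side t.1 = 1 ∧ S.side t.2.1 = -1 ∧
      S.side t.2.2 = 0) (fun t => S.X t.2.2 - S.A t.1 t.2.1)
    (fun t ht => sub_pos.2 (hS.lab3 _ _ _ ht.1 ht.2.1 ht.2.2.1 ht.2.2.2.1 ht.2.2.2.2))
  obtain ⟨δ4, p4, h4⟩ := labopen_aux (ι := V × V × V)
    (fun t => S.T.F t.1 t.2.1 t.2.2 ∧ ¬ S.IsO t.1 t.2.1 t.2.2 ∧ S.side t.1 = -1 ∧ S.side t.2.1 = 1 ∧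
      S.side t.2.2 = 0) (fun t => S.A t.2.1 t.1 - S.X t.2.2)
    (fun t ht => sub_pos.2 (hS.lab4 _ _ _ ht.1 ht.2.1 ht.2.2.1 ht.2.2.2.1 ht.2.2.2.2))
  refine ⟨min (min δ1 δ2) (min δ3 δ4), lt_min (lt_min p1 p2) (lt_min p3 p4), fun A hA => ?_⟩
  have hA' : ∀ u w, |A u w - S.A u w| < δ1 ∧ |A u w - S.A u w| < δ2 ∧ |A u w - S.A u w| < δ3 ∧
      |A u w - S.A u w| < δ4 := by
    intro u w
    have := hA u w
    simp only [lt_min_iff] at this
    exact ⟨this.1.1, this.1.2, this.2.1, this.2.2⟩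
  refine ⟨hS.h0, hS.plus0, hS.minus0, hS.indep, hS.conn, hS.nbr, ?_, ?_, ?_, ?_⟩
  · intro u w w' hF hO a b c
    have e := h1 (u, w, w') ⟨hF, hO, a, b, c⟩
    have e1 := abs_lt.1 (hA' u w).1
    have e2 := abs_lt.1 (hA' u w').1
    simp only at e ⊢
    linarith [e1.1, e1.2, e2.1, e2.2]
  · intro w u' u hF hO a b c
    have e := h2 (w, u', u) ⟨hF, hO, a, b, c⟩
    have e1 := abs_lt.1 (hA' u w).2.1
    have e2 := abs_lt.1 (hA' u' w).2.1
    simp only at e ⊢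
    linarith [e1.1, e1.2, e2.1, e2.2]
  · intro u w s hF hO a b c
    have e := h3 (u, w, s) ⟨hF, hO, a, b, c⟩
    have e1 := abs_lt.1 (hA' u w).2.2.1
    simp only at e ⊢
    linarith [e1.1, e1.2]
  · intro w u s hF hO a b c
    have e := h4 (w, u, s) ⟨hF, hO, a, b, c⟩
    have e1 := abs_lt.1 (hA' u w).2.2.2
    simp only at e ⊢
    linarith [e1.1, e1.2]

end Setup

end P4
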