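import Pool.Agent.Lib_MP_b306af.P4ZBond2

/-! # MP_b306af Part IV: P4Labs -/

namespace P4

variable {V : Type}

namespace Setup

variable {S : Setup V}

/- Piece LABS (P4Bond).  One step along the bond.  Let `(u, c) = e r`, `x = nx u c`,
`S.T.F u c x`, not the outer face (`E.nouter`; `IsO` is invariant under rotation).
`side u = 1`, `side c ∈ {-1, 0}`.
If `side x = 1`: `e (r + 1) = (x, c)`.  If `side c = -1`: `S.T.F c x u` and `lab2` give
`A u c < A x c`, strict.  If `side c = 0`: both labels are `X c`, and we are in the excluded case.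
If `side x ≠ 1`: `e (r + 1) = (u, x)`.  `(side c, side x)`: `(-1, -1)` use `lab1`; `(-1, 0)` use `lab3`;
`(0, -1)` use `lab4` on `S.T.F x u c`; `(0, 0)` is impossible by `indep`. -/
private theorem labs_sign : ∀ s : SignType, s ≠ 1 → s = 0 ∨ s = -1 := by decide

private theorem labs_rot {a b c : V} (h : ¬ S.IsO a b c) : ¬ S.IsO b c a := by
  rintro (⟨h1, h2, h3⟩ | ⟨h1, h2, h3⟩ | ⟨h1, h2, h3⟩)
  · exact h (Or.inr (Or.inr ⟨h3, h1, h2⟩))
  · exact h (Or.inl ⟨h3, h1, h2⟩)
  · exact h (Or.inr (Or.inl ⟨h3, h1, h2⟩))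

theorem BondSeq.lab_step (hS : S.Good) (E : S.BondSeq) (r : ℕ) (hr : r + 1 < E.m) :
    S.tO (E.e r) ≤ S.tO (E.e (r + 1)) ∧
      (¬ (S.side (E.e r).2 = 0 ∧ S.side (S.T.nx (E.e r).1 (E.e r).2) = 1) →
        S.tO (E.e r) < S.tO (E.e (r + 1))) := by
  have hb := E.bond r
  have hno := E.nouter r hr
  rw [E.step r]
  generalize E.e r = p at hb hno ⊢
  obtain ⟨u, c⟩ := p
  obtain ⟨h1, h2, h3⟩ := hb
  dsimp only at h1 h2 h3 hno
  have hF := S.T.F_nx h1
  set x := S.T.nx u c with hx
  have hF1 : S.T.F c x u := S.T.cyc _ _ _ hF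
  have hF2 : S.T.F x u c := S.T.cyc2 hF
  have hno1 : ¬ S.IsO c x u := labs_rot hno
  have hno2 : ¬ S.IsO x u c := labs_rot hno1
  have hneg : (-1 : SignType) ≠ 0 := by decide
  by_cases h4 : S.side x = 1
  · have hs : S.succ (u, c) = (x, c) := by
      unfold succ
      rw [if_pos]
      exact h4
    rw [hs]
    rcases labs_sign _ h3 with h5 | h5
    · have e1 : S.tO (u, c) = S.X c := if_pos h5
      have e2 : S.tO (x, c) = S.X c := if_pos h5
      rw [e1, e2]
      exact ⟨le_rfl, fun h6 => absurd ⟨h5, h4⟩ h6⟩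
    · have h6 : S.side c ≠ 0 := by rw [h5]; exact hneg
      have e1 : S.tO (u, c) = S.A u c := if_neg h6
      have e2 : S.tO (x, c) = S.A x c := if_neg h6
      rw [e1, e2]
      have h7 := hS.lab2 c x u hF1 hno1 h5 h4 h2
      exact ⟨h7.le, fun _ => h7⟩
  · have hs : S.succ (u, c) = (u, x) := by
      unfold succ
      rw [if_neg]
      exact h4
    rw [hs]
    have key : S.tO (u, c) < S.tO (u, x) := by
      rcases labs_sign _ h3 with h5 | h5 <;> rcases labs_sign _ h4 with h6 | h6
      · exact absurd h6 (hS.indep c x u hF1 h5)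
      · have h7 : S.side x ≠ 0 := by rw [h6]; exact hneg
        have e1 : S.tO (u, c) = S.X c := if_pos h5
        have e2 : S.tO (u, x) = S.A u x := if_neg h7
        rw [e1, e2]
        exact hS.lab4 x u c hF2 hno2 h6 h2 h5
      · have h7 : S.side c ≠ 0 := by rw [h5]; exact hneg
        have e1 : S.tO (u, c) = S.A u c := if_neg h7
        have e2 : S.tO (u, x) = S.X x := if_pos h6
        rw [e1, e2]
        exact hS.lab3 u c x hF hno h2 h5 h6
      · have h7 : S.side c ≠ 0 := by rw [h5]; exact hneg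
        have h8 : S.side x ≠ 0 := by rw [h6]; exact hneg
        have e1 : S.tO (u, c) = S.A u c := if_neg h7
        have e2 : S.tO (u, x) = S.A u x := if_neg h8
        rw [e1, e2]
        exact hS.lab1 u c x hF hno h2 h5 h6
    exact ⟨key.le, fun _ => key⟩

end Setup

end P4
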