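import Pool.Agent.Lib_MP_b306af.P4ZLab1

/-! # MP_b306af Part IV: P4Lbtr -/

namespace P4

variable {V : Type}

namespace Setup

open Classical in
/-- the previous bond edge -/
private noncomputable def btrPred0 (S : Setup V) (f : V × V) : V × V :=
  if S.side (S.T.nx f.2 f.1) = 1 then (S.T.nx f.2 f.1, f.2) else (f.1, S.T.nx f.2 f.1)

private theorem btrPred0_succ (S : Setup V) {e : V × V} (he : S.IsBond e) :
    btrPred0 S (S.succ e) = e := by
  obtain ⟨h1, h2, h3⟩ := he
  have hF := S.T.F_nx h1
  unfold succ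
  split_ifs with h
  · have hn : S.T.nx e.2 (S.T.nx e.1 e.2) = e.1 := S.T.nx_eq (S.T.cyc _ _ _ hF)
    unfold btrPred0
    simp only [hn]
    rw [if_pos h2]
  · have hn : S.T.nx (S.T.nx e.1 e.2) e.1 = e.2 := S.T.nx_eq (S.T.cyc2 hF)
    unfold btrPred0
    simp only [hn]
    rw [if_neg h3]

private theorem btr_back0 [Finite V] (S : Setup V) (R : V × V → Prop)
    (hR : ∀ e, S.IsBond e → R e → R (S.succ e)) {e : V × V} (he : S.IsBond e)
    (hr : R (S.succ e)) : R e := by
  obtain ⟨B, hB⟩ : ∃ B : Set (V × V), B = {e | S.IsBond e ∧ R e} := ⟨_, rfl⟩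
  have hmaps : Set.MapsTo S.succ B B := by
    intro x hx
    rw [hB] at hx ⊢
    exact ⟨S.succ_bond hx.1, hR x hx.1 hx.2⟩
  have hinj : Set.InjOn S.succ B := by
    intro x hx y hy hxy
    rw [hB] at hx hy
    rw [← btrPred0_succ S hx.1, ← btrPred0_succ S hy.1, hxy]
  have hfin : B.Finite := Set.toFinite B
  have hsurj : Set.SurjOn S.succ B B := by
    have := (hfin.injOn_iff_bijOn_of_mapsTo hmaps).1 hinj
    exact this.surjOn
  have hmem : S.succ e ∈ B := by
    rw [hB]
    exact ⟨S.succ_bond he, hr⟩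
  obtain ⟨x, hx, hxe⟩ := hsurj hmem
  rw [hB] at hx
  have : x = e := by
    rw [← btrPred0_succ S hx.1, ← btrPred0_succ S he, hxe]
  rw [← this]
  exact hx.2

/- Piece BTR (P4Bond).  The bond is one cycle.
(1) `succ` is injective on bond edges: let `succ e = succ e' = (u, c)`.  The up-dart `c u` lies in
the left face of `e` and in the left face of `e'` (case distinction in the definition of `succ`,
using `T.F_nx` and `T.cyc`), so both faces are `T.F c u y` with the same `y` (`T.uniq`).  If
`side y = 1` then `e = e' = (y, c)`, else `e = e' = (u, y)` (again by cases: in the first case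
of the definition `e = (a, c)`, `u = nx a c`, `T.F a c u`, so `T.F c u a`, `y = a`, `side a = 1`; in
the second case `e = (u, b)`, `c = nx u b`, `T.F u b c`, so `T.F c u b`, `y = b`, `side b ≠ 1`).
(2) `B = {e | IsBond e ∧ R e}` is finite, `succ` maps it injectively into itself, hence onto
itself; with (1), for a bond edge `e`, `R (succ e)` implies `R e`.
(3) Let `κ x y = [IsBond (x, y) ∧ R (x, y)] - [IsBond (y, x) ∧ R (y, x)]` (Iverson brackets).  It is
antisymmetric.  Its sum over a face `T.F a b c` is `0`: if the three vertices are all above or all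
not above, every term is `0`.  Otherwise rotate so that `a` is above and `b` is not (then `e = (a, b)`
is a bond edge).  If `c` is above, the sum is `[R (a, b)] - [R (c, b)]` and
`succ (a, b) = (c, b)`; if not it is `[R (a, b)] - [R (a, c)]` and `succ (a, b) = (a, c)`.  Both are
`0` by (2) and the hypothesis.
(4) `T.exact` gives `h` with `κ x y = h y - h x` on darts.  `h` is constant on the vertices above
(`hS.conn 1` with `P v := h v = h e.1`) and constant on the vertices not above (`hS.conn (-1)`, and a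
vertex `s` on the axis has a neighbour `x` with `side x = -1` (`hS.nbr (-1)`), `κ s x = 0`, so
`h s = h x`).  So `[R e] = κ e.1 e.2 = h e.2 - h e.1` is the same for all bond edges. -/
theorem bond_trans0 [Finite V] (S : Setup V) (hS : S.Pre0) (R : V × V → Prop)
    (hR : ∀ e, S.IsBond e → R e → R (S.succ e)) :
    ∀ e e', S.IsBond e → S.IsBond e' → R e → R e' := by
  classical
  obtain ⟨g, hg⟩ : ∃ g : V → V → ℝ, g = fun x y =>
    if S.IsBond (x, y) ∧ R (x, y) then (1 : ℝ) else 0 := ⟨_, rfl⟩
  have g0l : ∀ x y, S.side x ≠ 1 → g x y = 0 := by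
    intro x y h
    rw [hg]
    simp only
    rw [if_neg]
    rintro ⟨⟨_, h1, _⟩, _⟩
    exact h h1
  have g0r : ∀ x y, S.side y = 1 → g x y = 0 := by
    intro x y h
    rw [hg]
    simp only
    rw [if_neg]
    rintro ⟨⟨_, _, h1⟩, _⟩
    exact h1 h
  have gcong : ∀ x y x' y', S.IsBond (x, y) → S.IsBond (x', y') → (R (x, y) ↔ R (x', y')) →
      g x y = g x' y' := by
    intro x y x' y' h h' hiff
    rw [hg]
    simp only [h, h', hiff, true_and]
  have hface1 : ∀ a b c, S.T.F a b c → S.side a = 1 → S.side b ≠ 1 →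
      (g a b - g b a) + (g b c - g c b) + (g c a - g a c) = 0 := by
    intro a b c hF ha hb
    have hbond : S.IsBond (a, b) := ⟨⟨c, hF⟩, ha, hb⟩
    have hnx : S.T.nx a b = c := S.T.nx_eq hF
    have hiff : R (a, b) ↔ R (S.succ (a, b)) :=
      ⟨fun h => hR _ hbond h, fun h => btr_back0 S R hR hbond h⟩
    have hsb := S.succ_bond hbond
    by_cases hc : S.side c = 1
    · have hs : S.succ (a, b) = (c, b) := by
        unfold succ
        simp only [hnx]
        rw [if_pos hc]
      rw [hs] at hiff hsb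
      rw [gcong a b c b hbond hsb hiff, g0l b a hb, g0l b c hb, g0r c a ha, g0r a c hc]
      ring
    · have hs : S.succ (a, b) = (a, c) := by
        unfold succ
        simp only [hnx]
        rw [if_neg hc]
      rw [hs] at hiff hsb
      rw [gcong a b a c hbond hsb hiff, g0l b a hb, g0l b c hb, g0l c b hc, g0l c a hc]
      ring
  have hsame : ∀ a b, (S.side a = 1 ↔ S.side b = 1) → g a b = 0 := by
    intro a b h
    by_cases ha : S.side a = 1
    · exact g0r a b (h.1 ha)
    · exact g0l a b ha
  have hface : ∀ a b c, S.T.F a b c →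
      (g a b - g b a) + (g b c - g c b) + (g c a - g a c) = 0 := by
    intro a b c hF
    by_cases h1 : S.side a = 1 ∧ S.side b ≠ 1
    · exact hface1 a b c hF h1.1 h1.2
    by_cases h2 : S.side b = 1 ∧ S.side c ≠ 1
    · have := hface1 b c a (S.T.cyc _ _ _ hF) h2.1 h2.2
      linarith
    by_cases h3 : S.side c = 1 ∧ S.side a ≠ 1
    · have := hface1 c a b (S.T.cyc2 hF) h3.1 h3.2
      linarith
    have hab : S.side a = 1 → S.side b = 1 := fun h => by
      by_contra h'
      exact h1 ⟨h, h'⟩
    have hbc : S.side b = 1 → S.side c = 1 := fun h => by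
      by_contra h'
      exact h2 ⟨h, h'⟩
    have hca : S.side c = 1 → S.side a = 1 := fun h => by
      by_contra h'
      exact h3 ⟨h, h'⟩
    rw [hsame a b ⟨hab, fun h => hca (hbc h)⟩, hsame b a ⟨fun h => hca (hbc h), hab⟩,
      hsame b c ⟨hbc, fun h => hab (hca h)⟩, hsame c b ⟨fun h => hab (hca h), hbc⟩,
      hsame c a ⟨hca, fun h => hbc (hab h)⟩, hsame a c ⟨fun h => hbc (hab h), hca⟩]
    ring
  obtain ⟨h, hh⟩ := S.T.exact (fun x y => g x y - g y x) (fun a b => by ring) hface
  -- constant above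
  have hup : ∀ a b, S.T.Supp a → S.T.Supp b → S.side a = 1 → S.side b = 1 → h a = h b := by
    intro a b sa sb ha hb
    have := hS.conn 1 (by decide) (fun v => h v = h a) (by
      intro x y z hF hx hy hP
      have e := hh x y z hF
      rw [g0r x y hy, g0r y x hx] at e
      have e2 : h y = h x := by linarith
      exact e2.trans hP) a b sa sb ha hb rfl
    exact this.symm
  have hdn : ∀ a b, S.T.Supp a → S.T.Supp b → S.side a = -1 → S.side b = -1 → h a = h b := by
    intro a b sa sb ha hb
    have := hS.conn (-1) (by decide) (fun v => h v = h a) (by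
      intro x y z hF hx hy hP
      have e := hh x y z hF
      rw [g0l x y (by rw [hx]; decide), g0l y x (by rw [hy]; decide)] at e
      have e2 : h y = h x := by linarith
      exact e2.trans hP) a b sa sb ha hb rfl
    exact this.symm
  have hax : ∀ a, S.T.Supp a → S.side a ≠ 1 → ∃ x, S.T.Supp x ∧ S.side x = -1 ∧ h a = h x := by
    intro a sa ha
    by_cases h0 : S.side a = 0
    · obtain ⟨x, hx1, hx2⟩ := hS.nbr (-1) (by decide) a sa h0
      refine ⟨x, hx1.symm.supp, hx2, ?_⟩
      obtain ⟨c, hc⟩ := hx1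
      have e := hh a x c hc
      rw [g0l a x ha, g0l x a (by rw [hx2]; decide)] at e
      linarith
    · refine ⟨a, sa, ?_, rfl⟩
      revert ha h0
      generalize S.side a = s
      revert s
      decide
  have hlow : ∀ a b, S.T.Supp a → S.T.Supp b → S.side a ≠ 1 → S.side b ≠ 1 → h a = h b := by
    intro a b sa sb ha hb
    obtain ⟨x, sx, hx, ex⟩ := hax a sa ha
    obtain ⟨y, sy, hy, ey⟩ := hax b sb hb
    rw [ex, ey, hdn x y sx sy hx hy]
  intro e e' he he' hr
  obtain ⟨a, b⟩ := e
  obtain ⟨a', b'⟩ := e'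
  have k1 : g a b = 1 := by
    rw [hg]
    simp only
    rw [if_pos ⟨he, hr⟩]
  obtain ⟨⟨c, hF⟩, ha, hb⟩ := id he
  obtain ⟨⟨c', hF'⟩, ha', hb'⟩ := id he'
  simp only at hF ha hb hF' ha' hb'
  have e1 := hh a b c hF
  have e2 := hh a' b' c' hF'
  rw [g0l b a hb] at e1
  rw [g0l b' a' hb'] at e2
  have e3 := hup a a' ⟨b, c, hF⟩ ⟨b', c', hF'⟩ ha ha'
  have e4 := hlow b b' ⟨c, a, S.T.cyc _ _ _ hF⟩ ⟨c', a', S.T.cyc _ _ _ hF'⟩ hb hb'
  have k2 : g a' b' = 1 := by linarith
  by_contra hn
  rw [hg] at k2
  simp only at k2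
  rw [if_neg (fun h => hn h.2)] at k2
  norm_num at k2

end Setup

end P4
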