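import Pool.Agent.Lib_MP_b306af.P4Defs

/-! # MP_b306af Part IV: P4Lift -/

namespace P4

variable {V : Type}

namespace Setup

/- Piece LIFT (P4Free).  The vertices `s i` are distinct (`hinj`) and `P (s i) = (x i, 0)`.  Let
`Y v = y i` if `v = s i`, `0` for the other vertices, and `P_δ v = ((P v).1, (P v).2 + δ * Y v)`.  For each
of the finitely many faces `det3` of the images is a polynomial in `δ`, continuous, and has the
strict sign at `δ = 0`; so there is `δ > 0` with all signs right (finite intersection of eventualities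
at `𝓝[>] 0`; `det3 (P_δ a) (P_δ b) (P_δ c) = det3 (P a) (P b) (P c) + δ * (...)`).
Put `P' v = ((P_δ v).1, (P_δ v).2 / δ)`; `det3` is divided by `δ`, and `P' (s i) = (x i, δ y i / δ)`. -/
theorem lift_axis [Finite V] (T : Tri V) (o1 o2 o3 : V) (P : V → ℝ × ℝ)
    (hneg : det3 (P o1) (P o2) (P o3) < 0)
    (hpos : ∀ a b c, T.F a b c → ¬ Cyc3 o1 o2 o3 a b c → 0 < det3 (P a) (P b) (P c))
    (n : ℕ) (s : Fin n → V) (hinj : Function.Injective s) (x y : Fin n → ℝ)
    (hs : ∀ i, P (s i) = (x i, 0)) :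
    ∃ P' : V → ℝ × ℝ, (∀ i, P' (s i) = (x i, y i)) ∧ det3 (P' o1) (P' o2) (P' o3) < 0 ∧
      ∀ a b c, T.F a b c → ¬ Cyc3 o1 o2 o3 a b c → 0 < det3 (P' a) (P' b) (P' c) := by
  classical
  set Y : V → ℝ := Function.extend s y 0 with hY
  have hYs : ∀ i, Y (s i) = y i := fun i => hinj.extend_apply y 0 i
  let Q : ℝ → V → ℝ × ℝ := fun δ v => ((P v).1, (P v).2 + δ * Y v)
  have hQ0 : ∀ v, Q 0 v = P v := fun v => by simp [Q]
  have hcont : ∀ a b c, Continuous (fun δ => det3 (Q δ a) (Q δ b) (Q δ c)) := by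
    intro a b c
    simp only [det3, Q]
    fun_prop
  have e1 : ∀ᶠ δ in nhdsWithin (0 : ℝ) (Set.Ioi 0), det3 (Q δ o1) (Q δ o2) (Q δ o3) < 0 := by
    apply Filter.Eventually.filter_mono nhdsWithin_le_nhds
    apply (hcont o1 o2 o3).continuousAt.eventually_lt continuousAt_const
    simpa only [hQ0] using hneg
  have e2 : ∀ᶠ δ in nhdsWithin (0 : ℝ) (Set.Ioi 0), ∀ a b c, T.F a b c → ¬ Cyc3 o1 o2 o3 a b c →
      0 < det3 (Q δ a) (Q δ b) (Q δ c) := by
    rw [Filter.eventually_all]; intro a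
    rw [Filter.eventually_all]; intro b
    rw [Filter.eventually_all]; intro c
    by_cases h1 : T.F a b c
    · by_cases h2 : Cyc3 o1 o2 o3 a b c
      · exact Filter.Eventually.of_forall fun _ _ h => absurd h2 h
      · have h3 := hpos a b c h1 h2
        have h4 : ∀ᶠ δ in nhdsWithin (0 : ℝ) (Set.Ioi 0), 0 < det3 (Q δ a) (Q δ b) (Q δ c) := by
          apply Filter.Eventually.filter_mono nhdsWithin_le_nhds
          apply continuousAt_const.eventually_lt (hcont a b c).continuousAt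
          simpa only [hQ0] using h3
        exact h4.mono fun _ h _ _ => h
    · exact Filter.Eventually.of_forall fun _ h => absurd h h1
  obtain ⟨δ, ⟨h1, h2⟩, hδ⟩ := ((e1.and e2).and self_mem_nhdsWithin).exists
  have hδ0 : (0 : ℝ) < δ := hδ
  have hdet : ∀ a b c, det3 ((Q δ a).1, (Q δ a).2 / δ) ((Q δ b).1, (Q δ b).2 / δ)
      ((Q δ c).1, (Q δ c).2 / δ) = det3 (Q δ a) (Q δ b) (Q δ c) / δ := by
    intro a b c
    simp only [det3]
    field_simp
  refine ⟨fun v => ((Q δ v).1, (Q δ v).2 / δ), ?_, ?_, ?_⟩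
  · intro i
    simp only [Q, hs i, hYs i]
    ext
    · rfl
    · simp only [zero_add]
      field_simp
  · rw [hdet]; exact div_neg_of_neg_of_pos h1 hδ0
  · intro a b c ha hc
    rw [hdet]; exact div_pos (h2 a b c ha hc) hδ0

end Setup

end P4
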