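import Pool.Agent.Lib_MP_b306af.P4Twoc

/-! # MP_b306af Part IV: P4Link -/

namespace P4

variable {V : Type}

namespace Tri

/- Piece LINK (P4Basic).  The faces around a vertex form one cycle.
Suppose `R b`; we show `R b'` (then apply this also to `fun b => ¬ R b`, or exchange).  Let
`κ x y = (if x = a ∧ Adj a y ∧ R y then 1 else 0) - (if y = a ∧ Adj a x ∧ R x then 1 else 0)`
(classical).  It is antisymmetric.  On a face `T.F x y z` not containing `a` it is `0` on the three
darts.  If the face contains `a`, rotate it to `T.F a y z` (`y, z ≠ a`, `y ≠ z` by `T.ne`):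
the sum is `1_R(y) - 1_R(z) = 0` by `hR`.  By `T.exact`, `κ x y = h y - h x` on all darts.
`P v := h v = h a + 1` satisfies the hypothesis of `two_conn` (for `b, c ≠ a`, `κ b c = 0`, so
`h b = h c`).  `R b` gives `h b - h a = 1`, so `P b`, so `P b'`, so `κ a b' = 1`, so `R b'`. -/
theorem link_single (T : Tri V) (a : V) (R : V → Prop)
    (hR : ∀ b c, T.F a b c → (R b ↔ R c)) :
    ∀ b b', T.Adj a b → T.Adj a b' → R b → R b' := by
  classical
  obtain ⟨κ, hκ⟩ : ∃ κ : V → V → ℝ, κ = fun x y =>
      (if x = a ∧ T.Adj a y ∧ R y then (1 : ℝ) else 0) -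
        (if y = a ∧ T.Adj a x ∧ R x then (1 : ℝ) else 0) := ⟨_, rfl⟩
  have hz : ∀ x y, x ≠ a → y ≠ a → κ x y = 0 := by
    intro x y hx hy
    rw [hκ]
    simp [hx, hy]
  have hay : ∀ y, y ≠ a → κ a y = if T.Adj a y ∧ R y then (1 : ℝ) else 0 := by
    intro y hy
    rw [hκ]
    simp [hy]
  have hanti : ∀ x y, κ x y = - κ y x := by
    intro x y
    rw [hκ]
    ring
  have hface : ∀ y z, T.F a y z → κ a y + κ y z + κ z a = 0 := by
    intro y z hF
    have hya : y ≠ a := (T.ne _ _ _ hF).symm
    have hza : z ≠ a := T.ne _ _ _ (T.cyc2 hF)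
    have h1 : T.Adj a y := ⟨z, hF⟩
    have h2 : T.Adj a z := Adj.symm ⟨y, T.cyc2 hF⟩
    rw [hanti z a, hz y z hya hza, hay y hya, hay z hza]
    by_cases hy : R y
    · have hz' : R z := (hR y z hF).1 hy
      simp [h1, h2, hy, hz']
    · have hz' : ¬ R z := fun h => hy ((hR y z hF).2 h)
      simp [hy, hz']
  obtain ⟨h, hh⟩ := T.exact κ hanti (by
    intro x y z hF
    by_cases hx : x = a
    · subst hx
      exact hface y z hF
    · by_cases hy : y = a
      · subst hy
        have := hface z x (T.cyc _ _ _ hF)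
        linarith
      · by_cases hz' : z = a
        · subst hz'
          have := hface x y (T.cyc2 hF)
          linarith
        · rw [hz x y hx hy, hz y z hy hz', hz z x hz' hx]
          ring)
  intro b b' hb hb' hRb
  have hba : b ≠ a := hb.ne.symm
  have hba' : b' ≠ a := hb'.ne.symm
  have hval : ∀ y, T.Adj a y → κ a y = h y - h a := by
    rintro y ⟨z, hz⟩
    exact hh a y z hz
  have hP := T.two_conn a (fun v => h v = h a + 1) (by
    intro c d e hF hc hd hPc
    have h1 := hh c d e hF
    rw [hz c d hc hd] at h1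
    have h2 : h c = h a + 1 := hPc
    show h d = h a + 1
    linarith) b b' hb.symm.supp hb'.symm.supp hba hba' (by
    show h b = h a + 1
    have h1 := hval b hb
    rw [hay b hba, if_pos ⟨hb, hRb⟩] at h1
    linarith)
  have h3 : h b' = h a + 1 := hP
  have h4 := hval b' hb'
  rw [hay b' hba'] at h4
  by_contra hcon
  rw [if_neg (fun hc => hcon hc.2)] at h4
  linarith

end Tri

end P4
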