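import Pool.Agent.Lib_MP_b306af.P4Defs

/-!
# MP_b306af: the operation `med`

`T.med E`: a new vertex in every face of `T`; every edge which is not in `E` is replaced by the
edge between the two new vertices on its two sides.
-/

namespace P4

variable {V : Type}

namespace Tri

/-- name of the face on the left of the dart `a b`: the set of its three darts -/
noncomputable def fc (T : Tri V) (a b : V) : Set (V × V) :=
  {(a, b), (b, T.nx a b), (T.nx a b, a)}

theorem mem_fc (T : Tri V) (a b : V) : (a, b) ∈ T.fc a b := by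
  unfold fc; simp

theorem fc_eq (T : Tri V) {a b c : V} (h : T.F a b c) :
    T.fc a b = {(a, b), (b, c), (c, a)} := by
  unfold fc; rw [T.nx_eq h]

theorem fc_rot (T : Tri V) {a b c : V} (h : T.F a b c) : T.fc b c = T.fc a b := by
  rw [T.fc_eq h, T.fc_eq (T.cyc _ _ _ h)]
  ext x
  simp only [Set.mem_insert_iff, Set.mem_singleton_iff]
  tauto

theorem fc_rot2 (T : Tri V) {a b c : V} (h : T.F a b c) : T.fc c a = T.fc a b := by
  rw [T.fc_rot (T.cyc _ _ _ h), T.fc_rot h]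

theorem ne3 (T : Tri V) {a b c : V} (h : T.F a b c) : a ≠ b ∧ b ≠ c ∧ c ≠ a :=
  ⟨T.ne _ _ _ h, T.ne _ _ _ (T.cyc _ _ _ h), T.ne _ _ _ (T.cyc2 h)⟩

/-- darts in the same face -/
theorem of_fc (T : Tri V) {a b c a' b' : V} (h : T.F a b c)
    (e : T.fc a' b' = T.fc a b) :
    (a' = a ∧ b' = b) ∨ (a' = b ∧ b' = c) ∨ (a' = c ∧ b' = a) := by
  have := T.mem_fc a' b'
  rw [e, T.fc_eq h] at this
  simpa [Prod.ext_iff] using this

/-- same face, same first vertex -/
theorem fc_inj1 (T : Tri V) {a b b' : V} (h : T.Adj a b)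
    (e : T.fc a b' = T.fc a b) : b' = b := by
  obtain ⟨c, hc⟩ := h
  obtain ⟨n1, n2, n3⟩ := T.ne3 hc
  rcases T.of_fc hc e with ⟨h1, h2⟩ | ⟨h1, h2⟩ | ⟨h1, h2⟩
  · exact h2
  · exact absurd h1 n1
  · exact absurd h1.symm n3

/-- same face, same second vertex -/
theorem fc_inj2 (T : Tri V) {a a' b : V} (h : T.Adj a b)
    (e : T.fc a' b = T.fc a b) : a' = a := by
  obtain ⟨c, hc⟩ := h
  obtain ⟨n1, n2, n3⟩ := T.ne3 hc
  rcases T.of_fc hc e with ⟨h1, h2⟩ | ⟨h1, h2⟩ | ⟨h1, h2⟩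
  · exact h1
  · exact absurd h2 n2
  · exact absurd h2.symm n1

/-- a dart and its reverse are in different faces -/
theorem fc_ne (T : Tri V) {a b : V} (h : T.Adj a b) : T.fc b a ≠ T.fc a b := by
  intro e
  obtain ⟨c, hc⟩ := h
  obtain ⟨n1, n2, n3⟩ := T.ne3 hc
  rcases T.of_fc hc e with ⟨h1, h2⟩ | ⟨h1, h2⟩ | ⟨h1, h2⟩
  · exact n1 h2
  · exact n3 h2.symm
  · exact n2 h1

/-- no two faces have the same three vertices -/
def NonDeg (T : Tri V) : Prop := ∀ a b c, T.F a b c → ¬ T.F b a c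

/-- two faces have at most one common edge -/
theorem fc_two (T : Tri V) (hT : T.NonDeg) {a b a' b' : V} (h : T.Adj a b)
    (e1 : T.fc a' b' = T.fc a b) (e2 : T.fc b' a' = T.fc b a) : a' = a ∧ b' = b := by
  obtain ⟨c, hc⟩ := h
  obtain ⟨d, hd⟩ := T.opp _ _ _ hc
  obtain ⟨n1, n2, n3⟩ := T.ne3 hc
  obtain ⟨m1, m2, m3⟩ := T.ne3 hd
  rcases T.of_fc hc e1 with ⟨h1, h2⟩ | ⟨h1, h2⟩ | ⟨h1, h2⟩
  · exact ⟨h1, h2⟩
  · exfalso
    rcases T.of_fc hd e2 with ⟨k1, k2⟩ | ⟨k1, k2⟩ | ⟨k1, k2⟩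
    · exact n1 (k2.symm.trans h1)
    · rw [h2] at k1
      exact n3 k1
    · rw [h2] at k1
      rw [← k1] at hd
      exact hT _ _ _ hc hd
  · exfalso
    rcases T.of_fc hd e2 with ⟨k1, k2⟩ | ⟨k1, k2⟩ | ⟨k1, k2⟩
    · exact n1 (h2.symm.trans k1)
    · rw [h1] at k2
      rw [← k2] at hd
      exact hT _ _ _ hc hd
    · rw [h1] at k2
      exact n2 k2.symm

/-- faces of the first kind: an edge in `E` and the new vertex `f` on its left -/
def K1 (T : Tri V) (E : V → V → Prop) (a b : V) (f : Set (V × V)) : Prop :=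
  E a b ∧ T.Adj a b ∧ f = T.fc a b

/-- faces of the second kind: at the end `a` of an edge not in `E` -/
def K2 (T : Tri V) (E : V → V → Prop) (a : V) (g f : Set (V × V)) : Prop :=
  ∃ b, ¬ E a b ∧ T.Adj a b ∧ g = T.fc b a ∧ f = T.fc a b

/-- faces of `T.med E` -/
def medF (T : Tri V) (E : V → V → Prop) :
    V ⊕ Set (V × V) → V ⊕ Set (V × V) → V ⊕ Set (V × V) → Prop
  | Sum.inl a, Sum.inl b, Sum.inr f => T.K1 E a b f
  | Sum.inl b, Sum.inr f, Sum.inl a => T.K1 E a b f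
  | Sum.inr f, Sum.inl a, Sum.inl b => T.K1 E a b f
  | Sum.inl a, Sum.inr g, Sum.inr f => T.K2 E a g f
  | Sum.inr g, Sum.inr f, Sum.inl a => T.K2 E a g f
  | Sum.inr f, Sum.inl a, Sum.inr g => T.K2 E a g f
  | Sum.inl _, Sum.inl _, Sum.inl _ => False
  | Sum.inr _, Sum.inr _, Sum.inr _ => False

/-- next dart at `b` in the face of `a b` -/
theorem med_next (T : Tri V) {E : V → V → Prop} {a b : V} (h : T.Adj a b) :
    (∃ c, T.K1 E b c (T.fc a b)) ∨ ∃ g, T.K2 E b g (T.fc a b) := by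
  obtain ⟨c, hc⟩ := h
  by_cases hE : E b c
  · exact Or.inl ⟨c, hE, ⟨a, T.cyc _ _ _ hc⟩, (T.fc_rot hc).symm⟩
  · exact Or.inr ⟨T.fc c b, c, hE, ⟨a, T.cyc _ _ _ hc⟩, rfl, (T.fc_rot hc).symm⟩

/-- previous dart at `a` in the face of `a b` -/
theorem med_prev (T : Tri V) {E : V → V → Prop} (hE : ∀ a b, E a b → E b a) {a b : V}
    (h : T.Adj a b) :
    (∃ c, T.K1 E c a (T.fc a b)) ∨ ∃ g, T.K2 E a (T.fc a b) g := by
  obtain ⟨c, hc⟩ := h
  by_cases hE' : E c a
  · exact Or.inl ⟨c, hE', ⟨b, T.cyc2 hc⟩, (T.fc_rot2 hc).symm⟩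
  · refine Or.inr ⟨T.fc a c, c, fun h => hE' (hE _ _ h), Adj.symm ⟨b, T.cyc2 hc⟩,
      (T.fc_rot2 hc).symm, rfl⟩

/-- the operation `med` -/
noncomputable def med (T : Tri V) (hT : T.NonDeg) (E : V → V → Prop) (hE : ∀ a b, E a b → E b a) :
    Tri (V ⊕ Set (V × V)) where
  F := T.medF E
  cyc p q r h := by
    rcases p with p | p <;> rcases q with q | q <;> rcases r with r | r <;> exact h
  uniq p q r s h h' := by
    rcases p with p | p <;> rcases q with q | q <;> rcases r with r | r <;>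
      rcases s with s | s <;> simp only [medF] at h h'
    · obtain ⟨-, -, rfl⟩ := h
      obtain ⟨-, -, rfl⟩ := h'
      rfl
    · obtain ⟨h1, h2, rfl⟩ := h
      obtain ⟨h1', h2', e⟩ := h'
      rw [T.fc_inj2 h2' e]
    · obtain ⟨h1, h2, rfl⟩ := h
      obtain ⟨c, h1', h2', e, -⟩ := h'
      have := T.fc_inj2 (Adj.symm h2') e
      subst this
      exact absurd (hE _ _ h1) h1'
    · obtain ⟨h1, h2, rfl⟩ := h'
      obtain ⟨c, h1', h2', e, -⟩ := h
      have := T.fc_inj2 (Adj.symm h2') e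
      subst this
      exact absurd (hE _ _ h1) h1'
    · obtain ⟨c, h1, h2, e1, rfl⟩ := h
      obtain ⟨c', h1', h2', e2, rfl⟩ := h'
      have := T.fc_inj2 (Adj.symm h2) (e2.symm.trans e1)
      rw [this]
    · obtain ⟨h1, h2, rfl⟩ := h
      obtain ⟨h1', h2', e⟩ := h'
      rw [T.fc_inj1 h2' e]
    · obtain ⟨h1, h2, rfl⟩ := h
      obtain ⟨c, h1', h2', -, e⟩ := h'
      have := T.fc_inj1 h2' e
      subst this
      exact absurd h1 h1'
    · obtain ⟨h1, h2, rfl⟩ := h'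
      obtain ⟨c, h1', h2', -, e⟩ := h
      have := T.fc_inj1 h2' e
      subst this
      exact absurd h1 h1'
    · obtain ⟨c, h1, h2, rfl, e1⟩ := h
      obtain ⟨c', h1', h2', rfl, e2⟩ := h'
      have := T.fc_inj1 h2 (e2.symm.trans e1)
      rw [this]
    · obtain ⟨c, h1, h2, e1, e2⟩ := h
      obtain ⟨c', h1', h2', e3, e4⟩ := h'
      rw [(T.fc_two hT h2 (e4.symm.trans e2) (e3.symm.trans e1)).1]
  opp p q r h := by
    rcases p with p | p <;> rcases q with q | q <;> rcases r with r | r <;> simp only [medF] at h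
    · obtain ⟨h1, h2, -⟩ := h
      exact ⟨Sum.inr (T.fc q p), hE _ _ h1, Adj.symm h2, rfl⟩
    · obtain ⟨h1, h2, rfl⟩ := h
      rcases T.med_next (E := E) h2 with ⟨c, hc⟩ | ⟨g, hg⟩
      · exact ⟨Sum.inl c, hc⟩
      · exact ⟨Sum.inr g, hg⟩
    · obtain ⟨b, h1, h2, rfl, rfl⟩ := h
      rcases T.med_next (E := E) (Adj.symm h2) with ⟨c, hc⟩ | ⟨g, hg⟩
      · exact ⟨Sum.inl c, hc⟩
      · exact ⟨Sum.inr g, hg⟩
    · obtain ⟨h1, h2, rfl⟩ := h
      rcases T.med_prev hE h2 with ⟨c, hc⟩ | ⟨g, hg⟩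
      · exact ⟨Sum.inl c, hc⟩
      · exact ⟨Sum.inr g, hg⟩
    · obtain ⟨b, h1, h2, rfl, rfl⟩ := h
      rcases T.med_prev hE h2 with ⟨c, hc⟩ | ⟨g, hg⟩
      · exact ⟨Sum.inl c, hc⟩
      · exact ⟨Sum.inr g, hg⟩
    · obtain ⟨b, h1, h2, rfl, rfl⟩ := h
      exact ⟨Sum.inl b, r, fun h => h1 (hE _ _ h), Adj.symm h2, rfl, rfl⟩
  ne p q r h := by
    rcases p with p | p <;> rcases q with q | q <;> rcases r with r | r <;> simp only [medF] at h
    · obtain ⟨h1, h2, -⟩ := h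
      exact fun e => h2.ne (Sum.inl.inj e)
    · simp
    · simp
    · simp
    · simp
    · obtain ⟨b, h1, h2, rfl, rfl⟩ := h
      exact fun e => T.fc_ne h2 (Sum.inr.inj e)
  trans P h1 h2 := by
    -- rotation and reversal
    have rot : ∀ p q r, T.medF E p q r → P p q → P q r ∧ P r p := by
      intro p q r h hp
      refine ⟨h1 _ _ _ h hp, ?_⟩
      refine h1 q r p ?_ (h1 _ _ _ h hp)
      rcases p with p | p <;> rcases q with q | q <;> rcases r with r | r <;> exact h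
    have rev : ∀ p q r, T.medF E p q r → P p q → P q p := fun p q r h hp => h2 _ _ _ h hp
    let Q : V → V → Prop := fun a b => P (Sum.inl a) (Sum.inr (T.fc a b))
    -- `P` on the dart `(f, a)`
    have hQ : ∀ a b, T.Adj a b → (Q a b ↔ P (Sum.inr (T.fc a b)) (Sum.inl a)) := by
      intro a b h
      constructor
      · intro hq
        rcases T.med_prev hE h with ⟨c, hc⟩ | ⟨g, hg⟩
        · exact rev _ _ (Sum.inl c) hc hq
        · exact rev _ _ (Sum.inr g) hg hq
      · intro hq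
        by_cases he : E a b
        · exact rev _ _ (Sum.inl b) (show T.K1 E a b (T.fc a b) from ⟨he, h, rfl⟩) hq
        · exact rev _ _ (Sum.inr (T.fc b a))
            (show T.K2 E a (T.fc b a) (T.fc a b) from ⟨b, he, h, rfl, rfl⟩) hq
    -- all darts of the face `K1 a b f`
    have k1 : ∀ a b, T.Adj a b → E a b → Q a b → P (Sum.inl a) (Sum.inl b) ∧
        P (Sum.inl b) (Sum.inr (T.fc a b)) := by
      intro a b h he hq
      exact rot (Sum.inr (T.fc a b)) (Sum.inl a) (Sum.inl b)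
        (show T.K1 E a b (T.fc a b) from ⟨he, h, rfl⟩) ((hQ a b h).1 hq)
    have k2 : ∀ a b, T.Adj a b → ¬ E a b → Q a b →
        P (Sum.inl a) (Sum.inr (T.fc b a)) ∧ P (Sum.inr (T.fc b a)) (Sum.inr (T.fc a b)) := by
      intro a b h he hq
      exact rot (Sum.inr (T.fc a b)) (Sum.inl a) (Sum.inr (T.fc b a))
        (show T.K2 E a (T.fc b a) (T.fc a b) from ⟨b, he, h, rfl, rfl⟩) ((hQ a b h).1 hq)
    have hrev : ∀ a b, T.Adj a b → Q a b → Q b a := by
      intro a b h hq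
      by_cases he : E a b
      · have h3 := (k1 a b h he hq).1
        have h4 := rev (Sum.inl a) (Sum.inl b) (Sum.inr (T.fc a b))
          (show T.K1 E a b _ from ⟨he, h, rfl⟩) h3
        have h5 := (rot (Sum.inl b) (Sum.inl a) (Sum.inr (T.fc b a))
          (show T.K1 E b a _ from ⟨hE _ _ he, Adj.symm h, rfl⟩) h4).2
        exact (hQ b a (Adj.symm h)).2 h5
      · have h3 := (k2 a b h he hq).2
        have h4 := rev (Sum.inr (T.fc b a)) (Sum.inr (T.fc a b)) (Sum.inl a)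
          (show T.K2 E a _ _ from ⟨b, he, h, rfl, rfl⟩) h3
        have h5 := (rot (Sum.inr (T.fc a b)) (Sum.inr (T.fc b a)) (Sum.inl b)
          (show T.K2 E b _ _ from ⟨a, fun h => he (hE _ _ h), Adj.symm h, rfl, rfl⟩) h4).1
        exact (hQ b a (Adj.symm h)).2 h5
    have hnext : ∀ a b c, T.F a b c → Q a b → Q b c := by
      intro a b c hF hq
      have h : T.Adj a b := ⟨c, hF⟩
      show P (Sum.inl b) (Sum.inr (T.fc b c))
      rw [T.fc_rot hF]
      by_cases he : E a b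
      · exact (k1 a b h he hq).2
      · have h3 := (k2 a b h he hq).2
        have h4 := rev (Sum.inr (T.fc b a)) (Sum.inr (T.fc a b)) (Sum.inl a)
          (show T.K2 E a _ _ from ⟨b, he, h, rfl, rfl⟩) h3
        exact (rot (Sum.inr (T.fc a b)) (Sum.inr (T.fc b a)) (Sum.inl b)
          (show T.K2 E b _ _ from ⟨a, fun h => he (hE _ _ h), Adj.symm h, rfl, rfl⟩) h4).2
    have all : ∀ a b x y, T.Adj a b → T.Adj x y → Q a b → Q x y := by
      rintro a b x y ⟨c, hc⟩ ⟨z, hz⟩ hq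
      exact T.trans Q hnext (fun a b c hF hq => hrev a b ⟨c, hF⟩ hq) a b c x y z hc hz hq
    -- from a face to `Q`
    have hto : ∀ p q r, T.medF E p q r → P p q → ∃ a b, T.Adj a b ∧ Q a b := by
      intro p q r h hp
      have h3 := rot _ _ _ h hp
      rcases p with p | p <;> rcases q with q | q <;> rcases r with r | r <;>
        simp only [medF] at h
      · obtain ⟨h5, h6, rfl⟩ := h
        exact ⟨p, q, h6, (hQ p q h6).2 h3.2⟩
      · obtain ⟨h5, h6, rfl⟩ := h
        exact ⟨r, p, h6, (hQ r p h6).2 h3.1⟩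
      · obtain ⟨b, h5, h6, rfl, rfl⟩ := h
        exact ⟨p, b, h6, (hQ p b h6).2 h3.2⟩
      · obtain ⟨h5, h6, rfl⟩ := h
        exact ⟨q, r, h6, (hQ q r h6).2 hp⟩
      · obtain ⟨b, h5, h6, rfl, rfl⟩ := h
        exact ⟨q, b, h6, (hQ q b h6).2 hp⟩
      · obtain ⟨b, h5, h6, rfl, rfl⟩ := h
        exact ⟨r, b, h6, (hQ r b h6).2 h3.1⟩
    intro p q r x y z hf hg hP
    obtain ⟨a, b, hab, hq⟩ := hto _ _ _ hf hP
    have hall : ∀ x y, T.Adj x y → P (Sum.inr (T.fc x y)) (Sum.inl x) :=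
      fun x y h => (hQ x y h).1 (all a b x y hab h hq)
    rcases x with x | x <;> rcases y with y | y <;> rcases z with z | z <;>
      simp only [medF] at hg
    · obtain ⟨h5, h6, rfl⟩ := hg
      exact (k1 x y h6 h5 ((hQ x y h6).2 (hall x y h6))).1
    · obtain ⟨h5, h6, rfl⟩ := hg
      exact (k1 z x h6 h5 ((hQ z x h6).2 (hall z x h6))).2
    · obtain ⟨b, h5, h6, rfl, rfl⟩ := hg
      exact (k2 x b h6 h5 ((hQ x b h6).2 (hall x b h6))).1
    · obtain ⟨h5, h6, rfl⟩ := hg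
      exact hall y z h6
    · obtain ⟨b, h5, h6, rfl, rfl⟩ := hg
      exact hall y b h6
    · obtain ⟨b, h5, h6, rfl, rfl⟩ := hg
      exact (k2 z b h6 h5 ((hQ z b h6).2 (hall z b h6))).2
  exact κ hκ hz := by
    classical
    -- the reduced function
    let κ' : V → V → ℝ := fun a b => if T.Adj a b then
      κ (Sum.inl a) (Sum.inr (T.fc a b)) + κ (Sum.inr (T.fc a b)) (Sum.inl b) else 0
    have z1 : ∀ a b, T.Adj a b → E a b → κ (Sum.inl a) (Sum.inl b) +
        κ (Sum.inl b) (Sum.inr (T.fc a b)) + κ (Sum.inr (T.fc a b)) (Sum.inl a) = 0 :=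
      fun a b h he => hz _ _ _ (show T.K1 E a b _ from ⟨he, h, rfl⟩)
    have z2 : ∀ a b, T.Adj a b → ¬ E a b → κ (Sum.inl a) (Sum.inr (T.fc b a)) +
        κ (Sum.inr (T.fc b a)) (Sum.inr (T.fc a b)) + κ (Sum.inr (T.fc a b)) (Sum.inl a) = 0 :=
      fun a b h he => hz _ _ _ (show T.K2 E a _ _ from ⟨b, he, h, rfl, rfl⟩)
    have hκ' : ∀ a b, κ' a b = - κ' b a := by
      intro a b
      by_cases h : T.Adj a b
      · have h' := Adj.symm h
        simp only [κ', if_pos h, if_pos h']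
        have e1 := hκ (Sum.inl a) (Sum.inr (T.fc a b))
        have e2 := hκ (Sum.inl b) (Sum.inr (T.fc a b))
        have e3 := hκ (Sum.inl a) (Sum.inr (T.fc b a))
        have e4 := hκ (Sum.inl b) (Sum.inr (T.fc b a))
        by_cases he : E a b
        · have s1 := z1 a b h he
          have s2 := z1 b a h' (hE _ _ he)
          have e5 := hκ (Sum.inl a) (Sum.inl b)
          linarith
        · have s1 := z2 a b h he
          have s2 := z2 b a h' (fun h => he (hE _ _ h))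
          have e5 := hκ (Sum.inr (T.fc a b)) (Sum.inr (T.fc b a))
          linarith
      · have h' : ¬ T.Adj b a := fun k => h (Adj.symm k)
        simp only [κ', if_neg h, if_neg h', neg_zero]
    obtain ⟨h, hh⟩ := T.exact κ' hκ' (by
      intro a b c hF
      have h1 : T.Adj a b := ⟨c, hF⟩
      have h2 : T.Adj b c := ⟨a, T.cyc _ _ _ hF⟩
      have h3 : T.Adj c a := ⟨b, T.cyc2 hF⟩
      simp only [κ', if_pos h1, if_pos h2, if_pos h3, T.fc_rot hF, T.fc_rot2 hF]
      have e1 := hκ (Sum.inl a) (Sum.inr (T.fc a b))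
      have e2 := hκ (Sum.inl b) (Sum.inr (T.fc a b))
      have e3 := hκ (Sum.inl c) (Sum.inr (T.fc a b))
      linarith)
    let h' : V ⊕ Set (V × V) → ℝ := fun p => match p with
      | Sum.inl a => h a
      | Sum.inr f => if hf : ∃ a b, T.Adj a b ∧ T.fc a b = f then
          h hf.choose + κ (Sum.inl hf.choose) (Sum.inr f) else 0
    have hc : ∀ a b, T.Adj a b →
        h' (Sum.inr (T.fc a b)) = h a + κ (Sum.inl a) (Sum.inr (T.fc a b)) := by
      intro a b hab
      have hf : ∃ a' b', T.Adj a' b' ∧ T.fc a' b' = T.fc a b := ⟨a, b, hab, rfl⟩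
      show (if hf : ∃ a' b', T.Adj a' b' ∧ T.fc a' b' = T.fc a b then
          h hf.choose + κ (Sum.inl hf.choose) (Sum.inr (T.fc a b)) else 0) = _
      rw [dif_pos hf]
      obtain ⟨b', h2, h3⟩ := hf.choose_spec
      generalize hf.choose = a' at h2 h3 ⊢
      obtain ⟨c, hF⟩ := hab
      have g1 := hh a b c hF
      have g2 := hh b c a (T.cyc _ _ _ hF)
      have a1 : T.Adj a b := ⟨c, hF⟩
      have a2 : T.Adj b c := ⟨a, T.cyc _ _ _ hF⟩
      simp only [κ', if_pos a1] at g1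
      simp only [κ', if_pos a2, T.fc_rot hF] at g2
      have e2 := hκ (Sum.inl b) (Sum.inr (T.fc a b))
      have e3 := hκ (Sum.inl c) (Sum.inr (T.fc a b))
      rcases T.of_fc hF h3 with ⟨rfl, rfl⟩ | ⟨rfl, rfl⟩ | ⟨rfl, rfl⟩
      · rfl
      · linarith
      · linarith
    have hE1 : ∀ a b, T.Adj a b → E a b → κ (Sum.inl a) (Sum.inl b) = h b - h a := by
      intro a b hab he
      obtain ⟨c, hF⟩ := hab
      have a1 : T.Adj a b := ⟨c, hF⟩
      have g1 := hh a b c hF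
      simp only [κ', if_pos a1] at g1
      have s1 := z1 a b a1 he
      have e1 := hκ (Sum.inl a) (Sum.inr (T.fc a b))
      have e2 := hκ (Sum.inl b) (Sum.inr (T.fc a b))
      linarith
    -- at both ends of a dart
    have hc2 : ∀ a b, T.Adj a b →
        h' (Sum.inr (T.fc a b)) = h b + κ (Sum.inl b) (Sum.inr (T.fc a b)) := by
      rintro a b ⟨c, hF⟩
      have := hc b c ⟨a, T.cyc _ _ _ hF⟩
      rwa [T.fc_rot hF] at this
    refine ⟨h', ?_⟩
    intro x y z hg
    rcases x with x | x <;> rcases y with y | y <;> rcases z with z | z <;>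
      simp only [medF] at hg
    · obtain ⟨h5, h6, rfl⟩ := hg
      exact hE1 x y h6 h5
    · obtain ⟨h5, h6, rfl⟩ := hg
      rw [hc2 _ _ h6]
      show _ = _ - h x
      ring
    · obtain ⟨b, h5, h6, rfl, rfl⟩ := hg
      rw [hc2 _ _ (Adj.symm h6)]
      show _ = _ - h x
      ring
    · obtain ⟨h5, h6, rfl⟩ := hg
      rw [hc _ _ h6, hκ]
      show _ = h y - _
      ring
    · obtain ⟨b, h5, h6, rfl, rfl⟩ := hg
      rw [hc _ _ h6, hκ]
      show _ = h y - _
      ring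
    · obtain ⟨b, h5, h6, rfl, rfl⟩ := hg
      have s1 := z2 z b h6 h5
      rw [hc _ _ h6, hc2 _ _ (Adj.symm h6)]
      have e1 := hκ (Sum.inl z) (Sum.inr (T.fc z b))
      linarith

end Tri

end P4
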