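import Pool.Agent.Lib_MP_b306af.P4Geoc

/-! # MP_b306af Part IV: P4Miriv -/

namespace P4

variable {V : Type}

namespace Setup

/-- reflection of a point in the axis -/
def mirivR (p : ℝ × ℝ) : ℝ × ℝ := (p.1, -p.2)

theorem miriv_rfx_rfx (p : ℝ × ℝ) : mirivR (mirivR p) = p := by
  unfold mirivR
  ext <;> simp

theorem miriv_rfx_inj {p q : ℝ × ℝ} (h : mirivR p = mirivR q) : p = q := by
  rw [← miriv_rfx_rfx p, h, miriv_rfx_rfx]

theorem miriv_crossAt (P Q : ℝ × ℝ) : crossAt (mirivR P) (mirivR Q) = crossAt P Q := by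
  unfold crossAt mirivR
  have h1 : P.1 * -Q.2 - Q.1 * -P.2 = -(P.1 * Q.2 - Q.1 * P.2) := by ring
  have h2 : -Q.2 - -P.2 = -(Q.2 - P.2) := by ring
  show (P.1 * -Q.2 - Q.1 * -P.2) / (-Q.2 - -P.2) = _
  rw [h1, h2, neg_div_neg_eq]

theorem miriv_det3 (P Q R : ℝ × ℝ) : det3 (mirivR P) (mirivR Q) (mirivR R) = det3 (Q) (P) (R) := by
  unfold det3 mirivR
  ring

theorem miriv_sign (P : ℝ × ℝ) : SignType.sign (mirivR P).2 = - SignType.sign P.2 := by
  show SignType.sign (-P.2) = _
  exact Left.sign_neg _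

theorem miriv_outer (S : Setup V) (v : V) : S.mirror.Outer v ↔ S.Outer v := by
  constructor
  · rintro (h | h | h)
    · exact Or.inr (Or.inl h)
    · exact Or.inl h
    · exact Or.inr (Or.inr h)
  · rintro (h | h | h)
    · exact Or.inr (Or.inl h)
    · exact Or.inl h
    · exact Or.inr (Or.inr h)

theorem miriv_IsO (S : Setup V) (a b c : V) : S.mirror.IsO b a c ↔ S.IsO a b c := by
  unfold IsO Cyc3
  show ((b = S.o2 ∧ a = S.o1 ∧ c = S.o3) ∨ (b = S.o1 ∧ a = S.o3 ∧ c = S.o2) ∨
    (b = S.o3 ∧ a = S.o2 ∧ c = S.o1)) ↔ _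
  tauto

theorem miriv_neg {a b : SignType} : -a = b ↔ a = -b := by
  rcases SignType.trichotomy a with h | h | h <;> rcases SignType.trichotomy b with h' | h' | h' <;>
    rw [h, h'] <;> decide

/- Piece MIRIV (P4Main).  Given `Q` for `S`, `Q' v = ((Q v).1, - (Q v).2)` is `OuterOK` for the mirror
(`crossAt` of the reflected points is the same, `crossAt_comm`; `sign (- y) = - sign y`; `Outer` of the
mirror is the same with `o1, o2` exchanged).  Reflect the drawing back: `det3` of the reflected points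
changes the sign, and `T.mirror.F b a c` is `T.F a b c`: `det3_swap`. -/
theorem mirror_iv {S : Setup V} (h : S.mirror.IV) : S.IV := by
  intro Q hQ ε hε
  have hQ' : S.mirror.OuterOK (fun v => mirivR (Q v)) := by
    refine ⟨?_, ?_, ?_⟩
    · intro v hv
      show SignType.sign (mirivR (Q v)).2 = - S.side v
      rw [miriv_sign, hQ.sgn v ((miriv_outer S v).1 hv)]
    · intro v hv h0
      have h0' : S.side v = 0 := by
        have h1 : - S.side v = 0 := h0
        rw [miriv_neg] at h1
        rw [h1]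
        decide
      exact hQ.abs0 v ((miriv_outer S v).1 hv) h0'
    · intro u w hu hw h1 h2
      show crossAt (mirivR (Q u)) (mirivR (Q w)) = S.A w u
      rw [miriv_crossAt, crossAt_comm]
      apply hQ.cross w u ((miriv_outer S w).1 hw) ((miriv_outer S u).1 hu)
      · have h3 : - S.side w = -1 := h2
        rw [miriv_neg] at h3
        rw [h3]
        decide
      · have h3 : - S.side u = 1 := h1
        rw [miriv_neg] at h3
        exact h3
  obtain ⟨P, hP1, hP2⟩ := h _ hQ' ε hε
  refine ⟨fun v => mirivR (P v), ?_, ?_, ?_, ?_, ?_⟩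
  · intro v hv
    show mirivR (P v) = Q v
    rw [hP1 v ((miriv_outer S v).2 hv), miriv_rfx_rfx]
  · intro a b c hF hO
    show 0 < det3 (mirivR (P a)) (mirivR (P b)) (mirivR (P c))
    rw [miriv_det3]
    exact hP2.pos b a c hF (fun h => hO ((miriv_IsO S a b c).1 h))
  · intro v hv
    show SignType.sign (mirivR (P v)).2 = S.side v
    rw [miriv_sign, hP2.sgn v ((Tri.mirror_Supp S.T v).2 hv)]
    show - - S.side v = S.side v
    rcases SignType.trichotomy (S.side v) with h' | h' | h' <;> rw [h'] <;> decide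
  · intro v hv h0
    have h0' : S.mirror.side v = 0 := by
      show - S.side v = 0
      rw [h0]
      decide
    exact hP2.abs0 v ((Tri.mirror_Supp S.T v).2 hv) h0'
  · intro u w hA h1 h2
    show |crossAt (mirivR (P u)) (mirivR (P w)) - S.A u w| < ε
    rw [miriv_crossAt, crossAt_comm]
    refine hP2.near w u ((Tri.mirror_Adj S.T w u).2 hA.symm) ?_ ?_
    · show - S.side w = 1
      rw [h2]
      decide
    · show - S.side u = -1
      rw [h1]

end Setup

end P4
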