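import Pool.Agent.Lib_MP_b306af.P4ZFlip2

/-! # MP_b306af Part IV: P4Mirnum -/

namespace P4

variable {V : Type}

theorem mirnum_aux (s t : Set (V × V × V)) (h : ∀ a b c, (a, b, c) ∈ s ↔ (b, a, c) ∈ t) :
    s.ncard = t.ncard := by
  have hinj : Function.Injective (fun x : V × V × V => (x.2.1, x.1, x.2.2)) := by
    rintro ⟨a, b, c⟩ ⟨a', b', c'⟩ hh
    simp only [Prod.mk.injEq] at hh
    obtain ⟨h1, h2, h3⟩ := hh
    rw [h1, h2, h3]
  have hst : (fun x : V × V × V => (x.2.1, x.1, x.2.2)) '' s = t := by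
    ext ⟨a, b, c⟩
    constructor
    · rintro ⟨⟨a', b', c'⟩, hm, hh⟩
      simp only [Prod.mk.injEq] at hh
      obtain ⟨h1, h2, h3⟩ := hh
      subst h1 h2 h3
      exact (h _ _ _).1 hm
    · intro hm
      exact ⟨(b, a, c), (h _ _ _).2 hm, rfl⟩
  rw [← hst, Set.ncard_image_of_injective s hinj]

/- Piece MIRNUM (P4Main).  `(a, b, c) ↦ (b, a, c)` is a bijection between the faces of `T` and of
`T.mirror` (`Set.ncard_congr`, or `Set.ncard_image_of_injective` for the equivalence). -/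
theorem mirror_numF [Finite V] (T : Tri V) : numF T.mirror = numF T :=
  mirnum_aux _ _ fun _ _ _ => Iff.rfl

theorem mirror_mono [Finite V] (S : Setup V) :
    mono S.mirror.T S.mirror.side = mono S.T S.side := by
  apply mirnum_aux
  intro a b c
  show (S.T.F b a c ∧ -S.side a = -S.side b ∧ -S.side b = -S.side c) ↔
    (S.T.F b a c ∧ S.side b = S.side a ∧ S.side a = S.side c)
  rw [neg_inj, neg_inj]
  constructor
  · rintro ⟨h1, h2, h3⟩
    exact ⟨h1, h2.symm, h2.trans h3⟩
  · rintro ⟨h1, h2, h3⟩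
    exact ⟨h1, h2.symm, h2.trans h3⟩

end P4
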