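import Pool.Agent.Lib_MP_b306af.P4ZLP1

/-! # MP_b306af Part IV: P4Momm -/

namespace P4

open Finset

variable {V : Type}

namespace Setup

/- Piece MOMM (P4LP).  The moment in terms of the multipliers.  By `eqq` for `v` it is enough that
`M φ v = ∑ w, A v w * lam v w - ∑ u, A u v * lam u v + ∑ s, ∑ b, X s * (nu s v b - nu s b v)`.
Split `M φ v = ∑ c, tt v c * (φ v c - φ c v)`: terms with `c` not adjacent to `v` vanish (`h0`), terms
of the same side vanish (`h1`).  If `side c = 0`, `c` adjacent: `tt v c = X c` and
`φ v c - φ c v = nu c v (nx c v) - nu c (nx v c) v` (`h3` for `s = c`, `b = v`) `= ∑ b, (nu c v b - nu c b v)` (by `nu_supp` and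
`T.uniq` only `b = nx c v` resp. `b = nx v c` contributes).  If `side c = - side v`: for `side v = 1`
it is `A v c * lam v c` (`h2`) and `lam c v = 0`; for `side v = -1` it is
`A c v * (φ v c - φ c v) = - A c v * lam c v` and `lam v c = 0`.  In the right side all other terms vanish by the
support conditions. -/
theorem Mult.mom [Fintype V] {S : Setup V} (hS : S.Good) {y : V → ℝ} (m : S.Mult y)
    (φ : V → V → ℝ) (h0 : ∀ a b, ¬ S.T.Adj a b → φ a b = 0)
    (h1 : ∀ a b, S.T.Adj a b → S.side a = S.side b → φ a b = φ b a)
    (h2 : ∀ u w, S.T.Adj u w → S.side u = 1 → S.side w = -1 → φ u w - φ w u = m.lam u w)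
    (h3 : ∀ s b, S.T.Adj s b → S.side s = 0 →
        φ b s - φ s b = m.nu s b (S.T.nx s b) - m.nu s (S.T.nx b s) b)
    (v : V) (hv : S.side v ≠ 0) : S.M φ v = (S.side v : ℝ) * m.xi v + m.l2 v := by
  classical
  have key : ∀ c, S.tt v c * (φ v c - φ c v) = S.A v c * m.lam v c - S.A c v * m.lam c v +
      S.X c * ∑ b, (m.nu c v b - m.nu c b v) := by
    intro c
    -- vanishing of the multipliers
    have lz : ¬ (S.T.Adj v c ∧ S.side v = 1 ∧ S.side c = -1) → m.lam v c = 0 := by
      intro h
      by_contra hne
      exact h (m.lam_supp v c hne)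
    have lz' : ¬ (S.T.Adj c v ∧ S.side c = 1 ∧ S.side v = -1) → m.lam c v = 0 := by
      intro h
      by_contra hne
      exact h (m.lam_supp c v hne)
    have nz : (¬ S.T.Adj v c ∨ S.side c ≠ 0) → ∑ b, (m.nu c v b - m.nu c b v) = 0 := by
      intro h
      refine Finset.sum_eq_zero fun b _ => ?_
      have e1 : m.nu c v b = 0 := by
        by_contra hne
        obtain ⟨g1, g2, g3⟩ := m.nu_supp c v b hne
        rcases h with h | h
        · exact h (Tri.Adj.symm ⟨b, g1⟩)
        · exact h g2
      have e2 : m.nu c b v = 0 := by
        by_contra hne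
        obtain ⟨g1, g2, g3⟩ := m.nu_supp c b v hne
        rcases h with h | h
        · exact h ⟨b, S.T.cyc2 g1⟩
        · exact h g2
      rw [e1, e2, sub_zero]
    by_cases hadj : S.T.Adj v c
    · by_cases hc0 : S.side c = 0
      · have e1 : ∑ b, m.nu c v b = m.nu c v (S.T.nx c v) := by
          refine Finset.sum_eq_single _ (fun b _ hb => ?_) (fun h => absurd (Finset.mem_univ _) h)
          by_contra hne
          exact hb (S.T.nx_eq (m.nu_supp c v b hne).1).symm
        have e2 : ∑ b, m.nu c b v = m.nu c (S.T.nx v c) v := by
          refine Finset.sum_eq_single _ (fun b _ hb => ?_) (fun h => absurd (Finset.mem_univ _) h)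
          by_contra hne
          exact hb (S.T.nx_eq (S.T.cyc2 (m.nu_supp c b v hne).1)).symm
        rw [lz (fun h => by rw [hc0] at h; exact absurd h.2.2 (by decide)),
          lz' (fun h => by rw [hc0] at h; exact absurd h.2.1 (by decide)),
          Finset.sum_sub_distrib, e1, e2, ← h3 c v hadj.symm hc0]
        unfold tt
        rw [if_pos hc0]
        ring
      · rw [nz (Or.inr hc0)]
        by_cases hsame : S.side v = S.side c
        · rw [h1 v c hadj hsame, lz, lz', sub_self]
          · ring
          · rintro ⟨-, g1, g2⟩
            rw [hsame, g1] at g2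
            exact absurd g2 (by decide)
          · rintro ⟨-, g1, g2⟩
            rw [hsame, g2] at g1
            exact absurd g1 (by decide)
        · have hs : ∀ σ : SignType, σ ≠ 0 → σ = 1 ∨ σ = -1 := by decide
          rcases hs _ hv with hv1 | hv1
          · have hc1 : S.side c = -1 := by
              rcases hs _ hc0 with h | h
              · exact absurd (hv1.trans h.symm) hsame
              · exact h
            rw [h2 v c hadj hv1 hc1, lz' (fun h => by rw [hc1] at h; exact absurd h.2.1 (by decide))]
            unfold tt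
            rw [if_neg hc0, if_pos hv1]
            ring
          · have hc1 : S.side c = 1 := by
              rcases hs _ hc0 with h | h
              · exact h
              · exact absurd (hv1.trans h.symm) hsame
            have h4 := h2 c v hadj.symm hc1 hv1
            rw [lz (fun h => by rw [hc1] at h; exact absurd h.2.2 (by decide)), ← h4]
            unfold tt
            rw [if_neg hc0, if_neg (by rw [hv1]; decide)]
            ring
    · rw [h0 v c hadj, h0 c v (fun h => hadj h.symm), lz (fun h => hadj h.1),
        lz' (fun h => hadj h.1.symm), nz (Or.inl hadj)]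
      ring
  unfold M
  rw [Finset.sum_congr rfl fun c _ => key c, Finset.sum_add_distrib, Finset.sum_sub_distrib]
  have h5 := m.eqq v
  have h6 : ∑ c, S.X c * ∑ b, (m.nu c v b - m.nu c b v) =
      ∑ s, ∑ b, S.X s * (m.nu s v b - m.nu s b v) :=
    Finset.sum_congr rfl fun s _ => Finset.mul_sum _ _ _
  rw [h6]
  linarith

end Setup

end P4
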