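import Pool.Agent.Lib_MP_b306af.P4ZLP1
import Pool.Agent.Lib_MP_b306af.P4Farkas

/-! # MP_b306af Part IV: P4Mult -/

namespace P4

open Finset

variable {V : Type}

theorem sum_dl [Fintype V] [DecidableEq V] (f : V → V → ℝ) (v : V) :
    ∑ u, ∑ w, f u w * (Pi.single v 1 : V → ℝ) u = ∑ w, f v w := by
  rw [Finset.sum_eq_single v]
  · refine Finset.sum_congr rfl fun w _ => ?_
    rw [Pi.single_eq_same, mul_one]
  · intro u _ hu
    refine Finset.sum_eq_zero fun w _ => ?_
    rw [Pi.single_eq_of_ne hu, mul_zero]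
  · intro h
    exact absurd (Finset.mem_univ v) h

theorem sum_dr [Fintype V] [DecidableEq V] (f : V → V → ℝ) (v : V) :
    ∑ u, ∑ w, f u w * (Pi.single v 1 : V → ℝ) w = ∑ u, f u v := by
  rw [Finset.sum_comm]
  exact sum_dl (fun u w => f w u) v

namespace Setup

/- Piece MULT (P4LP, uses `motzkin`).  `E = (V → ℝ) × (V → ℝ) × ℝ`, elements `(p, q, ω)`.
Equalities, indexed by `{d : V × V // Adj d.1 d.2 ∧ side d.1 = 1 ∧ side d.2 = -1} ⊕
{v // Outer v ∧ side v ≠ 0}` (`Fintype` classically): `p u - p w - A u w * (q u - q w)` and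
`q v - y v * ω`.  Strict inequalities, indexed by `{v // Supp v ∧ side v ≠ 0} ⊕
{t : V × V × V // F t ∧ side t.1 = 0 ∧ side t.2.1 = side t.2.2} ⊕ Unit`: `(side v : ℝ) * q v`,
`(p b - X s * q b) - (p b' - X s * q b')`, `ω`.  First alternative: divide by `ω > 0`:
`p / ω`, `q / ω` is a solution (`(side v) * q v > 0` gives the sign: cases `side v = 1, -1`;
`q v / ω = y v`).  Second alternative: extend the multipliers by `0` to functions on `V`, `V × V`,
`V × V × V` (`fun v => if h : _ then l (Sum.inr ⟨v, h⟩) else 0`; sums over the subtypes become sums over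
`V` etc. with `Finset.sum_subtype` or `Fintype.sum_subtype`/`Finset.sum_dite`), and evaluate the
identity at `(Pi.single v 1, 0, 0)`, `(0, Pi.single v 1, 0)` and `(0, 0, 1)`. -/
theorem sol_or_mult [Fintype V] (S : Setup V) (y : V → ℝ) :
    (∃ p q, S.Sol y p q) ∨ Nonempty (S.Mult y) := by
  classical
  -- the conditions
  obtain ⟨c1, hc1⟩ : ∃ c1 : V → V → Prop, c1 = fun u w =>
    S.T.Adj u w ∧ S.side u = 1 ∧ S.side w = -1 := ⟨_, rfl⟩
  obtain ⟨c2, hc2⟩ : ∃ c2 : V → Prop, c2 = fun v => S.Outer v ∧ S.side v ≠ 0 := ⟨_, rfl⟩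
  obtain ⟨c3, hc3⟩ : ∃ c3 : V → Prop, c3 = fun v => S.T.Supp v ∧ S.side v ≠ 0 := ⟨_, rfl⟩
  obtain ⟨c4, hc4⟩ : ∃ c4 : V → V → V → Prop, c4 = fun s b b' =>
    S.T.F s b b' ∧ S.side s = 0 ∧ S.side b = S.side b' := ⟨_, rfl⟩
  -- the coordinates
  let P : V → ((V → ℝ) × (V → ℝ) × ℝ) →ₗ[ℝ] ℝ := fun v =>
    (LinearMap.proj v).comp (LinearMap.fst ℝ (V → ℝ) ((V → ℝ) × ℝ))
  let Q : V → ((V → ℝ) × (V → ℝ) × ℝ) →ₗ[ℝ] ℝ := fun v =>
    (LinearMap.proj v).comp ((LinearMap.fst ℝ (V → ℝ) ℝ).comp
      (LinearMap.snd ℝ (V → ℝ) ((V → ℝ) × ℝ)))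
  let O : ((V → ℝ) × (V → ℝ) × ℝ) →ₗ[ℝ] ℝ :=
    (LinearMap.snd ℝ (V → ℝ) ℝ).comp (LinearMap.snd ℝ (V → ℝ) ((V → ℝ) × ℝ))
  let L : (V × V) ⊕ V → ((V → ℝ) × (V → ℝ) × ℝ) →ₗ[ℝ] ℝ := fun i =>
    Sum.elim (fun d => if c1 d.1 d.2 then P d.1 - P d.2 - S.A d.1 d.2 • (Q d.1 - Q d.2) else 0)
      (fun v => if c2 v then Q v - y v • O else 0) i
  let g : V ⊕ (V × V × V) ⊕ Unit → ((V → ℝ) × (V → ℝ) × ℝ) →ₗ[ℝ] ℝ := fun j =>
    Sum.elim (fun v => if c3 v then ((S.side v : ℝ)) • Q v else O)
      (Sum.elim (fun t => if c4 t.1 t.2.1 t.2.2 then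
        (P t.2.1 - S.X t.1 • Q t.2.1) - (P t.2.2 - S.X t.1 • Q t.2.2) else O) (fun _ => O)) j
  rcases motzkin L g with ⟨x, hx, hg⟩ | ⟨l, Y, hY, hYp, hid⟩
  · left
    obtain ⟨p, q, ω⟩ := x
    have hω : 0 < ω := hg (Sum.inr (Sum.inr ()))
    refine ⟨fun v => p v / ω, fun v => q v / ω, ?_, ?_, ?_, ?_⟩
    · intro u w hadj hu hw
      have h1 := hx (Sum.inl (u, w))
      have h2 : c1 u w := by rw [hc1]; exact ⟨hadj, hu, hw⟩
      have h3 : L (Sum.inl (u, w)) = P u - P w - S.A u w • (Q u - Q w) := if_pos h2
      rw [h3] at h1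
      have h4 : p u - p w - S.A u w * (q u - q w) = 0 := h1
      have h5 : p u - p w = S.A u w * (q u - q w) := by linarith
      show p u / ω - p w / ω = S.A u w * (q u / ω - q w / ω)
      rw [← sub_div, h5, ← sub_div, mul_div_assoc]
    · intro v hv hs
      have h1 := hg (Sum.inl v)
      have h2 : c3 v := by rw [hc3]; exact ⟨hv, hs⟩
      have h3 : g (Sum.inl v) = (S.side v : ℝ) • Q v := if_pos h2
      rw [h3] at h1
      have h4 : 0 < (S.side v : ℝ) * q v := h1
      have hsg : ∀ σ : SignType, σ ≠ 0 → σ = 1 ∨ σ = -1 := by decide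
      show SignType.sign (q v / ω) = S.side v
      rcases hsg _ hs with e | e
      · rw [e] at h4 ⊢
        have h5 : 0 < q v := by simpa using h4
        exact sign_pos (div_pos h5 hω)
      · rw [e] at h4 ⊢
        have h5 : q v < 0 := by simpa using h4
        exact sign_neg (div_neg_of_neg_of_pos h5 hω)
    · intro s b b' hF hs hbb
      have h1 := hg (Sum.inr (Sum.inl (s, b, b')))
      have h2 : c4 s b b' := by rw [hc4]; exact ⟨hF, hs, hbb⟩
      have h3 : g (Sum.inr (Sum.inl (s, b, b'))) =
        (P b - S.X s • Q b) - (P b' - S.X s • Q b') := if_pos h2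
      rw [h3] at h1
      have h4 : 0 < (p b - S.X s * q b) - (p b' - S.X s * q b') := h1
      show p b' / ω - S.X s * (q b' / ω) < p b / ω - S.X s * (q b / ω)
      rw [← mul_div_assoc, ← mul_div_assoc, ← sub_div, ← sub_div]
      exact div_lt_div_of_pos_right (by linarith) hω
    · intro v hv hs
      have h1 := hx (Sum.inr v)
      have h2 : c2 v := by rw [hc2]; exact ⟨hv, hs⟩
      have h3 : L (Sum.inr v) = Q v - y v • O := if_pos h2
      rw [h3] at h1
      have h4 : q v - y v * ω = 0 := h1
      show q v / ω = y v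
      rw [div_eq_iff hω.ne']
      linarith
  · right
    obtain ⟨lam, hlam⟩ : ∃ lam : V → V → ℝ, lam = fun u w =>
      if c1 u w then l (Sum.inl (u, w)) else 0 := ⟨_, rfl⟩
    obtain ⟨l2, hl2⟩ : ∃ l2 : V → ℝ, l2 = fun v => if c2 v then l (Sum.inr v) else 0 := ⟨_, rfl⟩
    obtain ⟨xi, hxi⟩ : ∃ xi : V → ℝ, xi = fun v => if c3 v then Y (Sum.inl v) else 0 := ⟨_, rfl⟩
    obtain ⟨nu, hnu⟩ : ∃ nu : V → V → V → ℝ, nu = fun s b b' =>
      if c4 s b b' then Y (Sum.inr (Sum.inl (s, b, b'))) else 0 := ⟨_, rfl⟩
    obtain ⟨om, hom⟩ : ∃ om : ℝ, om = Y (Sum.inr (Sum.inr ())) +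
      ∑ v, (if c3 v then 0 else Y (Sum.inl v)) +
      ∑ t : V × V × V, (if c4 t.1 t.2.1 t.2.2 then 0 else Y (Sum.inr (Sum.inl t))) := ⟨_, rfl⟩
    have hn1 : 0 ≤ ∑ v, (if c3 v then 0 else Y (Sum.inl v)) := by
      refine Finset.sum_nonneg fun v _ => ?_
      split_ifs
      · exact le_rfl
      · exact hY _
    have hn2 : 0 ≤ ∑ t : V × V × V, (if c4 t.1 t.2.1 t.2.2 then 0 else Y (Sum.inr (Sum.inl t))) := by
      refine Finset.sum_nonneg fun v _ => ?_
      split_ifs
      · exact le_rfl
      · exact hY _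
    have hn3 := hY (Sum.inr (Sum.inr ()))
    -- the identity in terms of the multipliers
    have hmain : ∀ (p q : V → ℝ) (ω : ℝ),
        ∑ u, ∑ w, lam u w * (p u - p w - S.A u w * (q u - q w)) +
        ∑ v, l2 v * (q v - y v * ω) + ∑ v, xi v * ((S.side v : ℝ) * q v) +
        ∑ s, ∑ b, ∑ b', nu s b b' * ((p b - S.X s * q b) - (p b' - S.X s * q b')) + om * ω = 0 := by
      intro p q ω
      have h := hid (p, q, ω)
      rw [Fintype.sum_sum_type, Fintype.sum_sum_type, Fintype.sum_sum_type] at h
      have e1 : ∑ d : V × V, l (Sum.inl d) * L (Sum.inl d) (p, q, ω) =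
          ∑ u, ∑ w, lam u w * (p u - p w - S.A u w * (q u - q w)) := by
        rw [Fintype.sum_prod_type]
        refine Finset.sum_congr rfl fun u _ => Finset.sum_congr rfl fun w _ => ?_
        rw [hlam]
        by_cases h2 : c1 u w
        · have h3 : L (Sum.inl (u, w)) = P u - P w - S.A u w • (Q u - Q w) := if_pos h2
          rw [h3]
          beta_reduce
          rw [if_pos h2]
          rfl
        · have h3 : L (Sum.inl (u, w)) = 0 := if_neg h2
          rw [h3]
          beta_reduce
          rw [if_neg h2, zero_mul]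
          exact mul_zero _
      have e2 : ∑ v, l (Sum.inr v) * L (Sum.inr v) (p, q, ω) = ∑ v, l2 v * (q v - y v * ω) := by
        refine Finset.sum_congr rfl fun v _ => ?_
        rw [hl2]
        by_cases h2 : c2 v
        · have h3 : L (Sum.inr v) = Q v - y v • O := if_pos h2
          rw [h3]
          beta_reduce
          rw [if_pos h2]
          rfl
        · have h3 : L (Sum.inr v) = 0 := if_neg h2
          rw [h3]
          beta_reduce
          rw [if_neg h2, zero_mul]
          exact mul_zero _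
      have e3 : ∑ v, Y (Sum.inl v) * g (Sum.inl v) (p, q, ω) =
          ∑ v, xi v * ((S.side v : ℝ) * q v) + (∑ v, (if c3 v then 0 else Y (Sum.inl v))) * ω := by
        rw [Finset.sum_mul, ← Finset.sum_add_distrib]
        refine Finset.sum_congr rfl fun v _ => ?_
        rw [hxi]
        by_cases h2 : c3 v
        · have h3 : g (Sum.inl v) = (S.side v : ℝ) • Q v := if_pos h2
          rw [h3]
          beta_reduce
          rw [if_pos h2, if_pos h2, zero_mul, add_zero]
          rfl
        · have h3 : g (Sum.inl v) = O := if_neg h2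
          rw [h3]
          beta_reduce
          rw [if_neg h2, if_neg h2, zero_mul, zero_add]
          rfl
      have e4 : ∑ t : V × V × V, Y (Sum.inr (Sum.inl t)) * g (Sum.inr (Sum.inl t)) (p, q, ω) =
          ∑ s, ∑ b, ∑ b', nu s b b' * ((p b - S.X s * q b) - (p b' - S.X s * q b')) +
            (∑ t : V × V × V, (if c4 t.1 t.2.1 t.2.2 then 0 else Y (Sum.inr (Sum.inl t)))) * ω := by
        have e5 : ∑ s, ∑ b, ∑ b', nu s b b' * ((p b - S.X s * q b) - (p b' - S.X s * q b')) =
            ∑ t : V × V × V, nu t.1 t.2.1 t.2.2 *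
              ((p t.2.1 - S.X t.1 * q t.2.1) - (p t.2.2 - S.X t.1 * q t.2.2)) := by
          rw [Fintype.sum_prod_type]
          refine Finset.sum_congr rfl fun s _ => ?_
          rw [Fintype.sum_prod_type]
        rw [e5, Finset.sum_mul, ← Finset.sum_add_distrib]
        refine Finset.sum_congr rfl fun t _ => ?_
        obtain ⟨s, b, b'⟩ := t
        rw [hnu]
        by_cases h2 : c4 s b b'
        · have h3 : g (Sum.inr (Sum.inl (s, b, b'))) =
            (P b - S.X s • Q b) - (P b' - S.X s • Q b') := if_pos h2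
          rw [h3]
          beta_reduce
          rw [if_pos h2, if_pos h2, zero_mul, add_zero]
          rfl
        · have h3 : g (Sum.inr (Sum.inl (s, b, b'))) = O := if_neg h2
          rw [h3]
          beta_reduce
          rw [if_neg h2, if_neg h2, zero_mul, zero_add]
          rfl
      have e6 : ∑ u : Unit, Y (Sum.inr (Sum.inr u)) * g (Sum.inr (Sum.inr u)) (p, q, ω) =
          Y (Sum.inr (Sum.inr ())) * ω := by
        rw [Fintype.sum_unique]
        rfl
      rw [e1, e2, e3, e4, e6] at h
      rw [hom]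
      linarith
    refine ⟨⟨lam, l2, xi, nu, om, ?_, ?_, ?_, ?_, ?_, ?_, ?_, ?_, ?_, ?_, ?_⟩⟩
    · intro v
      rw [hxi]
      beta_reduce
      split_ifs
      · exact hY _
      · exact le_rfl
    · intro s b b'
      rw [hnu]
      beta_reduce
      split_ifs
      · exact hY _
      · exact le_rfl
    · rw [hom]
      linarith
    · intro u w h
      rw [hlam] at h
      beta_reduce at h
      by_cases h2 : c1 u w
      · rw [hc1] at h2
        exact h2
      · rw [if_neg h2] at h
        exact absurd rfl h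
    · intro v h
      rw [hl2] at h
      beta_reduce at h
      by_cases h2 : c2 v
      · rw [hc2] at h2
        exact h2
      · rw [if_neg h2] at h
        exact absurd rfl h
    · intro v h
      rw [hxi] at h
      beta_reduce at h
      by_cases h2 : c3 v
      · rw [hc3] at h2
        exact h2
      · rw [if_neg h2] at h
        exact absurd rfl h
    · intro s b b' h
      rw [hnu] at h
      beta_reduce at h
      by_cases h2 : c4 s b b'
      · rw [hc4] at h2
        exact h2
      · rw [if_neg h2] at h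
        exact absurd rfl h
    · obtain ⟨j, hj⟩ := hYp
      rcases j with v | t | u
      · by_cases h2 : c3 v
        · refine Or.inl ⟨v, ?_⟩
          rw [hxi]
          beta_reduce
          rw [if_pos h2]
          exact hj.ne'
        · refine Or.inr (Or.inr ?_)
          have h3 : Y (Sum.inl v) ≤ ∑ v, (if c3 v then 0 else Y (Sum.inl v)) := by
            have h4 := Finset.single_le_sum (f := fun v => (if c3 v then 0 else Y (Sum.inl v)))
              (fun v _ => by
                beta_reduce
                split_ifs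
                · exact le_rfl
                · exact hY _) (Finset.mem_univ v)
            beta_reduce at h4
            rw [if_neg h2] at h4
            exact h4
          rw [hom]
          linarith [hj]
      · obtain ⟨s, b, b'⟩ := t
        by_cases h2 : c4 s b b'
        · refine Or.inr (Or.inl ⟨s, b, b', ?_⟩)
          rw [hnu]
          beta_reduce
          rw [if_pos h2]
          exact hj.ne'
        · refine Or.inr (Or.inr ?_)
          have h3 : Y (Sum.inr (Sum.inl (s, b, b'))) ≤
              ∑ t : V × V × V, (if c4 t.1 t.2.1 t.2.2 then 0 else Y (Sum.inr (Sum.inl t))) := by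
            have h4 := Finset.single_le_sum (f := fun t : V × V × V =>
                (if c4 t.1 t.2.1 t.2.2 then 0 else Y (Sum.inr (Sum.inl t))))
              (fun v _ => by
                beta_reduce
                split_ifs
                · exact le_rfl
                · exact hY _) (Finset.mem_univ (s, b, b'))
            beta_reduce at h4
            rw [if_neg h2] at h4
            exact h4
          rw [hom]
          linarith [hj]
      · refine Or.inr (Or.inr ?_)
        rw [hom]
        have : 0 < Y (Sum.inr (Sum.inr ())) := hj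
        linarith
    · intro v
      have h := hmain (Pi.single v 1) 0 0
      have e1 : ∑ u, ∑ w, lam u w * ((Pi.single v 1 : V → ℝ) u - (Pi.single v 1 : V → ℝ) w -
          S.A u w * ((0 : V → ℝ) u - (0 : V → ℝ) w)) = ∑ w, lam v w - ∑ u, lam u v := by
        rw [← sum_dl lam v, ← sum_dr lam v, ← Finset.sum_sub_distrib]
        refine Finset.sum_congr rfl fun u _ => ?_
        rw [← Finset.sum_sub_distrib]
        refine Finset.sum_congr rfl fun w _ => ?_
        rw [Pi.zero_apply, Pi.zero_apply]
        ring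
      have e2 : ∑ s, ∑ b, ∑ b', nu s b b' * (((Pi.single v 1 : V → ℝ) b - S.X s * (0 : V → ℝ) b) -
          ((Pi.single v 1 : V → ℝ) b' - S.X s * (0 : V → ℝ) b')) =
          ∑ s, ∑ b, (nu s v b - nu s b v) := by
        refine Finset.sum_congr rfl fun s _ => ?_
        rw [Finset.sum_sub_distrib, ← sum_dl (nu s) v, ← sum_dr (nu s) v,
          ← Finset.sum_sub_distrib]
        refine Finset.sum_congr rfl fun u _ => ?_
        rw [← Finset.sum_sub_distrib]
        refine Finset.sum_congr rfl fun w _ => ?_
        rw [Pi.zero_apply, Pi.zero_apply]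
        ring
      have e3 : ∑ u, l2 u * ((0 : V → ℝ) u - y u * 0) = 0 := by
        refine Finset.sum_eq_zero fun u _ => ?_
        rw [Pi.zero_apply]
        ring
      have e4 : ∑ u, xi u * ((S.side u : ℝ) * (0 : V → ℝ) u) = 0 := by
        refine Finset.sum_eq_zero fun u _ => ?_
        rw [Pi.zero_apply]
        ring
      rw [e1, e2, e3, e4] at h
      linarith
    · intro v
      have h := hmain 0 (Pi.single v 1) 0
      have e1 : ∑ u, ∑ w, lam u w * ((0 : V → ℝ) u - (0 : V → ℝ) w -
          S.A u w * ((Pi.single v 1 : V → ℝ) u - (Pi.single v 1 : V → ℝ) w)) =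
          - ∑ w, S.A v w * lam v w + ∑ u, S.A u v * lam u v := by
        rw [← sum_dl (fun u w => S.A u w * lam u w) v, ← sum_dr (fun u w => S.A u w * lam u w) v,
          ← Finset.sum_neg_distrib, ← Finset.sum_add_distrib]
        refine Finset.sum_congr rfl fun u _ => ?_
        rw [← Finset.sum_neg_distrib, ← Finset.sum_add_distrib]
        refine Finset.sum_congr rfl fun w _ => ?_
        rw [Pi.zero_apply, Pi.zero_apply]
        ring
      have e2 : ∑ s, ∑ b, ∑ b', nu s b b' * (((0 : V → ℝ) b - S.X s * (Pi.single v 1 : V → ℝ) b) -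
          ((0 : V → ℝ) b' - S.X s * (Pi.single v 1 : V → ℝ) b')) =
          - ∑ s, ∑ b, S.X s * (nu s v b - nu s b v) := by
        rw [← Finset.sum_neg_distrib]
        refine Finset.sum_congr rfl fun s _ => ?_
        have e5 : ∑ b, S.X s * (nu s v b - nu s b v) =
            ∑ b, S.X s * nu s v b - ∑ b, S.X s * nu s b v := by
          rw [← Finset.sum_sub_distrib]
          refine Finset.sum_congr rfl fun b _ => ?_
          ring
        rw [e5, ← sum_dl (fun b b' => S.X s * nu s b b') v,
          ← sum_dr (fun b b' => S.X s * nu s b b') v,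
          ← Finset.sum_sub_distrib, ← Finset.sum_neg_distrib]
        refine Finset.sum_congr rfl fun u _ => ?_
        rw [← Finset.sum_sub_distrib, ← Finset.sum_neg_distrib]
        refine Finset.sum_congr rfl fun w _ => ?_
        rw [Pi.zero_apply, Pi.zero_apply]
        ring
      have e3 : ∑ u, l2 u * ((Pi.single v 1 : V → ℝ) u - y u * 0) = l2 v := by
        rw [Finset.sum_eq_single v]
        · rw [Pi.single_eq_same]
          ring
        · intro u _ hu
          rw [Pi.single_eq_of_ne hu]
          ring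
        · intro h
          exact absurd (Finset.mem_univ v) h
      have e4 : ∑ u, xi u * ((S.side u : ℝ) * (Pi.single v 1 : V → ℝ) u) =
          (S.side v : ℝ) * xi v := by
        rw [Finset.sum_eq_single v]
        · rw [Pi.single_eq_same]
          ring
        · intro u _ hu
          rw [Pi.single_eq_of_ne hu]
          ring
        · intro h
          exact absurd (Finset.mem_univ v) h
      rw [e1, e2, e3, e4] at h
      linarith
    · have h := hmain 0 0 1
      simp only [Pi.zero_apply, mul_zero, sub_zero, sub_self, Finset.sum_const_zero, zero_add,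
        zero_sub, mul_one, mul_neg, Finset.sum_neg_distrib, add_zero] at h
      have h2 : ∑ v, l2 v * y v = ∑ v, y v * l2 v :=
        Finset.sum_congr rfl fun v _ => mul_comm _ _
      linarith

end Setup

end P4
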