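import Pool.Agent.Lib_MP_b306af.P4ZLab2
import Pool.Agent.Lib_MP_b306af.P4ZBasic1

/-! # MP_b306af Part IV: P4Nosep -/

namespace P4

variable {V : Type}

namespace Setup

/- Piece NOSEP.  Between two bond edges with the same lower end `s` on the axis there is no crossing
edge.  Let `i < k < m`, `(e i).2 = (e k).2 = s`, `u_i = (e i).1`, `u_k = (e k).1`, `u_i ≠ u_k`.
(1) `κ1 x y = 1` if `(x, y) = e r` for some `r` with `i < r ≤ k`, `-1` if `(y, x)` is of this form,
`0` otherwise.  On the face left of `e r` (`r < m`; every face with a vertex above and a vertex not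
above is of this form after rotation, for exactly one `r < m`) its sum is `1` for `r = k`, `-1` for
`r = i`, `0` otherwise (`E.step`, `E.wrap`, `E.inj`); on other faces it is `0`.
(2) Rotation around `s`: let `y_i = nx u_i s`, `y_k = nx u_k s`: `T.F u_i s y_i`, i.e. `nx s y_i = u_i`,
same for `k`.  `ν n = (fun c => S.T.nx s c)^[n] u_i`; by `Tri.iter_nx` there is `N` with `ν N = y_k`.
`g x = #{n | n ≤ N ∧ ν n = x}`, `κ2 s x = g x`, `κ2 x s = - g x` for `x` adjacent to `s`, all other
values `0`.  On a face `T.F s x z` (`z = nx s x`) the sum is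
`g x - g z = #{n ≤ N | ν n = x} - #{n ≤ N | ν n = nx s x}`, the second is
`[u_i = nx s x] + #{n ≤ N - 1 | ν n = x}` (injectivity of `nx s` on the neighbours), so the sum is
`[x = y_k] - [x = y_i]`: it is `1` on the face left of `e k`, `-1` on the face left of `e i`
(`y_i ≠ y_k` since `u_i ≠ u_k`), and `0` on the other faces at `s`; on faces without `s` it is `0`.
(3) `κ = κ1 - κ2` has sum `0` on every face; `T.exact` gives `h`.  `h` is constant on the vertices above
and constant on the vertices below (`hS.conn`; between two vertices above, or two below,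
`κ = 0`).  So for all crossing edges `e r = (u, w)` (`side w = -1`): `[i < r ≤ k] = κ u w = h w - h u` is
the same.  The outer face contains a crossing edge; it is a face left of `e (m - 1)`, so
`e (m - 1)` or `e 0 = succ (e (m - 1))` is a crossing edge (if `side (e (m-1)).2 = 0` the third vertex
must be below, and then `e 0` is the crossing edge) — and `0` is not in `(i, k]`, and `m - 1 ∈ (i, k]` only if
`k = m - 1`, but `e k` is not a crossing edge.  So no crossing edge has `i < r ≤ k`. -/
theorem BondSeq.nosep [Finite V] {S : Setup V} (hS : S.Pre0) (E : S.BondSeq) (i k j : ℕ)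
    (hik : i < k) (hk : k < E.m) (h1 : (E.e i).2 = (E.e k).2) (h0 : S.side (E.e i).2 = 0)
    (hij : i < j) (hjk : j < k) : S.side (E.e j).2 ≠ -1 := by
  classical
  set s := (E.e i).2 with hs
  have hki : (E.e k).2 = s := h1.symm
  have bi := E.bond i
  have bk := E.bond k
  let ind : V × V → ℝ := fun p => if ∃ r, i < r ∧ r ≤ k ∧ E.e r = p then 1 else 0
  let D : V × V → ℝ := fun p => (if p = E.e k then 1 else 0) - (if p = E.e i then 1 else 0)
  have ind0 : ∀ x y, ¬ (S.side x = 1 ∧ S.side y ≠ 1) → ind (x, y) = 0 := by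
    intro x y h
    apply if_neg
    rintro ⟨r, _, _, hr⟩
    have hb := E.bond r
    rw [hr] at hb
    exact h ⟨hb.2.1, hb.2.2⟩
  have D0 : ∀ x y, ¬ (S.side x = 1 ∧ S.side y ≠ 1) → D (x, y) = 0 := by
    intro x y h
    have e1 : ¬ (x, y) = E.e k := by
      intro hh
      have hb := E.bond k
      rw [← hh] at hb
      exact h ⟨hb.2.1, hb.2.2⟩
    have e2 : ¬ (x, y) = E.e i := by
      intro hh
      have hb := E.bond i
      rw [← hh] at hb
      exact h ⟨hb.2.1, hb.2.2⟩
    show (if (x, y) = E.e k then (1 : ℝ) else 0) - (if (x, y) = E.e i then 1 else 0) = 0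
    rw [if_neg e1, if_neg e2, sub_zero]
  have Ds : ∀ x y, y ≠ s → D (x, y) = 0 := by
    intro x y h
    have e1 : ¬ (x, y) = E.e k := by
      intro hh
      apply h
      rw [← hki, ← hh]
    have e2 : ¬ (x, y) = E.e i := by
      intro hh
      apply h
      rw [hs, ← hh]
    show (if (x, y) = E.e k then (1 : ℝ) else 0) - (if (x, y) = E.e i then 1 else 0) = 0
    rw [if_neg e1, if_neg e2, sub_zero]
  have inde : ∀ r, r < E.m → ind (E.e r) = if i < r ∧ r ≤ k then 1 else 0 := by
    intro r hr
    by_cases h : i < r ∧ r ≤ k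
    · rw [if_pos h]
      exact if_pos ⟨r, h.1, h.2, rfl⟩
    · rw [if_neg h]
      apply if_neg
      rintro ⟨r', h1', h2', h3'⟩
      have := E.inj r' (by omega) r hr h3'
      subst this
      exact h ⟨h1', h2'⟩
  have De : ∀ r, r < E.m →
      D (E.e r) = (if r = k then 1 else 0) - (if r = i then 1 else 0) := by
    intro r hr
    have a1 : E.e r = E.e k ↔ r = k := ⟨fun h => E.inj r hr k hk h, fun h => by rw [h]⟩
    have a2 : E.e r = E.e i ↔ r = i := ⟨fun h => E.inj r hr i (by omega) h, fun h => by rw [h]⟩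
    show (if E.e r = E.e k then (1 : ℝ) else 0) - (if E.e r = E.e i then 1 else 0) = _
    simp only [a1, a2]
  have L1 : ∀ a b, S.IsBond (a, b) → ind (a, b) - ind (S.succ (a, b)) = D (a, b) := by
    intro a b hab
    obtain ⟨r, hr, hre⟩ := E.surj (a, b) hab
    rw [← hre, De r hr, inde r hr]
    rcases Nat.lt_or_ge (r + 1) E.m with h | h
    · rw [← E.step r, inde (r + 1) h]
      split_ifs <;> first | omega | norm_num
    · have hrm : r = E.m - 1 := by omega
      have h00 : S.succ (E.e r) = E.e 0 := by rw [hrm]; exact E.wrap.symm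
      rw [h00, inde 0 E.hm]
      split_ifs <;> first | omega | norm_num
  have key : ∀ a b c, S.T.F a b c → S.side a = 1 → S.side b ≠ 1 →
      (ind (a, b) - ind (b, a)) + (ind (b, c) - ind (c, b)) + (ind (c, a) - ind (a, c)) =
      D (a, b) + D (b, c) + D (c, a) := by
    intro a b c hF ha hb
    have hbond : S.IsBond (a, b) := ⟨⟨c, hF⟩, ha, hb⟩
    have hL := L1 a b hbond
    have hnx : S.T.nx a b = c := S.T.nx_eq hF
    have z1 : ind (b, a) = 0 := ind0 _ _ (fun h => hb h.1)
    have z2 : ind (b, c) = 0 := ind0 _ _ (fun h => hb h.1)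
    have z3 : ind (c, a) = 0 := ind0 _ _ (fun h => h.2 ha)
    have z4 : D (b, c) = 0 := D0 _ _ (fun h => hb h.1)
    have z5 : D (c, a) = 0 := D0 _ _ (fun h => h.2 ha)
    by_cases hc : S.side c = 1
    · have hsucc : S.succ (a, b) = (c, b) := by
        simp only [succ, hnx, if_pos hc]
      have z6 : ind (a, c) = 0 := ind0 _ _ (fun h => h.2 hc)
      rw [hsucc] at hL
      rw [z1, z2, z3, z4, z5, z6]
      linarith
    · have hsucc : S.succ (a, b) = (a, c) := by
        simp only [succ, hnx, if_neg hc]
      have z6 : ind (c, b) = 0 := ind0 _ _ (fun h => hc h.1)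
      rw [hsucc] at hL
      rw [z1, z2, z3, z4, z5, z6]
      linarith
  have F1 : ∀ a b c, S.T.F a b c →
      (ind (a, b) - ind (b, a)) + (ind (b, c) - ind (c, b)) + (ind (c, a) - ind (a, c)) =
      D (a, b) + D (b, c) + D (c, a) := by
    intro a b c hF
    by_cases ha : S.side a = 1
    · by_cases hb : S.side b = 1
      · by_cases hc : S.side c = 1
        · rw [ind0 a b (fun h => h.2 hb), ind0 b a (fun h => h.2 ha), ind0 b c (fun h => h.2 hc),
            ind0 c b (fun h => h.2 hb), ind0 c a (fun h => h.2 ha), ind0 a c (fun h => h.2 hc),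
            D0 a b (fun h => h.2 hb), D0 b c (fun h => h.2 hc), D0 c a (fun h => h.2 ha)]
          norm_num
        · have := key b c a (S.T.cyc _ _ _ hF) hb hc
          linarith
      · exact key a b c hF ha hb
    · by_cases hc : S.side c = 1
      · have := key c a b (S.T.cyc2 hF) hc ha
        linarith
      · by_cases hb : S.side b = 1
        · have := key b c a (S.T.cyc _ _ _ hF) hb hc
          linarith
        · rw [ind0 a b (fun h => ha h.1), ind0 b a (fun h => hb h.1), ind0 b c (fun h => hb h.1),
            ind0 c b (fun h => hc h.1), ind0 c a (fun h => hc h.1), ind0 a c (fun h => ha h.1),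
            D0 a b (fun h => ha h.1), D0 b c (fun h => hb h.1), D0 c a (fun h => hc h.1)]
          norm_num
  -- rotation around `s`
  have adi : S.T.Adj s (E.e i).1 := Tri.Adj.symm bi.1
  have adk : S.T.Adj (E.e k).1 s := by rw [← hki]; exact bk.1
  obtain ⟨yk, hyk⟩ := adk
  have adyk : S.T.Adj s yk := ⟨_, S.T.cyc _ _ _ hyk⟩
  obtain ⟨N, hN⟩ := S.T.iter_nx s (E.e i).1 yk adi adyk
  let ν : ℕ → V := fun n => (fun c => S.T.nx s c)^[n] (E.e i).1
  have ν0 : ν 0 = (E.e i).1 := rfl
  have νs : ∀ n, ν (n + 1) = S.T.nx s (ν n) := fun n =>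
    Function.iterate_succ_apply' (fun c => S.T.nx s c) n (E.e i).1
  have νN : ν N = yk := hN
  have νadj : ∀ n, S.T.Adj s (ν n) := by
    intro n
    induction n with
    | zero => exact adi
    | succ n ih =>
      rw [νs n]
      exact Tri.Adj.symm ⟨_, S.T.cyc2 (S.T.F_nx ih)⟩
  let g : V → ℝ := fun x => ∑ n ∈ Finset.range (N + 1), if ν n = x then 1 else 0
  have G : ∀ x z, S.T.F s x z → g x - g z = D (z, s) := by
    intro x z hF
    have hstep : ∀ n, (ν (n + 1) = z ↔ ν n = x) := by
      intro n
      rw [νs n]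
      constructor
      · intro h
        have hf := S.T.F_nx (νadj n)
        rw [h] at hf
        exact S.T.uniq _ _ _ _ (S.T.cyc2 hf) (S.T.cyc2 hF)
      · intro h
        rw [h]
        exact S.T.nx_eq hF
    have g1 : g x = (∑ n ∈ Finset.range N, if ν n = x then 1 else 0) +
        if ν N = x then 1 else 0 := Finset.sum_range_succ _ _
    have g2 : g z = (∑ n ∈ Finset.range N, if ν (n + 1) = z then 1 else 0) +
        if ν 0 = z then 1 else 0 := Finset.sum_range_succ' _ _
    have hd1 : ((z, s) = E.e k) ↔ yk = x := by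
      constructor
      · intro h
        have hz1 : (E.e k).1 = z := by rw [← h]
        rw [hz1] at hyk
        exact S.T.uniq _ _ _ _ hyk (S.T.cyc2 hF)
      · intro h
        subst h
        have := S.T.uniq _ _ _ _ (S.T.cyc _ _ _ hyk) hF
        have hE : E.e k = (z, s) := Prod.ext this hki
        exact hE.symm
    have hd2 : ((z, s) = E.e i) ↔ (E.e i).1 = z := by
      constructor
      · intro h
        rw [← h]
      · intro h
        have hE : E.e i = (z, s) := Prod.ext h rfl
        exact hE.symm
    have hD : D (z, s) = (if yk = x then 1 else 0) - (if (E.e i).1 = z then 1 else 0) := by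
      show (if (z, s) = E.e k then (1 : ℝ) else 0) - (if (z, s) = E.e i then 1 else 0) = _
      simp only [hd1, hd2]
    rw [g1, g2, hD, νN, ν0]
    simp only [hstep]
    ring
  have sne : ∀ x y z, S.T.F x y z → x ≠ y ∧ y ≠ z ∧ z ≠ x := fun x y z hF =>
    ⟨S.T.ne _ _ _ hF, S.T.ne _ _ _ (S.T.cyc _ _ _ hF), S.T.ne _ _ _ (S.T.cyc2 hF)⟩
  have F2 : ∀ a b c, S.T.F a b c →
      ((if a = s then g b else 0) - (if b = s then g a else 0)) +
      ((if b = s then g c else 0) - (if c = s then g b else 0)) +
      ((if c = s then g a else 0) - (if a = s then g c else 0)) =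
      D (a, b) + D (b, c) + D (c, a) := by
    intro a b c hF
    obtain ⟨nab, nbc, nca⟩ := sne a b c hF
    by_cases ha : a = s
    · have hb : b ≠ s := fun h => nab (ha.trans h.symm)
      have hc : c ≠ s := fun h => nca (h.trans ha.symm)
      rw [if_pos ha, if_neg hb, if_neg hb, if_neg hc, if_neg hc, if_pos ha, Ds a b hb, Ds b c hc]
      rw [ha] at hF ⊢
      have := G b c hF
      linarith
    · by_cases hb : b = s
      · have hc : c ≠ s := fun h => nbc (hb.trans h.symm)
        rw [if_neg ha, if_pos hb, if_pos hb, if_neg hc, if_neg hc, if_neg ha, Ds b c hc,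
          Ds c a ha]
        rw [hb] at hF ⊢
        have := G c a (S.T.cyc _ _ _ hF)
        linarith
      · by_cases hc : c = s
        · rw [if_neg ha, if_neg hb, if_neg hb, if_pos hc, if_pos hc, if_neg ha, Ds a b hb,
            Ds c a ha]
          rw [hc] at hF ⊢
          have := G a b (S.T.cyc2 hF)
          linarith
        · rw [if_neg ha, if_neg hb, if_neg hb, if_neg hc, if_neg hc, if_neg ha, Ds a b hb,
            Ds c a ha, Ds b c hc]
          norm_num
  let κ : V → V → ℝ := fun x y => (ind (x, y) - ind (y, x)) -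
    ((if x = s then g y else 0) - (if y = s then g x else 0))
  obtain ⟨h, hh⟩ := S.T.exact κ (by
      intro a b
      show (ind (a, b) - ind (b, a)) - ((if a = s then g b else 0) - (if b = s then g a else 0)) =
        -((ind (b, a) - ind (a, b)) - ((if b = s then g a else 0) - (if a = s then g b else 0)))
      ring)
    (by
      intro a b c hF
      have e1 := F1 a b c hF
      have e2 := F2 a b c hF
      show ((ind (a, b) - ind (b, a)) - ((if a = s then g b else 0) - (if b = s then g a else 0))) +
        ((ind (b, c) - ind (c, b)) - ((if b = s then g c else 0) - (if c = s then g b else 0))) +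
        ((ind (c, a) - ind (a, c)) - ((if c = s then g a else 0) - (if a = s then g c else 0))) = 0
      linarith)
  have hsne : ∀ x, S.side x ≠ 0 → x ≠ s := fun x hx hxs => hx (by rw [hxs]; exact h0)
  have κ0 : ∀ x y, S.side x ≠ 0 → S.side y ≠ 0 → κ x y = ind (x, y) - ind (y, x) := by
    intro x y hx hy
    show (ind (x, y) - ind (y, x)) - ((if x = s then g y else 0) - (if y = s then g x else 0)) = _
    rw [if_neg (hsne x hx), if_neg (hsne y hy)]
    ring
  have cst : ∀ σ : SignType, σ ≠ 0 → ∀ a b, S.T.Supp a → S.T.Supp b → S.side a = σ →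
      S.side b = σ → h a = h b := by
    intro σ hσ a b sa sb ha hb
    refine hS.conn σ hσ (fun v => h a = h v) ?_ a b sa sb ha hb rfl
    intro x y z hF hx hy hP
    have e := hh x y z hF
    rw [κ0 x y (by rw [hx]; exact hσ) (by rw [hy]; exact hσ)] at e
    have hi1 : ind (x, y) = 0 := ind0 _ _ (fun h => h.2 (by rw [hy, ← hx]; exact h.1))
    have hi2 : ind (y, x) = 0 := ind0 _ _ (fun h => h.2 (by rw [hx, ← hy]; exact h.1))
    rw [hi1, hi2] at e
    have hP' : h a = h x := hP
    show h a = h y
    linarith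
  have cr : ∀ r, S.side (E.e r).2 = -1 → ind (E.e r) = h (E.e r).2 - h (E.e r).1 := by
    intro r hr
    have hb := E.bond r
    obtain ⟨z, hz⟩ := hb.1
    have e := hh _ _ _ hz
    have hn1 : S.side (E.e r).1 ≠ 0 := by rw [hb.2.1]; decide
    have hn2 : S.side (E.e r).2 ≠ 0 := by rw [hr]; decide
    rw [κ0 _ _ hn1 hn2, ind0 (E.e r).2 (E.e r).1 (fun h => hb.2.2 h.1)] at e
    have e' : ind (E.e r) - 0 = h (E.e r).2 - h (E.e r).1 := e
    linarith
  have crr : ∀ r r', S.side (E.e r).2 = -1 → S.side (E.e r').2 = -1 →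
      ind (E.e r) = ind (E.e r') := by
    intro r r' hr hr'
    have hb := E.bond r
    have hb' := E.bond r'
    rw [cr r hr, cr r' hr', cst 1 (by decide) _ _ (Tri.Adj.supp hb.1) (Tri.Adj.supp hb'.1) hb.2.1
      hb'.2.1, cst (-1) (by decide) _ _ (Tri.Adj.supp (Tri.Adj.symm hb.1))
      (Tri.Adj.supp (Tri.Adj.symm hb'.1)) hr hr']
  intro hj
  have hjm : j < E.m := by omega
  have hindj : ind (E.e j) = 1 := by rw [inde j hjm, if_pos ⟨hij, by omega⟩]
  have hm := E.hm
  have hlast := E.bond (E.m - 1)
  have hcase : S.side (E.e (E.m - 1)).2 = -1 ∨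
      S.side (S.T.nx (E.e (E.m - 1)).1 (E.e (E.m - 1)).2) = -1 := by
    obtain ⟨v, hv, hvs⟩ := hS.minus0
    have hv' : v = (E.e (E.m - 1)).1 ∨ v = (E.e (E.m - 1)).2 ∨
        v = S.T.nx (E.e (E.m - 1)).1 (E.e (E.m - 1)).2 := by
      rcases E.outer with ⟨a1, a2, a3⟩ | ⟨a1, a2, a3⟩ | ⟨a1, a2, a3⟩ <;>
        rcases hv with hv | hv | hv
      · exact Or.inl (hv.trans a1.symm)
      · exact Or.inr (Or.inl (hv.trans a2.symm))
      · exact Or.inr (Or.inr (hv.trans a3.symm))
      · exact Or.inr (Or.inr (hv.trans a3.symm))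
      · exact Or.inl (hv.trans a1.symm)
      · exact Or.inr (Or.inl (hv.trans a2.symm))
      · exact Or.inr (Or.inl (hv.trans a2.symm))
      · exact Or.inr (Or.inr (hv.trans a3.symm))
      · exact Or.inl (hv.trans a1.symm)
    rcases hv' with hv' | hv' | hv'
    · rw [hv', hlast.2.1] at hvs
      exact absurd hvs (by decide)
    · rw [hv'] at hvs
      exact Or.inl hvs
    · rw [hv'] at hvs
      exact Or.inr hvs
  rcases hcase with hc | hc
  · have hne : k ≠ E.m - 1 := by
      intro hkm
      rw [← hkm, hki, h0] at hc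
      exact absurd hc (by decide)
    have e := crr j (E.m - 1) hj hc
    rw [hindj, inde (E.m - 1) (by omega), if_neg (by omega)] at e
    norm_num at e
  · have hsucc : S.succ (E.e (E.m - 1)) =
        ((E.e (E.m - 1)).1, S.T.nx (E.e (E.m - 1)).1 (E.e (E.m - 1)).2) := by
      unfold succ
      rw [if_neg]
      rw [hc]
      decide
    have h00 : S.side (E.e 0).2 = -1 := by
      rw [E.wrap, hsucc]
      exact hc
    have e := crr j 0 hj h00
    rw [hindj, inde 0 hm, if_neg (by omega)] at e
    norm_num at e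

end Setup

end P4
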