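import Pool.Agent.Lib_MP_b306af.P4Labs

/-! # MP_b306af Part IV: P4ZBond3 -/

namespace P4

variable {V : Type}

namespace Setup

variable {S : Setup V}

theorem BondSeq.lab_mono (hS : S.Good) (E : S.BondSeq) (i k : ℕ) (hik : i ≤ k) (hk : k < E.m) :
    S.tO (E.e i) ≤ S.tO (E.e k) := by
  induction k, hik using Nat.le_induction with
  | base => exact le_rfl
  | succ k h ih => exact (ih (by omega)).trans (E.lab_step hS k hk).1

theorem BondSeq.lab_cross_lt (hS : S.Good) (E : S.BondSeq) (i k : ℕ) (hik : i < k)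
    (hk : k < E.m) (h : S.side (E.e i).2 = -1 ∨ S.side (E.e k).2 = -1) :
    S.tO (E.e i) < S.tO (E.e k) := by
  rcases h with h | h
  · refine lt_of_lt_of_le ((E.lab_step hS i (by omega)).2 ?_) (E.lab_mono hS (i + 1) k hik hk)
    rintro ⟨h', -⟩
    rw [h] at h'
    exact absurd h' (by decide)
  · obtain ⟨k', rfl⟩ : ∃ k', k = k' + 1 := ⟨k - 1, by omega⟩
    refine lt_of_le_of_lt (E.lab_mono hS i k' (by omega) (by omega))
      ((E.lab_step hS k' hk).2 ?_)
    rintro ⟨h1, h2⟩
    rw [E.step k', succ, if_pos h2] at h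
    rw [h1] at h
    exact absurd h (by decide)

/-- same vertex: the labels are different -/
theorem BondSeq.lab_same_lt (hS : S.Good) (E : S.BondSeq) (i k : ℕ) (hik : i < k)
    (hk : k < E.m) (h : (E.e i).1 = (E.e k).1) : S.tO (E.e i) < S.tO (E.e k) := by
  by_contra hcon
  have hall : ∀ r, i ≤ r → r ≤ k → (E.e r).2 = (E.e i).2 := by
    intro r hir
    induction r, hir using Nat.le_induction with
    | base => intro _; rfl
    | succ r hr ih =>
      intro hrk
      have hst := (E.lab_step hS r (by omega)).2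
      have h1 := E.lab_mono hS i r (by omega) (by omega)
      have h2 := E.lab_mono hS (r + 1) k (by omega) hk
      by_cases hc : S.side (E.e r).2 = 0 ∧ S.side (S.T.nx (E.e r).1 (E.e r).2) = 1
      · rw [E.step r, succ, if_pos hc.2]
        exact ih (by omega)
      · exact absurd (h1.trans_lt (lt_of_lt_of_le (hst hc) h2)) hcon
  have h2 := hall k (by omega) le_rfl
  have := E.inj i (by omega) k hk (Prod.ext h h2.symm)
  omega

/-- the potential of the face before `e (r + 1)` is the potential of the face after `e r` -/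
theorem succ_phi (φ : V → V → ℝ) (hφ : ∀ a b c, S.T.F a b c → φ a b = φ b c) (e : V × V)
    (he : S.IsBond e) : φ (S.succ e).2 (S.succ e).1 = φ e.1 e.2 := by
  have hF := S.T.F_nx he.1
  unfold succ
  split_ifs with h
  · exact (hφ _ _ _ hF).symm
  · exact (hφ _ _ _ (S.T.cyc2 hF))

end Setup

end P4
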