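import Pool.Agent.Lib_MP_b306af.P4ZDraw1
import Pool.Agent.Lib_MP_b306af.P4ZBond3

/-! # MP_b306af Part IV: P4Outrev -/

namespace P4

variable {V : Type}

namespace Setup

theorem outrev_isO_F {S : Setup V} (hS : S.Good) {a b c : V} (h : S.IsO a b c) : S.T.F a b c := by
  rcases h with ⟨rfl, rfl, rfl⟩ | ⟨rfl, rfl, rfl⟩ | ⟨rfl, rfl, rfl⟩
  · exact hS.h0
  · exact S.T.cyc _ _ _ hS.h0
  · exact S.T.cyc2 hS.h0

/-- the label after the outer face is smaller than the label before it -/
theorem outrev_aux [Finite V] {S : Setup V} (hS : S.Good) {u c x : V} (hO : S.IsO u c x)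
    (hu : S.side u = 1) (hc : S.side c ≠ 1)
    (h : S.side c = -1 ∨ S.side (S.succ (u, c)).2 = -1) :
    S.tO (S.succ (u, c)) < S.tO (u, c) := by
  obtain ⟨E⟩ := S.exists_bondSeq hS
  obtain ⟨u0, c0, x0, hb0, hF0, hO0, huniq⟩ := S.exists_last hS
  have hF : S.T.F u c x := (outrev_isO_F hS hO)
  have h1 := huniq u c x ⟨⟨x, hF⟩, hu, hc⟩ hO
  have h2 := huniq _ _ _ (E.bond (E.m - 1)) E.outer
  have he : E.e (E.m - 1) = (u, c) := by
    rw [h1.1, h1.2]
    exact Prod.ext h2.1 h2.2
  have he0 : E.e 0 = S.succ (u, c) := by rw [E.wrap, he]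
  have hx : S.T.nx u c = x := S.T.nx_eq hF
  have hne : S.succ (u, c) ≠ (u, c) := by
    unfold succ
    simp only [hx]
    split_ifs with h3
    · intro h4
      exact S.T.ne _ _ _ (S.T.cyc2 hF) (congrArg Prod.fst h4)
    · intro h4
      exact S.T.ne _ _ _ (S.T.cyc _ _ _ hF) (congrArg Prod.snd h4).symm
  have hm := E.hm
  have hm1 : 0 < E.m - 1 := by
    by_contra hcon
    have : E.m - 1 = 0 := by omega
    rw [this] at he
    exact hne (he0.symm.trans he)
  have := E.lab_cross_lt hS 0 (E.m - 1) hm1 (by omega) (by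
    rw [he, he0]
    exact h.symm)
  rwa [he, he0] at this

/- Piece OUTREV (P4Draw, uses `exists_bondSeq`, `lab_cross_lt`).  In the outer face the labels decrease.
Let `E` be a `BondSeq`, `(u, c) = e (m - 1)`, `e 0 = succ (u, c) ≠ (u, c)` (the third vertex is
different from `u` and `c`), so `m ≥ 2` and, if one of `e 0`, `e (m - 1)` is a crossing edge,
`tO (e 0) < tO (e (m - 1))` by `lab_cross_lt`.  The four cases: the down-dart of the outer face is unique
(sides: in each rotation case compare `E.outer` with the given `IsO`); (1) `e (m-1) = (u, w)`,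
`e 0 = (u, w')`; (2) face `w u' u`: down-dart `(u, w)`, `e 0 = (u', w)`; (3) down-dart `(u, w)`,
`e 0 = (u, s)`; (4) face `w u s`: down-dart `(u, s)`, `e 0 = (u, w)`. -/
theorem outer_rev [Finite V] {S : Setup V} (hS : S.Good) :
    (∀ u w w', S.IsO u w w' → S.side u = 1 → S.side w = -1 → S.side w' = -1 →
      S.A u w' < S.A u w) ∧
    (∀ w u' u, S.IsO w u' u → S.side w = -1 → S.side u' = 1 → S.side u = 1 →
      S.A u' w < S.A u w) ∧
    (∀ u w s, S.IsO u w s → S.side u = 1 → S.side w = -1 → S.side s = 0 →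
      S.X s < S.A u w) ∧
    (∀ w u s, S.IsO w u s → S.side w = -1 → S.side u = 1 → S.side s = 0 →
      S.A u w < S.X s) := by
  have m1 : (-1 : SignType) ≠ 1 := by decide
  have m0 : (-1 : SignType) ≠ 0 := by decide
  have z1 : (0 : SignType) ≠ 1 := by decide
  refine ⟨?_, ?_, ?_, ?_⟩
  · intro u w w' hO hu hw hw'
    have hx : S.T.nx u w = w' := S.T.nx_eq ((outrev_isO_F hS hO))
    have hs : S.succ (u, w) = (u, w') := by
      unfold succ
      simp only [hx]
      rw [if_neg (by rw [hw']; exact m1)]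
    have h := outrev_aux hS hO hu (by rw [hw]; exact m1) (Or.inl hw)
    rw [hs] at h
    unfold tO at h
    simp only [hw, hw'] at h
    rw [if_neg m0, if_neg m0] at h
    exact h
  · intro w u' u hO hw hu' hu
    have hO' : S.IsO u w u' := hO.rot.rot
    have hx : S.T.nx u w = u' := S.T.nx_eq (outrev_isO_F hS hO')
    have hs : S.succ (u, w) = (u', w) := by
      unfold succ
      simp only [hx]
      rw [if_pos hu']
    have h := outrev_aux hS hO' hu (by rw [hw]; exact m1) (Or.inl hw)
    rw [hs] at h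
    unfold tO at h
    simp only [hw] at h
    rw [if_neg m0, if_neg m0] at h
    exact h
  · intro u w s hO hu hw hs0
    have hx : S.T.nx u w = s := S.T.nx_eq ((outrev_isO_F hS hO))
    have hs : S.succ (u, w) = (u, s) := by
      unfold succ
      simp only [hx]
      rw [if_neg (by rw [hs0]; exact z1)]
    have h := outrev_aux hS hO hu (by rw [hw]; exact m1) (Or.inl hw)
    rw [hs] at h
    unfold tO at h
    simp only [hw, hs0] at h
    rw [if_pos trivial, if_neg m0] at h
    exact h
  · intro w u s hO hw hu hs0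
    have hO' : S.IsO u s w := hO.rot
    have hx : S.T.nx u s = w := S.T.nx_eq (outrev_isO_F hS hO')
    have hs : S.succ (u, s) = (u, w) := by
      unfold succ
      simp only [hx]
      rw [if_neg (by rw [hw]; exact m1)]
    have h := outrev_aux hS hO' hu (by rw [hs0]; exact z1) (Or.inr (by rw [hs]; exact hw))
    rw [hs] at h
    unfold tO at h
    simp only [hw, hs0] at h
    rw [if_pos trivial, if_neg m0] at h
    exact h

end Setup

end P4
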