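import Pool.Agent.Lib_MP_b306af.P4ZDraw1
import Pool.Agent.Lib_MP_b306af.P4Geoa
import Pool.Agent.Lib_MP_b306af.P4Geob
import Pool.Agent.Lib_MP_b306af.P4Geoc

/-! # MP_b306af Part IV: P4Posface -/

namespace P4

variable {V : Type}

namespace Setup

private theorem pf_rot (P Q R : ℝ × ℝ) : det3 P Q R = det3 Q R P := by
  unfold det3
  ring

private theorem pf_tri : ∀ s : SignType, s = 1 ∨ s = 0 ∨ s = -1 := by decide

private theorem pf_one {S : Setup V} {P : V → ℝ × ℝ}
    (hsgn : ∀ v, S.T.Supp v → SignType.sign (P v).2 = S.side v) {v : V} (hv : S.T.Supp v)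
    (h : S.side v = 1) : 0 < (P v).2 := by
  rw [← hsgn v hv] at h
  exact sign_eq_one_iff.1 h

private theorem pf_neg {S : Setup V} {P : V → ℝ × ℝ}
    (hsgn : ∀ v, S.T.Supp v → SignType.sign (P v).2 = S.side v) {v : V} (hv : S.T.Supp v)
    (h : S.side v = -1) : (P v).2 < 0 := by
  rw [← hsgn v hv] at h
  exact sign_eq_neg_one_iff.1 h

private theorem pf_zero {S : Setup V} {P : V → ℝ × ℝ}
    (hsgn : ∀ v, S.T.Supp v → SignType.sign (P v).2 = S.side v) {v : V} (hv : S.T.Supp v)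
    (h : S.side v = 0) : (P v).2 = 0 := by
  rw [← hsgn v hv] at h
  exact sign_eq_zero_iff.1 h

private theorem pf_all {S : Setup V} (hS : S.Good) {P : V → ℝ × ℝ}
    (hsgn : ∀ v, S.T.Supp v → SignType.sign (P v).2 = S.side v)
    (habs : ∀ v, S.T.Supp v → S.side v = 0 → (P v).1 = S.X v)
    (hx : ∀ u w, S.T.Adj u w → S.side u = 1 → S.side w = -1 →
      crossAt (P u) (P w) = S.A u w)
    (a b c : V) (hF : S.T.F a b c) (hO : ¬ S.IsO a b c) :
    (S.side a = 1 → S.side b = -1 → S.side c = -1 → 0 < det3 (P a) (P b) (P c)) ∧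
    (S.side a = -1 → S.side b = 1 → S.side c = 1 → 0 < det3 (P a) (P b) (P c)) ∧
    (S.side a = 1 → S.side b = -1 → S.side c = 0 → 0 < det3 (P a) (P b) (P c)) ∧
    (S.side a = -1 → S.side b = 1 → S.side c = 0 → 0 < det3 (P a) (P b) (P c)) := by
  have sa : S.T.Supp a := ⟨b, c, hF⟩
  have sb : S.T.Supp b := ⟨c, a, S.T.cyc _ _ _ hF⟩
  have sc : S.T.Supp c := ⟨a, b, S.T.cyc2 hF⟩
  have ab : S.T.Adj a b := ⟨c, hF⟩
  have ca : S.T.Adj c a := ⟨b, S.T.cyc2 hF⟩
  refine ⟨?_, ?_, ?_, ?_⟩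
  · intro ha hb hc
    have pa := pf_one hsgn sa ha
    have pb := pf_neg hsgn sb hb
    have pc := pf_neg hsgn sc hc
    obtain ⟨K, hK, he⟩ := det3_apex (P a) (P b) (P c) (mul_neg_of_pos_of_neg pa pb)
      (mul_neg_of_pos_of_neg pa pc)
    rw [he, hx a b ab ha hb, hx a c (Tri.Adj.symm ca) ha hc]
    have h := hS.lab1 a b c hF hO ha hb hc
    exact mul_pos hK (mul_pos pa (by linarith))
  · intro ha hb hc
    have pa := pf_neg hsgn sa ha
    have pb := pf_one hsgn sb hb
    have pc := pf_one hsgn sc hc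
    obtain ⟨K, hK, he⟩ := det3_apex (P a) (P b) (P c) (mul_neg_of_neg_of_pos pa pb)
      (mul_neg_of_neg_of_pos pa pc)
    rw [he, crossAt_comm (P a) (P c), crossAt_comm (P a) (P b), hx c a ca hc ha,
      hx b a (Tri.Adj.symm ab) hb ha]
    have h := hS.lab2 a b c hF hO ha hb hc
    exact mul_pos hK (mul_pos_of_neg_of_neg pa (by linarith))
  · intro ha hb hc
    have pa := pf_one hsgn sa ha
    have pb := pf_neg hsgn sb hb
    obtain ⟨K, hK, he⟩ := det3_axis (P a) (P b) (P c) (mul_neg_of_pos_of_neg pa pb)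
      (pf_zero hsgn sc hc)
    rw [he, hx a b ab ha hb, habs c sc hc]
    have h := hS.lab3 a b c hF hO ha hb hc
    exact mul_pos hK (mul_pos pa (by linarith))
  · intro ha hb hc
    have pa := pf_neg hsgn sa ha
    have pb := pf_one hsgn sb hb
    obtain ⟨K, hK, he⟩ := det3_axis (P a) (P b) (P c) (mul_neg_of_neg_of_pos pa pb)
      (pf_zero hsgn sc hc)
    rw [he, crossAt_comm (P a) (P b), hx b a (Tri.Adj.symm ab) hb ha, habs c sc hc]
    have h := hS.lab4 a b c hF hO ha hb hc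
    exact mul_pos hK (mul_pos_of_neg_of_neg pa (by linarith))

/- Piece POSFACE (P4Draw, uses `det3_apex`, `det3_axis`).  A crossed face with increasing labels is
positive.  `S.T.F a b c`, not the outer face, with a vertex above and a vertex below: rotate to one of the
types of `lab1`-`lab4` (27 sign patterns, `indep` excludes two vertices on the axis), and use
`hx : crossAt (P u) (P w) = S.A u w`. -/
theorem crossed_pos {S : Setup V} (hS : S.Good) {P : V → ℝ × ℝ}
    (hsgn : ∀ v, S.T.Supp v → SignType.sign (P v).2 = S.side v)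
    (habs : ∀ v, S.T.Supp v → S.side v = 0 → (P v).1 = S.X v)
    (hx : ∀ u w, S.T.Adj u w → S.side u = 1 → S.side w = -1 →
      crossAt (P u) (P w) = S.A u w)
    (a b c : V) (hF : S.T.F a b c) (hO : ¬ S.IsO a b c)
    (h1 : S.side a = 1 ∨ S.side b = 1 ∨ S.side c = 1)
    (h2 : S.side a = -1 ∨ S.side b = -1 ∨ S.side c = -1) :
    0 < det3 (P a) (P b) (P c) := by
  have hF1 := S.T.cyc _ _ _ hF
  have hF2 := S.T.cyc2 hF
  have hO2 : ¬ S.IsO c a b := fun h => hO h.rot
  have hO1 : ¬ S.IsO b c a := fun h => hO2 h.rot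
  obtain ⟨a1, a2, a3, a4⟩ := pf_all hS hsgn habs hx a b c hF hO
  obtain ⟨b1, b2, b3, b4⟩ := pf_all hS hsgn habs hx b c a hF1 hO1
  obtain ⟨c1, c2, c3, c4⟩ := pf_all hS hsgn habs hx c a b hF2 hO2
  have r1 : det3 (P a) (P b) (P c) = det3 (P b) (P c) (P a) := pf_rot _ _ _
  have r2 : det3 (P a) (P b) (P c) = det3 (P c) (P a) (P b) := by
    rw [r1, pf_rot]
  rcases pf_tri (S.side a) with ha | ha | ha <;> rcases pf_tri (S.side b) with hb | hb | hb <;>
    rcases pf_tri (S.side c) with hc | hc | hc <;>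
    first
    | exact a1 ha hb hc
    | exact a2 ha hb hc
    | exact a3 ha hb hc
    | exact a4 ha hb hc
    | exact r1 ▸ b1 hb hc ha
    | exact r1 ▸ b2 hb hc ha
    | exact r1 ▸ b3 hb hc ha
    | exact r1 ▸ b4 hb hc ha
    | exact r2 ▸ c1 hc ha hb
    | exact r2 ▸ c2 hc ha hb
    | exact r2 ▸ c3 hc ha hb
    | exact r2 ▸ c4 hc ha hb
    | (exfalso
       rw [ha, hb, hc] at h1 h2
       revert h1 h2
       decide)

end Setup

end P4
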