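import Pool.Agent.Lib_MP_b306af.P4Defs

/-! # MP_b306af Part IV: P4Pot -/

namespace P4

variable {V : Type}

namespace Tri

/- Piece POT (P4Basic).  Every circulation is the boundary of a face function (dual form of
`T.exact`).
Work in the finite dimensional space `E := V → V → ℝ`.  Linear functionals on `E`:
`L (a, b, c) κ := if T.F a b c then κ a b + κ b c + κ c a else 0` (index `V × V × V`),
`N (a, b) κ := κ a b + κ b a` (index `V × V`),
`K κ := ∑ a, ∑ b, Λ a b * κ a b`.
Claim: if all `L` and `N` vanish at `κ`, then `K κ = 0`.  Indeed by `T.exact`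
`κ a b = h b - h a` for all adjacent `a b`, and `K κ = ∑ a b, Λ a b * (h b - h a)` (`hsupp`)
`= ∑ b, h b * ∑ a, Λ a b - ∑ a, h a * ∑ b, Λ a b = 0` (`hcirc`, `hanti`).
By `mem_span_of_iInf_ker_le_ker` (Mathlib: finite family of functionals) applied to the family
indexed by `(V × V × V) ⊕ (V × V)`, `K = ∑ g f • L f + ∑ n p • N p`.
Put `ψ a b c := if T.F a b c then g (a, b, c) else 0` and
`φ a b := ∑ c, (ψ a b c + ψ b c a + ψ c a b) / 2`, and evaluate at the elementary antisymmetric
`κ = single (a, b) - single (b, a)`: the left side is `Λ a b - Λ b a = 2 Λ a b`, `N` gives `0`, the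
`L` part gives `∑ c (ψ a b c + ψ c a b + ψ b c a) - (same with a, b exchanged)`
`= 2 φ a b - 2 φ b a`.
So `Λ a b = φ a b - φ b a`.  Because `T.uniq`, for `T.F a b c` the sum defining `φ a b` has only the
term `c` (also `ψ b c' a ≠ 0` needs `T.F b c' a`, so `T.F a b c'`, `c' = c`), so
`φ a b = (ψ a b c + ψ b c a + ψ c a b) / 2`, which is invariant under rotation: `φ a b = φ b c`.
If `a b` is not adjacent all terms vanish. -/
theorem exists_potential [Fintype V] (T : Tri V) (Λ : V → V → ℝ)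
    (hanti : ∀ a b, Λ a b = - Λ b a) (hsupp : ∀ a b, ¬ T.Adj a b → Λ a b = 0)
    (hcirc : ∀ a, ∑ b, Λ a b = 0) :
    ∃ φ : V → V → ℝ, (∀ a b c, T.F a b c → φ a b = φ b c) ∧
      (∀ a b, ¬ T.Adj a b → φ a b = 0) ∧ ∀ a b, Λ a b = φ a b - φ b a := by
  classical
  let ev : V → V → ((V → V → ℝ) →ₗ[ℝ] ℝ) := fun a b =>
    (LinearMap.proj b : (V → ℝ) →ₗ[ℝ] ℝ).comp (LinearMap.proj a : (V → V → ℝ) →ₗ[ℝ] (V → ℝ))
  have hev : ∀ a b κ, ev a b κ = κ a b := fun _ _ _ => rfl
  let Lf : V × V × V → ((V → V → ℝ) →ₗ[ℝ] ℝ) := fun t =>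
    if T.F t.1 t.2.1 t.2.2 then ev t.1 t.2.1 + ev t.2.1 t.2.2 + ev t.2.2 t.1 else 0
  let Nf : V × V → ((V → V → ℝ) →ₗ[ℝ] ℝ) := fun p => ev p.1 p.2 + ev p.2 p.1
  let K : (V → V → ℝ) →ₗ[ℝ] ℝ := ∑ a, ∑ b, Λ a b • ev a b
  have hK : ∀ κ, K κ = ∑ a, ∑ b, Λ a b * κ a b := by
    intro κ
    simp only [K, LinearMap.sum_apply, LinearMap.smul_apply, hev, smul_eq_mul]
  have hspan : K ∈ Submodule.span ℝ (Set.range (Sum.elim Lf Nf)) := by
    apply mem_span_of_iInf_ker_le_ker
    intro κ hκ
    rw [Submodule.mem_iInf] at hκ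
    have h1 : ∀ a b, κ a b = - κ b a := by
      intro a b
      have h2 : κ a b + κ b a = 0 := hκ (Sum.inr (a, b))
      linarith
    have h2 : ∀ a b c, T.F a b c → κ a b + κ b c + κ c a = 0 := by
      intro a b c hF
      have h3 := hκ (Sum.inl (a, b, c))
      rw [LinearMap.mem_ker] at h3
      have h4 : Lf (a, b, c) = ev a b + ev b c + ev c a := if_pos hF
      rw [Sum.elim_inl, h4] at h3
      exact h3
    obtain ⟨h, hh⟩ := T.exact κ h1 h2
    rw [LinearMap.mem_ker, hK]
    have h5 : ∀ a b, Λ a b * κ a b = Λ a b * h b - Λ a b * h a := by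
      intro a b
      by_cases hab : T.Adj a b
      · obtain ⟨c, hc⟩ := hab
        rw [hh a b c hc]
        ring
      · rw [hsupp a b hab]
        ring
    simp only [h5, Finset.sum_sub_distrib]
    have h6 : ∑ a, ∑ b, Λ a b * h a = 0 := by
      apply Finset.sum_eq_zero
      intro a _
      rw [← Finset.sum_mul, hcirc a, zero_mul]
    have h7 : ∑ a, ∑ b, Λ a b * h b = 0 := by
      rw [Finset.sum_comm]
      apply Finset.sum_eq_zero
      intro b _
      rw [← Finset.sum_mul]
      have h8 : ∑ a, Λ a b = 0 := by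
        have h9 : ∑ a, Λ a b = - ∑ a, Λ b a := by
          rw [← Finset.sum_neg_distrib]
          exact Finset.sum_congr rfl fun a _ => hanti a b
        rw [h9, hcirc b, neg_zero]
      rw [h8, zero_mul]
    rw [h6, h7, sub_zero]
  rw [Submodule.mem_span_range_iff_exists_fun] at hspan
  obtain ⟨g, hg⟩ := hspan
  let ψ : V → V → V → ℝ := fun a b c => if T.F a b c then g (Sum.inl (a, b, c)) else 0
  have hψ : ∀ a b c, ¬ T.F a b c → ψ a b c = 0 := fun a b c h => if_neg h
  -- evaluation of the identity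
  have hid : ∀ κ : V → V → ℝ, (∀ a b, κ a b = - κ b a) →
      ∑ a, ∑ b, Λ a b * κ a b = ∑ a, ∑ b, ∑ c, ψ a b c * (κ a b + κ b c + κ c a) := by
    intro κ hκ
    rw [← hK, ← hg, LinearMap.sum_apply, Fintype.sum_sum_type]
    have h1 : ∑ p : V × V, (g (Sum.inr p) • Sum.elim Lf Nf (Sum.inr p)) κ = 0 := by
      apply Finset.sum_eq_zero
      rintro ⟨a, b⟩ _
      show g (Sum.inr (a, b)) * (κ a b + κ b a) = 0
      rw [hκ a b]
      ring
    rw [h1, add_zero, Fintype.sum_prod_type]
    refine Finset.sum_congr rfl fun a _ => ?_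
    rw [Fintype.sum_prod_type]
    refine Finset.sum_congr rfl fun b _ => Finset.sum_congr rfl fun c _ => ?_
    rw [LinearMap.smul_apply, Sum.elim_inl, smul_eq_mul]
    by_cases hF : T.F a b c
    · have h2 : Lf (a, b, c) = ev a b + ev b c + ev c a := if_pos hF
      have h3 : ψ a b c = g (Sum.inl (a, b, c)) := if_pos hF
      rw [h2, h3]
      rfl
    · have h2 : Lf (a, b, c) = 0 := if_neg hF
      rw [h2, hψ a b c hF]
      simp
  refine ⟨fun a b => ∑ c, (ψ a b c + ψ b c a + ψ c a b) / 2, ?_, ?_, ?_⟩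
  · intro a b c hF
    have h1 : ∀ a b c, T.F a b c → ∑ c', (ψ a b c' + ψ b c' a + ψ c' a b) / 2 =
        (ψ a b c + ψ b c a + ψ c a b) / 2 := by
      intro a b c hF
      refine Finset.sum_eq_single c ?_ (fun h => absurd (Finset.mem_univ _) h)
      intro c' _ hne
      have h2 : ¬ T.F a b c' := fun h => hne (T.uniq a b c' c h hF)
      rw [hψ a b c' h2, hψ b c' a (fun h => h2 (T.cyc2 h)), hψ c' a b (fun h => h2 (T.cyc _ _ _ h))]
      ring
    show ∑ c', (ψ a b c' + ψ b c' a + ψ c' a b) / 2 = ∑ c', (ψ b c c' + ψ c c' b + ψ c' b c) / 2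
    rw [h1 a b c hF, h1 b c a (T.cyc _ _ _ hF)]
    ring
  · intro a b hab
    apply Finset.sum_eq_zero
    intro c' _
    have h2 : ¬ T.F a b c' := fun h => hab ⟨c', h⟩
    rw [hψ a b c' h2, hψ b c' a (fun h => h2 (T.cyc2 h)), hψ c' a b (fun h => h2 (T.cyc _ _ _ h))]
    ring
  · intro a b
    show Λ a b = ∑ c, (ψ a b c + ψ b c a + ψ c a b) / 2 - ∑ c, (ψ b a c + ψ a c b + ψ c b a) / 2
    have h1 := hid (fun x y => (if x = a ∧ y = b then 1 else 0) - (if x = b ∧ y = a then 1 else 0))
      (by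
        intro x y
        have e1 : (x = a ∧ y = b) ↔ (y = b ∧ x = a) := and_comm
        have e2 : (x = b ∧ y = a) ↔ (y = a ∧ x = b) := and_comm
        simp only [e1, e2]
        ring)
    have key : ∀ (f : V → V → ℝ) (a b : V), ∑ x, ∑ y, f x y * (if x = a ∧ y = b then 1 else 0) = f a b := by
      intro f a b
      rw [Finset.sum_eq_single a, Finset.sum_eq_single b]
      · simp
      · intro y _ hy
        simp [hy]
      · intro h
        exact absurd (Finset.mem_univ _) h
      · intro x _ hx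
        apply Finset.sum_eq_zero
        intro y _
        simp [hx]
      · intro h
        exact absurd (Finset.mem_univ _) h
    have key3 : ∀ (f : V → V → V → ℝ) (a b : V),
        ∑ x, ∑ y, ∑ z, f x y z * (if x = a ∧ y = b then 1 else 0) = ∑ z, f a b z := by
      intro f a b
      have := key (fun x y => ∑ z, f x y z) a b
      simp only [Finset.sum_mul] at this
      exact this
    have hL : ∑ x, ∑ y, Λ x y * ((if x = a ∧ y = b then (1 : ℝ) else 0) -
        (if x = b ∧ y = a then 1 else 0)) = Λ a b - Λ b a := by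
      simp only [mul_sub, Finset.sum_sub_distrib]
      rw [key, key]
    rw [hL] at h1
    have hR : ∀ a b : V, ∑ x, ∑ y, ∑ z, ψ x y z * ((if x = a ∧ y = b then (1 : ℝ) else 0) +
        (if y = a ∧ z = b then 1 else 0) + (if z = a ∧ x = b then 1 else 0)) =
        ∑ c, (ψ a b c + ψ b c a + ψ c a b) := by
      intro a b
      simp only [mul_add, Finset.sum_add_distrib]
      have e1 := key3 ψ a b
      have e2 : ∑ x, ∑ y, ∑ z, ψ x y z * (if y = a ∧ z = b then (1 : ℝ) else 0) = ∑ c, ψ c a b := by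
        refine Finset.sum_congr rfl fun x _ => ?_
        exact key (fun y z => ψ x y z) a b
      have e3 : ∑ x, ∑ y, ∑ z, ψ x y z * (if z = a ∧ x = b then (1 : ℝ) else 0) = ∑ c, ψ b c a := by
        have e4 := key3 (fun z x y => ψ x y z) a b
        have e5 : ∑ x, ∑ y, ∑ z, ψ x y z * (if z = a ∧ x = b then (1 : ℝ) else 0) =
            ∑ z, ∑ x, ∑ y, ψ x y z * (if z = a ∧ x = b then (1 : ℝ) else 0) := by
          have e6 : ∀ x, ∑ y, ∑ z, ψ x y z * (if z = a ∧ x = b then (1 : ℝ) else 0) =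
              ∑ z, ∑ y, ψ x y z * (if z = a ∧ x = b then (1 : ℝ) else 0) := fun x => Finset.sum_comm
          rw [Finset.sum_congr rfl fun x _ => e6 x, Finset.sum_comm]
        rw [e5]
        exact e4
      rw [e1, e2, e3]
      ring
    have hR' : ∑ x, ∑ y, ∑ z, ψ x y z * (((if x = a ∧ y = b then (1 : ℝ) else 0) -
        (if x = b ∧ y = a then 1 else 0)) + ((if y = a ∧ z = b then 1 else 0) -
        (if y = b ∧ z = a then 1 else 0)) + ((if z = a ∧ x = b then 1 else 0) -
        (if z = b ∧ x = a then 1 else 0))) =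
        ∑ c, (ψ a b c + ψ b c a + ψ c a b) - ∑ c, (ψ b a c + ψ a c b + ψ c b a) := by
      rw [← hR a b, ← hR b a, ← Finset.sum_sub_distrib]
      refine Finset.sum_congr rfl fun x _ => ?_
      rw [← Finset.sum_sub_distrib]
      refine Finset.sum_congr rfl fun y _ => ?_
      rw [← Finset.sum_sub_distrib]
      refine Finset.sum_congr rfl fun z _ => ?_
      ring
    rw [hR'] at h1
    rw [← Finset.sum_div, ← Finset.sum_div]
    have h2 := hanti b a
    linarith

end Tri

end P4
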