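import Pool.Agent.Lib_MP_b306af.P4ZLP1
import Pool.Agent.Lib_MP_b306af.P4Pot
import Pool.Agent.Lib_MP_b306af.P4Circ

/-! # MP_b306af Part IV: P4Potm -/

namespace P4

open Finset

variable {V : Type}

namespace Setup

/- Piece POTM (P4LP, uses `Tri.exists_potential`, `Tri.circ`).
Face function of `nu`: `νf a b = 0` if `a b` is not adjacent; otherwise with `c = nx a b`
(`T.F a b c`): `νf a b = nu a b c + nu b c a + nu c a b` (by `nu_supp` and `indep` at most one term is
not `0`: the one whose first argument is the vertex on the axis).  It is a face function, so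
`∂ν a b := νf a b - νf b a` satisfies `∑ b, ∂ν a b = 0` (`Tri.circ`).
`Ψ a b := lam a b - lam b a + (if Adj a b ∧ side a = side b then ∂ν a b else 0)`.  It is antisymmetric
and supported on darts.  Circulation: `∑ b, Ψ v b = ∑ w, lam v w - ∑ u, lam u v +
∑_{b ~ v, side b = side v} ∂ν v b`.  If `side v = 0` everything is `0` (`lam_supp`; no neighbour has side `0`
by `indep`).  If `side v ≠ 0`: for `b ~ v` of the same side, `νf v b = ∑ s, nu s v b` (only `s = nx v b`
can contribute) and `νf b v = ∑ s, nu s b v`; for other `b` `nu s v b = nu s b v = 0` for all `s` by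
`nu_supp`.  So the sum is the left side of `eqp`, `= 0`.
`Tri.exists_potential`: `Ψ a b = ψ a b - ψ b a`, `ψ` a face function; `φ := ψ - νf` (face function, `0` off
the darts).  Then:
 - same side: `φ a b - φ b a = Ψ a b - ∂ν a b = 0`;
 - crossing edge `u w`: the faces on both sides are crossed, `νf = 0` there (a term `≠ 0` needs a face
   with one vertex on the axis and the two others on one side; here `side u = 1`, `side w = -1`), so
   `φ u w - φ w u = lam u w` (`lam w u = 0` by `lam_supp`);
 - spoke `s b`: `Ψ s b = 0`, so `φ b s - φ s b = νf s b - νf b s = nu s b (nx s b) - nu s (nx b s) b`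
   (`T.F s b c`; the other two terms of `νf` have a first argument not on the axis). -/
theorem Mult.pot [Fintype V] {S : Setup V} (hS : S.Good) {y : V → ℝ} (m : S.Mult y) :
    ∃ φ : V → V → ℝ, (∀ a b c, S.T.F a b c → φ a b = φ b c) ∧
      (∀ a b, ¬ S.T.Adj a b → φ a b = 0) ∧
      (∀ a b, S.T.Adj a b → S.side a = S.side b → φ a b = φ b a) ∧
      (∀ u w, S.T.Adj u w → S.side u = 1 → S.side w = -1 → φ u w - φ w u = m.lam u w) ∧
      (∀ s b, S.T.Adj s b → S.side s = 0 →
        φ b s - φ s b = m.nu s b (S.T.nx s b) - m.nu s (S.T.nx b s) b) := by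
  classical
  obtain ⟨nf, hnf⟩ : ∃ nf : V → V → ℝ, nf = fun a b => if S.T.Adj a b then
    m.nu a b (S.T.nx a b) + m.nu b (S.T.nx a b) a + m.nu (S.T.nx a b) a b else 0 := ⟨_, rfl⟩
  have nf_adj : ∀ a b, S.T.Adj a b → nf a b =
      m.nu a b (S.T.nx a b) + m.nu b (S.T.nx a b) a + m.nu (S.T.nx a b) a b := by
    intro a b h
    rw [hnf]
    exact if_pos h
  have nf_not : ∀ a b, ¬ S.T.Adj a b → nf a b = 0 := by
    intro a b h
    rw [hnf]
    exact if_neg h
  have nf_face : ∀ a b c, S.T.F a b c → nf a b = nf b c := by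
    intro a b c h
    have h2 := S.T.cyc _ _ _ h
    rw [nf_adj a b ⟨c, h⟩, nf_adj b c ⟨a, h2⟩, S.T.nx_eq h, S.T.nx_eq h2]
    ring
  -- vanishing of nu
  have nu1 : ∀ a b c, S.side a ≠ 0 → m.nu a b c = 0 := by
    intro a b c h
    by_contra h2
    exact h (m.nu_supp a b c h2).2.1
  have nu2 : ∀ a b c, S.side b ≠ S.side c → m.nu a b c = 0 := by
    intro a b c h
    by_contra h2
    exact h (m.nu_supp a b c h2).2.2
  have nu3 : ∀ a b c, ¬ S.T.F a b c → m.nu a b c = 0 := by
    intro a b c h
    by_contra h2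
    exact h (m.nu_supp a b c h2).1
  have lam1 : ∀ a b, S.side a ≠ 1 → m.lam a b = 0 := by
    intro a b h
    by_contra h2
    exact h (m.lam_supp a b h2).2.1
  have lam2 : ∀ a b, S.side b ≠ -1 → m.lam a b = 0 := by
    intro a b h
    by_contra h2
    exact h (m.lam_supp a b h2).2.2
  have lam3 : ∀ a b, ¬ S.T.Adj a b → m.lam a b = 0 := by
    intro a b h
    by_contra h2
    exact h (m.lam_supp a b h2).1
  -- sum over s of nu s v b
  have nu_sum : ∀ a b, S.T.Adj a b → ∑ s, m.nu s a b = m.nu (S.T.nx a b) a b := by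
    intro a b h
    refine Finset.sum_eq_single _ ?_ ?_
    · intro s _ hs
      refine nu3 _ _ _ fun hF => hs ?_
      exact (S.T.nx_eq (S.T.cyc _ _ _ hF)).symm
    · intro h2
      exact absurd (Finset.mem_univ _) h2
  obtain ⟨Ps, hPs⟩ : ∃ Ps : V → V → ℝ, Ps = fun a b => m.lam a b - m.lam b a +
    (if S.T.Adj a b ∧ S.side a = S.side b then nf a b - nf b a else 0) := ⟨_, rfl⟩
  have Ps_def : ∀ a b, Ps a b = m.lam a b - m.lam b a +
      (if S.T.Adj a b ∧ S.side a = S.side b then nf a b - nf b a else 0) := by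
    intro a b
    rw [hPs]
  have Ps_anti : ∀ a b, Ps a b = - Ps b a := by
    intro a b
    rw [Ps_def, Ps_def]
    by_cases h : S.T.Adj a b ∧ S.side a = S.side b
    · have h' : S.T.Adj b a ∧ S.side b = S.side a := ⟨h.1.symm, h.2.symm⟩
      rw [if_pos h, if_pos h']
      ring
    · have h' : ¬ (S.T.Adj b a ∧ S.side b = S.side a) := fun h2 => h ⟨h2.1.symm, h2.2.symm⟩
      rw [if_neg h, if_neg h']
      ring
  have Ps_supp : ∀ a b, ¬ S.T.Adj a b → Ps a b = 0 := by
    intro a b h
    rw [Ps_def, lam3 a b h, lam3 b a (fun h2 => h h2.symm), if_neg (fun h2 => h h2.1)]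
    ring
  have Ps_circ : ∀ a, ∑ b, Ps a b = 0 := by
    intro v
    by_cases hv : S.side v = 0
    · refine Finset.sum_eq_zero fun b _ => ?_
      have e1 : S.side v ≠ 1 := by rw [hv]; decide
      have e2 : S.side v ≠ -1 := by rw [hv]; decide
      rw [Ps_def, lam1 v b e1, lam2 b v e2, if_neg]
      · ring
      · rintro ⟨⟨c, hc⟩, h2⟩
        exact hS.indep v b c hc hv (by rw [← h2, hv])
    · have e1 : ∀ b, Ps v b = m.lam v b - m.lam b v + ∑ s, (m.nu s v b - m.nu s b v) := by
        intro b
        rw [Ps_def]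
        congr 1
        by_cases h : S.T.Adj v b ∧ S.side v = S.side b
        · have hb : S.side b ≠ 0 := fun h2 => hv (h.2.trans h2)
          rw [if_pos h, nf_adj v b h.1, nf_adj b v h.1.symm, Finset.sum_sub_distrib,
            nu_sum v b h.1, nu_sum b v h.1.symm, nu1 v b _ hv, nu1 b _ v hb, nu1 b v _ hb,
            nu1 v _ b hv]
          ring
        · rw [if_neg h]
          symm
          refine Finset.sum_eq_zero fun s _ => ?_
          have f1 : m.nu s v b = 0 := by
            by_contra h2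
            obtain ⟨h3, _, h5⟩ := m.nu_supp _ _ _ h2
            exact h ⟨⟨s, S.T.cyc _ _ _ h3⟩, h5⟩
          have f2 : m.nu s b v = 0 := by
            by_contra h2
            obtain ⟨h3, _, h5⟩ := m.nu_supp _ _ _ h2
            exact h ⟨Tri.Adj.symm ⟨s, S.T.cyc _ _ _ h3⟩, h5.symm⟩
          rw [f1, f2, sub_zero]
      have e2 := m.eqp v
      rw [Finset.sum_comm] at e2
      rw [Finset.sum_congr rfl fun b _ => e1 b, Finset.sum_add_distrib, Finset.sum_sub_distrib]
      exact e2
  obtain ⟨ps, hf, hz, hd⟩ := S.T.exists_potential Ps Ps_anti Ps_supp Ps_circ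
  refine ⟨fun a b => ps a b - nf a b, ?_, ?_, ?_, ?_, ?_⟩
  · intro a b c h
    beta_reduce
    rw [hf a b c h, nf_face a b c h]
  · intro a b h
    beta_reduce
    rw [hz a b h, nf_not a b h, sub_zero]
  · intro a b h hs
    beta_reduce
    have h1 := hd a b
    rw [Ps_def, if_pos ⟨h, hs⟩] at h1
    have e1 : m.lam a b = 0 := by
      by_contra h2
      obtain ⟨_, h4, h5⟩ := m.lam_supp _ _ h2
      rw [h4, h5] at hs
      exact absurd hs (by decide)
    have e2 : m.lam b a = 0 := by
      by_contra h2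
      obtain ⟨_, h4, h5⟩ := m.lam_supp _ _ h2
      rw [h4, h5] at hs
      exact absurd hs (by decide)
    linarith
  · intro u w h hu hw
    beta_reduce
    have h1 := hd u w
    have hu0 : S.side u ≠ 0 := by rw [hu]; decide
    have hw0 : S.side w ≠ 0 := by rw [hw]; decide
    have huw : S.side u ≠ S.side w := by rw [hu, hw]; decide
    have hw1 : S.side w ≠ 1 := by rw [hw]; decide
    rw [Ps_def, if_neg (fun h2 => huw h2.2), lam1 w u hw1] at h1
    have e1 : nf u w = 0 := by
      rw [nf_adj u w h, nu1 u w _ hu0, nu1 w _ u hw0, nu2 _ u w huw]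
      ring
    have e2 : nf w u = 0 := by
      rw [nf_adj w u h.symm, nu1 u _ w hu0, nu1 w u _ hw0, nu2 _ w u huw.symm]
      ring
    rw [e1, e2]
    linarith
  · intro s b h hs
    beta_reduce
    have h1 := hd s b
    obtain ⟨c, hc⟩ := h
    obtain ⟨c', hc'⟩ := Tri.Adj.symm ⟨c, hc⟩
    have hb : S.side b ≠ 0 := hS.indep s b c hc hs
    have hcs : S.side c ≠ 0 := by
      intro h2
      exact hS.indep c s b (S.T.cyc2 hc) h2 hs
    have hcs' : S.side c' ≠ 0 := by
      intro h2
      exact hS.indep s c' b (S.T.cyc _ _ _ hc') hs h2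
    have e1 : S.side s ≠ 1 := by rw [hs]; decide
    have e2 : S.side s ≠ -1 := by rw [hs]; decide
    have hsb : S.side s ≠ S.side b := by
      rw [hs]
      exact hb.symm
    rw [Ps_def, if_neg (fun h2 => hsb h2.2), lam1 s b e1, lam2 b s e2] at h1
    have e3 : nf s b = m.nu s b (S.T.nx s b) := by
      rw [nf_adj s b ⟨c, hc⟩, S.T.nx_eq hc, nu1 b _ s hb, nu1 c _ _ hcs]
      ring
    have e4 : nf b s = m.nu s (S.T.nx b s) b := by
      rw [nf_adj b s ⟨c', hc'⟩, S.T.nx_eq hc', nu1 b s _ hb, nu1 c' _ _ hcs']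
      ring
    rw [← e3, ← e4]
    linarith

end Setup

end P4
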