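import Pool.Agent.Lib_MP_b306af.P4ZCore4
import Pool.Agent.Lib_MP_b306af.P4Seqdata
import Pool.Agent.Lib_MP_b306af.P4Momeq
import Pool.Agent.Lib_MP_b306af.P4ZSeq

/-! # MP_b306af Part IV: P4Runx -/

namespace P4

variable {V : Type}

namespace Setup

/- Piece RUNX (P4Core, uses `SeqData.run`, `seqData`, `mom_eq`, `outer_plus`, `phi_last`, `prv_eq`).
First `(e r1).1 = (e (r2 + 1)).1` by `SeqData.run` (`hM`: `v` occurs: `side v = 1`, not outer by
`outer_plus`, `mom = M φ v ≥ 0` by `H.pl`, `S.T.Supp v`; `v` does not occur: the sum is empty, or use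
`mom_eq` and for `side v = 1`, `¬ Supp v`: the sum is empty because no bond edge contains `v`).
So it is enough to show the first two claims; suppose one of them fails.  `(e r1).2` and
`(e (r2 + 1)).2` are not above.
(1) Suppose `s = (e r1).2` has side `0`.  Write `φ_s` for the common value of `φ` on the faces
`S.T.F s b c` with `side b ≠ side c` (they exist, `hS.nbr`, and by `H.star` in both directions the value is
the same; all faces at `s` have value `≤ φ_s`).  The face `S.T.F s (e r1).1 _` has value
`φ (e r1).2 (e r1).1 > μ`, so `φ_s > μ`.  By induction `(e r).2 = s` for `r1 ≤ r ≤ r2 + 1`: the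
face left of `e r = (u, s)`, `r ≤ r2`, is `S.T.F u s x`, with value `μ < φ_s`, so
`side u = side x` (rotate to `S.T.F s x u` and use `H.star`), so `side x = 1` and
`e (r + 1) = (x, s)`.  So `e r1 = e (r2 + 1)`, contradiction to `E.inj`.
(2) Suppose `s = (e (r2 + 1)).2` has side `0`; `φ_s ≥ φ (e (r2 + 1)).1 s > μ` (the face left of
`(u, s)` is a face at `s`).  Downward induction: if `(e (r + 1)).2 = s` and `r1 ≤ r ≤ r2`, the
face left of `e r` contains the dart `(s, (e (r + 1)).1)` and has value `μ < φ_s`, so the third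
vertex `y` has the same side as `(e (r + 1)).1`, i.e. `side y = 1`; going through the two cases
of `succ`, `e r = (y, s)`.  So `(e r1).2 = s` has side `0`, which was excluded in (1). -/
theorem run_cross [Fintype V] {S : Setup V} (hS : S.Good) {φ : V → V → ℝ} (H : S.CoreHyp φ)
    (E : S.BondSeq) (μ : ℝ) (hμ : ∀ a b c, S.T.F a b c → μ ≤ φ a b) (h0 : μ < φ S.o1 S.o2)
    (r1 r2 : ℕ) (h12 : r1 ≤ r2) (hr2 : r2 + 1 < E.m)
    (hrun : ∀ r, r1 ≤ r → r ≤ r2 → φ (E.e r).1 (E.e r).2 = μ)
    (hs : μ < φ (E.e r1).2 (E.e r1).1)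
    (he : μ < φ (E.e (r2 + 1)).1 (E.e (r2 + 1)).2) :
    S.side (E.e r1).2 = -1 ∧ S.side (E.e (r2 + 1)).2 = -1 ∧
      (E.e r1).1 = (E.e (r2 + 1)).1 := by
  classical
  have hb := E.bond
  have hface : ∀ r, S.T.F (E.e r).1 (E.e r).2 (S.T.nx (E.e r).1 (E.e r).2) := fun r =>
    S.T.F_nx (hb r).1
  -- the base vertices
  have hbase : (E.e r1).1 = (E.e (r2 + 1)).1 := by
    refine (E.seqData hS H).run μ (fun r _ => hμ _ _ _ (hface r)) ?_ ?_ r1 r2 h12 hr2 hrun ?_ he
    · beta_reduce
      rw [E.phi_last H hS]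
      exact h0
    · intro v hv0 hv1
      by_cases h1 : S.side v = 1
      · rw [(E.mom_eq H v).1 h1]
        by_cases h2 : S.T.Supp v
        · refine H.pl v h2 (fun h3 => ?_) h1
          rcases E.outer_plus v h3 h1 with h4 | h4
          · exact hv0 h4
          · exact hv1 h4
        · have h3 : S.M φ v = 0 := by
            unfold M
            refine Finset.sum_eq_zero fun c _ => ?_
            have h4 : ¬ S.T.Adj v c := fun h5 => h2 h5.supp
            have h5 : ¬ S.T.Adj c v := fun h5 => h4 h5.symm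
            rw [H.zero v c h4, H.zero c v h5, sub_zero, mul_zero]
          rw [h3]
      · rw [(E.mom_eq H v).2 h1]
    · rw [E.prv_eq H]
      exact hs
  -- part 1
  have hA : S.side (E.e r1).2 ≠ 0 := by
    intro h1
    have hf1 : S.T.F (E.e r1).2 (E.e r1).1 (S.T.nx (E.e r1).2 (E.e r1).1) :=
      S.T.F_nx (hb r1).1.symm
    have hall : ∀ r, r1 ≤ r → r ≤ r2 + 1 → (E.e r).2 = (E.e r1).2 := by
      intro r hr
      induction r, hr using Nat.le_induction with
      | base => intro _; rfl
      | succ r hr ih =>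
        intro hr3
        have h2 := ih (by omega)
        have h3 := hface r
        have h4 := hrun r hr (by omega)
        have h5 := H.face _ _ _ h3
        have h6 : S.side (S.T.nx (E.e r).1 (E.e r).2) = 1 := by
          by_contra h7
          have h8 : S.side (S.T.nx (E.e r).1 (E.e r).2) ≠ S.side (E.e r).1 := by
            rw [(hb r).2.1]
            exact h7
          have h9 := H.star (E.e r1).2 _ _ (S.T.nx (E.e r).1 (E.e r).2) (E.e r).1 h1 hf1
            (by rw [← h2]; exact S.T.cyc _ _ _ h3) h8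
          rw [h4, h2] at h5
          rw [h2] at h9
          rw [← h5] at h9
          exact absurd h9 (not_le.mpr hs)
        rw [E.step r, succ, if_pos h6]
        exact h2
    have h2 := hall (r2 + 1) (by omega) le_rfl
    have := E.inj r1 (by omega) (r2 + 1) hr2 (Prod.ext hbase h2.symm)
    omega
  have hsg : ∀ σ : SignType, σ ≠ 0 → σ ≠ 1 → σ = -1 := by decide
  refine ⟨hsg _ hA (hb r1).2.2, hsg _ ?_ (hb (r2 + 1)).2.2, hbase⟩
  intro h1
  have hf2 := S.T.cyc _ _ _ (hface (r2 + 1))
  have hv2 := H.face _ _ _ (hface (r2 + 1))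
  have hall : ∀ n r, r1 ≤ r → r + n = r2 + 1 → (E.e r).2 = (E.e (r2 + 1)).2 := by
    intro n
    induction n with
    | zero =>
      intro r _ h
      rw [Nat.add_zero] at h
      rw [h]
    | succ n ih =>
      intro r hr hn
      have h2 := ih (r + 1) (by omega) (by omega)
      have h3 := hface r
      have h4 := hrun r hr (by omega)
      by_cases h6 : S.side (S.T.nx (E.e r).1 (E.e r).2) = 1
      · rw [E.step r, succ, if_pos h6] at h2
        exact h2
      · exfalso
        rw [E.step r, succ, if_neg h6] at h2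
        have h2' : S.T.nx (E.e r).1 (E.e r).2 = (E.e (r2 + 1)).2 := h2
        rw [h2'] at h3
        have h5 := S.T.cyc2 h3
        have h7 : S.side (E.e r).1 ≠ S.side (E.e r).2 := by
          rw [(hb r).2.1]
          exact (hb r).2.2.symm
        have h8 := H.star (E.e (r2 + 1)).2 _ _ _ _ h1 hf2 h5 h7
        have h9 := H.face _ _ _ h5
        rw [h9, h4, ← hv2] at h8
        exact absurd h8 (not_le.mpr he)
  have h2 := hall (r2 + 1 - r1) r1 le_rfl (by omega)
  rw [h2] at hA
  exact hA h1

end Setup

end P4
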