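import Pool.Agent.Lib_MP_b306af.P4ZSplit1
import Pool.Agent.Lib_MP_b306af.P4Pot
import Pool.Agent.Lib_MP_b306af.P4Circ

/-! # MP_b306af Part IV: P4Sepex -/

namespace P4

variable {V : Type}

/-- darts of the closed walk `t1 t2 t3` -/
private def SepD (t1 t2 t3 x y : V) : Prop :=
  (x = t1 ∧ y = t2) ∨ (x = t2 ∧ y = t3) ∨ (x = t3 ∧ y = t1)

open Classical in
/-- indicator of one dart -/
private noncomputable def sepE (s t x y : V) : ℝ := if x = s ∧ y = t then 1 else 0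

private theorem sepE_nonneg (s t x y : V) : 0 ≤ sepE s t x y := by
  unfold sepE
  split_ifs <;> norm_num

private theorem sepE_sum_right [Fintype V] (s t x : V) :
    ∑ y, sepE s t x y = open Classical in if x = s then 1 else 0 := by
  classical
  unfold sepE
  by_cases h : x = s
  · simp [h]
  · simp [h]

private theorem sepE_sum_left [Fintype V] (s t x : V) :
    ∑ y, sepE s t y x = open Classical in if x = t then 1 else 0 := by
  classical
  unfold sepE
  by_cases h : x = t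
  · simp [h]
  · simp [h]

/- Piece SEPEX (P4Split, uses `Tri.exists_potential`, `Tri.circ`).
`Λ x y = 1` for `(x, y) ∈ {(t1, t2), (t2, t3), (t3, t1)}`, `-1` for the reversed pairs, else `0`
(the `t_i` are distinct because adjacent).  Antisymmetric circulation supported on darts, so
`Λ x y = φ x y - φ y x` with a face function `φ` (`exists_potential`).  Let `m` be the maximum of `φ` on
the darts, `J x y := T.Adj x y ∧ φ x y = m`.  `J` is closed under `(x, y) → (y, z)` for faces.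
If `J x y`, `Adj x y` and `¬ J y x` then `Λ x y > 0`, so `(x, y)` is one of the three darts.  Not all darts are
in `J` (`φ t1 t2 - φ t2 t1 = 1`), so by `T.trans` there is a dart with `J x y`, `¬ J y x`.
The 0/1 function `1_J` is a face function, `0` off the darts; by `Tri.circ` at `t1, t2, t3` the numbers
`d12 = 1_J(t1,t2) - 1_J(t2,t1)`, `d23`, `d31` (all other edges have difference `0`: a difference `±1` at
`x y` means `J x y, ¬ J y x` or the reverse) satisfy `d12 = d31`, `d23 = d12`, `d31 = d23`;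
they are `≥ 0` (a value `-1` would make `(t2, t1)` one of the three darts) and one is `1`.
So `J t1 t2`, `J t2 t3`, `J t3 t1`, and `¬ J` for the reversed darts: `Sep T t1 t2 t3 J`.  If `J o1 o2`,
take the complement (`Sep.compl`) with `(a, b, c) = (t2, t1, t3)`. -/
theorem exists_sep [Finite V] (T : Tri V) (t1 t2 t3 : V) (h12 : T.Adj t1 t2)
    (h23 : T.Adj t2 t3) (h31 : T.Adj t3 t1) (o1 o2 : V) :
    ∃ a b c J, ((a = t1 ∧ b = t2 ∧ c = t3) ∨ (a = t2 ∧ b = t1 ∧ c = t3)) ∧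
      Sep T a b c J ∧ ¬ J o1 o2 := by
  classical
  have := Fintype.ofFinite V
  have n12 := h12.ne
  have n23 := h23.ne
  have n31 := h31.ne
  obtain ⟨Λ, hΛ⟩ : ∃ Λ : V → V → ℝ, Λ = fun x y =>
    (sepE t1 t2 x y + sepE t2 t3 x y + sepE t3 t1 x y) -
      (sepE t1 t2 y x + sepE t2 t3 y x + sepE t3 t1 y x) := ⟨_, rfl⟩
  have hE0 : ∀ x y, ¬ SepD t1 t2 t3 x y →
      sepE t1 t2 x y + sepE t2 t3 x y + sepE t3 t1 x y = 0 := by
    intro x y h
    unfold sepE
    rw [if_neg (fun k => h (Or.inl k)), if_neg (fun k => h (Or.inr (Or.inl k))),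
      if_neg (fun k => h (Or.inr (Or.inr k)))]
    norm_num
  have hE1 : ∀ x y, 0 ≤ sepE t1 t2 x y + sepE t2 t3 x y + sepE t3 t1 x y := by
    intro x y
    have a1 := sepE_nonneg t1 t2 x y
    have a2 := sepE_nonneg t2 t3 x y
    have a3 := sepE_nonneg t3 t1 x y
    linarith
  have hDadj : ∀ x y, SepD t1 t2 t3 x y → T.Adj x y := by
    rintro x y (⟨rfl, rfl⟩ | ⟨rfl, rfl⟩ | ⟨rfl, rfl⟩)
    · exact h12
    · exact h23
    · exact h31
  have hanti : ∀ a b, Λ a b = - Λ b a := by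
    intro a b
    rw [hΛ]
    ring
  have hsupp : ∀ a b, ¬ T.Adj a b → Λ a b = 0 := by
    intro a b h
    rw [hΛ]
    simp only
    rw [hE0 a b (fun k => h (hDadj _ _ k)), hE0 b a (fun k => h (hDadj _ _ k).symm), sub_zero]
  have hcirc : ∀ a, ∑ b, Λ a b = 0 := by
    intro a
    rw [hΛ]
    simp only
    rw [Finset.sum_sub_distrib, Finset.sum_add_distrib, Finset.sum_add_distrib,
      Finset.sum_add_distrib, Finset.sum_add_distrib, sepE_sum_right, sepE_sum_right,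
      sepE_sum_right, sepE_sum_left, sepE_sum_left, sepE_sum_left]
    ring
  obtain ⟨φ, hφ1, hφ2, hφ3⟩ := T.exists_potential Λ hanti hsupp hcirc
  obtain ⟨p0, hp0, hmax⟩ := Set.exists_max_image {p : V × V | T.Adj p.1 p.2}
    (fun p => φ p.1 p.2) (Set.toFinite _) ⟨(t1, t2), h12⟩
  obtain ⟨m, hm⟩ : ∃ m : ℝ, m = φ p0.1 p0.2 := ⟨_, rfl⟩
  have hle : ∀ x y, T.Adj x y → φ x y ≤ m := by
    intro x y h
    rw [hm]
    exact hmax (x, y) h
  obtain ⟨J, hJ⟩ : ∃ J : V → V → Prop, J = fun x y => T.Adj x y ∧ φ x y = m := ⟨_, rfl⟩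
  have hJi : ∀ x y, J x y ↔ T.Adj x y ∧ φ x y = m := by
    intro x y
    rw [hJ]
  have face : ∀ x y z, T.F x y z → J x y → J y z := by
    intro x y z hF h
    rw [hJi] at h ⊢
    exact ⟨⟨x, T.cyc _ _ _ hF⟩, by rw [← hφ1 x y z hF]; exact h.2⟩
  have edge : ∀ x y, T.Adj x y → J x y → ¬ J y x → SepD t1 t2 t3 x y := by
    intro x y hadj h h'
    by_contra hD
    rw [hJi] at h h'
    have e1 : φ y x ≠ m := fun k => h' ⟨hadj.symm, k⟩
    have e2 : φ y x < m := lt_of_le_of_ne (hle y x hadj.symm) e1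
    have e3 : 0 < Λ x y := by
      rw [hφ3, h.2]
      linarith
    rw [hΛ] at e3
    simp only at e3
    rw [hE0 x y hD] at e3
    have := hE1 y x
    linarith
  have hL12 : 0 < Λ t1 t2 := by
    rw [hΛ]
    simp only
    have hn : ¬ SepD t1 t2 t3 t2 t1 := by
      rintro (⟨k, -⟩ | ⟨-, k⟩ | ⟨k, -⟩)
      · exact n12 k.symm
      · exact n31 k.symm
      · exact n23 k
    rw [hE0 t2 t1 hn]
    unfold sepE
    rw [if_pos ⟨rfl, rfl⟩, if_neg (fun k => n12 k.1), if_neg (fun k => n31 k.1.symm)]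
    norm_num
  -- there is a dart with `J x y`, `¬ J y x`
  have hex : ∃ x y, T.Adj x y ∧ J x y ∧ ¬ J y x := by
    by_contra hno
    push Not at hno
    have hsym : ∀ x y z, T.F x y z → J x y → J y x := fun x y z hF h => hno x y ⟨z, hF⟩ h
    obtain ⟨r0, hr0⟩ := hp0
    obtain ⟨r1, hr1⟩ := h12
    obtain ⟨r2, hr2⟩ : T.Adj t2 t1 := Tri.Adj.symm ⟨r1, hr1⟩
    have hJ0 : J p0.1 p0.2 := by
      rw [hJi]
      exact ⟨⟨r0, hr0⟩, hm.symm⟩
    have k1 := T.trans J face hsym _ _ _ _ _ _ hr0 hr1 hJ0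
    have k2 := T.trans J face hsym _ _ _ _ _ _ hr0 hr2 hJ0
    rw [hJi] at k1 k2
    have := hφ3 t1 t2
    rw [k1.2, k2.2] at this
    linarith
  -- the circulation of the indicator of `J`
  obtain ⟨ψ, hψ⟩ : ∃ ψ : V → V → ℝ, ψ = fun x y => if J x y then (1 : ℝ) else 0 := ⟨_, rfl⟩
  have hψ1 : ∀ a b c, T.F a b c → ψ a b = ψ b c := by
    intro a b c hF
    have : J a b ↔ J b c := ⟨face _ _ _ hF, fun h =>
      face _ _ _ (T.cyc2 hF) (face _ _ _ (T.cyc _ _ _ hF) h)⟩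
    rw [hψ]
    simp only [this]
  have hψ2 : ∀ a b, ¬ T.Adj a b → ψ a b = 0 := by
    intro a b h
    rw [hψ]
    simp only
    rw [if_neg]
    intro k
    rw [hJi] at k
    exact h k.1
  have hψJ : ∀ a b, J a b → ψ a b = 1 := by
    intro a b h
    rw [hψ]
    simp only
    rw [if_pos h]
  have hψN : ∀ a b, ¬ J a b → ψ a b = 0 := by
    intro a b h
    rw [hψ]
    simp only
    rw [if_neg h]
  have hJadj : ∀ x y, J x y → T.Adj x y := fun x y h => ((hJi x y).1 h).1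
  have hd0 : ∀ x y, ¬ SepD t1 t2 t3 x y → ¬ SepD t1 t2 t3 y x → ψ x y - ψ y x = 0 := by
    intro x y k1 k2
    by_cases j1 : J x y
    · by_cases j2 : J y x
      · rw [hψJ _ _ j1, hψJ _ _ j2, sub_self]
      · exact absurd (edge x y (hJadj _ _ j1) j1 j2) k1
    · by_cases j2 : J y x
      · exact absurd (edge y x (hJadj _ _ j2) j2 j1) k2
      · rw [hψN _ _ j1, hψN _ _ j2, sub_self]
  have s1 : (ψ t1 t2 - ψ t2 t1) + (ψ t1 t3 - ψ t3 t1) = 0 := by
    have h := T.circ ψ hψ1 hψ2 t1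
    rw [Finset.sum_eq_add t2 t3 n23 (by
      rintro c - ⟨c1, c2⟩
      apply hd0
      · rintro (⟨-, k⟩ | ⟨k, -⟩ | ⟨k, -⟩)
        · exact c1 k
        · exact n12 k
        · exact n31 k.symm
      · rintro (⟨-, k⟩ | ⟨-, k⟩ | ⟨k, -⟩)
        · exact n12 k
        · exact n31 k.symm
        · exact c2 k) (by simp) (by simp)] at h
    exact h
  have s2 : (ψ t2 t3 - ψ t3 t2) + (ψ t2 t1 - ψ t1 t2) = 0 := by
    have h := T.circ ψ hψ1 hψ2 t2
    rw [Finset.sum_eq_add t3 t1 n31 (by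
      rintro c - ⟨c1, c2⟩
      apply hd0
      · rintro (⟨k, -⟩ | ⟨-, k⟩ | ⟨k, -⟩)
        · exact n12 k.symm
        · exact c1 k
        · exact n23 k
      · rintro (⟨k, -⟩ | ⟨-, k⟩ | ⟨-, k⟩)
        · exact c2 k
        · exact n23 k
        · exact n12 k.symm) (by simp) (by simp)] at h
    exact h
  obtain ⟨x, y, hadj, j1, j2⟩ := hex
  have hD := edge x y hadj j1 j2
  have hall : ψ t1 t2 - ψ t2 t1 = 1 ∧ ψ t2 t3 - ψ t3 t2 = 1 ∧ ψ t3 t1 - ψ t1 t3 = 1 := by
    have e := hψJ _ _ j1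
    have e' := hψN _ _ j2
    rcases hD with ⟨rfl, rfl⟩ | ⟨rfl, rfl⟩ | ⟨rfl, rfl⟩
    · refine ⟨?_, ?_, ?_⟩ <;> linarith
    · refine ⟨?_, ?_, ?_⟩ <;> linarith
    · refine ⟨?_, ?_, ?_⟩ <;> linarith
  have hconv : ∀ x y, ψ x y - ψ y x = 1 → J x y ∧ ¬ J y x := by
    intro x y h
    by_cases j1 : J x y
    · by_cases j2 : J y x
      · rw [hψJ _ _ j1, hψJ _ _ j2] at h
        norm_num at h
      · exact ⟨j1, j2⟩
    · by_cases j2 : J y x
      · rw [hψN _ _ j1, hψJ _ _ j2] at h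
        norm_num at h
      · rw [hψN _ _ j1, hψN _ _ j2] at h
        norm_num at h
  obtain ⟨a1, a2⟩ := hconv _ _ hall.1
  obtain ⟨b1, b2⟩ := hconv _ _ hall.2.1
  obtain ⟨c1, c2⟩ := hconv _ _ hall.2.2
  have hsep : Sep T t1 t2 t3 J := ⟨h12, h23, h31, face, edge, a1, b1, c1, a2, b2, c2⟩
  by_cases ho : J o1 o2
  · exact ⟨t2, t1, t3, _, Or.inr ⟨rfl, rfl, rfl⟩, hsep.compl, not_not.2 ho⟩
  · exact ⟨t1, t2, t3, J, Or.inl ⟨rfl, rfl, rfl⟩, hsep, ho⟩

end P4
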