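import Pool.Agent.Lib_MP_b306af.P4ZSplit1
import Pool.Agent.Lib_MP_b306af.P4Link

/-! # MP_b306af Part IV: P4Sepv -/

namespace P4

variable {V : Type}

/- Piece SEPV (P4Split, uses `Tri.link_single`).  At a vertex `z` off the triangle all faces are on the
same side.  `R x := J z x` satisfies `hR`: for `T.F z x y`: if `J z x` then `J x y`, `J y z` (`face`), and
`J z y` since otherwise `(y, z)` would be a dart of the triangle (`edge`); conversely if `J z y` then
`J y z` (otherwise `(z, y)` is a dart of the triangle), and `face` on `T.F y z x`, gives `J z x`. -/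
theorem Sep.vertex {T : Tri V} {a b c : V} {J : V → V → Prop} (h : Sep T a b c J) (z : V)
    (ha : z ≠ a) (hb : z ≠ b) (hc : z ≠ c) (x y : V) (hx : T.Adj z x) (hy : T.Adj z y) :
    (J z x → J z y) ∧ (J z x → J y z) := by
  classical
  have hR : ∀ u w, T.F z u w → (J z u ↔ J z w) := by
    intro u w hF
    constructor
    · intro h1
      have h2 := h.face _ _ _ hF h1
      have h3 := h.face _ _ _ (T.cyc _ _ _ hF) h2
      by_contra h4
      have hadj : T.Adj w z := ⟨u, T.cyc2 hF⟩
      rcases h.edge w z hadj h3 h4 with h5 | h5 | h5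
      · exact hb h5.2
      · exact hc h5.2
      · exact ha h5.2
    · intro h1
      have hF2 := T.cyc2 hF
      by_cases h2 : J w z
      · exact h.face _ _ _ hF2 h2
      · have hadj : T.Adj z w := (show T.Adj w z from ⟨u, hF2⟩).symm
        rcases h.edge z w hadj h1 h2 with h5 | h5 | h5
        · exact absurd h5.1 ha
        · exact absurd h5.1 hb
        · exact absurd h5.1 hc
  have key : J z x → J z y := fun h1 => Tri.link_single T z (fun w => J z w) hR x y hx hy h1
  refine ⟨key, fun h1 => ?_⟩
  by_contra h2
  rcases h.edge z y hy (key h1) h2 with h5 | h5 | h5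
  · exact ha h5.1
  · exact hb h5.1
  · exact hc h5.1

end P4
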