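import Pool.Agent.Lib_MP_b306af.P4ZSeq1

/-! # MP_b306af Part IV: P4Seqa -/

namespace P4

open Finset

variable {V : Type}

/- Piece SEQA (P4Seq).  The value is the same after an occurrence of `v` and before the next one.
`f (k - 1) - f i = ∑ r ∈ Ioo i k, (f r - prv m f r)` (telescoping, `prv m f r = f (r - 1)` for
`r ≥ 1`).  Group the sum by the value `w = a r` (`Finset.sum_fiberwise` / `sum_comp`): for each
`w = a j`, `i < j < k`, `w ≠ a i` (hypothesis `hno`), all occurrences of `w` in `[0, m)` lie in
`(i, k)` (`abab`), so the sum over the fibre is the complete sum `occ m a w _ = 0`. -/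
theorem SeqData.ro {m : ℕ} {a : ℕ → V} {t f : ℕ → ℝ} (D : SeqData m a t f) (i k : ℕ)
    (hik : i < k) (hk : k < m) (ha : a i = a k) (hno : ∀ r, i < r → r < k → a r ≠ a i) :
    f i = f (k - 1) := by
  classical
  have tel : ∀ n, i ≤ n → ∑ r ∈ Ioc i n, (f r - prv m f r) = f n - f i := by
    intro n hn
    induction n, hn using Nat.le_induction with
    | base => simp
    | succ n hn ih =>
      rw [Finset.sum_Ioc_succ_top hn, ih]
      have : prv m f (n + 1) = f n := by simp [prv]
      rw [this]; ring
  have h1 := tel (k - 1) (by omega)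
  have h2 : ∑ r ∈ Ioc i (k - 1), (f r - prv m f r) = 0 := by
    rw [← Finset.sum_fiberwise_of_maps_to (t := (Ioc i (k - 1)).image a) (g := a)
      (fun r hr => Finset.mem_image_of_mem a hr)]
    refine Finset.sum_eq_zero ?_
    intro w hw
    obtain ⟨j, hj, rfl⟩ := Finset.mem_image.1 hw
    rw [Finset.mem_Ioc] at hj
    have hj1 : j < k := by omega
    have hc := D.cons (a j)
    unfold occ at hc
    have hset : (Ioc i (k - 1)).filter (fun r => a r = a j)
        = (range m).filter (fun r => a r = a j) := by
      ext l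
      simp only [Finset.mem_filter, Finset.mem_Ioc, Finset.mem_range]
      constructor
      · rintro ⟨⟨h3, h4⟩, h5⟩
        exact ⟨by omega, h5⟩
      · rintro ⟨h3, h4⟩
        have := D.abab i k j l hik hk (by omega) h3 ha h4.symm (hno j hj.1 hj1) hj.1 hj1
        exact ⟨⟨this.1, by omega⟩, h4⟩
    rw [hset]
    convert hc
  linarith
 
end P4
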