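import Pool.Agent.Lib_MP_b306af.P4ZSeq1

/-! # MP_b306af Part IV: P4Seqb -/

namespace P4

open Finset

variable {V : Type}

theorem sum_telescope_prv (m : ℕ) (f : ℕ → ℝ) (i k : ℕ) (hik : i ≤ k) :
    ∑ r ∈ Icc i k, (f r - prv m f r) = f k - prv m f i := by
  induction k, hik using Nat.le_induction with
  | base => simp
  | succ k hk ih =>
    rw [← Finset.insert_Icc_right_eq_Icc_add_one (by omega), Finset.sum_insert (by simp), ih]
    have h : prv m f (k + 1) = f k := by
      unfold prv
      rw [if_neg (by omega)]
      rfl
    rw [h]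
    ring

/- Piece SEQB (P4Seq).  Same for the last and the first occurrence: `i` is the first and `k` the
last occurrence of `v = a i` in `[0, m)`.
`f k - prv m f i = ∑ r ∈ Icc i k, (f r - prv m f r)` (telescoping: for `r > i` `prv m f r = f (r - 1)`).
All occurrences of `v` are in `[i, k]`: their total is `occ m a v _ = 0`.  For another value
`w = a j`, `i < j < k` (then `i < k`), all occurrences are in `(i, k)` by `abab`, total `0`. -/
theorem SeqData.ro_wrap {m : ℕ} {a : ℕ → V} {t f : ℕ → ℝ} (D : SeqData m a t f) (i k : ℕ)
    (hik : i ≤ k) (hk : k < m) (ha : a i = a k) (hi : ∀ r, r < i → a r ≠ a i)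
    (hk' : ∀ r, k < r → r < m → a r ≠ a i) : f k = prv m f i := by
  classical
  have h1 := sum_telescope_prv m f i k hik
  have h2 : ∑ r ∈ Icc i k, (f r - prv m f r) = 0 := by
    rw [← Finset.sum_fiberwise_of_maps_to (s := Icc i k) (t := (Icc i k).image a) (g := a)
      (fun r hr => Finset.mem_image_of_mem a hr)]
    refine Finset.sum_eq_zero (fun v hv => ?_)
    obtain ⟨j, hj, rfl⟩ := Finset.mem_image.1 hv
    rw [Finset.mem_Icc] at hj
    have hc := D.cons (a j)
    unfold occ at hc
    rw [← hc]
    refine Finset.sum_congr ?_ (fun _ _ => rfl)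
    ext l
    rw [Finset.mem_filter, Finset.mem_filter, Finset.mem_Icc, Finset.mem_range]
    constructor
    · rintro ⟨⟨-, h⟩, h'⟩
      exact ⟨by omega, h'⟩
    · rintro ⟨hl, hla⟩
      refine ⟨?_, hla⟩
      by_cases hv : a j = a i
      · rw [hv] at hla
        constructor
        · by_contra hcon
          exact hi l (by omega) hla
        · by_contra hcon
          exact hk' l (by omega) hl hla
      · have hji : j ≠ i := fun h => hv (by rw [h])
        have hjk : j ≠ k := fun h => hv (by rw [h, ha])
        have h3 := D.abab i k j l (by omega) hk (by omega) hl ha hla.symm hv (by omega) (by omega)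
        omega
  linarith

end P4
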