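import Pool.Agent.Lib_MP_b306af.P4Seqa
import Pool.Agent.Lib_MP_b306af.P4Seqb

/-! # MP_b306af Part IV: P4Seqc -/

namespace P4

open Finset

variable {V : Type}

private theorem seqc_occ_succ (n : ℕ) (a : ℕ → V) (v : V) (g : ℕ → ℝ) :
    occ (n + 1) a v g = occ n a v g + (open Classical in if a n = v then g n else 0) := by
  classical
  unfold occ
  rw [range_add_one, filter_insert]
  split_ifs with h
  · rw [sum_insert (by simp), add_comm]
  · rw [add_zero]

private theorem seqc_occ_zero (i : ℕ) (a : ℕ → V) (g : ℕ → ℝ) (hi : ∀ r, r < i → a r ≠ a i) :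
    occ i a (a i) g = 0 := by
  classical
  unfold occ
  rw [filter_eq_empty_iff.2, sum_empty]
  intro r hr
  exact hi r (mem_range.1 hr)

/- Piece SEQC (P4Seq, uses `ro`, `ro_wrap`).  `i` is the first occurrence of `v` and the value
before it is the minimum `μ`.  Let `i = i_1 < ... < i_k` be the occurrences of `v`, `ψ_s = f i_s - μ ≥ 0`.
By `ro` the value before `i_{s+1}` is `f i_s`, by `ro_wrap` `f i_k = prv m f i = μ`, so `ψ_k = 0`.
Abel summation: `mom v = ∑_s t_{i_s} (ψ_s - ψ_{s-1})` (`ψ_0 = 0`)
`= - ∑_{s<k} (t_{i_{s+1}} - t_{i_s}) ψ_s ≤ 0`, and it is `≥ 0` only if all `ψ_s = 0`.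
Convenient form: for `n ≤ m` let `G n` be the sum of `t r * (f r - prv m f r)` over the occurrences
`r < n` of `v`; prove by induction on `n`: if `p` is the last occurrence `< n` then
`G n ≤ t p * (f p - μ)`, and if some occurrence `r < n` other than `p` has `f r > μ` then `<`:
for a new occurrence `n` with previous occurrence `p`:
`G (n + 1) = G n + t n * ((f n - μ) - (f p - μ)) ≤ t n * (f n - μ) - (t n - t p) * (f p - μ)`. -/
theorem SeqData.rule {m : ℕ} {a : ℕ → V} {t f : ℕ → ℝ} (D : SeqData m a t f) (μ : ℝ)
    (hμ : ∀ r < m, μ ≤ f r) (i : ℕ) (him : i < m) (hi : ∀ r, r < i → a r ≠ a i)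
    (hp : prv m f i = μ) :
    mom m a t f (a i) ≤ 0 ∧
      (0 ≤ mom m a t f (a i) → ∀ r < m, a r = a i → f r = μ ∧ prv m f r = μ) := by
  classical
  have key : ∀ n, i < n → n ≤ m → ∃ p, i ≤ p ∧ p < n ∧ a p = a i ∧
      (∀ r, p < r → r < n → a r ≠ a i) ∧
      occ n a (a i) (fun r => t r * (f r - prv m f r)) ≤ t p * (f p - μ) ∧
      ((∃ r, r < n ∧ a r = a i ∧ r ≠ p ∧ μ < f r) →
        occ n a (a i) (fun r => t r * (f r - prv m f r)) < t p * (f p - μ)) ∧
      (∀ r, r < n → a r = a i → r = i ∨ ∃ q, q < r ∧ a q = a i ∧ prv m f r = f q) := by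
    intro n hn
    induction n, hn using Nat.le_induction with
    | base =>
      intro _
      have hocc : occ (i + 1) a (a i) (fun r => t r * (f r - prv m f r)) = t i * (f i - μ) := by
        rw [seqc_occ_succ, seqc_occ_zero i a _ hi, if_pos rfl, hp, zero_add]
      refine ⟨i, le_rfl, Nat.lt_succ_self i, rfl, ?_, hocc.le, ?_, ?_⟩
      · intro r h1 h2
        omega
      · rintro ⟨r, h1, h2, h3, -⟩
        exact absurd h2 (hi r (by omega))
      · intro r h1 h2
        by_contra hcon
        push Not at hcon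
        exact hi r (by have := hcon.1; omega) h2
    | succ n hn ih =>
      intro hnm
      obtain ⟨p, h1, h2, h3, h4, h5, h6, h7⟩ := ih (by omega)
      by_cases hv : a n = a i
      · have hro := D.ro p n h2 (by omega) (h3.trans hv.symm) (by rw [h3]; exact h4)
        have hprv : prv m f n = f p := by
          rw [hro]
          unfold prv
          rw [if_neg (by omega)]
        have hlt : t p < t n := D.lt p n h2 (by omega) (h3.trans hv.symm)
        have hfp : μ ≤ f p := hμ p (by omega)
        have hG : occ (n + 1) a (a i) (fun r => t r * (f r - prv m f r)) =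
            occ n a (a i) (fun r => t r * (f r - prv m f r)) + t n * (f n - f p) := by
          rw [seqc_occ_succ, if_pos hv, hprv]
        refine ⟨n, by omega, Nat.lt_succ_self n, hv, ?_, ?_, ?_, ?_⟩
        · intro r h8 h9
          omega
        · rw [hG]
          nlinarith [mul_nonneg (sub_nonneg.2 hlt.le) (sub_nonneg.2 hfp)]
        · rintro ⟨r, h8, h9, h10, h11⟩
          rw [hG]
          have hrn : r < n := by omega
          by_cases hrp : r = p
          · subst hrp
            nlinarith [mul_pos (sub_pos.2 hlt) (sub_pos.2 h11)]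
          · have := h6 ⟨r, hrn, h9, hrp, h11⟩
            nlinarith [mul_nonneg (sub_nonneg.2 hlt.le) (sub_nonneg.2 hfp)]
        · intro r h8 h9
          rcases Nat.lt_succ_iff_lt_or_eq.1 h8 with h | h
          · exact h7 r h h9
          · right
            exact ⟨p, by omega, h3, by rw [h]; exact hprv⟩
      · have hG : occ (n + 1) a (a i) (fun r => t r * (f r - prv m f r)) =
            occ n a (a i) (fun r => t r * (f r - prv m f r)) := by
          rw [seqc_occ_succ, if_neg hv, add_zero]
        refine ⟨p, h1, by omega, h3, ?_, ?_, ?_, ?_⟩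
        · intro r h8 h9
          rcases Nat.lt_succ_iff_lt_or_eq.1 h9 with h | h
          · exact h4 r h8 h
          · rw [h]; exact hv
        · rw [hG]; exact h5
        · rintro ⟨r, h8, h9, h10, h11⟩
          rw [hG]
          refine h6 ⟨r, ?_, h9, h10, h11⟩
          rcases Nat.lt_succ_iff_lt_or_eq.1 h8 with h | h
          · exact h
          · rw [h] at h9; exact absurd h9 hv
        · intro r h8 h9
          rcases Nat.lt_succ_iff_lt_or_eq.1 h8 with h | h
          · exact h7 r h h9
          · rw [h] at h9; exact absurd h9 hv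
  obtain ⟨k, h1, h2, h3, h4, h5, h6, h7⟩ := key m him le_rfl
  have hk : f k = μ := (D.ro_wrap i k h1 h2 h3.symm hi h4).trans hp
  have hz : t k * (f k - μ) = 0 := by rw [hk, sub_self, mul_zero]
  rw [hz] at h5 h6
  refine ⟨h5, fun h0 => ?_⟩
  have hall : ∀ r < m, a r = a i → f r = μ := by
    intro r hr har
    by_cases hrk : r = k
    · rw [hrk]; exact hk
    · by_contra hne
      have : μ < f r := lt_of_le_of_ne (hμ r hr) (Ne.symm hne)
      exact absurd (h6 ⟨r, hr, har, hrk, this⟩) (not_lt.2 h0)
  intro r hr har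
  refine ⟨hall r hr har, ?_⟩
  rcases h7 r hr har with h | ⟨q, hq1, hq2, hq3⟩
  · rw [h]; exact hp
  · rw [hq3]
    exact hall q (by omega) hq2

end P4
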