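import Pool.Agent.Lib_MP_b306af.P4Seqc

/-! # MP_b306af Part IV: P4Seqd -/

namespace P4

open Finset

variable {V : Type}

/- Piece SEQD (P4Seq, uses `rule`, `ro_wrap`).  Maximal run of minimal values, `f (m - 1) > μ`.
(1) Claim: for `r = r1` and for `r = r2 + 1`, with `i` the first occurrence of `v = a r`,
`prv m f i > μ`.  If `v = a 0` then `i = 0` and `prv m f 0 = f (m - 1) > μ`.  If `v = a (m - 1)`, the
last occurrence is `m - 1` and by `ro_wrap` `prv m f i = f (m - 1) > μ`.  Otherwise `0 ≤ mom v`; if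
`prv m f i = μ` (it is `≥ μ` always) then by `rule` `f r = μ` and `prv m f r = μ`, contradiction to
`prv m f r1 > μ`, resp. `f (r2 + 1) > μ`.
(2) Suppose `a r1 ≠ a (r2 + 1)`.  Let `i` be the last occurrence of `v = a r1` in `[r1, r2 + 1]`, so
`r1 ≤ i ≤ r2`, `f i = μ`.  If it were the last occurrence of `v` in `[0, m)`, `ro_wrap` (with the
first occurrence of `v`) gives `μ = f i = prv` at the first occurrence, contradiction to (1).  So
there is a next occurrence `i' > r2 + 1` of `v`.  Let `j = r2 + 1`, `i < j < i'`; by `abab` the first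
occurrence `l` of `w = a (r2 + 1)` satisfies `i < l`, `l ≤ r2 + 1`.  So `r1 ≤ l - 1 ≤ r2` and
`prv m f l = f (l - 1) = μ`, contradiction to (1) for `w`. -/
theorem SeqData.run {m : ℕ} {a : ℕ → V} {t f : ℕ → ℝ} (D : SeqData m a t f) (μ : ℝ)
    (hμ : ∀ r < m, μ ≤ f r) (h0 : μ < f (m - 1))
    (hM : ∀ v, v ≠ a 0 → v ≠ a (m - 1) → 0 ≤ mom m a t f v) (r1 r2 : ℕ) (h12 : r1 ≤ r2)
    (hr2 : r2 + 1 < m) (hrun : ∀ r, r1 ≤ r → r ≤ r2 → f r = μ) (hs : μ < prv m f r1)
    (he : μ < f (r2 + 1)) : a r1 = a (r2 + 1) := by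
  classical
  have hm := D.hm
  have hprv : ∀ r < m, μ ≤ prv m f r := by
    intro r hr
    unfold prv
    split_ifs
    · exact hμ _ (by omega)
    · exact hμ _ (by omega)
  have first : ∀ r < m, ∃ i ≤ r, a i = a r ∧ ∀ r' < i, a r' ≠ a i := by
    intro r _
    have hex : ∃ i, a i = a r := ⟨r, rfl⟩
    have hsp := Nat.find_spec hex
    refine ⟨Nat.find hex, Nat.find_min' hex rfl, hsp, fun r' hr' h => ?_⟩
    exact Nat.find_min hex hr' (h.trans hsp)
  have claim : ∀ r < m, ¬ (f r = μ ∧ prv m f r = μ) → ∀ i ≤ r, a i = a r →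
      (∀ r' < i, a r' ≠ a i) → μ < prv m f i := by
    intro r hr hn i hir hai hi
    have him : i < m := lt_of_le_of_lt hir hr
    by_cases c0 : a i = a 0
    · have hi0 : i = 0 := by
        by_contra h
        exact hi 0 (Nat.pos_of_ne_zero h) c0.symm
      rw [hi0]
      unfold prv
      rw [if_pos rfl]
      exact h0
    · by_cases c1 : a i = a (m - 1)
      · have hw := D.ro_wrap i (m - 1) (by omega) (by omega) c1 hi (fun r h1 h2 => by omega)
        rw [← hw]
        exact h0
      · refine lt_of_le_of_ne (hprv i him) fun hp => ?_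
        obtain ⟨-, h2⟩ := D.rule μ hμ i him hi hp.symm
        exact hn (h2 (hM _ c0 c1) r hr hai.symm)
  by_contra hne
  have hr1 : r1 < m := by omega
  have hi1 : r1 ≤ Nat.findGreatest (fun r => a r = a r1) r2 :=
    Nat.le_findGreatest h12 rfl
  have hi2 : Nat.findGreatest (fun r => a r = a r1) r2 ≤ r2 := Nat.findGreatest_le r2
  have hi3 : a (Nat.findGreatest (fun r => a r = a r1) r2) = a r1 :=
    Nat.findGreatest_spec (P := fun r => a r = a r1) h12 rfl
  have hi4 : ∀ k, Nat.findGreatest (fun r => a r = a r1) r2 < k → k ≤ r2 → a k ≠ a r1 :=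
    fun k h1 h2 => Nat.findGreatest_is_greatest (P := fun r => a r = a r1) h1 h2
  generalize Nat.findGreatest (fun r => a r = a r1) r2 = i at hi1 hi2 hi3 hi4
  have hfi : f i = μ := hrun i hi1 hi2
  by_cases hlast : ∀ r, i < r → r < m → a r ≠ a i
  · obtain ⟨i0, hi0, hai0, hfi0⟩ := first r1 hr1
    have h1 := claim r1 hr1 (fun h => by rw [h.2] at hs; exact lt_irrefl _ hs) i0 hi0 hai0 hfi0
    have h2 := D.ro_wrap i0 i (by omega) (by omega) (hai0.trans hi3.symm) hfi0
      (fun r h1 h2 h3 => hlast r h1 h2 (h3.trans (hai0.trans hi3.symm)))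
    rw [← h2, hfi] at h1
    exact lt_irrefl _ h1
  · push Not at hlast
    obtain ⟨i', hii', hi'm, hai'⟩ := hlast
    have hi'2 : r2 + 1 < i' := by
      by_contra hcon
      rcases Nat.lt_or_ge r2 i' with h | h
      · have : i' = r2 + 1 := by omega
        rw [this] at hai'
        exact hne (hi3.symm.trans hai'.symm)
      · exact hi4 i' hii' h (hai'.trans hi3)
    obtain ⟨l, hl, hal, hfl⟩ := first (r2 + 1) hr2
    have h1 := claim (r2 + 1) hr2 (fun h => by rw [h.1] at he; exact lt_irrefl _ he) l hl hal hfl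
    obtain ⟨h2, h3⟩ := D.abab i i' (r2 + 1) l hii' hi'm hr2 (by omega) hai'.symm hal.symm
      (fun h => hne (hi3.symm.trans h.symm)) (by omega) hi'2
    have h4 : prv m f l = μ := by
      unfold prv
      rw [if_neg (by omega)]
      exact hrun _ (by omega) (by omega)
    rw [h4] at h1
    exact lt_irrefl _ h1

end P4
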