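import Pool.Agent.Lib_MP_b306af.P4ZGeo1

/-! # MP_b306af Part IV: P4ZGeo2 -/

namespace P4

/-- the determinant of a face with one vertex on the axis and two vertices on one side -/
theorem det3_link (s b b' : ℝ × ℝ) (hs : s.2 = 0) (hb : b.2 ≠ 0) (hb' : b'.2 ≠ 0) :
    det3 s b b' = b.2 * b'.2 * ((b.1 - s.1) / b.2 - (b'.1 - s.1) / b'.2) := by
  unfold det3
  rw [hs]
  field_simp
  ring

end P4
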