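import Pool.Agent.Lib_MP_b306af.P4ZCore2

/-! # MP_b306af Part IV: P4ZLP1 -/

namespace P4

open Finset

variable {V : Type}

namespace Setup

/-- a solution of the linear program: `p = x / y`, `q = 1 / y` in terms of the positions -/
structure Sol (S : Setup V) (y p q : V → ℝ) : Prop where
  cross : ∀ u w, S.T.Adj u w → S.side u = 1 → S.side w = -1 →
    p u - p w = S.A u w * (q u - q w)
  sgn : ∀ v, S.T.Supp v → S.side v ≠ 0 → SignType.sign (q v) = S.side v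
  link : ∀ s b b', S.T.F s b b' → S.side s = 0 → S.side b = S.side b' →
    p b' - S.X s * q b' < p b - S.X s * q b
  out : ∀ v, S.Outer v → S.side v ≠ 0 → q v = y v

/-- multipliers (coefficients of the dual certificate) -/
structure Mult [Fintype V] (S : Setup V) (y : V → ℝ) where
  lam : V → V → ℝ
  l2 : V → ℝ
  xi : V → ℝ
  nu : V → V → V → ℝ
  om : ℝ
  xi_nn : ∀ v, 0 ≤ xi v
  nu_nn : ∀ s b b', 0 ≤ nu s b b'
  om_nn : 0 ≤ om
  lam_supp : ∀ u w, lam u w ≠ 0 → S.T.Adj u w ∧ S.side u = 1 ∧ S.side w = -1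
  l2_supp : ∀ v, l2 v ≠ 0 → S.Outer v ∧ S.side v ≠ 0
  xi_supp : ∀ v, xi v ≠ 0 → S.T.Supp v ∧ S.side v ≠ 0
  nu_supp : ∀ s b b', nu s b b' ≠ 0 → S.T.F s b b' ∧ S.side s = 0 ∧ S.side b = S.side b'
  nontriv : (∃ v, xi v ≠ 0) ∨ (∃ s b b', nu s b b' ≠ 0) ∨ om ≠ 0
  eqp : ∀ v, ∑ w, lam v w - ∑ u, lam u v + ∑ s, ∑ b, (nu s v b - nu s b v) = 0
  eqq : ∀ v, - ∑ w, S.A v w * lam v w + ∑ u, S.A u v * lam u v
    - ∑ s, ∑ b, S.X s * (nu s v b - nu s b v) + (S.side v : ℝ) * xi v + l2 v = 0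
  eqw : om = ∑ v, y v * l2 v

end Setup

end P4
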