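import Pool.Agent.Lib_MP_b306af.P4Posface
import Pool.Agent.Lib_MP_b306af.P4Geoc
import Pool.Agent.Lib_MP_b306af.P4ZGeo2
import Pool.Agent.Lib_MP_b306af.P4ZLP1

/-! # MP_b306af Part IV: P4Soldraw -/

namespace P4

variable {V : Type}

namespace Setup

/- Piece SOLDRAW (P4Draw, uses `crossAt_pq`, `crossed_pos`, `det3_link`).
Given `OuterOK Q` put `y v = 1 / (Q v).2` and let `Sol y p q`.  For the outer vertices `v` off the axis put
`p* v = (Q v).1 / (Q v).2`, `q* v = 1 / (Q v).2 = q v`.  For an outer crossing edge `u w`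
(outer vertices are pairwise adjacent) `crossAt (Q u) (Q w) = A u w` and `crossAt_pq` give
`p* u - p* w = A u w (q u - q w) = p u - p w`.  So `c := p* v - p v` is the same for all outer `v` off
the axis (there is one above and one below, and every pair above/below is an edge).
`P v := if Outer v then Q v else if side v = 0 then (X v, 0) else ((p v + c) / q v, 1 / q v)`; then
for all `v` in the support `P v = (X v, 0)` if `side v = 0` and `P v = ((p v + c) / q v, 1 / q v)` otherwise.
`sgn`: `sign (1 / q) = sign q`.  Crossing edges: `crossAt_pq` and `Sol.cross` (`q u - q w > 0`): exactly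
`A u w`.  Faces: a crossed face is positive by `crossed_pos`; otherwise by `hD` and `indep` the face
is, after rotation, `s b b'` with `side s = 0`, `side b = side b' ≠ 0` (all three vertices on
`{0, 1}` or `{0, -1}`, not all equal, no two `0`), and `det3_link` with `(x_b - X s) / y_b = p b + c - X s * q b`
and `Sol.link` (`q b * q b' > 0`). -/
theorem sol_drawn {S : Setup V} (hS : S.Good) (hD : S.NoMono) {Q : V → ℝ × ℝ}
    (hQ : S.OuterOK Q) {p q : V → ℝ} (h : S.Sol (fun v => 1 / (Q v).2) p q) (ε : ℝ)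
    (hε : 0 < ε) : ∃ P : V → ℝ × ℝ, (∀ v, S.Outer v → P v = Q v) ∧ S.Drawn ε P := by
  classical
  have three : ∀ σ : SignType, σ = 0 ∨ σ = 1 ∨ σ = -1 := by decide
  have hos : ∀ v, S.Outer v → S.T.Supp v := by
    rintro v (rfl | rfl | rfl)
    · exact ⟨_, _, hS.h0⟩
    · exact ⟨_, _, S.T.cyc _ _ _ hS.h0⟩
    · exact ⟨_, _, S.T.cyc2 hS.h0⟩
  have hoa : ∀ v w, S.Outer v → S.Outer w → v ≠ w → S.T.Adj v w := by
    have a12 : S.T.Adj S.o1 S.o2 := ⟨_, hS.h0⟩
    have a23 : S.T.Adj S.o2 S.o3 := ⟨_, S.T.cyc _ _ _ hS.h0⟩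
    have a31 : S.T.Adj S.o3 S.o1 := ⟨_, S.T.cyc2 hS.h0⟩
    rintro v w (rfl | rfl | rfl) (rfl | rfl | rfl) hne
    · exact absurd rfl hne
    · exact a12
    · exact a31.symm
    · exact a12.symm
    · exact absurd rfl hne
    · exact a23
    · exact a31
    · exact a23.symm
    · exact absurd rfl hne
  have hq0 : ∀ v, S.T.Supp v → S.side v ≠ 0 → q v ≠ 0 := by
    intro v hv hs hq
    have h1 := h.sgn v hv hs
    rw [hq, sign_zero] at h1
    exact hs h1.symm
  have hqp : ∀ v, S.T.Supp v → S.side v = 1 → 0 < q v := by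
    intro v hv hs
    have h1 := h.sgn v hv (by rw [hs]; decide)
    rw [hs] at h1
    exact sign_eq_one_iff.1 h1
  have hqm : ∀ v, S.T.Supp v → S.side v = -1 → q v < 0 := by
    intro v hv hs
    have h1 := h.sgn v hv (by rw [hs]; decide)
    rw [hs] at h1
    exact sign_eq_neg_one_iff.1 h1
  -- outer vertices off the axis
  have hQ2 : ∀ v, S.Outer v → S.side v ≠ 0 → (Q v).2 ≠ 0 := by
    intro v hv hs h2
    have h1 := hQ.sgn v hv
    rw [h2, sign_zero] at h1
    exact hs h1.symm
  have hQpq : ∀ v, S.Outer v → S.side v ≠ 0 → Q v = ((Q v).1 / (Q v).2 / q v, 1 / q v) := by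
    intro v hv hs
    have h1 : q v = 1 / (Q v).2 := h.out v hv hs
    have h2 := hQ2 v hv hs
    rw [h1]
    ext
    · show (Q v).1 = (Q v).1 / (Q v).2 / (1 / (Q v).2)
      field_simp
    · show (Q v).2 = 1 / (1 / (Q v).2)
      rw [one_div_one_div]
  have hedge : ∀ u w, S.Outer u → S.Outer w → S.side u = 1 → S.side w = -1 →
      (Q u).1 / (Q u).2 - p u = (Q w).1 / (Q w).2 - p w := by
    intro u w hu hw hsu hsw
    have hu0 : S.side u ≠ 0 := by rw [hsu]; decide
    have hw0 : S.side w ≠ 0 := by rw [hsw]; decide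
    have hne : u ≠ w := by
      intro e
      rw [e, hsw] at hsu
      exact absurd hsu (by decide)
    have h1 := hQ.cross u w hu hw hsu hsw
    rw [hQpq u hu hu0, hQpq w hw hw0,
      crossAt_pq _ _ _ _ (hq0 u (hos u hu) hu0) (hq0 w (hos w hw) hw0)] at h1
    have h2 := h.cross u w (hoa u w hu hw hne) hsu hsw
    have h3 : 0 < q u - q w := by
      have := hqp u (hos u hu) hsu
      have := hqm w (hos w hw) hsw
      linarith
    rw [div_eq_iff h3.ne'] at h1
    linarith
  obtain ⟨vp, hvp, hvp1⟩ := hS.plus0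
  obtain ⟨vm, hvm, hvm1⟩ := hS.minus0
  set c : ℝ := (Q vp).1 / (Q vp).2 - p vp with hc
  have hcv : ∀ v, S.Outer v → S.side v ≠ 0 → (Q v).1 / (Q v).2 = p v + c := by
    intro v hv hs
    have h0 := hedge vp vm hvp hvm hvp1 hvm1
    rcases three (S.side v) with h1 | h1 | h1
    · exact absurd h1 hs
    · have h2 := hedge v vm hv hvm h1 hvm1
      rw [hc]; linarith
    · have h2 := hedge vp v hvp hv hvp1 h1
      rw [hc]; linarith
  let P : V → ℝ × ℝ := fun v => if S.Outer v then Q v else if S.side v = 0 then (S.X v, 0) else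
    ((p v + c) / q v, 1 / q v)
  have hPO : ∀ v, S.Outer v → P v = Q v := fun v hv => if_pos hv
  have hP0 : ∀ v, S.T.Supp v → S.side v = 0 → P v = (S.X v, 0) := by
    intro v hv hs
    by_cases ho : S.Outer v
    · rw [hPO v ho]
      have h1 := hQ.sgn v ho
      rw [hs] at h1
      ext
      · exact hQ.abs0 v ho hs
      · exact sign_eq_zero_iff.1 h1
    · show (if S.Outer v then Q v else if S.side v = 0 then (S.X v, 0) else
        ((p v + c) / q v, 1 / q v)) = _
      rw [if_neg ho, if_pos hs]
  have hP1 : ∀ v, S.T.Supp v → S.side v ≠ 0 → P v = ((p v + c) / q v, 1 / q v) := by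
    intro v hv hs
    by_cases ho : S.Outer v
    · rw [hPO v ho, hQpq v ho hs, hcv v ho hs]
    · show (if S.Outer v then Q v else if S.side v = 0 then (S.X v, 0) else
        ((p v + c) / q v, 1 / q v)) = _
      rw [if_neg ho, if_neg hs]
  have hsgn : ∀ v, S.T.Supp v → SignType.sign (P v).2 = S.side v := by
    intro v hv
    rcases three (S.side v) with h1 | h1 | h1
    · rw [hP0 v hv h1, h1]
      exact sign_zero
    · rw [hP1 v hv (by rw [h1]; decide), h1]
      exact sign_pos (one_div_pos.2 (hqp v hv h1))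
    · rw [hP1 v hv (by rw [h1]; decide), h1]
      exact sign_neg (one_div_neg.2 (hqm v hv h1))
  have habs : ∀ v, S.T.Supp v → S.side v = 0 → (P v).1 = S.X v := by
    intro v hv hs
    rw [hP0 v hv hs]
  have hx : ∀ u w, S.T.Adj u w → S.side u = 1 → S.side w = -1 →
      crossAt (P u) (P w) = S.A u w := by
    intro u w huw hsu hsw
    have hu := huw.supp
    have hw := (Tri.Adj.symm huw).supp
    have hu0 : S.side u ≠ 0 := by rw [hsu]; decide
    have hw0 : S.side w ≠ 0 := by rw [hsw]; decide
    rw [hP1 u hu hu0, hP1 w hw hw0, crossAt_pq _ _ _ _ (hq0 u hu hu0) (hq0 w hw hw0)]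
    have h3 : 0 < q u - q w := by
      have := hqp u hu hsu
      have := hqm w hw hsw
      linarith
    rw [div_eq_iff h3.ne']
    have h2 := h.cross u w huw hsu hsw
    linarith
  have key : ∀ s b b', S.T.F s b b' → S.side s = 0 → S.side b = S.side b' → S.side b ≠ 0 →
      0 < det3 (P s) (P b) (P b') := by
    intro s b b' hF hs hbb hb
    have hb' : S.side b' ≠ 0 := by rw [← hbb]; exact hb
    have ss : S.T.Supp s := ⟨_, _, hF⟩
    have sb : S.T.Supp b := ⟨_, _, S.T.cyc _ _ _ hF⟩
    have sb' : S.T.Supp b' := ⟨_, _, S.T.cyc2 hF⟩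
    have qb := hq0 b sb hb
    have qb' := hq0 b' sb' hb'
    have hqq : 0 < q b * q b' := by
      rcases three (S.side b) with h1 | h1 | h1
      · exact absurd h1 hb
      · exact mul_pos (hqp b sb h1) (hqp b' sb' (hbb ▸ h1))
      · exact mul_pos_of_neg_of_neg (hqm b sb h1) (hqm b' sb' (hbb ▸ h1))
    have hl := h.link s b b' hF hs hbb
    rw [hP0 s ss hs, hP1 b sb hb, hP1 b' sb' hb', det3_link _ _ _ rfl
      (one_div_ne_zero qb) (one_div_ne_zero qb')]
    have e1 : 1 / q b * (1 / q b') * (((p b + c) / q b - S.X s) / (1 / q b) -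
        ((p b' + c) / q b' - S.X s) / (1 / q b')) =
        ((p b - S.X s * q b) - (p b' - S.X s * q b')) / (q b * q b') := by
      field_simp
      ring
    show 0 < 1 / q b * (1 / q b') * (((p b + c) / q b - S.X s) / (1 / q b) -
        ((p b' + c) / q b' - S.X s) / (1 / q b'))
    rw [e1]
    exact div_pos (by linarith) hqq
  refine ⟨P, hPO, ⟨?_, hsgn, habs, ?_⟩⟩
  · intro a b d hF hO
    by_cases hc1 : S.side a = 1 ∨ S.side b = 1 ∨ S.side d = 1
    · by_cases hc2 : S.side a = -1 ∨ S.side b = -1 ∨ S.side d = -1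
      · exact crossed_pos hS hsgn habs hx a b d hF hO hc1 hc2
      · have hF2 := S.T.cyc _ _ _ hF
        have hF3 := S.T.cyc2 hF
        have i1 := hS.indep _ _ _ hF
        have i2 := hS.indep _ _ _ hF2
        have i3 := hS.indep _ _ _ hF3
        have nm := hD _ _ _ hF
        rcases three (S.side a) with ha | ha | ha <;> rcases three (S.side b) with hb | hb | hb <;>
          rcases three (S.side d) with hd | hd | hd <;> simp only [ha, hb, hd] at hc2 i1 i2 i3 nm <;>
          first
          | (exfalso; revert hc2 i1 i2 i3 nm; decide)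
          | exact key a b d hF ha (by rw [hb, hd]) (by rw [hb]; decide)
          | (rw [det3_rot]; exact key b d a hF2 hb (by rw [ha, hd]) (by rw [hd]; decide))
          | (rw [det3_rot']; exact key d a b hF3 hd (by rw [ha, hb]) (by rw [ha]; decide))
    · have hF2 := S.T.cyc _ _ _ hF
      have hF3 := S.T.cyc2 hF
      have i1 := hS.indep _ _ _ hF
      have i2 := hS.indep _ _ _ hF2
      have i3 := hS.indep _ _ _ hF3
      have nm := hD _ _ _ hF
      rcases three (S.side a) with ha | ha | ha <;> rcases three (S.side b) with hb | hb | hb <;>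
        rcases three (S.side d) with hd | hd | hd <;> simp only [ha, hb, hd] at hc1 i1 i2 i3 nm <;>
        first
        | (exfalso; revert hc1 i1 i2 i3 nm; decide)
        | exact key a b d hF ha (by rw [hb, hd]) (by rw [hb]; decide)
        | (rw [det3_rot]; exact key b d a hF2 hb (by rw [ha, hd]) (by rw [hd]; decide))
        | (rw [det3_rot']; exact key d a b hF3 hd (by rw [ha, hb]) (by rw [ha]; decide))
  · intro u w huw hsu hsw
    rw [hx u w huw hsu hsw, sub_self, abs_zero]
    exact hε

end Setup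

end P4
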