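import Pool.Agent.Lib_MP_b306af.P4ZSplit3

/-! # MP_b306af Part IV: P4ZSplit4 -/

namespace P4

variable {V : Type}

namespace Setup

/-- the part outside the triangle `a b c` (`J` = inside) -/
def ext (S : Setup V) {a b c : V} {J : V → V → Prop} (h : Sep S.T a b c J) : Setup V :=
  { S with T := h.compl.tri }

/-- the part inside the triangle `a b c`, with outer face `(b, a, c)` and new labels -/
def int (S : Setup V) {a b c : V} {J : V → V → Prop} (h : Sep S.T a b c J)
    (A : V → V → ℝ) : Setup V :=
  { T := h.tri, side := S.side, o1 := b, o2 := a, o3 := c, A := A, X := S.X }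

end Setup

end P4
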