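import Pool.Agent.Lib_MP_b306af.P4Splsupp
import Pool.Agent.Lib_MP_b306af.P4Sepv
import Pool.Agent.Lib_MP_b306af.P4ZSplit4

/-! # MP_b306af Part IV: P4Splconn -/

namespace P4

variable {V : Type}

namespace Setup

/- Piece SPLCONN (P4Split).  Connectivity of the vertices of side `σ` in one part.
`P` is locally constant on the vertices of side `σ` of `h.tri` (both directions, `Adj` symmetric).
Let `t ∈ {a, b, c}` with `side t = σ`.  `Q v := if h.tri.Supp v then P v else P t`.  `Q` is locally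
constant for `T`: let `T.Adj x y`, both of side `σ`.  If `J x y ∨ J y x`, `h.tri.Adj x y` (`adj_iff`).
Otherwise, if `h.tri.Supp x` then `x ∈ {a, b, c}` (by `supp_iff` and `Sep.vertex`: all darts at `x` would
be in `J`), hence `P x ↔ P t` (`x = t` or `h.tri.Adj x t`); same for `y`.  So `Q x ↔ P t ↔ Q y`.
By `hconn` (for `T`) `Q` is constant on the vertices of side `σ` of `T` (`h.tri.Supp v → T.Supp v`). -/
theorem split_conn {T : Tri V} {side : V → SignType} {a b c : V} {J : V → V → Prop}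
    (h : Sep T a b c J) (σ : SignType)
    (hσ : side a = σ ∨ side b = σ ∨ side c = σ)
    (hconn : ∀ P : V → Prop,
      (∀ a b c, T.F a b c → side a = σ → side b = σ → P a → P b) →
      ∀ a b, T.Supp a → T.Supp b → side a = σ → side b = σ → P a → P b) :
    ∀ P : V → Prop,
      (∀ a b c, h.tri.F a b c → side a = σ → side b = σ → P a → P b) →
      ∀ a b, h.tri.Supp a → h.tri.Supp b → side a = σ → side b = σ → P a → P b := by
  intro P hP u v hu hv hsu hsv hPu
  -- local constancy in the form of an equivalence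
  have hP' : ∀ x y, h.tri.Adj x y → side x = σ → side y = σ → (P x ↔ P y) := by
    intro x y hxy hx hy
    obtain ⟨z, hz⟩ := hxy
    obtain ⟨z', hz'⟩ := h.tri.opp _ _ _ hz
    exact ⟨hP x y z hz hx hy, hP y x z' hz' hy hx⟩
  have tab : h.tri.Adj a b := (h.adj_iff a b).2 ⟨h.hab, Or.inl h.ab⟩
  have tbc : h.tri.Adj b c := (h.adj_iff b c).2 ⟨h.hbc, Or.inl h.bc⟩
  have tca : h.tri.Adj c a := (h.adj_iff c a).2 ⟨h.hca, Or.inl h.ca⟩
  obtain ⟨t, ht, hst⟩ : ∃ t, (t = a ∨ t = b ∨ t = c) ∧ side t = σ := by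
    rcases hσ with h1 | h1 | h1
    exacts [⟨a, Or.inl rfl, h1⟩, ⟨b, Or.inr (Or.inl rfl), h1⟩, ⟨c, Or.inr (Or.inr rfl), h1⟩]
  have hcorner : ∀ x, (x = a ∨ x = b ∨ x = c) → side x = σ → (P x ↔ P t) := by
    intro x hx hsx
    rcases hx with rfl | rfl | rfl <;> rcases ht with rfl | rfl | rfl
    · exact Iff.rfl
    · exact hP' _ _ tab hsx hst
    · exact hP' _ _ tca.symm hsx hst
    · exact hP' _ _ tab.symm hsx hst
    · exact Iff.rfl
    · exact hP' _ _ tbc hsx hst
    · exact hP' _ _ tca hsx hst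
    · exact hP' _ _ tbc.symm hsx hst
    · exact Iff.rfl
  -- the global predicate
  let Q : V → Prop := fun w => (h.tri.Supp w → P w) ∧ (¬ h.tri.Supp w → P t)
  have hQs : ∀ w, h.tri.Supp w → (Q w ↔ P w) := fun w hw =>
    ⟨fun hq => hq.1 hw, fun hp => ⟨fun _ => hp, fun hn => absurd hw hn⟩⟩
  have hQn : ∀ w, ¬ h.tri.Supp w → (Q w ↔ P t) := fun w hw =>
    ⟨fun hq => hq.2 hw, fun hp => ⟨fun hs => absurd hs hw, fun _ => hp⟩⟩
  -- a vertex with a dart outside
  have hout : ∀ x y, T.Adj x y → ¬ J x y → side x = σ → (Q x ↔ P t) := by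
    intro x y hxy hJ hsx
    by_cases hs : h.tri.Supp x
    · rw [hQs x hs]
      refine hcorner x ?_ hsx
      by_contra hcon
      push Not at hcon
      rcases (h.supp_iff x).1 hs with h1 | ⟨w, hw, hJw⟩
      · rcases h1 with h1 | h1 | h1
        exacts [hcon.1 h1, hcon.2.1 h1, hcon.2.2 h1]
      · exact hJ ((h.vertex x hcon.1 hcon.2.1 hcon.2.2 w y hw hxy).1 hJw)
    · exact hQn x hs
  have hloc : ∀ x y z, T.F x y z → side x = σ → side y = σ → Q x → Q y := by
    intro x y z hF hsx hsy hq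
    have hxy : T.Adj x y := ⟨z, hF⟩
    by_cases hJ : J x y ∨ J y x
    · have hadj : h.tri.Adj x y := (h.adj_iff x y).2 ⟨hxy, hJ⟩
      have h1 := (hQs x hadj.supp).1 hq
      exact (hQs y hadj.symm.supp).2 ((hP' x y hadj hsx hsy).1 h1)
    · push Not at hJ
      exact (hout y x hxy.symm hJ.2 hsy).2 ((hout x y hxy hJ.1 hsx).1 hq)
  have hsup : ∀ w, h.tri.Supp w → T.Supp w := by
    intro w hw
    rcases (h.supp_iff w).1 hw with h1 | ⟨x, hx, -⟩
    · rcases h1 with rfl | rfl | rfl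
      exacts [h.hab.supp, h.hbc.supp, h.hca.supp]
    · exact hx.supp
  have key := hconn Q hloc u v (hsup u hu) (hsup v hv) hsu hsv ((hQs u hu).2 hPu)
  exact (hQs v hv).1 key

end Setup

end P4
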