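import Pool.Agent.Lib_MP_b306af.P4Splconn

/-! # MP_b306af Part IV: P4Splingood -/

namespace P4

variable {V : Type}

namespace Setup

theorem SPLINGOOD_notO {T : Tri V} {a b c : V} {J : V → V → Prop} (h : Sep T a b c J)
    {o1 o2 o3 x y z : V} (hF : T.F x y z) (hJ : J x y) (ho : ¬ J o1 o2) :
    ¬ Cyc3 o1 o2 o3 x y z := by
  rintro (⟨rfl, rfl, rfl⟩ | ⟨rfl, rfl, rfl⟩ | ⟨rfl, rfl, rfl⟩)
  · exact ho hJ
  · exact ho (h.face _ _ _ (T.cyc _ _ _ hF) (h.face _ _ _ hF hJ))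
  · exact ho (h.face _ _ _ hF hJ)

/- Piece SPLINGOOD (P4Split, uses `split_conn`, `supp_iff`, `adj_iff`).  The inner part of a crossed
triangle, with the same labels.  `h0`: `Cyc3 b a c b a c`.  `plus0`, `minus0`: `hp`, `hm`.  `indep`: an edge of
`h.tri` is an edge of `T`.  `conn`: `split_conn`, with `hp` for `σ = 1`, `hm` for `σ = -1`.  `nbr`: if
`s ∉ {a, b, c}`, all darts at `s` are in `J` (`supp_iff`, `Sep.vertex`), so all `T`-neighbours are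
neighbours; if `s ∈ {a, b, c}` the two other vertices are neighbours in `h.tri`, and by `hp`, `hm` they
are one above and one below.  `lab*`: a face of `h.tri` which is not the outer face `(b, a, c)` is a
`T`-face with `J`, which is not the outer face of `S` since `¬ J o1 o2` (`J` is invariant under rotation). -/
theorem int_good {S : Setup V} (hS : S.Good) {a b c : V} {J : V → V → Prop}
    (h : Sep S.T a b c J) (ho : ¬ J S.o1 S.o2)
    (hp : S.side a = 1 ∨ S.side b = 1 ∨ S.side c = 1)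
    (hm : S.side a = -1 ∨ S.side b = -1 ∨ S.side c = -1) : (S.int h S.A).Good := by
  have hnO : ∀ {x y z : V}, h.tri.F x y z → ¬ Cyc3 b a c x y z →
      S.T.F x y z ∧ ¬ S.IsO x y z := by
    intro x y z hF hn
    rcases hF with ⟨hF, hJ⟩ | hC
    · exact ⟨hF, SPLINGOOD_notO h hF hJ ho⟩
    · exact absurd hC hn
  have hσ : ∀ σ : SignType, σ ≠ 0 → S.side a = σ ∨ S.side b = σ ∨ S.side c = σ := by
    intro σ hσ
    rcases σ with _ | _ | _
    · exact absurd rfl hσ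
    · exact hm
    · exact hp
  refine ⟨Or.inr (Or.inl ⟨rfl, rfl, rfl⟩), ?_, ?_, ?_, ?_, ?_, ?_, ?_, ?_, ?_⟩
  · rcases hp with hp | hp | hp
    · exact ⟨a, Or.inr (Or.inl rfl), hp⟩
    · exact ⟨b, Or.inl rfl, hp⟩
    · exact ⟨c, Or.inr (Or.inr rfl), hp⟩
  · rcases hm with hm | hm | hm
    · exact ⟨a, Or.inr (Or.inl rfl), hm⟩
    · exact ⟨b, Or.inl rfl, hm⟩
    · exact ⟨c, Or.inr (Or.inr rfl), hm⟩
  · intro x y z hF hx
    rcases hF with ⟨hF, -⟩ | ⟨rfl, rfl, rfl⟩ | ⟨rfl, rfl, rfl⟩ | ⟨rfl, rfl, rfl⟩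
    · exact hS.indep x y z hF hx
    · obtain ⟨d, hd⟩ := h.hab.symm
      exact hS.indep _ _ _ hd hx
    · obtain ⟨d, hd⟩ := h.hca.symm
      exact hS.indep _ _ _ hd hx
    · obtain ⟨d, hd⟩ := h.hbc.symm
      exact hS.indep _ _ _ hd hx
  · intro σ hσ0
    exact split_conn h σ (hσ σ hσ0) (hS.conn σ hσ0)
  · intro σ hσ0 s hs hs0
    have hs0' : S.side s = 0 := hs0
    show ∃ x, h.tri.Adj s x ∧ S.side x = σ
    by_cases ha : s = a
    · subst ha
      rcases hσ σ hσ0 with h1 | h1 | h1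
      · exact absurd (h1.symm.trans hs0') hσ0
      · exact ⟨b, (h.adj_iff _ _).2 ⟨h.hab, Or.inl h.ab⟩, h1⟩
      · exact ⟨c, (h.adj_iff _ _).2 ⟨h.hca.symm, Or.inr h.ca⟩, h1⟩
    by_cases hb : s = b
    · subst hb
      rcases hσ σ hσ0 with h1 | h1 | h1
      · exact ⟨a, (h.adj_iff _ _).2 ⟨h.hab.symm, Or.inr h.ab⟩, h1⟩
      · exact absurd (h1.symm.trans hs0') hσ0
      · exact ⟨c, (h.adj_iff _ _).2 ⟨h.hbc, Or.inl h.bc⟩, h1⟩
    by_cases hc : s = c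
    · subst hc
      rcases hσ σ hσ0 with h1 | h1 | h1
      · exact ⟨a, (h.adj_iff _ _).2 ⟨h.hca, Or.inl h.ca⟩, h1⟩
      · exact ⟨b, (h.adj_iff _ _).2 ⟨h.hbc.symm, Or.inr h.bc⟩, h1⟩
      · exact absurd (h1.symm.trans hs0') hσ0
    rcases (h.supp_iff s).1 hs with (h1 | h1 | h1) | ⟨x0, hx0, hJ0⟩
    · exact absurd h1 ha
    · exact absurd h1 hb
    · exact absurd h1 hc
    · obtain ⟨x, hx, hxσ⟩ := hS.nbr σ hσ0 s hx0.supp hs0'
      exact ⟨x, (h.adj_iff _ _).2 ⟨hx, Or.inl ((h.vertex s ha hb hc x0 x hx0 hx).1 hJ0)⟩, hxσ⟩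
  · intro u w w' hF hO h1 h2 h3
    obtain ⟨hF', hO'⟩ := hnO hF hO
    exact hS.lab1 u w w' hF' hO' h1 h2 h3
  · intro w u' u hF hO h1 h2 h3
    obtain ⟨hF', hO'⟩ := hnO hF hO
    exact hS.lab2 w u' u hF' hO' h1 h2 h3
  · intro u w s hF hO h1 h2 h3
    obtain ⟨hF', hO'⟩ := hnO hF hO
    exact hS.lab3 u w s hF' hO' h1 h2 h3
  · intro w u s hF hO h1 h2 h3
    obtain ⟨hF', hO'⟩ := hnO hF hO
    exact hS.lab4 w u s hF' hO' h1 h2 h3

end Setup

end P4
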