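import Pool.Agent.Lib_MP_b306af.P4Splsupp
import Pool.Agent.Lib_MP_b306af.P4ZSplit4
import Pool.Agent.Lib_MP_b306af.P4Labopen
import Pool.Agent.Lib_MP_b306af.P4Splingood

/-! # MP_b306af Part IV: P4Splcrossed -/

namespace P4

variable {V : Type}

namespace Setup

/- Piece SPLCROSSED (P4Split, uses `good_open`, `int_good`, `supp_both`, `supp_iff`, `adj_iff`).
Crossed triangle.  `good_open` for `S.int h S.A` gives `δ`.  Let `ε1 = min ε δ`, and draw the outer part:
`P1` with `P1 = Q` on the outer vertices (`OuterOK` for `S.ext h` is the same statement as for `S`),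
`(S.ext h).Drawn ε1 P1`.  `A' u w := if S.side u = 1 ∧ S.side w = -1 ∧ u ∈ {a, b, c} ∧ w ∈ {a, b, c} then
crossAt (P1 u) (P1 w) else S.A u w`.  `|A' - A| < δ` by `near` (pairs of vertices of the triangle are
adjacent or equal), so `(S.int h A').Good` and by hypothesis `(S.int h A').IV`.  `P1` is `OuterOK` for
it (`a, b, c` are in the support of the outer part).  We get `P2 = P1` on `a, b, c`,
`(S.int h A').Drawn ε P2`.  `P v := if (S.ext h).T.Supp v then P1 v else P2 v`; for `v` in the support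
of the inner part `P v = P2 v` (`supp_both`).  Faces of `T`: in `J`: face of the inner part, not
its outer face (`¬ J b a`, ...); not in `J`: face of the outer part, `¬ IsO`.  `sgn`, `abs0`: every
vertex of `T` is in one of the parts.  `near`: an edge of `T` is an edge of one of the parts; in
the inner part `A' = A` unless both ends are in `{a, b, c}`, then it is an edge of the outer part. -/
theorem iv_crossed [Finite V] {S : Setup V} (hS : S.Good) {a b c : V} {J : V → V → Prop}
    (h : Sep S.T a b c J) (ho : ¬ J S.o1 S.o2)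
    (hp : S.side a = 1 ∨ S.side b = 1 ∨ S.side c = 1)
    (hm : S.side a = -1 ∨ S.side b = -1 ∨ S.side c = -1)
    (hext : (S.ext h).IV) (hint : ∀ A, (S.int h A).Good → (S.int h A).IV) : S.IV := by
  classical
  obtain ⟨δ, hδ, hopen⟩ := good_open (int_good hS h ho hp hm)
  intro Q hQ ε hε
  have hmm : (1 : SignType) ≠ -1 := by decide
  obtain ⟨P1, hP1Q, hP1⟩ := hext Q ⟨hQ.sgn, hQ.abs0, hQ.cross⟩ (min ε δ) (lt_min hε hδ)
  -- adjacency inside the triangle, in the outer part
  have htri : ∀ u w, (u = a ∨ u = b ∨ u = c) → (w = a ∨ w = b ∨ w = c) → u ≠ w →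
      (S.ext h).T.Adj u w := by
    have k1 : (S.ext h).T.Adj a b := (h.compl.adj_iff a b).2 ⟨h.hab, Or.inr h.ba⟩
    have k2 : (S.ext h).T.Adj b c := (h.compl.adj_iff b c).2 ⟨h.hbc, Or.inr h.cb⟩
    have k3 : (S.ext h).T.Adj c a := (h.compl.adj_iff c a).2 ⟨h.hca, Or.inr h.ac⟩
    intro u w hu hw huw
    rcases hu with rfl | rfl | rfl <;> rcases hw with rfl | rfl | rfl
    · exact absurd rfl huw
    · exact k1
    · exact k3.symm
    · exact k1.symm
    · exact absurd rfl huw
    · exact k2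
    · exact k3
    · exact k2.symm
    · exact absurd rfl huw
  have hsuppT : ∀ v, (v = a ∨ v = b ∨ v = c) → (S.ext h).T.Supp v := by
    intro v hv
    refine (h.compl.supp_iff v).2 (Or.inl ?_)
    rcases hv with hv | hv | hv
    · exact Or.inr (Or.inl hv)
    · exact Or.inl hv
    · exact Or.inr (Or.inr hv)
  set A' : V → V → ℝ := fun u w =>
    if S.side u = 1 ∧ S.side w = -1 ∧ (u = a ∨ u = b ∨ u = c) ∧ (w = a ∨ w = b ∨ w = c) then
      crossAt (P1 u) (P1 w) else S.A u w with hA'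
  have hA1 : ∀ u w, S.side u = 1 → S.side w = -1 → (u = a ∨ u = b ∨ u = c) →
      (w = a ∨ w = b ∨ w = c) → A' u w = crossAt (P1 u) (P1 w) := by
    intro u w h1 h2 h3 h4
    simp only [hA']
    rw [if_pos ⟨h1, h2, h3, h4⟩]
  have hne : ∀ u w, S.side u = 1 → S.side w = -1 → u ≠ w := by
    rintro u w h1 h2 rfl
    rw [h1] at h2
    exact hmm h2
  have hclose : ∀ u w, |A' u w - (S.int h S.A).A u w| < δ := by
    intro u w
    show |A' u w - S.A u w| < δ
    by_cases hc : S.side u = 1 ∧ S.side w = -1 ∧ (u = a ∨ u = b ∨ u = c) ∧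
        (w = a ∨ w = b ∨ w = c)
    · rw [hA1 u w hc.1 hc.2.1 hc.2.2.1 hc.2.2.2]
      exact lt_of_lt_of_le
        (hP1.near u w (htri u w hc.2.2.1 hc.2.2.2 (hne u w hc.1 hc.2.1)) hc.1 hc.2.1)
        (min_le_right _ _)
    · simp only [hA']
      rw [if_neg hc, sub_self, abs_zero]
      exact hδ
  have hgood : (S.int h A').Good := hopen A' hclose
  have hout : (S.int h A').OuterOK P1 := by
    have hO : ∀ v, (S.int h A').Outer v → v = a ∨ v = b ∨ v = c := by
      rintro v (hv | hv | hv)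
      · exact Or.inr (Or.inl hv)
      · exact Or.inl hv
      · exact Or.inr (Or.inr hv)
    refine ⟨?_, ?_, ?_⟩
    · intro v hv
      exact hP1.sgn v (hsuppT v (hO v hv))
    · intro v hv h0
      exact hP1.abs0 v (hsuppT v (hO v hv)) h0
    · intro u w hu hw su sw
      exact (hA1 u w su sw (hO u hu) (hO w hw)).symm
  obtain ⟨P2, hP2Q, hP2⟩ := hint A' hgood P1 hout ε hε
  have hP21 : ∀ v, (v = a ∨ v = b ∨ v = c) → P2 v = P1 v := by
    intro v hv
    refine hP2Q v ?_
    rcases hv with hv | hv | hv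
    · exact Or.inr (Or.inl hv)
    · exact Or.inl hv
    · exact Or.inr (Or.inr hv)
  set P : V → ℝ × ℝ := fun v => if (S.ext h).T.Supp v then P1 v else P2 v with hP
  have hPo : ∀ v, (S.ext h).T.Supp v → P v = P1 v := by
    intro v hv
    simp only [hP]
    rw [if_pos hv]
  have hPi : ∀ v, (S.int h A').T.Supp v → P v = P2 v := by
    intro v hv
    by_cases hv' : (S.ext h).T.Supp v
    · rw [hPo v hv', hP21 v (h.supp_both v hv hv')]
    · simp only [hP]
      rw [if_neg hv']
  have hFo : ∀ x y z, S.T.F x y z → ¬ J x y → (S.ext h).T.F x y z :=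
    fun x y z hF hJ => Or.inl ⟨hF, hJ⟩
  have hFi : ∀ x y z, S.T.F x y z → J x y → (S.int h A').T.F x y z :=
    fun x y z hF hJ => Or.inl ⟨hF, hJ⟩
  refine ⟨P, ?_, ?_, ?_, ?_, ?_⟩
  · intro v hv
    have hf := hFo _ _ _ hS.h0 ho
    have hsv : (S.ext h).T.Supp v := by
      rcases hv with rfl | rfl | rfl
      · exact ⟨_, _, hf⟩
      · exact ⟨_, _, (S.ext h).T.cyc _ _ _ hf⟩
      · exact ⟨_, _, (S.ext h).T.cyc2 hf⟩
    rw [hPo v hsv]
    exact hP1Q v hv
  · intro x y z hF hO
    by_cases hJ : J x y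
    · have hf := hFi _ _ _ hF hJ
      have hno : ¬ (S.int h A').IsO x y z := by
        rintro (⟨h1, h2, -⟩ | ⟨h1, h2, -⟩ | ⟨h1, h2, -⟩)
        · subst h1; subst h2; exact h.ba hJ
        · subst h1; subst h2; exact h.ac hJ
        · subst h1; subst h2; exact h.cb hJ
      rw [hPi x ⟨_, _, hf⟩, hPi y ⟨_, _, (S.int h A').T.cyc _ _ _ hf⟩,
        hPi z ⟨_, _, (S.int h A').T.cyc2 hf⟩]
      exact hP2.pos x y z hf hno
    · have hf := hFo _ _ _ hF hJ
      rw [hPo x ⟨_, _, hf⟩, hPo y ⟨_, _, (S.ext h).T.cyc _ _ _ hf⟩,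
        hPo z ⟨_, _, (S.ext h).T.cyc2 hf⟩]
      exact hP1.pos x y z hf hO
  · rintro v ⟨x, y, hF⟩
    by_cases hJ : J v x
    · have hf := hFi _ _ _ hF hJ
      rw [hPi v ⟨_, _, hf⟩]
      exact hP2.sgn v ⟨_, _, hf⟩
    · have hf := hFo _ _ _ hF hJ
      rw [hPo v ⟨_, _, hf⟩]
      exact hP1.sgn v ⟨_, _, hf⟩
  · rintro v ⟨x, y, hF⟩ h0
    by_cases hJ : J v x
    · have hf := hFi _ _ _ hF hJ
      rw [hPi v ⟨_, _, hf⟩]
      exact hP2.abs0 v ⟨_, _, hf⟩ h0
    · have hf := hFo _ _ _ hF hJ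
      rw [hPo v ⟨_, _, hf⟩]
      exact hP1.abs0 v ⟨_, _, hf⟩ h0
  · intro u w hadj su sw
    by_cases hadj' : (S.ext h).T.Adj u w
    · rw [hPo u hadj'.supp, hPo w hadj'.symm.supp]
      exact lt_of_lt_of_le (hP1.near u w hadj' su sw) (min_le_left _ _)
    · have hnt : ¬ ((u = a ∨ u = b ∨ u = c) ∧ (w = a ∨ w = b ∨ w = c)) :=
        fun hh => hadj' (htri u w hh.1 hh.2 (hne u w su sw))
      have hi : (S.int h A').T.Adj u w := by
        refine (h.adj_iff u w).2 ⟨hadj, ?_⟩
        by_contra hno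
        push Not at hno
        exact hadj' ((h.compl.adj_iff u w).2 ⟨hadj, Or.inl hno.1⟩)
      have hAA : (S.int h A').A u w = S.A u w := by
        show A' u w = S.A u w
        simp only [hA']
        rw [if_neg (fun hh => hnt ⟨hh.2.2.1, hh.2.2.2⟩)]
      have := hP2.near u w hi su sw
      rw [hAA] at this
      rw [hPi u hi.supp, hPi w hi.symm.supp]
      exact this

end Setup

end P4
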