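import Pool.Agent.Lib_MP_b306af.P4ZSplit2

/-! # MP_b306af Part IV: P4Splexact -/

namespace P4

variable {V : Type}

/- Piece SPLEXACT (P4Split).  Let `h0 a = 0`, `h0 b = κ a b`, `h0 c = κ a c`, `h0 = 0` elsewhere, and
`κ' x y = if J x y ∨ J y x then κ x y else h0 y - h0 x`.  Antisymmetric.  For the three edges of the
triangle `κ x y = h0 y - h0 x` (for `b c`: the sum over the face `(b, a, c)` is `0`).  Sum over a face
`T.F x y z`: if `J x y`, all three darts are in `J`, so it is the sum of `κ` over a face of the split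
triangulation.  If not, none of the three darts is in `J`; for each of them either the reversed dart is
in `J`, then it is an edge of the triangle, or not: in both cases `κ' = h0 y - h0 x`, total `0`.
`T.exact` for `κ'` gives `g`; on darts of the split triangulation `κ' = κ`. -/
theorem split_exact {T : Tri V} {a b c : V} {J : V → V → Prop} (h : Sep T a b c J)
    (κ : V → V → ℝ) (hκ : ∀ x y, κ x y = - κ y x)
    (hz : ∀ x y z, splitF T a b c J x y z → κ x y + κ y z + κ z x = 0) :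
    ∃ g : V → ℝ, ∀ x y z, splitF T a b c J x y z → κ x y = g y - g x := by
  classical
  have n1 : a ≠ b := h.hab.ne
  have n2 : b ≠ c := h.hbc.ne
  have n3 : c ≠ a := h.hca.ne
  have htri := hz b a c (Or.inr (Or.inl ⟨rfl, rfl, rfl⟩))
  obtain ⟨g, hg⟩ : ∃ g : V → ℝ, g = fun v => if v = b then κ a b else
    if v = c then κ a c else 0 := ⟨_, rfl⟩
  have ga : g a = 0 := by
    rw [hg]
    beta_reduce
    rw [if_neg n1, if_neg n3.symm]
  have gb : g b = κ a b := by
    rw [hg]
    beta_reduce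
    rw [if_pos rfl]
  have gc : g c = κ a c := by
    rw [hg]
    beta_reduce
    rw [if_neg n2.symm, if_pos rfl]
  have eab : κ a b = g b - g a := by
    rw [ga, gb]
    ring
  have ebc : κ b c = g c - g b := by
    rw [gb, gc]
    linarith [hκ b a, hκ c b]
  have eca : κ c a = g a - g c := by
    rw [ga, gc, hκ c a]
    ring
  obtain ⟨κ', hκ'⟩ : ∃ κ' : V → V → ℝ, κ' = fun x y =>
      if J x y ∨ J y x then κ x y else g y - g x := ⟨_, rfl⟩
  have kJ : ∀ x y, J x y → κ' x y = κ x y := by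
    intro x y h1
    rw [hκ']
    beta_reduce
    rw [if_pos (Or.inl h1)]
  have kN : ∀ x y, T.Adj x y → ¬ J x y → κ' x y = g y - g x := by
    intro x y hadj h1
    rw [hκ']
    beta_reduce
    by_cases h2 : J y x
    · rw [if_pos (Or.inr h2)]
      rcases h.edge y x hadj.symm h2 h1 with ⟨rfl, rfl⟩ | ⟨rfl, rfl⟩ | ⟨rfl, rfl⟩
      · rw [hκ, eab]
        ring
      · rw [hκ, ebc]
        ring
      · rw [hκ, eca]
        ring
    · rw [if_neg (fun h3 => h3.elim h1 h2)]
  obtain ⟨f, hf⟩ := T.exact κ' (by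
    intro x y
    rw [hκ']
    beta_reduce
    by_cases h1 : J x y ∨ J y x
    · rw [if_pos h1, if_pos h1.symm, hκ]
    · rw [if_neg h1, if_neg (fun h2 => h1 h2.symm)]
      ring) (by
    intro x y z hF
    by_cases h1 : J x y
    · have h2 := h.face _ _ _ hF h1
      have h3 := h.face _ _ _ (T.cyc _ _ _ hF) h2
      rw [kJ _ _ h1, kJ _ _ h2, kJ _ _ h3]
      exact hz x y z (Or.inl ⟨hF, h1⟩)
    · have h3 : ¬ J z x := fun h' => h1 (h.face _ _ _ (T.cyc2 hF) h')
      have h2 : ¬ J y z := fun h' => h3 (h.face _ _ _ (T.cyc _ _ _ hF) h')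
      rw [kN _ _ ⟨z, hF⟩ h1, kN _ _ ⟨x, T.cyc _ _ _ hF⟩ h2, kN _ _ ⟨y, T.cyc2 hF⟩ h3]
      ring)
  have dart : ∀ x y, T.Adj x y → κ' x y = f y - f x := by
    rintro x y ⟨z, hF⟩
    exact hf x y z hF
  refine ⟨f, ?_⟩
  rintro x y z (⟨hF, h1⟩ | ⟨rfl, rfl, rfl⟩ | ⟨rfl, rfl, rfl⟩ | ⟨rfl, rfl, rfl⟩)
  · rw [← kJ _ _ h1]
    exact hf x y z hF
  · have h2 := dart _ _ h.hab
    rw [kJ _ _ h.ab] at h2
    rw [hκ]
    linarith
  · have h2 := dart _ _ h.hca
    rw [kJ _ _ h.ca] at h2
    rw [hκ]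
    linarith
  · have h2 := dart _ _ h.hbc
    rw [kJ _ _ h.bc] at h2
    rw [hκ]
    linarith

end P4
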