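import Pool.Agent.Lib_MP_b306af.P4ZSplit3
import Pool.Agent.Lib_MP_b306af.P4Sepv

/-! # MP_b306af Part IV: P4Splsupp -/

namespace P4

variable {V : Type}

/- Piece SPLSUPP (P4Split, uses `Sep.vertex`).
(1) `h.tri.Supp v` iff `v ∈ {a, b, c}` or some `T.Adj v x` with `J v x`.
(2) `h.tri.Adj x y` iff `T.Adj x y ∧ (J x y ∨ J y x)` (edges of the triangle: `J a b` etc.).
(3) a vertex in the support of both sides is `a`, `b` or `c` (by (1) and `Sep.vertex`). -/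
theorem Sep.supp_iff {T : Tri V} {a b c : V} {J : V → V → Prop} (h : Sep T a b c J) (v : V) :
    h.tri.Supp v ↔ (v = a ∨ v = b ∨ v = c) ∨ ∃ x, T.Adj v x ∧ J v x := by
  constructor
  · rintro ⟨y, z, hF | h1 | h1 | h1⟩
    · exact Or.inr ⟨y, ⟨z, hF.1⟩, hF.2⟩
    · exact Or.inl (Or.inr (Or.inl h1.1))
    · exact Or.inl (Or.inl h1.1)
    · exact Or.inl (Or.inr (Or.inr h1.1))
  · rintro ((rfl | rfl | rfl) | ⟨x, ⟨w, hw⟩, h1⟩)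
    · obtain ⟨w, hw⟩ := h.hab
      exact ⟨b, w, Or.inl ⟨hw, h.ab⟩⟩
    · obtain ⟨w, hw⟩ := h.hbc
      exact ⟨c, w, Or.inl ⟨hw, h.bc⟩⟩
    · obtain ⟨w, hw⟩ := h.hca
      exact ⟨a, w, Or.inl ⟨hw, h.ca⟩⟩
    · exact ⟨x, w, Or.inl ⟨hw, h1⟩⟩

theorem Sep.adj_iff {T : Tri V} {a b c : V} {J : V → V → Prop} (h : Sep T a b c J) (x y : V) :
    h.tri.Adj x y ↔ T.Adj x y ∧ (J x y ∨ J y x) := by
  constructor
  · rintro ⟨z, hF | ⟨e1, e2, _⟩ | ⟨e1, e2, _⟩ | ⟨e1, e2, _⟩⟩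
    · exact ⟨⟨z, hF.1⟩, Or.inl hF.2⟩
    · rw [e1, e2]
      exact ⟨h.hab.symm, Or.inr h.ab⟩
    · rw [e1, e2]
      exact ⟨h.hca.symm, Or.inr h.ca⟩
    · rw [e1, e2]
      exact ⟨h.hbc.symm, Or.inr h.bc⟩
  · rintro ⟨hadj, h1 | h1⟩
    · obtain ⟨z, hz⟩ := hadj
      exact ⟨z, Or.inl ⟨hz, h1⟩⟩
    · obtain ⟨z, hz⟩ := hadj.symm
      exact (show h.tri.Adj y x from ⟨z, Or.inl ⟨hz, h1⟩⟩).symm

theorem Sep.supp_both {T : Tri V} {a b c : V} {J : V → V → Prop} (h : Sep T a b c J) (v : V)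
    (h1 : h.tri.Supp v) (h2 : h.compl.tri.Supp v) : v = a ∨ v = b ∨ v = c := by
  by_contra hv
  push Not at hv
  rcases (h.supp_iff v).mp h1 with h3 | ⟨x, hx, hJ⟩
  · rcases h3 with h3 | h3 | h3
    · exact hv.1 h3
    · exact hv.2.1 h3
    · exact hv.2.2 h3
  · rcases (h.compl.supp_iff v).mp h2 with h3 | ⟨y, hy, hJ'⟩
    · rcases h3 with h3 | h3 | h3
      · exact hv.2.1 h3
      · exact hv.1 h3
      · exact hv.2.2 h3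
    · exact hJ' ((h.vertex v hv.1 hv.2.1 hv.2.2 x y hx hy).1 hJ)

end P4
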