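import Pool.Agent.Lib_MP_b306af.P4ZSplit4
import Pool.Agent.Lib_MP_b306af.P4Sepv
import Pool.Agent.Lib_MP_b306af.P4Splsupp

/-! # MP_b306af Part IV: P4Splout -/

namespace P4

variable {V : Type}

namespace Setup

/- Piece SPLOUT (P4Split, uses `Sep.vertex`, `supp_iff`).  Nothing inside an uncrossed triangle is on the
other side.  `P v := ∃ x, T.Adj v x ∧ J v x`.  If `v, w` have side `σ` and are adjacent and `P v`: `v ∉ {a, b, c}`
so `J v w` and `J w v` (`Sep.vertex`), so `P w`.  By `hS.conn σ`: if one vertex of side `σ` has `P`,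
then all, in particular the outer vertex `v0` of side `σ` (`plus0` or `minus0`).  `v0` lies on the outer
face, which is not in `J`: there is a dart `(v0, y)` of the outer face with `¬ J v0 y` (`J` invariant
under rotation, `¬ J o1 o2`), and `v0 ∉ {a, b, c}`, contradiction to `Sep.vertex`.
For `side v = 0`, `v ∉ {a, b, c}`, `J v x`: `hS.nbr σ` gives a neighbour `w` of side `σ`, `J w v`
(`Sep.vertex`), so `P w`, contradiction. -/
theorem uncrossed_inside [Finite V] {S : Setup V} (hS : S.Good) {a b c : V}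
    {J : V → V → Prop} (h : Sep S.T a b c J) (ho : ¬ J S.o1 S.o2) (σ : SignType)
    (hσ : σ ≠ 0) (ha : S.side a ≠ σ) (hb : S.side b ≠ σ) (hc : S.side c ≠ σ) :
    ∀ v x, S.T.Adj v x → J v x → v ≠ a → v ≠ b → v ≠ c → S.side v = - σ := by
  -- vertices of side `σ` are off the triangle
  have off : ∀ v, S.side v = σ → v ≠ a ∧ v ≠ b ∧ v ≠ c := by
    intro v hv
    refine ⟨?_, ?_, ?_⟩
    · rintro rfl
      exact ha hv
    · rintro rfl
      exact hb hv
    · rintro rfl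
      exact hc hv
  -- an outer vertex of side `σ`
  obtain ⟨v0, hv0, hs0⟩ : ∃ v, S.Outer v ∧ S.side v = σ := by
    cases σ with
    | zero => exact absurd rfl hσ
    | neg => exact hS.minus0
    | pos => exact hS.plus0
  -- a dart of the outer face at `v0`
  have h1 : ¬ J S.o2 S.o3 := fun hJ =>
    ho (h.face _ _ _ (S.T.cyc2 hS.h0) (h.face _ _ _ (S.T.cyc _ _ _ hS.h0) hJ))
  have h2 : ¬ J S.o3 S.o1 := fun hJ => ho (h.face _ _ _ (S.T.cyc2 hS.h0) hJ)
  obtain ⟨y, hy, hJy⟩ : ∃ y, S.T.Adj v0 y ∧ ¬ J v0 y := by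
    rcases hv0 with rfl | rfl | rfl
    · exact ⟨_, ⟨_, hS.h0⟩, ho⟩
    · exact ⟨_, ⟨_, S.T.cyc _ _ _ hS.h0⟩, h1⟩
    · exact ⟨_, ⟨_, S.T.cyc2 hS.h0⟩, h2⟩
  -- no vertex of side `σ` has a dart in `J`
  have key : ∀ v x, S.T.Adj v x → J v x → S.side v ≠ σ := by
    intro v x hvx hJ hv
    have hP := hS.conn σ hσ (fun v => ∃ x, S.T.Adj v x ∧ J v x) (by
      rintro s t r hF hs _ ⟨z, hz, hJz⟩
      obtain ⟨o1, o2, o3⟩ := off s hs
      exact ⟨s, (Tri.Adj.symm ⟨r, hF⟩), (h.vertex s o1 o2 o3 z t hz ⟨r, hF⟩).2 hJz⟩)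
      v v0 hvx.supp hy.supp hv hs0 ⟨x, hvx, hJ⟩
    obtain ⟨z, hz, hJz⟩ := hP
    obtain ⟨o1, o2, o3⟩ := off v0 hs0
    exact hJy ((h.vertex v0 o1 o2 o3 z y hz hy).1 hJz)
  intro v x hvx hJ h1 h2 h3
  have n1 := key v x hvx hJ
  have n2 : S.side v ≠ 0 := by
    intro h0
    obtain ⟨w, hw, hsw⟩ := hS.nbr σ hσ v hvx.supp h0
    exact key w v hw.symm ((h.vertex v h1 h2 h3 x w hvx hw).2 hJ) hsw
  revert n1 n2 hσ
  generalize S.side v = τ
  cases σ <;> cases τ <;> decide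

end Setup

end P4
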