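import Pool.Agent.Lib_MP_b306af.P4Splingood
import Pool.Agent.Lib_MP_b306af.P4Outrev
import Pool.Agent.Lib_MP_b306af.P4Splout

/-! # MP_b306af Part IV: P4Splexgood -/

namespace P4

variable {V : Type}

namespace Setup

private theorem splex_swap12 {a b c x y z : V} (h : Cyc3 a b c x y z) : Cyc3 b a c y x z := by
  rcases h with ⟨rfl, rfl, rfl⟩ | ⟨rfl, rfl, rfl⟩ | ⟨rfl, rfl, rfl⟩
  · exact Or.inl ⟨rfl, rfl, rfl⟩
  · exact Or.inr (Or.inr ⟨rfl, rfl, rfl⟩)
  · exact Or.inr (Or.inl ⟨rfl, rfl, rfl⟩)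

private theorem splex_swap23 {a b c x y z : V} (h : Cyc3 a b c x y z) : Cyc3 b a c x z y := by
  rcases h with ⟨rfl, rfl, rfl⟩ | ⟨rfl, rfl, rfl⟩ | ⟨rfl, rfl, rfl⟩
  · exact Or.inr (Or.inl ⟨rfl, rfl, rfl⟩)
  · exact Or.inl ⟨rfl, rfl, rfl⟩
  · exact Or.inr (Or.inr ⟨rfl, rfl, rfl⟩)

private theorem splex_mem {a b c x y z : V} (h : Cyc3 a b c x y z) (f : V → SignType) (σ : SignType) :
    (f x = σ → f a = σ ∨ f b = σ ∨ f c = σ) ∧ (f y = σ → f a = σ ∨ f b = σ ∨ f c = σ) ∧
      (f z = σ → f a = σ ∨ f b = σ ∨ f c = σ) := by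
  rcases h with ⟨rfl, rfl, rfl⟩ | ⟨rfl, rfl, rfl⟩ | ⟨rfl, rfl, rfl⟩ <;> tauto

private theorem splex_tadj {T : Tri V} {a b c : V} {J : V → V → Prop} (h : Sep T a b c J)
    {x y z : V} (hF : h.compl.tri.F x y z) : T.Adj x y := by
  rcases hF with ⟨hF, -⟩ | hF
  · exact ⟨z, hF⟩
  · rcases hF with ⟨rfl, rfl, rfl⟩ | ⟨rfl, rfl, rfl⟩ | ⟨rfl, rfl, rfl⟩
    · exact h.hab
    · exact h.hbc
    · exact h.hca

private theorem splex_neg {σ τ : SignType} (h0 : σ ≠ 0) (h1 : τ = σ) (h2 : τ = - σ) : False := by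
  subst h1
  cases τ <;> simp_all

/- Piece SPLEXGOOD (P4Split, uses `int_good`, `outer_rev`, `split_conn`, `uncrossed_inside`).
The outer part `h.compl.tri` (faces of `T` not in `J`, and the face `(a, b, c)`, since `h.compl : Sep T b a c _`
and `splitF T b a c _` adds `Cyc3 a b c`).
`h0`: the outer face is not in `J`.  `indep` as in SPLINGOOD.
`conn σ`: if one of `a, b, c` has side `σ`: `split_conn`.  Otherwise `uncrossed_inside`: two vertices
`x, y` of side `σ` adjacent in `T` are adjacent in `h.compl.tri`: `(x, y)` is not in `J` (otherwise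
`side x = - σ ≠ σ`); so a locally constant function for `h.compl.tri` is locally constant for `T`.
`nbr σ` for `s` on the axis in the support of `h.compl.tri`: if `s ∉ {a, b, c}` all its darts are outside.  If
`s ∈ {a, b, c}`: if one of the two other vertices has side `σ`, it is a neighbour.  Otherwise `S.nbr`
gives a neighbour `x`, `side x = σ`, `x ∉ {a, b, c}`; if the edge `s x` is not an edge of `h.compl.tri`
then `J s x` and `J x s`, and `uncrossed_inside` (no vertex of the triangle has side `σ`) gives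
`side x = - σ`, contradiction.
`lab*`: faces of `T`: `hS`.  The new face `(a, b, c)` (rotations): if it is of one of the four types it
has a vertex above and one below, so `int_good` holds and `outer_rev` for `S.int h S.A`, whose
outer face is `(b, a, c)`, gives the four inequalities: e.g. `lab1` for `(u, w, w')` a rotation of
`(a, b, c)`: `(u, w', w)` is a rotation of `(b, a, c)`, `outer_rev` (1): `A u w < A u w'`;
`lab2` for `(w, u', u)`: `(w, u, u')` is a rotation of `(b, a, c)`: (2) gives `A u w < A u' w`;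
`lab3` for `(u, w, s)`: `(w, u, s)` is a rotation of `(b, a, c)`: (4) gives `A u w < X s`; `lab4` for
`(w, u, s)`: (3) gives `X s < A u w`. -/
theorem ext_good [Finite V] {S : Setup V} (hS : S.Good) {a b c : V} {J : V → V → Prop}
    (h : Sep S.T a b c J) (ho : ¬ J S.o1 S.o2) : (S.ext h).Good := by
  have hsupp : ∀ v, (S.ext h).T.Supp v → S.T.Supp v := by
    rintro v ⟨x, y, hF⟩
    exact (splex_tadj h hF).supp
  have hadj : ∀ x y, (S.ext h).T.Adj x y ↔ S.T.Adj x y ∧ (¬ J x y ∨ ¬ J y x) :=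
    fun x y => h.compl.adj_iff x y
  refine ⟨Or.inl ⟨hS.h0, ho⟩, hS.plus0, hS.minus0, ?_, ?_, ?_, ?_, ?_, ?_, ?_⟩
  · intro x y z hF hx
    obtain ⟨w, hw⟩ := splex_tadj h hF
    exact hS.indep _ _ _ hw hx
  · intro σ hσ
    by_cases hex : S.side b = σ ∨ S.side a = σ ∨ S.side c = σ
    · exact split_conn h.compl σ hex (hS.conn σ hσ)
    · push Not at hex
      obtain ⟨hb, ha, hc⟩ := hex
      intro P hP x y hx hy hsx hsy hPx
      refine hS.conn σ hσ P ?_ x y (hsupp x hx) (hsupp y hy) hsx hsy hPx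
      intro u v w hF hu hv hPu
      by_cases hJ : J u v
      · exfalso
        have h1 := uncrossed_inside hS h ho σ hσ ha hb hc u v ⟨w, hF⟩ hJ
          (fun e => ha (e ▸ hu)) (fun e => hb (e ▸ hu)) (fun e => hc (e ▸ hu))
        exact splex_neg hσ hu h1
      · exact hP u v w (Or.inl ⟨hF, hJ⟩) hu hv hPu
  · intro σ hσ s hs hs0
    obtain ⟨x, hx, hxσ⟩ := hS.nbr σ hσ s (hsupp s hs) hs0
    by_cases hax : (S.ext h).T.Adj s x
    · exact ⟨x, hax, hxσ⟩
    rw [hadj] at hax
    push Not at hax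
    obtain ⟨hJ1, hJ2⟩ := hax hx
    by_cases hmem : s = a ∨ s = b ∨ s = c
    · by_cases hex : S.side a = σ ∨ S.side b = σ ∨ S.side c = σ
      · have hs0' : S.side s ≠ σ := fun e => hσ (e.symm.trans hs0)
        have key : ∀ t, S.side t = σ → (t = a ∨ t = b ∨ t = c) → (S.ext h).T.Adj s t := by
          intro t ht htm
          rw [hadj]
          rcases hmem with rfl | rfl | rfl <;> rcases htm with rfl | rfl | rfl
          · exact absurd ht hs0'
          · exact ⟨h.hab, Or.inr h.ba⟩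
          · exact ⟨h.hca.symm, Or.inl h.ac⟩
          · exact ⟨h.hab.symm, Or.inl h.ba⟩
          · exact absurd ht hs0'
          · exact ⟨h.hbc, Or.inr h.cb⟩
          · exact ⟨h.hca, Or.inr h.ac⟩
          · exact ⟨h.hbc.symm, Or.inl h.cb⟩
          · exact absurd ht hs0'
        rcases hex with he | he | he
        · exact ⟨a, key a he (Or.inl rfl), he⟩
        · exact ⟨b, key b he (Or.inr (Or.inl rfl)), he⟩
        · exact ⟨c, key c he (Or.inr (Or.inr rfl)), he⟩
      · push Not at hex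
        obtain ⟨ha, hb, hc⟩ := hex
        exfalso
        have h1 := uncrossed_inside hS h ho σ hσ ha hb hc x s hx.symm hJ2
          (fun e => ha (e ▸ hxσ)) (fun e => hb (e ▸ hxσ)) (fun e => hc (e ▸ hxσ))
        exact splex_neg hσ hxσ h1
    · exfalso
      push Not at hmem
      obtain ⟨ha, hb, hc⟩ := hmem
      rcases (h.compl.supp_iff s).1 hs with h1 | ⟨y, hy, hJy⟩
      · rcases h1 with h1 | h1 | h1
        · exact hb h1
        · exact ha h1
        · exact hc h1
      · exact (h.compl.vertex s hb ha hc y x hy hx).1 hJy hJ1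
  · intro u w w' hF hO hu hw hw'
    rcases hF with ⟨hF, -⟩ | hF
    · exact hS.lab1 u w w' hF hO hu hw hw'
    · have hg := int_good hS h ho ((splex_mem hF S.side 1).1 hu) ((splex_mem hF S.side (-1)).2.1 hw)
      exact (outer_rev hg).1 u w' w (splex_swap23 hF) hu hw' hw
  · intro w u' u hF hO hw hu' hu
    rcases hF with ⟨hF, -⟩ | hF
    · exact hS.lab2 w u' u hF hO hw hu' hu
    · have hg := int_good hS h ho ((splex_mem hF S.side 1).2.1 hu') ((splex_mem hF S.side (-1)).1 hw)
      exact (outer_rev hg).2.1 w u u' (splex_swap23 hF) hw hu hu'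
  · intro u w s hF hO hu hw hs
    rcases hF with ⟨hF, -⟩ | hF
    · exact hS.lab3 u w s hF hO hu hw hs
    · have hg := int_good hS h ho ((splex_mem hF S.side 1).1 hu) ((splex_mem hF S.side (-1)).2.1 hw)
      exact (outer_rev hg).2.2.2 w u s (splex_swap12 hF) hw hu hs
  · intro w u s hF hO hw hu hs
    rcases hF with ⟨hF, -⟩ | hF
    · exact hS.lab4 w u s hF hO hw hu hs
    · have hg := int_good hS h ho ((splex_mem hF S.side 1).2.1 hu) ((splex_mem hF S.side (-1)).1 hw)
      exact (outer_rev hg).2.2.1 u w s (splex_swap12 hF) hu hw hs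

end Setup

end P4
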