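import Pool.Agent.Lib_MP_b306af.P4ZSplit3

/-! # MP_b306af Part IV: P4Splnum -/

namespace P4

variable {V : Type}

/- Piece SPLNUM (P4Split).  The faces of `h.tri` are the `J`-faces and 3 rotations of the triangle
(disjoint from the `J`-faces).  The faces of `T` are the `J`-faces and the non-`J`-faces; the latter
contain `T.F b a z` with its rotations (`z ≠ c` because `¬ T.F b a c`) and `T.F a c z'`, which is not one
of these three (darts of the first: `(b, a), (a, z), (z, b)`).  So there are at least four non-`J`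
triples, and `numF h.tri = #J + 3 < #J + 4 ≤ numF T`. -/
theorem Sep.numF_lt [Finite V] {T : Tri V} {a b c : V} {J : V → V → Prop}
    (h : Sep T a b c J) (hn : ¬ T.F b a c) : numF h.tri < numF T := by
  obtain ⟨z, hz⟩ := h.hab.symm
  obtain ⟨z', hz'⟩ := h.hca.symm
  have n1 : a ≠ b := h.hab.ne
  have n2 : b ≠ z := (T.ne _ _ _ (T.cyc2 hz)).symm
  have n3 : a ≠ z := T.ne _ _ _ (T.cyc _ _ _ hz)
  have n4 : z ≠ c := fun e => hn (by rw [← e]; exact hz)
  obtain ⟨SJ, hSJ⟩ : ∃ SJ : Set (V × V × V), SJ = {t | T.F t.1 t.2.1 t.2.2 ∧ J t.1 t.2.1} :=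
    ⟨_, rfl⟩
  have memS : ∀ t, t ∈ SJ ↔ T.F t.1 t.2.1 t.2.2 ∧ J t.1 t.2.1 := by
    intro t
    rw [hSJ]
    rfl
  have hup : numF h.tri ≤ SJ.ncard + 3 := by
    have hsub : {t : V × V × V | h.tri.F t.1 t.2.1 t.2.2} ⊆
        SJ ∪ {(b, a, c), (a, c, b), (c, b, a)} := by
      rintro ⟨x, y, w⟩ (h1 | ⟨e1, e2, e3⟩ | ⟨e1, e2, e3⟩ | ⟨e1, e2, e3⟩)
      · exact Or.inl ((memS _).mpr h1)
      · right
        left
        change x = b at e1
        change y = a at e2
        change w = c at e3
        rw [e1, e2, e3]
      · right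
        right
        left
        change x = a at e1
        change y = c at e2
        change w = b at e3
        rw [e1, e2, e3]
      · right
        right
        right
        change x = c at e1
        change y = b at e2
        change w = a at e3
        rw [e1, e2, e3]
        rfl
    have h3 : ({(b, a, c), (a, c, b), (c, b, a)} : Set (V × V × V)).ncard ≤ 3 := by
      refine (Set.ncard_insert_le _ _).trans ?_
      have h4 := Set.ncard_insert_le ((a, c, b) : V × V × V) {(c, b, a)}
      rw [Set.ncard_singleton] at h4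
      omega
    calc numF h.tri ≤ (SJ ∪ {(b, a, c), (a, c, b), (c, b, a)}).ncard :=
          Set.ncard_le_ncard hsub (Set.toFinite _)
      _ ≤ SJ.ncard + ({(b, a, c), (a, c, b), (c, b, a)} : Set (V × V × V)).ncard :=
          Set.ncard_union_le _ _
      _ ≤ SJ.ncard + 3 := by omega
  have hlow : SJ.ncard + 4 ≤ numF T := by
    have hsub : SJ ∪ {(b, a, z), (a, z, b), (z, b, a), (a, c, z')} ⊆
        {t : V × V × V | T.F t.1 t.2.1 t.2.2} := by
      rintro t (h1 | h1 | h1 | h1 | h1)
      · exact ((memS t).mp h1).1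
      · rw [h1]
        exact hz
      · rw [h1]
        exact T.cyc _ _ _ hz
      · rw [h1]
        exact T.cyc2 hz
      · rw [h1]
        exact hz'
    have hcard : ({(b, a, z), (a, z, b), (z, b, a), (a, c, z')} : Set (V × V × V)).ncard = 4 := by
      rw [Set.ncard_insert_of_notMem, Set.ncard_insert_of_notMem, Set.ncard_insert_of_notMem,
        Set.ncard_singleton]
      · intro h1
        have h2 : z = a := congrArg Prod.fst h1
        exact n3 h2.symm
      · rintro (h1 | h1)
        · exact n3 (congrArg Prod.fst h1)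
        · have h2 : z = c := congrArg (fun t : V × V × V => t.2.1) h1
          exact n4 h2
      · rintro (h1 | h1 | h1)
        · exact n1 (congrArg Prod.fst h1).symm
        · exact n2 (congrArg Prod.fst h1)
        · exact n1 (congrArg Prod.fst h1).symm
    have hdis : Disjoint SJ {(b, a, z), (a, z, b), (z, b, a), (a, c, z')} := by
      rw [Set.disjoint_left]
      rintro t h1 (h2 | h2 | h2 | h2)
      · rw [h2] at h1
        exact h.ba ((memS _).mp h1).2
      · rw [h2] at h1
        obtain ⟨h3, h4⟩ := (memS _).mp h1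
        exact h.ba (h.face _ _ _ (T.cyc2 hz)
          (h.face _ _ _ (T.cyc _ _ _ hz) h4))
      · rw [h2] at h1
        obtain ⟨h3, h4⟩ := (memS _).mp h1
        exact h.ba (h.face _ _ _ (T.cyc2 hz) h4)
      · rw [h2] at h1
        exact h.ac ((memS _).mp h1).2
    calc SJ.ncard + 4 = SJ.ncard +
          ({(b, a, z), (a, z, b), (z, b, a), (a, c, z')} : Set (V × V × V)).ncard := by rw [hcard]
      _ = (SJ ∪ {(b, a, z), (a, z, b), (z, b, a), (a, c, z')}).ncard :=
          (Set.ncard_union_eq hdis (Set.toFinite _) (Set.toFinite _)).symm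
      _ ≤ numF T := Set.ncard_le_ncard hsub (Set.toFinite _)
  omega

end P4
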