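import Pool.Agent.Lib_MP_b306af.P4ZSplit1

/-! # MP_b306af Part IV: P4ZSplit2 -/

namespace P4

variable {V : Type}

/-- the faces of one side of the triangle, and the triangle itself -/
def splitF (T : Tri V) (a b c : V) (J : V → V → Prop) (x y z : V) : Prop :=
  (T.F x y z ∧ J x y) ∨ Cyc3 b a c x y z

end P4
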