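import Pool.Agent.Lib_MP_b306af.P4Spluniq
import Pool.Agent.Lib_MP_b306af.P4ZSplit2

/-! # MP_b306af Part IV: P4Spltrans -/

namespace P4

variable {V : Type}

/- Piece SPLTRANS (P4Split).  Let `Q x y := if J x y then P x y else P b a` (classical).  `Q` is closed in `T`:
for `T.F x y z`: `J x y ↔ J y z` (`face`, three times around), `P x y → P y z` by `h1`.  Opposite
darts: `J x y` and `J y x`: `h2`; `J x y`, `¬ J y x`: `(x, y)` is `(a, b)`, `(b, c)` or `(c, a)`; `P a b → P b a`;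
`P b c → P c b → P b a` (rotation in the face `(b, a, c)`: `c b → b a`); `P c a → P a c → P c b → P b a`.
`¬ J x y`, `J y x`: `P b a → P a b`, `P b a → P a c → P c a`, `P b a → P a c → P c b → P b c`.
`¬ J`, `¬ J`: trivial.  So by `T.trans` `Q` holds at all darts of `T` as soon as it holds at
one.  From `P x0 y0` at a dart of the split triangulation we get `Q` at some dart of `T` (`J x0 y0`: the same;
`(x0, y0)` in the triangle: rotate to `P b a`, and `Q b a`).  Conversely `Q` everywhere gives `P` at the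
`J`-darts, and `P b a`, so the darts of the triangle. -/
theorem split_trans {T : Tri V} {a b c : V} {J : V → V → Prop} (h : Sep T a b c J)
    (P : V → V → Prop)
    (h1 : ∀ x y z, splitF T a b c J x y z → P x y → P y z)
    (h2 : ∀ x y z, splitF T a b c J x y z → P x y → P y x)
    (x y z x' y' z' : V) (hF : splitF T a b c J x y z) (hF' : splitF T a b c J x' y' z')
    (hP : P x y) : P x' y' := by
  obtain ⟨cyc', _, opp', _⟩ := split_basic h
  have k1' : ∀ x y z, splitF T a b c J x y z → (P x y ↔ P y z) := fun x y z h' =>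
    ⟨h1 x y z h', fun hP' => h1 _ _ _ (cyc' _ _ _ (cyc' _ _ _ h')) (h1 _ _ _ (cyc' _ _ _ h') hP')⟩
  have k2' : ∀ x y z, splitF T a b c J x y z → (P x y ↔ P y x) := fun x y z h' =>
    ⟨h2 x y z h', fun hP' => by
      obtain ⟨d, hd⟩ := opp' x y z h'
      exact h2 _ _ _ hd hP'⟩
  have t1 : splitF T a b c J b a c := Or.inr (Or.inl ⟨rfl, rfl, rfl⟩)
  have t2 : splitF T a b c J a c b := Or.inr (Or.inr (Or.inl ⟨rfl, rfl, rfl⟩))
  have t3 : splitF T a b c J c b a := Or.inr (Or.inr (Or.inr ⟨rfl, rfl, rfl⟩))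
  have eab : P a b ↔ P b a := (k2' _ _ _ t1).symm
  have ebc : P b c ↔ P b a := (k2' _ _ _ t3).symm.trans (k1' _ _ _ t3)
  have eca : P c a ↔ P b a := (k2' _ _ _ t2).symm.trans (k1' _ _ _ t1).symm
  have key : ∀ u v, T.Adj u v → J u v → (P u v ↔ P b a) := by
    intro u v huv
    obtain ⟨w, hw⟩ := huv
    obtain ⟨w0, hw0⟩ := h.hab.symm
    refine T.trans (fun u v => J u v → (P u v ↔ P b a)) ?_ ?_ b a w0 u v w hw0 hw
      (fun h' => absurd h' h.ba)
    · intro u v w hF hR hJ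
      have hJ2 : J u v := h.face _ _ _ (T.cyc2 hF) (h.face _ _ _ (T.cyc _ _ _ hF) hJ)
      exact (k1' u v w (Or.inl ⟨hF, hJ2⟩)).symm.trans (hR hJ2)
    · intro u v w hF hR hJ
      by_cases hJ2 : J u v
      · exact (k2' u v w (Or.inl ⟨hF, hJ2⟩)).symm.trans (hR hJ2)
      · rcases h.edge v u (show T.Adj u v from ⟨w, hF⟩).symm hJ hJ2 with ⟨rfl, rfl⟩ | ⟨rfl, rfl⟩ |
          ⟨rfl, rfl⟩
        · exact eab
        · exact ebc
        · exact eca
  have all : ∀ u v w, splitF T a b c J u v w → (P u v ↔ P b a) := by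
    rintro u v w (⟨hF1, hJ⟩ | ⟨rfl, rfl, rfl⟩ | ⟨rfl, rfl, rfl⟩ | ⟨rfl, rfl, rfl⟩)
    · exact key u v ⟨w, hF1⟩ hJ
    · exact Iff.rfl
    · exact (k1' _ _ _ t1).symm
    · exact k1' _ _ _ t3
  exact (all _ _ _ hF').mpr ((all _ _ _ hF).mp hP)

end P4
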