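import Pool.Agent.Lib_MP_b306af.P4Defs

/-! # MP_b306af Part IV: P4ZFary1 -/

namespace P4

variable {V : Type}

/-- every negatively oriented outer triangle can be completed to a drawing -/
def Fary (T : Tri V) (o1 o2 o3 : V) : Prop :=
  ∀ Q1 Q2 Q3 : ℝ × ℝ, det3 Q1 Q2 Q3 < 0 → ∃ P : V → ℝ × ℝ,
    P o1 = Q1 ∧ P o2 = Q2 ∧ P o3 = Q3 ∧
    ∀ a b c, T.F a b c → ¬ Cyc3 o1 o2 o3 a b c → 0 < det3 (P a) (P b) (P c)

end P4
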