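import Pool.Agent.Lib_MP_b306af.P4ZGeo1
import Pool.Agent.Lib_MP_b306af.P4ZFary1
import Pool.Agent.Lib_MP_b306af.P4Insign
import Pool.Agent.Lib_MP_b306af.P4Splout
import Pool.Agent.Lib_MP_b306af.P4Splsupp
import Pool.Agent.Lib_MP_b306af.P4ZSplit4

/-! # MP_b306af Part IV: P4Spluncrossed -/

namespace P4

variable {V : Type}

namespace Setup

/- Piece SPLUNCROSSED (P4Fary, uses `uncrossed_inside`, `inner_sign`, `supp_both`, `supp_iff`, `adj_iff`).
No vertex of the triangle has side `σ ≠ 0`.  Draw the outer part: `P1`, `(S.ext h).Drawn ε P1`.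
`(a, b, c)` is a face of `h.compl.tri` and not the outer face of `S` (`J a b` would give `J o1 o2`, if
it is also a `T`-face; `Cyc3 o1 o2 o3 a b c` and `hS.h0` give `T.F a b c`), so
`det3 (P1 a) (P1 b) (P1 c) > 0`, `det3 (P1 b) (P1 a) (P1 c) < 0`, and `Fary` gives `P2`.
`P v := if (S.ext h).T.Supp v then P1 v else P2 v`; `P v = P2 v` on the support of `h.tri` (`supp_both`).
Faces as in SPLCROSSED.  A vertex `v` of `T` which is not in the support of the outer part is not `a, b, c` and
has a dart in `J`, so `side v = - σ` (`uncrossed_inside`); `inner_sign` with the real number `- σ` for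
`h.tri`, `P2`, outer face `(b, a, c)` (the sides of `a, b, c` are `0` or `- σ`, so `- σ * y ≥ 0`) gives
`sign (P2 v).2 = - σ`.  Vertices on the axis are in the outer part.  `near`: an edge `u w` with sides `1`, `-1` which
is not an edge of the outer part has `J u w` and `J w u`; one of `u`, `w` has side `σ`, so it is not in
`{a, b, c}` and by `uncrossed_inside` has side `- σ`, contradiction. -/
theorem iv_uncrossed [Finite V] {S : Setup V} (hS : S.Good) {a b c : V}
    {J : V → V → Prop} (h : Sep S.T a b c J) (ho : ¬ J S.o1 S.o2) (σ : SignType)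
    (hσ : σ ≠ 0) (ha : S.side a ≠ σ) (hb : S.side b ≠ σ) (hc : S.side c ≠ σ)
    (hext : (S.ext h).IV) (hf : Fary h.tri b a c) : S.IV := by
  classical
  intro Q hQ ε hε
  obtain ⟨P1, hP1, hD⟩ := hext Q ⟨hQ.sgn, hQ.abs0, hQ.cross⟩ ε hε
  -- faces of the two parts
  have hF1 : ∀ x y z, S.T.F x y z → ¬ J x y → (S.ext h).T.F x y z := fun x y z h1 h2 =>
    Or.inl ⟨h1, h2⟩
  have hF2 : ∀ x y z, S.T.F x y z → J x y → h.tri.F x y z := fun x y z h1 h2 => Or.inl ⟨h1, h2⟩
  have habc : (S.ext h).T.F a b c := Or.inr (Or.inl ⟨rfl, rfl, rfl⟩)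
  have hsa : (S.ext h).T.Supp a := ⟨_, _, habc⟩
  have hsb : (S.ext h).T.Supp b := ⟨_, _, (S.ext h).T.cyc _ _ _ habc⟩
  have hsc : (S.ext h).T.Supp c := ⟨_, _, (S.ext h).T.cyc2 habc⟩
  have hnO : ¬ (S.ext h).IsO a b c := by
    rintro (⟨h1, h2, h3⟩ | ⟨h1, h2, h3⟩ | ⟨h1, h2, h3⟩)
    · apply ho
      change a = S.o1 at h1
      change b = S.o2 at h2
      rw [← h1, ← h2]
      exact h.ab
    · apply ho
      change a = S.o2 at h1
      change c = S.o1 at h3
      rw [← h1, ← h3]
      exact h.ca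
    · apply ho
      change b = S.o1 at h2
      change c = S.o2 at h3
      rw [← h2, ← h3]
      exact h.bc
  have hpos1 : 0 < det3 (P1 a) (P1 b) (P1 c) := hD.pos a b c habc hnO
  have hneg : det3 (P1 b) (P1 a) (P1 c) < 0 := by
    rw [det3_swap]
    linarith
  obtain ⟨P2, e1, e2, e3, hpos2⟩ := hf _ _ _ hneg
  set P : V → ℝ × ℝ := fun v => if (S.ext h).T.Supp v then P1 v else P2 v with hP
  have PS : ∀ v, (S.ext h).T.Supp v → P v = P1 v := fun v hv => if_pos hv
  have PN : ∀ v, ¬ (S.ext h).T.Supp v → P v = P2 v := fun v hv => if_neg hv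
  have P2S : ∀ v, h.tri.Supp v → P v = P2 v := by
    intro v hv
    by_cases hv' : (S.ext h).T.Supp v
    · rw [PS v hv']
      rcases h.supp_both v hv hv' with rfl | rfl | rfl
      · exact e2.symm
      · exact e1.symm
      · exact e3.symm
    · exact PN v hv'
  -- vertices inside
  have hins : ∀ v, S.T.Supp v → ¬ (S.ext h).T.Supp v → h.tri.Supp v ∧ v ≠ a ∧ v ≠ b ∧ v ≠ c ∧
      S.side v = - σ := by
    rintro v ⟨y, z, hv⟩ hnv
    have hva : v ≠ a := fun e => hnv (e ▸ hsa)
    have hvb : v ≠ b := fun e => hnv (e ▸ hsb)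
    have hvc : v ≠ c := fun e => hnv (e ▸ hsc)
    have hJ : J v y := by
      by_contra hJ
      exact hnv ⟨y, z, hF1 _ _ _ hv hJ⟩
    exact ⟨⟨y, z, hF2 _ _ _ hv hJ⟩, hva, hvb, hvc,
      uncrossed_inside hS h ho σ hσ ha hb hc v y ⟨z, hv⟩ hJ hva hvb hvc⟩
  have hσ' : σ ≠ - σ := by
    revert hσ
    cases σ <;> decide
  refine ⟨P, ?_, ⟨?_, ?_, ?_, ?_⟩⟩
  · intro v hv
    have h0 := hF1 _ _ _ hS.h0 ho
    have hs : (S.ext h).T.Supp v := by
      rcases hv with rfl | rfl | rfl
      · exact ⟨_, _, h0⟩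
      · exact ⟨_, _, (S.ext h).T.cyc _ _ _ h0⟩
      · exact ⟨_, _, (S.ext h).T.cyc2 h0⟩
    rw [PS v hs]
    exact hP1 v hv
  · intro x y z hxyz hO
    by_cases hJ : J x y
    · have hf' := hF2 _ _ _ hxyz hJ
      rw [P2S x ⟨_, _, hf'⟩, P2S y ⟨_, _, h.tri.cyc _ _ _ hf'⟩, P2S z ⟨_, _, h.tri.cyc2 hf'⟩]
      refine hpos2 x y z hf' ?_
      rintro (⟨rfl, rfl, rfl⟩ | ⟨rfl, rfl, rfl⟩ | ⟨rfl, rfl, rfl⟩)
      · exact h.ba hJ
      · exact h.ac hJ
      · exact h.cb hJ
    · have hf' := hF1 _ _ _ hxyz hJ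
      rw [PS x ⟨_, _, hf'⟩, PS y ⟨_, _, (S.ext h).T.cyc _ _ _ hf'⟩,
        PS z ⟨_, _, (S.ext h).T.cyc2 hf'⟩]
      exact hD.pos x y z hf' hO
  · intro v hv
    by_cases hv' : (S.ext h).T.Supp v
    · rw [PS v hv']
      exact hD.sgn v hv'
    · obtain ⟨h1, h2, h3, h4, h5⟩ := hins v hv hv'
      rw [PN v hv', h5]
      have sa := hD.sgn a hsa
      have sb := hD.sgn b hsb
      have sc := hD.sgn c hsc
      change SignType.sign (P1 a).2 = S.side a at sa
      change SignType.sign (P1 b).2 = S.side b at sb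
      change SignType.sign (P1 c).2 = S.side c at sc
      rw [← e2] at sa
      rw [← e1] at sb
      rw [← e3] at sc
      have hle : ∀ t : ℝ, SignType.sign t ≠ 1 → t ≤ 0 := by
        intro t ht
        by_contra hlt
        exact ht (sign_pos (not_le.1 hlt))
      have hge : ∀ t : ℝ, SignType.sign t ≠ -1 → 0 ≤ t := by
        intro t ht
        by_contra hlt
        exact ht (sign_neg (not_le.1 hlt))
      have hcase : σ = 1 ∨ σ = -1 := by
        revert hσ
        cases σ <;> decide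
      rcases hcase with rfl | rfl
      · have := inner_sign h.tri P2 b a c hpos2 (-1) (by norm_num)
          (by have := hle _ (sb ▸ hb); linarith) (by have := hle _ (sa ▸ ha); linarith)
          (by have := hle _ (sc ▸ hc); linarith) v h1 h3 h2 h4
        exact sign_neg (by linarith)
      · have := inner_sign h.tri P2 b a c hpos2 1 (by norm_num)
          (by have := hge _ (sb ▸ hb); linarith) (by have := hge _ (sa ▸ ha); linarith)
          (by have := hge _ (sc ▸ hc); linarith) v h1 h3 h2 h4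
        rw [neg_neg]
        exact sign_pos (by linarith)
  · intro v hv h0
    by_cases hv' : (S.ext h).T.Supp v
    · rw [PS v hv']
      exact hD.abs0 v hv' h0
    · exfalso
      obtain ⟨-, -, -, -, h5⟩ := hins v hv hv'
      rw [h0] at h5
      revert hσ h5
      cases σ <;> decide
  · intro u w huw hu hw
    by_cases hadj : (S.ext h).T.Adj u w
    · rw [PS u hadj.supp, PS w hadj.symm.supp]
      exact hD.near u w hadj hu hw
    · exfalso
      have h1 : ¬ (S.T.Adj u w ∧ (¬ J u w ∨ ¬ J w u)) := fun h1 => hadj ((h.compl.adj_iff u w).2 h1)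
      have hJ1 : J u w := by
        by_contra hJ
        exact h1 ⟨huw, Or.inl hJ⟩
      have hJ2 : J w u := by
        by_contra hJ
        exact h1 ⟨huw, Or.inr hJ⟩
      have hcase : σ = 1 ∨ σ = -1 := by
        revert hσ
        cases σ <;> decide
      rcases hcase with rfl | rfl
      · have := uncrossed_inside hS h ho 1 hσ ha hb hc u w huw hJ1
          (fun e => ha (e ▸ hu)) (fun e => hb (e ▸ hu)) (fun e => hc (e ▸ hu))
        rw [hu] at this
        exact hσ' this
      · have := uncrossed_inside hS h ho (-1) hσ ha hb hc w u huw.symm hJ2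
          (fun e => ha (e ▸ hw)) (fun e => hb (e ▸ hw)) (fun e => hc (e ▸ hw))
        rw [hw] at this
        exact hσ' this

end Setup

end P4
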