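import Pool.Agent.Lib_MP_b306af.P4ZSplit2

/-! # MP_b306af Part IV: P4Spluniq -/

namespace P4

variable {V : Type}

/- Piece SPLUNIQ (P4Split).  `cyc`: `Sep.face`.  `uniq`: two faces of `T`: `T.uniq`; two rotations of
`(b, a, c)`: `a, b, c` are distinct (`Adj.ne`); mixed: `(x, y) ∈ {(b, a), (a, c), (c, b)}`
contradicts `J x y` (`ba`, `ac`, `cb`).  `opp`: if `T.F x y z`, `J x y`: if `J y x`, `T.opp`; otherwise
`Sep.edge` and the triangle `(b, a, c)` contains `(y, x)`.  If `(x, y)` is a dart of `(b, a, c)`: `(y, x)` is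
one of `(a, b)`, `(c, a)`, `(b, c)`, which have a `T`-face with `J`. -/
theorem split_basic {T : Tri V} {a b c : V} {J : V → V → Prop} (h : Sep T a b c J) :
    (∀ x y z, splitF T a b c J x y z → splitF T a b c J y z x) ∧
    (∀ x y z w, splitF T a b c J x y z → splitF T a b c J x y w → z = w) ∧
    (∀ x y z, splitF T a b c J x y z → ∃ w, splitF T a b c J y x w) ∧
    (∀ x y z, splitF T a b c J x y z → x ≠ y) := by
  have n1 : a ≠ b := h.hab.ne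
  have n2 : b ≠ c := h.hbc.ne
  have n3 : c ≠ a := h.hca.ne
  have hcy : ∀ x y z, Cyc3 b a c x y z → ¬ J x y := by
    rintro x y z (⟨rfl, rfl, rfl⟩ | ⟨rfl, rfl, rfl⟩ | ⟨rfl, rfl, rfl⟩)
    · exact h.ba
    · exact h.ac
    · exact h.cb
  refine ⟨?_, ?_, ?_, ?_⟩
  · rintro x y z (⟨h1, h2⟩ | h1)
    · exact Or.inl ⟨T.cyc _ _ _ h1, h.face _ _ _ h1 h2⟩
    · refine Or.inr ?_
      rcases h1 with ⟨rfl, rfl, rfl⟩ | ⟨rfl, rfl, rfl⟩ | ⟨rfl, rfl, rfl⟩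
      · exact Or.inr (Or.inl ⟨rfl, rfl, rfl⟩)
      · exact Or.inr (Or.inr ⟨rfl, rfl, rfl⟩)
      · exact Or.inl ⟨rfl, rfl, rfl⟩
  · rintro x y z w (⟨h1, h2⟩ | h1) (⟨h3, h4⟩ | h3)
    · exact T.uniq _ _ _ _ h1 h3
    · exact absurd h2 (hcy _ _ _ h3)
    · exact absurd h4 (hcy _ _ _ h1)
    · rcases h1 with ⟨e1, e2, e3⟩ | ⟨e1, e2, e3⟩ | ⟨e1, e2, e3⟩ <;>
        rcases h3 with ⟨f1, f2, f3⟩ | ⟨f1, f2, f3⟩ | ⟨f1, f2, f3⟩
      · rw [e3, f3]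
      · exact absurd (f1.symm.trans e1) n1
      · exact absurd (e1.symm.trans f1) n2
      · exact absurd (e1.symm.trans f1) n1
      · rw [e3, f3]
      · exact absurd (f1.symm.trans e1) n3
      · exact absurd (f1.symm.trans e1) n2
      · exact absurd (e1.symm.trans f1) n3
      · rw [e3, f3]
  · rintro x y z (⟨h1, h2⟩ | h1)
    · by_cases h3 : J y x
      · obtain ⟨w, hw⟩ := T.opp _ _ _ h1
        exact ⟨w, Or.inl ⟨hw, h3⟩⟩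
      · rcases h.edge x y ⟨z, h1⟩ h2 h3 with ⟨rfl, rfl⟩ | ⟨rfl, rfl⟩ | ⟨rfl, rfl⟩
        · exact ⟨c, Or.inr (Or.inl ⟨rfl, rfl, rfl⟩)⟩
        · exact ⟨a, Or.inr (Or.inr (Or.inr ⟨rfl, rfl, rfl⟩))⟩
        · exact ⟨b, Or.inr (Or.inr (Or.inl ⟨rfl, rfl, rfl⟩))⟩
    · rcases h1 with ⟨rfl, rfl, rfl⟩ | ⟨rfl, rfl, rfl⟩ | ⟨rfl, rfl, rfl⟩
      · obtain ⟨w, hw⟩ := h.hab
        exact ⟨w, Or.inl ⟨hw, h.ab⟩⟩
      · obtain ⟨w, hw⟩ := h.hca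
        exact ⟨w, Or.inl ⟨hw, h.ca⟩⟩
      · obtain ⟨w, hw⟩ := h.hbc
        exact ⟨w, Or.inl ⟨hw, h.bc⟩⟩
  · rintro x y z (⟨h1, h2⟩ | ⟨e1, e2, _⟩ | ⟨e1, e2, _⟩ | ⟨e1, e2, _⟩)
    · exact T.ne _ _ _ h1
    · rw [e1, e2]
      exact n1.symm
    · rw [e1, e2]
      exact n3.symm
    · rw [e1, e2]
      exact n2.symm

end P4
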