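import Pool.Agent.Lib_MP_b306af.P4Linkf

/-! # MP_b306af Part IV: P4Starm -/

namespace P4

open Finset

variable {V : Type}

namespace Setup

/- Piece STARM (P4LP, uses `Tri.link_fwd`).  Around a vertex `s` on the axis `φ + nu` is constant.
For `T.F s b c` put `g b = φ s b + nu s b c` (`c = nx s b`).  If `T.F s b c` then `g b = g c`:
the spoke relation for the dart `s c`: `φ c s - φ s c = nu s c (nx s c) - nu s (nx c s) c`, where
`T.F c s b` so `nx c s = b` and `φ c s = φ s b` (face function).  So `φ s b + nu s b c = φ s c + nu s c (nx s c)`.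
By `Tri.link_fwd` (with `R x := g x = g b`) `g` is constant on the neighbours of `s`. -/
theorem star_const [Fintype V] {S : Setup V} {φ : V → V → ℝ}
    (nu : V → V → V → ℝ)
    (hφ : ∀ a b c, S.T.F a b c → φ a b = φ b c) (s : V)
    (hsp : ∀ b, S.T.Adj s b → φ b s - φ s b = nu s b (S.T.nx s b) - nu s (S.T.nx b s) b) :
    ∀ b c b' c', S.T.F s b c → S.T.F s b' c' → φ s b + nu s b c = φ s b' + nu s b' c' := by
  have step : ∀ b c, S.T.F s b c →
      φ s b + nu s b (S.T.nx s b) = φ s c + nu s c (S.T.nx s c) := by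
    intro b c hF
    have h1 : S.T.F c s b := S.T.cyc2 hF
    have hadj : S.T.Adj s c := Tri.Adj.symm ⟨b, h1⟩
    have h2 := hsp c hadj
    rw [S.T.nx_eq h1, hφ c s b h1] at h2
    rw [S.T.nx_eq hF]
    linarith
  intro b c b' c' hF hF'
  have h := S.T.link_fwd s
    (fun x => φ s x + nu s x (S.T.nx s x) = φ s b + nu s b (S.T.nx s b))
    (fun x y hxy hx => by rw [← step x y hxy]; exact hx) b b' ⟨c, hF⟩ ⟨c', hF'⟩ rfl
  rw [S.T.nx_eq hF, S.T.nx_eq hF'] at h
  exact h.symm

end Setup

end P4
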