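import Pool.Agent.Lib_MP_b306af.P4ZBond3
import Pool.Agent.Lib_MP_b306af.P4Noabab

/-! # MP_b306af Part IV: P4Top -/

namespace P4

variable {V : Type}

namespace Setup

theorem topIsO_rot {S : Setup V} {x y z : V} (h : S.IsO x y z) : S.IsO y z x := by
  unfold IsO Cyc3 at h ⊢
  tauto

theorem BondSeq.top_step {S : Setup V} (E : S.BondSeq) {u c x : V} (hF : S.T.F u c x)
    (hx : S.side x = 1) {i j : ℕ} (hi : i < E.m) (hei : E.e i = (u, c)) (hj : j < E.m)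
    (hej : E.e j = (x, c)) :
    (S.IsO u c x → i = E.m - 1 ∧ j = 0) ∧ (¬ S.IsO u c x → j = i + 1) := by
  have hm := E.hm
  have hnx : S.T.nx u c = x := S.T.nx_eq hF
  have hsucc : S.succ (u, c) = (x, c) := by
    unfold succ
    simp only [hnx]
    rw [if_pos hx]
  constructor
  · intro hO
    have h1 : i = E.m - 1 := by
      by_contra hne
      have h2 : i + 1 < E.m := by omega
      have h3 := E.nouter i h2
      rw [hei] at h3
      simp only [hnx] at h3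
      exact h3 hO
    refine ⟨h1, ?_⟩
    have h4 := E.wrap
    rw [← h1, hei, hsucc, ← hej] at h4
    exact (E.inj 0 hm j hj h4).symm
  · intro hO
    have h1 : i ≠ E.m - 1 := by
      intro hne
      have h3 := E.outer
      rw [← hne, hei] at h3
      simp only [hnx] at h3
      exact hO h3
    have h2 : i + 1 < E.m := by omega
    have h4 := E.step i
    rw [hei, hsucc, ← hej] at h4
    exact (E.inj (i + 1) h2 j hj h4).symm

theorem BondSeq.top_lab {S : Setup V} (hS : S.Good) (E : S.BondSeq) {u w w' : V} {i j : ℕ}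
    (hi : E.e i = (u, w)) (hj : E.e j = (u, w')) (hjm : j < E.m) (hij : i ≤ j)
    (hw : S.side w = -1) (hw' : S.side w' = -1) : w = w' ∨ S.A u w < S.A u w' := by
  rcases hij.eq_or_lt with h | h
  · left
    rw [h, hj] at hi
    exact (congrArg Prod.snd hi).symm
  · right
    have h1 := E.lab_cross_lt hS i j h hjm (Or.inl (by rw [hi]; exact hw))
    rw [hi, hj] at h1
    unfold tO at h1
    simp only [hw, hw'] at h1
    rwa [if_neg (by decide), if_neg (by decide)] at h1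

/-- the conclusion of `exists_top` -/
def TopC (S : Setup V) (a b c wa wb wc : V) : Prop :=
    ∃ a' b' c' wa' wb' wc', (Cyc3 a b c a' b' c' ∧ Cyc3 wa wb wc wa' wb' wc' ∧
      S.T.F a' b' c' ∧ S.T.F c' b' wa' ∧ S.T.F a' c' wb' ∧ S.T.F b' a' wc') ∧
      ¬ S.IsO c' b' wa' ∧ ¬ S.IsO a' c' wb' ∧ (wa' = wb' ∨ S.A c' wa' < S.A c' wb') ∧
      (S.IsO b' a' wc' ∨ (¬ S.IsO b' a' wc' ∧ (wc' = wa' ∨ S.A b' wc' < S.A b' wa')))

theorem TopC.rot {S : Setup V} {a b c wa wb wc : V} (h : TopC S b c a wb wc wa) :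
    TopC S a b c wa wb wc := by
  obtain ⟨a', b', c', wa', wb', wc', ⟨h1, h2, h3⟩, h4⟩ := h
  refine ⟨a', b', c', wa', wb', wc', ⟨?_, ?_, h3⟩, h4⟩
  · unfold Cyc3 at h1 ⊢; tauto
  · unfold Cyc3 at h2 ⊢; tauto

/-- the hypotheses of `exists_top` -/
structure TopH (S : Setup V) (a b c wa wb wc : V) : Prop where
  hF : S.T.F a b c
  hFa : S.T.F c b wa
  hFb : S.T.F a c wb
  hFc : S.T.F b a wc
  ha : S.side a = 1
  hb : S.side b = 1
  hc : S.side c = 1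
  hwa : S.side wa = -1
  hwb : S.side wb = -1
  hwc : S.side wc = -1

theorem TopH.rot {S : Setup V} {a b c wa wb wc : V} (h : TopH S a b c wa wb wc) :
    TopH S b c a wb wc wa where
  hF := S.T.cyc _ _ _ h.hF
  hFa := h.hFb
  hFb := h.hFc
  hFc := h.hFa
  ha := h.hb
  hb := h.hc
  hc := h.ha
  hwa := h.hwb
  hwb := h.hwc
  hwc := h.hwa

theorem TopH.not_outer {S : Setup V} {a b c wa wb wc : V} (h : TopH S a b c wa wb wc)
    (hO : S.IsO b a wc) : ¬ S.IsO c b wa ∧ ¬ S.IsO a c wb := by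
  have hab : a ≠ b := S.T.ne _ _ _ h.hF
  have hbc : b ≠ c := S.T.ne _ _ _ (S.T.cyc _ _ _ h.hF)
  have hca : c ≠ a := S.T.ne _ _ _ (S.T.cyc2 h.hF)
  have hawa : a ≠ wa := by
    intro hh; have := h.ha; rw [hh, h.hwa] at this; exact absurd this (by decide)
  have hbwb : b ≠ wb := by
    intro hh; have := h.hb; rw [hh, h.hwb] at this; exact absurd this (by decide)
  constructor
  · intro hO'
    have h1 : a = S.o1 ∨ a = S.o2 ∨ a = S.o3 := by unfold IsO Cyc3 at hO; tauto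
    have h2 : a = c ∨ a = b ∨ a = wa := by
      unfold IsO Cyc3 at hO'
      rcases hO' with ⟨e1, e2, e3⟩ | ⟨e1, e2, e3⟩ | ⟨e1, e2, e3⟩ <;> rw [← e1, ← e2, ← e3] at h1 <;>
        tauto
    rcases h2 with h2 | h2 | h2
    · exact hca h2.symm
    · exact hab h2
    · exact hawa h2
  · intro hO'
    have h1 : b = S.o1 ∨ b = S.o2 ∨ b = S.o3 := by unfold IsO Cyc3 at hO; tauto
    have h2 : b = a ∨ b = c ∨ b = wb := by
      unfold IsO Cyc3 at hO'
      rcases hO' with ⟨e1, e2, e3⟩ | ⟨e1, e2, e3⟩ | ⟨e1, e2, e3⟩ <;> rw [← e1, ← e2, ← e3] at h1 <;>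
        tauto
    rcases h2 with h2 | h2 | h2
    · exact hab h2.symm
    · exact hbc h2
    · exact hbwb h2

/-- positions of the six bond edges -/
structure TopP (S : Setup V) (E : S.BondSeq) (a b c wa wb wc : V) (ab ac bc ba ca cb : ℕ) :
    Prop where
  e1 : E.e ab = (a, wb)
  e2 : E.e ac = (a, wc)
  e3 : E.e bc = (b, wc)
  e4 : E.e ba = (b, wa)
  e5 : E.e ca = (c, wa)
  e6 : E.e cb = (c, wb)
  l1 : ab < E.m
  l2 : ac < E.m
  l3 : bc < E.m
  l4 : ba < E.m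
  l5 : ca < E.m
  l6 : cb < E.m

theorem TopP.rot {S : Setup V} {E : S.BondSeq} {a b c wa wb wc : V} {ab ac bc ba ca cb : ℕ}
    (h : TopP S E a b c wa wb wc ab ac bc ba ca cb) :
    TopP S E b c a wb wc wa bc ba ca cb ab ac where
  e1 := h.e3
  e2 := h.e4
  e3 := h.e5
  e4 := h.e6
  e5 := h.e1
  e6 := h.e2
  l1 := h.l3
  l2 := h.l4
  l3 := h.l5
  l4 := h.l6
  l5 := h.l1
  l6 := h.l2

theorem BondSeq.top_outer [Finite V] {S : Setup V} (hS : S.Good) (E : S.BondSeq)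
    {a b c wa wb wc : V} (H : TopH S a b c wa wb wc) {ab ac bc ba ca cb : ℕ}
    (P : TopP S E a b c wa wb wc ab ac bc ba ca cb) (hO : S.IsO b a wc) :
    TopC S a b c wa wb wc := by
  have hca : c ≠ a := S.T.ne _ _ _ (S.T.cyc2 H.hF)
  obtain ⟨n1, n2⟩ := H.not_outer hO
  have s1 := (E.top_step (S.T.cyc _ _ _ H.hFc) H.hb P.l2 P.e2 P.l3 P.e3).1 (topIsO_rot hO)
  have s3 := (E.top_step (S.T.cyc _ _ _ H.hFb) H.ha P.l6 P.e6 P.l1 P.e1).2
    (fun h => n2 (topIsO_rot (topIsO_rot h)))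
  have hle : ca ≤ cb := by
    by_contra hcon
    have h1 : cb < ca := by omega
    have h2 : ab ≠ ca := by
      intro hh
      have := P.e1
      rw [hh, P.e5] at this
      exact hca (congrArg Prod.fst this)
    have h3 := E.noabab hS cb ca ab ac h1 P.l5 P.l1 P.l2 (by rw [P.e6, P.e5])
      (by rw [P.e1, P.e2]) (by rw [P.e1, P.e6]; exact hca.symm) (by omega) (by omega)
    have := P.l5
    omega
  refine ⟨a, b, c, wa, wb, wc, ⟨Or.inl ⟨rfl, rfl, rfl⟩, Or.inl ⟨rfl, rfl, rfl⟩, H.hF, H.hFa,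
    H.hFb, H.hFc⟩, n1, n2, E.top_lab hS P.e5 P.e6 P.l6 hle H.hwa H.hwb, Or.inl hO⟩

theorem BondSeq.top_inner [Finite V] {S : Setup V} (hS : S.Good) (E : S.BondSeq)
    {a b c wa wb wc : V} (H : TopH S a b c wa wb wc) {ab ac bc ba ca cb : ℕ}
    (P : TopP S E a b c wa wb wc ab ac bc ba ca cb) (n1 : ¬ S.IsO c b wa)
    (n2 : ¬ S.IsO a c wb) (n3 : ¬ S.IsO b a wc) (hlt : ac < ab) :
    TopC S a b c wa wb wc := by
  have hab : a ≠ b := S.T.ne _ _ _ H.hF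
  have hca : c ≠ a := S.T.ne _ _ _ (S.T.cyc2 H.hF)
  have s1 := (E.top_step (S.T.cyc _ _ _ H.hFc) H.hb P.l2 P.e2 P.l3 P.e3).2
    (fun h => n3 (topIsO_rot (topIsO_rot h)))
  have s3 := (E.top_step (S.T.cyc _ _ _ H.hFb) H.ha P.l6 P.e6 P.l1 P.e1).2
    (fun h => n2 (topIsO_rot (topIsO_rot h)))
  have d1 : bc ≠ ab := by
    intro hh
    have := P.e3
    rw [hh, P.e1] at this
    exact hab (congrArg Prod.fst this)
  have d2 : cb ≠ ac := by
    intro hh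
    have := P.e6
    rw [hh, P.e2] at this
    exact hca (congrArg Prod.fst this).symm
  have h3 := E.noabab hS ac ab bc ba hlt P.l1 P.l3 P.l4 (by rw [P.e2, P.e1])
      (by rw [P.e3, P.e4]) (by rw [P.e3, P.e2]; exact hab.symm) (by omega) (by omega)
  have h4 := E.noabab hS ac ab cb ca hlt P.l1 P.l6 P.l5 (by rw [P.e2, P.e1])
      (by rw [P.e6, P.e5]) (by rw [P.e6, P.e2]; exact hca) (by omega) (by omega)
  refine ⟨a, b, c, wa, wb, wc, ⟨Or.inl ⟨rfl, rfl, rfl⟩, Or.inl ⟨rfl, rfl, rfl⟩, H.hF, H.hFa,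
    H.hFb, H.hFc⟩, n1, n2, E.top_lab hS P.e5 P.e6 P.l6 (by omega) H.hwa H.hwb,
    Or.inr ⟨n3, E.top_lab hS P.e3 P.e4 P.l4 (by omega) H.hwc H.hwa⟩⟩

/- Piece TOP (P4Flip, uses `exists_bondSeq`, `noabab`, `lab_cross_lt`).  A face `(a, b, c)` above the axis whose
three neighbours are crossed.  `wa, wb, wc` opposite to `a, b, c`: faces `(c, b, wa)`, `(a, c, wb)`,
`(b, a, wc)`.  Let `E` be a `BondSeq`.  `pos e` the index of a bond edge.  `succ (a, wc) = (b, wc)`,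
`succ (b, wa) = (c, wa)`, `succ (c, wb) = (a, wb)` (rotate the faces).
Case 2: one of the three faces is the outer face; after rotation `IsO b a wc`.  Then `pos (a, wc) = m - 1`,
`pos (b, wc) = 0`, and `pos (c, wa) = pos (b, wa) + 1`, `pos (a, wb) = pos (c, wb) + 1`.  Claim
`pos (c, wa) ≤ pos (c, wb)`: otherwise `pos (c, wb) < pos (a, wb) ≤ pos (c, wa)`, `a ≠ c`, so
`<`, and by `noabab` (`i = pos (c, wb)`, `k = pos (c, wa)`) all edges of `a` are between, but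
`pos (a, wc) = m - 1`.  So `wa = wb` or `A c wa < A c wb` (`lab_cross_lt`; same position gives the
same edge).
Case 1: none of them is outer: all three steps are `+ 1`.  If `pos (a, wb) ≤ pos (a, wc)`,
`pos (b, wc) ≤ pos (b, wa)`, `pos (c, wa) ≤ pos (c, wb)` we get a contradiction going around.  So
after rotation `pos (a, wc) < pos (a, wb)`.  `pos (b, wc) = pos (a, wc) + 1 < pos (a, wb)` (`a ≠ b`) so by
`noabab` all edges of `b` are strictly between, in particular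
`pos (a, wc) + 1 = pos (b, wc) ≤ pos (b, wa)`; same for `c`: `pos (c, wb) = pos (a, wb) - 1`,
`pos (c, wa) ≤ pos (c, wb)`. -/
theorem exists_top [Finite V] {S : Setup V} (hS : S.Good) (a b c wa wb wc : V)
    (hF : S.T.F a b c) (hFa : S.T.F c b wa) (hFb : S.T.F a c wb) (hFc : S.T.F b a wc)
    (ha : S.side a = 1) (hb : S.side b = 1) (hc : S.side c = 1)
    (hwa : S.side wa = -1) (hwb : S.side wb = -1) (hwc : S.side wc = -1) :
    ∃ a' b' c' wa' wb' wc', (Cyc3 a b c a' b' c' ∧ Cyc3 wa wb wc wa' wb' wc' ∧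
      S.T.F a' b' c' ∧ S.T.F c' b' wa' ∧ S.T.F a' c' wb' ∧ S.T.F b' a' wc') ∧
      ¬ S.IsO c' b' wa' ∧ ¬ S.IsO a' c' wb' ∧ (wa' = wb' ∨ S.A c' wa' < S.A c' wb') ∧
      (S.IsO b' a' wc' ∨ (¬ S.IsO b' a' wc' ∧ (wc' = wa' ∨ S.A b' wc' < S.A b' wa'))) := by
  have H : TopH S a b c wa wb wc := ⟨hF, hFa, hFb, hFc, ha, hb, hc, hwa, hwb, hwc⟩
  obtain ⟨E⟩ := exists_bondSeq S hS
  have nb : ∀ w, S.side w = -1 → S.side w ≠ 1 := by
    intro w hw; rw [hw]; decide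
  obtain ⟨ab, l1, e1⟩ := E.surj (a, wb) ⟨Tri.Adj.symm ⟨_, S.T.cyc2 hFb⟩, ha, nb _ hwb⟩
  obtain ⟨ac, l2, e2⟩ := E.surj (a, wc) ⟨⟨_, S.T.cyc _ _ _ hFc⟩, ha, nb _ hwc⟩
  obtain ⟨bc, l3, e3⟩ := E.surj (b, wc) ⟨Tri.Adj.symm ⟨_, S.T.cyc2 hFc⟩, hb, nb _ hwc⟩
  obtain ⟨ba, l4, e4⟩ := E.surj (b, wa) ⟨⟨_, S.T.cyc _ _ _ hFa⟩, hb, nb _ hwa⟩
  obtain ⟨ca, l5, e5⟩ := E.surj (c, wa) ⟨Tri.Adj.symm ⟨_, S.T.cyc2 hFa⟩, hc, nb _ hwa⟩
  obtain ⟨cb, l6, e6⟩ := E.surj (c, wb) ⟨⟨_, S.T.cyc _ _ _ hFb⟩, hc, nb _ hwb⟩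
  have P : TopP S E a b c wa wb wc ab ac bc ba ca cb :=
    ⟨e1, e2, e3, e4, e5, e6, l1, l2, l3, l4, l5, l6⟩
  change TopC S a b c wa wb wc
  by_cases o3 : S.IsO b a wc
  · exact E.top_outer hS H P o3
  by_cases o1 : S.IsO c b wa
  · exact TopC.rot (E.top_outer hS H.rot P.rot o1)
  by_cases o2 : S.IsO a c wb
  · exact TopC.rot (TopC.rot (E.top_outer hS H.rot.rot P.rot.rot o2))
  have s1 := (E.top_step (S.T.cyc _ _ _ hFc) hb l2 e2 l3 e3).2
    (fun h => o3 (topIsO_rot (topIsO_rot h)))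
  have s2 := (E.top_step (S.T.cyc _ _ _ hFa) hc l4 e4 l5 e5).2
    (fun h => o1 (topIsO_rot (topIsO_rot h)))
  have s3 := (E.top_step (S.T.cyc _ _ _ hFb) ha l6 e6 l1 e1).2
    (fun h => o2 (topIsO_rot (topIsO_rot h)))
  by_cases c1 : ac < ab
  · exact E.top_inner hS H P o1 o2 o3 c1
  by_cases c2 : ba < bc
  · exact TopC.rot (E.top_inner hS H.rot P.rot o2 o3 o1 c2)
  by_cases c3 : cb < ca
  · exact TopC.rot (TopC.rot (E.top_inner hS H.rot.rot P.rot.rot o3 o1 o2 c3))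
  omega

end Setup

end P4
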