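import Pool.Agent.Lib_MP_b306af.P4ZBasic1
import Pool.Agent.Lib_MP_b306af.P4Circ
import Pool.Agent.Lib_MP_b306af.P4Pot

/-! # Part IV: basic facts on combinatorial triangulations -/
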