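import Pool.Agent.Lib_MP_b306af.P4Defs

/-! # MP_b306af Part IV: P4ZBond1 -/

namespace P4

variable {V : Type}

namespace Setup

/-- `e = (u, c)` is an edge from `u` above the axis to `c` not above the axis -/
def IsBond (S : Setup V) (e : V × V) : Prop :=
  S.T.Adj e.1 e.2 ∧ S.side e.1 = 1 ∧ S.side e.2 ≠ 1

open Classical in
/-- the next bond edge: exit of the face on the left of the dart `e` -/
noncomputable def succ (S : Setup V) (e : V × V) : V × V :=
  if S.side (S.T.nx e.1 e.2) = 1 then (S.T.nx e.1 e.2, e.2) else (e.1, S.T.nx e.1 e.2)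

open Classical in
/-- the label of a bond edge -/
noncomputable def tO (S : Setup V) (e : V × V) : ℝ :=
  if S.side e.2 = 0 then S.X e.2 else S.A e.1 e.2

theorem succ_bond (S : Setup V) {e : V × V} (he : S.IsBond e) : S.IsBond (S.succ e) := by
  obtain ⟨h1, h2, h3⟩ := he
  have hF := S.T.F_nx h1
  unfold succ
  split_ifs with h
  · exact ⟨Tri.Adj.symm ⟨_, S.T.cyc _ _ _ hF⟩, h, h3⟩
  · exact ⟨Tri.Adj.symm ⟨_, S.T.cyc2 hF⟩, h2, h⟩

end Setup

end P4
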