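import Pool.Agent.Lib_MP_b306af.P4Defs

/-! # MP_b306af Part IV: P4ZCore1 -/

namespace P4

variable {V : Type}

namespace Setup

/-- the setup is in case D: every face is crossed or has a vertex on the axis -/
def NoMono (S : Setup V) : Prop :=
  ∀ a b c, S.T.F a b c → ¬ (S.side a = S.side b ∧ S.side b = S.side c)

end Setup

end P4
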