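import Pool.Agent.Lib_MP_b306af.P4ZCore1

/-! # MP_b306af Part IV: P4ZCore2 -/

namespace P4

variable {V : Type}

namespace Setup

open Classical in
/-- label of the item between `v` and `c`, `v` not on the axis -/
noncomputable def tt (S : Setup V) (v c : V) : ℝ :=
  if S.side c = 0 then S.X c else if S.side v = 1 then S.A v c else S.A c v

/-- the moment of a vertex `v` which is not on the axis -/
noncomputable def M [Fintype V] (S : Setup V) (φ : V → V → ℝ) (v : V) : ℝ :=
  ∑ c, S.tt v c * (φ v c - φ c v)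

/-- what the multipliers of the linear program satisfy -/
structure CoreHyp [Fintype V] (S : Setup V) (φ : V → V → ℝ) : Prop where
  face : ∀ a b c, S.T.F a b c → φ a b = φ b c
  zero : ∀ a b, ¬ S.T.Adj a b → φ a b = 0
  same : ∀ a b, S.T.Adj a b → S.side a = S.side b → φ a b = φ b a
  star : ∀ s b c b' c', S.side s = 0 → S.T.F s b c → S.T.F s b' c' → S.side b' ≠ S.side c' →
    φ s b ≤ φ s b'
  pl : ∀ v, S.T.Supp v → ¬ S.Outer v → S.side v = 1 → 0 ≤ S.M φ v
  mi : ∀ v, S.T.Supp v → ¬ S.Outer v → S.side v = -1 → S.M φ v ≤ 0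
  out : ∃ w : V → ℝ, (∀ v, 0 < w v) ∧
    0 ≤ w S.o1 * ((S.side S.o1 : ℝ) * S.M φ S.o1) + w S.o2 * ((S.side S.o2 : ℝ) * S.M φ S.o2)
      + w S.o3 * ((S.side S.o3 : ℝ) * S.M φ S.o3)

end Setup

end P4
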