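import Pool.Agent.Lib_MP_b306af.P4ZCore2
import Pool.Agent.Lib_MP_b306af.P4ZBond3
import Pool.Agent.Lib_MP_b306af.P4ZSeq1

/-! # MP_b306af Part IV: P4ZCore3 -/

namespace P4

variable {V : Type}

namespace Setup

theorem BondSeq.prv_eq [Fintype V] {S : Setup V} {φ : V → V → ℝ} (H : S.CoreHyp φ)
    (E : S.BondSeq) (r : ℕ) :
    prv E.m (fun r => φ (E.e r).1 (E.e r).2) r = φ (E.e r).2 (E.e r).1 := by
  unfold prv
  split_ifs with h
  · subst h
    rw [E.wrap]
    exact (succ_phi φ H.face _ (E.bond _)).symm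
  · obtain ⟨k, rfl⟩ : ∃ k, r = k + 1 := ⟨r - 1, by omega⟩
    rw [E.step k]
    exact (succ_phi φ H.face _ (E.bond _)).symm

end Setup

end P4
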