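import Pool.Agent.Lib_MP_b306af.P4ZCore3

/-! # MP_b306af Part IV: P4ZCore4 -/

namespace P4

variable {V : Type}

namespace Setup

/-- the outer vertices above the axis are the first and the last one -/
theorem BondSeq.outer_plus {S : Setup V} (E : S.BondSeq) (v : V) (hv : S.Outer v)
    (h1 : S.side v = 1) : v = (E.e 0).1 ∨ v = (E.e (E.m - 1)).1 := by
  have hw := E.wrap
  have ho := E.outer
  have hb := E.bond (E.m - 1)
  set e := E.e (E.m - 1)
  have h2 : v = e.1 ∨ v = e.2 ∨ v = S.T.nx e.1 e.2 := by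
    rcases hv with hv | hv | hv <;> rcases ho with ⟨a, b, c⟩ | ⟨a, b, c⟩ | ⟨a, b, c⟩ <;>
      rw [hv] <;> first
        | exact Or.inl a.symm
        | exact Or.inr (Or.inl b.symm)
        | exact Or.inr (Or.inr c.symm)
  rcases h2 with h2 | h2 | h2
  · exact Or.inr h2
  · exact absurd (h2 ▸ h1) hb.2.2
  · left
    rw [hw, succ, if_pos (h2 ▸ h1)]
    exact h2

theorem BondSeq.phi_last [Fintype V] {S : Setup V} {φ : V → V → ℝ} (H : S.CoreHyp φ)
    (hS : S.Good) (E : S.BondSeq) :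
    φ (E.e (E.m - 1)).1 (E.e (E.m - 1)).2 = φ S.o1 S.o2 := by
  have h1 := H.face _ _ _ hS.h0
  have h2 := H.face _ _ _ (S.T.cyc _ _ _ hS.h0)
  rcases E.outer with ⟨a, b, c⟩ | ⟨a, b, c⟩ | ⟨a, b, c⟩ <;> rw [a, b]
  · exact h1.symm
  · rw [h1, h2]

end Setup

end P4
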