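import Pool.Agent.Lib_MP_b306af.P4Corb
import Pool.Agent.Lib_MP_b306af.P4Cora

/-! # MP_b306af Part IV: P4ZCore5 -/

namespace P4

variable {V : Type}

namespace Setup

/-- in case D every face contains a bond edge (as the down-dart) of `S` or of its mirror -/
theorem exists_bond {S : Setup V} (hS : S.Good) (hD : S.NoMono) (a b c : V)
    (hF : S.T.F a b c) : ∃ x y z, S.T.F x y z ∧ Cyc3 x y z a b c ∧
      (S.IsBond (x, y) ∨ S.mirror.IsBond (y, x)) := by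
  have hm := hD a b c hF
  have i1 := hS.indep a b c hF
  have a1 : S.T.Adj a b := ⟨c, hF⟩
  have a2 : S.T.Adj b c := ⟨a, S.T.cyc _ _ _ hF⟩
  have a3 : S.T.Adj c a := ⟨b, S.T.cyc2 hF⟩
  have f2 := S.T.cyc _ _ _ hF
  have f3 := S.T.cyc2 hF
  have k1 : Cyc3 a b c a b c := Or.inl ⟨rfl, rfl, rfl⟩
  have k2 : Cyc3 b c a a b c := Or.inr (Or.inr ⟨rfl, rfl, rfl⟩)
  have k3 : Cyc3 c a b a b c := Or.inr (Or.inl ⟨rfl, rfl, rfl⟩)
  have key : ∀ x y z, S.T.F x y z → Cyc3 x y z a b c → S.T.Adj x y →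
      ((S.side x = 1 ∧ S.side y ≠ 1) ∨ (S.side x ≠ -1 ∧ S.side y = -1)) →
      ∃ x y z, S.T.F x y z ∧ Cyc3 x y z a b c ∧
      (S.IsBond (x, y) ∨ S.mirror.IsBond (y, x)) := by
    intro x y z h1 h2 h3 h4
    refine ⟨x, y, z, h1, h2, ?_⟩
    rcases h4 with ⟨h4, h5⟩ | ⟨h4, h5⟩
    · exact Or.inl ⟨h3, h4, h5⟩
    · right
      refine ⟨(S.T.mirror_Adj _ _).2 h3.symm, ?_, ?_⟩
      · show - S.side y = 1
        rw [h5]; decide
      · show - S.side x ≠ 1
        intro h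
        apply h4
        revert h
        generalize S.side x = t
        revert t
        decide
  have hall : ∀ p q r : SignType, (p = 0 → q ≠ 0) → ¬ (p = q ∧ q = r) →
      ((p = 1 ∧ q ≠ 1) ∨ (p ≠ -1 ∧ q = -1)) ∨ ((q = 1 ∧ r ≠ 1) ∨ (q ≠ -1 ∧ r = -1)) ∨
      ((r = 1 ∧ p ≠ 1) ∨ (r ≠ -1 ∧ p = -1)) := by decide
  rcases hall _ _ _ i1 hm with h | h | h
  · exact key a b c hF k1 a1 h
  · exact key b c a f2 k2 a2 h
  · exact key c a b f3 k3 a3 h

/-- a face function takes the same value on the three darts of a face -/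
theorem CoreHyp.cyc3 [Fintype V] {S : Setup V} {φ : V → V → ℝ} (H : S.CoreHyp φ) {x y z a b c : V}
    (hF : S.T.F x y z) (h : Cyc3 x y z a b c) : φ a b = φ x y := by
  have h1 := H.face _ _ _ hF
  have h2 := H.face _ _ _ (S.T.cyc _ _ _ hF)
  rcases h with ⟨rfl, rfl, rfl⟩ | ⟨rfl, rfl, rfl⟩ | ⟨rfl, rfl, rfl⟩
  · rfl
  · exact h1.symm
  · rw [h1, h2]

/-- the core lemma: the potential is constant -/
theorem core [Fintype V] {S : Setup V} (hS : S.Good) (hD : S.NoMono) {φ : V → V → ℝ}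
    (H : S.CoreHyp φ) : ∀ a b c, S.T.F a b c → φ a b = φ S.o1 S.o2 := by
  classical
  have hS' := mirror_good hS
  have H' := H.mirror
  -- the minimum over all darts
  obtain ⟨⟨p, q⟩, hpq, hmin⟩ := Set.exists_min_image {d : V × V | S.T.Adj d.1 d.2}
    (fun d => φ d.1 d.2) (Set.toFinite _) ⟨(S.o1, S.o2), ⟨S.o3, hS.h0⟩⟩
  obtain ⟨r, hr⟩ := hpq
  have hμ : ∀ a b c, S.T.F a b c → φ p q ≤ φ a b := fun a b c h => hmin (a, b) ⟨c, h⟩
  have ho : φ p q ≤ φ S.o1 S.o2 := hμ _ _ _ hS.h0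
  have ho' : φ S.mirror.o2 S.mirror.o1 = φ S.o1 S.o2 := rfl
  rcases ho.lt_or_eq with hlt | heq
  · exfalso
    obtain ⟨x, y, z, hF, hc, hb⟩ := exists_bond hS hD p q r hr
    have hval := H.cyc3 hF hc
    rcases hb with hb | hb
    · exact core_noB hS H (φ p q) hμ hlt _ hb hval.symm
    · refine core_noB hS' H' (φ p q) (fun a b c h => ?_) hlt _ hb hval.symm
      exact hmin (b, a) ⟨c, h⟩
  · intro a b c hF
    rw [heq] at hμ
    obtain ⟨x, y, z, hF', hc, hb⟩ := exists_bond hS hD a b c hF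
    rw [H.cyc3 hF' hc]
    rcases hb with hb | hb
    · exact core_allA hS H hμ _ hb
    · exact core_allA hS' H' (fun a b c h => hμ b a c h) _ hb

end Setup

end P4
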