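import Pool.Agent.Lib_MP_b306af.P4Cycle

/-! # Part IV: enumeration of a single cycle (pure combinatorics) -/
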