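import Pool.Agent.Lib_MP_b306af.P4ZDraw2
import Pool.Agent.Lib_MP_b306af.P4Outneg
import Pool.Agent.Lib_MP_b306af.P4Exout

/-! # Part IV: from the linear program to the drawing; orientation of the outer face -/
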