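import Pool.Agent.Lib_MP_b306af.P4Mult
import Pool.Agent.Lib_MP_b306af.P4Potm
import Pool.Agent.Lib_MP_b306af.P4Starm
import Pool.Agent.Lib_MP_b306af.P4Momm
import Pool.Agent.Lib_MP_b306af.P4ZCore5

/-! # MP_b306af Part IV: P4ZLP2 -/

namespace P4

open Finset

variable {V : Type}

namespace Setup

/-- the multipliers give the hypotheses of the core lemma, hence are trivial -/
theorem Mult.false [Fintype V] {S : Setup V} (hS : S.Good) (hD : S.NoMono) {y : V → ℝ}
    (hy : ∀ v, S.Outer v → S.side v ≠ 0 → SignType.sign (y v) = S.side v) (m : S.Mult y) :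
    False := by
  classical
  obtain ⟨φ, hφ, h0, h1, h2, h3⟩ := m.pot hS
  have hM := m.mom hS φ h0 h1 h2 h3
  have hstar := fun s (hs : S.side s = 0) => star_const (S := S) (φ := φ) m.nu hφ s
    (fun b hb => h3 s b hb hs)
  have hsgn : ∀ v, S.side v ≠ 0 → (S.side v : ℝ) * (S.side v : ℝ) = 1 := by
    intro v hv
    rcases hs : S.side v with _ | _ | _
    · exact absurd hs hv
    · norm_num
    · norm_num
  -- the outer sum
  have hne : S.o1 ≠ S.o2 ∧ S.o2 ≠ S.o3 ∧ S.o3 ≠ S.o1 :=
    ⟨S.T.ne _ _ _ hS.h0, S.T.ne _ _ _ (S.T.cyc _ _ _ hS.h0), S.T.ne _ _ _ (S.T.cyc2 hS.h0)⟩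
  have hyl : ∀ v, S.Outer v → |y v| * ((S.side v : ℝ) * S.M φ v) =
      |y v| * (|(S.side v : ℝ)| * m.xi v) + y v * m.l2 v := by
    intro v hv
    by_cases hs : S.side v = 0
    · have : m.l2 v = 0 := by
        by_contra h
        exact (m.l2_supp v h).2 hs
      rw [this, hs]; simp
    · rw [hM v hs]
      have h4 := hy v hv hs
      rcases hs' : S.side v with _ | _ | _
      · exact absurd hs' hs
      · rw [hs'] at h4
        have : y v < 0 := sign_eq_neg_one_iff.1 h4
        rw [abs_of_neg this]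
        simp
        ring
      · rw [hs'] at h4
        have : 0 < y v := sign_eq_one_iff.1 h4
        rw [abs_of_pos this]
        simp
        ring
  have hsum : ∑ v, y v * m.l2 v = y S.o1 * m.l2 S.o1 + y S.o2 * m.l2 S.o2
      + y S.o3 * m.l2 S.o3 := by
    have : ∑ v, y v * m.l2 v = ∑ v ∈ ({S.o1, S.o2, S.o3} : Finset V), y v * m.l2 v := by
      symm
      refine Finset.sum_subset (Finset.subset_univ _) ?_
      intro v _ hv
      by_cases h : m.l2 v = 0
      · rw [h, mul_zero]
      · exfalso
        apply hv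
        rcases (m.l2_supp v h).1 with h' | h' | h' <;> simp [h']
    rw [this, Finset.sum_insert, Finset.sum_insert, Finset.sum_singleton]
    · ring
    · simp [hne.2.1]
    · simp [hne.1, hne.2.2.symm]
  have hout : ∀ v, 0 ≤ |y v| * (|(S.side v : ℝ)| * m.xi v) := fun v =>
    mul_nonneg (abs_nonneg _) (mul_nonneg (abs_nonneg _) (m.xi_nn v))
  let w : V → ℝ := fun v => if S.Outer v ∧ S.side v ≠ 0 then |y v| else 1
  have hwpos : ∀ v, 0 < w v := by
    intro v
    have hwv : w v = if S.Outer v ∧ S.side v ≠ 0 then |y v| else 1 := rfl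
    rw [hwv]
    split_ifs with h
    · refine abs_pos.2 fun h' => ?_
      have h4 := hy v h.1 h.2
      rw [h', sign_zero] at h4
      exact h.2 h4.symm
    · exact one_pos
  have hw : ∀ v, S.Outer v → w v * ((S.side v : ℝ) * S.M φ v) =
      |y v| * ((S.side v : ℝ) * S.M φ v) := by
    intro v hv
    by_cases hs : S.side v = 0
    · rw [hs]; simp
    · have hwv : w v = if S.Outer v ∧ S.side v ≠ 0 then |y v| else 1 := rfl
      rw [hwv, if_pos ⟨hv, hs⟩]
  have ho1 : S.Outer S.o1 := Or.inl rfl
  have ho2 : S.Outer S.o2 := Or.inr (Or.inl rfl)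
  have ho3 : S.Outer S.o3 := Or.inr (Or.inr rfl)
  have htot : w S.o1 * ((S.side S.o1 : ℝ) * S.M φ S.o1) +
      w S.o2 * ((S.side S.o2 : ℝ) * S.M φ S.o2) + w S.o3 * ((S.side S.o3 : ℝ) * S.M φ S.o3)
      = |y S.o1| * (|(S.side S.o1 : ℝ)| * m.xi S.o1) +
        |y S.o2| * (|(S.side S.o2 : ℝ)| * m.xi S.o2) +
        |y S.o3| * (|(S.side S.o3 : ℝ)| * m.xi S.o3) + m.om := by
    rw [hw _ ho1, hw _ ho2, hw _ ho3, hyl _ ho1, hyl _ ho2, hyl _ ho3, m.eqw, hsum]
    ring
  have H : S.CoreHyp φ := by
    refine ⟨hφ, h0, h1, ?_, ?_, ?_, w, hwpos, ?_⟩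
    · intro s b c b' c' hs hF hF' hne'
      have h4 := hstar s hs b c b' c' hF hF'
      have h5 : m.nu s b' c' = 0 := by
        by_contra h
        exact hne' (m.nu_supp _ _ _ h).2.2
      have h6 := m.nu_nn s b c
      rw [h5] at h4
      linarith
    · intro v hv ho hs
      have h4 := hM v (by rw [hs]; decide)
      have h5 : m.l2 v = 0 := by
        by_contra h
        exact ho (m.l2_supp v h).1
      rw [h4, h5, hs]
      simpa using m.xi_nn v
    · intro v hv ho hs
      have h4 := hM v (by rw [hs]; decide)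
      have h5 : m.l2 v = 0 := by
        by_contra h
        exact ho (m.l2_supp v h).1
      rw [h4, h5, hs]
      simpa using m.xi_nn v
    · rw [htot]
      have e1 := hout S.o1
      have e2 := hout S.o2
      have e3 := hout S.o3
      have e4 := m.om_nn
      linarith
  have hc := core hS hD H
  have hc' : ∀ a b c, S.T.F a b c → φ b a = φ S.o1 S.o2 := by
    intro a b c hF
    obtain ⟨d, hd⟩ := S.T.opp _ _ _ hF
    exact hc _ _ _ hd
  have hM0 : ∀ v, S.M φ v = 0 := by
    intro v
    unfold M
    refine Finset.sum_eq_zero fun c _ => ?_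
    by_cases hadj : S.T.Adj v c
    · obtain ⟨d, hd⟩ := hadj
      rw [hc _ _ _ hd, hc' _ _ _ hd, sub_self, mul_zero]
    · rw [h0 _ _ hadj, h0 _ _ (fun h => hadj h.symm), sub_self, mul_zero]
  rw [hM0, hM0, hM0] at htot
  have e1 := hout S.o1
  have e2 := hout S.o2
  have e3 := hout S.o3
  have e4 := m.om_nn
  have hom : m.om = 0 := by
    simp only [mul_zero, add_zero] at htot
    linarith
  have hxo : ∀ v, |y v| * (|(S.side v : ℝ)| * m.xi v) = 0 → S.Outer v → S.side v ≠ 0 →
      m.xi v = 0 := by
    intro v h ho hs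
    have h4 := hwpos v
    have h5 : w v = |y v| := by
      have hwv : w v = if S.Outer v ∧ S.side v ≠ 0 then |y v| else 1 := rfl
      rw [hwv, if_pos ⟨ho, hs⟩]
    rw [h5] at h4
    have h6 : |(S.side v : ℝ)| = 1 := by
      have := hsgn v hs
      rcases hs' : S.side v with _ | _ | _
      · exact absurd hs' hs
      · norm_num
      · norm_num
    rw [h6, one_mul] at h
    rcases mul_eq_zero.1 h with h | h
    · exact absurd h h4.ne'
    · exact h
  rcases m.nontriv with ⟨v, hv⟩ | ⟨s, b, b', hn⟩ | h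
  · obtain ⟨hsup, hs⟩ := m.xi_supp v hv
    apply hv
    by_cases ho : S.Outer v
    · rcases ho with rfl | rfl | rfl
      · refine hxo _ ?_ ho1 hs
        simp only [mul_zero, add_zero] at htot
        linarith
      · refine hxo _ ?_ ho2 hs
        simp only [mul_zero, add_zero] at htot
        linarith
      · refine hxo _ ?_ ho3 hs
        simp only [mul_zero, add_zero] at htot
        linarith
    · have h4 := hM v hs
      have h5 : m.l2 v = 0 := by
        by_contra h
        exact ho (m.l2_supp v h).1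
      rw [hM0, h5, add_zero] at h4
      rcases mul_eq_zero.1 h4.symm with h | h
      · have := hsgn v hs
        rw [h] at this
        norm_num at this
      · exact h
  · obtain ⟨hF, hs, hbb⟩ := m.nu_supp _ _ _ hn
    -- there is a face at `s` with two different sides
    obtain ⟨x, hx, hx1⟩ := hS.nbr 1 (by decide) s ⟨_, _, hF⟩ hs
    obtain ⟨z, hz, hz1⟩ := hS.nbr (-1) (by decide) s ⟨_, _, hF⟩ hs
    by_cases hall : ∀ b c, S.T.F s b c → (S.side b = 1 → S.side c = 1)
    · have := S.T.link_fwd s (fun b => S.side b = 1) hall x z hx hz hx1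
      rw [hz1] at this
      exact absurd this (by decide)
    · obtain ⟨b1, c1, hF1, hb1, hc1⟩ : ∃ b c, S.T.F s b c ∧ S.side b = 1 ∧ S.side c ≠ 1 := by
        by_contra hcon
        apply hall
        intro b c h1 h2
        by_contra h3
        exact hcon ⟨b, c, h1, h2, h3⟩
      have h4 := hstar s hs b b' b1 c1 hF hF1
      have h5 : m.nu s b1 c1 = 0 := by
        by_contra h
        have := (m.nu_supp _ _ _ h).2.2
        rw [hb1] at this
        exact hc1 this.symm
      rw [h5, hc _ _ _ hF, hc _ _ _ hF1] at h4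
      apply hn
      linarith
  · exact h hom

/-- the linear program has a solution in case D -/
theorem lp_exists [Fintype V] {S : Setup V} (hS : S.Good) (hD : S.NoMono) {y : V → ℝ}
    (hy : ∀ v, S.Outer v → S.side v ≠ 0 → SignType.sign (y v) = S.side v) :
    ∃ p q, S.Sol y p q := by
  rcases sol_or_mult S y with h | ⟨⟨m⟩⟩
  · exact h
  · exact (m.false hS hD hy).elim

end Setup

end P4
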