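import Pool.Agent.Lib_MP_b306af.P4Soldraw
import Pool.Agent.Lib_MP_b306af.P4ZLP2

/-! # MP_b306af Part IV: P4ZDraw2 -/

namespace P4

variable {V : Type}

namespace Setup

/-- the theorem in case D -/
theorem iv_noMono [Finite V] {S : Setup V} (hS : S.Good) (hD : S.NoMono) : S.IV := by
  have := Fintype.ofFinite V
  intro Q hQ ε hε
  obtain ⟨p, q, h⟩ := lp_exists hS hD (y := fun v => 1 / (Q v).2) (by
    intro v hv hs
    have h1 := hQ.sgn v hv
    show SignType.sign (1 / (Q v).2) = _
    rw [← h1]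
    rcases lt_trichotomy (Q v).2 0 with h | h | h
    · rw [sign_neg h, sign_neg (one_div_neg.2 h)]
    · rw [h]; simp
    · rw [sign_pos h, sign_pos (one_div_pos.2 h)])
  exact sol_drawn hS hD hQ h ε hε

end Setup

end P4
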