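import Pool.Agent.Lib_MP_b306af.P4Defs

/-! # MP_b306af Part IV: P4ZFary2 -/

namespace P4

variable {V : Type}

open Classical in
/-- the setup with only `o1` above the axis -/
noncomputable def radialSetup (T : Tri V) (o1 o2 o3 : V) (L : V → ℝ) : Setup V where
  T := T
  side v := if v = o1 then 1 else -1
  o1 := o1
  o2 := o2
  o3 := o3
  A _ w := L w
  X _ := 0

end P4
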