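import Pool.Agent.Lib_MP_b306af.P4Fary
import Pool.Agent.Lib_MP_b306af.P4Spluncrossed
import Pool.Agent.Lib_MP_b306af.P4ZSplit

/-! # MP_b306af Part IV: P4ZFary3 -/

namespace P4

variable {V : Type}

namespace Setup

/-- the splitting step of the recursion -/
theorem iv_split [Finite V] {S : Setup V} (hS : S.Good) (t1 t2 t3 : V)
    (h12 : S.T.Adj t1 t2) (h23 : S.T.Adj t2 t3) (h31 : S.T.Adj t3 t1)
    (hn1 : ¬ S.T.F t1 t2 t3) (hn2 : ¬ S.T.F t2 t1 t3)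
    (IH : ∀ S' : Setup V, S'.Good → numF S'.T < numF S.T → S'.IV) : S.IV := by
  obtain ⟨a, b, c, J, hor, hsep, hout⟩ := exists_sep S.T t1 t2 t3 h12 h23 h31 S.o1 S.o2
  have hn : ¬ S.T.F b a c ∧ ¬ S.T.F a b c := by
    rcases hor with ⟨rfl, rfl, rfl⟩ | ⟨rfl, rfl, rfl⟩
    · exact ⟨hn2, hn1⟩
    · exact ⟨hn1, hn2⟩
  have hlt1 : numF hsep.tri < numF S.T := hsep.numF_lt hn.1
  have hlt2 : numF hsep.compl.tri < numF S.T := hsep.compl.numF_lt hn.2
  have hext : (S.ext hsep).IV := IH _ (ext_good hS hsep hout) hlt2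
  by_cases hp : S.side a = 1 ∨ S.side b = 1 ∨ S.side c = 1
  · by_cases hm : S.side a = -1 ∨ S.side b = -1 ∨ S.side c = -1
    · exact iv_crossed hS hsep hout hp hm hext (fun A hA => IH _ hA hlt1)
    · push Not at hm
      refine iv_uncrossed hS hsep hout (-1) (by decide) hm.1 hm.2.1 hm.2.2 hext ?_
      have hF : hsep.tri.F b a c := Or.inr (Or.inl ⟨rfl, rfl, rfl⟩)
      exact fary_of_iv _ _ _ _ hF (fun S' h1 h2 => IH S' h2 (h1 ▸ hlt1))
  · push Not at hp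
    refine iv_uncrossed hS hsep hout 1 (by decide) hp.1 hp.2.1 hp.2.2 hext ?_
    have hF : hsep.tri.F b a c := Or.inr (Or.inl ⟨rfl, rfl, rfl⟩)
    exact fary_of_iv _ _ _ _ hF (fun S' h1 h2 => IH S' h2 (h1 ▸ hlt1))

end Setup

end P4
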