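import Pool.Agent.Lib_MP_b306af.P4Defs

/-! # MP_b306af Part IV: P4ZFlip1 -/

namespace P4

variable {V : Type}

/-- faces after the flip of the edge `b c` (common edge of the faces `(a, b, c)` and
`(c, b, w)`) to the edge `a w` -/
def flipF (T : Tri V) (a b c w x y z : V) : Prop :=
  (T.F x y z ∧ ¬ Cyc3 a b c x y z ∧ ¬ Cyc3 c b w x y z) ∨ Cyc3 a b w x y z ∨
    Cyc3 a w c x y z

/-- hypotheses for a flip -/
structure FlipHyp (T : Tri V) (a b c w : V) : Prop where
  h1 : T.F a b c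
  h2 : T.F c b w
  ne : a ≠ w
  nadj : ¬ T.Adj a w

end P4
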