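import Pool.Agent.Lib_MP_b306af.P4Flb
import Pool.Agent.Lib_MP_b306af.P4Flt
import Pool.Agent.Lib_MP_b306af.P4Fle

/-! # MP_b306af Part IV: P4ZFlip2 -/

namespace P4

variable {V : Type}

/-- the flipped triangulation -/
def FlipHyp.tri {T : Tri V} {a b c w : V} (h : FlipHyp T a b c w) : Tri V where
  F := flipF T a b c w
  cyc := (flip_basic h).1
  uniq := (flip_basic h).2.1
  opp := (flip_basic h).2.2.1
  ne := (flip_basic h).2.2.2
  trans := fun P h1 h2 _ _ _ _ _ _ hF hF' hP => flip_trans h P h1 h2 _ _ _ _ _ _ hF hF' hP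
  exact := flip_exact h

/-- number of oriented faces inside one side -/
noncomputable def mono (T : Tri V) (side : V → SignType) : ℕ :=
  Set.ncard {t : V × V × V | T.F t.1 t.2.1 t.2.2 ∧ side t.1 = side t.2.1 ∧
    side t.2.1 = side t.2.2}

end P4
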