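import Pool.Agent.Lib_MP_b306af.P4ZFlip2

/-! # MP_b306af Part IV: P4ZFlip3 -/

namespace P4

variable {V : Type}

namespace Setup

open Classical in
/-- the flipped setup: the new crossing edge gets the label `τ` -/
noncomputable def flip (S : Setup V) {a b c w : V} (h : FlipHyp S.T a b c w) (τ : ℝ) : Setup V :=
  { S with T := h.tri, A := fun x y => if x = a ∧ y = w then τ else S.A x y }

end Setup

end P4
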