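import Pool.Agent.Lib_MP_b306af.P4Fln
import Pool.Agent.Lib_MP_b306af.P4Flgood
import Pool.Agent.Lib_MP_b306af.P4Fldraw
import Pool.Agent.Lib_MP_b306af.P4Top
import Pool.Agent.Lib_MP_b306af.P4Kfour
import Pool.Agent.Lib_MP_b306af.P4Kdraw
import Pool.Agent.Lib_MP_b306af.P4Kout
import Pool.Agent.Lib_MP_b306af.P4ZDraw1

/-! # MP_b306af Part IV: P4ZFlip4 -/

namespace P4

variable {V : Type}

namespace Setup

theorem adj_outer {S : Setup V} (hS : S.Good) {u w : V} (hu : S.Outer u) (hw : S.Outer w)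
    (hne : u ≠ w) : S.T.Adj u w := by
  have h1 : S.T.Adj S.o1 S.o2 := ⟨_, hS.h0⟩
  have h2 : S.T.Adj S.o2 S.o3 := ⟨_, S.T.cyc _ _ _ hS.h0⟩
  have h3 : S.T.Adj S.o3 S.o1 := ⟨_, S.T.cyc2 hS.h0⟩
  rcases hu with rfl | rfl | rfl <;> rcases hw with rfl | rfl | rfl <;>
    first
      | exact absurd rfl hne
      | exact h1
      | exact h2
      | exact h3
      | exact h1.symm
      | exact h2.symm
      | exact h3.symm

/-- one flip and the induction hypothesis -/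
theorem flip_one [Finite V] {S : Setup V} (hS : S.Good) (a b c w : V)
    (hF : S.T.F a b c) (hFa : S.T.F c b w)
    (ha : S.side a = 1) (hb : S.side b = 1) (hc : S.side c = 1)
    (hw : S.side w = -1) (ho : ¬ S.IsO c b w) (hna : ¬ S.T.Adj a w)
    (IH : ∀ S' : Setup V, S'.Good → numF S'.T = numF S.T →
      mono S'.T S'.side < mono S.T S.side → S'.IV)
    (Q : V → ℝ × ℝ) (hQ : S.OuterOK Q) (ε' : ℝ) (hε' : 0 < ε') :
    ∃ (h : FlipHyp S.T a b c w) (τ : ℝ) (P : V → ℝ × ℝ), (∀ v, S.Outer v → P v = Q v) ∧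
      (S.flip h τ).Drawn ε' P := by
  have hne : a ≠ w := by
    rintro rfl
    rw [ha] at hw
    exact absurd hw (by decide)
  have h : FlipHyp S.T a b c w := ⟨hF, hFa, hne, hna⟩
  have hlab : S.A b w < S.A c w := hS.lab2 w c b (S.T.cyc2 hFa)
    (fun hh => ho hh.rot) hw hc hb
  have hg := flip_good hS h ha hb hc hw ho ((S.A b w + S.A c w) / 2) (by linarith) (by linarith)
  have hiv : (S.flip h ((S.A b w + S.A c w) / 2)).IV := by
    refine IH _ hg h.numF_eq (h.mono_lt S.side (by rw [ha, hb]) (by rw [hb, hc]) ?_)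
    rw [hw, ha]; decide
  obtain ⟨P, hP1, hP2⟩ := hiv Q ⟨hQ.sgn, hQ.abs0, by
    intro u z hu hz h1 h2
    have hA : (S.flip h ((S.A b w + S.A c w) / 2)).A u z = S.A u z := by
      unfold flip
      refine if_neg ?_
      rintro ⟨rfl, rfl⟩
      exact hna (adj_outer hS hu hz hne)
    rw [hA]
    exact hQ.cross u z hu hz h1 h2⟩ ε' hε'
  exact ⟨h, _, P, hP1, hP2⟩

/-- the flip step of the recursion -/
theorem iv_flip [Finite V] {S : Setup V} (hS : S.Good) (a b c wa wb wc : V)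
    (hF : S.T.F a b c) (hFa : S.T.F c b wa) (hFb : S.T.F a c wb) (hFc : S.T.F b a wc)
    (ha : S.side a = 1) (hb : S.side b = 1) (hc : S.side c = 1)
    (hwa : S.side wa = -1) (hwb : S.side wb = -1) (hwc : S.side wc = -1)
    (hall : ∀ x y z, S.T.Adj x y → S.T.Adj y z → S.T.Adj z x → S.T.F x y z ∨ S.T.F y x z)
    (IH : ∀ S' : Setup V, S'.Good → numF S'.T = numF S.T →
      mono S'.T S'.side < mono S.T S.side → S'.IV) : S.IV := by
  obtain ⟨a', b', c', wa', wb', wc', ⟨hc1, hc2, hF', hFa', hFb', hFc'⟩, hoa, hob, hCC, hBB⟩ :=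
    exists_top hS a b c wa wb wc hF hFa hFb hFc ha hb hc hwa hwb hwc
  have ha' : S.side a' = 1 := by
    rcases hc1 with ⟨h1, h2, h3⟩ | ⟨h1, h2, h3⟩ | ⟨h1, h2, h3⟩ <;> rw [h1] <;> assumption
  have hb' : S.side b' = 1 := by
    rcases hc1 with ⟨h1, h2, h3⟩ | ⟨h1, h2, h3⟩ | ⟨h1, h2, h3⟩ <;> rw [h2] <;> assumption
  have hc' : S.side c' = 1 := by
    rcases hc1 with ⟨h1, h2, h3⟩ | ⟨h1, h2, h3⟩ | ⟨h1, h2, h3⟩ <;> rw [h3] <;> assumption
  have hwa' : S.side wa' = -1 := by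
    rcases hc2 with ⟨h1, h2, h3⟩ | ⟨h1, h2, h3⟩ | ⟨h1, h2, h3⟩ <;> rw [h1] <;> assumption
  have hwb' : S.side wb' = -1 := by
    rcases hc2 with ⟨h1, h2, h3⟩ | ⟨h1, h2, h3⟩ | ⟨h1, h2, h3⟩ <;> rw [h2] <;> assumption
  have hwc' : S.side wc' = -1 := by
    rcases hc2 with ⟨h1, h2, h3⟩ | ⟨h1, h2, h3⟩ | ⟨h1, h2, h3⟩ <;> rw [h3] <;> assumption
  have hnepm : ∀ x y, S.side x = -1 → S.side y = 1 → x ≠ y := by
    rintro x y h1 h2 rfl
    rw [h1] at h2
    exact absurd h2 (by decide)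
  by_cases hadj : S.T.Adj a' wa'
  · obtain ⟨e1, e2⟩ := kfour_struct S.T a' b' c' wa' wb' wc' hF' hFa' hFb' hFc'
      (hnepm _ _ hwa' hb') (hnepm _ _ hwa' hc') hall hadj
    subst e1
    subst e2
    rcases kfour_outer hS a' b' c' wa' hF' hFa' hFb' hFc' ha' hb' hc' hwa' with h | h | h
    · exact absurd h hoa
    · exact absurd h hob
    · exact kfour_iv hS a' b' c' wa' hF' hFa' hFb' hFc' ha' hb' hc' hwa' h
  · intro Q hQ ε hε
    -- choice of the precision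
    obtain ⟨ε', hε', hle, hC2, hB2⟩ : ∃ ε' : ℝ, 0 < ε' ∧ ε' ≤ ε ∧
        (wa' = wb' ∨ S.A c' wa' + 2 * ε' ≤ S.A c' wb') ∧
        (S.IsO b' a' wc' ∨ (¬ S.IsO b' a' wc' ∧
          (wc' = wa' ∨ S.A b' wc' + 2 * ε' ≤ S.A b' wa'))) := by
      have e1 : ∃ δ : ℝ, 0 < δ ∧ (wa' = wb' ∨ S.A c' wa' + 2 * δ ≤ S.A c' wb') := by
        rcases hCC with h | h
        · exact ⟨1, one_pos, Or.inl h⟩
        · exact ⟨(S.A c' wb' - S.A c' wa') / 2, by linarith, Or.inr (by linarith)⟩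
      have e2 : ∃ δ : ℝ, 0 < δ ∧ (S.IsO b' a' wc' ∨ (¬ S.IsO b' a' wc' ∧
          (wc' = wa' ∨ S.A b' wc' + 2 * δ ≤ S.A b' wa'))) := by
        rcases hBB with h | ⟨h0, h | h⟩
        · exact ⟨1, one_pos, Or.inl h⟩
        · exact ⟨1, one_pos, Or.inr ⟨h0, Or.inl h⟩⟩
        · exact ⟨(S.A b' wa' - S.A b' wc') / 2, by linarith,
            Or.inr ⟨h0, Or.inr (by linarith)⟩⟩
      obtain ⟨δ1, p1, q1⟩ := e1
      obtain ⟨δ2, p2, q2⟩ := e2
      refine ⟨min ε (min δ1 δ2), lt_min hε (lt_min p1 p2), min_le_left _ _, ?_, ?_⟩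
      · have : min ε (min δ1 δ2) ≤ δ1 := (min_le_right _ _).trans (min_le_left _ _)
        rcases q1 with h | h
        · exact Or.inl h
        · exact Or.inr (by linarith)
      · have : min ε (min δ1 δ2) ≤ δ2 := (min_le_right _ _).trans (min_le_right _ _)
        rcases q2 with h | ⟨h0, h | h⟩
        · exact Or.inl h
        · exact Or.inr ⟨h0, Or.inl h⟩
        · exact Or.inr ⟨h0, Or.inr (by linarith)⟩
    rcases hB2 with hO | hB2
    · -- `a'` and `b'` are outer vertices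
      have hoa' : S.Outer a' := by
        rcases hO with ⟨h1, h2, h3⟩ | ⟨h1, h2, h3⟩ | ⟨h1, h2, h3⟩
        · exact Or.inr (Or.inl h2)
        · exact Or.inr (Or.inr h2)
        · exact Or.inl h2
      have hob' : S.Outer b' := by
        rcases hO with ⟨h1, h2, h3⟩ | ⟨h1, h2, h3⟩ | ⟨h1, h2, h3⟩
        · exact Or.inl h1
        · exact Or.inr (Or.inl h1)
        · exact Or.inr (Or.inr h1)
      rcases le_total (Q b').2 (Q a').2 with hle' | hle'
      · obtain ⟨h, τ, P, hP1, hP2⟩ := flip_one hS a' b' c' wa' hF' hFa' ha' hb' hc' hwa' hoa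
          hadj IH Q hQ ε' hε'
        refine ⟨P, hP1, flip_drawn hS h ha' hb' hc' hwa' hoa τ ε ε' hle P hP2 wb' wc' hFb' hFc'
          hwb' hwc' (Or.inl ?_) (Or.inr ⟨hob, hC2⟩) (Or.inr ⟨hob, hC2⟩)⟩
        rw [hP1 _ hoa', hP1 _ hob']
        exact hle'
      · have hadj' : ¬ S.T.Adj b' wb' := by
          intro hh
          obtain ⟨e1, e2⟩ := kfour_struct S.T b' c' a' wb' wc' wa' (S.T.cyc _ _ _ hF') hFb'
            hFc' hFa' (hnepm _ _ hwb' hc') (hnepm _ _ hwb' ha') hall hh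
          apply hadj
          rw [← e2, e1]
          exact ⟨b', S.T.cyc _ _ _ hFc'⟩
        obtain ⟨h, τ, P, hP1, hP2⟩ := flip_one hS b' c' a' wb' (S.T.cyc _ _ _ hF') hFb' hb' hc'
          ha' hwb' hob hadj' IH Q hQ ε' hε'
        refine ⟨P, hP1, flip_drawn hS h hb' hc' ha' hwb' hob τ ε ε' hle P hP2 wc' wa' hFc' hFa'
          hwc' hwa' (Or.inr ⟨hoa, hC2⟩) (Or.inl ?_) (Or.inl ⟨hoa, hC2⟩)⟩
        rw [hP1 _ hoa', hP1 _ hob']
        exact hle'
    · obtain ⟨h, τ, P, hP1, hP2⟩ := flip_one hS a' b' c' wa' hF' hFa' ha' hb' hc' hwa' hoa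
        hadj IH Q hQ ε' hε'
      exact ⟨P, hP1, flip_drawn hS h ha' hb' hc' hwa' hoa τ ε ε' hle P hP2 wb' wc' hFb' hFc'
        hwb' hwc' (Or.inr hB2) (Or.inr ⟨hob, hC2⟩) (Or.inl hB2)⟩

end Setup

end P4
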