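import Pool.Agent.Lib_MP_b306af.P4Defs

/-! # MP_b306af Part IV: P4ZFree1 -/

namespace P4

variable {V : Type}

namespace Setup

/-- relabelling by an increasing function -/
def relabel (S : Setup V) (g : ℝ → ℝ) : Setup V :=
  { S with A := fun u w => g (S.A u w), X := fun v => g (S.X v) }

theorem relabel_good {S : Setup V} (hS : S.Good) (g : ℝ → ℝ) (hg : StrictMono g) :
    (S.relabel g).Good where
  h0 := hS.h0
  plus0 := hS.plus0
  minus0 := hS.minus0
  indep := hS.indep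
  conn := hS.conn
  nbr := hS.nbr
  lab1 := fun u w w' h1 h2 h3 h4 h5 => hg (hS.lab1 u w w' h1 h2 h3 h4 h5)
  lab2 := fun u w w' h1 h2 h3 h4 h5 => hg (hS.lab2 u w w' h1 h2 h3 h4 h5)
  lab3 := fun u w w' h1 h2 h3 h4 h5 => hg (hS.lab3 u w w' h1 h2 h3 h4 h5)
  lab4 := fun u w w' h1 h2 h3 h4 h5 => hg (hS.lab4 u w w' h1 h2 h3 h4 h5)

end Setup

end P4
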