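import Pool.Agent.Lib_MP_b306af.P4ZFlip4
import Pool.Agent.Lib_MP_b306af.P4Contract
import Pool.Agent.Lib_MP_b306af.P4Mirnum
import Pool.Agent.Lib_MP_b306af.P4Miriv
import Pool.Agent.Lib_MP_b306af.P4Mirgood
import Pool.Agent.Lib_MP_b306af.P4ZDraw2
import Pool.Agent.Lib_MP_b306af.P4ZFary3

/-! # MP_b306af Part IV: P4ZMain1 -/

namespace P4

variable {V : Type}

namespace Setup

/-- an edge inside the upper side whose two faces are not crossed is not an outer edge -/
theorem not_both_outer {S : Setup V} (hS : S.Good) (u v x y : V) (hx : S.T.F u v x)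
    (hy : S.T.F v u y) (hu : S.side u = 1) (hv : S.side v = 1) (hxs : S.side x ≠ -1)
    (hys : S.side y ≠ -1) : ¬ (S.Outer u ∧ S.Outer v) := by
  rintro ⟨h1, h2⟩
  have hne := S.T.ne _ _ _ hx
  have f1 := hS.h0
  have f2 := S.T.cyc _ _ _ f1
  have f3 := S.T.cyc2 f1
  obtain ⟨z, hz, hzm⟩ := hS.minus0
  have key : ∀ a b c, S.T.F a b c → (z = a ∨ z = b ∨ z = c) → (u = a ∧ v = b) ∨ (u = b ∧ v = a) →
      False := by
    intro a b c hF hzz huv
    rcases huv with ⟨rfl, rfl⟩ | ⟨rfl, rfl⟩
    · have := S.T.uniq _ _ _ _ hx hF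
      subst this
      rcases hzz with rfl | rfl | rfl
      · rw [hu] at hzm; exact absurd hzm (by decide)
      · rw [hv] at hzm; exact absurd hzm (by decide)
      · exact hxs hzm
    · have := S.T.uniq _ _ _ _ hy hF
      subst this
      rcases hzz with rfl | rfl | rfl
      · rw [hv] at hzm; exact absurd hzm (by decide)
      · rw [hu] at hzm; exact absurd hzm (by decide)
      · exact hys hzm
  have hz1 : z = S.o1 ∨ z = S.o2 ∨ z = S.o3 := hz
  rcases h1 with rfl | rfl | rfl <;> rcases h2 with rfl | rfl | rfl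
  · exact hne rfl
  · exact key _ _ _ f1 hz1 (Or.inl ⟨rfl, rfl⟩)
  · exact key _ _ _ f3 (by tauto) (Or.inr ⟨rfl, rfl⟩)
  · exact key _ _ _ f1 hz1 (Or.inr ⟨rfl, rfl⟩)
  · exact hne rfl
  · exact key _ _ _ f2 (by tauto) (Or.inl ⟨rfl, rfl⟩)
  · exact key _ _ _ f3 (by tauto) (Or.inl ⟨rfl, rfl⟩)
  · exact key _ _ _ f2 (by tauto) (Or.inr ⟨rfl, rfl⟩)
  · exact hne rfl

/-- contraction in either direction -/
theorem iv_contract' [Finite V] {S : Setup V} (hS : S.Good) (u v x y : V)
    (hx : S.T.F u v x) (hy : S.T.F v u y) (hu : S.side u = 1) (hv : S.side v = 1)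
    (hxs : S.side x ≠ -1) (hys : S.side y ≠ -1)
    (hall : ∀ x y z, S.T.Adj x y → S.T.Adj y z → S.T.Adj z x → S.T.F x y z ∨ S.T.F y x z)
    (IH : ∀ S' : Setup V, S'.Good → numF S'.T < numF S.T → S'.IV) : S.IV := by
  have hsep : ∀ z, S.T.Adj u z → S.T.Adj v z → z = x ∨ z = y := by
    intro z h1 h2
    rcases hall u v z ⟨_, hx⟩ h2 h1.symm with h | h
    · exact Or.inl (S.T.uniq _ _ _ _ h hx)
    · exact Or.inr (S.T.uniq _ _ _ _ h hy)
  by_cases hou : S.Outer u
  · have hov : ¬ S.Outer v := fun h => not_both_outer hS u v x y hx hy hu hv hxs hys ⟨hou, h⟩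
    exact iv_contract hS v u y x hy hx hv hu hys hxs hov
      (fun z h1 h2 => (hsep z h2 h1).symm) IH
  · exact iv_contract hS u v x y hx hy hu hv hxs hys hou hsep IH

/-- a face above the axis: contract or flip -/
theorem iv_mono [Finite V] {S : Setup V} (hS : S.Good) (a b c : V) (hF : S.T.F a b c)
    (ha : S.side a = 1) (hb : S.side b = 1) (hc : S.side c = 1)
    (hall : ∀ x y z, S.T.Adj x y → S.T.Adj y z → S.T.Adj z x → S.T.F x y z ∨ S.T.F y x z)
    (IH1 : ∀ S' : Setup V, S'.Good → numF S'.T < numF S.T → S'.IV)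
    (IH2 : ∀ S' : Setup V, S'.Good → numF S'.T = numF S.T →
      mono S'.T S'.side < mono S.T S.side → S'.IV) : S.IV := by
  have f2 := S.T.cyc _ _ _ hF
  have f3 := S.T.cyc2 hF
  obtain ⟨wc, hwc⟩ := S.T.opp _ _ _ hF
  obtain ⟨wa, hwa⟩ := S.T.opp _ _ _ f2
  obtain ⟨wb, hwb⟩ := S.T.opp _ _ _ f3
  have h1 : (1 : SignType) ≠ -1 := by decide
  by_cases ka : S.side wa = -1
  · by_cases kb : S.side wb = -1
    · by_cases kc : S.side wc = -1
      · exact iv_flip hS a b c wa wb wc hF hwa hwb hwc ha hb hc ka kb kc hall IH2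
      · exact iv_contract' hS a b c wc hF hwc ha hb (hc ▸ h1) kc hall IH1
    · exact iv_contract' hS c a b wb f3 hwb hc ha (hb ▸ h1) kb hall IH1
  · exact iv_contract' hS b c a wa f2 hwa hb hc (ha ▸ h1) ka hall IH1

/-- **Part IV**: every good setup can be drawn -/
theorem iv_all [Finite V] (S : Setup V) (hS : S.Good) : S.IV := by
  suffices H : ∀ n k, ∀ S : Setup V, S.Good → numF S.T = n → mono S.T S.side = k → S.IV from
    H _ _ S hS rfl rfl
  intro n
  induction n using Nat.strong_induction_on with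
  | _ n IHn =>
  intro k
  induction k using Nat.strong_induction_on with
  | _ k IHk =>
  intro S hS hn hk
  have IH1 : ∀ S' : Setup V, S'.Good → numF S'.T < numF S.T → S'.IV :=
    fun S' h1 h2 => IHn _ (hn ▸ h2) _ S' h1 rfl rfl
  have IH2 : ∀ S' : Setup V, S'.Good → numF S'.T = numF S.T →
      mono S'.T S'.side < mono S.T S.side → S'.IV :=
    fun S' h1 h2 h3 => IHk _ (hk ▸ h3) S' h1 (h2.trans hn) rfl
  by_cases hall : ∀ x y z, S.T.Adj x y → S.T.Adj y z → S.T.Adj z x →
      S.T.F x y z ∨ S.T.F y x z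
  · by_cases hD : S.NoMono
    · exact iv_noMono hS hD
    · unfold NoMono at hD
      push Not at hD
      obtain ⟨a, b, c, hF, h1, h2⟩ := hD
      rcases hs : S.side a with _ | _ | _
      · exact absurd (h1.symm.trans hs) (hS.indep a b c hF hs)
      · -- below: use the mirror image
        have e1 : S.mirror.side a = 1 := by
          show - S.side a = 1
          rw [hs]; decide
        have e2 : S.mirror.side b = 1 := by
          show - S.side b = 1
          rw [← h1, hs]; decide
        have e3 : S.mirror.side c = 1 := by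
          show - S.side c = 1
          rw [← h2, ← h1, hs]; decide
        refine mirror_iv (iv_mono (mirror_good hS) b a c hF e2 e1 e3 ?_ ?_ ?_)
        · intro x y z k1 k2 k3
          rcases hall x y z ((S.T.mirror_Adj _ _).1 k1) ((S.T.mirror_Adj _ _).1 k2)
            ((S.T.mirror_Adj _ _).1 k3) with h | h
          · exact Or.inr h
          · exact Or.inl h
        · intro S' k1 k2
          exact IH1 S' k1 (by
            have : numF S.mirror.T = numF S.T := mirror_numF S.T
            omega)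
        · intro S' k1 k2 k3
          have e4 : numF S.mirror.T = numF S.T := mirror_numF S.T
          exact IH2 S' k1 (k2.trans e4) (by rw [mirror_mono] at k3; exact k3)
      · exact iv_mono hS a b c hF hs (h1 ▸ hs) (h2 ▸ h1 ▸ hs) hall IH1 IH2
  · push Not at hall
    obtain ⟨t1, t2, t3, h12, h23, h31, hn1, hn2⟩ := hall
    exact iv_split hS t1 t2 t3 h12 h23 h31 hn1 hn2 IH1

end Setup

end P4
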