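import Pool.Agent.Lib_MP_b306af.P4Interp
import Pool.Agent.Lib_MP_b306af.P4ZFree1
import Pool.Agent.Lib_MP_b306af.P4Lift
import Pool.Agent.Lib_MP_b306af.P4ZMain1
import Pool.Agent.Lib_MP_b306af.P4Exout
import Pool.Agent.Lib_MP_b306af.P4Outneg

/-! # MP_b306af Part IV: P4ZFree2 -/

namespace P4

variable {V : Type}

namespace Setup

/-- **Part IV**: the vertices on the axis, in the order of their labels, can be placed at
arbitrary points with increasing abscissas -/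
theorem partIV [Finite V] (S : Setup V) (hS : S.Good) (n : ℕ) (s : Fin n → V)
    (hsupp : ∀ i, S.T.Supp (s i)) (hs0 : ∀ i, S.side (s i) = 0)
    (hX : StrictMono fun i => S.X (s i)) (x y : Fin n → ℝ) (hx : StrictMono x) :
    ∃ P : V → ℝ × ℝ, (∀ i, P (s i) = (x i, y i)) ∧
      det3 (P S.o1) (P S.o2) (P S.o3) < 0 ∧
      ∀ a b c, S.T.F a b c → ¬ Cyc3 S.o1 S.o2 S.o3 a b c → 0 < det3 (P a) (P b) (P c) := by
  obtain ⟨g, hg, hgx⟩ := exists_interp n _ x hX hx
  have hG := relabel_good hS g hg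
  obtain ⟨Q, hQ⟩ := exists_outerOK hG
  obtain ⟨P, hP1, hP2⟩ := iv_all _ hG Q hQ 1 one_pos
  have hneg := outer_neg hG hQ
  have e1 : P S.o1 = Q S.o1 := hP1 _ (Or.inl rfl)
  have e2 : P S.o2 = Q S.o2 := hP1 _ (Or.inr (Or.inl rfl))
  have e3 : P S.o3 = Q S.o3 := hP1 _ (Or.inr (Or.inr rfl))
  refine lift_axis S.T S.o1 S.o2 S.o3 P ?_ hP2.pos n s ?_ x y ?_
  · rw [e1, e2, e3]
    exact hneg
  · intro i j hij
    exact hX.injective (congrArg S.X hij)
  · intro i
    have h1 := hP2.sgn (s i) (hsupp i)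
    have h2 := hP2.abs0 (s i) (hsupp i) (hs0 i)
    have h3 : (S.relabel g).side (s i) = 0 := hs0 i
    rw [h3] at h1
    refine Prod.ext ?_ (sign_eq_zero_iff.1 h1)
    rw [h2]
    exact hgx i

end Setup

end P4
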