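import Pool.Agent.Lib_MP_b306af.P4Geoa
import Pool.Agent.Lib_MP_b306af.P4Geob
import Pool.Agent.Lib_MP_b306af.P4Geoc
import Pool.Agent.Lib_MP_b306af.P4ZGeo2
import Pool.Agent.Lib_MP_b306af.P4Geod
import Pool.Agent.Lib_MP_b306af.P4Geoe

/-! # Part IV: elementary geometry -/
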