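import Pool.Agent.Lib_MP_b306af.P4Defs

/-! # MP_b306af Part IV: P4ZGeo1 -/

namespace P4

theorem det3_rot (P Q R : ℝ × ℝ) : det3 P Q R = det3 Q R P := by
  unfold det3; ring

theorem det3_rot' (P Q R : ℝ × ℝ) : det3 P Q R = det3 R P Q := by
  unfold det3; ring

theorem det3_swap (P Q R : ℝ × ℝ) : det3 Q P R = - det3 P Q R := by
  unfold det3; ring

end P4
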