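import Pool.Agent.Lib_MP_b306af.P4ZBond2

/-! # MP_b306af Part IV: existence of labels, definitions -/

namespace P4

variable {V : Type}

namespace Setup

/-- the conditions of `Good` which do not mention the labels -/
structure Pre0 (S : Setup V) : Prop where
  h0 : S.T.F S.o1 S.o2 S.o3
  plus0 : ∃ v, S.Outer v ∧ S.side v = 1
  minus0 : ∃ v, S.Outer v ∧ S.side v = -1
  indep : ∀ a b c, S.T.F a b c → S.side a = 0 → S.side b ≠ 0
  conn : ∀ σ : SignType, σ ≠ 0 → ∀ P : V → Prop,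
    (∀ a b c, S.T.F a b c → S.side a = σ → S.side b = σ → P a → P b) →
    ∀ a b, S.T.Supp a → S.T.Supp b → S.side a = σ → S.side b = σ → P a → P b
  nbr : ∀ σ : SignType, σ ≠ 0 → ∀ s, S.T.Supp s → S.side s = 0 →
    ∃ x, S.T.Adj s x ∧ S.side x = σ

theorem Good.pre0 {S : Setup V} (hS : S.Good) : S.Pre0 :=
  ⟨hS.h0, hS.plus0, hS.minus0, hS.indep, hS.conn, hS.nbr⟩

end Setup

end P4
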