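import Pool.Agent.Lib_MP_b306af.P4Lbtr
import Pool.Agent.Lib_MP_b306af.P4Lblast

/-! # MP_b306af Part IV: bond sequence without labels -/

namespace P4

variable {V : Type}

namespace Setup

theorem exists_bondSeq0 [Finite V] (S : Setup V) (hS : S.Pre0) : Nonempty S.BondSeq := by
  obtain ⟨u, c, x, hb, hF, hO, huniq⟩ := S.exists_last0 hS
  obtain ⟨m, e, hm, he0, hem, hst, hB, hinj, hsurj⟩ := enum_cycle S.IsBond S.succ
    (fun e he => S.succ_bond he) (fun R hR => S.bond_trans0 hS R hR) (u, c) hb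
  have hx : S.T.nx u c = x := S.T.nx_eq hF
  refine ⟨⟨m, e, hm, hB, hinj, hsurj, hst, by rw [hem]; exact he0, ?_, ?_⟩⟩
  · intro r hr hO'
    have h1 := huniq (e r).1 (e r).2 _ (hB r) hO'
    have h2 : e r = e (m - 1) := by
      rw [hem]; exact Prod.ext h1.1 h1.2
    have := hinj r (by omega) (m - 1) (by omega) h2
    omega
  · rw [hem]
    show S.IsO u c (S.T.nx u c)
    rw [hx]; exact hO

end Setup

end P4
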