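import Pool.Agent.Lib_MP_b306af.P4ZMain1

/-! # Part IV: the recursion -/
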