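import Pool.Agent.Lib_MP_b306af.P4Defs

/-! # MP_b306af Part IV: P4ZSplit1 -/

namespace P4

variable {V : Type}

/-- `J` is the set of (darts of) faces on the left of the closed walk `a b c` -/
structure Sep (T : Tri V) (a b c : V) (J : V → V → Prop) : Prop where
  hab : T.Adj a b
  hbc : T.Adj b c
  hca : T.Adj c a
  face : ∀ x y z, T.F x y z → J x y → J y z
  edge : ∀ x y, T.Adj x y → J x y → ¬ J y x →
    (x = a ∧ y = b) ∨ (x = b ∧ y = c) ∨ (x = c ∧ y = a)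
  ab : J a b
  bc : J b c
  ca : J c a
  ba : ¬ J b a
  cb : ¬ J c b
  ac : ¬ J a c

/-- the other side -/
theorem Sep.compl {T : Tri V} {a b c : V} {J : V → V → Prop} (h : Sep T a b c J) :
    Sep T b a c (fun x y => ¬ J x y) where
  hab := h.hab.symm
  hbc := h.hca.symm
  hca := h.hbc.symm
  face x y z hF hJ hJ' := hJ (h.face _ _ _ (T.cyc2 hF) (h.face _ _ _ (T.cyc _ _ _ hF) hJ'))
  edge x y hadj hJ hJ' := by
    rcases h.edge y x hadj.symm (not_not.1 hJ') hJ with ⟨h1, h2⟩ | ⟨h1, h2⟩ | ⟨h1, h2⟩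
    · exact Or.inl ⟨h2, h1⟩
    · exact Or.inr (Or.inr ⟨h2, h1⟩)
    · exact Or.inr (Or.inl ⟨h2, h1⟩)
  ab := h.ba
  bc := h.ac
  ca := h.cb
  ba h' := h' h.ab
  cb h' := h' h.ca
  ac h' := h' h.bc

end P4
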