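import Pool.Agent.Lib_MP_b306af.P4Spluniq
import Pool.Agent.Lib_MP_b306af.P4Spltrans
import Pool.Agent.Lib_MP_b306af.P4Splexact

/-! # MP_b306af Part IV: P4ZSplit3 -/

namespace P4

variable {V : Type}

/-- one side of the triangle as a triangulation -/
def Sep.tri {T : Tri V} {a b c : V} {J : V → V → Prop} (h : Sep T a b c J) : Tri V where
  F := splitF T a b c J
  cyc := (split_basic h).1
  uniq := (split_basic h).2.1
  opp := (split_basic h).2.2.1
  ne := (split_basic h).2.2.2
  trans := fun P h1 h2 _ _ _ _ _ _ hF hF' hP => split_trans h P h1 h2 _ _ _ _ _ _ hF hF' hP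
  exact := split_exact h

end P4
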