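import Pool.Agent.Lib_MP_b306af.PPDefs

/-! # MP_b306af: crossing numbers of a vertical ray with a triangle -/

namespace B306

theorem sg_swap (q a b : Pl) : sg q b a = - sg q a b := by
  unfold sg
  have e : D b a q = - D a b q := D_swap b a q
  rw [e]
  by_cases h1 : a.1 < q.1 ∧ q.1 < b.1
  · have h2 : ¬ (b.1 < q.1 ∧ q.1 < a.1) := by rintro ⟨h, -⟩; linarith [h1.2]
    have h3 : ¬ (b.1 < q.1) := by linarith [h1.2]
    simp [h1.1, h1.2, h3]
    split_ifs <;> simp
  · by_cases h2 : b.1 < q.1 ∧ q.1 < a.1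
    · have h3 : ¬ (a.1 < q.1) := by linarith [h2.2]
      simp [h2.1, h2.2, h3]
      split_ifs <;> simp
    · have h3 : ∀ P : Prop, ¬ (a.1 < q.1 ∧ q.1 < b.1 ∧ P) := fun P h => h1 ⟨h.1, h.2.1⟩
      have h4 : ∀ P : Prop, ¬ (b.1 < q.1 ∧ q.1 < a.1 ∧ P) := fun P h => h2 ⟨h.1, h.2.1⟩
      simp [h3, h4]

open Classical in
theorem tri_sg {a b c q : Pl} (h : 0 < D a b c) (ha : q.1 ≠ a.1) (hb : q.1 ≠ b.1) (hc : q.1 ≠ c.1)
    (h1 : D a b q ≠ 0) (h2 : D b c q ≠ 0) (h3 : D c a q ≠ 0) :
    sg q a b + sg q b c + sg q c a = if InT a b c q then -1 else 0 := by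
  have hs : 0 < D a b q + D b c q + D c a q := by rw [← D_split]; exact h
  have hz : D b c q * (a.1 - q.1) + D c a q * (b.1 - q.1) + D a b q * (c.1 - q.1) = 0 := by
    unfold D; ring
  unfold sg InT
  generalize D a b q = d1 at *
  generalize D b c q = d2 at *
  generalize D c a q = d3 at *
  generalize a.1 = x at *
  generalize b.1 = y at *
  generalize c.1 = z at *
  generalize q.1 = w at *
  have key : ∀ s t : ℝ, (0 < s → 0 < t → 0 < s * t) ∧ (s < 0 → t < 0 → 0 < s * t) ∧
      (0 < s → t < 0 → s * t < 0) ∧ (s < 0 → 0 < t → s * t < 0) := fun s t =>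
    ⟨fun a b => mul_pos a b, fun a b => mul_pos_of_neg_of_neg a b,
      fun a b => mul_neg_of_pos_of_neg a b, fun a b => mul_neg_of_neg_of_pos a b⟩
  have k1 := key d2 (x - w)
  have k2 := key d3 (y - w)
  have k3 := key d1 (z - w)
  rcases lt_or_gt_of_ne h1 with g1 | g1 <;> rcases lt_or_gt_of_ne h2 with g2 | g2 <;>
  rcases lt_or_gt_of_ne h3 with g3 | g3 <;> rcases lt_or_gt_of_ne ha with g4 | g4 <;>
  rcases lt_or_gt_of_ne hb with g5 | g5 <;> rcases lt_or_gt_of_ne hc with g6 | g6 <;>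
  simp only [g1, g2, g3, g4, g5, g6, not_lt.2 g1.le, not_lt.2 g2.le, not_lt.2 g3.le,
    not_lt.2 g4.le, not_lt.2 g5.le, not_lt.2 g6.le, true_and, and_true, false_and, and_false,
    if_true, if_false, and_self] <;>
  first
  | norm_num; done
  | (exfalso
     have g4' := sub_pos.2 g4
     have g5' := sub_pos.2 g5
     have g6' := sub_pos.2 g6
     have f4 : 0 < x - w ∨ x - w < 0 := by first | (left; linarith) | (right; linarith)
     have f5 : 0 < y - w ∨ y - w < 0 := by first | (left; linarith) | (right; linarith)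
     have f6 : 0 < z - w ∨ z - w < 0 := by first | (left; linarith) | (right; linarith)
     rcases f4 with f4 | f4 <;> rcases f5 with f5 | f5 <;> rcases f6 with f6 | f6 <;>
     first
     | linarith
     | (have m1 : 0 < d2 * (x - w) ∨ d2 * (x - w) < 0 := by
          first
          | exact Or.inl (k1.1 g2 f4)
          | exact Or.inl (k1.2.1 g2 f4)
          | exact Or.inr (k1.2.2.1 g2 f4)
          | exact Or.inr (k1.2.2.2 g2 f4)
        have m2 : 0 < d3 * (y - w) ∨ d3 * (y - w) < 0 := by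
          first
          | exact Or.inl (k2.1 g3 f5)
          | exact Or.inl (k2.2.1 g3 f5)
          | exact Or.inr (k2.2.2.1 g3 f5)
          | exact Or.inr (k2.2.2.2 g3 f5)
        have m3 : 0 < d1 * (z - w) ∨ d1 * (z - w) < 0 := by
          first
          | exact Or.inl (k3.1 g1 f6)
          | exact Or.inl (k3.2.1 g1 f6)
          | exact Or.inr (k3.2.2.1 g1 f6)
          | exact Or.inr (k3.2.2.2 g1 f6)
        nlinarith [k1, k2, k3]))

end B306
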