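import Pool.Agent.Lib_MP_b306af.PPA

/-! # MP_b306af: every generic point is in at most one inner face -/

namespace B306

variable {V : Type}

/- Piece PPB.  Let `S = {t : V × V × V | F t.1 t.2.1 t.2.2}` (finite).  `∑_{t ∈ S} sg q (P a) (P b) = 0`:
the involution on darts `(a, b) ↦ (b, a)` gives an involution of `S` (`(a, b, c) ↦ (b, a, d)` with
`F b a d`, `opp`, `uniq`), without fixed points, changing the sign (`Finset.sum_involution` in `ℤ`: it
wants `f t + f (g t) = 0` and `f t ≠ 0 → g t ≠ t`).  The rotation `(a, b, c) ↦ (b, c, a)` is a bijection of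
`S`, so also `∑_{t ∈ S} (sg a b + sg b c + sg c a) = 0`.  By `tri_sg` the term of an inner face is `-1` if
`q` is inside and `0` otherwise; the three terms of the rotations of the outer face are `+1` if `q`
is inside the reversed triangle `(o2, o1, o3)` and `0` otherwise (`tri_sg` for the reversed
triangle, `sg_swap`).  So `#{inner t : q inside} = 3 [q inside the outer triangle]`.
If `q` is inside the inner face `(a, b, c)` then it is inside its three (different, `ne`)
rotations, so the number is at least 3; so `q` is inside the outer triangle (`cov_out`), the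
number is exactly 3, and every inner face containing `q` is one of the rotations (`cov_uniq`). -/

private theorem PPB_tri {P : V → Pl} {q : Pl} (hq : Gq P q) {a b c : V}
    (h : 0 < D (P a) (P b) (P c)) :
    (InT (P a) (P b) (P c) q → sg q (P a) (P b) + sg q (P b) (P c) + sg q (P c) (P a) = -1) ∧
    (¬ InT (P a) (P b) (P c) q → sg q (P a) (P b) + sg q (P b) (P c) + sg q (P c) (P a) = 0) := by
  classical
  have hab : P a ≠ P b := by
    intro e
    rw [e, D_self] at h
    exact lt_irrefl _ h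
  have hbc : P b ≠ P c := by
    intro e
    rw [e, D_self'] at h
    exact lt_irrefl _ h
  have hca : P c ≠ P a := by
    intro e
    rw [e, D_self''] at h
    exact lt_irrefl _ h
  have h1 := tri_sg h (hq.x a) (hq.x b) (hq.x c) (hq.d a b hab) (hq.d b c hbc) (hq.d c a hca)
  refine ⟨fun hI => ?_, fun hI => ?_⟩
  · rw [h1, if_pos hI]
  · rw [h1, if_neg hI]

private theorem PPB_count [Finite V] {F : V → V → V → Prop} {o1 o2 o3 : V} {P : V → Pl}
    (h : PosD F o1 o2 o3 P) {q : Pl} (hq : Gq P q) :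
    ∃ A : Finset (V × V × V), (∀ t : V × V × V, t ∈ A ↔ Inn F o1 o2 o3 t.1 t.2.1 t.2.2 ∧
      InT (P t.1) (P t.2.1) (P t.2.2) q) ∧ A.card ≤ 3 ∧
      (A.Nonempty → InT (P o2) (P o1) (P o3) q) := by
  classical
  letI : Fintype V := Fintype.ofFinite V
  set T : Finset (V × V × V) := Finset.univ.filter (fun t => F t.1 t.2.1 t.2.2) with hT
  have hTm : ∀ t : V × V × V, t ∈ T ↔ F t.1 t.2.1 t.2.2 := by
    intro t
    rw [hT, Finset.mem_filter]
    simp
  set A : Finset (V × V × V) := T.filter (fun t => ¬ Rot3 o1 o2 o3 t.1 t.2.1 t.2.2 ∧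
    InT (P t.1) (P t.2.1) (P t.2.2) q) with hA
  have hAm : ∀ t : V × V × V, t ∈ A ↔ Inn F o1 o2 o3 t.1 t.2.1 t.2.2 ∧
      InT (P t.1) (P t.2.1) (P t.2.2) q := by
    intro t
    rw [hA, Finset.mem_filter, hTm]
    unfold Inn
    tauto
  -- the sum over the darts
  have hex : ∀ t ∈ T, ∃ d, F t.2.1 t.1 d := fun t ht => h.pre.opp _ _ _ ((hTm t).1 ht)
  have s1 : ∑ t ∈ T, sg q (P t.1) (P t.2.1) = 0 := by
    refine Finset.sum_involution (fun t ht => (t.2.1, t.1, (hex t ht).choose)) ?_ ?_ ?_ ?_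
    · intro t ht
      rw [sg_swap q (P t.1) (P t.2.1)]
      ring
    · intro t ht _ he
      have h1 : t.2.1 = t.1 := congrArg Prod.fst he
      exact h.pre.ne _ _ _ ((hTm t).1 ht) h1.symm
    · intro t ht
      rw [hTm]
      exact (hex t ht).choose_spec
    · intro t ht
      have h1 : ((t.2.1, t.1, (hex t ht).choose) : V × V × V) ∈ T := by
        rw [hTm]
        exact (hex t ht).choose_spec
      have h2 := (hex _ h1).choose_spec
      have h3 := h.pre.uniq _ _ _ _ h2 ((hTm t).1 ht)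
      refine Prod.ext rfl (Prod.ext rfl ?_)
      exact h3
  have s2 : ∑ t ∈ T, sg q (P t.2.1) (P t.2.2) = 0 := by
    rw [← s1]
    refine Finset.sum_bij' (fun t _ => (t.2.1, t.2.2, t.1)) (fun t _ => (t.2.2, t.1, t.2.1))
      ?_ ?_ ?_ ?_ ?_
    · intro t ht
      rw [hTm]
      exact h.pre.cyc _ _ _ ((hTm t).1 ht)
    · intro t ht
      rw [hTm]
      exact h.pre.cyc _ _ _ (h.pre.cyc _ _ _ ((hTm t).1 ht))
    · intro t _
      rfl
    · intro t _
      rfl
    · intro t _
      rfl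
  have s3 : ∑ t ∈ T, sg q (P t.2.2) (P t.1) = 0 := by
    rw [← s1]
    refine Finset.sum_bij' (fun t _ => (t.2.2, t.1, t.2.1)) (fun t _ => (t.2.1, t.2.2, t.1))
      ?_ ?_ ?_ ?_ ?_
    · intro t ht
      rw [hTm]
      exact h.pre.cyc _ _ _ (h.pre.cyc _ _ _ ((hTm t).1 ht))
    · intro t ht
      rw [hTm]
      exact h.pre.cyc _ _ _ ((hTm t).1 ht)
    · intro t _
      rfl
    · intro t _
      rfl
    · intro t _
      rfl
  have s4 : ∑ t ∈ T, (sg q (P t.1) (P t.2.1) + sg q (P t.2.1) (P t.2.2) +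
      sg q (P t.2.2) (P t.1)) = 0 := by
    rw [Finset.sum_add_distrib, Finset.sum_add_distrib, s1, s2, s3]
    rfl
  -- the outer triangle
  have hneg : 0 < D (P o2) (P o1) (P o3) := by
    have := h.neg
    rw [D_swap] at this
    linarith
  have hout := PPB_tri hq hneg
  set δ : ℤ := if InT (P o2) (P o1) (P o3) q then 1 else 0 with hδ
  have hw : sg q (P o1) (P o2) + sg q (P o2) (P o3) + sg q (P o3) (P o1) = δ := by
    have e1 := sg_swap q (P o1) (P o2)
    have e2 := sg_swap q (P o2) (P o3)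
    have e3 := sg_swap q (P o3) (P o1)
    by_cases hI : InT (P o2) (P o1) (P o3) q
    · have := hout.1 hI
      rw [hδ, if_pos hI]
      linarith
    · have := hout.2 hI
      rw [hδ, if_neg hI]
      linarith
  set B : Finset (V × V × V) := T.filter (fun t => Rot3 o1 o2 o3 t.1 t.2.1 t.2.2) with hB
  have hBc : B.card ≤ 3 := by
    have hsub : B ⊆ {(o1, o2, o3), (o2, o3, o1), (o3, o1, o2)} := by
      intro t ht
      have h1 := (Finset.mem_filter.1 ht).2
      obtain ⟨a, b, c⟩ := t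
      rcases h1 with ⟨h1, h2, h3⟩ | ⟨h1, h2, h3⟩ | ⟨h1, h2, h3⟩
      · simp only at h1 h2 h3
        rw [h1, h2, h3]
        simp
      · simp only at h1 h2 h3
        rw [h1, h2, h3]
        simp
      · simp only at h1 h2 h3
        rw [h1, h2, h3]
        simp
    exact (Finset.card_le_card hsub).trans Finset.card_le_three
  have hterm : ∀ t ∈ T, sg q (P t.1) (P t.2.1) + sg q (P t.2.1) (P t.2.2) +
      sg q (P t.2.2) (P t.1) = (if t ∈ A then (-1 : ℤ) else 0) + (if t ∈ B then δ else 0) := by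
    intro t ht
    by_cases hr : Rot3 o1 o2 o3 t.1 t.2.1 t.2.2
    · have hA' : t ∉ A := by
        intro h1
        exact (Finset.mem_filter.1 h1).2.1 hr
      have hB' : t ∈ B := Finset.mem_filter.2 ⟨ht, hr⟩
      rw [if_neg hA', if_pos hB', zero_add, ← hw]
      rcases hr with ⟨h1, h2, h3⟩ | ⟨h1, h2, h3⟩ | ⟨h1, h2, h3⟩
      · rw [h1, h2, h3]
      · rw [h1, h2, h3]
        ring
      · rw [h1, h2, h3]
        ring
    · have hB' : t ∉ B := by
        intro h1
        exact hr (Finset.mem_filter.1 h1).2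
      have hpos := h.pos _ _ _ ((hTm t).1 ht) hr
      have htri := PPB_tri hq hpos
      by_cases hI : InT (P t.1) (P t.2.1) (P t.2.2) q
      · have hA' : t ∈ A := Finset.mem_filter.2 ⟨ht, hr, hI⟩
        rw [if_pos hA', if_neg hB', htri.1 hI, add_zero]
      · have hA' : t ∉ A := by
          intro h1
          exact hI (Finset.mem_filter.1 h1).2.2
        rw [if_neg hA', if_neg hB', htri.2 hI, add_zero]
  have s5 : -(A.card : ℤ) + (B.card : ℤ) * δ = 0 := by
    rw [← s4, Finset.sum_congr rfl hterm, Finset.sum_add_distrib, ← Finset.sum_filter,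
      ← Finset.sum_filter]
    have eA : T.filter (fun t => t ∈ A) = A := by
      ext t
      rw [Finset.mem_filter]
      constructor
      · exact fun h1 => h1.2
      · exact fun h1 => ⟨(Finset.mem_filter.1 h1).1, h1⟩
    have eB : T.filter (fun t => t ∈ B) = B := by
      ext t
      rw [Finset.mem_filter]
      constructor
      · exact fun h1 => h1.2
      · exact fun h1 => ⟨(Finset.mem_filter.1 h1).1, h1⟩
    rw [eA, eB, Finset.sum_const, Finset.sum_const, nsmul_eq_mul, nsmul_eq_mul]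
    ring
  refine ⟨A, hAm, ?_, ?_⟩
  · have hδ1 : δ = 1 ∨ δ = 0 := by
      rw [hδ]
      by_cases hI : InT (P o2) (P o1) (P o3) q
      · left
        rw [if_pos hI]
      · right
        rw [if_neg hI]
    rcases hδ1 with e | e
    · rw [e] at s5
      omega
    · rw [e] at s5
      omega
  · intro hne
    by_contra hI
    rw [hδ, if_neg hI] at s5
    have := hne.card_pos
    omega

theorem cov_uniq [Finite V] {F : V → V → V → Prop} {o1 o2 o3 : V} {P : V → Pl}
    (h : PosD F o1 o2 o3 P) {q : Pl} (hq : Gq P q) {a b c a' b' c' : V}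
    (h1 : Inn F o1 o2 o3 a b c) (h2 : Inn F o1 o2 o3 a' b' c')
    (q1 : InT (P a) (P b) (P c) q) (q2 : InT (P a') (P b') (P c') q) : Rot3 a b c a' b' c' := by
  classical
  obtain ⟨A, hA, hc, -⟩ := PPB_count h hq
  have f1 := h1.1
  have f2 := h.pre.cyc _ _ _ f1
  have f3 := h.pre.cyc _ _ _ f2
  have n1 := h.pre.ne _ _ _ f1
  have n2 := h.pre.ne _ _ _ f2
  have n3 := h.pre.ne _ _ _ f3
  have r2 : ¬ Rot3 o1 o2 o3 b c a := by
    intro hr
    apply h1.2
    rcases hr with ⟨e1, e2, e3⟩ | ⟨e1, e2, e3⟩ | ⟨e1, e2, e3⟩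
    · exact Or.inr (Or.inr ⟨e3, e1, e2⟩)
    · exact Or.inl ⟨e3, e1, e2⟩
    · exact Or.inr (Or.inl ⟨e3, e1, e2⟩)
  have r3 : ¬ Rot3 o1 o2 o3 c a b := by
    intro hr
    apply h1.2
    rcases hr with ⟨e1, e2, e3⟩ | ⟨e1, e2, e3⟩ | ⟨e1, e2, e3⟩
    · exact Or.inr (Or.inl ⟨e2, e3, e1⟩)
    · exact Or.inr (Or.inr ⟨e2, e3, e1⟩)
    · exact Or.inl ⟨e2, e3, e1⟩
  have m1 : ((a, b, c) : V × V × V) ∈ A := (hA _).2 ⟨h1, q1⟩
  have m2 : ((b, c, a) : V × V × V) ∈ A := (hA _).2 ⟨⟨f2, r2⟩, q1.2.1, q1.2.2, q1.1⟩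
  have m3 : ((c, a, b) : V × V × V) ∈ A := (hA _).2 ⟨⟨f3, r3⟩, q1.2.2, q1.1, q1.2.1⟩
  have m4 : ((a', b', c') : V × V × V) ∈ A := (hA _).2 ⟨h2, q2⟩
  have hsub : ({(a, b, c), (b, c, a), (c, a, b)} : Finset (V × V × V)) ⊆ A := by
    intro t ht
    simp only [Finset.mem_insert, Finset.mem_singleton] at ht
    rcases ht with rfl | rfl | rfl
    · exact m1
    · exact m2
    · exact m3
  have hcard : ({(a, b, c), (b, c, a), (c, a, b)} : Finset (V × V × V)).card = 3 := by
    apply Finset.card_eq_three.2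
    refine ⟨_, _, _, ?_, ?_, ?_, rfl⟩
    · intro e
      exact n1 (congrArg Prod.fst e)
    · intro e
      exact n3 (congrArg Prod.fst e).symm
    · intro e
      exact n2 (congrArg Prod.fst e)
  have heq := Finset.eq_of_subset_of_card_le hsub (by rw [hcard]; exact hc)
  rw [← heq] at m4
  simp only [Finset.mem_insert, Finset.mem_singleton, Prod.mk.injEq] at m4
  rcases m4 with ⟨e1, e2, e3⟩ | ⟨e1, e2, e3⟩ | ⟨e1, e2, e3⟩
  · exact Or.inl ⟨e1, e2, e3⟩
  · exact Or.inr (Or.inl ⟨e1, e2, e3⟩)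
  · exact Or.inr (Or.inr ⟨e1, e2, e3⟩)

theorem cov_out [Finite V] {F : V → V → V → Prop} {o1 o2 o3 : V} {P : V → Pl}
    (h : PosD F o1 o2 o3 P) {q : Pl} (hq : Gq P q) {a b c : V}
    (h1 : Inn F o1 o2 o3 a b c) (q1 : InT (P a) (P b) (P c) q) :
    InT (P o2) (P o1) (P o3) q := by
  obtain ⟨A, hA, -, ho⟩ := PPB_count h hq
  exact ho ⟨(a, b, c), (hA _).2 ⟨h1, q1⟩⟩

end B306
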