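import Pool.Agent.Lib_MP_b306af.PPDefs

/-! # MP_b306af: the faces at an inner vertex cover all directions -/

namespace B306

open Filter Topology

variable {V : Type}

/-- in an open half-plane there is no infinite counterclockwise walk on a finite set -/
theorem no_asc [Finite V] (S : Set V) (X : V → Pl) (u : Pl) (hS : ∀ x ∈ S, 0 < cr (X x) u)
    (hn : ∀ x ∈ S, ∃ y ∈ S, 0 < cr (X x) (X y)) (x0 : V) (hx0 : x0 ∈ S) : False := by
  let r : S → S → Prop := fun a b => 0 < cr (X b) (X a)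
  have : IsTrans S r := ⟨by
    intro a b c hab hbc
    have h1 : 0 < cr (X b) (X a) := hab
    have h2 : 0 < cr (X c) (X b) := hbc
    show 0 < cr (X c) (X a)
    have e := cr_plu (X c) (X b) (X a) u
    have ha := hS a a.2
    have hb := hS b b.2
    have hc := hS c c.2
    have k1 := mul_pos h2 ha
    have k2 := mul_pos hc h1
    have k3 : 0 < cr (X c) (X a) * cr (X b) u := by linarith
    exact (mul_pos_iff_of_pos_right hb).1 k3⟩
  have : Std.Irrefl r := ⟨by
    intro a ha
    have h1 : 0 < cr (X a) (X a) := ha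
    rw [cr_self] at h1
    exact lt_irrefl _ h1⟩
  have wf := Finite.wellFounded_of_trans_of_irrefl r
  obtain ⟨m, -, hm⟩ := wf.has_min Set.univ ⟨⟨x0, hx0⟩, trivial⟩
  obtain ⟨y, hy, hy'⟩ := hn m m.2
  exact hm ⟨y, hy⟩ trivial hy'

theorem cone_cov [Finite V] {F : V → V → V → Prop} {o1 o2 o3 : V} {P : V → Pl}
    (h : PosD F o1 o2 o3 P) {v : V} (hv : ∃ x y, F v x y) (h1 : v ≠ o1) (h2 : v ≠ o2)
    (h3 : v ≠ o3) {u : Pl} (hu : Gu P u) :
    ∃ x y, F v x y ∧ 0 < cr (P x - P v) u ∧ 0 < cr u (P y - P v) := by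
  by_contra hno
  push Not at hno
  have hpos : ∀ x y, F v x y → 0 < cr (P x - P v) (P y - P v) := by
    intro x y hf
    have := h.pos v x y hf (by
      rintro (⟨k, -⟩ | ⟨k, -⟩ | ⟨k, -⟩)
      · exact h1 k
      · exact h2 k
      · exact h3 k)
    rwa [D_eq_cr] at this
  have hnx : ∀ x y, F v x y → ∃ z, F v y z := by
    intro x y hf
    exact h.pre.opp _ _ _ (h.pre.cyc _ _ _ (h.pre.cyc _ _ _ hf))
  have hne : ∀ x y, F v x y → cr (P x - P v) u ≠ 0 := by
    intro x y hf
    apply hu.d v x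
    intro e
    have := hpos x y hf
    rw [e, sub_self] at this
    unfold cr at this
    simp at this
  have key : ∀ x y, F v x y → ¬ 0 < cr (P x - P v) u := by
    intro x y hf hc
    refine no_asc {x | (∃ y, F v x y) ∧ 0 < cr (P x - P v) u} (fun x => P x - P v) u
      (fun x hx => hx.2) ?_ x ⟨⟨y, hf⟩, hc⟩
    rintro a ⟨⟨b, hab⟩, hau⟩
    obtain ⟨c, hbc⟩ := hnx a b hab
    refine ⟨b, ⟨⟨c, hbc⟩, ?_⟩, hpos a b hab⟩
    have k1 := hno a b hab hau
    have k2 := hne b c hbc
    rw [cr_swap] at k1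
    rcases lt_or_gt_of_ne k2 with k | k
    · linarith
    · exact k
  obtain ⟨x, y, hxy⟩ := hv
  have hneg : ∀ p q : Pl, cr p (-q) = - cr p q := by
    intro p q
    unfold cr
    simp only [Prod.fst_neg, Prod.snd_neg]
    ring
  refine no_asc {x | ∃ y, F v x y} (fun x => P x - P v) (-u) ?_ ?_ x ⟨y, hxy⟩
  · rintro a ⟨b, hab⟩
    rw [hneg]
    have k1 := key a b hab
    have k2 := hne a b hab
    rcases lt_or_gt_of_ne k2 with k | k
    · show 0 < - cr (P a - P v) u
      linarith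
    · exact absurd k k1
  · rintro a ⟨b, hab⟩
    exact ⟨b, hnx a b hab, hpos a b hab⟩

end B306
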