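import Pool.Agent.Lib_MP_b306af.GBasic

/-!
# MP_b306af: positively oriented inner faces give a crossing-free drawing

`F a b c`: oriented triangles such that every dart is in exactly one of them.  One of them,
`o1 o2 o3` (with its rotations), is the outer face, drawn with negative orientation; all others
are drawn with positive orientation.
-/

namespace B306

open Filter Topology

variable {V : Type}

/-- closed oriented surface (possibly with several components or singular vertices) -/
structure Pre (F : V → V → V → Prop) : Prop where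
  cyc : ∀ a b c, F a b c → F b c a
  ne : ∀ a b c, F a b c → a ≠ b
  uniq : ∀ a b c c', F a b c → F a b c' → c = c'
  opp : ∀ a b c, F a b c → ∃ d, F b a d

/-- `(a, b, c)` is a cyclic rotation of `(x, y, z)` -/
def Rot3 (x y z a b c : V) : Prop :=
  (a = x ∧ b = y ∧ c = z) ∨ (a = y ∧ b = z ∧ c = x) ∨ (a = z ∧ b = x ∧ c = y)

/-- drawing with positive inner faces -/
structure PosD (F : V → V → V → Prop) (o1 o2 o3 : V) (P : V → Pl) : Prop where
  pre : Pre F
  out : F o1 o2 o3
  neg : D (P o1) (P o2) (P o3) < 0
  pos : ∀ a b c, F a b c → ¬ Rot3 o1 o2 o3 a b c → 0 < D (P a) (P b) (P c)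

/-- inner faces -/
def Inn (F : V → V → V → Prop) (o1 o2 o3 : V) (a b c : V) : Prop :=
  F a b c ∧ ¬ Rot3 o1 o2 o3 a b c

open Classical in
/-- signed crossing of the vertical upward ray from `q` with the dart `a b` -/
noncomputable def sg (q a b : Pl) : ℤ :=
  if a.1 < q.1 ∧ q.1 < b.1 ∧ D a b q < 0 then 1
  else if b.1 < q.1 ∧ q.1 < a.1 ∧ 0 < D a b q then -1 else 0

/-- `q` is generic with respect to the points `P v` -/
structure Gq (P : V → Pl) (q : Pl) : Prop where
  x : ∀ v, q.1 ≠ (P v).1
  d : ∀ v w, P v ≠ P w → D (P v) (P w) q ≠ 0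

/-- the direction `u` is generic with respect to the points `P v` -/
structure Gu (P : V → Pl) (u : Pl) : Prop where
  x : u.1 ≠ 0
  d : ∀ v w, P v ≠ P w → cr (P w - P v) u ≠ 0

end B306
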