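import Pool.Agent.Lib_MP_b306af.GTri5
import Pool.Agent.Lib_MP_b306af.GConf
import Pool.Agent.Lib_MP_b306af.GClAll

/-! # MP_b306af, Part II: the theorem -/

namespace B306

/-- Every planar graph of maximum degree at most `Δ` is a subgraph of a triangulation of the
sphere in which the old vertices have degree at most `6 Δ + 6`, are adjacent only if they are
adjacent in `G`, and every new vertex has at most three old neighbours. -/
theorem partII {V : Type} [Finite V] (G : SimpleGraph V) {Δ : ℕ}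
    (hΔ : ∀ v, (G.neighborSet v).ncard ≤ Δ) {f : V → Pl} (hf : IsDrawing G f) :
    ∃ (W : Type) (_ : Finite W) (T : Tri W) (i : V → W), Function.Injective i ∧ T.Sph ∧
      (∃ a b c, T.face a b c ∧ ∀ v, i v ≠ a ∧ i v ≠ b ∧ i v ≠ c) ∧ (∀ u v, T.G.Adj (i u) (i v) ↔ G.Adj u v) ∧
      (∀ v, (T.G.neighborSet (i v)).ncard ≤ 6 * Δ + 6) ∧
      ∀ p ∉ Set.range i, {v | T.G.Adj p (i v)}.ncard ≤ 3 := by
  obtain ⟨C, H, hH, hin, hadj, hnb⟩ := exists_conf G hf
  obtain ⟨P', hP', C', H', i', hi', hin', -, hH', hadj', hcl, hdg, hnew⟩ :=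
    closeAll G hΔ C hH Sum.inl Sum.inl_injective hin hadj hnb
  obtain ⟨T, hHT, hT⟩ := exists_mx C' hH'
  obtain ⟨T', hT', hTG⟩ := gtri C' hT
  have hiff : ∀ v p, T.Adj (i' v) p ↔ H'.Adj (i' v) p := fun v p =>
    ⟨fun h => cl_adj C' hHT hT.cf (hcl v) h, fun h => hHT h⟩
  refine ⟨P', hP', T', i', hi', gtri_sph C' hT hT', ?_, ?_, ?_, ?_⟩
  · exact ⟨C'.o1, C'.o3, C'.o2, (hT' _ _ _).2 (Or.inr (Or.inl ⟨rfl, rfl, rfl⟩)),
      fun v => ⟨(hin' v).1, (hin' v).2.2, (hin' v).2.1⟩⟩
  · intro u v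
    rw [hTG, hiff, hadj']
  · intro v
    have : T'.G.neighborSet (i' v) = H'.neighborSet (i' v) := by
      ext p
      rw [hTG]
      exact hiff v p
    rw [this]
    exact hdg v
  · intro p hp
    have : {v | T'.G.Adj p (i' v)} = {v | H'.Adj p (i' v)} := by
      ext v
      rw [hTG]
      constructor
      · intro h
        exact ((hiff v p).1 (SimpleGraph.Adj.symm h)).symm
      · intro h
        exact hHT h
    rw [this]
    exact hnew p hp

end B306
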