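import Pool.Agent.Lib_MP_b306af.TLin
import Pool.Agent.Lib_MP_b306af.PPDefs

/-! # MP_b306af: dual connectivity and exactness for triangulations of the sphere -/

namespace B306

variable {V : Type}

theorem Tri.pre (T : Tri V) : Pre T.face := ⟨T.cyc, T.ne, T.uniq, T.opp⟩

/-- dual connectivity -/
theorem Tri.trans (T : Tri V) (Q : V → V → Prop)
    (h1 : ∀ a b c, T.face a b c → Q a b → Q b c) (h2 : ∀ a b c, T.face a b c → Q a b → Q b a)
    {a b c x y z : V} (hf : T.face a b c) (hq : Q a b) (hg : T.face x y z) : Q x y := by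
  have key : ∀ v, (∃ a c, T.face v a c ∧ Q v a) → ∀ b c, T.face v b c → Q v b := by
    rintro v ⟨a, c, hv, hq⟩ b d hb
    refine T.link v {a | Q v a} ⟨a, hq, c, hv⟩ ?_ b d hb
    intro a c ha hf
    have e1 : Q a c := h1 v a c hf ha
    have e2 : Q c v := h1 a c v (T.cyc _ _ _ hf) e1
    exact h2 c v a (T.cyc _ _ _ (T.cyc _ _ _ hf)) e2
  have hB : {v | ∀ b c, T.face v b c → Q v b} = Set.univ := by
    apply T.conn
    · exact ⟨a, key a ⟨b, c, hf, hq⟩⟩
    · intro v b c hv hvB
      have e1 : Q v b := hvB b c hv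
      have e2 : Q b v := h2 v b c hv e1
      obtain ⟨d, hd⟩ := T.opp _ _ _ hv
      exact key b ⟨v, d, hd, e2⟩
  have hx : x ∈ {v | ∀ b c, T.face v b c → Q v b} := by rw [hB]; trivial
  exact hx y z hg

/-- exactness over any field, in terms of faces -/
theorem Tri.exact' {K : Type} [Field K] [Finite V] (T : Tri V) (hT : T.Sph)
    (hne : ∃ a b c, T.face a b c) (κ : V → V → K) (hs : ∀ a b, κ a b = - κ b a)
    (hf : ∀ a b c, T.face a b c → κ a b + κ b c + κ c a = 0) :
    ∃ h : V → K, ∀ a b c, T.face a b c → κ a b = h b - h a := by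
  obtain ⟨h, hh⟩ := T.exact hT hne hs hf
  exact ⟨h, fun a b c hf => hh a b ⟨c, hf⟩⟩

end B306
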