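import Pool.Agent.Lib_MP_b306af.PartII
import Pool.Agent.Lib_MP_b306af.TConv
import Pool.Agent.Lib_MP_b306af.P4Far

/-! # MP_b306af, Part II: conversion to `P4.Tri` and vertices far apart -/

namespace B306

variable {W : Type}

/-- every vertex is in a face -/
theorem Tri.supp (T : Tri W) (hne : ∃ a b c, T.face a b c) (v : W) : ∃ b c, T.face v b c := by
  obtain ⟨a, b, c, h⟩ := hne
  have : {v | ∃ b c, T.face v b c} = Set.univ := by
    apply T.conn
    · exact ⟨a, b, c, h⟩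
    · intro p q r hf _
      exact ⟨r, p, T.cyc _ _ _ hf⟩
  have hv : v ∈ {v | ∃ b c, T.face v b c} := by rw [this]; trivial
  exact hv

/-- with at least four vertices no two faces have the same vertices -/
theorem Tri.nonDeg (T : Tri W) {a b c v : W} (h : T.face a b c) (ha : v ≠ a) (hb : v ≠ b)
    (hc : v ≠ c) (x y z : W) (h1 : T.face x y z) (h2 : T.face y x z) : False := by
  classical
  have n1 := T.ne _ _ _ h
  have n2 := T.ne _ _ _ (T.cyc _ _ _ h)
  have n3 := T.ne _ _ _ (T.cyc _ _ _ (T.cyc _ _ _ h))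
  let s : Finset W := {x, y, z}
  have h3 := T.cyc _ _ _ h1
  have h4 := T.cyc _ _ _ h3
  have h5 := T.cyc _ _ _ h2
  have h6 := T.cyc _ _ _ h5
  have e1 := T.ne _ _ _ h1
  have e2 := T.ne _ _ _ h3
  have e3 := T.ne _ _ _ h4
  have mem : ∀ w, w ∈ s ↔ w = x ∨ w = y ∨ w = z := by intro w; simp [s]
  have hQ : ∀ p q r, T.face p q r → (p ∈ s ∧ q ∈ s) → (q ∈ s ∧ r ∈ s) := by
    rintro p q r hf ⟨hp, hq⟩
    refine ⟨hq, ?_⟩
    have hpq := T.ne _ _ _ hf
    rw [mem] at hp hq ⊢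
    rcases hp with rfl | rfl | rfl <;> rcases hq with rfl | rfl | rfl
    · exact absurd rfl hpq
    · exact Or.inr (Or.inr (T.uniq _ _ _ _ hf h1))
    · exact Or.inr (Or.inl (T.uniq _ _ _ _ hf h5))
    · exact Or.inr (Or.inr (T.uniq _ _ _ _ hf h2))
    · exact absurd rfl hpq
    · exact Or.inl (T.uniq _ _ _ _ hf h3)
    · exact Or.inr (Or.inl (T.uniq _ _ _ _ hf h4))
    · exact Or.inl (T.uniq _ _ _ _ hf h6)
    · exact absurd rfl hpq
  have all : ∀ p, p ∈ s := by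
    intro p
    obtain ⟨q, r, hf⟩ := T.supp ⟨_, _, _, h⟩ p
    exact (T.trans (fun p q => p ∈ s ∧ q ∈ s) hQ (fun _ _ _ _ hq => ⟨hq.2, hq.1⟩) h1
      ⟨by simp [s], by simp [s]⟩ hf).1
  have hcard : ({a, b, c, v} : Finset W).card ≤ s.card :=
    Finset.card_le_card (fun p _ => all p)
  have h8 : ({a, b, c, v} : Finset W).card = 4 := by
    rw [Finset.card_insert_of_notMem, Finset.card_insert_of_notMem, Finset.card_insert_of_notMem,
      Finset.card_singleton]
    · simpa using hc.symm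
    · simp only [Finset.mem_insert, Finset.mem_singleton, not_or]
      exact ⟨n2, hb.symm⟩
    · simp only [Finset.mem_insert, Finset.mem_singleton, not_or]
      exact ⟨n1, n3.symm, ha.symm⟩
  have h9 : s.card ≤ 3 := Finset.card_le_three
  omega

/-- conversion -/
def Tri.toP4 [Finite W] (T : Tri W) (hT : T.Sph) (hne : ∃ a b c, T.face a b c) : P4.Tri W where
  F := T.face
  cyc := T.cyc
  uniq := T.uniq
  opp := T.opp
  ne := T.ne
  trans P h1 h2 _ _ _ _ _ _ hf hg hP := T.trans P h1 h2 hf hP hg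
  exact κ h1 h2 := T.exact' hT hne κ h1 h2

/-- Part II, final form: every planar graph `G` of maximum degree at most `Δ` is an induced
subgraph of a triangulation of the sphere such that every set `X` of vertices of `G` contains a
subset `X'` with `|X| ≤ K(Δ) |X'|` whose elements have pairwise distance at least `4` in the
triangulation. -/
theorem partII2 {V : Type} [Finite V] [Nonempty V] (G : SimpleGraph V) {Δ : ℕ}
    (hΔ : ∀ v, (G.neighborSet v).ncard ≤ Δ) {f : V → Pl} (hf : IsDrawing G f) :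
    ∃ (W : Type) (_ : Finite W) (T : P4.Tri W) (i : V → W), Function.Injective i ∧ T.NonDeg ∧
      (∀ v, T.Supp (i v)) ∧ (∀ u v, T.Adj (i u) (i v) ↔ G.Adj u v) ∧
      (∀ v, {q | T.CAdj (i v) q}.ncard ≤ 12 * Δ + 13) ∧
      (∃ r s t, T.F r s t ∧ ∀ v, i v ≠ r ∧ i v ≠ s ∧ i v ≠ t) ∧
      ∀ X : Set V, ∃ X' ⊆ X, X.ncard ≤ (12 * Δ + 19) ^ 3 * X'.ncard ∧
        ∀ x ∈ X', ∀ y ∈ X', x ≠ y → ¬ T.Near (i x) (i y) := by
  obtain ⟨W, hW, T, i, hi, hT, ⟨a, b, c, hface, hout⟩, hadj, hdeg, -⟩ := partII G hΔ hf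
  have hne : ∃ a b c, T.face a b c := ⟨a, b, c, hface⟩
  obtain ⟨v0⟩ := ‹Nonempty V›
  set T4 := T.toP4 hT hne with hT4
  have hnd : T4.NonDeg := fun x y z h1 h2 =>
    T.nonDeg hface (hout v0).1 (hout v0).2.1 (hout v0).2.2 x y z h1 h2
  let E : W → W → Prop := fun p q => p ∈ Set.range i ∧ q ∈ Set.range i
  have hE : ∀ p q, E p q → E q p := fun p q h => ⟨h.2, h.1⟩
  have hadj4 : ∀ p q, T4.Adj p q ↔ T.G.Adj p q := fun p q => Iff.rfl
  have hD : ∀ v, {b | T4.Adj (i v) b}.ncard ≤ 6 * Δ + 6 := hdeg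
  refine ⟨W ⊕ Set (W × W), inferInstance, T4.med hnd E hE, fun v => Sum.inl (i v),
    Sum.inl_injective.comp hi, P4.Tri.med_nonDeg T4 hnd hE, ?_, ?_, ?_, ?_, ?_⟩
  · intro v
    exact (P4.Tri.med_supp_l T4 hnd hE (i v)).2 (T.supp hne (i v))
  · intro u v
    rw [P4.Tri.med_adj_ll, hadj4, hadj]
    exact ⟨fun h => h.2, fun h => ⟨⟨⟨u, rfl⟩, ⟨v, rfl⟩⟩, h⟩⟩
  · intro v
    exact (P4.Tri.med_deg_l T4 hnd hE (i v) (6 * Δ + 6) (hD v)).trans (by omega)
  · have hno : ¬ E a b := fun h => by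
      obtain ⟨v, hv⟩ := h.1
      exact (hout v).1 hv
    refine ⟨Sum.inl a, Sum.inr (T4.fc b a), Sum.inr (T4.fc a b), ⟨b, hno, ⟨c, hface⟩, rfl, rfl⟩, ?_⟩
    intro v
    exact ⟨fun h => (hout v).1 (Sum.inl.inj h), fun h => Sum.inl_ne_inr h,
      fun h => Sum.inl_ne_inr h⟩
  · intro X
    refine P4.exists_far (fun x y => (T4.med hnd E hE).Near (Sum.inl (i x)) (Sum.inl (i y)))
      (fun x => P4.Tri.Near.refl _ _) (fun x y h => h.symm) _ ?_ X
    intro x
    refine (P4.Tri.med_near T4 hnd i hi hE (fun p q h => h.2) (6 * Δ + 6) hD x).trans ?_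
    exact Nat.pow_le_pow_left (by omega) 3

end B306
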