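import Pool.Agent.Lib_MP_b306af.PartII2
import Pool.Agent.Lib_MP_b306af.P3Defs

/-! # MP_b306af, Part II: output in the form needed for Part III -/

namespace B306

/-- Part II: `G` planar (crossing-free drawing `f`) of maximum degree at most `Δ`.  There is a
triangulation `T` of the sphere containing `G` as an induced subgraph (via `i`), with a face
`(r, s, t)` without vertices of `G`, such that every set `X` of vertices of `G` contains a set `M` of
marks satisfying the conditions `P3.Dat` of Part III, with `|X| ≤ (12 Δ + 19)^3 |M|`. -/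
theorem partII_final {V : Type} [Finite V] [Nonempty V] (G : SimpleGraph V) {Δ : ℕ}
    (hΔ : ∀ v, (G.neighborSet v).ncard ≤ Δ) {f : V → Pl} (hf : IsDrawing G f) :
    ∃ (W : Type) (_ : Finite W) (T : P4.Tri W) (i : V → W) (r s t : W), Function.Injective i ∧
      T.NonDeg ∧ (∀ v, T.Supp (i v)) ∧ (∀ u v, T.Adj (i u) (i v) ↔ G.Adj u v) ∧
      ∀ X : Set V, ∃ M : Finset W, (M : Set W) ⊆ i '' X ∧ X.ncard ≤ (12 * Δ + 19) ^ 3 * M.card ∧
        P3.Dat T M r s t := by
  classical
  obtain ⟨W, hW, T, i, hi, hnd, hsupp, hadj, -, ⟨r, s, t, hF, hout⟩, hX⟩ := partII2 G hΔ hf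
  refine ⟨W, hW, T, i, r, s, t, hi, hnd, hsupp, hadj, fun X => ?_⟩
  obtain ⟨X', hX', hcard, hfar⟩ := hX X
  have hfin : (i '' X').Finite := Set.toFinite _
  refine ⟨hfin.toFinset, ?_, ?_, ⟨hF, ?_, ?_, ?_⟩⟩
  · rw [Set.Finite.coe_toFinset]
    exact Set.image_mono hX'
  · rw [← Set.ncard_eq_toFinset_card _ hfin, Set.ncard_image_of_injective _ hi]
    exact hcard
  · intro v hv
    obtain ⟨x, -, rfl⟩ := (Set.Finite.mem_toFinset hfin).1 hv
    exact hsupp x
  · intro v hv hc
    obtain ⟨x, -, rfl⟩ := (Set.Finite.mem_toFinset hfin).1 hv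
    rcases hc with h | h | h
    · exact (hout x).1 h
    · exact (hout x).2.1 h
    · exact (hout x).2.2 h
  · intro p hp q hq hpq a b ha hb
    obtain ⟨x, hx, rfl⟩ := (Set.Finite.mem_toFinset hfin).1 hp
    obtain ⟨y, hy, rfl⟩ := (Set.Finite.mem_toFinset hfin).1 hq
    have hxy : x ≠ y := fun h => hpq (by rw [h])
    have h1 : T.CAdj (i x) a := by
      rcases ha with h | h
      · exact Or.inl h.symm
      · exact Or.inr h
    have h2 : T.CAdj b (i y) := by
      rcases hb with h | h
      · exact Or.inl h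
      · exact Or.inr (P4.Tri.Adj.symm h)
    exact ⟨fun h => hfar x hx y hy hxy ⟨a, b, h1, Or.inl h, h2⟩,
      fun h => hfar x hx y hy hxy ⟨a, b, h1, Or.inr h, h2⟩⟩

end B306
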