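import Pool.Agent.Lib_MP_b306af.Final2
import Pool.Agent.Lib_MP_b306af.P3St
import Pool.Agent.Lib_MP_b306af.CBridge

/-!
# MP_b306af: Q1
-/

namespace B306

theorem q1 : Q1 :=
  final2 fun _ _ _ _ _ _ _ hD hM => P3.thmIII B306C.thmI hD hM

end B306
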