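import Pool.Agent.Lib_MP_b306af.TDefs

/-! # MP_b306af: planarity = every cocycle is a coboundary -/

namespace B306

variable {V : Type}

/- Piece TLIN (`euler_le`, `exact`).  Linear algebra over a field `K`.
Fix a linear order on `V` (an equivalence with `Fin n`).
`E0 = {(a, b) | T.G.Adj a b, a < b}`, `F0 = {(a, b, x) | T.face a b x, a < b, a < x}`.
The map `(a, b, x) ↦ (a, b)` is a bijection from `T.F` onto the darts (`uniq`), every orbit of the
rotation on `T.F` has exactly one element in `F0` and three elements (`ne`, `cyc`), so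
`|T.F| = 3 |F0| = 2 |E0|`.
`δ : (V → K) → (E0 → K)`, `(δ h)(a, b) = h b - h a`: its kernel consists of the constants
(`conn`, `A = {v | h v = h v0}`), so its range has dimension `n - 1`.
For `c : E0 → K` let `c~ a b = c (a, b)` if `a < b`, `- c (b, a)` if `b < a`.
`τ : (E0 → K) → (F0 → K)`, `(τ c)(a, b, x) = c~ a b + c~ b x + c~ x a`.  Its matrix `M` (rows `F0`,
columns `E0`, entries `0, 1, -1`) has the transpose `∂ : (F0 → K) → (E0 → K)`,
`(∂ g)(a, b) = g (the face containing the dart (a, b)) - g (the face containing (b, a))`.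
(These two faces are different elements of `F0`: if a rotation of `(a, b, x)` contained the dart
`(b, a)` then `x = a` or `x = b`, excluded by `ne`.)
The kernel of `∂` consists of the constants: if `g` takes the same value on the two faces at
every edge, then by `link` the value is the same on all faces at a vertex `v` (take
`A = {a | face v a c and g = the given value}`), then by `conn` on all faces.  So
`rank τ = rank ∂ = |F0| - 1` (`Matrix.rank_transpose`, rank-nullity), and
`dim ker τ = |E0| - |F0| + 1 = |F0| / 2 + 1`.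
`range δ ≤ ker τ` gives `n - 1 ≤ |F0| / 2 + 1`, i.e. `2 n ≤ |F0| + 4`: this is `euler_le` (`K = ℚ`).
If `Sph` holds, `|F0| = 2 n - 4`, both dimensions are `n - 1`, so `range δ = ker τ`
(`Submodule.eq_of_le_of_finrank_eq`).  A cocycle restricted to `E0` is in `ker τ`. -/

section Lin

variable [Fintype V] [LinearOrder V] (T : Tri V) (K : Type) [Field K]

open Classical in
/-- the faces whose first vertex is the smallest one -/
private noncomputable def F0 : Finset (V × V × V) :=
  Finset.univ.filter (fun t => T.face t.1 t.2.1 t.2.2 ∧ t.1 < t.2.1 ∧ t.1 < t.2.2)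

open Classical in
/-- the edges, first vertex smaller -/
private noncomputable def E0 : Finset (V × V) :=
  Finset.univ.filter (fun e => T.G.Adj e.1 e.2 ∧ e.1 < e.2)

private def rt (t : V × V × V) : V × V × V := (t.2.1, t.2.2, t.1)

private theorem ne3 {a b c : V} (h : T.face a b c) : a ≠ b ∧ b ≠ c ∧ c ≠ a :=
  ⟨T.ne _ _ _ h, T.ne _ _ _ (T.cyc _ _ _ h), T.ne _ _ _ (T.cyc _ _ _ (T.cyc _ _ _ h))⟩

open Classical in
private theorem sum_faces {M : Type} [AddCommMonoid M] (h : V × V × V → M) :
    ∑ s ∈ Finset.univ.filter (fun t : V × V × V => T.face t.1 t.2.1 t.2.2), h s =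
      ∑ t ∈ F0 T, (h t + h (rt t) + h (rt (rt t))) := by
  rw [Finset.sum_add_distrib, Finset.sum_add_distrib]
  have h1 : ∑ t ∈ F0 T, h (rt t) = ∑ s ∈ Finset.univ.filter (fun t : V × V × V => T.face t.1 t.2.1 t.2.2 ∧
      t.2.2 < t.1 ∧ t.2.2 < t.2.1), h s := by
    refine Finset.sum_bij' (fun t _ => rt t) (fun s _ => rt (rt s)) ?_ ?_ ?_ ?_ ?_
    · rintro ⟨a, b, c⟩ ht
      simp only [F0, Finset.mem_filter, Finset.mem_univ, true_and, rt] at ht ⊢
      exact ⟨T.cyc _ _ _ ht.1, ht.2.1, ht.2.2⟩
    · rintro ⟨a, b, c⟩ ht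
      simp only [F0, Finset.mem_filter, Finset.mem_univ, true_and, rt] at ht ⊢
      exact ⟨T.cyc _ _ _ (T.cyc _ _ _ ht.1), ht.2.1, ht.2.2⟩
    · rintro ⟨a, b, c⟩ _; rfl
    · rintro ⟨a, b, c⟩ _; rfl
    · rintro ⟨a, b, c⟩ _; rfl
  have h2 : ∑ t ∈ F0 T, h (rt (rt t)) = ∑ s ∈ Finset.univ.filter (fun t : V × V × V => T.face t.1 t.2.1 t.2.2 ∧
      t.2.1 < t.2.2 ∧ t.2.1 < t.1), h s := by
    refine Finset.sum_bij' (fun t _ => rt (rt t)) (fun s _ => rt s) ?_ ?_ ?_ ?_ ?_
    · rintro ⟨a, b, c⟩ ht
      simp only [F0, Finset.mem_filter, Finset.mem_univ, true_and, rt] at ht ⊢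
      exact ⟨T.cyc _ _ _ (T.cyc _ _ _ ht.1), ht.2.1, ht.2.2⟩
    · rintro ⟨a, b, c⟩ ht
      simp only [F0, Finset.mem_filter, Finset.mem_univ, true_and, rt] at ht ⊢
      exact ⟨T.cyc _ _ _ ht.1, ht.2.1, ht.2.2⟩
    · rintro ⟨a, b, c⟩ _; rfl
    · rintro ⟨a, b, c⟩ _; rfl
    · rintro ⟨a, b, c⟩ _; rfl
  rw [h1, h2, F0, ← Finset.sum_union, ← Finset.sum_union]
  · apply Finset.sum_congr _ (fun _ _ => rfl)
    ext ⟨a, b, c⟩
    simp only [Finset.mem_filter, Finset.mem_univ, true_and, Finset.mem_union]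
    constructor
    · intro hf
      obtain ⟨n1, n2, n3⟩ := ne3 T hf
      rcases lt_or_gt_of_ne n1 with l1 | l1 <;> rcases lt_or_gt_of_ne n2 with l2 | l2 <;>
        rcases lt_or_gt_of_ne n3 with l3 | l3
      · exact Or.inl (Or.inl ⟨hf, l1, l1.trans l2⟩)
      · exact Or.inl (Or.inl ⟨hf, l1, l3⟩)
      · exact Or.inl (Or.inr ⟨hf, l3, l2⟩)
      · exact Or.inl (Or.inl ⟨hf, l1, l3⟩)
      · exact Or.inr ⟨hf, l2, l1⟩
      · exact Or.inr ⟨hf, l2, l1⟩
      · exact Or.inl (Or.inr ⟨hf, l3, l2⟩)
      · exact absurd (l2.trans (l1.trans l3)) (lt_irrefl _)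
    · rintro ((h | h) | h) <;> exact h.1
  · rw [Finset.disjoint_left]
    rintro ⟨a, b, c⟩ h3 h4
    simp only [Finset.mem_filter, Finset.mem_univ, true_and, Finset.mem_union] at h3 h4
    rcases h3 with h3 | h3
    · exact lt_asymm h3.2.1 h4.2.2
    · exact lt_asymm h3.2.2 h4.2.1
  · rw [Finset.disjoint_left]
    rintro ⟨a, b, c⟩ h3 h4
    simp only [Finset.mem_filter, Finset.mem_univ, true_and] at h3 h4
    exact lt_asymm h3.2.2 h4.2.1

private theorem card_F : T.F.ncard = 3 * (F0 T).card := by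
  classical
  have h1 : T.F = ((Finset.univ.filter (fun t : V × V × V => T.face t.1 t.2.1 t.2.2) : Finset _) : Set (V × V × V)) := by
    ext t
    simp [Tri.F]
  rw [h1, Set.ncard_coe_finset, Finset.card_eq_sum_ones, sum_faces T, Finset.sum_const, smul_eq_mul, mul_comm]

private theorem card_E : T.F.ncard = 2 * (E0 T).card := by
  classical
  have h1 : T.F = ((Finset.univ.filter (fun t : V × V × V => T.face t.1 t.2.1 t.2.2) : Finset _) : Set (V × V × V)) := by
    ext t
    simp [Tri.F]
  have h2 : (Finset.univ.filter (fun t : V × V × V => T.face t.1 t.2.1 t.2.2)).card =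
      (Finset.univ.filter (fun e : V × V => T.G.Adj e.1 e.2)).card := by
    refine Finset.card_bij (fun t _ => (t.1, t.2.1)) ?_ ?_ ?_
    · rintro ⟨a, b, c⟩ ht
      simp only [Finset.mem_filter, Finset.mem_univ, true_and] at ht ⊢
      exact ⟨c, ht⟩
    · rintro ⟨a, b, c⟩ ht ⟨a', b', c'⟩ ht' h
      simp only [Finset.mem_filter, Finset.mem_univ, true_and] at ht ht'
      simp only [Prod.mk.injEq] at h
      obtain ⟨rfl, rfl⟩ := h
      rw [T.uniq _ _ _ _ ht ht']
    · rintro ⟨a, b⟩ h
      simp only [Finset.mem_filter, Finset.mem_univ, true_and] at h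
      obtain ⟨c, hc⟩ := h
      exact ⟨(a, b, c), by simpa using hc, rfl⟩
  have h3 : (Finset.univ.filter (fun e : V × V => T.G.Adj e.1 e.2 ∧ e.2 < e.1)).card = (E0 T).card := by
    refine Finset.card_bij (fun e _ => (e.2, e.1)) ?_ ?_ ?_
    · rintro ⟨a, b⟩ h
      simp only [E0, Finset.mem_filter, Finset.mem_univ, true_and] at h ⊢
      exact ⟨h.1.symm, h.2⟩
    · rintro ⟨a, b⟩ _ ⟨a', b'⟩ _ h
      simp only [Prod.mk.injEq] at h
      rw [h.1, h.2]
    · rintro ⟨a, b⟩ h
      simp only [E0, Finset.mem_filter, Finset.mem_univ, true_and] at h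
      exact ⟨(b, a), by simpa using ⟨h.1.symm, h.2⟩, rfl⟩
  have h4 : Finset.univ.filter (fun e : V × V => T.G.Adj e.1 e.2) =
      E0 T ∪ Finset.univ.filter (fun e : V × V => T.G.Adj e.1 e.2 ∧ e.2 < e.1) := by
    ext ⟨a, b⟩
    simp only [E0, Finset.mem_filter, Finset.mem_univ, true_and, Finset.mem_union]
    constructor
    · intro h
      rcases lt_or_gt_of_ne h.ne with l | l
      · exact Or.inl ⟨h, l⟩
      · exact Or.inr ⟨h, l⟩
    · rintro (h | h) <;> exact h.1
  have h5 : Disjoint (E0 T) (Finset.univ.filter (fun e : V × V => T.G.Adj e.1 e.2 ∧ e.2 < e.1)) := by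
    rw [Finset.disjoint_left]
    rintro ⟨a, b⟩ h h'
    simp only [E0, Finset.mem_filter, Finset.mem_univ, true_and] at h h'
    exact lt_asymm h.2 h'.2
  rw [h1, Set.ncard_coe_finset, h2, h4, Finset.card_union_of_disjoint h5, h3]
  ring

open Classical in
private noncomputable def ch (e : V × V) (a b : V) : K :=
  if e.1 = a ∧ e.2 = b then 1 else if e.1 = b ∧ e.2 = a then -1 else 0

private noncomputable def MM : Matrix (F0 T) (E0 T) K :=
  fun t e => ch K e.1 t.1.1 t.1.2.1 + ch K e.1 t.1.2.1 t.1.2.2 + ch K e.1 t.1.2.2 t.1.1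

private theorem sum_ch {c : V → V → K} (hc : ∀ a b, c a b = - c b a) {a b : V} (h : T.G.Adj a b) :
    ∑ e : E0 T, ch K e.1 a b * c e.1.1 e.1.2 = c a b := by
  classical
  rcases lt_or_gt_of_ne h.ne with l | l
  · rw [Finset.sum_eq_single ⟨(a, b), by simp only [E0, Finset.mem_filter, Finset.mem_univ, true_and]; exact ⟨h, l⟩⟩]
    · simp [ch]
    · rintro ⟨⟨x, y⟩, he⟩ _ hne
      simp only [E0, Finset.mem_filter, Finset.mem_univ, true_and] at he
      have : ch K (x, y) a b = 0 := by
        unfold ch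
        rw [if_neg, if_neg]
        · rintro ⟨h1, h2⟩
          simp only at h1 h2
          rw [h1, h2] at he
          exact lt_asymm he.2 l
        · rintro ⟨h1, h2⟩
          apply hne
          simp only at h1 h2
          simp [h1, h2]
      simp only [this, zero_mul]
    · intro h'; exact absurd (Finset.mem_univ _) h'
  · rw [Finset.sum_eq_single ⟨(b, a), by simp only [E0, Finset.mem_filter, Finset.mem_univ, true_and]; exact ⟨h.symm, l⟩⟩]
    · have hab : ¬ b = a := fun h' => h.ne h'.symm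
      simp [ch, hab, hc a b]
    · rintro ⟨⟨x, y⟩, he⟩ _ hne
      simp only [E0, Finset.mem_filter, Finset.mem_univ, true_and] at he
      have : ch K (x, y) a b = 0 := by
        unfold ch
        rw [if_neg, if_neg]
        · rintro ⟨h1, h2⟩
          apply hne
          simp only at h1 h2
          simp [h1, h2]
        · rintro ⟨h1, h2⟩
          simp only at h1 h2
          rw [h1, h2] at he
          exact lt_asymm he.2 l
      simp only [this, zero_mul]
    · intro h'; exact absurd (Finset.mem_univ _) h'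

/-- cocycles are in the kernel -/
private theorem coc_ker {c : V → V → K} (hs : ∀ a b, c a b = - c b a)
    (hf : ∀ a b x, T.face a b x → c a b + c b x + c x a = 0) :
    (MM T K).mulVec (fun e : E0 T => c e.1.1 e.1.2) = 0 := by
  classical
  funext t
  obtain ⟨⟨a, b, x⟩, ht⟩ := t
  simp only [F0, Finset.mem_filter, Finset.mem_univ, true_and] at ht
  have h1 : T.G.Adj a b := ⟨x, ht.1⟩
  have h2 : T.G.Adj b x := ⟨a, T.cyc _ _ _ ht.1⟩
  have h3 : T.G.Adj x a := ⟨b, T.cyc _ _ _ (T.cyc _ _ _ ht.1)⟩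
  simp only [Matrix.mulVec, dotProduct, MM, add_mul, Finset.sum_add_distrib]
  rw [sum_ch T K hs h1, sum_ch T K hs h2, sum_ch T K hs h3]
  exact hf a b x ht.1

private noncomputable def dl : (V → K) →ₗ[K] (E0 T → K) where
  toFun I := fun e => I e.1.2 - I e.1.1
  map_add' I J := by funext e; simp only [Pi.add_apply]; ring
  map_smul' r I := by funext e; simp only [Pi.smul_apply, smul_eq_mul, RingHom.id_apply]; ring

private theorem dl_ker (I : V → K) (hI : dl T K I = 0) (v0 v : V) : I v = I v0 := by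
  have hadj : ∀ a b, T.G.Adj a b → I a = I b := by
    intro a b h
    have key : ∀ a b, T.G.Adj a b → a < b → I a = I b := by
      intro a b h l
      have := congrFun hI ⟨(a, b), by classical simp only [E0, Finset.mem_filter, Finset.mem_univ, true_and]; exact ⟨h, l⟩⟩
      simp only [dl, LinearMap.coe_mk, AddHom.coe_mk, Pi.zero_apply] at this
      exact (sub_eq_zero.1 this).symm
    rcases lt_or_gt_of_ne h.ne with l | l
    · exact key a b h l
    · exact (key b a h.symm l).symm
  have := T.conn {v | I v = I v0} ⟨v0, rfl⟩ (by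
    intro a b c hf ha
    have : I b = I a := (hadj a b ⟨c, hf⟩).symm
    simp only [Set.mem_ofPred_eq] at ha ⊢
    rw [this, ha])
  have h2 : v ∈ {v | I v = I v0} := by rw [this]; trivial
  exact h2

/-- normalised rotation -/
private noncomputable def nm (t : V × V × V) : V × V × V :=
  if t.1 < t.2.1 ∧ t.1 < t.2.2 then t else if t.2.1 < t.2.2 ∧ t.2.1 < t.1 then rt t else rt (rt t)

private theorem nm_mem {t : V × V × V} (ht : T.face t.1 t.2.1 t.2.2) : nm t ∈ F0 T := by
  classical
  obtain ⟨a, b, c⟩ := t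
  simp only at ht
  obtain ⟨n1, n2, n3⟩ := ne3 T ht
  unfold nm
  simp only [F0, rt]
  split_ifs with h1 h2
  · simp only [Finset.mem_filter, Finset.mem_univ, true_and]
    exact ⟨ht, h1.1, h1.2⟩
  · simp only [Finset.mem_filter, Finset.mem_univ, true_and]
    exact ⟨T.cyc _ _ _ ht, h2.1, h2.2⟩
  · simp only [Finset.mem_filter, Finset.mem_univ, true_and]
    refine ⟨T.cyc _ _ _ (T.cyc _ _ _ ht), ?_, ?_⟩
    · by_contra h3
      have h3' : a < c := lt_of_le_of_ne (not_lt.1 h3) (fun h => n3 h.symm)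
      have h4 : ¬ a < b := fun h => h1 ⟨h, h3'⟩
      have h4' : b < a := lt_of_le_of_ne (not_lt.1 h4) (fun h => n1 h.symm)
      exact h2 ⟨h4'.trans h3', h4'⟩
    · by_contra h3
      have h3' : b < c := lt_of_le_of_ne (not_lt.1 h3) n2
      have h4 : ¬ b < a := fun h => h2 ⟨h3', h⟩
      have h4' : a < b := lt_of_le_of_ne (not_lt.1 h4) n1
      exact h1 ⟨h4', h4'.trans h3'⟩

private theorem nm_rt {t : V × V × V} (ht : T.face t.1 t.2.1 t.2.2) : nm (rt t) = nm t := by
  obtain ⟨a, b, c⟩ := t
  simp only at ht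
  obtain ⟨n1, n2, n3⟩ := ne3 T ht
  unfold nm
  simp only [rt]
  rcases lt_or_gt_of_ne n1 with l1 | l1 <;> rcases lt_or_gt_of_ne n2 with l2 | l2 <;>
    rcases lt_or_gt_of_ne n3 with l3 | l3 <;>
    simp only [l1, l2, l3, and_true, and_false, true_and, false_and, if_true, if_false, lt_asymm l1, lt_asymm l2,
      lt_asymm l3] <;>
    first
      | rfl
      | exact absurd (l2.trans (l3.trans l1)) (lt_irrefl _)
      | exact absurd (l2.trans (l1.trans l3)) (lt_irrefl _)

private theorem nm_self {t : V × V × V} (ht : t ∈ F0 T) : nm t = t := by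
  classical
  simp only [F0, Finset.mem_filter, Finset.mem_univ, true_and] at ht
  unfold nm
  rw [if_pos ht.2]

open Classical in
private noncomputable def gh (g : F0 T → K) (t : V × V × V) : K :=
  if h : T.face t.1 t.2.1 t.2.2 then g ⟨nm t, nm_mem T h⟩ else 0

private theorem gh_rt (g : F0 T → K) (t : V × V × V) : gh T K g (rt t) = gh T K g t := by
  classical
  unfold gh
  by_cases h : T.face t.1 t.2.1 t.2.2
  · have h' : T.face (rt t).1 (rt t).2.1 (rt t).2.2 := T.cyc _ _ _ h
    rw [dif_pos h, dif_pos h']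
    congr 1
    exact Subtype.ext (nm_rt T h)
  · have h' : ¬ T.face (rt t).1 (rt t).2.1 (rt t).2.2 := fun h' => h (T.cyc _ _ _ (T.cyc _ _ _ h'))
    rw [dif_neg h, dif_neg h']

private theorem gh_self (g : F0 T → K) (t : F0 T) : gh T K g t.1 = g t := by
  classical
  have h : T.face t.1.1 t.1.2.1 t.1.2.2 := by
    have := t.2
    simp only [F0, Finset.mem_filter, Finset.mem_univ, true_and] at this
    exact this.1
  unfold gh
  rw [dif_pos h]
  congr 1
  exact Subtype.ext (nm_self T t.2)

/-- the boundary of `g` at an edge -/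
private theorem bd_apply (g : F0 T → K) {a b x y : V} (hx : T.face a b x) (hy : T.face b a y) (l : a < b)
    (h : (MM T K).transpose.mulVec g = 0) : gh T K g (a, b, x) = gh T K g (b, a, y) := by
  classical
  have he : (a, b) ∈ E0 T := by
    simp only [E0, Finset.mem_filter, Finset.mem_univ, true_and]
    exact ⟨⟨x, hx⟩, l⟩
  have h1 := congrFun h ⟨(a, b), he⟩
  simp only [Matrix.mulVec, dotProduct, Matrix.transpose_apply, MM, Pi.zero_apply] at h1
  have h2 : ∑ t : F0 T, (ch K (a, b) t.1.1 t.1.2.1 + ch K (a, b) t.1.2.1 t.1.2.2 + ch K (a, b) t.1.2.2 t.1.1) * g t =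
      ∑ t ∈ F0 T, ((fun s : V × V × V => ch K (a, b) s.1 s.2.1 * gh T K g s) t +
        (fun s : V × V × V => ch K (a, b) s.1 s.2.1 * gh T K g s) (rt t) +
        (fun s : V × V × V => ch K (a, b) s.1 s.2.1 * gh T K g s) (rt (rt t))) := by
    rw [← Finset.sum_coe_sort (F0 T)]
    apply Finset.sum_congr rfl
    rintro t _
    simp only [gh_rt, gh_self]
    simp only [rt]
    ring
  rw [h2, ← sum_faces T] at h1
  have hne : (a, b, x) ≠ (b, a, y) := fun h => (T.ne _ _ _ hx) (congrArg Prod.fst h)
  rw [← Finset.sum_subset (s₁ := {(a, b, x), (b, a, y)})] at h1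
  · rw [Finset.sum_pair hne] at h1
    have hab : ¬ a = b := T.ne _ _ _ hx
    have e1 : ch K (a, b) a b = 1 := by simp [ch]
    have e2 : ch K (a, b) b a = -1 := by simp [ch, hab]
    simp only [e1, e2, one_mul, neg_one_mul] at h1
    exact sub_eq_zero.1 (by rw [sub_eq_add_neg]; exact h1)
  · intro s hs
    rw [Finset.mem_insert, Finset.mem_singleton] at hs
    rcases hs with rfl | rfl
    · simpa using hx
    · simpa using hy
  · rintro ⟨u, v, w⟩ hs hs'
    simp only [Finset.mem_filter, Finset.mem_univ, true_and] at hs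
    have : ch K (a, b) u v = 0 := by
      unfold ch
      rw [if_neg, if_neg]
      · rintro ⟨h3, h4⟩
        simp only at h3 h4
        subst h3; subst h4
        apply hs'
        rw [T.uniq _ _ _ _ hs hy]
        simp
      · rintro ⟨h3, h4⟩
        simp only at h3 h4
        subst h3; subst h4
        apply hs'
        rw [T.uniq _ _ _ _ hs hx]
        simp
    simp only [this, zero_mul]

private theorem bd_ker (g : F0 T → K) (h : (MM T K).transpose.mulVec g = 0) (t0 t : F0 T) : g t = g t0 := by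
  classical
  have hadj : ∀ a b x y, T.face a b x → T.face b a y → gh T K g (a, b, x) = gh T K g (b, a, y) := by
    intro a b x y hx hy
    rcases lt_or_gt_of_ne (T.ne _ _ _ hx) with l | l
    · exact bd_apply T K g hx hy l h
    · exact (bd_apply T K g hy hx l h).symm
  have hrot : ∀ a b c, gh T K g (b, c, a) = gh T K g (a, b, c) := fun a b c => gh_rt T K g (a, b, c)
  have hvert : ∀ v a c a' c', T.face v a c → T.face v a' c' → gh T K g (v, a, c) = gh T K g (v, a', c') := by
    intro v a c a' c' h1 h2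
    have := T.link v {x | ∃ y, T.face v x y ∧ gh T K g (v, x, y) = gh T K g (v, a, c)} ⟨a, ⟨c, h1, rfl⟩, c, h1⟩ (by
      rintro x y ⟨y', hy', hg⟩ hxy
      have e := T.uniq _ _ _ _ hxy hy'
      subst e
      have h3 : T.face y v x := T.cyc _ _ _ (T.cyc _ _ _ hxy)
      obtain ⟨d, hd⟩ := T.opp _ _ _ h3
      refine ⟨d, hd, ?_⟩
      rw [← hadj y v x d h3 hd, ← hrot y v x, hg]) a' c' h2
    obtain ⟨y, hy, hg⟩ := this
    rw [T.uniq _ _ _ _ hy h2] at hg
    exact hg.symm
  have ht0 : T.face t0.1.1 t0.1.2.1 t0.1.2.2 := by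
    have := t0.2
    simp only [F0, Finset.mem_filter, Finset.mem_univ, true_and] at this
    exact this.1
  have ht : T.face t.1.1 t.1.2.1 t.1.2.2 := by
    have := t.2
    simp only [F0, Finset.mem_filter, Finset.mem_univ, true_and] at this
    exact this.1
  have := T.conn {v | ∀ b c, T.face v b c → gh T K g (v, b, c) = gh T K g t0.1} ⟨t0.1.1, fun b c hbc =>
    hvert _ _ _ _ _ hbc ht0⟩ (by
      intro a b c hf ha b' c' hbc'
      rw [hvert b b' c' c a hbc' (T.cyc _ _ _ hf), hrot]
      exact ha b c hf)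
  have h2 : t.1.1 ∈ {v | ∀ b c, T.face v b c → gh T K g (v, b, c) = gh T K g t0.1} := by rw [this]; trivial
  have h3 := h2 _ _ ht
  have h4 : gh T K g t.1 = gh T K g t0.1 := h3
  rwa [gh_self, gh_self] at h4

private theorem finrank_ker_bd (hne : (F0 T).Nonempty) :
    Module.finrank K (LinearMap.ker (MM T K).transpose.mulVecLin) ≤ 1 := by
  obtain ⟨t0, ht0⟩ := hne
  have hle : LinearMap.ker (MM T K).transpose.mulVecLin ≤ Submodule.span K {(fun _ => 1 : F0 T → K)} := by
    intro g hg
    rw [LinearMap.mem_ker, Matrix.mulVecLin_apply] at hg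
    rw [Submodule.mem_span_singleton]
    refine ⟨g ⟨t0, ht0⟩, ?_⟩
    funext t
    simp only [Pi.smul_apply, smul_eq_mul, mul_one]
    exact (bd_ker T K g hg ⟨t0, ht0⟩ t).symm
  refine (Submodule.finrank_mono hle).trans ?_
  refine (finrank_span_le_card (R := K) ({(fun _ => 1 : F0 T → K)} : Set (F0 T → K))).trans ?_
  simp

private theorem finrank_ker_dl [Nonempty V] : Module.finrank K (LinearMap.ker (dl T K)) ≤ 1 := by
  obtain ⟨v0⟩ := (inferInstance : Nonempty V)
  have hle : LinearMap.ker (dl T K) ≤ Submodule.span K {(fun _ => 1 : V → K)} := by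
    intro I hI
    rw [LinearMap.mem_ker] at hI
    rw [Submodule.mem_span_singleton]
    refine ⟨I v0, ?_⟩
    funext v
    simp only [Pi.smul_apply, smul_eq_mul, mul_one]
    exact (dl_ker T K I hI v0 v).symm
  refine (Submodule.finrank_mono hle).trans ?_
  refine (finrank_span_le_card (R := K) ({(fun _ => 1 : V → K)} : Set (V → K))).trans ?_
  simp

private theorem range_le : LinearMap.range (dl T K) ≤ LinearMap.ker (MM T K).mulVecLin := by
  rintro _ ⟨I, rfl⟩
  rw [LinearMap.mem_ker, Matrix.mulVecLin_apply]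
  exact coc_ker T K (c := fun a b => I b - I a) (fun a b => by ring) (fun a b x _ => by ring)

private theorem dims (hne : ∃ a b c, T.face a b c) :
    Fintype.card V ≤ Module.finrank K (LinearMap.range (dl T K)) + 1 ∧
    Module.finrank K (LinearMap.ker (MM T K).mulVecLin) + (F0 T).card ≤ (E0 T).card + 1 := by
  classical
  obtain ⟨a, b, c, h⟩ := hne
  have : Nonempty V := ⟨a⟩
  have h1 := LinearMap.finrank_range_add_finrank_ker (dl T K)
  have h2 := finrank_ker_dl T K
  rw [Module.finrank_fintype_fun_eq_card] at h1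
  have h3 := LinearMap.finrank_range_add_finrank_ker (MM T K).mulVecLin
  have h4 := LinearMap.finrank_range_add_finrank_ker (MM T K).transpose.mulVecLin
  have h5 := finrank_ker_bd T K ⟨nm (a, b, c), nm_mem T h⟩
  have h6 : Module.finrank K (LinearMap.range (MM T K).transpose.mulVecLin) =
      Module.finrank K (LinearMap.range (MM T K).mulVecLin) := Matrix.rank_transpose (MM T K)
  rw [Module.finrank_fintype_fun_eq_card, Fintype.card_coe] at h3 h4
  constructor
  · omega
  · omega

end Lin

theorem Tri.euler_le [Finite V] (T : Tri V) (hne : ∃ a b c, T.face a b c) :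
    6 * Nat.card V ≤ T.F.ncard + 12 := by
  classical
  have := Fintype.ofFinite V
  let _ : LinearOrder V := LinearOrder.lift' (Fintype.equivFin V) (Fintype.equivFin V).injective
  obtain ⟨h1, h2⟩ := dims T ℚ hne
  have h3 := Submodule.finrank_mono (range_le T ℚ)
  have h4 := card_F T
  have h5 := card_E T
  rw [Nat.card_eq_fintype_card]
  omega

/-- every (antisymmetric) cocycle is a coboundary -/
theorem Tri.exact {K : Type} [Field K] [Finite V] (T : Tri V) (hT : T.Sph)
    (hne : ∃ a b c, T.face a b c) {κ : V → V → K} (hs : ∀ a b, κ a b = - κ b a)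
    (hf : ∀ a b c, T.face a b c → κ a b + κ b c + κ c a = 0) :
    ∃ h : V → K, ∀ a b, T.G.Adj a b → κ a b = h b - h a := by
  classical
  have := Fintype.ofFinite V
  let _ : LinearOrder V := LinearOrder.lift' (Fintype.equivFin V) (Fintype.equivFin V).injective
  obtain ⟨h1, h2⟩ := dims T K hne
  have h3 := Submodule.finrank_mono (range_le T K)
  have h4 := card_F T
  have h5 := card_E T
  unfold Tri.Sph at hT
  rw [Nat.card_eq_fintype_card] at hT
  have h6 : LinearMap.range (dl T K) = LinearMap.ker (MM T K).mulVecLin :=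
    Submodule.eq_of_le_of_finrank_le (range_le T K) (by omega)
  have h7 : (fun e : E0 T => κ e.1.1 e.1.2) ∈ LinearMap.ker (MM T K).mulVecLin := by
    rw [LinearMap.mem_ker, Matrix.mulVecLin_apply]
    exact coc_ker T K hs hf
  rw [← h6] at h7
  obtain ⟨I, hI⟩ := h7
  have key : ∀ a b, T.G.Adj a b → a < b → κ a b = I b - I a := by
    intro a b h l
    have := congrFun hI ⟨(a, b), by simp only [E0, Finset.mem_filter, Finset.mem_univ, true_and]; exact ⟨h, l⟩⟩
    exact this.symm
  refine ⟨I, fun a b h => ?_⟩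
  rcases lt_or_gt_of_ne h.ne with l | l
  · exact key a b h l
  · rw [hs a b, key b a h.symm l, neg_sub]

theorem Tri.planar [Finite V] (T : Tri V) (hT : T.Sph) (hne : ∃ a b c, T.face a b c)
    {c : V → V → ZMod 2} (hc : T.Coc c) :
    ∃ I : V → ZMod 2, ∀ a b, T.G.Adj a b → c a b = I a + I b := by
  have h2 : ∀ x : ZMod 2, -x = x := by decide
  obtain ⟨h, hh⟩ := T.exact hT hne (κ := c) (fun a b => by rw [h2, hc.symm]) hc.face
  refine ⟨h, fun a b hab => ?_⟩
  rw [hh a b hab, sub_eq_add_neg, h2, add_comm]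

end B306
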