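import Pool.Agent.Lib_MP_b306af.WSit

set_option autoImplicit false

namespace P3W

open P4 P3

variable {V : Type}
variable {T : Tri V} {ι : Type} {F : Fam T ι} {h h' t t' r1 r2 r3 r4 : V}

/-- darts without a common vertex are in different faces -/
theorem apart_disj {a b a' b' : V} (h1 : a ≠ a') (h2 : a ≠ b') (h3 : b ≠ a') (h4 : b ≠ b')
    (h5 : a ≠ b) (h6 : a' ≠ b') : Apart T (a, b) (a', b') := by
  rintro x y z - ⟨g, g'⟩
  simp only [HasD] at g g'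
  rcases g with ⟨rfl, rfl⟩ | ⟨rfl, rfl⟩ | ⟨rfl, rfl⟩ <;>
    rcases g' with ⟨g1, g2⟩ | ⟨g1, g2⟩ | ⟨g1, g2⟩ <;>
    first
    | exact h1 g1
    | exact h2 g2
    | exact h3 g1
    | exact h4 g2
    | exact h1 g1.symm
    | exact h2 g2.symm
    | exact h3 g1.symm
    | exact h4 g2.symm

/-- consecutive darts -/
theorem apart_cons {a b d : V} (h1 : a ≠ b) (h2 : b ≠ d) (h3 : a ≠ d) (h4 : ¬ T.F a b d) :
    Apart T (a, b) (b, d) := by
  rintro x y z hF ⟨g, g'⟩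
  simp only [HasD] at g g'
  rcases g with ⟨rfl, rfl⟩ | ⟨rfl, rfl⟩ | ⟨rfl, rfl⟩ <;>
    rcases g' with ⟨g1, g2⟩ | ⟨g1, g2⟩ | ⟨g1, g2⟩
  · exact h1 g1
  · subst g2
    exact h4 hF
  · exact h3 g2
  · exact h3 g2
  · exact h1 g1
  · subst g2
    exact h4 (T.cyc _ _ _ hF)
  · subst g2
    exact h4 (T.cyc2 hF)
  · exact h3 g2
  · exact h1 g1

theorem Apart.symm {e e' : V × V} (h1 : Apart T e e') : Apart T e' e :=
  fun a b d hF hh => h1 a b d hF ⟨hh.2, hh.1⟩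

/-- the eight octagon darts, in cyclic order -/
def oct (h h' t t' r1 r2 r3 r4 : V) : List (V × V) :=
  [(h, r1), (r1, t), (t, r2), (r2, h'), (h', r4), (r4, t'), (t', r3), (r3, h)]

end P3W
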