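import Pool.Agent.Lib_MP_b306af.WApA

set_option autoImplicit false

namespace P3W

open P4 P3

variable {V : Type}
variable {T : Tri V} {ι : Type} {F : Fam T ι} {h h' t t' r1 r2 r3 r4 : V}

/-- the eight vertices are different, and the apex inequalities -/
structure WapNe (h h' t t' r1 r2 r3 r4 : V) : Prop where
  n1 : h ≠ h'
  n2 : h ≠ t
  n3 : h ≠ t'
  n4 : h ≠ r1
  n5 : h ≠ r2
  n6 : h ≠ r3
  n7 : h ≠ r4
  n8 : h' ≠ t
  n9 : h' ≠ t'
  n10 : h' ≠ r1
  n11 : h' ≠ r2
  n12 : h' ≠ r3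
  n13 : h' ≠ r4
  n14 : t ≠ t'
  n15 : t ≠ r1
  n16 : t ≠ r2
  n17 : t ≠ r3
  n18 : t ≠ r4
  n19 : t' ≠ r1
  n20 : t' ≠ r2
  n21 : t' ≠ r3
  n22 : t' ≠ r4
  n23 : r1 ≠ r2
  n24 : r1 ≠ r3
  n25 : r1 ≠ r4
  n26 : r2 ≠ r3
  n27 : r2 ≠ r4
  n28 : r3 ≠ r4

theorem wap_ne (L : Loc8 T h h' t t' r1 r2 r3 r4) : WapNe h h' t t' r1 r2 r3 r4 := by
  obtain ⟨a1, a2, a3, a4, a5, a6⟩ := L.toLoc.r1_ne
  obtain ⟨b1, b2, b3, b4, b5, b6⟩ := L.toLoc.mirror.r1_ne
  obtain ⟨c1, c2, c3, c4, c5, c6⟩ := L.toLoc.rot.r1_ne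
  obtain ⟨d1, d2, d3, d4, d5, d6⟩ := L.toLoc.rot.mirror.r1_ne
  obtain ⟨e1, e2, e3⟩ := F_ne L.hu
  obtain ⟨g1, g2, g3⟩ := F_ne L.hu'
  exact
    { n1 := e1
      n2 := e3.symm
      n3 := g2
      n4 := a1.symm
      n5 := b2.symm
      n6 := d1.symm
      n7 := c2.symm
      n8 := e2
      n9 := g3.symm
      n10 := a2.symm
      n11 := b1.symm
      n12 := d2.symm
      n13 := c1.symm
      n14 := L.ne
      n15 := a3.symm
      n16 := b3.symm
      n17 := d4.symm
      n18 := c4.symm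
      n19 := a4.symm
      n20 := b4.symm
      n21 := d3.symm
      n22 := c3.symm
      n23 := a5
      n24 := L.r13
      n25 := a6
      n26 := b6
      n27 := L.r24
      n28 := c5.symm }

/-- the four pairs of consecutive darts at `r1, r2, r3, r4` -/
structure WapR (T : Tri V) (h h' t t' r1 r2 r3 r4 : V) : Prop where
  a1 : Apart T (h, r1) (r1, t)
  a2 : Apart T (t, r2) (r2, h')
  a3 : Apart T (h', r4) (r4, t')
  a4 : Apart T (t', r3) (r3, h)

theorem wap_r (L : Loc8 T h h' t t' r1 r2 r3 r4) : WapR T h h' t t' r1 r2 r3 r4 := by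
  have N := wap_ne L
  refine ⟨?_, ?_, ?_, ?_⟩
  · exact apart_cons N.n4 N.n15.symm N.n2 fun g => L.toLoc.nopp L.f1 (T.cyc2 g)
  · exact apart_cons N.n16 N.n11.symm N.n8.symm fun g => L.toLoc.nopp L.f2 (T.cyc2 g)
  · exact apart_cons N.n13 N.n22.symm N.n9 fun g => L.toLoc.nopp L.f4 (T.cyc2 g)
  · exact apart_cons N.n21 N.n6.symm N.n3.symm fun g => L.toLoc.nopp L.f3 (T.cyc2 g)

theorem wap_e1 (L : Loc8 T h h' t t' r1 r2 r3 r4) (e1 : ¬ T.Adj r1 r2) :
    Apart T (r1, t) (t, r2) := by
  have N := wap_ne L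
  exact apart_cons N.n15.symm N.n16 N.n23 fun g => e1 (adj3 g).symm

theorem wap_e2 (L : Loc8 T h h' t t' r1 r2 r3 r4) (e2 : ¬ T.Adj r1 r3) :
    Apart T (r3, h) (h, r1) := by
  have N := wap_ne L
  exact apart_cons N.n6.symm N.n4 N.n24.symm fun g => e2 (adj3 g)

theorem wap_e3 (L : Loc8 T h h' t t' r1 r2 r3 r4) (e3 : ¬ T.Adj r3 r4) :
    Apart T (r4, t') (t', r3) := by
  have N := wap_ne L
  exact apart_cons N.n22.symm N.n21 N.n28.symm fun g => e3 (adj3 g)

theorem wap_e4 (L : Loc8 T h h' t t' r1 r2 r3 r4) (e4 : ¬ T.Adj r2 r4) :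
    Apart T (r2, h') (h', r4) := by
  have N := wap_ne L
  exact apart_cons N.n11.symm N.n13 N.n27 fun g => e4 (adj3 g).symm

/-- no ears: the eight outer faces are different -/
theorem oct_apart (L : Loc8 T h h' t t' r1 r2 r3 r4) (e1 : ¬ T.Adj r1 r2) (e2 : ¬ T.Adj r1 r3)
    (e3 : ¬ T.Adj r3 r4) (e4 : ¬ T.Adj r2 r4) :
    (oct h h' t t' r1 r2 r3 r4).Pairwise (Apart T) := by
  obtain ⟨n1, n2, n3, n4, n5, n6, n7, n8, n9, n10, n11, n12, n13, n14, n15, n16, n17, n18, n19, n20,
    n21, n22, n23, n24, n25, n26, n27, n28⟩ := wap_ne L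
  obtain ⟨a1, a2, a3, a4⟩ := wap_r L
  have g1 := wap_e1 L e1
  have g2 := wap_e2 L e2
  have g3 := wap_e3 L e3
  have g4 := wap_e4 L e4
  simp only [oct, List.pairwise_cons, List.mem_cons, List.not_mem_nil, or_false, forall_eq_or_imp,
    forall_eq, List.Pairwise.nil, and_true, IsEmpty.forall_iff, implies_true, false_imp_iff]
  repeat' apply And.intro
  all_goals first
    | assumption
    | exact Apart.symm (by assumption)
    | (apply apart_disj <;> first | assumption | exact Ne.symm (by assumption))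

/-- ear at `t` only: leave out `(t, r2)` -/
theorem oct_apart_t (L : Loc8 T h h' t t' r1 r2 r3 r4) (e2 : ¬ T.Adj r1 r3)
    (e3 : ¬ T.Adj r3 r4) (e4 : ¬ T.Adj r2 r4) :
    ([(h, r1), (r1, t), (r2, h'), (h', r4), (r4, t'), (t', r3), (r3, h)] : List (V × V)).Pairwise
      (Apart T) := by
  obtain ⟨n1, n2, n3, n4, n5, n6, n7, n8, n9, n10, n11, n12, n13, n14, n15, n16, n17, n18, n19, n20,
    n21, n22, n23, n24, n25, n26, n27, n28⟩ := wap_ne L
  obtain ⟨a1, a2, a3, a4⟩ := wap_r L
  have g2 := wap_e2 L e2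
  have g3 := wap_e3 L e3
  have g4 := wap_e4 L e4
  simp only [oct, List.pairwise_cons, List.mem_cons, List.not_mem_nil, or_false, forall_eq_or_imp,
    forall_eq, List.Pairwise.nil, and_true, IsEmpty.forall_iff, implies_true, false_imp_iff]
  repeat' apply And.intro
  all_goals first
    | assumption
    | exact Apart.symm (by assumption)
    | (apply apart_disj <;> first | assumption | exact Ne.symm (by assumption))

/-- ear at `h` only: leave out `(r3, h)` -/
theorem oct_apart_h (L : Loc8 T h h' t t' r1 r2 r3 r4) (e1 : ¬ T.Adj r1 r2)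
    (e3 : ¬ T.Adj r3 r4) (e4 : ¬ T.Adj r2 r4) :
    ([(r1, t), (h, r1), (t', r3), (r2, h'), (t, r2), (h', r4), (r4, t')] : List (V × V)).Pairwise
      (Apart T) := by
  obtain ⟨n1, n2, n3, n4, n5, n6, n7, n8, n9, n10, n11, n12, n13, n14, n15, n16, n17, n18, n19, n20,
    n21, n22, n23, n24, n25, n26, n27, n28⟩ := wap_ne L
  obtain ⟨a1, a2, a3, a4⟩ := wap_r L
  have g1 := wap_e1 L e1
  have g3 := wap_e3 L e3
  have g4 := wap_e4 L e4
  simp only [oct, List.pairwise_cons, List.mem_cons, List.not_mem_nil, or_false, forall_eq_or_imp,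
    forall_eq, List.Pairwise.nil, and_true, IsEmpty.forall_iff, implies_true, false_imp_iff]
  repeat' apply And.intro
  all_goals first
    | assumption
    | exact Apart.symm (by assumption)
    | (apply apart_disj <;> first | assumption | exact Ne.symm (by assumption))

/-- ears at `t, h` (and perhaps others are absent): chain `b1 - a2 - a1 - d2`, pair `c1, c2` -/
theorem oct_apart_th (L : Loc8 T h h' t t' r1 r2 r3 r4)
    (e3 : ¬ T.Adj r3 r4) (e4 : ¬ T.Adj r2 r4) :
    ([(r2, h'), (r1, t), (h, r1), (t', r3), (h', r4), (r4, t')] : List (V × V)).Pairwise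
      (Apart T) := by
  obtain ⟨n1, n2, n3, n4, n5, n6, n7, n8, n9, n10, n11, n12, n13, n14, n15, n16, n17, n18, n19, n20,
    n21, n22, n23, n24, n25, n26, n27, n28⟩ := wap_ne L
  obtain ⟨a1, a2, a3, a4⟩ := wap_r L
  have g3 := wap_e3 L e3
  have g4 := wap_e4 L e4
  simp only [oct, List.pairwise_cons, List.mem_cons, List.not_mem_nil, or_false, forall_eq_or_imp,
    forall_eq, List.Pairwise.nil, and_true, IsEmpty.forall_iff, implies_true, false_imp_iff]
  repeat' apply And.intro
  all_goals first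
    | assumption
    | exact Apart.symm (by assumption)
    | (apply apart_disj <;> first | assumption | exact Ne.symm (by assumption))

/-- ears at `t, t'` -/
theorem oct_apart_tt (L : Loc8 T h h' t t' r1 r2 r3 r4) (e2 : ¬ T.Adj r1 r3)
    (e4 : ¬ T.Adj r2 r4) :
    ([(h, r1), (r1, t), (r2, h'), (h', r4), (r4, t'), (r3, h)] : List (V × V)).Pairwise
      (Apart T) := by
  obtain ⟨n1, n2, n3, n4, n5, n6, n7, n8, n9, n10, n11, n12, n13, n14, n15, n16, n17, n18, n19, n20,
    n21, n22, n23, n24, n25, n26, n27, n28⟩ := wap_ne L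
  obtain ⟨a1, a2, a3, a4⟩ := wap_r L
  have g2 := wap_e2 L e2
  have g4 := wap_e4 L e4
  simp only [oct, List.pairwise_cons, List.mem_cons, List.not_mem_nil, or_false, forall_eq_or_imp,
    forall_eq, List.Pairwise.nil, and_true, IsEmpty.forall_iff, implies_true, false_imp_iff]
  repeat' apply And.intro
  all_goals first
    | assumption
    | exact Apart.symm (by assumption)
    | (apply apart_disj <;> first | assumption | exact Ne.symm (by assumption))

/-- ears at `h, h'` -/
theorem oct_apart_hh (L : Loc8 T h h' t t' r1 r2 r3 r4) (e1 : ¬ T.Adj r1 r2)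
    (e3 : ¬ T.Adj r3 r4) :
    ([(r1, t), (h, r1), (t', r3), (r4, t'), (h', r4), (t, r2)] : List (V × V)).Pairwise
      (Apart T) := by
  obtain ⟨n1, n2, n3, n4, n5, n6, n7, n8, n9, n10, n11, n12, n13, n14, n15, n16, n17, n18, n19, n20,
    n21, n22, n23, n24, n25, n26, n27, n28⟩ := wap_ne L
  obtain ⟨a1, a2, a3, a4⟩ := wap_r L
  have g1 := wap_e1 L e1
  have g3 := wap_e3 L e3
  simp only [oct, List.pairwise_cons, List.mem_cons, List.not_mem_nil, or_false, forall_eq_or_imp,
    forall_eq, List.Pairwise.nil, and_true, IsEmpty.forall_iff, implies_true, false_imp_iff]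
  repeat' apply And.intro
  all_goals first
    | assumption
    | exact Apart.symm (by assumption)
    | (apply apart_disj <;> first | assumption | exact Ne.symm (by assumption))

/-- ears at `t, h, h'` (not `t'`): chain `c2 - c1 - a2 - a1 - d2` -/
theorem oct_apart_3 (L : Loc8 T h h' t t' r1 r2 r3 r4) (e3 : ¬ T.Adj r3 r4) :
    ([(r4, t'), (h', r4), (r1, t), (h, r1), (t', r3)] : List (V × V)).Pairwise (Apart T) := by
  obtain ⟨n1, n2, n3, n4, n5, n6, n7, n8, n9, n10, n11, n12, n13, n14, n15, n16, n17, n18, n19, n20,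
    n21, n22, n23, n24, n25, n26, n27, n28⟩ := wap_ne L
  obtain ⟨a1, a2, a3, a4⟩ := wap_r L
  have g3 := wap_e3 L e3
  simp only [oct, List.pairwise_cons, List.mem_cons, List.not_mem_nil, or_false, forall_eq_or_imp,
    forall_eq, List.Pairwise.nil, and_true, IsEmpty.forall_iff, implies_true, false_imp_iff]
  repeat' apply And.intro
  all_goals first
    | assumption
    | exact Apart.symm (by assumption)
    | (apply apart_disj <;> first | assumption | exact Ne.symm (by assumption))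

/-- ears at `t, h, t'` (not `h'`): chain `b1 - a2 - a1 - d2 - c1` -/
theorem oct_apart_3' (L : Loc8 T h h' t t' r1 r2 r3 r4) (e4 : ¬ T.Adj r2 r4) :
    ([(r2, h'), (r1, t), (h, r1), (t', r3), (h', r4)] : List (V × V)).Pairwise (Apart T) := by
  obtain ⟨n1, n2, n3, n4, n5, n6, n7, n8, n9, n10, n11, n12, n13, n14, n15, n16, n17, n18, n19, n20,
    n21, n22, n23, n24, n25, n26, n27, n28⟩ := wap_ne L
  obtain ⟨a1, a2, a3, a4⟩ := wap_r L
  have g4 := wap_e4 L e4
  simp only [oct, List.pairwise_cons, List.mem_cons, List.not_mem_nil, or_false, forall_eq_or_imp,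
    forall_eq, List.Pairwise.nil, and_true, IsEmpty.forall_iff, implies_true, false_imp_iff]
  repeat' apply And.intro
  all_goals first
    | assumption
    | exact Apart.symm (by assumption)
    | (apply apart_disj <;> first | assumption | exact Ne.symm (by assumption))

/-- four ears -/
theorem oct_apart_4 (L : Loc8 T h h' t t' r1 r2 r3 r4) :
    ([(r1, t), (h, r1), (t', r3), (r2, h')] : List (V × V)).Pairwise (Apart T) := by
  obtain ⟨n1, n2, n3, n4, n5, n6, n7, n8, n9, n10, n11, n12, n13, n14, n15, n16, n17, n18, n19, n20,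
    n21, n22, n23, n24, n25, n26, n27, n28⟩ := wap_ne L
  obtain ⟨a1, a2, a3, a4⟩ := wap_r L
  simp only [oct, List.pairwise_cons, List.mem_cons, List.not_mem_nil, or_false, forall_eq_or_imp,
    forall_eq, List.Pairwise.nil, and_true, IsEmpty.forall_iff, implies_true, false_imp_iff]
  repeat' apply And.intro
  all_goals first
    | assumption
    | exact Apart.symm (by assumption)
    | (apply apart_disj <;> first | assumption | exact Ne.symm (by assumption))

end P3W
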