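import Pool.Agent.Lib_MP_b306af.WSit

set_option autoImplicit false

namespace P3W

open P4 P3

variable {V : Type}
variable {T : Tri V} {ι : Type} {F : Fam T ι} {h h' t t' r1 r2 r3 r4 : V}

/-- the face on the left of `y z` is bichromatic if `y` and `z` have different colours -/
theorem bi_of_ne {c : V → Bool} {y z : V} (h1 : c y ≠ c z) : Bi T c (y, z) := by
  rintro a b d - g ⟨m1, m2⟩
  simp only [HasD] at g
  rcases g with ⟨rfl, rfl⟩ | ⟨rfl, rfl⟩ | ⟨rfl, rfl⟩
  · exact h1 m1
  · exact h1 m2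
  · exact h1 (m1.trans m2).symm

/-- or if the apex has another colour -/
theorem bi_of_apex {c : V → Bool} {y z p : V} (hp : T.F y z p) (h1 : c y ≠ c p) :
    Bi T c (y, z) := by
  rintro a b d hF g ⟨m1, m2⟩
  rcases hasD_cyc hp hF g with ⟨rfl, rfl, rfl⟩ | ⟨rfl, rfl, rfl⟩ | ⟨rfl, rfl, rfl⟩
  · exact h1 (m1.trans m2)
  · exact h1 m2.symm
  · exact h1 m1.symm

/-- tree colourings: the outer face at the octagon dart `y z` with both ends in the list and the
apex not in the list -/
theorem bi_colL {L : List V} {b : Bool} {y z : V} (hy : y ∈ L) (hyz : T.Adj y z)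
    (hp : ∀ p, T.F y z p → p ∉ L) : Bi T (colL L b) (y, z) := by
  obtain ⟨p, hF⟩ := hyz
  refine bi_of_apex hF ?_
  rw [colL_mem hy, colL_nmem (hp p hF)]
  cases b <;> simp

end P3W
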