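import Pool.Agent.Lib_MP_b306af.WApB
import Pool.Agent.Lib_MP_b306af.WApC

set_option autoImplicit false

namespace P3W

open P4 P3

variable {V : Type}
variable {T : Tri V} {ι : Type} {F : Fam T ι} {h h' t t' r1 r2 r3 r4 : V}

/-- the same with `VAL` -/
theorem val_colL (hK : LinkOne T) (F : Fam T ι) {L : List V} (hL : TreeList T L) (b : Bool)
    (h1 : colL L b h = true) (h2 : colL L b h' = true) (h3 : colL L b t = false)
    (h4 : colL L b t' = false) (E : List (V × V)) (hE : E.Pairwise (Apart T))
    (hb : ∀ e ∈ E, Bi T (colL L b) e) :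
    VAL T h h' t t' F (E.map fun e => f (F.wd e.1 e.2)).sum :=
  ⟨colL L b, tree_bond hK hL b, h1, h2, h3, h4, combine0 F _ E hE hb⟩

end P3W
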