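import Pool.Agent.Lib_MP_b306af.WCutB

set_option autoImplicit false

namespace P3W

open P4 P3

variable {V : Type} {T To Ti : Tri V} {ι : Type}

theorem wcutd_not {p q x : V} (hC : IsCut T To Ti p q x) :
    ¬ To.F q p x ∧ ¬ Ti.F p q x ∧ ¬ T.F p q x ∧ ¬ T.F q p x := by
  have h1 : ¬ To.F q p x := by
    intro h
    obtain ⟨v, hv, n1, n2, n3⟩ := hC.ino
    rcases F0 hC.fo h v hv with e | e | e
    · exact n1 e
    · exact n2 e
    · exact n3 e
  have h2 : ¬ Ti.F p q x := by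
    intro h
    obtain ⟨v, hv, n1, n2, n3⟩ := hC.ini
    rcases F0 h hC.fi v hv with e | e | e
    · exact n1 e
    · exact n2 e
    · exact n3 e
  refine ⟨h1, h2, ?_, ?_⟩
  · intro h
    rcases (hC.iff p q x).1 h with ⟨_, h3⟩ | ⟨h3, _⟩
    · exact h3 (Or.inl ⟨rfl, rfl, rfl⟩)
    · exact h2 h3
  · intro h
    rcases (hC.iff q p x).1 h with ⟨h3, _⟩ | ⟨_, h3⟩
    · exact h1 h3
    · exact h3 (Or.inl ⟨rfl, rfl, rfl⟩)

theorem wcutd_corner {p q x h h' t : V} (hC : IsCut T To Ti p q x) (h1 : To.F h h' t)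
    (h1' : T.F h h' t) (h2 : Ti.Adj h' h) :
    ∃ d, To.F h' h d ∧ Ti.F h h' d ∧ (d = p ∨ d = q ∨ d = x) ∧
      (∀ c : V → Bool, c h = true → c h' = true → c d = false → ¬ Mono c p q x) ∧
      (∀ v, (v = p ∨ v = q ∨ v = x) ↔ (v = h ∨ v = h' ∨ v = d)) := by
  obtain ⟨n1, n2, n3, n4⟩ := wcutd_not hC
  have hh : h = p ∨ h = q ∨ h = x := hC.supp h ⟨h', t, h1⟩ h2.symm.supp
  have hh' : h' = p ∨ h' = q ∨ h' = x := hC.supp h' ⟨t, h, To.cyc _ _ _ h1⟩ h2.supp
  have hne : h ≠ h' := To.ne _ _ _ h1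
  have fo := hC.fo
  have fi := hC.fi
  have fo2 := To.cyc _ _ _ fo
  have fo3 := To.cyc2 fo
  have fi2 := Ti.cyc _ _ _ fi
  have fi3 := Ti.cyc2 fi
  have hmono : ∀ c : V → Bool, Mono c p q x → c p = c q ∧ c q = c x := fun c h => h
  rcases hh with rfl | rfl | rfl <;> rcases hh' with rfl | rfl | rfl
  · exact absurd rfl hne
  · -- h = p, h' = q
    have e := To.uniq _ _ _ _ h1 fo
    subst e
    exact absurd h1' n3
  · -- h = p, h' = x : To.F x p q, Ti.F p x q
    refine ⟨q, fo3, fi2, Or.inr (Or.inl rfl), ?_, ?_⟩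
    · intro c c1 c2 c3 hm
      have := (hmono c hm).1
      rw [c1, c3] at this
      exact Bool.noConfusion this
    · intro v
      tauto
  · -- h = q, h' = p
    refine ⟨x, fo, fi, Or.inr (Or.inr rfl), ?_, ?_⟩
    · intro c c1 c2 c3 hm
      have := (hmono c hm).2
      rw [c1, c3] at this
      exact Bool.noConfusion this
    · intro v
      tauto
  · exact absurd rfl hne
  · -- h = q, h' = x
    have e := To.uniq _ _ _ _ h1 fo2
    subst e
    exact absurd (T.cyc2 h1') n3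
  · -- h = x, h' = p
    have e := To.uniq _ _ _ _ h1 fo3
    subst e
    exact absurd (T.cyc _ _ _ h1') n3
  · -- h = x, h' = q
    refine ⟨p, fo2, fi3, Or.inl rfl, ?_, ?_⟩
    · intro c c1 c2 c3 hm
      have := (hmono c hm).1
      rw [c3, c2] at this
      exact Bool.noConfusion this
    · intro v
      tauto
  · exact absurd rfl hne

/-- Case 0b: one root face in each part; the root edge is an edge of the triangle, third corner `d`. -/
theorem cut_case_b [Finite V] {p q x h h' t t' : V} (hC : IsCut T To Ti p q x)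
    (hTo : TT To) (hTi : TT Ti) (h1 : To.F h h' t) (h2 : Ti.F h' h t')
    (h1' : T.F h h' t) (h2' : T.F h' h t') (F : Fam T ι) : VAL T h h' t t' F (f F.tot) := by
  classical
  obtain ⟨d, hod, hid, hd, hmono, hcor⟩ := wcutd_corner hC h1 h1' ⟨t', h2⟩
  obtain ⟨Do, Di, hdisj, hun, hDo, hDi⟩ := cut_sums hC F
  have htd : t ≠ d := by
    rintro rfl
    obtain ⟨v, hv, m1, m2, m3⟩ := hC.ino
    have h3 := (hcor v).2 (F0 h1 hod v hv)
    rcases h3 with e | e | e
    · exact m1 e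
    · exact m2 e
    · exact m3 e
  have hdt : d ≠ t' := by
    rintro rfl
    obtain ⟨v, hv, m1, m2, m3⟩ := hC.ini
    have h3 := (hcor v).2 (F0 hid h2 v hv)
    rcases h3 with e | e | e
    · exact m1 e
    · exact m2 e
    · exact m3 e
  have hpos : ∀ i ∈ F.D, 0 ≤ F.w i := F.pos
  have hDoD : ∀ i ∈ Do, i ∈ F.D := fun i hi => by rw [← hun]; exact Finset.mem_union_left _ hi
  have hDiD : ∀ i ∈ Di, i ∈ F.D := fun i hi => by rw [← hun]; exact Finset.mem_union_right _ hi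
  let Fo : Fam To ι := ⟨Do, F.p, F.q, F.x, F.w, hDo, fun i hi => hpos i (hDoD i hi)⟩
  let Fi : Fam Ti ι := ⟨Di, F.p, F.q, F.x, F.w, hDi, fun i hi => hpos i (hDiD i hi)⟩
  obtain ⟨co, bo, o1, o2, o3, o4, o5⟩ := hTo h h' t d h1 hod htd ι Fo
  obtain ⟨ci, bi, i1, i2, i3, i4, i5⟩ := hTi h h' d t' hid h2 hdt ι Fi
  have hcc : ∀ v, (v = h ∨ v = h' ∨ v = d) → co v = ci v := by
    rintro v (rfl | rfl | rfl)
    · rw [o1, i1]
    · rw [o2, i2]
    · rw [o4, i3]
  have hpqx : ∀ v, (v = p ∨ v = q ∨ v = x) → co v = ci v := fun v hv => hcc v ((hcor v).1 hv)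
  have hso : ∀ v, To.Supp v → glue To co ci v = co v := fun v hv => by
    unfold glue
    rw [if_pos hv]
  have hsi : ∀ v, Ti.Supp v → glue To co ci v = ci v := fun v hv => by
    unfold glue
    by_cases h3 : To.Supp v
    · rw [if_pos h3]
      exact hpqx v (hC.supp v h3 hv)
    · rw [if_neg h3]
  refine ⟨glue To co ci, cut_bond hC bo bi (hpqx p (Or.inl rfl)) (hpqx q (Or.inr (Or.inl rfl)))
    (hpqx x (Or.inr (Or.inr rfl))) (hmono co o1 o2 o4), ?_, ?_, ?_, ?_, ?_⟩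
  · rw [hso h ⟨h', t, h1⟩, o1]
  · rw [hso h' ⟨t, h, To.cyc _ _ _ h1⟩, o2]
  · rw [hso t ⟨h, h', To.cyc2 h1⟩, o3]
  · rw [hsi t' ⟨h', h, Ti.cyc2 h2⟩, i4]
  · have hs3 : ∀ {S : Tri V} {a b c : V}, S.F a b c → S.Supp a ∧ S.Supp b ∧ S.Supp c :=
      fun {S a b c} h3 => ⟨⟨b, c, h3⟩, ⟨c, a, S.cyc _ _ _ h3⟩, ⟨a, b, S.cyc2 h3⟩⟩
    have hg : F.gain (glue To co ci) = Fo.gain co + Fi.gain ci := by
      unfold Fam.gain
      rw [← hun, Finset.filter_union, Finset.sum_union]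
      · congr 1
        · refine Finset.sum_congr ?_ fun _ _ => rfl
          refine Finset.filter_congr fun i hi => ?_
          obtain ⟨a1, a2, a3⟩ := hs3 (hDo i hi)
          show ¬ Mono (glue To co ci) (F.p i) (F.q i) (F.x i) ↔ ¬ Mono co (F.p i) (F.q i) (F.x i)
          unfold Mono
          rw [hso _ a1, hso _ a2, hso _ a3]
        · refine Finset.sum_congr ?_ fun _ _ => rfl
          refine Finset.filter_congr fun i hi => ?_
          obtain ⟨a1, a2, a3⟩ := hs3 (hDi i hi)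
          show ¬ Mono (glue To co ci) (F.p i) (F.q i) (F.x i) ↔ ¬ Mono ci (F.p i) (F.q i) (F.x i)
          unfold Mono
          rw [hsi _ a1, hsi _ a2, hsi _ a3]
      · exact Finset.disjoint_filter_filter hdisj
    have ht : F.tot = Fo.tot + Fi.tot := by
      unfold Fam.tot
      rw [← hun, Finset.sum_union hdisj]
    rw [hg, ht]
    exact (f_add (tot_nonneg Fo) (tot_nonneg Fi)).trans (add_le_add o5 i5)

end P3W
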