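import Pool.Agent.Lib_MP_b306af.WCutC
import Pool.Agent.Lib_MP_b306af.WCutD

set_option autoImplicit false

namespace P3W

open P4 P3

variable {V : Type} {T To Ti : Tri V} {ι : Type}

/-- the case of a separating triangle -/
theorem cut_case [Finite V] (hCut : CutEx V) (T : Tri V) (IH : ∀ T' : Tri V, nv T' < nv T → TT T')
    {p q x : V} (hS : Sep T p q x) : TT T := by
  intro h h' t t' h1 h2 h3 ι F
  obtain ⟨To, Ti, hC, hr⟩ := hCut T p q x h h' t hS h1
  rcases hC with hC | hC
  · by_cases h4 : To.F h' h t'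
    · exact cut_case_a hC (IH _ (cut_nv_o hC)) (IH _ (cut_nv_i hC)) hr h4 h3 h1 h2 F
    · have h5 : Ti.F h' h t' := by
        rcases (hC.iff _ _ _).1 h2 with h6 | h6
        · exact absurd h6.1 h4
        · exact h6.1
      exact cut_case_b hC (IH _ (cut_nv_o hC)) (IH _ (cut_nv_i hC)) hr h5 h1 h2 F
  · by_cases h4 : To.F h' h t'
    · exact cut_case_a hC (IH _ (cut_nv_o hC)) (IH _ (cut_nv_i hC)) hr h4 h3 h1 h2 F
    · have h5 : Ti.F h' h t' := by
        rcases (hC.iff _ _ _).1 h2 with h6 | h6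
        · exact absurd h6.1 h4
        · exact h6.1
      exact cut_case_b hC (IH _ (cut_nv_o hC)) (IH _ (cut_nv_i hC)) hr h5 h1 h2 F

end P3W
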