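import Pool.Agent.Lib_MP_b306af.WKA

set_option autoImplicit false

namespace P3W

open P4 P3

variable {V : Type}
variable {T : Tri V} {ι : Type} {F : Fam T ι} {h h' t t' r1 r2 r3 r4 : V}

/-- ear at `t` only. `¬ r1 r4`: `[r4, r3, r1, h', h]`; otherwise `¬ r2 r3`: `[r4, r3, r2, h', h]`;
`b = true`. The ear `(r1, t, r2)` contains exactly one vertex of the list. -/
theorem K1t (H : Sit T ι F h h' t t' r1 r2 r3 r4) (e1 : T.Adj r1 r2) (e2 : ¬ T.Adj r1 r3)
    (e3 : ¬ T.Adj r3 r4) (e4 : ¬ T.Adj r2 r4) :
    VAL T h h' t t' F (f (F.wd h r1) + f (F.wd r1 t) + f (F.wd r2 h') +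
      f (F.wd h' r4) + f (F.wd r4 t') + f (F.wd t' r3) + f (F.wd r3 h)) := by
  have N := H.L.nodup
  have D := H.L.nadj
  have a1 : T.Adj h' h := adj1 H.L.hu'
  have b1 : T.Adj r1 h := adj3 H.L.f1
  have b2 : T.Adj r1 t := (adj2 H.L.f1).symm
  have b3 : T.Adj r2 t := adj3 H.L.f2
  have b4 : T.Adj r2 h' := (adj2 H.L.f2).symm
  have b5 : T.Adj r3 h := (adj2 H.L.f3).symm
  have b6 : T.Adj r3 t' := adj3 H.L.f3
  have b7 : T.Adj r4 h' := adj3 H.L.f4
  have b8 : T.Adj r4 t' := (adj2 H.L.f4).symm
  obtain ⟨d1, d2, d3, d4, d5, d6, d7, d8, d9⟩ := D
  simp only [List.nodup_cons, List.mem_cons, List.not_mem_nil, or_false, not_or,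
    List.nodup_nil, not_false_eq_true, and_true] at N
  have ear := H.L.ear_t e1
  by_cases c14 : T.Adj r1 r4
  · have c23 : ¬ T.Adj r2 r3 := fun k => H.jordan ⟨c14, k⟩
    have hT : TreeList T [r4, r3, r2, h', h] := by
      refine WKA_tree_cons b7.supp (by simp only [List.mem_cons, List.not_mem_nil, or_false]; grind) (by simp)
        (b7) (by
          intro z hz hne
          simp only [List.mem_cons, List.not_mem_nil, or_false] at hz
          grind [Tri.Adj.symm]) ?_
      refine WKA_tree_cons b5.supp (by simp only [List.mem_cons, List.not_mem_nil, or_false]; grind) (by simp)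
        (b5) (by
          intro z hz hne
          simp only [List.mem_cons, List.not_mem_nil, or_false] at hz
          grind [Tri.Adj.symm]) ?_
      refine WKA_tree_cons b4.supp (by simp only [List.mem_cons, List.not_mem_nil, or_false]; grind) (by simp)
        (b4) (by
          intro z hz hne
          simp only [List.mem_cons, List.not_mem_nil, or_false] at hz
          grind [Tri.Adj.symm]) ?_
      refine WKA_tree_cons a1.supp (by simp only [List.mem_cons, List.not_mem_nil, or_false]; grind) (by simp)
        (a1) (by
          intro z hz hne
          simp only [List.mem_cons, List.not_mem_nil, or_false] at hz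
          grind [Tri.Adj.symm]) ?_
      exact a1.symm.supp
    have key := val_colL H.link F hT true (h := h) (h' := h') (t := t) (t' := t')
      (colL_mem (by simp)) (colL_mem (by simp)) (colL_nmem (by simp only [List.mem_cons, List.not_mem_nil, or_false]; grind)) (colL_nmem (by simp only [List.mem_cons, List.not_mem_nil, or_false]; grind))
      _ (oct_apart_t H.L e2 e3 e4) (by
        simp only [List.forall_mem_cons, List.not_mem_nil, false_imp_iff, implies_true, and_true]
        refine ⟨WKA_ne1 (by simp) (by simp only [List.mem_cons, List.not_mem_nil, or_false]; grind),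
          WKA_ap (ear) (by simp only [List.mem_cons, List.not_mem_nil, or_false]; grind) (by simp),
          bi_colL (by simp) (b4) ?_,
          bi_colL (by simp) (b7.symm) ?_,
          WKA_ne1 (by simp) (by simp only [List.mem_cons, List.not_mem_nil, or_false]; grind),
          WKA_ne2 (by simp only [List.mem_cons, List.not_mem_nil, or_false]; grind) (by simp),
          bi_colL (by simp) (b5) ?_⟩
        · intro p hp
          have := (apex_all H.L).2.2.2.1 p hp
          simp only [List.mem_cons, List.not_mem_nil, or_false] at this ⊢
          grind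
        · intro p hp
          have := (apex_all H.L).2.2.2.2.1 p hp
          simp only [List.mem_cons, List.not_mem_nil, or_false] at this ⊢
          grind
        · intro p hp
          have := (apex_all H.L).2.2.2.2.2.2.2 p hp
          simp only [List.mem_cons, List.not_mem_nil, or_false] at this ⊢
          grind)
    simp only [List.map_cons, List.map_nil, List.sum_cons, List.sum_nil] at key
    have e : f (F.wd h r1) + f (F.wd r1 t) + f (F.wd r2 h') + f (F.wd h' r4) + f (F.wd r4 t') + f (F.wd t' r3) + f (F.wd r3 h) =
        f (F.wd h r1) + (f (F.wd r1 t) + (f (F.wd r2 h') + (f (F.wd h' r4) + (f (F.wd r4 t') + (f (F.wd t' r3) + (f (F.wd r3 h) + 0)))))) := by ring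
    rw [e]
    exact key
  · have hT : TreeList T [r4, r3, r1, h', h] := by
      refine WKA_tree_cons b7.supp (by simp only [List.mem_cons, List.not_mem_nil, or_false]; grind) (by simp)
        (b7) (by
          intro z hz hne
          simp only [List.mem_cons, List.not_mem_nil, or_false] at hz
          grind [Tri.Adj.symm]) ?_
      refine WKA_tree_cons b5.supp (by simp only [List.mem_cons, List.not_mem_nil, or_false]; grind) (by simp)
        (b5) (by
          intro z hz hne
          simp only [List.mem_cons, List.not_mem_nil, or_false] at hz
          grind [Tri.Adj.symm]) ?_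
      refine WKA_tree_cons b1.supp (by simp only [List.mem_cons, List.not_mem_nil, or_false]; grind) (by simp)
        (b1) (by
          intro z hz hne
          simp only [List.mem_cons, List.not_mem_nil, or_false] at hz
          grind [Tri.Adj.symm]) ?_
      refine WKA_tree_cons a1.supp (by simp only [List.mem_cons, List.not_mem_nil, or_false]; grind) (by simp)
        (a1) (by
          intro z hz hne
          simp only [List.mem_cons, List.not_mem_nil, or_false] at hz
          grind [Tri.Adj.symm]) ?_
      exact a1.symm.supp
    have key := val_colL H.link F hT true (h := h) (h' := h') (t := t) (t' := t')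
      (colL_mem (by simp)) (colL_mem (by simp)) (colL_nmem (by simp only [List.mem_cons, List.not_mem_nil, or_false]; grind)) (colL_nmem (by simp only [List.mem_cons, List.not_mem_nil, or_false]; grind))
      _ (oct_apart_t H.L e2 e3 e4) (by
        simp only [List.forall_mem_cons, List.not_mem_nil, false_imp_iff, implies_true, and_true]
        refine ⟨bi_colL (by simp) (b1.symm) ?_,
          WKA_ne1 (by simp) (by simp only [List.mem_cons, List.not_mem_nil, or_false]; grind),
          WKA_ne2 (by simp only [List.mem_cons, List.not_mem_nil, or_false]; grind) (by simp),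
          bi_colL (by simp) (b7.symm) ?_,
          WKA_ne1 (by simp) (by simp only [List.mem_cons, List.not_mem_nil, or_false]; grind),
          WKA_ne2 (by simp only [List.mem_cons, List.not_mem_nil, or_false]; grind) (by simp),
          bi_colL (by simp) (b5) ?_⟩
        · intro p hp
          have := (apex_all H.L).1 p hp
          simp only [List.mem_cons, List.not_mem_nil, or_false] at this ⊢
          grind
        · intro p hp
          have := (apex_all H.L).2.2.2.2.1 p hp
          simp only [List.mem_cons, List.not_mem_nil, or_false] at this ⊢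
          grind
        · intro p hp
          have := (apex_all H.L).2.2.2.2.2.2.2 p hp
          simp only [List.mem_cons, List.not_mem_nil, or_false] at this ⊢
          grind)
    simp only [List.map_cons, List.map_nil, List.sum_cons, List.sum_nil] at key
    have e : f (F.wd h r1) + f (F.wd r1 t) + f (F.wd r2 h') + f (F.wd h' r4) + f (F.wd r4 t') + f (F.wd t' r3) + f (F.wd r3 h) =
        f (F.wd h r1) + (f (F.wd r1 t) + (f (F.wd r2 h') + (f (F.wd h' r4) + (f (F.wd r4 t') + (f (F.wd t' r3) + (f (F.wd r3 h) + 0)))))) := by ring
    rw [e]
    exact key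

end P3W
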