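import Pool.Agent.Lib_MP_b306af.WKA

set_option autoImplicit false

namespace P3W

open P4 P3

variable {V : Type}
variable {T : Tri V} {ι : Type} {F : Fam T ι} {h h' t t' r1 r2 r3 r4 : V}

/-- ears at `t` and `t'`: `[r3, r1, h', h]`, `b = true`. -/
theorem Ktt (H : Sit T ι F h h' t t' r1 r2 r3 r4) (e1 : T.Adj r1 r2) (e2 : ¬ T.Adj r1 r3)
    (e3 : T.Adj r3 r4) (e4 : ¬ T.Adj r2 r4) :
    VAL T h h' t t' F (f (F.wd h r1) + f (F.wd r1 t) + f (F.wd r2 h') +
      f (F.wd h' r4) + f (F.wd r4 t') + f (F.wd r3 h)) := by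
  have A := apex_all H.L
  have N := H.L.nodup
  have D := H.L.nadj
  have a1 : T.Adj h' h := adj1 H.L.hu'
  have a2 : T.Adj r1 h := adj3 H.L.f1
  have a3 : T.Adj r3 h := (adj2 H.L.f3).symm
  have a4 : T.Adj h' r4 := (adj3 H.L.f4).symm
  have ear := H.L.rot.ear_t e3.symm
  obtain ⟨A1, A2, A3, A4, A5, A6, A7, A8⟩ := A
  obtain ⟨d1, d2, d3, d4, d5, d6, d7, d8, d9⟩ := D
  simp only [List.nodup_cons, List.mem_cons, List.not_mem_nil, or_false, not_or,
    List.nodup_nil, not_false_eq_true, and_true] at N A1 A8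
  have hT : TreeList T [r3, r1, h', h] := by
    refine WKA_tree_cons a3.supp (by grind) (by grind) a3 (by grind [Tri.Adj.symm]) ?_
    refine WKA_tree_cons a2.supp (by grind) (by grind) a2 (by grind [Tri.Adj.symm]) ?_
    refine WKA_tree_cons a1.supp (by grind) (by grind) a1 (by grind [Tri.Adj.symm]) ?_
    exact a1.symm.supp
  have key := val_colL H.link F hT true (h := h) (h' := h') (t := t) (t' := t')
    (colL_mem (by grind)) (colL_mem (by grind)) (colL_nmem (by grind)) (colL_nmem (by grind))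
    _ (oct_apart_tt H.L e2 e4) (by
      simp only [List.forall_mem_cons, List.not_mem_nil, false_imp_iff, implies_true, and_true]
      refine ⟨bi_colL (by grind) a2.symm ?_, WKA_ne1 (by grind) (by grind),
        WKA_ne2 (by grind) (by grind), WKA_ne1 (by grind) (by grind),
        WKA_ap ear (by grind) (by grind), bi_colL (by grind) a3 ?_⟩
      · intro p hp
        have := A1 p hp
        grind
      · intro p hp
        have := A8 p hp
        grind)
  simp only [List.map_cons, List.map_nil, List.sum_cons, List.sum_nil] at key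
  have e : f (F.wd h r1) + f (F.wd r1 t) + f (F.wd r2 h') +
      f (F.wd h' r4) + f (F.wd r4 t') + f (F.wd r3 h) =
      f (F.wd h r1) + (f (F.wd r1 t) + (f (F.wd r2 h') +
      (f (F.wd h' r4) + (f (F.wd r4 t') + (f (F.wd r3 h) + 0))))) := by ring
  rw [e]
  exact key

end P3W
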