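import Pool.Agent.Lib_MP_b306af.WKA

set_option autoImplicit false

namespace P3W

open P4 P3

variable {V : Type}
variable {T : Tri V} {ι : Type} {F : Fam T ι} {h h' t t' r1 r2 r3 r4 : V}

/-- four ears, `b = true`: `¬ r1 r4`: `[r4, r1, h', h]`; otherwise `[r3, r2, h', h]`. -/
theorem K4 (H : Sit T ι F h h' t t' r1 r2 r3 r4) (e1 : T.Adj r1 r2) (e2 : T.Adj r1 r3)
    (e3 : T.Adj r3 r4) (e4 : T.Adj r2 r4) :
    VAL T h h' t t' F (f (F.wd r1 t) + f (F.wd h r1) + f (F.wd t' r3) + f (F.wd r2 h')) := by
  have L := H.L
  have na := L.nadj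
  have nd := L.nodup
  simp only [List.nodup_cons, List.mem_cons, List.not_mem_nil, or_false, not_or,
    List.nodup_nil, and_true, not_false_eq_true] at nd
  obtain ⟨⟨n1, n2, n3, n4, n5, n6, n7⟩, ⟨n8, n9, n10, n11, n12, n13⟩, ⟨n14, n15, n16, n17, n18⟩,
    ⟨n19, n20, n21, n22⟩, ⟨n23, n24, n25⟩, ⟨n26, n27⟩, n28⟩ := nd
  have A := apex_all L
  have hE := oct_apart_4 L
  have hsum : (([(r1, t), (h, r1), (t', r3), (r2, h')] : List (V × V)).map
      fun e => f (F.wd e.1 e.2)).sum =
      f (F.wd r1 t) + f (F.wd h r1) + f (F.wd t' r3) + f (F.wd r2 h') := by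
    simp only [List.map_cons, List.map_nil, List.sum_cons, List.sum_nil]
    ring
  have ahh : T.Adj h' h := adj1 L.hu'
  have ah1 : T.Adj h r1 := (adj3 L.f1).symm
  have ah3 : T.Adj h r3 := adj2 L.f3
  have ah2 : T.Adj h' r2 := adj2 L.f2
  have ah4 : T.Adj h' r4 := (adj3 L.f4).symm
  by_cases h14 : T.Adj r1 r4
  · have h23 : ¬ T.Adj r2 r3 := fun hh => H.jordan ⟨h14, hh⟩
    have hT : TreeList T [r3, r2, h', h] := by
      refine ⟨ah3.symm.supp, ?_, ⟨h, by simp, ah3.symm, ?_⟩, ah2.symm.supp, ?_,
        ⟨h', by simp, ah2.symm, ?_⟩, ahh.supp, ?_, ⟨h, by simp, ahh, ?_⟩, ahh.symm.supp⟩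
      · simp only [List.mem_cons, List.not_mem_nil, or_false, not_or]
        exact ⟨fun hh => n26 hh.symm, fun hh => n12 hh.symm, fun hh => n6 hh.symm⟩
      · intro z hz hzz
        simp only [List.mem_cons, List.not_mem_nil, or_false] at hz
        rcases hz with rfl | rfl | rfl
        · exact absurd hzz.symm h23
        · exact absurd hzz.symm na.h'r3
        · rfl
      · simp only [List.mem_cons, List.not_mem_nil, or_false, not_or]
        exact ⟨fun hh => n11 hh.symm, fun hh => n5 hh.symm⟩
      · intro z hz hzz
        simp only [List.mem_cons, List.not_mem_nil, or_false] at hz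
        rcases hz with rfl | rfl
        · rfl
        · exact absurd hzz.symm na.hr2
      · simp only [List.mem_cons, List.not_mem_nil, or_false]
        exact fun hh => n1 hh.symm
      · intro z hz _
        simpa using hz
    have c3 : colL [r3, r2, h', h] true t = false := colL_nmem (by
      simp only [List.mem_cons, List.not_mem_nil, or_false, not_or]
      exact ⟨n17, n16, fun hh => n8 hh.symm, fun hh => n2 hh.symm⟩)
    have c4 : colL [r3, r2, h', h] true t' = false := colL_nmem (by
      simp only [List.mem_cons, List.not_mem_nil, or_false, not_or]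
      exact ⟨n21, n20, fun hh => n9 hh.symm, fun hh => n3 hh.symm⟩)
    have c5 : colL [r3, r2, h', h] true r1 = false := colL_nmem (by
      simp only [List.mem_cons, List.not_mem_nil, or_false, not_or]
      exact ⟨n24, n23, fun hh => n10 hh.symm, fun hh => n4 hh.symm⟩)
    have ch : colL [r3, r2, h', h] true h = true := colL_mem (by simp)
    have ch' : colL [r3, r2, h', h] true h' = true := colL_mem (by simp)
    have cr2 : colL [r3, r2, h', h] true r2 = true := colL_mem (by simp)
    have cr3 : colL [r3, r2, h', h] true r3 = true := colL_mem (by simp)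
    have := val_colL H.link F hT true ch ch' c3 c4 _ hE (by
      intro e he
      simp only [List.mem_cons, List.not_mem_nil, or_false] at he
      rcases he with rfl | rfl | rfl | rfl
      · exact bi_of_apex (L.ear_t e1) (by rw [c5, cr2]; decide)
      · exact bi_of_ne (by rw [ch, c5]; decide)
      · exact bi_of_ne (by rw [cr3, c4]; decide)
      · refine bi_colL (by simp) ah2.symm ?_
        intro p hp hh
        have := (A.2.2.2.1 p hp).1
        simp only [List.mem_cons, List.not_mem_nil, or_false, not_or] at this hh
        tauto)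
    rwa [hsum] at this
  · have hT : TreeList T [r4, r1, h', h] := by
      refine ⟨ah4.symm.supp, ?_, ⟨h', by simp, ah4.symm, ?_⟩, ah1.symm.supp, ?_,
        ⟨h, by simp, ah1.symm, ?_⟩, ahh.supp, ?_, ⟨h, by simp, ahh, ?_⟩, ahh.symm.supp⟩
      · simp only [List.mem_cons, List.not_mem_nil, or_false, not_or]
        exact ⟨fun hh => n25 hh.symm, fun hh => n13 hh.symm, fun hh => n7 hh.symm⟩
      · intro z hz hzz
        simp only [List.mem_cons, List.not_mem_nil, or_false] at hz
        rcases hz with rfl | rfl | rfl
        · exact absurd hzz.symm h14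
        · rfl
        · exact absurd hzz.symm na.hr4
      · simp only [List.mem_cons, List.not_mem_nil, or_false, not_or]
        exact ⟨fun hh => n10 hh.symm, fun hh => n4 hh.symm⟩
      · intro z hz hzz
        simp only [List.mem_cons, List.not_mem_nil, or_false] at hz
        rcases hz with rfl | rfl
        · exact absurd hzz.symm na.h'r1
        · rfl
      · simp only [List.mem_cons, List.not_mem_nil, or_false]
        exact fun hh => n1 hh.symm
      · intro z hz _
        simpa using hz
    have c3 : colL [r4, r1, h', h] true t = false := colL_nmem (by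
      simp only [List.mem_cons, List.not_mem_nil, or_false, not_or]
      exact ⟨n18, n15, fun hh => n8 hh.symm, fun hh => n2 hh.symm⟩)
    have c4 : colL [r4, r1, h', h] true t' = false := colL_nmem (by
      simp only [List.mem_cons, List.not_mem_nil, or_false, not_or]
      exact ⟨n22, n19, fun hh => n9 hh.symm, fun hh => n3 hh.symm⟩)
    have c5 : colL [r4, r1, h', h] true r2 = false := colL_nmem (by
      simp only [List.mem_cons, List.not_mem_nil, or_false, not_or]
      exact ⟨n27, fun hh => n23 hh.symm, fun hh => n11 hh.symm, fun hh => n5 hh.symm⟩)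
    have ch : colL [r4, r1, h', h] true h = true := colL_mem (by simp)
    have ch' : colL [r4, r1, h', h] true h' = true := colL_mem (by simp)
    have cr1 : colL [r4, r1, h', h] true r1 = true := colL_mem (by simp)
    have cr4 : colL [r4, r1, h', h] true r4 = true := colL_mem (by simp)
    have he4 : T.F r4 t' r3 := L.rot.ear_t e3.symm
    have := val_colL H.link F hT true ch ch' c3 c4 _ hE (by
      intro e he
      simp only [List.mem_cons, List.not_mem_nil, or_false] at he
      rcases he with rfl | rfl | rfl | rfl
      · exact bi_of_ne (by rw [cr1, c3]; decide)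
      · refine bi_colL (by simp) ah1 ?_
        intro p hp hh
        have := (A.1 p hp).1
        simp only [List.mem_cons, List.not_mem_nil, or_false, not_or] at this hh
        tauto
      · exact bi_of_apex (T.cyc _ _ _ he4) (by rw [c4, cr4]; decide)
      · exact bi_of_ne (by rw [c5, ch']; decide))
    rwa [hsum] at this

end P3W
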