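import Pool.Agent.Lib_MP_b306af.WKB
import Pool.Agent.Lib_MP_b306af.WKC
import Pool.Agent.Lib_MP_b306af.WKD
import Pool.Agent.Lib_MP_b306af.WKE
import Pool.Agent.Lib_MP_b306af.WKF
import Pool.Agent.Lib_MP_b306af.WKG

set_option autoImplicit false

namespace P3W

open P4 P3

variable {V : Type}
variable {T : Tri V} {ι : Type} {F : Fam T ι} {h h' t t' r1 r2 r3 r4 : V}



end P3W
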