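import Pool.Agent.Lib_MP_b306af.WPI
import Pool.Agent.Lib_MP_b306af.WK
import Pool.Agent.Lib_MP_b306af.WCut

/-!
# MP_b306af, WF: assembly of Theorem TT and of the weighted face theorem
-/

set_option autoImplicit false

namespace P3W

open P4 P3

variable {V : Type} [Finite V]
variable {T : Tri V} {ι : Type} {F : Fam T ι} {h h' t t' r1 r2 r3 r4 : V}

/-- ear `t` and ear `h`, not `h'`, not `t'` -/
theorem asm_th (H : Sit T ι F h h' t t' r1 r2 r3 r4) (e1 : T.Adj r1 r2) (e2 : T.Adj r1 r3)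
    (e3 : ¬ T.Adj r3 r4) (e4 : ¬ T.Adj r2 r4) : False := by
  have hs := sum_wd_le F _ (oct_apart_th H.L e3 e4)
  simp only [List.map_cons, List.map_nil, List.sum_cons, List.sum_nil, add_zero] at hs
  have ht := H.irT e1
  have hh := H.irH e2
  have e5 : F.wd t r2 = F.wd r1 t := (wd_rot F (H.L.ear_t e1)).symm
  have e6 : F.wd r3 h = F.wd h r1 := wd_rot F (H.L.ear_h e2)
  have pA := H.prA
  have pB := H.prB
  have pC := H.prC
  have pD := H.prD
  rw [e5] at pB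
  rw [e6] at pD
  have pA' : Pr F.tot (F.wd r1 t) (F.wd h r1) := by
    unfold Pr at pA ⊢
    have e : F.tot - F.wd r1 t - F.wd h r1 = F.tot - F.wd h r1 - F.wd r1 t := by ring
    rw [e]
    exact ⟨pA.2, pA.1⟩
  exact pat2adj (wd_nonneg F _ _) (wd_nonneg F _ _) (wd_nonneg F _ _) (wd_nonneg F _ _)
    (wd_nonneg F _ _) (wd_nonneg F _ _) (by linarith) pB pA' pD pC ht.symm hh

theorem asm_0 (H : Sit T ι F h h' t t' r1 r2 r3 r4) (e1 : ¬ T.Adj r1 r2) (e2 : ¬ T.Adj r1 r3)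
    (e3 : ¬ T.Adj r3 r4) (e4 : ¬ T.Adj r2 r4) : False := by
  have hs := sum_wd_le F _ (oct_apart H.L e1 e2 e3 e4)
  simp only [oct, List.map_cons, List.map_nil, List.sum_cons, List.sum_nil, add_zero] at hs
  have K := H.lt (K0 H e1 e2 e3 e4)
  exact pat0 (wd_nonneg F _ _) (wd_nonneg F _ _) (wd_nonneg F _ _) (wd_nonneg F _ _)
    (wd_nonneg F _ _) (wd_nonneg F _ _) (wd_nonneg F _ _) (wd_nonneg F _ _) (by linarith)
    H.prA H.prB H.prC H.prD (by linarith)

theorem Pr.symm {S u v : ℝ} (h : Pr S u v) : Pr S v u := by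
  unfold Pr at h ⊢
  have e : S - v - u = S - u - v := by ring
  rw [e]
  exact ⟨h.2, h.1⟩

theorem asm_t (H : Sit T ι F h h' t t' r1 r2 r3 r4) (e1 : T.Adj r1 r2) (e2 : ¬ T.Adj r1 r3)
    (e3 : ¬ T.Adj r3 r4) (e4 : ¬ T.Adj r2 r4) : False := by
  have hs := sum_wd_le F _ (oct_apart_t H.L e2 e3 e4)
  simp only [List.map_cons, List.map_nil, List.sum_cons, List.sum_nil, add_zero] at hs
  have K := H.lt (K1t H e1 e2 e3 e4)
  have e5 : F.wd t r2 = F.wd r1 t := (wd_rot F (H.L.ear_t e1)).symm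
  have pB := H.prB
  rw [e5] at pB
  exact pat1 (wd_nonneg F _ _) (wd_nonneg F _ _) (wd_nonneg F _ _) (wd_nonneg F _ _)
    (wd_nonneg F _ _) (wd_nonneg F _ _) (wd_nonneg F _ _) (by linarith)
    H.prA pB.symm H.prC H.prD (H.irT e1) (by linarith)

theorem asm_h (H : Sit T ι F h h' t t' r1 r2 r3 r4) (e1 : ¬ T.Adj r1 r2) (e2 : T.Adj r1 r3)
    (e3 : ¬ T.Adj r3 r4) (e4 : ¬ T.Adj r2 r4) : False := by
  have hs := sum_wd_le F _ (oct_apart_h H.L e1 e3 e4)
  simp only [List.map_cons, List.map_nil, List.sum_cons, List.sum_nil, add_zero] at hs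
  have K := H.lt (K1h H e1 e2 e3 e4)
  have e6 : F.wd r3 h = F.wd h r1 := wd_rot F (H.L.ear_h e2)
  have pD := H.prD
  rw [e6] at pD
  exact pat1 (wd_nonneg F _ _) (wd_nonneg F _ _) (wd_nonneg F _ _) (wd_nonneg F _ _)
    (wd_nonneg F _ _) (wd_nonneg F _ _) (wd_nonneg F _ _) (by linarith)
    H.prA.symm pD H.prB H.prC (H.irH e2) (by linarith)

theorem asm_tt (H : Sit T ι F h h' t t' r1 r2 r3 r4) (e1 : T.Adj r1 r2) (e2 : ¬ T.Adj r1 r3)
    (e3 : T.Adj r3 r4) (e4 : ¬ T.Adj r2 r4) : False := by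
  have hs := sum_wd_le F _ (oct_apart_tt H.L e2 e4)
  simp only [List.map_cons, List.map_nil, List.sum_cons, List.sum_nil, add_zero] at hs
  have K := H.lt (Ktt H e1 e2 e3 e4)
  have e5 : F.wd t r2 = F.wd r1 t := (wd_rot F (H.L.ear_t e1)).symm
  have e6 : F.wd t' r3 = F.wd r4 t' := (wd_rot F (H.L.rot.ear_t e3.symm)).symm
  have pB := H.prB
  have pD := H.prD
  rw [e5] at pB
  rw [e6] at pD
  exact pat2opp (wd_nonneg F _ _) (wd_nonneg F _ _) (wd_nonneg F _ _) (wd_nonneg F _ _)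
    (wd_nonneg F _ _) (wd_nonneg F _ _) (by linarith)
    H.prA pB.symm H.prC pD.symm (H.irT e1) (by linarith)

theorem asm_hh (H : Sit T ι F h h' t t' r1 r2 r3 r4) (e1 : ¬ T.Adj r1 r2) (e2 : T.Adj r1 r3)
    (e3 : ¬ T.Adj r3 r4) (e4 : T.Adj r2 r4) : False := by
  have hs := sum_wd_le F _ (oct_apart_hh H.L e1 e3)
  simp only [List.map_cons, List.map_nil, List.sum_cons, List.sum_nil, add_zero] at hs
  have K := H.lt (Khh H e1 e2 e3 e4)
  have e6 : F.wd r3 h = F.wd h r1 := wd_rot F (H.L.ear_h e2)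
  have e7 : F.wd r2 h' = F.wd h' r4 := wd_rot F (H.L.rot.ear_h e4.symm)
  have pD := H.prD
  have pB := H.prB
  rw [e6] at pD
  rw [e7] at pB
  exact pat2opp (wd_nonneg F _ _) (wd_nonneg F _ _) (wd_nonneg F _ _) (wd_nonneg F _ _)
    (wd_nonneg F _ _) (wd_nonneg F _ _) (by linarith)
    H.prA.symm pD H.prC.symm pB (H.irH e2) (by linarith)

/-- ears `t, h, h'`, not `t'` -/
theorem asm_3 (H : Sit T ι F h h' t t' r1 r2 r3 r4) (e1 : T.Adj r1 r2) (e2 : T.Adj r1 r3)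
    (e3 : ¬ T.Adj r3 r4) (e4 : T.Adj r2 r4) : False := by
  have hs := sum_wd_le F _ (oct_apart_3 H.L e3)
  simp only [List.map_cons, List.map_nil, List.sum_cons, List.sum_nil, add_zero] at hs
  have e5 : F.wd t r2 = F.wd r1 t := (wd_rot F (H.L.ear_t e1)).symm
  have e7 : F.wd r2 h' = F.wd h' r4 := wd_rot F (H.L.rot.ear_h e4.symm)
  have i1 := H.irH' e4
  rw [e5] at i1
  have i2 := H.irT e1
  rw [e7] at i2
  exact pat3 (wd_nonneg F _ _) (wd_nonneg F _ _) (wd_nonneg F _ _) (wd_nonneg F _ _)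
    (wd_nonneg F _ _) (by linarith) i1 i2.symm (H.irH e2)

/-- ears `t, h, t'`, not `h'` -/
theorem asm_3' (H : Sit T ι F h h' t t' r1 r2 r3 r4) (e1 : T.Adj r1 r2) (e2 : T.Adj r1 r3)
    (e3 : T.Adj r3 r4) (e4 : ¬ T.Adj r2 r4) : False := by
  have hs := sum_wd_le F _ (oct_apart_3' H.L e4)
  simp only [List.map_cons, List.map_nil, List.sum_cons, List.sum_nil, add_zero] at hs
  have e6 : F.wd r3 h = F.wd h r1 := wd_rot F (H.L.ear_h e2)
  have e8 : F.wd t' r3 = F.wd r4 t' := (wd_rot F (H.L.rot.ear_t e3.symm)).symm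
  have i1 := H.irT e1
  have i2 := H.irH e2
  have i3 := H.irT' e3
  rw [e6, ← e8] at i3
  exact pat3 (wd_nonneg F _ _) (wd_nonneg F _ _) (wd_nonneg F _ _) (wd_nonneg F _ _)
    (wd_nonneg F _ _) (by linarith) i1.symm i2 i3.symm

/-- four ears -/
theorem asm_4 (H : Sit T ι F h h' t t' r1 r2 r3 r4) (e1 : T.Adj r1 r2) (e2 : T.Adj r1 r3)
    (e3 : T.Adj r3 r4) (e4 : T.Adj r2 r4) : False := by
  have hs := sum_wd_le F _ (oct_apart_4 H.L)
  simp only [List.map_cons, List.map_nil, List.sum_cons, List.sum_nil, add_zero] at hs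
  have K := H.lt (K4 H e1 e2 e3 e4)
  have e5 : F.wd t r2 = F.wd r1 t := (wd_rot F (H.L.ear_t e1)).symm
  have e6 : F.wd r3 h = F.wd h r1 := wd_rot F (H.L.ear_h e2)
  have e7 : F.wd r2 h' = F.wd h' r4 := wd_rot F (H.L.rot.ear_h e4.symm)
  have e8 : F.wd t' r3 = F.wd r4 t' := (wd_rot F (H.L.rot.ear_t e3.symm)).symm
  have i1 := H.irT e1
  have i2 := H.irH e2
  have i3 := H.irT' e3
  have i4 := H.irH' e4
  rw [e6, ← e8, ← e7] at i3
  rw [← e8, ← e7, e5] at i4
  exact pat4 (wd_nonneg F _ _) (wd_nonneg F _ _) (wd_nonneg F _ _) (wd_nonneg F _ _)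
    (by linarith) i1.symm i2 i3.symm i4 (by linarith)

/-- all sixteen cases -/
theorem asm_all (H : Sit T ι F h h' t t' r1 r2 r3 r4) : False := by
  have Hr := H.rot
  have Hm := H.mirror
  have Hrm := H.rot.mirror
  have ma := Tri.mirror_Adj T
  by_cases e1 : T.Adj r1 r2 <;> by_cases e2 : T.Adj r1 r3 <;> by_cases e3 : T.Adj r3 r4 <;>
    by_cases e4 : T.Adj r2 r4
  · exact asm_4 H e1 e2 e3 e4
  · exact asm_3' H e1 e2 e3 e4
  · exact asm_3 H e1 e2 e3 e4
  · exact asm_th H e1 e2 e3 e4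
  · -- t, t', h' : mirror of asm_3'
    exact asm_3' Hm ((ma _ _).2 e1.symm) ((ma _ _).2 e4) ((ma _ _).2 e3.symm)
      (fun hh => e2 ((ma _ _).1 hh))
  · exact asm_tt H e1 e2 e3 e4
  · -- t, h'
    exact asm_th Hm ((ma _ _).2 e1.symm) ((ma _ _).2 e4) (fun hh => e3 ((ma _ _).1 hh).symm)
      (fun hh => e2 ((ma _ _).1 hh))
  · exact asm_t H e1 e2 e3 e4
  · -- h, t', h' : rotation of asm_3
    exact asm_3 Hr e3.symm e4.symm (fun hh => e1 hh.symm) e2.symm
  · -- h, t'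
    exact asm_th Hrm ((ma _ _).2 e3) ((ma _ _).2 e2.symm) (fun hh => e1 ((ma _ _).1 hh))
      (fun hh => e4 ((ma _ _).1 hh).symm)
  · exact asm_hh H e1 e2 e3 e4
  · exact asm_h H e1 e2 e3 e4
  · -- t', h'
    exact asm_th Hr e3.symm e4.symm (fun hh => e1 hh.symm) (fun hh => e2 hh.symm)
  · -- t'
    exact asm_t Hr e3.symm (fun hh => e4 hh.symm) (fun hh => e1 hh.symm) (fun hh => e2 hh.symm)
  · -- h'
    exact asm_h Hr (fun hh => e3 hh.symm) e4.symm (fun hh => e1 hh.symm) (fun hh => e2 hh.symm)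
  · exact asm_0 H e1 e2 e3 e4

/-- **Theorem TT** -/
theorem tt_all (hLink : ∀ T : Tri V, LinkOne T) (hCon : ContrEx V) (hCut : CutEx V)
    (hJ : Jordan4 V) : ∀ T : Tri V, TT T := by
  suffices H : ∀ n : ℕ, ∀ T : Tri V, nv T = n → TT T from fun T => H _ T rfl
  intro n
  induction n using Nat.strong_induction_on with
  | _ n ih =>
    intro T hT
    have IH : ∀ T' : Tri V, nv T' < nv T → TT T' := fun T' hT' => ih _ (by omega) T' rfl
    by_cases hS : ∃ p q x, Sep T p q x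
    · obtain ⟨p, q, x, hS⟩ := hS
      exact cut_case hCut T IH hS
    · have hNT : NT T := by
        intro a b d h1 h2 h3
        by_contra hc
        push_neg at hc
        exact hS ⟨a, b, d, h1, h2, h3, hc.1, hc.2⟩
      intro h h' t t' h1 h2 h3 ι F
      by_cases ha : T.Adj t t'
      · exact case_adj hNT h1 h2 h3 ha F
      · obtain ⟨r1, f1⟩ := T.opp _ _ _ (T.cyc2 h1)
        obtain ⟨r2, f2⟩ := T.opp _ _ _ (T.cyc _ _ _ h1)
        obtain ⟨r3, f3⟩ := T.opp _ _ _ (T.cyc _ _ _ h2)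
        obtain ⟨r4, f4⟩ := T.opp _ _ _ (T.cyc2 h2)
        have L : Loc T h h' t t' r1 r2 r3 r4 := ⟨hNT, h1, h2, ha, h3, f1, f2, f3, f4⟩
        by_cases h13 : r1 = r3
        · exact lossless L IH hCon F h13
        · by_cases h24 : r2 = r4
          · exact (lossless L.rot IH hCon F h24.symm).of_rot
          · by_contra hno
            have L8 : Loc8 T h h' t t' r1 r2 r3 r4 := ⟨L, h13, h24⟩
            have hj : ¬ (T.Adj r1 r4 ∧ T.Adj r2 r3) := by
              have nd := L8.nodup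
              have hh := hJ T h h' t t' r1 r2 r3 r4 h1 h2 f1 f2 f3 f4 h13 h24
              simp only [List.nodup_cons, List.mem_cons, List.not_mem_nil, or_false, not_or] at nd
              exact hh (by tauto) (by tauto) (by tauto) (by tauto) (by tauto) (by tauto) (by tauto)
            exact asm_all ⟨L8, hLink T, IH, hCon, hj, hno⟩

end P3W
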