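import Pool.Agent.Lib_MP_b306af.WBasic0

set_option autoImplicit false

namespace P3W

open P4 P3

variable {V : Type} {T : Tri V} {ι : Type}

/-- a set of points closed under taking the third vertex contains all vertices -/
private theorem WBasA_closed {S : V → Prop}
    (hS : ∀ x y z, S x → S y → T.F x y z → S z) {a b d : V} (h : T.F a b d) (ha : S a)
    (hb : S b) (v : V) (hv : T.Supp v) : S v := by
  obtain ⟨x, y, hF⟩ := hv
  have h1 := T.trans (fun x y => S x ∧ S y) (fun x y z h h' => ⟨h'.2, hS x y z h'.1 h'.2 h⟩)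
    (fun x y z _ h' => ⟨h'.2, h'.1⟩) a b d v x y h hF ⟨ha, hb⟩
  exact h1.1

/-- (F0) two opposite faces on the same three vertices: there are no other vertices.
Proof: `T.trans` with `P x y := x, y ∈ {a, b, d}`. -/
theorem F0 {a b d : V} (h1 : T.F a b d) (h2 : T.F b a d) (v : V) (hv : T.Supp v) :
    v = a ∨ v = b ∨ v = d := by
  have h3 := T.cyc _ _ _ h1
  have h4 := T.cyc2 h1
  have h5 := T.cyc _ _ _ h2
  have h6 := T.cyc2 h2
  refine WBasA_closed (S := fun v => v = a ∨ v = b ∨ v = d) ?_ h1 (Or.inl rfl)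
    (Or.inr (Or.inl rfl)) v hv
  rintro x y z (rfl | rfl | rfl) (rfl | rfl | rfl) hF <;>
    first
    | exact absurd rfl (T.ne _ _ _ hF)
    | exact Or.inr (Or.inr (T.uniq _ _ _ _ hF h1))
    | exact Or.inr (Or.inr (T.uniq _ _ _ _ hF h2))
    | exact Or.inl (T.uniq _ _ _ _ hF h3)
    | exact Or.inr (Or.inl (T.uniq _ _ _ _ hF h4))
    | exact Or.inr (Or.inl (T.uniq _ _ _ _ hF h5))
    | exact Or.inl (T.uniq _ _ _ _ hF h6)

/-- four faces which close up to a tetrahedron -/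
theorem K4closed {h h' t t' : V} (h1 : T.F h h' t) (h2 : T.F h' h t') (h3 : T.F h t t')
    (h4 : T.F t h' t') (v : V) (hv : T.Supp v) : v = h ∨ v = h' ∨ v = t ∨ v = t' := by
  have a1 := T.cyc _ _ _ h1
  have a2 := T.cyc2 h1
  have b1 := T.cyc _ _ _ h2
  have b2 := T.cyc2 h2
  have c1 := T.cyc _ _ _ h3
  have c2 := T.cyc2 h3
  have d1 := T.cyc _ _ _ h4
  have d2 := T.cyc2 h4
  refine WBasA_closed (S := fun v => v = h ∨ v = h' ∨ v = t ∨ v = t') ?_ h1 (Or.inl rfl)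
    (Or.inr (Or.inl rfl)) v hv
  rintro x y z (rfl | rfl | rfl | rfl) (rfl | rfl | rfl | rfl) hF <;>
    first
    | exact absurd rfl (T.ne _ _ _ hF)
    | exact Or.inr (Or.inr (Or.inl (T.uniq _ _ _ _ hF h1)))
    | exact Or.inl (T.uniq _ _ _ _ hF a1)
    | exact Or.inr (Or.inl (T.uniq _ _ _ _ hF a2))
    | exact Or.inr (Or.inr (Or.inr (T.uniq _ _ _ _ hF h2)))
    | exact Or.inr (Or.inl (T.uniq _ _ _ _ hF b1))
    | exact Or.inl (T.uniq _ _ _ _ hF b2)
    | exact Or.inr (Or.inr (Or.inr (T.uniq _ _ _ _ hF h3)))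
    | exact Or.inl (T.uniq _ _ _ _ hF c1)
    | exact Or.inr (Or.inr (Or.inl (T.uniq _ _ _ _ hF c2)))
    | exact Or.inr (Or.inr (Or.inr (T.uniq _ _ _ _ hF h4)))
    | exact Or.inr (Or.inr (Or.inl (T.uniq _ _ _ _ hF d1)))
    | exact Or.inr (Or.inl (T.uniq _ _ _ _ hF d2))

end P3W
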