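import Pool.Agent.Lib_MP_b306af.WBasic0

set_option autoImplicit false

namespace P3W

open P4 P3

variable {V : Type} {T : Tri V} {ι : Type}

theorem LinkOne.mirror (h : LinkOne T) : LinkOne T.mirror := by
  intro v Q hQ a b ha hb hqa
  rw [Tri.mirror_Adj] at ha hb
  by_contra hqb
  refine h v (fun z => ¬ Q z) ?_ b a hb ha hqb hqa
  intro p q hF hp hq
  refine hp (hQ q p ?_ hq)
  exact T.cyc2 hF

/-- if the four points `b, d, e, g` are the link of `v` (in this order) then `v` has no other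
neighbours -/
theorem link4 (hL : LinkOne T) {v b d e g : V} (h1 : T.F v b d) (h2 : T.F v d e) (h3 : T.F v e g)
    (h4 : T.F v g b) (z : V) (hz : T.Adj v z) : z = b ∨ z = d ∨ z = e ∨ z = g := by
  refine hL v (fun z => z = b ∨ z = d ∨ z = e ∨ z = g) ?_ b z (adj1 h1) hz (Or.inl rfl)
  rintro p q hF (rfl | rfl | rfl | rfl)
  · exact Or.inr (Or.inl (T.uniq _ _ _ _ hF h1))
  · exact Or.inr (Or.inr (Or.inl (T.uniq _ _ _ _ hF h2)))
  · exact Or.inr (Or.inr (Or.inr (T.uniq _ _ _ _ hF h3)))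
  · exact Or.inl (T.uniq _ _ _ _ hF h4)

theorem link5 (hL : LinkOne T) {v b d e g k : V} (h1 : T.F v b d) (h2 : T.F v d e) (h3 : T.F v e g)
    (h4 : T.F v g k) (h5 : T.F v k b) (z : V) (hz : T.Adj v z) :
    z = b ∨ z = d ∨ z = e ∨ z = g ∨ z = k := by
  refine hL v (fun z => z = b ∨ z = d ∨ z = e ∨ z = g ∨ z = k) ?_ b z (adj1 h1) hz (Or.inl rfl)
  rintro p q hF (rfl | rfl | rfl | rfl | rfl)
  · exact Or.inr (Or.inl (T.uniq _ _ _ _ hF h1))
  · exact Or.inr (Or.inr (Or.inl (T.uniq _ _ _ _ hF h2)))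
  · exact Or.inr (Or.inr (Or.inr (Or.inl (T.uniq _ _ _ _ hF h3))))
  · exact Or.inr (Or.inr (Or.inr (Or.inr (T.uniq _ _ _ _ hF h4))))
  · exact Or.inl (T.uniq _ _ _ _ hF h5)

end P3W
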