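import Pool.Agent.Lib_MP_b306af.WBasic0

set_option autoImplicit false

namespace P3W

open P4 P3

variable {V : Type} {T : Tri V} {ι : Type}

/-- weight of the left face does not depend on the chosen dart of the face -/
theorem wd_rot (F : Fam T ι) {a b d : V} (h : T.F a b d) : F.wd a b = F.wd b d := by
  classical
  unfold Fam.wd
  congr 1
  ext i
  simp only [Finset.mem_filter]
  refine and_congr_right fun hi => ?_
  have hf := F.face i hi
  constructor
  · intro hd
    rcases hasD_cyc h hf hd with ⟨h1, h2, h3⟩ | ⟨h1, h2, h3⟩ | ⟨h1, h2, h3⟩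
    · exact Or.inr (Or.inl ⟨h2, h3⟩)
    · exact Or.inl ⟨h1, h2⟩
    · exact Or.inr (Or.inr ⟨h3, h1⟩)
  · intro hd
    rcases hasD_cyc (T.cyc _ _ _ h) hf hd with ⟨h1, h2, h3⟩ | ⟨h1, h2, h3⟩ | ⟨h1, h2, h3⟩
    · exact Or.inr (Or.inr ⟨h3, h1⟩)
    · exact Or.inr (Or.inl ⟨h2, h3⟩)
    · exact Or.inl ⟨h1, h2⟩

theorem wd_mirror (F : Fam T ι) (y z : V) : F.mirror.wd y z = F.wd z y := by
  classical
  unfold Fam.wd
  have h : (F.mirror.D.filter fun i => HasD y z (F.mirror.p i) (F.mirror.q i) (F.mirror.x i)) =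
      F.D.filter fun i => HasD z y (F.p i) (F.q i) (F.x i) := by
    ext i
    simp only [Finset.mem_filter]
    show i ∈ F.D ∧ HasD y z (F.q i) (F.p i) (F.x i) ↔ i ∈ F.D ∧ HasD z y (F.p i) (F.q i) (F.x i)
    unfold HasD
    tauto
  rw [h]
  rfl

theorem bond_mirror (c : V → Bool) : Bond T.mirror c ↔ Bond T c := by
  have h1 : T.mirror.Adj = T.Adj := by
    funext a b
    exact propext (T.mirror_Adj a b)
  have h2 : ∀ b : Bool, {v | T.mirror.Supp v ∧ c v = b} = {v | T.Supp v ∧ c v = b} := by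
    intro b
    ext v
    simp only [Set.mem_setOf_eq, Tri.mirror_Supp]
  unfold Bond
  simp only [h1, h2]

theorem gain_mirror (F : Fam T ι) (c : V → Bool) : F.mirror.gain c = F.gain c := by
  unfold Fam.gain
  have h : (F.mirror.D.filter fun i => ¬ Mono c (F.mirror.p i) (F.mirror.q i) (F.mirror.x i)) =
      F.D.filter fun i => ¬ Mono c (F.p i) (F.q i) (F.x i) := by
    ext i
    simp only [Finset.mem_filter]
    show i ∈ F.D ∧ ¬ Mono c (F.q i) (F.p i) (F.x i) ↔ i ∈ F.D ∧ ¬ Mono c (F.p i) (F.q i) (F.x i)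
    unfold Mono
    refine and_congr_right fun _ => not_congr ?_
    constructor
    · rintro ⟨h1, h2⟩
      exact ⟨h1.symm, h1.trans h2⟩
    · rintro ⟨h1, h2⟩
      exact ⟨h1.symm, h1.trans h2⟩
  rw [h]
  rfl

end P3W
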