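import Pool.Agent.Lib_MP_b306af.WBasA
import Pool.Agent.Lib_MP_b306af.WBasB
import Pool.Agent.Lib_MP_b306af.WBasC

set_option autoImplicit false

namespace P3W

open P4 P3

variable {V : Type} {T : Tri V} {ι : Type}

theorem wd_nonneg (F : Fam T ι) (a b : V) : 0 ≤ F.wd a b := by
  classical
  unfold Fam.wd
  exact Finset.sum_nonneg fun i hi => F.pos i (Finset.mem_filter.1 hi).1

theorem tot_mirror (F : Fam T ι) : F.mirror.tot = F.tot := rfl

theorem tot_nonneg (F : Fam T ι) : 0 ≤ F.tot := Finset.sum_nonneg fun i hi => F.pos i hi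

theorem VAL.of_rot {h h' t t' : V} {F : Fam T ι} {y : ℝ} (H : VAL T h' h t' t F y) :
    VAL T h h' t t' F y := by
  obtain ⟨c, h1, h2, h3, h4, h5, h6⟩ := H
  exact ⟨c, h1, h3, h2, h5, h4, h6⟩

theorem VAL.of_mirror {h h' t t' : V} {F : Fam T ι} {y : ℝ}
    (H : VAL T.mirror h' h t t' F.mirror y) : VAL T h h' t t' F y := by
  obtain ⟨c, h1, h2, h3, h4, h5, h6⟩ := H
  exact ⟨c, (bond_mirror c).1 h1, h3, h2, h4, h5, by rw [← gain_mirror]; exact h6⟩

theorem nv_mirror (T : Tri V) : nv T.mirror = nv T := by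
  unfold nv
  congr 1
  ext v
  exact Tri.mirror_Supp T v

theorem TT_mirror (h : TT T.mirror) : TT T := by
  intro a a' t t' h1 h2 h3 ι F
  exact VAL.of_mirror (h a' a t t' h1 h2 h3 ι F.mirror)

end P3W
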