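import Pool.Agent.Lib_MP_b306af.WDefs

set_option autoImplicit false

namespace P3W

open P4 P3

variable {V : Type} {T : Tri V} {ι : Type}

theorem F_ne {a b d : V} (h : T.F a b d) : a ≠ b ∧ b ≠ d ∧ d ≠ a :=
  ⟨T.ne _ _ _ h, T.ne _ _ _ (T.cyc _ _ _ h), T.ne _ _ _ (T.cyc2 h)⟩

theorem adj1 {a b d : V} (h : T.F a b d) : T.Adj a b := ⟨d, h⟩

theorem adj2 {a b d : V} (h : T.F a b d) : T.Adj b d := ⟨a, T.cyc _ _ _ h⟩

theorem adj3 {a b d : V} (h : T.F a b d) : T.Adj d a := ⟨b, T.cyc2 h⟩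

/-- a face which contains the dart `y z` is a rotation of the face on the left of `y z` -/
theorem hasD_cyc {y z m a b d : V} (h : T.F y z m) (h' : T.F a b d) (hd : HasD y z a b d) :
    Cyc3 y z m a b d := by
  rcases hd with ⟨rfl, rfl⟩ | ⟨rfl, rfl⟩ | ⟨rfl, rfl⟩
  · left; exact ⟨rfl, rfl, (T.uniq _ _ _ _ h h').symm⟩
  · right; right; refine ⟨?_, rfl, rfl⟩; exact (T.uniq _ _ _ _ h (T.cyc _ _ _ h')).symm
  · right; left; refine ⟨rfl, ?_, rfl⟩; exact (T.uniq _ _ _ _ h (T.cyc2 h')).symm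

end P3W
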