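import Pool.Agent.Lib_MP_b306af.WSum

set_option autoImplicit false

namespace P3W

open P4 P3

variable {V : Type} {T T' : Tri V} {ι : Type}

open Classical in
/-- the contraction map -/
noncomputable def ctr (u v z : V) : V := if z = v then u else z

open Classical in
/-- the lifted colouring -/
noncomputable def lift (u v : V) (c : V → Bool) : V → Bool := fun z => c (ctr u v z)

theorem lift_v (u v : V) (c : V → Bool) : lift u v c v = c u := by
  classical
  simp [lift, ctr]

theorem lift_ne {u v z : V} (c : V → Bool) (h : z ≠ v) : lift u v c z = c z := by
  classical
  simp [lift, ctr, h]

end P3W
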