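import Pool.Agent.Lib_MP_b306af.WCon0

set_option autoImplicit false

namespace P3W

open P4 P3

variable {V : Type} {T T' : Tri V} {ι : Type}

/-- with at least four vertices two faces are never opposite -/
theorem no_opp [Finite V] (hn : 4 ≤ nv T) {a b d : V} (h1 : T.F a b d) (h2 : T.F b a d) : False := by
  classical
  have hcl : ∀ x y z x' y' z', T.F x y z → T.F x' y' z' →
      ((x = a ∨ x = b ∨ x = d) ∧ (y = a ∨ y = b ∨ y = d)) →
      ((x' = a ∨ x' = b ∨ x' = d) ∧ (y' = a ∨ y' = b ∨ y' = d)) := by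
    intro x y z x' y' z' hF hF' hP
    refine T.trans (fun x y => (x = a ∨ x = b ∨ x = d) ∧ (y = a ∨ y = b ∨ y = d)) ?_ ?_
      x y z x' y' z' hF hF' hP
    · rintro x y z hF ⟨hx, hy⟩
      refine ⟨hy, ?_⟩
      have hne := T.ne _ _ _ hF
      rcases hx with rfl | rfl | rfl <;> rcases hy with rfl | rfl | rfl
      · exact absurd rfl hne
      · exact Or.inr (Or.inr (T.uniq _ _ _ _ hF h1))
      · exact Or.inr (Or.inl (T.uniq _ _ _ _ hF (T.cyc _ _ _ h2)))
      · exact Or.inr (Or.inr (T.uniq _ _ _ _ hF h2))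
      · exact absurd rfl hne
      · exact Or.inl (T.uniq _ _ _ _ hF (T.cyc _ _ _ h1))
      · exact Or.inr (Or.inl (T.uniq _ _ _ _ hF (T.cyc2 h1)))
      · exact Or.inl (T.uniq _ _ _ _ hF (T.cyc2 h2))
      · exact absurd rfl hne
    · rintro x y z _ ⟨hx, hy⟩
      exact ⟨hy, hx⟩
  have hsub : {v | T.Supp v} ⊆ (({a, b, d} : Finset V) : Set V) := by
    rintro v ⟨y, z, hF⟩
    have := (hcl a b d v y z h1 hF ⟨Or.inl rfl, Or.inr (Or.inl rfl)⟩).1
    simpa using this
  have hle : nv T ≤ ({a, b, d} : Finset V).card := by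
    unfold nv
    have := Set.ncard_le_ncard hsub (Finset.finite_toSet _)
    rwa [Set.ncard_coe_finset] at this
  have := Finset.card_le_three (a := a) (b := b) (c := d)
  omega

/-- vertices of `T'` -/
theorem contr_supp' [Finite V] {u v : V} (hn : 4 ≤ nv T) (hC : IsContr T T' u v)
    (huv : T.Adj u v) (z : V) : T'.Supp z ↔ T.Supp z ∧ z ≠ v := by
  have hne := huv.ne
  constructor
  · rintro ⟨b, c, hF⟩
    obtain ⟨hz, -, -, -, -, -, h⟩ := (hC z b c).1 hF
    refine ⟨?_, hz⟩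
    rcases h with h | ⟨rfl, h⟩ | ⟨-, h⟩ | ⟨-, h⟩
    · exact ⟨_, _, h⟩
    · exact huv.supp
    · exact ⟨_, _, h⟩
    · exact ⟨_, _, h⟩
  · rintro ⟨⟨b, c, hF⟩, hz⟩
    by_cases hzu : z = u
    · subst hzu
      obtain ⟨x, hx⟩ := huv
      obtain ⟨e, he⟩ := T.opp _ _ _ (T.cyc2 hx)
      have hev : e ≠ v := by
        rintro rfl
        exact no_opp hn (T.cyc2 hx) he
      obtain ⟨n1, n2, n3⟩ := F_ne he
      obtain ⟨m1, m2, m3⟩ := F_ne hx
      exact ⟨x, e, (hC _ _ _).2 ⟨hz, m2.symm, hev, n1, n2, n3, Or.inl he⟩⟩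
    · obtain ⟨n1, n2, n3⟩ := F_ne hF
      by_cases hb : b = v
      · subst hb
        by_cases hc : c = u
        · subst hc
          obtain ⟨d, hd⟩ := T.opp _ _ _ hF
          have hdu : d ≠ c := by
            rintro rfl
            exact no_opp hn hF hd
          obtain ⟨k1, k2, k3⟩ := F_ne hd
          refine ⟨d, c, (hC _ _ _).2 ⟨n1, k3, hne, k2, hdu, fun h => hzu h.symm, ?_⟩⟩
          exact Or.inr (Or.inr (Or.inr ⟨rfl, T.cyc _ _ _ hd⟩))
        · refine ⟨u, c, (hC _ _ _).2 ⟨n1, hne, n2.symm, hzu, fun h => hc h.symm, n3, ?_⟩⟩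
          exact Or.inr (Or.inr (Or.inl ⟨rfl, hF⟩))
      · by_cases hc : c = v
        · subst hc
          by_cases hb' : b = u
          · subst hb'
            obtain ⟨d, hd⟩ := T.opp _ _ _ (T.cyc2 hF)
            have hdu : d ≠ b := by
              rintro rfl
              exact no_opp hn (T.cyc2 hF) hd
            obtain ⟨k1, k2, k3⟩ := F_ne hd
            refine ⟨b, d, (hC _ _ _).2 ⟨hz, hne, k2.symm, hzu, hdu.symm, k3, ?_⟩⟩
            exact Or.inr (Or.inr (Or.inl ⟨rfl, hd⟩))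
          · refine ⟨b, u, (hC _ _ _).2 ⟨hz, hb, hne, n1, hb', fun h => hzu h.symm, ?_⟩⟩
            exact Or.inr (Or.inr (Or.inr ⟨rfl, hF⟩))
        · exact ⟨b, c, (hC _ _ _).2 ⟨hz, hb, hc, n1, n2, n3, Or.inl hF⟩⟩

theorem contr_nv [Finite V] {u v : V} (hn : 4 ≤ nv T) (hC : IsContr T T' u v)
    (huv : T.Adj u v) : nv T' + 1 = nv T := by
  have hset : {z | T'.Supp z} = {z | T.Supp z} \ {v} := by
    ext z
    rw [Set.mem_setOf_eq, contr_supp' hn hC huv]
    rfl
  have hv : v ∈ {z | T.Supp z} := huv.symm.supp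
  unfold nv
  rw [hset]
  exact Set.ncard_diff_singleton_add_one hv (Set.toFinite _)

end P3W
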