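import Pool.Agent.Lib_MP_b306af.WConA

set_option autoImplicit false

namespace P3W

open P4 P3

variable {V : Type} {T T' : Tri V} {ι : Type}

theorem WCONB_ctr_ne {u v z : V} (h : z ≠ v) : ctr u v z = z := by
  classical
  simp [ctr, h]

theorem WCONB_ctr_v (u v : V) : ctr u v v = u := by
  classical
  simp [ctr]

theorem WCONB_v [Finite V] {u v : V} (hn : 4 ≤ nv T) (hC : IsContr T T' u v)
    (huv : T.Adj u v) {b : V} (h : T.Adj v b) (hub : u ≠ b) : T'.Adj u b := by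
  obtain ⟨d, hd⟩ := h
  have hvb : v ≠ b := T.ne _ _ _ hd
  by_cases hdu : d = u
  · subst hdu
    obtain ⟨d', hd'⟩ := T.opp _ _ _ hd
    have hne : d' ≠ d := by
      rintro rfl
      exact no_opp hn hd hd'
    have h1 := F_ne hd'
    refine Tri.Adj.symm ⟨d', (hC _ _ _).2 ⟨hvb.symm, huv.ne, h1.2.1.symm, hub.symm, hne.symm,
      h1.2.2, Or.inr (Or.inr (Or.inl ⟨rfl, hd'⟩))⟩⟩
  · have h1 := F_ne hd
    exact ⟨d, (hC _ _ _).2 ⟨huv.ne, hvb.symm, h1.2.2, hub, h1.2.1, hdu,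
      Or.inr (Or.inl ⟨rfl, hd⟩)⟩⟩

/-- edges of `T` go to edges of `T'` (or to one point) -/
theorem contr_adj [Finite V] {u v : V} (hn : 4 ≤ nv T) (hC : IsContr T T' u v)
    (huv : T.Adj u v) {a b : V} (h : T.Adj a b) (hne : ctr u v a ≠ ctr u v b) :
    T'.Adj (ctr u v a) (ctr u v b) := by
  by_cases ha : a = v
  · subst ha
    rw [WCONB_ctr_v] at hne ⊢
    have hb : b ≠ a := h.ne.symm
    rw [WCONB_ctr_ne hb] at hne ⊢
    exact WCONB_v hn hC huv h hne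
  by_cases hb : b = v
  · subst hb
    rw [WCONB_ctr_v, WCONB_ctr_ne ha] at hne ⊢
    exact (WCONB_v hn hC huv h.symm hne.symm).symm
  rw [WCONB_ctr_ne ha, WCONB_ctr_ne hb] at hne ⊢
  obtain ⟨d, hd⟩ := h
  obtain ⟨d', hd'⟩ := T.opp _ _ _ hd
  have h1 := F_ne hd
  have h2 := F_ne hd'
  by_cases hdv : d = v
  · subst hdv
    by_cases hdd : d' = d
    · subst hdd
      exact absurd hd' (fun h => no_opp hn hd h)
    · exact Tri.Adj.symm ⟨d', (hC _ _ _).2 ⟨hb, ha, hdd, hne.symm, h2.2.1, h2.2.2, Or.inl hd'⟩⟩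
  · exact ⟨d, (hC _ _ _).2 ⟨ha, hb, hdv, hne, h1.2.1, h1.2.2, Or.inl hd⟩⟩

/-- edges of `T'` come from edges of `T` -/
theorem contr_adj' {u v : V} (hC : IsContr T T' u v) {a b : V} (h : T'.Adj a b) :
    ∃ a0 b0, T.Adj a0 b0 ∧ ctr u v a0 = a ∧ ctr u v b0 = b := by
  obtain ⟨d, hd⟩ := h
  obtain ⟨ha, hb, -, -, -, -, h1 | ⟨h2, h1⟩ | ⟨h2, h1⟩ | ⟨h2, h1⟩⟩ := (hC _ _ _).1 hd
  · exact ⟨a, b, ⟨d, h1⟩, WCONB_ctr_ne ha, WCONB_ctr_ne hb⟩
  · exact ⟨v, b, ⟨d, h1⟩, by rw [WCONB_ctr_v, h2], WCONB_ctr_ne hb⟩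
  · exact ⟨a, v, ⟨d, h1⟩, WCONB_ctr_ne ha, by rw [WCONB_ctr_v, h2]⟩
  · exact ⟨a, b, ⟨v, h1⟩, WCONB_ctr_ne ha, WCONB_ctr_ne hb⟩

/-- a bond of `T'` lifts to a bond of `T` (`v` gets the colour of `u`) -/
theorem contr_bond [Finite V] {u v : V} (hn : 4 ≤ nv T) (hC : IsContr T T' u v)
    (huv : T.Adj u v) {c : V → Bool} (hc : Bond T' c) : Bond T (lift u v c) := by
  intro b P hP
  have hfib : ∀ x, T.Supp x → lift u v c x = b → (P x ↔ P (ctr u v x)) := by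
    intro x hx hxb
    by_cases hxv : x = v
    · subst hxv
      rw [WCONB_ctr_v]
      have hub : lift u x c u = b := by
        rw [lift_ne c huv.ne]
        rw [lift_v] at hxb
        exact hxb
      constructor
      · exact hP _ ⟨hx, hxb⟩ _ ⟨huv.supp, hub⟩ huv.symm
      · exact hP _ ⟨huv.supp, hub⟩ _ ⟨hx, hxb⟩ huv
    · rw [WCONB_ctr_ne hxv]
  have key := hc b P (by
    intro x hx y hy hxy hPx
    obtain ⟨a0, b0, h0, ha0, hb0⟩ := contr_adj' hC hxy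
    have hca : lift u v c a0 = b := by
      show c (ctr u v a0) = b
      rw [ha0]
      exact hx.2
    have hcb : lift u v c b0 = b := by
      show c (ctr u v b0) = b
      rw [hb0]
      exact hy.2
    have h1 := hfib a0 h0.supp hca
    have h2 := hfib b0 h0.symm.supp hcb
    rw [ha0] at h1
    rw [hb0] at h2
    exact h2.1 (hP _ ⟨h0.supp, hca⟩ _ ⟨h0.symm.supp, hcb⟩ h0 (h1.2 hPx)))
  intro x hx y hy hPx
  have hmem : ∀ z, T.Supp z → lift u v c z = b → T'.Supp (ctr u v z) ∧ c (ctr u v z) = b := by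
    intro z hz hzb
    refine ⟨?_, hzb⟩
    by_cases hzv : z = v
    · subst hzv
      rw [WCONB_ctr_v]
      exact (contr_supp' hn hC huv _).2 ⟨huv.supp, huv.ne⟩
    · rw [WCONB_ctr_ne hzv]
      exact (contr_supp' hn hC huv _).2 ⟨hz, hzv⟩
  have h1 := (hfib x hx.1 hx.2).1 hPx
  have h2 := key _ (hmem x hx.1 hx.2) _ (hmem y hy.1 hy.2) h1
  exact (hfib y hy.1 hy.2).2 h2

end P3W
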