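import Pool.Agent.Lib_MP_b306af.WConB

set_option autoImplicit false

namespace P3W

open P4 P3

variable {V : Type} {T T' : Tri V} {ι : Type}

/-- a face of `T` which does not contain both `u` and `v` goes to a face of `T'` -/
theorem contr_face {u v : V} (hC : IsContr T T' u v) (huv : u ≠ v) {a b d : V} (h : T.F a b d)
    (h0 : ¬ ((u = a ∨ u = b ∨ u = d) ∧ (v = a ∨ v = b ∨ v = d))) :
    T'.F (ctr u v a) (ctr u v b) (ctr u v d) := by
  classical
  have hv : ∀ z, ctr u v z ≠ v := by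
    intro z
    unfold ctr
    split_ifs with hz
    · exact huv
    · exact hz
  have hctr : ∀ z, z ≠ v → ctr u v z = z := by
    intro z hz
    unfold ctr
    rw [if_neg hz]
  have hcv : ctr u v v = u := by
    unfold ctr
    rw [if_pos rfl]
  obtain ⟨n1, n2, n3⟩ := F_ne h
  by_cases ha : a = v
  · subst ha
    have hu : u ≠ b ∧ u ≠ d := by
      constructor
      · rintro rfl; exact h0 ⟨Or.inr (Or.inl rfl), Or.inl rfl⟩
      · rintro rfl; exact h0 ⟨Or.inr (Or.inr rfl), Or.inl rfl⟩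
    have e2 : ctr u a b = b := hctr b n1.symm
    have e3 : ctr u a d = d := hctr d n3
    refine (hC _ _ _).2 ⟨hv _, hv _, hv _, ?_, ?_, ?_, ?_⟩
    · rw [hcv, e2]; exact hu.1
    · rw [e2, e3]; exact n2
    · rw [hcv, e3]; exact hu.2.symm
    · right; left
      rw [e2, e3]
      exact ⟨hcv, h⟩
  by_cases hb : b = v
  · subst hb
    have hu : u ≠ a ∧ u ≠ d := by
      constructor
      · rintro rfl; exact h0 ⟨Or.inl rfl, Or.inr (Or.inl rfl)⟩
      · rintro rfl; exact h0 ⟨Or.inr (Or.inr rfl), Or.inr (Or.inl rfl)⟩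
    have e1 : ctr u b a = a := hctr a ha
    have e3 : ctr u b d = d := hctr d n2.symm
    refine (hC _ _ _).2 ⟨hv _, hv _, hv _, ?_, ?_, ?_, ?_⟩
    · rw [hcv, e1]; exact hu.1.symm
    · rw [hcv, e3]; exact hu.2
    · rw [e1, e3]; exact n3
    · right; right; left
      rw [e1, e3]
      exact ⟨hcv, h⟩
  by_cases hd : d = v
  · subst hd
    have hu : u ≠ a ∧ u ≠ b := by
      constructor
      · rintro rfl; exact h0 ⟨Or.inl rfl, Or.inr (Or.inr rfl)⟩
      · rintro rfl; exact h0 ⟨Or.inr (Or.inl rfl), Or.inr (Or.inr rfl)⟩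
    have e1 : ctr u d a = a := hctr a ha
    have e2 : ctr u d b = b := hctr b hb
    refine (hC _ _ _).2 ⟨hv _, hv _, hv _, ?_, ?_, ?_, ?_⟩
    · rw [e1, e2]; exact n1
    · rw [hcv, e2]; exact hu.2.symm
    · rw [hcv, e1]; exact hu.1
    · right; right; right
      rw [e1, e2]
      exact ⟨hcv, h⟩
  rw [hctr a ha, hctr b hb, hctr d hd]
  exact (hC _ _ _).2 ⟨ha, hb, hd, n1, n2, n3, Or.inl h⟩

/-- the indices in `K` (faces which do not contain both `u` and `v`) as a family for `T'` -/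
noncomputable def Fam.contr {u v : V} (F : Fam T ι) (hC : IsContr T T' u v) (huv : u ≠ v)
    (K : Finset ι) (hK : K ⊆ F.D)
    (h0 : ∀ i ∈ K, ¬ ((u = F.p i ∨ u = F.q i ∨ u = F.x i) ∧ (v = F.p i ∨ v = F.q i ∨ v = F.x i))) :
    Fam T' ι where
  D := K
  p := fun i => ctr u v (F.p i)
  q := fun i => ctr u v (F.q i)
  x := fun i => ctr u v (F.x i)
  w := F.w
  face := fun i hi => contr_face hC huv (F.face i (hK hi)) (h0 i hi)
  pos := fun i hi => F.pos i (hK hi)

/-- one contraction: Theorem TT for `T'` gives a bond of `T` with `c v = c u` and the bound for the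
kept indices. `h, h', t, t'` are not `v`. -/
theorem contr_tt [Finite V] {u v h h' t t' : V} (hn : 4 ≤ nv T) (hC : IsContr T T' u v)
    (huv : T.Adj u v) (hTT : TT T') (h1 : T'.F h h' t) (h2 : T'.F h' h t') (h3 : t ≠ t')
    (F : Fam T ι) (K : Finset ι) (hK : K ⊆ F.D)
    (h0 : ∀ i ∈ K, ¬ ((u = F.p i ∨ u = F.q i ∨ u = F.x i) ∧ (v = F.p i ∨ v = F.q i ∨ v = F.x i))) :
    ∃ c : V → Bool, Bond T c ∧ c v = c u ∧ c h = true ∧ c h' = true ∧ c t = false ∧ c t' = false ∧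
      f (∑ i ∈ K, F.w i) ≤
        ∑ i ∈ K.filter (fun i => ¬ Mono c (F.p i) (F.q i) (F.x i)), f (F.w i) := by
  obtain ⟨c', g1, g2, g3, g4, g5, g6⟩ := hTT h h' t t' h1 h2 h3 ι (F.contr hC huv.ne K hK h0)
  obtain ⟨a1, a2, a3, _⟩ := (hC _ _ _).1 h1
  obtain ⟨_, _, b3, _⟩ := (hC _ _ _).1 h2
  refine ⟨lift u v c', contr_bond hn hC huv g1, ?_, ?_, ?_, ?_, ?_, ?_⟩
  · rw [lift_v, lift_ne c' huv.ne]
  · rw [lift_ne c' a1, g2]
  · rw [lift_ne c' a2, g3]
  · rw [lift_ne c' a3, g4]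
  · rw [lift_ne c' b3, g5]
  · exact g6

end P3W
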