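import Pool.Agent.Lib_MP_b306af.WConC

set_option autoImplicit false

namespace P3W

open P4 P3

variable {V : Type} {T T' : Tri V} {ι : Type}

/-- two successive contractions: `r1` into `t`, then `r3` into `h`. The kept indices are faces of `T`
which contain neither both `t, r1` nor both `h, r3`, and the face `(r3, h, r1)` (whose image contains
`h` and `r3`) is not kept either (it contains both `h` and `r3`). -/
theorem contr_tt2 [Finite V] {h h' t t' r1 r3 : V} {T1 T2 : Tri V} (hn : 5 ≤ nv T)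
    (hC1 : IsContr T T1 t r1) (ha1 : T.Adj t r1) (hC2 : IsContr T1 T2 h r3) (ha2 : T1.Adj h r3)
    (d1 : r1 ≠ h) (d2 : r1 ≠ r3) (d3 : t ≠ h) (d4 : t ≠ r3)
    (hTT : TT T2) (h1 : T2.F h h' t) (h2 : T2.F h' h t') (h3 : t ≠ t')
    (F : Fam T ι) (K : Finset ι) (hK : K ⊆ F.D)
    (h0 : ∀ i ∈ K, ¬ ((t = F.p i ∨ t = F.q i ∨ t = F.x i) ∧ (r1 = F.p i ∨ r1 = F.q i ∨ r1 = F.x i)))
    (h0' : ∀ i ∈ K, ¬ ((h = F.p i ∨ h = F.q i ∨ h = F.x i) ∧ (r3 = F.p i ∨ r3 = F.q i ∨ r3 = F.x i))) :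
    ∃ c : V → Bool, Bond T c ∧ c r1 = c t ∧ c r3 = c h ∧
      c h = true ∧ c h' = true ∧ c t = false ∧ c t' = false ∧
      f (∑ i ∈ K, F.w i) ≤
        ∑ i ∈ K.filter (fun i => ¬ Mono c (F.p i) (F.q i) (F.x i)), f (F.w i) := by
  classical
  have hn4 : 4 ≤ nv T := by omega
  have hn1 : 4 ≤ nv T1 := by
    have := contr_nv hn4 hC1 ha1
    omega
  have hT1 : ∀ z, T1.Supp z → z ≠ r1 := fun z hz => ((contr_supp' hn4 hC1 ha1 z).1 hz).2
  have hT2 : ∀ z, T2.Supp z → T1.Supp z := fun z hz => ((contr_supp' hn1 hC2 ha2 z).1 hz).1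
  have e1 : h' ≠ r1 := hT1 h' (hT2 h' ⟨t, h, T2.cyc _ _ _ h1⟩)
  have e2 : t' ≠ r1 := hT1 t' (hT2 t' ⟨h', h, T2.cyc2 h2⟩)
  have hctr : ∀ y z : V, y ≠ t → y ≠ r1 → (y = ctr t r1 z ↔ y = z) := by
    intro y z hy1 hy2
    unfold ctr
    by_cases hz : z = r1
    · rw [if_pos hz, hz]
      exact ⟨fun e => absurd e hy1, fun e => absurd e hy2⟩
    · rw [if_neg hz]
  obtain ⟨c1, b1, c2, c3, c4, c5, c6, c7⟩ := contr_tt hn1 hC2 ha2 hTT h1 h2 h3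
    (F.contr hC1 ha1.ne K hK h0) K (Finset.Subset.refl _) (by
      intro i hi
      have h4 := h0' i hi
      have g1 := fun z => hctr h z d3.symm d1.symm
      have g2 := fun z => hctr r3 z d4.symm d2.symm
      show ¬ ((h = ctr t r1 (F.p i) ∨ h = ctr t r1 (F.q i) ∨ h = ctr t r1 (F.x i)) ∧
        (r3 = ctr t r1 (F.p i) ∨ r3 = ctr t r1 (F.q i) ∨ r3 = ctr t r1 (F.x i)))
      rw [g1, g1, g1, g2, g2, g2]
      exact h4)
  refine ⟨lift t r1 c1, contr_bond hn4 hC1 ha1 b1, ?_, ?_, ?_, ?_, ?_, ?_, c7⟩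
  · rw [lift_v, lift_ne c1 ha1.ne]
  · rw [lift_ne c1 d2.symm, lift_ne c1 d1.symm, c2]
  · rw [lift_ne c1 d1.symm, c3]
  · rw [lift_ne c1 e1, c4]
  · rw [lift_ne c1 ha1.ne, c5]
  · rw [lift_ne c1 e2, c6]

end P3W
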