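import Pool.Agent.Lib_MP_b306af.WBasic0

/-!
# MP_b306af: circulations are curls of face potentials (first homology is zero)
-/

set_option autoImplicit false

namespace P3W

open P4 P3

variable {V : Type} {T : Tri V}

/-- every circulation is the curl of a face potential -/
theorem curl_exists [Fintype V] (T : Tri V) (γ : V → V → ℝ) (hanti : ∀ a b, γ a b = - γ b a)
    (hsupp : ∀ a b, ¬ T.Adj a b → γ a b = 0) (hdiv : ∀ a, ∑ b, γ a b = 0) :
    ∃ φ : V → V → ℝ, (∀ a b d, T.F a b d → φ a b = φ b d) ∧
      ∀ a b, T.Adj a b → φ a b - φ b a = γ a b := by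
  classical
  -- the subspace of curls
  let W : Submodule ℝ (V × V → ℝ) :=
    { carrier := {x | ∃ φ : V → V → ℝ, (∀ a b d, T.F a b d → φ a b = φ b d) ∧
        (∀ a b, ¬ T.Adj a b → φ a b = 0) ∧ ∀ a b, x (a, b) = φ a b - φ b a}
      add_mem' := by
        rintro x y ⟨φ, h1, h2, h3⟩ ⟨ψ, g1, g2, g3⟩
        refine ⟨fun a b => φ a b + ψ a b, ?_, ?_, ?_⟩
        · intro a b d hF; simp only [h1 a b d hF, g1 a b d hF]
        · intro a b hn; simp only [h2 a b hn, g2 a b hn, add_zero]
        · intro a b; simp only [Pi.add_apply, h3, g3]; ring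
      zero_mem' := ⟨fun _ _ => 0, by simp, by simp, by simp⟩
      smul_mem' := by
        rintro c x ⟨φ, h1, h2, h3⟩
        refine ⟨fun a b => c * φ a b, ?_, ?_, ?_⟩
        · intro a b d hF; simp only [h1 a b d hF]
        · intro a b hn; simp only [h2 a b hn, mul_zero]
        · intro a b; simp only [Pi.smul_apply, smul_eq_mul, h3]; ring }
  let g : V × V → ℝ := fun e => γ e.1 e.2
  by_cases hg : g ∈ W
  · obtain ⟨φ, h1, h2, h3⟩ := hg
    exact ⟨φ, h1, fun a b _ => (h3 a b).symm⟩
  · exfalso
    obtain ⟨ℓ, hℓ, hW⟩ := Submodule.exists_dual_map_eq_bot_of_notMem hg inferInstance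
    -- coefficients
    let κ : V → V → ℝ := fun a b => ℓ (Pi.single (a, b) 1)
    have hexp : ∀ x : V × V → ℝ, ℓ x = ∑ a, ∑ b, κ a b * x (a, b) := by
      intro x
      have hx : x = ∑ e : V × V, x e • (Pi.single e (1 : ℝ) : V × V → ℝ) := by
        ext e
        simp [Finset.sum_apply, Pi.single_apply]
      calc ℓ x = ℓ (∑ e : V × V, x e • (Pi.single e (1 : ℝ) : V × V → ℝ)) := by rw [← hx]
        _ = ∑ e : V × V, x e * ℓ (Pi.single e (1 : ℝ)) := by
          rw [map_sum]; simp
        _ = ∑ a, ∑ b, κ a b * x (a, b) := by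
          rw [Fintype.sum_prod_type]
          refine Finset.sum_congr rfl fun a _ => Finset.sum_congr rfl fun b _ => ?_
          ring
    have hzero : ∀ x ∈ W, ℓ x = 0 := by
      intro x hx
      have : ℓ x ∈ W.map ℓ := Submodule.mem_map_of_mem hx
      rw [hW] at this
      exact (Submodule.mem_bot ℝ).1 this
    let κ' : V → V → ℝ := fun a b => κ a b - κ b a
    have hκ' : ∀ φ : V → V → ℝ, ∑ a, ∑ b, κ a b * (φ a b - φ b a) = ∑ a, ∑ b, κ' a b * φ a b := by
      intro φ
      have h1 : ∑ a, ∑ b, κ a b * (φ a b - φ b a)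
          = ∑ a, ∑ b, κ a b * φ a b - ∑ a, ∑ b, κ a b * φ b a := by
        rw [← Finset.sum_sub_distrib]
        refine Finset.sum_congr rfl fun a _ => ?_
        rw [← Finset.sum_sub_distrib]
        refine Finset.sum_congr rfl fun b _ => ?_
        ring
      have h2 : ∑ a, ∑ b, κ a b * φ b a = ∑ a, ∑ b, κ b a * φ a b := by
        rw [Finset.sum_comm]
      rw [h1, h2, ← Finset.sum_sub_distrib]
      refine Finset.sum_congr rfl fun a _ => ?_
      rw [← Finset.sum_sub_distrib]
      refine Finset.sum_congr rfl fun b _ => ?_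
      simp only [κ']; ring
    -- κ' is closed
    have hclosed : ∀ a b d, T.F a b d → κ' a b + κ' b d + κ' d a = 0 := by
      intro a b d hF
      obtain ⟨n1, n2, n3⟩ := F_ne hF
      let φ : V → V → ℝ := fun y z =>
        if (y = a ∧ z = b) ∨ (y = b ∧ z = d) ∨ (y = d ∧ z = a) then 1 else 0
      have hφ : (fun e : V × V => φ e.1 e.2 - φ e.2 e.1) ∈ W := by
        refine ⟨φ, ?_, ?_, fun _ _ => rfl⟩
        · intro y z w hF'
          have key : ((y = a ∧ z = b) ∨ (y = b ∧ z = d) ∨ (y = d ∧ z = a)) ↔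
              ((z = a ∧ w = b) ∨ (z = b ∧ w = d) ∨ (z = d ∧ w = a)) := by
            constructor
            · rintro (⟨rfl, rfl⟩ | ⟨rfl, rfl⟩ | ⟨rfl, rfl⟩)
              · right; left; exact ⟨rfl, T.uniq _ _ _ _ hF' hF⟩
              · right; right; exact ⟨rfl, T.uniq _ _ _ _ hF' (T.cyc _ _ _ hF)⟩
              · left; exact ⟨rfl, T.uniq _ _ _ _ hF' (T.cyc2 hF)⟩
            · have hF'' := T.cyc _ _ _ hF'
              rintro (⟨rfl, rfl⟩ | ⟨rfl, rfl⟩ | ⟨rfl, rfl⟩)
              · right; right; exact ⟨T.uniq _ _ _ _ hF'' hF, rfl⟩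
              · left; exact ⟨T.uniq _ _ _ _ hF'' (T.cyc _ _ _ hF), rfl⟩
              · right; left; exact ⟨T.uniq _ _ _ _ hF'' (T.cyc2 hF), rfl⟩
          simp only [φ]
          by_cases hk : (y = a ∧ z = b) ∨ (y = b ∧ z = d) ∨ (y = d ∧ z = a)
          · rw [if_pos hk, if_pos (key.1 hk)]
          · rw [if_neg hk, if_neg (fun h => hk (key.2 h))]
        · intro y z hn
          simp only [φ]
          refine if_neg ?_
          rintro (⟨rfl, rfl⟩ | ⟨rfl, rfl⟩ | ⟨rfl, rfl⟩)
          · exact hn (adj1 hF)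
          · exact hn (adj2 hF)
          · exact hn (adj3 hF)
      have h0 := hzero _ hφ
      rw [hexp] at h0
      have h1 := hκ' φ
      simp only at h0
      rw [h1] at h0
      have h2 : ∑ y, ∑ z, κ' y z * φ y z = κ' a b + κ' b d + κ' d a := by
        have e1 : ∀ y z, κ' y z * φ y z = (if y = a ∧ z = b then κ' a b else 0) +
            (if y = b ∧ z = d then κ' b d else 0) + (if y = d ∧ z = a then κ' d a else 0) := by
          intro y z
          simp only [φ]
          by_cases c1 : y = a ∧ z = b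
          · obtain ⟨rfl, rfl⟩ := c1
            simp [n1, n3.symm]
          · by_cases c2 : y = b ∧ z = d
            · obtain ⟨rfl, rfl⟩ := c2
              simp [n1.symm, n2]
            · by_cases c3 : y = d ∧ z = a
              · obtain ⟨rfl, rfl⟩ := c3
                simp [n3, n2.symm]
              · simp [c1, c2, c3]
        simp only [e1, Finset.sum_add_distrib]
        have e2 : ∀ (u v : V) (r : ℝ), ∑ y, ∑ z, (if y = u ∧ z = v then r else 0) = r := by
          intro u v r
          rw [Finset.sum_eq_single u]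
          · rw [Finset.sum_eq_single v]
            · simp
            · intro z _ hz; simp [hz]
            · simp
          · intro y _ hy; simp [hy]
          · simp
        rw [e2, e2, e2]
      rw [← h2]; exact h0
    have hanti' : ∀ a b, κ' a b = - κ' b a := by intro a b; simp only [κ']; ring
    obtain ⟨h, hh⟩ := T.exact κ' hanti' hclosed
    apply hℓ
    rw [hexp]
    -- ℓ γ = 1/2 ∑ κ' γ
    have h1 : 2 * ∑ a, ∑ b, κ a b * γ a b = ∑ a, ∑ b, κ' a b * γ a b := by
      have e1 : ∑ a, ∑ b, κ a b * γ a b = ∑ a, ∑ b, κ b a * γ b a := Finset.sum_comm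
      have e2 : ∑ a, ∑ b, κ b a * γ b a = - ∑ a, ∑ b, κ b a * γ a b := by
        rw [← Finset.sum_neg_distrib]
        refine Finset.sum_congr rfl fun a _ => ?_
        rw [← Finset.sum_neg_distrib]
        refine Finset.sum_congr rfl fun b _ => ?_
        rw [hanti b a]; ring
      have e3 : ∑ a, ∑ b, κ' a b * γ a b
          = ∑ a, ∑ b, κ a b * γ a b - ∑ a, ∑ b, κ b a * γ a b := by
        rw [← Finset.sum_sub_distrib]
        refine Finset.sum_congr rfl fun a _ => ?_
        rw [← Finset.sum_sub_distrib]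
        refine Finset.sum_congr rfl fun b _ => ?_
        simp only [κ']; ring
      rw [e3]
      linarith
    have h2 : ∑ a, ∑ b, κ' a b * γ a b = ∑ a, ∑ b, (h b - h a) * γ a b := by
      refine Finset.sum_congr rfl fun a _ => Finset.sum_congr rfl fun b _ => ?_
      by_cases hab : T.Adj a b
      · obtain ⟨d, hd⟩ := hab
        rw [hh a b d hd]
      · rw [hsupp a b hab]; ring
    have h3 : ∑ a, ∑ b, (h b - h a) * γ a b = 0 := by
      have e1 : ∑ a, ∑ b, (h b - h a) * γ a b
          = ∑ a, ∑ b, h b * γ a b - ∑ a, ∑ b, h a * γ a b := by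
        rw [← Finset.sum_sub_distrib]
        refine Finset.sum_congr rfl fun a _ => ?_
        rw [← Finset.sum_sub_distrib]
        refine Finset.sum_congr rfl fun b _ => ?_
        ring
      have e2 : ∑ a, ∑ b, h a * γ a b = 0 := by
        refine Finset.sum_eq_zero fun a _ => ?_
        rw [← Finset.mul_sum, hdiv, mul_zero]
      have e3 : ∑ a, ∑ b, h b * γ a b = 0 := by
        rw [Finset.sum_comm]
        refine Finset.sum_eq_zero fun b _ => ?_
        rw [← Finset.mul_sum]
        have : ∑ a, γ a b = - ∑ a, γ b a := by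
          rw [← Finset.sum_neg_distrib]
          exact Finset.sum_congr rfl fun a _ => hanti a b
        rw [this, hdiv, neg_zero, mul_zero]
      rw [e1, e2, e3, sub_zero]
    have h4 : ∑ a, ∑ b, κ a b * g (a, b) = ∑ a, ∑ b, κ a b * γ a b := rfl
    rw [h4]
    linarith

end P3W
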