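import Pool.Agent.Lib_MP_b306af.WCon

set_option autoImplicit false

namespace P3W

open P4 P3

variable {V : Type} {T To Ti : Tri V} {ι : Type}

open Classical in
/-- the glued colouring -/
noncomputable def glue (To : Tri V) (co ci : V → Bool) : V → Bool :=
  fun z => if To.Supp z then co z else ci z

end P3W
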