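import Pool.Agent.Lib_MP_b306af.WCut0

set_option autoImplicit false

namespace P3W

open P4 P3

variable {V : Type} {T To Ti : Tri V} {ι : Type}

private theorem wcuta_cut {p q x : V} (hC : IsCut T To Ti p q x) : Cut T To Ti p q x where
  Fo := hC.fo
  Fi := hC.fi
  split := hC.iff
  common := hC.supp

theorem cut_supp {p q x : V} (hC : IsCut T To Ti p q x) (z : V) :
    T.Supp z ↔ To.Supp z ∨ Ti.Supp z :=
  (wcuta_cut hC).supp_iff z

/-- edges of the parts are edges of `T` -/
theorem cut_adj_o {p q x : V} (hC : IsCut T To Ti p q x) {a b : V} (h : To.Adj a b) :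
    T.Adj a b :=
  (wcuta_cut hC).adj_o h

theorem cut_adj_i {p q x : V} (hC : IsCut T To Ti p q x) {a b : V} (h : Ti.Adj a b) :
    T.Adj a b :=
  (wcuta_cut hC).adj_i h

theorem cut_nv_o [Finite V] {p q x : V} (hC : IsCut T To Ti p q x) : nv To < nv T := by
  unfold nv
  refine Set.ncard_lt_ncard ?_ (Set.toFinite _)
  obtain ⟨v, h1, h2, h3, h4⟩ := hC.ini
  refine (Set.ssubset_iff_of_subset (s := {v | To.Supp v}) (t := {v | T.Supp v})
    (fun v hv => (cut_supp hC v).2 (Or.inl hv))).2
    ⟨v, (cut_supp hC v).2 (Or.inr h1), fun hv => ?_⟩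
  rcases hC.supp v hv h1 with h | h | h
  · exact h2 h
  · exact h3 h
  · exact h4 h

theorem cut_nv_i [Finite V] {p q x : V} (hC : IsCut T To Ti p q x) : nv Ti < nv T := by
  unfold nv
  refine Set.ncard_lt_ncard ?_ (Set.toFinite _)
  obtain ⟨v, h1, h2, h3, h4⟩ := hC.ino
  refine (Set.ssubset_iff_of_subset (s := {v | Ti.Supp v}) (t := {v | T.Supp v})
    (fun v hv => (cut_supp hC v).2 (Or.inr hv))).2
    ⟨v, (cut_supp hC v).2 (Or.inl h1), fun hv => ?_⟩
  rcases hC.supp v h1 hv with h | h | h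
  · exact h2 h
  · exact h3 h
  · exact h4 h

/-- a triangulation is connected (from `trans`) -/
theorem tri_conn (T : Tri V) : Con T.Adj {v | T.Supp v} :=
  con_W T

/-- the family induced on the outer part: the indices with faces in `To`, plus one new index for the
triangle with a given weight -/
theorem cut_sums [DecidableEq ι] {p q x : V} (hC : IsCut T To Ti p q x) (F : Fam T ι) :
    ∃ Do Di : Finset ι, Disjoint Do Di ∧ Do ∪ Di = F.D ∧
      (∀ i ∈ Do, To.F (F.p i) (F.q i) (F.x i)) ∧ (∀ i ∈ Di, Ti.F (F.p i) (F.q i) (F.x i)) := by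
  classical
  refine ⟨F.D.filter (fun i => To.F (F.p i) (F.q i) (F.x i)),
    F.D.filter (fun i => ¬ To.F (F.p i) (F.q i) (F.x i)), ?_, ?_, ?_, ?_⟩
  · exact Finset.disjoint_filter_filter_not _ _ _
  · ext i
    simp only [Finset.mem_union, Finset.mem_filter]
    tauto
  · intro i hi
    exact (Finset.mem_filter.1 hi).2
  · intro i hi
    obtain ⟨h1, h2⟩ := Finset.mem_filter.1 hi
    rcases (hC.iff _ _ _).1 (F.face i h1) with h | h
    · exact absurd h.1 h2
    · exact h.1

end P3W
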