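import Pool.Agent.Lib_MP_b306af.WCutA

set_option autoImplicit false

namespace P3W

open P4 P3

variable {V : Type} {T To Ti : Tri V} {ι : Type}

private theorem WCUTB_glue_o {co ci : V → Bool} {z : V} (h : To.Supp z) :
    glue To co ci z = co z := by
  classical
  unfold glue
  rw [if_pos h]

private theorem WCUTB_glue_n {co ci : V → Bool} {z : V} (h : ¬ To.Supp z) :
    glue To co ci z = ci z := by
  classical
  unfold glue
  rw [if_neg h]

private theorem WCUTB_supp_fo {p q x : V} (hC : IsCut T To Ti p q x) {z : V}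
    (hz : z = p ∨ z = q ∨ z = x) : To.Supp z ∧ Ti.Supp z := by
  rcases hz with rfl | rfl | rfl
  · exact ⟨⟨q, x, hC.fo⟩, ⟨x, q, Ti.cyc _ _ _ hC.fi⟩⟩
  · exact ⟨⟨x, p, To.cyc _ _ _ hC.fo⟩, ⟨p, x, hC.fi⟩⟩
  · exact ⟨⟨p, q, To.cyc2 hC.fo⟩, ⟨q, p, Ti.cyc2 hC.fi⟩⟩

/-- gluing bonds which agree on the triangle and are not constant there -/
theorem cut_bond {p q x : V} (hC : IsCut T To Ti p q x) {co ci : V → Bool} (ho : Bond To co)
    (hi : Bond Ti ci) (e1 : co p = ci p) (e2 : co q = ci q) (e3 : co x = ci x)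
    (hne : ¬ Mono co p q x) : Bond T (glue To co ci) := by
  have hgi : ∀ z, Ti.Supp z → glue To co ci z = ci z := by
    intro z hz
    by_cases h : To.Supp z
    · rw [WCUTB_glue_o h]
      rcases hC.supp z h hz with rfl | rfl | rfl
      exacts [e1, e2, e3]
    · exact WCUTB_glue_n h
  intro b P hP a a' ha ha' hPa
  -- a vertex of the triangle with colour `b`
  obtain ⟨y, hy, hyb⟩ : ∃ y, (y = p ∨ y = q ∨ y = x) ∧ co y = b := by
    by_contra hcon
    push Not at hcon
    have h1 := hcon p (Or.inl rfl)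
    have h2 := hcon q (Or.inr (Or.inl rfl))
    have h3 := hcon x (Or.inr (Or.inr rfl))
    apply hne
    unfold Mono
    revert h1 h2 h3
    cases co p <;> cases co q <;> cases co x <;> cases b <;> simp
  obtain ⟨hyo, hyi⟩ := WCUTB_supp_fo hC hy
  have hyci : ci y = b := by rw [← hgi y hyi, WCUTB_glue_o hyo, hyb]
  have key : ∀ z, T.Supp z → glue To co ci z = b → (P z → P y) ∧ (P y → P z) := by
    intro z hz hzb
    have stepo : ∀ s t, s ∈ {v | To.Supp v ∧ co v = b} → t ∈ {v | To.Supp v ∧ co v = b} →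
        To.Adj s t → P s → P t := by
      intro s t hs ht hst hPs
      refine hP s t ⟨(cut_supp hC s).2 (Or.inl hs.1), ?_⟩ ⟨(cut_supp hC t).2 (Or.inl ht.1), ?_⟩
        (cut_adj_o hC hst) hPs
      · rw [WCUTB_glue_o hs.1]; exact hs.2
      · rw [WCUTB_glue_o ht.1]; exact ht.2
    have stepi : ∀ s t, s ∈ {v | Ti.Supp v ∧ ci v = b} → t ∈ {v | Ti.Supp v ∧ ci v = b} →
        Ti.Adj s t → P s → P t := by
      intro s t hs ht hst hPs
      refine hP s t ⟨(cut_supp hC s).2 (Or.inr hs.1), ?_⟩ ⟨(cut_supp hC t).2 (Or.inr ht.1), ?_⟩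
        (cut_adj_i hC hst) hPs
      · rw [hgi s hs.1]; exact hs.2
      · rw [hgi t ht.1]; exact ht.2
    rcases (cut_supp hC z).1 hz with h | h
    · have hz' : z ∈ {v | To.Supp v ∧ co v = b} := ⟨h, by rw [← hzb, WCUTB_glue_o h]⟩
      have hy' : y ∈ {v | To.Supp v ∧ co v = b} := ⟨hyo, hyb⟩
      exact ⟨ho b P stepo z y hz' hy', ho b P stepo y z hy' hz'⟩
    · have hz' : z ∈ {v | Ti.Supp v ∧ ci v = b} := ⟨h, by rw [← hgi z h, hzb]⟩
      have hy' : y ∈ {v | Ti.Supp v ∧ ci v = b} := ⟨hyi, hyci⟩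
      exact ⟨hi b P stepi z y hz' hy', hi b P stepi y z hy' hz'⟩
  exact (key a' ha'.1 ha'.2).2 ((key a ha.1 ha.2).1 hPa)

/-- a bond of `To` which is constant on the triangle, extended by this constant -/
theorem cut_bond_const {p q x : V} (hC : IsCut T To Ti p q x) {co : V → Bool} (ho : Bond To co)
    (hm : Mono co p q x) (hconn : Con Ti.Adj {v | Ti.Supp v}) :
    Bond T (glue To co (fun _ => co p)) := by
  have hgi : ∀ z, Ti.Supp z → glue To co (fun _ => co p) z = co p := by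
    intro z hz
    by_cases h : To.Supp z
    · rw [WCUTB_glue_o h]
      rcases hC.supp z h hz with rfl | rfl | rfl
      exacts [rfl, hm.1.symm, (hm.1.trans hm.2).symm]
    · exact WCUTB_glue_n h
  intro b P hP a a' ha ha' hPa
  have stepo : ∀ s t, s ∈ {v | To.Supp v ∧ co v = b} → t ∈ {v | To.Supp v ∧ co v = b} →
      To.Adj s t → P s → P t := by
    intro s t hs ht hst hPs
    refine hP s t ⟨(cut_supp hC s).2 (Or.inl hs.1), ?_⟩ ⟨(cut_supp hC t).2 (Or.inl ht.1), ?_⟩
      (cut_adj_o hC hst) hPs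
    · rw [WCUTB_glue_o hs.1]; exact hs.2
    · rw [WCUTB_glue_o ht.1]; exact ht.2
  by_cases hb : co p = b
  · obtain ⟨hyo, hyi⟩ := WCUTB_supp_fo hC (z := p) (Or.inl rfl)
    have stepi : ∀ s t, s ∈ {v | Ti.Supp v} → t ∈ {v | Ti.Supp v} → Ti.Adj s t → P s → P t := by
      intro s t hs ht hst hPs
      refine hP s t ⟨(cut_supp hC s).2 (Or.inr hs), ?_⟩ ⟨(cut_supp hC t).2 (Or.inr ht), ?_⟩
        (cut_adj_i hC hst) hPs
      · rw [hgi s hs]; exact hb
      · rw [hgi t ht]; exact hb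
    have key : ∀ z, T.Supp z → glue To co (fun _ => co p) z = b → (P z → P p) ∧ (P p → P z) := by
      intro z hz hzb
      rcases (cut_supp hC z).1 hz with h | h
      · have hz' : z ∈ {v | To.Supp v ∧ co v = b} := ⟨h, by rw [← hzb, WCUTB_glue_o h]⟩
        have hy' : p ∈ {v | To.Supp v ∧ co v = b} := ⟨hyo, hb⟩
        exact ⟨ho b P stepo z p hz' hy', ho b P stepo p z hy' hz'⟩
      · exact ⟨hconn P stepi z p h hyi, hconn P stepi p z hyi h⟩
    exact (key a' ha'.1 ha'.2).2 ((key a ha.1 ha.2).1 hPa)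
  · have hmem : ∀ z, T.Supp z → glue To co (fun _ => co p) z = b →
        z ∈ {v | To.Supp v ∧ co v = b} := by
      intro z hz hzb
      by_cases h : To.Supp z
      · exact ⟨h, by rw [← hzb, WCUTB_glue_o h]⟩
      · exact absurd (by rw [← hzb, WCUTB_glue_n h]) hb
    exact ho b P stepo a a' (hmem a ha.1 ha.2) (hmem a' ha'.1 ha'.2) hPa

end P3W
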