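import Pool.Agent.Lib_MP_b306af.WCutB

set_option autoImplicit false

namespace P3W

open P4 P3

variable {V : Type} {T To Ti : Tri V} {ι : Type}

theorem WCUTC_cyc {p q x a b c : V} : Cyc3 q x p a b c ↔ Cyc3 p q x a b c := by
  unfold Cyc3
  constructor
  · rintro (⟨h1, h2, h3⟩ | ⟨h1, h2, h3⟩ | ⟨h1, h2, h3⟩)
    · exact Or.inr (Or.inl ⟨h1, h2, h3⟩)
    · exact Or.inr (Or.inr ⟨h1, h2, h3⟩)
    · exact Or.inl ⟨h1, h2, h3⟩
  · rintro (⟨h1, h2, h3⟩ | ⟨h1, h2, h3⟩ | ⟨h1, h2, h3⟩)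
    · exact Or.inr (Or.inr ⟨h1, h2, h3⟩)
    · exact Or.inl ⟨h1, h2, h3⟩
    · exact Or.inr (Or.inl ⟨h1, h2, h3⟩)

/-- rotation of a cut -/
theorem WCUTC_rot {p q x : V} (hC : IsCut T To Ti p q x) : IsCut T To Ti q x p where
  fo := To.cyc _ _ _ hC.fo
  fi := Ti.cyc2 hC.fi
  iff a b c := by
    have e1 : Cyc3 q x p a b c ↔ Cyc3 p q x a b c := WCUTC_cyc
    have e2 : Cyc3 x q p a b c ↔ Cyc3 q p x a b c := by
      rw [← WCUTC_cyc, ← WCUTC_cyc]
    rw [e1, e2]
    exact hC.iff a b c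
  supp v h1 h2 := by
    rcases hC.supp v h1 h2 with h | h | h
    · exact Or.inr (Or.inr h)
    · exact Or.inl h
    · exact Or.inr (Or.inl h)
  ino := by
    obtain ⟨v, h1, h2, h3, h4⟩ := hC.ino
    exact ⟨v, h1, h3, h4, h2⟩
  ini := by
    obtain ⟨v, h1, h2, h3, h4⟩ := hC.ini
    exact ⟨v, h1, h3, h4, h2⟩

/-- gain as a sum with `if` -/
theorem WCUTC_gain (F : Fam T ι) (c : V → Bool) :
    F.gain c = ∑ i ∈ F.D, if ¬ Mono c (F.p i) (F.q i) (F.x i) then f (F.w i) else 0 := by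
  unfold Fam.gain
  rw [Finset.sum_filter]

/-- the family induced on the outer part -/
noncomputable def WCUTC_fam (F : Fam T ι) (To : Tri V) (p q x : V) (W : ℝ) (Do : Finset ι)
    (hpqx : To.F p q x) (hW : 0 ≤ W) (hDo : ∀ i ∈ Do, To.F (F.p i) (F.q i) (F.x i))
    (hpos : ∀ i ∈ Do, 0 ≤ F.w i) : Fam To (Option ι) where
  D := Finset.insertNone Do
  p := fun o => o.elim p F.p
  q := fun o => o.elim q F.q
  x := fun o => o.elim x F.x
  w := fun o => o.elim W F.w
  face := by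
    intro o ho
    cases o with
    | none => exact hpqx
    | some i => exact hDo i (Finset.some_mem_insertNone.1 ho)
  pos := by
    intro o ho
    cases o with
    | none => exact hW
    | some i => exact hpos i (Finset.some_mem_insertNone.1 ho)

theorem WCUTC_supp {a b d : V} (h : T.F a b d) : T.Supp a ∧ T.Supp b ∧ T.Supp d :=
  ⟨⟨_, _, h⟩, ⟨_, _, T.cyc _ _ _ h⟩, ⟨_, _, T.cyc2 h⟩⟩

theorem WCUTC_mono {c c' : V → Bool} {a b d : V} (h1 : c a = c' a) (h2 : c b = c' b)
    (h3 : c d = c' d) : Mono c a b d ↔ Mono c' a b d := by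
  unfold Mono
  rw [h1, h2, h3]

/-- the complementary colouring is a bond -/
theorem WCUTC_not {c : V → Bool} (h : Bond T c) : Bond T (fun v => !c v) := by
  intro b
  have h1 := h (!b)
  have h2 : {v | T.Supp v ∧ (!c v) = b} = {v | T.Supp v ∧ c v = !b} := by
    ext v
    simp only [Set.mem_ofPred_eq]
    constructor
    · rintro ⟨h3, h4⟩
      exact ⟨h3, by rw [← h4]; simp⟩
    · rintro ⟨h3, h4⟩
      exact ⟨h3, by rw [h4]; simp⟩
  rw [h2]
  exact h1

/-- the inner part, if the outer colouring is not constant on the triangle, first two corners equal -/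
theorem WCUTC_inner1 {p q x : V} (hC : IsCut T To Ti p q x) (hTi : TT Ti) {co : V → Bool}
    (e : co p = co q) (hne : ¬ Mono co p q x) (G : Fam Ti ι) :
    ∃ ci : V → Bool, Bond Ti ci ∧ co p = ci p ∧ co q = ci q ∧ co x = ci x ∧
      f G.tot ≤ G.gain ci := by
  obtain ⟨d, hd⟩ := Ti.opp _ _ _ hC.fi
  have hdx : x ≠ d := by
    rintro rfl
    obtain ⟨v, h1, h2, h3, h4⟩ := hC.ini
    rcases F0 hd hC.fi v h1 with h | h | h
    · exact h2 h
    · exact h3 h
    · exact h4 h
  obtain ⟨ci, hb, k1, k2, k3, -, hg⟩ := hTi q p x d hC.fi hd hdx ι G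
  have hx : co x ≠ co p := by
    intro h
    exact hne ⟨e, by rw [h, e]⟩
  by_cases hp : co p = true
  · refine ⟨ci, hb, ?_, ?_, ?_, hg⟩
    · rw [hp, k2]
    · rw [← e, hp, k1]
    · rw [k3]
      cases hcx : co x
      · rfl
      · exact absurd (hcx.trans hp.symm) hx
  · rw [Bool.not_eq_true] at hp
    refine ⟨fun v => !ci v, WCUTC_not hb, ?_, ?_, ?_, ?_⟩
    · simp only
      rw [hp, k2]
      rfl
    · simp only
      rw [← e, hp, k1]
      rfl
    · simp only
      rw [k3]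
      cases hcx : co x
      · exact absurd (hcx.trans hp.symm) hx
      · rfl
    · refine hg.trans (le_of_eq ?_)
      rw [WCUTC_gain, WCUTC_gain]
      refine Finset.sum_congr rfl fun i _ => ?_
      have : Mono ci (G.p i) (G.q i) (G.x i) ↔ Mono (fun v => !ci v) (G.p i) (G.q i) (G.x i) := by
        unfold Mono
        simp
      simp only [this]

/-- the inner part, if the outer colouring is not constant on the triangle -/
theorem WCUTC_inner {p q x : V} (hC : IsCut T To Ti p q x) (hTi : TT Ti) {co : V → Bool}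
    (hne : ¬ Mono co p q x) (G : Fam Ti ι) :
    ∃ ci : V → Bool, Bond Ti ci ∧ co p = ci p ∧ co q = ci q ∧ co x = ci x ∧
      f G.tot ≤ G.gain ci := by
  by_cases e1 : co p = co q
  · exact WCUTC_inner1 hC hTi e1 hne G
  by_cases e2 : co q = co x
  · have hne' : ¬ Mono co q x p := by
      rintro ⟨h1, h2⟩
      exact e1 (by rw [h1, h2])
    obtain ⟨ci, hb, k1, k2, k3, hg⟩ := WCUTC_inner1 (WCUTC_rot hC) hTi e2 hne' G
    exact ⟨ci, hb, k3, k1, k2, hg⟩
  · have e3 : co x = co p := by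
      cases hp : co p <;> cases hq : co q <;> cases hx : co x <;> simp_all
    have hne' : ¬ Mono co x p q := by
      rintro ⟨h1, h2⟩
      exact e1 h2
    obtain ⟨ci, hb, k1, k2, k3, hg⟩ := WCUTC_inner1 (WCUTC_rot (WCUTC_rot hC)) hTi e3 hne' G
    exact ⟨ci, hb, k2, k3, k1, hg⟩

/-- Case 0a: both root faces in `To`. -/
theorem cut_case_a [Finite V] {p q x h h' t t' : V} (hC : IsCut T To Ti p q x)
    (hTo : TT To) (hTi : TT Ti) (h1 : To.F h h' t) (h2 : To.F h' h t') (h3 : t ≠ t')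
    (h1' : T.F h h' t) (h2' : T.F h' h t') (F : Fam T ι) : VAL T h h' t t' F (f F.tot) := by
  classical
  obtain ⟨Do, Di, hdisj, hun, hDo, hDi⟩ := cut_sums hC F
  have hpo : ∀ i ∈ Do, 0 ≤ F.w i := fun i hi => F.pos i (by rw [← hun]; exact Finset.mem_union_left _ hi)
  have hpi : ∀ i ∈ Di, 0 ≤ F.w i := fun i hi => F.pos i (by rw [← hun]; exact Finset.mem_union_right _ hi)
  obtain ⟨W, hW⟩ : ∃ W, W = ∑ i ∈ Di, F.w i := ⟨_, rfl⟩
  have hW0 : 0 ≤ W := by rw [hW]; exact Finset.sum_nonneg hpi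
  obtain ⟨co, hb, c1, c2, c3, c4, hg⟩ := hTo h h' t t' h1 h2 h3 (Option ι)
    (WCUTC_fam F To p q x W Do hC.fo hW0 hDo hpo)
  have htot : (WCUTC_fam F To p q x W Do hC.fo hW0 hDo hpo).tot = F.tot := by
    unfold Fam.tot
    have : (WCUTC_fam F To p q x W Do hC.fo hW0 hDo hpo).D = Finset.insertNone Do := rfl
    rw [this, Finset.sum_insertNone, ← hun, Finset.sum_union hdisj, ← hW, add_comm]
    rfl
  have hgo : (WCUTC_fam F To p q x W Do hC.fo hW0 hDo hpo).gain co =
      (if ¬ Mono co p q x then f W else 0) +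
        ∑ i ∈ Do, if ¬ Mono co (F.p i) (F.q i) (F.x i) then f (F.w i) else 0 := by
    rw [WCUTC_gain]
    have : (WCUTC_fam F To p q x W Do hC.fo hW0 hDo hpo).D = Finset.insertNone Do := rfl
    rw [this, Finset.sum_insertNone]
    rfl
  rw [htot, hgo] at hg
  have hsT : ∀ c : V → Bool, F.gain c =
      (∑ i ∈ Do, if ¬ Mono c (F.p i) (F.q i) (F.x i) then f (F.w i) else 0) +
        ∑ i ∈ Di, if ¬ Mono c (F.p i) (F.q i) (F.x i) then f (F.w i) else 0 := by
    intro c
    rw [WCUTC_gain, ← hun, Finset.sum_union hdisj]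
  -- values of the glued colouring
  have gl : ∀ ci : V → Bool, ∀ z, To.Supp z → glue To co ci z = co z := by
    intro ci z hz
    unfold glue
    rw [if_pos hz]
  have hDo' : ∀ ci : V → Bool,
      (∑ i ∈ Do, if ¬ Mono (glue To co ci) (F.p i) (F.q i) (F.x i) then f (F.w i) else 0) =
      ∑ i ∈ Do, if ¬ Mono co (F.p i) (F.q i) (F.x i) then f (F.w i) else 0 := by
    intro ci
    refine Finset.sum_congr rfl fun i hi => ?_
    obtain ⟨s1, s2, s3⟩ := WCUTC_supp (hDo i hi)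
    have := WCUTC_mono (gl ci _ s1) (gl ci _ s2) (gl ci _ s3)
    simp only [this]
  have s1 : To.Supp h := (WCUTC_supp h1).1
  have s2 : To.Supp h' := (WCUTC_supp h1).2.1
  have s3 : To.Supp t := (WCUTC_supp h1).2.2
  have s4 : To.Supp t' := (WCUTC_supp h2).2.2
  by_cases hm : Mono co p q x
  · refine ⟨glue To co (fun _ => co p), cut_bond_const hC hb hm (tri_conn Ti), ?_, ?_, ?_, ?_, ?_⟩
    · rw [gl _ _ s1, c1]
    · rw [gl _ _ s2, c2]
    · rw [gl _ _ s3, c3]
    · rw [gl _ _ s4, c4]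
    · rw [if_neg (not_not.2 hm), zero_add] at hg
      rw [hsT, hDo']
      have : 0 ≤ ∑ i ∈ Di, if ¬ Mono (glue To co (fun _ => co p)) (F.p i) (F.q i) (F.x i)
          then f (F.w i) else 0 := by
        refine Finset.sum_nonneg fun i hi => ?_
        split_ifs
        · exact le_refl _
        · exact f_nonneg (hpi i hi)
      linarith
  · obtain ⟨ci, hbi, k1, k2, k3, hgi⟩ := WCUTC_inner hC hTi hm
      (⟨Di, F.p, F.q, F.x, F.w, hDi, hpi⟩ : Fam Ti ι)
    have gl' : ∀ z, Ti.Supp z → glue To co ci z = ci z := by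
      intro z hz
      unfold glue
      split_ifs with hzo
      · rcases hC.supp z hzo hz with rfl | rfl | rfl
        · exact k1
        · exact k2
        · exact k3
      · rfl
    refine ⟨glue To co ci, cut_bond hC hb hbi k1 k2 k3 hm, ?_, ?_, ?_, ?_, ?_⟩
    · rw [gl _ _ s1, c1]
    · rw [gl _ _ s2, c2]
    · rw [gl _ _ s3, c3]
    · rw [gl _ _ s4, c4]
    · rw [if_pos hm] at hg
      rw [WCUTC_gain] at hgi
      have e1 : (⟨Di, F.p, F.q, F.x, F.w, hDi, hpi⟩ : Fam Ti ι).tot = W := by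
        rw [hW]
        rfl
      rw [e1] at hgi
      have e2 : (∑ i ∈ Di, if ¬ Mono (glue To co ci) (F.p i) (F.q i) (F.x i) then f (F.w i) else 0) =
          ∑ i ∈ Di, if ¬ Mono ci (F.p i) (F.q i) (F.x i) then f (F.w i) else 0 := by
        refine Finset.sum_congr rfl fun i hi => ?_
        obtain ⟨s1, s2, s3⟩ := WCUTC_supp (hDi i hi)
        have := WCUTC_mono (gl' _ s1) (gl' _ s2) (gl' _ s3)
        simp only [this]
      rw [hsT, hDo', e2]
      have e3 : f W ≤ ∑ i ∈ Di, if ¬ Mono ci (F.p i) (F.q i) (F.x i) then f (F.w i) else 0 := hgi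
      linarith

end P3W
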