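import Pool.Agent.Lib_MP_b306af.P3Defs

/-!
# MP_b306af: the weighted face theorem directly for `P4.Tri` (definitions)

Proof text: `PartI_h50.md`.  Families of faces with weights are indexed (repetitions allowed), so no
type of faces is needed.
-/

set_option autoImplicit false

namespace P3W

open P4 P3

variable {V : Type}

/-- `x ^ (4/5)` -/
noncomputable def f (x : ℝ) : ℝ := x ^ ((4 : ℝ) / 5)

/-- a family of faces with weights -/
structure Fam (T : Tri V) (ι : Type) where
  D : Finset ι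
  p : ι → V
  q : ι → V
  x : ι → V
  w : ι → ℝ
  face : ∀ i ∈ D, T.F (p i) (q i) (x i)
  pos : ∀ i ∈ D, 0 ≤ w i

/-- the three points have the same colour -/
def Mono (c : V → Bool) (a b d : V) : Prop := c a = c b ∧ c b = c d

instance (c : V → Bool) (a b d : V) : Decidable (Mono c a b d) := by unfold Mono; infer_instance

/-- both colour classes are connected -/
def Bond (T : Tri V) (c : V → Bool) : Prop := ∀ b : Bool, Con T.Adj {v | T.Supp v ∧ c v = b}

variable {T : Tri V} {ι : Type}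

/-- total weight -/
noncomputable def Fam.tot (F : Fam T ι) : ℝ := ∑ i ∈ F.D, F.w i

/-- weight `f`, counted on the bichromatic faces -/
noncomputable def Fam.gain (F : Fam T ι) (c : V → Bool) : ℝ :=
  ∑ i ∈ F.D.filter (fun i => ¬ Mono c (F.p i) (F.q i) (F.x i)), f (F.w i)

/-- there is a bond with the prescribed colours at the root and gain at least `y` -/
def VAL (T : Tri V) (h h' t t' : V) (F : Fam T ι) (y : ℝ) : Prop :=
  ∃ c : V → Bool, Bond T c ∧ c h = true ∧ c h' = true ∧ c t = false ∧ c t' = false ∧ y ≤ F.gain c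

/-- Theorem TT for one triangulation -/
def TT (T : Tri V) : Prop :=
  ∀ h h' t t' : V, T.F h h' t → T.F h' h t' → t ≠ t' →
    ∀ (ι : Type) (F : Fam T ι), VAL T h h' t t' F (f F.tot)

/-- no separating triangle -/
def NT (T : Tri V) : Prop :=
  ∀ a b d : V, T.Adj a b → T.Adj b d → T.Adj d a → T.F a b d ∨ T.F b a d

/-- the link of every vertex is one cycle -/
def LinkOne (T : Tri V) : Prop :=
  ∀ (v : V) (Q : V → Prop), (∀ a b, T.F v a b → Q a → Q b) →
    ∀ a b, T.Adj v a → T.Adj v b → Q a → Q b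

/-- the face `(a, b, d)` contains the dart `y z` -/
def HasD (y z a b d : V) : Prop := (a = y ∧ b = z) ∨ (b = y ∧ d = z) ∨ (d = y ∧ a = z)

open Classical in
/-- weight of the face on the left of the dart `y z` -/
noncomputable def Fam.wd (F : Fam T ι) (y z : V) : ℝ :=
  ∑ i ∈ F.D.filter (fun i => HasD y z (F.p i) (F.q i) (F.x i)), F.w i

/-- contraction exists -/
def ContrEx (V : Type) : Prop :=
  ∀ (T : Tri V) (u v x y : V), T.F u v x → T.F v u y → x ≠ y →
    (∀ z, T.Adj u z → T.Adj v z → z = x ∨ z = y) → 5 ≤ nv T → ∃ T' : Tri V, IsContr T T' u v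

/-- cuts exist -/
def CutEx (V : Type) : Prop :=
  ∀ (T : Tri V) (p q x r s t : V), Sep T p q x → T.F r s t →
    ∃ To Ti : Tri V, (IsCut T To Ti p q x ∨ IsCut T To Ti q p x) ∧ To.F r s t

/-- two disjoint edges do not cross: if `y z` is an edge and the closed walk `a b d e` is a cycle
then the faces at `y` and `z` are on the same side.  (Jordan, in the form needed in 1.5.)  -/
def Jordan4 (V : Type) : Prop :=
  ∀ (T : Tri V) (h h' t t' r1 r2 r3 r4 : V), T.F h h' t → T.F h' h t' → T.F h t r1 → T.F t h' r2 →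
    T.F t' h r3 → T.F h' t' r4 → r1 ≠ r3 → r2 ≠ r4 → r1 ≠ r2 → r3 ≠ r4 → r1 ≠ r4 → r2 ≠ r3 →
    t ≠ t' → t ≠ r4 → t' ≠ r1 →
    ¬ (T.Adj r1 r4 ∧ T.Adj r2 r3)

/-- the local situation (case 1) -/
structure Loc (T : Tri V) (h h' t t' r1 r2 r3 r4 : V) : Prop where
  nt : NT T
  hu : T.F h h' t
  hu' : T.F h' h t'
  htt : ¬ T.Adj t t'
  ne : t ≠ t'
  f1 : T.F h t r1
  f2 : T.F t h' r2
  f3 : T.F t' h r3
  f4 : T.F h' t' r4

theorem Loc.rot {h h' t t' r1 r2 r3 r4 : V} (L : Loc T h h' t t' r1 r2 r3 r4) :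
    Loc T h' h t' t r4 r3 r2 r1 where
  nt := L.nt
  hu := L.hu'
  hu' := L.hu
  htt := fun h => L.htt h.symm
  ne := L.ne.symm
  f1 := L.f4
  f2 := L.f3
  f3 := L.f2
  f4 := L.f1

theorem NT.mirror (h : NT T) : NT T.mirror := by
  intro a b d h1 h2 h3
  rw [Tri.mirror_Adj] at h1 h2 h3
  have := h a b d h1 h2 h3
  rw [Tri.mirror_F, Tri.mirror_F]
  exact this.symm

theorem Loc.mirror {h h' t t' r1 r2 r3 r4 : V} (L : Loc T h h' t t' r1 r2 r3 r4) :
    Loc T.mirror h' h t t' r2 r1 r4 r3 where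
  nt := L.nt.mirror
  hu := L.hu
  hu' := L.hu'
  htt := fun h => L.htt ((Tri.mirror_Adj T _ _).1 h)
  ne := L.ne
  f1 := L.f2
  f2 := L.f1
  f3 := L.f4
  f4 := L.f3

/-- the family for the mirror image -/
def Fam.mirror (F : Fam T ι) : Fam T.mirror ι where
  D := F.D
  p := F.q
  q := F.p
  x := F.x
  w := F.w
  face := fun i hi => F.face i hi
  pos := F.pos

end P3W
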