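import Pool.Agent.Lib_MP_b306af.WFinA

set_option autoImplicit false

namespace P3W

open P4 P3

variable {V : Type} [Finite V]

/-- helper73's form -/
theorem wf (hTT : ∀ T : Tri V, TT T) (T : Tri V) {r s t : V} (h : T.F r s t) {ι : Type}
    (D : Finset ι) (p q x : ι → V) (hD : ∀ i ∈ D, T.F (p i) (q i) (x i)) (ω : ι → ℝ)
    (hω : ∀ i ∈ D, 0 ≤ ω i) :
    ∃ side : V → SignType, (∀ v, T.Supp v → side v = 1 ∨ side v = -1) ∧
      (∀ σ : SignType, σ ≠ 0 → Con T.Adj {v | T.Supp v ∧ side v = σ}) ∧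
      side r = 1 ∧ side s = -1 ∧ side t = -1 ∧
      (∑ i ∈ D, ω i) ^ ((4 : ℝ) / 5) ≤
        ∑ i ∈ D with ¬ (side (p i) = side (q i) ∧ side (q i) = side (x i)),
          ω i ^ ((4 : ℝ) / 5) := by
  obtain ⟨c, hB, c1, c2, c3, hg⟩ := root_face hTT T (T.cyc _ _ _ h)
    (⟨D, p, q, x, ω, hD, hω⟩ : Fam T ι)
  refine ⟨fun v => if c v then -1 else 1, ?_, ?_, ?_, ?_, ?_, ?_⟩
  · intro v _
    by_cases hv : c v <;> simp [hv]
  · intro σ hσ
    have key : ∀ b : Bool, (σ = if b then -1 else 1) →
        {v | T.Supp v ∧ (if c v then (-1 : SignType) else 1) = σ} = {v | T.Supp v ∧ c v = b} := by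
      intro b hb
      ext v
      simp only [Set.mem_setOf_eq, hb]
      cases hb' : b <;> cases hv : c v <;> simp
    rcases SignType.trichotomy σ with h0 | h0 | h0
    · rw [key true (by simp [h0])]
      exact hB true
    · exact absurd h0 hσ
    · rw [key false (by simp [h0])]
      exact hB false
  · simp [c3]
  · simp [c1]
  · simp [c2]
  · have e : ∀ i, (¬ ((if c (p i) then (-1 : SignType) else 1) = (if c (q i) then -1 else 1) ∧
        (if c (q i) then (-1 : SignType) else 1) = (if c (x i) then -1 else 1))) ↔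
        ¬ Mono c (p i) (q i) (x i) := by
      intro i
      unfold Mono
      cases c (p i) <;> cases c (q i) <;> cases c (x i) <;> simp
    have hg' : f (∑ i ∈ D, ω i) ≤
        ∑ i ∈ D.filter (fun i => ¬ Mono c (p i) (q i) (x i)), f (ω i) := hg
    unfold f at hg'
    refine hg'.trans (le_of_eq ?_)
    refine Finset.sum_congr ?_ fun _ _ => rfl
    ext i
    simp only [Finset.mem_filter]
    rw [e i]

end P3W
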