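import Pool.Agent.Lib_MP_b306af.WAsm

set_option autoImplicit false

namespace P3W

open P4 P3

variable {V : Type} [Finite V]

/-- `TT` in all cases: the root face is `(h, h', t)`; only `c h = c h' = true`, `c t = false` is claimed. If
the other face at `h h'` is `(h', h, t)` then there are only three vertices (`F0`) and the colouring
`c v = true ↔ v = h ∨ v = h'` has the property that every face is bichromatic. -/
theorem root_face (hTT : ∀ T : Tri V, TT T) (T : Tri V) {h h' t : V} (h1 : T.F h h' t) {ι : Type}
    (F : Fam T ι) : ∃ c : V → Bool, Bond T c ∧ c h = true ∧ c h' = true ∧ c t = false ∧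
      f F.tot ≤ F.gain c := by
  classical
  obtain ⟨t', h2⟩ := T.opp _ _ _ h1
  by_cases htt : t = t'
  · subst htt
    have hall := F0 h1 h2
    obtain ⟨n1, n2, n3⟩ := F_ne h1
    have ct : ∀ v : V, T.Supp v → ((decide (v = h ∨ v = h')) = true ↔ v ≠ t) := by
      intro v hv
      rcases hall v hv with rfl | rfl | rfl
      · simp [n3.symm]
      · simp [n2]
      · simp [n3, n2.symm]
    refine ⟨fun v => decide (v = h ∨ v = h'), ?_, by simp, by simp, by simp [n3, n2.symm], ?_⟩
    · intro b P hP x y hx hy hPx
      obtain ⟨hx1, hx2⟩ := hx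
      obtain ⟨hy1, hy2⟩ := hy
      by_cases hxy : x = y
      · exact hxy ▸ hPx
      · refine hP x y ⟨hx1, hx2⟩ ⟨hy1, hy2⟩ ?_ hPx
        rcases hall x hx1 with rfl | rfl | rfl <;> rcases hall y hy1 with rfl | rfl | rfl
        · exact absurd rfl hxy
        · exact adj1 h1
        · exact adj2 h2
        · exact adj1 h2
        · exact absurd rfl hxy
        · exact adj2 h1
        · exact adj3 h1
        · exact adj3 h2
        · exact absurd rfl hxy
    · have hf : ∀ i ∈ F.D, ¬ Mono (fun v => decide (v = h ∨ v = h')) (F.p i) (F.q i) (F.x i) := by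
        intro i hi hm
        have hF := F.face i hi
        obtain ⟨m1, m2, m3⟩ := F_ne hF
        obtain ⟨e1, e2⟩ := hm
        have s1 : T.Supp (F.p i) := (adj1 hF).supp
        have s2 : T.Supp (F.q i) := (adj2 hF).supp
        have s3 : T.Supp (F.x i) := (adj3 hF).supp
        have c1 := ct _ s1
        have c2 := ct _ s2
        have c3 := ct _ s3
        simp only at e1 e2
        rw [e1, e2] at c1
        rw [e2] at c2
        have k12 : (F.p i ≠ t ↔ F.q i ≠ t) := c1.symm.trans c2
        have k23 : (F.q i ≠ t ↔ F.x i ≠ t) := c2.symm.trans c3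
        rcases hall _ s1 with a1 | a1 | a1 <;> rcases hall _ s2 with a2 | a2 | a2 <;>
          rcases hall _ s3 with a3 | a3 | a3 <;>
          simp only [a1, a2, a3] at m1 m2 m3 k12 k23 <;> first | exact m1 rfl | exact m2 rfl | exact m3 rfl | tauto
      unfold Fam.gain
      rw [Finset.filter_true_of_mem hf]
      exact f_sum _ _ F.pos
  · obtain ⟨c, a1, a2, a3, a4, a5, a6⟩ := hTT T h h' t t' h1 h2 htt ι F
    exact ⟨c, a1, a2, a3, a4, a6⟩

end P3W
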