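import Pool.Agent.Lib_MP_b306af.WCurl

/-!
# MP_b306af: the two chords `r1 r4` and `r2 r3` exclude each other
-/

set_option autoImplicit false

namespace P3W

open P4 P3

variable {V : Type}

open Classical in
/-- the circulation along the cycle `h r1 r4 h'` -/
noncomputable def cyc4 (h r1 r4 h' a b : V) : ℝ :=
  (if (a = h ∧ b = r1) ∨ (a = r1 ∧ b = r4) ∨ (a = r4 ∧ b = h') ∨ (a = h' ∧ b = h) then 1 else 0) -
  (if (b = h ∧ a = r1) ∨ (b = r1 ∧ a = r4) ∨ (b = r4 ∧ a = h') ∨ (b = h' ∧ a = h) then 1 else 0)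

theorem cyc4_out {h r1 r4 h' a b : V} (h1 : a ≠ h) (h2 : a ≠ r1) (h3 : a ≠ r4) (h4 : a ≠ h') :
    cyc4 h r1 r4 h' a b = 0 := by
  unfold cyc4
  rw [if_neg, if_neg, sub_zero]
  · rintro (⟨_, h5⟩ | ⟨_, h5⟩ | ⟨_, h5⟩ | ⟨_, h5⟩) <;> contradiction
  · rintro (⟨h5, _⟩ | ⟨h5, _⟩ | ⟨h5, _⟩ | ⟨h5, _⟩) <;> contradiction

theorem cyc4_anti (h r1 r4 h' a b : V) : cyc4 h r1 r4 h' a b = - cyc4 h r1 r4 h' b a := by
  unfold cyc4
  ring

theorem cyc4_div [Fintype V] {h r1 r4 h' : V} (d1 : h ≠ r1) (d2 : h ≠ r4) (d3 : h ≠ h')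
    (d4 : r1 ≠ r4) (d5 : r1 ≠ h') (d6 : r4 ≠ h') (a : V) : ∑ b, cyc4 h r1 r4 h' a b = 0 := by
  classical
  have key : ∀ u v : V, ∑ b : V, (if a = u ∧ b = v then (1 : ℝ) else 0) = if a = u then 1 else 0 := by
    intro u v
    by_cases ha : a = u
    · simp [ha]
    · simp [ha]
  have key' : ∀ u v : V, ∑ b : V, (if b = u ∧ a = v then (1 : ℝ) else 0) = if a = v then 1 else 0 := by
    intro u v
    by_cases ha : a = v
    · simp [ha]
    · simp [ha]
  have e : ∀ b, cyc4 h r1 r4 h' a b =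
      ((if a = h ∧ b = r1 then (1 : ℝ) else 0) + (if a = r1 ∧ b = r4 then 1 else 0) +
        (if a = r4 ∧ b = h' then 1 else 0) + (if a = h' ∧ b = h then 1 else 0)) -
      ((if b = h ∧ a = r1 then (1 : ℝ) else 0) + (if b = r1 ∧ a = r4 then 1 else 0) +
        (if b = r4 ∧ a = h' then 1 else 0) + (if b = h' ∧ a = h then 1 else 0)) := by
    intro b
    unfold cyc4
    congr 1
    · by_cases c1 : a = h ∧ b = r1
      · obtain ⟨rfl, rfl⟩ := c1
        simp [d1, d2, d3]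
      · by_cases c2 : a = r1 ∧ b = r4
        · obtain ⟨rfl, rfl⟩ := c2
          simp [d1.symm, d4, d5]
        · by_cases c3 : a = r4 ∧ b = h'
          · obtain ⟨rfl, rfl⟩ := c3
            simp [d2.symm, d4.symm, d6]
          · by_cases c4 : a = h' ∧ b = h
            · obtain ⟨rfl, rfl⟩ := c4
              simp [d3.symm, d5.symm, d6.symm]
            · simp [c1, c2, c3, c4]
    · by_cases c1 : b = h ∧ a = r1
      · obtain ⟨rfl, rfl⟩ := c1
        simp [d1, d2, d3]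
      · by_cases c2 : b = r1 ∧ a = r4
        · obtain ⟨rfl, rfl⟩ := c2
          simp [d1.symm, d4, d5]
        · by_cases c3 : b = r4 ∧ a = h'
          · obtain ⟨rfl, rfl⟩ := c3
            simp [d2.symm, d4.symm, d6]
          · by_cases c4 : b = h' ∧ a = h
            · obtain ⟨rfl, rfl⟩ := c4
              simp [d3.symm, d5.symm, d6.symm]
            · simp [c1, c2, c3, c4]
  simp only [e, Finset.sum_sub_distrib, Finset.sum_add_distrib, key, key']
  ring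

theorem jordan4 [Finite V] (hK : ∀ T : Tri V, LinkOne T) : Jordan4 V := by
  classical
  haveI := Fintype.ofFinite V
  intro T h h' t t' r1 r2 r3 r4 hu hu' f1 f2 f3 f4 d13 d24 d12 d34 d14 d23 dtt dt4 dt1 hcon
  obtain ⟨c14, c23⟩ := hcon
  have nh := F_ne hu
  have nh' := F_ne hu'
  have n1 := F_ne f1
  have n2 := F_ne f2
  have n3 := F_ne f3
  have n4 := F_ne f4
  have e1 : r1 ≠ h' := by
    rintro rfl
    exact dtt (T.uniq _ _ _ _ (T.cyc2 f1) hu')
  have e2 : r4 ≠ h := by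
    rintro rfl
    exact dtt (T.uniq _ _ _ _ hu (T.cyc2 f4))
  have e3 : r2 ≠ h := by
    rintro rfl
    exact dtt (T.uniq _ _ _ _ (T.cyc _ _ _ f2) hu')
  have e4 : r3 ≠ h' := by
    rintro rfl
    exact dtt (T.uniq _ _ _ _ hu (T.cyc _ _ _ f3))
  obtain ⟨φ, hφ, hγ⟩ := curl_exists T (cyc4 h r1 r4 h') (cyc4_anti _ _ _ _)
    (by
      intro a b hab
      have hno : ∀ y z, ((y = h ∧ z = r1) ∨ (y = r1 ∧ z = r4) ∨ (y = r4 ∧ z = h') ∨
          (y = h' ∧ z = h)) → T.Adj y z := by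
        rintro y z (⟨rfl, rfl⟩ | ⟨rfl, rfl⟩ | ⟨rfl, rfl⟩ | ⟨rfl, rfl⟩)
        · exact (adj3 f1).symm
        · exact c14
        · exact adj3 f4
        · exact adj1 hu'
      unfold cyc4
      rw [if_neg (fun hh => hab (hno a b hh)), if_neg (fun hh => hab (hno b a hh).symm), sub_zero])
    (cyc4_div n1.2.2.symm e2.symm nh.1 d14 e1 n4.2.2)
  -- no change around a vertex off the cycle
  have hround : ∀ v, v ≠ h → v ≠ r1 → v ≠ r4 → v ≠ h' → ∀ a b, T.Adj v a → T.Adj v b →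
      φ v a = φ v b := by
    intro v v1 v2 v3 v4 a b ha hb
    have := hK T v (fun z => φ v a = φ v z) (by
      intro y z hF hy
      have h1 : φ v y = φ y z := hφ _ _ _ hF
      have h2 : φ y z = φ z v := hφ _ _ _ (T.cyc _ _ _ hF)
      have h3 := hγ v z (adj3 hF).symm
      rw [cyc4_out v1 v2 v3 v4] at h3
      linarith) a b ha hb rfl
    exact this
  have g1 : φ r2 r3 = φ r3 r2 := by
    have := hγ r2 r3 c23
    rw [cyc4_out e3 d12.symm d24 n2.2.1.symm] at this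
    linarith
  have g2 : φ r2 t = φ r2 r3 := hround r2 e3 d12.symm d24 n2.2.1.symm _ _ (adj3 f2) c23
  have g3 : φ r3 t' = φ r3 r2 :=
    hround r3 n3.2.1.symm d13.symm d34 e4 _ _ (adj3 f3) c23.symm
  -- face (t, h', r2)
  have g4 : φ t h' = φ h' r2 := hφ _ _ _ f2
  have g5 : φ h' r2 = φ r2 t := hφ _ _ _ (T.cyc _ _ _ f2)
  -- face (h, h', t)
  have g6 : φ h h' = φ h' t := hφ _ _ _ hu
  have g7 : φ t h' = φ h' t := by
    have := hγ t h' (adj1 f2)
    rw [cyc4_out nh.2.2 n1.2.1 dt4 nh.2.1.symm] at this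
    linarith
  -- face (h', h, t')
  have g8 : φ h' h = φ h t' := hφ _ _ _ hu'
  have g9 : φ h' h - φ h h' = 1 := by
    rw [hγ h' h (adj1 hu')]
    unfold cyc4
    rw [if_pos (by tauto), if_neg]
    · ring
    · rintro (⟨_, h5⟩ | ⟨h5, _⟩ | ⟨h5, _⟩ | ⟨h5, _⟩)
      · exact e1 h5.symm
      · exact n1.2.2 h5.symm
      · exact e2 h5.symm
      · exact nh.1 h5
  have g10 : φ t' h = φ h t' := by
    have := hγ t' h (adj1 f3)
    rw [cyc4_out n3.1 dt1 n4.2.1 nh'.2.2] at this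
    linarith
  have g11 : φ t' h = φ h r3 := hφ _ _ _ f3
  have g12 : φ h r3 = φ r3 t' := hφ _ _ _ (T.cyc _ _ _ f3)
  linarith

end P3W
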