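import Pool.Agent.Lib_MP_b306af.WApart

set_option autoImplicit false

namespace P3W

open P4 P3

variable {V : Type}
variable {T : Tri V} {ι : Type} {F : Fam T ι} {h h' t t' r1 r2 r3 r4 : V}

/-- the outer faces, symmetric versions of `Loc8.apex_h`, `Loc8.apex_t` -/
theorem apex_all (L : Loc8 T h h' t t' r1 r2 r3 r4) :
    (∀ p, T.F h r1 p → p ∉ [h, h', t, t', r1, r2, r4] ∧ (p = r3 → T.Adj r1 r3)) ∧
    (∀ p, T.F r1 t p → p ∉ [h, h', t, t', r1, r3, r4] ∧ (p = r2 → T.Adj r1 r2)) ∧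
    (∀ p, T.F t r2 p → p ∉ [h, h', t, t', r2, r3, r4] ∧ (p = r1 → T.Adj r1 r2)) ∧
    (∀ p, T.F r2 h' p → p ∉ [h, h', t, t', r1, r2, r3] ∧ (p = r4 → T.Adj r2 r4)) ∧
    (∀ p, T.F h' r4 p → p ∉ [h, h', t, t', r1, r3, r4] ∧ (p = r2 → T.Adj r2 r4)) ∧
    (∀ p, T.F r4 t' p → p ∉ [h, h', t, t', r1, r2, r4] ∧ (p = r3 → T.Adj r3 r4)) ∧
    (∀ p, T.F t' r3 p → p ∉ [h, h', t, t', r1, r2, r3] ∧ (p = r4 → T.Adj r3 r4)) ∧
    (∀ p, T.F r3 h p → p ∉ [h, h', t, t', r2, r3, r4] ∧ (p = r1 → T.Adj r1 r3)) := by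
  simp only [List.mem_cons, List.not_mem_nil, or_false, not_or]
  refine ⟨?_, ?_, ?_, ?_, ?_, ?_, ?_, ?_⟩
  · intro p hp
    obtain ⟨a1, a2, a3, a4, a5, a6, a7, a8⟩ := L.apex_h hp
    exact ⟨⟨a1, a2, a3, a4, a5, a6, a7⟩, a8⟩
  · intro p hp
    obtain ⟨a1, a2, a3, a4, a5, a6, a7, a8⟩ := L.apex_t hp
    exact ⟨⟨a1, a2, a3, a4, a5, a6, a7⟩, a8⟩
  · intro p hp
    obtain ⟨a1, a2, a3, a4, a5, a6, a7, a8⟩ := L.mirror.apex_t (p := p) hp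
    exact ⟨⟨a2, a1, a3, a4, a5, a7, a6⟩, fun k => ((Tri.mirror_Adj T _ _).1 (a8 k)).symm⟩
  · intro p hp
    obtain ⟨a1, a2, a3, a4, a5, a6, a7, a8⟩ := L.mirror.apex_h (p := p) hp
    exact ⟨⟨a2, a1, a3, a4, a6, a5, a7⟩, fun k => (Tri.mirror_Adj T _ _).1 (a8 k)⟩
  · intro p hp
    obtain ⟨a1, a2, a3, a4, a5, a6, a7, a8⟩ := L.rot.apex_h hp
    exact ⟨⟨a2, a1, a4, a3, a7, a6, a5⟩, fun k => (a8 k).symm⟩
  · intro p hp
    obtain ⟨a1, a2, a3, a4, a5, a6, a7, a8⟩ := L.rot.apex_t hp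
    exact ⟨⟨a2, a1, a4, a3, a7, a6, a5⟩, fun k => (a8 k).symm⟩
  · intro p hp
    obtain ⟨a1, a2, a3, a4, a5, a6, a7, a8⟩ := L.rot.mirror.apex_t (p := p) hp
    exact ⟨⟨a1, a2, a4, a3, a6, a7, a5⟩, fun k => (Tri.mirror_Adj T _ _).1 (a8 k)⟩
  · intro p hp
    obtain ⟨a1, a2, a3, a4, a5, a6, a7, a8⟩ := L.rot.mirror.apex_h (p := p) hp
    exact ⟨⟨a1, a2, a4, a3, a7, a5, a6⟩, fun k => ((Tri.mirror_Adj T _ _).1 (a8 k)).symm⟩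

theorem WKA_tree_cons {v u : V} {L : List V} (hs : T.Supp v) (hv : v ∉ L) (hu : u ∈ L)
    (ha : T.Adj v u) (hz : ∀ z ∈ L, z ≠ u → ¬ T.Adj v z) (hT : TreeList T L) :
    TreeList T (v :: L) := by
  cases L with
  | nil => exact absurd hu List.not_mem_nil
  | cons a L => exact ⟨hs, hv, ⟨u, hu, ha, fun z hz1 hz2 => by
      by_contra hne
      exact hz z hz1 hne hz2⟩, hT⟩

theorem WKA_ne1 {L : List V} {b : Bool} {y z : V} (hy : y ∈ L) (hz : z ∉ L) :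
    Bi T (colL L b) (y, z) := by
  apply bi_of_ne
  rw [colL_mem hy, colL_nmem hz]
  cases b <;> decide

theorem WKA_ne2 {L : List V} {b : Bool} {y z : V} (hy : y ∉ L) (hz : z ∈ L) :
    Bi T (colL L b) (y, z) := by
  apply bi_of_ne
  rw [colL_mem hz, colL_nmem hy]
  cases b <;> decide

theorem WKA_ap {L : List V} {b : Bool} {y z p : V} (hF : T.F y z p) (hy : y ∉ L) (hp : p ∈ L) :
    Bi T (colL L b) (y, z) := by
  apply bi_of_apex hF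
  rw [colL_mem hp, colL_nmem hy]
  cases b <;> decide

end P3W
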