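import Pool.Agent.Lib_MP_b306af.WTree
import Pool.Agent.Lib_MP_b306af.WCon

set_option autoImplicit false

namespace P3W

open P4 P3

variable {V : Type} {T : Tri V} {ι : Type}
variable {h h' t t' r1 r2 r3 r4 : V}

/-- case 1.0: `t` and `t'` adjacent, no separating triangle: `T` is a tetrahedron and the colouring
`h, h'` true, `t, t'` false does it. -/
theorem case_adj [Finite V] (hNT : NT T) (h1 : T.F h h' t) (h2 : T.F h' h t') (hne : t ≠ t')
    (ha : T.Adj t t') (F : Fam T ι) : VAL T h h' t t' F (f F.tot) := by
  classical
  obtain ⟨n1, n2, n3⟩ := F_ne h1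
  obtain ⟨m1, m2, m3⟩ := F_ne h2
  -- the two other faces
  have h3 : T.F h t t' := by
    rcases hNT h t t' (adj3 h1).symm ha (adj2 h2).symm with h5 | h5
    · exact h5
    · exact absurd (T.uniq _ _ _ _ (T.cyc2 h1) h5) m3.symm
  have h4 : T.F t h' t' := by
    rcases hNT t h' t' (adj2 h1).symm (adj3 h2).symm ha.symm with h5 | h5
    · exact h5
    · exact absurd (T.uniq _ _ _ _ (T.cyc _ _ _ h1) h5) m2
  have hS := K4closed h1 h2 h3 h4
  have hAtt : T.Adj t t' := ha
  have hAhh : T.Adj h h' := adj1 h1
  refine ⟨fun z => decide (z = h ∨ z = h'), ?_, ?_, ?_, ?_, ?_, ?_⟩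
  · intro b P hP a hA d hD hPa
    have key : ∀ z, T.Supp z ∧ decide (z = h ∨ z = h') = b →
        (b = true ∧ (z = h ∨ z = h')) ∨ (b = false ∧ (z = t ∨ z = t')) := by
      rintro z ⟨hz, hb⟩
      rcases hS z hz with e | e | e | e
      · left; refine ⟨?_, Or.inl e⟩; rw [← hb]; simp [e]
      · left; refine ⟨?_, Or.inr e⟩; rw [← hb]; simp [e]
      · right; refine ⟨?_, Or.inl e⟩; rw [← hb]; subst e; simp [n3, n2.symm]
      · right; refine ⟨?_, Or.inr e⟩; rw [← hb]; subst e; simp [m2.symm, m3]
    by_cases had : a = d
    · subst had; exact hPa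
    · rcases key a hA with ⟨hb, ea⟩ | ⟨hb, ea⟩
      · rcases key d hD with ⟨hb', ed⟩ | ⟨hb', ed⟩
        · rcases ea with ea | ea <;> rcases ed with ed | ed
          · exact absurd (ea.trans ed.symm) had
          · subst ea ed; exact hP _ hA _ hD hAhh hPa
          · subst ea ed; exact hP _ hA _ hD hAhh.symm hPa
          · exact absurd (ea.trans ed.symm) had
        · rw [hb] at hb'; exact absurd hb' (by decide)
      · rcases key d hD with ⟨hb', ed⟩ | ⟨hb', ed⟩
        · rw [hb] at hb'; exact absurd hb' (by decide)
        · rcases ea with ea | ea <;> rcases ed with ed | ed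
          · exact absurd (ea.trans ed.symm) had
          · subst ea ed; exact hP _ hA _ hD hAtt hPa
          · subst ea ed; exact hP _ hA _ hD hAtt.symm hPa
          · exact absurd (ea.trans ed.symm) had
  · simp
  · simp
  · simp [n3, n2.symm]
  · simp [m2.symm, m3]
  · have hall : ∀ i ∈ F.D, ¬ Mono (fun z => decide (z = h ∨ z = h')) (F.p i) (F.q i) (F.x i) := by
      intro i hi hM
      have hf := F.face i hi
      obtain ⟨k1, k2, k3⟩ := F_ne hf
      have s1 := hS _ (adj1 hf).supp
      have s2 := hS _ (adj2 hf).supp
      have s3 := hS _ (adj3 hf).supp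
      obtain ⟨e1, e2⟩ := hM
      simp only [decide_eq_decide] at e1 e2
      generalize F.p i = a at *
      generalize F.q i = b at *
      generalize F.x i = d at *
      by_cases hb : b = h ∨ b = h'
      · have ha' := e1.2 hb
        have hd := e2.1 hb
        rcases ha' with x1 | x1 <;> rcases hb with x2 | x2 <;> rcases hd with x3 | x3 <;>
          first
            | exact k1 (x1.trans x2.symm)
            | exact k2 (x2.trans x3.symm)
            | exact k3 (x3.trans x1.symm)
      · have ha' : ¬ (a = h ∨ a = h') := fun x => hb (e1.1 x)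
        have hd : ¬ (d = h ∨ d = h') := fun x => hb (e2.2 x)
        have ha2 : a = t ∨ a = t' := by
          rcases s1 with x | x | x | x
          · exact absurd (Or.inl x) ha'
          · exact absurd (Or.inr x) ha'
          · exact Or.inl x
          · exact Or.inr x
        have hb2 : b = t ∨ b = t' := by
          rcases s2 with x | x | x | x
          · exact absurd (Or.inl x) hb
          · exact absurd (Or.inr x) hb
          · exact Or.inl x
          · exact Or.inr x
        have hd2 : d = t ∨ d = t' := by
          rcases s3 with x | x | x | x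
          · exact absurd (Or.inl x) hd
          · exact absurd (Or.inr x) hd
          · exact Or.inl x
          · exact Or.inr x
        rcases ha2 with x1 | x1 <;> rcases hb2 with x2 | x2 <;> rcases hd2 with x3 | x3 <;>
          first
            | exact k1 (x1.trans x2.symm)
            | exact k2 (x2.trans x3.symm)
            | exact k3 (x3.trans x1.symm)
    unfold Fam.gain Fam.tot
    rw [Finset.filter_true_of_mem hall]
    exact f_sum F.D F.w F.pos

end P3W
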