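import Pool.Agent.Lib_MP_b306af.WLocD

set_option autoImplicit false

namespace P3W

open P4 P3

variable {V : Type} {T : Tri V} {ι : Type}
variable {h h' t t' r1 r2 r3 r4 : V}

/-- ear at `t` -/
theorem Loc8.ear_t (L : Loc8 T h h' t t' r1 r2 r3 r4) (ha : T.Adj r1 r2) : T.F r1 t r2 := by
  have hn := L.nodup
  rcases L.nt r1 t r2 (adj2 L.f1).symm (adj3 L.f2).symm ha.symm with h0 | h0
  · exact h0
  · have h1 := T.uniq _ _ _ _ h0 (T.cyc _ _ _ L.f1)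
    subst h1
    simp at hn

/-- ear at `h` -/
theorem Loc8.ear_h (L : Loc8 T h h' t t' r1 r2 r3 r4) (ha : T.Adj r1 r3) : T.F r3 h r1 := by
  have hn := L.nodup
  rcases L.nt r3 h r1 (adj2 L.f3).symm (adj3 L.f1).symm ha with h0 | h0
  · exact h0
  · have h1 := T.uniq _ _ _ _ h0 (T.cyc _ _ _ L.f3)
    subst h1
    simp at hn

/-- the apex of the outer face at `h r1` is `r3` or none of the eight vertices -/
theorem Loc8.apex_h (L : Loc8 T h h' t t' r1 r2 r3 r4) {p : V} (hp : T.F h r1 p) :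
    p ≠ h ∧ p ≠ h' ∧ p ≠ t ∧ p ≠ t' ∧ p ≠ r1 ∧ p ≠ r2 ∧ p ≠ r4 ∧ (p = r3 → T.Adj r1 r3) := by
  have hn := L.nodup
  have hA := L.nadj
  have hne := F_ne hp
  refine ⟨hne.2.2, ?_, ?_, ?_, hne.2.1.symm, ?_, ?_, ?_⟩
  · rintro rfl
    exact hA.h'r1 (adj2 hp).symm
  · rintro rfl
    have h1 := T.uniq _ _ _ _ (T.cyc2 hp) (T.cyc2 L.hu)
    subst h1
    simp at hn
  · rintro rfl
    exact hA.t'r1 (adj2 hp).symm
  · rintro rfl
    exact hA.hr2 (adj3 hp).symm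
  · rintro rfl
    exact hA.hr4 (adj3 hp).symm
  · rintro rfl
    exact adj2 hp

/-- the apex of the outer face at `r1 t` is `r2` or none of the eight vertices -/
theorem Loc8.apex_t (L : Loc8 T h h' t t' r1 r2 r3 r4) {p : V} (hp : T.F r1 t p) :
    p ≠ h ∧ p ≠ h' ∧ p ≠ t ∧ p ≠ t' ∧ p ≠ r1 ∧ p ≠ r3 ∧ p ≠ r4 ∧ (p = r2 → T.Adj r1 r2) := by
  have hn := L.nodup
  have hA := L.nadj
  have hne := F_ne hp
  refine ⟨?_, ?_, hne.2.1.symm, ?_, hne.2.2, ?_, ?_, ?_⟩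
  · rintro rfl
    have h1 := T.uniq _ _ _ _ (T.cyc _ _ _ hp) (T.cyc2 L.hu)
    subst h1
    simp at hn
  · rintro rfl
    exact hA.h'r1 (adj3 hp)
  · rintro rfl
    exact hA.tt' (adj2 hp)
  · rintro rfl
    exact hA.tr3 (adj2 hp)
  · rintro rfl
    exact hA.tr4 (adj2 hp)
  · rintro rfl
    exact (adj3 hp).symm

end P3W
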