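import Pool.Agent.Lib_MP_b306af.WLocD

set_option autoImplicit false

namespace P3W

open P4 P3

variable {V : Type} {T : Tri V} {ι : Type}
variable {h h' t t' r1 r2 r3 r4 : V}

theorem wlocF_len [Finite V] {l : List V} (hl : l.Nodup) (hs : ∀ v ∈ l, T.Supp v) :
    l.length ≤ nv T := by
  classical
  have h1 : ((l.toFinset : Finset V) : Set V) ⊆ {v | T.Supp v} := by
    intro v hv
    exact hs v (List.mem_toFinset.1 (Finset.mem_coe.1 hv))
  have h2 := Set.ncard_le_ncard h1 (Set.toFinite _)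
  rw [Set.ncard_coe_finset, List.toFinset_card_of_nodup hl] at h2
  exact h2

theorem wlocF_supp (L : Loc T h h' t t' r1 r2 r3 r4) :
    ∀ v ∈ [h, h', t, t', r1, r2, r3, r4], T.Supp v := by
  intro v hv
  simp only [List.mem_cons, List.not_mem_nil, or_false] at hv
  rcases hv with rfl | rfl | rfl | rfl | rfl | rfl | rfl | rfl
  · exact ⟨_, _, L.hu⟩
  · exact ⟨_, _, L.hu'⟩
  · exact ⟨_, _, L.f2⟩
  · exact ⟨_, _, L.f3⟩
  · exact ⟨_, _, T.cyc2 L.f1⟩
  · exact ⟨_, _, T.cyc2 L.f2⟩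
  · exact ⟨_, _, T.cyc2 L.f3⟩
  · exact ⟨_, _, T.cyc2 L.f4⟩

/-- all eight vertices are in the support, in particular `8 ≤ nv T` -/
theorem Loc8.nv_ge [Finite V] (L : Loc8 T h h' t t' r1 r2 r3 r4) : 8 ≤ nv T :=
  wlocF_len L.nodup (wlocF_supp L.toLoc)

theorem Loc.nv_ge [Finite V] (L : Loc T h h' t t' r1 r2 r3 r4) : 6 ≤ nv T := by
  have hn : [h, h', t, t', r1, r2].Nodup := by
    obtain ⟨a1, a2, a3⟩ := F_ne L.hu
    obtain ⟨b1, b2, b3⟩ := F_ne L.hu'
    obtain ⟨c1, c2, c3, c4, c5, c6⟩ := L.r1_ne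
    obtain ⟨d1, d2, d3, d4, d5, d6⟩ := L.mirror.r1_ne
    have e1 := L.ne
    simp only [List.nodup_cons, List.mem_cons, List.not_mem_nil, or_false, not_or,
      List.nodup_nil, and_true, not_false_eq_true]
    exact ⟨⟨a1, a3.symm, b2, c1.symm, d2.symm⟩, ⟨a2, b3.symm, c2.symm, d1.symm⟩,
      ⟨e1, c3.symm, d3.symm⟩, ⟨c4.symm, d4.symm⟩, c5⟩
  refine wlocF_len hn fun v hv => wlocF_supp L v ?_
  simp only [List.mem_cons, List.not_mem_nil, or_false] at hv ⊢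
  tauto

end P3W
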