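import Pool.Agent.Lib_MP_b306af.WLocB
import Pool.Agent.Lib_MP_b306af.WLocC
import Pool.Agent.Lib_MP_b306af.WLocE
import Pool.Agent.Lib_MP_b306af.WLocF

set_option autoImplicit false

namespace P3W

open P4 P3

variable {V : Type} {T : Tri V} {ι : Type}
variable {h h' t t' r1 r2 r3 r4 : V}



end P3W
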