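import Pool.Agent.Lib_MP_b306af.WLocA

set_option autoImplicit false

namespace P3W

open P4 P3

variable {V : Type} {T : Tri V} {ι : Type}
variable {h h' t t' r1 r2 r3 r4 : V}

/-- eight different vertices -/
structure Loc8 (T : Tri V) (h h' t t' r1 r2 r3 r4 : V) : Prop extends
    Loc T h h' t t' r1 r2 r3 r4 where
  r13 : r1 ≠ r3
  r24 : r2 ≠ r4

theorem Loc8.rot (L : Loc8 T h h' t t' r1 r2 r3 r4) : Loc8 T h' h t' t r4 r3 r2 r1 where
  toLoc := L.toLoc.rot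
  r13 := L.r24.symm
  r24 := L.r13.symm

theorem Loc8.mirror (L : Loc8 T h h' t t' r1 r2 r3 r4) : Loc8 T.mirror h' h t t' r2 r1 r4 r3 where
  toLoc := L.toLoc.mirror
  r13 := L.r24
  r24 := L.r13

/-- the pairs which are never adjacent -/
structure NAdj (T : Tri V) (h h' t t' r1 r2 r3 r4 : V) : Prop where
  tt' : ¬ T.Adj t t'
  hr2 : ¬ T.Adj h r2
  hr4 : ¬ T.Adj h r4
  h'r1 : ¬ T.Adj h' r1
  h'r3 : ¬ T.Adj h' r3
  tr3 : ¬ T.Adj t r3
  tr4 : ¬ T.Adj t r4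
  t'r1 : ¬ T.Adj t' r1
  t'r2 : ¬ T.Adj t' r2

end P3W
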