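import Pool.Agent.Lib_MP_b306af.WTree
import Pool.Agent.Lib_MP_b306af.WCon

set_option autoImplicit false

namespace P3W

open P4 P3

variable {V : Type} {T : Tri V} {ι : Type}
variable {h h' t t' r1 r2 r3 r4 : V}

/-- two faces are never opposite -/
theorem Loc.nopp (L : Loc T h h' t t' r1 r2 r3 r4) {a b d : V} (h1 : T.F a b d) (h2 : T.F b a d) :
    False := by
  have n1 := F_ne L.hu
  have n2 := F_ne L.hu'
  have s1 := F0 h1 h2 h (adj1 L.hu).supp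
  have s2 := F0 h1 h2 h' (adj2 L.hu).supp
  have s3 := F0 h1 h2 t (adj3 L.hu).supp
  have s4 := F0 h1 h2 t' (adj3 L.hu').supp
  have a1 : h ≠ h' := n1.1
  have a2 : h' ≠ t := n1.2.1
  have a3 : t ≠ h := n1.2.2
  have a4 : h ≠ t' := n2.2.1
  have a5 : t' ≠ h' := n2.2.2
  have a6 : t ≠ t' := L.ne
  rcases s1 with s1 | s1 | s1 <;> rcases s2 with s2 | s2 | s2 <;> rcases s3 with s3 | s3 | s3 <;>
    rcases s4 with s4 | s4 | s4 <;>
    first
      | exact a1 (s1.trans s2.symm)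
      | exact a2 (s2.trans s3.symm)
      | exact a3 (s3.trans s1.symm)
      | exact a4 (s1.trans s4.symm)
      | exact a5 (s4.trans s2.symm)
      | exact a6 (s3.trans s4.symm)

/-- the common neighbours of `h` and `h'` are `t` and `t'` -/
theorem Loc.cn (L : Loc T h h' t t' r1 r2 r3 r4) {z : V} (h1 : T.Adj z h) (h2 : T.Adj z h') :
    z = t ∨ z = t' := by
  rcases L.nt h h' z (adj1 L.hu) h2.symm h1 with h3 | h3
  · exact Or.inl (T.uniq _ _ _ _ h3 L.hu)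
  · exact Or.inr (T.uniq _ _ _ _ h3 L.hu')

theorem Loc.r1_ne (L : Loc T h h' t t' r1 r2 r3 r4) :
    r1 ≠ h ∧ r1 ≠ h' ∧ r1 ≠ t ∧ r1 ≠ t' ∧ r1 ≠ r2 ∧ r1 ≠ r4 := by
  have n1 := F_ne L.f1
  have b1 : r1 ≠ h := n1.2.2
  have b3 : r1 ≠ t := n1.2.1.symm
  have b4 : r1 ≠ t' := fun e => L.htt (e ▸ adj2 L.f1)
  have hadj : T.Adj r1 h := adj3 L.f1
  have key : ¬ T.Adj r1 h' := by
    intro hh
    rcases L.cn hadj hh with e | e
    · exact b3 e
    · exact b4 e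
  refine ⟨b1, ?_, b3, b4, ?_, ?_⟩
  · intro e
    have f1 := L.f1
    rw [e] at f1
    exact L.nopp f1 (T.cyc2 L.hu)
  · intro e
    exact key (e ▸ (adj2 L.f2).symm)
  · intro e
    exact key (e ▸ adj3 L.f4)

theorem Loc.nadj_h'_r1 (L : Loc T h h' t t' r1 r2 r3 r4) : ¬ T.Adj h' r1 := by
  intro hh
  have n := L.r1_ne
  rcases L.cn (adj3 L.f1) hh.symm with e | e
  · exact n.2.2.1 e
  · exact n.2.2.2.1 e

theorem Loc.adj_t'_r1 (L : Loc T h h' t t' r1 r2 r3 r4) (h1 : T.Adj t' r1) : r1 = r3 := by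
  rcases L.nt t' h r1 (adj1 L.f3) (adj3 L.f1).symm h1.symm with h2 | h2
  · exact T.uniq _ _ _ _ h2 L.f3
  · exact absurd (T.uniq _ _ _ _ h2 (T.cyc _ _ _ L.hu')) L.r1_ne.2.1

end P3W
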