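import Pool.Agent.Lib_MP_b306af.WLocA

set_option autoImplicit false

namespace P3W

open P4 P3

variable {V : Type} {T : Tri V} {ι : Type}
variable {h h' t t' r1 r2 r3 r4 : V}

/-- the common neighbours of `h` and `r1` are `t` and the apex `p` of the outer face at `h r1` -/
theorem Loc.cn_h_r1 (L : Loc T h h' t t' r1 r2 r3 r4) {p z : V} (hp : T.F h r1 p)
    (h1 : T.Adj h z) (h2 : T.Adj r1 z) : z = t ∨ z = p := by
  rcases L.nt h r1 z ⟨p, hp⟩ h2 h1.symm with h3 | h3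
  · exact Or.inr (T.uniq _ _ _ _ h3 hp)
  · exact Or.inl (T.uniq _ _ _ _ h3 (T.cyc2 L.f1))

/-- the common neighbours of `t` and `r1` are `h` and the apex `p` of the outer face at `r1 t` -/
theorem Loc.cn_t_r1 (L : Loc T h h' t t' r1 r2 r3 r4) {p z : V} (hp : T.F r1 t p)
    (h1 : T.Adj t z) (h2 : T.Adj r1 z) : z = h ∨ z = p := by
  have h4 : T.F t r1 h := T.cyc _ _ _ L.f1
  rcases L.nt t r1 z ⟨h, h4⟩ h2 h1.symm with h3 | h3
  · exact Or.inl (T.uniq _ _ _ _ h3 h4)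
  · exact Or.inr (T.uniq _ _ _ _ h3 hp)

end P3W
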