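import Pool.Agent.Lib_MP_b306af.WLoc8

set_option autoImplicit false

namespace P3W

open P4 P3

variable {V : Type} {T : Tri V} {ι : Type}
variable {h h' t t' r1 r2 r3 r4 : V}

/-- all eight vertices are different -/
theorem Loc8.nodup (L : Loc8 T h h' t t' r1 r2 r3 r4) : [h, h', t, t', r1, r2, r3, r4].Nodup := by
  obtain ⟨a1, a2, a3, a4, a5, a6⟩ := L.toLoc.r1_ne
  obtain ⟨b1, b2, b3, b4, b5, b6⟩ := L.toLoc.rot.r1_ne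
  obtain ⟨c1, c2, c3, c4, c5, c6⟩ := L.toLoc.mirror.r1_ne
  obtain ⟨d1, d2, d3, d4, d5, d6⟩ := L.toLoc.rot.mirror.r1_ne
  obtain ⟨e1, e2, e3⟩ := F_ne L.hu
  obtain ⟨g1, g2, g3⟩ := F_ne L.hu'
  have k1 := L.r13
  have k2 := L.r24
  have k3 := L.ne
  simp only [List.nodup_cons, List.mem_cons, List.not_mem_nil, or_false, not_or]
  exact ⟨⟨e1, e3.symm, g2, a1.symm, c2.symm, d1.symm, b2.symm⟩,
    ⟨e2, g3.symm, a2.symm, c1.symm, d2.symm, b1.symm⟩,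
    ⟨k3, a3.symm, c3.symm, d4.symm, b4.symm⟩,
    ⟨a4.symm, c4.symm, d3.symm, b3.symm⟩,
    ⟨a5, k1, a6⟩, ⟨c6, k2⟩, d5, not_false, List.nodup_nil⟩

theorem Loc8.nadj (L : Loc8 T h h' t t' r1 r2 r3 r4) : NAdj T h h' t t' r1 r2 r3 r4 where
  tt' := L.htt
  hr2 := fun hA => L.toLoc.mirror.nadj_h'_r1 ((Tri.mirror_Adj T _ _).2 hA)
  hr4 := L.toLoc.rot.nadj_h'_r1
  h'r1 := L.toLoc.nadj_h'_r1
  h'r3 := fun hA => L.toLoc.rot.mirror.nadj_h'_r1 ((Tri.mirror_Adj T _ _).2 hA)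
  tr3 := fun hA => L.r13 (L.toLoc.rot.mirror.adj_t'_r1 ((Tri.mirror_Adj T _ _).2 hA)).symm
  tr4 := fun hA => L.r24 (L.toLoc.rot.adj_t'_r1 hA).symm
  t'r1 := fun hA => L.r13 (L.toLoc.adj_t'_r1 hA)
  t'r2 := fun hA => L.r24 (L.toLoc.mirror.adj_t'_r1 ((Tri.mirror_Adj T _ _).2 hA))

end P3W
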