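import Pool.Agent.Lib_MP_b306af.WNumA

set_option autoImplicit false

namespace P3W

open P4 P3

private theorem wnumc_aux {S x : ℝ} (r q : ℝ) (hS : 0 ≤ S) (hr : 0 ≤ r) (hq : 0 ≤ q)
    (h : r ^ 5 ≤ q ^ 4) (hx : q * S ≤ x) : r * f S ≤ f x := by
  have h1 : r * f S ≤ f q * f S := mul_le_mul_of_nonneg_right (le_f hr hq h) (f_nonneg hS)
  have h2 : f q * f S = f (q * S) := (f_mul hq hS).symm
  have h3 : f (q * S) ≤ f x := f_mono (mul_nonneg hq hS) hx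
  linarith

private theorem wnumc_12 {S x : ℝ} (hS : 0 ≤ S) (h : S ≤ 12 * x) : 1 / 8 * f S ≤ f x :=
  wnumc_aux (1 / 8) (1 / 12) hS (by norm_num) (by norm_num) (by norm_num) (by linarith)

private theorem wnumc_23 {S x : ℝ} (hS : 0 ≤ S) (h : 23 * S ≤ 100 * x) : 1 / 4 * f S ≤ f x :=
  wnumc_aux (1 / 4) (23 / 100) hS (by norm_num) (by norm_num) (by norm_num) (by linarith)

private theorem wnumc_5 {S x : ℝ} (hS : 0 ≤ S) (h : S ≤ 5 * x) : 1 / 4 * f S ≤ f x :=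
  wnumc_aux (1 / 4) (1 / 5) hS (by norm_num) (by norm_num) (by norm_num) (by linarith)

/-- (n4a) -/
theorem n4a {S x1 x2 x3 x4 x5 x6 x7 x8 : ℝ} (hS : 0 ≤ S) (h1 : S ≤ 12 * x1) (h2 : S ≤ 12 * x2)
    (h3 : S ≤ 12 * x3) (h4 : S ≤ 12 * x4) (h5 : S ≤ 12 * x5) (h6 : S ≤ 12 * x6)
    (h7 : S ≤ 12 * x7) (h8 : S ≤ 12 * x8) :
    f S ≤ f x1 + f x2 + f x3 + f x4 + f x5 + f x6 + f x7 + f x8 := by
  have k1 := wnumc_12 hS h1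
  have k2 := wnumc_12 hS h2
  have k3 := wnumc_12 hS h3
  have k4 := wnumc_12 hS h4
  have k5 := wnumc_12 hS h5
  have k6 := wnumc_12 hS h6
  have k7 := wnumc_12 hS h7
  have k8 := wnumc_12 hS h8
  linarith

/-- (n4b) `4 f (23/100) > 1` -/
theorem n4b {S x1 x2 x3 x4 : ℝ} (hS : 0 ≤ S) (h1 : 23 * S ≤ 100 * x1) (h2 : 23 * S ≤ 100 * x2)
    (h3 : 23 * S ≤ 100 * x3) (h4 : 23 * S ≤ 100 * x4) : f S ≤ f x1 + f x2 + f x3 + f x4 := by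
  have k1 := wnumc_23 hS h1
  have k2 := wnumc_23 hS h2
  have k3 := wnumc_23 hS h3
  have k4 := wnumc_23 hS h4
  linarith

/-- (n4c) `2 f (1/5) + 4 f (1/12) ≥ 1` (`2 * 0.2759 + 4 * 0.1369 = 1.0994`) -/
theorem n4c {S x1 x2 x3 x4 x5 x6 : ℝ} (hS : 0 ≤ S) (h1 : S ≤ 5 * x1) (h2 : S ≤ 5 * x2)
    (h3 : S ≤ 12 * x3) (h4 : S ≤ 12 * x4) (h5 : S ≤ 12 * x5) (h6 : S ≤ 12 * x6) :
    f S ≤ f x1 + f x2 + f x3 + f x4 + f x5 + f x6 := by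
  have k1 := wnumc_5 hS h1
  have k2 := wnumc_5 hS h2
  have k3 := wnumc_12 hS h3
  have k4 := wnumc_12 hS h4
  have k5 := wnumc_12 hS h5
  have k6 := wnumc_12 hS h6
  linarith

/-- (n4d) `3 f (23/100) + 3 f (1/12) ≥ 1` (`3 * 0.3085 + 3 * 0.1369 = 1.3362`) -/
theorem n4d {S x1 x2 x3 x4 x5 x6 : ℝ} (hS : 0 ≤ S) (h1 : 23 * S ≤ 100 * x1)
    (h2 : 23 * S ≤ 100 * x2) (h3 : 23 * S ≤ 100 * x3)
    (h4 : S ≤ 12 * x4) (h5 : S ≤ 12 * x5) (h6 : S ≤ 12 * x6) :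
    f S ≤ f x1 + f x2 + f x3 + f x4 + f x5 + f x6 := by
  have k1 := wnumc_23 hS h1
  have k2 := wnumc_23 hS h2
  have k3 := wnumc_23 hS h3
  have k4 := wnumc_12 hS h4
  have k5 := wnumc_12 hS h5
  have k6 := wnumc_12 hS h6
  have k0 := f_nonneg hS
  linarith

end P3W
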