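import Pool.Agent.Lib_MP_b306af.WDefs

set_option autoImplicit false

namespace P3W

open P4 P3



theorem f_zero : f 0 = 0 := by
  unfold f
  exact Real.zero_rpow (by norm_num)

theorem f_one : f 1 = 1 := by
  unfold f
  exact Real.one_rpow _

theorem f_nonneg {x : ℝ} (hx : 0 ≤ x) : 0 ≤ f x := Real.rpow_nonneg hx _

theorem f_mono {x y : ℝ} (hx : 0 ≤ x) (hxy : x ≤ y) : f x ≤ f y :=
  Real.rpow_le_rpow hx hxy (by norm_num)

theorem f_mul {x y : ℝ} (hx : 0 ≤ x) (hy : 0 ≤ y) : f (x * y) = f x * f y :=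
  Real.mul_rpow hx hy

/-- lower bounds: `r ^ 5 ≤ x ^ 4` gives `r ≤ f x` -/
theorem le_f {r x : ℝ} (hr : 0 ≤ r) (hx : 0 ≤ x) (h : r ^ 5 ≤ x ^ 4) : r ≤ f x := by
  unfold f
  have h1 : (r ^ 5) ^ ((1 : ℝ) / 5) ≤ (x ^ 4) ^ ((1 : ℝ) / 5) :=
    Real.rpow_le_rpow (by positivity) h (by norm_num)
  rw [← Real.rpow_natCast, ← Real.rpow_mul hr, ← Real.rpow_natCast, ← Real.rpow_mul hx] at h1
  norm_num at h1
  exact h1

end P3W
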