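import Pool.Agent.Lib_MP_b306af.WNum0

set_option autoImplicit false

namespace P3W

open P4 P3



/-- majorization: `f z + f (x + y - z) ≤ f x + f y` for `0 ≤ z ≤ x, y` -/
theorem f_maj {x y z : ℝ} (hz : 0 ≤ z) (hx : z ≤ x) (hy : z ≤ y) :
    f z + f (x + y - z) ≤ f x + f y := by
  have hconc : ConcaveOn ℝ (Set.Ici (0 : ℝ)) f := by
    have := Real.concaveOn_rpow (p := (4 : ℝ) / 5) (by norm_num) (by norm_num)
    exact this
  rcases eq_or_lt_of_le (show 0 ≤ (x - z) + (y - z) by linarith) with h0 | h0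
  · have hxz : x = z := by linarith
    have hyz : y = z := by linarith
    subst hxz
    rw [hyz]
    simp
  · have hd : (x - z) + (y - z) ≠ 0 := ne_of_gt h0
    have hw : (0 : ℝ) ≤ x + y - z := by linarith
    have ht1 : 0 ≤ (y - z) / ((x - z) + (y - z)) := div_nonneg (by linarith) h0.le
    have ht2 : 0 ≤ (x - z) / ((x - z) + (y - z)) := div_nonneg (by linarith) h0.le
    have ht : (y - z) / ((x - z) + (y - z)) + (x - z) / ((x - z) + (y - z)) = 1 := by
      rw [← add_div, div_eq_one_iff_eq hd]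
      ring
    have ht' : (x - z) / ((x - z) + (y - z)) + (y - z) / ((x - z) + (y - z)) = 1 := by
      rw [← add_div, div_self hd]
    have a1 := hconc.2 (show z ∈ Set.Ici (0 : ℝ) from hz)
      (show x + y - z ∈ Set.Ici (0 : ℝ) from hw) ht1 ht2 ht
    have a2 := hconc.2 (show z ∈ Set.Ici (0 : ℝ) from hz)
      (show x + y - z ∈ Set.Ici (0 : ℝ) from hw) ht2 ht1 ht'
    have e1 : ((y - z) / ((x - z) + (y - z))) • z +
        ((x - z) / ((x - z) + (y - z))) • (x + y - z) = x := by
      rw [smul_eq_mul, smul_eq_mul]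
      field_simp
      ring
    have e2 : ((x - z) / ((x - z) + (y - z))) • z +
        ((y - z) / ((x - z) + (y - z))) • (x + y - z) = y := by
      rw [smul_eq_mul, smul_eq_mul]
      field_simp
      ring
    rw [e1] at a1
    rw [e2] at a2
    simp only [smul_eq_mul] at a1 a2
    have e3 : (y - z) / ((x - z) + (y - z)) = 1 - (x - z) / ((x - z) + (y - z)) := by
      linarith
    rw [e3] at a1 a2
    linarith

theorem f_add {x y : ℝ} (hx : 0 ≤ x) (hy : 0 ≤ y) : f (x + y) ≤ f x + f y := by
  have := f_maj (le_refl 0) hx hy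
  rw [f_zero] at this
  simpa using this

theorem f_sum {ι : Type} (s : Finset ι) (w : ι → ℝ) (hw : ∀ i ∈ s, 0 ≤ w i) :
    f (∑ i ∈ s, w i) ≤ ∑ i ∈ s, f (w i) := by
  classical
  induction s using Finset.induction_on with
  | empty => simp [f_zero]
  | insert a s ha ih =>
    rw [Finset.sum_insert ha, Finset.sum_insert ha]
    have h1 : 0 ≤ w a := hw a (Finset.mem_insert_self a s)
    have h2 : ∀ i ∈ s, 0 ≤ w i := fun i hi => hw i (Finset.mem_insert_of_mem hi)
    have h3 := f_add h1 (Finset.sum_nonneg h2)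
    have h4 := ih h2
    linarith

end P3W
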