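import Pool.Agent.Lib_MP_b306af.WNumA

set_option autoImplicit false

namespace P3W

open P4 P3



/-- concavity of `f` -/
private theorem WNumB_conc {a b t : ℝ} (ha : 0 ≤ a) (hb : 0 ≤ b) (h0 : 0 ≤ t) (h1 : t ≤ 1) :
    (1 - t) * f a + t * f b ≤ f ((1 - t) * a + t * b) := by
  have h := (Real.concaveOn_rpow (p := (4 : ℝ) / 5) (by norm_num) (by norm_num)).2
    (Set.mem_Ici.2 ha) (Set.mem_Ici.2 hb) (sub_nonneg.2 h1) h0 (by ring)
  simp only [smul_eq_mul] at h
  exact h

private theorem WNumB_c0 {b t : ℝ} (hb : 0 ≤ b) (h0 : 0 ≤ t) (h1 : t ≤ 1) :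
    t * f b ≤ f (t * b) := by
  have h := WNumB_conc (a := 0) le_rfl hb h0 h1
  rw [f_zero] at h
  simpa using h

/-- the case `S = 1` of n1 -/
private theorem WNumB_1 {x : ℝ} (h0 : 0 ≤ x) (h1 : 12 * x ≤ 1) : 1 ≤ f x + f (1 - 2 * x) := by
  have e1 : (0.1369 : ℝ) ≤ f (1 / 12) := le_f (by norm_num) (by norm_num) (by norm_num)
  have e2 : (0.8632 : ℝ) ≤ f (5 / 6) := le_f (by norm_num) (by norm_num) (by norm_num)
  have c1 := WNumB_c0 (b := 1 / 12) (t := 12 * x) (by norm_num) (by linarith) h1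
  have c2 := WNumB_conc (a := 1) (b := 5 / 6) (t := 12 * x) (by norm_num) (by norm_num)
    (by linarith) h1
  rw [f_one] at c2
  have e3 : 12 * x * (1 / 12) = x := by ring
  have e4 : (1 - 12 * x) * 1 + 12 * x * (5 / 6) = 1 - 2 * x := by ring
  rw [e3] at c1
  rw [e4] at c2
  have h2 : 0 ≤ 12 * x * (f (1 / 12) + f (5 / 6) - 1) :=
    mul_nonneg (by linarith) (by linarith)
  linarith

/-- the case `S = 1` of n2 -/
private theorem WNumB_2 {x : ℝ} (h0 : 0 ≤ x) (h1 : 100 * x ≤ 23) :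
    1 ≤ 2 * f x + f (1 - 3 * x) := by
  have e1 : (0.3085 : ℝ) ≤ f (23 / 100) := le_f (by norm_num) (by norm_num) (by norm_num)
  have e2 : (0.3918 : ℝ) ≤ f (31 / 100) := le_f (by norm_num) (by norm_num) (by norm_num)
  have ht0 : 0 ≤ 100 * x / 23 := by positivity
  have ht1 : 100 * x / 23 ≤ 1 := by rw [div_le_one (by norm_num)]; exact h1
  have c1 := WNumB_c0 (b := 23 / 100) (t := 100 * x / 23) (by norm_num) ht0 ht1
  have c2 := WNumB_conc (a := 1) (b := 31 / 100) (t := 100 * x / 23) (by norm_num) (by norm_num)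
    ht0 ht1
  rw [f_one] at c2
  have e3 : 100 * x / 23 * (23 / 100) = x := by ring
  have e4 : (1 - 100 * x / 23) * 1 + 100 * x / 23 * (31 / 100) = 1 - 3 * x := by ring
  rw [e3] at c1
  rw [e4] at c2
  have h2 : 0 ≤ 100 * x / 23 * (2 * f (23 / 100) + f (31 / 100) - 1) :=
    mul_nonneg ht0 (by linarith)
  linarith

/-- the case `S = 1` of n3 -/
private theorem WNumB_3 {x : ℝ} (h0 : 0 ≤ x) (h1 : 5 * x ≤ 1) :
    1 ≤ f (1 / 12) + f x + f (11 / 12 - 2 * x) := by
  have e0 : (0.1369 : ℝ) ≤ f (1 / 12) := le_f (by norm_num) (by norm_num) (by norm_num)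
  have e1 : (0.93 : ℝ) ≤ f (11 / 12) := le_f (by norm_num) (by norm_num) (by norm_num)
  have e2 : (0.2759 : ℝ) ≤ f (1 / 5) := le_f (by norm_num) (by norm_num) (by norm_num)
  have e3 : (0.5896 : ℝ) ≤ f (31 / 60) := le_f (by norm_num) (by norm_num) (by norm_num)
  have c1 := WNumB_c0 (b := 1 / 5) (t := 5 * x) (by norm_num) (by linarith) h1
  have c2 := WNumB_conc (a := 11 / 12) (b := 31 / 60) (t := 5 * x) (by norm_num) (by norm_num)
    (by linarith) h1
  have e4 : 5 * x * (1 / 5) = x := by ring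
  have e5 : (1 - 5 * x) * (11 / 12) + 5 * x * (31 / 60) = 11 / 12 - 2 * x := by ring
  rw [e4] at c1
  rw [e5] at c2
  have h2 : 0 ≤ 5 * x * (f (1 / 12) + f (1 / 5) + f (31 / 60) - 1) :=
    mul_nonneg (by linarith) (by linarith)
  have h3 : 0 ≤ (1 - 5 * x) * (f (1 / 12) + f (11 / 12) - 1) :=
    mul_nonneg (by linarith) (by linarith)
  nlinarith

/-- (n1) `m, M, R` : `f M + f R ≥ f (m + M + R)` if `m ≤ M, R` and `12 m ≤ m + M + R`.
Proof: `f_maj` gives `f M + f R ≥ f m + f (S - 2 m)`; scale to `S = 1` (`S = 0` trivial); the function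
`f m + f (1 - 2 m)` is concave on `[0, 1/12]`, equals `1` at `0`, and at `1/12` it is at least
`0.1369 + 0.8632 > 1`. -/
theorem n1 {S m M R : ℝ} (hm : 0 ≤ m) (h1 : m ≤ M) (h2 : m ≤ R) (hS : m + M + R = S)
    (h12 : 12 * m ≤ S) : f S ≤ f M + f R := by
  have h3 := f_maj hm h1 h2
  refine le_trans ?_ h3
  have e : M + R - m = S - 2 * m := by linarith
  rw [e]
  rcases eq_or_lt_of_le (show 0 ≤ S by linarith) with hS0 | hS0
  · rw [← hS0] at h12 ⊢
    rw [f_zero]
    have hm0 : m = 0 := by linarith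
    rw [hm0]
    simp [f_zero]
  · have hx0 : 0 ≤ m / S := by positivity
    have hx1 : 12 * (m / S) ≤ 1 := by
      rw [← mul_div_assoc, div_le_one hS0]
      exact h12
    have hk := WNumB_1 hx0 hx1
    have e1 : f m = f S * f (m / S) := by
      rw [← f_mul hS0.le hx0]
      congr 1
      field_simp
    have hx2 : 0 ≤ 1 - 2 * (m / S) := by linarith
    have e2 : f (S - 2 * m) = f S * f (1 - 2 * (m / S)) := by
      rw [← f_mul hS0.le hx2]
      congr 1
      field_simp
    rw [e1, e2, ← mul_add]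
    exact le_mul_of_one_le_right (f_nonneg hS0.le) hk

/-- (n2) Proof: `f_maj` twice gives `≥ 2 f m + f (S - 3 m)`; scale; `2 f m + f (1 - 3 m)` is concave on
`[0, 23/100]`, `1` at `0` and at least `2 * 0.3085 + 0.3918 > 1` at `23/100`. -/
theorem n2 {S m s b R : ℝ} (hm : 0 ≤ m) (h1 : m ≤ s) (h2 : m ≤ b) (h3 : m ≤ R)
    (hS : m + s + b + R = S) (h : 100 * m ≤ 23 * S) : f S ≤ f s + f b + f R := by
  have h4 := f_maj hm h1 h2
  have h5 := f_maj (x := s + b - m) (y := R) hm (by linarith) h3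
  have e : s + b - m + R - m = S - 3 * m := by linarith
  rw [e] at h5
  refine le_trans ?_ (show 2 * f m + f (S - 3 * m) ≤ f s + f b + f R by linarith)
  rcases eq_or_lt_of_le (show 0 ≤ S by linarith) with hS0 | hS0
  · rw [← hS0] at h ⊢
    rw [f_zero]
    have hm0 : m = 0 := by linarith
    rw [hm0]
    simp [f_zero]
  · have hx0 : 0 ≤ m / S := by positivity
    have hx1 : 100 * (m / S) ≤ 23 := by
      rw [← mul_div_assoc, div_le_iff₀ hS0]
      exact h
    have hk := WNumB_2 hx0 hx1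
    have e1 : f m = f S * f (m / S) := by
      rw [← f_mul hS0.le hx0]
      congr 1
      field_simp
    have hx2 : 0 ≤ 1 - 3 * (m / S) := by linarith
    have e2 : f (S - 3 * m) = f S * f (1 - 3 * (m / S)) := by
      rw [← f_mul hS0.le hx2]
      congr 1
      field_simp
    have e3 : 2 * f m + f (S - 3 * m) = f S * (2 * f (m / S) + f (1 - 3 * (m / S))) := by
      rw [e1, e2]
      ring
    rw [e3]
    exact le_mul_of_one_le_right (f_nonneg hS0.le) hk

/-- (n3) Proof: scale to `S = 1`; `f s + f b ≥ f (1/12) + f (s + b - 1/12)` and then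
`f (s + b - 1/12) + f R ≥ f a + f (11/12 - 2 a)` (both arguments are `≥ a`); the function
`f (1/12) + f a + f (11/12 - 2 a)` is concave on `[0, 1/5]` and `≥ 1` at both ends
(`0.1369 + 0.93`, `0.1369 + 0.2759 + 0.5896 > 1`). -/
theorem n3 {S a s b R : ℝ} (ha : 0 ≤ a) (h1 : S ≤ 12 * s) (h2 : a ≤ b) (h3 : S ≤ 4 * R)
    (h5 : 5 * a ≤ S) (hS : a + s + b + R = S) (hS0 : 0 ≤ S) : f S ≤ f s + f b + f R := by
  have haR : a ≤ R := by linarith
  have h6 := f_maj ha h2 haR
  have hz : 0 ≤ S / 12 := by positivity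
  have h7 := f_maj (x := s) (y := b + R - a) hz (by linarith) (by linarith)
  have e : s + (b + R - a) - S / 12 = 11 / 12 * S - 2 * a := by linarith
  rw [e] at h7
  refine le_trans ?_ (show f (S / 12) + f a + f (11 / 12 * S - 2 * a) ≤ f s + f b + f R by linarith)
  rcases eq_or_lt_of_le hS0 with hS1 | hS1
  · rw [← hS1] at h5 ⊢
    rw [f_zero]
    have hm0 : a = 0 := by linarith
    rw [hm0]
    simp [f_zero]
  · have hx0 : 0 ≤ a / S := by positivity
    have hx1 : 5 * (a / S) ≤ 1 := by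
      rw [← mul_div_assoc, div_le_one hS1]
      exact h5
    have hk := WNumB_3 hx0 hx1
    have e1 : f a = f S * f (a / S) := by
      rw [← f_mul hS1.le hx0]
      congr 1
      field_simp
    have hx2 : 0 ≤ 11 / 12 - 2 * (a / S) := by linarith
    have e2 : f (11 / 12 * S - 2 * a) = f S * f (11 / 12 - 2 * (a / S)) := by
      rw [← f_mul hS1.le hx2]
      congr 1
      field_simp
    have e4 : f (S / 12) = f S * f (1 / 12) := by
      rw [← f_mul hS1.le (by norm_num)]
      congr 1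
      ring
    have e3 : f (S / 12) + f a + f (11 / 12 * S - 2 * a) =
        f S * (f (1 / 12) + f (a / S) + f (11 / 12 - 2 * (a / S))) := by
      rw [e1, e2, e4]
      ring
    rw [e3]
    exact le_mul_of_one_le_right (f_nonneg hS1.le) hk

end P3W
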