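import Pool.Agent.Lib_MP_b306af.WSit

set_option autoImplicit false

namespace P3W

open P4 P3

variable {V : Type} [Finite V]
variable {T : Tri V} {ι : Type} {F : Fam T ι} {h h' t t' r1 r2 r3 r4 : V}

/-- contraction of `t r1` to `t` -/
theorem contr_t_r1 (L : Loc T h h' t t' r1 r2 r3 r4) (IH : ∀ T' : Tri V, nv T' < nv T → TT T')
    (hC : ContrEx V) (F : Fam T ι) (K : Finset ι) (hK : K ⊆ F.D)
    (h0 : ∀ i ∈ K, ¬ ((t = F.p i ∨ t = F.q i ∨ t = F.x i) ∧
      (r1 = F.p i ∨ r1 = F.q i ∨ r1 = F.x i))) :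
    ∃ c : V → Bool, Bond T c ∧ c r1 = false ∧ c h = true ∧ c h' = true ∧ c t = false ∧
      c t' = false ∧ f (∑ i ∈ K, F.w i) ≤
        ∑ i ∈ K.filter (fun i => ¬ Mono c (F.p i) (F.q i) (F.x i)), f (F.w i) := by
  classical
  have hr : T.F t r1 h := T.cyc _ _ _ L.f1
  obtain ⟨p, hp⟩ := T.opp _ _ _ hr
  have hhp : h ≠ p := by
    rintro rfl
    exact L.nopp hp hr
  obtain ⟨e1, e2, e3, e4, -, -⟩ := L.r1_ne
  obtain ⟨g1, g2, g3⟩ := F_ne L.hu
  obtain ⟨k1, k2, k3⟩ := F_ne L.hu'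
  have hadj : T.Adj t r1 := ⟨h, hr⟩
  have hnv : 5 ≤ nv T := by
    have hsub : (({h, h', t, t', r1} : Finset V) : Set V) ⊆ {v | T.Supp v} := by
      intro v hv
      simp only [Finset.coe_insert, Finset.coe_singleton, Set.mem_insert_iff,
        Set.mem_singleton_iff] at hv
      rcases hv with rfl | rfl | rfl | rfl | rfl
      · exact ⟨_, _, L.hu⟩
      · exact ⟨_, _, L.hu'⟩
      · exact ⟨_, _, T.cyc2 L.hu⟩
      · exact ⟨_, _, T.cyc2 L.hu'⟩
      · exact ⟨_, _, T.cyc _ _ _ hr⟩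
    have hcard : ({h, h', t, t', r1} : Finset V).card = 5 := by
      rw [Finset.card_insert_of_notMem, Finset.card_insert_of_notMem,
        Finset.card_insert_of_notMem, Finset.card_insert_of_notMem, Finset.card_singleton]
      · simpa using e4.symm
      · simp only [Finset.mem_insert, Finset.mem_singleton, not_or]
        exact ⟨L.ne, e3.symm⟩
      · simp only [Finset.mem_insert, Finset.mem_singleton, not_or]
        exact ⟨g2, k3.symm, e2.symm⟩
      · simp only [Finset.mem_insert, Finset.mem_singleton, not_or]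
        exact ⟨g1, g3.symm, k2, e1.symm⟩
    have h5 := Set.ncard_le_ncard hsub (Set.toFinite _)
    rw [Set.ncard_coe_finset, hcard] at h5
    exact h5
  obtain ⟨T', hT'⟩ := hC T t r1 h p hr hp hhp
    (fun z hz1 hz2 => L.cn_t_r1 hp hz1 hz2) hnv
  have hn4 : 4 ≤ nv T := by omega
  have hlt : nv T' < nv T := by
    have := contr_nv hn4 hT' hadj
    omega
  have f1 : T'.F h h' t :=
    (hT' h h' t).2 ⟨e1.symm, e2.symm, e3.symm, g1, g2, g3, Or.inl L.hu⟩
  have f2 : T'.F h' h t' :=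
    (hT' h' h t').2 ⟨e2.symm, e1.symm, e4.symm, k1, k2, k3, Or.inl L.hu'⟩
  obtain ⟨c, hc1, hc2, hc3, hc4, hc5, hc6, hc7⟩ :=
    contr_tt hn4 hT' hadj (IH T' hlt) f1 f2 L.ne F K hK h0
  exact ⟨c, hc1, hc2.trans hc5, hc3, hc4, hc5, hc6, hc7⟩

end P3W
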