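import Pool.Agent.Lib_MP_b306af.WPA

set_option autoImplicit false

namespace P3W

open P4 P3

variable {V : Type} [Finite V]
variable {T : Tri V} {ι : Type} {F : Fam T ι} {h h' t t' r1 r2 r3 r4 : V}

omit [Finite V] in
private theorem WPC_bi {c : V → Bool} {y z a b d : V} (hd : HasD y z a b d) (hc : c y ≠ c z) :
    ¬ Mono c a b d := by
  rintro ⟨h1, h2⟩
  rcases hd with ⟨rfl, rfl⟩ | ⟨rfl, rfl⟩ | ⟨rfl, rfl⟩
  · exact hc h1
  · exact hc h2
  · exact hc (h1.trans h2).symm

omit [Finite V] in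
/-- two vertices of a face form a dart of the face, in one of the two directions -/
private theorem WPC_dart {u v a b d : V} (huv : u ≠ v) (h1 : u = a ∨ u = b ∨ u = d)
    (h2 : v = a ∨ v = b ∨ v = d) : HasD u v a b d ∨ HasD v u a b d := by
  unfold HasD
  rcases h1 with rfl | rfl | rfl <;> rcases h2 with rfl | rfl | rfl
  · exact absurd rfl huv
  · left; left; exact ⟨rfl, rfl⟩
  · right; right; right; exact ⟨rfl, rfl⟩
  · right; left; exact ⟨rfl, rfl⟩
  · exact absurd rfl huv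
  · left; right; left; exact ⟨rfl, rfl⟩
  · left; right; right; exact ⟨rfl, rfl⟩
  · right; right; left; exact ⟨rfl, rfl⟩
  · exact absurd rfl huv

omit [Finite V] in
private theorem WPC_rot {y z m a b d : V} (h : Cyc3 y z m a b d) :
    HasD y z a b d ∧ HasD z m a b d ∧ HasD m y a b d := by
  unfold HasD
  rcases h with ⟨rfl, rfl, rfl⟩ | ⟨rfl, rfl, rfl⟩ | ⟨rfl, rfl, rfl⟩ <;> simp

/-- (L) if `r1 = r3` nothing is lost: the two faces containing `h, r1` are `(h, t, r1)` and
`(h, r1, t')`, both bichromatic. `combine` with `E = [(h, t), (t', h)]`. -/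
theorem lossless (L : Loc T h h' t t' r1 r2 r3 r4) (IH : ∀ T' : Tri V, nv T' < nv T → TT T')
    (hC : ContrEx V) (F : Fam T ι) (h13 : r1 = r3) : VAL T h h' t t' F (f F.tot) := by
  classical
  have f1 : T.F h t r1 := L.f1
  have f3 : T.F t' h r1 := by
    rw [h13]
    exact L.f3
  have f1' : T.F r1 h t := T.cyc2 f1
  have f3' : T.F h r1 t' := T.cyc _ _ _ f3
  have nht : h ≠ t := T.ne _ _ _ f1
  have nhr : h ≠ r1 := T.ne _ _ _ f3'
  have nrt : r1 ≠ t' := T.ne _ _ _ (T.cyc _ _ _ f3')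
  set K : Finset ι := F.D.filter (fun i => ¬ HasD h t (F.p i) (F.q i) (F.x i) ∧
    ¬ HasD t' h (F.p i) (F.q i) (F.x i)) with hKdef
  have hKi : ∀ i, i ∈ K ↔ i ∈ F.D ∧ (¬ HasD h t (F.p i) (F.q i) (F.x i) ∧
      ¬ HasD t' h (F.p i) (F.q i) (F.x i)) := by
    intro i
    rw [hKdef, Finset.mem_filter]
  have hKD : K ⊆ F.D := Finset.filter_subset _ _
  have h0 : ∀ i ∈ K, ¬ ((h = F.p i ∨ h = F.q i ∨ h = F.x i) ∧
      (r1 = F.p i ∨ r1 = F.q i ∨ r1 = F.x i)) := by
    intro i hi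
    obtain ⟨hiD, hi1, hi2⟩ := (hKi i).1 hi
    rintro ⟨ha, hb⟩
    rcases WPC_dart nhr ha hb with hd | hd
    · exact hi2 (WPC_rot (hasD_cyc f3' (F.face i hiD) hd)).2.2
    · exact hi1 (WPC_rot (hasD_cyc f1' (F.face i hiD) hd)).2.1
  obtain ⟨c, hc, c1, c2, c3, c4, c5, hKc⟩ := contr_h_r1 L IH hC F K hKD h0
  have hE : ([(h, t), (t', h)] : List (V × V)).Pairwise (Apart T) := by
    rw [List.pairwise_pair]
    apply apart_of f1
    · rintro ⟨-, h2⟩
      exact nht h2
    · rintro ⟨h1, -⟩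
      exact L.ne h1.symm
    · rintro ⟨h1, -⟩
      exact nrt h1.symm
  have hcb := combine F c K hKD hKc [(h, t), (t', h)] hE (by
    intro e he a b d _ hd
    rw [List.mem_cons, List.mem_singleton] at he
    rcases he with rfl | rfl
    · exact WPC_bi hd (by rw [c2, c4]; decide)
    · exact WPC_bi hd (by rw [c2, c5]; decide)) (by
    intro i hi e he
    obtain ⟨-, hi1, hi2⟩ := (hKi i).1 hi
    rw [List.mem_cons, List.mem_singleton] at he
    rcases he with rfl | rfl
    · exact hi1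
    · exact hi2)
  have hsr := sum_rest F [(h, t), (t', h)] hE K (by
    intro i
    rw [hKi i]
    constructor
    · rintro ⟨h1, h2, h3⟩
      refine ⟨h1, fun e he => ?_⟩
      rw [List.mem_cons, List.mem_singleton] at he
      rcases he with rfl | rfl
      · exact h2
      · exact h3
    · rintro ⟨h1, h2⟩
      exact ⟨h1, h2 (h, t) (by simp), h2 (t', h) (by simp)⟩)
  simp only [List.map_cons, List.map_nil, List.sum_cons, List.sum_nil, add_zero] at hcb hsr
  have hK0 : 0 ≤ ∑ i ∈ K, F.w i := Finset.sum_nonneg fun i hi => F.pos i (hKD hi)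
  have w1 := wd_nonneg F h t
  have w2 := wd_nonneg F t' h
  have e1 : F.tot = ∑ i ∈ K, F.w i + (F.wd h t + F.wd t' h) := by linarith
  have e2 : f F.tot ≤ f (∑ i ∈ K, F.w i) + (f (F.wd h t) + f (F.wd t' h)) := by
    rw [e1]
    exact (f_add hK0 (add_nonneg w1 w2)).trans (by
      have := f_add w1 w2
      linarith)
  exact ⟨c, hc, c2, c3, c4, c5, e2.trans hcb⟩

end P3W
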