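import Pool.Agent.Lib_MP_b306af.WPA
import Pool.Agent.Lib_MP_b306af.WPB

set_option autoImplicit false

namespace P3W

open P4 P3

variable {V : Type} [Finite V]
variable {T : Tri V} {ι : Type} {F : Fam T ι} {h h' t t' r1 r2 r3 r4 : V}

omit [Finite V] in
theorem WPD_has {a b d y z : V} (hy : y = a ∨ y = b ∨ y = d)
    (hz : z = a ∨ z = b ∨ z = d) (hne : y ≠ z) : HasD y z a b d ∨ HasD z y a b d := by
  unfold HasD
  rcases hy with rfl | rfl | rfl <;> rcases hz with rfl | rfl | rfl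
  · exact absurd rfl hne
  · exact Or.inl (Or.inl ⟨rfl, rfl⟩)
  · exact Or.inr (Or.inr (Or.inr ⟨rfl, rfl⟩))
  · exact Or.inr (Or.inl ⟨rfl, rfl⟩)
  · exact absurd rfl hne
  · exact Or.inl (Or.inr (Or.inl ⟨rfl, rfl⟩))
  · exact Or.inl (Or.inr (Or.inr ⟨rfl, rfl⟩))
  · exact Or.inr (Or.inr (Or.inl ⟨rfl, rfl⟩))
  · exact absurd rfl hne

omit [Finite V] in
theorem WPD_third {a b d y z m : V} (hF : T.F a b d) (hd : HasD y z a b d) (hm : T.F y z m) :
    HasD z m a b d ∧ HasD m y a b d := by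
  rcases hasD_cyc hm hF hd with ⟨rfl, rfl, rfl⟩ | ⟨rfl, rfl, rfl⟩ | ⟨rfl, rfl, rfl⟩
  · exact ⟨Or.inr (Or.inl ⟨rfl, rfl⟩), Or.inr (Or.inr ⟨rfl, rfl⟩)⟩
  · exact ⟨Or.inl ⟨rfl, rfl⟩, Or.inr (Or.inl ⟨rfl, rfl⟩)⟩
  · exact ⟨Or.inr (Or.inr ⟨rfl, rfl⟩), Or.inl ⟨rfl, rfl⟩⟩

omit [Finite V] in
theorem WPD_bi (c : V → Bool) {y z : V} (hc : c y ≠ c z) : Bi T c (y, z) := by
  intro a b d _ hd hm
  obtain ⟨h1, h2⟩ := hm
  rcases hd with ⟨rfl, rfl⟩ | ⟨rfl, rfl⟩ | ⟨rfl, rfl⟩
  · exact hc h1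
  · exact hc h2
  · exact hc (h1.trans h2).symm

omit [Finite V] in
theorem WPD_out {a b d y z z' : V} (hF : T.F a b d) (h1 : HasD y z a b d)
    (h2 : HasD y z' a b d) : z = z' := by
  obtain ⟨n1, n2, n3⟩ := F_ne hF
  rcases h1 with ⟨rfl, rfl⟩ | ⟨rfl, rfl⟩ | ⟨rfl, rfl⟩ <;>
    rcases h2 with ⟨e1, e2⟩ | ⟨e1, e2⟩ | ⟨e1, e2⟩
  · exact e2
  · exact absurd e1.symm n1
  · exact absurd e1 n3
  · exact absurd e1 n1
  · exact e2
  · exact absurd e1.symm n2
  · exact absurd e1.symm n3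
  · exact absurd e1 n2
  · exact e2

omit [Finite V] in
theorem WPD_in {a b d y y' z : V} (hF : T.F a b d) (h1 : HasD y z a b d)
    (h2 : HasD y' z a b d) : y = y' := by
  obtain ⟨n1, n2, n3⟩ := F_ne hF
  rcases h1 with ⟨rfl, rfl⟩ | ⟨rfl, rfl⟩ | ⟨rfl, rfl⟩ <;>
    rcases h2 with ⟨e1, e2⟩ | ⟨e1, e2⟩ | ⟨e1, e2⟩
  · exact e1
  · exact absurd e2.symm n2
  · exact absurd e2 n1
  · exact absurd e2 n2
  · exact e1
  · exact absurd e2.symm n3
  · exact absurd e2.symm n1
  · exact absurd e2 n3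
  · exact e1

open Classical in
/-- the kept indices -/
noncomputable def WPD_K (F : Fam T ι) (h t r1 : V) : Finset ι :=
  F.D.filter (fun i => ¬ HasD h r1 (F.p i) (F.q i) (F.x i) ∧ ¬ HasD r1 t (F.p i) (F.q i) (F.x i) ∧
    ¬ HasD h t (F.p i) (F.q i) (F.x i))

omit [Finite V] in
theorem WPD_tot_le (F : Fam T ι) (h t r1 : V) :
    F.tot ≤ ∑ i ∈ WPD_K F h t r1, F.w i + F.wd h r1 + F.wd r1 t + F.wd h t := by
  classical
  unfold WPD_K Fam.wd Fam.tot
  rw [Finset.sum_filter, Finset.sum_filter, Finset.sum_filter, Finset.sum_filter,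
    ← Finset.sum_add_distrib, ← Finset.sum_add_distrib, ← Finset.sum_add_distrib]
  apply Finset.sum_le_sum
  intro i hi
  have hw := F.pos i hi
  by_cases c1 : HasD h r1 (F.p i) (F.q i) (F.x i) <;>
    by_cases c2 : HasD r1 t (F.p i) (F.q i) (F.x i) <;>
    by_cases c3 : HasD h t (F.p i) (F.q i) (F.x i) <;> simp [c1, c2, c3, hw]

omit [Finite V] in
theorem WPD_wd_le (L : Loc T h h' t t' r1 r2 r3 r4) (F : Fam T ι) :
    F.wd h r1 + F.wd r1 t ≤ F.tot := by
  classical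
  unfold Fam.wd Fam.tot
  rw [Finset.sum_filter, Finset.sum_filter, ← Finset.sum_add_distrib]
  apply Finset.sum_le_sum
  intro i hi
  have hw := F.pos i hi
  have hF := F.face i hi
  by_cases c1 : HasD h r1 (F.p i) (F.q i) (F.x i)
  · by_cases c2 : HasD r1 t (F.p i) (F.q i) (F.x i)
    · exfalso
      -- the face is `(h, r1, t)`
      obtain ⟨p, hp⟩ := T.opp _ _ _ (T.cyc2 L.f1)
      obtain ⟨hp1, -⟩ := WPD_third hF c1 hp
      obtain rfl := WPD_out hF hp1 c2
      exact L.nopp hp (T.cyc2 L.f1)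
    · simp [c1, c2]
  · by_cases c2 : HasD r1 t (F.p i) (F.q i) (F.x i)
    · simp [c1, c2]
    · simp [c1, c2, hw]

omit [Finite V] in
theorem WPD_sum_nonneg (F : Fam T ι) (h t r1 : V) : 0 ≤ ∑ i ∈ WPD_K F h t r1, F.w i := by
  classical
  apply Finset.sum_nonneg
  intro i hi
  exact F.pos i (Finset.mem_filter.1 hi).1

omit [Finite V] in
/-- the arithmetic of `f` -/
theorem WPD_f (L : Loc T h h' t t' r1 r2 r3 r4) (F : Fam T ι) :
    f (F.tot - F.wd h r1 - F.wd r1 t) ≤ f (∑ i ∈ WPD_K F h t r1, F.w i) + f (F.wd h t) := by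
  have h1 := WPD_wd_le L F
  have h2 := WPD_tot_le F h t r1
  refine (f_mono (by linarith) ?_).trans (f_add (WPD_sum_nonneg F h t r1) (wd_nonneg F h t))
  linarith

/-- (P1) lose the outer face at `h r1`, keep the one at `r1 t`: `contr_h_r1` with `K` = indices
without the darts `(h, r1)`, `(r1, t)`, `(h, t)`; `combine` with `E = [(r1, t), (h, t)]` and
`f (a + b) ≤ f a + f b`. -/
theorem P1 (H : Sit T ι F h h' t t' r1 r2 r3 r4) :
    VAL T h h' t t' F (f (F.wd r1 t) + f (F.tot - F.wd h r1 - F.wd r1 t)) := by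
  classical
  have L := H.L.toLoc
  obtain ⟨m1, m2, m3⟩ := F_ne L.f1
  obtain ⟨c, hB, c1, c2, c3, c4, c5, c6⟩ := contr_h_r1 L H.IH H.contr F (WPD_K F h t r1)
    (Finset.filter_subset _ _) (by
      rintro i hi ⟨q1, q2⟩
      obtain ⟨hiD, g1, g2, g3⟩ := Finset.mem_filter.1 hi
      rcases WPD_has q1 q2 m3.symm with q | q
      · exact g1 q
      · exact g3 (WPD_third (F.face i hiD) q (T.cyc2 L.f1)).1)
  refine ⟨c, hB, c2, c3, c4, c5, ?_⟩
  have hcomb := combine F c (WPD_K F h t r1) (Finset.filter_subset _ _) c6 [(r1, t), (h, t)]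
    (by
      rw [List.pairwise_pair]
      rintro a b d hF ⟨d1, d2⟩
      exact m3 (WPD_in hF d1 d2))
    (by
      intro e he
      simp only [List.mem_cons, List.not_mem_nil, or_false] at he
      rcases he with rfl | rfl
      · exact WPD_bi c (by rw [c1, c4]; decide)
      · exact WPD_bi c (by rw [c2, c4]; decide))
    (by
      intro i hi e he
      obtain ⟨hiD, g1, g2, g3⟩ := Finset.mem_filter.1 hi
      simp only [List.mem_cons, List.not_mem_nil, or_false] at he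
      rcases he with rfl | rfl
      · exact g2
      · exact g3)
  have hf := WPD_f L F
  simp only [List.map_cons, List.map_nil, List.sum_cons, List.sum_nil, add_zero] at hcomb
  linarith

/-- (P2) lose the outer face at `r1 t`, keep the one at `h r1` -/
theorem P2 (H : Sit T ι F h h' t t' r1 r2 r3 r4) :
    VAL T h h' t t' F (f (F.wd h r1) + f (F.tot - F.wd h r1 - F.wd r1 t)) := by
  classical
  have L := H.L.toLoc
  obtain ⟨m1, m2, m3⟩ := F_ne L.f1
  obtain ⟨c, hB, c1, c2, c3, c4, c5, c6⟩ := contr_t_r1 L H.IH H.contr F (WPD_K F h t r1)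
    (Finset.filter_subset _ _) (by
      rintro i hi ⟨q1, q2⟩
      obtain ⟨hiD, g1, g2, g3⟩ := Finset.mem_filter.1 hi
      rcases WPD_has q1 q2 m2 with q | q
      · exact g3 (WPD_third (F.face i hiD) q (T.cyc _ _ _ L.f1)).2
      · exact g2 q)
  refine ⟨c, hB, c2, c3, c4, c5, ?_⟩
  have hcomb := combine F c (WPD_K F h t r1) (Finset.filter_subset _ _) c6 [(h, r1), (h, t)]
    (by
      rw [List.pairwise_pair]
      rintro a b d hF ⟨d1, d2⟩
      exact m2 (WPD_out hF d1 d2).symm)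
    (by
      intro e he
      simp only [List.mem_cons, List.not_mem_nil, or_false] at he
      rcases he with rfl | rfl
      · exact WPD_bi c (by rw [c1, c2]; decide)
      · exact WPD_bi c (by rw [c2, c4]; decide))
    (by
      intro i hi e he
      obtain ⟨hiD, g1, g2, g3⟩ := Finset.mem_filter.1 hi
      simp only [List.mem_cons, List.not_mem_nil, or_false] at he
      rcases he with rfl | rfl
      · exact g1
      · exact g3)
  have hf := WPD_f L F
  simp only [List.map_cons, List.map_nil, List.sum_cons, List.sum_nil, add_zero] at hcomb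
  linarith

end P3W
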