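import Pool.Agent.Lib_MP_b306af.WPA

set_option autoImplicit false

namespace P3W

open P4 P3

variable {V : Type} [Finite V]
variable {T : Tri V} {ι : Type} {F : Fam T ι} {h h' t t' r1 r2 r3 r4 : V}

omit [Finite V] in
/-- a face with two darts which start at the same point -/
theorem WPE_start {y z z' a b d : V} (hF : T.F a b d) (h1 : HasD y z a b d)
    (h2 : HasD y z' a b d) : z = z' := by
  obtain ⟨n1, n2, n3⟩ := F_ne hF
  rcases h1 with ⟨e1, e2⟩ | ⟨e1, e2⟩ | ⟨e1, e2⟩ <;>
    rcases h2 with ⟨g1, g2⟩ | ⟨g1, g2⟩ | ⟨g1, g2⟩ <;> subst e1 <;> subst e2 <;>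
    first
      | exact g2
      | exact absurd g1 n1
      | exact absurd g1.symm n1
      | exact absurd g1 n2
      | exact absurd g1.symm n2
      | exact absurd g1 n3
      | exact absurd g1.symm n3

omit [Finite V] in
/-- a face with two darts which end at the same point -/
theorem WPE_end {y y' z a b d : V} (hF : T.F a b d) (h1 : HasD y z a b d)
    (h2 : HasD y' z a b d) : y = y' := by
  obtain ⟨n1, n2, n3⟩ := F_ne hF
  rcases h1 with ⟨e1, e2⟩ | ⟨e1, e2⟩ | ⟨e1, e2⟩ <;>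
    rcases h2 with ⟨g1, g2⟩ | ⟨g1, g2⟩ | ⟨g1, g2⟩ <;> subst e1 <;> subst e2 <;>
    first
      | exact g1
      | exact absurd g2 n1
      | exact absurd g2.symm n1
      | exact absurd g2 n2
      | exact absurd g2.symm n2
      | exact absurd g2 n3
      | exact absurd g2.symm n3

omit [Finite V] in
/-- darts without a common vertex are in different faces -/
theorem WPE_disj {a b a' b' : V} (h1 : a ≠ a') (h2 : a ≠ b') (h3 : b ≠ a') (h4 : b ≠ b') :
    Apart T (a, b) (a', b') := by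
  rintro x y z hF ⟨hh, hh'⟩
  simp only at hh hh'
  rcases hh with ⟨e1, e2⟩ | ⟨e1, e2⟩ | ⟨e1, e2⟩ <;>
    rcases hh' with ⟨g1, g2⟩ | ⟨g1, g2⟩ | ⟨g1, g2⟩ <;> subst e1 <;> subst e2 <;>
    first
      | exact h1 g1
      | exact h2 g2
      | exact h3 g1

omit [Finite V] in
theorem WPE_bi {c : V → Bool} {y z : V} (h1 : c y ≠ c z) : Bi T c (y, z) := by
  rintro a b d hF hh ⟨m1, m2⟩
  simp only at hh
  rcases hh with ⟨e1, e2⟩ | ⟨e1, e2⟩ | ⟨e1, e2⟩ <;> subst e1 <;> subst e2
  · exact h1 m1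
  · exact h1 m2
  · exact h1 (m1.trans m2).symm

/-- (I1) ear at `t`: lose the outer face at `h r1`, keep the ear and the outer face at `r2 h'`.
`contr_h_r1`; `link4` at `t` (`h, r1, r2, h'`: faces `F t r1 h`.. in the right order): the neighbours
of `t` are `h, h', r1, r2`; the class `false` is connected and contains `t` and `t'`, so `c r2 = false`.
`combine` with `E = [(r1, t), (r2, h'), (h, t)]` (`(r1, t)` = ear face). -/
theorem I1 (H : Sit T ι F h h' t t' r1 r2 r3 r4) (he : T.Adj r1 r2) :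
    VAL T h h' t t' F (f (F.wd r1 t) + f (F.wd r2 h') +
      f (F.tot - F.wd h r1 - F.wd r1 t - F.wd r2 h')) := by
  classical
  have L := H.L
  have hear := L.ear_t he
  have nd := L.nodup
  simp only [List.nodup_cons, List.mem_cons, List.not_mem_nil, or_false, not_or, List.nodup_nil,
    and_true, not_false_eq_true] at nd
  obtain ⟨⟨n1, n2, n3, n4, n5, n6, n7⟩, ⟨m1, m2, m3, m4, m5, m6⟩, ⟨k1, k2, k3, k4, k5⟩,
    ⟨l1, l2, l3, l4⟩, ⟨o1, o2, o3⟩, ⟨q1, q2⟩, q3⟩ := nd
  have hlink := link4 H.link (v := t) (b := h) (d := h') (e := r2) (g := r1)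
    (T.cyc2 L.hu) L.f2 (T.cyc _ _ _ hear) (T.cyc _ _ _ L.f1)
  -- the kept indices
  set K : Finset ι := F.D.filter (fun i => ∀ e ∈ ([(h, r1), (r1, t), (r2, h'), (h, t)] : List (V × V)),
    ¬ HasD e.1 e.2 (F.p i) (F.q i) (F.x i)) with hKdef
  have hKm : ∀ i, i ∈ K ↔ i ∈ F.D ∧ ∀ e ∈ ([(h, r1), (r1, t), (r2, h'), (h, t)] : List (V × V)),
      ¬ HasD e.1 e.2 (F.p i) (F.q i) (F.x i) := fun i => Finset.mem_filter
  have hKD : K ⊆ F.D := Finset.filter_subset _ _
  have hf1 : T.F r1 h t := T.cyc2 L.f1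
  obtain ⟨c, hb, c1, c2, c3, c4, c5, hc⟩ := contr_h_r1 L.toLoc H.IH H.contr F K hKD (by
    rintro i hi ⟨a1, a2⟩
    have hi' := (hKm i).1 hi
    have b1 := hi'.2 (h, r1) (by simp)
    have b2 := hi'.2 (h, t) (by simp)
    have hfi := F.face i hi'.1
    simp only at b1 b2
    -- the face contains the dart `h r1` or the dart `r1 h`
    have key : HasD h r1 (F.p i) (F.q i) (F.x i) ∨ HasD r1 h (F.p i) (F.q i) (F.x i) := by
      unfold HasD
      rcases a1 with a1 | a1 | a1 <;> rcases a2 with a2 | a2 | a2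
      · exact absurd (a1.trans a2.symm) n4
      · left; left; exact ⟨a1.symm, a2.symm⟩
      · right; right; right; exact ⟨a2.symm, a1.symm⟩
      · right; left; exact ⟨a2.symm, a1.symm⟩
      · exact absurd (a1.trans a2.symm) n4
      · left; right; left; exact ⟨a1.symm, a2.symm⟩
      · left; right; right; exact ⟨a1.symm, a2.symm⟩
      · right; right; left; exact ⟨a2.symm, a1.symm⟩
      · exact absurd (a1.trans a2.symm) n4
    rcases key with key | key
    · exact b1 key
    · have hcy := hasD_cyc hf1 hfi key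
      apply b2
      unfold HasD
      rcases hcy with ⟨g1, g2, g3⟩ | ⟨g1, g2, g3⟩ | ⟨g1, g2, g3⟩
      · right; left; exact ⟨g2, g3⟩
      · left; exact ⟨g1, g2⟩
      · right; right; exact ⟨g3, g1⟩)
  -- colour of `r2`
  have cr2 : c r2 = false := by
    by_contra hcon
    have hcon' : c r2 = true := by simpa using hcon
    have hcc := hb false (fun x => x = t) (by
      rintro a b ⟨ha, ha'⟩ ⟨hb1, hb2⟩ hab rfl
      exfalso
      rcases hlink b hab with e | e | e | e
      · rw [e, c2] at hb2; exact Bool.noConfusion hb2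
      · rw [e, c3] at hb2; exact Bool.noConfusion hb2
      · rw [e, hcon'] at hb2; exact Bool.noConfusion hb2
      · rw [e, c1] at hb2; exact Bool.noConfusion hb2) t t'
      ⟨⟨h, h', T.cyc2 L.hu⟩, c4⟩ ⟨⟨h', h, T.cyc2 L.hu'⟩, c5⟩ rfl
    exact L.ne hcc.symm
  -- the four darts are apart
  have ap1 : Apart T (h, r1) (r1, t) := by
    rintro a b d hF ⟨x1, x2⟩
    simp only at x1 x2
    have hnot : ¬ T.F h r1 t := fun hh => L.toLoc.nopp hh hf1
    obtain ⟨w1, w2, w3⟩ := F_ne hF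
    rcases x1 with ⟨e1, e2⟩ | ⟨e1, e2⟩ | ⟨e1, e2⟩ <;>
      rcases x2 with ⟨g1, g2⟩ | ⟨g1, g2⟩ | ⟨g1, g2⟩
    · exact w1 (g1.trans e2.symm)
    · exact hnot (by rw [← e1, ← e2, ← g2]; exact hF)
    · exact w2 (e2.trans g1.symm)
    · exact w3 (e2.trans g1.symm)
    · exact w2 (g1.trans e2.symm)
    · exact hnot (by rw [← e1, ← e2, ← g2]; exact T.cyc _ _ _ hF)
    · exact hnot (by rw [← e1, ← e2, ← g2]; exact T.cyc2 hF)
    · exact w1 (e2.trans g1.symm)
    · exact w3 (g1.trans e2.symm)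
  have ap2 : Apart T (h, r1) (r2, h') := WPE_disj n5 n1 o1 (Ne.symm m3)
  have ap3 : Apart T (h, r1) (h, t) := fun a b d hF hh => (Ne.symm k2) (WPE_start hF hh.1 hh.2)
  have ap4 : Apart T (r1, t) (r2, h') := WPE_disj o1 (Ne.symm m3) k3 (Ne.symm m1)
  have ap5 : Apart T (r1, t) (h, t) := fun a b d hF hh => n4 (WPE_end hF hh.2 hh.1)
  have ap6 : Apart T (r2, h') (h, t) := WPE_disj (Ne.symm n5) (Ne.symm k3) (Ne.symm n1) m1
  have hE4 : ([(h, r1), (r1, t), (r2, h'), (h, t)] : List (V × V)).Pairwise (Apart T) := by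
    simp only [List.pairwise_cons, List.mem_cons, List.not_mem_nil, or_false, forall_eq_or_imp,
      forall_eq, List.Pairwise.nil, and_true, IsEmpty.forall_iff, implies_true]
    exact ⟨⟨ap1, ap2, ap3⟩, ⟨ap4, ap5⟩, ap6⟩
  have hE3 : ([(r1, t), (r2, h'), (h, t)] : List (V × V)).Pairwise (Apart T) := by
    simp only [List.pairwise_cons, List.mem_cons, List.not_mem_nil, or_false, forall_eq_or_imp,
      forall_eq, List.Pairwise.nil, and_true, IsEmpty.forall_iff, implies_true]
    exact ⟨⟨ap4, ap5⟩, ap6⟩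
  have hsum := sum_rest F _ hE4 K hKm
  have hcomb := combine F c K hKD hc [(r1, t), (r2, h'), (h, t)] hE3 (by
    intro e he'
    simp only [List.mem_cons, List.not_mem_nil, or_false] at he'
    rcases he' with rfl | rfl | rfl
    · exact WPE_bi (by rw [c1, c4]; exact Bool.noConfusion)
    · exact WPE_bi (by rw [cr2, c3]; exact Bool.noConfusion)
    · exact WPE_bi (by rw [c2, c4]; exact Bool.noConfusion)) (by
    intro i hi e he'
    refine ((hKm i).1 hi).2 e ?_
    simp only [List.mem_cons, List.not_mem_nil, or_false] at he' ⊢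
    exact Or.inr he')
  refine ⟨c, hb, c2, c3, c4, c5, le_trans ?_ hcomb⟩
  have hKnn : 0 ≤ ∑ i ∈ K, F.w i := Finset.sum_nonneg fun i hi => F.pos i (hKD hi)
  have hwnn := wd_nonneg F h t
  have hadd := f_add hKnn hwnn
  simp only [List.map_cons, List.map_nil, List.sum_cons, List.sum_nil, add_zero] at hsum ⊢
  have heq : F.tot - F.wd h r1 - F.wd r1 t - F.wd r2 h' = ∑ i ∈ K, F.w i + F.wd h t := by
    rw [hsum]; ring
  rw [heq]
  linarith

end P3W
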