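import Pool.Agent.Lib_MP_b306af.WSit

set_option autoImplicit false

namespace P3W

open P4 P3

variable {V : Type} [Finite V]
variable {T : Tri V} {ι : Type} {F : Fam T ι} {h h' t t' r1 r2 r3 r4 : V}

omit [Finite V] in
theorem WPF_apart_symm {e e' : V × V} (hA : Apart T e e') : Apart T e' e :=
  fun a b d hF hh => hA a b d hF ⟨hh.2, hh.1⟩

omit [Finite V] in
/-- a dart with ends of different colours: every face with this dart is bichromatic -/
theorem WPF_bi {c : V → Bool} {y z : V} (hne : c y ≠ c z) : Bi T c (y, z) := by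
  intro a b d _ hd hm
  obtain ⟨m1, m2⟩ := hm
  rcases hd with ⟨e1, e2⟩ | ⟨e1, e2⟩ | ⟨e1, e2⟩
  · simp only at e1 e2
    exact hne (by rw [← e1, ← e2]; exact m1)
  · simp only at e1 e2
    exact hne (by rw [← e1, ← e2]; exact m2)
  · simp only at e1 e2
    exact hne (by rw [← e1, ← e2]; exact (m1.trans m2).symm)

omit [Finite V] in
/-- a face which contains two different vertices contains one of the two darts between them -/
theorem WPF_dart {y z a b d : V} (hyz : y ≠ z)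
    (h0 : (y = a ∨ y = b ∨ y = d) ∧ (z = a ∨ z = b ∨ z = d)) :
    HasD y z a b d ∨ HasD z y a b d := by
  unfold HasD
  rcases h0 with ⟨h1 | h1 | h1, h2 | h2 | h2⟩
  · exact absurd (h1.trans h2.symm) hyz
  · exact Or.inl (Or.inl ⟨h1.symm, h2.symm⟩)
  · exact Or.inr (Or.inr (Or.inr ⟨h2.symm, h1.symm⟩))
  · exact Or.inr (Or.inl ⟨h2.symm, h1.symm⟩)
  · exact absurd (h1.trans h2.symm) hyz
  · exact Or.inl (Or.inr (Or.inl ⟨h1.symm, h2.symm⟩))
  · exact Or.inl (Or.inr (Or.inr ⟨h1.symm, h2.symm⟩))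
  · exact Or.inr (Or.inr (Or.inl ⟨h2.symm, h1.symm⟩))
  · exact absurd (h1.trans h2.symm) hyz

omit [Finite V] in
/-- the darts of one face occur together -/
theorem WPF_rot {y z m a b d : V} (hF : T.F y z m) (h' : T.F a b d) (hd : HasD y z a b d) :
    HasD m y a b d ∧ HasD z m a b d := by
  unfold HasD
  rcases hasD_cyc hF h' hd with ⟨e1, e2, e3⟩ | ⟨e1, e2, e3⟩ | ⟨e1, e2, e3⟩
  · exact ⟨Or.inr (Or.inr ⟨e3, e1⟩), Or.inr (Or.inl ⟨e2, e3⟩)⟩
  · exact ⟨Or.inr (Or.inl ⟨e2, e3⟩), Or.inl ⟨e1, e2⟩⟩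
  · exact ⟨Or.inl ⟨e1, e2⟩, Or.inr (Or.inr ⟨e3, e1⟩)⟩

/-- (I2) ear at `h`: lose the outer face at `r1 t`, keep the ear `(h, r1)` and the outer face at
`t' r3`. `contr_tt2`. In `T1 = T/(r1 -> t)` the common neighbours of `h` and `r3` are `t` and `t'`
(the neighbours of `h` in `T` are `h', t, r1, r3, t'` by `link5`; `r3` is not adjacent to `h'`).
`combine` with `E = [(h, r1), (t', r3), (h, t), (t', h)]`. -/
theorem I2 (H : Sit T ι F h h' t t' r1 r2 r3 r4) (he : T.Adj r1 r3) :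
    VAL T h h' t t' F (f (F.wd h r1) + f (F.wd t' r3) +
      f (F.tot - F.wd r1 t - F.wd h r1 - F.wd t' r3)) := by
  classical
  have L := H.L
  have hnv : 8 ≤ nv T := L.nv_ge
  have hnd := L.nodup
  have hna := L.nadj
  simp only [List.nodup_cons, List.mem_cons, List.not_mem_nil, or_false, not_or,
    List.nodup_nil, and_true, not_false_iff] at hnd
  obtain ⟨⟨n_hh', n_ht, n_ht', n_h1, n_h2, n_h3, n_h4⟩, ⟨n_h't, n_h't', n_h'1, n_h'2, n_h'3, n_h'4⟩,
    ⟨n_tt', n_t1, n_t2, n_t3, n_t4⟩, ⟨n_t'1, n_t'2, n_t'3, n_t'4⟩, ⟨n_12, n_13, n_14⟩,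
    ⟨n_23, n_24⟩, n_34⟩ := hnd
  -- the faces around `h`
  have ear : T.F r3 h r1 := L.ear_h he
  have g1 : T.F h h' t := L.hu
  have g2 : T.F h t r1 := L.f1
  have g3 : T.F h r1 r3 := T.cyc _ _ _ ear
  have g4 : T.F h r3 t' := T.cyc _ _ _ L.f3
  have g5 : T.F h t' h' := T.cyc _ _ _ L.hu'
  -- the first contraction
  have k1 : T.F t r1 h := T.cyc _ _ _ g2
  obtain ⟨p, hp⟩ := T.opp _ _ _ k1
  have hhp : h ≠ p := by
    intro e
    subst e
    exact no_opp (by omega) k1 hp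
  obtain ⟨T1, hT1⟩ := H.contr T t r1 h p k1 hp hhp
    (fun z h1 h2 => L.toLoc.cn_t_r1 hp h1 h2) (by omega)
  have a1 : T.Adj t r1 := adj1 k1
  have nv1 : nv T1 + 1 = nv T := contr_nv (by omega) hT1 a1
  -- the faces of `T1`
  have q1 : T1.F h r3 t' := (hT1 _ _ _).2
    ⟨n_h1, Ne.symm n_13, n_t'1, n_h3, Ne.symm n_t'3, Ne.symm n_ht', Or.inl g4⟩
  have q2 : T1.F r3 h t := (hT1 _ _ _).2
    ⟨Ne.symm n_13, n_h1, n_t1, Ne.symm n_h3, n_ht, n_t3,
      Or.inr (Or.inr (Or.inr ⟨rfl, ear⟩))⟩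
  have q3 : T1.F h h' t := (hT1 _ _ _).2
    ⟨n_h1, n_h'1, n_t1, n_hh', n_h't, Ne.symm n_ht, Or.inl g1⟩
  have q4 : T1.F h' h t' := (hT1 _ _ _).2
    ⟨n_h'1, n_h1, n_t'1, Ne.symm n_hh', n_ht', Ne.symm n_h't', Or.inl L.hu'⟩
  have a2 : T1.Adj h r3 := adj1 q1
  -- the map
  have c0 : ∀ z, z ≠ r1 → ctr t r1 z = z := fun z hz => by
    unfold ctr
    rw [if_neg hz]
  have c1 : ctr t r1 r1 = t := by
    unfold ctr
    rw [if_pos rfl]
  -- common neighbours of `h` and `r3` in `T1`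
  have hcn : ∀ z, T1.Adj h z → T1.Adj r3 z → z = t' ∨ z = t := by
    intro z z1 z2
    obtain ⟨a0, b0, w1, w2, w3⟩ := contr_adj' hT1 z1
    have ea : a0 = h := by
      by_cases hh : a0 = r1
      · rw [hh, c1] at w2
        exact absurd w2.symm n_ht
      · rw [c0 _ hh] at w2
        exact w2
    subst ea
    rcases link5 H.link g1 g2 g3 g4 g5 b0 w1 with e | e | e | e | e
    · -- `z = h'`
      rw [e, c0 _ n_h'1] at w3
      subst w3
      obtain ⟨a', b', v1, v2, v3⟩ := contr_adj' hT1 z2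
      have ea' : a' = r3 := by
        by_cases hh : a' = r1
        · rw [hh, c1] at v2
          exact absurd v2 n_t3
        · rw [c0 _ hh] at v2
          exact v2
      have eb' : b' = h' := by
        by_cases hh : b' = r1
        · rw [hh, c1] at v3
          exact absurd v3.symm n_h't
        · rw [c0 _ hh] at v3
          exact v3
      rw [ea', eb'] at v1
      exact absurd v1.symm hna.h'r3
    · rw [e, c0 _ n_t1] at w3
      exact Or.inr w3.symm
    · rw [e, c1] at w3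
      exact Or.inr w3.symm
    · rw [e, c0 _ (Ne.symm n_13)] at w3
      exact absurd w3 z2.ne
    · rw [e, c0 _ n_t'1] at w3
      exact Or.inl w3.symm
  obtain ⟨T2, hT2⟩ := H.contr T1 h r3 t' t q1 q2 (Ne.symm n_tt') hcn (by omega)
  have nv2 : nv T2 + 1 = nv T1 := contr_nv (by omega) hT2 a2
  have s1 : T2.F h h' t := (hT2 _ _ _).2
    ⟨n_h3, n_h'3, n_t3, n_hh', n_h't, Ne.symm n_ht, Or.inl q3⟩
  have s2 : T2.F h' h t' := (hT2 _ _ _).2
    ⟨n_h'3, n_h3, n_t'3, Ne.symm n_hh', n_ht', Ne.symm n_h't', Or.inl q4⟩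
  -- the darts
  obtain ⟨o, ho⟩ := T.opp _ _ _ (T.cyc2 L.f3)
  -- `ho : T.F t' r3 o`
  have p1 : Apart T (h, r1) (t', r3) :=
    apart_of g3 (fun e => n_ht' e.1.symm) (fun e => n_t'1 e.1) (fun e => n_t'3 e.1)
  have p2 : Apart T (h, r1) (h, t) :=
    apart_of g3 (fun e => n_t1 e.2) (fun e => n_h1 e.1) (fun e => n_h3 e.1)
  have p3 : Apart T (h, r1) (t', h) :=
    apart_of g3 (fun e => n_ht' e.1.symm) (fun e => n_t'1 e.1) (fun e => n_t'3 e.1)
  have p4 : Apart T (h, r1) (r1, t) :=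
    apart_of g3 (fun e => n_h1 e.1.symm) (fun e => n_t3 e.2) (fun e => n_13 e.1)
  have p5 : Apart T (t', r3) (h, t) :=
    WPF_apart_symm (apart_of g2 (fun e => n_ht' e.1.symm) (fun e => n_tt' e.1.symm)
      (fun e => n_t'1 e.1))
  have p6 : Apart T (t', r3) (t', h) :=
    WPF_apart_symm (apart_of L.f3 (fun e => n_h3 e.2.symm) (fun e => n_ht' e.1.symm)
      (fun e => n_t'3 e.1))
  have p7 : Apart T (t', r3) (r1, t) :=
    apart_of ho (fun e => n_t'1 e.1.symm) (fun e => n_13 e.1) (fun e => n_tt' e.2)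
  have p8 : Apart T (h, t) (t', h) :=
    apart_of g2 (fun e => n_ht' e.1.symm) (fun e => n_tt' e.1.symm) (fun e => n_t'1 e.1)
  have p9 : Apart T (h, t) (r1, t) :=
    apart_of g2 (fun e => n_h1 e.1.symm) (fun e => n_t1 e.1.symm) (fun e => n_ht e.2.symm)
  have p10 : Apart T (t', h) (r1, t) :=
    apart_of L.f3 (fun e => n_t'1 e.1.symm) (fun e => n_h1 e.1.symm) (fun e => n_13 e.1)
  have hE0 : List.Pairwise (Apart T) [(h, r1), (t', r3), (h, t), (t', h), (r1, t)] := by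
    simp only [List.pairwise_cons, List.mem_cons, List.not_mem_nil, or_false, forall_eq_or_imp,
      forall_eq, List.Pairwise.nil, and_true]
    refine ⟨⟨p1, p2, p3, p4⟩, ⟨p5, p6, p7⟩, ⟨p8, p9⟩, p10, ?_⟩
    intro a ha
    exact absurd ha (by simp)
  have hE : List.Pairwise (Apart T) [(h, r1), (t', r3), (h, t), (t', h)] := by
    simp only [List.pairwise_cons, List.mem_cons, List.not_mem_nil, or_false, forall_eq_or_imp,
      forall_eq, List.Pairwise.nil, and_true]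
    refine ⟨⟨p1, p2, p3⟩, ⟨p5, p6⟩, p8, ?_⟩
    intro a ha
    exact absurd ha (by simp)
  -- the kept indices
  set K : Finset ι := F.D.filter (fun i =>
    ∀ e ∈ [(h, r1), (t', r3), (h, t), (t', h), (r1, t)], ¬ HasD e.1 e.2 (F.p i) (F.q i) (F.x i))
    with hKdef
  have hKm : ∀ i, i ∈ K ↔ i ∈ F.D ∧ ∀ e ∈ [(h, r1), (t', r3), (h, t), (t', h), (r1, t)],
      ¬ HasD e.1 e.2 (F.p i) (F.q i) (F.x i) := by
    intro i
    rw [hKdef, Finset.mem_filter]
  have hKD : K ⊆ F.D := fun i hi => ((hKm i).1 hi).1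
  have hK1 : ∀ i ∈ K, ¬ HasD h r1 (F.p i) (F.q i) (F.x i) := fun i hi =>
    ((hKm i).1 hi).2 (h, r1) (by simp)
  have hK2 : ∀ i ∈ K, ¬ HasD t' r3 (F.p i) (F.q i) (F.x i) := fun i hi =>
    ((hKm i).1 hi).2 (t', r3) (by simp)
  have hK3 : ∀ i ∈ K, ¬ HasD h t (F.p i) (F.q i) (F.x i) := fun i hi =>
    ((hKm i).1 hi).2 (h, t) (by simp)
  have hK4 : ∀ i ∈ K, ¬ HasD t' h (F.p i) (F.q i) (F.x i) := fun i hi =>
    ((hKm i).1 hi).2 (t', h) (by simp)
  have hK5 : ∀ i ∈ K, ¬ HasD r1 t (F.p i) (F.q i) (F.x i) := fun i hi =>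
    ((hKm i).1 hi).2 (r1, t) (by simp)
  have h0 : ∀ i ∈ K, ¬ ((t = F.p i ∨ t = F.q i ∨ t = F.x i) ∧
      (r1 = F.p i ∨ r1 = F.q i ∨ r1 = F.x i)) := by
    intro i hi hh
    have hF := F.face i (hKD hi)
    rcases WPF_dart n_t1 hh with hd | hd
    · exact hK3 i hi (WPF_rot k1 hF hd).1
    · exact hK5 i hi hd
  have h0' : ∀ i ∈ K, ¬ ((h = F.p i ∨ h = F.q i ∨ h = F.x i) ∧
      (r3 = F.p i ∨ r3 = F.q i ∨ r3 = F.x i)) := by
    intro i hi hh
    have hF := F.face i (hKD hi)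
    rcases WPF_dart n_h3 hh with hd | hd
    · exact hK4 i hi (WPF_rot g4 hF hd).1
    · exact hK1 i hi (WPF_rot ear hF hd).2
  obtain ⟨c, hb, hc1, hc3, hch, hch', hct, hct', hcK⟩ :=
    contr_tt2 (by omega) hT1 a1 hT2 a2 (Ne.symm n_h1) n_13 (Ne.symm n_ht) n_t3
      (H.IH T2 (by omega)) s1 s2 n_tt' F K hKD h0 h0'
  rw [hct] at hc1
  rw [hch] at hc3
  have hcomb := combine F c K hKD hcK [(h, r1), (t', r3), (h, t), (t', h)] hE (by
    intro e hemem
    simp only [List.mem_cons, List.not_mem_nil, or_false] at hemem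
    rcases hemem with rfl | rfl | rfl | rfl
    · exact WPF_bi (by rw [hch, hc1]; simp)
    · exact WPF_bi (by rw [hct', hc3]; simp)
    · exact WPF_bi (by rw [hch, hct]; simp)
    · exact WPF_bi (by rw [hct', hch]; simp)) (by
    intro i hi e hemem
    simp only [List.mem_cons, List.not_mem_nil, or_false] at hemem
    rcases hemem with rfl | rfl | rfl | rfl
    · exact hK1 i hi
    · exact hK2 i hi
    · exact hK3 i hi
    · exact hK4 i hi)
  have hrest := sum_rest F [(h, r1), (t', r3), (h, t), (t', h), (r1, t)] hE0 K hKm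
  simp only [List.map_cons, List.map_nil, List.sum_cons, List.sum_nil, add_zero] at hcomb hrest
  have hKnn : 0 ≤ ∑ i ∈ K, F.w i := Finset.sum_nonneg fun i hi => F.pos i (hKD hi)
  have w3 := wd_nonneg F h t
  have w4 := wd_nonneg F t' h
  have e1 : F.tot - F.wd r1 t - F.wd h r1 - F.wd t' r3
      = (∑ i ∈ K, F.w i) + (F.wd h t + F.wd t' h) := by
    rw [hrest]
    ring
  have i1 : f ((∑ i ∈ K, F.w i) + (F.wd h t + F.wd t' h)) ≤
      f (∑ i ∈ K, F.w i) + f (F.wd h t + F.wd t' h) := f_add hKnn (add_nonneg w3 w4)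
  have i2 : f (F.wd h t + F.wd t' h) ≤ f (F.wd h t) + f (F.wd t' h) := f_add w3 w4
  refine ⟨c, hb, hch, hch', hct, hct', ?_⟩
  rw [e1]
  linarith

end P3W
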