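import Pool.Agent.Lib_MP_b306af.WPC
import Pool.Agent.Lib_MP_b306af.WPD
import Pool.Agent.Lib_MP_b306af.WPE
import Pool.Agent.Lib_MP_b306af.WPF

set_option autoImplicit false

namespace P3W

open P4 P3

variable {V : Type} [Finite V]
variable {T : Tri V} {ι : Type} {F : Fam T ι} {h h' t t' r1 r2 r3 r4 : V}

theorem Sit.prA (H : Sit T ι F h h' t t' r1 r2 r3 r4) : Pr F.tot (F.wd h r1) (F.wd r1 t) :=
  ⟨H.lt (P2 H), H.lt (P1 H)⟩

theorem Sit.prC (H : Sit T ι F h h' t t' r1 r2 r3 r4) : Pr F.tot (F.wd h' r4) (F.wd r4 t') :=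
  H.rot.prA

theorem Sit.prB (H : Sit T ι F h h' t t' r1 r2 r3 r4) : Pr F.tot (F.wd r2 h') (F.wd t r2) := by
  have := H.mirror.prA
  rwa [tot_mirror, wd_mirror, wd_mirror] at this

theorem Sit.prD (H : Sit T ι F h h' t t' r1 r2 r3 r4) : Pr F.tot (F.wd r3 h) (F.wd t' r3) :=
  H.rot.prB

theorem Ir.symm {S a s b : ℝ} (h : Ir S a s b) : Ir S b s a := by
  unfold Ir at h ⊢
  have e : S - b - s - a = S - a - s - b := by ring
  rw [e]
  exact ⟨h.2, h.1⟩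

/-- ear at `t` -/
theorem Sit.irT (H : Sit T ι F h h' t t' r1 r2 r3 r4) (he : T.Adj r1 r2) :
    Ir F.tot (F.wd h r1) (F.wd r1 t) (F.wd r2 h') := by
  refine ⟨H.lt (I1 H he), ?_⟩
  have h1 := H.mirror.lt (I1 H.mirror ((Tri.mirror_Adj T _ _).2 he.symm))
  rw [tot_mirror, wd_mirror, wd_mirror, wd_mirror] at h1
  have e : F.wd t r2 = F.wd r1 t := by
    have h2 := H.L.ear_t he
    exact (wd_rot F h2).symm
  rw [e] at h1
  have e2 : F.tot - F.wd r2 h' - F.wd r1 t - F.wd h r1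
      = F.tot - F.wd h r1 - F.wd r1 t - F.wd r2 h' := by ring
  rw [e2] at h1
  exact h1

/-- ear at `t'` -/
theorem Sit.irT' (H : Sit T ι F h h' t t' r1 r2 r3 r4) (he : T.Adj r3 r4) :
    Ir F.tot (F.wd h' r4) (F.wd r4 t') (F.wd r3 h) :=
  H.rot.irT he.symm

/-- ear at `h` (`a1 = d1`) -/
theorem Sit.irH (H : Sit T ι F h h' t t' r1 r2 r3 r4) (he : T.Adj r1 r3) :
    Ir F.tot (F.wd r1 t) (F.wd h r1) (F.wd t' r3) := by
  refine ⟨H.lt (I2 H he), ?_⟩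
  have h1 := H.rot.mirror.lt (I2 H.rot.mirror ((Tri.mirror_Adj T _ _).2 he.symm))
  rw [tot_mirror, wd_mirror, wd_mirror, wd_mirror] at h1
  have e : F.wd r3 h = F.wd h r1 := wd_rot F (H.L.ear_h he)
  rw [e] at h1
  have e2 : F.tot - F.wd t' r3 - F.wd h r1 - F.wd r1 t
      = F.tot - F.wd r1 t - F.wd h r1 - F.wd t' r3 := by ring
  rw [e2] at h1
  exact h1

/-- ear at `h'` (`b1 = c1`) -/
theorem Sit.irH' (H : Sit T ι F h h' t t' r1 r2 r3 r4) (he : T.Adj r2 r4) :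
    Ir F.tot (F.wd r4 t') (F.wd h' r4) (F.wd t r2) :=
  H.rot.irH he.symm

end P3W
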