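import Pool.Agent.Lib_MP_b306af.WPatA

set_option autoImplicit false

namespace P3W

open P4 P3



theorem WPatC_min (x1 x2 x3 x4 x5 x6 : ℝ) :
    ∃ m, (m = x1 ∨ m = x2 ∨ m = x3 ∨ m = x4 ∨ m = x5 ∨ m = x6) ∧
      m ≤ x1 ∧ m ≤ x2 ∧ m ≤ x3 ∧ m ≤ x4 ∧ m ≤ x5 ∧ m ≤ x6 := by
  have h2 : ∀ x y : ℝ, ∃ m, (m = x ∨ m = y) ∧ m ≤ x ∧ m ≤ y := by
    intro x y
    rcases le_total x y with h | h
    · exact ⟨x, Or.inl rfl, le_rfl, h⟩
    · exact ⟨y, Or.inr rfl, h, le_rfl⟩
  obtain ⟨m1, e1, a1, a2⟩ := h2 x1 x2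
  obtain ⟨m2, e2, a3, a4⟩ := h2 x3 x4
  obtain ⟨m3, e3, a5, a6⟩ := h2 x5 x6
  obtain ⟨m4, e4, b1, b2⟩ := h2 m1 m2
  obtain ⟨m, e5, b3, b4⟩ := h2 m4 m3
  refine ⟨m, ?_, b3.trans (b1.trans a1), b3.trans (b1.trans a2), b3.trans (b2.trans a3),
    b3.trans (b2.trans a4), b4.trans a5, b4.trans a6⟩
  rcases e5 with e5 | e5
  · rcases e4 with e4 | e4
    · rcases e1 with e1 | e1
      · exact Or.inl (e5.trans (e4.trans e1))
      · exact Or.inr (Or.inl (e5.trans (e4.trans e1)))
    · rcases e2 with e2 | e2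
      · exact Or.inr (Or.inr (Or.inl (e5.trans (e4.trans e2))))
      · exact Or.inr (Or.inr (Or.inr (Or.inl (e5.trans (e4.trans e2)))))
  · rcases e3 with e3 | e3
    · exact Or.inr (Or.inr (Or.inr (Or.inr (Or.inl (e5.trans e3)))))
    · exact Or.inr (Or.inr (Or.inr (Or.inr (Or.inr (e5.trans e3)))))

theorem WPatC_pair {S u v m : ℝ} (hu : 0 ≤ u) (hv : 0 ≤ v) (h : Pr S u v)
    (hm : m = u ∨ m = v) (hR : m ≤ S - u - v) : S < 12 * m := by
  have h1 : min u v ≤ m := by
    rcases hm with h | h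
    · rw [h]
      exact min_le_left _ _
    · rw [h]
      exact min_le_right _ _
  obtain ⟨h2, h3⟩ := pr_twelve hu hv (h1.trans hR) h
  rcases hm with h | h
  · rw [h]
    exact h2
  · rw [h]
    exact h3

theorem WPatC_core {S a s b a' s' b' : ℝ} (ha : 0 ≤ a) (hS0 : 0 ≤ S)
    (_h1 : S < 12 * a) (h2 : S < 12 * s) (_h3 : S < 12 * b) (h4 : S < 12 * a') (h5 : S < 12 * s')
    (h6 : S < 12 * b') (hab : a ≤ b)
    (hS : a + s + b + a' + s' + b' ≤ S)
    (hI : f s + f b + f (S - a - s - b) < f S)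
    (K : f a + f s + f b + f a' + f s' + f b' < f S) : False := by
  rcases le_or_gt a s with has | has
  · rcases le_or_gt (100 * a) (23 * S) with h | h
    · have h7 := n2 (S := S) (m := a) (s := s) (b := b) (R := S - a - s - b) ha has hab
        (by linarith) (by ring) h
      linarith
    · have h7 := n4d (S := S) (x1 := a) (x2 := s) (x3 := b) (x4 := a') (x5 := s') (x6 := b') hS0
        (by linarith) (by linarith) (by linarith) (by linarith) (by linarith) (by linarith)
      linarith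
  · rcases le_or_gt (5 * a) S with h | h
    · have h7 := n3 (S := S) (a := a) (s := s) (b := b) (R := S - a - s - b) ha h2.le hab
        (by linarith) h (by ring) hS0
      linarith
    · have h7 := n4c (S := S) (x1 := a) (x2 := b) (x3 := s) (x4 := a') (x5 := s') (x6 := b') hS0
        (by linarith) (by linarith) (by linarith) (by linarith) (by linarith) (by linarith)
      linarith

/-- pattern 2, opposite ears `s` (siblings `a, b`) and `s'` (siblings `a', b'`).  As pattern 1, now
`R ≥ a' + s' + b' > S/4`. -/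
theorem pat2opp {S a s b a' s' b' : ℝ} (ha : 0 ≤ a) (hs : 0 ≤ s) (hb : 0 ≤ b)
    (ha' : 0 ≤ a') (hs' : 0 ≤ s') (hb' : 0 ≤ b')
    (hS : a + s + b + a' + s' + b' ≤ S)
    (hA : Pr S a s) (hB : Pr S s b) (hC : Pr S a' s') (hD : Pr S s' b') (hI : Ir S a s b)
    (K : f a + f s + f b + f a' + f s' + f b' < f S) : False := by
  obtain ⟨m, hm, m1, m2, m3, m4, m5, m6⟩ := WPatC_min a s b a' s' b'
  have h12 : S < 12 * m := by
    rcases hm with h | h | h | h | h | h
    · exact WPatC_pair ha hs hA (Or.inl h) (by linarith)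
    · exact WPatC_pair ha hs hA (Or.inr h) (by linarith)
    · exact WPatC_pair hs hb hB (Or.inr h) (by linarith)
    · exact WPatC_pair ha' hs' hC (Or.inl h) (by linarith)
    · exact WPatC_pair ha' hs' hC (Or.inr h) (by linarith)
    · exact WPatC_pair hs' hb' hD (Or.inr h) (by linarith)
  have hS0 : 0 ≤ S := by linarith
  rcases le_total a b with hab | hab
  · exact WPatC_core ha hS0 (by linarith) (by linarith) (by linarith) (by linarith) (by linarith)
      (by linarith) hab hS hI.1 K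
  · have e : S - b - s - a = S - a - s - b := by ring
    refine WPatC_core (S := S) (a := b) (s := s) (b := a) (a' := a') (s' := s') (b' := b') hb hS0
      (by linarith) (by linarith) (by linarith) (by linarith) (by linarith)
      (by linarith) hab (by linarith) ?_ (by linarith)
    rw [e]
    exact hI.2

/-- pattern 2, adjacent ears `s, s'` : sibling chain `b - s - s' - d`, and one more pair.  All six are
`> S/12`; `m` = smallest of `b, s, s', d`, `4 m + S/6 ≤ S`; lose `m`, keep two of the others, the rest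
contains the fourth one: `n2`. -/
theorem pat2adj {S b s s' d c1 c2 : ℝ} (hb : 0 ≤ b) (hs : 0 ≤ s) (hs' : 0 ≤ s') (hd : 0 ≤ d)
    (hc1 : 0 ≤ c1) (hc2 : 0 ≤ c2) (hS : b + s + s' + d + c1 + c2 ≤ S)
    (hA : Pr S b s) (hB : Pr S s s') (hC : Pr S s' d) (hD : Pr S c1 c2)
    (hI : Ir S b s s') (hI' : Ir S s s' d) : False := by
  obtain ⟨m, hm, m1, m2, m3, m4, m5, m6⟩ := WPatC_min b s s' d c1 c2
  have h12 : S < 12 * m := by
    rcases hm with h | h | h | h | h | h
    · exact WPatC_pair hb hs hA (Or.inl h) (by linarith)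
    · exact WPatC_pair hb hs hA (Or.inr h) (by linarith)
    · exact WPatC_pair hs' hd hC (Or.inl h) (by linarith)
    · exact WPatC_pair hs' hd hC (Or.inr h) (by linarith)
    · exact WPatC_pair hc1 hc2 hD (Or.inl h) (by linarith)
    · exact WPatC_pair hc1 hc2 hD (Or.inr h) (by linarith)
  obtain ⟨k, hk, k1, k2, k3, k4, _, _⟩ := WPatC_min b s s' d b b
  have hk2 : 100 * k ≤ 23 * S := by linarith
  have hk' : k = b ∨ k = s ∨ k = s' ∨ k = d := by tauto
  rcases hk' with h | h | h | h
  · subst h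
    have h7 := n2 (S := S) (m := k) (s := s) (b := s') (R := S - k - s - s') hb k2 k3
      (by linarith) (by ring) hk2
    linarith [hI.1]
  · subst h
    have h7 := n2 (S := S) (m := k) (s := s') (b := d) (R := S - k - s' - d) hs k3 k4
      (by linarith) (by ring) hk2
    linarith [hI'.1]
  · subst h
    have h7 := n2 (S := S) (m := k) (s := s) (b := b) (R := S - b - s - k) hs' k2 k1
      (by linarith) (by ring) hk2
    linarith [hI.2]
  · subst h
    have h7 := n2 (S := S) (m := k) (s := s') (b := s) (R := S - s - s' - k) hd k3 k2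
      (by linarith) (by ring) hk2
    linarith [hI'.2]

end P3W
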