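import Pool.Agent.Lib_MP_b306af.WPatA

set_option autoImplicit false

namespace P3W

open P4 P3

private theorem patD_min2 (x y : ℝ) : ∃ m, m ≤ x ∧ m ≤ y ∧ (m = x ∨ m = y) := by
  rcases le_total x y with h | h
  · exact ⟨x, le_rfl, h, Or.inl rfl⟩
  · exact ⟨y, h, le_rfl, Or.inr rfl⟩

private theorem patD_n2 {S m s b R : ℝ} (hm : 0 ≤ m) (h1 : m ≤ s) (h2 : m ≤ b) (h3 : m ≤ R)
    (hS : m + s + b + R = S) (h : 100 * m ≤ 23 * S) (hlt : f s + f b + f R < f S) : False :=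
  absurd (n2 hm h1 h2 h3 hS h) (not_le.2 hlt)

/-- pattern 3 : chain `b - s - s' - s'' - d`; `m` = smallest, `5 m ≤ S`, `n2`. -/
theorem pat3 {S b s s' s'' d : ℝ} (hb : 0 ≤ b) (hs : 0 ≤ s) (hs' : 0 ≤ s') (hs'' : 0 ≤ s'')
    (hd : 0 ≤ d) (hS : b + s + s' + s'' + d ≤ S)
    (hI : Ir S b s s') (hI' : Ir S s s' s'') (hI'' : Ir S s' s'' d) : False := by
  obtain ⟨a1, a2⟩ := hI
  obtain ⟨b1, b2⟩ := hI'
  obtain ⟨c1, c2⟩ := hI''
  obtain ⟨m1, l1, l2, e1⟩ := patD_min2 s'' d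
  obtain ⟨m2, l3, l4, e2⟩ := patD_min2 s' m1
  obtain ⟨m3, l5, l6, e3⟩ := patD_min2 s m2
  obtain ⟨m, l7, l8, e4⟩ := patD_min2 b m3
  have k1 : m ≤ s := by linarith
  have k2 : m ≤ s' := by linarith
  have k3 : m ≤ s'' := by linarith
  have k4 : m ≤ d := by linarith
  have hall : m = b ∨ m = s ∨ m = s' ∨ m = s'' ∨ m = d := by
    rcases e4 with h | h
    · exact Or.inl h
    rcases e3 with h' | h'
    · exact Or.inr (Or.inl (h.trans h'))
    rcases e2 with h'' | h''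
    · exact Or.inr (Or.inr (Or.inl (h.trans (h'.trans h''))))
    rcases e1 with h3 | h3
    · exact Or.inr (Or.inr (Or.inr (Or.inl (h.trans (h'.trans (h''.trans h3))))))
    · exact Or.inr (Or.inr (Or.inr (Or.inr (h.trans (h'.trans (h''.trans h3))))))
  rcases hall with h | h | h | h | h <;> rw [h] at l7 k1 k2 k3 k4
  · exact patD_n2 hb k1 k2 (by linarith) (by ring) (by linarith) a1
  · exact patD_n2 hs k2 k3 (by linarith) (by ring) (by linarith) b1
  · exact patD_n2 hs' k1 l7 (by linarith) (by ring) (by linarith) a2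
  · exact patD_n2 hs'' k2 k1 (by linarith) (by ring) (by linarith) b2
  · exact patD_n2 hd k3 k2 (by linarith) (by ring) (by linarith) c2

/-- pattern 4 : all four faces are ears, cyclic order `s1 s2 s3 s4`; `m` = smallest; `n2` if
`100 m ≤ 23 S`, otherwise `n4b` against `K`. -/
theorem pat4 {S s1 s2 s3 s4 : ℝ} (h1 : 0 ≤ s1) (h2 : 0 ≤ s2) (h3 : 0 ≤ s3) (h4 : 0 ≤ s4)
    (hS : s1 + s2 + s3 + s4 ≤ S)
    (hI1 : Ir S s4 s1 s2) (hI2 : Ir S s1 s2 s3) (hI3 : Ir S s2 s3 s4) (hI4 : Ir S s3 s4 s1)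
    (K : f s1 + f s2 + f s3 + f s4 < f S) : False := by
  obtain ⟨a1, a2⟩ := hI1
  obtain ⟨b1, b2⟩ := hI2
  obtain ⟨m1, l1, l2, e1⟩ := patD_min2 s3 s4
  obtain ⟨m2, l3, l4, e2⟩ := patD_min2 s2 m1
  obtain ⟨m, l5, l6, e3⟩ := patD_min2 s1 m2
  have k2 : m ≤ s2 := by linarith
  have k3 : m ≤ s3 := by linarith
  have k4 : m ≤ s4 := by linarith
  by_cases hm : 100 * m ≤ 23 * S
  · have hall : m = s1 ∨ m = s2 ∨ m = s3 ∨ m = s4 := by
      rcases e3 with h | h
      · exact Or.inl h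
      rcases e2 with h' | h'
      · exact Or.inr (Or.inl (h.trans h'))
      rcases e1 with h'' | h''
      · exact Or.inr (Or.inr (Or.inl (h.trans (h'.trans h''))))
      · exact Or.inr (Or.inr (Or.inr (h.trans (h'.trans h''))))
    rcases hall with h | h | h | h <;> rw [h] at l5 k2 k3 k4 hm
    · exact patD_n2 h1 k2 k3 (by linarith) (by ring) hm b1
    · exact patD_n2 h2 l5 k4 (by linarith) (by ring) hm a2
    · exact patD_n2 h3 k2 l5 (by linarith) (by ring) hm b2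
    · exact patD_n2 h4 l5 k2 (by linarith) (by ring) hm a1
  · push Not at hm
    have := n4b (S := S) (x1 := s1) (x2 := s2) (x3 := s3) (x4 := s4) (by linarith) (by linarith)
      (by linarith) (by linarith) (by linarith)
    linarith

end P3W
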