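import Pool.Agent.Lib_MP_b306af.WPatA

set_option autoImplicit false

namespace P3W

open P4 P3

private theorem pat1_core {S a s b c1 c2 d1 d2 : ℝ} (hS0 : 0 ≤ S) (ha : S < 12 * a)
    (hs : S < 12 * s) (hb : S < 12 * b) (hc1 : S < 12 * c1) (hc2 : S < 12 * c2)
    (hd1 : S < 12 * d1) (hd2 : S < 12 * d2)
    (hS : a + s + b + c1 + c2 + d1 + d2 ≤ S) (hab : a ≤ b)
    (hI : f s + f b + f (S - a - s - b) < f S)
    (K : f a + f s + f b + f c1 + f c2 + f d1 + f d2 < f S) : False := by
  have hd2' : 0 ≤ f d2 := f_nonneg (by linarith)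
  by_cases h1 : a ≤ s
  · by_cases h2 : 100 * a ≤ 23 * S
    · have := n2 (S := S) (m := a) (s := s) (b := b) (R := S - a - s - b) (by linarith) h1 hab
        (by linarith) (by ring) h2
      linarith
    · push Not at h2
      have := n4d (S := S) (x1 := a) (x2 := s) (x3 := b) (x4 := c1) (x5 := c2) (x6 := d1) hS0
        (by linarith) (by linarith) (by linarith) hc1.le hc2.le hd1.le
      linarith
  · push Not at h1
    by_cases h2 : 5 * a ≤ S
    · have := n3 (S := S) (a := a) (s := s) (b := b) (R := S - a - s - b) (by linarith)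
        hs.le hab (by linarith) h2 (by ring) hS0
      linarith
    · push Not at h2
      have := n4c (S := S) (x1 := a) (x2 := b) (x3 := s) (x4 := c1) (x5 := c2) (x6 := d1) hS0
        (by linarith) (by linarith) hs.le hc1.le hc2.le hd1.le
      linarith

/-- pattern 1 : one ear `s` with siblings `a, b` and two more pairs.  All seven are `> S/12` (smallest
one and `pr_twelve`).  Wlog `a ≤ b` (everything is symmetric).  `R = S - a - s - b ≥ c1 + c2 + d1 + d2 ≥ S/3`.
If `a ≤ s` : if `100 a ≤ 23 S` use `n2` (lose `a`), otherwise `n4d` against `K`.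
If `s < a` : if `5 a ≤ S` use `n3` (lose `a`), otherwise `n4c` against `K`. -/
theorem pat1 {S a s b c1 c2 d1 d2 : ℝ} (ha : 0 ≤ a) (hs : 0 ≤ s) (hb : 0 ≤ b)
    (hc1 : 0 ≤ c1) (hc2 : 0 ≤ c2) (hd1 : 0 ≤ d1) (hd2 : 0 ≤ d2)
    (hS : a + s + b + c1 + c2 + d1 + d2 ≤ S)
    (hA : Pr S a s) (hB : Pr S s b) (hC : Pr S c1 c2) (hD : Pr S d1 d2) (hI : Ir S a s b)
    (K : f a + f s + f b + f c1 + f c2 + f d1 + f d2 < f S) : False := by
  have hmin : ∃ m, (m ≤ a ∧ m ≤ s ∧ m ≤ b ∧ m ≤ c1 ∧ m ≤ c2 ∧ m ≤ d1 ∧ m ≤ d2) ∧
      (m = min a s ∨ m = min s b ∨ m = min c1 c2 ∨ m = min d1 d2) := by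
    refine ⟨min (min (min a s) (min s b)) (min (min c1 c2) (min d1 d2)), ?_, ?_⟩
    · refine ⟨?_, ?_, ?_, ?_, ?_, ?_, ?_⟩ <;> simp
    · rcases min_choice (min (min a s) (min s b)) (min (min c1 c2) (min d1 d2)) with h | h
      · rw [h]
        rcases min_choice (min a s) (min s b) with h | h
        · rw [h]; exact Or.inl rfl
        · rw [h]; exact Or.inr (Or.inl rfl)
      · rw [h]
        rcases min_choice (min c1 c2) (min d1 d2) with h | h
        · rw [h]; exact Or.inr (Or.inr (Or.inl rfl))
        · rw [h]; exact Or.inr (Or.inr (Or.inr rfl))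
  obtain ⟨m, ⟨ma, ms, mb, mc1, mc2, md1, md2⟩, hm⟩ := hmin
  have hm12 : S < 12 * m := by
    rcases hm with h | h | h | h
    · have := pr_twelve ha hs (by rw [← h]; linarith) hA
      have h2 : S / 12 < m := by
        rw [h]
        exact lt_min (by linarith) (by linarith)
      linarith
    · have := pr_twelve hs hb (by rw [← h]; linarith) hB
      have h2 : S / 12 < m := by
        rw [h]
        exact lt_min (by linarith) (by linarith)
      linarith
    · have := pr_twelve hc1 hc2 (by rw [← h]; linarith) hC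
      have h2 : S / 12 < m := by
        rw [h]
        exact lt_min (by linarith) (by linarith)
      linarith
    · have := pr_twelve hd1 hd2 (by rw [← h]; linarith) hD
      have h2 : S / 12 < m := by
        rw [h]
        exact lt_min (by linarith) (by linarith)
      linarith
  have hS0 : 0 ≤ S := by linarith
  rcases le_total a b with hab | hab
  · exact pat1_core hS0 (by linarith) (by linarith) (by linarith) (by linarith) (by linarith)
      (by linarith) (by linarith) hS hab hI.1 K
  · refine pat1_core (a := b) (s := s) (b := a) (c1 := c1) (c2 := c2) (d1 := d1) (d2 := d2) hS0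
      (by linarith) (by linarith) (by linarith) (by linarith) (by linarith)
      (by linarith) (by linarith) (by linarith) hab ?_ (by linarith)
    have h := hI.2
    have e : S - b - s - a = S - a - s - b := by ring
    rw [e]
    exact h

end P3W
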