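import Pool.Agent.Lib_MP_b306af.WPatB
import Pool.Agent.Lib_MP_b306af.WPatC
import Pool.Agent.Lib_MP_b306af.WPatD
import Pool.Agent.Lib_MP_b306af.WPatE

set_option autoImplicit false

namespace P3W

open P4 P3





end P3W
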