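import Pool.Agent.Lib_MP_b306af.WNum

set_option autoImplicit false

namespace P3W

open P4 P3



def Pr (S u v : ℝ) : Prop := f u + f (S - u - v) < f S ∧ f v + f (S - u - v) < f S

def Ir (S a s b : ℝ) : Prop :=
  f s + f b + f (S - a - s - b) < f S ∧ f s + f a + f (S - a - s - b) < f S

end P3W
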