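import Pool.Agent.Lib_MP_b306af.WPat0

set_option autoImplicit false

namespace P3W

open P4 P3



/-- if the smaller one of a sibling pair is at most `S/12` and there is enough rest, the pair bound
holds; so a failing pair has both weights `> S/12`, provided that every weight is at most the rest.
Proof: `n1` with `m = min u v`, `M = max u v`, `R = S - u - v`. -/
theorem pr_twelve {S u v : ℝ} (hu : 0 ≤ u) (hv : 0 ≤ v) (hR : min u v ≤ S - u - v)
    (h : Pr S u v) : S < 12 * u ∧ S < 12 * v := by
  obtain ⟨h1, h2⟩ := h
  rcases le_total u v with huv | huv
  · rw [min_eq_left huv] at hR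
    have h3 : S < 12 * u := by
      by_contra hcon
      push Not at hcon
      have := n1 (S := S) hu huv hR (by ring) hcon
      linarith
    exact ⟨h3, by linarith⟩
  · rw [min_eq_right huv] at hR
    have h3 : S < 12 * v := by
      by_contra hcon
      push Not at hcon
      have := n1 (S := S) (M := u) (R := S - u - v) hv huv hR (by ring) hcon
      linarith
    exact ⟨by linarith, h3⟩

end P3W
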