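import Pool.Agent.Lib_MP_b306af.WPatA

set_option autoImplicit false

namespace P3W

open P4 P3



/-- pattern 0: no ears, eight faces.  Let `m` be the smallest of the eight; its pair satisfies
`min ≤ S - u - v` (the rest contains another face, which is `≥ m`), so by `pr_twelve` `S < 12 m`, all eight
are `> S/12` and `n4a` contradicts `K`. -/
theorem pat0 {S a1 a2 b1 b2 c1 c2 d1 d2 : ℝ} (ha1 : 0 ≤ a1) (ha2 : 0 ≤ a2) (hb1 : 0 ≤ b1)
    (hb2 : 0 ≤ b2) (hc1 : 0 ≤ c1) (hc2 : 0 ≤ c2) (hd1 : 0 ≤ d1) (hd2 : 0 ≤ d2)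
    (hS : a1 + a2 + b1 + b2 + c1 + c2 + d1 + d2 ≤ S)
    (hA : Pr S a1 a2) (hB : Pr S b1 b2) (hC : Pr S c1 c2) (hD : Pr S d1 d2)
    (K : f a1 + f a2 + f b1 + f b2 + f c1 + f c2 + f d1 + f d2 < f S) : False := by
  have hS0 : 0 ≤ S := by linarith
  have ea1 : min a1 a2 ≤ a1 := min_le_left _ _
  have ea2 : min a1 a2 ≤ a2 := min_le_right _ _
  have eb1 : min b1 b2 ≤ b1 := min_le_left _ _
  have eb2 : min b1 b2 ≤ b2 := min_le_right _ _
  have ec1 : min c1 c2 ≤ c1 := min_le_left _ _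
  have ec2 : min c1 c2 ≤ c2 := min_le_right _ _
  have ed1 : min d1 d2 ≤ d1 := min_le_left _ _
  have ed2 : min d1 d2 ≤ d2 := min_le_right _ _
  have key : ∀ m : ℝ, m ≤ min a1 a2 → m ≤ min b1 b2 → m ≤ min c1 c2 → m ≤ min d1 d2 →
      S < 12 * m → False := by
    intro m h1 h2 h3 h4 h5
    have := n4a (S := S) (x1 := a1) (x2 := a2) (x3 := b1) (x4 := b2) (x5 := c1) (x6 := c2)
      (x7 := d1) (x8 := d2) hS0 (by linarith) (by linarith) (by linarith) (by linarith)
      (by linarith) (by linarith) (by linarith) (by linarith)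
    linarith
  have step : ∀ u v : ℝ, 0 ≤ u → 0 ≤ v → Pr S u v → min u v ≤ S - u - v → S < 12 * min u v := by
    intro u v hu hv hP hR
    obtain ⟨k1, k2⟩ := pr_twelve hu hv hR hP
    rcases min_choice u v with h | h <;> rw [h] <;> assumption
  rcases le_total (min a1 a2) (min b1 b2) with h1 | h1
  · rcases le_total (min c1 c2) (min d1 d2) with h2 | h2
    · rcases le_total (min a1 a2) (min c1 c2) with h3 | h3
      · exact key _ le_rfl h1 h3 (h3.trans h2) (step a1 a2 ha1 ha2 hA (by linarith))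
      · exact key _ h3 (h3.trans h1) le_rfl h2 (step c1 c2 hc1 hc2 hC (by linarith))
    · rcases le_total (min a1 a2) (min d1 d2) with h3 | h3
      · exact key _ le_rfl h1 (h3.trans h2) h3 (step a1 a2 ha1 ha2 hA (by linarith))
      · exact key _ h3 (h3.trans h1) h2 le_rfl (step d1 d2 hd1 hd2 hD (by linarith))
  · rcases le_total (min c1 c2) (min d1 d2) with h2 | h2
    · rcases le_total (min b1 b2) (min c1 c2) with h3 | h3
      · exact key _ h1 le_rfl h3 (h3.trans h2) (step b1 b2 hb1 hb2 hB (by linarith))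
      · exact key _ (h3.trans h1) h3 le_rfl h2 (step c1 c2 hc1 hc2 hC (by linarith))
    · rcases le_total (min b1 b2) (min d1 d2) with h3 | h3
      · exact key _ h1 le_rfl (h3.trans h2) h3 (step b1 b2 hb1 hb2 hB (by linarith))
      · exact key _ (h3.trans h1) h3 h2 le_rfl (step d1 d2 hd1 hd2 hD (by linarith))

end P3W
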