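import Pool.Agent.Lib_MP_b306af.WLoc
import Pool.Agent.Lib_MP_b306af.WPat

/-!
# MP_b306af, WF: the situation (definitions) and its symmetries
-/

set_option autoImplicit false

namespace P3W

open P4 P3

variable {V : Type}

/-- everything known in case 1 with eight different vertices, and the negation of the claim -/
structure Sit (T : Tri V) (ι : Type) (F : Fam T ι) (h h' t t' r1 r2 r3 r4 : V) : Prop where
  L : Loc8 T h h' t t' r1 r2 r3 r4
  link : LinkOne T
  IH : ∀ T' : Tri V, nv T' < nv T → TT T'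
  contr : ContrEx V
  jordan : ¬ (T.Adj r1 r4 ∧ T.Adj r2 r3)
  no : ¬ VAL T h h' t t' F (f F.tot)

variable {T : Tri V} {ι : Type} {F : Fam T ι} {h h' t t' r1 r2 r3 r4 : V}

theorem Sit.rot (H : Sit T ι F h h' t t' r1 r2 r3 r4) : Sit T ι F h' h t' t r4 r3 r2 r1 where
  L := H.L.rot
  link := H.link
  IH := H.IH
  contr := H.contr
  jordan := fun hh => H.jordan ⟨hh.1.symm, hh.2.symm⟩
  no := fun hh => H.no hh.of_rot

theorem Sit.mirror (H : Sit T ι F h h' t t' r1 r2 r3 r4) :
    Sit T.mirror ι F.mirror h' h t t' r2 r1 r4 r3 where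
  L := H.L.mirror
  link := H.link.mirror
  IH := fun T' hT' => H.IH T' (by rw [← nv_mirror T]; exact hT')
  contr := H.contr
  jordan := fun hh => H.jordan ⟨(Tri.mirror_Adj T _ _).1 hh.2, (Tri.mirror_Adj T _ _).1 hh.1⟩
  no := fun hh => H.no (VAL.of_mirror (by rw [tot_mirror] at hh; exact hh))

/-- if some bond gives `y` then `y < f S` -/
theorem Sit.lt (H : Sit T ι F h h' t t' r1 r2 r3 r4) {y : ℝ} (hy : VAL T h h' t t' F y) :
    y < f F.tot := by
  by_contra hc
  push_neg at hc
  obtain ⟨c, h1, h2, h3, h4, h5, h6⟩ := hy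
  exact H.no ⟨c, h1, h2, h3, h4, h5, hc.trans h6⟩

end P3W
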