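import Pool.Agent.Lib_MP_b306af.WSum0

set_option autoImplicit false

namespace P3W

open P4 P3

variable {V : Type} {T : Tri V} {ι : Type}

open Classical in
private theorem wsumb_aux (F : Fam T ι) (E : List (V × V)) (hE : E.Pairwise (Apart T)) :
    ∑ i ∈ F.D.filter (fun i => ∀ e ∈ E, ¬ HasD e.1 e.2 (F.p i) (F.q i) (F.x i)), F.w i
      = F.tot - (E.map fun e => F.wd e.1 e.2).sum := by
  induction E with
  | nil => simp [Fam.tot]
  | cons e E ih =>
    rw [List.pairwise_cons] at hE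
    have ih' := ih hE.2
    rw [List.map_cons, List.sum_cons]
    have h1 : ∑ i ∈ (F.D.filter
          (fun i => ∀ e ∈ E, ¬ HasD e.1 e.2 (F.p i) (F.q i) (F.x i))).filter
            (fun i => HasD e.1 e.2 (F.p i) (F.q i) (F.x i)), F.w i = F.wd e.1 e.2 := by
      unfold Fam.wd
      apply Finset.sum_congr _ (fun _ _ => rfl)
      ext i
      simp only [Finset.mem_filter]
      constructor
      · rintro ⟨⟨h1, _⟩, h3⟩
        exact ⟨h1, h3⟩
      · rintro ⟨h1, h3⟩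
        exact ⟨⟨h1, fun e' he' h4 => hE.1 e' he' _ _ _ (F.face i h1) ⟨h3, h4⟩⟩, h3⟩
    have h2 : ∑ i ∈ (F.D.filter
          (fun i => ∀ e ∈ E, ¬ HasD e.1 e.2 (F.p i) (F.q i) (F.x i))).filter
            (fun i => ¬ HasD e.1 e.2 (F.p i) (F.q i) (F.x i)), F.w i
        = ∑ i ∈ F.D.filter
          (fun i => ∀ e' ∈ e :: E, ¬ HasD e'.1 e'.2 (F.p i) (F.q i) (F.x i)), F.w i := by
      apply Finset.sum_congr _ (fun _ _ => rfl)
      ext i
      simp only [Finset.mem_filter, List.forall_mem_cons]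
      tauto
    have h3 := Finset.sum_filter_add_sum_filter_not (F.D.filter
          (fun i => ∀ e ∈ E, ¬ HasD e.1 e.2 (F.p i) (F.q i) (F.x i)))
            (fun i => HasD e.1 e.2 (F.p i) (F.q i) (F.x i)) F.w
    rw [h1, h2] at h3
    linarith

/-- weights of pairwise different faces -/
theorem sum_wd_le (F : Fam T ι) (E : List (V × V)) (hE : E.Pairwise (Apart T)) :
    (E.map fun e => F.wd e.1 e.2).sum ≤ F.tot := by
  classical
  have h := wsumb_aux F E hE
  have h0 : 0 ≤ ∑ i ∈ F.D.filter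
      (fun i => ∀ e ∈ E, ¬ HasD e.1 e.2 (F.p i) (F.q i) (F.x i)), F.w i :=
    Finset.sum_nonneg fun i hi => F.pos i (Finset.mem_filter.1 hi).1
  linarith

/-- the total weight of the indices which avoid all the darts of `E` -/
theorem sum_rest (F : Fam T ι) (E : List (V × V)) (hE : E.Pairwise (Apart T)) (K : Finset ι)
    (hK : ∀ i, i ∈ K ↔ i ∈ F.D ∧ ∀ e ∈ E, ¬ HasD e.1 e.2 (F.p i) (F.q i) (F.x i)) :
    ∑ i ∈ K, F.w i = F.tot - (E.map fun e => F.wd e.1 e.2).sum := by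
  classical
  rw [← wsumb_aux F E hE]
  apply Finset.sum_congr _ (fun _ _ => rfl)
  ext i
  rw [hK, Finset.mem_filter]

/-- two darts without a common face: criterion -/
theorem apart_of {a b d a' b' : V} (h : T.F a b d) (h1 : ¬ (a' = a ∧ b' = b))
    (h2 : ¬ (a' = b ∧ b' = d)) (h3 : ¬ (a' = d ∧ b' = a)) : Apart T (a, b) (a', b') := by
  rintro x y z hF ⟨hd, hd'⟩
  simp only at hd hd'
  rcases hasD_cyc h hF hd with ⟨rfl, rfl, rfl⟩ | ⟨rfl, rfl, rfl⟩ | ⟨rfl, rfl, rfl⟩ <;>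
    rcases hd' with ⟨h4, h5⟩ | ⟨h4, h5⟩ | ⟨h4, h5⟩ <;>
      first
        | exact h1 ⟨h4.symm, h5.symm⟩
        | exact h2 ⟨h4.symm, h5.symm⟩
        | exact h3 ⟨h4.symm, h5.symm⟩

end P3W
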