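import Pool.Agent.Lib_MP_b306af.WSumA
import Pool.Agent.Lib_MP_b306af.WSumB

set_option autoImplicit false

namespace P3W

open P4 P3

variable {V : Type} {T : Tri V} {ι : Type}

/-- special case `K = ∅` -/
theorem combine0 (F : Fam T ι) (c : V → Bool) (E : List (V × V)) (hE : E.Pairwise (Apart T))
    (hb : ∀ e ∈ E, Bi T c e) : (E.map fun e => f (F.wd e.1 e.2)).sum ≤ F.gain c := by
  have := combine F c ∅ (by simp) (by simp [f_zero]) E hE hb (by simp)
  simpa [f_zero] using this

end P3W
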