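import Pool.Agent.Lib_MP_b306af.WBasic
import Pool.Agent.Lib_MP_b306af.WNum

set_option autoImplicit false

namespace P3W

open P4 P3

variable {V : Type} {T : Tri V} {ι : Type}

/-- the two darts are never in the same face -/
def Apart (T : Tri V) (e e' : V × V) : Prop :=
  ∀ a b d, T.F a b d → ¬ (HasD e.1 e.2 a b d ∧ HasD e'.1 e'.2 a b d)

/-- every face with the dart `e` is bichromatic -/
def Bi (T : Tri V) (c : V → Bool) (e : V × V) : Prop :=
  ∀ a b d, T.F a b d → HasD e.1 e.2 a b d → ¬ Mono c a b d

end P3W
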