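import Pool.Agent.Lib_MP_b306af.WSum0

set_option autoImplicit false

namespace P3W

open P4 P3

variable {V : Type} {T : Tri V} {ι : Type}

private theorem wsuma_aux {α : Type} (G : Finset ι) (g : ι → ℝ) (hg : ∀ i ∈ G, 0 ≤ g i)
    (S : α → Finset ι) (E : List α) (hE : E.Pairwise (fun e e' => Disjoint (S e) (S e')))
    (hS : ∀ e ∈ E, S e ⊆ G) :
    ∀ K : Finset ι, K ⊆ G → (∀ e ∈ E, Disjoint K (S e)) →
      ∑ i ∈ K, g i + (E.map fun e => ∑ i ∈ S e, g i).sum ≤ ∑ i ∈ G, g i := by
  classical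
  induction E with
  | nil =>
    intro K hK _
    rw [List.map_nil, List.sum_nil, add_zero]
    exact Finset.sum_le_sum_of_subset_of_nonneg hK (fun i hi _ => hg i hi)
  | cons e E ih =>
    intro K hK hd
    rw [List.pairwise_cons] at hE
    have h1 : Disjoint K (S e) := hd e List.mem_cons_self
    have h2 := ih hE.2 (fun e' he' => hS e' (List.mem_cons_of_mem _ he')) (K ∪ S e)
      (Finset.union_subset hK (hS e List.mem_cons_self)) (by
        intro e' he'
        rw [Finset.disjoint_union_left]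
        exact ⟨hd e' (List.mem_cons_of_mem _ he'), hE.1 e' he'⟩)
    rw [Finset.sum_union h1] at h2
    rw [List.map_cons, List.sum_cons, ← add_assoc]
    exact h2

/-- `K` = kept indices, `E` = darts of surely bichromatic faces which are not in `K`.
Proof: the index sets `K` and `{i ∈ D | HasD e (face i)}`, `e ∈ E`, are pairwise disjoint subsets of `D`;
`f` is subadditive (`f_sum`), all indices of the second kind are bichromatic (`Bi`). Induction on `E`. -/
theorem combine (F : Fam T ι) (c : V → Bool) (K : Finset ι) (hK : K ⊆ F.D)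
    (hKc : f (∑ i ∈ K, F.w i) ≤
      ∑ i ∈ K.filter (fun i => ¬ Mono c (F.p i) (F.q i) (F.x i)), f (F.w i))
    (E : List (V × V)) (hE : E.Pairwise (Apart T)) (hb : ∀ e ∈ E, Bi T c e)
    (hd : ∀ i ∈ K, ∀ e ∈ E, ¬ HasD e.1 e.2 (F.p i) (F.q i) (F.x i)) :
    f (∑ i ∈ K, F.w i) + (E.map fun e => f (F.wd e.1 e.2)).sum ≤ F.gain c := by
  classical
  obtain ⟨S, hS⟩ : ∃ S : V × V → Finset ι, ∀ e, S e =
    F.D.filter (fun i => HasD e.1 e.2 (F.p i) (F.q i) (F.x i)) := ⟨_, fun _ => rfl⟩
  have hwd : ∀ e, f (F.wd e.1 e.2) ≤ ∑ i ∈ S e, f (F.w i) := by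
    intro e
    have h1 : F.wd e.1 e.2 = ∑ i ∈ S e, F.w i := by
      rw [hS]
      unfold Fam.wd
      refine Finset.sum_congr ?_ (fun _ _ => rfl)
      ext i
      simp only [Finset.mem_filter]
    rw [h1]
    refine f_sum _ _ (fun i hi => F.pos i ?_)
    rw [hS, Finset.mem_filter] at hi
    exact hi.1
  have h1 : (E.map fun e => f (F.wd e.1 e.2)).sum ≤ (E.map fun e => ∑ i ∈ S e, f (F.w i)).sum :=
    List.sum_le_sum (fun e _ => hwd e)
  have h2 := wsuma_aux (F.D.filter (fun i => ¬ Mono c (F.p i) (F.q i) (F.x i))) (fun i => f (F.w i))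
    (fun i hi => f_nonneg (F.pos i (Finset.mem_filter.1 hi).1)) S E ?_ ?_
    (K.filter (fun i => ¬ Mono c (F.p i) (F.q i) (F.x i))) (Finset.filter_subset_filter _ hK) ?_
  · unfold Fam.gain
    linarith
  · refine hE.imp ?_
    intro e e' hee
    rw [hS, hS, Finset.disjoint_left]
    intro i hi hi'
    rw [Finset.mem_filter] at hi hi'
    exact hee _ _ _ (F.face i hi.1) ⟨hi.2, hi'.2⟩
  · intro e he i hi
    rw [hS, Finset.mem_filter] at hi
    rw [Finset.mem_filter]
    exact ⟨hi.1, hb e he _ _ _ (F.face i hi.1) hi.2⟩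
  · intro e he
    rw [hS, Finset.disjoint_left]
    intro i hi hi'
    rw [Finset.mem_filter] at hi hi'
    exact hd i hi.1 e he hi'.2

end P3W
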