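import Pool.Agent.Lib_MP_b306af.WTree0

set_option autoImplicit false

namespace P3W

open P4 P3

variable {V : Type} {T : Tri V} {ι : Type}

/-- the face on the left of the dart `y z` contains a vertex outside `L` with `P` -/
def TreeBG (T : Tri V) (L : List V) (P : V → Prop) (y z : V) : Prop :=
  ∃ c, T.F y z c ∧ ∃ v, (v = y ∨ v = z ∨ v = c) ∧ v ∉ L ∧ P v

theorem treeB_rot {L : List V} {P : V → Prop} {y z c : V} (h : T.F y z c)
    (hG : TreeBG T L P y z) : TreeBG T L P z c := by
  obtain ⟨c', h', v, hv, hL, hP⟩ := hG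
  obtain rfl := T.uniq _ _ _ _ h h'
  exact ⟨y, T.cyc _ _ _ h, v, by tauto, hL, hP⟩

theorem treeB_rot_iff {L : List V} {P : V → Prop} {y z c : V} (h : T.F y z c) :
    TreeBG T L P y z ↔ TreeBG T L P z c :=
  ⟨treeB_rot h, fun h' => treeB_rot (T.cyc2 h) (treeB_rot (T.cyc _ _ _ h) h')⟩

/-- the property at a vertex outside `L` -/
theorem treeB_left {L : List V} {P : V → Prop}
    (hP : ∀ a b, T.Supp a → a ∉ L → T.Supp b → b ∉ L → T.Adj a b → P a → P b)
    {y z : V} (h : T.Adj y z) (hy : y ∉ L) : TreeBG T L P y z ↔ P y := by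
  constructor
  · rintro ⟨c, hc, v, hv, hL, hPv⟩
    have s1 : T.Supp y := ⟨z, c, hc⟩
    rcases hv with rfl | rfl | rfl
    · exact hPv
    · exact hP _ _ (Tri.Adj.symm h).supp hL s1 hy (Tri.Adj.symm h) hPv
    · have h3 : T.Adj v y := adj3 hc
      exact hP _ _ h3.supp hL s1 hy h3 hPv
  · intro hPy
    obtain ⟨c, hc⟩ := h
    exact ⟨c, hc, y, Or.inl rfl, hy, hPy⟩

theorem treeB_right {L : List V} {P : V → Prop}
    (hP : ∀ a b, T.Supp a → a ∉ L → T.Supp b → b ∉ L → T.Adj a b → P a → P b)
    {y z : V} (h : T.Adj y z) (hz : z ∉ L) : TreeBG T L P y z ↔ P z := by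
  obtain ⟨c, hc⟩ := h
  rw [treeB_rot_iff hc]
  exact treeB_left hP ⟨y, T.cyc _ _ _ hc⟩ hz

/-- peeling off the vertices of the list -/
theorem treeB_peel (hK : LinkOne T) {L : List V} {P : V → Prop} :
    ∀ L' : List V, TreeList T L' →
      (∀ y z, T.Adj y z → (y ∉ L' ∨ z ∉ L') → (TreeBG T L P y z ↔ TreeBG T L P z y)) →
      ∀ y z, T.Adj y z → (TreeBG T L P y z ↔ TreeBG T L P z y)
  | [], hT, _ => absurd hT (by simp [TreeList])
  | [v], _, hB => by
    intro y z h
    by_cases hy : y = v
    · refine hB y z h (Or.inr ?_)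
      rw [List.mem_singleton]
      exact fun hz => h.ne (hy.trans hz.symm)
    · refine hB y z h (Or.inl ?_)
      rwa [List.mem_singleton]
  | v :: w :: L3, hT, hB => by
    obtain ⟨-, hv, ⟨u, hu, hvu, huniq⟩, hT'⟩ := hT
    refine treeB_peel hK (w :: L3) hT' ?_
    have huv : TreeBG T L P v u ↔ TreeBG T L P u v := by
      have hQ : ∀ a b, T.F v a b → (TreeBG T L P v a ↔ TreeBG T L P v u) →
          (TreeBG T L P v b ↔ TreeBG T L P v u) := by
        intro a b hF hQa
        by_cases hb : b = u
        · rw [hb]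
        · have h1 : T.Adj v b := ⟨_, T.opp _ _ _ (T.cyc2 hF) |>.choose_spec⟩
          have hbn : b ∉ v :: w :: L3 := by
            intro hmem
            rcases List.mem_cons.1 hmem with h2 | h2
            · exact h1.ne h2.symm
            · exact hb (huniq b h2 h1)
          have h3 := hB v b h1 (Or.inr hbn)
          have h4 : TreeBG T L P v a ↔ TreeBG T L P b v := by
            rw [treeB_rot_iff hF]
            exact treeB_rot_iff (T.cyc _ _ _ hF)
          rw [h3, ← h4, hQa]
      obtain ⟨a, ha⟩ : ∃ a, T.F u v a := Tri.Adj.symm hvu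
      have hF : T.F v a u := T.cyc _ _ _ ha
      have h5 := hK v (fun a => (TreeBG T L P v a ↔ TreeBG T L P v u)) hQ u a hvu ⟨u, hF⟩ Iff.rfl
      have h6 : TreeBG T L P v a ↔ TreeBG T L P u v := by
        rw [treeB_rot_iff hF]
        exact treeB_rot_iff (T.cyc _ _ _ hF)
      rw [← h5, h6]
    intro y z h hyz
    by_cases hy : y ∈ v :: w :: L3
    · by_cases hz : z ∈ v :: w :: L3
      · rcases hyz with hyz | hyz
        · have hyv : y = v := by
            rcases List.mem_cons.1 hy with h2 | h2
            · exact h2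
            · exact absurd h2 hyz
          subst hyv
          have hzu : z = u := by
            rcases List.mem_cons.1 hz with h2 | h2
            · exact absurd h2.symm h.ne
            · exact huniq z h2 h
          rw [hzu]
          exact huv
        · have hzv : z = v := by
            rcases List.mem_cons.1 hz with h2 | h2
            · exact h2
            · exact absurd h2 hyz
          subst hzv
          have hyu : y = u := by
            rcases List.mem_cons.1 hy with h2 | h2
            · exact absurd h2 h.ne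
            · exact huniq y h2 (Tri.Adj.symm h)
          rw [hyu]
          exact huv.symm
      · exact hB y z h (Or.inr hz)
    · exact hB y z h (Or.inl hy)

/-- the complement of an induced tree is connected.
Proof: let `P` be preserved along edges outside `L`, `P a`, `a ∉ L`, `b ∉ L`; suppose `¬ P b`. For a dart
`y z` (with `T.Adj y z`) let `G y z` := the face on its left contains a vertex `v ∉ L` with `P v` (if
one vertex outside `L` of a face has `P` then all of them have). `G` is constant on the darts of a face.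
If `y ∉ L` or `z ∉ L` then `G y z ↔ G z y`. By induction on the list (peel off the head `v`, its only
neighbour in the tail is `u`): all darts `v a` with `a ≠ u` have `G v a ↔ G a v`; by `LinkOne` (with
`Q a := (G v a ↔ G v u)`) also `G v u ↔ G u v`. So `G y z ↔ G z y` for all darts and `T.trans` shows that `G` is
constant; but `G` is true at `a` and false at `b`. -/
theorem tree_compl (hK : LinkOne T) {L : List V} (hL : TreeList T L) :
    Con T.Adj {v | T.Supp v ∧ v ∉ L} := by
  intro P hP' a ha b hb hPa
  have hP : ∀ a b, T.Supp a → a ∉ L → T.Supp b → b ∉ L → T.Adj a b → P a → P b :=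
    fun a b h1 h2 h3 h4 h5 => hP' a ⟨h1, h2⟩ b ⟨h3, h4⟩ h5
  have hsym := treeB_peel (P := P) hK L hL (by
    intro y z h hyz
    rcases hyz with hy | hz
    · rw [treeB_left hP h hy, treeB_right hP (Tri.Adj.symm h) hy]
    · rw [treeB_right hP h hz, treeB_left hP (Tri.Adj.symm h) hz])
  obtain ⟨⟨a1, a2, haF⟩, haL⟩ := ha
  obtain ⟨⟨b1, b2, hbF⟩, hbL⟩ := hb
  have h0 : TreeBG T L P a a1 := ⟨a2, haF, a, Or.inl rfl, haL, hPa⟩
  have h1 := T.trans (TreeBG T L P) (fun x y z hF hG => treeB_rot hF hG)
    (fun x y z hF hG => (hsym x y ⟨z, hF⟩).1 hG) _ _ _ _ _ _ haF hbF h0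
  exact (treeB_left hP ⟨b2, hbF⟩ hbL).1 h1

end P3W
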