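import Pool.Agent.Lib_MP_b306af.WTreeA
import Pool.Agent.Lib_MP_b306af.WTreeB

set_option autoImplicit false

namespace P3W

open P4 P3

variable {V : Type} {T : Tri V} {ι : Type}

open Classical in
/-- colour the list `true`, the rest `false` (or the other way round) -/
noncomputable def colL (L : List V) (b : Bool) : V → Bool := fun z => if z ∈ L then b else !b

theorem tree_bond (hK : LinkOne T) {L : List V} (hL : TreeList T L) (b : Bool) :
    Bond T (colL L b) := by
  classical
  intro b'
  by_cases hb : b' = b
  · subst hb
    have h := tree_conn hL
    have e : {v | T.Supp v ∧ colL L b' v = b'} = {v | T.Supp v ∧ v ∈ L} := by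
      ext v
      simp only [Set.mem_setOf_eq, colL]
      by_cases hv : v ∈ L <;> simp [hv]
    rw [e]
    exact h
  · have h := tree_compl hK hL
    have e : {v | T.Supp v ∧ colL L b v = b'} = {v | T.Supp v ∧ v ∉ L} := by
      ext v
      simp only [Set.mem_setOf_eq, colL]
      by_cases hv : v ∈ L
      · simp [hv, Ne.symm hb]
      · have : (!b) = b' := by
          cases b <;> cases b' <;> simp_all
        simp [hv, this]
    rw [e]
    exact h

theorem colL_mem {L : List V} {b : Bool} {z : V} (h : z ∈ L) : colL L b z = b := by
  classical
  simp [colL, h]

theorem colL_nmem {L : List V} {b : Bool} {z : V} (h : z ∉ L) : colL L b z = !b := by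
  classical
  simp [colL, h]

end P3W
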