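import Pool.Agent.Lib_MP_b306af.WBasic

set_option autoImplicit false

namespace P3W

open P4 P3

variable {V : Type} {T : Tri V} {ι : Type}

/-- newest vertex first: every vertex of the list but the last one has exactly one neighbour among
the vertices after it; all are vertices of `T` -/
def TreeList (T : Tri V) : List V → Prop
  | [] => False
  | [v] => T.Supp v
  | v :: L => T.Supp v ∧ v ∉ L ∧ (∃ u ∈ L, T.Adj v u ∧ ∀ z ∈ L, T.Adj v z → z = u) ∧ TreeList T L

end P3W
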