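import Pool.Agent.Lib_MP_b306af.WTree0

set_option autoImplicit false

namespace P3W

open P4 P3

variable {V : Type} {T : Tri V} {ι : Type}

/-- a tree is connected -/
theorem tree_conn {L : List V} (hL : TreeList T L) : Con T.Adj {v | T.Supp v ∧ v ∈ L} := by
  induction L with
  | nil => exact absurd hL (by simp [TreeList])
  | cons v L ih =>
    cases L with
    | nil =>
      intro P _ a ha b hb hPa
      have e1 : a = v := by simpa using ha.2
      have e2 : b = v := by simpa using hb.2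
      rw [e2, ← e1]
      exact hPa
    | cons w L' =>
      obtain ⟨hv, -, ⟨u, hu, hvu, -⟩, hT⟩ := hL
      have ih' := ih hT
      intro P hP
      have hsub : ∀ x, x ∈ {v | T.Supp v ∧ v ∈ w :: L'} → x ∈ {x | T.Supp x ∧ x ∈ v :: w :: L'} :=
        fun x hx => ⟨hx.1, List.mem_cons_of_mem _ hx.2⟩
      have hP' : ∀ a ∈ {v | T.Supp v ∧ v ∈ w :: L'}, ∀ b ∈ {v | T.Supp v ∧ v ∈ w :: L'},
          a ∈ P → b ∈ P :=
        ih' P (fun a ha b hb hab hPa => hP a (hsub a ha) b (hsub b hb) hab hPa)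
      have huL : u ∈ {v | T.Supp v ∧ v ∈ w :: L'} := ⟨hvu.symm.supp, hu⟩
      have hvA : v ∈ {x | T.Supp x ∧ x ∈ v :: w :: L'} := ⟨hv, List.mem_cons_self⟩
      intro a ha b hb hPa
      rcases List.mem_cons.1 ha.2 with h1 | h1
      · rcases List.mem_cons.1 hb.2 with h2 | h2
        · rw [h2, ← h1]
          exact hPa
        · rw [h1] at hPa
          exact hP' u huL b ⟨hb.1, h2⟩ (hP v hvA u (hsub u huL) hvu hPa)
      · rcases List.mem_cons.1 hb.2 with h2 | h2
        · rw [h2]
          exact hP u (hsub u huL) v hvA hvu.symm (hP' a ⟨ha.1, h1⟩ u huL hPa)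
        · exact hP' a ⟨ha.1, h1⟩ b ⟨hb.1, h2⟩ hPa

end P3W
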